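import Pool.Agent.Work.MP_042f46_an.F.Defs

-- merged part: Pool.Agent.Work.MP_042f46_an.F.E4
section
/-!
# Extension, pull-back, circles

Plans.  `ext2`: copy `Cf.exists_ext` (file `T/D4.lean`) without the last `En_mono`; off `U` use `PE_off`, `C2_on`, `C2_one`, `C8_Ω`, `mem_U`.  `pull2`: copy `Cf.pull` with `ext2` (`η = 1`).
`circ`: `Ψ w = Φ (p + exp w)` is `LL univ` (`LL.comp`, `LL.of_diff`); `En` of `Ψ` over the rectangle `O = (log r₁, log r₀) × (-π, π)` is `En (image) Φ ≤ En univ Φ` (`En_comp_eq`, `exp` is injective there).  For almost every `x` the function `y ↦ Ψ (x + y I)` is Lipschitz on `[-π, π]` and differentiable almost everywhere with derivative at most `‖gr Ψ‖` (compare `D1_osc`, `good_line`, `D1_mp` in `T/R3.lean`), it takes the values `1` and `0` in `[-π, π]` (`Complex.arg`), so `1 ≤ ∫ ‖gr Ψ‖ ≤ (2 π ∫ ‖gr Ψ‖ ^ 2) ^ (1 / 2)`.  One may apply `D1_osc` to `Ψ` times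 a cut-off, or copy its proof with the integral over `[-π, π]`; `t = 1 / (4 π)`, `R = π` gives `1 ≤ 1 / 2 + 4 π κ`, which is enough for the constant stated.
`exists_gen`: the radii `‖ζ‖` with `φ ζ ∈ V`, `1 < ‖ζ‖` form a finite set (`φ_inj`); `exists_cf`.
-/

open Set Metric Topology Filter MeasureTheory
open scoped ENNReal NNReal

noncomputable section
namespace Pool.Agent.Work.MP_042f46_an.Fu

open Pool.Agent.Work.MP_042f46_an.Ty

theorem ext2 (C : Cf) {Ξ : ℂ → ℝ} (h : Nice Ξ) {η : ℝ≥0∞} (hη : 0 < η) :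
    ∃ (Φ : ℂ → ℝ) (R : ℝ), LL univ Φ ∧ (∀ z : ℂ, R ≤ ‖z‖ → Φ z = 0) ∧
      (∀ z, z ∉ C.U → Φ z = Ξ (C.φi z / C.ρ)) ∧ ENNReal.ofReal (2 * Real.pi) * En univ Φ ≤
        DD C.H (fun x => Ξ (eT x)) + ENNReal.ofReal (2 * Real.pi) * En {ζ | 1 < ‖ζ‖} Ξ + η := by
  have h1 : 0 < η / ENNReal.ofReal (2 * Real.pi) :=
    ENNReal.div_pos hη.ne' ENNReal.ofReal_ne_top
  obtain ⟨ε, hε, hen⟩ := C.PE_en h h1
  obtain ⟨R, hR⟩ := C.PE_far h ε
  refine ⟨C.PE Ξ ε, R, C.PE_LL h hε, hR, fun z hz => ?_, ?_⟩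
  · rw [C.PE_off Ξ ε hz, C.C2_on Ξ (C.C8_Ω hz),
      C.C2_one (not_lt.1 fun k => hz ((C.mem_U (C.C8_Ω hz)).2 k)), mul_one]
  have h2 : En univ (C.PE Ξ ε) ≤ En C.U (C.Po fun x => Ξ (eT x)) + En {ζ | 1 < ‖ζ‖} Ξ +
      η / ENNReal.ofReal (2 * Real.pi) := by
    refine (C.PE_all h ε).trans ?_
    rw [add_right_comm]
    exact add_le_add hen le_rfl
  calc ENNReal.ofReal (2 * Real.pi) * En univ (C.PE Ξ ε)
      ≤ ENNReal.ofReal (2 * Real.pi) * (En C.U (C.Po fun x => Ξ (eT x)) + En {ζ | 1 < ‖ζ‖} Ξ +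
        η / ENNReal.ofReal (2 * Real.pi)) := by gcongr
    _ ≤ _ := by
      rw [mul_add, mul_add, C.Po_en h.lipT]
      exact add_le_add le_rfl ENNReal.mul_div_le

theorem pull2 (C : Cf) {Ξ : ℂ → ℝ} (h : Nice Ξ) (hE : En {ζ | 1 < ‖ζ‖} Ξ ≤ 1) :
    DD C.H (fun x => Ξ (eT (x + (C.α : T)))) ≤
      (C.N : ℝ≥0∞) * (DD C.H (fun x => Ξ (eT x)) + C.N) := by
  have hL := h.lipT
  obtain ⟨Φ, R, hΦ, hR, hoff, hen⟩ := ext2 C h (η := 1) one_pos
  have hγ : ∀ x, Φ (C.γ x) = Ξ (eT x) := fun x => by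
    rw [hoff _ (C.γ_not_U x), C.φi_γ, mul_div_cancel_left₀ _ C.C2_ρ]
  have hL' := LipT.shift hL (C.α : T)
  have hV : IsV C.U C.Ub (C.pb Φ) :=
    LL.isV C.isOpen_U C.isCompact_Ub C.U_sub ((C.pb_LL hΦ hR).mono (subset_univ _))
  have h1 : En C.U (C.Po fun y => Ξ (eT (y + (C.α : T)))) ≤ C.d * En univ Φ :=
    (C.Po_min hL' hV fun y => (C.pb_γ Φ y).trans (hγ _)).trans (C.pb_en hΦ)
  have hd : (C.d : ℝ≥0∞) ≤ C.N := by
    have : C.d ≤ C.N := by unfold Sy.N; omega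
    exact_mod_cast this
  have h2 : ENNReal.ofReal (2 * Real.pi) * En {ζ | 1 < ‖ζ‖} Ξ + 1 ≤ C.N := by
    have h3 : (1300 : ℝ≥0∞) ≤ C.N := by
      have : 1300 ≤ C.N := by unfold Sy.N; omega
      exact_mod_cast this
    refine le_trans ?_ h3
    calc ENNReal.ofReal (2 * Real.pi) * En {ζ | 1 < ‖ζ‖} Ξ + 1
        ≤ ENNReal.ofReal 1299 * 1 + 1 := by
          gcongr
          linarith only [Real.pi_lt_d2]
      _ = 1300 := by norm_num
  rw [← C.Po_en hL']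
  calc ENNReal.ofReal (2 * Real.pi) * En C.U (C.Po fun y => Ξ (eT (y + (C.α : T))))
      ≤ ENNReal.ofReal (2 * Real.pi) * (C.d * En univ Φ) := by gcongr
    _ = C.d * (ENNReal.ofReal (2 * Real.pi) * En univ Φ) := by ring
    _ ≤ C.N * (DD C.H (fun x => Ξ (eT x)) + C.N) := by
      refine mul_le_mul' hd (hen.trans ?_)
      rw [add_assoc]
      exact add_le_add le_rfl h2

theorem E4_osc {R t κ : ℝ} (hR : 0 < R) (ht : 0 < t) (hκ : 0 ≤ κ) {Φ : ℂ → ℝ} (hΦ : LL univ Φ)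
    {c : ℂ} (hc : ‖c‖ = 1) {x : ℝ}
    (hd : ∀ᵐ y : ℝ, DifferentiableAt ℝ Φ (c * (x + y * Complex.I)))
    (he : ∫⁻ y : ℝ in Icc (-R) R, ‖gr Φ (c * (x + y * Complex.I))‖ₑ ^ 2 ≤ ENNReal.ofReal κ)
    {y y' : ℝ} (hy : y ∈ Icc (-R) R) (hy' : y' ∈ Icc (-R) R) :
    |Φ (c * (x + y * Complex.I)) - Φ (c * (x + y' * Complex.I))| ≤ t * (2 * R) + t⁻¹ * κ := by
  set m : ℝ → ℂ := fun s => c * (x + s * Complex.I) with hm
  have hder (s : ℝ) : HasDerivAt m (c * Complex.I) s := by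
    have h1 : HasDerivAt (fun s : ℝ => (s : ℂ)) 1 s := Complex.ofRealCLM.hasDerivAt
    have h2 := ((h1.mul_const Complex.I).const_add (x : ℂ)).const_mul c
    rwa [one_mul] at h2
  have hlip : LipschitzWith 1 m := LipschitzWith.of_dist_le_mul fun s s' => by
    rw [dist_eq_norm, hm]
    simp only
    rw [← mul_sub, add_sub_add_left_eq_sub, ← sub_mul, norm_mul, norm_mul, hc, Complex.norm_I,
      ← Complex.ofReal_sub, Complex.norm_real, ← dist_eq_norm]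
    simp
  obtain ⟨K, hK⟩ := (hΦ.mono (subset_univ _)).lip_compact
    ((isCompact_uIcc (a := y') (b := y)).image hlip.continuous)
  have hac := (hK.comp hlip.lipschitzOnWith (mapsTo_image _ _)).absolutelyContinuousOnInterval
  have h1 := hac.integral_deriv_eq_sub
  have h2 : ∀ᵐ s : ℝ, ‖deriv (Φ ∘ m) s‖ₑ ≤
      ENNReal.ofReal t + ENNReal.ofReal t⁻¹ * ‖gr Φ (m s)‖ₑ ^ 2 := by
    filter_upwards [hd] with s hs
    rw [(hs.hasFDerivAt.comp_hasDerivAt s (hder s)).deriv, fderiv_eq_dot, ← ofReal_norm,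
      ← ofReal_norm, ← ENNReal.ofReal_pow (norm_nonneg _),
      ← ENNReal.ofReal_mul (by positivity), ← ENNReal.ofReal_add ht.le (by positivity)]
    refine ENNReal.ofReal_le_ofReal ((abs_dot_le _ _).trans ?_)
    rw [norm_mul, hc, Complex.norm_I, mul_one, mul_one]
    change ‖gr Φ (m s)‖ ≤ _
    generalize ‖gr Φ (m s)‖ = a
    rw [inv_mul_eq_div, add_div' _ _ _ ht.ne', le_div_iff₀ ht]
    linarith only [sq_nonneg (a - t), sq_nonneg a, sq_nonneg t, mul_self_nonneg t]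
  have hsub : uIoc y' y ⊆ Icc (-R) R := uIoc_subset_uIcc.trans (uIcc_subset_Icc hy' hy)
  have h3 : ENNReal.ofReal |Φ (m y) - Φ (m y')| ≤ ENNReal.ofReal (t * (2 * R) + t⁻¹ * κ) := by
    calc ENNReal.ofReal |Φ (m y) - Φ (m y')| = ‖∫ s in uIoc y' y, deriv (Φ ∘ m) s‖ₑ := by
          rw [← ofReal_norm, ← intervalIntegral.norm_intervalIntegral_eq, h1]
          rfl
      _ ≤ ∫⁻ s in uIoc y' y, ‖deriv (Φ ∘ m) s‖ₑ := enorm_integral_le_lintegral_enorm _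
      _ ≤ ∫⁻ s in Icc (-R) R, ‖deriv (Φ ∘ m) s‖ₑ := lintegral_mono_set hsub
      _ ≤ ∫⁻ s in Icc (-R) R, (ENNReal.ofReal t + ENNReal.ofReal t⁻¹ * ‖gr Φ (m s)‖ₑ ^ 2) :=
          lintegral_mono_ae (ae_restrict_of_ae h2)
      _ = ENNReal.ofReal t * ENNReal.ofReal (2 * R) +
            ENNReal.ofReal t⁻¹ * ∫⁻ s in Icc (-R) R, ‖gr Φ (m s)‖ₑ ^ 2 := by
          rw [lintegral_add_left measurable_const, setLIntegral_const, Real.volume_Icc,
            lintegral_const_mul' _ _ ENNReal.ofReal_ne_top, show R - -R = 2 * R by ring]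
      _ ≤ ENNReal.ofReal t * ENNReal.ofReal (2 * R) + ENNReal.ofReal t⁻¹ * ENNReal.ofReal κ := by
          gcongr
      _ = _ := by
          rw [← ENNReal.ofReal_mul ht.le, ← ENNReal.ofReal_mul (by positivity),
            ← ENNReal.ofReal_add (by positivity) (by positivity)]
  exact (ENNReal.ofReal_le_ofReal_iff (by positivity)).1 h3

theorem E4_pol (p w : ℂ) {x : ℝ} (h : ‖w - p‖ = Real.exp x) :
    p + Complex.exp (1 * (x + (Complex.arg (w - p) : ℝ) * Complex.I)) = w := by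
  rw [one_mul, Complex.exp_add, ← Complex.ofReal_exp, ← h, Complex.norm_mul_exp_arg_mul_I]
  ring

theorem circ {Φ : ℂ → ℝ} (hΦ : LL univ Φ) (p : ℂ) {r₁ r₀ : ℝ} (h₁ : 0 < r₁) (h₀ : r₁ < r₀)
    (h : ∀ r ∈ Ioo r₁ r₀, ∃ w w', ‖w - p‖ = r ∧ ‖w' - p‖ = r ∧ Φ w = 1 ∧ Φ w' = 0) :
    ENNReal.ofReal (Real.log (r₀ / r₁) / (8 * Real.pi)) ≤ En univ Φ := by
  have hπ := Real.pi_pos
  have h2 := h₁.trans h₀
  set g : ℂ → ℂ := fun w => p + Complex.exp w with hg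
  have hgd : Differentiable ℂ g := Complex.differentiable_exp.const_add p
  have hΨ : LL univ fun w => Φ (g w) :=
    hΦ.comp (LL.of_diff isOpen_univ hgd.differentiableOn) (mapsTo_univ _ _)
  set O : Set ℂ := Ioo (Real.log r₁) (Real.log r₀) ×ℂ Ioo (-Real.pi) Real.pi with hO
  have hOo : IsOpen O := isOpen_Ioo.reProdIm isOpen_Ioo
  have hi : InjOn g O := fun a ha b hb e =>
    Complex.exp_inj_of_neg_pi_lt_of_le_pi ha.2.1 ha.2.2.le hb.2.1 hb.2.2.le (add_left_cancel e)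
  have hE : En O (fun w => Φ (g w)) ≤ En univ Φ :=
    (En_comp_eq hOo hgd.differentiableOn hi (hΦ.mono (subset_univ _))).trans_le
      (En_mono (subset_univ _) _)
  refine le_trans ?_ hE
  have hm := D1_mp (c := 1) norm_one
  have hd := Measure.ae_ae_of_ae_prod (hm.quasiMeasurePreserving.ae
    (hΨ.ae_diff.mono fun z hz => hz trivial))
  have hG : Measurable fun z => ‖gr (fun w => Φ (g w)) z‖ₑ ^ 2 :=
    (measurable_gr _).enorm.pow_const 2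
  have hpre : (fun q : ℝ × ℝ => (1 : ℂ) * (q.1 + q.2 * Complex.I)) ⁻¹' O =
      Ioo (Real.log r₁) (Real.log r₀) ×ˢ Ioo (-Real.pi) Real.pi := by
    ext q
    simp [hO, Complex.mem_reProdIm]
  have hI := hm.setLIntegral_comp_preimage hOo.measurableSet hG
  rw [hpre, setLIntegral_prod (fun a : ℝ × ℝ =>
    ‖gr (fun w => Φ (g w)) (1 * (a.1 + a.2 * Complex.I))‖ₑ ^ 2)
      (hG.comp hm.measurable).aemeasurable] at hI
  rw [En, ← hI]
  have h3 : ∫⁻ _ in Ioo (Real.log r₁) (Real.log r₀), ENNReal.ofReal (1 / (8 * Real.pi)) =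
      ENNReal.ofReal (Real.log (r₀ / r₁) / (8 * Real.pi)) := by
    rw [setLIntegral_const, Real.volume_Ioo, ← ENNReal.ofReal_mul (by positivity),
      Real.log_div h2.ne' h₁.ne']
    congr 1
    ring
  rw [← h3]
  refine lintegral_mono_ae ((ae_restrict_iff' measurableSet_Ioo).2 (hd.mono fun x hx hx' => ?_))
  obtain ⟨w, w', k1, k2, k3, k4⟩ := h (Real.exp x)
    ⟨(Real.log_lt_iff_lt_exp h₁).1 hx'.1, (Real.lt_log_iff_exp_lt h2).1 hx'.2⟩
  rw [setLIntegral_congr Ioo_ae_eq_Icc]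
  by_contra k
  rw [not_le] at k
  have k5 := E4_osc hπ (t := 1 / (4 * Real.pi)) (by positivity) ENNReal.toReal_nonneg hΨ
    norm_one hx (ENNReal.ofReal_toReal k.ne_top).ge
    (y := Complex.arg (w - p)) (y' := Complex.arg (w' - p))
    ⟨(Complex.neg_pi_lt_arg _).le, Complex.arg_le_pi _⟩
    ⟨(Complex.neg_pi_lt_arg _).le, Complex.arg_le_pi _⟩
  have k6 := ENNReal.toReal_lt_of_lt_ofReal k
  simp only [hg] at k5 k6
  rw [E4_pol p w k1, E4_pol p w' k2, k3, k4] at k5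
  rw [lt_div_iff₀ (by positivity)] at k6
  have k7 : 1 / (4 * Real.pi) * (2 * Real.pi) = 1 / 2 := by
    field_simp
    ring
  rw [k7, one_div (4 * Real.pi), inv_inv, sub_zero, abs_one] at k5
  linarith only [k5, k6]

theorem exists_gen (σ : Sy) {ρ₁ : ℝ} (h : 1 < ρ₁) :
    ∃ C : Cf, C.toSy = σ ∧ C.Gen ∧ C.ρ ≤ ρ₁ := by
  have hf : ((fun z => ‖Function.invFunOn σ.φ {ζ | 1 < ‖ζ‖} z‖) '' (σ.V : Set ℂ)).Finite :=
    σ.V.finite_toSet.image _
  obtain ⟨ρ, hρ, hn⟩ := (Ioo_infinite h).exists_notMem_finite hf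
  obtain ⟨C, rfl, rfl⟩ := σ.exists_cf hρ.1
  refine ⟨C, rfl, fun x hx => hn ⟨C.γ x, hx, ?_⟩, hρ.2.le⟩
  change ‖C.φi (C.γ x)‖ = C.ρ
  rw [C.φi_γ, C.norm_ρ]

end Pool.Agent.Work.MP_042f46_an.Fu
end
end

-- merged part: Pool.Agent.Work.MP_042f46_an.F.B2
section
/-!
# Colouring for a family of intervals

Plan.  Copy the proof of `Sys.HZ` (file `T/R3.lean`).  Enumerate `P` by increasing left end point (`Finset.orderIsoOfFin`, `Finset.sort`, or index an interval by the number of intervals of `P` to its left); `Z k = Z ∩ iv (p k)` are disjoint (`Fam.disj`, the map `ℝ → T` is injective on `Ico 0 1`).  `colour` for the relation `1 < h (Z i ×ˢ Z k)`: for `i < j < k < l` use `cross` with the four left end points, `le`, `Hr_mono`, `off_arc`.  Then `psd` for the three colour classes.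
-/

open Set Metric Topology Filter MeasureTheory
open scoped ENNReal NNReal

noncomputable section
namespace Pool.Agent.Work.MP_042f46_an.Fu

open Pool.Agent.Work.MP_042f46_an.Ty

theorem measurableSet_iv (p : ℝ × ℝ) : MeasurableSet (iv p) := by
  by_cases h : p.1 < p.2
  · rw [iv, ← Ioo_insert_left h, image_insert_eq]
    exact (QuotientAddGroup.isOpenMap_coe _ isOpen_Ioo).measurableSet.insert _
  · rw [iv, Ico_eq_empty h, image_empty]
    exact MeasurableSet.empty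

theorem B2_le {P : Finset (ℝ × ℝ)} (hP : Fam P) {p q : ℝ × ℝ} (hp : p ∈ P) (hq : q ∈ P)
    (h : p.1 < q.1) : p.2 ≤ q.1 := by
  rcases hP.disj p hp q hq (fun e => h.ne (congrArg Prod.fst e)) with k | k
  · exact k
  · linarith only [(hP.mem q hq).2.1, k, h]

theorem B2_disj {P : Finset (ℝ × ℝ)} (hP : Fam P) {p q : ℝ × ℝ} (hp : p ∈ P) (hq : q ∈ P)
    (h : p ≠ q) : Disjoint (iv p) (iv q) := by
  refine disjoint_left.2 ?_
  rintro x ⟨s, hs, rfl⟩ ⟨t, ht, e⟩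
  obtain ⟨a1, -, a3⟩ := hP.mem p hp
  obtain ⟨b1, -, b3⟩ := hP.mem q hq
  have e' : t = s := (AddCircle.coe_eq_coe_iff_of_mem_Ico (p := (1 : ℝ)) (a := 0)
    ⟨b1.trans ht.1, by linarith only [ht.2, b3]⟩
    ⟨a1.trans hs.1, by linarith only [hs.2, a3]⟩).1 e
  rcases hP.disj p hp q hq h with k | k
  · linarith only [e', k, hs.2, ht.1]
  · linarith only [e', k, hs.1, ht.2]

theorem B2_colour {P : Finset (ℝ × ℝ)} (hP : Fam P) (E : ℝ × ℝ → ℝ × ℝ → Prop)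
    (hs : ∀ p q, E p q → E q p)
    (hn : ∀ p ∈ P, ∀ q ∈ P, ∀ r ∈ P, ∀ s ∈ P, p.1 < q.1 → q.1 < r.1 → r.1 < s.1 → E p r → E q s →
      False) :
    ∃ c : ℝ × ℝ → Fin 3, ∀ p ∈ P, ∀ q ∈ P, p ≠ q → E p q → c p ≠ c q := by
  classical
  obtain ⟨rk, hrk⟩ : ∃ rk : ℝ × ℝ → ℕ, ∀ p, rk p = (P.filter fun q => q.1 < p.1).card :=
    ⟨_, fun _ => rfl⟩
  have h1 : ∀ p q, rk p < rk q → p.1 < q.1 := fun p q h => by
    refine not_le.1 fun k => h.not_ge ?_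
    rw [hrk, hrk]
    exact Finset.card_le_card fun r hr =>
      Finset.mem_filter.2 ⟨(Finset.mem_filter.1 hr).1, (Finset.mem_filter.1 hr).2.trans_le k⟩
  have h2 : ∀ p ∈ P, ∀ q, p.1 < q.1 → rk p < rk q := fun p hp q h => by
    rw [hrk, hrk]
    refine Finset.card_lt_card ⟨fun r hr =>
      Finset.mem_filter.2 ⟨(Finset.mem_filter.1 hr).1, (Finset.mem_filter.1 hr).2.trans h⟩,
      fun k => ?_⟩
    exact lt_irrefl _ (Finset.mem_filter.1 (k (Finset.mem_filter.2 ⟨hp, h⟩))).2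
  obtain ⟨c, hc⟩ := colour (P.image rk)
    (fun i k => ∃ p ∈ P, ∃ q ∈ P, rk p = i ∧ rk q = k ∧ E p q)
    (fun i k ⟨p, hp, q, hq, a, b, e⟩ => ⟨q, hq, p, hp, b, a, hs _ _ e⟩)
    (by
      rintro _ - _ - _ - _ - a1 a2 a3 ⟨p, hp, r, hr, rfl, rfl, e1⟩ ⟨q, hq, s, hs', rfl, rfl, e2⟩
      exact hn p hp q hq r hr s hs' (h1 _ _ a1) (h1 _ _ a2) (h1 _ _ a3) e1 e2)
  refine ⟨fun p => c (rk p), fun p hp q hq hne e => hc _ (Finset.mem_image_of_mem _ hp) _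
    (Finset.mem_image_of_mem _ hq) ?_ ⟨p, hp, q, hq, rfl, rfl, e⟩⟩
  rcases hP.disj p hp q hq hne with k | k
  · exact (h2 p hp q ((hP.mem p hp).2.1.trans_le k)).ne
  · exact (h2 q hq p ((hP.mem q hq).2.1.trans_le k)).ne'

theorem HZ2 {α : ℝ} {N : ℕ} (σ : Sys α N) {P : Finset (ℝ × ℝ)} (hP : Fam P) {Z : Set T}
    (hZ : MeasurableSet Z) (hs : Z ⊆ ⋃ p ∈ P, iv p) :
    σ.h.real (Z ×ˢ Z) ≤
      3 * ∑ p ∈ P, σ.h.real ((Z ∩ iv p) ×ˢ (Z ∩ iv p)) + 3 * (P.card : ℝ) ^ 2 := by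
  classical
  have mZk : ∀ p, MeasurableSet (Z ∩ iv p) := fun p => hZ.inter (measurableSet_iv p)
  have harc : ∀ (p : ℝ × ℝ) (b : ℝ), p.2 ≤ b → Z ∩ iv p ⊆ arc p.1 b := by
    rintro p b hb x ⟨-, t, ht, rfl⟩
    exact ⟨t, ⟨ht.1, ht.2.le.trans hb⟩, rfl⟩
  have hH : ∀ p ∈ P, ∀ q ∈ P, ∀ a b c d : ℝ, p ≠ q → b < c → d < a + 1 → Z ∩ iv p ⊆ arc a b →
      Z ∩ iv q ⊆ arc c d →
      σ.h.real ((Z ∩ iv p) ×ˢ (Z ∩ iv q)) ≤ σ.H.real (arc a b ×ˢ arc c d) := by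
    intro p hp q hq a b c d hik h1 h2 s1 s2
    have ho := off_arc (x₁ := a) (x₂ := b) (x₃ := c) (x₄ := d) h1 h2
    exact le_trans (ENNReal.toReal_mono (σ.H_fin (ho.mono (prod_mono s1 s2)))
      (σ.le _ _ (mZk p) (mZk q) ((B2_disj hP hp hq hik).mono inter_subset_right
        inter_subset_right))) (σ.Hr_mono (prod_mono s1 s2) ho)
  obtain ⟨c, hc⟩ := B2_colour hP (fun p q => 1 < σ.h.real ((Z ∩ iv p) ×ˢ (Z ∩ iv q)))
    (fun i k h => by
      rwa [measureReal_def, swap_prod σ.h_symm (mZk k) (mZk i)])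
    (fun i hi j hj k hk l hl h1 h2 h3 e1 e2 => by
      have i0 := (hP.mem i hi).1
      have l0 := (hP.mem l hl).2.1
      have l1 := (hP.mem l hl).2.2
      rcases σ.cross h1 h2 h3 (by linarith only [i0, l0, l1]) with h | h
      · exact (e1.trans_le (hH i hi k hk _ _ _ _ (fun e => (h1.trans h2).ne (congrArg Prod.fst e))
          h2 (by linarith only [i0, l0, l1]) (harc i _ (B2_le hP hi hj h1))
          (harc k _ (B2_le hP hk hl h3)))).not_ge h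
      · exact (e2.trans_le (hH j hj l hl _ _ _ _ (fun e => (h2.trans h3).ne (congrArg Prod.fst e))
          h3 (by linarith only [h1]) (harc j _ (B2_le hP hj hk h2))
          (harc l _ (by linarith only [i0, l1])))).not_ge h)
  let Y : Fin 3 → Set T := fun a => ⋃ p ∈ P.filter fun p => c p = a, Z ∩ iv p
  have mY : ∀ a, MeasurableSet (Y a) := fun a =>
    Finset.measurableSet_biUnion _ fun p _ => mZk p
  have hY : ∀ a x, x ∈ Y a ↔ ∃ p ∈ P, c p = a ∧ x ∈ Z ∩ iv p := fun a x => by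
    simp only [Y, mem_iUnion₂, Finset.mem_filter, exists_prop, and_assoc]
  have hpsd : ∀ a b, 2 * σ.h.real (Y a ×ˢ Y b) ≤ σ.h.real (Y a ×ˢ Y a) + σ.h.real (Y b ×ˢ Y b) := by
    intro a b
    have := ENNReal.toReal_mono (by finiteness) (σ.psd _ _ (mY a) (mY b))
    rwa [ENNReal.toReal_mul, ENNReal.toReal_add (by finiteness) (by finiteness),
      ENNReal.toReal_ofNat] at this
  have k1 : σ.h.real (Z ×ˢ Z) ≤ 3 * ∑ a, σ.h.real (Y a ×ˢ Y a) := by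
    have h0 : Z ×ˢ Z ⊆ ⋃ a : Fin 3 × Fin 3, Y a.1 ×ˢ Y a.2 := fun x hx => by
      obtain ⟨p, hp, a1⟩ := mem_iUnion₂.1 (hs hx.1)
      obtain ⟨q, hq, a2⟩ := mem_iUnion₂.1 (hs hx.2)
      exact mem_iUnion.2 ⟨(c p, c q), (hY _ _).2 ⟨p, hp, rfl, hx.1, a1⟩,
        (hY _ _).2 ⟨q, hq, rfl, hx.2, a2⟩⟩
    have h1 : σ.h.real (Z ×ˢ Z) ≤ ∑ a : Fin 3 × Fin 3, σ.h.real (Y a.1 ×ˢ Y a.2) :=
      (measureReal_mono h0).trans (measureReal_iUnion_fintype_le _)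
    rw [Fintype.sum_prod_type] at h1
    simp only [Fin.sum_univ_three] at h1 ⊢
    linarith only [h1, hpsd 0 1, hpsd 1 0, hpsd 0 2, hpsd 2 0, hpsd 1 2, hpsd 2 1]
  let Q : Finset ((ℝ × ℝ) × ℝ × ℝ) := (P ×ˢ P).filter fun q => q.1 ≠ q.2 ∧ c q.1 = c q.2
  have k2 : ∑ a, σ.h.real (Y a ×ˢ Y a) ≤
      ∑ p ∈ P, σ.h.real ((Z ∩ iv p) ×ˢ (Z ∩ iv p)) + (P.card : ℝ) ^ 2 := by
    rw [← measureReal_iUnion_fintype (fun a b hab => disjoint_left.2 fun x h1 h2 => by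
      obtain ⟨p, hp, a1, a2⟩ := (hY _ _).1 h1.1
      obtain ⟨q, hq, b1, b2⟩ := (hY _ _).1 h2.1
      exact disjoint_left.1 (B2_disj hP hp hq fun e => hab (by rw [← a1, ← b1, e])) a2.2 b2.2)
      fun a => (mY a).prod (mY a)]
    have hsub : ⋃ a, Y a ×ˢ Y a ⊆ (⋃ p ∈ P, (Z ∩ iv p) ×ˢ (Z ∩ iv p)) ∪
        ⋃ q ∈ Q, (Z ∩ iv q.1) ×ˢ (Z ∩ iv q.2) := by
      intro x hx
      obtain ⟨a, h1, h2⟩ := mem_iUnion.1 hx
      obtain ⟨p, hp, a1, a2⟩ := (hY _ _).1 h1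
      obtain ⟨q, hq, b1, b2⟩ := (hY _ _).1 h2
      by_cases e : p = q
      · exact Or.inl (mem_iUnion₂.2 ⟨p, hp, a2, e ▸ b2⟩)
      · exact Or.inr (mem_iUnion₂.2 ⟨(p, q), Finset.mem_filter.2
          ⟨Finset.mem_product.2 ⟨hp, hq⟩, e, a1.trans b1.symm⟩, a2, b2⟩)
    refine (measureReal_mono hsub).trans ((measureReal_union_le _ _).trans
      (add_le_add (measureReal_biUnion_finset_le _ _)
        ((measureReal_biUnion_finset_le _ _).trans ?_)))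
    refine (Finset.sum_le_card_nsmul _ _ 1 fun q hq => ?_).trans ?_
    · obtain ⟨q1, q2, q3⟩ := Finset.mem_filter.1 hq
      exact not_lt.1 fun h =>
        hc _ (Finset.mem_product.1 q1).1 _ (Finset.mem_product.1 q1).2 q2 h q3
    · have := Finset.card_filter_le (P ×ˢ P) fun q => q.1 ≠ q.2 ∧ c q.1 = c q.2
      rw [Finset.card_product] at this
      rw [nsmul_eq_mul, mul_one, sq]
      exact_mod_cast this
  linarith only [k1, k2]

end Pool.Agent.Work.MP_042f46_an.Fu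
end
end

-- merged part: Pool.Agent.Work.MP_042f46_an.F.E5
section
/-!
# Injectivity on the closure

Plan.  Suppose `z ≠ z'`, `F z = F z' = p`.  The fibre of `p` off `P` is finite (`fib`) and `P` is finite: take `δ > 0`, `2 δ < ‖z - z'‖`, such that the closed balls of radius `δ` about `z` and `z'` miss `P` and contain no other point of the fibre; `r₀ > 0` a lower bound of `‖F w - p‖` on the two spheres of radius `δ / 2`.  `χ w = clamp (2 - 2 ‖w - z‖ / δ)`, `En univ χ ≤ 4 π` (`C2_en`).  Given `r₁ < r₀` choose `ζ`, `ζ'` of norm `> 1` with `φ ζ`, `φ ζ'` within `δ / 2` of `z`, `z'` and `‖F (φ ζ) - p‖, ‖F (φ ζ') - p‖ < r₁`, then `C` from `exists_gen` with `ρ ≤ min ‖ζ‖ ‖ζ'‖`.  `Ξ w = χ (φ (e (-α) ρ (max 1 ‖w‖ eT (argT w))))` is `Nice` (`LL_argT`, `φ_top`), `Ξ (eT x) = χ (γ (x - α))`, and `Ξ w = χ (φ (e (-α) ρ w))` for `1 ≤ ‖w‖`, so `En {1 < ‖w‖} Ξ ≤ En univ χ` (`En_congr`, `En_comp_eq`).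  `u = χ ∘ γ` is in `LipT` and `DD H u ≤ 2 π En U χ` (`Po_en`, `Po_min`, `LL.isV`).  `ext2` gives `Φ` with `2 π En univ Φ ≤ (B + 1) 8 π ^ 2 + 1` and `Φ (F (φ w)) = χ (φ w)` for `ρ ≤ ‖w‖`.  The ray `t ↦ φ (t ζ)`, `t ≥ 1`, leaves `closedBall z (δ / 2)` (`φ_top`); up to the first time on the sphere `‖F (φ (t ζ)) - p‖` takes every value in `(r₁, r₀)` (intermediate values), where `χ = 1`; the ray of `ζ'` gives `χ = 0`.  `circ` gives a contradiction for small `r₁`.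
-/

open Set Metric Topology Filter MeasureTheory
open scoped ENNReal NNReal

noncomputable section
namespace Pool.Agent.Work.MP_042f46_an.Fu

open Pool.Agent.Work.MP_042f46_an.Ty

theorem E5_far (σ : Sy) (R : ℝ) : ∃ R' : ℝ, ∀ ζ : ℂ, R' ≤ ‖ζ‖ → R ≤ ‖σ.φ ζ‖ := by
  have h := (tendsto_norm_cobounded_atTop.comp σ.φ_top).eventually_ge_atTop R
  rw [← comap_norm_atTop, eventually_comap, eventually_atTop] at h
  obtain ⟨R', h⟩ := h
  exact ⟨R', fun ζ hζ => h _ hζ ζ rfl⟩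

/-- the function carried over by the inverse branch extends with bounded energy -/
theorem E5_ext (C : Cf) {B : ℝ} (hB : ∀ u : T → ℝ, Continuous u →
    DD C.H (fun x => u (x - (C.α : T))) ≤ ENNReal.ofReal B * DD C.H u) {χ : ℂ → ℝ}
    (hχ : LL univ χ) {R : ℝ} (hR : ∀ w, R ≤ ‖w‖ → χ w = 0) :
    ∃ Φ : ℂ → ℝ, LL univ Φ ∧ (∀ ζ, C.ρ ≤ ‖ζ‖ → Φ (C.F (C.φ ζ)) = χ (C.φ ζ)) ∧
      En univ Φ ≤ (ENNReal.ofReal B + 1) * (ENNReal.ofReal (2 * Real.pi) * En univ χ) + 1 := by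
  have hO : IsOpen {ζ : ℂ | 1 < ‖ζ‖} := isOpen_lt continuous_const continuous_norm
  let n : ℂ → ℂ := fun w => e (-C.α) * (C.ρ * ((max 1 ‖w‖ : ℝ) * eT (argT w)))
  have n1 : ∀ w, ‖n w‖ = C.ρ * max 1 ‖w‖ := fun w => by
    simp only [n, norm_mul, norm_e, norm_eT, Complex.norm_real, one_mul, mul_one]
    rw [Real.norm_of_nonneg C.ρ_pos.le, Real.norm_of_nonneg (zero_le_one.trans (le_max_left _ _))]
  have n2 : ∀ w, 1 ≤ ‖w‖ → n w = e (-C.α) * (C.ρ * w) := fun w hw => by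
    have h0 : 0 < ‖w‖ := one_pos.trans_le hw
    simp only [n]
    rw [max_eq_right hw, eT_argT (norm_pos_iff.1 h0),
      mul_div_cancel₀ _ (Complex.ofReal_ne_zero.2 h0.ne')]
  have n3 : ∀ w, 1 < ‖n w‖ := fun w => by
    rw [n1]
    exact C.ρ_gt.trans_le (le_mul_of_one_le_right C.ρ_pos.le (le_max_left _ _))
  have n4 : LL {0}ᶜ n := by
    have a : LL {0}ᶜ fun w : ℂ => (max 1 ‖w‖, eT (argT w)) := fun w hw => by
      obtain ⟨K, t, ht, h⟩ := (LL.const _ 1).max (LL.of_lip lipschitzWith_one_norm _) w hw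
      obtain ⟨K', t', ht', h'⟩ := LL_argT.lip_comp lipschitz_eT w hw
      exact ⟨_, t ∩ t', inter_mem ht ht',
        (h.mono inter_subset_left).prodMk (h'.mono inter_subset_right)⟩
    have b : ContDiff ℝ 1 fun p : ℝ × ℂ => e (-C.α) * (C.ρ * ((p.1 : ℂ) * p.2)) :=
      contDiff_const.mul (contDiff_const.mul
        ((Complex.ofRealCLM.contDiff.comp contDiff_fst).mul contDiff_snd))
    exact (B1_comp a b.locallyLipschitz :)
  have hN : Nice fun w => χ (C.φ (n w)) := by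
    obtain ⟨R', h⟩ := E5_far C.toSy R
    refine ⟨hχ.comp ((LL.of_diff hO C.φ_diff).comp n4 fun w _ => n3 w) (mapsTo_univ _ _), R',
      fun w hw => hR _ (h _ ?_)⟩
    rw [n1]
    exact (hw.trans (le_max_right _ _)).trans
      (le_mul_of_one_le_left (zero_le_one.trans (le_max_left _ _)) C.ρ_gt.le)
  have e1 : ∀ x, χ (C.φ (n (eT x))) = χ (C.γ (x - (C.α : T))) := fun x => by
    rw [n2 _ (norm_eT x).ge, Cf.γ, sub_eq_add_neg, eT_add, ← AddCircle.coe_neg, eT_coe,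
      mul_comm (e _), mul_assoc]
  have hu : (fun x => χ (C.γ x)) ∈ LipT := by
    have a := LipT.shift hN.lipT (C.α : T)
    simp only [e1, add_sub_cancel_right] at a
    exact a
  have h1 : DD C.H (fun x => χ (C.γ x)) ≤ ENNReal.ofReal (2 * Real.pi) * En univ χ := by
    rw [← C.Po_en hu]
    exact mul_le_mul' le_rfl ((C.Po_min hu (LL.isV C.isOpen_U C.isCompact_Ub C.U_sub
      (hχ.mono (subset_univ _))) fun _ => rfl).trans (En_mono (subset_univ _) _))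
  have h2 : En {ζ | 1 < ‖ζ‖} (fun w => χ (C.φ (n w))) ≤ En univ χ := by
    have a : ∀ w : ℂ, 1 < ‖w‖ → 1 < ‖e (-C.α) * (C.ρ * w)‖ := fun w hw => n2 w hw.le ▸ n3 w
    rw [En_congr hO (f' := fun w => χ (C.φ (e (-C.α) * (C.ρ * w)))) fun w hw => by
      simp only [n2 w (le_of_lt hw)], En_comp_eq hO (g := fun w => C.φ (e (-C.α) * (C.ρ * w)))
      (C.φ_diff.comp (by fun_prop) a) (fun w hw w' hw' h => mul_left_cancel₀ C.C2_ρ
        (mul_left_cancel₀ (norm_ne_zero_iff.1 ((norm_e _).trans_ne one_ne_zero))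
          (C.φ_inj (a w hw) (a w' hw') h))) (hχ.mono (subset_univ _))]
    exact En_mono (subset_univ _) _
  obtain ⟨Φ, -, a1, -, a2, a3⟩ := ext2 C hN (η := 1) one_pos
  refine ⟨Φ, a1, fun ζ hζ => ?_, ?_⟩
  · have b := C.ρ_gt.trans_le hζ
    have b1 := Cf.C1_rot b C.α
    have b2 : ‖e C.α * ζ‖ = ‖ζ‖ := by rw [norm_mul, norm_e, one_mul]
    rw [C.conj _ b, a2 _ fun k => ?_, C.φi_φ b1, n2, mul_div_cancel₀ _ C.C2_ρ, Cf.C1_inv]
    · rw [C.C2_norm, b2, one_le_div C.ρ_pos]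
      exact hζ
    · rw [C.mem_U ⟨_, b1, rfl⟩, C.φi_φ b1, b2] at k
      exact k.not_ge hζ
  · simp only [e1] at a3
    have b : (1 : ℝ≥0∞) ≤ ENNReal.ofReal (2 * Real.pi) :=
      ENNReal.one_le_ofReal.2 (by linarith only [Real.pi_gt_three])
    obtain ⟨K, hK⟩ := hu
    refine (le_mul_of_one_le_left' b).trans (a3.trans ?_)
    rw [add_mul, one_mul]
    exact add_le_add (add_le_add ((hB _ hK.continuous).trans (mul_le_mul' le_rfl h1))
      (mul_le_mul' le_rfl h2)) le_rfl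

theorem E5_cont (σ : Sy) {z : ℂ} (hP : z ∉ σ.P) : ContinuousAt σ.F z :=
  σ.F_diff.continuousOn.continuousAt (σ.P_fin.isClosed.isOpen_compl.mem_nhds hP)

theorem E5_small (σ : Sy) (z p : ℂ) {η : ℝ} (hη : 0 < η) :
    ∃ δ, 0 < δ ∧ δ ≤ η ∧ ∃ r, 0 < r ∧ ∀ w, ‖w - z‖ = δ → r ≤ ‖σ.F w - p‖ := by
  have hS : ((σ.P ∪ {w | w ∉ σ.P ∧ σ.F w = p}) \ {z}).Finite :=
    (σ.P_fin.union (finite_of_encard_le_coe (σ.fib p))).sdiff
  obtain ⟨ε, hε, h⟩ := Metric.isOpen_iff.1 hS.isClosed.isOpen_compl z fun k => k.2 rfl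
  have hδ : 0 < min η (ε / 2) := lt_min hη (half_pos hε)
  have k : ∀ w ∈ sphere z (min η (ε / 2)), w ∉ σ.P ∧ σ.F w ≠ p := fun w hw => by
    have a := h (sphere_subset_ball ((min_le_right _ _).trans_lt (half_lt_self hε)) hw)
    have b := ne_of_mem_sphere hw hδ.ne'
    have c : w ∉ σ.P := fun c => a ⟨Or.inl c, b⟩
    exact ⟨c, fun d => a ⟨Or.inr ⟨c, d⟩, b⟩⟩
  obtain ⟨r, hr, h2⟩ := (isCompact_sphere z (min η (ε / 2))).exists_forall_le'
    (f := fun w => ‖σ.F w - p‖) (a := 0)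
    (fun w hw => ((E5_cont σ (k w hw).1).sub continuousAt_const).norm.continuousWithinAt)
    fun w hw => norm_pos_iff.2 (sub_ne_zero.2 (k w hw).2)
  exact ⟨_, hδ, min_le_left _ _, r, hr, fun w hw => h2 w (mem_sphere_iff_norm.2 hw)⟩

theorem E5_near (σ : Sy) {z : ℂ} (hz : z ∈ closure (σ.φ '' {ζ | 1 < ‖ζ‖})) (hP : z ∉ σ.P)
    {δ r : ℝ} (hδ : 0 < δ) (hr : 0 < r) :
    ∃ ζ, 1 < ‖ζ‖ ∧ ‖σ.φ ζ - z‖ ≤ δ ∧ ‖σ.F (σ.φ ζ) - σ.F z‖ ≤ r := by
  obtain ⟨_, ⟨a, b⟩, ζ, c, rfl⟩ := mem_closure_iff_nhds.1 hz _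
    (inter_mem (closedBall_mem_nhds z hδ) (E5_cont σ hP (closedBall_mem_nhds _ hr)))
  exact ⟨ζ, c, mem_closedBall_iff_norm.1 a, mem_closedBall_iff_norm.1 b⟩

theorem E5_ivt (σ : Sy) {M δ r : ℝ} {z p ζ : ℂ} (hM : 1 ≤ M) (hζ : M < ‖ζ‖)
    (h1 : ‖σ.φ ζ - z‖ ≤ δ) (h2 : ‖σ.F (σ.φ ζ) - p‖ ≤ r)
    (h3 : ∀ w, ‖w - z‖ = δ → r < ‖σ.F w - p‖) :
    ∃ ξ, M < ‖ξ‖ ∧ ‖σ.φ ξ - z‖ ≤ δ ∧ ‖σ.F (σ.φ ξ) - p‖ = r := by
  obtain ⟨R, hR⟩ := E5_far σ (δ + ‖z‖)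
  have a1 : ‖((max R (M + 1) : ℝ) : ℂ)‖ = max R (M + 1) := by
    rw [Complex.norm_real]
    exact Real.norm_of_nonneg (le_max_of_le_right (by linarith only [hM]))
  have a2 := hR _ ((le_max_left _ _).trans a1.ge)
  have a3 := norm_sub_norm_le (σ.φ ((max R (M + 1) : ℝ) : ℂ)) z
  have c1 : ContinuousOn σ.φ {ξ | M < ‖ξ‖} :=
    σ.φ_diff.continuousOn.mono fun ξ h => hM.trans_lt h
  have c2 : ContinuousOn (fun ξ => σ.F (σ.φ ξ)) {ξ | M < ‖ξ‖} := fun ξ h =>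
    (E5_cont σ fun k => σ.P_Ω _ k ⟨ξ, hM.trans_lt h, rfl⟩).comp_continuousWithinAt (c1 ξ h)
  obtain ⟨ξ, b1, b2⟩ := (RM4_conn (zero_le_one.trans hM)).intermediate_value
    (f := fun ξ => max (‖σ.φ ξ - z‖ - δ) (‖σ.F (σ.φ ξ) - p‖ - r)) hζ
    (show M < _ from a1 ▸ lt_max_of_lt_right (lt_add_one M))
    (((c1.sub continuousOn_const).norm.sub continuousOn_const).sup
      ((c2.sub continuousOn_const).norm.sub continuousOn_const))
    (show (0 : ℝ) ∈ Icc _ _ from ⟨max_le (sub_nonpos.2 h1) (sub_nonpos.2 h2),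
      le_max_of_le_left (by linarith only [a2, a3])⟩)
  have b3 := (le_max_left _ _).trans b2.le
  have b4 := (le_max_right _ _).trans b2.le
  refine ⟨ξ, b1, sub_nonpos.1 b3, ?_⟩
  rcases max_eq_iff.1 b2 with ⟨d, -⟩ | ⟨d, -⟩
  · exact absurd (sub_nonpos.1 b4) (h3 _ (sub_eq_zero.1 d)).not_ge
  · exact sub_eq_zero.1 d

theorem inj_closure (σ : Sy) {B : ℝ}
    (hB : ∀ C : Cf, C.toSy = σ → C.Gen → ∀ u : T → ℝ, Continuous u →
      DD C.H (fun x => u (x - (C.α : T))) ≤ ENNReal.ofReal B * DD C.H u)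
    {z z' : ℂ} (hz : z ∈ closure (σ.φ '' {ζ | 1 < ‖ζ‖})) (hz' : z' ∈ closure (σ.φ '' {ζ | 1 < ‖ζ‖}))
    (hP : z ∉ σ.P) (hP' : z' ∉ σ.P) (h : σ.F z = σ.F z') : z = z' := by
  by_contra hne
  have hη : 0 < ‖z' - z‖ / 3 := div_pos (norm_pos_iff.2 (sub_ne_zero.2 (Ne.symm hne))) three_pos
  obtain ⟨δ, d1, d2, r, r1, r2⟩ := E5_small σ z (σ.F z) hη
  obtain ⟨δ', d1', d2', r', r1', r2'⟩ := E5_small σ z' (σ.F z) hη
  let χ : ℂ → ℝ := fun w => clamp (2 - ‖w - z‖ / δ)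
  have χ1 : ∀ a b, |χ a - χ b| ≤ δ⁻¹ * ‖a - b‖ := fun a b => by
    have k := lipschitz_clamp.dist_le_mul (2 - ‖a - z‖ / δ) (2 - ‖b - z‖ / δ)
    rw [NNReal.coe_one, one_mul, Real.dist_eq, Real.dist_eq, sub_sub_sub_cancel_left, ← sub_div,
      abs_div, abs_of_pos d1, abs_sub_comm ‖b - z‖] at k
    have k1 := abs_norm_sub_norm_le (a - z) (b - z)
    rw [sub_sub_sub_cancel_right] at k1
    rw [← div_eq_inv_mul]
    exact k.trans (div_le_div_of_nonneg_right k1 d1.le)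
  have χ2 : ∀ w, 2 * δ ≤ ‖w - z‖ → χ w = 0 := fun w hw =>
    clamp_zero (sub_nonpos.2 ((le_div_iff₀ d1).2 hw))
  have χ3 : ∀ w, ‖w - z‖ ≤ δ → χ w = 1 := fun w hw => by
    have k := (div_le_one d1).2 hw
    exact clamp_one (by linarith only [k])
  have hi := (inv_pos.2 d1).le
  set K := (ENNReal.ofReal B + 1) * (ENNReal.ofReal (2 * Real.pi) * En univ χ) + 1 with hK
  have hK1 : K ≠ ∞ := ENNReal.add_ne_top.2 ⟨ENNReal.mul_ne_top
    (ENNReal.add_ne_top.2 ⟨ENNReal.ofReal_ne_top, ENNReal.one_ne_top⟩)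
    (ENNReal.mul_ne_top ENNReal.ofReal_ne_top
      (ne_top_of_le_ne_top ENNReal.ofReal_ne_top (C2_en hi χ1 χ2))), ENNReal.one_ne_top⟩
  have hr0 : 0 < min r r' := lt_min r1 r1'
  have hp : 0 < 8 * Real.pi := by positivity
  have hx : 1 < Real.exp (8 * Real.pi * (K.toReal + 1)) := Real.one_lt_exp_iff.2 (by positivity)
  have hr1 : 0 < min r r' / Real.exp (8 * Real.pi * (K.toReal + 1)) := by positivity
  obtain ⟨ζ, a1, a2, a3⟩ := E5_near σ hz hP d1 hr1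
  obtain ⟨ζ', b1, b2, b3⟩ := E5_near σ hz' hP' d1' hr1
  rw [← h] at b3
  obtain ⟨M, m1, m2⟩ := exists_between (lt_min a1 b1)
  obtain ⟨C, rfl, c2, c3⟩ := exists_gen σ m1
  obtain ⟨Φ, f1, f2, f3⟩ := E5_ext C (hB C rfl c2) (LL.of_lip (C2_lip hi χ1) univ)
    (R := 2 * δ + ‖z‖) fun w hw => χ2 w (by linarith only [hw, norm_sub_norm_le w z])
  have k := (circ f1 (C.F z) hr1 (div_lt_self hr0 hx) fun t ht => by
    obtain ⟨ξ, x1, x2, x3⟩ := E5_ivt C.toSy m1.le (m2.trans_le (min_le_left _ _)) a2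
      (a3.trans ht.1.le) fun w hw => (ht.2.trans_le (min_le_left _ _)).trans_le (r2 w hw)
    obtain ⟨ξ', y1, y2, y3⟩ := E5_ivt C.toSy m1.le (m2.trans_le (min_le_right _ _)) b2
      (b3.trans ht.1.le) fun w hw => (ht.2.trans_le (min_le_right _ _)).trans_le (r2' w hw)
    refine ⟨_, _, x3, y3, (f2 ξ (c3.trans x1.le)).trans (χ3 _ x2),
      (f2 ξ' (c3.trans y1.le)).trans (χ2 _ ?_)⟩
    have e := norm_sub_le_norm_sub_add_norm_sub z' (C.φ ξ') z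
    rw [norm_sub_rev z' (C.φ ξ')] at e
    linarith only [e, y2, d2, d2']).trans f3
  rw [div_div_cancel₀ hr0.ne', Real.log_exp, mul_div_cancel_left₀ _ hp.ne',
    ENNReal.ofReal_le_iff_le_toReal hK1] at k
  linarith only [k]

end Pool.Agent.Work.MP_042f46_an.Fu
end
end
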