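import Pool.Agent.Work.MP_042f46_an.F.Defs
import Pool.Agent.Work.MP_042f46_an.F.E5

-- merged part: Pool.Agent.Work.MP_042f46_an.F.B1
section
/-!
# Cores carry little of `h`

Plan for `core`.  Write `θ' = θ (n + 1)`, `q = q (n + 1)`, `↑(q α) = ↑(ε θ')` (`A3_sign`).  Let `A₁ = arc (a - M θ') (a' + M θ')`, `A₂ = arc (a - (M + 2) θ') (a' + (M + 2) θ')`, and for `i : ℕ` let `Y i = (A₁ + i α) ×ˢ (A₂ + i α)`, `Φ i = H.real ((A₁ + i α) ×ˢ (A₂ + i α)ᶜ)` (an `Off` set: its chords have length at least `2 θ'`).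
`B1_id`: for measurable `A`, `B` with `Off (A ×ˢ Bᶜ)`: `h (A ×ˢ B) + H (A ×ˢ Bᶜ) = b (A ×ˢ B) + H ((A + α) ×ˢ (B + α)ᶜ)`, from `marg` and `E1r` applied to `X = (A + α) ×ˢ (B + α)ᶜ`, `sh α X = A ×ˢ Bᶜ` (compare `mono_step`).  Telescoping: `∑ i < M q, h (Y i) = ∑ i < M q, b (Y i) + Φ (M q) - Φ 0`.
Left side `≥ M h (A ×ˢ A)`, because `A ×ˢ A ⊆ Y (k q)` for `k < M` (shift by `k ε θ'`).  Each `Y i` lies in `⋃ m ∈ M, AE_I M m ×ˢ AE_I M m` (`AE_cov`, the arc `A₂ + i α` has no mark by `hfree`), whose `b`-mass is at most `N ^ 2` (`AE_gap`), and a point lies in at most `M` of the arcs `A₁ + i α` (in a block of `q` consecutive indices they are disjoint by `sep'`: the length of `A₁` is at most `θ n / 4`); use `mult`.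
`Φ (M q) - Φ 0`: a chord of the first set that is not in the second has its first end point in an end interval of length `M θ'`, or its second end point in an end interval of length `M θ'`, and length at least `2 θ'`.  For a ball of radius `R` slightly larger than `M θ' / 2` (say `R = M θ'`, at most `θ n / 12`): `H (SS (ball c R) (2 θ') 2) ≤ H (SS (ball c R) (2 θ') (2 θ n)) + K n ≤ 8 M + 2 J n (n + 1) + K n ≤ 8 M + 3 V` (`SS_split`, `life_ball` with `ν = 4 M`, `a_le_At`), and `swap_apply H_symm` for the second end point.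
-/

open Set Metric Topology Filter MeasureTheory
open scoped ENNReal NNReal

noncomputable section
namespace Pool.Agent.Work.MP_042f46_an.Fu

open Pool.Agent.Work.MP_042f46_an.Ty

theorem B1_meas (x : T) {A : Set T} (hA : MeasurableSet A) : MeasurableSet {y | y - x ∈ A} :=
  (continuous_sub_right x).measurable hA

theorem B1_off (u v r : ℝ) {x y : T} (hx : x ∈ arc u v) (hy : y ∉ arc (u - r) (v + r)) :
    r ≤ dist x y := by
  obtain ⟨s, hs, rfl⟩ := hx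
  obtain ⟨t, rfl, ht⟩ := exists_rep (s : T) y
  rw [dist_comm, ← ht]
  by_contra k
  obtain ⟨h1, h2⟩ := abs_lt.1 (not_le.1 k)
  exact hy ⟨s + t, ⟨by linarith only [hs.1, h1], by linarith only [hs.2, h2]⟩,
    AddCircle.coe_add _ _ _⟩

theorem B1_end (u v : ℝ) {d R : ℝ} (h : |d| < 2 * R) :
    ∃ c : T, ∀ x ∈ arc u v, x + (d : T) ∉ arc u v → x ∈ ball c R := by
  obtain ⟨h1, h2⟩ := abs_lt.1 h
  rcases le_total 0 d with k | k
  · refine ⟨((v - d / 2 : ℝ) : T), ?_⟩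
    rintro _ ⟨s, hs, rfl⟩ hx
    have k1 : v < s + d := not_le.1 fun k1 =>
      hx ⟨s + d, ⟨by linarith only [hs.1, k], k1⟩, AddCircle.coe_add _ _ _⟩
    refine (dist_coe_le _ _).trans_lt (abs_lt.2 ?_)
    constructor <;> linarith only [k1, h2, hs.2]
  · refine ⟨((u - d / 2 : ℝ) : T), ?_⟩
    rintro _ ⟨s, hs, rfl⟩ hx
    have k1 : s + d < u := not_le.1 fun k1 =>
      hx ⟨s + d, ⟨k1, by linarith only [hs.2, k]⟩, AddCircle.coe_add _ _ _⟩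
    refine (dist_coe_le _ _).trans_lt (abs_lt.2 ?_)
    constructor <;> linarith only [k1, h1, hs.1]

theorem B1_split (μ : Measure (T × T)) [IsFiniteMeasure μ] (A : Set T) {B : Set T}
    (hA : MeasurableSet A) (hB : MeasurableSet B) :
    μ.real (A ×ˢ univ) = μ.real (A ×ˢ B) + μ.real (A ×ˢ Bᶜ) := by
  rw [← measureReal_union _ (hA.prod hB.compl), ← prod_union, union_compl_self]
  exact disjoint_left.2 fun p h k => k.2 h.2

theorem B1_id {α : ℝ} {N : ℕ} (σ : Sys α N) {A B : Set T} (hA : MeasurableSet A)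
    (hB : MeasurableSet B) (x : T)
    (ho : Off ({y | y - (x + (α : T)) ∈ A} ×ˢ {y | y - (x + (α : T)) ∈ B}ᶜ)) :
    σ.h.real ({y | y - x ∈ A} ×ˢ {y | y - x ∈ B}) =
      σ.b.real ({y | y - x ∈ A} ×ˢ {y | y - x ∈ B}) +
        (σ.H.real ({y | y - (x + (α : T)) ∈ A} ×ˢ {y | y - (x + (α : T)) ∈ B}ᶜ) -
          σ.H.real ({y | y - x ∈ A} ×ˢ {y | y - x ∈ B}ᶜ)) := by
  have e1 := σ.E1r ((B1_meas _ hA).prod (B1_meas _ hB).compl) ho
  have e0 : sh α ({y | y - (x + (α : T)) ∈ A} ×ˢ {y | y - (x + (α : T)) ∈ B}ᶜ) =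
      {y | y - x ∈ A} ×ˢ {y | y - x ∈ B}ᶜ := by
    ext p
    simp only [sh, mem_prod, mem_compl_iff, mem_ofPred_eq, add_sub_add_right_eq_sub]
  rw [e0] at e1
  have e2 : σ.h.real ({y | y - x ∈ A} ×ˢ univ) = σ.b.real ({y | y - x ∈ A} ×ˢ univ) := by
    simp only [Measure.real, σ.marg _ (B1_meas x hA)]
  rw [B1_split σ.h _ (B1_meas x hA) (B1_meas x hB),
    B1_split σ.b _ (B1_meas x hA) (B1_meas x hB)] at e2
  linarith only [e1, e2]

theorem B1_ball {α : ℝ} {N : ℕ} (σ : Sys α N) {V : ℝ} (hV : Bd σ V) (n M : ℕ)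
    (h : (M : ℝ) * σ.θ (n + 1) ≤ σ.θ n / 2) (c : T) :
    σ.H.real (SS (ball c (M * σ.θ (n + 1))) (2 * σ.θ (n + 1)) 2) ≤ 8 * M + 3 * V := by
  have hθ := σ.θ_pos (n + 1)
  have hg := σ.θ_pos n
  have h1 := σ.Hr_mono (SS_split (ball c (M * σ.θ (n + 1))) (2 * σ.θ (n + 1)) (2 * σ.θ n) 2)
    ((off_SS _ (by positivity) _).union (off_SS _ (by positivity) _))
  have h2 := σ.life_ball n c (R := M * σ.θ (n + 1)) (2 * σ.θ n) (4 * M) (by positivity)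
    (by push_cast; linarith only []) le_rfl
  have h3 := (σ.κ_mono (ball_subset_ball (x := c) h) (le_refl (2 * σ.θ n)) (by positivity)).trans
    ((σ.a_le_At c n n).trans (hV.K_le n))
  have h4 : 2 * (M * σ.θ (n + 1)) / σ.θ n + 1 ≤ 2 := by
    have := (div_le_one hg).2 (show 2 * (M * σ.θ (n + 1)) ≤ σ.θ n by linarith only [h])
    linarith only [this]
  have h5 := mul_le_mul_of_nonneg_right h4 (σ.J_nonneg n (n + 1))
  have h6 := h1.trans (measureReal_union_le _ _)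
  have h7 := hV.J_le n
  simp only [Sys.κ, Sys.J] at h3 h5 h7
  push_cast at h2
  linarith only [h2, h3, h5, h6, h7]

theorem B1_gap {α : ℝ} {N : ℕ} (σ : Sys α N) :
    σ.b.real (⋃ m ∈ σ.M, AE_I σ.M m ×ˢ AE_I σ.M m) ≤ (N : ℝ) ^ 2 := by
  refine (measureReal_biUnion_finset_le _ _).trans ?_
  have h : ∀ m ∈ σ.M, σ.b.real (AE_I σ.M m ×ˢ AE_I σ.M m) ≤ N := fun m hm =>
    ENNReal.toReal_le_of_le_ofReal (Nat.cast_nonneg N) (by
      rw [ENNReal.ofReal_natCast]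
      exact σ.AE_gap hm)
  refine (Finset.sum_le_card_nsmul _ _ _ h).trans ?_
  rw [nsmul_eq_mul, sq]
  exact mul_le_mul_of_nonneg_right (Nat.cast_le.2 σ.M_card) (Nat.cast_nonneg N)

theorem B1_cov {M : Finset T} (hM : M.Nonempty) {u v : ℝ} {z : T}
    (h : ∀ m ∈ M, ∀ s ∈ Icc u v, (s : T) + z ≠ m) {x y : T} (hx : x - z ∈ arc u v)
    (hy : y - z ∈ arc u v) : ∃ m ∈ M, x ∈ AE_I M m ∧ y ∈ AE_I M m := by
  obtain ⟨s, hs, e⟩ := hx
  obtain ⟨t, ht, e'⟩ := hy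
  wlog k : s ≤ t generalizing x y s t
  · obtain ⟨m, hm, h1, h2⟩ := this t ht e' s hs e (le_of_not_ge k)
    exact ⟨m, hm, h2, h1⟩
  obtain rfl := eq_sub_iff_add_eq.1 e
  obtain rfl := eq_sub_iff_add_eq.1 e'
  obtain ⟨m, hm, h1, h2⟩ := AE_cov hM (x := (s : T) + z) (sub_nonneg.2 k) fun r hr hm =>
    h _ hm (s + r) ⟨by linarith only [hs.1, hr.1], by linarith only [ht.2, hr.2]⟩
      (by rw [AddCircle.coe_add, add_right_comm])
  refine ⟨m, hm, h1, ?_⟩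
  rwa [add_right_comm, ← AddCircle.coe_add, add_sub_cancel] at h2

open Classical in
theorem B1_card {α : ℝ} (Λ : Lev α) (n M : ℕ) {u v : ℝ} (h : v - u < Λ.θ n) (x : T) :
    ((Finset.range (M * Λ.q (n + 1))).filter
      fun i : ℕ => x - (((i : ℝ) * α : ℝ) : T) ∈ arc u v).card ≤ M := by
  have hq := Λ.q_pos n
  refine le_trans (Finset.card_le_card_of_injOn (t := Finset.range M) (fun i => i / Λ.q (n + 1))
    (fun i hi => ?_) fun i hi j hj e => ?_) (Finset.card_range M).le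
  · rw [Finset.mem_coe, Finset.mem_range, Nat.div_lt_iff_lt_mul hq]
    exact Finset.mem_range.1 (Finset.mem_filter.1 hi).1
  · by_contra k
    obtain ⟨s, hs, e1⟩ := (Finset.mem_filter.1 hi).2
    obtain ⟨t, ht, e2⟩ := (Finset.mem_filter.1 hj).2
    have e3 : ∀ l : ℕ, (((Λ.q (n + 1) * (l / Λ.q (n + 1)) : ℕ) * α : ℝ) : T) +
        ((((l % Λ.q (n + 1) : ℕ) : ℝ) * α : ℝ) : T) = (((l : ℝ) * α : ℝ) : T) := fun l => by
      rw [← AddCircle.coe_add, ← add_mul, ← Nat.cast_add, Nat.div_add_mod]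
    have e4 : i / Λ.q (n + 1) = j / Λ.q (n + 1) := e
    have k1 : i % Λ.q (n + 1) ≠ j % Λ.q (n + 1) := fun k1 => k (by
      rw [← Nat.div_add_mod i (Λ.q (n + 1)), ← Nat.div_add_mod j (Λ.q (n + 1)), k1, e4])
    have k2 := Λ.sep' (Nat.mod_lt i hq) (Nat.mod_lt j hq) k1
      (((Λ.q (n + 1) * (i / Λ.q (n + 1)) : ℕ) * α : ℝ) : T)
    rw [e3, e4, e3, ← dist_sub_left x, ← e1, ← e2] at k2
    have k3 := k2.trans (dist_coe_le s t)
    refine absurd k3 (not_le.2 (abs_lt.2 ?_))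
    constructor <;> linarith only [h, hs.1, hs.2, ht.1, ht.2]

theorem core {α : ℝ} {N : ℕ} (σ : Sys α N) {V : ℝ} (hV : Bd σ V) (n M : ℕ) (hM : 1 ≤ M) {a a' : ℝ}
    (h₁ : a ≤ a') (h₂ : a' - a ≤ σ.θ n / 12) (h₃ : ((M : ℝ) + 3) * σ.θ (n + 1) ≤ σ.θ n / 12)
    (hfree : ∀ m ∈ σ.M, ∀ i < M * σ.q (n + 1),
      ∀ s ∈ Icc (a - ((M : ℝ) + 2) * σ.θ (n + 1)) (a' + ((M : ℝ) + 2) * σ.θ (n + 1)),
        (s : T) + (((i : ℝ) * α : ℝ) : T) ≠ m) :
    σ.h.real (arc a a' ×ˢ arc a a') ≤ 2 * (N : ℝ) ^ 2 + 16 + 6 * V / M := by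
  classical
  obtain ⟨ε, hε, hq⟩ := σ.A3_sign n
  have hθ := σ.θ_pos (n + 1)
  have hg := σ.θ_pos n
  have hq1 := σ.q_pos n
  have hM' : (1 : ℝ) ≤ M := by exact_mod_cast hM
  have hb := B1_ball σ hV n M (by linarith only [h₃, hθ, hg])
  have hcard := B1_card σ.toLev n M (u := a - M * σ.θ (n + 1)) (v := a' + M * σ.θ (n + 1))
    (by linarith only [h₂, h₃, hθ, hg])
  have hk : ∀ k : ℕ, ((((k * σ.q (n + 1) : ℕ) : ℝ) * α : ℝ) : T) =
      ((k * (ε * σ.θ (n + 1)) : ℝ) : T) := fun k => by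
    rw [Nat.cast_mul, mul_assoc, ← nsmul_eq_mul, ← nsmul_eq_mul k (ε * _), AddCircle.coe_nsmul,
      AddCircle.coe_nsmul, hq]
  have habs : ∀ k : ℕ, |(k : ℝ) * (ε * σ.θ (n + 1))| = k * σ.θ (n + 1) := fun k => by
    rw [abs_mul, abs_mul, abs_of_pos hθ, Nat.abs_cast]
    rcases hε with rfl | rfl <;> simp
  generalize σ.θ (n + 1) = θ at *
  generalize σ.q (n + 1) = q at *
  have e2 : ∀ x : ℝ, x - ((M : ℝ) + 2) * θ = x - M * θ - 2 * θ := fun x => by ring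
  have e3 : ∀ x : ℝ, x + ((M : ℝ) + 2) * θ = x + M * θ + 2 * θ := fun x => by ring
  rw [e2, e3] at hfree
  have hu : a - M * θ + M * θ ≤ a := by linarith only []
  generalize a - M * θ = u at *
  generalize hv' : a' + M * θ = v at hcard hfree
  obtain ⟨x, hx⟩ : ∃ x : ℕ → T, x = fun i : ℕ => (((i : ℝ) * α : ℝ) : T) := ⟨_, rfl⟩
  obtain ⟨A, hA⟩ : ∃ A : T → Set T, A = fun z => {y | y - z ∈ arc u v} := ⟨_, rfl⟩
  obtain ⟨B, hB⟩ : ∃ B : T → Set T, B = fun z => {y | y - z ∈ arc (u - 2 * θ) (v + 2 * θ)} :=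
    ⟨_, rfl⟩
  have mA : ∀ z, MeasurableSet (A z) := fun z => hA ▸ B1_meas z (measurableSet_arc _ _)
  have mB : ∀ z, MeasurableSet (B z) := fun z => hB ▸ B1_meas z (measurableSet_arc _ _)
  have long : ∀ z, ∀ p ∈ A z ×ˢ (B z)ᶜ, 2 * θ ≤ dist p.1 p.2 := fun z p hp => by
    subst hA hB
    rw [← dist_sub_right _ _ z]
    exact B1_off u v (2 * θ) hp.1 hp.2
  have off : ∀ z, Off (A z ×ˢ (B z)ᶜ) := fun z => ⟨_, by positivity, long z⟩
  have step : ∀ i, σ.h.real (A (x i) ×ˢ B (x i)) = σ.b.real (A (x i) ×ˢ B (x i)) +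
      (σ.H.real (A (x (i + 1)) ×ˢ (B (x (i + 1)))ᶜ) - σ.H.real (A (x i) ×ˢ (B (x i))ᶜ)) :=
    fun i => by
      have e : x (i + 1) = x i + (α : T) := by
        simp only [hx]
        rw [← AddCircle.coe_add, Nat.cast_succ, add_mul, one_mul]
      have := off (x (i + 1))
      rw [e] at this ⊢
      subst hA hB
      exact B1_id σ (measurableSet_arc _ _) (measurableSet_arc _ _) _ this
  have s1 := Finset.sum_congr (rfl (a := Finset.range (M * q))) fun i _ => step i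
  rw [Finset.sum_add_distrib,
    Finset.sum_range_sub (fun i => σ.H.real (A (x i) ×ˢ (B (x i))ᶜ))] at s1
  have s2 : M * σ.h.real (arc a a' ×ˢ arc a a') ≤
      ∑ i ∈ Finset.range (M * q), σ.h.real (A (x i) ×ˢ B (x i)) := by
    have inj : InjOn (fun k : ℕ => k * q) (Finset.range M) := fun i _ j _ e =>
      Nat.eq_of_mul_eq_mul_right hq1 e
    refine le_trans ?_ (Finset.sum_le_sum_of_subset_of_nonneg
      (s := (Finset.range M).image fun k => k * q) (fun i hi => ?_)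
      fun _ _ _ => measureReal_nonneg)
    · rw [Finset.sum_image inj, ← nsmul_eq_mul]
      nth_rewrite 1 [← Finset.card_range M]
      refine Finset.card_nsmul_le_sum _ _ _ fun k hk' => measureReal_mono ?_
      have k1 : (k : ℝ) * θ ≤ M * θ := mul_le_mul_of_nonneg_right
        (Nat.cast_le.2 (Finset.mem_range.1 hk').le) hθ.le
      obtain ⟨k2, k3⟩ := abs_le.1 ((habs k).le.trans k1)
      have k4 : arc a a' ⊆ A (x (k * q)) := by
        rintro _ ⟨s, hs, rfl⟩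
        simp only [hA, hx, hk]
        exact ⟨s - k * (ε * θ), ⟨by linarith only [hs.1, k3, hu],
          by linarith only [hs.2, k2, hv']⟩, AddCircle.coe_sub _ _ _⟩
      refine prod_mono k4 (k4.trans ?_)
      subst hA hB
      exact fun y hy => arc_mono (by linarith only [hθ]) (by linarith only [hθ]) hy
    · obtain ⟨k, hk', rfl⟩ := Finset.mem_image.1 hi
      exact Finset.mem_range.2 (Nat.mul_lt_mul_of_pos_right (Finset.mem_range.1 hk') hq1)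
  have s3 : ∑ i ∈ Finset.range (M * q), σ.b.real (A (x i) ×ˢ B (x i)) ≤ M * (N : ℝ) ^ 2 := by
    refine (mult σ.b _ (Y := ⋃ i ∈ Finset.range (M * q), A (x i) ×ˢ B (x i)) (k := M)
      (fun i _ => (mA _).prod (mB _))
      (Finset.measurableSet_biUnion _ fun i _ => (mA _).prod (mB _))
      (fun i hi => subset_biUnion_of_mem (u := fun i => A (x i) ×ˢ B (x i)) hi)
      fun p _ => ?_).trans (mul_le_mul_of_nonneg_left
        ((measureReal_mono ?_ (measure_ne_top _ _)).trans (B1_gap σ)) (Nat.cast_nonneg M))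
    · refine Nat.cast_le.2 (le_trans (Finset.card_le_card fun i hi => ?_) (hcard p.1))
      simp only [Finset.mem_filter] at hi ⊢
      subst hA hx
      exact ⟨hi.1, hi.2.1⟩
    · refine iUnion₂_subset fun i hi p hp => ?_
      subst hA hB hx
      obtain ⟨m, hm, k⟩ := B1_cov σ.M_ne (fun m hm => hfree m hm i (Finset.mem_range.1 hi))
        (arc_mono (by linarith only [hθ]) (by linarith only [hθ]) hp.1) hp.2
      exact mem_biUnion hm k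
  have s4 : σ.H.real (A (x (M * q)) ×ˢ (B (x (M * q)))ᶜ) ≤
      σ.H.real (A (x 0) ×ˢ (B (x 0))ᶜ) + (8 * M + 3 * V) + (8 * M + 3 * V) := by
    have hMθ : 0 < M * θ := by positivity
    obtain ⟨c, hc⟩ := B1_end u v (d := M * (ε * θ)) (R := M * θ)
      (by rw [habs]; linarith only [hMθ])
    obtain ⟨c', hc'⟩ := B1_end (u - 2 * θ) (v + 2 * θ) (d := -(M * (ε * θ))) (R := M * θ)
      (by rw [abs_neg, habs]; linarith only [hMθ])
    have o1 : ∀ c : T, Off (SS (ball c (M * θ)) (2 * θ) 2) := fun c => off_SS _ (by positivity) _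
    have o2 : Off (Prod.swap ⁻¹' SS (ball c' (M * θ)) (2 * θ) 2) :=
      ⟨2 * θ, by positivity, fun p hp => dist_comm p.1 p.2 ▸ hp.2.1⟩
    have sub : A (x (M * q)) ×ˢ (B (x (M * q)))ᶜ ⊆ (A (x 0) ×ˢ (B (x 0))ᶜ ∪
        SS (ball (c + ((M * (ε * θ) : ℝ) : T)) (M * θ)) (2 * θ) 2) ∪
        Prod.swap ⁻¹' SS (ball c' (M * θ)) (2 * θ) 2 := fun p hp => by
      have l1 := long _ p hp
      have l2 : dist p.1 p.2 < 2 := (dist_le_half _ _).trans_lt (by norm_num)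
      obtain ⟨p1, p2⟩ := hp
      simp only [hA, hB, hx, hk, mem_compl_iff, mem_ofPred_eq] at p1 p2
      by_cases k2 : p.2 ∈ arc (u - 2 * θ) (v + 2 * θ)
      · refine Or.inr ⟨hc' _ k2 (by rwa [AddCircle.coe_neg, ← sub_eq_add_neg]), ?_, ?_⟩
        · exact dist_comm p.1 p.2 ▸ l1
        · exact dist_comm p.1 p.2 ▸ l2
      by_cases k1 : p.1 ∈ arc u v
      · refine Or.inl (Or.inl ?_)
        simpa [hA, hB, hx] using And.intro k1 k2
      · refine Or.inl (Or.inr ⟨?_, l1, l2⟩)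
        have := hc _ p1 (by rwa [sub_add_cancel])
        rwa [mem_ball, ← dist_add_right _ _ ((M * (ε * θ) : ℝ) : T), sub_add_cancel] at this
    have t1 := (σ.Hr_mono sub (((off _).union (o1 _)).union o2)).trans (measureReal_union_le _ _)
    have t2 := measureReal_union_le (μ := σ.H) (A (x 0) ×ˢ (B (x 0))ᶜ)
      (SS (ball (c + ((M * (ε * θ) : ℝ) : T)) (M * θ)) (2 * θ) 2)
    have t3 : σ.H.real (Prod.swap ⁻¹' SS (ball c' (M * θ)) (2 * θ) 2) =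
        σ.H.real (SS (ball c' (M * θ)) (2 * θ) 2) := by
      simp only [Measure.real, swap_apply σ.H_symm (measurableSet_SS measurableSet_ball _ _)]
    linarith only [t1, t2, t3, hb c', hb (c + ((M * (ε * θ) : ℝ) : T))]
  have hM0 : (0 : ℝ) < M := by linarith only [hM']
  refine le_of_mul_le_mul_left ?_ hM0
  have e : (M : ℝ) * (2 * (N : ℝ) ^ 2 + 16 + 6 * V / M) = 2 * (M * (N : ℝ) ^ 2) + 16 * M + 6 * V := by
    field_simp
  have k : 0 ≤ (M : ℝ) * (N : ℝ) ^ 2 := by positivity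
  rw [e]
  linarith only [s1, s2, s3, s4, k]

end Pool.Agent.Work.MP_042f46_an.Fu
end
end

-- merged part: Pool.Agent.Work.MP_042f46_an.F.B3
section
/-!
# Refinement into fine intervals and cores

Plan for `refine_step`.  `θ' = θ (n + 1)`, `M = ⌈6 (N + 1) p₀ / ε⌉₊ + 1`.  If `θ n / 12 < (M + 3) θ'`, cut every interval of `P` into at most `12 (M + 3) + 1` intervals of length at most `θ' / 12`; `Q₂ = ∅`.  Otherwise fix a parent `p`.  For a mark `m` let `B m` be the set of reals `s` in `[p.1 - (M + 2) θ', p.2 + (M + 2) θ']` (length at most `θ n / 4`) with `↑s + ↑(i α) = m` for some `i < M q`.  Writing `i = i₀ + k q`, `i₀ < q`, `k < M`, the number `i₀` is the same for all such `s` (`sep'`; `↑(k q α) = ↑(k ε θ')`, `2 M θ' ≤ θ n / 6`), so `B m` has diameter at most `M θ'`.  Cut `p` at the at most `2 N` points `inf (B m) - (M + 3) θ'`, `sup (B m) + (M + 3) θ'`; a piece is either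 inside one of the intervals between these two points (length at most `(3 M + 6) θ'`: cut it into intervals of length at most `θ' / 12`, they go to `Q₁`) or at distance more than `(M + 2) θ'` from all `B m` (a core, `core` applies; it goes to `Q₂`).  Any count of the cores that depends only on `N` will do if `M` is enlarged accordingly (for `2 N + 1` cores take `M ≥ 6 (2 N + 1) p₀ / ε`).  A convenient way to cut: a finite set `c` of cut points containing `p.1`, `p.2`, and the intervals between consecutive points.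
`refine`: induction on `L` (generalising `ε`, `p₀`, `n`, `P`): `refine_step` with `ε / 2`, then the case `L` for `Q₁` at level `n + 1`.
`HZ3`: cover `Near (2 θ e)` by at most `100 N` intervals of the grid of mesh `1 / n₀ ∈ [θ e / 24, θ e / 12]` (compare `hcard` in `Sys.HZ`), `refine` with `L`, `HZ2`; for `p ∈ Q₁` the sets `(Z ∩ iv p) ×ˢ (Z ∩ iv p)` are disjoint subsets of `SS (Far (3 θ n)) 0 (2 θ n)` (`θ (e + L) ≤ θ n`).
-/

open Set Metric Topology Filter MeasureTheory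
open scoped ENNReal NNReal

noncomputable section
namespace Pool.Agent.Work.MP_042f46_an.Fu

open Pool.Agent.Work.MP_042f46_an.Ty

theorem B3_grid {g η x y : ℝ} {J : ℕ} (hη : 0 < η) (h1 : η < y - x) (h2 : g < y)
    (h3 : x < g + J * η) : ∃ j ≤ J, x < g + (j : ℝ) * η ∧ g + (j : ℝ) * η < y := by
  rcases lt_or_ge x g with h | h
  · exact ⟨0, Nat.zero_le _, by simpa using h, by simpa using h2⟩
  · have h0 : 0 ≤ (x - g) / η := div_nonneg (by linarith) hη.le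
    have h4 := (le_div_iff₀ hη).1 (Nat.floor_le h0)
    have h5 := (div_lt_iff₀ hη).1 (Nat.lt_floor_add_one ((x - g) / η))
    refine ⟨⌊(x - g) / η⌋₊ + 1, ?_, ?_, ?_⟩
    · rw [Nat.succ_le_iff, Nat.floor_lt h0, div_lt_iff₀ hη]
      linarith
    · push_cast
      linarith
    · push_cast
      linarith

theorem B3_cut {P : Finset (ℝ × ℝ)} (hP : Fam P) (S : Finset ℝ) {η : ℝ} (hη : 0 < η) (J : ℕ) :
    ∃ Q₁ Q₂ : Finset (ℝ × ℝ), Fam (Q₁ ∪ Q₂) ∧ Disjoint Q₁ Q₂ ∧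
      (Q₁ ∪ Q₂).card ≤ 2 * P.card + S.card * (J + 1) ∧
      (⋃ p ∈ P, iv p) ⊆ (⋃ p ∈ Q₁ ∪ Q₂, iv p) ∧
      (∀ p' ∈ Q₁ ∪ Q₂, ∃ p ∈ P, p.1 ≤ p'.1 ∧ p'.2 ≤ p.2) ∧ (∀ p ∈ Q₁, p.2 - p.1 ≤ η) ∧
      Q₂.card ≤ 2 * P.card + S.card ∧ ∀ p ∈ Q₂, ∀ g ∈ S, p.2 ≤ g ∨ g + J * η ≤ p.1 := by
  classical
  obtain ⟨c, hc⟩ : ∃ c : Finset ℝ, c = (P.image Prod.fst ∪ P.image Prod.snd) ∪
    (S ×ˢ Finset.range (J + 1)).image fun q => q.1 + (q.2 : ℝ) * η := ⟨_, rfl⟩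
  have c1 : ∀ p ∈ P, p.1 ∈ c := fun p hp => hc ▸ Finset.mem_union_left _
    (Finset.mem_union_left _ (Finset.mem_image_of_mem _ hp))
  have c2 : ∀ p ∈ P, p.2 ∈ c := fun p hp => hc ▸ Finset.mem_union_left _
    (Finset.mem_union_right _ (Finset.mem_image_of_mem _ hp))
  have c3 : ∀ g ∈ S, ∀ j ≤ J, g + (j : ℝ) * η ∈ c := fun g hg j hj => hc ▸
    Finset.mem_union_right _ (Finset.mem_image.2 ⟨(g, j),
      Finset.mem_product.2 ⟨hg, Finset.mem_range.2 (Nat.lt_succ_of_le hj)⟩, rfl⟩)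
  have c0 : (P.image Prod.fst ∪ P.image Prod.snd).card ≤ 2 * P.card :=
    (Finset.card_union_le _ _).trans
      ((add_le_add Finset.card_image_le Finset.card_image_le).trans_eq (two_mul _).symm)
  obtain ⟨Q, hQ⟩ : ∃ Q : Finset (ℝ × ℝ), ∀ q, q ∈ Q ↔ (q.1 ∈ c ∧ q.2 ∈ c) ∧ q.1 < q.2 ∧
      (∀ z ∈ c, z ≤ q.1 ∨ q.2 ≤ z) ∧ ∃ p ∈ P, p.1 ≤ q.1 ∧ q.2 ≤ p.2 :=
    ⟨(c ×ˢ c).filter fun q => q.1 < q.2 ∧ (∀ z ∈ c, z ≤ q.1 ∨ q.2 ≤ z) ∧
      ∃ p ∈ P, p.1 ≤ q.1 ∧ q.2 ≤ p.2, fun q => by rw [Finset.mem_filter, Finset.mem_product]⟩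
  have inj : ∀ q ∈ Q, ∀ q' ∈ Q, q.1 = q'.1 → q = q' := fun q hq q' hq' e => by
    obtain ⟨⟨-, a2⟩, a3, a4, -⟩ := (hQ q).1 hq
    obtain ⟨⟨-, b2⟩, b3, b4, -⟩ := (hQ q').1 hq'
    refine Prod.ext e (le_antisymm ((a4 _ b2).resolve_left ?_) ((b4 _ a2).resolve_left ?_))
    · rw [e]
      exact b3.not_ge
    · rw [← e]
      exact a3.not_ge
  have far : ∀ p ∈ Q.filter fun q => ¬ q.2 - q.1 ≤ η, ∀ g ∈ S, p.2 ≤ g ∨ g + J * η ≤ p.1 := by
    intro p hp g hg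
    obtain ⟨a1, a2⟩ := Finset.mem_filter.1 hp
    by_contra k
    rw [not_or, not_le, not_le] at k
    obtain ⟨j, j1, j2, j3⟩ := B3_grid hη (not_le.1 a2) k.1 k.2
    exact (((hQ p).1 a1).2.2.1 _ (c3 g hg j j1)).elim j2.not_ge j3.not_ge
  refine ⟨Q.filter fun q => q.2 - q.1 ≤ η, Q.filter fun q => ¬ q.2 - q.1 ≤ η, ?_⟩
  rw [Finset.filter_union_filter_not_eq]
  refine ⟨⟨fun q hq => ?_, fun q hq q' hq' hne => ?_⟩, Finset.disjoint_filter_filter_not _ _ _, ?_,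
    fun x hx => ?_, fun q hq => ((hQ q).1 hq).2.2.2, fun q hq => (Finset.mem_filter.1 hq).2, ?_, far⟩
  · obtain ⟨-, a3, -, p, hp, a4, a5⟩ := (hQ q).1 hq
    exact ⟨(hP.mem p hp).1.trans a4, a3, a5.trans (hP.mem p hp).2.2⟩
  · obtain ⟨⟨a1, -⟩, -, a4, -⟩ := (hQ q).1 hq
    obtain ⟨⟨b1, -⟩, -, b4, -⟩ := (hQ q').1 hq'
    rcases a4 _ b1 with k | k
    · rcases b4 _ a1 with k' | k'
      · exact absurd (inj q hq q' hq' (le_antisymm k' k)) hne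
      · exact Or.inr k'
    · exact Or.inl k
  · refine (Finset.card_le_card_of_injOn (t := c) Prod.fst (fun q hq => ((hQ q).1 hq).1.1)
      fun q hq q' hq' e => inj q hq q' hq' e).trans ?_
    rw [hc]
    refine (Finset.card_union_le _ _).trans (add_le_add c0 (Finset.card_image_le.trans_eq ?_))
    rw [Finset.card_product, Finset.card_range]
  · obtain ⟨p, hp, t, ht, rfl⟩ := mem_iUnion₂.1 hx
    obtain ⟨a, a1, a2⟩ := Finset.exists_max_image (c.filter fun z => z ≤ t) id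
      ⟨p.1, Finset.mem_filter.2 ⟨c1 p hp, ht.1⟩⟩
    obtain ⟨b, b1, b2⟩ := Finset.exists_min_image (c.filter fun z => t < z) id
      ⟨p.2, Finset.mem_filter.2 ⟨c2 p hp, ht.2⟩⟩
    rw [Finset.mem_filter] at a1 b1
    refine mem_iUnion₂.2 ⟨(a, b), (hQ _).2 ⟨⟨a1.1, b1.1⟩, a1.2.trans_lt b1.2, fun z hz => ?_, p, hp,
      a2 _ (Finset.mem_filter.2 ⟨c1 p hp, ht.1⟩), b2 _ (Finset.mem_filter.2 ⟨c2 p hp, ht.2⟩)⟩,
      t, ⟨a1.2, b1.2⟩, rfl⟩
    rcases le_or_gt z t with k | k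
    · exact Or.inl (a2 _ (Finset.mem_filter.2 ⟨hz, k⟩))
    · exact Or.inr (b2 _ (Finset.mem_filter.2 ⟨hz, k⟩))
  · refine (Finset.card_le_card_of_injOn (t := (P.image Prod.fst ∪ P.image Prod.snd) ∪
      S.image fun g => g + J * η) Prod.fst (fun q hq => ?_)
      fun q hq q' hq' e => inj q (Finset.mem_filter.1 hq).1 q' (Finset.mem_filter.1 hq').1 e).trans
      ((Finset.card_union_le _ _).trans (add_le_add c0 Finset.card_image_le))
    obtain ⟨⟨a1, -⟩, a3, -⟩ := (hQ q).1 (Finset.mem_filter.1 hq).1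
    rw [hc] at a1
    rcases Finset.mem_union.1 a1 with k | k
    · exact Finset.mem_union_left _ k
    · obtain ⟨⟨g, j⟩, k1, k2⟩ := Finset.mem_image.1 k
      obtain ⟨k3, k4⟩ := Finset.mem_product.1 k1
      have k5 : (j : ℝ) ≤ J := Nat.cast_le.2 (Nat.lt_succ_iff.1 (Finset.mem_range.1 k4))
      have k6 := mul_le_mul_of_nonneg_right k5 hη.le
      have k7 : 0 ≤ (j : ℝ) * η := by positivity
      refine Finset.mem_union_right _ (Finset.mem_image.2 ⟨g, k3, ?_⟩)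
      simp only at k2
      rcases far q hq g k3 with k8 | k8 <;> linarith

theorem B3_diam {α : ℝ} {N : ℕ} (σ : Sys α N) (n M : ℕ) {s s' : ℝ} {i i' : ℕ}
    (hi : i < M * σ.q (n + 1)) (hi' : i' < M * σ.q (n + 1))
    (e : (s : T) + (((i : ℝ) * α : ℝ) : T) = (s' : T) + (((i' : ℝ) * α : ℝ) : T))
    (h : |s - s'| + M * σ.θ (n + 1) ≤ σ.θ n / 3) : |s - s'| ≤ M * σ.θ (n + 1) := by
  obtain ⟨ε, hε, hq⟩ := σ.A3_sign n
  have q0 : 0 < σ.q (n + 1) := σ.toLev.q_pos n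
  have θ0 := σ.θ_pos n
  have θ1 : σ.θ n ≤ 1 := σ.toLev.θ_le_one n
  have θ2 := σ.θ_pos (n + 1)
  have k : ∀ (s : ℝ) (i : ℕ), (s : T) + (((i : ℝ) * α : ℝ) : T) =
      ((s + (i / σ.q (n + 1) : ℕ) * (ε * σ.θ (n + 1)) : ℝ) : T) +
        ((((i % σ.q (n + 1) : ℕ) : ℝ) * α : ℝ) : T) := fun s i => by
    have e1 : (i : ℝ) * α = (i / σ.q (n + 1) : ℕ) • ((σ.q (n + 1) : ℝ) * α) +
        ((i % σ.q (n + 1) : ℕ) : ℝ) * α := by
      conv_lhs => rw [← Nat.div_add_mod' i (σ.q (n + 1))]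
      rw [nsmul_eq_mul, Nat.cast_add, Nat.cast_mul]
      ring
    rw [e1, AddCircle.coe_add, AddCircle.coe_add, AddCircle.coe_nsmul, hq, ← AddCircle.coe_nsmul,
      nsmul_eq_mul, add_assoc]
  rw [k s i, k s' i'] at e
  have a1 : ((i / σ.q (n + 1) : ℕ) : ℝ) ≤ M :=
    Nat.cast_le.2 (Nat.div_lt_of_lt_mul (mul_comm M _ ▸ hi)).le
  have a2 : ((i' / σ.q (n + 1) : ℕ) : ℝ) ≤ M :=
    Nat.cast_le.2 (Nat.div_lt_of_lt_mul (mul_comm M _ ▸ hi')).le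
  have a3 : (0 : ℝ) ≤ (i / σ.q (n + 1) : ℕ) := Nat.cast_nonneg _
  have a4 : (0 : ℝ) ≤ (i' / σ.q (n + 1) : ℕ) := Nat.cast_nonneg _
  generalize ((i / σ.q (n + 1) : ℕ) : ℝ) = a at *
  generalize ((i' / σ.q (n + 1) : ℕ) : ℝ) = a' at *
  have b1 : |a * (ε * σ.θ (n + 1)) - a' * (ε * σ.θ (n + 1))| ≤ M * σ.θ (n + 1) := by
    rw [abs_le]
    rcases hε with rfl | rfl <;> constructor <;> nlinarith
  have b2 : |s + a * (ε * σ.θ (n + 1)) - (s' + a' * (ε * σ.θ (n + 1)))| ≤ σ.θ n / 3 := by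
    rw [add_sub_add_comm]
    exact (abs_add_le _ _).trans (by linarith)
  have b3 := dist_coe_le (s + a * (ε * σ.θ (n + 1))) (s' + a' * (ε * σ.θ (n + 1)))
  have b4 : i % σ.q (n + 1) = i' % σ.q (n + 1) := by
    by_contra hne
    have b5 := σ.toLev.sep' (Nat.mod_lt i q0) (Nat.mod_lt i' q0) hne
      ((s + a * (ε * σ.θ (n + 1)) : ℝ) : T)
    rw [e, dist_add_right, dist_comm] at b5
    linarith
  rw [b4] at e
  have b6 := le_dist_coe (s := s + a * (ε * σ.θ (n + 1))) (t := s' + a' * (ε * σ.θ (n + 1)))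
    le_rfl (by linarith)
  rw [add_right_cancel e, dist_self, abs_nonpos_iff] at b6
  rwa [show s - s' = -(a * (ε * σ.θ (n + 1)) - a' * (ε * σ.θ (n + 1))) by linarith, abs_neg]

theorem B3_sum {f : ℝ × ℝ → ℝ} (hf : ∀ p, 0 ≤ f p) (A B : Finset (ℝ × ℝ)) :
    ∑ p ∈ A ∪ B, f p ≤ ∑ p ∈ A, f p + ∑ p ∈ B, f p := by
  rw [← Finset.sum_union_inter]
  exact le_add_of_nonneg_right (Finset.sum_nonneg fun p _ => hf p)

theorem refine_step (N p₀ : ℕ) {ε : ℝ} (hε : 0 < ε) : ∃ C : ℕ, ∀ (α : ℝ) (σ : Sys α N) (V : ℝ),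
    Bd σ V → ∀ (n : ℕ) (P : Finset (ℝ × ℝ)), Fam P → P.card ≤ p₀ →
      (∀ p ∈ P, p.2 - p.1 ≤ σ.θ n / 12) → ∃ Q₁ Q₂ : Finset (ℝ × ℝ), Fam (Q₁ ∪ Q₂) ∧
        Disjoint Q₁ Q₂ ∧ (Q₁ ∪ Q₂).card ≤ C ∧ (⋃ p ∈ P, iv p) ⊆ (⋃ p ∈ Q₁ ∪ Q₂, iv p) ∧
        (∀ p' ∈ Q₁ ∪ Q₂, ∃ p ∈ P, p.1 ≤ p'.1 ∧ p'.2 ≤ p.2) ∧
        (∀ p ∈ Q₁, p.2 - p.1 ≤ σ.θ (n + 1) / 12) ∧
        ∑ p ∈ Q₂, σ.h.real (iv p ×ˢ iv p) ≤ ε * V + C := by
  classical
  obtain ⟨M, M1, M2⟩ : ∃ M : ℕ, 1 ≤ M ∧ 6 * (((N + 2) * p₀ : ℕ) : ℝ) ≤ ε * M := by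
    refine ⟨⌈6 * (((N + 2) * p₀ : ℕ) : ℝ) / ε⌉₊ + 1, Nat.le_add_left _ _, ?_⟩
    have := (div_le_iff₀ hε).1 (Nat.le_ceil (6 * (((N + 2) * p₀ : ℕ) : ℝ) / ε))
    rw [Nat.cast_add _ 1, Nat.cast_one]
    linarith
  refine ⟨2 * p₀ + p₀ * (N + 1) * (12 * (4 * M + 6) + 1) + (N + 2) * p₀ * (2 * N ^ 2 + 16),
    fun α σ V hV n P hP hc hl => ?_⟩
  have θ2 := σ.θ_pos (n + 1)
  have V0 : 0 ≤ ε * V := mul_nonneg hε.le (zero_le_one.trans hV.one_le)
  have M0 : (1 : ℝ) ≤ M := Nat.one_le_cast.2 M1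
  have eJ : ((12 * (4 * M + 6) : ℕ) : ℝ) * (σ.θ (n + 1) / 12) = (4 * M + 6) * σ.θ (n + 1) := by
    push_cast
    ring
  have Mθ : 0 ≤ M * σ.θ (n + 1) := by positivity
  rcases lt_or_ge (σ.θ n / 12) (((M : ℝ) + 3) * σ.θ (n + 1)) with hM | hM
  · obtain ⟨Q₁, Q₂, a1, a2, a3, a4, a5, a6, -, a8⟩ :=
      B3_cut hP (P.image Prod.fst) (η := σ.θ (n + 1) / 12) (by positivity) (12 * (4 * M + 6))
    refine ⟨Q₁, Q₂, a1, a2, a3.trans (le_add_right (add_le_add (by omega)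
      (Nat.mul_le_mul_right _ ((Finset.card_image_le.trans hc).trans (by nlinarith))))),
      a4, a5, a6, ?_⟩
    rw [Finset.sum_eq_zero fun q hq => ?_]
    · positivity
    · exfalso
      obtain ⟨p, hp, b1, b2⟩ := a5 q (Finset.mem_union_right _ hq)
      have b3 := (a1.mem q (Finset.mem_union_right _ hq)).2.1
      have b4 := hl p hp
      rcases a8 q hq p.1 (Finset.mem_image_of_mem _ hp) with k | k
      · linarith
      · rw [eJ] at k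
        linarith
  · have ex : ∀ w : (ℝ × ℝ) × T, ∃ s₀ : ℝ, w.1 ∈ P → ∀ i < M * σ.q (n + 1),
        ∀ s ∈ Icc (w.1.1 - ((M : ℝ) + 2) * σ.θ (n + 1)) (w.1.2 + ((M : ℝ) + 2) * σ.θ (n + 1)),
          (s : T) + (((i : ℝ) * α : ℝ) : T) = w.2 → |s - s₀| ≤ M * σ.θ (n + 1) := by
      rintro ⟨p, m⟩
      by_cases k : ∃ i < M * σ.q (n + 1), ∃ s ∈ Icc (p.1 - ((M : ℝ) + 2) * σ.θ (n + 1))
          (p.2 + ((M : ℝ) + 2) * σ.θ (n + 1)), (s : T) + (((i : ℝ) * α : ℝ) : T) = m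
      · obtain ⟨i', hi', s', hs', e'⟩ := k
        refine ⟨s', fun hp i hi s hs e => B3_diam σ n M hi hi' (e.trans e'.symm) ?_⟩
        have b4 := hl p hp
        have : |s - s'| ≤ σ.θ n / 3 - M * σ.θ (n + 1) :=
          abs_le.2 ⟨by linarith [hs.1, hs'.2], by linarith [hs.2, hs'.1]⟩
        linarith
      · exact ⟨0, fun _ i hi s hs e => absurd ⟨i, hi, s, hs, e⟩ k⟩
    choose s₀ hs₀ using ex
    obtain ⟨Q₁, Q₂, a1, a2, a3, a4, a5, a6, a7, a8⟩ :=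
      B3_cut hP ((P ×ˢ σ.M).image fun w => s₀ w - (2 * M + 3) * σ.θ (n + 1))
        (η := σ.θ (n + 1) / 12) (by positivity) (12 * (4 * M + 6))
    have hS : ((P ×ˢ σ.M).image fun w => s₀ w - (2 * M + 3) * σ.θ (n + 1)).card ≤ p₀ * N :=
      Finset.card_image_le.trans ((Finset.card_product _ _).trans_le (Nat.mul_le_mul hc σ.M_card))
    refine ⟨Q₁, Q₂, a1, a2, a3.trans (le_add_right (add_le_add (by omega)
      (Nat.mul_le_mul_right _ (hS.trans (by nlinarith))))), a4, a5, a6, ?_⟩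
    have b0 : ∀ q ∈ Q₂, σ.h.real (iv q ×ˢ iv q) ≤ 2 * (N : ℝ) ^ 2 + 16 + 6 * V / M := by
      intro q hq
      obtain ⟨p, hp, b1, b2⟩ := a5 q (Finset.mem_union_right _ hq)
      have b3 := (a1.mem q (Finset.mem_union_right _ hq)).2.1
      have b4 := hl p hp
      have b5 : iv q ⊆ arc q.1 q.2 := image_mono Ico_subset_Icc_self
      refine (measureReal_mono (prod_mono b5 b5)).trans
        (core σ hV n M M1 b3.le (by linarith) hM fun m hm i hi s hs e => ?_)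
      have b6 := abs_le.1 (hs₀ (p, m) hp i hi s ⟨by linarith [hs.1], by linarith [hs.2]⟩ e)
      rcases a8 q hq _ (Finset.mem_image_of_mem _ (Finset.mem_product.2 (⟨hp, hm⟩ :
        (p, m).1 ∈ P ∧ (p, m).2 ∈ σ.M))) with k | k
      · linarith [hs.2]
      · rw [eJ] at k
        linarith [hs.1]
    have b7 : (Q₂.card : ℝ) ≤ ((N + 2) * p₀ : ℕ) := Nat.cast_le.2 (a7.trans (by nlinarith))
    have V1 := hV.one_le
    refine (Finset.sum_le_card_nsmul _ _ _ b0).trans ?_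
    rw [nsmul_eq_mul]
    refine (mul_le_mul_of_nonneg_right b7 (by positivity)).trans ?_
    have b8 : (((N + 2) * p₀ : ℕ) : ℝ) * (6 * V / M) ≤ ε * V := by
      rw [← mul_div_assoc, div_le_iff₀ (by linarith)]
      nlinarith
    have b9 : (0 : ℝ) ≤ (2 * p₀ + p₀ * (N + 1) * (12 * (4 * M + 6) + 1) : ℕ) := Nat.cast_nonneg _
    rw [Nat.cast_add, Nat.cast_mul ((N + 2) * p₀), mul_add]
    push_cast at b8 b9 ⊢
    linarith

theorem refine (N L : ℕ) : ∀ (p₀ : ℕ) (ε : ℝ), 0 < ε → ∃ C : ℕ, ∀ (α : ℝ) (σ : Sys α N) (V : ℝ),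
    Bd σ V → ∀ (n : ℕ) (P : Finset (ℝ × ℝ)), Fam P → P.card ≤ p₀ →
      (∀ p ∈ P, p.2 - p.1 ≤ σ.θ n / 12) → ∃ Q₁ Q₂ : Finset (ℝ × ℝ), Fam (Q₁ ∪ Q₂) ∧
        (Q₁ ∪ Q₂).card ≤ C ∧ (⋃ p ∈ P, iv p) ⊆ (⋃ p ∈ Q₁ ∪ Q₂, iv p) ∧
        (∀ p' ∈ Q₁ ∪ Q₂, ∃ p ∈ P, p.1 ≤ p'.1 ∧ p'.2 ≤ p.2) ∧
        (∀ p ∈ Q₁, p.2 - p.1 ≤ σ.θ (n + L) / 12) ∧
        ∑ p ∈ Q₂, σ.h.real (iv p ×ˢ iv p) ≤ ε * V + C := by
  induction L with
  | zero =>
    refine fun p₀ ε hε => ⟨p₀, fun α σ V hV n P hP hc hl => ⟨P, ∅, ?_⟩⟩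
    have V0 : 0 ≤ ε * V := mul_nonneg hε.le (zero_le_one.trans hV.one_le)
    rw [Finset.union_empty, Finset.sum_empty]
    exact ⟨hP, hc, subset_rfl, fun p hp => ⟨p, hp, le_rfl, le_rfl⟩, hl, by positivity⟩
  | succ L ih =>
    intro p₀ ε hε
    obtain ⟨C₁, h₁⟩ := refine_step N p₀ (half_pos hε)
    obtain ⟨C₂, h₂⟩ := ih C₁ _ (half_pos hε)
    refine ⟨C₂ + C₁, fun α σ V hV n P hP hc hl => ?_⟩
    obtain ⟨Q₁, Q₂, a1, a2, a3, a4, a5, a6, a7⟩ := h₁ α σ V hV n P hP hc hl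
    have l : ∀ p ∈ Q₁, p ∈ Q₁ ∪ Q₂ := fun p => Finset.mem_union_left _
    have r : ∀ p ∈ Q₂, p ∈ Q₁ ∪ Q₂ := fun p => Finset.mem_union_right _
    obtain ⟨R₁, R₂, b1, b3, b4, b5, b6, b7⟩ := h₂ α σ V hV (n + 1) Q₁
      ⟨fun p hp => a1.mem p (l p hp), fun p hp p' hp' => a1.disj p (l p hp) p' (l p' hp')⟩
      ((Finset.card_le_card Finset.subset_union_left).trans a3) a6
    have x : ∀ p ∈ R₁ ∪ R₂, ∀ q ∈ Q₂, p.2 ≤ q.1 ∨ q.2 ≤ p.1 := fun p hp q hq => by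
      obtain ⟨p', c1, c2, c3⟩ := b5 p hp
      exact (a1.disj p' (l _ c1) q (r _ hq) fun e =>
        Finset.disjoint_left.1 a2 c1 (e ▸ hq)).imp c3.trans (·.trans c2)
    refine ⟨R₁, R₂ ∪ Q₂, ?_⟩
    rw [← Finset.union_assoc]
    refine ⟨⟨fun p hp => ?_, fun p hp p' hp' hne => ?_⟩, (Finset.card_union_le _ _).trans
      (add_le_add b3 ((Finset.card_le_card Finset.subset_union_right).trans a3)),
      fun z hz => ?_, fun p hp => ?_, fun p hp => ?_, ?_⟩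
    · exact (Finset.mem_union.1 hp).elim (b1.mem p) fun k => a1.mem p (r p k)
    · rcases Finset.mem_union.1 hp with k | k <;> rcases Finset.mem_union.1 hp' with k' | k'
      · exact b1.disj p k p' k' hne
      · exact x p k p' k'
      · exact (x p' k' p k).symm
      · exact a1.disj p (r p k) p' (r p' k') hne
    · obtain ⟨p, hp, c⟩ := mem_iUnion₂.1 (a4 hz)
      rcases Finset.mem_union.1 hp with k | k
      · obtain ⟨p', hp', c'⟩ := mem_iUnion₂.1 (b4 (mem_iUnion₂.2 ⟨p, k, c⟩))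
        exact mem_iUnion₂.2 ⟨p', Finset.mem_union_left _ hp', c'⟩
      · exact mem_iUnion₂.2 ⟨p, Finset.mem_union_right _ k, c⟩
    · rcases Finset.mem_union.1 hp with k | k
      · obtain ⟨p', c1, c2, c3⟩ := b5 p k
        obtain ⟨p'', d1, d2, d3⟩ := a5 p' (l _ c1)
        exact ⟨p'', d1, d2.trans c2, c3.trans d3⟩
      · exact a5 p (r p k)
    · rw [add_comm L, ← add_assoc]
      exact b6 p hp
    · refine (B3_sum (fun _ => measureReal_nonneg) _ _).trans ?_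
      push_cast
      linarith

theorem B3_cover {α : ℝ} {N : ℕ} (σ : Sys α N) (e : ℕ) : ∃ P : Finset (ℝ × ℝ), Fam P ∧
    P.card ≤ 100 * N ∧ (∀ p ∈ P, p.2 - p.1 ≤ σ.θ e / 12) ∧ σ.Near (2 * σ.θ e) ⊆ ⋃ p ∈ P, iv p := by
  classical
  have θ0 := σ.θ_pos e
  have θ1 : σ.θ e ≤ 1 := σ.toLev.θ_le_one e
  obtain ⟨n₀, η, idx, η0, η1, η2, hη, -, hlt, hrep⟩ :=
    A5_idx (θ := σ.θ e / 12) (by positivity) (by linarith)
  have hle : ∀ i j : ℕ, i < j → ((i : ℝ) + 1) * η ≤ j * η := fun i j h =>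
    mul_le_mul_of_nonneg_right (by exact_mod_cast h) η0.le
  let s : T → Finset ℕ := fun m => (Finset.range n₀).filter fun k : ℕ =>
    (((k : ℝ) * η : ℝ) : T) ∈ ball m (2 * σ.θ e + η)
  have hone : ∀ m, ∀ k ∈ s m, ((k : ℝ) + 1) * η ≤ 1 := fun m k hk =>
    hη ▸ hle k n₀ (Finset.mem_range.1 (Finset.mem_filter.1 hk).1)
  have hm : ∀ m, (s m).card ≤ 100 := fun m => by
    have k := sep_card (s m) (fun k : ℕ => (((k : ℝ) * η : ℝ) : T)) m
      (R := 2 * σ.θ e + η) (by linarith) η0 (fun i hi j hj hij => ?_)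
      fun i hi => (Finset.mem_filter.1 hi).2
    · have k2 : 2 * (2 * σ.θ e + η) / η ≤ 99 := by
        rw [div_le_iff₀ η0]
        linarith
      exact_mod_cast (show ((s m).card : ℝ) ≤ 100 by linarith)
    · have i0 : 0 ≤ (i : ℝ) * η := by positivity
      have j0 : 0 ≤ (j : ℝ) * η := by positivity
      have i1 := hone m i hi
      have j1 := hone m j hj
      refine le_dist_coe ?_ (abs_le.2 ⟨by linarith only [i0, j1], by linarith only [j0, i1]⟩)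
      rcases lt_or_gt_of_ne hij with h | h
      · have := hle i j h
        exact le_abs.2 (Or.inr (by linarith only [this]))
      · have := hle j i h
        exact le_abs.2 (Or.inl (by linarith only [this]))
  refine ⟨(σ.M.biUnion s).image fun k : ℕ => ((k : ℝ) * η, ((k : ℝ) + 1) * η),
    ⟨fun p hp => ?_, fun p hp p' hp' hne => ?_⟩, ?_, fun p hp => ?_, fun x hx => ?_⟩
  · obtain ⟨k, hk, rfl⟩ := Finset.mem_image.1 hp
    obtain ⟨m, -, hk⟩ := Finset.mem_biUnion.1 hk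
    exact ⟨by positivity, by linarith, hone m k hk⟩
  · obtain ⟨k, -, rfl⟩ := Finset.mem_image.1 hp
    obtain ⟨k', -, rfl⟩ := Finset.mem_image.1 hp'
    exact (lt_or_gt_of_ne fun e : k = k' => hne (by rw [e])).imp (hle k k') (hle k' k)
  · refine Finset.card_image_le.trans (Finset.card_biUnion_le.trans
      ((Finset.sum_le_card_nsmul _ _ _ fun m _ => hm m).trans ?_))
    have := σ.M_card
    rw [smul_eq_mul]
    omega
  · obtain ⟨k, -, rfl⟩ := Finset.mem_image.1 hp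
    linarith
  · obtain ⟨m, hm, hxm⟩ := mem_iUnion₂.1 hx
    obtain ⟨t, t1, t2, t3⟩ := hrep x
    refine mem_iUnion₂.2 ⟨_, Finset.mem_image_of_mem _ (Finset.mem_biUnion.2 ⟨m, hm,
      Finset.mem_filter.2 ⟨Finset.mem_range.2 (hlt x), ?_⟩⟩), t, ⟨t1, t2⟩, t3⟩
    have d1 : dist (((idx x : ℝ) * η : ℝ) : T) (t : T) ≤ η :=
      (dist_coe_le _ _).trans (abs_le.2 ⟨by linarith only [t2], by linarith only [η0, t1]⟩)
    rw [t3] at d1
    have := dist_triangle (((idx x : ℝ) * η : ℝ) : T) x m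
    rw [mem_ball] at hxm ⊢
    linarith only [hxm, d1, this]

theorem B3_disj {P : Finset (ℝ × ℝ)} (hP : Fam P) {p p' : ℝ × ℝ} (hp : p ∈ P) (hp' : p' ∈ P)
    (hne : p ≠ p') : Disjoint (iv p) (iv p') := by
  refine disjoint_left.2 ?_
  rintro _ ⟨s, hs, rfl⟩ ⟨t, ht, e⟩
  have a := hP.mem p hp
  have b := hP.mem p' hp'
  obtain rfl : t = s := (AddCircle.coe_eq_coe_iff_of_mem_Ico (p := 1) (a := 0)
    ⟨b.1.trans ht.1, by linarith [ht.2]⟩ ⟨a.1.trans hs.1, by linarith [hs.2]⟩).1 e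
  rcases hP.disj p hp p' hp' hne with k | k <;> linarith [hs.1, hs.2, ht.1, ht.2]

theorem HZ3 (N L : ℕ) {ε : ℝ} (hε : 0 < ε) : ∃ C : ℝ, 0 ≤ C ∧ ∀ (α : ℝ) (σ : Sys α N) (V : ℝ),
    Bd σ V → ∀ e n : ℕ, n ≤ e + L →
      σ.h.real ((σ.Far (3 * σ.θ n) ∩ σ.Near (2 * σ.θ e)) ×ˢ
        (σ.Far (3 * σ.θ n) ∩ σ.Near (2 * σ.θ e))) ≤ 3 * σ.D n + ε * V + C := by
  obtain ⟨C, hC⟩ := refine N L (100 * N) (ε / 3) (by positivity)
  refine ⟨3 * C + 3 * (C : ℝ) ^ 2, by positivity, fun α σ V hV e n hn => ?_⟩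
  obtain ⟨P, hP, hc, hl, hs⟩ := B3_cover σ e
  obtain ⟨Q₁, Q₂, a1, a3, a4, -, a6, a7⟩ := hC α σ V hV e P hP hc hl
  have mZ := (σ.measurableSet_Far (3 * σ.θ n)).inter (σ.measurableSet_Near (2 * σ.θ e))
  have h1 := HZ2 σ a1 mZ ((inter_subset_right.trans hs).trans a4)
  have hF : σ.Far (3 * σ.θ n) ∩ σ.Near (2 * σ.θ e) ⊆ σ.Far (3 * σ.θ n) := inter_subset_left
  generalize σ.Far (3 * σ.θ n) ∩ σ.Near (2 * σ.θ e) = Z at *
  have h2 := B3_sum (f := fun p => σ.h.real ((Z ∩ iv p) ×ˢ (Z ∩ iv p)))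
    (fun _ => measureReal_nonneg) Q₁ Q₂
  have h3 : ∑ p ∈ Q₂, σ.h.real ((Z ∩ iv p) ×ˢ (Z ∩ iv p)) ≤ ∑ p ∈ Q₂, σ.h.real (iv p ×ˢ iv p) :=
    Finset.sum_le_sum fun p _ => measureReal_mono (prod_mono inter_subset_right inter_subset_right)
  have h4 : ∑ p ∈ Q₁, σ.h.real ((Z ∩ iv p) ×ˢ (Z ∩ iv p)) ≤ σ.D n := by
    rw [← measureReal_biUnion_finset (fun p hp p' hp' hne => disjoint_left.2 fun z k k' =>
      disjoint_left.1 (B3_disj a1 (Finset.mem_union_left _ hp) (Finset.mem_union_left _ hp') hne)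
        k.1.2 k'.1.2)
      fun p _ => (mZ.inter (measurableSet_iv p)).prod (mZ.inter (measurableSet_iv p))]
    refine measureReal_mono (iUnion₂_subset ?_)
    rintro p hp ⟨_, _⟩ ⟨⟨k, s, hs, rfl⟩, -, t, ht, rfl⟩
    refine ⟨hF k, dist_nonneg, (dist_coe_le s t).trans_lt ?_⟩
    have b1 := a6 p hp
    have b2 := σ.θ_anti hn
    have b3 := σ.θ_pos n
    exact abs_lt.2 ⟨by linarith [hs.1, ht.2], by linarith [hs.2, ht.1]⟩
  have h5 : ((Q₁ ∪ Q₂).card : ℝ) ^ 2 ≤ (C : ℝ) ^ 2 :=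
    pow_le_pow_left₀ (Nat.cast_nonneg _) (Nat.cast_le.2 a3) 2
  linarith

end Pool.Agent.Work.MP_042f46_an.Fu
end
end

-- merged part: Pool.Agent.Work.MP_042f46_an.F.B4
section
/-!
# Births in a window and the two steps

Plans.  `JB2`: copy `Sys.JB` (file `T/R3.lean`) with `HZ3` in place of `HZ` and of `b6`.  `step1'`: copy `step1` (file `T/D4.lean`); only `K_le` and `J lo hi ≤ V` were used.
`step2'`: let `ε' = ε / (8 (N + 1))`, `M = max (Mf ε') 1`, choose `s ≥ 4` with `2 M (3 / 4) ^ s ≤ 1 / 2000` (`θ_geom`), `w = R + s`, `P₀` with `8 N (2 M + 1) ≤ P₀ ε`, `L = P₀ w + 4`.  `J_pigeon` from `a` with width `w` gives `f ≥ a` with `P₀ J f (f + w) ≤ V`; `g₀ = f`, `g₁ = f + R`, `g = f + w`; `M θ g ≤ θ g₁ / 2000`.  Take `u` from `TF` at `c = m + α` and level `g`.  A chord of `SS (ball m (4 θ b)) (2 θ a) 2` has `dist (p.1 + α) c < θ g` (`θ_four`) and length at least `2 θ a ≥ 8 θ g`.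  Those with `u (p.1 + α) ≠ 1` have mass at most `ε' V`; the others have `u (p.2 + α) = 0` (distance at least `2 θ a - θ g ≥ M θ g` from `c`), so `DD_ge` bounds their mass by `N (DD H u + N)`.  `A8_sym` with `A = ball c (M θ g)`; split the chords by length: below `8 θ g` (at most `ε' V`), in `[2 θ g, 2 θ f)` (`life_ball` at level `g - 1` with `R = M θ g`, `ν = ⌈4 M⌉₊`: at most `2 ν + (2 M + 1) J f g`), at least `2 θ f` (at most `a c g₁ f`); `(u p.1 - u p.2) ^ 2 ≤ 1`.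
-/

open Set Metric Topology Filter MeasureTheory
open scoped ENNReal NNReal

noncomputable section
namespace Pool.Agent.Work.MP_042f46_an.Fu

open Pool.Agent.Work.MP_042f46_an.Ty

theorem Bd.mono {α : ℝ} {N : ℕ} {σ : Sys α N} {V V' : ℝ} (h : Bd σ V) (h' : V ≤ V') : Bd σ V' :=
  ⟨h.one_le.trans h', fun n => (h.K_le n).trans h', fun n => (h.J_le n).trans h'⟩

theorem JB2 (N L : ℕ) {ε : ℝ} (hε : 0 < ε) : ∃ C : ℝ, 0 ≤ C ∧ ∀ (α : ℝ) (σ : Sys α N) (V : ℝ),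
    Bd σ V → ∀ (l₁ l₂ d₁ d₂ e : ℕ) (a : ℝ), l₁ ≤ l₂ → l₂ + 2 ≤ d₁ → d₁ + 4 ≤ d₂ → d₂ ≤ e + L →
      σ.K d₁ ≤ a → σ.K d₂ ≤ a → σ.At d₂ d₁ ≤ a →
      (e = 0 ∨ e + 4 ≤ l₁ ∧ σ.At l₁ (e + 2) ≤ a) → σ.J l₁ l₂ ≤ 116 * N * a + ε * V + C := by
  obtain ⟨C, hC, hZ⟩ := HZ3 N L hε
  refine ⟨C + 13 * (N : ℝ) ^ 2, by positivity, ?_⟩
  intro α σ V hV l₁ l₂ d₁ d₂ e a h₁₂ hd₁ hd₂ hL hK₁ hK₂ hA he
  have ha : 0 ≤ a := (σ.K_nonneg _).trans hK₁
  have hN : (0 : ℝ) ≤ N := Nat.cast_nonneg N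
  have hel : e ≤ l₁ := by omega
  have p1 := σ.θ_pos d₁
  have p2 := σ.θ_pos d₂
  have p3 := σ.θ_pos e
  have t1 : 2 * σ.θ d₁ ≤ σ.θ l₂ := σ.θ_two hd₁
  have t2 : 4 * σ.θ d₂ ≤ σ.θ d₁ := σ.θ_four hd₂
  have t3 : σ.θ l₁ ≤ σ.θ e := σ.θ_anti hel
  have s1 : SS univ (2 * σ.θ l₂) (2 * σ.θ l₁) ⊆
      (σ.G ∪ (σ.Far (3 * σ.θ d₁) ∩ σ.Near (2 * σ.θ l₁)) ×ˢ univ) ∪
        ⋃ m ∈ σ.M, SS (ball m (3 * σ.θ d₁)) (2 * σ.θ d₁ + 2 * (σ.θ d₁ / 2)) 2 := by
    intro p hp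
    by_cases h1 : p ∈ σ.G
    · exact Or.inl (Or.inl h1)
    by_cases h2 : p.1 ∈ σ.Far (3 * σ.θ d₁)
    · refine Or.inl (Or.inr ⟨⟨h2, ?_⟩, mem_univ _⟩)
      by_contra k
      exact h1 fun m hm => not_le.1 fun l =>
        k (mem_iUnion₂.2 ⟨m, hm, ((le_max_left _ _).trans l).trans_lt hp.2.2⟩)
    · obtain ⟨m, hm, h3⟩ := σ.A6_far h2
      exact Or.inr (mem_iUnion₂.2 ⟨m, hm, h3, by linarith only [p2, t1, t2, hp, hp.2.1], Sys.A6_two _ _⟩)
  have s2 : (σ.Far (3 * σ.θ d₁) ∩ σ.Near (2 * σ.θ l₁)) ×ˢ (univ : Set T) ⊆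
      ((σ.Far (3 * σ.θ d₂) ∩ σ.Near (2 * σ.θ e)) ×ˢ (σ.Far (3 * σ.θ d₂) ∩ σ.Near (2 * σ.θ e)) ∪
        Prod.swap ⁻¹' ⋃ m ∈ σ.M, SS (ball m (3 * σ.θ d₂)) (2 * σ.θ d₁ + 2 * (σ.θ d₂ / 2)) 2) ∪
        σ.Near (2 * σ.θ l₁) ×ˢ (σ.Near (2 * σ.θ e))ᶜ := by
    rintro p ⟨⟨h1, h2⟩, -⟩
    by_cases h3 : p.2 ∈ σ.Near (2 * σ.θ e)
    · by_cases h4 : p.2 ∈ σ.Far (3 * σ.θ d₂)
      · obtain ⟨m, hm, h5⟩ := mem_iUnion₂.1 h2
        exact Or.inl (Or.inl ⟨⟨fun m hm => le_trans (by linarith only [p2, t2]) (h1 m hm),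
          mem_iUnion₂.2 ⟨m, hm, ball_subset_ball (by linarith only [t3]) h5⟩⟩, h4, h3⟩)
      · obtain ⟨m, hm, h5⟩ := σ.A6_far h4
        refine Or.inl (Or.inr (mem_iUnion₂.2 ⟨m, hm, h5, ?_, Sys.A6_two _ _⟩))
        have k1 := h1 m hm
        have k2 := dist_triangle_left p.1 m p.2
        have k3 : dist p.2 m < 3 * σ.θ d₂ := h5
        show _ ≤ dist p.2 p.1
        linarith only [t2, k1, k2, k3]
    · exact Or.inr ⟨h2, h3⟩
  have b1 := σ.b_G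
  have b2 := σ.A6_cov σ.b (R := 3 * σ.θ d₁) (s := 2 * σ.θ d₁ + 2 * (σ.θ d₁ / 2)) (half_pos p1) 12
    (by push_cast; linarith only []) ha fun c =>
    (σ.b_rect c _ (by linarith only [p2, t2])).trans ((σ.a_le_At _ d₁ d₁).trans hK₁)
  have b3 : σ.b.real ((σ.Far (3 * σ.θ d₁) ∩ σ.Near (2 * σ.θ l₁)) ×ˢ univ) =
      σ.h.real ((σ.Far (3 * σ.θ d₁) ∩ σ.Near (2 * σ.θ l₁)) ×ˢ univ) :=
    congrArg ENNReal.toReal
      (σ.marg _ ((σ.measurableSet_Far _).inter (σ.measurableSet_Near _))).symm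
  have b4 := hZ α σ V hV e d₂ hL
  have b5 := σ.D_le d₂
  have b7 : σ.h.real (Prod.swap ⁻¹'
      ⋃ m ∈ σ.M, SS (ball m (3 * σ.θ d₂)) (2 * σ.θ d₁ + 2 * (σ.θ d₂ / 2)) 2) ≤ 12 * N * a := by
    have := σ.A6_h (R := 3 * σ.θ d₂) 12 d₂ d₁ (by push_cast; linarith only []) hA
    rw [Measure.real, swap_apply σ.h_symm (Finset.measurableSet_biUnion _ fun m _ =>
      measurableSet_SS measurableSet_ball _ _)]
    exact_mod_cast this
  have b8 : σ.h.real (σ.Near (2 * σ.θ l₁) ×ˢ (σ.Near (2 * σ.θ e))ᶜ) ≤ 8 * N * a := by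
    rcases he with rfl | ⟨h1, h2⟩
    · obtain ⟨m, hm⟩ := σ.M_ne
      have : σ.Near (2 * σ.θ 0) = univ := eq_univ_of_forall fun x =>
        mem_iUnion₂.2 ⟨m, hm, by rw [σ.θ_zero, mul_one]; exact Sys.A6_two _ _⟩
      rw [this, compl_univ, prod_empty, measureReal_empty]
      positivity
    · have k0 := σ.A6_h (R := 2 * σ.θ l₁) 8 l₁ (e + 2) (by push_cast; linarith only []) h2
      push_cast at k0
      refine le_trans (measureReal_mono (fun p hp => ?_) (measure_ne_top _ _)) k0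
      obtain ⟨m, hm, h3⟩ := mem_iUnion₂.1 hp.1
      refine mem_iUnion₂.2 ⟨m, hm, h3, ?_, Sys.A6_two _ _⟩
      have k1 : 2 * σ.θ e ≤ dist p.2 m := not_lt.1 fun l => hp.2 (mem_iUnion₂.2 ⟨m, hm, l⟩)
      have k2 := dist_triangle_left p.2 m p.1
      have k3 : dist p.1 m < 2 * σ.θ l₁ := h3
      have k4 := σ.θ_half e
      have k5 : 4 * σ.θ l₁ ≤ σ.θ e := σ.θ_four h1
      linarith only [p3, k1, k2, k3, k4, k5]
  have c1 := ((measureReal_mono s1 (measure_ne_top σ.b _)).trans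
    (measureReal_union_le _ _)).trans (add_le_add (measureReal_union_le _ _) le_rfl)
  have c2 := ((measureReal_mono s2 (measure_ne_top σ.h _)).trans
    (measureReal_union_le _ _)).trans (add_le_add (measureReal_union_le _ _) le_rfl)
  have c3 : (N : ℝ) * σ.K d₂ ≤ N * a := mul_le_mul_of_nonneg_left hK₂ hN
  push_cast at b2
  unfold Sys.J
  linarith only [b1, b2, b3, b4, b5, b7, b8, c1, c2, c3]

theorem step1' (N : ℕ) {ε : ℝ} (hε : 0 < ε) (R : ℕ) : ∃ (L : ℕ) (C : ℝ), 0 ≤ C ∧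
    ∀ (α : ℝ) (σ : Sys α N) (lo hi : ℕ) (V : ℝ), Bd σ V → σ.J lo hi ≤ V →
      ∀ (c : T) (g₀ g₁ : ℕ), lo ≤ g₀ → g₀ + L ≤ g₁ → g₁ ≤ hi → ε * V + C < σ.a c g₁ g₀ →
        ∃ m ∈ σ.M, ∃ t a b : ℕ, g₀ ≤ a ∧ a + R ≤ b ∧ b ≤ g₁ ∧ t < σ.q (a + 1) ∧
          dist (c + (((t : ℝ) * α : ℝ) : T)) m < 3 * σ.θ b ∧
          σ.a c g₁ g₀ ≤ σ.κ m (4 * σ.θ b) (2 * σ.θ a) + (N : ℝ) ^ 2 := by
  obtain ⟨P₀, hP⟩ : ∃ P₀ : ℕ, 25 * N ≤ P₀ * ε :=
    ⟨⌈25 * N / ε⌉₊, (div_le_iff₀ hε).1 (Nat.le_ceil _)⟩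
  refine ⟨P₀ * R, (N : ℝ) ^ 2 + 32 * N * (P₀ * R : ℕ), by positivity,
    fun α σ lo hi V W WJ c g₀ g₁ h₀ h₁ h₂ ha => ?_⟩
  have hV : 0 ≤ V := zero_le_one.trans W.one_le
  have hg : g₀ ≠ 0 := by
    rintro rfl
    rw [σ.a_zero] at ha
    exact ha.not_ge (by positivity)
  choose t ht hm hf using fun k : ℕ => A7_hit σ c (g := g₀ + k * R) (by omega)
  have hl : ∀ k ∈ Finset.range (P₀ + 1), g₀ ≤ g₀ + k * R ∧ g₀ + k * R ≤ g₀ + P₀ * R :=
    fun k hk => ⟨Nat.le_add_right _ _, Nat.add_le_add_left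
      (Nat.mul_le_mul_right _ (Nat.lt_succ_iff.1 (Finset.mem_range.1 hk))) _⟩
  have hr := fun k hk => A7_run σ c (hl k hk).1 ((hl k hk).2.trans h₁) (ht k) (hf k)
  have key : ∀ k ∈ Finset.range (P₀ + 1), ∀ l ∈ Finset.range (P₀ + 1), k < l → t k = t l →
      ∃ m ∈ σ.M, ∃ t a b : ℕ, g₀ ≤ a ∧ a + R ≤ b ∧ b ≤ g₁ ∧ t < σ.q (a + 1) ∧
        dist (c + (((t : ℝ) * α : ℝ) : T)) m < 3 * σ.θ b ∧
        σ.a c g₁ g₀ ≤ σ.κ m (4 * σ.θ b) (2 * σ.θ a) + (N : ℝ) ^ 2 := by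
    intro k hk l hl' hkl e
    obtain ⟨m, hm, h⟩ := hm l
    rw [← e] at h
    have h3 := (hl l hl').2.trans h₁
    refine ⟨m, hm, t k, g₀ + k * R, g₀ + l * R, (hl k hk).1, ?_, h3, ht k, h, (hr k hk).trans ?_⟩
    · have := Nat.mul_le_mul_right R (Nat.succ_le_of_lt hkl)
      rw [Nat.succ_mul] at this
      omega
    · exact add_le_add_left (σ.κ_mono (A7_ball σ h3 h) le_rfl
        (by linarith only [σ.θ_pos (g₀ + k * R)])) _
  by_contra hn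
  have hi' : InjOn t (Finset.range (P₀ + 1) : Finset ℕ) := fun k hk l hl' e => by
    rcases lt_trichotomy k l with h | h | h
    · exact absurd (key k hk l hl' h e) hn
    · exact h
    · exact absurd (key l hl' k hk h e.symm) hn
  have h3 := A7_sum σ c h₁ _ (g := fun k => g₀ + k * R) hl (fun k _ => ht k) (fun k _ => hm k) hi'
  have h4 := Finset.card_nsmul_le_sum _ _ _ fun k hk => sub_le_iff_le_add.2 (hr k hk)
  rw [Finset.card_range, nsmul_eq_mul, Nat.cast_succ] at h4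
  have h5 := W.K_le g₀
  have h6 := (σ.J_mono h₀ (h₁.trans h₂)).trans WJ
  have hN : (0 : ℝ) ≤ N := Nat.cast_nonneg _
  have hP0 : (0 : ℝ) ≤ P₀ := Nat.cast_nonneg _
  have hL : (0 : ℝ) ≤ (P₀ * R : ℕ) := Nat.cast_nonneg _
  generalize ((P₀ * R : ℕ) : ℝ) = L at *
  have h7 : ((P₀ : ℝ) + 1) * (ε * V + 32 * N * L) < (P₀ + 1) * (σ.a c g₁ g₀ - N ^ 2) :=
    mul_lt_mul_of_pos_left (by linarith only [ha]) (by linarith only [])
  have h8 : N * (16 * σ.K g₀ + 32 * L + 9 * σ.J g₀ (g₀ + P₀ * R)) ≤ N * (25 * V + 32 * L) :=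
    mul_le_mul_of_nonneg_left (by linarith only [h5, h6]) hN
  have h9 := mul_le_mul_of_nonneg_right hP hV
  have h10 := mul_nonneg hε.le hV
  have h11 := mul_nonneg (mul_nonneg hP0 hN) hL
  linarith only [h4, h3, h7, h8, h9, h10, h11]

theorem B4_one (H : Measure (T × T)) {u : T → ℝ} (hu : ∀ x, u x ∈ Icc (0 : ℝ) 1)
    (X : Set (T × T)) : ∫⁻ p in X, ENNReal.ofReal ((u p.1 - u p.2) ^ 2) ∂H ≤ H X := by
  calc ∫⁻ p in X, ENNReal.ofReal ((u p.1 - u p.2) ^ 2) ∂H ≤ ∫⁻ _ in X, 1 ∂H := by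
        refine lintegral_mono fun p => ENNReal.ofReal_le_one.2 ?_
        have a := hu p.1
        have b := hu p.2
        exact sq_le_one_iff_abs_le_one _ |>.2
          (abs_le.2 ⟨by linarith only [a.1, b.2], by linarith only [a.2, b.1]⟩)
    _ = H X := by simp

theorem B4_DD {α : ℝ} {N : ℕ} (σ : Sys α N) (c : T) {f g g₁ ν : ℕ} {M B : ℝ} (hg : g ≠ 0)
    (hM : 0 ≤ M) (hB : 0 ≤ B) (hν : 4 * M ≤ ν) (hMg : M * σ.θ g ≤ σ.θ g₁ / 2) {u : T → ℝ}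
    (hu : Continuous u) (h01 : ∀ x, u x ∈ Icc (0 : ℝ) 1)
    (hs : ∀ x, u x ≠ 0 → dist x c < M * σ.θ g)
    (hsh : ∫⁻ p in SS univ 0 (8 * σ.θ g), ENNReal.ofReal ((u p.1 - u p.2) ^ 2) ∂σ.H ≤
      ENNReal.ofReal B) :
    DD σ.H u ≤ ENNReal.ofReal (2 * (B + (2 * ν + (2 * M + 1) * σ.J f g) + σ.a c g₁ f)) := by
  obtain ⟨n, rfl⟩ := Nat.exists_eq_succ_of_ne_zero hg
  have pn := σ.θ_pos n
  have pg := σ.θ_pos (n + 1)
  have pf := σ.θ_pos f
  have hJ := σ.J_nonneg f (n + 1)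
  have h1 := Sys.A8_sym σ.H σ.H_symm hu (A := ball c (M * σ.θ (n + 1))) measurableSet_ball
    fun x hx => by_contra fun k => hx (hs x k)
  have hcov : {p : T × T | p.1 ∈ ball c (M * σ.θ (n + 1)) ∧ 0 < dist p.1 p.2} ⊆
      (SS univ 0 (8 * σ.θ (n + 1)) ∪ SS (ball c (M * σ.θ (n + 1))) (2 * σ.θ (n + 1)) (2 * σ.θ f)) ∪
        SS (ball c (M * σ.θ (n + 1))) (2 * σ.θ f) 2 := by
    rintro p ⟨k1, -⟩
    by_cases k2 : 2 * σ.θ f ≤ dist p.1 p.2
    · exact Or.inr ⟨k1, k2, Sys.A6_two _ _⟩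
    by_cases k3 : 2 * σ.θ (n + 1) ≤ dist p.1 p.2
    · exact Or.inl (Or.inr ⟨k1, k3, not_le.1 k2⟩)
    · exact Or.inl (Or.inl ⟨mem_univ _, dist_nonneg, by linarith only [pg, not_le.1 k3]⟩)
  have h2 : σ.H.real (SS (ball c (M * σ.θ (n + 1))) (2 * σ.θ (n + 1)) (2 * σ.θ f)) ≤
      2 * ν + (2 * M + 1) * σ.J f (n + 1) := by
    refine (σ.life_ball n c (R := M * σ.θ (n + 1)) (r := 2 * σ.θ (n + 1)) (2 * σ.θ f) ν
      (by positivity) ?_ le_rfl).trans (add_le_add le_rfl ?_)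
    · linarith only [mul_le_mul_of_nonneg_right hν pg.le]
    · refine mul_le_mul_of_nonneg_right (add_le_add ?_ le_rfl) hJ
      rw [div_le_iff₀ pn]
      linarith only [mul_le_mul_of_nonneg_left (σ.θ_anti (Nat.le_succ n)) hM]
  have h3 : σ.H.real (SS (ball c (M * σ.θ (n + 1))) (2 * σ.θ f) 2) ≤ σ.a c g₁ f :=
    σ.κ_mono (ball_subset_ball hMg) le_rfl (by linarith only [pf])
  have h4 := (B4_one σ.H h01 _).trans (ENNReal.le_ofReal_iff_toReal_le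
    (σ.H_fin (off_SS _ (by linarith only [pg]) _)) (by positivity) |>.2 h2)
  have ha : 0 ≤ σ.a c g₁ f := σ.κ_nonneg _ _ _
  have h5 := (B4_one σ.H h01 _).trans (ENNReal.le_ofReal_iff_toReal_le
    (σ.H_fin (off_SS _ (by linarith only [pf]) _)) ha |>.2 h3)
  have h6 := (lintegral_mono_set hcov).trans ((lintegral_union_le _ _ _).trans
    (add_le_add ((lintegral_union_le _ _ _).trans (add_le_add hsh h4)) h5))
  rw [← ENNReal.ofReal_add hB (by positivity), ← ENNReal.ofReal_add (by positivity) ha] at h6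
  refine h1.trans ?_
  rw [ENNReal.ofReal_mul zero_le_two, ENNReal.ofReal_ofNat]
  gcongr

theorem B4_pass {α : ℝ} {N : ℕ} (σ : Sys α N) (m : T) {a b g : ℕ} {M B E : ℝ} (ha : a + 4 ≤ g)
    (hb : g + 4 ≤ b) (hB : 0 ≤ B) (hE : 0 ≤ E) (hMg : M * σ.θ g ≤ σ.θ a) {u : T → ℝ}
    (hu : Continuous u) (hs : ∀ x, u x ≠ 0 → dist x (m + (α : T)) < M * σ.θ g)
    (hp : DD σ.H (fun x => u (x + (α : T))) ≤ (N : ℝ≥0∞) * (DD σ.H u + N))
    (hD : DD σ.H u ≤ ENNReal.ofReal E)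
    (hb' : σ.H {p | dist (p.1 + (α : T)) (m + (α : T)) < σ.θ g ∧ 8 * σ.θ g ≤ dist p.1 p.2 ∧
      u (p.1 + (α : T)) ≠ 1} ≤ ENNReal.ofReal B) :
    σ.κ m (4 * σ.θ b) (2 * σ.θ a) ≤ B + N * (E + N) := by
  have pg := σ.θ_pos g
  have t1 := σ.toLev.θ_four ha
  have t2 := σ.toLev.θ_four hb
  have hm : MeasurableSet (SS (ball m (4 * σ.θ b)) (2 * σ.θ a) 2 ∩
      {p : T × T | u (p.1 + (α : T)) = 1}) :=
    (measurableSet_SS measurableSet_ball _ _).inter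
      (isClosed_eq (hu.comp (continuous_fst.add continuous_const)) continuous_const).measurableSet
  have h1 := DD_ge σ.H (u := fun x => u (x + (α : T))) hm fun p hp => ⟨hp.2, by_contra fun k => by
    have k0 := hs _ k
    rw [dist_add_right] at k0
    have k1 : dist p.1 m < 4 * σ.θ b := hp.1.1
    have k2 := dist_triangle_right p.1 p.2 m
    linarith only [pg, t1, t2, k0, k1, k2, hMg, hp.1.2.1]⟩
  have hcov : SS (ball m (4 * σ.θ b)) (2 * σ.θ a) 2 ⊆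
      {p | dist (p.1 + (α : T)) (m + (α : T)) < σ.θ g ∧ 8 * σ.θ g ≤ dist p.1 p.2 ∧
        u (p.1 + (α : T)) ≠ 1} ∪
      (SS (ball m (4 * σ.θ b)) (2 * σ.θ a) 2 ∩ {p : T × T | u (p.1 + (α : T)) = 1}) := by
    intro p hp
    by_cases k : u (p.1 + (α : T)) = 1
    · exact Or.inr ⟨hp, k⟩
    · have k1 : dist p.1 m < 4 * σ.θ b := hp.1
      refine Or.inl ⟨?_, by linarith only [t1, hp.2.1], k⟩
      rw [dist_add_right]
      linarith only [k1, t2]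
  have h2 := (measure_mono (μ := σ.H) hcov).trans ((measure_union_le _ _).trans
    (add_le_add hb' (h1.trans hp)))
  refine ENNReal.toReal_le_of_le_ofReal (by positivity) (h2.trans ?_)
  rw [ENNReal.ofReal_add hB (by positivity), ENNReal.ofReal_mul (Nat.cast_nonneg N),
    ENNReal.ofReal_add hE (Nat.cast_nonneg N), ENNReal.ofReal_natCast]
  gcongr

theorem step2' (N : ℕ) (Mf : ℝ → ℝ) {ε : ℝ} (hε : 0 < ε) (R : ℕ) : ∃ (L : ℕ) (C : ℝ), 0 ≤ C ∧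
    ∀ (α : ℝ) (σ : Sys α N) (lo hi : ℕ) (V : ℝ), Bd σ V → σ.J lo hi ≤ V →
      (∀ η, 0 < η → TF σ η (Mf η) V) → ∀ (m : T) (a b : ℕ), lo ≤ a → a + L ≤ b → b ≤ hi →
        ∃ g₀ g₁ : ℕ, a ≤ g₀ ∧ g₀ + R ≤ g₁ ∧ g₁ + 4 ≤ b ∧
          σ.κ m (4 * σ.θ b) (2 * σ.θ a) ≤ 2 * N * σ.a (m + (α : T)) g₁ g₀ + ε * V + C := by
  have hN : (0 : ℝ) ≤ N := Nat.cast_nonneg N
  obtain ⟨η, hη, hηε⟩ : ∃ η : ℝ, 0 < η ∧ (2 * N + 1) * η ≤ ε / 2 := by
    refine ⟨ε / (2 * (2 * N + 1)), by positivity, le_of_eq ?_⟩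
    field_simp
  obtain ⟨M, hM1, hMf⟩ : ∃ M : ℝ, 1 ≤ M ∧ Mf η ≤ M := ⟨max (Mf η) 1, le_max_right _ _, le_max_left _ _⟩
  have hM0 : 0 < M := one_pos.trans_le hM1
  obtain ⟨s₀, hs₀⟩ := exists_pow_lt_of_lt_one (x := 1 / (4000 * M)) (y := (3 / 4 : ℝ))
    (by positivity) (by norm_num)
  obtain ⟨s, hs, h34⟩ : ∃ s : ℕ, 4 ≤ s ∧ M * (2 * (3 / 4 : ℝ) ^ s) ≤ 1 / 2000 := by
    refine ⟨s₀ + 4, by omega, ?_⟩
    have k1 : (3 / 4 : ℝ) ^ (s₀ + 4) ≤ (3 / 4) ^ s₀ :=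
      pow_le_pow_of_le_one (by norm_num) (by norm_num) (by omega)
    rw [lt_div_iff₀ (by positivity)] at hs₀
    have k3 := mul_le_mul_of_nonneg_left k1 hM0.le
    linarith only [hs₀, k3]
  obtain ⟨P₀, hP₀⟩ := exists_nat_gt (8 * N * (2 * M + 1) / ε)
  have hP : 0 < P₀ := Nat.cast_pos.1 (lt_of_le_of_lt (by positivity) hP₀)
  rw [div_lt_iff₀ hε] at hP₀
  obtain ⟨ν, hν⟩ : ∃ ν : ℕ, 4 * M ≤ ν := ⟨⌈4 * M⌉₊, Nat.le_ceil _⟩
  refine ⟨P₀ * (R + s) + 4, 4 * N * ν + N ^ 2, by positivity,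
    fun α σ lo hi V hW hWJ hTF m a b h1 h2 h3 => ?_⟩
  obtain ⟨i, hi', hJ⟩ := σ.J_pigeon a (R + s) hP
  have h4 : (i + 1) * (R + s) ≤ P₀ * (R + s) := Nat.mul_le_mul_right _ hi'
  rw [Nat.succ_mul] at h4
  have h5 := (hJ.trans (σ.J_mono (l₂' := hi) h1 (by omega))).trans hWJ
  obtain ⟨f, hf⟩ : ∃ f, f = a + i * (R + s) := ⟨_, rfl⟩
  rw [← hf] at h5
  obtain ⟨g, hg⟩ : ∃ g, g = f + (R + s) := ⟨_, rfl⟩
  rw [← hg] at h5
  have hV : 0 ≤ V := zero_le_one.trans hW.one_le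
  have hJ0 := σ.J_nonneg f g
  have pg := σ.θ_pos g
  have p1 := σ.θ_pos (f + R)
  have t1 : M * σ.θ g ≤ σ.θ (f + R) / 2000 := by
    have k1 := σ.toLev.θ_geom (g := f + R) (j := g) (by omega)
    rw [show g - (f + R) = s by omega] at k1
    have k2 := mul_le_mul_of_nonneg_left k1 hM0.le
    have k3 := mul_le_mul_of_nonneg_right h34 p1.le
    linarith only [k2, k3]
  have t2 : Mf η * σ.θ g ≤ M * σ.θ g := mul_le_mul_of_nonneg_right hMf pg.le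
  have t3 : σ.θ (f + R) ≤ σ.θ a := σ.θ_anti (by omega)
  have t4 := σ.toLev.θ_le_one (f + R)
  obtain ⟨u, u1, u2, u3, u4, u5, u6⟩ := hTF η hη (m + (α : T)) g (by linarith only [t1, t2, t4])
  have hηV : 0 ≤ η * V := mul_nonneg hη.le hV
  have u3' : ∀ x, u x ≠ 0 → dist x (m + (α : T)) < M * σ.θ g := fun x hx => (u3 x hx).trans_le t2
  have ha : 0 ≤ σ.a (m + (α : T)) (f + R) f := σ.κ_nonneg _ _ _
  have hD := B4_DD σ (m + (α : T)) (f := f) (g₁ := f + R) (by omega) hM0.le hηV hν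
    (by linarith only [t1, p1]) u1 u2 u3' u5
  refine ⟨f, f + R, by omega, le_rfl, by omega, ?_⟩
  refine (B4_pass σ m (g := g) (by omega) (by omega) hηV (by positivity)
    (by linarith only [t1, t3, p1]) u1 u3' u4 hD u6).trans ?_
  have k1 := mul_le_mul_of_nonneg_right hηε hV
  have k2 := mul_le_mul_of_nonneg_right hP₀.le hJ0
  have k3 := mul_le_mul_of_nonneg_left h5 hε.le
  have k4 := mul_nonneg hε.le hV
  linarith only [k1, k2, k3, k4]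

end Pool.Agent.Work.MP_042f46_an.Fu
end
end

-- merged part: Pool.Agent.Work.MP_042f46_an.F.B5
section
/-!
# The contraction and the uniform bound

Plans.  `atom_ind'`, `atom_small'`: copy `atom_ind`, `atom_small` (file `T/D4.lean`) with `P = 1`.
`contract'`: copy `contract`.  `A = 116 N + 2`, `B = 232 N + 1`.  `atom_small'` with `ε = 1 / (32 A B)` gives `L₀`; `L = L₀ + 4`, `W = 64 A B (2 L)`, window `lo = l - M₀`, `hi = l + M₀`, `M₀ = W + 2 L + 10`.  `JB2` (as in `J_crude`: `d₁ = hi + 2`, `d₂ = hi + 6`, `e = lo - 4`, `a = V`, length `2 M₀ + 10`, `ε = 1`) gives `J lo hi ≤ V' := A V + C₁`; `Bd σ V'` by `Bd.mono`, and `Rich` gives the test functions for `V'`.  Then as in `contract`: `At g (g - L) ≤ u + C`, `u = V / (32 B) + C`, `J_pigeon`, `S1` twice, `JB2` with `l₁ = l - L`, `l₂ = l`, `e = l - L - L - 2` and `ε = 1 / 16`, `S1` again; `J (l - 1) l ≤ J (l - L) l`.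
`bound_all`: `V = max (max 1 V₀) (max (⨆ n, K n) (⨆ n, J n (n + 1)))` is finite (`K_bdd`, `J ≤ b.real univ`) and `Bd σ V`; `contract'` at all levels (`l = n`, `l = n + 1`) gives `V ≤ max (max 1 V₀) (V / 2 + C)`.
-/

open Set Metric Topology Filter MeasureTheory
open scoped ENNReal NNReal

noncomputable section
namespace Pool.Agent.Work.MP_042f46_an.Fu

open Pool.Agent.Work.MP_042f46_an.Ty

theorem B5_atom_ind (N : ℕ) (Mf : ℝ → ℝ) (k : ℕ) : ∀ ε : ℝ, 0 < ε → ∃ (L : ℕ) (C : ℝ), 0 ≤ C ∧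
    ∀ (α : ℝ) (σ : Sys α N) (lo hi : ℕ) (V : ℝ), Bd σ V → σ.J lo hi ≤ V →
      (∀ η, 0 < η → TF σ η (Mf η) V) →
      ∀ U ⊆ σ.M, (σ.M \ U).card < k → ∀ (c : T) (g₀ g₁ : ℕ), lo ≤ g₀ → g₀ + L ≤ g₁ → g₁ ≤ hi →
        (∀ u ∈ U, ∃ T : ℕ, 1 ≤ T ∧ T ≤ U.card * σ.q (g₀ + 1) ∧
          dist (u + (((T : ℝ) * α : ℝ) : Ty.T)) c ≤ U.card * σ.θ g₁) →
        σ.a c g₁ g₀ ≤ ε * V + C := by
  induction k with
  | zero =>
    exact fun ε _ => ⟨0, 0, le_rfl, fun _ _ _ _ _ _ _ _ _ _ h => absurd h (Nat.not_lt_zero _)⟩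
  | succ k ih =>
    intro ε hε
    obtain ⟨L', C', hC', h'⟩ := ih (ε / (4 * (N + 1))) (by positivity)
    obtain ⟨L₂, C₂, hC₂, h₂⟩ := step2' N Mf (ε := ε / 4) (by positivity) (L' + (4 * N + 2))
    obtain ⟨L₁, C₁, hC₁, h₁⟩ := step1' N (ε := ε / 4) (by positivity) L₂
    refine ⟨L₁, C₁ + 2 * N * C' + C₂ + (N : ℝ) ^ 2, by positivity, ?_⟩
    intro α σ lo hi V hB hJ hT U hU hk c g₀ g₁ hlo hL hhi hF
    have hV : 0 ≤ V := zero_le_one.trans hB.one_le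
    have hN : (0 : ℝ) ≤ N := Nat.cast_nonneg N
    have e1 : 0 ≤ 2 * N * C' := by positivity
    have e5 : 0 ≤ ε * V := by positivity
    by_contra hn
    rw [not_le] at hn
    obtain ⟨m, hm, t, a, b, k1, k2, k3, k4, k5, k6⟩ := h₁ α σ lo hi V hB hJ c g₀ g₁ hlo hL hhi
      (by linarith only [e1, hC₂, e5, hn, sq_nonneg (N : ℝ)])
    obtain ⟨f₀, f₁, j1, j2, j3, j4⟩ := h₂ α σ lo hi V hB hJ hT m a b (hlo.trans k1) k2
      (k3.trans hhi)
    have hd : dist (c + (((t : ℝ) * α : ℝ) : T)) m ≤ σ.θ f₁ := by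
      linarith only [k5, j3, σ.θ_four j3, σ.θ_pos b]
    have hq : σ.q (g₀ + 1) ≤ σ.q (f₀ + 1) := σ.q_mono (by omega)
    have hq' : t < σ.q (f₀ + 1) := k4.trans_le (σ.q_mono (by omega))
    have hθ : σ.θ g₁ ≤ σ.θ f₁ := σ.θ_anti (by omega)
    have hc : U.card ≤ N := (Finset.card_le_card hU).trans σ.M_card
    have key : ∀ u ∈ U, ∃ s : ℕ, 1 ≤ s ∧ s < (U.card + 1) * σ.q (f₀ + 1) ∧
        dist (u + (((s : ℝ) * α : ℝ) : T)) m ≤ ((U.card : ℝ) + 1) * σ.θ f₁ := fun u hu => by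
      obtain ⟨s, s1, s2, s3⟩ := hF u hu
      refine ⟨s + t, by omega, ?_, ?_⟩
      · have := Nat.mul_le_mul_left U.card hq
        rw [add_mul, one_mul]
        omega
      · have d1 := dist_triangle (u + (((s : ℝ) * α : ℝ) : T) + (((t : ℝ) * α : ℝ) : T))
          (c + (((t : ℝ) * α : ℝ) : T)) m
        rw [dist_add_right] at d1
        have d2 : (U.card : ℝ) * σ.θ g₁ ≤ U.card * σ.θ f₁ := by gcongr
        rw [A9_add]
        linarith only [hd, s3, d1, d2]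
    by_cases hmU : m ∈ U
    · obtain ⟨s, s1, s2, s3⟩ := key m hmU
      have r := A9_rep σ.toLev (N := N) (g₀ := f₀) (g₁ := f₁) (by omega) s1
        (s2.trans_le (Nat.mul_le_mul_right _ (by omega))) m
      have : ((U.card : ℝ) + 1) * σ.θ f₁ ≤ ((N : ℝ) + 1) * σ.θ f₁ := by
        have := (σ.θ_pos f₁).le
        gcongr
      linarith only [s3, r, this]
    · have hk' : (σ.M \ insert m U).card < k := by
        rw [Finset.sdiff_insert, Finset.card_erase_of_mem (Finset.mem_sdiff.2 ⟨hm, hmU⟩)]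
        have := Finset.card_pos.2 ⟨m, Finset.mem_sdiff.2 ⟨hm, hmU⟩⟩
        omega
      have r := h' α σ lo hi V hB hJ hT (insert m U) (Finset.insert_subset hm hU) hk'
        (m + (α : T))
        f₀ f₁ (by omega) (by omega) (by omega) fun u hu => by
          rw [Finset.card_insert_of_notMem hmU]
          rcases Finset.mem_insert.1 hu with rfl | hu
          · refine ⟨1, le_rfl, Nat.mul_pos (Nat.succ_pos _) (σ.q_pos f₀), ?_⟩
            rw [Nat.cast_one, one_mul, dist_self]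
            exact mul_nonneg (Nat.cast_nonneg _) (σ.θ_pos _).le
          · obtain ⟨s, s1, s2, s3⟩ := key u hu
            refine ⟨s + 1, by omega, s2, ?_⟩
            rw [A9_add, Nat.cast_one, one_mul, dist_add_right, Nat.cast_succ]
            exact s3
      have r2 : 2 * N * (ε / (4 * (N + 1)) * V) ≤ ε / 2 * V := by
        rw [← mul_assoc]
        gcongr
        rw [← mul_div_assoc, div_le_div_iff₀ (by positivity) (by positivity)]
        linarith only [hε]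
      have r3 : 2 * N * σ.a (m + (α : T)) f₁ f₀ ≤ 2 * N * (ε / (4 * (N + 1)) * V + C') := by
        gcongr
      linarith only [hC₁, e5, hn, k6, j4, r2, r3]

theorem atom_small' (N : ℕ) (Mf : ℝ → ℝ) {ε : ℝ} (hε : 0 < ε) : ∃ (L : ℕ) (C : ℝ), 0 ≤ C ∧
    ∀ (α : ℝ) (σ : Sys α N) (lo hi : ℕ) (V : ℝ), Bd σ V → σ.J lo hi ≤ V →
      (∀ η, 0 < η → TF σ η (Mf η) V) →
      ∀ g₀ g₁ : ℕ, lo ≤ g₀ → g₀ + L ≤ g₁ → g₁ ≤ hi → σ.At g₁ g₀ ≤ ε * V + C := by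
  obtain ⟨L, C, hC, h⟩ := B5_atom_ind N Mf (N + 1) ε hε
  refine ⟨L, C, hC, fun α σ lo hi V hB hJ hT g₀ g₁ h0 h1 h2 => σ.At_le fun c => ?_⟩
  refine h α σ lo hi V hB hJ hT ∅ (Finset.empty_subset _) ?_ c g₀ g₁ h0 h1 h2 (by simp)
  rw [Finset.sdiff_empty]
  exact Nat.lt_succ_of_le σ.M_card

theorem contract' (N : ℕ) (V₀ : ℝ) (Mf : ℝ → ℝ) : ∃ C : ℝ, 0 ≤ C ∧
    ∀ (α : ℝ) (σ : Sys α N) (V : ℝ), Bd σ V → V₀ ≤ V → Rich V₀ Mf σ →
      ∀ l, σ.K l ≤ V / 2 + C ∧ σ.J (l - 1) l ≤ V / 2 + C := by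
  obtain ⟨A, hA⟩ : ∃ A : ℕ, A = 116 * N + 2 := ⟨_, rfl⟩
  obtain ⟨B, hB⟩ : ∃ B : ℕ, B = 232 * N + 1 := ⟨_, rfl⟩
  have A0 : 0 < A := by omega
  have B0 : 0 < B := by omega
  have A1 : (0 : ℝ) < A := by exact_mod_cast A0
  have B1 : (0 : ℝ) < B := by exact_mod_cast B0
  have eA : (A : ℝ) = 116 * N + 2 := by rw [hA]; push_cast; rfl
  have eB : (B : ℝ) = 232 * N + 1 := by rw [hB]; push_cast; rfl
  obtain ⟨L₀, C₀, hC, hs⟩ := atom_small' N Mf (ε := 1 / (32 * A * B)) (by positivity)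
  obtain ⟨L, hL⟩ : ∃ L, L = L₀ + 4 := ⟨_, rfl⟩
  obtain ⟨W, hW⟩ : ∃ W, W = 64 * A * B * (2 * L) := ⟨_, rfl⟩
  obtain ⟨C₁, hC₁, hj₁⟩ := JB2 N (2 * (W + 2 * L + 10) + 10) (ε := 1) one_pos
  obtain ⟨C₂, hC₂, hj₂⟩ := JB2 N (W + 2 * L + 4) (ε := 1 / 16) (by norm_num)
  obtain ⟨y, hy⟩ : ∃ y, y = C₁ / (32 * A * B) := ⟨_, rfl⟩
  have y0 : 0 ≤ y := by rw [hy]; positivity
  have ey : C₁ = 32 * A * B * y := by rw [hy]; field_simp
  refine ⟨B * (2 * (y + C₀) + 4) + 2 * C₂, by positivity, fun α σ V hV hV₀ hR l => ?_⟩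
  have p0 : 0 ≤ V := zero_le_one.trans hV.one_le
  have n0 : (0 : ℝ) ≤ N := Nat.cast_nonneg N
  have nV := mul_nonneg n0 p0
  have v1 : V ≤ A * V + C₁ := by
    rw [eA]
    linarith only [nV, p0, hC₁]
  have w : σ.J (l - (W + 2 * L + 10)) (l + (W + 2 * L + 10)) ≤ A * V + C₁ := by
    have := hj₁ α σ V hV (l - (W + 2 * L + 10)) (l + (W + 2 * L + 10))
      (l + (W + 2 * L + 10) + 2) (l + (W + 2 * L + 10) + 6) (l - (W + 2 * L + 10) - 4) V
      (by omega) le_rfl (by omega) (by omega) (hV.K_le _) (hV.K_le _)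
      ((σ.At_mono (by omega) le_rfl).trans (hV.K_le _)) (by
        rcases le_or_gt (l - (W + 2 * L + 10)) 4 with h | h
        · exact Or.inl (by omega)
        · exact Or.inr ⟨by omega, (σ.At_mono le_rfl (by omega)).trans (hV.K_le _)⟩)
    rw [eA]
    linarith only [this, p0]
  obtain ⟨u, hu⟩ : ∃ u, u = V / (32 * B) := ⟨_, rfl⟩
  have u0 : 0 ≤ u := by rw [hu]; positivity
  have eu : V = 32 * B * u := by rw [hu]; field_simp
  have at1 : ∀ g₁ g₀, l - (W + 2 * L + 10) ≤ g₀ → g₀ = g₁ - L → g₁ ≤ l + (W + 2 * L + 10) →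
      σ.At g₁ g₀ ≤ u + (y + C₀) := fun g₁ g₀ a1 a2 a3 => by
    by_cases e : g₁ ≤ L
    · rw [show g₀ = 0 by omega, σ.At_zero]
      linarith only [u0, y0, hC]
    · refine (hs α σ _ _ _ (hV.mono v1) w (fun η hη => hR η hη _ (hV₀.trans v1) (hV.mono v1))
        g₀ g₁ a1 (by omega) a3).trans (le_of_eq ?_)
      rw [eu, ey]
      field_simp
      ring
  obtain ⟨i, hi, hJ⟩ := σ.J_pigeon (l + 2) (2 * L) (P := 64 * A * B) (by positivity)
  have hi' : i * (2 * L) + 2 * L ≤ W := by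
    rw [hW, ← Nat.succ_mul]
    exact Nat.mul_le_mul_right _ hi
  rw [← hW] at hJ
  generalize i * (2 * L) = s at hi' hJ
  have j1 : 2 * σ.J (l + 2 + s) (l + 2 + s + 2 * L) ≤ u + y := by
    have := (hJ.trans (σ.J_mono (by omega) (by omega))).trans w
    rw [eu, ey] at this
    push_cast at this
    refine le_of_mul_le_mul_left (a := (32 * A * B : ℝ)) ?_ (by positivity)
    linarith only [this]
  have j2 := σ.J_mono (l₁ := l + 2 + s) (l₂ := l + 2 + s + L) (l₁' := l + 2 + s)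
    (l₂' := l + 2 + s + 2 * L) le_rfl (by omega)
  have j3 := σ.J_mono (l₁ := l + 2 + s + L) (l₂ := l + 2 + s + 2 * L) (l₁' := l + 2 + s)
    (l₂' := l + 2 + s + 2 * L) (by omega) le_rfl
  have t1 := at1 (l + 2 + s + L) (l + 2 + s) (by omega) (by omega) (by omega)
  have t2 := at1 (l + 2 + s + 2 * L) (l + 2 + s + L) (by omega) (by omega) (by omega)
  have t3 := at1 l (l - L) (by omega) rfl (by omega)
  have s1 := σ.S1 (g := l + 2 + s) (n := l + 2 + s + L) (by omega)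
  have s2 := σ.S1 (g := l + 2 + s + L) (n := l + 2 + s + 2 * L) (by omega)
  have s3 := σ.S1 (g := l - L) (n := l) (by omega)
  have jb := hj₂ α σ V hV (l - L) l (l + 2 + s + L) (l + 2 + s + 2 * L) (l - L - L - 2)
    (2 * u + 2 * (y + C₀) + 4) (by omega) (by omega) (by omega) (by omega)
    (by linarith only [j1, j2, t1, s1, hC]) (by linarith only [j1, j3, t2, s2, hC])
    (by linarith only [u0, y0, hC, t2]) (by
      by_cases e : l - L - L - 2 = 0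
      · exact .inl e
      · have := at1 (l - L) (l - L - L - 2 + 2) (by omega) (by omega) (by omega)
        exact .inr ⟨by omega, by linarith only [u0, y0, hC, this]⟩)
  have j4 := σ.J_mono (l₁ := l - 1) (l₂ := l) (l₁' := l - L) (l₂' := l) (by omega) le_rfl
  have j5 := σ.J_nonneg (l - L) l
  have f1 : σ.At l (l - L) + 4 + 2 * σ.J (l - L) l ≤
      B * (2 * u + 2 * (y + C₀) + 4) + V / 8 + 2 * C₂ := by
    rw [eB]
    linarith only [u0, y0, hC, t3, jb]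
  have f2 := σ.At_nonneg l (l - L)
  constructor
  · linarith only [eu, f1, s3, p0]
  · linarith only [eu, f1, f2, j4, j5, p0]

theorem bound_all (N : ℕ) (V₀ : ℝ) (Mf : ℝ → ℝ) :
    ∃ C : ℝ, ∀ (α : ℝ) (σ : Sys α N), Rich V₀ Mf σ → Bd σ C := by
  obtain ⟨C, hC, h⟩ := contract' N V₀ Mf
  refine ⟨max (max 1 V₀) (2 * C), fun α σ hR => ?_⟩
  obtain ⟨R, hK⟩ := σ.K_bdd
  have b1 : BddAbove (range fun n => σ.K n) := ⟨R, forall_mem_range.2 hK⟩
  have b2 : BddAbove (range fun n => σ.J n (n + 1)) :=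
    ⟨σ.b.real univ, forall_mem_range.2 fun n => measureReal_mono (subset_univ _)⟩
  obtain ⟨V, hV⟩ : ∃ V, V = max (max 1 V₀) (max (⨆ n, σ.K n) (⨆ n, σ.J n (n + 1))) := ⟨_, rfl⟩
  have v1 : max 1 V₀ ≤ V := hV ▸ le_max_left _ _
  have v2 : max (⨆ n, σ.K n) (⨆ n, σ.J n (n + 1)) ≤ V := hV ▸ le_max_right _ _
  have hB : Bd σ V := ⟨(le_max_left _ _).trans v1,
    fun n => ((le_ciSup b1 n).trans (le_max_left _ _)).trans v2,
    fun n => ((le_ciSup b2 n).trans (le_max_right _ _)).trans v2⟩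
  have h1 := h α σ V hB ((le_max_right _ _).trans v1) hR
  have h2 : max (⨆ n, σ.K n) (⨆ n, σ.J n (n + 1)) ≤ V / 2 + C :=
    max_le (ciSup_le fun n => (h1 n).1) (ciSup_le fun n => (h1 (n + 1)).2)
  refine hB.mono ?_
  rcases le_total (max (⨆ n, σ.K n) (⨆ n, σ.J n (n + 1))) (max 1 V₀) with c | c
  · rw [max_eq_left c] at hV
    exact hV.le.trans (le_max_left _ _)
  · rw [max_eq_right c] at hV
    rw [← hV] at h2
    exact le_trans (by linarith only [h2]) (le_max_right _ _)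

end Pool.Agent.Work.MP_042f46_an.Fu
end
end
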