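import Pool.Agent.Work.MP_042f46_an.F.C7

/-!
# From the complex to the real description

Plan.  `BD` is monotone in `A`.  `σ` is strictly increasing on `(-1 / 2, 1 / 2)`.  `fac`: by `E_dense` there are marks within `2 Θ` on both sides of `ι x`, so `|y - x| < r E x` gives `|ι y - ι x| ≤ 2 Θ` and `0 < ε (g y - y)`; `0 < u x ≤ r / A'` gives `0 < r`; `lens` and `lens_fac` with `ρ = r / A`, `s = r / A'`, `A' ≥ 64 A`.
`reg`: `p = σ e`, `p₀ = σ (e + 2 ε θ)`.  Cut scales: the numbers `|σ e' - p|` for marks `e' ≠ e` with `|e' - e| ≤ 100 Θ` (at most `A`), and `len (e - 4 θ) e`, `len e (e + 4 θ)`, `len (e - 40 Θ) e`, `len e (e + 40 Θ)`, `len (e - 2 Θ) (e + 2 Θ)`.  By `cmp` (at `t = e` and `t = e - 2 η`) the first two, and also the last three, are within the factor `exp (A V)` of each other.  `Exc₀`: the indices with `|i log 2 - log c| ≤ (A + 10) V` for a cut scale `c` (note `exp A ≥ 2 A`).  For an ordered pair `c₋ < c₊`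 of cut scales with no cut scale in between, `exp (2 (A + 10) V) c₋ ≤ c₊`, `c₋` at least both short lengths and `c₊` at most both lengths `len (e - 40 Θ) e`, `len e (e + 40 Θ)`: `chan` with `s₁ = 2 c₋`, `s₂ = c₊ / 2` (marks farther than `100 Θ` are at outer distance at least `c₊`) and `ann_reg`; take the unions over these pairs.  An index outside `Exc₀` with `2 ^ i ≤ len (e - 2 Θ) (e + 2 Θ)` is below both short lengths (first alternative) or between such a pair.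
-/

open Set Metric Topology Filter MeasureTheory
open scoped ENNReal NNReal

noncomputable section
namespace Pool.Agent.Work.MP_042f46_an.Fu

open Pool.Agent.Work.MP_042f46_an.Ty

theorem Ch.σ_lt (X : Ch) {s t : ℝ} (hs : -(1 / 2) < s) (h : s < t) (ht : t < 1 / 2) :
    X.σ s < X.σ t := by
  by_contra hn
  have h1 := X.ι_mono.monotone (not_lt.1 hn)
  rw [X.ι_σ t ⟨hs.trans h, ht⟩, X.ι_σ s ⟨hs, h.trans ht⟩] at h1
  linarith

theorem C8_σ_le (X : Ch) {s t : ℝ} (hs : -(1 / 2) < s) (h : s ≤ t) (ht : t < 1 / 2) :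
    X.σ s ≤ X.σ t := by
  rcases h.eq_or_lt with e | e
  · rw [e]
  · exact (X.σ_lt hs e ht).le

theorem C8_ι_le (X : Ch) {t y : ℝ} (h1 : -(1 / 2) < t) (h2 : t < 1 / 2) (h : y ≤ X.σ t) :
    X.ι y ≤ t := by
  have := X.ι_mono.monotone h
  rwa [X.ι_σ t ⟨h1, h2⟩] at this

theorem C8_le_ι (X : Ch) {t y : ℝ} (h1 : -(1 / 2) < t) (h2 : t < 1 / 2) (h : X.σ t ≤ y) :
    t ≤ X.ι y := by
  have := X.ι_mono.monotone h
  rwa [X.ι_σ t ⟨h1, h2⟩] at this

theorem C8_sgn (X : Ch) {ε θ y : ℝ} (hε : ε = 1 ∨ ε = -1) (hθ : 0 < θ)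
    (h : |X.ι y| + 2 * θ < 1 / 2) : 0 < ε * (X.g (2 * ε * θ) y - y) := by
  obtain ⟨h1, h2⟩ := abs_lt.1 (show |X.ι y| < 1 / 2 - 2 * θ by linarith)
  rcases hε with rfl | rfl
  · have := X.σ_lt (s := X.ι y) (t := X.ι y + 2 * 1 * θ) (by linarith) (by linarith) (by linarith)
    rw [X.σ_ι] at this
    unfold Ch.g
    linarith
  · have := X.σ_lt (s := X.ι y + 2 * (-1) * θ) (t := X.ι y) (by linarith) (by linarith)
      (by linarith)
    rw [X.σ_ι] at this
    unfold Ch.g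
    linarith

theorem C8_box (X : Ch) {e δ y : ℝ} (h : |e| + δ < 1 / 2) (hδ : 0 ≤ δ)
    (h1 : |y - X.σ e| ≤ X.len (e - δ) e) (h2 : |y - X.σ e| ≤ X.len e (e + δ)) :
    |X.ι y - e| ≤ δ := by
  obtain ⟨a1, a2⟩ := abs_lt.1 (show |e| < 1 / 2 - δ by linarith)
  unfold Ch.len at h1 h2
  have b1 := (abs_le.1 h1).1
  have b2 := (abs_le.1 h2).2
  have c1 := C8_le_ι X (t := e - δ) (y := y) (by linarith) (by linarith) (by linarith)
  have c2 := C8_ι_le X (t := e + δ) (y := y) (by linarith) (by linarith) (by linarith)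
  exact abs_le.2 ⟨by linarith, by linarith⟩

theorem C8_near {c w : ℝ} (hc : 0 < c) (hw : 1 ≤ w) : ∃ T : Finset ℤ, (T.card : ℝ) ≤ 4 * w ∧
    ∀ i : ℤ, i ∉ T → Real.exp w * (2 : ℝ) ^ i < c ∨ Real.exp w * c < (2 : ℝ) ^ i := by
  have hl : (0.69 : ℝ) < Real.log 2 := lt_trans (by norm_num) Real.log_two_gt_d9
  have hl0 : 0 < Real.log 2 := by linarith
  refine ⟨Finset.Icc ⌈(Real.log c - w) / Real.log 2⌉ ⌊(Real.log c + w) / Real.log 2⌋, ?_, ?_⟩
  · rw [Int.card_Icc]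
    have h1 := Int.le_ceil ((Real.log c - w) / Real.log 2)
    have h2 := Int.floor_le ((Real.log c + w) / Real.log 2)
    have h3 : (Real.log c + w) / Real.log 2 - (Real.log c - w) / Real.log 2 ≤ 3 * w := by
      rw [← sub_div, div_le_iff₀ hl0]
      nlinarith
    rcases le_total (⌊(Real.log c + w) / Real.log 2⌋ + 1 - ⌈(Real.log c - w) / Real.log 2⌉) 0
      with h | h
    · rw [Int.toNat_of_nonpos h]
      simp only [Nat.cast_zero]
      linarith
    · have e := Int.toNat_of_nonneg h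
      have e2 : (((⌊(Real.log c + w) / Real.log 2⌋ + 1 -
          ⌈(Real.log c - w) / Real.log 2⌉).toNat : ℕ) : ℝ) =
          ((⌊(Real.log c + w) / Real.log 2⌋ + 1 - ⌈(Real.log c - w) / Real.log 2⌉ : ℤ) : ℝ) := by
        rw [← Int.cast_natCast, e]
      rw [e2]
      push_cast
      linarith
  · intro i hi
    have e2 : (2 : ℝ) ^ i = Real.exp (i * Real.log 2) := by
      rw [← Real.log_zpow, Real.exp_log (zpow_pos (by norm_num) i)]
    rw [Finset.mem_Icc, not_and_or, not_le, not_le, Int.lt_ceil, Int.floor_lt] at hi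
    rcases hi with hi | hi
    · left
      rw [lt_div_iff₀ hl0] at hi
      rw [e2, ← Real.exp_add, ← Real.exp_log hc, Real.exp_lt_exp]
      linarith
    · right
      rw [div_lt_iff₀ hl0] at hi
      rw [e2, ← Real.exp_log hc, ← Real.exp_add, Real.exp_lt_exp]
      linarith

/-- the common data with a larger constant -/
def C8_mono {A A' : ℕ} {V ρ₀ Θ θ : ℝ} {X X' : Ch} (b : BD A V ρ₀ Θ θ X X') (h : A ≤ A') :
    BD A' V ρ₀ Θ θ X X' where
  ε := b.ε
  E := b.E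
  hε := b.hε
  A_ge := b.A_ge.trans h
  V_ge := b.V_ge
  θ_pos := b.θ_pos
  θ_le := b.θ_le
  ρ_nonneg := b.ρ_nonneg
  ρ_le := b.ρ_le
  E_mem := b.E_mem
  E_dense := b.E_dense
  E_card := fun t => (b.E_card t).trans h
  cmp := fun Y hY η hη t ht => by
    have hV := b.V_ge
    have h1 := b.θ_pos
    have h2 := b.θ_le
    have h3 := b.ρ_le
    have h4 : (A : ℝ) ≤ A' := by exact_mod_cast h
    obtain ⟨t1, t2⟩ := abs_le.1 ht
    refine (b.cmp Y hY η hη t ht).trans (mul_le_mul_of_nonneg_right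
      (Real.exp_le_exp.2 (mul_le_mul_of_nonneg_right h4 (by linarith))) ?_)
    refine sub_nonneg.2 (C8_σ_le Y (by linarith) ?_ ?_) <;> rcases hη with e | e <;>
      rw [e] <;> linarith
  Kb := fun η hη t ht => (b.Kb η hη t ht).trans (ENNReal.ofReal_le_ofReal
    (mul_le_mul_of_nonneg_right (by exact_mod_cast h) (by linarith [b.V_ge])))
  tr := fun t₀ t₁ h0 h1 => by
    obtain ⟨ς, a1, a2, a3⟩ := b.tr t₀ t₁ h0 h1
    exact ⟨ς, a1, a2, fun t δ b1 b2 b3 => (a3 t δ b1 b2 b3).trans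
      (mul_le_mul_of_nonneg_right (by exact_mod_cast h) (by linarith [b.V_ge]))⟩
  sh := fun t δ b1 b2 b3 => (b.sh t δ b1 b2 b3).trans
    (mul_le_mul_of_nonneg_right (by exact_mod_cast h) (by linarith [b.V_ge]))

theorem C8_fac (A : ℕ) : ∃ A₀ : ℕ, ∀ A' : ℕ, A₀ ≤ A' → ∀ (V ρ₀ Θ θ : ℝ) (X X' : Ch)
    (c : CD A V ρ₀ Θ θ X X') (x : ℝ), |X.ι x| ≤ ρ₀ + 100 * Θ →
      X.u (2 * c.ε * θ) x ≤ X.r c.E x / A' → Fac A' (X.u (2 * c.ε * θ)) x (X.r c.E x / A') := by
  obtain ⟨A₀, -, hA⟩ := lens_fac A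
  refine ⟨A₀ + 64 * A, fun A' hA' V ρ₀ Θ θ X X' c x hx hu => ?_⟩
  have h1 := c.θ_pos
  have h2 := c.θ_le
  have h3 := c.ρ_le
  have h4 := c.ρ_nonneg
  have hA3 : (300 : ℝ) ≤ A := by exact_mod_cast c.A_ge
  have hAA : (64 : ℝ) * A ≤ A' := by
    have : 64 * A ≤ A' := by omega
    exact_mod_cast this
  have hA'0 : (0 : ℝ) < A' := by linarith
  obtain ⟨x1, x2⟩ := abs_le.1 hx
  have hu0 : 0 < X.u (2 * c.ε * θ) x := by
    have := C8_sgn X (y := x) c.hε h1 (by linarith)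
    refine abs_pos.2 fun e => ?_
    rw [e, mul_zero] at this
    exact lt_irrefl _ this
  have hs : 0 < X.r c.E x / A' := hu0.trans_le hu
  have hr : 0 < X.r c.E x := (div_pos_iff_of_pos_right hA'0).1 hs
  obtain ⟨G, hG⟩ := c.lens x hx hr
  obtain ⟨e₁, m1, a1, a2⟩ := c.E_dense (X.ι x) (by linarith)
  obtain ⟨e₂, m2, b1, b2⟩ := c.E_dense (X.ι x + 2 * Θ) (abs_le.2 ⟨by linarith, by linarith⟩)
  have r1 : X.r c.E x ≤ |x - X.σ e₁| := infDist_le_dist_of_mem ⟨e₁, m1, rfl⟩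
  have r2 : X.r c.E x ≤ |x - X.σ e₂| := infDist_le_dist_of_mem ⟨e₂, m2, rfl⟩
  have s1 := C8_σ_le X (s := e₁) (t := X.ι x) (by linarith) a2 (by linarith)
  have s2 := C8_σ_le X (s := X.ι x) (t := e₂) (by linarith) (by linarith) (by linarith)
  rw [X.σ_ι] at s1 s2
  rw [abs_of_nonneg (by linarith)] at r1
  rw [abs_of_nonpos (by linarith)] at r2
  refine hA A' G (X.g (2 * c.ε * θ)) x (X.r c.E x / A) (X.r c.E x / A') c.ε (by omega) hs ?_
    c.hε hG (fun y hy => ?_) hu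
  · rw [← mul_div_assoc, div_le_div_iff₀ hA'0 (by linarith)]
    nlinarith
  · have q : X.r c.E x / A ≤ X.r c.E x := div_le_self hr.le (by linarith)
    obtain ⟨y1, y2⟩ := abs_lt.1 hy
    have c1 := C8_le_ι X (t := e₁) (y := y) (by linarith) (by linarith) (by linarith)
    have c2 := C8_ι_le X (t := e₂) (y := y) (by linarith) (by linarith) (by linarith)
    have : |X.ι y| ≤ ρ₀ + 102 * Θ := abs_le.2 ⟨by linarith, by linarith⟩
    exact C8_sgn X c.hε h1 (by linarith)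

theorem C8_far {A : ℕ} {V ρ₀ Θ θ : ℝ} {X X' : Ch} (c : BD A V ρ₀ Θ θ X X') {e e' : ℝ}
    (he : |e| ≤ ρ₀ + 90 * Θ) (he' : e' ∈ c.E) (hf : ¬ |e' - e| ≤ 100 * Θ) :
    X.len (e - 40 * Θ) e ≤ |X.σ e' - X.σ e| ∨ X.len e (e + 40 * Θ) ≤ |X.σ e' - X.σ e| := by
  have h1 := c.θ_pos
  have h2 := c.θ_le
  have h3 := c.ρ_le
  have h4 := c.ρ_nonneg
  obtain ⟨a1, a2⟩ := abs_le.1 he
  obtain ⟨b1, b2⟩ := abs_le.1 (c.E_mem e' he')
  unfold Ch.len
  rcases lt_abs.1 (not_le.1 hf) with h | h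
  · right
    have := C8_σ_le X (s := e + 40 * Θ) (t := e') (by linarith) (by linarith) (by linarith)
    exact le_trans (by linarith) (le_abs_self _)
  · left
    have := C8_σ_le X (s := e') (t := e - 40 * Θ) (by linarith) (by linarith) (by linarith)
    exact le_trans (by linarith) (neg_le_abs _)

theorem C8_pair (A : ℕ) : ∃ A₁ : ℕ, ∀ (V ρ₀ Θ θ : ℝ) (X X' : Ch) (c : CD A V ρ₀ Θ θ X X')
    (e : ℝ), |e| ≤ ρ₀ + 90 * Θ → ∀ q : ℝ × ℝ, ∃ Ex Rg : Finset ℤ, Ex.card ≤ A₁ ∧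
      ((∀ e' ∈ c.E, |X.σ e' - X.σ e| ≤ q.1 ∨ q.2 ≤ |X.σ e' - X.σ e|) →
        X.len (e - 4 * θ) e ≤ q.1 → X.len e (e + 4 * θ) ≤ q.1 → q.2 ≤ X.len (e - 40 * Θ) e →
        q.2 ≤ X.len e (e + 40 * Θ) → ∀ i : ℤ, Real.exp ((A + 10) * V) * q.1 < (2 : ℝ) ^ i →
        Real.exp ((A + 10) * V) * (2 : ℝ) ^ i < q.2 → i ∈ Ex ∨ i ∈ Rg) ∧
      (∀ i ∈ Rg, Flat A₁ (X.u (2 * c.ε * θ)) (X.σ e) ((2 : ℝ) ^ i) ∧
        ∀ y, |y - X.σ e| ≤ 4 * (2 : ℝ) ^ i → |X.ι y - e| ≤ 40 * Θ) ∧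
      ∀ v : ℝ, ((Rg.filter fun i => v ≤ Real.log ((2 : ℝ) ^ i /
        X.u (2 * c.ε * θ) (X.σ e + (2 : ℝ) ^ i)) ∧ Real.log ((2 : ℝ) ^ i /
        X.u (2 * c.ε * θ) (X.σ e + (2 : ℝ) ^ i)) ≤ v + V).card : ℝ) ≤ A₁ * V := by
  obtain ⟨A₁, hA⟩ := ann_reg A
  refine ⟨A₁, fun V ρ₀ Θ θ X X' c e he q => ?_⟩
  have h1 := c.θ_pos
  have h2 := c.θ_le
  have h3 := c.ρ_le
  have h4 := c.ρ_nonneg
  have hV := c.V_ge
  have hA3 : (300 : ℝ) ≤ A := by exact_mod_cast c.A_ge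
  obtain ⟨a1, a2⟩ := abs_le.1 he
  by_cases hq : (∀ e' ∈ c.E, |X.σ e' - X.σ e| ≤ q.1 ∨ q.2 ≤ |X.σ e' - X.σ e|) ∧
      X.len (e - 4 * θ) e ≤ q.1 ∧ X.len e (e + 4 * θ) ≤ q.1 ∧ q.2 ≤ X.len (e - 40 * Θ) e ∧
      q.2 ≤ X.len e (e + 40 * Θ) ∧ ∃ i : ℤ, Real.exp ((A + 10) * V) * q.1 < (2 : ℝ) ^ i ∧
        Real.exp ((A + 10) * V) * (2 : ℝ) ^ i < q.2
  swap
  · refine ⟨∅, ∅, Nat.zero_le _, fun k1 k2 k3 k4 k5 i k6 k7 =>
      (hq ⟨k1, k2, k3, k4, k5, i, k6, k7⟩).elim, by simp, fun v => ?_⟩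
    simp only [Finset.filter_empty, Finset.card_empty, Nat.cast_zero]
    positivity
  obtain ⟨k1, k2, k3, k4, k5, i₀, k6, k7⟩ := hq
  have l1 : 0 < X.len (e - 4 * θ) e :=
    sub_pos.2 (X.σ_lt (by linarith) (by linarith) (by linarith))
  have q1 : 0 < q.1 := l1.trans_le k2
  set W := Real.exp ((A + 10) * V) with hW
  have hW1 : 2 * (A : ℝ) ≤ W := by
    have e1 : (A : ℝ) / 2 + 1 ≤ Real.exp (A / 2) := Real.add_one_le_exp _
    have e2 : Real.exp (A / 2) * Real.exp (A / 2) ≤ W := by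
      rw [← Real.exp_add, hW, Real.exp_le_exp]
      nlinarith
    nlinarith
  have hW2 : Real.exp (A * V) ≤ W := by
    rw [hW, Real.exp_le_exp]
    nlinarith
  have p0 : (0 : ℝ) < 2 ^ i₀ := zpow_pos (by norm_num) _
  have q2 : 0 < q.2 := lt_trans (by positivity) k7
  have hWW : W * (W * q.1) ≤ q.2 :=
    (mul_le_mul_of_nonneg_left k6.le (by linarith)).trans k7.le
  obtain ⟨G, hG⟩ := c.chan e (2 * q.1) (q.2 / 2) he (by linarith) (by
      have e1 : Real.exp (A * V) * q.1 ≤ W * q.1 := mul_le_mul_of_nonneg_right hW2 q1.le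
      have e2 : 0 < W * q.1 := by positivity
      nlinarith)
    (fun e' he' => (k1 e' he').imp (fun h => by linarith) (fun h => by linarith))
    (by linarith) (by linarith) (by linarith) (by linarith)
  have hb : q.2 / 2 / A ≤ q.2 := by
    rw [div_div]
    exact div_le_self q2.le (by linarith)
  have hbox : ∀ y, |y - X.σ e| ≤ q.2 / 2 / A → |X.ι y - e| ≤ 40 * Θ := fun y hy =>
    C8_box X (by linarith) (by linarith) (by linarith) (by linarith)
  have hd : |2 * c.ε * θ| ≤ 2 * θ := by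
    rcases c.hε with h | h <;> rw [h] <;> exact abs_le.2 ⟨by linarith, by linarith⟩
  obtain ⟨d1, d2⟩ := abs_le.1 hd
  have hAnn : Ann A (X.σ e) (X.σ (e + 2 * c.ε * θ)) (A * (2 * q.1)) (q.2 / 2 / A) c.ε G
      (X.g (2 * c.ε * θ)) := by
    refine ⟨hG, by positivity, ?_, c.hε, fun y y1 y2 => ?_⟩
    · have s1 := C8_σ_le X (s := e - 4 * θ) (t := e + 2 * c.ε * θ) (by linarith) (by linarith)
        (by linarith)
      have s2 := C8_σ_le X (s := e + 2 * c.ε * θ) (t := e + 4 * θ) (by linarith) (by linarith)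
        (by linarith)
      unfold Ch.len at k2 k3
      have : q.1 ≤ A * (2 * q.1) := by nlinarith
      exact abs_le.2 ⟨by linarith, by linarith⟩
    · obtain ⟨b1, b2⟩ := abs_le.1 (hbox y y2.le)
      have hy : |X.ι y| ≤ ρ₀ + 130 * Θ := abs_le.2 ⟨by linarith, by linarith⟩
      refine ⟨C8_sgn X c.hε h1 (by linarith), ?_⟩
      have hi : X.ι (X.σ e) = e := X.ι_σ e ⟨by linarith, by linarith⟩
      have ha : (0 : ℝ) < A * (2 * q.1) := by positivity
      unfold Ch.g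
      rcases lt_trichotomy y (X.σ e) with h | h | h
      · have t1 := X.ι_mono h
        rw [hi] at t1
        have t2 := X.σ_lt (s := X.ι y + 2 * c.ε * θ) (t := e + 2 * c.ε * θ) (by linarith)
          (by linarith) (by linarith)
        exact mul_pos_of_neg_of_neg (by linarith) (by linarith)
      · rw [h, sub_self, abs_zero] at y1
        linarith
      · have t1 := X.ι_mono h
        rw [hi] at t1
        have t2 := X.σ_lt (s := e + 2 * c.ε * θ) (t := X.ι y + 2 * c.ε * θ) (by linarith)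
          (by linarith) (by linarith)
        exact mul_pos (by linarith) (by linarith)
  obtain ⟨Ex, Rg, r1, r2, r3, r4⟩ := hA _ _ _ _ _ _ _ hAnn
  refine ⟨Ex, Rg, r1, fun _ _ _ _ _ i j1 j2 => r2 i ?_ ?_, fun i hi =>
    ⟨(r3 i hi).2, fun y hy => hbox y (hy.trans (r3 i hi).1)⟩, fun v => r4 v V hV⟩
  · have := mul_le_mul_of_nonneg_right hW1 q1.le
    linarith
  · have p1 : (0 : ℝ) < 2 ^ i := zpow_pos (by norm_num) _
    have := mul_le_mul_of_nonneg_right hW1 p1.le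
    rw [div_div, le_div_iff₀ (by linarith)]
    linarith

theorem C8_reg (A : ℕ) : ∃ A₀ : ℕ, ∀ A' : ℕ, A₀ ≤ A' → ∀ (V ρ₀ Θ θ : ℝ) (X X' : Ch)
    (c : CD A V ρ₀ Θ θ X X'), ∀ e ∈ c.E, |e| ≤ ρ₀ + 90 * Θ → ∃ Exc Reg : Finset ℤ,
    (Exc.card : ℝ) ≤ A' * V ∧
    (∀ i : ℤ, i ∉ Exc → (2 : ℝ) ^ i ≤ X.len (e - 2 * Θ) (e + 2 * Θ) →
      (∀ e' ∈ c.E, |X.σ e' - X.σ e| ≤ (2 : ℝ) ^ i / 8 ∨ 16 * (2 : ℝ) ^ i ≤ |X.σ e' - X.σ e|) ∧
      ((∀ y, |y - X.σ e| ≤ 4 * (2 : ℝ) ^ i → |X.ι y - e| ≤ 4 * θ) ∨ i ∈ Reg)) ∧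
    (∀ i ∈ Reg, Flat A' (X.u (2 * c.ε * θ)) (X.σ e) ((2 : ℝ) ^ i) ∧
      ∀ y, |y - X.σ e| ≤ 4 * (2 : ℝ) ^ i → |X.ι y - e| ≤ 40 * Θ) ∧
    ∀ v : ℝ, ((Reg.filter fun i => v ≤ Real.log ((2 : ℝ) ^ i /
        X.u (2 * c.ε * θ) (X.σ e + (2 : ℝ) ^ i)) ∧ Real.log ((2 : ℝ) ^ i /
        X.u (2 * c.ε * θ) (X.σ e + (2 : ℝ) ^ i)) ≤ v + V).card : ℝ) ≤ A' * V := by
  classical
  obtain ⟨A₁, hA⟩ := C8_pair A
  refine ⟨(A + 5) * (4 * (A + 10)) + (A + 5) * (A + 5) * A₁ + A₁,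
    fun A' hA' V ρ₀ Θ θ X X' c e _ he => ?_⟩
  have h1 := c.θ_pos
  have h2 := c.θ_le
  have h3 := c.ρ_le
  have h4 := c.ρ_nonneg
  have hV := c.V_ge
  have hA3 : (300 : ℝ) ≤ A := by exact_mod_cast c.A_ge
  have hA1 : (0 : ℝ) ≤ A₁ := Nat.cast_nonneg _
  have hAA : ((A : ℝ) + 5) * (4 * (A + 10)) + (A + 5) * (A + 5) * A₁ + A₁ ≤ A' := by
    exact_mod_cast hA'
  obtain ⟨a1, a2⟩ := abs_le.1 he
  choose Ex Rg r1 r2 r3 r4 using hA V ρ₀ Θ θ X X' c e he
  set l₁ := X.len (e - 4 * θ) e with hl₁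
  set l₂ := X.len e (e + 4 * θ) with hl₂
  set L₁ := X.len (e - 40 * Θ) e with hL₁
  set L₂ := X.len e (e + 40 * Θ) with hL₂
  set L₀ := X.len (e - 2 * Θ) (e + 2 * Θ) with hL₀
  set W := Real.exp ((A + 10) * V) with hW
  let Nr : Finset ℝ := ((c.E.filter fun e' => |e' - e| ≤ 100 * Θ).erase e).image
    fun e' => |X.σ e' - X.σ e|
  let Cs : Finset ℝ := insert l₁ (insert l₂ (insert L₁ (insert L₂ (insert L₀ Nr))))
  have hcard : Cs.card ≤ A + 5 := by
    have n1 : Nr.card ≤ A :=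
      Finset.card_image_le.trans (Finset.card_erase_le.trans (c.E_card e))
    have n2 := Finset.card_insert_le L₀ Nr
    have n3 := Finset.card_insert_le L₂ (insert L₀ Nr)
    have n4 := Finset.card_insert_le L₁ (insert L₂ (insert L₀ Nr))
    have n5 := Finset.card_insert_le l₂ (insert L₁ (insert L₂ (insert L₀ Nr)))
    have n6 := Finset.card_insert_le l₁ (insert l₂ (insert L₁ (insert L₂ (insert L₀ Nr))))
    change (insert l₁ (insert l₂ (insert L₁ (insert L₂ (insert L₀ Nr))))).card ≤ A + 5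
    omega
  have hcR : (Cs.card : ℝ) ≤ A + 5 := by exact_mod_cast hcard
  have m1 : l₁ ∈ Cs := by simp [Cs]
  have m2 : l₂ ∈ Cs := by simp [Cs]
  have m3 : L₁ ∈ Cs := by simp [Cs]
  have m4 : L₂ ∈ Cs := by simp [Cs]
  have m5 : L₀ ∈ Cs := by simp [Cs]
  have m6 : ∀ e' ∈ c.E, e' ≠ e → |e' - e| ≤ 100 * Θ → |X.σ e' - X.σ e| ∈ Cs := fun e' k1 k2 k3 =>
    Finset.mem_insert_of_mem (Finset.mem_insert_of_mem (Finset.mem_insert_of_mem
      (Finset.mem_insert_of_mem (Finset.mem_insert_of_mem (Finset.mem_image.2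
        ⟨e', Finset.mem_erase.2 ⟨k2, Finset.mem_filter.2 ⟨k1, k3⟩⟩, rfl⟩)))))
  have p1 : 0 < l₁ := sub_pos.2 (X.σ_lt (by linarith) (by linarith) (by linarith))
  have p2 : 0 < l₂ := sub_pos.2 (X.σ_lt (by linarith) (by linarith) (by linarith))
  have p3 : 0 < L₁ := sub_pos.2 (X.σ_lt (by linarith) (by linarith) (by linarith))
  have p4 : 0 < L₂ := sub_pos.2 (X.σ_lt (by linarith) (by linarith) (by linarith))
  have p5 : 0 < L₀ := sub_pos.2 (X.σ_lt (by linarith) (by linarith) (by linarith))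
  have hpos : ∀ x ∈ Cs, 0 < x := by
    intro x hx
    simp only [Cs, Finset.mem_insert] at hx
    rcases hx with rfl | rfl | rfl | rfl | rfl | hx
    · exact p1
    · exact p2
    · exact p3
    · exact p4
    · exact p5
    · obtain ⟨e', he', rfl⟩ := Finset.mem_image.1 hx
      obtain ⟨k1, k2⟩ := Finset.mem_erase.1 he'
      obtain ⟨b1, b2⟩ := abs_le.1 (c.E_mem e' (Finset.mem_filter.1 k2).1)
      refine abs_pos.2 (sub_ne_zero.2 ?_)
      rcases lt_or_gt_of_ne k1 with h | h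
      · exact (X.σ_lt (by linarith) h (by linarith)).ne
      · exact (X.σ_lt (by linarith) h (by linarith)).ne'
  have hw1 : 1 ≤ ((A : ℝ) + 10) * V := by nlinarith
  have hT : ∀ x : ℝ, ∃ T : Finset ℤ, (T.card : ℝ) ≤ 4 * ((A + 10) * V) ∧ (0 < x →
      ∀ i : ℤ, i ∉ T → W * (2 : ℝ) ^ i < x ∨ W * x < (2 : ℝ) ^ i) := fun x => by
    by_cases hx : 0 < x
    · obtain ⟨T, t1, t2⟩ := C8_near hx hw1
      exact ⟨T, t1, fun _ => t2⟩
    · exact ⟨∅, by simp only [Finset.card_empty, Nat.cast_zero]; linarith, fun h => (hx h).elim⟩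
  choose T t1 t2 using hT
  have hW16 : 16 ≤ W := by
    have := Real.add_one_le_exp (((A : ℝ) + 10) * V)
    nlinarith
  have hK : Real.exp (A * V) ≤ W := by
    rw [hW, Real.exp_le_exp]
    nlinarith
  have cm : ∀ η, η = θ ∨ η = Θ → ∀ a b a' b', 0 ≤ a → a ≤ 98 * η → 0 ≤ b → b ≤ 98 * η →
      2 * η ≤ a' → a' ≤ 98 * η → 2 * η ≤ b' → b' ≤ 98 * η →
      X.σ (e + b) - X.σ (e - a) ≤ W * X.len (e - a') e ∧
        X.σ (e + b) - X.σ (e - a) ≤ W * X.len e (e + b') := by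
    intro η hη a b a' b' u1 u2 u3 u4 u5 u6 u7 u8
    have η1 : 0 < η := by rcases hη with h | h <;> rw [h] <;> linarith
    have η2 : η ≤ Θ := by rcases hη with h | h <;> rw [h] <;> linarith
    have c1 := c.cmp X (Or.inl rfl) η hη e (by linarith)
    have c2 := c.cmp X (Or.inl rfl) η hη (e - 2 * η) (abs_le.2 ⟨by linarith, by linarith⟩)
    rw [sub_add_cancel] at c2
    unfold Ch.len at c1 c2 ⊢
    have s1 := C8_σ_le X (s := e - 2 * η - 100 * η) (t := e - a) (by linarith) (by linarith)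
      (by linarith)
    have s2 := C8_σ_le X (s := e - 100 * η) (t := e - a) (by linarith) (by linarith)
      (by linarith)
    have s3 := C8_σ_le X (s := e + b) (t := e - 2 * η + 100 * η) (by linarith) (by linarith)
      (by linarith)
    have s4 := C8_σ_le X (s := e + b) (t := e + 100 * η) (by linarith) (by linarith)
      (by linarith)
    have s5 := C8_σ_le X (s := e - a') (t := e - 2 * η) (by linarith) (by linarith)
      (by linarith)
    have s6 := C8_σ_le X (s := e - 2 * η) (t := e) (by linarith) (by linarith) (by linarith)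
    have s7 := C8_σ_le X (s := e + 2 * η) (t := e + b') (by linarith) (by linarith)
      (by linarith)
    have s8 := C8_σ_le X (s := e) (t := e + 2 * η) (by linarith) (by linarith) (by linarith)
    have s9 := mul_le_mul hK (show X.σ e - X.σ (e - 2 * η) ≤ X.σ e - X.σ (e - a') by linarith)
      (by linarith) (by linarith)
    have s10 := mul_le_mul hK (show X.σ (e + 2 * η) - X.σ e ≤ X.σ (e + b') - X.σ e by linarith)
      (by linarith) (by linarith)
    exact ⟨by linarith, by linarith⟩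
  have c12 : l₁ ≤ W * l₂ := by
    have := (cm θ (Or.inl rfl) (4 * θ) 0 (4 * θ) (4 * θ) (by linarith) (by linarith) le_rfl
      (by linarith) (by linarith) (by linarith) (by linarith) (by linarith)).2
    rw [add_zero] at this
    exact this
  have c21 : l₂ ≤ W * l₁ := by
    have := (cm θ (Or.inl rfl) 0 (4 * θ) (4 * θ) (4 * θ) le_rfl (by linarith) (by linarith)
      (by linarith) (by linarith) (by linarith) (by linarith) (by linarith)).1
    rw [sub_zero] at this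
    exact this
  obtain ⟨c01, c02⟩ : L₀ ≤ W * L₁ ∧ L₀ ≤ W * L₂ :=
    cm Θ (Or.inr rfl) (2 * Θ) (2 * Θ) (40 * Θ) (40 * Θ) (by linarith) (by linarith) (by linarith)
      (by linarith) (by linarith) (by linarith) (by linarith) (by linarith)
  have hcc : (((Cs ×ˢ Cs).card : ℕ) : ℝ) ≤ (A + 5) * (A + 5) := by
    rw [Finset.card_product]
    push_cast
    exact mul_le_mul hcR hcR (Nat.cast_nonneg _) (by linarith)
  refine ⟨Cs.biUnion T ∪ (Cs ×ˢ Cs).biUnion Ex, (Cs ×ˢ Cs).biUnion Rg, ?_, fun i hi hi0 => ?_,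
    fun i hi => ?_, fun v => ?_⟩
  · have n1 : (((Cs.biUnion T).card : ℕ) : ℝ) ≤ (A + 5) * (4 * ((A + 10) * V)) := by
      have := Finset.card_biUnion_le (s := Cs) (t := T)
      have n : (((Cs.biUnion T).card : ℕ) : ℝ) ≤ ∑ x ∈ Cs, ((T x).card : ℝ) := by
        exact_mod_cast this
      refine n.trans ((Finset.sum_le_card_nsmul _ _ _ fun x _ => t1 x).trans ?_)
      rw [nsmul_eq_mul]
      exact mul_le_mul_of_nonneg_right hcR (by linarith)
    have n2 : ((((Cs ×ˢ Cs).biUnion Ex).card : ℕ) : ℝ) ≤ (A + 5) * (A + 5) * A₁ := by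
      have := Finset.card_biUnion_le_card_mul (Cs ×ˢ Cs) Ex A₁ fun q _ => r1 q
      have n : ((((Cs ×ˢ Cs).biUnion Ex).card : ℕ) : ℝ) ≤ ((Cs ×ˢ Cs).card : ℕ) * A₁ := by
        exact_mod_cast this
      exact n.trans (mul_le_mul_of_nonneg_right hcc hA1)
    have n3 : (((Cs.biUnion T ∪ (Cs ×ˢ Cs).biUnion Ex).card : ℕ) : ℝ) ≤
        ((Cs.biUnion T).card : ℕ) + (((Cs ×ˢ Cs).biUnion Ex).card : ℕ) := by
      exact_mod_cast Finset.card_union_le _ _
    have n4 := mul_le_mul_of_nonneg_right hAA (show 0 ≤ V by linarith)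
    have n5 : ((A : ℝ) + 5) * (A + 5) * A₁ * 1 ≤ (A + 5) * (A + 5) * A₁ * V :=
      mul_le_mul_of_nonneg_left hV (by positivity)
    have n6 : 0 ≤ (A₁ : ℝ) * V := by positivity
    nlinarith
  · rw [Finset.mem_union, not_or] at hi
    have p0 : (0 : ℝ) < 2 ^ i := zpow_pos (by norm_num) _
    set z : ℝ := 2 ^ i with hz
    have gap : ∀ x ∈ Cs, W * z < x ∨ W * x < z := fun x hx =>
      t2 x (hpos x hx) i fun h => hi.1 (Finset.mem_biUnion.2 ⟨x, hx, h⟩)
    have z16 : 16 * z ≤ W * z := mul_le_mul_of_nonneg_right hW16 p0.le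
    have up : ∀ x ∈ Cs, ∀ x' ∈ Cs, x ≤ W * x' → W * z < x → W * z < x' := by
      intro x hx x' hx' k1 k2
      rcases gap x' hx' with h | h
      · exact h
      · linarith
    have g0 : W * z < L₀ := by
      rcases gap L₀ m5 with h | h
      · exact h
      · nlinarith
    have g1 := up L₀ m5 L₁ m3 c01 g0
    have g2 := up L₀ m5 L₂ m4 c02 g0
    refine ⟨fun e' he' => ?_, ?_⟩
    · by_cases k1 : e' = e
      · left
        rw [k1, sub_self, abs_zero]
        positivity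
      · by_cases k2 : |e' - e| ≤ 100 * Θ
        · have k3 := m6 e' he' k1 k2
          rcases gap _ k3 with h | h
          · exact Or.inr (by linarith)
          · have := mul_le_mul_of_nonneg_right hW16 (hpos _ k3).le
            have := hpos _ k3
            exact Or.inl (by linarith)
        · rcases C8_far c.toBD he he' k2 with h | h
          · exact Or.inr (by linarith)
          · exact Or.inr (by linarith)
    · by_cases k : W * z < l₁
      · have k' := up l₁ m1 l₂ m2 c12 k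
        exact Or.inl fun y hy => C8_box X (by linarith) (by linarith) (by linarith) (by linarith)
      · right
        have k1 : W * l₁ < z := (gap l₁ m1).resolve_left k
        have k2 : W * l₂ < z := (gap l₂ m2).resolve_left fun h => k (up l₂ m2 l₁ m1 c21 h)
        obtain ⟨lo, hlo, mlo⟩ := Finset.exists_max_image (Cs.filter fun x => W * x < z) id
          ⟨l₁, Finset.mem_filter.2 ⟨m1, k1⟩⟩
        obtain ⟨hi', hhi, mhi⟩ := Finset.exists_min_image (Cs.filter fun x => W * z < x) id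
          ⟨L₁, Finset.mem_filter.2 ⟨m3, g1⟩⟩
        obtain ⟨lo1, lo2⟩ := Finset.mem_filter.1 hlo
        obtain ⟨hi1, hi2⟩ := Finset.mem_filter.1 hhi
        have f1 : ∀ x ∈ Cs, W * x < z → x ≤ lo := fun x hx h =>
          mlo x (Finset.mem_filter.2 ⟨hx, h⟩)
        have f2 : ∀ x ∈ Cs, W * z < x → hi' ≤ x := fun x hx h =>
          mhi x (Finset.mem_filter.2 ⟨hx, h⟩)
        have hm : (lo, hi') ∈ Cs ×ˢ Cs := Finset.mem_product.2 ⟨lo1, hi1⟩
        have := r2 (lo, hi') (fun e' he' => ?_) (f1 _ m1 k1) (f1 _ m2 k2) (f2 _ m3 g1)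
          (f2 _ m4 g2) i lo2 hi2
        · rcases this with h | h
          · exact (hi.2 (Finset.mem_biUnion.2 ⟨_, hm, h⟩)).elim
          · exact Finset.mem_biUnion.2 ⟨_, hm, h⟩
        · by_cases j1 : e' = e
          · left
            rw [j1, sub_self, abs_zero]
            exact (hpos lo lo1).le
          · by_cases j2 : |e' - e| ≤ 100 * Θ
            · have j3 := m6 e' he' j1 j2
              rcases gap _ j3 with h | h
              · exact Or.inr (f2 _ j3 h)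
              · exact Or.inl (f1 _ j3 h)
            · rcases C8_far c.toBD he he' j2 with h | h
              · exact Or.inr ((f2 _ m3 g1).trans h)
              · exact Or.inr ((f2 _ m4 g2).trans h)
  · obtain ⟨q, -, hq⟩ := Finset.mem_biUnion.1 hi
    refine ⟨fun y y' j1 j2 j3 j4 => ((r3 q i hq).1 y y' j1 j2 j3 j4).trans
      (mul_le_mul_of_nonneg_right ?_ (abs_nonneg _)), (r3 q i hq).2⟩
    have : 0 ≤ ((A : ℝ) + 5) * (4 * (A + 10)) + (A + 5) * (A + 5) * A₁ := by positivity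
    linarith
  · rw [Finset.filter_biUnion]
    refine le_trans (Nat.cast_le.2 Finset.card_biUnion_le) ?_
    push_cast
    refine (Finset.sum_le_card_nsmul _ _ _ fun q _ => r4 q v).trans ?_
    rw [nsmul_eq_mul]
    have n1 := mul_le_mul_of_nonneg_right hcc (show 0 ≤ (A₁ : ℝ) * V by positivity)
    have n4 := mul_le_mul_of_nonneg_right hAA (show 0 ≤ V by linarith)
    have n5 : 0 ≤ ((A : ℝ) + 5) * (4 * (A + 10)) * V := by positivity
    have n6 : 0 ≤ (A₁ : ℝ) * V := by positivity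
    nlinarith

theorem cd_rd (A : ℕ) : ∃ A' : ℕ, ∀ (V ρ₀ Θ θ : ℝ) (X X' : Ch), CD A V ρ₀ Θ θ X X' →
    Nonempty (RD A' V ρ₀ Θ θ X X') := by
  obtain ⟨A₀, h0⟩ := C8_fac A
  obtain ⟨A₁, h1⟩ := C8_reg A
  refine ⟨A + A₀ + A₁, fun V ρ₀ Θ θ X X' c => ⟨⟨C8_mono c.toBD (by omega), ?_, ?_⟩⟩⟩
  · exact h0 _ (by omega) V ρ₀ Θ θ X X' c
  · exact h1 _ (by omega) V ρ₀ Θ θ X X' c

end Pool.Agent.Work.MP_042f46_an.Fu
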