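import Pool.Agent.Work.MP_042f46_an.F.Defs

/-!
# The kit with the cut property

Plan.  `toKit'`: copy `FK.toKit` (file `T/D4.lean`) and export the defining property of `h`.  `exists_kit'`: copy `exists_FK`, keeping `hf u v = π (w (exL u) (exL v) - Ip U (Po u) (Po v))`.  For closed `A`, `B` as in `Cut` (disjoint, because `φ` is `1` on `γ '' A` and `0` on `γ '' B`) take `exists_app`; `BC_off`, `BC_fin`, `BC_apart`, `Po_apart` give `H (A ×ˢ B) - h (A ×ˢ B) = lim -π w (exL (u n)) (exL (v n))`.  `f₁ = max 0 (2 φ - 1)`, `f₂ = max 0 (1 - 2 φ)`.  For large `n`, `hopf` for the pairs `(ex u, f₂ - ex v)` and `(f₁ - ex u, f₂)` (`C4_cases`: off `W` either `ex = 0` or the point is on the curve) gives `w f₁ f₂ ≤ w (ex u) (ex v)`.  `-2 w f₁ f₂ = w f f - w f₁ f₁ - w f₂ f₂` with `f = f₁ - f₂ = 2 φ - 1`; `w f f ≤ En U f = En W f + En (U \ W) f`; `w g g ≥ En (U \ W) g` (from `app`: `s n = g` on `U \ W`, so the gradients agree almost everywhere there, `LL.gr_level`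 for `s n - g`); `En (U \ W) f ≤ En (U \ W) f₁ + En (U \ W) f₂` (`LL.gr_pos`, `LL.gr_level`); `En W f = 4 En W φ`.
-/

open Set Metric Topology Filter MeasureTheory
open scoped ENNReal NNReal

noncomputable section
namespace Pool.Agent.Work.MP_042f46_an.Fu

open Pool.Agent.Work.MP_042f46_an.Ty

theorem toKit' {α : ℝ} {N : ℕ} (F : FK α N) : ∃ K : Kit α N, K.H = F.H ∧
    ∀ u v : LipT, ∫ p, u.1 p.1 * v.1 p.2 ∂K.h = F.hf u v := by
  obtain ⟨h, hfin, eh⟩ := exists_meas F.hf F.h_pos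
  obtain ⟨b, bfin, eb⟩ := exists_meas F.bf F.b_pos
  have hs : h.map Prod.swap = h := ext_rect fun A B hA hB => by
    obtain ⟨u, hu⟩ := exists_app hA
    obtain ⟨v, hv⟩ := exists_app hB
    rw [Measure.map_apply measurable_swap (hA.measurableSet.prod hB.measurableSet),
      preimage_swap_prod, ← ENNReal.toReal_eq_toReal_iff' (measure_ne_top _ _) (measure_ne_top _ _)]
    have t1 := BC_fin eh hA hB hu hv
    have t2 := BC_fin eh hB hA hv hu
    exact tendsto_nhds_unique t2 (t1.congr fun n => F.h_symm _ _)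
  refine ⟨⟨F.H, h, b, F.M, F.M_ne, F.M_card, hfin, bfin, F.H_symm, hs, F.line, ?_, ?_, ?_, ?_,
    F.dual, ?_, F.pull, F.fin⟩, rfl, eh⟩
  · intro X hX ho
    have mτ : Measurable fun p : T × T => (p.1 + (α : T), p.2 + (α : T)) := by fun_prop
    have key := ext_off (μ := F.H + h.map fun p : T × T => (p.1 + (α : T), p.2 + (α : T)))
      (ν := (F.H.map fun p : T × T => (p.1 + (α : T), p.2 + (α : T))) +
        b.map fun p : T × T => (p.1 + (α : T), p.2 + (α : T)))
      (fun Y hY => by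
        rw [Measure.add_apply]
        exact ENNReal.add_ne_top.2 ⟨off_fin F.fin hY, measure_ne_top _ _⟩)
      (fun A B hA hB hd => by
        have m := hA.measurableSet.prod hB.measurableSet
        have e : (fun p : T × T => (p.1 + (α : T), p.2 + (α : T))) ⁻¹' (A ×ˢ B) =
            {x | x + (α : T) ∈ A} ×ˢ {x | x + (α : T) ∈ B} := rfl
        have cA : IsClosed {x | x + (α : T) ∈ A} := hA.preimage (continuous_add_const (α : T))
        have cB : IsClosed {x | x + (α : T) ∈ B} := hB.preimage (continuous_add_const (α : T))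
        have hd' : Disjoint {x | x + (α : T) ∈ A} {x | x + (α : T) ∈ B} :=
          hd.preimage fun x => x + (α : T)
        obtain ⟨u, hu⟩ := exists_app cA
        obtain ⟨v, hv⟩ := exists_app cB
        have t1 := (BC_off F.fin hA hB hd (BC_App.tr hu) (BC_App.tr hv)).add
          (BC_fin eh cA cB hu hv)
        have t2 := (BC_off F.fin cA cB hd' hu hv).add (BC_fin eb cA cB hu hv)
        obtain ⟨r, hr, ha⟩ := BC_apart cA cB hd' hu hv
        have t3 := tendsto_nhds_unique_of_eventuallyEq t1 t2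
          (ha.mono fun n hn => F.E1 (u n) (v n) ⟨r, hr, hn⟩)
        have f1 := off_fin F.fin (off_closed hA hB hd)
        have f2 := off_fin F.fin (off_closed cA cB hd')
        rw [Measure.add_apply, Measure.add_apply, Measure.map_apply mτ m, Measure.map_apply mτ m,
          Measure.map_apply mτ m, e, ← ENNReal.toReal_eq_toReal_iff'
            (ENNReal.add_ne_top.2 ⟨f1, measure_ne_top _ _⟩)
            (ENNReal.add_ne_top.2 ⟨f2, measure_ne_top _ _⟩),
          ENNReal.toReal_add f1 (measure_ne_top _ _), ENNReal.toReal_add f2 (measure_ne_top _ _)]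
        exact t3) hX ho
    rwa [Measure.add_apply, Measure.add_apply, Measure.map_apply mτ hX, Measure.map_apply mτ hX,
      Measure.map_apply mτ hX] at key
  · have k : ∀ A : Set T, IsClosed A → h.map Prod.fst A = b.map Prod.fst A := fun A hA => by
      obtain ⟨u, hu⟩ := exists_app hA
      rw [Measure.map_apply measurable_fst hA.measurableSet,
        Measure.map_apply measurable_fst hA.measurableSet, ← prod_univ,
        ← ENNReal.toReal_eq_toReal_iff' (measure_ne_top _ _) (measure_ne_top _ _)]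
      exact tendsto_nhds_unique ((BC_fin eh hA isClosed_univ hu BC_one).congr fun n => F.marg _)
        (BC_fin eb hA isClosed_univ hu BC_one)
    have e : h.map Prod.fst = b.map Prod.fst :=
      ext_of_generate_finite {A : Set T | IsClosed A}
        (BorelSpace.measurable_eq.trans borel_eq_generateFrom_isClosed) isPiSystem_isClosed k
        (k _ isClosed_univ)
    intro A hA
    rw [prod_univ, ← Measure.map_apply measurable_fst hA, ← Measure.map_apply measurable_fst hA, e]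
  · intro A B hA hB
    rw [mul_comm, ← ENNReal.le_div_iff_mul_le (by simp) (by simp)]
    refine BC_inner hs hA hB fun A₀ a1 B₀ b1 a2 b2 => ?_
    rw [ENNReal.le_div_iff_mul_le (by simp) (by simp)]
    refine le_trans ?_ (add_le_add (measure_mono (prod_mono a1 a1)) (measure_mono (prod_mono b1 b1)))
    obtain ⟨u, hu⟩ := exists_app a2
    obtain ⟨v, hv⟩ := exists_app b2
    have t := le_of_tendsto_of_tendsto' ((BC_fin eh a2 b2 hu hv).mul_const 2)
      ((BC_fin eh a2 a2 hu hu).add (BC_fin eh b2 b2 hv hv)) fun n => by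
        have h1 := F.psd (u n - v n)
        simp only [map_sub, LinearMap.sub_apply] at h1
        linarith only [h1, F.h_symm (u n) (v n)]
    rw [← ENNReal.toReal_le_toReal (ENNReal.mul_ne_top (measure_ne_top _ _) (by simp))
      (ENNReal.add_ne_top.2 ⟨measure_ne_top _ _, measure_ne_top _ _⟩), ENNReal.toReal_mul,
      ENNReal.toReal_add (measure_ne_top _ _) (measure_ne_top _ _), ENNReal.toReal_ofNat]
    exact t
  · intro A B hA hB hd
    refine BC_inner hs hA hB fun A₀ a1 B₀ b1 a2 b2 => ?_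
    refine le_trans ?_ (measure_mono (prod_mono a1 b1))
    have hd' := hd.mono a1 b1
    obtain ⟨u, hu⟩ := exists_app a2
    obtain ⟨v, hv⟩ := exists_app b2
    obtain ⟨r, hr, ha⟩ := BC_apart a2 b2 hd' hu hv
    rw [← ENNReal.toReal_le_toReal (measure_ne_top _ _) (off_fin F.fin (off_closed a2 b2 hd'))]
    exact le_of_tendsto_of_tendsto (BC_fin eh a2 b2 hu hv) (BC_off F.fin a2 b2 hd' hu hv)
      (ha.mono fun n hn => F.le (u n) (v n) (fun x => (hu.1 n x).1) (fun x => (hv.1 n x).1)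
        ⟨r, hr, hn⟩)
  · intro a a' hM
    rcases lt_or_ge a' a with hlt | hle
    · simp [arc, Icc_eq_empty_of_lt hlt]
    have c := (isCompact_arc a a').isClosed
    obtain ⟨δ, hδ, hd⟩ := off_closed c F.M.finite_toSet.isClosed (disjoint_left.2 (by
      rintro _ ⟨s, hs, rfl⟩ hm
      exact hM s hs hm))
    have hM' : ∀ s ∈ Icc (a - δ / 2) (a' + δ / 2), (s : T) ∉ F.M := fun s hs hm => by
      have m : max a (min s a') ∈ Icc a a' := ⟨le_max_left _ _, max_le hle (min_le_right _ _)⟩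
      have h1 : δ ≤ dist ((max a (min s a') : ℝ) : T) (s : T) :=
        hd (((max a (min s a') : ℝ) : T), (s : T)) ⟨⟨_, m, rfl⟩, hm⟩
      have h2 := dist_coe_le (max a (min s a')) s
      have h3 : |max a (min s a') - s| ≤ δ / 2 := by
        rw [abs_le, max_def, min_def]
        split_ifs <;> constructor <;> linarith [hs.1, hs.2]
      linarith only [hδ, h1, h2, h3]
    obtain ⟨u, hu⟩ := exists_app c
    have t : b.real (arc a a' ×ˢ arc a a') ≤ N := by
      refine le_of_tendsto (BC_fin eb c c hu hu) ?_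
      filter_upwards [BC_small (half_pos hδ)] with n hn
      refine F.marks (u n) _ _ (hu.1 n) hM' fun x hx => ?_
      obtain ⟨_, ⟨s, hs, rfl⟩, h2⟩ := hu.2.2 n x hx
      obtain ⟨t, e, h3⟩ := exists_rep (s : T) x
      have h4 := abs_le.1 (h3.le.trans (h2.le.trans hn))
      exact ⟨s + t, ⟨by linarith only [h4, hs, hs.1, h4.1], by linarith only [h4, hs, hs.2, h4.2]⟩, by
        rw [e, AddCircle.coe_add]⟩
    rw [← ENNReal.toReal_le_toReal (measure_ne_top _ _) (ENNReal.natCast_ne_top N),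
      ENNReal.toReal_natCast]
    exact t

theorem D11_FK (C : Cf) (A : C.WF) : ∃ F : FK C.α C.N, F.H = C.H ∧ ∀ u v : LipT, F.hf u v =
    Real.pi * (A.w (C.exL u) (C.exL v) - Ip C.U (C.Po u.1) (C.Po v.1)) := by
  obtain ⟨M, hM, hc, hm⟩ := C.C7_marks A
  refine ⟨{
    H := C.H
    hf := Real.pi • (A.w.compl₁₂ C.exL C.exL - (BV C.U C.Ub C.isOpen_U).compl₁₂ C.PoL C.PoL)
    bf := Real.pi • (A.w.compl₁₂ C.exL C.exL - (BV C.U C.Ub C.isOpen_U).compl₁₂
      (C.PoL ∘ₗ rotL (C.α : T)) (C.PoL ∘ₗ rotL (C.α : T)))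
    M := M
    M_ne := hM
    M_card := hc
    H_symm := C.H_symm
    line := C.H_line
    dual := C.H_dual
    pull := C.pull
    fin := C.finB
    h_pos := fun u v hu hv => mul_nonneg Real.pi_pos.le (sub_nonneg.2 (A.h_pos u v hu hv))
    b_pos := fun u v hu hv => mul_nonneg Real.pi_pos.le (sub_nonneg.2 (A.b_pos u v hu hv))
    h_symm := fun u v => ?_
    psd := fun u => mul_nonneg Real.pi_pos.le (sub_nonneg.2 (A.Po_le_w u))
    marg := fun u => ?_
    E1 := fun u v h => ?_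
    le := fun u v hu hv h => ?_
    marks := hm }, rfl, fun _ _ => rfl⟩
  · change Real.pi * (A.w (C.exL u) (C.exL v) - Ip C.U (C.Po u.1) (C.Po v.1)) =
      Real.pi * (A.w (C.exL v) (C.exL u) - Ip C.U (C.Po v.1) (C.Po u.1))
    rw [A.symm, Ip_comm]
  · change Real.pi * (A.w (C.exL u) (C.exL oneT) - Ip C.U (C.Po u.1) (C.Po oneT.1)) =
      Real.pi * (A.w (C.exL u) (C.exL oneT) -
        Ip C.U (C.Po (rotL (C.α : T) u).1) (C.Po (rotL (C.α : T) oneT).1))
    rw [C.C7_one u.2 oneT.2 fun _ => rfl,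
      C.C7_one (rotL (C.α : T) u).2 (rotL (C.α : T) oneT).2 fun _ => rfl]
  · have h' : Apart (rotL (C.α : T) u).1 (rotL (C.α : T) v).1 := by
      obtain ⟨r, hr, h⟩ := h
      exact ⟨r, hr, fun x y hx hy => (h _ _ hx hy).trans (dist_sub_right x y _).le⟩
    have e₁ := C.Po_apart C.finB u.2 v.2 h
    have e₂ := C.Po_apart C.finB (rotL (C.α : T) u).2 (rotL (C.α : T) v).2 h'
    change ∫ p, (rotL (C.α : T) u).1 p.1 * (rotL (C.α : T) v).1 p.2 ∂C.H +
      Real.pi * (A.w (C.exL u) (C.exL v) - Ip C.U (C.Po u.1) (C.Po v.1)) =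
      ∫ p, u.1 p.1 * v.1 p.2 ∂C.H + Real.pi * (A.w (C.exL u) (C.exL v) -
        Ip C.U (C.Po (rotL (C.α : T) u).1) (C.Po (rotL (C.α : T) v).1))
    linarith only [e₁, e₂]
  · have e₁ := C.Po_apart C.finB u.2 v.2 h
    have e₂ := mul_nonpos_of_nonneg_of_nonpos Real.pi_pos.le (A.w_apart u v hu hv h)
    change Real.pi * (A.w (C.exL u) (C.exL v) - Ip C.U (C.Po u.1) (C.Po v.1)) ≤ _
    linarith only [e₁, e₂]

theorem D11_low {C : Cf} (A : C.WF) (g : C.𝓥) : (En (C.U \ C.W) g.1).toReal ≤ A.w g g := by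
  obtain ⟨s, k1, -, k3⟩ := A.app g
  refine ge_of_tendsto' k3 fun n => ?_
  have hV : IsV C.U C.Ub (s n).1 := (s n).2
  have hg : IsV C.U C.Ub g.1 := g.2
  rw [Ip_self]
  refine ENNReal.toReal_mono hV.fin (le_trans (B2_le (f' := (s n).1)
    (C.isOpen_U.measurableSet.diff C.isOpen_W.measurableSet) ?_) (En_mono sdiff_subset _))
  filter_upwards [(hV.lip.sub hg.lip).gr_level 0, hV.lip.ae_diff, hg.lip.ae_diff]
    with z h1 h2 h3 hz
  have h4 := h1 hz.1 (sub_eq_zero.2 (k1 n z (C.U_sub hz.1) hz.2))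
  rw [gr_sub (h2 hz.1) (h3 hz.1), sub_eq_zero] at h4
  exact (congrArg norm h4).ge

theorem D11_split {O S : Set ℂ} (hS : MeasurableSet S) (h : S ⊆ O) {f : ℂ → ℝ} (hf : LL O f) :
    En S f ≤ En S (fun z => max 0 (f z)) + En S fun z => max 0 (-1 * f z) := by
  rw [En, En, En, ← lintegral_add_left (B2_meas _)]
  refine lintegral_mono_ae ((ae_restrict_iff' hS).2 ?_)
  filter_upwards [hf.gr_pos, ((LL.const O (-1)).mul hf).gr_pos, hf.gr_level 0] with z h1 h2 h3 hz
  rcases lt_trichotomy (f z) 0 with k | k | k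
  · rw [h2 (h hz), if_pos (by linarith), gr_mul]
    refine le_trans (le_of_eq ?_) le_add_self
    simp
  · rw [h3 (h hz) k]
    simp
  · rw [h1 (h hz), if_pos k]
    exact le_self_add

theorem D11_en (O : Set ℂ) (φ : ℂ → ℝ) :
    En O (fun z => 2 * φ z - 1) = ENNReal.ofReal (2 ^ 2) * En O φ := by
  rw [← En_mul]
  simp only [En, gr, fderiv_sub_const]

theorem D11_main {C : Cf} (A : C.WF) {φ : ℂ → ℝ} (hφ : IsV C.U C.Ub φ) (u v : LipT)
    (hu : ∀ x, u.1 x ∈ Icc (0 : ℝ) 1) (hv : ∀ x, v.1 x ∈ Icc (0 : ℝ) 1)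
    (h1 : ∀ x, u.1 x ≠ 0 → φ (C.γ x) = 1) (h0 : ∀ x, v.1 x ≠ 0 → φ (C.γ x) = 0) :
    -A.w (C.exL u) (C.exL v) ≤ 2 * (En C.W φ).toReal := by
  have hf : IsV C.U C.Ub fun z => 2 * φ z - 1 :=
    ⟨(continuousOn_const.mul hφ.cont).sub continuousOn_const,
      ((LL.const _ 2).mul hφ.lip).sub (LL.const _ 1),
      D11_en C.U φ ▸ ENNReal.mul_ne_top ENNReal.ofReal_ne_top hφ.fin⟩
  have hf₁ := hf.pos C.isOpen_U
  have hf₂ := (hf.mul (-1)).pos C.isOpen_U
  let f₁ : C.𝓥 := ⟨_, hf₁⟩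
  let f₂ : C.𝓥 := ⟨_, hf₂⟩
  have a1 := A.hopf (f := C.exL u) (g := f₂ - C.exL v) fun z hz hz' => by
    change 0 ≤ C.ex u.1 z ∧ 0 ≤ max 0 (-1 * (2 * φ z - 1)) - C.ex v.1 z ∧
      C.ex u.1 z * (max 0 (-1 * (2 * φ z - 1)) - C.ex v.1 z) = 0
    refine ⟨C.ex_nonneg (fun x => (hu x).1) z, ?_⟩
    rcases C.C4_cases hz hz' with a | ⟨x, rfl⟩
    · rw [show C.ex u.1 z = 0 from C.extC_off _ a, show C.ex v.1 z = 0 from C.extC_off _ a,
        sub_zero, zero_mul]
      exact ⟨le_max_left _ _, rfl⟩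
    · rw [C.ex_γ, C.ex_γ]
      by_cases e : v.1 x = 0
      · rw [e, sub_zero]
        refine ⟨le_max_left _ _, ?_⟩
        by_cases e' : u.1 x = 0
        · rw [e', zero_mul]
        · rw [h1 x e']
          norm_num
      · have e' : u.1 x = 0 := by
          by_contra e'
          exact zero_ne_one ((h0 x e).symm.trans (h1 x e'))
        rw [e', zero_mul, h0 x e]
        refine ⟨?_, rfl⟩
        norm_num
        exact (hv x).2
  have a2 := A.hopf (f := f₁ - C.exL u) (g := f₂) fun z hz hz' => by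
    change 0 ≤ max 0 (2 * φ z - 1) - C.ex u.1 z ∧ 0 ≤ max 0 (-1 * (2 * φ z - 1)) ∧
      (max 0 (2 * φ z - 1) - C.ex u.1 z) * max 0 (-1 * (2 * φ z - 1)) = 0
    have k : max 0 (2 * φ z - 1) * max 0 (-1 * (2 * φ z - 1)) = 0 := by
      rcases le_total (2 * φ z - 1) 0 with k | k
      · rw [max_eq_left k, zero_mul]
      · rw [max_eq_left (show -1 * (2 * φ z - 1) ≤ 0 by linarith), mul_zero]
    by_cases e : C.ex u.1 z = 0
    · rw [e, sub_zero]
      exact ⟨le_max_left _ _, le_max_left _ _, k⟩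
    rcases C.C4_cases hz hz' with a | ⟨x, rfl⟩
    · exact absurd (C.extC_off _ a) e
    · rw [C.ex_γ] at e ⊢
      rw [h1 x e]
      norm_num
      exact (hu x).2
  have e : (f₁ - f₂).1 = fun z => 2 * φ z - 1 := funext fun z => by
    change max 0 (2 * φ z - 1) - max 0 (-1 * (2 * φ z - 1)) = _
    rcases le_total (2 * φ z - 1) 0 with k | k
    · rw [max_eq_left k, max_eq_right (show 0 ≤ -1 * (2 * φ z - 1) by linarith)]
      ring
    · rw [max_eq_right k, max_eq_left (show -1 * (2 * φ z - 1) ≤ 0 by linarith), sub_zero]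
  have a3 := A.le (f₁ - f₂)
  have mS := C.isOpen_U.measurableSet.diff C.isOpen_W.measurableSet
  have b1 : En (C.U \ C.W) f₁.1 ≠ ∞ := ne_top_of_le_ne_top hf₁.fin (En_mono sdiff_subset _)
  have b2 : En (C.U \ C.W) f₂.1 ≠ ∞ := ne_top_of_le_ne_top hf₂.fin (En_mono sdiff_subset _)
  have b3 : En C.W φ ≠ ∞ := ne_top_of_le_ne_top hφ.fin (En_mono C.W_sub _)
  have b4 : ENNReal.ofReal (2 ^ 2) * En C.W φ ≠ ∞ := ENNReal.mul_ne_top ENNReal.ofReal_ne_top b3
  have a4 : En C.U (fun z => 2 * φ z - 1) ≤ ENNReal.ofReal (2 ^ 2) * En C.W φ +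
      (En (C.U \ C.W) f₁.1 + En (C.U \ C.W) f₂.1) := by
    rw [← D11_en]
    refine le_trans ?_ (add_le_add le_rfl (D11_split mS sdiff_subset hf.lip))
    exact (En_mono (subset_union_left.trans (union_sdiff_self (s := C.W) (t := C.U) ▸
      (union_comm C.U C.W).le)) _).trans (lintegral_union_le _ _ _)
  have a5 := ENNReal.toReal_mono (ENNReal.add_ne_top.2 ⟨b4, ENNReal.add_ne_top.2 ⟨b1, b2⟩⟩) a4
  rw [ENNReal.toReal_add b4 (ENNReal.add_ne_top.2 ⟨b1, b2⟩), ENNReal.toReal_add b1 b2,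
    ENNReal.toReal_mul, ENNReal.toReal_ofReal (by positivity)] at a5
  rw [e, Ip_self] at a3
  simp only [map_sub, LinearMap.sub_apply] at a1 a2 a3
  linarith [D11_low A f₁, D11_low A f₂, A.symm f₁ f₂]

theorem exists_kit' (C : Cf) : ∃ K : Kit C.α C.N, K.H = C.H ∧ C.Cut K.h := by
  obtain ⟨Q⟩ := C.exists_WF
  obtain ⟨F, hF, hf⟩ := D11_FK C Q
  obtain ⟨K, hK, eh⟩ := toKit' F
  refine ⟨K, hK.trans hF, fun A B φ δ hA hB hδ hφ _ h1 h0 => ?_⟩
  have := K.h_fin
  have hd : Disjoint A B := disjoint_left.2 fun x ha hb =>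
    zero_ne_one ((h0 x x hb (by rwa [dist_self])).symm.trans (h1 x x ha (by rwa [dist_self])))
  obtain ⟨u, hu⟩ := exists_app hA
  obtain ⟨v, hv⟩ := exists_app hB
  obtain ⟨r, hr, ha⟩ := BC_apart hA hB hd hu hv
  have b3 : En C.W φ ≠ ∞ := ne_top_of_le_ne_top hφ.fin (En_mono C.W_sub _)
  have b4 : ENNReal.ofReal (2 * Real.pi) * En C.W φ ≠ ∞ :=
    ENNReal.mul_ne_top ENNReal.ofReal_ne_top b3
  rw [← ENNReal.toReal_le_toReal (off_fin C.finB (off_closed hA hB hd))
    (ENNReal.add_ne_top.2 ⟨measure_ne_top _ _, b4⟩), ENNReal.toReal_add (measure_ne_top _ _) b4,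
    ENNReal.toReal_mul, ENNReal.toReal_ofReal (by positivity)]
  refine le_of_tendsto_of_tendsto (BC_off C.finB hA hB hd hu hv)
    ((BC_fin eh hA hB hu hv).add_const _) ?_
  filter_upwards [ha, BC_small hδ] with n hn hn'
  have e₁ := C.Po_apart C.finB (u n).2 (v n).2 ⟨r, hr, hn⟩
  have e₂ := mul_le_mul_of_nonneg_left (D11_main Q hφ (u n) (v n) (hu.1 n) (hv.1 n)
    (fun x hx => (hu.2.2 n x hx).elim fun y hy => h1 x y hy.1 (hy.2.trans_le hn'))
    fun x hx => (hv.2.2 n x hx).elim fun y hy => h0 x y hy.1 (hy.2.trans_le hn')) Real.pi_pos.le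
  rw [hf]
  linarith

end Pool.Agent.Work.MP_042f46_an.Fu
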