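import Pool.Agent.Work.MP_042f46_an.F.Defs

-- merged part: Pool.Agent.Work.MP_042f46_an.F.C1
section
/-!
# Schwarz, Harnack, three circles

Plans.  `HPl`: `(f - f b) / (f - conj (f b))` maps the ball into the unit ball, `Complex.norm_deriv_le_div_of_mapsTo_ball`.  `harn`: on the segment from `w'` to `w` (inside the half ball, length at most `R`) `‖f'‖ ≤ 4 im f / R`, so `log (im f)` changes by at most `4`.  `slit`: `g = exp (log f / 2)` has positive real part; `HPl` for `I g` gives `‖g'‖ ≤ 4 ‖g‖ / R`, so `log ‖g‖` changes by at most `4` (differentiate `re (log g)` along the segment).  `nz`: a primitive of `f' / f` on the ball (`DifferentiableOn.isExactOn_ball`) gives `f = exp k`; `harn` for `I (log (2 M) - k)`; `exp 4 < 55`.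
`three`: for `‖z - x‖ = 2 r` apply the maximum principle (`Complex.norm_le_of_forall_mem_frontier_norm_le`) to `w ↦ f (x + w) * conj (f (x + conj (4 r ^ 2 / w)))` on `r < ‖w‖ < 4 r`; the maximum over the closed ball of radius `2 r` is attained on the sphere.  `Mx_down`: induction with `three` (if `Mx f x (r / 2 ^ k · 2) = 0` there is nothing to prove).  `Mx_off`: `Mx f x (8 t) ≤ Mx f c (16 t) ≤ C Mx f c t ≤ C Mx f x (4 t)` and `Mx_down`.
-/

open Set Metric Topology Filter MeasureTheory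
open scoped ENNReal NNReal

noncomputable section
namespace Pool.Agent.Work.MP_042f46_an.Fu

open Pool.Agent.Work.MP_042f46_an.Ty

/-- maximum modulus on a closed ball -/
def Mx (f : ℂ → ℂ) (x : ℂ) (r : ℝ) : ℝ := sSup ((fun z => ‖f z‖) '' closedBall x r)

variable {f : ℂ → ℂ} {x c : ℂ} {r R : ℝ}

theorem le_Mx (h : ContinuousOn f (closedBall x r)) {z : ℂ} (hz : z ∈ closedBall x r) :
    ‖f z‖ ≤ Mx f x r := by
  exact le_csSup ((isCompact_closedBall x r).image_of_continuousOn h.norm).bddAbove ⟨z, hz, rfl⟩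

theorem Mx_att (h : ContinuousOn f (closedBall x r)) (hr : 0 ≤ r) :
    ∃ z ∈ closedBall x r, Mx f x r = ‖f z‖ := by
  obtain ⟨z, hz, hm⟩ := (isCompact_closedBall x r).exists_isMaxOn
    (nonempty_closedBall.2 hr) h.norm
  refine ⟨z, hz, le_antisymm ?_ (le_Mx h hz)⟩
  refine csSup_le ⟨_, z, hz, rfl⟩ ?_
  rintro _ ⟨w, hw, rfl⟩
  exact hm hw

theorem Mx_mono (h : ContinuousOn f (closedBall c R)) (hr : 0 ≤ r) (hs : ‖x - c‖ + r ≤ R) :
    Mx f x r ≤ Mx f c R := by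
  have hsub : closedBall x r ⊆ closedBall c R := by
    apply closedBall_subset_closedBall'
    rw [dist_eq_norm]; linarith
  obtain ⟨z, hz, he⟩ := Mx_att (h.mono hsub) hr
  rw [he]; exact le_Mx h (hsub hz)

theorem HPl (hR : 0 < R) (hf : DifferentiableOn ℂ f (ball x R)) (h : ∀ w ∈ ball x R, 0 < (f w).im) :
    ‖deriv f x‖ ≤ 2 * (f x).im / R := by
  have ha : 0 < (f x).im := h x (mem_ball_self hR)
  have hne : ∀ w ∈ ball x R, f w - (starRingEnd ℂ) (f x) ≠ 0 := by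
    intro w hw h0
    have h1 := congrArg Complex.im h0
    have h2 := h w hw
    simp at h1; linarith
  have hg : DifferentiableOn ℂ (fun w => (f w - f x) / (f w - (starRingEnd ℂ) (f x))) (ball x R) :=
    (hf.sub_const _).div (hf.sub_const _) hne
  have hm : MapsTo (fun w => (f w - f x) / (f w - (starRingEnd ℂ) (f x))) (ball x R)
      (closedBall ((fun w => (f w - f x) / (f w - (starRingEnd ℂ) (f x))) x) 1) := by
    intro w hw
    simp only [sub_self, zero_div, mem_closedBall, dist_zero_right, norm_div]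
    rw [div_le_one (norm_pos_iff.2 (hne w hw))]
    have h2 := h w hw
    rw [← sq_le_sq₀ (norm_nonneg _) (norm_nonneg _)]
    rw [Complex.sq_norm, Complex.sq_norm, Complex.normSq_apply, Complex.normSq_apply]
    simp only [Complex.sub_re, Complex.sub_im, Complex.conj_re, Complex.conj_im]
    nlinarith [mul_pos ha h2]
  have hS := Complex.norm_deriv_le_div_of_mapsTo_ball hg hm hR
  have hd : HasDerivAt f (deriv f x) x :=
    (hf.differentiableAt (isOpen_ball.mem_nhds (mem_ball_self hR))).hasDerivAt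
  have hn := hne x (mem_ball_self hR)
  have hd2 := ((hd.sub_const (f x)).fun_div (hd.sub_const ((starRingEnd ℂ) (f x))) hn).deriv
  rw [hd2] at hS
  have he : (deriv f x * (f x - (starRingEnd ℂ) (f x)) - (f x - f x) * deriv f x) /
      (f x - (starRingEnd ℂ) (f x)) ^ 2 = deriv f x / (f x - (starRingEnd ℂ) (f x)) := by
    field_simp; ring
  have hN : ‖f x - (starRingEnd ℂ) (f x)‖ = 2 * (f x).im := by
    rw [Complex.sub_conj, norm_mul, Complex.norm_I, mul_one, Complex.norm_real, Real.norm_eq_abs,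
      abs_of_pos (by linarith)]
  rw [he, norm_div, hN, div_le_iff₀ (by linarith)] at hS
  calc ‖deriv f x‖ ≤ 1 / R * (2 * (f x).im) := hS
    _ = 2 * (f x).im / R := by ring

theorem C1_len {w w' : ℂ} (hw : w ∈ closedBall x (R / 2)) (hw' : w' ∈ closedBall x (R / 2)) :
    ‖w - w'‖ ≤ R := by
  have h1 := dist_triangle_right w w' x
  rw [mem_closedBall] at hw hw'
  rw [← dist_eq_norm]; linarith

theorem C1_half (hf : DifferentiableOn ℂ f (ball x R)) (h : ∀ w ∈ ball x R, 0 < (f w).im)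
    (hR : 0 < R) {z : ℂ} (hz : z ∈ closedBall x (R / 2)) : ‖deriv f z‖ ≤ 4 * (f z).im / R := by
  have hsub : ball z (R / 2) ⊆ ball x R := by
    apply ball_subset_ball'
    rw [mem_closedBall] at hz; linarith
  calc ‖deriv f z‖ ≤ 2 * (f z).im / (R / 2) :=
        HPl (by linarith) (hf.mono hsub) (fun w hw => h w (hsub hw))
    _ = 4 * (f z).im / R := by field_simp; ring

theorem harn (hf : DifferentiableOn ℂ f (ball x R)) (h : ∀ w ∈ ball x R, 0 < (f w).im) (hR : 0 < R)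
    {w w' : ℂ} (hw : w ∈ closedBall x (R / 2)) (hw' : w' ∈ closedBall x (R / 2)) :
    (f w).im ≤ Real.exp 4 * (f w').im := by
  have hsub : closedBall x (R / 2) ⊆ ball x R := closedBall_subset_ball (by linarith)
  have hγ : ∀ t ∈ Icc (0 : ℝ) 1, w' + (t : ℂ) * (w - w') ∈ closedBall x (R / 2) := by
    intro t ht
    have := (convex_closedBall x (R / 2)).add_smul_sub_mem hw' hw ht
    simpa using this
  have hl := C1_len hw hw'
  have key := norm_image_sub_le_of_norm_deriv_le_segment_01'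
    (f := fun t : ℝ => Real.log (f (w' + (t : ℂ) * (w - w'))).im)
    (f' := fun t : ℝ => (deriv f (w' + (t : ℂ) * (w - w')) * (w - w')).im /
      (f (w' + (t : ℂ) * (w - w'))).im) (C := 4) ?_ ?_
  · simp only [Complex.ofReal_one, one_mul, add_sub_cancel, Complex.ofReal_zero, zero_mul,
      add_zero, Real.norm_eq_abs] at key
    have h1 := h w (hsub hw)
    have h2 := h w' (hsub hw')
    have h3 := (abs_le.1 key).2
    calc (f w).im = Real.exp (Real.log (f w).im) := (Real.exp_log h1).symm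
      _ ≤ Real.exp (4 + Real.log (f w').im) := Real.exp_le_exp.2 (by linarith)
      _ = Real.exp 4 * (f w').im := by rw [Real.exp_add, Real.exp_log h2]
  · intro t ht
    have hz := hsub (hγ t ht)
    have hd : HasDerivAt f (deriv f (w' + (t : ℂ) * (w - w'))) (w' + (t : ℂ) * (w - w')) :=
      (hf.differentiableAt (isOpen_ball.mem_nhds hz)).hasDerivAt
    have h1 : HasDerivAt (fun s : ℂ => w' + s * (w - w')) (w - w') (t : ℂ) := by
      simpa using ((hasDerivAt_id (t : ℂ)).mul_const (w - w')).const_add w'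
    have h2 : HasDerivAt (fun s : ℂ => f (w' + s * (w - w')))
        (deriv f (w' + (t : ℂ) * (w - w')) * (w - w')) (t : ℂ) :=
      HasDerivAt.comp (t : ℂ) (h₂ := f) (h := fun s : ℂ => w' + s * (w - w')) hd h1
    have h3 := h2.comp_ofReal
    have h4 : HasDerivAt (fun s : ℝ => (f (w' + (s : ℂ) * (w - w'))).im)
        (deriv f (w' + (t : ℂ) * (w - w')) * (w - w')).im t :=
      Complex.imCLM.hasFDerivAt.comp_hasDerivAt t h3
    exact (h4.log (h _ hz).ne').hasDerivWithinAt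
  · intro t ht
    have hz := hγ t (Ico_subset_Icc_self ht)
    have hp := h _ (hsub hz)
    have hb := C1_half hf h hR hz
    rw [Real.norm_eq_abs, abs_div, abs_of_pos hp, div_le_iff₀ hp]
    calc |(deriv f (w' + (t : ℂ) * (w - w')) * (w - w')).im|
        ≤ ‖deriv f (w' + (t : ℂ) * (w - w')) * (w - w')‖ := Complex.abs_im_le_norm _
      _ ≤ (4 * (f (w' + (t : ℂ) * (w - w'))).im / R) * R := by
          rw [norm_mul]
          exact mul_le_mul hb hl (norm_nonneg _) (by positivity)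
      _ = 4 * (f (w' + (t : ℂ) * (w - w'))).im := by field_simp

theorem slit (hf : DifferentiableOn ℂ f (ball x R)) (h : ∀ w ∈ ball x R, f w ∈ Complex.slitPlane)
    (hR : 0 < R) {w w' : ℂ} (hw : w ∈ closedBall x (R / 2)) (hw' : w' ∈ closedBall x (R / 2)) :
    ‖f w‖ ≤ Real.exp 8 * ‖f w'‖ := by
  have hsub : closedBall x (R / 2) ⊆ ball x R := closedBall_subset_ball (by linarith)
  have hL : DifferentiableOn ℂ (fun z => Complex.log (f z)) (ball x R) := hf.clog h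
  have hg : DifferentiableOn ℂ (fun z => Complex.I * Complex.exp (Complex.log (f z) / 2))
      (ball x R) := ((hL.div_const 2).cexp).const_mul _
  have hpos : ∀ z ∈ ball x R, 0 < (Complex.I * Complex.exp (Complex.log (f z) / 2)).im := by
    intro z hz
    rw [Complex.I_mul_im, Complex.exp_re]
    refine mul_pos (Real.exp_pos _) (Real.cos_pos_of_mem_Ioo ?_)
    have h1 : (Complex.log (f z) / 2).im = Complex.arg (f z) / 2 := by
      rw [← Complex.log_im]; simp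
    rw [h1]
    have h2 := Complex.neg_pi_lt_arg (f z)
    have h3 := Complex.arg_le_pi (f z)
    have h4 := (Complex.mem_slitPlane_iff_arg.1 (h z hz)).1
    have h5 := lt_of_le_of_ne h3 h4
    constructor <;> linarith
  have hb : ∀ z ∈ closedBall x (R / 2), ‖deriv (fun z => Complex.log (f z)) z‖ ≤ 8 / R := by
    intro z hz
    have h1 := C1_half hg hpos hR hz
    have hd := (hL.differentiableAt (isOpen_ball.mem_nhds (hsub hz))).hasDerivAt
    have h2 := (((hd.div_const 2).cexp).const_mul Complex.I).deriv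
    rw [h2] at h1
    have h3 : (Complex.I * Complex.exp (Complex.log (f z) / 2)).im ≤
        ‖Complex.exp (Complex.log (f z) / 2)‖ := by
      rw [Complex.I_mul_im]; exact Complex.re_le_norm _
    have h4 : 0 < ‖Complex.exp (Complex.log (f z) / 2)‖ := norm_pos_iff.2 (Complex.exp_ne_zero _)
    rw [norm_mul, norm_mul, Complex.norm_I, one_mul, norm_div, Complex.norm_ofNat,
      le_div_iff₀ hR] at h1
    rw [le_div_iff₀ hR]
    have h5 : ‖Complex.exp (Complex.log (f z) / 2)‖ * (‖deriv (fun z => Complex.log (f z)) z‖ * R)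
        ≤ ‖Complex.exp (Complex.log (f z) / 2)‖ * 8 := by linarith
    exact le_of_mul_le_mul_left h5 h4
  have key := (convex_closedBall x (R / 2)).norm_image_sub_le_of_norm_deriv_le
    (fun z hz => hL.differentiableAt (isOpen_ball.mem_nhds (hsub hz))) hb hw' hw
  have hl := C1_len hw hw'
  have h8 : 8 / R * ‖w - w'‖ ≤ 8 := by
    calc 8 / R * ‖w - w'‖ ≤ 8 / R * R := mul_le_mul_of_nonneg_left hl (by positivity)
      _ = 8 := by field_simp
  have h9 := (Complex.re_le_norm _).trans (key.trans h8)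
  rw [Complex.sub_re, Complex.log_re, Complex.log_re] at h9
  have h1 : 0 < ‖f w‖ := norm_pos_iff.2 (Complex.slitPlane_ne_zero (h w (hsub hw)))
  have h2 : 0 < ‖f w'‖ := norm_pos_iff.2 (Complex.slitPlane_ne_zero (h w' (hsub hw')))
  calc ‖f w‖ = Real.exp (Real.log ‖f w‖) := (Real.exp_log h1).symm
    _ ≤ Real.exp (8 + Real.log ‖f w'‖) := Real.exp_le_exp.2 (by linarith)
    _ = Real.exp 8 * ‖f w'‖ := by rw [Real.exp_add, Real.exp_log h2]

theorem C1_log (hf : DifferentiableOn ℂ f (ball x R)) (h : ∀ w ∈ ball x R, f w ≠ 0) (hR : 0 < R) :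
    ∃ k : ℂ → ℂ, DifferentiableOn ℂ k (ball x R) ∧ ∀ z ∈ ball x R, Complex.exp (k z) = f z := by
  have hq : DifferentiableOn ℂ (fun z => deriv f z / f z) (ball x R) :=
    (hf.deriv isOpen_ball).div hf h
  obtain ⟨k, hk0, hk⟩ := hq.isExactOn_ball.with_val_at x (Complex.log (f x))
  have hkd : DifferentiableOn ℂ k (ball x R) := fun z hz =>
    (hk z hz).differentiableAt.differentiableWithinAt
  refine ⟨k, hkd, fun z hz => ?_⟩
  have hc := isOpen_ball.is_const_of_deriv_eq_zero (𝕜 := ℂ) (convex_ball x R).isPreconnected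
    (f := fun z => Complex.exp (k z) / f z) (hkd.cexp.div hf h) ?_ hz (mem_ball_self hR)
  · simp only [hk0, Complex.exp_log (h x (mem_ball_self hR)),
      div_self (h x (mem_ball_self hR))] at hc
    exact (div_eq_one_iff_eq (h z hz)).1 hc
  · intro u hu
    have hd := (hf.differentiableAt (isOpen_ball.mem_nhds hu)).hasDerivAt
    have hn := h u hu
    rw [((hk u hu).cexp.fun_div hd hn).deriv, Pi.zero_apply]
    field_simp
    ring

theorem nz (hf : DifferentiableOn ℂ f (ball x R)) (h : ∀ w ∈ ball x R, f w ≠ 0) (hR : 0 < R)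
    {M C : ℝ} (hM : ∀ w ∈ ball x R, ‖f w‖ ≤ M) {w w' : ℂ} (hw : w ∈ closedBall x (R / 2))
    (hw' : w' ∈ closedBall x (R / 2)) (hC : M ≤ C * ‖f w'‖) : M ≤ (2 * C) ^ 55 * ‖f w‖ := by
  have hsub : closedBall x (R / 2) ⊆ ball x R := closedBall_subset_ball (by linarith)
  obtain ⟨k, hk, hkf⟩ := C1_log hf h hR
  have hre : ∀ z ∈ ball x R, (Complex.I * ((Real.log (2 * M) : ℝ) - k z)).im =
      Real.log (2 * M) - Real.log ‖f z‖ := by
    intro z hz
    rw [Complex.I_mul_im, Complex.sub_re, Complex.ofReal_re, ← hkf z hz, Complex.norm_exp,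
      Real.log_exp]
  have hlt : ∀ z ∈ ball x R, 0 < Real.log (2 * M) - Real.log ‖f z‖ := by
    intro z hz
    have h1 : 0 < ‖f z‖ := norm_pos_iff.2 (h z hz)
    have h2 := hM z hz
    have := Real.log_lt_log h1 (show ‖f z‖ < 2 * M by linarith)
    linarith
  have key := harn (f := fun z => Complex.I * ((Real.log (2 * M) : ℝ) - k z))
    ((hk.const_sub _).const_mul _) (fun z hz => by rw [hre z hz]; exact hlt z hz) hR hw hw'
  simp only [hre w (hsub hw), hre w' (hsub hw')] at key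
  have h1 : 0 < ‖f w‖ := norm_pos_iff.2 (h w (hsub hw))
  have h2 : 0 < ‖f w'‖ := norm_pos_iff.2 (h w' (hsub hw'))
  have hM0 : 0 < M := h1.trans_le (hM w (hsub hw))
  have hC0 : 0 < C := by
    by_contra hn
    have := mul_nonpos_of_nonpos_of_nonneg (not_lt.1 hn) h2.le
    linarith
  have h3 : Real.log (2 * M) ≤ Real.log (2 * C) + Real.log ‖f w'‖ := by
    rw [← Real.log_mul (by positivity) h2.ne']
    exact Real.log_le_log (by positivity) (by linarith)
  have h4 := hlt w' (hsub hw')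
  have h5 : Real.exp 4 ≤ 55 := by
    have e1 := Real.exp_one_lt_d9
    have e2 : Real.exp 4 = Real.exp 1 ^ 4 := by rw [← Real.exp_nat_mul]; norm_num
    rw [e2]
    calc Real.exp 1 ^ 4 ≤ 2.7182818286 ^ 4 := pow_le_pow_left₀ (Real.exp_pos _).le e1.le 4
      _ ≤ 55 := by norm_num
  have h6 : Real.log (2 * M) ≤ Real.log ((2 * C) ^ 55 * ‖f w‖) := by
    rw [Real.log_mul (by positivity) h1.ne', Real.log_pow]
    have := mul_le_mul_of_nonneg_right h5 h4.le
    push_cast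
    linarith
  have h7 := (Real.log_le_log_iff (by positivity) (by positivity)).1 h6
  linarith

theorem C1_ann (hf : DifferentiableOn ℂ f (ball x R)) (hr : 0 < r) (hR : 4 * r < R) {u : ℂ}
    (hu : ‖u - x‖ = 2 * r) : ‖f u ^ 2‖ ≤ Mx f x r * Mx f x (4 * r) := by
  have hc : ∀ s, s < R → ContinuousOn f (closedBall x s) := fun s hs =>
    hf.continuousOn.mono (closedBall_subset_ball hs)
  have hu0 : u - x ≠ 0 := by
    intro h0; rw [h0, norm_zero] at hu; linarith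
  have hq : ∀ w : ℂ, ‖(u - x) ^ 2 / w‖ = 4 * r ^ 2 / ‖w‖ := fun w => by
    rw [norm_div, norm_pow, hu]; ring
  have hle : ∀ (s : ℝ) (w : ℂ), s < R → ‖w‖ = s → ‖f (x + w)‖ ≤ Mx f x s := fun s w hs hw =>
    le_Mx (hc s hs) (by simp [hw])
  have hcl : closure (ball (0 : ℂ) (4 * r) ∩ (closedBall 0 r)ᶜ) ⊆
      closedBall 0 (4 * r) ∩ (ball 0 r)ᶜ :=
    closure_minimal (inter_subset_inter ball_subset_closedBall
      (compl_subset_compl.2 ball_subset_closedBall))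
      (isClosed_closedBall.inter isOpen_ball.isClosed_compl)
  have key := Complex.norm_le_of_forall_mem_frontier_norm_le
    (f := fun w => f (x + w) * f (x + (u - x) ^ 2 / w))
    (U := ball (0 : ℂ) (4 * r) ∩ (closedBall 0 r)ᶜ) (C := Mx f x r * Mx f x (4 * r))
    (isBounded_ball.subset inter_subset_left) ?_ ?_ (z := u - x) ?_
  · have e1 : (u - x) ^ 2 / (u - x) = u - x := by field_simp
    simp only [e1, add_sub_cancel] at key
    rwa [pow_two]
  · apply DifferentiableOn.diffContOnCl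
    intro w hw
    obtain ⟨h1, h2⟩ := hcl hw
    simp only [mem_closedBall, dist_zero_right, mem_compl_iff, mem_ball, not_lt] at h1 h2
    have hw0 : 0 < ‖w‖ := by linarith
    have h3 : ‖(u - x) ^ 2 / w‖ ≤ 4 * r := by
      rw [hq, div_le_iff₀ hw0]; nlinarith
    have d1 : DifferentiableAt ℂ f (x + w) :=
      hf.differentiableAt (isOpen_ball.mem_nhds (by simp; linarith))
    have d2 : DifferentiableAt ℂ f (x + (u - x) ^ 2 / w) :=
      hf.differentiableAt (isOpen_ball.mem_nhds (by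
        rw [mem_ball, dist_eq_norm, add_sub_cancel_left]; linarith))
    have d3 : DifferentiableAt ℂ (fun w : ℂ => x + w) w := differentiableAt_id.const_add x
    have d4 : DifferentiableAt ℂ (fun w : ℂ => x + (u - x) ^ 2 / w) w :=
      ((differentiableAt_const _).div differentiableAt_id (norm_pos_iff.1 hw0)).const_add x
    exact ((DifferentiableAt.comp w (g := f) (f := fun w : ℂ => x + w) d1 d3).mul
      (DifferentiableAt.comp w (g := f) (f := fun w : ℂ => x + (u - x) ^ 2 / w) d2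
        d4)).differentiableWithinAt
  · intro w hw
    have h0 : ∀ s, 0 ≤ s → s < R → 0 ≤ Mx f x s := fun s hs hs' =>
      (norm_nonneg _).trans (le_Mx (hc s hs') (mem_closedBall_self hs))
    rw [norm_mul]
    rcases frontier_inter_subset _ _ hw with h1 | h1
    · have h2 : ‖w‖ = 4 * r := by simpa using frontier_ball_subset_sphere h1.1
      rw [mul_comm (Mx f x r)]
      refine mul_le_mul (hle _ _ hR h2) (hle _ _ (by linarith) ?_) (norm_nonneg _)
        (h0 _ (by linarith) hR)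
      rw [hq, h2]; field_simp
    · have h2 : ‖w‖ = r := by
        have h3 := h1.2
        rw [frontier_compl] at h3
        simpa using frontier_closedBall_subset_sphere h3
      refine mul_le_mul (hle _ _ (by linarith) h2) (hle _ _ hR ?_) (norm_nonneg _)
        (h0 _ hr.le (by linarith))
      rw [hq, h2]; field_simp
  · apply subset_closure
    simp only [mem_inter_iff, mem_ball, dist_zero_right, mem_compl_iff, mem_closedBall, not_le, hu]
    constructor <;> linarith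

theorem three (hf : DifferentiableOn ℂ f (ball x R)) (hr : 0 < r) (hR : 4 * r < R) :
    Mx f x (2 * r) ^ 2 ≤ Mx f x r * Mx f x (4 * r) := by
  have hc : ∀ s, s < R → ContinuousOn f (closedBall x s) := fun s hs =>
    hf.continuousOn.mono (closedBall_subset_ball hs)
  obtain ⟨z, hz, he⟩ := Mx_att (hc (2 * r) (by linarith)) (by linarith : (0 : ℝ) ≤ 2 * r)
  rw [he, ← norm_pow]
  have hcl : closure (ball x (2 * r)) = closedBall x (2 * r) := closure_ball x (by linarith)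
  refine Complex.norm_le_of_forall_mem_frontier_norm_le (f := fun z => f z ^ 2)
    (U := ball x (2 * r)) isBounded_ball ?_ ?_ (by rw [hcl]; exact hz)
  · apply DifferentiableOn.diffContOnCl
    rw [hcl]
    exact (hf.mono (closedBall_subset_ball (by linarith))).pow 2
  · intro u hu
    rw [frontier_ball x (by linarith)] at hu
    exact C1_ann hf hr hR (by simpa [mem_sphere_iff_norm] using hu)

theorem Mx_down (hf : DifferentiableOn ℂ f (ball x R)) (hr : 0 < r) (hR : 2 * r < R) {C : ℝ}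
    (hC : 1 ≤ C) (h : Mx f x (2 * r) ≤ C * Mx f x r) (k : ℕ) :
    Mx f x r ≤ C ^ k * Mx f x (r / 2 ^ k) := by
  have hc : ∀ s, s < R → ContinuousOn f (closedBall x s) := fun s hs =>
    hf.continuousOn.mono (closedBall_subset_ball hs)
  have hle : ∀ j : ℕ, r / 2 ^ j ≤ r := fun j => div_le_self hr.le (one_le_pow₀ (by norm_num))
  have hpos : ∀ j : ℕ, 0 < r / 2 ^ j := fun j => by positivity
  have h0 : ∀ s, 0 ≤ s → s < R → 0 ≤ Mx f x s := fun s hs hs' =>
    (norm_nonneg _).trans (le_Mx (hc s hs') (mem_closedBall_self hs))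
  have hhalf : ∀ j : ℕ, 2 * (r / 2 ^ (j + 1)) = r / 2 ^ j := fun j => by
    rw [pow_succ]; field_simp
  have step : ∀ j : ℕ, Mx f x (2 * (r / 2 ^ j)) ≤ C * Mx f x (r / 2 ^ j) := by
    intro j
    induction j with
    | zero => simpa using h
    | succ j ih =>
      have h4 : 4 * (r / 2 ^ (j + 1)) = 2 * (r / 2 ^ j) := by rw [← hhalf j]; ring
      have h3 := three hf (hpos (j + 1)) (by rw [h4]; linarith [hle j])
      rw [h4, hhalf j] at h3
      rw [hhalf j]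
      have a0 := h0 _ (hpos j).le (by linarith [hle j])
      have b0 := h0 _ (hpos (j + 1)).le (by linarith [hle (j + 1)])
      rcases a0.eq_or_lt with ha | ha
      · rw [← ha]; positivity
      · have h5 := h3.trans (mul_le_mul_of_nonneg_left ih b0)
        apply le_of_mul_le_mul_left _ ha
        linarith
  induction k with
  | zero => simp
  | succ k ih =>
    have h1 := step (k + 1)
    rw [hhalf k] at h1
    calc Mx f x r ≤ C ^ k * Mx f x (r / 2 ^ k) := ih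
      _ ≤ C ^ k * (C * Mx f x (r / 2 ^ (k + 1))) := mul_le_mul_of_nonneg_left h1 (by positivity)
      _ = C ^ (k + 1) * Mx f x (r / 2 ^ (k + 1)) := by ring

theorem Mx_off {t C : ℝ} (hf : DifferentiableOn ℂ f (ball c R)) (ht : 0 < t) (hR : 16 * t < R)
    (hC : 1 ≤ C) (h : Mx f c (16 * t) ≤ C * Mx f c t) (hx : ‖x - c‖ ≤ 3 * t) (k : ℕ) :
    Mx f c (16 * t) ≤ C ^ (k + 1) * Mx f x (4 * t / 2 ^ k) := by
  have hsub : ball x (R - 3 * t) ⊆ ball c R := by
    apply ball_subset_ball'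
    rw [dist_eq_norm]; linarith
  have hf' := hf.mono hsub
  have h1 : Mx f x (2 * (4 * t)) ≤ Mx f c (16 * t) :=
    Mx_mono (hf.continuousOn.mono (closedBall_subset_ball hR)) (by linarith) (by linarith)
  have h2 : Mx f c t ≤ Mx f x (4 * t) :=
    Mx_mono (hf'.continuousOn.mono (closedBall_subset_ball (by linarith))) ht.le
      (by rw [norm_sub_rev]; linarith)
  have h3 : Mx f c (16 * t) ≤ C * Mx f x (4 * t) :=
    h.trans (mul_le_mul_of_nonneg_left h2 (by linarith))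
  have h4 := Mx_down hf' (by linarith : 0 < 4 * t) (by linarith) hC (h1.trans h3) k
  calc Mx f c (16 * t) ≤ C * Mx f x (4 * t) := h3
    _ ≤ C * (C ^ k * Mx f x (4 * t / 2 ^ k)) := mul_le_mul_of_nonneg_left h4 (by linarith)
    _ = C ^ (k + 1) * Mx f x (4 * t / 2 ^ k) := by ring

end Pool.Agent.Work.MP_042f46_an.Fu
end
end

-- merged part: Pool.Agent.Work.MP_042f46_an.F.C2
section
/-!
# An exponential window contradicts the visiting property

Plan.  In the coordinate `ζ` the map is `Gζ ζ = ζ + τ exp ζ v ζ`, `τ = lam σ`; put `P ζ = exp (-ζ) / τ`, so `Gζ ζ = ζ + v ζ / P ζ`.  Let `p₀ = exp (Q / 4) / ‖τ‖ ≥ exp (Q / 4) / (L B Q ^ 4) ≥ 300`.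
Inverse step (`C2_step`): if `closedBall ζ (1 / 50)` lies in the window and `100 ≤ ‖P ζ‖` there is `ζ'` with `‖ζ' - ζ‖ ≤ 2 / ‖P ζ‖`, `Gζ ζ' = ζ` (contraction `η ↦ ζ - v η / P η` on the closed ball of radius `2 / ‖P ζ‖`, `ContractingWith.exists_fixedPoint'`, `Convex.norm_image_sub_le_of_norm_deriv_le`) and `‖P ζ' - P ζ - 1‖ ≤ 1 / 5` (`P ζ = P ζ' exp (-x)`, `x = v ζ' / P ζ'`, `Complex.norm_exp_sub_one_sub_id_le`).
Sheets: for `k : Fin (n + 1)` choose `ζ₀ k` with real part `-Q / 4`, `P (ζ₀ k) = p₀`, imaginary parts `y k = y₁ + 2 π k ∈ [y₀ + 1, y₀ + Q - 1]`.  Trap `k`: the points `w₀ + ζ / lam` with `|im ζ - y k| ≤ π / 4` (then `|im P| ≤ re P`, `arg (P ζ) = y k - im ζ`) and `-3 Q / 4 ≤ re ζ`, `p₀ / 3 ≤ re (P ζ)` (so `re ζ ≤ -Q / 4 + 2`).  The inverse step keeps `|im ζ - y k| ≤ π / 4`: `P ζ'` is in the cone and `|im ζ' - im ζ| ≤ 1 / 50`, so `im ζ' - y k`, which is `-arg (P ζ')` modulo `2 π`, equals it.  `m = ⌈p₀ exp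 (Q / 4)⌉₊`.  Run the inverse step `m` times from `ζ₀ k`: `P l` has `re ≥ p₀ + 4 l / 5`, `|im| ≤ l / 5 ≤ re / 4`, norm at most `p₀ + 6 l / 5`; `b k` is the last point, `R = 1 / (2 ‖lam‖)` (radius `1 / 2` in `ζ`; `arctan (1 / 4) + 1 / 2 < π / 4`).  From every point of that ball the inverse step runs `m + 1` times inside the trap (`‖P‖ ≤ 2 (p₀ + 6 m / 5) + 6 (m + 1) / 5 ≤ p₀ exp (Q / 2)`).  `Loc.ext` gives `Γ`, and `HPl` gives `‖Γ' (b k)‖ ≤ 4 A ‖lam‖ ≤ 4 A L Q ^ 4`.  Chain rule: `‖G'‖ ≥ 1 + re ((v + v') / P) ≥ 1 + (4 / 5) / (p₀ + 6 l / 5)`, whose square is at least `(p₀ + 6 (l + 1) / 5) / (p₀ + 6 l / 5)`; so the square of the product over `l = 1, …, m` is at least `(p₀ + 6 (m + 1) / 5) / (p₀ + 6 / 5) ≥ exp (Q / 4)`.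
-/

open Set Metric Topology Filter MeasureTheory
open scoped ENNReal NNReal

noncomputable section
namespace Pool.Agent.Work.MP_042f46_an.Fu

open Pool.Agent.Work.MP_042f46_an.Ty

/-- the window of one sheet -/
def C2_W (T : ℝ) : Set ℂ := {z | -T ≤ z.re ∧ z.re ≤ 1 ∧ |z.im| ≤ 1}

/-- the hypotheses on the slowly varying factor -/
def C2_Win (T : ℝ) (u : ℂ → ℂ) : Prop :=
  ∀ z ∈ C2_W T, ‖u z - 1‖ ≤ 1 / 20 ∧ DifferentiableAt ℂ u z ∧ ‖deriv u z‖ ≤ 1 / 20

/-- the map on one sheet -/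
def C2_f (ε : ℝ) (u : ℂ → ℂ) (z : ℂ) : ℂ := z + ε * Complex.exp z * u z

/-- its derivative -/
def C2_d (ε : ℝ) (u : ℂ → ℂ) (z : ℂ) : ℂ := 1 + ε * Complex.exp z * (u z + deriv u z)

theorem C2_split (z w : ℂ) {δ : ℝ} (h : ‖w - 1‖ ≤ δ) :
    |(Complex.exp z * w).re - Real.exp z.re * Real.cos z.im| ≤ Real.exp z.re * δ ∧
      |(Complex.exp z * w).im - Real.exp z.re * Real.sin z.im| ≤ Real.exp z.re * δ := by
  have h1 : ‖Complex.exp z * w - Complex.exp z‖ ≤ Real.exp z.re * δ := by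
    rw [← mul_sub_one, norm_mul, Complex.norm_exp]
    exact mul_le_mul_of_nonneg_left h (Real.exp_pos _).le
  rw [← Complex.exp_re, ← Complex.exp_im, ← Complex.sub_re, ← Complex.sub_im]
  exact ⟨(Complex.abs_re_le_norm _).trans h1, (Complex.abs_im_le_norm _).trans h1⟩

theorem C2_cos {b : ℝ} (h : |b| ≤ 1) : 1 / 2 ≤ Real.cos b := by
  have h1 := Real.one_sub_sq_div_two_le_cos (x := b)
  have h2 : b ^ 2 ≤ 1 := (sq_le_one_iff_abs_le_one b).2 h
  linarith

theorem C2_sin {b : ℝ} (h0 : 1 / 8 ≤ b) (h : b ≤ 1) : 1 / 20 < Real.sin b := by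
  have h1 := Real.sin_gt_sub_cube (x := b) (by linarith)
  have h2 : b ^ 2 ≤ 1 := by nlinarith
  nlinarith

theorem C2_norm {w : ℂ} {δ : ℝ} (h : ‖w - 1‖ ≤ δ) : ‖w‖ ≤ 1 + δ := by
  have h1 := norm_add_le (w - 1) 1
  rw [sub_add_cancel, norm_one] at h1
  linarith

theorem C2_hd {ε : ℝ} {u : ℂ → ℂ} {z : ℂ} (h : DifferentiableAt ℂ u z) :
    HasDerivAt (fun z => (ε : ℂ) * Complex.exp z * u z)
      (ε * Complex.exp z * (u z + deriv u z)) z := by
  have h1 := ((Complex.hasDerivAt_exp z).const_mul (ε : ℂ)).mul h.hasDerivAt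
  rw [mul_add]
  exact h1

theorem C2_sum {u : ℂ → ℂ} {z : ℂ} (h1 : ‖u z - 1‖ ≤ 1 / 20) (h2 : ‖deriv u z‖ ≤ 1 / 20) :
    ‖u z + deriv u z - 1‖ ≤ 1 / 10 := by
  have h3 := norm_add_le (u z - 1) (deriv u z)
  rw [add_sub_right_comm]
  linarith

theorem C2_ball {T : ℝ} {η z : ℂ} (h1 : |η.im| ≤ 3 / 4) (h2 : η.re ≤ 1 / 2)
    (h3 : -T + 1 / 4 ≤ η.re) (hz : ‖z - η‖ ≤ 1 / 4) : z ∈ C2_W T := by
  have a1 := abs_le.1 ((Complex.abs_re_le_norm _).trans hz)
  have a2 := abs_le.1 ((Complex.abs_im_le_norm _).trans hz)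
  have a3 := abs_le.1 h1
  rw [Complex.sub_re] at a1
  rw [Complex.sub_im] at a2
  exact ⟨by linarith, by linarith, abs_le.2 ⟨by linarith, by linarith⟩⟩

theorem C2_small {ε : ℝ} (h0 : 0 < ε) (h1 : ε ≤ 1 / 30) {z w : ℂ} (hz : z.re ≤ 1)
    (hw : ‖w - 1‖ ≤ 1 / 10) : ‖(ε : ℂ) * Complex.exp z * w‖ ≤ 1 / 4 := by
  rw [norm_mul, norm_mul, Complex.norm_real, Real.norm_of_nonneg h0.le, Complex.norm_exp]
  have a1 : Real.exp z.re ≤ 3 := (Real.exp_le_exp.2 hz).trans Real.exp_one_lt_three.le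
  have a2 := C2_norm hw
  have a3 : ε * Real.exp z.re ≤ 1 / 30 * 3 :=
    mul_le_mul h1 a1 (Real.exp_pos _).le (by norm_num)
  have a4 : ε * Real.exp z.re * ‖w‖ ≤ 1 / 30 * 3 * (1 + 1 / 10) :=
    mul_le_mul a3 a2 (norm_nonneg _) (by norm_num)
  linarith

theorem C2_inv {ε T : ℝ} {u : ℂ → ℂ} (h0 : 0 < ε) (h1 : ε ≤ 1 / 30) (hu : C2_Win T u) {η : ℂ}
    (a1 : |η.im| ≤ 3 / 4) (a2 : η.re ≤ 1 / 2) (a3 : -T + 1 / 4 ≤ η.re) :
    ∃ z ∈ C2_W T, C2_f ε u z = η := by
  have hW : ∀ z ∈ closedBall η (1 / 4), z ∈ C2_W T := fun z hz =>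
    C2_ball a1 a2 a3 (mem_closedBall_iff_norm.1 hz)
  have hm : MapsTo (fun z => η - ε * Complex.exp z * u z) (closedBall η (1 / 4))
      (closedBall η (1 / 4)) := fun z hz => by
    rw [mem_closedBall_iff_norm, sub_sub_cancel_left, norm_neg]
    exact C2_small h0 h1 (hW z hz).2.1 ((hu z (hW z hz)).1.trans (by norm_num))
  have hl : LipschitzOnWith (1 / 4 : ℝ≥0) (fun z => η - ε * Complex.exp z * u z)
      (closedBall η (1 / 4)) := by
    refine (convex_closedBall η (1 / 4)).lipschitzOnWith_of_nnnorm_hasDerivWithin_le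
      (f' := fun z => -(ε * Complex.exp z * (u z + deriv u z)))
      (fun z hz => ((C2_hd (hu z (hW z hz)).2.1).const_sub η).hasDerivWithinAt) fun z hz => ?_
    rw [← NNReal.coe_le_coe, coe_nnnorm, norm_neg]
    exact (C2_small h0 h1 (hW z hz).2.1 (C2_sum (hu z (hW z hz)).1 (hu z (hW z hz)).2.2)).trans
      (by norm_num)
  obtain ⟨z, hz, hf, -⟩ := ContractingWith.exists_fixedPoint' isClosed_closedBall.isComplete hm
    (K := 1 / 4) ⟨by norm_num, hl.mapsToRestrict hm⟩ (mem_closedBall_self (by norm_num))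
    (edist_ne_top _ _)
  refine ⟨z, hW z hz, ?_⟩
  have h2 : η - ε * Complex.exp z * u z = z := hf
  rw [C2_f]
  linear_combination -h2

theorem C2_exp {d : ℝ} (h0 : 0 ≤ d) (h1 : d ≤ 1 / 2) :
    Real.exp (-d) ≤ 1 - d / 2 ∧ Real.exp d ≤ 1 + 2 * d := by
  have x3 : -d + 1 ≤ Real.exp (-d) := Real.add_one_le_exp _
  have x4 : d + 1 ≤ Real.exp d := Real.add_one_le_exp _
  have x5 : Real.exp d * Real.exp (-d) = 1 := by
    rw [← Real.exp_add, add_neg_cancel, Real.exp_zero]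
  have x6 := mul_le_mul_of_nonneg_left h1 h0
  constructor
  · by_contra h
    have := mul_lt_mul' x4 (not_le.1 h) (by linarith) (Real.exp_pos d)
    linarith
  · by_contra h
    have := mul_lt_mul' x3 (not_le.1 h) (by linarith) (Real.exp_pos (-d))
    linarith

/-- the inverse step -/
def C2_St (ε β : ℝ) (u : ℂ → ℂ) (η z : ℂ) : Prop :=
  C2_f ε u z = η ∧ |z.im| ≤ β ∧ z.re ≤ η.re ∧
    Real.exp (-z.re) ≤ Real.exp (-η.re) + 21 / 20 * ε ∧
    Real.exp (-η.re) + ε / 5 ≤ Real.exp (-z.re) ∧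
    Real.exp (η.re - z.re) ≤ ‖C2_d ε u z‖ ^ 6

theorem C2_step {ε T β : ℝ} {u : ℂ → ℂ} (h0 : 0 < ε) (h1 : ε ≤ 1 / 30) (hu : C2_Win T u)
    (b1 : 1 / 8 ≤ β) (b2 : β ≤ 3 / 4) {η : ℂ} (a1 : |η.im| ≤ β) (a2 : η.re ≤ 1 / 2)
    (a3 : -T + 1 / 4 ≤ η.re) : ∃ z, C2_St ε β u η z := by
  obtain ⟨z, hz, hf⟩ := C2_inv h0 h1 hu (a1.trans b2) a2 a3
  obtain ⟨u1, -, u3⟩ := hu z hz
  obtain ⟨c1, c2⟩ := C2_split z (u z) u1
  have c3 := (C2_split z _ (C2_sum u1 u3)).1
  have hc := C2_cos hz.2.2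
  have hc1 := Real.cos_le_one z.im
  have hE := Real.exp_pos z.re
  have hE3 : Real.exp z.re ≤ 3 := (Real.exp_le_exp.2 hz.2.1).trans Real.exp_one_lt_three.le
  have e1 : η.re = z.re + ε * (Complex.exp z * u z).re := by
    rw [← hf, C2_f, Complex.add_re, mul_assoc, Complex.re_ofReal_mul]
  have e2 : η.im = z.im + ε * (Complex.exp z * u z).im := by
    rw [← hf, C2_f, Complex.add_im, mul_assoc, Complex.im_ofReal_mul]
  have e3 : 1 + ε * (Complex.exp z * (u z + deriv u z)).re ≤ ‖C2_d ε u z‖ := by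
    refine le_trans (le_of_eq ?_) (Complex.re_le_norm _)
    rw [C2_d, Complex.add_re, mul_assoc, Complex.re_ofReal_mul, Complex.one_re]
  rw [abs_le] at c1 c2 c3 a1
  obtain ⟨t, ht⟩ : ∃ t, t = ε * Real.exp z.re := ⟨_, rfl⟩
  have t0 : 0 < t := ht ▸ mul_pos h0 hE
  have t1 : t ≤ 1 / 10 := by
    have := mul_le_mul h1 hE3 hE.le (by norm_num)
    linarith
  have k1 := mul_le_mul_of_nonneg_left hc hE.le
  have k2 := mul_le_mul_of_nonneg_left hc1 hE.le
  obtain ⟨d, hd⟩ : ∃ d, d = η.re - z.re := ⟨_, rfl⟩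
  have d1 : 9 / 20 * t ≤ d := by
    have := mul_le_mul_of_nonneg_left
      (show 9 / 20 * Real.exp z.re ≤ (Complex.exp z * u z).re by linarith) h0.le
    linarith
  have d2 : d ≤ 21 / 20 * t := by
    have := mul_le_mul_of_nonneg_left
      (show (Complex.exp z * u z).re ≤ 21 / 20 * Real.exp z.re by linarith) h0.le
    linarith
  have d3 : 1 + 2 / 5 * t ≤ ‖C2_d ε u z‖ := by
    have := mul_le_mul_of_nonneg_left (show 2 / 5 * Real.exp z.re ≤
      (Complex.exp z * (u z + deriv u z)).re by linarith) h0.le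
    linarith
  have x0 := Real.exp_pos (-z.re)
  have x1 : Real.exp (-z.re) * t = ε := by
    rw [ht, mul_left_comm, ← Real.exp_add, neg_add_cancel, Real.exp_zero, mul_one]
  have x2 : Real.exp (-η.re) = Real.exp (-z.re) * Real.exp (-d) := by
    rw [← Real.exp_add, hd]
    congr 1
    ring
  obtain ⟨x8, x9⟩ := C2_exp (d := d) (by linarith) (by linarith)
  refine ⟨z, hf, abs_le.2 ⟨?_, ?_⟩, by linarith, ?_, ?_, ?_⟩
  · by_contra h
    have h2 := C2_sin (b := -z.im) (by linarith) (neg_le_of_abs_le hz.2.2 |> neg_le.1)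
    rw [Real.sin_neg] at h2
    have h3 := mul_lt_mul_of_pos_left h2 hE
    have := mul_neg_of_pos_of_neg h0 (show (Complex.exp z * u z).im < 0 by linarith)
    linarith
  · by_contra h
    have h3 := mul_lt_mul_of_pos_left (C2_sin (b := z.im) (by linarith) (le_of_abs_le hz.2.2)) hE
    have := mul_pos h0 (show 0 < (Complex.exp z * u z).im by linarith)
    linarith
  · have h2 := mul_le_mul_of_nonneg_left
      (show 1 - 21 / 20 * t ≤ Real.exp (-d) by linarith [Real.add_one_le_exp (-d)]) x0.le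
    linarith
  · have h2 := mul_le_mul_of_nonneg_left (show Real.exp (-d) ≤ 1 - t / 5 by linarith) x0.le
    linarith
  · rw [← hd]
    have h2 := one_add_mul_le_pow (a := 2 / 5 * t) (by linarith) 6
    have h3 := pow_le_pow_left₀ (by linarith) d3 6
    push_cast at h2
    linarith

theorem C2_orbit {ε T β : ℝ} {u : ℂ → ℂ} (h0 : 0 < ε) (h1 : ε ≤ 1 / 30) (hu : C2_Win T u)
    (b1 : 1 / 8 ≤ β) (b2 : β ≤ 3 / 4) {η : ℂ} (a1 : |η.im| ≤ β) (a2 : η.re ≤ 1 / 2) (N : ℕ)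
    (a3 : Real.exp (-η.re) + 21 / 20 * ε * N ≤ Real.exp (T - 1 / 4)) :
    ∃ s : ℕ → ℂ, s 0 = η ∧ (∀ l < N, C2_St ε β u (s l) (s (l + 1))) ∧
      ∀ l ≤ N, |(s l).im| ≤ β ∧ (s l).re ≤ η.re ∧ -T + 1 / 4 ≤ (s l).re ∧
        Real.exp (-(s l).re) ≤ Real.exp (-η.re) + 21 / 20 * ε * l ∧
        Real.exp (-η.re) + ε / 5 * l ≤ Real.exp (-(s l).re) := by
  have hx : ∀ x : ℂ, ∃ z, |x.im| ≤ β → x.re ≤ 1 / 2 → -T + 1 / 4 ≤ x.re → C2_St ε β u x z :=
    fun x => by
      by_cases h : |x.im| ≤ β ∧ x.re ≤ 1 / 2 ∧ -T + 1 / 4 ≤ x.re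
      · obtain ⟨z, hz⟩ := C2_step h0 h1 hu b1 b2 h.1 h.2.1 h.2.2
        exact ⟨z, fun _ _ _ => hz⟩
      · exact ⟨0, fun c1 c2 c3 => absurd ⟨c1, c2, c3⟩ h⟩
  choose nx hnx using hx
  have low : ∀ (x : ℂ) (l : ℕ), l ≤ N →
      Real.exp (-x.re) ≤ Real.exp (-η.re) + 21 / 20 * ε * l → -T + 1 / 4 ≤ x.re :=
    fun x l hl h => by
      have c1 : (l : ℝ) ≤ N := by exact_mod_cast hl
      have c2 : 21 / 20 * ε * l ≤ 21 / 20 * ε * N := mul_le_mul_of_nonneg_left c1 (by positivity)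
      have c3 := Real.exp_le_exp.1 (show Real.exp (-x.re) ≤ Real.exp (T - 1 / 4) by linarith)
      linarith
  have key : ∀ l ≤ N, |(nx^[l] η).im| ≤ β ∧ (nx^[l] η).re ≤ η.re ∧ -T + 1 / 4 ≤ (nx^[l] η).re ∧
      Real.exp (-(nx^[l] η).re) ≤ Real.exp (-η.re) + 21 / 20 * ε * l ∧
      Real.exp (-η.re) + ε / 5 * l ≤ Real.exp (-(nx^[l] η).re) := by
    intro l
    induction l with
    | zero => exact fun h => ⟨a1, le_rfl, low η 0 h (by simp), by simp, by simp⟩
    | succ l ih =>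
      intro hl
      obtain ⟨c1, c2, c3, c4, c5⟩ := ih (by omega)
      obtain ⟨-, d1, d2, d3, d4, -⟩ := hnx _ c1 (c2.trans a2) c3
      rw [Function.iterate_succ_apply']
      have d5 : Real.exp (-(nx (nx^[l] η)).re) ≤
          Real.exp (-η.re) + 21 / 20 * ε * (l + 1 : ℕ) := by
        push_cast
        linarith
      refine ⟨d1, d2.trans c2, low _ _ hl d5, d5, ?_⟩
      push_cast
      linarith
  refine ⟨fun l => nx^[l] η, rfl, fun l hl => ?_, key⟩
  obtain ⟨c1, c2, c3, -⟩ := key l hl.le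
  simp only [Function.iterate_succ_apply']
  exact hnx _ c1 (c2.trans a2) c3

theorem C2_deriv {ε T : ℝ} {u G : ℂ → ℂ} {w₁ lam : ℂ} (hl : lam ≠ 0) (hu : C2_Win T u)
    (hG : ∀ z ∈ C2_W T, G (w₁ + z / lam) = w₁ + C2_f ε u z / lam) {η : ℂ}
    (a1 : |η.im| ≤ 3 / 4) (a2 : η.re ≤ 1 / 2) (a3 : -T + 1 / 4 ≤ η.re) :
    HasDerivAt G (C2_d ε u η) (w₁ + η / lam) := by
  have e0 : lam * (w₁ + η / lam - w₁) = η := by
    rw [add_sub_cancel_left, mul_div_cancel₀ _ hl]
  have h1 : HasDerivAt (C2_f ε u) (C2_d ε u η) (lam * (w₁ + η / lam - w₁)) := by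
    rw [e0]
    exact (hasDerivAt_id η).add (C2_hd (hu η (C2_ball a1 a2 a3 (by simp))).2.1)
  have h2 : HasDerivAt (fun w => lam * (w - w₁)) (lam * 1) (w₁ + η / lam) :=
    ((hasDerivAt_id _).sub_const w₁).const_mul lam
  have h3 := ((h1.comp (w₁ + η / lam) h2).div_const lam).const_add w₁
  rw [mul_one, mul_div_cancel_right₀ _ hl] at h3
  refine h3.congr_of_eventuallyEq ?_
  have h4 : ∀ᶠ w in 𝓝 (w₁ + η / lam), lam * (w - w₁) ∈ closedBall η (1 / 4) :=
    h2.continuousAt.preimage_mem_nhds (by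
      rw [e0]
      exact closedBall_mem_nhds η (by norm_num))
  filter_upwards [h4] with w hw
  have h5 := hG _ (C2_ball a1 a2 a3 (mem_closedBall_iff_norm.1 hw))
  rw [mul_div_cancel_left₀ _ hl, add_sub_cancel] at h5
  exact h5

theorem C2_sheet {ε T : ℝ} {u G : ℂ → ℂ} {w₁ lam : ℂ} (h0 : 0 < ε) (h1 : ε ≤ 1 / 30)
    (hl : lam ≠ 0) (hu : C2_Win T u)
    (hG : ∀ z ∈ C2_W T, G (w₁ + z / lam) = w₁ + C2_f ε u z / lam) (m : ℕ)
    (hm : 3 * (1 + 21 / 20 * ε * m) + 21 / 20 * ε * (m + 1 : ℕ) ≤ Real.exp (T - 1 / 4)) :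
    ∃ b : ℂ, (∀ w ∈ ball b (1 / (2 * ‖lam‖)), ∃ s : ℕ → ℂ, s 0 = w ∧
        (∀ l ≤ m + 1, s l ∈ (fun z => w₁ + z / lam) '' C2_W T) ∧ ∀ l ≤ m, G (s (l + 1)) = s l) ∧
      (∀ l < m, G^[l] b ∈ (fun z => w₁ + z / lam) '' C2_W T) ∧ G^[m] b = w₁ ∧
      ∃ D, HasDerivAt (G^[m]) D b ∧ ε / 5 * m ≤ ‖D‖ ^ 6 := by
  have hp : 0 ≤ 21 / 20 * ε * m := by positivity
  have hp' : 0 ≤ 21 / 20 * ε * (m + 1 : ℕ) := by positivity
  obtain ⟨s, s0, s1, s2⟩ := C2_orbit h0 h1 hu (β := 1 / 8) le_rfl (by norm_num) (η := 0)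
    (by simp) (by simp) m (by
      rw [Complex.zero_re, neg_zero, Real.exp_zero]
      linarith)
  simp only [Complex.zero_re, neg_zero, Real.exp_zero] at s2
  have s3 : ∀ l ≤ m, |(s l).im| ≤ 3 / 4 ∧ (s l).re ≤ 1 / 2 ∧ -T + 1 / 4 ≤ (s l).re :=
    fun l h => ⟨(s2 l h).1.trans (by norm_num), (s2 l h).2.1.trans (by norm_num), (s2 l h).2.2.1⟩
  have s4 : ∀ l ≤ m, s l ∈ C2_W T := fun l h =>
    C2_ball (s3 l h).1 (s3 l h).2.1 (s3 l h).2.2 (by simp)
  have s5 : ∀ l < m, G (w₁ + s (l + 1) / lam) = w₁ + s l / lam := fun l h => by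
    rw [hG _ (s4 _ h), (s1 l h).1]
  have hn : 0 < ‖lam‖ := norm_pos_iff.2 hl
  refine ⟨w₁ + s m / lam, fun w hw => ?_, fun l h => ?_, ?_⟩
  · have c0 : ‖lam * (w - w₁) - s m‖ ≤ 1 / 2 := by
      have e : lam * (w - w₁) - s m = lam * (w - (w₁ + s m / lam)) := by
        field_simp
        ring
      rw [e, norm_mul]
      refine (mul_le_mul_of_nonneg_left (mem_ball_iff_norm.1 hw).le hn.le).trans_eq ?_
      field_simp
    have c1 := abs_le.1 ((Complex.abs_re_le_norm _).trans c0)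
    have c2 := abs_le.1 ((Complex.abs_im_le_norm _).trans c0)
    rw [Complex.sub_re] at c1
    rw [Complex.sub_im] at c2
    obtain ⟨d1, d2, -, d3, -⟩ := s2 m le_rfl
    rw [abs_le] at d1
    have d4 : Real.exp (-(lam * (w - w₁)).re) ≤ Real.exp 1 * Real.exp (-(s m).re) := by
      rw [← Real.exp_add]
      exact Real.exp_le_exp.2 (by linarith)
    have d5 : Real.exp 1 * Real.exp (-(s m).re) ≤ 3 * (1 + 21 / 20 * ε * m) :=
      mul_le_mul Real.exp_one_lt_three.le d3 (Real.exp_pos _).le (by norm_num)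
    obtain ⟨r, r0, r1, r2⟩ := C2_orbit h0 h1 hu (β := 3 / 4) (by norm_num) le_rfl
      (η := lam * (w - w₁)) (abs_le.2 ⟨by linarith, by linarith⟩) (by linarith) (m + 1)
      (by linarith)
    have r4 : ∀ l ≤ m + 1, r l ∈ C2_W T := fun l h =>
      C2_ball (r2 l h).1 ((r2 l h).2.1.trans (by linarith)) (r2 l h).2.2.1 (by simp)
    refine ⟨fun l => w₁ + r l / lam, ?_, fun l h => ⟨r l, r4 l h, rfl⟩, fun l h => ?_⟩
    · show w₁ + r 0 / lam = w
      rw [r0, mul_div_cancel_left₀ _ hl, add_sub_cancel]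
    · show G (w₁ + r (l + 1) / lam) = w₁ + r l / lam
      rw [hG _ (r4 _ (by omega)), (r1 l (by omega)).1]
  · have key : ∀ j k, j + k = m → G^[j] (w₁ + s m / lam) = w₁ + s k / lam := by
      intro j
      induction j with
      | zero => exact fun k e => by rw [← e, zero_add, Function.iterate_zero_apply]
      | succ j ih =>
        intro k e
        rw [Function.iterate_succ_apply', ih (k + 1) (by omega), s5 k (by omega)]
    exact ⟨s (m - l), s4 _ (by omega), (key l (m - l) (by omega)).symm⟩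
  · have key : ∀ l ≤ m, G^[l] (w₁ + s l / lam) = w₁ ∧
        ∃ D, HasDerivAt (G^[l]) D (w₁ + s l / lam) ∧ Real.exp (-(s l).re) ≤ ‖D‖ ^ 6 := by
      intro l
      induction l with
      | zero => exact fun _ => ⟨by simp [s0], 1, hasDerivAt_id _, by simp [s0]⟩
      | succ l ih =>
        intro h
        obtain ⟨c1, D, c2, c3⟩ := ih (by omega)
        rw [← s5 l h] at c1 c2
        refine ⟨c1, _, c2.comp _ (C2_deriv hl hu hG (s3 _ h).1 (s3 _ h).2.1 (s3 _ h).2.2), ?_⟩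
        have c4 := mul_le_mul c3 (s1 l h).2.2.2.2.2 (Real.exp_pos _).le (by positivity)
        rw [← Real.exp_add, ← mul_pow, ← norm_mul] at c4
        refine le_trans (le_of_eq ?_) c4
        congr 1
        ring
    obtain ⟨c1, D, c2, c3⟩ := key m le_rfl
    exact ⟨c1, D, c2, by linarith [(s2 m le_rfl).2.2.2.2]⟩

theorem C2_grow (C : ℝ) (k : ℕ) : ∃ Q₀ : ℝ, ∀ Q, Q₀ ≤ Q → C * Q ^ k < Real.exp (Q / 4) := by
  refine ⟨|C| * 4 ^ (k + 1) * (k + 1).factorial + 1, fun Q hQ => ?_⟩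
  have h0 : 0 ≤ |C| * 4 ^ (k + 1) * (k + 1).factorial := by positivity
  have h1 : 0 < Q := by linarith
  refine lt_of_lt_of_le ?_ (Real.pow_div_factorial_le_exp (Q / 4) (by positivity) (k + 1))
  rw [div_pow, div_div, lt_div_iff₀ (by positivity), pow_succ Q, mul_right_comm, mul_comm (Q ^ k)]
  refine mul_lt_mul_of_pos_right ?_ (by positivity)
  have h2 := mul_le_mul_of_nonneg_right (le_abs_self C)
    (show (0 : ℝ) ≤ 4 ^ (k + 1) * (k + 1).factorial by positivity)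
  rw [← mul_assoc |C|] at h2
  linarith

theorem C2_arg (τ : ℂ) (a y : ℝ) : ∃ y₁ : ℝ, y ≤ y₁ ∧ y₁ ≤ y + 2 * Real.pi ∧ ∀ k : ℕ,
    τ * Complex.exp ⟨a, y₁ + 2 * Real.pi * k⟩ = ((‖τ‖ * Real.exp a : ℝ) : ℂ) := by
  have hp : 0 < 2 * Real.pi := Real.two_pi_pos
  obtain ⟨j, hj⟩ : ∃ j : ℤ, j = ⌈(y + Complex.arg τ) / (2 * Real.pi)⌉ := ⟨_, rfl⟩
  have h1 := Int.le_ceil ((y + Complex.arg τ) / (2 * Real.pi))
  have h2 := Int.ceil_lt_add_one ((y + Complex.arg τ) / (2 * Real.pi))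
  rw [← hj] at h1 h2
  rw [div_le_iff₀ hp] at h1
  rw [← sub_lt_iff_lt_add, lt_div_iff₀ hp] at h2
  refine ⟨-Complex.arg τ + 2 * Real.pi * j, by linarith, by linarith, fun k => ?_⟩
  have e : (⟨a, -Complex.arg τ + 2 * Real.pi * j + 2 * Real.pi * k⟩ : ℂ) =
      (a : ℂ) + -(Complex.arg τ * Complex.I) + ((j + k : ℤ) : ℂ) * (2 * Real.pi * Complex.I) := by
    apply Complex.ext
    · simp
    · simp
      ring
  rw [e, Complex.exp_add, Complex.exp_int_mul_two_pi_mul_I, mul_one, Complex.exp_add,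
    Complex.exp_neg, Complex.ofReal_mul, Complex.ofReal_exp]
  nth_rewrite 1 [← Complex.norm_mul_exp_arg_mul_I τ]
  have := Complex.exp_ne_zero (Complex.arg τ * Complex.I)
  field_simp

theorem DL_core (n : ℕ) (A B L : ℝ) : ∃ Q₀ : ℝ, ∀ (Q : ℝ) (Dom : Set ℂ) (G v : ℂ → ℂ)
    (w₀ lam σ : ℂ) (y₀ : ℝ), Q₀ ≤ Q → Loc n Dom G → lam ≠ 0 → σ ≠ 0 → ‖lam‖ ≤ L * Q ^ 4 →
      ‖σ‖ ≤ B → (∀ ζ : ℂ, ζ.re ∈ Icc (-Q) 0 → ζ.im ∈ Icc y₀ (y₀ + Q) →
        w₀ + ζ / lam ∈ Dom ∧ (w₀ + ζ / lam).im ≤ A ∧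
        G (w₀ + ζ / lam) = w₀ + ζ / lam + σ * Complex.exp ζ * v ζ ∧ ‖v ζ - 1‖ ≤ 1 / 20 ∧
        DifferentiableAt ℂ v ζ ∧ ‖deriv v ζ‖ ≤ 1 / 20) → False := by
  obtain ⟨Q₁, hQ₁⟩ := C2_grow (30 * (L * B)) 4
  obtain ⟨Q₂, hQ₂⟩ := C2_grow (5 * (4 * A * L) ^ 6) 24
  refine ⟨max (max Q₁ Q₂) (8 * n + 40), fun Q Dom G v w₀ lam σ y₀ hQ hL hl hσ h1 h2 hw => ?_⟩
  have q1 := hQ₁ Q (((le_max_left _ _).trans (le_max_left _ _)).trans hQ)
  have q2 := hQ₂ Q (((le_max_right _ _).trans (le_max_left _ _)).trans hQ)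
  have q3 : 8 * (n : ℝ) + 40 ≤ Q := (le_max_right _ _).trans hQ
  have n0 : (0 : ℝ) ≤ n := Nat.cast_nonneg n
  have hn : 0 < ‖lam‖ := norm_pos_iff.2 hl
  obtain ⟨y₁, y1, y2, y3⟩ := C2_arg (lam * σ) (-(Q / 4)) (y₀ + 1)
  obtain ⟨ε, hε⟩ : ∃ ε, ε = ‖lam * σ‖ * Real.exp (-(Q / 4)) := ⟨_, rfl⟩
  rw [← hε] at y3
  obtain ⟨X, hX⟩ : ∃ X, X = Real.exp (Q / 4) := ⟨_, rfl⟩
  have X1 : 1 ≤ X := hX ▸ Real.one_le_exp (by linarith)
  have e0 : 0 < ε := hε ▸ mul_pos (norm_pos_iff.2 (mul_ne_zero hl hσ)) (Real.exp_pos _)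
  have e1 : ε ≤ 1 / 30 := by
    have c1 : ‖lam * σ‖ ≤ L * Q ^ 4 * B := by
      rw [norm_mul]
      exact mul_le_mul h1 h2 (norm_nonneg _) (hn.le.trans h1)
    rw [hε, Real.exp_neg, ← div_eq_mul_inv, div_le_iff₀ (Real.exp_pos _)]
    linarith
  obtain ⟨m, hm⟩ : ∃ m : ℕ, m = ⌈X / ε⌉₊ := ⟨_, rfl⟩
  have m1 : X ≤ ε * m := by
    rw [mul_comm, ← div_le_iff₀ e0, hm]
    exact Nat.le_ceil _
  have m2 : ε * m ≤ X + ε := by
    have c1 := (Nat.ceil_lt_add_one (div_nonneg (zero_le_one.trans X1) e0.le)).le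
    rw [← hm] at c1
    have c2 := mul_le_mul_of_nonneg_left c1 e0.le
    rwa [mul_add, mul_one, mul_div_cancel₀ _ e0.ne'] at c2
  have m3 : 3 * (1 + 21 / 20 * ε * m) + 21 / 20 * ε * (m + 1 : ℕ) ≤
      Real.exp (3 * Q / 4 - 1 / 4) := by
    have c1 : Real.exp (3 * Q / 4 - 1 / 4) = X * Real.exp (Q / 2 - 1 / 4) := by
      rw [hX, ← Real.exp_add]
      congr 1
      ring
    have c2 := Real.add_one_le_exp (Q / 2 - 1 / 4)
    have c3 : X * 20 ≤ X * Real.exp (Q / 2 - 1 / 4) :=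
      mul_le_mul_of_nonneg_left (by linarith) (by linarith)
    push_cast
    linarith
  let c : Fin (n + 1) → ℂ := fun k => ⟨-(Q / 4), y₁ + 2 * Real.pi * (k : ℕ)⟩
  have hpi := Real.pi_gt_three
  have hpi4 := Real.pi_lt_four
  have hw' : ∀ k, ∀ z ∈ C2_W (3 * Q / 4), (c k + z).re ∈ Icc (-Q) 0 ∧
      (c k + z).im ∈ Icc y₀ (y₀ + Q) := fun k z hz => by
    have c1 : ((k : ℕ) : ℝ) ≤ n := by exact_mod_cast Nat.lt_succ_iff.1 k.2
    have c2 : (0 : ℝ) ≤ (k : ℕ) := Nat.cast_nonneg _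
    have c3 := abs_le.1 hz.2.2
    have c4 := hz.1
    have c5 := hz.2.1
    have c6 : 0 ≤ 2 * Real.pi * (k : ℕ) := by positivity
    have c7 : 2 * Real.pi * (k : ℕ) ≤ 8 * n := mul_le_mul (by linarith) c1 c2 (by norm_num)
    simp only [c, Complex.add_re, Complex.add_im, mem_Icc]
    exact ⟨⟨by linarith, by linarith⟩, by linarith, by linarith⟩
  have ad : ∀ k z, w₀ + c k / lam + z / lam = w₀ + (c k + z) / lam := fun k z => by ring
  have hs := fun k => C2_sheet (u := fun z => v (c k + z)) (G := G) (w₁ := w₀ + c k / lam) e0 e1 hl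
    (fun z hz => by
      obtain ⟨-, -, -, a1, a2, a3⟩ := hw _ (hw' k z hz).1 (hw' k z hz).2
      exact ⟨a1, a2.comp z ((differentiableAt_const _).add differentiableAt_id),
        by rwa [deriv_comp_const_add]⟩)
    (fun z hz => by
      rw [ad, (hw _ (hw' k z hz).1 (hw' k z hz).2).2.2.1, C2_f, ← y3 k, Complex.exp_add]
      field_simp
      ring) m m3
  choose b b1 b2 b3 D b4 b5 using hs
  have hT : ∀ k, (fun z => w₀ + c k / lam + z / lam) '' C2_W (3 * Q / 4) ⊆ Dom := by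
    rintro k _ ⟨z, hz, rfl⟩
    show w₀ + c k / lam + z / lam ∈ Dom
    rw [ad]
    exact (hw _ (hw' k z hz).1 (hw' k z hz).2).1
  obtain ⟨k, Γ, g1, g2, g3⟩ := hL.ext m b (fun _ => 1 / (2 * ‖lam‖))
    (fun k => (fun z => w₀ + c k / lam + z / lam) '' C2_W (3 * Q / 4)) (fun i j hij => by
      refine Set.disjoint_left.2 ?_
      rintro _ ⟨z, hz, rfl⟩ ⟨z', hz', e⟩
      have e1 : w₀ + c j / lam + z' / lam = w₀ + c i / lam + z / lam := e
      rw [ad, ad, add_right_inj, div_left_inj' hl] at e1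
      have e2 := congrArg Complex.im e1
      simp only [c, Complex.add_im] at e2
      have c3 := abs_le.1 hz.2.2
      have c4 := abs_le.1 hz'.2.2
      rcases lt_or_gt_of_ne (Fin.val_ne_of_ne hij) with h | h
      · have c5 : ((i : ℕ) : ℝ) + 1 ≤ (j : ℕ) := by exact_mod_cast h
        linarith [mul_le_mul_of_nonneg_left c5 Real.pi_pos.le]
      · have c5 : ((j : ℕ) : ℝ) + 1 ≤ (i : ℕ) := by exact_mod_cast h
        linarith [mul_le_mul_of_nonneg_left c5 Real.pi_pos.le]) hT (fun _ => by positivity) b1 fun k l h => hT k (b2 k l h)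
  have g4 := HPl (by positivity) g1 g2
  have z0 : (0 : ℂ) ∈ C2_W (3 * Q / 4) := ⟨by simp; linarith, by simp, by simp⟩
  obtain ⟨a1, a2, -⟩ := hw _ (hw' k 0 z0).1 (hw' k 0 z0).2
  rw [add_zero] at a1 a2
  rw [g3.deriv_eq, (b4 k).deriv, g3.self_of_nhds, b3 k] at g4
  have a3 : 0 < A := (hL.sub _ a1).trans_le a2
  have g5 : ‖D k‖ ≤ 4 * A * L * Q ^ 4 := by
    refine g4.trans ?_
    rw [div_div_eq_mul_div, div_one]
    have c1 := mul_le_mul a2 h1 hn.le a3.le
    linarith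
  have g6 := pow_le_pow_left₀ (norm_nonneg _) g5 6
  rw [mul_pow, ← pow_mul] at g6
  have g7 := b5 k
  rw [← hX] at q2
  norm_num at g6
  linarith

end Pool.Agent.Work.MP_042f46_an.Fu
end
end

-- merged part: Pool.Agent.Work.MP_042f46_an.F.C3
section
/-!
# The doubling lemma

Plans.  `Loc.affine`: transport balls, traps and orbits by `w ↦ a w + t`.  `Loc.congr`: the iterates agree near `b i` because `Dom` is open and `G` is continuous on it.
`DL`: by `Loc.affine` take `r = 1`, `re x = 0`.  `u w = G w - w`.  If `u = 0` on the ball there is nothing to prove.  Maximise `‖u (x + w)‖ exp (-κ / (4 - ‖w‖ ^ 2))` over `‖w‖ < 2` (it tends to zero at the boundary) at `w₀`, `η = 4 - ‖w₀‖ ^ 2`; in the symmetric case take `0 ≤ im w₀`.  If `‖w₀‖ ≤ 1 / 16` the claim holds with `C = exp (κ / 12)`.  Otherwise `lam = 2 κ conj w₀ / η ^ 2`, `R₁ = √(η ^ 3 / κ) / 8 ≤ η / 10`; with `s = 2 re (conj w₀ h) + ‖h‖ ^ 2`, `|s| ≤ 5 ‖h‖ ≤ η / 2`,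 `1 / (η - s) ≤ 1 / η + s / η ^ 2 + 2 s ^ 2 / η ^ 3`, so `V h = u (x + w₀ + h) exp (-lam h) / σ`, `σ = u (x + w₀)`, has norm at most `e` for `‖h‖ < R₁`.  Schwarz: `‖V h - 1‖ ≤ 4 ‖h‖ / R₁`; Cauchy: `‖V' h‖ ≤ 6 / R₁` for `‖h‖ ≤ R₁ / 2`.  `Q = ‖lam‖ R₁ / 500 = ‖w₀‖ √κ / (2000 √η) ≥ √κ / 64000`, `‖lam‖ ≤ 2 · 2000 ^ 4 · 16 ^ 3 Q ^ 4`, `v ζ = V (ζ / lam)`, windows have `‖ζ‖ ≤ 5 Q`.  Window in the upper half plane (symmetric case): `im (ζ / lam)` is a positive multiple of `re ζ im w₀ + im ζ re w₀`; if `‖w₀‖ ≤ 2 |re w₀|` take `y₀ = 3 Q` or `-4 Q` according to the sign of `re w₀`; otherwise `im w₀ ≥ 1 / 20 > R₁ / 100`.  `DL_core` with `A = B + 2`, and `κ` large.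
`refl`: `G' z = G z` above, `conj (G (conj z))` below, `g (re z)` on the axis.  Near a real point `G' = G₀`, because `conj (G₀ (conj z)) = G₀ z` near it (identity theorem, `AnalyticAt.frequently_eq_iff_eventually_eq`).
-/

open Set Metric Topology Filter MeasureTheory
open scoped ENNReal NNReal

noncomputable section
namespace Pool.Agent.Work.MP_042f46_an.Fu

open Pool.Agent.Work.MP_042f46_an.Ty

theorem Loc.affine {n : ℕ} {Dom : Set ℂ} {G : ℂ → ℂ} (h : Loc n Dom G) {a : ℝ} (ha : 0 < a)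
    (t : ℝ) : Loc n {w | (a : ℂ) * w + t ∈ Dom} fun w => (G ((a : ℂ) * w + t) - t) / a := by
  have a0 : (a : ℂ) ≠ 0 := Complex.ofReal_ne_zero.2 ha.ne'
  have e1 : ∀ z : ℂ, (a : ℂ) * ((z - t) / a) + t = z := fun z => by field_simp; ring
  have e2 : ∀ w : ℂ, ((a : ℂ) * w + t - t) / a = w := fun w => by field_simp; ring
  have hφ : Differentiable ℂ fun w : ℂ => (a : ℂ) * w + t := by fun_prop
  have na : ‖(a : ℂ)‖ = a := by rw [Complex.norm_real, Real.norm_of_nonneg ha.le]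
  have sc : Function.Semiconj (fun w : ℂ => (a : ℂ) * w + t)
      (fun w => (G ((a : ℂ) * w + t) - t) / a) G := fun w => e1 _
  refine ⟨h.isOpen.preimage hφ.continuous, fun z hz => ?_,
    ((h.diff.comp hφ.differentiableOn fun _ hz => hz).sub_const _).div_const _, ?_⟩
  · have := h.sub _ hz
    simp only [Complex.add_im, Complex.mul_im, Complex.ofReal_re, Complex.ofReal_im, zero_mul,
      add_zero] at this
    exact pos_of_mul_pos_left (mul_comm a z.im ▸ this) ha.le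
  intro m b R Tr h1 h2 h3 h4 h5
  have hb : ∀ i w, w ∈ ball (b i) (R i) ↔
      (a : ℂ) * w + t ∈ ball ((a : ℂ) * b i + t) (a * R i) := fun i w => by
    rw [mem_ball, mem_ball, dist_add_right, dist_eq_norm, dist_eq_norm, ← mul_sub, norm_mul, na,
      mul_lt_mul_iff_right₀ ha]
  obtain ⟨i, Γ, k1, k2, k3⟩ := h.ext m (fun i => (a : ℂ) * b i + t) (fun i => a * R i)
    (fun i => (fun z => (z - t) / a) ⁻¹' Tr i) (fun i j hij => (h1 hij).preimage _)
    (fun i z hz => e1 z ▸ h2 i hz) (fun i => mul_pos ha (h3 i)) (fun i w hw => by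
      obtain ⟨s, s0, s1, s2⟩ := h4 i ((w - t) / a) ((hb i _).2 (by rwa [e1]))
      refine ⟨fun l => (a : ℂ) * s l + t, by simp only [s0, e1], fun l hl => ?_, fun l hl => ?_⟩
      · show ((a : ℂ) * s l + t - t) / a ∈ Tr i
        rw [e2]
        exact s1 l hl
      · show G ((a : ℂ) * s (l + 1) + t) = (a : ℂ) * s l + t
        rw [← s2 l hl, e1]) (fun i l hl => by
      rw [← sc.iterate_right l (b i)]
      exact h5 i l hl)
  refine ⟨i, fun w => (Γ ((a : ℂ) * w + t) - t) / a,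
    ((k1.comp hφ.differentiableOn fun w hw => (hb i w).1 hw).sub_const _).div_const _,
    fun w hw => ?_, ?_⟩
  · have := k2 _ ((hb i w).1 hw)
    simp only [Complex.div_ofReal_im, Complex.sub_im, Complex.ofReal_im, sub_zero]
    exact div_pos this ha
  · filter_upwards [(hφ.continuous.tendsto (b i)).eventually k3] with w hw
    rw [hw, ← sc.iterate_right m w, e2]

theorem C3_iter {n : ℕ} {Dom : Set ℂ} {G G' : ℂ → ℂ} (h : Loc n Dom G) (e : EqOn G' G Dom) {b : ℂ}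
    (m : ℕ) (hb : ∀ l < m, G'^[l] b ∈ Dom) : ContinuousAt G^[m] b ∧ G'^[m] =ᶠ[𝓝 b] G^[m] := by
  induction m with
  | zero => exact ⟨continuousAt_id, EventuallyEq.rfl⟩
  | succ m ih =>
    obtain ⟨h1, h2⟩ := ih fun l hl => hb l (hl.trans m.lt_succ_self)
    have h3 : Dom ∈ 𝓝 (G^[m] b) := h.isOpen.mem_nhds (h2.eq_of_nhds ▸ hb m m.lt_succ_self)
    rw [Function.iterate_succ', Function.iterate_succ']
    refine ⟨(h.diff.continuousOn.continuousAt h3).comp h1, ?_⟩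
    filter_upwards [h2, h1.eventually h3] with w h4 h5
    rw [Function.comp_apply, Function.comp_apply, h4, e h5]

theorem Loc.congr {n : ℕ} {Dom : Set ℂ} {G G' : ℂ → ℂ} (h : Loc n Dom G) (e : EqOn G' G Dom) :
    Loc n Dom G' := by
  refine ⟨h.isOpen, h.sub, h.diff.congr e, fun m b R Tr h1 h2 h3 h4 h5 => ?_⟩
  obtain ⟨i, Γ, k1, k2, k3⟩ := h.ext m b R Tr h1 h2 h3 (fun i w hw => by
    obtain ⟨s, s0, s1, s2⟩ := h4 i w hw
    exact ⟨s, s0, s1, fun l hl => (e (h2 i (s1 (l + 1) (by omega)))).symm.trans (s2 l hl)⟩)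
    (fun i l hl => by
      rw [← (C3_iter h e l fun k hk => h5 i k (hk.trans hl)).2.eq_of_nhds]
      exact h5 i l hl)
  exact ⟨i, Γ, k1, k2, k3.trans (C3_iter h e m (h5 i)).2.symm⟩

theorem Loc.mono {n n' : ℕ} {Dom Dom' : Set ℂ} {G : ℂ → ℂ} (h : Loc n Dom G) (hn : n ≤ n')
    (ho : IsOpen Dom') (hs : Dom' ⊆ Dom) : Loc n' Dom' G := by
  refine ⟨ho, fun z hz => h.sub z (hs hz), h.diff.mono hs, fun m b R Tr h1 h2 h3 h4 h5 => ?_⟩
  have hc : n + 1 ≤ n' + 1 := Nat.succ_le_succ hn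
  obtain ⟨i, k⟩ := h.ext m (fun i => b (Fin.castLE hc i)) (fun i => R (Fin.castLE hc i))
    (fun i => Tr (Fin.castLE hc i)) (fun i j hij => h1 ((Fin.castLE_injective hc).ne hij))
    (fun i => (h2 _).trans hs) (fun i => h3 _) (fun i => h4 _) fun i l hl => hs (h5 _ l hl)
  exact ⟨_, k⟩

theorem C3_ineq {η κ a t : ℝ} (h0 : 0 < η) (h4 : η ≤ 4) (hκ : 7 ≤ κ) (ht : 0 ≤ t)
    (ha : |a| ≤ 2 * t) (h : 64 * κ * t ^ 2 ≤ η ^ 3) :
    t ≤ η / 10 ∧ 2 * a + t ^ 2 ≤ η / 2 ∧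
      κ / (η - (2 * a + t ^ 2)) ≤ κ / η + 2 * κ / η ^ 2 * a + 1 := by
  have h2 : η ^ 3 ≤ 4 * η ^ 2 := by nlinarith [sq_nonneg η]
  have h1 : t ≤ η / 10 := le_of_sq_le_sq (by nlinarith [sq_nonneg t, sq_nonneg η]) (by positivity)
  obtain ⟨a1, a2⟩ := abs_le.1 ha
  have h3 : t ^ 2 ≤ t := by nlinarith
  obtain ⟨s, hs⟩ : ∃ s, s = 2 * a + t ^ 2 := ⟨_, rfl⟩
  have s1 : s ≤ 5 * t := by linarith
  have s2 : -(5 * t) ≤ s := by nlinarith [sq_nonneg t]
  have s3 : s ^ 2 ≤ (5 * t) ^ 2 := sq_le_sq' s2 s1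
  have s4 : s ≤ η / 2 := by linarith
  refine ⟨h1, hs ▸ s4, ?_⟩
  have k1 : 1 / (η - s) ≤ (η ^ 2 + s * η + 2 * s ^ 2) / η ^ 3 := by
    rw [div_le_div_iff₀ (by linarith) (by positivity)]
    nlinarith [mul_nonneg (sq_nonneg s) (show 0 ≤ η - 2 * s by linarith)]
  have k2 : κ * ((η ^ 2 + s * η + 2 * s ^ 2) / η ^ 3) =
      κ / η + 2 * κ / η ^ 2 * a + (κ * t ^ 2 / η ^ 2 + 2 * κ * s ^ 2 / η ^ 3) := by
    rw [hs]
    field_simp
    ring
  have k3 : κ * t ^ 2 / η ^ 2 ≤ 1 / 16 := by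
    rw [div_le_iff₀ (by positivity)]
    linarith
  have k4 : 2 * κ * s ^ 2 / η ^ 3 ≤ 50 / 64 := by
    rw [div_le_iff₀ (by positivity)]
    nlinarith [mul_le_mul_of_nonneg_left s3 (show 0 ≤ κ by linarith)]
  have k5 := mul_le_mul_of_nonneg_left k1 (show 0 ≤ κ by linarith)
  rw [← hs, div_eq_mul_one_div]
  linarith

theorem C3_sq (w h : ℂ) :
    ‖w + h‖ ^ 2 = ‖w‖ ^ 2 + (2 * (starRingEnd ℂ w * h).re + ‖h‖ ^ 2) := by
  simp only [Complex.sq_norm, Complex.normSq_apply, Complex.add_re, Complex.add_im, Complex.mul_re,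
    Complex.conj_re, Complex.conj_im]
  ring

theorem C3_schwarz {v : ℂ → ℂ} {Q : ℝ} (hQ : 1 ≤ Q) (h0 : v 0 = 1)
    (h : ∀ ζ, ‖ζ‖ ≤ 500 * Q → DifferentiableAt ℂ v ζ ∧ ‖v ζ‖ ≤ 3) {ζ : ℂ} (hζ : ‖ζ‖ ≤ 5 * Q) :
    ‖v ζ - 1‖ ≤ 1 / 20 ∧ ‖deriv v ζ‖ ≤ 1 / 20 := by
  constructor
  · have := Complex.dist_le_div_mul_dist_of_mapsTo_ball (f := v) (c := 0) (R₁ := 500 * Q) (R₂ := 4)
      (z := ζ) (fun z hz => (h z (mem_ball_zero_iff.1 hz).le).1.differentiableWithinAt)
      (fun z hz => by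
        rw [mem_closedBall, h0, dist_eq_norm]
        have := norm_sub_le (v z) 1
        rw [norm_one] at this
        linarith [(h z (mem_ball_zero_iff.1 hz).le).2]) (mem_ball_zero_iff.2 (by linarith))
    rw [h0, dist_eq_norm, dist_zero_right] at this
    refine this.trans ?_
    rw [div_mul_eq_mul_div, div_le_iff₀ (by positivity)]
    linarith
  · have hb : ∀ z ∈ ball ζ (250 * Q), ‖z‖ ≤ 500 * Q := fun z hz => by
      have := norm_le_norm_add_norm_sub' z ζ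
      rw [mem_ball, dist_eq_norm] at hz
      linarith
    refine (Complex.norm_deriv_le_div_of_mapsTo_ball (f := v) (c := ζ) (R₁ := 250 * Q) (R₂ := 6)
      (fun z hz => (h z (hb z hz)).1.differentiableWithinAt) (fun z hz => ?_)
      (by positivity)).trans ?_
    · rw [mem_closedBall, dist_eq_norm]
      linarith [norm_sub_le (v z) (v ζ), (h z (hb z hz)).2, (h ζ (by linarith)).2]
    · rw [div_le_iff₀ (by positivity)]
      linarith

theorem C3_far (n : ℕ) (B : ℝ) : ∃ κ : ℝ, 7 ≤ κ ∧ ∀ (Dom : Set ℂ) (G : ℂ → ℂ) (x w₀ : ℂ),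
    Loc n Dom G → DifferentiableOn ℂ G (ball x 2) → (∀ w ∈ ball x 2, 0 < w.im → w ∈ Dom) →
    (∀ w ∈ ball x 2, ‖G w - w‖ ≤ B) → x.im ≤ B → (2 ≤ x.im ∨ x.im = 0 ∧ 0 ≤ w₀.im) → ‖w₀‖ < 2 →
    1 / 16 < ‖w₀‖ → G (x + w₀) - (x + w₀) ≠ 0 →
    (∀ w, ‖w‖ < 2 → ‖G (x + w) - (x + w)‖ * Real.exp (-(κ / (4 - ‖w‖ ^ 2))) ≤
      ‖G (x + w₀) - (x + w₀)‖ * Real.exp (-(κ / (4 - ‖w₀‖ ^ 2)))) → False := by
  obtain ⟨Q₀, hQ₀⟩ := DL_core n (B + 2) B (32 * 10 ^ 12 * 4096)
  obtain ⟨κ, hκ⟩ : ∃ κ, κ = (64000 * (|Q₀| + 1)) ^ 2 := ⟨_, rfl⟩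
  have q0 := abs_nonneg Q₀
  have κ7 : 7 ≤ κ := by rw [hκ]; nlinarith
  refine ⟨κ, κ7, fun Dom G x w₀ hL hd hD hB hx hs h2 h16 hσ hm => ?_⟩
  have mb : ∀ w : ℂ, ‖w‖ < 2 → x + w ∈ ball x 2 := fun w hw => by
    rwa [mem_ball, dist_self_add_left]
  obtain ⟨σ, eσ⟩ : ∃ σ, σ = G (x + w₀) - (x + w₀) := ⟨_, rfl⟩
  rw [← eσ] at hσ hm
  obtain ⟨ρ, eρ⟩ : ∃ ρ, ρ = ‖w₀‖ := ⟨_, rfl⟩
  obtain ⟨η, eη⟩ : ∃ η, η = 4 - ρ ^ 2 := ⟨_, rfl⟩
  rw [← eρ] at h16 hm
  rw [← eη] at hm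
  have ρ0 : 0 < ρ := by linarith
  have ρ2 : ρ < 2 := eρ ▸ h2
  have η0 : 0 < η := by nlinarith
  have η4 : η ≤ 4 := by nlinarith
  have κ0 : 0 < κ := by linarith
  obtain ⟨k, ek⟩ : ∃ k, k = 2 * κ / η ^ 2 := ⟨_, rfl⟩
  have k0 : 0 < k := by rw [ek]; positivity
  have e1 : k * η ^ 2 = 2 * κ := by rw [ek]; field_simp
  obtain ⟨lam, el⟩ : ∃ lam : ℂ, lam = k * starRingEnd ℂ w₀ := ⟨_, rfl⟩
  have nl : ‖lam‖ = k * ρ := by
    rw [el, norm_mul, Complex.norm_real, Real.norm_of_nonneg k0.le, RCLike.norm_conj, eρ]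
  have l0 : lam ≠ 0 := norm_pos_iff.1 (by rw [nl]; positivity)
  obtain ⟨Q, eQ⟩ : ∃ Q, Q = √(κ * ρ ^ 2 / (4000000 * η)) := ⟨_, rfl⟩
  have Q0 : 0 ≤ Q := eQ ▸ Real.sqrt_nonneg _
  have e2 : Q ^ 2 * (4000000 * η) = κ * ρ ^ 2 := by
    rw [eQ, Real.sq_sqrt (by positivity)]
    field_simp
  have r2 : 1 / 256 ≤ ρ ^ 2 := by nlinarith
  have Q1 : |Q₀| + 1 ≤ Q := by
    refine le_of_sq_le_sq ?_ Q0
    have a1 := mul_le_mul_of_nonneg_left r2 κ0.le
    have a2 := mul_le_mul_of_nonneg_left η4 (sq_nonneg Q)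
    rw [mul_pow] at hκ
    linarith
  have Q2 : 1 ≤ Q := by linarith
  have e3 : ∀ t : ℝ, 0 ≤ t → k * ρ * t ≤ 500 * Q → 64 * κ * t ^ 2 ≤ η ^ 3 := fun t t0 ht => by
    have a1 : (k * ρ * t) ^ 2 ≤ (500 * Q) ^ 2 := pow_le_pow_left₀ (by positivity) ht 2
    refine le_of_mul_le_mul_left (a := κ * ρ ^ 2 * η) ?_ (by positivity)
    calc κ * ρ ^ 2 * η * (64 * κ * t ^ 2) = 16 * η * ρ ^ 2 * t ^ 2 * (2 * κ) ^ 2 := by ring
      _ = (k * ρ * t) ^ 2 * (16 * η ^ 5) := by rw [← e1]; ring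
      _ ≤ (500 * Q) ^ 2 * (16 * η ^ 5) := mul_le_mul_of_nonneg_right a1 (by positivity)
      _ = Q ^ 2 * (4000000 * η) * η ^ 4 := by ring
      _ = _ := by rw [e2]; ring
  have nz : ∀ ζ : ℂ, k * ρ * ‖ζ / lam‖ = ‖ζ‖ := fun ζ => by
    rw [← nl, ← norm_mul, mul_div_cancel₀ _ l0]
  let v : ℂ → ℂ := fun ζ =>
    (G (x + (w₀ + ζ / lam)) - (x + (w₀ + ζ / lam))) * Complex.exp (-ζ) / σ
  have σ0 : 0 < ‖σ‖ := norm_pos_iff.2 hσ
  have key : ∀ ζ : ℂ, ‖ζ‖ ≤ 500 * Q → ‖w₀ + ζ / lam‖ < 2 ∧ ‖v ζ‖ ≤ 3 := fun ζ hζ => by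
    have a1 : |(starRingEnd ℂ w₀ * (ζ / lam)).re| ≤ 2 * ‖ζ / lam‖ := by
      refine (Complex.abs_re_le_norm _).trans ?_
      rw [norm_mul, RCLike.norm_conj]
      exact mul_le_mul_of_nonneg_right h2.le (norm_nonneg _)
    obtain ⟨-, a3, a4⟩ := C3_ineq η0 η4 κ7 (norm_nonneg _) a1 (e3 _ (norm_nonneg _) (by rwa [nz]))
    have a5 := C3_sq w₀ (ζ / lam)
    have a6 : k * (starRingEnd ℂ w₀ * (ζ / lam)).re = ζ.re := by
      rw [← Complex.re_ofReal_mul, ← mul_assoc, ← el, mul_div_cancel₀ _ l0]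
    rw [← eρ] at a5
    rw [← ek, a6] at a4
    have a7 : ‖w₀ + ζ / lam‖ < 2 := lt_of_pow_lt_pow_left₀ 2 zero_le_two (by linarith)
    refine ⟨a7, ?_⟩
    have a8 := hm _ a7
    rw [show 4 - ‖w₀ + ζ / lam‖ ^ 2 =
      η - (2 * (starRingEnd ℂ w₀ * (ζ / lam)).re + ‖ζ / lam‖ ^ 2) by linarith] at a8
    generalize κ / (η - (2 * (starRingEnd ℂ w₀ * (ζ / lam)).re + ‖ζ / lam‖ ^ 2)) = y at a4 a8
    have a9 : Real.exp (-ζ.re) ≤ Real.exp (-y) * (Real.exp (κ / η) * Real.exp 1) := by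
      rw [← Real.exp_add, ← Real.exp_add]
      exact Real.exp_le_exp.2 (by linarith)
    simp only [v]
    rw [norm_div, norm_mul, Complex.norm_exp, Complex.neg_re, div_le_iff₀ σ0]
    calc _ ≤ ‖G (x + (w₀ + ζ / lam)) - (x + (w₀ + ζ / lam))‖ *
          (Real.exp (-y) * (Real.exp (κ / η) * Real.exp 1)) :=
          mul_le_mul_of_nonneg_left a9 (norm_nonneg _)
      _ ≤ ‖σ‖ * Real.exp (-(κ / η)) * (Real.exp (κ / η) * Real.exp 1) := by
          rw [← mul_assoc]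
          exact mul_le_mul_of_nonneg_right a8 (by positivity)
      _ = Real.exp 1 * ‖σ‖ := by
          rw [mul_assoc, ← mul_assoc (Real.exp _), ← Real.exp_add, neg_add_cancel, Real.exp_zero,
            one_mul, mul_comm]
      _ ≤ 3 * ‖σ‖ := mul_le_mul_of_nonneg_right (by linarith [Real.exp_one_lt_d9]) σ0.le
  have dv : ∀ ζ : ℂ, ‖ζ‖ ≤ 500 * Q → DifferentiableAt ℂ v ζ := fun ζ hζ => by
    have a1 : DifferentiableAt ℂ (fun ζ => G (x + (w₀ + ζ / lam))) ζ :=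
      (hd.differentiableAt (isOpen_ball.mem_nhds (mb _ (key ζ hζ).1))).comp ζ
        (f := fun ζ => x + (w₀ + ζ / lam)) (by fun_prop)
    exact ((a1.sub (by fun_prop)).mul (by fun_prop)).div_const _
  have v0 : v 0 = 1 := by
    simp only [v, zero_div, add_zero, neg_zero, Complex.exp_zero, mul_one, ← eσ, div_self hσ]
  have sm : ∀ ζ : ℂ, ‖ζ‖ ≤ 5 * Q → ‖ζ / lam‖ ≤ 4 / 1000 := fun ζ hζ => by
    have a0 := norm_nonneg (ζ / lam)
    have a1 := (C3_ineq (a := 0) η0 η4 κ7 (t := 100 * ‖ζ / lam‖) (by positivity)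
      (by rw [abs_zero]; positivity) (e3 _ (by positivity) (by linarith [nz ζ]))).1
    linarith
  have im : ∀ ζ : ℂ, 0 < ζ.re * w₀.im + ζ.im * w₀.re → 0 < (ζ / lam).im := fun ζ hζ => by
    have a1 : ζ / lam = (ζ * w₀) / ((k * ρ ^ 2 : ℝ) : ℂ) := by
      have a2 : w₀ ≠ 0 := norm_pos_iff.1 (eρ ▸ ρ0)
      rw [← mul_div_mul_right ζ lam a2, el, mul_assoc, Complex.conj_mul', eρ]
      push_cast
      rfl
    rw [a1, Complex.div_ofReal_im, Complex.mul_im]
    exact div_pos hζ (by positivity)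
  obtain ⟨y₀, hy₀, hy⟩ : ∃ y₀ : ℝ, (-(2 * Q) ≤ y₀ ∧ y₀ ≤ Q) ∧ ∀ ζ : ℂ, ζ.re ∈ Icc (-Q) 0 →
      ζ.im ∈ Icc y₀ (y₀ + Q) → ‖ζ‖ ≤ 5 * Q → 0 < (x + (w₀ + ζ / lam)).im := by
    rcases hs with hs | ⟨hs, hs'⟩
    · refine ⟨0, ⟨by linarith, Q0⟩, fun ζ _ _ a3 => ?_⟩
      have a4 := (abs_le.1 (Complex.abs_im_le_norm (w₀ + ζ / lam))).1
      have a5 := (key ζ (by linarith)).1
      rw [Complex.add_im]
      linarith
    rcases le_or_gt (1 / 100) w₀.im with c | c
    · refine ⟨0, ⟨by linarith, Q0⟩, fun ζ _ _ a3 => ?_⟩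
      have a4 := (abs_le.1 (Complex.abs_im_le_norm (ζ / lam))).1
      have a5 := sm ζ a3
      rw [Complex.add_im, Complex.add_im]
      linarith
    have b1 := Complex.norm_le_abs_re_add_abs_im w₀
    rw [← eρ, abs_of_nonneg hs'] at b1
    rcases le_total 0 w₀.re with d | d
    · rw [abs_of_nonneg d] at b1
      refine ⟨Q, ⟨by linarith, le_rfl⟩, fun ζ a1 a2 _ => ?_⟩
      have := im ζ (by
        nlinarith [mul_le_mul_of_nonneg_right a1.1 hs', mul_le_mul_of_nonneg_right a2.1 d])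
      rw [Complex.add_im, Complex.add_im]
      linarith
    · rw [abs_of_nonpos d] at b1
      refine ⟨-(2 * Q), ⟨le_rfl, by linarith⟩, fun ζ a1 a2 _ => ?_⟩
      have := im ζ (by
        nlinarith [mul_le_mul_of_nonneg_right a1.1 hs', mul_le_mul_of_nonpos_right a2.2 d])
      rw [Complex.add_im, Complex.add_im]
      linarith
  refine hQ₀ Q Dom G v (x + w₀) lam σ y₀ (by linarith [le_abs_self Q₀]) hL l0 hσ ?_
    (eσ ▸ hB _ (mb _ h2)) fun ζ a1 a2 => ?_
  · rw [nl]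
    refine le_of_mul_le_mul_right (a := (4000000 * η) ^ 2) ?_ (by positivity)
    have a1 : 1 / 4096 ≤ κ * ρ ^ 3 := by
      have : (1 / 16) ^ 3 ≤ ρ ^ 3 := pow_le_pow_left₀ (by norm_num) h16.le 3
      nlinarith
    calc k * ρ * (4000000 * η) ^ 2 = 16 * 10 ^ 12 * ρ * (k * η ^ 2) := by ring
      _ = 32 * 10 ^ 12 * 4096 * (κ * ρ) * (1 / 4096) := by rw [e1]; ring
      _ ≤ 32 * 10 ^ 12 * 4096 * (κ * ρ) * (κ * ρ ^ 3) :=
          mul_le_mul_of_nonneg_left a1 (by positivity)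
      _ = 32 * 10 ^ 12 * 4096 * (κ * ρ ^ 2) ^ 2 := by ring
      _ = _ := by rw [← e2]; ring
  · have a3 : ‖ζ‖ ≤ 5 * Q := by
      have b1 := Complex.norm_le_abs_re_add_abs_im ζ
      have b2 : |ζ.re| ≤ Q := abs_le.2 ⟨a1.1, by linarith [a1.2]⟩
      have b3 : |ζ.im| ≤ 2 * Q := abs_le.2 ⟨by linarith [a2.1], by linarith [a2.2]⟩
      linarith
    have a4 := (key ζ (by linarith)).1
    have a5 := C3_schwarz Q2 v0 (fun ζ h => ⟨dv ζ h, (key ζ h).2⟩) a3
    rw [add_assoc]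
    refine ⟨hD _ (mb _ a4) (hy ζ a1 a2 a3), ?_, ?_, a5.1, dv ζ (by linarith), a5.2⟩
    · have := (abs_le.1 (Complex.abs_im_le_norm (w₀ + ζ / lam))).2
      rw [Complex.add_im]
      linarith
    · simp only [v]
      rw [Complex.exp_neg]
      have := Complex.exp_ne_zero ζ
      field_simp
      ring

theorem C3_core (n : ℕ) (B : ℝ) : ∃ C : ℝ, 1 ≤ C ∧ ∀ (Dom : Set ℂ) (G : ℂ → ℂ) (x : ℂ),
    Loc n Dom G → DifferentiableOn ℂ G (ball x 2) → (∀ w ∈ ball x 2, 0 < w.im → w ∈ Dom) →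
    (∀ w ∈ ball x 2, ‖G w - w‖ ≤ B) → x.im ≤ B → (2 ≤ x.im ∨ x.im = 0 ∧ ∀ w ∈ ball x 2,
      G (starRingEnd ℂ w) = starRingEnd ℂ (G w)) →
    ∀ z ∈ closedBall x 1, ∃ z' ∈ closedBall x (1 / 16), ‖G z - z‖ ≤ C * ‖G z' - z'‖ := by
  obtain ⟨κ, κ7, h⟩ := C3_far n B
  have κ0 : 0 < κ := by linarith
  refine ⟨Real.exp (κ / 3), Real.one_le_exp (by positivity), fun Dom G x hL hd hD hB hx hs z hz => ?_⟩
  have mb : ∀ w : ℂ, ‖w‖ < 2 → x + w ∈ ball x 2 := fun w hw => by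
    rwa [mem_ball, dist_self_add_left]
  by_cases hz0 : G z - z = 0
  · exact ⟨x, mem_closedBall_self (by norm_num), by rw [hz0, norm_zero]; positivity⟩
  obtain ⟨w₁, rfl⟩ : ∃ w₁, z = x + w₁ := ⟨z - x, by ring⟩
  rw [mem_closedBall, dist_self_add_left] at hz
  let F : ℂ → ℝ := fun w => ‖G (x + w) - (x + w)‖ * Real.exp (-(κ / (4 - ‖w‖ ^ 2)))
  have F0 : 0 < F w₁ := mul_pos (norm_pos_iff.2 hz0) (Real.exp_pos _)
  have B0 : 0 < B := (norm_pos_iff.2 hz0).trans_le (hB _ (mb _ (by linarith)))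
  obtain ⟨δ, δ0, δ1, δ2⟩ : ∃ δ : ℝ, 0 < δ ∧ δ ≤ 1 ∧ δ * (4 * B) ≤ F w₁ * κ :=
    ⟨min 1 (F w₁ * κ / (4 * B)), by positivity, min_le_left _ _,
      (le_div_iff₀ (by positivity)).1 (min_le_right _ _)⟩
  have p4 : ∀ w : ℂ, ‖w‖ < 2 → 0 < 4 - ‖w‖ ^ 2 := fun w hw => by nlinarith [norm_nonneg w]
  have hc : ContinuousOn F (closedBall 0 (2 - δ)) := by
    have a1 : ∀ w ∈ closedBall (0 : ℂ) (2 - δ), ‖w‖ < 2 := fun w hw => by
      linarith [mem_closedBall_zero_iff.1 hw]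
    refine (((hd.continuousOn.comp (f := fun w => x + w) (by fun_prop) fun w hw =>
      mb w (a1 w hw)).sub (by fun_prop)).norm).mul (Real.continuous_exp.comp_continuousOn
        (continuousOn_const.div (by fun_prop) fun w hw => (p4 w (a1 w hw)).ne').neg)
  have m1 : w₁ ∈ closedBall (0 : ℂ) (2 - δ) := mem_closedBall_zero_iff.2 (by linarith)
  obtain ⟨w, hw, hm⟩ := (isCompact_closedBall 0 (2 - δ)).exists_isMaxOn ⟨w₁, m1⟩ hc
  have w2 : ‖w‖ < 2 := by linarith [mem_closedBall_zero_iff.1 hw]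
  have hm' : ∀ w', ‖w'‖ < 2 → F w' ≤ F w := fun w' hw' => by
    rcases le_or_gt ‖w'‖ (2 - δ) with c | c
    · exact hm (mem_closedBall_zero_iff.2 c)
    refine le_trans ?_ (hm m1)
    have a1 := p4 w' hw'
    have a2 : 4 - ‖w'‖ ^ 2 ≤ 4 * δ := by nlinarith
    have a3 : Real.exp (-(κ / (4 - ‖w'‖ ^ 2))) ≤ (4 - ‖w'‖ ^ 2) / κ := by
      rw [Real.exp_neg, ← inv_div κ]
      exact inv_anti₀ (by positivity) (by linarith [Real.add_one_le_exp (κ / (4 - ‖w'‖ ^ 2))])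
    refine (mul_le_mul (hB _ (mb _ hw')) a3 (Real.exp_pos _).le B0.le).trans ?_
    rw [← mul_div_assoc, div_le_iff₀ κ0]
    nlinarith
  obtain ⟨w₀, a1, a2, a3⟩ : ∃ w₀ : ℂ, ‖w₀‖ < 2 ∧ F w₀ = F w ∧
      (2 ≤ x.im ∨ x.im = 0 ∧ 0 ≤ w₀.im) := by
    rcases hs with hs | ⟨hs, hs'⟩
    · exact ⟨w, w2, rfl, Or.inl hs⟩
    rcases le_total 0 w.im with c | c
    · exact ⟨w, w2, rfl, Or.inr ⟨hs, c⟩⟩
    refine ⟨starRingEnd ℂ w, by rwa [RCLike.norm_conj], ?_,
      Or.inr ⟨hs, by rw [Complex.conj_im]; linarith⟩⟩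
    have e : x + starRingEnd ℂ w = starRingEnd ℂ (x + w) := by
      rw [map_add, Complex.conj_eq_iff_im.2 hs]
    simp only [F]
    rw [e, hs' _ (mb _ w2), ← map_sub, RCLike.norm_conj, RCLike.norm_conj]
  rw [← a2] at hm'
  have a4 := hm' w₁ (by linarith)
  rcases le_or_gt ‖w₀‖ (1 / 16) with c | c
  · refine ⟨x + w₀, by rwa [mem_closedBall, dist_self_add_left], ?_⟩
    have b1 : F w₀ ≤ ‖G (x + w₀) - (x + w₀)‖ := mul_le_of_le_one_right (norm_nonneg _)
      (Real.exp_le_one_iff.2 (neg_nonpos.2 (div_pos κ0 (p4 _ a1)).le))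
    have b2 : 1 ≤ Real.exp (-(κ / (4 - ‖w₁‖ ^ 2))) * Real.exp (κ / 3) := by
      rw [← Real.exp_add]
      have : κ / (4 - ‖w₁‖ ^ 2) ≤ κ / 3 :=
        div_le_div_of_nonneg_left κ0.le (by norm_num) (by nlinarith [norm_nonneg w₁])
      exact Real.one_le_exp (by linarith)
    calc _ ≤ F w₁ * Real.exp (κ / 3) := by
          simp only [F]
          rw [mul_assoc]
          exact le_mul_of_one_le_right (norm_nonneg _) b2
      _ ≤ _ := by
          rw [mul_comm]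
          exact mul_le_mul_of_nonneg_left (a4.trans b1) (Real.exp_pos _).le
  · refine (h Dom G x w₀ hL hd hD hB hx a3 a1 c (fun e => ?_) hm').elim
    have : F w₀ = 0 := by simp only [F, e, norm_zero, zero_mul]
    linarith

theorem DL (n : ℕ) (B : ℝ) : ∃ C : ℝ, 1 ≤ C ∧ ∀ (Dom : Set ℂ) (G : ℂ → ℂ) (x : ℂ) (r : ℝ), 0 < r →
    Loc n Dom G → DifferentiableOn ℂ G (ball x (2 * r)) →
    (∀ w ∈ ball x (2 * r), 0 < w.im → w ∈ Dom) → (∀ w ∈ ball x (2 * r), ‖G w - w‖ ≤ B * r) →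
    x.im ≤ B * r → (2 * r ≤ x.im ∨ x.im = 0 ∧ ∀ w ∈ ball x (2 * r),
      G (starRingEnd ℂ w) = starRingEnd ℂ (G w)) →
    Mx (fun w => G w - w) x r ≤ C * Mx (fun w => G w - w) x (r / 16) := by
  obtain ⟨C, hC, h⟩ := C3_core n B
  refine ⟨C, hC, fun Dom G x r hr hL hd hD hB hx hs => ?_⟩
  have r0 : (r : ℂ) ≠ 0 := Complex.ofReal_ne_zero.2 hr.ne'
  have nr : ‖(r : ℂ)‖ = r := by rw [Complex.norm_real, Real.norm_of_nonneg hr.le]
  have e1 : ∀ z : ℂ, (r : ℂ) * (z / r) = z := fun z => mul_div_cancel₀ z r0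
  have ed : ∀ w : ℂ, dist ((r : ℂ) * w) x = r * dist w (x / r) := fun w => by
    rw [dist_eq_norm, dist_eq_norm, ← nr, ← norm_mul, nr, mul_sub, e1]
  have hb : ∀ w ∈ ball (x / r) 2, (r : ℂ) * w ∈ ball x (2 * r) := fun w hw => by
    rw [mem_ball, ed, mul_comm]
    exact mul_lt_mul_of_pos_right hw hr
  have en : ∀ w : ℂ, ‖G (r * w) / r - w‖ = ‖G (r * w) - r * w‖ / r := fun w => by
    rw [← nr, ← norm_div, nr, sub_div, mul_div_cancel_left₀ _ r0]
  have hL' := hL.affine hr 0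
  simp only [Complex.ofReal_zero, add_zero, sub_zero] at hL'
  have hc : ∀ ρ, ρ < 2 * r → ContinuousOn (fun w => G w - w) (closedBall x ρ) := fun ρ hρ =>
    (hd.continuousOn.mono (closedBall_subset_ball hρ)).sub continuousOn_id
  obtain ⟨z, hz, ez⟩ := Mx_att (hc r (by linarith)) hr.le
  obtain ⟨z', hz', k⟩ := h _ _ (x / r) hL'
    ((hd.comp (f := fun w => (r : ℂ) * w) (by fun_prop) hb).div_const _)
    (fun w hw h0 => hD _ (hb w hw) (by simpa using mul_pos hr h0))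
    (fun w hw => by
      rw [en, div_le_iff₀ hr]
      exact hB _ (hb w hw))
    (by rwa [Complex.div_ofReal_im, div_le_iff₀ hr])
    (by
      rw [Complex.div_ofReal_im, le_div_iff₀ hr]
      refine hs.imp_right fun h1 => ⟨by rw [h1.1, zero_div], fun w hw => ?_⟩
      have := h1.2 _ (hb w hw)
      rw [map_mul, Complex.conj_ofReal] at this
      simp only [this, map_div₀, Complex.conj_ofReal]) (z / r) (by
      have := ed (z / r)
      rw [e1] at this
      rw [mem_closedBall] at hz ⊢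
      exact le_of_mul_le_mul_left (by linarith) hr)
  rw [en, en, e1, ← mul_div_assoc, div_le_div_iff_of_pos_right hr] at k
  have k2 := le_Mx (hc (r / 16) (by linarith)) (z := r * z') (by
    rw [mem_closedBall] at hz' ⊢
    rw [ed]
    nlinarith)
  rw [ez]
  exact k.trans (mul_le_mul_of_nonneg_left k2 (by linarith))

theorem refl {n : ℕ} {O : Set ℂ} (hO : IsOpen O) (hs : ∀ z ∈ O, starRingEnd ℂ z ∈ O) {G : ℂ → ℂ}
    {g : ℝ → ℝ} (hL : Loc n (O ∩ {z | 0 < z.im}) G) (hu : ∀ z ∈ O, 0 < z.im → 0 < (G z).im)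
    (hr : ∀ x : ℝ, (x : ℂ) ∈ O → ∃ G₀ : ℂ → ℂ, AnalyticAt ℂ G₀ x ∧
      G =ᶠ[𝓝[{z | 0 < z.im}] (x : ℂ)] G₀ ∧ ∀ᶠ y : ℝ in 𝓝 x, G₀ y = g y) :
    ∃ G', Br n O G' g := by
  let G' : ℂ → ℂ := fun z => if 0 < z.im then G z else
    if z.im < 0 then starRingEnd ℂ (G (starRingEnd ℂ z)) else g z.re
  have up : ∀ z : ℂ, 0 < z.im → G' z = G z := fun z hz => if_pos hz
  have dn : ∀ z : ℂ, z.im < 0 → G' z = starRingEnd ℂ (G (starRingEnd ℂ z)) := fun z hz =>
    (if_neg hz.not_gt).trans (if_pos hz)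
  have md : ∀ z : ℂ, z.im = 0 → G' z = g z.re := fun z hz =>
    (if_neg hz.not_gt).trans (if_neg hz.not_lt)
  have dG : ∀ z ∈ O, 0 < z.im → DifferentiableAt ℂ G z := fun z h1 h2 =>
    hL.diff.differentiableAt (hL.isOpen.mem_nhds ⟨h1, h2⟩)
  refine ⟨G', fun z hz => DifferentiableAt.differentiableWithinAt ?_, fun z _ => ?_,
    fun x _ => md x (Complex.ofReal_im x), fun z h1 h2 => up z h2 ▸ hu z h1 h2,
    hL.congr fun z hz => up z hz.2⟩
  · rcases lt_trichotomy z.im 0 with c | c | c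
    · refine (differentiableAt_conj_conj_iff.2
        (dG _ (hs z hz) (by rw [Complex.conj_im]; linarith))).congr_of_eventuallyEq ?_
      filter_upwards [(isOpen_lt Complex.continuous_im continuous_const).mem_nhds c] with w hw
      exact dn w hw
    · obtain ⟨x, rfl⟩ : ∃ x : ℝ, z = x := ⟨z.re, Complex.ext rfl c⟩
      obtain ⟨G₀, a1, a2, a3⟩ := hr x hz
      have tc : Tendsto (starRingEnd ℂ) (𝓝 (x : ℂ)) (𝓝 (x : ℂ)) := by
        have := Complex.continuous_conj.tendsto (x : ℂ)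
        rwa [Complex.conj_ofReal] at this
      have b1 : AnalyticAt ℂ (starRingEnd ℂ ∘ G₀ ∘ starRingEnd ℂ) x := by
        refine Complex.analyticAt_iff_eventually_differentiableAt.2 ?_
        filter_upwards [tc.eventually a1.eventually_analyticAt] with w hw
        exact differentiableAt_conj_conj_iff.2 hw.differentiableAt
      have b2 : Tendsto ((↑) : ℝ → ℂ) (𝓝[≠] x) (𝓝[≠] (x : ℂ)) :=
        tendsto_nhdsWithin_iff.2 ⟨(Complex.continuous_ofReal.tendsto x).mono_left nhdsWithin_le_nhds,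
          eventually_nhdsWithin_of_forall fun y hy e => hy (Complex.ofReal_injective e)⟩
      have b3 := (b1.frequently_eq_iff_eventually_eq a1).1 (b2.frequently (Eventually.frequently (by
        filter_upwards [a3.filter_mono nhdsWithin_le_nhds] with y hy
        rw [Function.comp_apply, Function.comp_apply, Complex.conj_ofReal, hy,
          Complex.conj_ofReal])))
      have b4 := eventually_nhdsWithin_iff.1 a2
      refine a1.differentiableAt.congr_of_eventuallyEq ?_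
      filter_upwards [b3, b4, tc.eventually b4,
        (Complex.continuous_re.tendsto (x : ℂ)).eventually a3] with w c1 c2 c3 c4
      rcases lt_trichotomy w.im 0 with d | d | d
      · rw [dn w d, c3 (show 0 < (starRingEnd ℂ w).im by rw [Complex.conj_im]; linarith)]
        exact c1
      · rw [md w d, ← c4, show (w.re : ℂ) = w from Complex.ext rfl d.symm]
      · rw [up w d, c2 d]
    · refine (dG z hz c).congr_of_eventuallyEq ?_
      filter_upwards [(isOpen_lt continuous_const Complex.continuous_im).mem_nhds c] with w hw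
      exact up w hw
  · rcases lt_trichotomy z.im 0 with c | c | c
    · rw [dn z c, up _ (by rw [Complex.conj_im]; linarith), Complex.conj_conj]
    · rw [md z c, md _ (by rw [Complex.conj_im, c, neg_zero]), Complex.conj_re, Complex.conj_ofReal]
    · rw [up z c, dn _ (by rw [Complex.conj_im]; linarith), Complex.conj_conj]

end Pool.Agent.Work.MP_042f46_an.Fu
end
end

-- merged part: Pool.Agent.Work.MP_042f46_an.F.C4
section
/-!
# Factorisation over a lens

Plans.  `fac`: `M = Mx u x s > 0`.  The zeros of `u` in `closedBall x (5 s)` are finite; divide them out one at a time (`dslope`): by induction, for every `k` either there are `k` points `ζ j` in that ball (with repetition) and a holomorphic `f` with `u = f ∏ (w - ζ j)`, or such a factorisation with fewer points and `f` without zero in the ball.  For `k` points: `‖f‖ ≤ C M / (10 s) ^ k` on the sphere of radius `15 s`, hence inside, and `‖f‖ ≥ M / (6 s) ^ k`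 where `M` is attained; so `(5 / 3) ^ k ≤ C`.  To get conjugate pairs divide by `(w - ζ) (w - conj ζ)` at each step (`ζ` is not real, and `f` stays symmetric without real zero).  `nz` for `f` on `ball x (5 s)`.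
`lens_fac`: `G - (x - ρ)` (for `ε = 1`) or `(x + ρ) - G` (for `ε = -1`) has values in the slit plane; `slit` gives `‖G w - w‖ ≤ (2 exp 8 + 2) ρ` on `ball x (ρ / 2)`; `DL` with `r = ρ / 4`; `fac` with `s = ρ / 64`; Cauchy estimate for the last bound.
-/

open Set Metric Topology Filter MeasureTheory
open scoped ENNReal NNReal

noncomputable section
namespace Pool.Agent.Work.MP_042f46_an.Fu

open Pool.Agent.Work.MP_042f46_an.Ty

theorem C4_conj {x : ℝ} {w : ℂ} : dist (starRingEnd ℂ w) (x : ℂ) = dist w x := by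
  rw [← Complex.dist_conj_conj, Complex.conj_conj, Complex.conj_ofReal]

theorem C4_ne (w p : ℂ) : ∀ᶠ w' in 𝓝[≠] w, w' ≠ p := by
  rcases eq_or_ne w p with rfl | h
  · exact self_mem_nhdsWithin
  · exact (eventually_ne_nhds h).filter_mono nhdsWithin_le_nhds

theorem C4_div {f : ℂ → ℂ} {x R : ℝ} {ζ : ℂ} (hf : DifferentiableOn ℂ f (ball (x : ℂ) R))
    (hs : ∀ w ∈ ball (x : ℂ) R, f (starRingEnd ℂ w) = starRingEnd ℂ (f w))
    (hζ : ζ ∈ ball (x : ℂ) R) (h0 : f ζ = 0) (hne : starRingEnd ℂ ζ ≠ ζ) :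
    ∃ f' : ℂ → ℂ, DifferentiableOn ℂ f' (ball (x : ℂ) R) ∧
      (∀ w ∈ ball (x : ℂ) R, f' (starRingEnd ℂ w) = starRingEnd ℂ (f' w)) ∧
      ∀ w, f w = f' w * ((w - ζ) * (w - starRingEnd ℂ ζ)) := by
  have hc : ∀ w ∈ ball (x : ℂ) R, starRingEnd ℂ w ∈ ball (x : ℂ) R := fun w hw => by
    rwa [mem_ball, C4_conj]
  have e1 : ∀ w, f w = dslope f ζ w * (w - ζ) := fun w => by
    have := sub_smul_dslope f ζ w
    rw [h0, sub_zero, smul_eq_mul] at this
    rw [← this, mul_comm]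
  have h1 : dslope f ζ (starRingEnd ℂ ζ) = 0 := by
    have := e1 (starRingEnd ℂ ζ)
    rw [hs ζ hζ, h0, map_zero] at this
    exact (mul_eq_zero.1 this.symm).resolve_right (sub_ne_zero.2 hne)
  have e2 : ∀ w, f w = dslope (dslope f ζ) (starRingEnd ℂ ζ) w *
      ((w - ζ) * (w - starRingEnd ℂ ζ)) := fun w => by
    have := sub_smul_dslope (dslope f ζ) (starRingEnd ℂ ζ) w
    rw [h1, sub_zero, smul_eq_mul] at this
    rw [e1 w, ← this]
    ring
  have hd : DifferentiableOn ℂ (dslope (dslope f ζ) (starRingEnd ℂ ζ)) (ball (x : ℂ) R) :=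
    (Complex.differentiableOn_dslope (isOpen_ball.mem_nhds (hc ζ hζ))).2
      ((Complex.differentiableOn_dslope (isOpen_ball.mem_nhds hζ)).2 hf)
  refine ⟨_, hd, fun w hw => ?_, e2⟩
  generalize dslope (dslope f ζ) (starRingEnd ℂ ζ) = F at e2 hd
  have c1 : ContinuousAt (fun w => F (starRingEnd ℂ w)) w :=
    ContinuousAt.comp (f := starRingEnd ℂ)
      (hd.continuousOn.continuousAt (isOpen_ball.mem_nhds (hc w hw)))
      Complex.continuous_conj.continuousAt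
  have c2 : ContinuousAt (fun w => starRingEnd ℂ (F w)) w :=
    Complex.continuous_conj.continuousAt.comp
      (hd.continuousOn.continuousAt (isOpen_ball.mem_nhds hw))
  refine tendsto_nhds_unique_of_eventuallyEq (l := 𝓝[≠] w)
    (c1.tendsto.mono_left nhdsWithin_le_nhds) (c2.tendsto.mono_left nhdsWithin_le_nhds) ?_
  filter_upwards [C4_ne w ζ, C4_ne w (starRingEnd ℂ ζ),
    mem_nhdsWithin_of_mem_nhds (isOpen_ball.mem_nhds hw)] with v a b hv
  have h2 := hs v hv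
  rw [e2, e2 v] at h2
  simp only [map_mul, map_sub, Complex.conj_conj] at h2
  have a' : starRingEnd ℂ v - starRingEnd ℂ ζ ≠ 0 :=
    sub_ne_zero.2 fun e => a ((starRingEnd ℂ).injective e)
  have b' : starRingEnd ℂ v - ζ ≠ 0 := sub_ne_zero.2 fun e => b (by rw [← e, Complex.conj_conj])
  rw [mul_comm (starRingEnd ℂ v - ζ)] at h2
  exact mul_right_cancel₀ (mul_ne_zero a' b') h2

theorem C4_ind {u : ℂ → ℂ} {x s R : ℝ} (hR : 5 * s < R)
    (hu : DifferentiableOn ℂ u (ball (x : ℂ) R))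
    (hs : ∀ w ∈ ball (x : ℂ) R, u (starRingEnd ℂ w) = starRingEnd ℂ (u w))
    (h0 : ∀ y : ℝ, |y - x| < R → u y ≠ 0) (k : ℕ) :
    ∃ (m : ℕ) (z : Fin m → ℂ) (f : ℂ → ℂ), m ≤ k ∧ DifferentiableOn ℂ f (ball (x : ℂ) R) ∧
      (∀ w ∈ ball (x : ℂ) R, f (starRingEnd ℂ w) = starRingEnd ℂ (f w)) ∧
      (∀ i, z i ∈ closedBall (x : ℂ) (5 * s)) ∧
      (∀ w, u w = f w * ∏ i, ((w - z i) * (w - starRingEnd ℂ (z i)))) ∧
      (m = k ∨ ∀ w ∈ closedBall (x : ℂ) (5 * s), f w ≠ 0) := by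
  induction k with
  | zero => exact ⟨0, Fin.elim0, u, le_rfl, hu, hs, fun i => i.elim0, by simp, Or.inl rfl⟩
  | succ k ih =>
    obtain ⟨m, z, f, hm, hf, hfs, hz, e, h⟩ := ih
    by_cases hn : ∀ w ∈ closedBall (x : ℂ) (5 * s), f w ≠ 0
    · exact ⟨m, z, f, by omega, hf, hfs, hz, e, Or.inr hn⟩
    obtain rfl := h.resolve_right hn
    simp only [not_forall, not_not] at hn
    obtain ⟨ζ, hζ, hf0⟩ := hn
    have hζ' : ζ ∈ ball (x : ℂ) R := closedBall_subset_ball hR hζ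
    obtain ⟨f', a, b, c⟩ := C4_div hf hfs hζ' hf0 fun e' => by
      obtain ⟨y, rfl⟩ := Complex.conj_eq_iff_real.1 e'
      refine h0 y ?_ (by rw [e, hf0, zero_mul])
      rwa [mem_ball, Complex.dist_of_im_eq (by simp), Complex.ofReal_re, Complex.ofReal_re,
        Real.dist_eq] at hζ'
    refine ⟨m + 1, Fin.cons ζ z, f', le_rfl, a, b, fun i => ?_, fun w => ?_, Or.inl rfl⟩
    · refine Fin.cases ?_ (fun j => ?_) i
      · exact hζ
      · exact hz j
    · rw [Fin.prod_univ_succ, e, c, mul_assoc]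
      rfl

theorem fac (C : ℝ) : ∃ A : ℕ, ∀ (u : ℂ → ℂ) (x s R : ℝ), 0 < s → 16 * s < R →
    DifferentiableOn ℂ u (ball (x : ℂ) R) →
    (∀ w ∈ ball (x : ℂ) R, u (starRingEnd ℂ w) = starRingEnd ℂ (u w)) →
    (∀ y : ℝ, |y - x| < R → u y ≠ 0) → Mx u x (16 * s) ≤ C * Mx u x s →
    ∃ (m : ℕ) (z : Fin m → ℂ) (a : ℝ), m ≤ A ∧ 0 < a ∧ ∀ y ∈ Icc (x - 2 * s) (x + 2 * s),
      a * ∏ i, ‖(y : ℂ) - z i‖ ^ 2 ≤ A * ‖u y‖ ∧ ‖u y‖ ≤ A * (a * ∏ i, ‖(y : ℂ) - z i‖ ^ 2) := by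
  refine ⟨⌈C⌉₊ + ⌈(2 * C) ^ 55⌉₊ + 1, fun u x s R hs hR hu hsy h0 hM => ?_⟩
  obtain ⟨m, z, f, hm, hf, -, hz, e, h⟩ := C4_ind (s := s) (by linarith) hu hsy h0 ⌈C⌉₊
  have hsub : closedBall (x : ℂ) (16 * s) ⊆ ball (x : ℂ) R := closedBall_subset_ball hR
  have hsub' : closedBall (x : ℂ) s ⊆ closedBall (x : ℂ) (16 * s) :=
    closedBall_subset_closedBall (by linarith)
  have hc := hu.continuousOn.mono hsub
  obtain ⟨w₀, hw₀, hM₀⟩ := Mx_att (hc.mono hsub') hs.le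
  have hpos : 0 < Mx u x s := (norm_pos_iff.2 (h0 x (by rw [sub_self, abs_zero]; linarith))).trans_le
    (le_Mx (hc.mono hsub') (mem_closedBall_self hs.le))
  have hC : 1 ≤ C := by
    have := (le_Mx hc (hsub' hw₀)).trans hM
    rw [← hM₀] at this
    exact le_of_mul_le_mul_right (by rwa [one_mul]) hpos
  generalize Mx u x s = M at hM hM₀ hpos
  have hz' : ∀ i, dist (starRingEnd ℂ (z i)) (x : ℂ) ≤ 5 * s := fun i => by
    rw [C4_conj]; exact hz i
  have en : ∀ w, ‖u w‖ = ‖f w‖ * ∏ i, (dist w (z i) * dist w (starRingEnd ℂ (z i))) := fun w => by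
    rw [e, norm_mul, norm_prod]
    simp only [norm_mul, dist_eq_norm]
  have p1 : 0 < (36 * s ^ 2) ^ m := by positivity
  have p2 : 2 ^ m * (36 * s ^ 2) ^ m ≤ (121 * s ^ 2) ^ m := by
    rw [← mul_pow]
    exact pow_le_pow_left₀ (by positivity) (by nlinarith [sq_nonneg s]) m
  have p3 : 0 < (121 * s ^ 2) ^ m := by positivity
  have hK : ∀ w ∈ closedBall (x : ℂ) (16 * s), ‖f w‖ ≤ C * M / (121 * s ^ 2) ^ m := by
    intro w hw
    refine Complex.norm_le_of_forall_mem_frontier_norm_le (U := ball (x : ℂ) (16 * s))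
      isBounded_ball (DifferentiableOn.diffContOnCl ?_) (fun v hv => ?_) ?_
    · rw [closure_ball _ (by positivity)]
      exact hf.mono hsub
    · rw [frontier_ball _ (by positivity)] at hv
      rw [le_div_iff₀ p3]
      refine le_trans ?_ ((le_Mx hc (sphere_subset_closedBall hv)).trans hM)
      rw [en]
      refine mul_le_mul_of_nonneg_left ?_ (norm_nonneg _)
      rw [← Fin.prod_const]
      refine Finset.prod_le_prod (fun _ _ => by positivity) fun i _ => ?_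
      have a1 := dist_triangle v (z i) x
      have a2 := dist_triangle v (starRingEnd ℂ (z i)) x
      have a3 := mem_closedBall.1 (hz i)
      have a4 := hz' i
      rw [mem_sphere.1 hv] at a1 a2
      calc 121 * s ^ 2 = (11 * s) * (11 * s) := by ring
        _ ≤ _ := mul_le_mul (by linarith) (by linarith) (by positivity) dist_nonneg
    · rwa [closure_ball _ (by positivity)]
  have hlow : M ≤ ‖f w₀‖ * (36 * s ^ 2) ^ m := by
    rw [hM₀, en]
    refine mul_le_mul_of_nonneg_left ?_ (norm_nonneg _)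
    rw [← Fin.prod_const]
    refine Finset.prod_le_prod (fun _ _ => by positivity) fun i _ => ?_
    have a1 := dist_triangle_right w₀ (z i) x
    have a2 := dist_triangle_right w₀ (starRingEnd ℂ (z i)) x
    have a3 := mem_closedBall.1 (hz i)
    have a4 := hz' i
    have a5 := mem_closedBall.1 hw₀
    calc _ ≤ (6 * s) * (6 * s) := mul_le_mul (by linarith) (by linarith) dist_nonneg (by positivity)
      _ = _ := by ring
  have h2 : (2 : ℝ) ^ m ≤ C := by
    have a1 := (le_div_iff₀ p3).1 (hK w₀ (hsub' hw₀))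
    have a2 := mul_le_mul_of_nonneg_left p2 (norm_nonneg (f w₀))
    have a3 := mul_le_mul_of_nonneg_left hlow (pow_pos two_pos m).le
    exact le_of_mul_le_mul_right (by linarith) hpos
  have hn : ∀ w ∈ closedBall (x : ℂ) (5 * s), f w ≠ 0 := h.resolve_left fun e' => by
    have a1 : (m : ℝ) < 2 ^ m := by exact_mod_cast Nat.lt_two_pow_self
    have a2 := Nat.le_ceil C
    rw [← e'] at a2
    linarith
  have hKC : C * M / (121 * s ^ 2) ^ m ≤ C * ‖f w₀‖ := by
    rw [div_le_iff₀ p3, mul_assoc]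
    refine mul_le_mul_of_nonneg_left (hlow.trans (mul_le_mul_of_nonneg_left ?_ (norm_nonneg _)))
      (by linarith)
    exact pow_le_pow_left₀ (by positivity) (by nlinarith [sq_nonneg s]) m
  refine ⟨m, z, C * M / (121 * s ^ 2) ^ m, by omega, by positivity, fun y hy => ?_⟩
  have hy' : dist (y : ℂ) x ≤ 2 * s := by
    rw [Complex.dist_of_im_eq (by simp), Complex.ofReal_re, Complex.ofReal_re, Real.dist_eq, abs_le]
    constructor <;> linarith [hy.1, hy.2]
  have b1 := hK y (mem_closedBall.2 (by linarith))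
  have b2 := nz (x := (x : ℂ)) (R := 5 * s) (hf.mono (ball_subset_ball (by linarith)))
    (fun w hw => hn w (ball_subset_closedBall hw)) (by positivity)
    (fun w hw => hK w (ball_subset_closedBall (ball_subset_ball (by linarith) hw)))
    (w := y) (mem_closedBall.2 (by linarith))
    (mem_closedBall.2 (by linarith [mem_closedBall.1 hw₀])) hKC
  have b3 : ‖u y‖ = ‖f y‖ * ∏ i, ‖(y : ℂ) - z i‖ ^ 2 := by
    rw [en]
    refine congrArg _ (Finset.prod_congr rfl fun i _ => ?_)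
    rw [dist_comm _ (starRingEnd ℂ (z i)), C4_conj, dist_comm (z i), dist_eq_norm, sq]
  have b4 : 0 ≤ ∏ i, ‖(y : ℂ) - z i‖ ^ 2 := by positivity
  have b5 := Nat.le_ceil ((2 * C) ^ 55)
  have b6 : (0 : ℝ) ≤ ⌈C⌉₊ := Nat.cast_nonneg _
  have b7 : (0 : ℝ) ≤ ⌈(2 * C) ^ 55⌉₊ := Nat.cast_nonneg _
  have b8 : 0 ≤ C * M / (121 * s ^ 2) ^ m := by positivity
  rw [b3]
  push_cast
  generalize C * M / (121 * s ^ 2) ^ m = K at b1 b2 b8
  generalize ∏ i, ‖(y : ℂ) - z i‖ ^ 2 = P at b4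
  refine ⟨?_, ?_⟩
  · rw [← mul_assoc]
    exact mul_le_mul_of_nonneg_right
      (b2.trans (mul_le_mul_of_nonneg_right (by linarith) (norm_nonneg _))) b4
  · exact (mul_le_mul_of_nonneg_right b1 b4).trans
      (le_mul_of_one_le_left (mul_nonneg b8 b4) (by linarith))

theorem lens_fac (n : ℕ) : ∃ A₀ : ℕ, 64 ≤ A₀ ∧ ∀ (A : ℕ) (G : ℂ → ℂ) (g : ℝ → ℝ) (x ρ s ε : ℝ),
    A₀ ≤ A → 0 < s → 64 * s ≤ ρ → (ε = 1 ∨ ε = -1) → Br n (ball (x : ℂ) ρ) G g →
    (∀ y, |y - x| < ρ → 0 < ε * (g y - y)) → |g x - x| ≤ s →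
    Fac A (fun y => |g y - y|) x s := by
  obtain ⟨C, -, hC⟩ := DL n (5 * Real.exp 8 + 6)
  obtain ⟨A₁, hA⟩ := fac C
  refine ⟨A₁ + ⌈(5 * Real.exp 8 + 6) * 16⌉₊ + 64, by omega,
    fun A G g x ρ s ε hA₀ hs hρ hε hB hg hx => ?_⟩
  have hsub : ball (x : ℂ) (64 * s) ⊆ ball (x : ℂ) ρ := ball_subset_ball hρ
  have hsub' : ball (x : ℂ) (2 * (16 * s)) ⊆ ball (x : ℂ) ρ := ball_subset_ball (by linarith)
  have hd : ∀ y : ℝ, dist (y : ℂ) x = |y - x| := fun y => by
    rw [Complex.dist_of_im_eq (by simp), Complex.ofReal_re, Complex.ofReal_re, Real.dist_eq]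
  have hr : ∀ y : ℝ, |y - x| < ρ → G y - y = ((g y - y : ℝ) : ℂ) := fun y hy => by
    rw [hB.real y (by rwa [mem_ball, hd]), Complex.ofReal_sub]
  have hε' : |ε| = 1 := by rcases hε with rfl | rfl <;> simp
  have hε0 : ε ≠ 0 := fun e => by simp [e] at hε'
  have hp : 0 < Real.exp 8 := Real.exp_pos 8
  have hbd : ∀ w ∈ ball (x : ℂ) (2 * (16 * s)), ‖G w - w‖ ≤ (5 * Real.exp 8 + 6) * (16 * s) := by
    intro w hw
    have hw' := mem_ball.1 hw
    have a1 := slit (f := fun w => (ε : ℂ) * (G w - x) + ((64 * s : ℝ) : ℂ)) (x := (x : ℂ))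
      (R := 64 * s) ((((hB.diff.mono hsub).sub_const _).const_mul _).add_const _)
      (fun v hv => by
        rw [Complex.mem_slitPlane_iff]
        simp only [Complex.add_im, Complex.add_re, Complex.re_ofReal_mul, Complex.im_ofReal_mul,
          Complex.sub_re, Complex.sub_im, Complex.ofReal_re, Complex.ofReal_im, sub_zero, add_zero]
        rcases lt_trichotomy v.im 0 with h | h | h
        · have c1 := hB.up (starRingEnd ℂ v) (hsub (by rwa [mem_ball, C4_conj]))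
            (by rw [Complex.conj_im]; linarith)
          rw [hB.symm v (hsub hv), Complex.conj_im] at c1
          exact Or.inr (mul_ne_zero hε0 (by linarith))
        · obtain ⟨y, rfl⟩ : ∃ y : ℝ, v = y := ⟨v.re, Complex.ext (by simp) (by simpa using h)⟩
          rw [hB.real y (hsub hv), Complex.ofReal_re]
          rw [mem_ball, hd] at hv
          have c1 := hg y (by linarith)
          have c2 := neg_abs_le (ε * (y - x))
          rw [abs_mul, hε', one_mul] at c2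
          exact Or.inl (by linarith)
        · exact Or.inr (mul_ne_zero hε0 (hB.up v (hsub hv) h).ne'))
      (by positivity) (w := w) (w' := x) (mem_closedBall.2 (by linarith))
      (mem_closedBall_self (by positivity))
    have n1 : ∀ v : ℂ, ‖(ε : ℂ) * v‖ = ‖v‖ := fun v => by
      rw [norm_mul, Complex.norm_real, Real.norm_eq_abs, hε', one_mul]
    have n2 : ‖((64 * s : ℝ) : ℂ)‖ = 64 * s := by
      rw [Complex.norm_real, Real.norm_of_nonneg (by positivity)]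
    have a2 := norm_add_le ((ε : ℂ) * (G x - x)) ((64 * s : ℝ) : ℂ)
    have a3 := norm_le_add_norm_add ((ε : ℂ) * (G w - x)) ((64 * s : ℝ) : ℂ)
    have a4 := norm_sub_le_norm_sub_add_norm_sub (G w) x w
    have a5 : ‖G x - x‖ ≤ s := by
      rwa [hr x (by rw [sub_self, abs_zero]; linarith), Complex.norm_real, Real.norm_eq_abs]
    rw [n1, n2] at a2 a3
    rw [← dist_eq_norm (x : ℂ), dist_comm] at a4
    have a6 := a1.trans (mul_le_mul_of_nonneg_left (a2.trans (add_le_add_left a5 _)) hp.le)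
    have a7 := mul_pos hp hs
    nlinarith
  have hM := hC _ G x (16 * s) (by positivity) hB.loc (hB.diff.mono hsub')
    (fun w hw h => ⟨hsub' hw, h⟩) hbd (by rw [Complex.ofReal_im]; positivity)
    (Or.inr ⟨Complex.ofReal_im x, fun w hw => hB.symm w (hsub' hw)⟩)
  rw [show 16 * s / 16 = s by ring] at hM
  obtain ⟨m, z, a, hm, ha, h⟩ := hA (fun w => G w - w) x s ρ hs (by linarith)
    (hB.diff.sub differentiableOn_id) (fun w hw => by rw [hB.symm w hw, map_sub])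
    (fun y hy => by
      rw [hr y hy, Complex.ofReal_ne_zero]
      exact right_ne_zero_of_mul (hg y hy).ne') hM
  refine ⟨m, z, a, by omega, ha, fun y hy => ?_⟩
  have hy' : |y - x| ≤ 2 * s := abs_le.2 ⟨by linarith [hy.1], by linarith [hy.2]⟩
  have b1 := h y hy
  have b2 := hbd y (by rw [mem_ball, hd]; linarith)
  rw [hr y (by linarith), Complex.norm_real, Real.norm_eq_abs] at b1 b2
  have b3 : (A₁ : ℝ) ≤ A := by exact_mod_cast (by omega : A₁ ≤ A)
  have b4 : (5 * Real.exp 8 + 6) * 16 ≤ A := (Nat.le_ceil _).trans (by exact_mod_cast (by omega))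
  refine ⟨b1.1.trans (mul_le_mul_of_nonneg_right b3 (abs_nonneg _)),
    b1.2.trans (mul_le_mul_of_nonneg_right b3 (by positivity)), b2.trans ?_⟩
  rw [← mul_assoc]
  exact mul_le_mul_of_nonneg_right b4 hs.le

end Pool.Agent.Work.MP_042f46_an.Fu
end
end

-- merged part: Pool.Agent.Work.MP_042f46_an.F.C5
section
/-!
# Counting zeros, and the slope on a strip

Plans.  `ZC`: `m = Z.card`; dividing out the zeros (`dslope`, induction on `Z`) gives `f` holomorphic on `O` with `u w = f w ∏ ζ ∈ Z, (w - ζ)`.  For `‖w - p‖ ≤ ‖z₂ - p‖` the factor `‖w - ζ‖` is between `1 / 2` and `3 / 2` times `‖ζ - p‖`; for `‖w - p‖ ≥ ‖z₃ - p‖` between `1 / 2` and `3 / 2` times `‖w - p‖`.  With `j = (m + 1) / 2` the function `f w (w - p) ^ j` is on the inner circle at most `C (3 / 16) ^ m` times its value at `z₂`, and on the outer circle at most `16 C (3 / 16) ^ m` times its value at `z₃`.  Maximum principle on the annulus: `1 ≤ 16 C (3 /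 16) ^ m`, so `m < 2 ^ m ≤ 16 C`.
`tent`: `ℓ = W' / W`, `k x = ∫ y in 0..π, ℓ (x + y I)`.  `W (x + π I) = W x exp (I k x)` (the derivative of `y ↦ W (x + y I) exp (-I ∫ 0..y ℓ)` vanishes), so `cos (re (k x)) = -1`; `k` is continuous, so `re k` is a constant of modulus at least `π`.  `J x = ∫ y in 0..π, log ‖W (x + y I)‖` satisfies `J x' - J x = ∫∫ re ℓ = (x' - x) re k` (Fubini and the fundamental theorem on horizontal segments), and `|J x - π log ‖W x‖| ≤ π c`.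
-/

open Set Metric Topology Filter MeasureTheory
open scoped ENNReal NNReal

noncomputable section
namespace Pool.Agent.Work.MP_042f46_an.Fu

open Pool.Agent.Work.MP_042f46_an.Ty

theorem C5_fac {O : Set ℂ} (hO : IsOpen O) {u : ℂ → ℂ} (hu : DifferentiableOn ℂ u O)
    (Z : Finset ℂ) (hZ : ∀ ζ ∈ Z, ζ ∈ O ∧ u ζ = 0) :
    ∃ f, DifferentiableOn ℂ f O ∧ ∀ w, u w = f w * ∏ ζ ∈ Z, (w - ζ) := by
  classical
  induction Z using Finset.induction_on with
  | empty => exact ⟨u, hu, by simp⟩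
  | insert a s ha ih =>
    obtain ⟨f, hf, e⟩ := ih fun ζ h => hZ ζ (Finset.mem_insert_of_mem h)
    obtain ⟨h1, h2⟩ := hZ a (Finset.mem_insert_self a s)
    have h3 : f a = 0 := by
      rw [e a] at h2
      refine (mul_eq_zero.mp h2).resolve_right (Finset.prod_ne_zero_iff.mpr fun ζ h h4 => ha ?_)
      rwa [sub_eq_zero.mp h4]
    refine ⟨dslope f a, (Complex.differentiableOn_dslope (hO.mem_nhds h1)).mpr hf, fun w => ?_⟩
    have h4 := sub_smul_dslope f a w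
    rw [h3, sub_zero, smul_eq_mul] at h4
    rw [Finset.prod_insert ha, e w, ← h4]
    ring

theorem C5_cmp {u f : ℂ → ℂ} {Z : Finset ℂ} (e : ∀ w, u w = f w * ∏ ζ ∈ Z, (w - ζ)) {w z : ℂ}
    {C κ : ℝ} (hC : 0 ≤ C) (h : ‖u w‖ ≤ C * ‖u z‖) (hw : ∀ ζ ∈ Z, 0 < ‖w - ζ‖)
    (hk : ∀ ζ ∈ Z, ‖z - ζ‖ ≤ κ * ‖w - ζ‖) : ‖f w‖ ≤ C * κ ^ Z.card * ‖f z‖ := by
  rw [e w, e z, norm_mul, norm_mul, norm_prod, norm_prod] at h
  have h1 : ∏ ζ ∈ Z, ‖z - ζ‖ ≤ κ ^ Z.card * ∏ ζ ∈ Z, ‖w - ζ‖ := by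
    rw [← Finset.prod_const, ← Finset.prod_mul_distrib]
    exact Finset.prod_le_prod (fun _ _ => norm_nonneg _) hk
  refine le_of_mul_le_mul_right (h.trans ?_) (Finset.prod_pos hw)
  calc C * (‖f z‖ * ∏ ζ ∈ Z, ‖z - ζ‖) ≤ C * (‖f z‖ * (κ ^ Z.card * ∏ ζ ∈ Z, ‖w - ζ‖)) := by
        gcongr
    _ = _ := by ring

theorem ZC {O : Set ℂ} (hO : IsOpen O) {u : ℂ → ℂ} (hu : DifferentiableOn ℂ u O) {p z₂ z₃ : ℂ}
    {C : ℝ} (h0 : z₂ ≠ p) (hs : ∀ w, ‖z₂ - p‖ / 256 ≤ ‖w - p‖ → ‖w - p‖ ≤ 256 * ‖z₃ - p‖ → w ∈ O)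
    (h₂ : u z₂ ≠ 0) (h₃ : u z₃ ≠ 0) (h₁ : ∀ w, ‖w - p‖ = ‖z₂ - p‖ / 256 → ‖u w‖ ≤ C * ‖u z₂‖)
    (h₄ : ∀ w, ‖w - p‖ = 256 * ‖z₃ - p‖ → ‖u w‖ ≤ C * ‖u z₃‖) (h₂₃ : ‖z₂ - p‖ ≤ ‖z₃ - p‖)
    (hC : 1 ≤ C) (Z : Finset ℂ)
    (hZ : ∀ ζ ∈ Z, u ζ = 0 ∧ 2 * ‖z₂ - p‖ ≤ ‖ζ - p‖ ∧ 2 * ‖ζ - p‖ ≤ ‖z₃ - p‖) :
    (Z.card : ℝ) ≤ 16 * C := by
  have r2 : 0 < ‖z₂ - p‖ := norm_pos_iff.mpr (sub_ne_zero.mpr h0)
  obtain ⟨f, hf, e⟩ := C5_fac hO hu Z fun ζ h =>
    ⟨hs ζ (by linarith [(hZ ζ h).2.1]) (by linarith [(hZ ζ h).2.2]), (hZ ζ h).1⟩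
  have t1 : ∀ w ζ : ℂ, ‖w - ζ‖ ≤ ‖w - p‖ + ‖ζ - p‖ := fun w ζ => by
    simpa using norm_sub_le (w - p) (ζ - p)
  have t2 : ∀ w ζ : ℂ, ‖ζ - p‖ ≤ ‖w - ζ‖ + ‖w - p‖ := fun w ζ => by
    simpa [add_comm] using norm_sub_le (w - p) (w - ζ)
  have t3 : ∀ w ζ : ℂ, ‖w - p‖ ≤ ‖w - ζ‖ + ‖ζ - p‖ := fun w ζ => by
    simpa using norm_add_le (w - ζ) (ζ - p)
  obtain ⟨j, j1, j2⟩ : ∃ j : ℕ, Z.card ≤ 2 * j ∧ 2 * j ≤ Z.card + 1 := ⟨(Z.card + 1) / 2, by omega⟩
  have p1 : (16 : ℝ) ^ Z.card ≤ 256 ^ j := by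
    rw [show (256 : ℝ) = 16 ^ 2 by norm_num, ← pow_mul]
    exact pow_le_pow_right₀ (by norm_num) j1
  have p2 : (256 : ℝ) ^ j ≤ 16 * 16 ^ Z.card := by
    rw [show (256 : ℝ) = 16 ^ 2 by norm_num, ← pow_mul, ← pow_succ']
    exact pow_le_pow_right₀ (by norm_num) j2
  set g : ℂ → ℂ := fun w => f w * (w - p) ^ j with hg
  have ng : ∀ w, ‖g w‖ = ‖f w‖ * ‖w - p‖ ^ j := fun w => by rw [hg, norm_mul, norm_pow]
  set M : ℝ := max ‖g z₂‖ ‖g z₃‖ with hM
  have M0 : 0 < M := by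
    refine lt_max_of_lt_left ?_
    rw [ng]
    have : f z₂ ≠ 0 := fun h => h₂ (by rw [e, h, zero_mul])
    exact mul_pos (norm_pos_iff.mpr this) (pow_pos r2 j)
  have hin : ∀ w, ‖w - p‖ = ‖z₂ - p‖ / 256 → ‖g w‖ ≤ 16 * C * (3 / 16) ^ Z.card * M := by
    intro w hw
    have a1 := C5_cmp (κ := 3) e (by linarith) (h₁ w hw)
      (fun ζ h => by linarith [t2 w ζ, (hZ ζ h).2.1])
      (fun ζ h => by linarith [t2 w ζ, t1 z₂ ζ, (hZ ζ h).2.1])
    calc ‖g w‖ = ‖f w‖ * (‖z₂ - p‖ ^ j / 256 ^ j) := by rw [ng, hw, div_pow]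
      _ ≤ C * 3 ^ Z.card * ‖f z₂‖ * (‖z₂ - p‖ ^ j / 16 ^ Z.card) := by gcongr
      _ = 1 * C * (3 / 16) ^ Z.card * ‖g z₂‖ := by rw [ng, div_pow]; ring
      _ ≤ 16 * C * (3 / 16) ^ Z.card * M := by
        gcongr
        · norm_num
        · exact le_max_left _ _
  have hout : ∀ w, ‖w - p‖ = 256 * ‖z₃ - p‖ → ‖g w‖ ≤ 16 * C * (3 / 16) ^ Z.card * M := by
    intro w hw
    have a1 := C5_cmp (κ := 3 / 256) e (by linarith) (h₄ w hw)
      (fun ζ h => by linarith [t3 w ζ, (hZ ζ h).2.2])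
      (fun ζ h => by linarith [t3 w ζ, t1 z₃ ζ, (hZ ζ h).2.2])
    have a2 : ((3 : ℝ) / 256) ^ Z.card * 16 ^ Z.card = (3 / 16) ^ Z.card := by
      rw [← mul_pow]
      norm_num
    calc ‖g w‖ = ‖f w‖ * (256 ^ j * ‖z₃ - p‖ ^ j) := by rw [ng, hw, mul_pow]
      _ ≤ C * (3 / 256) ^ Z.card * ‖f z₃‖ * (16 * 16 ^ Z.card * ‖z₃ - p‖ ^ j) := by gcongr
      _ = 16 * C * (3 / 16) ^ Z.card * ‖g z₃‖ := by rw [ng, ← a2]; ring
      _ ≤ 16 * C * (3 / 16) ^ Z.card * M := by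
        gcongr
        exact le_max_right _ _
  set U : Set ℂ := {w | ‖z₂ - p‖ / 256 < ‖w - p‖ ∧ ‖w - p‖ < 256 * ‖z₃ - p‖} with hU
  have cn : Continuous fun w : ℂ => ‖w - p‖ := by fun_prop
  have Uo : IsOpen U := (isOpen_lt continuous_const cn).inter (isOpen_lt cn continuous_const)
  have Uc : closure U ⊆ {w | ‖z₂ - p‖ / 256 ≤ ‖w - p‖ ∧ ‖w - p‖ ≤ 256 * ‖z₃ - p‖} :=
    closure_minimal (fun w h => ⟨h.1.le, h.2.le⟩)
      ((isClosed_le continuous_const cn).inter (isClosed_le cn continuous_const))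
  have Ub : Bornology.IsBounded U :=
    (isBounded_ball (x := p) (r := 256 * ‖z₃ - p‖)).subset fun w h => mem_ball_iff_norm.mpr h.2
  have gd : DiffContOnCl ℂ g U := by
    refine DifferentiableOn.diffContOnCl ?_
    exact (hf.mono fun w h => hs w (Uc h).1 (Uc h).2).mul (by fun_prop)
  have mx : ∀ z ∈ U, ‖g z‖ ≤ 16 * C * (3 / 16) ^ Z.card * M := fun z hz => by
    refine Complex.norm_le_of_forall_mem_frontier_norm_le Ub gd (fun w hw => ?_)
      (subset_closure hz)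
    rw [Uo.frontier_eq] at hw
    obtain ⟨b1, b2⟩ := Uc hw.1
    rcases b1.eq_or_lt with b3 | b3
    · exact hin w b3.symm
    · exact hout w (b2.eq_or_lt.resolve_right fun b4 => hw.2 ⟨b3, b4⟩)
  have f1 : M ≤ 16 * C * (3 / 16) ^ Z.card * M :=
    max_le (mx z₂ ⟨by linarith, by linarith⟩) (mx z₃ ⟨by linarith, by linarith⟩)
  have f2 : 1 ≤ 16 * C * (3 / 16) ^ Z.card := le_of_mul_le_mul_right (by linarith) M0
  have f3 : ((3 : ℝ) / 16) ^ Z.card * 2 ^ Z.card ≤ 1 := by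
    rw [← mul_pow]
    exact pow_le_one₀ (by norm_num) (by norm_num)
  have f4 : (Z.card : ℝ) ≤ 2 ^ Z.card := by exact_mod_cast Nat.lt_two_pow_self.le
  calc (Z.card : ℝ) ≤ 1 * 2 ^ Z.card := by linarith
    _ ≤ 16 * C * (3 / 16) ^ Z.card * 2 ^ Z.card := by gcongr
    _ = 16 * C * ((3 / 16) ^ Z.card * 2 ^ Z.card) := by ring
    _ ≤ 16 * C * 1 := by gcongr
    _ = 16 * C := mul_one _

theorem C5_log {W : ℂ → ℂ} {R : Set ℂ} (hR : Convex ℝ R)
    (hW : ∀ z ∈ R, AnalyticAt ℂ W z ∧ W z ≠ 0) :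
    ∃ L : ℂ → ℂ, DifferentiableOn ℂ L R ∧ ∀ z ∈ R, Complex.exp (L z) = W z := by
  rcases R.eq_empty_or_nonempty with rfl | ⟨z₀, h₀⟩
  · exact ⟨W, differentiableOn_empty, by simp⟩
  obtain ⟨g, hg⟩ := hR.exists_forall_hasDerivWithinAt (𝕜 := ℂ) (f := fun z => deriv W z / W z)
    fun z hz => (((hW z hz).1.deriv.div (hW z hz).1 (hW z hz).2).differentiableAt
      ).differentiableWithinAt
  have h1 : ∀ z ∈ R, HasDerivWithinAt (fun z => W z * Complex.exp (-g z)) 0 R z := fun z hz => by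
    have h2 := ((hW z hz).1.differentiableAt.hasDerivAt.hasDerivWithinAt (s := R)).mul
      (hg z hz).neg.cexp
    refine h2.congr_deriv ?_
    have := (hW z hz).2
    field_simp
    ring
  refine ⟨fun z => g z + Complex.log (W z₀ * Complex.exp (-g z₀)),
    fun z hz => (hg z hz).differentiableWithinAt.add_const _, fun z hz => ?_⟩
  have h3 := hR.norm_image_sub_le_of_norm_hasDerivWithin_le (C := 0) h1 (by simp) h₀ hz
  rw [zero_mul, norm_le_zero_iff, sub_eq_zero] at h3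
  rw [Complex.exp_add, Complex.exp_log (mul_ne_zero (hW z₀ h₀).2 (Complex.exp_ne_zero _)), ← h3,
    mul_left_comm, ← Complex.exp_add, add_neg_cancel, Complex.exp_zero, mul_one]

theorem C5_arg {a b : ℂ} (ha : (Complex.exp a).im = 0) (hb : (Complex.exp b).im = 0)
    (h : (Complex.exp a).re * (Complex.exp b).re < 0) : Real.pi ≤ |b.im - a.im| := by
  rw [Complex.exp_im] at ha hb
  rw [Complex.exp_re, Complex.exp_re] at h
  have a1 := (mul_eq_zero.mp ha).resolve_left (Real.exp_ne_zero _)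
  have b1 := (mul_eq_zero.mp hb).resolve_left (Real.exp_ne_zero _)
  by_contra hc
  obtain ⟨c1, c2⟩ := abs_lt.mp (not_le.mp hc)
  have h1 := (Real.sin_eq_zero_iff_of_lt_of_lt c1 c2).mp (by rw [Real.sin_sub, a1, b1]; ring)
  rw [sub_eq_zero.mp h1] at h
  have := mul_nonneg (mul_pos (Real.exp_pos a.re) (Real.exp_pos b.re)).le
    (mul_self_nonneg (Real.cos a.im))
  linarith

theorem C5_int {d : ℝ → ℝ} {x x' κ : ℝ} (hx : x ≤ x') (hκ : 0 < κ) (hd : ContinuousOn d (Icc x x'))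
    (h : ∀ t ∈ Icc x x', κ ≤ |d t|) : κ * (x' - x) ≤ |∫ t in x..x', d t| := by
  have hi : IntervalIntegrable d volume x x' := hd.intervalIntegrable_of_Icc hx
  have h0 : ∀ s ∈ Icc x x', ∀ t ∈ Icc x x', d s ≤ 0 → d t ≤ 0 := fun s hs t ht h1 => by
    by_contra h2
    obtain ⟨r, hr, e⟩ := isPreconnected_Icc.intermediate_value hs ht hd ⟨h1, (not_le.mp h2).le⟩
    have := h r hr
    rw [e, abs_zero] at this
    linarith
  by_cases h1 : d x ≤ 0
  · have h2 := intervalIntegral.integral_mono_on hx hi (intervalIntegrable_const (c := -κ))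
      fun t ht => by
        have := h t ht
        rw [abs_of_nonpos (h0 x (left_mem_Icc.mpr hx) t ht h1)] at this
        linarith
    rw [intervalIntegral.integral_const, smul_eq_mul] at h2
    exact le_trans (by linarith) (neg_le_abs _)
  · have h2 := intervalIntegral.integral_mono_on hx (intervalIntegrable_const (c := κ)) hi
      fun t ht => by
        have := h t ht
        rwa [abs_of_pos (not_le.mp fun h3 => h1 (h0 t ht x (left_mem_Icc.mpr hx) h3))] at this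
    rw [intervalIntegral.integral_const, smul_eq_mul] at h2
    exact le_trans (by linarith) (le_abs_self _)

theorem C5_tent {W : ℂ → ℂ} {x x' c : ℝ} (hx : x ≤ x')
    (hW : ∀ z : ℂ, z.re ∈ Icc x x' → z.im ∈ Icc 0 Real.pi → AnalyticAt ℂ W z ∧ W z ≠ 0 ∧
      |Real.log ‖W z‖ - Real.log ‖W z.re‖| ≤ c)
    (hr : ∀ t ∈ Icc x x', (W t).im = 0 ∧ (W (t + Real.pi * Complex.I)).im = 0 ∧
      (W t).re * (W (t + Real.pi * Complex.I)).re < 0) :
    x' - x ≤ |Real.log ‖W x‖ - Real.log ‖W x'‖| + 2 * c := by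
  have hπ := Real.pi_pos
  have hR : Convex ℝ (Icc x x' ×ℂ Icc 0 Real.pi) :=
    ((convex_Icc x x').linear_preimage Complex.reLm).inter
      ((convex_Icc 0 Real.pi).linear_preimage Complex.imLm)
  obtain ⟨L, hL, e⟩ := C5_log hR fun z hz => ⟨(hW z hz.1 hz.2).1, (hW z hz.1 hz.2).2.1⟩
  have mem : ∀ s ∈ Icc x x', ∀ y ∈ Icc 0 Real.pi,
      (s : ℂ) + y * Complex.I ∈ Icc x x' ×ℂ Icc 0 Real.pi := fun s hs y hy =>
    Complex.mem_reProdIm.mpr ⟨by simpa using hs, by simpa using hy⟩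
  have m0 : (0 : ℝ) ∈ Icc 0 Real.pi := left_mem_Icc.mpr hπ.le
  have mπ : Real.pi ∈ Icc 0 Real.pi := right_mem_Icc.mpr hπ.le
  have ch : ∀ y ∈ Icc 0 Real.pi, ContinuousOn (fun s : ℝ => L (s + y * Complex.I)) (Icc x x') :=
    fun y hy => hL.continuousOn.comp (by fun_prop) fun s hs => mem s hs y hy
  have cv : ∀ s ∈ Icc x x', ContinuousOn (fun y : ℝ => L (s + y * Complex.I)) (Icc 0 Real.pi) :=
    fun s hs => hL.continuousOn.comp (by fun_prop) fun y hy => mem s hs y hy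
  have key := Complex.integral_boundary_rect_eq_zero_of_differentiableOn L ⟨x, 0⟩ ⟨x', Real.pi⟩
    (by rw [uIcc_of_le hx, uIcc_of_le hπ.le]; exact hL)
  have k1 : ∀ y ∈ Icc 0 Real.pi, (∫ s : ℝ in x..x', L (s + y * Complex.I)).im =
      ∫ s : ℝ in x..x', (L (s + y * Complex.I)).im := fun y hy =>
    (intervalIntegral.intervalIntegral_im ((ch y hy).intervalIntegrable_of_Icc hx)).symm
  have k2 : ∀ s ∈ Icc x x', |(∫ y : ℝ in (0 : ℝ)..Real.pi, L (s + y * Complex.I)).re -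
      Real.pi * Real.log ‖W s‖| ≤ c * Real.pi := fun s hs => by
    have a1 : (∫ y : ℝ in (0 : ℝ)..Real.pi, L (s + y * Complex.I)).re =
        ∫ y : ℝ in (0 : ℝ)..Real.pi, (L (s + y * Complex.I)).re :=
      (intervalIntegral.intervalIntegral_re ((cv s hs).intervalIntegrable_of_Icc hπ.le)).symm
    have a2 := intervalIntegral.norm_integral_le_of_norm_le_const (a := 0) (b := Real.pi) (C := c)
      (f := fun y : ℝ => (L (s + y * Complex.I)).re - Real.log ‖W s‖) fun y hy => by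
        rw [uIoc_of_le hπ.le] at hy
        have a3 := mem s hs y ⟨hy.1.le, hy.2⟩
        have a4 := (hW _ a3.1 a3.2).2.2
        rw [← e _ a3, Complex.norm_exp, Real.log_exp] at a4
        simpa using a4
    rw [intervalIntegral.integral_sub
      ((Complex.continuous_re.comp_continuousOn' (cv s hs)).intervalIntegrable_of_Icc hπ.le)
      intervalIntegrable_const, intervalIntegral.integral_const, sub_zero, smul_eq_mul,
      abs_of_pos hπ, Real.norm_eq_abs] at a2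
    rw [a1]
    exact a2
  have k3 := C5_int hx hπ (d := fun s : ℝ => (L (s + Real.pi * Complex.I)).im -
      (L (s + (0 : ℝ) * Complex.I)).im)
    ((Complex.continuous_im.comp_continuousOn' (ch _ mπ)).sub
      (Complex.continuous_im.comp_continuousOn' (ch _ m0))) fun t ht => by
      have a1 := e _ (mem t ht 0 m0)
      have a2 := e _ (mem t ht _ mπ)
      have a3 : W (t + (0 : ℝ) * Complex.I) = W t := by simp
      refine C5_arg ?_ ?_ ?_
      · rw [a1, a3]; exact (hr t ht).1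
      · rw [a2]; exact (hr t ht).2.1
      · rw [a1, a2, a3]; exact (hr t ht).2.2
  rw [intervalIntegral.integral_sub
    ((Complex.continuous_im.comp_continuousOn' (ch _ mπ)).intervalIntegrable_of_Icc hx)
    ((Complex.continuous_im.comp_continuousOn' (ch _ m0)).intervalIntegrable_of_Icc hx),
    ← k1 _ mπ, ← k1 _ m0] at k3
  have k4 := congrArg Complex.im key
  simp only [smul_eq_mul, Complex.sub_im, Complex.add_im, Complex.mul_im, Complex.I_re,
    Complex.I_im, zero_mul, one_mul, zero_add, Complex.zero_im] at k4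
  obtain ⟨b1, b2⟩ := abs_le.mp (k2 x (left_mem_Icc.mpr hx))
  obtain ⟨b3, b4⟩ := abs_le.mp (k2 x' (right_mem_Icc.mpr hx))
  have b5 := mul_le_mul_of_nonneg_left (le_abs_self (Real.log ‖W x‖ - Real.log ‖W x'‖)) hπ.le
  have b6 := mul_le_mul_of_nonneg_left (neg_le_abs (Real.log ‖W x‖ - Real.log ‖W x'‖)) hπ.le
  refine le_of_mul_le_mul_left (k3.trans (abs_le.mpr ⟨?_, ?_⟩)) hπ <;> linarith

theorem tent {W : ℂ → ℂ} {x₀ x₁ c : ℝ}
    (hW : ∀ z : ℂ, z.re ∈ Icc x₀ x₁ → z.im ∈ Icc 0 Real.pi → AnalyticAt ℂ W z ∧ W z ≠ 0 ∧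
      |Real.log ‖W z‖ - Real.log ‖W z.re‖| ≤ c)
    (hr : ∀ x ∈ Icc x₀ x₁, (W x).im = 0 ∧ (W (x + Real.pi * Complex.I)).im = 0 ∧
      (W x).re * (W (x + Real.pi * Complex.I)).re < 0) {x x' : ℝ} (hx : x ∈ Icc x₀ x₁)
    (hx' : x' ∈ Icc x₀ x₁) : |x - x'| ≤ |Real.log ‖W x‖ - Real.log ‖W x'‖| + 2 * c := by
  rcases le_total x x' with h | h
  · rw [abs_sub_comm, abs_of_nonneg (sub_nonneg.mpr h)]
    exact C5_tent h (fun z h1 => hW z (Icc_subset_Icc hx.1 hx'.2 h1))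
      fun t ht => hr t (Icc_subset_Icc hx.1 hx'.2 ht)
  · rw [abs_of_nonneg (sub_nonneg.mpr h), abs_sub_comm]
    exact C5_tent h (fun z h1 => hW z (Icc_subset_Icc hx'.1 hx.2 h1))
      fun t ht => hr t (Icc_subset_Icc hx'.1 hx.2 ht)

end Pool.Agent.Work.MP_042f46_an.Fu
end
end

-- merged part: Pool.Agent.Work.MP_042f46_an.F.C6
section
/-!
# Doubling in an annulus

Plans.  `ann_mod`: `f z = (G z - p₀) / (z - p)` has values in the slit plane (positive on the axis; a quotient of two numbers of the upper, or of the lower, half plane is not a nonpositive real).  `slit` for `ζ ↦ f (p + exp ζ)` on the ball of radius `2 π < 7` about `log ‖z - p‖`; compare with the real point `y = p - ε ‖z - p‖`, where `g y` lies between `y` and `p₀`, so `‖f y‖ ≤ 2`.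
`ann_loc`: `s = ‖x - p‖`.  By symmetry `0 ≤ im x` (`Mx` is invariant under conjugation).  If `s / 32 ≤ im x`, `DL` with `r = s / 64`.  Otherwise `DL` at `c = re x` with `r = s / 5`, and `Mx_off` with `t = s / 80`, `k = 3`.
`ann_dbl`: `N ζ = Mx u (p + exp ζ) (exp (re ζ) / 128)`; for `‖ζ - ζ'‖ ≤ 1 / 512`, `N ζ ≤ C N ζ'` (`Mx_mono`, `ann_loc`); cut the segment from `ζ` to `ζ'` into `20 · 512` parts.
-/

open Set Metric Topology Filter MeasureTheory
open scoped ENNReal NNReal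

noncomputable section
namespace Pool.Agent.Work.MP_042f46_an.Fu

open Pool.Agent.Work.MP_042f46_an.Ty

/-- a branch over an annulus that moves both walls in the direction `ε` -/
structure Ann (n : ℕ) (p p₀ a b ε : ℝ) (G : ℂ → ℂ) (g : ℝ → ℝ) : Prop where
  br : Br n (ann p a b) G g
  pos : 0 < a
  near : |p₀ - p| ≤ a
  hε : ε = 1 ∨ ε = -1
  sgn : ∀ y, a < |y - p| → |y - p| < b → 0 < ε * (g y - y) ∧ 0 < (g y - p₀) * (y - p)

variable {n : ℕ} {p p₀ a b ε : ℝ} {G : ℂ → ℂ} {g : ℝ → ℝ}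

theorem C6_conj {z : ℂ} (hz : z ∈ ann p a b) : starRingEnd ℂ z ∈ ann p a b := by
  have e : ‖starRingEnd ℂ z - p‖ = ‖z - p‖ := by
    rw [← Complex.norm_conj (z - p), map_sub, Complex.conj_ofReal]
  unfold ann at hz ⊢
  simp only [mem_ofPred_eq] at hz ⊢
  rwa [e]

theorem C6_quot {A B : ℂ} (h : 0 < A.im * B.im) : A / B ∈ Complex.slitPlane := by
  have hB : B ≠ 0 := by
    rintro rfl
    simp at h
  by_contra hn
  rw [Complex.mem_slitPlane_iff, not_or, not_lt, not_not] at hn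
  have e : A = A / B * B := (div_mul_cancel₀ A hB).symm
  have e2 : A.im = (A / B).re * B.im := by
    have := congrArg Complex.im e
    rw [Complex.mul_im, hn.2] at this
    linarith
  rw [e2, mul_assoc] at h
  exact absurd h (not_lt.2 (mul_nonpos_of_nonpos_of_nonneg hn.1 (mul_self_nonneg _)))

theorem C6_slit (h : Ann n p p₀ a b ε G g) {z : ℂ} (hz : z ∈ ann p a b) :
    (G z - p₀) / (z - p) ∈ Complex.slitPlane := by
  rcases lt_trichotomy z.im 0 with hi | hi | hi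
  · refine C6_quot ?_
    have h1 := h.br.up _ (C6_conj hz) (by rw [Complex.conj_im]; linarith)
    rw [h.br.symm z hz, Complex.conj_im] at h1
    simp only [Complex.sub_im, Complex.ofReal_im, sub_zero]
    exact mul_pos_of_neg_of_neg (by linarith) hi
  · obtain ⟨x, rfl⟩ : ∃ x : ℝ, z = x := ⟨z.re, Complex.ext (by simp) (by simp [hi])⟩
    have e : ‖(x : ℂ) - p‖ = |x - p| := by
      rw [← Complex.ofReal_sub, Complex.norm_real, Real.norm_eq_abs]
    have h1 := (h.sgn x (e ▸ hz.1) (e ▸ hz.2)).2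
    rw [h.br.real x hz, ← Complex.ofReal_sub, ← Complex.ofReal_sub, ← Complex.ofReal_div,
      Complex.ofReal_mem_slitPlane]
    exact div_pos_iff.2 (mul_pos_iff.1 h1)
  · refine C6_quot ?_
    simp only [Complex.sub_im, Complex.ofReal_im, sub_zero]
    exact mul_pos (h.br.up z hz hi) hi

theorem C6_circ (h : Ann n p p₀ a b ε G g) {s : ℝ} (h₁ : Real.exp 7 * a ≤ s)
    (h₂ : Real.exp 7 * s ≤ b) {z z' : ℂ} (hz : ‖z - p‖ = s) (hz' : ‖z' - p‖ = s) :
    ‖G z - p₀‖ ≤ Real.exp 8 * ‖G z' - p₀‖ := by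
  have s0 : 0 < s := lt_of_lt_of_le (mul_pos (Real.exp_pos 7) h.pos) h₁
  have mem : ∀ ζ ∈ ball ((Real.log s : ℝ) : ℂ) 7, (p : ℂ) + Complex.exp ζ ∈ ann p a b := by
    intro ζ hζ
    have h1 := (Complex.abs_re_le_norm (ζ - (Real.log s : ℝ))).trans_lt (mem_ball_iff_norm.1 hζ)
    rw [Complex.sub_re, Complex.ofReal_re, abs_lt] at h1
    have e : ‖(p : ℂ) + Complex.exp ζ - p‖ = Real.exp ζ.re := by
      rw [add_sub_cancel_left, Complex.norm_exp]
    have e1 : s < Real.exp 7 * Real.exp ζ.re := by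
      rw [← Real.exp_add, ← Real.log_lt_iff_lt_exp s0]
      linarith [h1.1]
    have e2 : Real.exp ζ.re < Real.exp 7 * s := by
      rw [← Real.exp_log s0, ← Real.exp_add, Real.exp_lt_exp]
      linarith [h1.2]
    refine ⟨?_, ?_⟩
    · rw [e]
      exact lt_of_mul_lt_mul_left (h₁.trans_lt e1) (Real.exp_pos 7).le
    · rw [e]
      exact e2.trans_le h₂
  have dif : DifferentiableOn ℂ (fun ζ => (G (p + Complex.exp ζ) - p₀) / (p + Complex.exp ζ - p))
      (ball ((Real.log s : ℝ) : ℂ) 7) := by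
    have d1 : Differentiable ℂ fun ζ => (p : ℂ) + Complex.exp ζ := by fun_prop
    refine ((h.br.diff.comp d1.differentiableOn mem).sub_const _).div
      (d1.differentiableOn.sub_const _) fun ζ _ => ?_
    rw [add_sub_cancel_left]
    exact Complex.exp_ne_zero ζ
  have lg : ∀ w : ℂ, ‖w - p‖ = s → Complex.log (w - p) ∈ closedBall ((Real.log s : ℝ) : ℂ) (7 / 2) ∧
      (p : ℂ) + Complex.exp (Complex.log (w - p)) = w := by
    intro w hw
    have w0 : w - p ≠ 0 := norm_pos_iff.1 (hw ▸ s0)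
    refine ⟨?_, by rw [Complex.exp_log w0]; ring⟩
    rw [mem_closedBall_iff_norm, Complex.log, hw, add_sub_cancel_left, norm_mul, Complex.norm_I,
      mul_one, Complex.norm_real, Real.norm_eq_abs]
    linarith [Complex.abs_arg_le_pi (w - p), Real.pi_lt_d2]
  have key := slit dif (fun ζ hζ => C6_slit h (mem ζ hζ)) (by norm_num) (lg z hz).1 (lg z' hz').1
  rw [(lg z hz).2, (lg z' hz').2, norm_div, norm_div, hz, hz', ← mul_div_assoc] at key
  exact (div_le_div_iff_of_pos_right s0).1 key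

theorem ann_mod (h : Ann n p p₀ a b ε G g) {z : ℂ} (h₁ : Real.exp 7 * a ≤ ‖z - p‖)
    (h₂ : Real.exp 7 * ‖z - p‖ ≤ b) : ‖G z - z‖ ≤ (2 * Real.exp 8 + 2) * ‖z - p‖ := by
  set s := ‖z - p‖ with hs
  have a0 := h.pos
  have e7 : 2 ≤ Real.exp 7 := by linarith [Real.add_one_le_exp (7 : ℝ)]
  have as : 2 * a ≤ s := (mul_le_mul_of_nonneg_right e7 a0.le).trans h₁
  have s0 : 0 < s := by linarith
  have sb : 2 * s ≤ b := (mul_le_mul_of_nonneg_right e7 s0.le).trans h₂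
  have hy : |p - ε * s - p| = s := by
    rcases h.hε with e | e <;> rw [e]
    · rw [show p - 1 * s - p = -s by ring, abs_neg, abs_of_pos s0]
    · rw [show p - -1 * s - p = s by ring, abs_of_pos s0]
  have hy' : ‖((p - ε * s : ℝ) : ℂ) - p‖ = s := by
    rw [← Complex.ofReal_sub, Complex.norm_real, Real.norm_eq_abs, hy]
  have hm : ((p - ε * s : ℝ) : ℂ) ∈ ann p a b := ⟨by rw [hy']; linarith, by rw [hy']; linarith⟩
  have k1 := C6_circ h h₁ h₂ hs.symm hy'
  obtain ⟨g1, g2⟩ := h.sgn (p - ε * s) (by rw [hy]; linarith) (by rw [hy]; linarith)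
  have hn := abs_le.1 h.near
  have k2 : |g (p - ε * s) - p₀| ≤ 2 * s := by
    generalize g (p - ε * s) = t at g1 g2
    rcases h.hε with e | e <;> rw [e] at g1 g2
    · have : t - p₀ < 0 := by
        by_contra hc
        nlinarith [mul_nonneg (not_lt.1 hc) s0.le]
      rw [abs_le]
      constructor <;> linarith [hn.1, hn.2]
    · have : 0 < t - p₀ := by
        by_contra hc
        nlinarith [mul_nonneg (neg_nonneg.2 (not_lt.1 hc)) s0.le]
      rw [abs_le]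
      constructor <;> linarith [hn.1, hn.2]
  rw [h.br.real _ hm, ← Complex.ofReal_sub, Complex.norm_real, Real.norm_eq_abs] at k1
  have k3 : ‖(p₀ : ℂ) - p‖ ≤ a := by
    rw [← Complex.ofReal_sub, Complex.norm_real, Real.norm_eq_abs]
    exact h.near
  have k4 : ‖G z - z‖ ≤ ‖G z - p₀‖ + ‖(p₀ : ℂ) - p‖ + s := by
    rw [show G z - z = G z - p₀ + (p₀ - p) - (z - p) by ring]
    exact (norm_sub_le _ _).trans (by linarith [norm_add_le (G z - p₀) ((p₀ : ℂ) - p)])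
  linarith [mul_le_mul_of_nonneg_left k2 (Real.exp_pos 8).le]

theorem C6_near (h : Ann n p p₀ a b ε G g) {x w : ℂ} (h₁ : Real.exp 8 * a ≤ ‖x - p‖)
    (h₂ : Real.exp 8 * ‖x - p‖ ≤ b) (hw : ‖w - x‖ ≤ ‖x - p‖ / 2) :
    w ∈ ann p a b ∧ ‖G w - w‖ ≤ (2 * Real.exp 8 + 2) * (3 / 2 * ‖x - p‖) := by
  have a0 := h.pos
  have e1 : 2 ≤ Real.exp 1 := by linarith [Real.add_one_le_exp (1 : ℝ)]
  have e7 : 2 ≤ Real.exp 7 := by linarith [Real.add_one_le_exp (7 : ℝ)]
  have e8 : 2 * Real.exp 7 ≤ Real.exp 8 := by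
    rw [show (8 : ℝ) = 1 + 7 by norm_num, Real.exp_add]
    exact mul_le_mul_of_nonneg_right e1 (Real.exp_pos 7).le
  have s0 := norm_nonneg (x - p)
  have n1 : ‖w - p‖ ≤ 3 / 2 * ‖x - p‖ := by
    have := norm_add_le (w - x) (x - p)
    rw [sub_add_sub_cancel] at this
    linarith
  have n2 : ‖x - p‖ / 2 ≤ ‖w - p‖ := by
    have := norm_sub_le (w - p) (w - x)
    rw [sub_sub_sub_cancel_left] at this
    linarith
  have k1 : Real.exp 7 * a ≤ ‖w - p‖ := by linarith [mul_le_mul_of_nonneg_right e8 a0.le]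
  have k2 : Real.exp 7 * ‖w - p‖ ≤ b := by
    linarith [mul_le_mul_of_nonneg_right e8 s0, mul_le_mul_of_nonneg_left n1 (Real.exp_pos 7).le,
      mul_nonneg (Real.exp_pos 7).le s0]
  have k3 : 2 * a ≤ ‖w - p‖ := (mul_le_mul_of_nonneg_right e7 a0.le).trans k1
  have k4 : 2 * ‖w - p‖ ≤ b := (mul_le_mul_of_nonneg_right e7 (norm_nonneg _)).trans k2
  exact ⟨⟨by linarith, by linarith⟩, (ann_mod h k1 k2).trans
    (mul_le_mul_of_nonneg_left n1 (by positivity))⟩

theorem C6_cont (h : Ann n p p₀ a b ε G g) {S : Set ℂ} (hS : S ⊆ ann p a b) :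
    DifferentiableOn ℂ (fun w => G w - w) S :=
  (h.br.diff.mono hS).sub differentiableOn_id

theorem C6_Mx_conj (h : Ann n p p₀ a b ε G g) {x : ℂ} {r : ℝ} (hS : closedBall x r ⊆ ann p a b) :
    Mx (fun w => G w - w) (starRingEnd ℂ x) r = Mx (fun w => G w - w) x r := by
  unfold Mx
  congr 1
  have k : ∀ w ∈ ann p a b, ‖G (starRingEnd ℂ w) - starRingEnd ℂ w‖ = ‖G w - w‖ := fun w hw => by
    rw [h.br.symm w hw, ← map_sub, Complex.norm_conj]
  ext t
  constructor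
  · rintro ⟨w, hw, rfl⟩
    have hw' : starRingEnd ℂ w ∈ closedBall x r := by
      rw [mem_closedBall_iff_norm] at hw ⊢
      rw [← Complex.norm_conj, map_sub, Complex.conj_conj]
      exact hw
    refine ⟨_, hw', ?_⟩
    have := k _ (hS hw')
    rw [Complex.conj_conj] at this
    exact this.symm
  · rintro ⟨w, hw, rfl⟩
    refine ⟨starRingEnd ℂ w, ?_, k w (hS hw)⟩
    rw [mem_closedBall_iff_norm] at hw ⊢
    rw [← map_sub, Complex.norm_conj]
    exact hw

theorem ann_loc (n : ℕ) : ∃ C : ℝ, 1 ≤ C ∧ ∀ (p p₀ a b ε : ℝ) (G : ℂ → ℂ) (g : ℝ → ℝ),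
    Ann n p p₀ a b ε G g → ∀ x : ℂ, Real.exp 8 * a ≤ ‖x - p‖ → Real.exp 8 * ‖x - p‖ ≤ b →
      Mx (fun w => G w - w) x (‖x - p‖ / 64) ≤ C * Mx (fun w => G w - w) x (‖x - p‖ / 128) := by
  obtain ⟨C, C1, hC⟩ := DL n (96 * (2 * Real.exp 8 + 2))
  have e8 := Real.exp_pos 8
  have main : ∀ (p p₀ a b ε : ℝ) (G : ℂ → ℂ) (g : ℝ → ℝ),
      Ann n p p₀ a b ε G g → ∀ x : ℂ, 0 ≤ x.im → Real.exp 8 * a ≤ ‖x - p‖ →
      Real.exp 8 * ‖x - p‖ ≤ b → Mx (fun w => G w - w) x (‖x - p‖ / 64) ≤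
        C ^ 4 * Mx (fun w => G w - w) x (‖x - p‖ / 128) := by
    intro p p₀ a b ε G g h x hx h₁ h₂
    have nr := fun w hw => C6_near h (x := x) (w := w) h₁ h₂ hw
    have im1 : x.im ≤ ‖x - p‖ := by
      have := Complex.im_le_norm (x - p)
      rwa [Complex.sub_im, Complex.ofReal_im, sub_zero] at this
    have s0 : 0 < ‖x - p‖ := (mul_pos e8 h.pos).trans_le h₁
    generalize ‖x - p‖ = s at *
    have es := mul_pos e8 s0
    have c128 : ContinuousOn (fun w => G w - w) (closedBall x (s / 128)) :=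
      (C6_cont h fun w hw => (nr w (by linarith [mem_closedBall_iff_norm.1 hw])).1).continuousOn
    have M0 : 0 ≤ Mx (fun w => G w - w) x (s / 128) :=
      (norm_nonneg _).trans (le_Mx c128 (mem_closedBall_self (by positivity)))
    rcases le_or_gt (s / 32) x.im with hi | hi
    · have nb : ∀ w ∈ ball x (2 * (s / 64)), ‖w - x‖ ≤ s / 2 := fun w hw => by
        linarith [mem_ball_iff_norm.1 hw]
      have k1 := hC _ G x (s / 64) (by positivity) h.br.loc
        (h.br.diff.mono fun w hw => (nr w (nb w hw)).1) (fun w hw hi => ⟨(nr w (nb w hw)).1, hi⟩)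
        (fun w hw => (nr w (nb w hw)).2.trans (by linarith)) (by linarith) (Or.inl (by linarith))
      have k2 := Mx_mono (x := x) (r := s / 64 / 16) c128 (by positivity) (by
        rw [sub_self, norm_zero]; linarith)
      have k3 : C ≤ C ^ 4 := le_self_pow₀ C1 (by norm_num)
      exact k1.trans ((mul_le_mul_of_nonneg_left k2 (by linarith)).trans
        (mul_le_mul_of_nonneg_right k3 M0))
    · have xc : ‖x - (x.re : ℂ)‖ = x.im := by
        rw [show x - (x.re : ℂ) = x.im * Complex.I by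
          rw [sub_eq_iff_eq_add', Complex.re_add_im], norm_mul, Complex.norm_I, mul_one,
          Complex.norm_real, Real.norm_eq_abs, abs_of_nonneg hx]
      have nb : ∀ w ∈ ball (x.re : ℂ) (2 * (s / 5)), ‖w - x‖ ≤ s / 2 := fun w hw => by
        have := norm_sub_le (w - x.re) (x - x.re)
        rw [sub_sub_sub_cancel_right] at this
        linarith [mem_ball_iff_norm.1 hw]
      have k1 := hC _ G x.re (s / 5) (by positivity) h.br.loc
        (h.br.diff.mono fun w hw => (nr w (nb w hw)).1) (fun w hw hi => ⟨(nr w (nb w hw)).1, hi⟩)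
        (fun w hw => (nr w (nb w hw)).2.trans (by linarith))
        (by rw [Complex.ofReal_im]; positivity)
        (Or.inr ⟨Complex.ofReal_im _, fun w hw => h.br.symm w (nr w (nb w hw)).1⟩)
      have dif := C6_cont h fun w hw => (nr w (nb w hw)).1
      have k2 := Mx_off (t := s / 80) (x := x) dif (by positivity) (by linarith) C1
        (by rw [show 16 * (s / 80) = s / 5 by ring, show s / 80 = s / 5 / 16 by ring]; exact k1)
        (by linarith) 3
      have k3 := Mx_mono (x := x) (r := s / 64) (R := 16 * (s / 80))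
        (dif.continuousOn.mono (closedBall_subset_ball (by linarith))) (by positivity)
        (by linarith)
      have k4 := Mx_mono (x := x) (r := 4 * (s / 80) / 2 ^ 3) c128 (by positivity) (by
        rw [sub_self, norm_zero]; linarith)
      exact k3.trans (k2.trans (mul_le_mul_of_nonneg_left k4 (by positivity)))
  refine ⟨C ^ 4, one_le_pow₀ C1, fun p p₀ a b ε G g h x h₁ h₂ => ?_⟩
  rcases le_or_gt 0 x.im with hx | hx
  · exact main p p₀ a b ε G g h x hx h₁ h₂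
  · have e : ‖starRingEnd ℂ x - p‖ = ‖x - p‖ := by
      rw [← Complex.norm_conj (x - p), map_sub, Complex.conj_ofReal]
    have k := main p p₀ a b ε G g h (starRingEnd ℂ x) (by rw [Complex.conj_im]; linarith)
      (by rwa [e]) (by rwa [e])
    have s0 := norm_nonneg (x - p)
    rwa [e, C6_Mx_conj h fun w hw => (C6_near h h₁ h₂
        (by linarith [mem_closedBall_iff_norm.1 hw])).1,
      C6_Mx_conj h fun w hw => (C6_near h h₁ h₂
        (by linarith [mem_closedBall_iff_norm.1 hw])).1] at k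

theorem C6_strip (h : Ann n p p₀ a b ε G g) {ζ : ℂ} (h₁ : Real.log a + 8 ≤ ζ.re)
    (h₂ : Real.exp (ζ.re + 8) ≤ b) : ‖(p : ℂ) + Complex.exp ζ - p‖ = Real.exp ζ.re ∧
      Real.exp 8 * a ≤ Real.exp ζ.re ∧ Real.exp 8 * Real.exp ζ.re ≤ b := by
  refine ⟨by rw [add_sub_cancel_left, Complex.norm_exp], ?_, ?_⟩
  · rw [← Real.exp_log h.pos, ← Real.exp_add, Real.exp_le_exp]
    linarith
  · rwa [← Real.exp_add, add_comm]

theorem C6_ball (h : Ann n p p₀ a b ε G g) {ζ : ℂ} (h₁ : Real.log a + 8 ≤ ζ.re)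
    (h₂ : Real.exp (ζ.re + 8) ≤ b) {r : ℝ} (hr : r ≤ Real.exp ζ.re / 2) :
    ContinuousOn (fun w => G w - w) (closedBall (p + Complex.exp ζ) r) := by
  obtain ⟨e, k1, k2⟩ := C6_strip h h₁ h₂
  exact (C6_cont h fun w hw => (C6_near h (by rwa [e]) (by rwa [e])
    (by rw [e]; linarith [mem_closedBall_iff_norm.1 hw])).1).continuousOn

theorem ann_dbl (n : ℕ) : ∃ C : ℝ, 1 ≤ C ∧ ∀ (p p₀ a b ε : ℝ) (G : ℂ → ℂ) (g : ℝ → ℝ),
    Ann n p p₀ a b ε G g → ∀ ζ ζ' : ℂ, Real.log a + 8 ≤ ζ.re → Real.log a + 8 ≤ ζ'.re →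
      Real.exp (ζ.re + 8) ≤ b → Real.exp (ζ'.re + 8) ≤ b → ‖ζ - ζ'‖ ≤ 20 →
      ‖G (p + Complex.exp ζ) - (p + Complex.exp ζ)‖ ≤
        C * Mx (fun w => G w - w) (p + Complex.exp ζ') (Real.exp ζ'.re / 128) := by
  obtain ⟨C, C1, hC⟩ := ann_loc n
  have one : ∀ (p p₀ a b ε : ℝ) (G : ℂ → ℂ) (g : ℝ → ℝ), Ann n p p₀ a b ε G g → ∀ ζ ζ' : ℂ,
      Real.log a + 8 ≤ ζ'.re → Real.exp (ζ'.re + 8) ≤ b → ‖ζ - ζ'‖ ≤ 1 / 512 →
      Mx (fun w => G w - w) (p + Complex.exp ζ) (Real.exp ζ.re / 128) ≤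
        C * Mx (fun w => G w - w) (p + Complex.exp ζ') (Real.exp ζ'.re / 128) := by
    intro p p₀ a b ε G g h ζ ζ' h₁ h₂ hd
    obtain ⟨e, k1, k2⟩ := C6_strip h h₁ h₂
    have s0 := Real.exp_pos ζ'.re
    have k3 := hC p p₀ a b ε G g h (p + Complex.exp ζ') (by rwa [e]) (by rwa [e])
    rw [e] at k3
    have d1 : ‖Complex.exp ζ - Complex.exp ζ'‖ ≤ Real.exp ζ'.re / 256 := by
      rw [show Complex.exp ζ - Complex.exp ζ' = Complex.exp ζ' * (Complex.exp (ζ - ζ') - 1) by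
        rw [mul_sub, ← Complex.exp_add, add_sub_cancel, mul_one], norm_mul, Complex.norm_exp]
      have := Complex.norm_exp_sub_one_le (x := ζ - ζ') (by linarith)
      linarith [mul_le_mul_of_nonneg_left (this.trans (by linarith : 2 * ‖ζ - ζ'‖ ≤ 1 / 256)) s0.le]
    have d2 : Real.exp ζ.re ≤ Real.exp ζ'.re / 256 + Real.exp ζ'.re := by
      have := norm_add_le (Complex.exp ζ - Complex.exp ζ') (Complex.exp ζ')
      rw [sub_add_cancel, Complex.norm_exp, Complex.norm_exp] at this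
      linarith
    refine le_trans (Mx_mono (C6_ball h h₁ h₂ (by linarith)) (by positivity) ?_) k3
    rw [add_sub_add_left_eq_sub]
    linarith
  have many : ∀ (p p₀ a b ε : ℝ) (G : ℂ → ℂ) (g : ℝ → ℝ), Ann n p p₀ a b ε G g → ∀ (m : ℕ)
      (ζ ζ' : ℂ), Real.log a + 8 ≤ ζ.re → Real.log a + 8 ≤ ζ'.re → Real.exp (ζ.re + 8) ≤ b →
      Real.exp (ζ'.re + 8) ≤ b → ‖ζ - ζ'‖ ≤ m / 512 →
      Mx (fun w => G w - w) (p + Complex.exp ζ) (Real.exp ζ.re / 128) ≤
        C ^ m * Mx (fun w => G w - w) (p + Complex.exp ζ') (Real.exp ζ'.re / 128) := by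
    intro p p₀ a b ε G g h m
    induction m with
    | zero =>
      intro ζ ζ' _ _ _ _ hd
      rw [Nat.cast_zero, zero_div, norm_le_zero_iff, sub_eq_zero] at hd
      rw [hd, pow_zero, one_mul]
    | succ m ih =>
      intro ζ ζ' h₁ h₁' h₂ h₂' hd
      have m0 : (0 : ℝ) ≤ m := Nat.cast_nonneg m
      obtain ⟨t, t0, ht⟩ : ∃ t : ℝ, 0 < t ∧ t * (m + 1) = 1 :=
        ⟨1 / (m + 1), by positivity, by field_simp⟩
      have t1 : t ≤ 1 := by nlinarith
      push_cast at hd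
      have b0 : 0 < b := (Real.exp_pos _).trans_le h₂
      have l2 := (Real.le_log_iff_exp_le b0).2 h₂
      have l2' := (Real.le_log_iff_exp_le b0).2 h₂'
      have re : (ζ' + t * (ζ - ζ')).re = ζ'.re + t * (ζ.re - ζ'.re) := by simp
      have n1 : ‖ζ' + t * (ζ - ζ') - ζ'‖ ≤ 1 / 512 := by
        rw [add_sub_cancel_left, norm_mul, Complex.norm_real, Real.norm_eq_abs, abs_of_pos t0]
        linarith [mul_le_mul_of_nonneg_left hd t0.le]
      have n2 : ‖ζ - (ζ' + t * (ζ - ζ'))‖ ≤ m / 512 := by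
        rw [show ζ - (ζ' + t * (ζ - ζ')) = ((1 - t : ℝ) : ℂ) * (ζ - ζ') by push_cast; ring,
          norm_mul, Complex.norm_real, Real.norm_eq_abs, abs_of_nonneg (by linarith)]
        linarith [mul_le_mul_of_nonneg_left hd (by linarith : 0 ≤ 1 - t)]
      have k1 := ih ζ (ζ' + t * (ζ - ζ')) h₁ (by rw [re]; nlinarith) h₂
        ((Real.le_log_iff_exp_le b0).1 (by rw [re]; nlinarith)) n2
      have k2 := one p p₀ a b ε G g h (ζ' + t * (ζ - ζ')) ζ' h₁' h₂' n1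
      rw [pow_succ, mul_assoc]
      exact k1.trans (mul_le_mul_of_nonneg_left k2 (by positivity))
  obtain ⟨m, hm⟩ : ∃ m : ℕ, (20 : ℝ) ≤ m / 512 := ⟨10240, by norm_num⟩
  refine ⟨C ^ m, one_le_pow₀ C1, fun p p₀ a b ε G g h ζ ζ' h₁ h₁' h₂ h₂' hd => ?_⟩
  have s0 := Real.exp_pos ζ.re
  exact (le_Mx (C6_ball h h₁ h₂ (by linarith)) (mem_closedBall_self (by positivity))).trans
    (many p p₀ a b ε G g h m ζ ζ' h₁ h₁' h₂ h₂' (hd.trans hm))

end Pool.Agent.Work.MP_042f46_an.Fu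
end
end

-- merged part: Pool.Agent.Work.MP_042f46_an.F.C7
section
/-!
# Regular scales of an annulus

Plan.  `u = G - id`, `W ζ = u (p + exp ζ)`, `x i = i log 2`.  If `b < exp 100 a` put all indices (at most `150`) into `Exc`.  Otherwise let `z₂`, `z₃` be points where `Mx u (p + s) (s / 128)` is attained for `s = exp 20 a` and `s = exp (-20) b` (the value is positive because `u ≠ 0` on the axis); `ann_dbl` and `ZC` show that the set `Z` of zeros with `exp 22 a ≤ ‖ζ - p‖ ≤ exp (-22) b` has at most `16 C` points (every finite subset has).  `Reg`: the indices with `log a + 40 ≤ x i ≤ log b - 40` and `|x i - log ‖ζ - p‖| ≥ 16` for all `ζ ∈ Z`; `Exc` the other indices with `a ≤ 2 ^ i ≤ b`.  For real `x` with these properties `W` has no zero in `ball x 16`, is bounded there by `M = C N x` (`ann_dbl`), and `N x = ‖W ζ‖` for some `ζ` within `1 / 64` of `x` (`Complex.log`); `nz` gives `M / (2 C) ^ 55 ≤ ‖W‖ ≤ M` on `closedBall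 x 8`, which contains the logarithms of all real points in `Flat` (`y - p = exp t` or `exp (t + π I)`, `|t - x| ≤ log 4`).  Two regular indices with the same number of zeros of smaller modulus have only such `x` between them: `tent` for `W ζ exp (-ζ)`; so in each of the at most `16 C + 1` groups the indices with value in `[v, v + V]` have `|x i - x i'| ≤ V + 2 c`.
-/

open Set Metric Topology Filter MeasureTheory
open scoped ENNReal NNReal

noncomputable section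
namespace Pool.Agent.Work.MP_042f46_an.Fu

open Pool.Agent.Work.MP_042f46_an.Ty

/-- the displacement in the logarithmic coordinate -/
def C7W (G : ℂ → ℂ) (p : ℝ) (ζ : ℂ) : ℂ := G (p + Complex.exp ζ) - (p + Complex.exp ζ)

/-- its local maximum -/
def C7N (G : ℂ → ℂ) (p x : ℝ) : ℝ :=
  Mx (fun w => G w - w) (p + Complex.exp x) (Real.exp x / 128)

/-- doubling -/
def C7D (C : ℝ) (G : ℂ → ℂ) (p a b : ℝ) : Prop :=
  ∀ (ζ : ℂ) (x : ℝ), Real.log a + 8 ≤ ζ.re → ζ.re + 8 ≤ Real.log b → Real.log a + 8 ≤ x →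
    x + 8 ≤ Real.log b → ‖ζ - x‖ ≤ 20 → ‖C7W G p ζ‖ ≤ C * C7N G p x

/-- far from the walls and from the zeros -/
def C7G (a b : ℝ) (T : Finset ℝ) (x : ℝ) : Prop :=
  Real.log a + 40 ≤ x ∧ x + 40 ≤ Real.log b ∧ ∀ t ∈ T, 16 ≤ |x - t|

section

variable {n : ℕ} {p p₀ a b ε C : ℝ} {G : ℂ → ℂ} {g : ℝ → ℝ}

theorem C7_norm (p : ℝ) (ζ : ℂ) : ‖(p : ℂ) + Complex.exp ζ - p‖ = Real.exp ζ.re := by
  rw [add_sub_cancel_left, Complex.norm_exp]

theorem C7_re {ζ : ℂ} {x r : ℝ} (h : ‖ζ - x‖ ≤ r) : x - r ≤ ζ.re ∧ ζ.re ≤ x + r := by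
  have := abs_le.1 ((Complex.abs_re_le_norm _).trans h)
  simp only [Complex.sub_re, Complex.ofReal_re] at this
  constructor <;> linarith [this.1, this.2]

theorem C7_mem (ha : 0 < a) (hb : 0 < b) {w : ℂ} {t : ℝ} (hw : ‖w - p‖ = Real.exp t)
    (h1 : Real.log a < t) (h2 : t < Real.log b) : w ∈ ann p a b :=
  ⟨hw ▸ (Real.log_lt_iff_lt_exp ha).1 h1, hw ▸ (Real.lt_log_iff_exp_lt hb).1 h2⟩

theorem C7_log {w : ℂ} {t : ℝ} (hw : ‖w - p‖ = Real.exp t) (x : ℝ) :
    ∃ ζ : ℂ, p + Complex.exp ζ = w ∧ ζ.re = t ∧ ‖ζ - x‖ ≤ |t - x| + 4 := by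
  have h0 : w - p ≠ 0 := by
    rw [← norm_pos_iff, hw]
    exact Real.exp_pos t
  have h1 : (Complex.log (w - p)).re = t := by rw [Complex.log_re, hw, Real.log_exp]
  refine ⟨Complex.log (w - p), by rw [Complex.exp_log h0]; ring, h1, ?_⟩
  refine (Complex.norm_le_abs_re_add_abs_im _).trans (add_le_add (le_of_eq ?_) ?_)
  · rw [Complex.sub_re, h1, Complex.ofReal_re]
  · rw [Complex.sub_im, Complex.ofReal_im, sub_zero, Complex.log_im]
    exact (Complex.abs_arg_le_pi _).trans Real.pi_le_four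

theorem C7_open (p : ℂ) (a b : ℝ) : IsOpen (ann p a b) := by
  have h : Continuous fun z : ℂ => ‖z - p‖ := by fun_prop
  exact (isOpen_lt continuous_const h).inter (isOpen_lt h continuous_const)

theorem C7_ana (h : Ann n p p₀ a b ε G g) (hb : 0 < b) {ζ : ℂ} (h1 : Real.log a < ζ.re)
    (h2 : ζ.re < Real.log b) : AnalyticAt ℂ (C7W G p) ζ := by
  have h3 : AnalyticAt ℂ G (p + Complex.exp ζ) :=
    h.br.diff.analyticAt ((C7_open _ _ _).mem_nhds (C7_mem h.pos hb (C7_norm p ζ) h1 h2))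
  have h4 : AnalyticAt ℂ (fun ζ : ℂ => (p : ℂ) + Complex.exp ζ) ζ :=
    analyticAt_const.add analyticAt_cexp
  exact (h3.comp_of_eq h4 rfl).sub h4

theorem C7_real (h : Ann n p p₀ a b ε G g) (hb : 0 < b) {y t : ℝ} (hy : |y - p| = Real.exp t)
    (h1 : Real.log a < t) (h2 : t < Real.log b) :
    G y - y = ((g y - y : ℝ) : ℂ) ∧ 0 < ε * (g y - y) := by
  have e : ‖(y : ℂ) - p‖ = |y - p| := by
    rw [← Complex.ofReal_sub, Complex.norm_real, Real.norm_eq_abs]
  have m := C7_mem h.pos hb (e.trans hy) h1 h2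
  exact ⟨by rw [h.br.real y m, Complex.ofReal_sub], (h.sgn y (e ▸ m.1) (e ▸ m.2)).1⟩

theorem C7_pos (h : Ann n p p₀ a b ε G g) (hb : 0 < b) {x : ℝ} (h1 : Real.log a < x)
    (h2 : x < Real.log b) : C7W G p x = ((g (p + Real.exp x) - (p + Real.exp x) : ℝ) : ℂ) ∧
      0 < ε * (g (p + Real.exp x) - (p + Real.exp x)) := by
  have h4 := C7_real h hb (y := p + Real.exp x) (t := x)
    (by rw [add_sub_cancel_left, abs_of_pos (Real.exp_pos x)]) h1 h2
  refine ⟨?_, h4.2⟩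
  rw [← h4.1, C7W, Complex.ofReal_add, Complex.ofReal_exp]

theorem C7_neg (h : Ann n p p₀ a b ε G g) (hb : 0 < b) {x : ℝ} (h1 : Real.log a < x)
    (h2 : x < Real.log b) :
    C7W G p (x + Real.pi * Complex.I) = ((g (p - Real.exp x) - (p - Real.exp x) : ℝ) : ℂ) ∧
      0 < ε * (g (p - Real.exp x) - (p - Real.exp x)) := by
  have h4 := C7_real h hb (y := p - Real.exp x) (t := x)
    (by rw [sub_sub_cancel_left, abs_neg, abs_of_pos (Real.exp_pos x)]) h1 h2
  refine ⟨?_, h4.2⟩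
  rw [← h4.1, C7W, Complex.exp_add, Complex.exp_pi_mul_I, mul_neg_one, ← sub_eq_add_neg,
    Complex.ofReal_sub, Complex.ofReal_exp]

theorem C7_att (h : Ann n p p₀ a b ε G g) (hb : 0 < b) {x : ℝ} (h1 : Real.log a + 8 ≤ x)
    (h2 : x + 8 ≤ Real.log b) :
    ∃ ζ : ℂ, ‖ζ - x‖ ≤ 1 ∧ C7N G p x = ‖C7W G p ζ‖ ∧ C7W G p ζ ≠ 0 := by
  have hx := Real.exp_pos x
  have key : ∀ z ∈ closedBall ((p : ℂ) + Complex.exp x) (Real.exp x / 128),
      ∃ ζ : ℂ, ‖ζ - x‖ ≤ 1 ∧ p + Complex.exp ζ = z := by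
    intro z hz
    have ht : ‖(z - (p + Complex.exp x)) / Complex.exp x‖ ≤ 1 / 2 := by
      rw [norm_div, Complex.norm_exp, Complex.ofReal_re, div_le_iff₀ hx]
      linarith [mem_closedBall_iff_norm.1 hz]
    have h1t : 1 + (z - (p + Complex.exp x)) / Complex.exp x ≠ 0 := by
      intro e
      rw [eq_neg_of_add_eq_zero_right e] at ht
      norm_num at ht
    refine ⟨x + Complex.log (1 + (z - (p + Complex.exp x)) / Complex.exp x), ?_, ?_⟩
    · rw [add_sub_cancel_left]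
      linarith [Complex.norm_log_one_add_half_le_self ht]
    · rw [Complex.exp_add, Complex.exp_log h1t, mul_add, mul_div_cancel₀ _ (Complex.exp_ne_zero _)]
      ring
  have hc : ContinuousOn (fun w => G w - w)
      (closedBall ((p : ℂ) + Complex.exp x) (Real.exp x / 128)) := by
    refine (h.br.diff.continuousOn.mono fun z hz => ?_).sub continuousOn_id
    obtain ⟨ζ, e1, rfl⟩ := key z hz
    have := C7_re e1
    exact C7_mem h.pos hb (C7_norm p ζ) (by linarith [this.1]) (by linarith [this.2])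
  obtain ⟨z, hz, e⟩ := Mx_att hc (by positivity)
  obtain ⟨ζ, e1, rfl⟩ := key z hz
  refine ⟨ζ, e1, e, fun e0 => ?_⟩
  have h3 : ‖C7W G p x‖ ≤ ‖C7W G p ζ‖ := (le_Mx hc (mem_closedBall_self (by positivity))).trans e.le
  have h4 := C7_pos h hb (x := x) (by linarith) (by linarith)
  rw [e0, norm_zero, norm_le_zero_iff, h4.1, Complex.ofReal_eq_zero] at h3
  have h5 := h4.2
  rw [h3, mul_zero] at h5
  exact lt_irrefl _ h5

theorem C7_256 : ∃ L : ℝ, 0 ≤ L ∧ L ≤ 8 ∧ Real.exp L = 256 := by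
  refine ⟨Real.log 256, Real.log_nonneg (by norm_num), ?_, Real.exp_log (by norm_num)⟩
  rw [show (256 : ℝ) = 2 ^ 8 by norm_num, Real.log_pow]
  have := Real.log_two_lt_d9
  push_cast
  linarith

theorem C7_zero (h : Ann n p p₀ a b ε G g) (hb : 0 < b) (hC : 1 ≤ C) (hD : C7D C G p a b) :
    ∃ T : Finset ℝ, (T.card : ℝ) ≤ 16 * C ∧ ∀ ζ : ℂ, Real.log a + 22 ≤ ζ.re →
      ζ.re + 22 ≤ Real.log b → C7W G p ζ = 0 → ζ.re ∈ T := by
  classical
  by_cases hab : Real.log a + 44 ≤ Real.log b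
  swap
  · exact ⟨∅, by rw [Finset.card_empty, Nat.cast_zero]; linarith,
      fun ζ h1 h2 _ => absurd (by linarith) hab⟩
  obtain ⟨L, L0, L8, hL⟩ := C7_256
  obtain ⟨ζ₂, a1, a2, a3⟩ := C7_att h hb (x := Real.log a + 20) (by linarith) (by linarith)
  obtain ⟨ζ₃, b1, b2, b3⟩ := C7_att h hb (x := Real.log b - 20) (by linarith) (by linarith)
  obtain ⟨a4, a5⟩ := C7_re a1
  obtain ⟨b4, b5⟩ := C7_re b1
  have a6 : ‖(p : ℂ) + Complex.exp ζ₂ - p‖ / 256 = Real.exp (ζ₂.re - L) := by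
    rw [C7_norm, Real.exp_sub, hL]
  have b6 : 256 * ‖(p : ℂ) + Complex.exp ζ₃ - p‖ = Real.exp (ζ₃.re + L) := by
    rw [C7_norm, Real.exp_add, hL, mul_comm]
  have e2 : ∀ t : ℝ, 2 * Real.exp t ≤ Real.exp (t + 1) := fun t => by
    rw [Real.exp_add, mul_comm]
    exact mul_le_mul_of_nonneg_left (by linarith [Real.add_one_le_exp 1]) (Real.exp_pos t).le
  have dw : ∀ (w : ℂ) (t x : ℝ), ‖w - p‖ = Real.exp t → x - 9 ≤ t → t ≤ x + 9 →
      Real.log a + 17 ≤ x → x + 17 ≤ Real.log b → ‖G w - w‖ ≤ C * C7N G p x := by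
    intro w t x hw c1 c2 c3 c4
    obtain ⟨ζ, rfl, rfl, c5⟩ := C7_log hw x
    have c6 : |ζ.re - x| ≤ 9 := abs_le.2 ⟨by linarith, by linarith⟩
    exact hD ζ x (by linarith) (by linarith) (by linarith) (by linarith) (by linarith)
  let Zs : Set ℂ := {w | G w - w = 0 ∧ Real.exp (Real.log a + 22) ≤ ‖w - p‖ ∧
    ‖w - p‖ ≤ Real.exp (Real.log b - 22)}
  have key : ∀ Z : Finset ℂ, (Z : Set ℂ) ⊆ Zs → (Z.card : ℝ) ≤ 16 * C := by
    intro Z hZ
    refine ZC (C7_open p a b) (u := fun w => G w - w) (h.br.diff.sub differentiableOn_id)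
      (p := p) (z₂ := p + Complex.exp ζ₂) (z₃ := p + Complex.exp ζ₃)
      (fun e => Complex.exp_ne_zero ζ₂ (add_eq_left.1 e)) (fun w c1 c2 => ⟨?_, ?_⟩) a3 b3
      (fun w c1 => ?_) (fun w c1 => ?_) ?_ hC Z fun w hw => ⟨(hZ hw).1, ?_, ?_⟩
    · exact ((Real.log_lt_iff_lt_exp h.pos).1 (by linarith)).trans_le (a6 ▸ c1)
    · exact (b6 ▸ c2).trans_lt ((Real.lt_log_iff_exp_lt hb).1 (by linarith))
    · exact (dw w _ (Real.log a + 20) (c1.trans a6) (by linarith) (by linarith) (by linarith)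
        (by linarith)).trans (le_of_eq (congrArg _ a2))
    · exact (dw w _ (Real.log b - 20) (c1.trans b6) (by linarith) (by linarith) (by linarith)
        (by linarith)).trans (le_of_eq (congrArg _ b2))
    · rw [C7_norm, C7_norm]
      exact Real.exp_le_exp.2 (by linarith)
    · rw [C7_norm]
      exact ((e2 _).trans (Real.exp_le_exp.2 (by linarith))).trans (hZ hw).2.1
    · rw [C7_norm]
      exact ((mul_le_mul_of_nonneg_left (hZ hw).2.2 zero_le_two).trans (e2 _)).trans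
        (Real.exp_le_exp.2 (by linarith))
  have hf : Zs.Finite := by
    by_contra hi
    obtain ⟨Z, c1, c2⟩ := Set.Infinite.exists_subset_card_eq hi (⌊16 * C⌋₊ + 1)
    have c3 := key Z c1
    rw [c2, Nat.cast_add, Nat.cast_one] at c3
    exact absurd (Nat.lt_floor_add_one _) (not_lt.2 c3)
  refine ⟨hf.toFinset.image fun w : ℂ => Real.log ‖w - p‖, ?_, fun ζ c1 c2 c3 => ?_⟩
  · exact (Nat.cast_le.2 Finset.card_image_le).trans (key _ (by simp))
  · refine Finset.mem_image.2 ⟨p + Complex.exp ζ, hf.mem_toFinset.2 ⟨c3, ?_, ?_⟩, ?_⟩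
    · rw [C7_norm]
      exact Real.exp_le_exp.2 c1
    · rw [C7_norm]
      exact Real.exp_le_exp.2 (by linarith)
    · rw [C7_norm, Real.log_exp]

theorem C7_good (h : Ann n p p₀ a b ε G g) (hb : 0 < b) (hD : C7D C G p a b) {T : Finset ℝ}
    (hT : ∀ ζ : ℂ, Real.log a + 22 ≤ ζ.re → ζ.re + 22 ≤ Real.log b → C7W G p ζ = 0 → ζ.re ∈ T)
    {x : ℝ} (hx : C7G a b T x) {ζ ζ' : ℂ} (h1 : ‖ζ - x‖ ≤ 8) (h2 : ‖ζ' - x‖ ≤ 8) :
    C7W G p ζ ≠ 0 ∧ ‖C7W G p ζ‖ ≤ (2 * C) ^ 55 * ‖C7W G p ζ'‖ := by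
  obtain ⟨x1, x2, x3⟩ := hx
  have hz : ∀ w ∈ ball (x : ℂ) 16, C7W G p w ≠ 0 := by
    intro w hw e
    have c1 := mem_ball_iff_norm.1 hw
    obtain ⟨c2, c3⟩ := C7_re c1.le
    have c4 := x3 _ (hT w (by linarith) (by linarith) e)
    have c5 := Complex.abs_re_le_norm (w - x)
    rw [Complex.sub_re, Complex.ofReal_re, abs_sub_comm] at c5
    linarith
  have hM : ∀ w ∈ ball (x : ℂ) 16, ‖C7W G p w‖ ≤ C * C7N G p x := by
    intro w hw
    have c1 := mem_ball_iff_norm.1 hw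
    obtain ⟨c2, c3⟩ := C7_re c1.le
    exact hD w x (by linarith) (by linarith) (by linarith) (by linarith) (by linarith)
  have hd : DifferentiableOn ℂ (C7W G p) (ball (x : ℂ) 16) := by
    intro w hw
    obtain ⟨c2, c3⟩ := C7_re (mem_ball_iff_norm.1 hw).le
    exact (C7_ana h hb (by linarith) (by linarith)).differentiableAt.differentiableWithinAt
  obtain ⟨w, c1, c2, -⟩ := C7_att h hb (x := x) (by linarith) (by linarith)
  have m : ζ ∈ ball (x : ℂ) 16 := mem_ball_iff_norm.2 (by linarith)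
  refine ⟨hz ζ m, (hM ζ m).trans (nz hd hz (by norm_num) hM (w := ζ') (w' := w)
    (mem_closedBall_iff_norm.2 (by linarith)) (mem_closedBall_iff_norm.2 (by linarith))
    (le_of_eq (congrArg _ c2)))⟩

theorem C7_flat (h : Ann n p p₀ a b ε G g) (hb : 0 < b) {x : ℝ} (x1 : Real.log a + 40 ≤ x)
    (x2 : x + 40 ≤ Real.log b) {y : ℝ} (h1 : Real.exp x / 2 ≤ |y - p|)
    (h2 : |y - p| ≤ 4 * Real.exp x) : ∃ ζ : ℂ, ‖ζ - x‖ ≤ 8 ∧ ‖C7W G p ζ‖ = |g y - y| := by
  have hx := Real.exp_pos x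
  have h0 : 0 < |y - p| := by linarith
  have e4 : 4 ≤ Real.exp 3 := by linarith [Real.add_one_le_exp 3]
  have c1 : x - 3 ≤ Real.log |y - p| := by
    rw [Real.le_log_iff_exp_le h0, Real.exp_sub, div_le_iff₀ (Real.exp_pos 3)]
    nlinarith
  have c2 : Real.log |y - p| ≤ x + 3 := by
    rw [Real.log_le_iff_le_exp h0, Real.exp_add]
    nlinarith
  have e : ‖(y : ℂ) - p‖ = Real.exp (Real.log |y - p|) := by
    rw [← Complex.ofReal_sub, Complex.norm_real, Real.norm_eq_abs, Real.exp_log h0]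
  obtain ⟨ζ, c3, -, c4⟩ := C7_log e x
  have c5 : |Real.log |y - p| - x| ≤ 3 := abs_le.2 ⟨by linarith, by linarith⟩
  refine ⟨ζ, by linarith, ?_⟩
  rw [C7W, c3, (C7_real h hb (Real.exp_log h0).symm (by linarith) (by linarith)).1,
    Complex.norm_real, Real.norm_eq_abs]

theorem C7_tent (h : Ann n p p₀ a b ε G g) (hb : 0 < b) (hC : 1 ≤ C) (hD : C7D C G p a b)
    {T : Finset ℝ}
    (hT : ∀ ζ : ℂ, Real.log a + 22 ≤ ζ.re → ζ.re + 22 ≤ Real.log b → C7W G p ζ = 0 → ζ.re ∈ T)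
    {x x' : ℝ} (hxx : x ≤ x') (hG : ∀ y ∈ Icc x x', C7G a b T y) :
    |x - x'| ≤ |Real.log (Real.exp x / |g (p + Real.exp x) - (p + Real.exp x)|) -
      Real.log (Real.exp x' / |g (p + Real.exp x') - (p + Real.exp x')|)| + 2 * (2 * C) ^ 55 := by
  have hD0 : 0 < (2 * C) ^ 55 := by positivity
  have lg : ∀ z : ℂ, C7W G p z ≠ 0 →
      Real.log ‖C7W G p z * Complex.exp (-z)‖ = Real.log ‖C7W G p z‖ - z.re := fun z hz => by
    rw [norm_mul, Complex.norm_exp, Real.log_mul (norm_ne_zero_iff.2 hz) (Real.exp_ne_zero _),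
      Real.log_exp, Complex.neg_re, sub_eq_add_neg]
  have s0 : ∀ y : ℝ, ‖(y : ℂ) - y‖ ≤ 8 := fun y => by simp
  have key := tent (W := fun ζ => C7W G p ζ * Complex.exp (-ζ)) (x₀ := x) (x₁ := x')
    (c := (2 * C) ^ 55) ?_ ?_ (left_mem_Icc.2 hxx) (right_mem_Icc.2 hxx)
  · have e : ∀ y ∈ Icc x x', Real.log (Real.exp y / |g (p + Real.exp y) - (p + Real.exp y)|) =
        - Real.log ‖C7W G p y * Complex.exp (-y)‖ := by
      intro y hy
      have c0 := hG y hy
      have c1 := (C7_good h hb hD hT c0 (s0 y) (s0 y)).1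
      have c2 := (C7_pos h hb (x := y) (by linarith [c0.1]) (by linarith [c0.2.1])).1
      rw [lg _ c1, ← Real.norm_eq_abs, ← Complex.norm_real, ← c2,
        Real.log_div (Real.exp_ne_zero _) (norm_ne_zero_iff.2 c1), Real.log_exp, Complex.ofReal_re,
        neg_sub]
    rw [e x (left_mem_Icc.2 hxx), e x' (right_mem_Icc.2 hxx), neg_sub_neg,
      abs_sub_comm (Real.log _)]
    exact key
  · intro z c1 c2
    have c0 := hG _ c1
    have c3 : ‖z - z.re‖ ≤ 8 := by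
      refine (Complex.norm_le_abs_re_add_abs_im _).trans ?_
      rw [Complex.sub_re, Complex.ofReal_re, sub_self, abs_zero, zero_add, Complex.sub_im,
        Complex.ofReal_im, sub_zero, abs_of_nonneg c2.1]
      linarith [c2.2, Real.pi_le_four]
    obtain ⟨d1, d2⟩ := C7_good h hb hD hT c0 c3 (s0 _)
    obtain ⟨d3, d4⟩ := C7_good h hb hD hT c0 (s0 _) c3
    refine ⟨(C7_ana h hb (by linarith [c0.1]) (by linarith [c0.2.1])).mul
      analyticAt_id.neg.cexp, mul_ne_zero d1 (Complex.exp_ne_zero _), ?_⟩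
    have d5 := Real.log_le_log (norm_pos_iff.2 d1) d2
    have d6 := Real.log_le_log (norm_pos_iff.2 d3) d4
    rw [Real.log_mul hD0.ne' (norm_ne_zero_iff.2 d3)] at d5
    rw [Real.log_mul hD0.ne' (norm_ne_zero_iff.2 d1)] at d6
    have d7 := Real.log_le_self hD0.le
    rw [lg _ d1, lg _ d3, Complex.ofReal_re, abs_le]
    constructor <;> linarith
  · intro y hy
    have c0 := hG y hy
    obtain ⟨d1, d2⟩ := C7_pos h hb (x := y) (by linarith [c0.1]) (by linarith [c0.2.1])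
    obtain ⟨d3, d4⟩ := C7_neg h hb (x := y) (by linarith [c0.1]) (by linarith [c0.2.1])
    have d5 : Complex.exp (-(y : ℂ)) = (Real.exp (-y) : ℝ) := by
      rw [Complex.ofReal_exp, Complex.ofReal_neg]
    have d6 : Complex.exp (-((y : ℂ) + Real.pi * Complex.I)) = (-Real.exp (-y) : ℝ) := by
      rw [Complex.exp_neg, Complex.exp_add, Complex.exp_pi_mul_I, mul_neg_one, inv_neg,
        ← Complex.exp_neg, d5, Complex.ofReal_neg]
    rw [d1, d3, d5, d6, ← Complex.ofReal_mul, ← Complex.ofReal_mul, Complex.ofReal_re,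
      Complex.ofReal_re]
    refine ⟨Complex.ofReal_im _, Complex.ofReal_im _, ?_⟩
    have d7 := mul_pos d2 d4
    have d8 := Real.exp_pos (-y)
    generalize g (p + Real.exp y) - (p + Real.exp y) = u at *
    generalize g (p - Real.exp y) - (p - Real.exp y) = v at *
    have d9 : 0 < u * v := by
      rcases h.hε with e | e <;> rw [e] at d7 <;> linarith
    have := mul_pos d9 (mul_pos d8 d8)
    linarith

end

theorem C7_card (S : Finset ℤ) {L : ℝ} (hL : 0 ≤ L)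
    (h : ∀ i ∈ S, ∀ j ∈ S, i ≤ j → j * Real.log 2 - i * Real.log 2 ≤ L) :
    (S.card : ℝ) ≤ 2 * L + 1 := by
  rcases S.eq_empty_or_nonempty with rfl | hS
  · rw [Finset.card_empty, Nat.cast_zero]
    linarith
  have h1 : S ⊆ Finset.Icc (S.min' hS) (S.min' hS + ⌊2 * L⌋₊) := by
    intro j hj
    have c1 := S.min'_le j hj
    have c2 := h _ (S.min'_mem hS) j hj c1
    have c3 : ((S.min' hS : ℤ) : ℝ) ≤ j := by exact_mod_cast c1
    have c4 := Real.log_two_gt_d9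
    have c5 : (((j - S.min' hS).toNat : ℤ) : ℝ) ≤ 2 * L := by
      rw [Int.toNat_of_nonneg (by omega)]
      push_cast
      nlinarith
    have c6 := Nat.le_floor (show (((j - S.min' hS).toNat : ℕ) : ℝ) ≤ 2 * L by exact_mod_cast c5)
    exact Finset.mem_Icc.2 ⟨c1, by omega⟩
  have h2 := Finset.card_le_card h1
  rw [Int.card_Icc] at h2
  have h3 : S.card ≤ ⌊2 * L⌋₊ + 1 := by omega
  have h4 : (S.card : ℝ) ≤ ⌊2 * L⌋₊ + 1 := by exact_mod_cast h3
  linarith [Nat.floor_le (show 0 ≤ 2 * L by linarith)]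

theorem ann_reg (n : ℕ) : ∃ A : ℕ, ∀ (p p₀ a b ε : ℝ) (G : ℂ → ℂ) (g : ℝ → ℝ),
    Ann n p p₀ a b ε G g → ∃ Exc Reg : Finset ℤ, Exc.card ≤ A ∧
      (∀ i : ℤ, a ≤ (2 : ℝ) ^ i → (2 : ℝ) ^ i ≤ b → i ∈ Exc ∨ i ∈ Reg) ∧
      (∀ i ∈ Reg, 4 * (2 : ℝ) ^ i ≤ b ∧ Flat A (fun y => |g y - y|) p ((2 : ℝ) ^ i)) ∧
      ∀ v V : ℝ, 1 ≤ V → ((Reg.filter fun i => v ≤ Real.log ((2 : ℝ) ^ i /
        |g (p + (2 : ℝ) ^ i) - (p + (2 : ℝ) ^ i)|) ∧ Real.log ((2 : ℝ) ^ i /
        |g (p + (2 : ℝ) ^ i) - (p + (2 : ℝ) ^ i)|) ≤ v + V).card : ℝ) ≤ A * V := by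
  classical
  obtain ⟨C, hC, H⟩ := ann_dbl n
  have hD0 : 0 < (2 * C) ^ 55 := by positivity
  generalize hE : (2 * C) ^ 55 = E at hD0
  obtain ⟨A, hA⟩ := exists_nat_ge (162 + 16 * C * 65 + E + (16 * C + 1) * (3 + 4 * E))
  have hA0 : 0 ≤ (16 * C + 1) * (3 + 4 * E) := by positivity
  refine ⟨A, fun p p₀ a b ε G g h => ?_⟩
  rcases le_or_gt b 0 with hb | hb
  · refine ⟨∅, ∅, by simp, fun i _ c => absurd (c.trans hb) (not_le.2 (by positivity)), by simp,
      fun v V hV => ?_⟩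
    rw [Finset.filter_empty, Finset.card_empty, Nat.cast_zero]
    positivity
  have hD : C7D C G p a b := fun ζ x c1 c2 c3 c4 c5 =>
    H p p₀ a b ε G g h ζ x c1 c3 ((Real.le_log_iff_exp_le hb).1 c2)
      ((Real.le_log_iff_exp_le hb).1 c4) c5
  obtain ⟨T, hT0, hT⟩ := C7_zero h hb hC hD
  have l2 : 0 < Real.log 2 := Real.log_pos one_lt_two
  have ex : ∀ i : ℤ, (2 : ℝ) ^ i = Real.exp (i * Real.log 2) := fun i => by
    rw [← Real.log_zpow, Real.exp_log (by positivity)]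
  let U : Finset ℤ := Finset.Icc ⌈Real.log a / Real.log 2⌉ ⌊Real.log b / Real.log 2⌋
  have hU : ∀ i : ℤ, i ∈ U ↔ Real.log a ≤ i * Real.log 2 ∧ i * Real.log 2 ≤ Real.log b := by
    intro i
    rw [Finset.mem_Icc, Int.ceil_le, Int.le_floor, div_le_iff₀ l2, le_div_iff₀ l2]
  refine ⟨U.filter fun i => ¬ C7G a b T (i * Real.log 2),
    U.filter fun i => C7G a b T (i * Real.log 2), ?_, fun i c1 c2 => ?_, fun i hi => ?_,
    fun v V hV => ?_⟩
  · have c1 : (U.filter fun i : ℤ => ¬ C7G a b T (i * Real.log 2)) ⊆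
        (U.filter fun i : ℤ => i * Real.log 2 < Real.log a + 40) ∪
        (U.filter fun i : ℤ => Real.log b < i * Real.log 2 + 40) ∪
        T.biUnion fun t => U.filter fun i : ℤ => |i * Real.log 2 - t| < 16 := by
      intro i hi
      obtain ⟨d1, d2⟩ := Finset.mem_filter.1 hi
      by_contra d3
      simp only [Finset.mem_union, Finset.mem_biUnion, Finset.mem_filter, d1, true_and, not_or,
        not_lt, not_exists, not_and] at d3
      exact d2 ⟨d3.1.1, d3.1.2, d3.2⟩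
    have c2 := C7_card (U.filter fun i : ℤ => i * Real.log 2 < Real.log a + 40) (L := 40)
      (by norm_num) fun i hi j hj _ => by
        linarith [(Finset.mem_filter.1 hj).2, ((hU i).1 (Finset.mem_filter.1 hi).1).1]
    have c3 := C7_card (U.filter fun i : ℤ => Real.log b < i * Real.log 2 + 40) (L := 40)
      (by norm_num) fun i hi j hj _ => by
        linarith [(Finset.mem_filter.1 hi).2, ((hU j).1 (Finset.mem_filter.1 hj).1).2]
    have c4 : ∀ t ∈ T, (U.filter fun i : ℤ => |i * Real.log 2 - t| < 16).card ≤ 65 := by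
      intro t _
      have d1 := C7_card (U.filter fun i : ℤ => |i * Real.log 2 - t| < 16) (L := 32)
        (by norm_num) fun i hi j hj _ => by
          linarith [(abs_lt.1 (Finset.mem_filter.1 hi).2).1, (abs_lt.1 (Finset.mem_filter.1 hj).2).2]
      have d2 : ((U.filter fun i : ℤ => |i * Real.log 2 - t| < 16).card : ℝ) ≤ (65 : ℕ) := by
        push_cast
        linarith
      exact_mod_cast d2
    have c5 := (Finset.card_le_card c1).trans ((Finset.card_union_le _ _).trans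
      (add_le_add (Finset.card_union_le _ _) (Finset.card_biUnion_le_card_mul _ _ _ c4)))
    have c6 := (Nat.cast_le (α := ℝ)).2 c5
    push_cast at c6
    refine (Nat.cast_le (α := ℝ)).1 ?_
    linarith
  · have d1 : i ∈ U := (hU i).2
      ⟨(Real.log_le_iff_le_exp h.pos).2 (ex i ▸ c1), (Real.le_log_iff_exp_le hb).2 (ex i ▸ c2)⟩
    by_cases d2 : C7G a b T (i * Real.log 2)
    · exact Or.inr (Finset.mem_filter.2 ⟨d1, d2⟩)
    · exact Or.inl (Finset.mem_filter.2 ⟨d1, d2⟩)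
  · have c0 := (Finset.mem_filter.1 hi).2
    rw [ex]
    refine ⟨?_, fun y y' c1 c2 c3 c4 => ?_⟩
    · refine le_trans ?_ ((Real.le_log_iff_exp_le hb).1 c0.2.1)
      rw [Real.exp_add, mul_comm]
      exact mul_le_mul_of_nonneg_left (by linarith [Real.add_one_le_exp 40]) (Real.exp_pos _).le
    · obtain ⟨ζ, d1, d2⟩ := C7_flat h hb c0.1 c0.2.1 c1 c2
      obtain ⟨ζ', d3, d4⟩ := C7_flat h hb c0.1 c0.2.1 c3 c4
      have d5 := (C7_good h hb hD hT c0 d1 d3).2
      rw [d2, d4, hE] at d5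
      exact d5.trans (mul_le_mul_of_nonneg_right (by linarith) (abs_nonneg _))
  · generalize hS : ((U.filter fun i : ℤ => C7G a b T (i * Real.log 2)).filter fun i : ℤ =>
      v ≤ Real.log ((2 : ℝ) ^ i / |g (p + (2 : ℝ) ^ i) - (p + (2 : ℝ) ^ i)|) ∧
        Real.log ((2 : ℝ) ^ i / |g (p + (2 : ℝ) ^ i) - (p + (2 : ℝ) ^ i)|) ≤ v + V) = S
    let k : ℤ → ℕ := fun i => (T.filter fun t => t < i * Real.log 2).card
    have c1 : ∀ m ∈ Finset.range (T.card + 1),
        ((S.filter fun i => k i = m).card : ℝ) ≤ (3 + 4 * E) * V := by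
      intro m _
      refine (C7_card _ (L := V + 2 * E) (by linarith) fun i hi j hj hij => ?_).trans (by nlinarith)
      obtain ⟨d1, d2⟩ := Finset.mem_filter.1 hi
      obtain ⟨d3, d4⟩ := Finset.mem_filter.1 hj
      rw [← hS] at d1 d3
      obtain ⟨d5, d6, d7⟩ := Finset.mem_filter.1 d1
      obtain ⟨d8, d9, d10⟩ := Finset.mem_filter.1 d3
      rw [ex] at d6 d7 d9 d10
      have gi := (Finset.mem_filter.1 d5).2
      have gj := (Finset.mem_filter.1 d8).2
      have hx : i * Real.log 2 ≤ j * Real.log 2 :=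
        mul_le_mul_of_nonneg_right (by exact_mod_cast hij) l2.le
      have e : (T.filter fun t => t < i * Real.log 2) = T.filter fun t => t < j * Real.log 2 :=
        Finset.eq_of_subset_of_card_le
          (Finset.monotone_filter_right _ fun t _ q => q.trans_le hx) (d4.trans d2.symm).le
      have key := C7_tent h hb hC hD hT hx fun y hy =>
        ⟨gi.1.trans hy.1, by linarith [gj.2.1, hy.2], fun t ht => ?_⟩
      · rw [hE] at key
        have e1 := neg_abs_le (i * Real.log 2 - j * Real.log 2)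
        refine le_trans (by linarith) (key.trans (add_le_add_left (abs_le.2 ⟨?_, ?_⟩) _)) <;>
          linarith
      · by_cases q : t < i * Real.log 2
        · have e1 := gi.2.2 t ht
          rw [abs_of_pos (by linarith)] at e1
          exact le_trans (by linarith [hy.1]) (le_abs_self _)
        · have q' : ¬ t < j * Real.log 2 := fun r => by
            have m : t ∈ T.filter fun t => t < j * Real.log 2 := Finset.mem_filter.2 ⟨ht, r⟩
            rw [← e] at m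
            exact q (Finset.mem_filter.1 m).2
          have e1 := gj.2.2 t ht
          rw [abs_of_nonpos (by linarith)] at e1
          exact le_trans (by linarith [hy.2]) (neg_le_abs _)
    rw [Finset.card_eq_sum_card_fiberwise (f := k) (t := Finset.range (T.card + 1))
      fun i _ => Finset.mem_coe.2 (Finset.mem_range.2 (Nat.lt_succ_of_le (Finset.card_filter_le _ _))),
      Nat.cast_sum]
    refine (Finset.sum_le_card_nsmul _ _ _ c1).trans ?_
    rw [Finset.card_range, nsmul_eq_mul, ← mul_assoc]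
    refine mul_le_mul_of_nonneg_right (le_trans ?_ (show (16 * C + 1) * (3 + 4 * E) ≤ A by linarith))
      (by linarith)
    push_cast
    exact mul_le_mul_of_nonneg_right (by linarith) (by linarith)

end Pool.Agent.Work.MP_042f46_an.Fu
end
end
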