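import Pool.Agent.Work.MP_042f46_an.F.R2

-- merged part: Pool.Agent.Work.MP_042f46_an.F.D2
section
/-!
# Harmonic measure

Plans.  `w = ψi z`, `‖w‖ < 1` (`ψi_U`), `η = e (bi t)`; `1 - w conj η` has positive real part.  `Th_exp`: `exp (2 I arg x) = x / conj x`.  `Th_mono`: the derivative of `s ↦ s + arg (1 - w e (-s)) / π = s + im (log (1 - w e (-s))) / π` is `re ((1 + x) / (1 - x)) > 0`, `x = w e (-s)`.  `om_hol`: `h z = bi b - bi a - I (log (1 - w e (-bi b)) - log (1 - w e (-bi a))) / π`.  Boundary values: `ψi` is continuous at `γ t` with value `e s`, `s = bi t`, and `1 - e τ = 2 sin (π τ) exp (I (π τ - π / 2))` for `0 < τ < 1`; so `Th z a → s - 1 / 2` for `a < t < a + 1`, and `Th z b = Th z (b - 1) + 1`.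
`om_lt_iff`: `ℓ = bi b - bi a`, `μ = (bi a + bi b) / 2`; `q = exp (π ℓ I) (1 - w e (-bi b)) conj (1 - w e (-bi a))` is a positive multiple of `exp (π om I)`, `re q = cos (π ℓ) (1 + ‖w‖ ^ 2) - 2 re (w e (-μ))`, `im q = sin (π ℓ) (1 - ‖w‖ ^ 2)`, and `om < κ ↔ 0 < sin (π (κ - om))` because `0 < om < 1`, `0 < κ ≤ 1`.
`H_om`: `CB_rect`, `H0_rect`, `‖e x - e y‖ = 2 |sin (π (x - y))|` (`B6_chord`), `C5_id`-type identity `‖m η - m η'‖ ‖1 - conj w η‖ ‖1 - conj w η'‖ = (1 - ‖w‖ ^ 2) ‖η - η'‖`.  `om_min`: if both `ω₁`, `ω₂` exceed `ω_a + ω_b` then `sin (π ω_a) ≤ sin (π ω₁)`, `sin (π ω_b) ≤ sin (π ω₂)`, and `sin (π (ω_a + ω₁)) sin (π (ω₁ + ω_b)) = sin (π ω₁) sin (π ω₂) + sin (π ω_a) sin (π ω_b)` when the four numbers add up to one; so `H ≤ log 2 < 1`.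
-/

open Set Metric Topology Filter MeasureTheory
open scoped ENNReal NNReal

noncomputable section
namespace Pool.Agent.Work.MP_042f46_an.Fu

open Pool.Agent.Work.MP_042f46_an.Ty

/-- the angle function of the unit disc -/
def D2_th (w : ℂ) (s : ℝ) : ℝ := s + Complex.arg (1 - w * e (-s)) / Real.pi

/-- the point of the unit circle with argument `x` -/
def D2_E (x : ℝ) : ℂ := Complex.exp (x * Complex.I)

theorem D2_E_add (x y : ℝ) : D2_E (x + y) = D2_E x * D2_E y := by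
  rw [D2_E, Complex.ofReal_add, add_mul, Complex.exp_add, D2_E, D2_E]

theorem D2_E_conj (x : ℝ) : starRingEnd ℂ (D2_E x) = D2_E (-x) := by
  rw [D2_E, D2_E, ← Complex.exp_conj]
  simp

theorem D2_E_neg (x : ℝ) : D2_E x * D2_E (-x) = 1 := by
  rw [← D2_E_add, add_neg_cancel, D2_E]
  simp

theorem D2_E_re (x : ℝ) : (D2_E x).re = Real.cos x := Complex.exp_ofReal_mul_I_re x

theorem D2_E_im (x : ℝ) : (D2_E x).im = Real.sin x := Complex.exp_ofReal_mul_I_im x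

theorem D2_e (s : ℝ) : e s = D2_E (Real.pi * s) * D2_E (Real.pi * s) := by
  rw [← D2_E_add, e, D2_E]
  congr 1
  push_cast
  ring

theorem D2_re {w : ℂ} (hw : ‖w‖ < 1) (s : ℝ) : 0 < (1 - w * e (-s)).re := by
  have h := Complex.re_le_norm (w * e (-s))
  rw [norm_mul, norm_e, mul_one] at h
  rw [Complex.sub_re, Complex.one_re]
  linarith

theorem D2_ne {w : ℂ} (hw : ‖w‖ < 1) (s : ℝ) : 1 - w * e (-s) ≠ 0 := fun h => by
  have := D2_re hw s
  rw [h, Complex.zero_re] at this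
  exact lt_irrefl _ this

theorem D2_slit {w : ℂ} (hw : ‖w‖ < 1) (s : ℝ) : 1 - w * e (-s) ∈ Complex.slitPlane :=
  Or.inl (D2_re hw s)

theorem D2_polar (w : ℂ) (s : ℝ) :
    (‖1 - w * e (-s)‖ : ℂ) * D2_E (Real.pi * D2_th w s) =
      D2_E (Real.pi * s) * (1 - w * e (-s)) := by
  have h : Real.pi * D2_th w s = Real.pi * s + Complex.arg (1 - w * e (-s)) := by
    unfold D2_th
    field_simp
  rw [h, D2_E_add, mul_left_comm]
  exact congrArg _ (Complex.norm_mul_exp_arg_mul_I _)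

theorem D2_q (w : ℂ) (s t : ℝ) :
    ((‖1 - w * e (-t)‖ * ‖1 - w * e (-s)‖ : ℝ) : ℂ) *
      D2_E (Real.pi * (D2_th w t - D2_th w s)) =
      D2_E (Real.pi * (t - s)) - w * D2_E (-(Real.pi * (s + t))) -
        starRingEnd ℂ (w * D2_E (-(Real.pi * (s + t)))) +
        ((‖w‖ ^ 2 : ℝ) : ℂ) * D2_E (-(Real.pi * (t - s))) := by
  have h1 := D2_polar w t
  have h2 := congrArg (starRingEnd ℂ) (D2_polar w s)
  have es : starRingEnd ℂ (e (-s)) = D2_E (Real.pi * s) * D2_E (Real.pi * s) := by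
    rw [D2_e, map_mul, D2_E_conj, mul_neg, neg_neg]
  have et : e (-t) = D2_E (-(Real.pi * t)) * D2_E (-(Real.pi * t)) := by
    rw [D2_e, mul_neg]
  rw [map_mul, map_mul, D2_E_conj, D2_E_conj, Complex.conj_ofReal, map_sub, map_one,
    map_mul, es] at h2
  have h4 : ((‖w‖ ^ 2 : ℝ) : ℂ) = w * starRingEnd ℂ w := by
    rw [Complex.mul_conj, Complex.normSq_eq_norm_sq]
  have h5 : D2_E (Real.pi * (t - s)) = D2_E (Real.pi * t) * D2_E (-(Real.pi * s)) := by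
    rw [← D2_E_add]
    congr 1
    ring
  have h6 : D2_E (-(Real.pi * (s + t))) = D2_E (-(Real.pi * t)) * D2_E (-(Real.pi * s)) := by
    rw [← D2_E_add]
    congr 1
    ring
  have h7 : D2_E (-(Real.pi * (t - s))) = D2_E (-(Real.pi * t)) * D2_E (Real.pi * s) := by
    rw [← D2_E_add]
    congr 1
    ring
  have h3 : D2_E (Real.pi * (D2_th w t - D2_th w s)) =
      D2_E (Real.pi * D2_th w t) * D2_E (-(Real.pi * D2_th w s)) := by
    rw [← D2_E_add]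
    congr 1
    ring
  rw [h3, Complex.ofReal_mul, mul_mul_mul_comm, h1, h2, h4, h5, h6, h7, map_mul, map_mul,
    D2_E_conj, D2_E_conj, neg_neg, neg_neg, et]
  have k1 := D2_E_neg (Real.pi * s)
  have k2 := D2_E_neg (Real.pi * t)
  generalize D2_E (Real.pi * s) = A at *
  generalize D2_E (-(Real.pi * s)) = A' at *
  generalize D2_E (Real.pi * t) = B at *
  generalize D2_E (-(Real.pi * t)) = B' at *
  generalize starRingEnd ℂ w = v at *
  linear_combination (-(B * A * v) + w * v * B * B' * B' * A) * k1 +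
    (-(w * B' * A') + w * v * B' * A) * k2

theorem D2_sin (w : ℂ) (s t : ℝ) :
    ‖1 - w * e (-t)‖ * ‖1 - w * e (-s)‖ * Real.sin (Real.pi * (D2_th w t - D2_th w s)) =
      Real.sin (Real.pi * (t - s)) * (1 - ‖w‖ ^ 2) := by
  have h := congrArg Complex.im (D2_q w s t)
  simp only [Complex.im_ofReal_mul, Complex.add_im, Complex.sub_im, Complex.conj_im, D2_E_im,
    Real.sin_neg] at h
  linarith

theorem D2_cos (w : ℂ) (s t : ℝ) :
    ‖1 - w * e (-t)‖ * ‖1 - w * e (-s)‖ * Real.cos (Real.pi * (D2_th w t - D2_th w s)) =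
      Real.cos (Real.pi * (t - s)) * (1 + ‖w‖ ^ 2) - 2 * (w * D2_E (-(Real.pi * (s + t)))).re := by
  have h := congrArg Complex.re (D2_q w s t)
  simp only [Complex.re_ofReal_mul, Complex.add_re, Complex.sub_re, Complex.conj_re, D2_E_re,
    Real.cos_neg] at h
  linarith

theorem D2_abs {w : ℂ} (hw : ‖w‖ < 1) (s : ℝ) : |D2_th w s - s| < 1 / 2 := by
  have h := Complex.abs_arg_lt_pi_div_two_iff.2 (Or.inl (D2_re hw s))
  rw [D2_th, add_sub_cancel_left, abs_div, abs_of_pos Real.pi_pos, div_lt_iff₀ Real.pi_pos]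
  linarith

theorem D2_pos {w : ℂ} (hw : ‖w‖ < 1) (s t : ℝ) :
    0 < ‖1 - w * e (-t)‖ * ‖1 - w * e (-s)‖ :=
  mul_pos (norm_pos_iff.2 (D2_ne hw t)) (norm_pos_iff.2 (D2_ne hw s))

theorem D2_sq {w : ℂ} (hw : ‖w‖ < 1) : 0 < 1 - ‖w‖ ^ 2 := by
  nlinarith [norm_nonneg w]

theorem D2_mem {w : ℂ} (hw : ‖w‖ < 1) {s t : ℝ} (h₁ : s < t) (h₂ : t < s + 1) :
    0 < D2_th w t - D2_th w s ∧ D2_th w t - D2_th w s < 1 := by
  have k1 := abs_lt.1 (D2_abs hw s)
  have k2 := abs_lt.1 (D2_abs hw t)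
  have k3 : 0 < Real.sin (Real.pi * (D2_th w t - D2_th w s)) := by
    refine pos_of_mul_pos_left (b := ‖1 - w * e (-t)‖ * ‖1 - w * e (-s)‖) ?_ (D2_pos hw s t).le
    rw [mul_comm, D2_sin]
    exact mul_pos (B6_sin (by linarith) (by linarith)) (D2_sq hw)
  generalize hy : D2_th w t - D2_th w s = y at *
  have y1 : -1 < y := by linarith
  have y2 : y < 2 := by linarith
  constructor
  · by_contra h
    have := Real.sin_nonpos_of_nonpos_of_neg_pi_le (x := Real.pi * y)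
      (by nlinarith [Real.pi_pos]) (by nlinarith [Real.pi_pos])
    linarith
  · by_contra h
    have := Real.sin_nonpos_of_nonpos_of_neg_pi_le (x := Real.pi * y - 2 * Real.pi)
      (by nlinarith [Real.pi_pos]) (by nlinarith [Real.pi_pos])
    rw [Real.sin_sub_two_pi] at this
    linarith

theorem D2_mono {w : ℂ} (hw : ‖w‖ < 1) : StrictMono (D2_th w) := by
  intro s t h
  by_cases k : t < s + 1
  · linarith [(D2_mem hw h k).1]
  · have k1 := abs_lt.1 (D2_abs hw s)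
    have k2 := abs_lt.1 (D2_abs hw t)
    linarith

theorem D2_arg {τ : ℝ} (h₀ : 0 < τ) (h₁ : τ < 1) :
    1 - e τ ∈ Complex.slitPlane ∧ Complex.arg (1 - e τ) = Real.pi * τ - Real.pi / 2 := by
  have hs := B6_sin h₀ h₁
  have h : 1 - e τ = ((2 * Real.sin (Real.pi * τ) : ℝ) : ℂ) *
      (Complex.cos ((Real.pi * τ - Real.pi / 2 : ℝ) : ℂ) +
        Complex.sin ((Real.pi * τ - Real.pi / 2 : ℝ) : ℂ) * Complex.I) := by
    rw [← Complex.ofReal_cos, ← Complex.ofReal_sin, Real.cos_sub_pi_div_two,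
      Real.sin_sub_pi_div_two, D2_e]
    apply Complex.ext
    · simp only [Complex.sub_re, Complex.one_re, Complex.mul_re, D2_E_re, D2_E_im, Complex.add_re,
        Complex.ofReal_re, Complex.ofReal_im, Complex.I_re, Complex.I_im, Complex.add_im,
        Complex.mul_im]
      nlinarith [Real.sin_sq_add_cos_sq (Real.pi * τ)]
    · simp only [Complex.sub_im, Complex.one_im, Complex.mul_re, D2_E_re, D2_E_im, Complex.add_re,
        Complex.ofReal_re, Complex.ofReal_im, Complex.I_re, Complex.I_im, Complex.add_im,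
        Complex.mul_im]
      ring
  constructor
  · left
    rw [Complex.sub_re, Complex.one_re, D2_e, Complex.mul_re, D2_E_re, D2_E_im]
    nlinarith [Real.sin_sq_add_cos_sq (Real.pi * τ)]
  · rw [h]
    exact Complex.arg_mul_cos_add_sin_mul_I (by linarith)
      ⟨by nlinarith [Real.pi_pos], by nlinarith [Real.pi_pos]⟩

theorem D2_lim {σ s : ℝ} (h₀ : σ < s) (h₁ : s < σ + 1) :
    Tendsto (fun w => D2_th w σ) (𝓝 (e s)) (𝓝 (s - 1 / 2)) := by
  obtain ⟨k1, k2⟩ := D2_arg (τ := s - σ) (by linarith) (by linarith)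
  have k3 : e (s - σ) = e s * e (-σ) := by rw [← e_add, sub_eq_add_neg]
  rw [k3] at k1 k2
  have k4 : ContinuousAt (fun w : ℂ => Complex.arg (1 - w * e (-σ))) (e s) :=
    ContinuousAt.comp (f := fun w : ℂ => 1 - w * e (-σ)) (Complex.continuousAt_arg k1)
      (by fun_prop)
  have k5 : s - 1 / 2 = σ + Complex.arg (1 - e s * e (-σ)) / Real.pi := by
    rw [k2]
    field_simp
    ring
  rw [k5]
  exact (k4.tendsto.div_const _).const_add _

theorem D2_sin_le {x y : ℝ} (h₀ : 0 ≤ x) (h₁ : x ≤ y) (h₂ : x + y ≤ 1) :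
    Real.sin (Real.pi * x) ≤ Real.sin (Real.pi * y) := by
  have hp := Real.pi_pos
  rw [← sub_nonneg, Real.sin_sub_sin]
  refine mul_nonneg (mul_nonneg zero_le_two (Real.sin_nonneg_of_nonneg_of_le_pi ?_ ?_))
    (Real.cos_nonneg_of_neg_pi_div_two_le_of_le ?_ ?_) <;> nlinarith

variable (C : Cf) {z : ℂ} {a b t : ℝ}

theorem D2_Th (z : ℂ) (t : ℝ) : C.Th z t = D2_th (C.ψi z) (C.bi t) := rfl

theorem Th_exp (hz : z ∈ C.U) (t : ℝ) : e (C.Th z t) =
    (e (C.bi t) - C.ψi z) / (1 - starRingEnd ℂ (C.ψi z) * e (C.bi t)) := by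
  have hw := C.ψi_U hz
  rw [D2_Th]
  generalize C.ψi z = w at *
  generalize C.bi t = s
  have h1 := D2_polar w s
  have hn := D2_ne hw s
  have h2 : starRingEnd ℂ (1 - w * e (-s)) = 1 - starRingEnd ℂ w * e s := by
    rw [map_sub, map_one, map_mul, D2_e (-s), map_mul, D2_E_conj, mul_neg, neg_neg, D2_e s]
  have h3 : (1 - w * e (-s)) * (1 - starRingEnd ℂ w * e s) =
      (‖1 - w * e (-s)‖ : ℂ) * (‖1 - w * e (-s)‖ : ℂ) := by
    rw [← h2, Complex.mul_conj, Complex.normSq_eq_norm_sq]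
    push_cast
    ring
  have h4 : e s * e (-s) = 1 := by
    rw [← e_add, add_neg_cancel, e]
    simp
  have h5 : 1 - starRingEnd ℂ w * e s ≠ 0 := by
    rw [← h2]
    exact (map_ne_zero _).2 hn
  rw [eq_div_iff h5]
  refine mul_left_cancel₀ hn ?_
  have h6 := D2_e s
  rw [D2_e (D2_th w s)]
  generalize D2_E (Real.pi * D2_th w s) = P at *
  generalize D2_E (Real.pi * s) = A at *
  generalize (‖1 - w * e (-s)‖ : ℂ) = n at *
  linear_combination (P * P) * h3 + (n * P + A * (1 - w * e (-s))) * h1 -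
    ((1 - w * e (-s)) * (1 - w * e (-s))) * h6 - (w * (1 - w * e (-s))) * h4

theorem Th_mono (hz : z ∈ C.U) : StrictMono (C.Th z) :=
  (D2_mono (C.ψi_U hz)).comp (bi_mono C)

theorem Th_cont (hz : z ∈ C.U) : Continuous (C.Th z) := by
  have h : Continuous fun s : ℝ => Complex.arg (1 - C.ψi z * e (-s)) :=
    continuous_iff_continuousAt.2 fun s =>
      ContinuousAt.comp (f := fun s : ℝ => 1 - C.ψi z * e (-s))
        (Complex.continuousAt_arg (D2_slit (C.ψi_U hz) s))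
        (continuous_const.sub (continuous_const.mul (continuous_e.comp continuous_neg))).continuousAt
  exact (bi_cont C).add ((h.comp (bi_cont C)).div_const _)

theorem Th_per (z : ℂ) (t : ℝ) : C.Th z (t + 1) = C.Th z t + 1 := by
  have h : e (-(C.bi t + 1)) = e (-C.bi t) := e_eq_iff.2 ⟨-1, by push_cast; ring⟩
  rw [D2_Th, D2_Th, bi_per, D2_th, D2_th, h]
  ring

theorem om_hol (a b : ℝ) :
    ∃ h : ℂ → ℂ, DifferentiableOn ℂ h C.U ∧ ∀ z ∈ C.U, (h z).re = C.om z a b := by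
  have hd : DifferentiableOn ℂ C.ψi C.U := C.ψi_diff.mono fun z hz => C.Ub_sub (C.U_sub hz)
  have hl : ∀ s : ℝ, DifferentiableOn ℂ (fun z => Complex.log (1 - C.ψi z * e (-s))) C.U :=
    fun s => ((hd.mul_const _).const_sub _).clog fun z hz => D2_slit (C.ψi_U hz) s
  refine ⟨fun z => ((C.bi b - C.bi a : ℝ) : ℂ) + ((-1 / Real.pi : ℝ) : ℂ) * (Complex.I *
    (Complex.log (1 - C.ψi z * e (-C.bi b)) - Complex.log (1 - C.ψi z * e (-C.bi a)))),
    ((((hl _).sub (hl _)).const_mul _).const_mul _).const_add _, fun z _ => ?_⟩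
  rw [Complex.add_re, Complex.ofReal_re, Complex.re_ofReal_mul, Complex.I_mul_re, Complex.sub_im,
    Complex.log_im, Complex.log_im, Cf.om, Cf.Th, Cf.Th]
  ring

theorem D2_bd (h₁ : a < t) (h₂ : t < a + 1) :
    Tendsto (fun z => C.Th z a) (𝓝[C.U] (C.γ (t : T))) (𝓝 (C.bi t - 1 / 2)) := by
  have k1 : ContinuousAt C.ψi (C.γ (t : T)) :=
    C.ψi_diff.continuousOn.continuousAt (C.isOpen_ψ.mem_nhds (C.Ub_sub (C.γ_Ub _)))
  have k2 : C.ψi (C.γ (t : T)) = e (C.bi t) := by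
    rw [γ_eq, C.ψi_ψ (norm_e _).le]
  have k3 := k1.tendsto
  rw [k2] at k3
  exact (D2_lim (bi_mono C h₁) (by rw [← bi_per]; exact bi_mono C h₂)).comp
    (k3.mono_left nhdsWithin_le_nhds)

theorem om_one (h₁ : a < t) (h₂ : t < b) (h₃ : b ≤ a + 1) :
    Tendsto (fun z => C.om z a b) (𝓝[C.U] (C.γ (t : T))) (𝓝 1) := by
  have k1 := D2_bd C h₁ (by linarith)
  have k2 := D2_bd C (a := b - 1) (t := t) (by linarith) (by linarith)
  have k3 := (k2.add_const 1).sub k1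
  rw [show C.bi t - 1 / 2 + 1 - (C.bi t - 1 / 2) = 1 by ring] at k3
  refine k3.congr fun z => ?_
  rw [← Th_per, sub_add_cancel, Cf.om]

theorem om_zero (h₁ : a ≤ b) (h₂ : b < t) (h₃ : t < a + 1) :
    Tendsto (fun z => C.om z a b) (𝓝[C.U] (C.γ (t : T))) (𝓝 0) := by
  have k3 := (D2_bd C h₂ (by linarith)).sub (D2_bd C (h₁.trans_lt h₂) h₃)
  rwa [sub_self] at k3

theorem D2_bi (h₁ : a < b) (h₂ : b < a + 1) : C.bi a < C.bi b ∧ C.bi b < C.bi a + 1 :=
  ⟨bi_mono C h₁, by rw [← bi_per]; exact bi_mono C h₂⟩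

theorem om_lt_iff (h₁ : a < b) (h₂ : b < a + 1) {κ : ℝ} (h₃ : 1 / 2 ≤ κ) (h₄ : κ ≤ 1) :
    ∃ (A B : ℝ) (β : ℂ), 0 ≤ B ∧ ∀ w : ℂ, ‖w‖ < 1 →
      (C.om (C.ψ w) a b < κ ↔ A * (1 + ‖w‖ ^ 2) - B * (1 - ‖w‖ ^ 2) < (β * w).re) := by
  obtain ⟨k1, k2⟩ := D2_bi C h₁ h₂
  have hp := Real.pi_pos
  refine ⟨-(Real.sin (Real.pi * κ) * Real.cos (Real.pi * (C.bi b - C.bi a))),
    -Real.cos (Real.pi * κ) * Real.sin (Real.pi * (C.bi b - C.bi a)),
    ((-2 * Real.sin (Real.pi * κ) : ℝ) : ℂ) * D2_E (-(Real.pi * (C.bi a + C.bi b))),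
    mul_nonneg (neg_nonneg.2 (Real.cos_nonpos_of_pi_div_two_le_of_le (by nlinarith) (by nlinarith)))
      (B6_sin (by linarith) (by linarith)).le, fun w hw => ?_⟩
  rw [Cf.om, D2_Th, D2_Th, C.ψi_ψ hw.le, mul_assoc ((-2 * Real.sin (Real.pi * κ) : ℝ) : ℂ),
    Complex.re_ofReal_mul, mul_comm _ w]
  obtain ⟨m1, m2⟩ := D2_mem hw k1 k2
  have s1 := D2_sin w (C.bi a) (C.bi b)
  have s2 := D2_cos w (C.bi a) (C.bi b)
  have s3 := D2_pos hw (C.bi a) (C.bi b)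
  generalize D2_th w (C.bi b) - D2_th w (C.bi a) = y at *
  generalize ‖1 - w * e (-C.bi b)‖ * ‖1 - w * e (-C.bi a)‖ = n at *
  have s4 : y < κ ↔ 0 < Real.sin (Real.pi * (κ - y)) := by
    refine ⟨fun h => B6_sin (by linarith) (by linarith), fun h => ?_⟩
    by_contra h'
    have := Real.sin_nonpos_of_nonpos_of_neg_pi_le (x := Real.pi * (κ - y))
      (by nlinarith) (by nlinarith)
    linarith
  have s5 : n * Real.sin (Real.pi * (κ - y)) = Real.sin (Real.pi * κ) * (n * Real.cos (Real.pi * y)) -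
      Real.cos (Real.pi * κ) * (n * Real.sin (Real.pi * y)) := by
    rw [mul_sub, Real.sin_sub]
    ring
  rw [s4, ← mul_pos_iff_of_pos_left s3, s5, s1, s2]
  constructor <;> intro h <;> linarith

theorem H_om (hz : z ∈ C.U) {t₁ t₂ t₃ t₄ : ℝ} (h₁ : t₁ < t₂) (h₂ : t₂ < t₃) (h₃ : t₃ < t₄)
    (h₄ : t₄ < t₁ + 1) : C.H.real (arc t₁ t₂ ×ˢ arc t₃ t₄) =
      Real.log (Real.sin (Real.pi * C.om z t₁ t₃) * Real.sin (Real.pi * C.om z t₂ t₄) /
        (Real.sin (Real.pi * C.om z t₂ t₃) * Real.sin (Real.pi * C.om z t₁ t₄))) := by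
  have hw := C.ψi_U hz
  have k := C.CB_rect (C.bi t₁) (C.bi t₂) (C.bi t₃) (C.bi t₄)
  rw [β_bi, β_bi, β_bi, β_bi] at k
  rw [k, H0_rect (bi_mono C h₁) (bi_mono C h₂) (bi_mono C h₃) (D2_bi C (by linarith) h₄).2]
  have q : ∀ s t : ℝ, Real.sin (Real.pi * (C.bi t - C.bi s)) =
      ‖1 - C.ψi z * e (-C.bi t)‖ * ‖1 - C.ψi z * e (-C.bi s)‖ * Real.sin (Real.pi * C.om z s t) /
        (1 - ‖C.ψi z‖ ^ 2) := fun s t => by
    rw [eq_div_iff (D2_sq hw).ne', ← D2_sin, Cf.om, D2_Th, D2_Th]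
  have n : ∀ s : ℝ, ‖1 - C.ψi z * e (-s)‖ ≠ 0 := fun s => norm_ne_zero_iff.2 (D2_ne hw s)
  have n1 := n (C.bi t₁)
  have n2 := n (C.bi t₂)
  have n3 := n (C.bi t₃)
  have n4 := n (C.bi t₄)
  have n5 := (D2_sq hw).ne'
  have p : ∀ s t : ℝ, s < t → t < s + 1 → Real.sin (Real.pi * C.om z s t) ≠ 0 := fun s t u v =>
    (B6_sin (D2_mem hw (D2_bi C u v).1 (D2_bi C u v).2).1
      (D2_mem hw (D2_bi C u v).1 (D2_bi C u v).2).2).ne'
  have p1 := p t₂ t₃ h₂ (by linarith)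
  have p2 := p t₁ t₄ (by linarith) h₄
  rw [q, q, q, q]
  congr 1
  field_simp

theorem om_min (hz : z ∈ C.U) {r p p' r' : ℝ} (h₁ : r < p) (h₂ : p ≤ p') (h₃ : p' < r')
    (h₄ : r' < r + 1) (h : p = p' ∨ 1 ≤ C.H.real (arc r p ×ˢ arc p' r')) :
    min (C.om z p p') (1 - C.om z r r') ≤ C.om z r p + C.om z p' r' := by
  have m1 : 0 < C.om z r p := sub_pos.2 (Th_mono C hz h₁)
  have m2 : 0 < C.om z p' r' := sub_pos.2 (Th_mono C hz h₃)
  rcases h₂.eq_or_lt with k | k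
  · refine (min_le_left _ _).trans ?_
    have e0 : C.om z p p' = 0 := by rw [k, Cf.om, sub_self]
    linarith [e0, m1, m2]
  replace h := h.resolve_left k.ne
  by_contra hc
  obtain ⟨c1, c2⟩ := lt_min_iff.1 (not_le.1 hc)
  have e1 : C.om z r p' = C.om z r p + C.om z p p' := by simp only [Cf.om]; ring
  have e2 : C.om z p r' = C.om z p p' + C.om z p' r' := by simp only [Cf.om]; ring
  have e3 : C.om z r r' = C.om z r p + C.om z p p' + C.om z p' r' := by simp only [Cf.om]; ring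
  rw [H_om C hz h₁ k h₃ h₄, e1, e2, e3] at h
  rw [e3] at c2
  generalize C.om z r p = x at *
  generalize C.om z p p' = u at *
  generalize C.om z p' r' = y at *
  have s1 : Real.sin (Real.pi * x) ≤ Real.sin (Real.pi * u) :=
    D2_sin_le m1.le (by linarith) (by linarith)
  have s2 : Real.sin (Real.pi * y) ≤ Real.sin (Real.pi * (x + u + y)) := by
    have := D2_sin_le (x := y) (y := 1 - (x + u + y)) m2.le (by linarith) (by linarith)
    rwa [mul_sub, mul_one, Real.sin_pi_sub] at this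
  have s3 : 0 < Real.sin (Real.pi * x) := B6_sin m1 (by linarith)
  have s4 : 0 < Real.sin (Real.pi * y) := B6_sin m2 (by linarith)
  have s5 : Real.sin (Real.pi * (x + u)) * Real.sin (Real.pi * (u + y)) =
      Real.sin (Real.pi * u) * Real.sin (Real.pi * (x + u + y)) +
        Real.sin (Real.pi * x) * Real.sin (Real.pi * y) := by
    simp only [mul_add, Real.sin_add, Real.cos_add]
    linear_combination (-(Real.sin (Real.pi * x) * Real.sin (Real.pi * y))) *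
      Real.sin_sq_add_cos_sq (Real.pi * u) + 2 * Real.sin (Real.pi * x) * Real.sin (Real.pi * y) *
      Real.sin_sq_add_cos_sq (Real.pi * u)
  have s6 : 0 < Real.sin (Real.pi * u) * Real.sin (Real.pi * (x + u + y)) :=
    mul_pos (by linarith) (by linarith)
  have s7 := mul_le_mul s1 s2 s4.le (by linarith)
  have s8 : Real.log (Real.sin (Real.pi * (x + u)) * Real.sin (Real.pi * (u + y)) /
      (Real.sin (Real.pi * u) * Real.sin (Real.pi * (x + u + y)))) ≤ Real.log 2 := by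
    refine Real.log_le_log (div_pos ?_ s6) ((div_le_iff₀ s6).2 ?_)
    · rw [s5]
      exact add_pos s6 (mul_pos s3 s4)
    · rw [s5]
      linarith
  linarith [Real.log_two_lt_d9]

end Pool.Agent.Work.MP_042f46_an.Fu
end
end

-- merged part: Pool.Agent.Work.MP_042f46_an.F.D2b
section
/-!
# Angles, multiplicity, marks

Plans.  `om_ang`: both sides lie in `(0, 1)` and have the same image under `e` (`Th_exp`; `exp (2 I arg x) = x / conj x`; with `x = ξ z`, `w = η₀ (x - I) / (x + I)`, `η = η₀ (σ - I) / (σ + I)` one gets `(η - w) / (1 - conj w η) = -η₀ (conj x - I) / (x + I) · (x - σ) / (conj x - σ)`).  `ang_small`: `arg (w - b) - arg (w - a) = arg ((w - b) / (w - a))`, `‖(w - b) / (w - a) - 1‖ ≤ 2 / (A - 1)`, and `|arg (1 + x)| ≤ π / 2 ‖x‖`-type bound (`Complex.abs_arg_le_pi_div_two_iff`, `Real.mul_abs_le_abs_sin`, `Complex.sin_arg`).  `ang_big`: `arg (w - a) ≤ π / 2 · im w / ‖w - a‖`, and the same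 for `π - arg (w - b)`.
`sum_om`: `τ = Th z`; the arcs `arc (τ (a i)) (τ (b i))` have volume `om z (a i) (b i)` and the same multiplicity (`τ` is increasing, onto, `τ (t + 1) = τ t + 1`); `mult` with the volume of `T`.  `rot_mult`: `count` for the two blocks `i < q`, `q ≤ i < 2 q`.  `exists_marks`: for `v ∈ V ∩ U` and `k < 16` a point `t` with `Th v t = k / 16`; add one point.
-/

open Set Metric Topology Filter MeasureTheory
open scoped ENNReal NNReal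

noncomputable section
namespace Pool.Agent.Work.MP_042f46_an.Fu

open Pool.Agent.Work.MP_042f46_an.Ty

/-- angle under which `w` sees the segment from `a` to `b`, divided by `π` -/
def ang (w : ℂ) (a b : ℝ) : ℝ := (Complex.arg (w - b) - Complex.arg (w - a)) / Real.pi

theorem D2b_unit (t : ℝ) : e t * starRingEnd ℂ (e t) = 1 := by
  rw [Complex.mul_conj, Complex.normSq_eq_norm_sq, norm_e]
  simp

theorem D2b_sq (t : ℝ) : e t = e (t / 2) * e (t / 2) := by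
  rw [← e_add, add_halves]

theorem D2b_half (t : ℝ) : e (t / 2) = Complex.exp ((Real.pi * t : ℝ) * Complex.I) := by
  rw [e]
  congr 1
  push_cast
  ring

theorem D2b_arg (P : ℂ) : e (Complex.arg P / Real.pi) * starRingEnd ℂ P = P := by
  have h1 := Complex.norm_mul_exp_arg_mul_I P
  have h2 := D2b_half (Complex.arg P / Real.pi)
  rw [mul_div_cancel₀ _ Real.pi_ne_zero] at h2
  rw [← h2] at h1
  have h3 := congrArg (starRingEnd ℂ) h1
  rw [map_mul, Complex.conj_ofReal] at h3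
  have h4 := D2b_unit (Complex.arg P / Real.pi / 2)
  rw [D2b_sq, ← h3]
  linear_combination h1 + (‖P‖ : ℂ) * e (Complex.arg P / Real.pi / 2) * h4

theorem D2b_tan {s : ℝ} (hs : Real.cos (Real.pi * s) ≠ 0) :
    e s * (1 - Complex.I * (Real.tan (Real.pi * s) : ℝ)) =
      1 + Complex.I * (Real.tan (Real.pi * s) : ℝ) := by
  have h1 := D2b_half s
  rw [Complex.exp_mul_I, ← Complex.ofReal_cos, ← Complex.ofReal_sin] at h1
  have h2 : ((Real.cos (Real.pi * s) : ℝ) : ℂ) ≠ 0 := Complex.ofReal_ne_zero.2 hs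
  have h3 : ((Real.sin (Real.pi * s) : ℝ) : ℂ) ^ 2 + ((Real.cos (Real.pi * s) : ℝ) : ℂ) ^ 2 = 1 := by
    exact_mod_cast Real.sin_sq_add_cos_sq (Real.pi * s)
  have h4 : ((Real.tan (Real.pi * s) : ℝ) : ℂ) * ((Real.cos (Real.pi * s) : ℝ) : ℂ) =
      ((Real.sin (Real.pi * s) : ℝ) : ℂ) := by exact_mod_cast Real.tan_mul_cos hs
  rw [D2b_sq, h1]
  generalize ((Real.tan (Real.pi * s) : ℝ) : ℂ) = τ at *
  generalize ((Real.cos (Real.pi * s) : ℝ) : ℂ) = c at *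
  generalize ((Real.sin (Real.pi * s) : ℝ) : ℂ) = σ at *
  refine mul_right_cancel₀ h2 ?_
  have hI := Complex.I_mul_I
  linear_combination (-Complex.I * (c + σ * Complex.I) ^ 2 - Complex.I) * h4 +
    (c + σ * Complex.I) * h3 - (c + σ * Complex.I) * σ ^ 2 * hI

theorem D2b_range (C : Cf) (c : ℝ) {t : ℝ} (h₀ : -(1 / 2) < t) (h₂ : t < 1 / 2) :
    Real.pi * (C.bi (c + t) - C.bi (c + 1 / 2) + 1 / 2) ∈ Ioo (-(Real.pi / 2)) (Real.pi / 2) := by
  have h1 : C.bi (c + t) < C.bi (c + 1 / 2) := bi_mono C (by linarith)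
  have h2 : C.bi (c + 1 / 2) < C.bi (c + t + 1) := bi_mono C (by linarith)
  rw [bi_per] at h2
  constructor <;> nlinarith [Real.pi_pos]

theorem D2b_Th (C : Cf) (c : ℝ) {z : ℂ} (hz : z ∈ C.U) : ∃ κ : ℂ, κ ≠ 0 ∧ ∀ t : ℝ,
    -(1 / 2) < t → t < 1 / 2 →
      e (C.Th z (c + t)) = e (Complex.arg (C.ξ c z - C.σc c t) / Real.pi) * κ := by
  have hw := C.ψi_U hz
  have hx := ξ_im C c hz
  have u0 := D2b_unit (C.bi (c + 1 / 2))
  have n0 := norm_e (C.bi (c + 1 / 2))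
  have D0 : e (C.bi (c + 1 / 2)) - C.ψi z ≠ 0 := fun h => by
    rw [sub_eq_zero] at h
    rw [← h, n0] at hw
    exact lt_irrefl _ hw
  have xD : C.ξ c z * (e (C.bi (c + 1 / 2)) - C.ψi z) =
      Complex.I * (e (C.bi (c + 1 / 2)) + C.ψi z) := div_mul_cancel₀ _ D0
  have xD' := congrArg (starRingEnd ℂ) xD
  simp only [map_mul, map_sub, map_add, Complex.conj_I] at xD'
  have D1 : starRingEnd ℂ (e (C.bi (c + 1 / 2))) - starRingEnd ℂ (C.ψi z) ≠ 0 := by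
    rw [← map_sub]
    exact (map_ne_zero _).2 D0
  have e0 : e (C.bi (c + 1 / 2)) ≠ 0 := left_ne_zero_of_mul_eq_one u0
  refine ⟨(e (C.bi (c + 1 / 2)) - C.ψi z) / (e (C.bi (c + 1 / 2)) *
    (starRingEnd ℂ (e (C.bi (c + 1 / 2))) - starRingEnd ℂ (C.ψi z))),
    div_ne_zero D0 (mul_ne_zero e0 D1), fun t h₀ h₂ => ?_⟩
  have k1 := D2b_tan (Real.cos_pos_of_mem_Ioo (D2b_range C c h₀ h₂)).ne'
  have k2 : e (C.bi (c + t)) = -(e (C.bi (c + 1 / 2)) *
      e (C.bi (c + t) - C.bi (c + 1 / 2) + 1 / 2)) := by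
    rw [← e_add, show C.bi (c + 1 / 2) + (C.bi (c + t) - C.bi (c + 1 / 2) + 1 / 2) =
      C.bi (c + t) + 1 / 2 by ring, Rot_e_half, neg_neg]
  have k3 := D2b_arg (C.ξ c z - C.σc c t)
  have P0 : starRingEnd ℂ (C.ξ c z - C.σc c t) ≠ 0 := by
    refine (map_ne_zero _).2 fun h => ?_
    have := congrArg Complex.im h
    rw [Complex.sub_im, Complex.ofReal_im, Complex.zero_im] at this
    linarith
  have s0 : ((C.σc c t : ℝ) : ℂ) + Complex.I ≠ 0 := fun h => by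
    simpa using congrArg Complex.im h
  rw [map_sub, Complex.conj_ofReal] at k3 P0
  rw [Th_exp C hz]
  change _ * (1 - Complex.I * (C.σc c t : ℝ)) = 1 + Complex.I * (C.σc c t : ℝ) at k1
  generalize e (Complex.arg (C.ξ c z - C.σc c t) / Real.pi) = E at *
  generalize e (C.bi (c + t) - C.bi (c + 1 / 2) + 1 / 2) = S at *
  generalize e (C.bi (c + t)) = η at *
  generalize ((C.σc c t : ℝ) : ℂ) = σ at *
  generalize starRingEnd ℂ (C.ξ c z) = x' at *
  generalize starRingEnd ℂ (C.ψi z) = w' at *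
  generalize starRingEnd ℂ (e (C.bi (c + 1 / 2))) = η₁ at *
  generalize e (C.bi (c + 1 / 2)) = η₀ at *
  generalize C.ξ c z = x at *
  generalize C.ψi z = w at *
  have hI := Complex.I_mul_I
  have a0 : η * (σ + Complex.I) = η₀ * (σ - Complex.I) := by
    rw [k2]
    linear_combination (-η₀ * Complex.I) * k1 - (η₀ * S * σ + η₀ * σ) * hI
  have a1 : (η - w) * (σ + Complex.I) = -((x - σ) * (η₀ - w)) := by
    linear_combination a0 + xD
  have a2 : (1 - w' * η) * (σ + Complex.I) = -(η₀ * (η₁ - w') * (x' - σ)) := by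
    linear_combination -w' * a0 + η₀ * xD' - (σ + Complex.I) * u0
  have a3 : 1 - w' * η ≠ 0 := fun h => by
    rw [h, zero_mul, eq_comm, neg_eq_zero] at a2
    exact mul_ne_zero (mul_ne_zero e0 D1) P0 a2
  rw [← mul_div_assoc, div_eq_div_iff a3 (mul_ne_zero e0 D1)]
  refine mul_right_cancel₀ s0 ?_
  linear_combination (η₀ * (η₁ - w')) * a1 - E * (η₀ - w) * a2 +
    (η₀ - w) * (η₀ * (η₁ - w')) * k3

theorem D2b_pos {P : ℂ} (h : 0 < P.im) : 0 < Complex.arg P ∧ Complex.arg P < Real.pi :=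
  ⟨lt_of_le_of_ne (Complex.arg_nonneg_iff.2 h.le) fun k => h.ne' (Complex.arg_eq_zero_iff.1 k.symm).2,
    Complex.arg_lt_pi_iff.2 (Or.inr h.ne')⟩

theorem D2b_sin {P Q : ℂ} (hP : P ≠ 0) (hQ : Q ≠ 0) :
    Real.sin (Complex.arg Q - Complex.arg P) = (Q.im * P.re - Q.re * P.im) / (‖Q‖ * ‖P‖) ∧
    Real.cos (Complex.arg Q - Complex.arg P) = (Q.re * P.re + Q.im * P.im) / (‖Q‖ * ‖P‖) := by
  rw [Real.sin_sub, Real.cos_sub, Complex.sin_arg, Complex.sin_arg, Complex.cos_arg hP,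
    Complex.cos_arg hQ]
  constructor <;> ring

theorem D2b_ne {w : ℂ} (hw : 0 < w.im) (a : ℝ) : 0 < (w - a).im ∧ w - a ≠ 0 := by
  have h : 0 < (w - a).im := by rwa [Complex.sub_im, Complex.ofReal_im, sub_zero]
  exact ⟨h, fun k => by simp [k] at h⟩

theorem D2b_mono {w : ℂ} (hw : 0 < w.im) {a b : ℝ} (h : a ≤ b) :
    Complex.arg (w - a) ≤ Complex.arg (w - b) := by
  obtain ⟨a1, a2⟩ := D2b_ne hw a
  obtain ⟨b1, b2⟩ := D2b_ne hw b
  by_contra hn
  have h1 := Real.sin_neg_of_neg_of_neg_pi_lt (x := Complex.arg (w - b) - Complex.arg (w - a))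
    (by linarith [not_le.1 hn]) (by linarith [(D2b_pos a1).2, (D2b_pos b1).1])
  rw [(D2b_sin a2 b2).1] at h1
  refine absurd h1 (not_lt.2 (div_nonneg ?_ (by positivity)))
  simp only [Complex.sub_im, Complex.sub_re, Complex.ofReal_im, Complex.ofReal_re, sub_zero]
  linarith [mul_nonneg hw.le (sub_nonneg.2 h)]

theorem om_ang (C : Cf) (c : ℝ) {z : ℂ} (hz : z ∈ C.U) {a b : ℝ} (h₀ : -(1 / 2) < a) (h₁ : a ≤ b)
    (h₂ : b < 1 / 2) : C.om z (c + a) (c + b) = ang (C.ξ c z) (C.σc c a) (C.σc c b) := by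
  obtain ⟨κ, κ0, hκ⟩ := D2b_Th C c hz
  have hx := ξ_im C c hz
  have k1 := hκ a h₀ (by linarith)
  have k2 := hκ b (by linarith) h₂
  have m1 : C.σc c a ≤ C.σc c b :=
    Real.strictMonoOn_tan.monotoneOn (D2b_range C c h₀ (by linarith))
      (D2b_range C c (by linarith) h₂) (mul_le_mul_of_nonneg_left
        (by linarith [(bi_mono C).monotone (show c + a ≤ c + b by linarith)]) Real.pi_pos.le)
  have m2 := D2b_mono hx m1
  have p1 := D2b_pos (D2b_ne hx (C.σc c a)).1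
  have p2 := D2b_pos (D2b_ne hx (C.σc c b)).1
  have t1 : C.Th z (c + a) ≤ C.Th z (c + b) := (Th_mono C hz).monotone (by linarith)
  have t2 : C.Th z (c + b) < C.Th z (c + a + 1) := Th_mono C hz (by linarith)
  rw [Th_per] at t2
  have g1 : 0 ≤ ang (C.ξ c z) (C.σc c a) (C.σc c b) := div_nonneg (by linarith) Real.pi_pos.le
  have g2 : ang (C.ξ c z) (C.σc c a) (C.σc c b) < 1 :=
    (div_lt_one Real.pi_pos).2 (by linarith [p1.1, p2.2])
  have k3 : e (C.Th z (c + b)) = e (C.Th z (c + a) + ang (C.ξ c z) (C.σc c a) (C.σc c b)) := by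
    rw [e_add, k1, k2, mul_right_comm, ← e_add, ang, sub_div, add_sub_cancel]
  obtain ⟨m, hm⟩ := e_eq_iff.1 k3
  have m3 : (m : ℝ) < 1 := by linarith
  have m4 : (-1 : ℝ) < m := by linarith
  have m5 : m < 1 := by exact_mod_cast m3
  have m6 : -1 < m := by exact_mod_cast m4
  have m7 : m = 0 := by omega
  rw [m7, Int.cast_zero] at hm
  unfold Cf.om
  linarith

theorem ang_small {w : ℂ} (hw : 0 < w.im) {x s A a b : ℝ} (hA : 5 ≤ A) (hs : 0 < s)
    (ha : |a - x| ≤ s) (hb : |b - x| ≤ s) (h : A * s ≤ ‖w - x‖) : ang w a b ≤ 2 / A := by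
  obtain ⟨a1, a2⟩ := D2b_ne hw a
  obtain ⟨b1, b2⟩ := D2b_ne hw b
  have A0 : 0 < A := by linarith
  obtain ⟨k1, k2⟩ := D2b_sin a2 b2
  have p1 := D2b_pos a1
  have p2 := D2b_pos b1
  have na : (A - 1) * s ≤ ‖w - a‖ := by
    have := norm_add_le (w - a) ((a : ℂ) - x)
    rw [sub_add_sub_cancel, ← Complex.ofReal_sub, Complex.norm_real, Real.norm_eq_abs] at this
    linarith
  have n1 := norm_pos_iff.2 a2
  have n2 := norm_pos_iff.2 b2
  simp only [Complex.sub_im, Complex.sub_re, Complex.ofReal_im, Complex.ofReal_re, sub_zero]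
    at k1 k2
  have ha' := abs_le.1 ha
  have hb' := abs_le.1 hb
  have c0 : 0 < (w.re - b) * (w.re - a) + w.im * w.im := by
    have q1 : ‖w - x‖ ^ 2 = (w.re - x) * (w.re - x) + w.im * w.im := by
      rw [Complex.sq_norm, Complex.normSq_apply]
      simp
    have q2 : |w.re - x| ≤ ‖w - x‖ := by simpa using Complex.abs_re_le_norm (w - x)
    have q3 : 5 * s ≤ ‖w - x‖ := (mul_le_mul_of_nonneg_right hA hs.le).trans h
    have q4 : |(w.re - x) * (a - x)| ≤ ‖w - x‖ * s := by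
      rw [abs_mul]
      exact mul_le_mul q2 ha (abs_nonneg _) (norm_nonneg _)
    have q5 : |(w.re - x) * (b - x)| ≤ ‖w - x‖ * s := by
      rw [abs_mul]
      exact mul_le_mul q2 hb (abs_nonneg _) (norm_nonneg _)
    have q6 : |(a - x) * (b - x)| ≤ s * s := by
      rw [abs_mul]
      exact mul_le_mul ha hb (abs_nonneg _) hs.le
    nlinarith [(abs_le.1 q4).2, (abs_le.1 q5).2, (abs_le.1 q6).1, mul_pos hs hs,
      mul_le_mul_of_nonneg_left q3 (norm_nonneg (w - x)), mul_le_mul_of_nonneg_left q3 hs.le]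
  unfold ang
  generalize Complex.arg (w - b) = β at *
  generalize Complex.arg (w - a) = α at *
  rcases le_or_gt (β - α) 0 with hd | hd
  · exact (div_nonpos_of_nonpos_of_nonneg hd Real.pi_pos.le).trans (by positivity)
  have d2 : β - α ≤ Real.pi / 2 := by
    by_contra hn
    have := Real.cos_nonpos_of_pi_div_two_le_of_le (not_le.1 hn).le
      (by linarith [p1.1, p2.2, Real.pi_pos])
    rw [k2] at this
    exact absurd this (not_le.2 (div_pos c0 (mul_pos n2 n1)))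
  have j := Real.mul_le_sin hd.le d2
  have y1 : w.im ≤ ‖w - b‖ := by simpa using Complex.im_le_norm (w - b)
  have j2 : Real.sin (β - α) ≤ 4 / A := by
    rw [k1, div_le_div_iff₀ (mul_pos n2 n1) A0]
    have r1 : w.im * (w.re - a) - (w.re - b) * w.im ≤ ‖w - b‖ * (2 * s) := by
      have := mul_le_mul y1 (show |b - a| ≤ 2 * s from abs_le.2 ⟨by linarith, by linarith⟩)
        (abs_nonneg _) n2.le
      linarith [mul_le_mul_of_nonneg_left (le_abs_self (b - a)) hw.le]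
    have r2 : 2 * s * A ≤ 4 * ‖w - a‖ := by nlinarith
    nlinarith [mul_le_mul_of_nonneg_right r1 A0.le, mul_le_mul_of_nonneg_left r2 n2.le]
  have e1 : (β - α) / Real.pi = 2 / Real.pi * (β - α) / 2 := by ring
  have e2 : 2 / A = 4 / A / 2 := by ring
  rw [e1, e2]
  linarith

theorem ang_big {w : ℂ} (hw : 0 < w.im) {x s A a b : ℝ} (hA : 5 ≤ A) (hs : 0 < s)
    (ha : a ≤ x - s) (hb : x + s ≤ b) (h : ‖w - x‖ ≤ s / A) : 1 - ang w a b ≤ 2 / A := by
  obtain ⟨a1, a2⟩ := D2b_ne hw a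
  obtain ⟨b1, b2⟩ := D2b_ne hw b
  have A0 : 0 < A := by linarith
  have p1 := D2b_pos a1
  have p2 := D2b_pos b1
  have q2 : |w.re - x| ≤ ‖w - x‖ := by simpa using Complex.abs_re_le_norm (w - x)
  have q3 := abs_le.1 (q2.trans h)
  have q4 : w.im ≤ s / A := le_trans (by simpa using Complex.im_le_norm (w - x)) h
  have q5 : s / A ≤ s / 5 := div_le_div_of_nonneg_left hs.le (by norm_num) hA
  have ra : s / 2 ≤ (w - a).re := by
    rw [Complex.sub_re, Complex.ofReal_re]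
    linarith [q3.1]
  have rb : (w - b).re ≤ -(s / 2) := by
    rw [Complex.sub_re, Complex.ofReal_re]
    linarith [q3.2]
  have sn : ∀ y : ℝ, s / 2 ≤ ‖w - y‖ → Real.sin (Complex.arg (w - y)) ≤ 2 / A := fun y hy => by
    rw [Complex.sin_arg, Complex.sub_im, Complex.ofReal_im, sub_zero,
      div_le_iff₀ (by linarith)]
    have : s / A = 2 / A * (s / 2) := by ring
    linarith [mul_le_mul_of_nonneg_left hy (by positivity : 0 ≤ 2 / A)]
  have s1 := sn a (ra.trans (Complex.re_le_norm _))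
  have s2 := sn b (by linarith [(abs_le.1 (Complex.abs_re_le_norm (w - b))).1])
  have j1 := Real.mul_le_sin p1.1.le (Complex.arg_le_pi_div_two_iff.2 (Or.inl (by linarith)))
  have g2 : Real.pi / 2 < Complex.arg (w - b) := by
    by_contra hn
    rcases Complex.arg_le_pi_div_two_iff.1 (not_lt.1 hn) with k | k <;> linarith
  have j2 := Real.mul_le_sin (x := Real.pi - Complex.arg (w - b)) (by linarith [p2.2])
    (by linarith)
  rw [Real.sin_pi_sub] at j2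
  have e1 : 1 - ang w a b = (2 / Real.pi * Complex.arg (w - a) +
      2 / Real.pi * (Real.pi - Complex.arg (w - b))) / 2 := by
    unfold ang
    field_simp
    ring
  rw [e1]
  linarith

theorem D2b_int (C : Cf) (z : ℂ) (t : ℝ) (m : ℤ) : C.Th z (t + m) = C.Th z t + m := by
  have h : Function.Periodic (fun t => C.Th z t - t) 1 := fun t => by
    show C.Th z (t + 1) - (t + 1) = C.Th z t - t
    rw [Th_per]
    ring
  have k : C.Th z (t + m * 1) - (t + m * 1) = C.Th z t - t := h.int_mul m t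
  rw [mul_one] at k
  linarith

theorem D2b_surj (C : Cf) {z : ℂ} (hz : z ∈ C.U) (u : ℝ) : ∃ t, C.Th z t = u := by
  have h1 := D2b_int C z 0 ⌊u - C.Th z 0⌋
  have h2 := Th_per C z (0 + ⌊u - C.Th z 0⌋)
  obtain ⟨t, -, ht⟩ := intermediate_value_Icc (le_add_of_nonneg_right zero_le_one)
    (Th_cont C hz).continuousOn (show u ∈ Icc (C.Th z (0 + ⌊u - C.Th z 0⌋))
      (C.Th z (0 + ⌊u - C.Th z 0⌋ + 1)) from
        ⟨by linarith [Int.floor_le (u - C.Th z 0)], by linarith [Int.lt_floor_add_one (u - C.Th z 0)]⟩)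
  exact ⟨t, ht⟩

theorem D2b_coe (t : ℝ) (m : ℤ) : ((t + m : ℝ) : T) = (t : T) := by
  rw [AddCircle.coe_add, (AddCircle.coe_eq_zero_iff (1 : ℝ) (x := (m : ℝ))).2 ⟨m, by simp⟩,
    add_zero]

theorem D2b_vol {u v : ℝ} (h₁ : u ≤ v) (h₂ : v ≤ u + 1) :
    (volume : Measure T).real (arc u v) = v - u := by
  rcases h₂.eq_or_lt with rfl | h
  · rw [arc, AddCircle.coe_image_Icc_eq, Measure.real, UnitAddCircle.measure_univ]
    simp
  · have k := B6_arc h fun _ => 1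
    rw [setLIntegral_one, setLIntegral_one, Real.volume_Icc] at k
    rw [Measure.real, k, ENNReal.toReal_ofReal (by linarith)]

open Classical in
theorem sum_om (C : Cf) {z : ℂ} (hz : z ∈ C.U) {ι : Type} (s : Finset ι) {a b : ι → ℝ}
    (h₁ : ∀ i ∈ s, a i ≤ b i) (h₂ : ∀ i ∈ s, b i ≤ a i + 1) {k : ℝ}
    (hk : ∀ x : T, ((s.filter fun i => x ∈ arc (a i) (b i)).card : ℝ) ≤ k) :
    ∑ i ∈ s, C.om z (a i) (b i) ≤ k := by
  have m := (Th_mono C hz).monotone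
  have k1 := mult (volume : Measure T) s (X := fun i => arc (C.Th z (a i)) (C.Th z (b i)))
    (Y := univ) (fun i _ => measurableSet_arc _ _) MeasurableSet.univ (fun i _ => subset_univ _)
    (k := k) fun p _ => by
      obtain ⟨u, rfl⟩ := QuotientAddGroup.mk_surjective p
      obtain ⟨t, rfl⟩ := D2b_surj C hz u
      refine le_trans (Nat.cast_le.2 (Finset.card_le_card fun i hi => ?_)) (hk (t : T))
      obtain ⟨i1, u', hu, e'⟩ := Finset.mem_filter.1 hi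
      have e2 : ((u' - C.Th z t : ℝ) : T) = 0 := by
        rw [AddCircle.coe_sub]
        exact sub_eq_zero.2 e'
      obtain ⟨j, hj⟩ := (AddCircle.coe_eq_zero_iff (1 : ℝ)).1 e2
      rw [zsmul_eq_mul, mul_one] at hj
      have e3 : C.Th z (t + j) = u' := by
        rw [D2b_int]
        linarith
      rw [← e3] at hu
      exact Finset.mem_filter.2 ⟨i1, t + j, ⟨(Th_mono C hz).le_iff_le.1 hu.1,
        (Th_mono C hz).le_iff_le.1 hu.2⟩, D2b_coe t j⟩
  rw [Measure.real, UnitAddCircle.measure_univ, ENNReal.toReal_one, mul_one] at k1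
  refine le_trans (le_of_eq (Finset.sum_congr rfl fun i hi => ?_)) k1
  exact (D2b_vol (m (h₁ i hi)) ((m (h₂ i hi)).trans (Th_per C z _).le)).symm

theorem D2b_blk (C : Cf) (Λ : Lev C.α) (n : ℕ) {z : ℂ} (hz : z ∈ C.U) {r r' : ℝ} (h₁ : r ≤ r')
    (h₂ : r' - r ≤ 80 * Λ.θ n) (h₃ : r' ≤ r + 1) :
    ∑ i ∈ Finset.range (Λ.q (n + 1)), C.om z (r - i * C.α) (r' - i * C.α) ≤ 85 := by
  classical
  have θ0 := Λ.θ_pos n
  refine sum_om C hz _ (fun i _ => by linarith) (fun i _ => by linarith) fun x => ?_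
  refine (Λ.count n _ x (((r + r') / 2 : ℝ) : T) (R := 41 * Λ.θ n) (by positivity)
    fun i hi => ?_).trans ?_
  · obtain ⟨i1, t, ht, rfl⟩ := Finset.mem_filter.1 hi
    refine ⟨Finset.mem_range.1 i1, ?_⟩
    rw [mem_ball, ← AddCircle.coe_add]
    exact (dist_coe_le _ _).trans_lt (abs_lt.2 ⟨by linarith [ht.1], by linarith [ht.2]⟩)
  · rw [← mul_assoc, mul_div_cancel_right₀ _ θ0.ne']
    norm_num

theorem rot_mult (C : Cf) (Λ : Lev C.α) (n : ℕ) {z : ℂ} (hz : z ∈ C.U) {r r' : ℝ} (h₁ : r ≤ r')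
    (h₂ : r' - r ≤ 80 * Λ.θ n) (h₃ : r' ≤ r + 1) :
    ∑ i ∈ Finset.range (2 * Λ.q (n + 1)), C.om z (r - i * C.α) (r' - i * C.α) ≤ 170 := by
  rw [two_mul, Finset.sum_range_add]
  have k1 := D2b_blk C Λ n hz h₁ h₂ h₃
  have k2 := D2b_blk C Λ n hz (r := r - Λ.q (n + 1) * C.α) (r' := r' - Λ.q (n + 1) * C.α)
    (by linarith) (by linarith) (by linarith)
  simp only [Nat.cast_add, add_mul, ← sub_sub]
  linarith

theorem exists_marks (C : Cf) : ∃ M : Finset T, M.Nonempty ∧ M.card ≤ 16 * C.V.card + 1 ∧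
    ∀ v ∈ C.V, v ∈ C.U → ∀ a b : ℝ, a ≤ b → (∀ s ∈ Ioo a b, (s : T) ∉ M) →
      C.om v a b ≤ 1 / 16 := by
  classical
  have ex : ∀ (v : ℂ) (k : ℕ), ∃ t : ℝ, v ∈ C.U → C.Th v t = k / 16 := fun v k => by
    by_cases hv : v ∈ C.U
    · exact (D2b_surj C hv _).imp fun t ht _ => ht
    · exact ⟨0, fun h => absurd h hv⟩
  choose τ hτ using ex
  refine ⟨insert 0 ((C.V ×ˢ Finset.range 16).image fun p => (τ p.1 p.2 : T)),
    Finset.insert_nonempty _ _, (Finset.card_insert_le _ _).trans ?_, fun v hv hU a b hab hM => ?_⟩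
  · have := Finset.card_image_le (s := C.V ×ˢ Finset.range 16) (f := fun p => (τ p.1 p.2 : T))
    rw [Finset.card_product, Finset.card_range] at this
    omega
  · by_contra hn
    unfold Cf.om at hn
    obtain ⟨j, j1, j2⟩ : ∃ j : ℤ, 16 * C.Th v a < j ∧ (j : ℝ) ≤ 16 * C.Th v a + 1 :=
      ⟨⌊16 * C.Th v a⌋ + 1, by push_cast; exact Int.lt_floor_add_one _,
        by push_cast; linarith [Int.floor_le (16 * C.Th v a)]⟩
    obtain ⟨k, m, k1, k2⟩ : ∃ (k : ℕ) (m : ℤ), k < 16 ∧ j = 16 * m + k :=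
      ⟨(j % 16).toNat, j / 16, by omega, by omega⟩
    have k3 : (j : ℝ) = 16 * m + k := by exact_mod_cast k2
    have k4 : C.Th v (τ v k + m) = k / 16 + m := by rw [D2b_int, hτ v k hU]
    refine hM (τ v k + m) ⟨(Th_mono C hU).lt_iff_lt.1 (by linarith),
      (Th_mono C hU).lt_iff_lt.1 (by linarith [not_le.1 hn])⟩ ?_
    rw [D2b_coe]
    exact Finset.mem_insert_of_mem (Finset.mem_image.2
      ⟨(v, k), Finset.mem_product.2 ⟨hv, Finset.mem_range.2 k1⟩, rfl⟩)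

end Pool.Agent.Work.MP_042f46_an.Fu
end
end

-- merged part: Pool.Agent.Work.MP_042f46_an.F.D3
section
/-!
# Maximum principle, lifts over a channel, behaviour at a wall

Plans.  `maxp`: for `n : ℕ` let `f z = exp (n h z) ∏ e ∈ E, (z - e) / D` with `D` larger than all `‖z - e‖`.  For `c > 1` the set `{z ∈ O | c ≤ ‖f z‖}` is compact (near frontier points `‖f‖ < c`); `Complex.norm_le_of_forall_mem_frontier_norm_le` on `{z ∈ O | c < ‖f z‖}` shows that this set is empty.  So `exp (n re (h z)) ∏ ‖z - e‖ / D ≤ 1` for all `n`.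
`klein2`: copy `klein` (file `T/D4.lean`); in the Klein coordinate `x = C5_k w` the condition reads `2 A - 2 B √(1 - ‖x‖ ^ 2) < re (b x)` (`C5_k_sq`), a convex condition because `√(1 - ‖x‖ ^ 2)` is concave on the ball.
`lift_diff`: `loc_inj`, `P_V`; a continuous right inverse of a locally injective holomorphic map (compare `lift_one` in `XH.lean`; nonvanishing of the derivative: look for `inv_diff`, `deriv_ne` in `Lin.lean`).
`lift_chn`: `klein2` with `g = ψ`, `om_lt_iff` for `(p, p')` (dropped when `p = p'`) and for `(r', r + 1)` (`1 - om z r r' = om z r' (r + 1)`, `Th_per`); `G = s ∘ ψi`; base point `z₀` near `γ t`, `t ∈ (r, p)`, in the channel and in `Ω`, with value `mb z₀`; `wall`.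
`wall`: for `t ∈ (a, b)` the sets `ψ '' (ball (e (bi t)) δ ∩ ball 0 1)` are preconnected, form a basis of `𝓝[U] (γ t)`, and lie in `O ∩ Ω` for small `δ`; on such a set `G = mb` everywhere or nowhere (`lift_uniq`, `F_mb`, `mb_cont`).  So both alternatives are open conditions on `t`, and they exclude each other (`𝓝[U] (γ t)` is not trivial).
-/

open Set Metric Topology Filter MeasureTheory
open scoped ENNReal NNReal

noncomputable section
namespace Pool.Agent.Work.MP_042f46_an.Fu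

open Pool.Agent.Work.MP_042f46_an.Ty

/-- Maximum principle with upper limits at the frontier. -/
theorem D3_max {O : Set ℂ} (hO : IsOpen O) (hb : Bornology.IsBounded O) {f : ℂ → ℂ}
    (hd : DifferentiableOn ℂ f O) {c : ℝ}
    (hf : ∀ ζ ∈ frontier O, ∀ᶠ z in 𝓝[O] ζ, ‖f z‖ ≤ c) : ∀ z ∈ O, ‖f z‖ ≤ c := by
  obtain ⟨U, hU⟩ : ∃ U : Set ℂ, U = O ∩ (fun z => ‖f z‖) ⁻¹' Ioi c := ⟨_, rfl⟩
  have mU : ∀ z, z ∈ U ↔ z ∈ O ∧ c < ‖f z‖ := fun z => by
    rw [hU]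
    rfl
  have oU : IsOpen U := by
    rw [hU]
    exact hd.continuousOn.norm.isOpen_inter_preimage hO isOpen_Ioi
  have sU : U ⊆ O := fun z hz => ((mU z).1 hz).1
  have cU : closure U ⊆ O := by
    intro ζ hζ
    by_contra hn
    have h1 : ζ ∈ frontier O := by
      rw [hO.frontier_eq]
      exact ⟨closure_mono sU hζ, hn⟩
    have h2 := (hf ζ h1).filter_mono (nhdsWithin_mono ζ sU)
    have h3 := mem_closure_iff_nhdsWithin_neBot.1 hζ
    obtain ⟨z, h4, h5⟩ := (h2.and eventually_mem_nhdsWithin).exists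
    exact h4.not_gt ((mU z).1 h5).2
  intro z hz
  by_contra hn
  have h1 : z ∈ U := (mU z).2 ⟨hz, not_le.1 hn⟩
  refine hn (Complex.norm_le_of_forall_mem_frontier_norm_le (hb.subset sU)
    (hd.mono cU).diffContOnCl (fun ζ hζ => ?_) (subset_closure h1))
  rw [oU.frontier_eq] at hζ
  exact not_lt.1 fun k => hζ.2 ((mU ζ).2 ⟨cU hζ.1, k⟩)

theorem maxp {O : Set ℂ} (hO : IsOpen O) (hb : Bornology.IsBounded O) {h : ℂ → ℂ}
    (hd : DifferentiableOn ℂ h O) {M : ℝ} (hM : ∀ z ∈ O, (h z).re ≤ M) (E : Finset ℂ)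
    (hE : ∀ z ∈ E, z ∉ O)
    (hf : ∀ ζ ∈ frontier O, ζ ∉ E → ∀ ε > 0, ∀ᶠ z in 𝓝[O] ζ, (h z).re ≤ ε) :
    ∀ z ∈ O, (h z).re ≤ 0 := by
  classical
  obtain ⟨D, hD0, hD⟩ : ∃ D : ℝ, 0 < D ∧ ∀ z ∈ O, ∀ e ∈ E, ‖z - e‖ ≤ D := by
    obtain ⟨R, hR⟩ := (hb.union E.finite_toSet.isBounded).exists_norm_le
    refine ⟨2 * |R| + 1, by positivity, fun z hz e he => ?_⟩
    have h1 := hR z (Or.inl hz)
    have h2 := hR e (Or.inr he)
    have h3 := norm_sub_le z e
    have h4 := le_abs_self R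
    linarith
  have hq : ∀ z ∈ O, ∀ e ∈ E, ‖z - e‖ / D ≤ 1 := fun z hz e he =>
    (div_le_one hD0).2 (hD z hz e he)
  have hq0 : ∀ z e : ℂ, 0 ≤ ‖z - e‖ / D := fun z e => div_nonneg (norm_nonneg _) hD0.le
  have key : ∀ n : ℕ, ∀ ε > 0, ∀ z ∈ O,
      Real.exp (n * (h z).re) * ∏ e ∈ E, ‖z - e‖ / D ≤ Real.exp (n * ε) := by
    intro n ε hε
    have hn : ∀ z : ℂ, ‖Complex.exp (n * h z) * ∏ e ∈ E, (z - e) / (D : ℂ)‖ =
        Real.exp (n * (h z).re) * ∏ e ∈ E, ‖z - e‖ / D := by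
      intro z
      rw [norm_mul, Complex.norm_exp, norm_prod]
      simp [abs_of_pos hD0]
    have h1 := D3_max hO hb (f := fun z => Complex.exp (n * h z) * ∏ e ∈ E, (z - e) / (D : ℂ))
      (c := Real.exp (n * ε))
      (((differentiableOn_const _).mul hd).cexp.mul (Differentiable.differentiableOn (by
        fun_prop))) (fun ζ hζ => ?_)
    · intro z hz
      rw [← hn]
      exact h1 z hz
    · simp only [hn]
      by_cases hζE : ζ ∈ E
      · have t1 : Tendsto (fun z : ℂ => Real.exp (n * M) * (‖z - ζ‖ / D)) (𝓝[O] ζ) (𝓝 0) := by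
          have c1 : Continuous fun z : ℂ => Real.exp (n * M) * (‖z - ζ‖ / D) := by fun_prop
          have t2 := c1.tendsto ζ
          simp only [sub_self, norm_zero, zero_div, mul_zero] at t2
          exact t2.mono_left nhdsWithin_le_nhds
        filter_upwards [t1.eventually (ge_mem_nhds (Real.exp_pos (n * ε))),
          eventually_mem_nhdsWithin] with z hz1 hz2
        refine le_trans (mul_le_mul (Real.exp_le_exp.2
          (mul_le_mul_of_nonneg_left (hM z hz2) (Nat.cast_nonneg n))) ?_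
          (Finset.prod_nonneg fun e _ => hq0 z e) (Real.exp_pos _).le) hz1
        rw [← Finset.mul_prod_erase E _ hζE]
        exact mul_le_of_le_one_right (hq0 z ζ) (Finset.prod_le_one (fun e _ => hq0 z e)
          fun e he => hq z hz2 e (Finset.mem_of_mem_erase he))
      · filter_upwards [hf ζ hζ hζE ε hε, eventually_mem_nhdsWithin] with z hz1 hz2
        refine le_trans (mul_le_of_le_one_right (Real.exp_pos _).le
          (Finset.prod_le_one (fun e _ => hq0 z e) fun e he => hq z hz2 e he)) ?_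
        exact Real.exp_le_exp.2 (mul_le_mul_of_nonneg_left hz1 (Nat.cast_nonneg n))
  intro z hz
  by_contra hn
  have hx : 0 < (h z).re := not_le.1 hn
  have hP : 0 < ∏ e ∈ E, ‖z - e‖ / D := Finset.prod_pos fun e he =>
    div_pos (norm_pos_iff.2 (sub_ne_zero.2 fun k => hE e he (k ▸ hz))) hD0
  obtain ⟨n, hn1⟩ := exists_nat_gt (1 / ((∏ e ∈ E, ‖z - e‖ / D) * ((h z).re / 2)))
  have h1 := key n _ (half_pos hx) z hz
  generalize (∏ e ∈ E, ‖z - e‖ / D) = P at hP hn1 h1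
  generalize (h z).re = x at hx hn1 h1
  have h2 : Real.exp (n * x) = Real.exp (n * (x / 2)) * Real.exp (n * (x / 2)) := by
    rw [← Real.exp_add]
    ring_nf
  have h3 := Real.add_one_le_exp (n * (x / 2))
  have h4 := Real.exp_pos (n * (x / 2))
  rw [div_lt_iff₀ (by positivity)] at hn1
  rw [h2, mul_assoc] at h1
  have h5 : Real.exp (n * (x / 2)) * P ≤ 1 := le_of_mul_le_mul_left (by rwa [mul_one]) h4
  nlinarith

/-- The upper half sphere is concave. -/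
theorem D3_sq {x y : ℂ} (hx : ‖x‖ < 1) (hy : ‖y‖ < 1) {a b : ℝ} (ha : 0 ≤ a) (hb : 0 ≤ b)
    (hab : a + b = 1) : a * Real.sqrt (1 - ‖x‖ ^ 2) + b * Real.sqrt (1 - ‖y‖ ^ 2) ≤
      Real.sqrt (1 - ‖a • x + b • y‖ ^ 2) := by
  have h0 : 0 ≤ 1 - ‖x‖ ^ 2 := sub_nonneg.2 (pow_le_one₀ (norm_nonneg _) hx.le)
  have h0' : 0 ≤ 1 - ‖y‖ ^ 2 := sub_nonneg.2 (pow_le_one₀ (norm_nonneg _) hy.le)
  have h1 := Real.sq_sqrt h0
  have h1' := Real.sq_sqrt h0'
  have h2 : ‖a • x + b • y‖ ≤ a * ‖x‖ + b * ‖y‖ := by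
    refine (norm_add_le _ _).trans (le_of_eq ?_)
    rw [norm_smul, norm_smul, Real.norm_of_nonneg ha, Real.norm_of_nonneg hb]
  have h3 := pow_le_pow_left₀ (norm_nonneg _) h2 2
  refine Real.le_sqrt_of_sq_le ?_
  generalize Real.sqrt (1 - ‖x‖ ^ 2) = s at h1
  generalize Real.sqrt (1 - ‖y‖ ^ 2) = t at h1'
  generalize ‖a • x + b • y‖ ^ 2 = m at h3
  generalize ‖x‖ = u at h1 h3
  generalize ‖y‖ = v at h1' h3
  have h4 : s * t + u * v ≤ 1 := by nlinarith only [h1, h1', sq_nonneg (s - t), sq_nonneg (u - v)]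
  have h5 := mul_le_mul_of_nonneg_left h4 (mul_nonneg ha hb)
  have h6 : (a * s + b * t) ^ 2 + (a * u + b * v) ^ 2 =
      a ^ 2 * (s ^ 2 + u ^ 2) + b ^ 2 * (t ^ 2 + v ^ 2) + 2 * (a * b * (s * t + u * v)) := by ring
  have h7 : s ^ 2 + u ^ 2 = 1 := by linarith only [h1]
  have h8 : t ^ 2 + v ^ 2 = 1 := by linarith only [h1']
  have h9 : a ^ 2 + b ^ 2 + 2 * (a * b) = 1 := by
    have : (a + b) ^ 2 = 1 := by rw [hab, one_pow]
    linarith only [this, add_sq a b]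
  rw [h7, h8] at h6
  linarith only [h3, h5, h6, h9]

/-- Continuous lifts over open convex sets. -/
theorem D3_cvx {F g : ℂ → ℂ} {V : Set ℂ} (cov : IsCoveringMapOn F Vᶜ) {Q : Set ℂ}
    (oQ : IsOpen Q) (cQ : Convex ℝ Q) (hc : ContinuousOn g Q) (hV : ∀ w ∈ Q, g w ∉ V) {w₀ z₀ : ℂ}
    (hw : w₀ ∈ Q) (hz : F z₀ = g w₀) :
    ∃ s : ℂ → ℂ, ContinuousOn s Q ∧ s w₀ = z₀ ∧ ∀ w ∈ Q, F (s w) = g w := by
  have := cQ.contractibleSpace ⟨_, hw⟩
  have := oQ.locallyPathConnectedSpace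
  obtain ⟨f, ⟨h0, hf⟩, -⟩ := cov.existsUnique_continuousMap_lifts
    ⟨Q.domRestrict g, continuousOn_iff_continuous_domRestrict.1 hc⟩
    (a₀ := ⟨w₀, hw⟩) (e₀ := z₀) hz fun a => hV _ a.2
  classical
  obtain ⟨g', hg'⟩ : ∃ g' : ℂ → ℂ, ∀ u : Q, g' u = f u :=
    ⟨fun u => if h : u ∈ Q then f ⟨u, h⟩ else 0, fun u => dif_pos u.2⟩
  have h2 : ContinuousOn g' Q := continuousOn_iff_continuous_domRestrict.2
    ((map_continuous f).congr fun u => (hg' u).symm)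
  exact ⟨g', h2, (hg' ⟨_, hw⟩).trans h0, fun w h =>
    (congrArg F (hg' ⟨_, h⟩)).trans (congrFun hf ⟨_, h⟩)⟩

theorem klein2 {F g : ℂ → ℂ} {V : Set ℂ} (cov : IsCoveringMapOn F Vᶜ) {ι : Type} (I : Finset ι)
    (A B : ι → ℝ) (b : ι → ℂ) (hB : ∀ j ∈ I, 0 ≤ B j) {O : Set ℂ}
    (hO : O = {w | ‖w‖ < 1 ∧ ∀ j ∈ I, A j * (1 + ‖w‖ ^ 2) - B j * (1 - ‖w‖ ^ 2) < (b j * w).re})
    (hg : ContinuousOn g O) (hV : ∀ w ∈ O, g w ∉ V) {w₀ z₀ : ℂ} (hw : w₀ ∈ O) (hz : F z₀ = g w₀) :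
    ∃ s : ℂ → ℂ, ContinuousOn s O ∧ s w₀ = z₀ ∧ ∀ w ∈ O, F (s w) = g w := by
  obtain ⟨Q, hQ⟩ : ∃ Q : Set ℂ, Q = ball 0 1 ∩ ⋂ j ∈ I,
    {x | 2 * A j - 2 * B j * Real.sqrt (1 - ‖x‖ ^ 2) < (b j * x).re} := ⟨_, rfl⟩
  have mQ : ∀ x, x ∈ Q ↔ ‖x‖ < 1 ∧ ∀ j ∈ I,
      2 * A j - 2 * B j * Real.sqrt (1 - ‖x‖ ^ 2) < (b j * x).re := fun x => by
    rw [hQ, mem_inter_iff, mem_ball_zero_iff, mem_iInter₂]
    rfl
  have cQ : Convex ℝ Q := by
    intro x hx y hy s t hs ht hst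
    obtain ⟨x1, x2⟩ := (mQ x).1 hx
    obtain ⟨y1, y2⟩ := (mQ y).1 hy
    refine (mQ _).2 ⟨mem_ball_zero_iff.1 (convex_ball (0 : ℂ) 1 (mem_ball_zero_iff.2 x1)
      (mem_ball_zero_iff.2 y1) hs ht hst), fun j hj => ?_⟩
    have h1 := mul_le_mul_of_nonneg_left (D3_sq x1 y1 hs ht hst) (hB j hj)
    have h2 := x2 j hj
    have h3 := y2 j hj
    rw [mul_add, Complex.add_re, C5_re, C5_re]
    have h4 : s * (2 * A j - 2 * B j * Real.sqrt (1 - ‖x‖ ^ 2)) +
        t * (2 * A j - 2 * B j * Real.sqrt (1 - ‖y‖ ^ 2)) <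
        s * (b j * x).re + t * (b j * y).re := by
      rcases hs.eq_or_lt with h5 | h5
      · have h6 : t = 1 := by linarith only [h5, hst]
        rw [← h5, h6]
        linarith only [h3]
      · have h6 := mul_lt_mul_of_pos_left h2 h5
        have h7 := mul_le_mul_of_nonneg_left h3.le ht
        linarith only [h6, h7]
    have h5 : s * (2 * A j) + t * (2 * A j) = 2 * A j := by rw [← add_mul, hst, one_mul]
    linarith only [h1, h4, h5]
  have oQ : IsOpen Q := by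
    rw [hQ]
    exact isOpen_ball.inter (isOpen_biInter_finset fun j _ =>
      isOpen_lt (by fun_prop) (by fun_prop))
  have m1 : MapsTo C5_k O Q := fun w hw => by
    rw [hO] at hw
    refine (mQ _).2 ⟨C5_k_lt hw.1, fun j hj => ?_⟩
    have h := hw.2 j hj
    have h0 : 0 < 1 - ‖w‖ ^ 2 := sub_pos.2 (pow_lt_one₀ (norm_nonneg _) hw.1 two_ne_zero)
    have h1 : 0 < 1 + ‖w‖ ^ 2 := by positivity
    rw [C5_k_sq, Real.sqrt_sq (by positivity), C5_k, C5_re, div_mul_eq_mul_div,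
      lt_div_iff₀ h1, sub_mul, mul_assoc (2 * B j), div_mul_cancel₀ _ h1.ne']
    linarith only [h]
  have m2 : MapsTo C5_k' Q O := fun x hx => by
    obtain ⟨h1, h2⟩ := (mQ _).1 hx
    rw [hO]
    refine ⟨C5_k'_lt h1, fun j hj => ?_⟩
    have h3 : 0 < 1 / (1 + Real.sqrt (1 - ‖x‖ ^ 2)) := by positivity
    have h5 : 1 - ‖C5_k' x‖ ^ 2 =
        2 * (Real.sqrt (1 - ‖x‖ ^ 2) * (1 / (1 + Real.sqrt (1 - ‖x‖ ^ 2)))) := by
      have h6 := C5_k'_sq h1
      have h7 : (1 + Real.sqrt (1 - ‖x‖ ^ 2)) * (1 / (1 + Real.sqrt (1 - ‖x‖ ^ 2))) = 1 :=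
        mul_one_div_cancel (by positivity)
      linarith only [h6, h7]
    rw [h5, C5_k'_sq h1, C5_k', C5_re]
    have h4 := mul_lt_mul_of_pos_left (h2 j hj) h3
    linarith only [h4]
  have lt : ∀ w ∈ O, ‖w‖ < 1 := fun w hw => by
    rw [hO] at hw
    exact hw.1
  obtain ⟨g', h2, h0, hf⟩ := D3_cvx cov oQ cQ (hg.comp C5_k'_cont.continuousOn m2)
    (fun a ha => hV _ (m2 ha)) (m1 hw) (z₀ := z₀)
    (hz.trans (congrArg g (C5_kk (lt _ hw)).symm))
  exact ⟨g' ∘ C5_k, h2.comp C5_k_cont.continuousOn m1, h0, fun w h =>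
    (hf _ (m1 h)).trans (congrArg g (C5_kk (lt _ h)))⟩

theorem lift_diff (C : Cf) {O : Set ℂ} (hO : IsOpen O) {s g : ℂ → ℂ} (hs : ContinuousOn s O)
    (hg : DifferentiableOn ℂ g O) (hV : ∀ w ∈ O, g w ∉ C.V) (h : ∀ w ∈ O, C.F (s w) = g w) :
    DifferentiableOn ℂ s O := by
  intro w hw
  have h3 := hO.mem_nhds hw
  have h1 : C.F (s w) ∉ C.V := h w hw ▸ hV w hw
  have h2 : s w ∈ C.Pᶜ := fun k => h1 (C.P_V _ k)
  obtain ⟨N, hN, hi⟩ := C.loc_inj h1
  have h4 : IsOpen (interior N ∩ C.Pᶜ) := isOpen_interior.inter C.isOpen_P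
  have h5 : deriv C.F (s w) ≠ 0 := deriv_ne_of_injOn h4 (C.F_diff.mono inter_subset_right)
    (hi.mono (inter_subset_left.trans interior_subset)) ⟨mem_interior_iff_mem_nhds.2 hN, h2⟩
  exact (HasDerivAt.of_comp_left (hs.continuousAt h3)
    (C.F_diff.differentiableAt (C.isOpen_P.mem_nhds h2)).hasDerivAt
    (hg.differentiableAt h3).hasDerivAt h5
    (mem_of_superset h3 h)).differentiableAt.differentiableWithinAt

theorem lift_cvx (C : Cf) {O : Set ℂ} (hO : IsOpen O) (hc : Convex ℝ O) {g : ℂ → ℂ}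
    (hg : DifferentiableOn ℂ g O) (hV : ∀ w ∈ O, g w ∉ C.V) {w₀ z₀ : ℂ} (hw : w₀ ∈ O)
    (hz : C.F z₀ = g w₀) :
    ∃ s : ℂ → ℂ, DifferentiableOn ℂ s O ∧ s w₀ = z₀ ∧ ∀ w ∈ O, C.F (s w) = g w := by
  obtain ⟨s, h1, h2, h3⟩ := D3_cvx C.cov hO hc hg.continuousOn hV hw hz
  exact ⟨s, lift_diff C hO h1 hg hV h3, h2, h3⟩

/-- The caps at a point of the curve. -/
def D3_S (C : Cf) (t δ : ℝ) : Set ℂ := C.ψ '' (ball (e (C.bi t)) δ ∩ ball 0 1)

theorem D3_cψ (C : Cf) {w : ℂ} (hw : ‖w‖ ≤ 1) : ContinuousAt C.ψ w :=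
  C.ψ_diff.continuousOn.continuousAt (isOpen_ball.mem_nhds (C.CB_ball hw))

theorem D3_small (C : Cf) (t : ℝ) {N : Set ℂ} (hN : N ∈ 𝓝[C.U] (C.γ (t : T))) :
    ∃ δ > 0, D3_S C t δ ⊆ N := by
  obtain ⟨u, hu, hs⟩ := mem_nhdsWithin_iff_exists_mem_nhds_inter.1 hN
  rw [γ_eq] at hu
  obtain ⟨δ, hδ, hb⟩ := Metric.mem_nhds_iff.1 (D3_cψ C (norm_e (C.bi t)).le hu)
  refine ⟨δ, hδ, ?_⟩
  rintro _ ⟨w, hw, rfl⟩
  exact hs ⟨hb hw.1, C.ψ_U (mem_ball_zero_iff.1 hw.2)⟩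

theorem D3_nhds (C : Cf) {t s δ : ℝ} (h : e (C.bi s) ∈ ball (e (C.bi t)) δ) :
    D3_S C t δ ∈ 𝓝[C.U] (C.γ (s : T)) := by
  have h1 : ContinuousAt C.ψi (C.γ (s : T)) :=
    C.ψi_diff.continuousOn.continuousAt (C.isOpen_ψ.mem_nhds (C.Ub_sub (C.γ_Ub _)))
  have h2 : C.ψi (C.γ (s : T)) = e (C.bi s) := by rw [γ_eq, C.ψi_ψ (norm_e _).le]
  have h3 : C.ψi ⁻¹' ball (e (C.bi t)) δ ∈ 𝓝 (C.γ (s : T)) :=
    h1 (isOpen_ball.mem_nhds (h2 ▸ h))
  filter_upwards [mem_nhdsWithin_of_mem_nhds h3, eventually_mem_nhdsWithin] with z hz1 hz2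
  exact ⟨C.ψi z, ⟨hz1, mem_ball_zero_iff.2 (C.ψi_U hz2)⟩, C.ψ_ψi (C.U_sub hz2)⟩

theorem D3_conn (C : Cf) (t δ : ℝ) : IsPreconnected (D3_S C t δ) :=
  ((convex_ball _ _).inter (convex_ball _ _)).isPreconnected.image _ fun _ hw =>
    (D3_cψ C (mem_ball_zero_iff.1 hw.2).le).continuousWithinAt

theorem D3_ne (C : Cf) (t : ℝ) : (𝓝[C.U] (C.γ (t : T))).NeBot := by
  refine mem_closure_iff_nhdsWithin_neBot.1 ?_
  have h1 : e (C.bi t) ∈ closure (ball (0 : ℂ) 1) := by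
    rw [closure_ball _ one_ne_zero]
    exact mem_closedBall_zero_iff.2 (norm_e _).le
  have h2 := mem_closure_image (D3_cψ C (norm_e (C.bi t)).le) h1
  rw [C.ψ_img, ← γ_eq] at h2
  exact h2

/-- On a small cap a lift that meets the main branch is the main branch. -/
theorem D3_eq (C : Cf) {O : Set ℂ} {G : ℂ → ℂ} (hG : ContinuousOn G O)
    (hF : ∀ z ∈ O, C.F (G z) = z) (hV : ∀ z ∈ O, z ∉ C.V) {t δ : ℝ}
    (hS : D3_S C t δ ⊆ O ∩ C.Ω) {z₀ : ℂ} (hz : z₀ ∈ D3_S C t δ) (h : G z₀ = C.mb z₀) :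
    EqOn G C.mb (D3_S C t δ) :=
  lift_uniq C.cov (D3_conn C t δ) (hG.mono fun _ hu => (hS hu).1)
    (C.mb_cont.mono fun _ hu => (hS hu).2)
    (fun u hu => (hF u (hS hu).1).symm ▸ hV u (hS hu).1)
    (fun u hu => (hF u (hS hu).1).trans (C.F_mb (hS hu).2).symm) hz h

theorem D3_cap (C : Cf) (t : ℝ) {O : Set ℂ} (hO : O ∈ 𝓝[C.U] (C.γ (t : T))) :
    ∃ δ > 0, D3_S C t δ ⊆ O ∩ C.Ω :=
  D3_small C t (inter_mem hO (mem_nhdsWithin_of_mem_nhds (C.isOpen_Ω.mem_nhds (C.γ_Ω _))))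

theorem wall (C : Cf) {O : Set ℂ} {G : ℂ → ℂ} (hG : ContinuousOn G O)
    (hF : ∀ z ∈ O, C.F (G z) = z) (hV : ∀ z ∈ O, z ∉ C.V) {a b : ℝ}
    (hO : ∀ t ∈ Ioo a b, O ∈ 𝓝[C.U] (C.γ (t : T))) :
    C.Main G 1 a b ∨ ∀ t ∈ Ioo a b, ∀ᶠ z in 𝓝[C.U] (C.γ (t : T)), G z ≠ C.mb z := by
  have loc : ∀ t ∈ Ioo a b, (∀ᶠ s : ℝ in 𝓝 t, ∀ᶠ z in 𝓝[C.U] (C.γ (s : T)), G z = C.mb z) ∨
      ∀ᶠ s : ℝ in 𝓝 t, ∀ᶠ z in 𝓝[C.U] (C.γ (s : T)), G z ≠ C.mb z := by
    intro t ht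
    obtain ⟨δ, hδ, hS⟩ := D3_cap C t (hO t ht)
    have h1 : ∀ᶠ s : ℝ in 𝓝 t, D3_S C t δ ∈ 𝓝[C.U] (C.γ (s : T)) :=
      (((continuous_e.comp (bi_cont C)).tendsto t).eventually (ball_mem_nhds _ hδ)).mono
        fun s hs => D3_nhds C hs
    by_cases hx : ∃ z₀ ∈ D3_S C t δ, G z₀ = C.mb z₀
    · obtain ⟨z₀, hz, h⟩ := hx
      exact Or.inl (h1.mono fun s hs => mem_of_superset hs (D3_eq C hG hF hV hS hz h))
    · exact Or.inr (h1.mono fun s hs => mem_of_superset hs fun z hz k => hx ⟨z, hz, k⟩)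
  have h2 := isPreconnected_Ioo.subset_or_subset
    (u := {t : ℝ | ∀ᶠ s : ℝ in 𝓝 t, ∀ᶠ z in 𝓝[C.U] (C.γ (s : T)), G z = C.mb z})
    (v := {t : ℝ | ∀ᶠ s : ℝ in 𝓝 t, ∀ᶠ z in 𝓝[C.U] (C.γ (s : T)), G z ≠ C.mb z})
    isOpen_setOfPred_eventually_nhds isOpen_setOfPred_eventually_nhds
    (disjoint_left.2 fun t h1 h2 => by
      have := D3_ne C t
      obtain ⟨z, h3, h4⟩ := (h1.self_of_nhds.and h2.self_of_nhds).exists
      exact h4 h3) loc
  exact h2.imp (fun k t ht => (k ht).self_of_nhds) fun k t ht => (k ht).self_of_nhds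

theorem D3_omc (C : Cf) (a b : ℝ) : ContinuousOn (fun z => C.om z a b) C.U := by
  obtain ⟨h, h1, h2⟩ := om_hol C a b
  exact (Complex.continuous_re.comp_continuousOn h1.continuousOn).congr fun z hz => (h2 z hz).symm

theorem isOpen_Chn (C : Cf) (κ r p p' r' : ℝ) : IsOpen (C.Chn κ r p p' r') := by
  have h1 := (D3_omc C p p').isOpen_inter_preimage C.isOpen_U (isOpen_Iio (a := κ))
  have h2 := ((continuousOn_const (c := (1 : ℝ))).sub (D3_omc C r r')).isOpen_inter_preimage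
    C.isOpen_U (isOpen_Iio (a := κ))
  have h3 : C.Chn κ r p p' r' = (C.U ∩ (fun z => C.om z p p') ⁻¹' Iio κ) ∩
      (C.U ∩ (fun z => 1 - C.om z r r') ⁻¹' Iio κ) :=
    Set.ext fun z => ⟨fun k => ⟨⟨k.1, k.2.1⟩, k.1, k.2.2⟩, fun k => ⟨k.1.1, k.1.2, k.2.2⟩⟩
  rw [h3]
  exact h1.inter h2

theorem Chn_wall (C : Cf) {κ r p p' r' t : ℝ} (hκ : 0 < κ) (h₁ : r < p) (h₂ : p ≤ p') (h₃ : p' < r')
    (h₄ : r' < r + 1) (ht : t ∈ Ioo r p ∨ t ∈ Ioo p' r' ∨ p = p' ∧ t ∈ Ioo r r') :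
    C.Chn κ r p p' r' ∈ 𝓝[C.U] (C.γ (t : T)) := by
  have g1 : r < t ∧ t < r' := by
    rcases ht with k | k | k
    · exact ⟨k.1, by linarith only [k.2, h₂, h₃]⟩
    · exact ⟨by linarith only [k.1, h₁, h₂], k.2⟩
    · exact k.2
  have t1 := (om_one C g1.1 g1.2 h₄.le).const_sub 1
  rw [sub_self] at t1
  have t2 : Tendsto (fun z => C.om z p p') (𝓝[C.U] (C.γ (t : T))) (𝓝 0) := by
    rcases ht with k | k | k
    · have t3 := om_zero C (t := t + 1) h₂ (by linarith only [h₃, h₄, k.1])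
        (by linarith only [k.2])
      rwa [AddCircle.coe_add_period 1 t] at t3
    · exact om_zero C h₂ k.1 (by linarith only [k.2, h₄, h₁])
    · simp only [Cf.om, k.1, sub_self]
      exact tendsto_const_nhds
  filter_upwards [t1.eventually (gt_mem_nhds hκ), t2.eventually (gt_mem_nhds hκ),
    eventually_mem_nhdsWithin] with z hz1 hz2 hz3
  exact ⟨hz3, hz2, hz1⟩

theorem D3_om (C : Cf) {a b κ : ℝ} (h₁ : a ≤ b) (h₂ : b < a + 1) (h₃ : 1 / 2 ≤ κ) (h₄ : κ ≤ 1) :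
    ∃ (A B : ℝ) (β : ℂ), 0 ≤ B ∧ ∀ w : ℂ, ‖w‖ < 1 →
      (C.om (C.ψ w) a b < κ ↔ A * (1 + ‖w‖ ^ 2) - B * (1 - ‖w‖ ^ 2) < (β * w).re) := by
  rcases h₁.eq_or_lt with k | k
  · refine ⟨-1, 0, 0, le_rfl, fun w _ => iff_of_true ?_ ?_⟩
    · rw [Cf.om, k, sub_self]
      linarith only [h₃]
    · rw [zero_mul, zero_mul, Complex.zero_re]
      linarith only [sq_nonneg ‖w‖]
  · exact om_lt_iff C k h₂ h₃ h₄

theorem lift_chn (C : Cf) {κ r p p' r' : ℝ} (hκ : 1 / 2 ≤ κ) (hκ' : κ ≤ 1) (h₁ : r < p)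
    (h₂ : p ≤ p') (h₃ : p' < r') (h₄ : r' < r + 1) (hV : ∀ z ∈ C.Chn κ r p p' r', z ∉ C.V) :
    ∃ G : ℂ → ℂ, DifferentiableOn ℂ G (C.Chn κ r p p' r') ∧
      (∀ z ∈ C.Chn κ r p p' r', C.F (G z) = z) ∧ C.Main G 1 r p := by
  obtain ⟨A₁, B₁, β₁, b1, e1⟩ := D3_om C h₂ (by linarith only [h₁, h₃, h₄]) hκ hκ'
  obtain ⟨A₂, B₂, β₂, b2, e2⟩ := D3_om C (a := r') (b := r + 1) h₄.le
    (by linarith only [h₁, h₂, h₃]) hκ hκ'
  have e3 : ∀ z, C.om z r' (r + 1) = 1 - C.om z r r' := fun z => by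
    rw [Cf.om, Cf.om, Th_per]
    ring
  obtain ⟨O, hO⟩ : ∃ O : Set ℂ, O = {w | ‖w‖ < 1 ∧ ∀ j ∈ (Finset.univ : Finset Bool),
    cond j A₁ A₂ * (1 + ‖w‖ ^ 2) - cond j B₁ B₂ * (1 - ‖w‖ ^ 2) < (cond j β₁ β₂ * w).re} :=
    ⟨_, rfl⟩
  have mO : ∀ w, w ∈ O ↔ ‖w‖ < 1 ∧ C.ψ w ∈ C.Chn κ r p p' r' := fun w => by
    rw [hO]
    refine and_congr_right fun hw => ⟨fun k => ⟨C.ψ_U hw, (e1 w hw).2 (k true (Finset.mem_univ _)),
      e3 _ ▸ (e2 w hw).2 (k false (Finset.mem_univ _))⟩, fun k j _ => ?_⟩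
    cases j
    · exact (e2 w hw).1 ((e3 _).symm ▸ k.2.2)
    · exact (e1 w hw).1 k.2.1
  have mi : MapsTo C.ψi (C.Chn κ r p p' r') O := fun z hz =>
    (mO _).2 ⟨C.ψi_U hz.1, (C.ψ_ψi (C.U_sub hz.1)).symm ▸ hz⟩
  have nb : ∀ t ∈ Ioo r p, C.Chn κ r p p' r' ∈ 𝓝[C.U] (C.γ (t : T)) := fun t ht =>
    Chn_wall C (by linarith only [hκ]) h₁ h₂ h₃ h₄ (Or.inl ht)
  obtain ⟨t₀, ht₀⟩ : (Ioo r p).Nonempty := nonempty_Ioo.2 h₁
  obtain ⟨δ, hδ, hS⟩ := D3_cap C t₀ (nb t₀ ht₀)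
  have hn := D3_ne C t₀
  have hm := D3_nhds C (t := t₀) (s := t₀) (mem_ball_self hδ)
  obtain ⟨z₀, hz₀⟩ := Filter.nonempty_of_mem hm
  obtain ⟨s, s1, s2, s3⟩ := klein2 (g := C.ψ) C.cov Finset.univ (fun j => cond j A₁ A₂)
    (fun j => cond j B₁ B₂) (fun j => cond j β₁ β₂) (fun j _ => by cases j <;> assumption) hO
    (fun w hw => (D3_cψ C ((mO w).1 hw).1.le).continuousWithinAt)
    (fun w hw => hV _ ((mO w).1 hw).2) (mi (hS hz₀).1) (z₀ := C.mb z₀)
    ((C.F_mb (hS hz₀).2).trans (C.ψ_ψi (C.U_sub (hS hz₀).1.1)).symm)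
  have c1 : ContinuousOn (s ∘ C.ψi) (C.Chn κ r p p' r') :=
    s1.comp (C.ψi_diff.continuousOn.mono fun z hz => C.Ub_sub (C.U_sub hz.1)) mi
  have c2 : ∀ z ∈ C.Chn κ r p p' r', C.F ((s ∘ C.ψi) z) = z := fun z hz =>
    (s3 _ (mi hz)).trans (C.ψ_ψi (C.U_sub hz.1))
  refine ⟨s ∘ C.ψi, lift_diff C (g := id) (isOpen_Chn C κ r p p' r') c1 differentiableOn_id hV c2,
    c2, (wall C c1 c2 hV nb).resolve_right fun k => ?_⟩
  obtain ⟨z, h3, h4⟩ := ((k t₀ ht₀).and hm).exists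
  exact h3 (D3_eq C c1 c2 hV hS hz₀ s2 h4)

end Pool.Agent.Work.MP_042f46_an.Fu
end
end
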