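import Pool.Agent.Work.MP_042f46_an.F.R2
import Pool.Agent.Work.MP_042f46_an.F.D3

/-!
# A channel whose lift leaves the curve is short

Plans.  `push`: `φ = k ∘ s⁻¹` on `s '' O`, zero elsewhere; `s` is injective, `s '' O` is open, `s '' Q` is compact; `LL` by `LL.of_local` (`inv_diff`); `En W φ = En (s '' O ∩ W) φ = En (O ∩ s ⁻¹' W) k` (`En_comp_eq`; off `s '' Q` the gradient vanishes).
`bad`: chart `X` at `c = p` (`exists_ch`), `x₀ = σ 0`, `a₂ = x₀ - σ (r - p) > 0 = a₁`, `b₁ = σ (p' - p) - x₀`, `b₂ = σ (r' - p) - x₀`, `m = b₁`, `μ = min a₂ b₂`.  `H_rect`: `exp (H (walls)) ≤ 1 + μ / m`.  If `μ ≤ exp 6 m` the mass is at most `7`.  Otherwise `g ζ = ξi (x₀ + exp ζ)` on the open rectangle `O = (log m, log μ) × (-δ, π + δ)` is holomorphic and injective; on the part with `0 < im ζ < π` it has values in the channel (`om_ang`: outside the half disc over `[x₀, x₀ + m]`, inside the half disc of radius `μ`, both angles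 are less than `π / 2`); for small `δ` it avoids `V` (`Gen`, `ξi_real`, compactness of the two closed edges, `V` finite) and has values in `Ω` outside the strip.  `lift_cvx` gives `s` with `s = G ∘ g` on the strip part (`lift_uniq`).  On the upper edge `s = mb ∘ g` (`Main`, continuity); on the lower edge `s ζ ≠ mb (g ζ)` (otherwise `lift_uniq` on a small ball contradicts `hbad`).  `k ζ = k₁ (re ζ) k₂ (im ζ)`, `k₁ = 1` on `[log m + 2, log μ - 2]`, slope one, zero outside `[log m + 1, log μ - 1]`, `k₂ = 1` on `[0, π]`, zero outside `[-δ / 2, π + δ / 2]`; energy in the strip at most `2 π`.  `Cut` for the closed arcs `A`, `B` = the images of `[x₀ - μ exp (-3), x₀ - m exp 3]` and `[x₀ + m exp 3, x₀ + μ exp (-3)]` moved by `-α`: `H (A ×ˢ B) ≤ h (A ×ˢ B) + 4 π ^ 2`.  `E1r` for `X' = (A + α) ×ˢ (B + α)`: `H X' ≤ b (sh α X') + 40`, and `H X' ≥ log (μ / m) - 6 - log 4 ≥ H (walls) - 9`.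
-/

open Set Metric Topology Filter MeasureTheory
open scoped ENNReal NNReal

noncomputable section
namespace Pool.Agent.Work.MP_042f46_an.Fu

open Pool.Agent.Work.MP_042f46_an.Ty

theorem push (C : Cf) {O Q : Set ℂ} (hO : IsOpen O) (hQ : IsCompact Q) (hQO : Q ⊆ O)
    {s g : ℂ → ℂ} (hs : DifferentiableOn ℂ s O) (hg : InjOn g O) (h : ∀ w ∈ O, C.F (s w) = g w)
    {k : ℂ → ℝ} (hk : LL O k) (h0 : ∀ w ∈ O, w ∉ Q → k w = 0) (h1 : ∀ w, k w ∈ Icc (0 : ℝ) 1) :
    ∃ φ : ℂ → ℝ, IsV C.U C.Ub φ ∧ (∀ z, φ z ∈ Icc (0 : ℝ) 1) ∧ (∀ w ∈ O, φ (s w) = k w) ∧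
      (∀ z, z ∉ s '' O → φ z = 0) ∧ En C.W φ ≤ En {w | w ∈ O ∧ g w ∈ C.U} k := by
  have si : InjOn s O := fun a ha b hb e => hg ha hb (by rw [← h a ha, ← h b hb, e])
  have ho : IsOpen (s '' O) := isOpen_image_of_injOn hO hs si
  have hc : IsClosed (s '' Q) := (hQ.image_of_continuousOn (hs.continuousOn.mono hQO)).isClosed
  set φ : ℂ → ℝ := (s '' O).indicator fun z => k (Function.invFunOn s O z) with hφ
  have e1 : ∀ w ∈ O, φ (s w) = k w := fun w hw => by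
    rw [hφ, indicator_of_mem (mem_image_of_mem s hw), si.leftInvOn_invFunOn hw]
  have e2 : ∀ z, z ∉ s '' O → φ z = 0 := fun z hz => indicator_of_notMem hz _
  have e3 : ∀ z, z ∉ s '' Q → φ =ᶠ[𝓝 z] fun _ => 0 := fun z hz => by
    filter_upwards [hc.isOpen_compl.mem_nhds hz] with y hy
    by_cases k1 : y ∈ s '' O
    · obtain ⟨w, hw, rfl⟩ := k1
      rw [e1 w hw]
      exact h0 w hw fun k2 => hy (mem_image_of_mem s k2)
    · exact e2 y k1
  have hL : LL univ φ := by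
    refine LL.of_local fun z _ => ?_
    by_cases k1 : z ∈ s '' O
    · refine ⟨fun z => k (Function.invFunOn s O z), (hk.comp (LL.of_diff ho (inv_diff hO hs si))
        fun y hy => Function.invFunOn_mem hy).mono (singleton_subset_iff.2 k1), ?_⟩
      filter_upwards [ho.mem_nhds k1] with y hy
      exact indicator_of_mem hy _
    · exact ⟨fun _ => 0, LL.const _ _, e3 z fun k2 => k1 (image_mono hQO k2)⟩
  refine ⟨φ, LL.isV C.isOpen_U C.isCompact_Ub C.U_sub (hL.mono (subset_univ _)), fun z => ?_, e1,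
    e2, ?_⟩
  · by_cases k1 : z ∈ s '' O
    · obtain ⟨w, hw, rfl⟩ := k1
      rw [e1 w hw]
      exact h1 w
    · rw [e2 z k1]
      exact ⟨le_rfl, zero_le_one⟩
  · have hO' : IsOpen (O ∩ s ⁻¹' C.W) := hs.continuousOn.isOpen_inter_preimage hO C.isOpen_W
    have ho' : IsOpen (s '' (O ∩ s ⁻¹' C.W)) :=
      isOpen_image_of_injOn hO' (hs.mono inter_subset_left) (si.mono inter_subset_left)
    have a1 : En C.W φ ≤ En (s '' (O ∩ s ⁻¹' C.W)) φ := by
      unfold En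
      rw [← lintegral_indicator C.isOpen_W.measurableSet, ← lintegral_indicator ho'.measurableSet]
      refine lintegral_mono fun z => ?_
      by_cases k1 : z ∈ C.W
      · rw [indicator_of_mem k1]
        by_cases k2 : z ∈ s '' O
        · obtain ⟨w, hw, rfl⟩ := k2
          rw [indicator_of_mem (mem_image_of_mem s (show w ∈ O ∩ s ⁻¹' C.W from ⟨hw, k1⟩))]
        · rw [gr_congr (e3 z fun k3 => k2 (image_mono hQO k3)), gr_const]
          simp
      · rw [indicator_of_notMem k1]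
        exact bot_le
    rw [← En_comp_eq hO' (hs.mono inter_subset_left) (si.mono inter_subset_left)
      (hL.mono (subset_univ _)), En_congr hO' (f' := k) fun w hw => e1 w hw.1] at a1
    refine a1.trans (En_mono (fun w hw => ?_) k)
    refine ⟨hw.1, ?_⟩
    rw [← h w hw.1]
    exact hw.2.2.2

theorem D4_arg {z : ℂ} (hz : 0 < z.im) : 0 < z.arg ∧ z.arg < Real.pi :=
  ⟨lt_of_le_of_ne (Complex.arg_nonneg_iff.2 hz.le) fun e =>
    hz.ne' (Complex.arg_eq_zero_iff.1 e.symm).2, Complex.arg_lt_pi_iff.2 (Or.inr hz.ne')⟩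

theorem D4_trig {a b : ℂ} (ha : 0 < a.im) (hb : 0 < b.im) :
    Real.cos (a.arg - b.arg) * (‖a‖ * ‖b‖) = a.re * b.re + a.im * b.im ∧
      Real.sin (a.arg - b.arg) * (‖a‖ * ‖b‖) = a.im * b.re - a.re * b.im := by
  have a0 : a ≠ 0 := fun e => by simp [e] at ha
  have b0 : b ≠ 0 := fun e => by simp [e] at hb
  have a1 := norm_ne_zero_iff.2 a0
  have b1 := norm_ne_zero_iff.2 b0
  rw [Real.cos_sub, Real.sin_sub, Complex.cos_arg a0, Complex.cos_arg b0, Complex.sin_arg,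
    Complex.sin_arg]
  constructor <;> field_simp

theorem D4_ang1 {E : ℂ} (hE : 0 < E.im) {x m : ℝ} (hm : 0 < m) (h : m < ‖E‖) :
    ang (x + E) x (x + m) < 1 / 2 := by
  have e1 : (x : ℂ) + E - ((x + m : ℝ) : ℂ) = E - m := by push_cast; ring
  have e2 : (x : ℂ) + E - x = E := by ring
  have h1 : 0 < (E - m).im := by simpa using hE
  obtain ⟨c1, -⟩ := D4_trig h1 hE
  obtain ⟨a1, a2⟩ := D4_arg h1
  obtain ⟨b1, b2⟩ := D4_arg hE
  rw [ang, e1, e2, div_lt_iff₀ Real.pi_pos]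
  by_contra hn
  have c2 := Real.cos_nonpos_of_pi_div_two_le_of_le (x := (E - m).arg - E.arg) (by linarith)
    (by linarith [Real.pi_pos])
  have c3 := mul_nonpos_of_nonpos_of_nonneg c2 (mul_nonneg (norm_nonneg (E - m)) (norm_nonneg E))
  have n1 : ‖E‖ ^ 2 = E.re * E.re + E.im * E.im := by
    rw [Complex.sq_norm, Complex.normSq_apply]
  have n2 := Complex.re_le_norm E
  simp only [Complex.sub_re, Complex.sub_im, Complex.ofReal_re, Complex.ofReal_im, sub_zero] at c1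
  nlinarith

theorem D4_ang2 {E : ℂ} (hE : 0 < E.im) {x A B : ℝ} (hA : ‖E‖ < A) (hB : ‖E‖ < B) :
    1 - ang (x + E) (x - A) (x + B) < 1 / 2 := by
  have e1 : (x : ℂ) + E - ((x + B : ℝ) : ℂ) = E - B := by push_cast; ring
  have e2 : (x : ℂ) + E - ((x - A : ℝ) : ℂ) = E + A := by push_cast; ring
  have h1 : 0 < (E - B).im := by simpa using hE
  have h2 : 0 < (E + A).im := by simpa using hE
  obtain ⟨c1, s1⟩ := D4_trig h1 h2
  obtain ⟨a1, a2⟩ := D4_arg h1
  obtain ⟨b1, b2⟩ := D4_arg h2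
  have p := mul_nonneg (norm_nonneg (E - B)) (norm_nonneg (E + A))
  have n0 := norm_nonneg E
  have n1 : ‖E‖ ^ 2 = E.re * E.re + E.im * E.im := by
    rw [Complex.sq_norm, Complex.normSq_apply]
  obtain ⟨n2, n3⟩ := abs_le.1 (Complex.abs_re_le_norm E)
  simp only [Complex.sub_re, Complex.sub_im, Complex.add_re, Complex.add_im, Complex.ofReal_re,
    Complex.ofReal_im, sub_zero, add_zero] at c1 s1
  rw [ang, e1, e2, sub_lt_comm, lt_div_iff₀ Real.pi_pos]
  by_contra hn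
  rcases le_total ((E - B).arg - (E + A).arg) 0 with k | k
  · have c2 := Real.sin_nonpos_of_nonpos_of_neg_pi_le k (by linarith)
    have c3 := mul_nonpos_of_nonpos_of_nonneg c2 p
    have c4 := mul_pos hE (show 0 < A + B by linarith)
    nlinarith
  · have c2 := Real.cos_nonneg_of_neg_pi_div_two_le_of_le (x := (E - B).arg - (E + A).arg)
      (by linarith [Real.pi_pos]) (by linarith)
    have c3 := mul_nonneg c2 p
    rcases le_total A B with j | j
    · have := mul_pos (sub_pos.2 hA) (show 0 < ‖E‖ + B by linarith)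
      have := mul_nonneg (sub_nonneg.2 j) (show 0 ≤ ‖E‖ + E.re by linarith)
      nlinarith
    · have := mul_pos (sub_pos.2 hB) (show 0 < ‖E‖ + A by linarith)
      have := mul_nonneg (sub_nonneg.2 j) (show 0 ≤ ‖E‖ - E.re by linarith)
      nlinarith

theorem D4_vol (a b c d : ℝ) :
    volume (Icc a b ×ℂ Icc c d) = ENNReal.ofReal (b - a) * ENNReal.ofReal (d - c) := by
  have e : Icc a b ×ℂ Icc c d = Complex.measurableEquivRealProd ⁻¹' (Icc a b ×ˢ Icc c d) := rfl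
  rw [e, Complex.volume_preserving_equiv_real_prod.measure_preimage
    (measurableSet_Icc.prod measurableSet_Icc).nullMeasurableSet, Measure.volume_eq_prod,
    Measure.prod_prod, Real.volume_Icc, Real.volume_Icc]

theorem D4_k (a b : ℝ) {δ : ℝ} (hδ : 0 < δ) : ∃ k : ℂ → ℝ, LL univ k ∧
    (∀ w, k w ∈ Icc (0 : ℝ) 1) ∧
    (∀ w, w ∉ Icc (a + 1) (b - 1) ×ℂ Icc (-(δ / 2)) (Real.pi + δ / 2) → k w = 0) ∧
    (∀ w : ℂ, w.re ∈ Icc (a + 2) (b - 2) → w.im ∈ Icc 0 Real.pi → k w = 1) ∧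
    En (univ ×ℂ Ioo 0 Real.pi) k ≤ ENNReal.ofReal (2 * Real.pi) := by
  let k₁ : ℂ → ℝ := fun w => min (clamp (w.re - (a + 1))) (clamp (b - 1 - w.re))
  let k₂ : ℂ → ℝ := fun w => min (clamp (2 / δ * w.im + 1)) (clamp (2 / δ * (Real.pi - w.im) + 1))
  have lre : LipschitzWith 1 Complex.re := RCLike.lipschitzWith_re
  have lim : LipschitzWith 1 Complex.im := RCLike.lipschitzWith_im
  have l1 : LipschitzWith 1 k₁ := by
    have u1 : LipschitzWith 1 fun w : ℂ => w.re - (a + 1) :=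
      LipschitzWith.of_dist_le_mul fun x y => by
        rw [dist_sub_right]; exact lre.dist_le_mul x y
    have u2 : LipschitzWith 1 fun w : ℂ => b - 1 - w.re :=
      LipschitzWith.of_dist_le_mul fun x y => by
        rw [dist_sub_left]; exact lre.dist_le_mul x y
    simpa using (lipschitz_clamp.comp u1).min (lipschitz_clamp.comp u2)
  have l2 : LL univ k₂ :=
    ((((LL.const _ _).mul (LL.of_lip lim _)).add (LL.const _ _)).lip_comp lipschitz_clamp).min
      ((((LL.const _ _).mul ((LL.const _ _).sub (LL.of_lip lim _))).add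
        (LL.const _ _)).lip_comp lipschitz_clamp)
  have m1 : ∀ w, k₁ w ∈ Icc (0 : ℝ) 1 := fun w =>
    ⟨le_min (clamp_mem _).1 (clamp_mem _).1, (min_le_left _ _).trans (clamp_mem _).2⟩
  have m2 : ∀ w, k₂ w ∈ Icc (0 : ℝ) 1 := fun w =>
    ⟨le_min (clamp_mem _).1 (clamp_mem _).1, (min_le_left _ _).trans (clamp_mem _).2⟩
  have z1 : ∀ w : ℂ, w.re ≤ a + 1 → k₁ w = 0 := fun w hw =>
    le_antisymm ((min_le_left _ _).trans (clamp_zero (by linarith)).le) (m1 w).1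
  have z2 : ∀ w : ℂ, b - 1 ≤ w.re → k₁ w = 0 := fun w hw =>
    le_antisymm ((min_le_right _ _).trans (clamp_zero (by linarith)).le) (m1 w).1
  have o1 : ∀ w : ℂ, a + 2 ≤ w.re → w.re ≤ b - 2 → k₁ w = 1 := fun w h1 h2 => by
    simp only [k₁]
    rw [clamp_one (by linarith), clamp_one (by linarith), min_self]
  have d0 : 0 < 2 / δ := by positivity
  have d1 : 2 / δ * (δ / 2) = 1 := by field_simp
  have o2 : ∀ w : ℂ, w.im ∈ Icc 0 Real.pi → k₂ w = 1 := fun w h => by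
    have u1 := mul_nonneg d0.le h.1
    have u2 := mul_nonneg d0.le (sub_nonneg.2 h.2)
    simp only [k₂]
    rw [clamp_one (by linarith), clamp_one (by linarith), min_self]
  refine ⟨fun w => k₁ w * k₂ w, (LL.of_lip l1 _).mul l2, fun w =>
    ⟨mul_nonneg (m1 w).1 (m2 w).1, mul_le_one₀ (m1 w).2 (m2 w).1 (m2 w).2⟩, fun w hw => ?_,
    fun w h1 h2 => by simp only [o1 w h1.1 h1.2, o2 w h2, mul_one], ?_⟩
  · simp only [Complex.mem_reProdIm, mem_Icc, not_and_or, not_le] at hw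
    rcases hw with (h | h) | h | h
    · simp only [z1 w h.le, zero_mul]
    · simp only [z2 w h.le, zero_mul]
    · have u := mul_le_mul_of_nonneg_left h.le d0.le
      refine mul_eq_zero_of_right _ (le_antisymm ((min_le_left _ _).trans
        (clamp_zero (by linarith)).le) (m2 w).1)
    · have u := mul_le_mul_of_nonneg_left (show Real.pi - w.im ≤ -(δ / 2) by linarith) d0.le
      refine mul_eq_zero_of_right _ (le_antisymm ((min_le_right _ _).trans
        (clamp_zero (by linarith)).le) (m2 w).1)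
  · have hS : IsOpen ((univ : Set ℝ) ×ℂ Ioo 0 Real.pi) := isOpen_univ.reProdIm isOpen_Ioo
    rw [En_congr hS (f' := k₁) fun w hw => by
      simp only [o2 w (Ioo_subset_Icc_self hw.2), mul_one]]
    have c1 : IsClosed (Icc (a + 1) (a + 2) ×ℂ Icc 0 Real.pi ∪
        Icc (b - 2) (b - 1) ×ℂ Icc 0 Real.pi) :=
      (isClosed_Icc.reProdIm isClosed_Icc).union (isClosed_Icc.reProdIm isClosed_Icc)
    refine (En_le_of_bound (K := 1) c1.measurableSet (fun z _ _ => ?_) (fun z hz hz' => ?_)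
      hS.measurableSet).trans ?_
    · exact norm_gr_le (l1.lipschitzOnWith (s := univ)) univ_mem
    · have i1 := Ioo_subset_Icc_self hz.2
      simp only [mem_union, Complex.mem_reProdIm, i1, and_true, mem_Icc, not_or, not_and_or,
        not_le] at hz'
      have cr := Complex.continuous_re.continuousAt (x := z)
      rcases hz' with ⟨h | h, h' | h'⟩
      · rw [gr_congr ((cr.eventually_lt continuousAt_const h).mono fun w hw => z1 w hw.le),
          gr_const]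
      · rw [gr_congr ((cr.eventually_lt continuousAt_const h).mono fun w hw => z1 w hw.le),
          gr_const]
      · rw [gr_congr (((continuousAt_const.eventually_lt cr h).and
          (cr.eventually_lt continuousAt_const h')).mono fun w hw => o1 w hw.1.le hw.2.le),
          gr_const]
      · rw [gr_congr ((continuousAt_const.eventually_lt cr h').mono fun w hw => z2 w hw.le),
          gr_const]
    · rw [one_pow, ENNReal.ofReal_one, one_mul]
      refine (measure_union_le _ _).trans ?_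
      rw [D4_vol, D4_vol, ← ENNReal.ofReal_mul (by linarith), ← ENNReal.ofReal_mul (by linarith),
        ← ENNReal.ofReal_add (by nlinarith [Real.pi_pos]) (by nlinarith [Real.pi_pos])]
      exact ENNReal.ofReal_le_ofReal (by linarith)

theorem D4_cvx {a b c d : ℝ} : Convex ℝ (Ioo a b ×ℂ Ioo c d) :=
  ((convex_Ioo a b).linear_preimage Complex.reLm).inter
    ((convex_Ioo c d).linear_preimage Complex.imLm)

theorem D4_phi (C : Cf) (gen : C.Gen) {Ω₀ : Set ℂ} {p x₀ a b : ℝ} (hab : a + 2 < b)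
    (hV : ∀ z ∈ Ω₀, z ∉ C.V) {G : ℂ → ℂ} (hG : ContinuousOn G Ω₀) (hF : ∀ z ∈ Ω₀, C.F (G z) = z)
    (hin : ∀ E : ℂ, 0 < E.im → Real.exp a < ‖E‖ → ‖E‖ < Real.exp b → C.ξi p (x₀ + E) ∈ Ω₀)
    (hm : ∀ ρ ∈ Ioo a b, G =ᶠ[𝓝[C.U] (C.ξi p ((x₀ - Real.exp ρ : ℝ) : ℂ))] C.mb)
    (hbad : ∀ ρ ∈ Ioo a b, ∀ᶠ z in 𝓝[C.U] (C.ξi p ((x₀ + Real.exp ρ : ℝ) : ℂ)), G z ≠ C.mb z) :
    ∃ φ : ℂ → ℝ, IsV C.U C.Ub φ ∧ (∀ z, φ z ∈ Icc (0 : ℝ) 1) ∧
      (∀ ρ ∈ Icc (a + 2) (b - 2), φ (C.mb (C.ξi p ((x₀ - Real.exp ρ : ℝ) : ℂ))) = 1) ∧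
      (∀ ρ ∈ Icc (a + 2) (b - 2), φ (C.mb (C.ξi p ((x₀ + Real.exp ρ : ℝ) : ℂ))) = 0) ∧
      En C.W φ ≤ ENNReal.ofReal (2 * Real.pi) := by
  have hπ := Real.pi_gt_three
  set g : ℂ → ℂ := fun ζ => C.ξi p (x₀ + Complex.exp ζ) with hg
  have ce : Differentiable ℂ fun ζ : ℂ => (x₀ : ℂ) + Complex.exp ζ := by fun_prop
  have im_e : ∀ ζ : ℂ, ((x₀ : ℂ) + Complex.exp ζ).im = Real.exp ζ.re * Real.sin ζ.im := fun ζ => by
    simp [Complex.exp_im]
  have hN : IsOpen ((fun ζ : ℂ => (x₀ : ℂ) + Complex.exp ζ) ⁻¹' C.Nξ) :=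
    (isOpen_Nξ C).preimage ce.continuous
  have gd : DifferentiableOn ℂ g ((fun ζ : ℂ => (x₀ : ℂ) + Complex.exp ζ) ⁻¹' C.Nξ) :=
    (ξi_diff C p).comp ce.differentiableOn fun _ h => h
  have hN' : IsOpen ((fun ζ : ℂ => (x₀ : ℂ) + Complex.exp ζ) ⁻¹' C.Nξ ∩ g ⁻¹' (↑C.V : Set ℂ)ᶜ) :=
    gd.continuousOn.isOpen_inter_preimage hN C.V.finite_toSet.isClosed.isOpen_compl
  have up : ∀ ρ : ℝ, g (ρ + Real.pi * Complex.I) = C.ξi p ((x₀ - Real.exp ρ : ℝ) : ℂ) := fun ρ => by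
    simp only [hg, Complex.exp_add, Complex.exp_pi_mul_I]
    push_cast
    rw [mul_neg_one, ← sub_eq_add_neg]
  have lo : ∀ ρ : ℝ, g ρ = C.ξi p ((x₀ + Real.exp ρ : ℝ) : ℂ) := fun ρ => by
    simp only [hg]
    push_cast
    rfl
  have hS : ∀ ζ : ℂ, ζ.re ∈ Ioo a b → ζ.im ∈ Ioo 0 Real.pi → g ζ ∈ Ω₀ ∧ g ζ ∈ C.U := by
    intro ζ h1 h2
    have i0 : 0 < Real.exp ζ.re * Real.sin ζ.im :=
      mul_pos (Real.exp_pos _) (Real.sin_pos_of_pos_of_lt_pi h2.1 h2.2)
    refine ⟨hin _ (by rwa [Complex.exp_im]) ?_ ?_,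
      (ξi_U C p (mem_Nξ C (by rw [im_e]; exact i0.le))).2 (by rwa [im_e])⟩
    · rw [Complex.norm_exp]
      exact Real.exp_lt_exp.2 h1.1
    · rw [Complex.norm_exp]
      exact Real.exp_lt_exp.2 h1.2
  have hK : Icc (a + 1 / 2) (b - 1 / 2) ×ℂ Icc 0 Real.pi ⊆
      (fun ζ : ℂ => (x₀ : ℂ) + Complex.exp ζ) ⁻¹' C.Nξ ∩ g ⁻¹' (↑C.V : Set ℂ)ᶜ := by
    rintro ζ ⟨h1, h2⟩
    refine ⟨mem_Nξ C (by
      rw [im_e]
      exact mul_nonneg (Real.exp_pos _).le (Real.sin_nonneg_of_nonneg_of_le_pi h2.1 h2.2)), ?_⟩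
    rcases h2.1.eq_or_lt with k | k
    · have e : ζ = (ζ.re : ℂ) := Complex.ext rfl k.symm
      rw [mem_preimage, e, lo, ξi_real]
      exact gen _
    · rcases h2.2.eq_or_lt with j | j
      · have e : ζ = ζ.re + Real.pi * Complex.I := by rw [← j, Complex.re_add_im]
        rw [mem_preimage, e, up, ξi_real]
        exact gen _
      · exact hV _ (hS ζ ⟨by linarith [h1.1], by linarith [h1.2]⟩ ⟨k, j⟩).1
  obtain ⟨δ₀, hδ₀, hth⟩ := (isCompact_Icc.reProdIm isCompact_Icc).exists_thickening_subset_open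
    hN' hK
  obtain ⟨δ, hδ, d1, d2⟩ : ∃ δ : ℝ, 0 < δ ∧ δ ≤ δ₀ ∧ δ ≤ 1 :=
    ⟨min δ₀ 1, lt_min hδ₀ one_pos, min_le_left _ _, min_le_right _ _⟩
  set O : Set ℂ := Ioo (a + 1 / 2) (b - 1 / 2) ×ℂ Ioo (-δ) (Real.pi + δ) with hO
  set S : Set ℂ := Ioo (a + 1 / 2) (b - 1 / 2) ×ℂ Ioo 0 Real.pi with hSd
  have oO : IsOpen O := isOpen_Ioo.reProdIm isOpen_Ioo
  have SO : S ⊆ O := fun ζ h => ⟨h.1, by linarith [h.2.1], by linarith [h.2.2]⟩
  have ON : ∀ ζ ∈ O, (x₀ : ℂ) + Complex.exp ζ ∈ C.Nξ ∧ g ζ ∉ C.V := by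
    intro ζ h
    obtain ⟨t, t1, t2⟩ : ∃ t : ℝ, |t| < δ ∧ ζ.im - t ∈ Icc 0 Real.pi := by
      rcases le_total ζ.im 0 with k | k
      · exact ⟨ζ.im, abs_lt.2 ⟨h.2.1, by linarith⟩, by simp, by linarith⟩
      · rcases le_total ζ.im Real.pi with j | j
        · exact ⟨0, by simpa using hδ, by simpa using k, by simpa using j⟩
        · exact ⟨ζ.im - Real.pi, abs_lt.2 ⟨by linarith, by linarith [h.2.2]⟩, by linarith,
            by linarith⟩
    refine hth (mem_thickening_iff.2 ⟨ζ - t * Complex.I, ⟨?_, ?_⟩, ?_⟩)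
    · simpa using Ioo_subset_Icc_self h.1
    · simpa using t2
    · rw [dist_eq_norm, sub_sub_cancel, norm_mul, Complex.norm_I, mul_one, Complex.norm_real]
      exact t1.trans_le d1
  have gO : DifferentiableOn ℂ g O := gd.mono fun ζ h => (ON ζ h).1
  have gi : InjOn g O := by
    intro u hu v hv e
    have e1 := congrArg (C.ξ p) e
    rw [hg, ξ_ξi C p (ON u hu).1, ξ_ξi C p (ON v hv).1, add_right_inj] at e1
    have e2 : Complex.exp (u - Real.pi / 2 * Complex.I) =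
        Complex.exp (v - Real.pi / 2 * Complex.I) := by
      rw [Complex.exp_sub, Complex.exp_sub, e1]
    have i2 : ∀ w : ℂ, (w - Real.pi / 2 * Complex.I).im = w.im - Real.pi / 2 := fun w => by simp
    exact sub_left_injective (Complex.exp_inj_of_neg_pi_lt_of_le_pi
      (by rw [i2]; linarith [hu.2.1]) (by rw [i2]; linarith [hu.2.2])
      (by rw [i2]; linarith [hv.2.1]) (by rw [i2]; linarith [hv.2.2]) e2)
  have hS' : ∀ ζ ∈ S, g ζ ∈ Ω₀ ∧ g ζ ∈ C.U := fun ζ h =>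
    hS ζ ⟨by linarith [h.1.1], by linarith [h.1.2]⟩ h.2
  have w0 : (⟨a + 1, 1⟩ : ℂ) ∈ S := ⟨⟨by simp only; linarith, by simp only; linarith⟩,
    ⟨one_pos, by simp only; linarith⟩⟩
  obtain ⟨s, sd, s0, sF⟩ := lift_cvx C oO D4_cvx gO (fun w hw => (ON w hw).2) (SO w0)
    (hF _ (hS' _ w0).1)
  have sG : EqOn s (fun ζ => G (g ζ)) S :=
    lift_uniq C.cov D4_cvx.isPreconnected (sd.continuousOn.mono SO)
      (hG.comp (gO.continuousOn.mono SO) fun ζ h => (hS' ζ h).1)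
      (fun u hu => by rw [sF u (SO hu)]; exact (ON u (SO hu)).2)
      (fun u hu => by rw [sF u (SO hu), hF _ (hS' u hu).1]) w0 s0
  have cl : ∀ ζ : ℂ, ζ.re ∈ Icc (a + 2) (b - 2) → ζ.im ∈ Icc 0 Real.pi →
      ζ ∈ O ∧ (𝓝[S] ζ).NeBot ∧ Tendsto g (𝓝[S] ζ) (𝓝[C.U] (g ζ)) := by
    intro ζ h1 h2
    have k : ζ ∈ O := ⟨⟨by linarith [h1.1], by linarith [h1.2]⟩, by linarith [h2.1],
      by linarith [h2.2]⟩
    refine ⟨k, mem_closure_iff_nhdsWithin_neBot.1 ?_, tendsto_nhdsWithin_iff.2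
      ⟨(gO.continuousOn.continuousAt (oO.mem_nhds k)).continuousWithinAt,
        eventually_nhdsWithin_of_forall fun w hw => (hS' w hw).2⟩⟩
    rw [hSd, Complex.closure_reProdIm, closure_Ioo (by linarith), closure_Ioo (by linarith)]
    exact ⟨⟨by linarith [h1.1], by linarith [h1.2]⟩, h2⟩
  obtain ⟨k, k1, k2, k3, k4, k5⟩ := D4_k a b hδ
  obtain ⟨φ, f1, f2, f3, f4, f5⟩ := push C oO
    (Q := Icc (a + 1) (b - 1) ×ℂ Icc (-(δ / 2)) (Real.pi + δ / 2))
    (isCompact_Icc.reProdIm isCompact_Icc)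
    (fun ζ h => ⟨⟨by linarith [h.1.1], by linarith [h.1.2]⟩, by linarith [h.2.1],
      by linarith [h.2.2]⟩) sd gi sF (k1.mono (subset_univ _)) (fun w _ hw => k3 w hw) k2
  refine ⟨φ, f1, f2, fun ρ hρ => ?_, fun ρ hρ => ?_, f5.trans ((En_mono (fun w hw => ?_) k).trans k5)⟩
  · have r1 : ((ρ : ℂ) + Real.pi * Complex.I).re = ρ := by simp
    have r2 : ((ρ : ℂ) + Real.pi * Complex.I).im = Real.pi := by simp
    obtain ⟨c1, c2, c3⟩ := cl (ρ + Real.pi * Complex.I) (by rwa [r1])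
      (by rw [r2]; exact ⟨by linarith, le_rfl⟩)
    have m1 := hm ρ ⟨by linarith [hρ.1], by linarith [hρ.2]⟩
    rw [← up] at m1 ⊢
    have gΩ : g (ρ + Real.pi * Complex.I) ∈ C.Ω := by
      rw [up, ξi_real]
      exact C.γ_Ω _
    have e : s (ρ + Real.pi * Complex.I) = C.mb (g (ρ + Real.pi * Complex.I)) := by
      refine tendsto_nhds_unique_of_eventuallyEq (l := 𝓝[S] (ρ + Real.pi * Complex.I))
        (sd.continuousOn.continuousAt (oO.mem_nhds c1)).continuousWithinAt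
        ((C.mb_cont.continuousAt (C.isOpen_Ω.mem_nhds gΩ)).tendsto.comp
          (c3.mono_right nhdsWithin_le_nhds)) ?_
      filter_upwards [c3.eventually m1, self_mem_nhdsWithin] with w h1 h2
      rw [sG h2]
      exact h1
    rw [← e, f3 _ c1]
    exact k4 _ (by rwa [r1]) (by rw [r2]; exact ⟨by linarith, le_rfl⟩)
  · obtain ⟨c1, c2, c3⟩ := cl ρ hρ ⟨le_rfl, by simp only [Complex.ofReal_im]; linarith⟩
    have m1 := hbad ρ ⟨by linarith [hρ.1], by linarith [hρ.2]⟩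
    rw [← lo] at m1 ⊢
    have gΩ : g ρ ∈ C.Ω := by
      rw [lo, ξi_real]
      exact C.γ_Ω _
    refine f4 _ ?_
    rintro ⟨w, hw, e⟩
    obtain rfl : w = ρ := gi hw c1 (by rw [← sF w hw, e, C.F_mb gΩ])
    obtain ⟨ε, hε, hb⟩ := Metric.isOpen_iff.1
      (gO.continuousOn.isOpen_inter_preimage oO C.isOpen_Ω) _ ⟨hw, gΩ⟩
    have q : EqOn s (fun ζ => C.mb (g ζ)) (ball (ρ : ℂ) ε) :=
      lift_uniq C.cov (convex_ball _ _).isPreconnected
        (sd.continuousOn.mono fun u hu => (hb hu).1)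
        (C.mb_cont.comp (gO.continuousOn.mono fun u hu => (hb hu).1) fun u hu => (hb hu).2)
        (fun u hu => by rw [sF u (hb hu).1]; exact (ON u (hb hu).1).2)
        (fun u hu => by rw [sF u (hb hu).1, C.F_mb (hb hu).2]) (mem_ball_self hε) e
    obtain ⟨u, u1, u2, u3⟩ := ((c3.eventually m1).and (eventually_mem_nhdsWithin.and
      (mem_nhdsWithin_of_mem_nhds (ball_mem_nhds _ hε)))).exists
    exact u1 ((sG u2).symm.trans (q u3))
  · have i0 := (ξi_U C p (ON w hw.1).1).1 hw.2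
    rw [im_e] at i0
    have i1 := (pos_iff_pos_of_mul_pos i0).1 (Real.exp_pos _)
    refine ⟨mem_univ _, ?_, ?_⟩
    · by_contra hn
      have := Real.sin_nonpos_of_nonpos_of_neg_pi_le (not_lt.1 hn) (by linarith [hw.1.2.1])
      linarith
    · by_contra hn
      have := Real.sin_nonneg_of_nonneg_of_le_pi (x := w.im - Real.pi) (by linarith)
        (by linarith [hw.1.2.2])
      rw [Real.sin_sub_pi] at this
      linarith

theorem bad (Z : Ctx) {κ r p p' r' : ℝ} (hκ : 1 / 2 ≤ κ) (h₁ : r < p) (h₂ : p < p') (h₃ : p' < r')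
    (h₄ : r' - r < 1 / 2) (hV : ∀ z ∈ Z.C.Chn κ r p p' r', z ∉ Z.C.V) {G : ℂ → ℂ}
    (hG : ContinuousOn G (Z.C.Chn κ r p p' r')) (hF : ∀ z ∈ Z.C.Chn κ r p p' r', Z.C.F (G z) = z)
    (hm : Z.C.Main G 1 r p)
    (hbad : ∀ t ∈ Ioo p' r', ∀ᶠ z in 𝓝[Z.C.U] (Z.C.γ (t : T)), G z ≠ Z.C.mb z) :
    Z.C.H.real (arc r p ×ˢ arc p' r') ≤ Z.K.b.real (sh Z.C.α (arc r p ×ˢ arc p' r')) + 50 := by
  have := Z.K.b_fin
  have := Z.K.h_fin
  obtain ⟨X, hX⟩ := exists_ch Z.C p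
  have hR := rep Z.C p hX
  have lt : ∀ {s t : ℝ}, -(1 / 2) < s → s < t → t < 1 / 2 → X.σ s < X.σ t := fun a b c =>
    X.σ_mono ⟨a, b.trans c⟩ ⟨a.trans b, c⟩ b
  have rect : ∀ {a b c d : ℝ}, -(1 / 2) < a → a ≤ b → b < c → c ≤ d → d < 1 / 2 →
      Z.C.H (arc (p + a) (p + b) ×ˢ arc (p + c) (p + d)) =
        ENNReal.ofReal (Real.log (X.len a c * X.len b d / (X.len b c * X.len a d))) :=
    fun a b c d e => by
      rw [hR.rect a (by linarith) (by linarith) e, X.H_rect a b c d e]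
  obtain ⟨x₀, hx₀⟩ : ∃ x₀, x₀ = X.σ 0 := ⟨_, rfl⟩
  obtain ⟨A, hA⟩ : ∃ A, A = x₀ - X.σ (r - p) := ⟨_, rfl⟩
  obtain ⟨m, hm'⟩ : ∃ m, m = X.σ (p' - p) - x₀ := ⟨_, rfl⟩
  obtain ⟨B, hB⟩ : ∃ B, B = X.σ (r' - p) - x₀ := ⟨_, rfl⟩
  have A0 : 0 < A := by
    have := lt (s := r - p) (t := 0) (by linarith) (by linarith) (by norm_num)
    linarith
  have m0 : 0 < m := by
    have := lt (s := 0) (t := p' - p) (by norm_num) (by linarith) (by linarith)
    linarith
  have mB : m < B := by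
    have := lt (s := p' - p) (t := r' - p) (by linarith) (by linarith) (by linarith)
    linarith
  obtain ⟨μ, μA, μB, hμ⟩ : ∃ μ, μ ≤ A ∧ μ ≤ B ∧ (μ = A ∨ μ = B) :=
    ⟨min A B, min_le_left _ _, min_le_right _ _, min_choice _ _⟩
  have μ0 : 0 < μ := by rcases hμ with h | h <;> linarith
  have b0 : 0 ≤ Z.K.b.real (sh Z.C.α (arc r p ×ˢ arc p' r')) := measureReal_nonneg
  have hw : Z.C.H.real (arc r p ×ˢ arc p' r') ≤ Real.log (1 + μ / m) := by
    have e := rect (a := r - p) (b := 0) (c := p' - p) (d := r' - p) (by linarith) (by linarith)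
      (by linarith) (by linarith) (by linarith)
    simp only [add_sub_cancel, add_zero] at e
    have q0 : 0 < μ / m := by positivity
    rw [measureReal_def, e]
    refine ENNReal.toReal_le_of_le_ofReal (Real.log_nonneg (by linarith))
      (ENNReal.ofReal_le_ofReal ?_)
    have e1 : X.len (r - p) (p' - p) = A + m := by unfold Ch.len; linarith
    have e2 : X.len 0 (r' - p) = B := by unfold Ch.len; linarith
    have e3 : X.len 0 (p' - p) = m := by unfold Ch.len; linarith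
    have e4 : X.len (r - p) (r' - p) = A + B := by unfold Ch.len; linarith
    have B0 : 0 < B := by linarith
    rw [e1, e2, e3, e4]
    refine Real.log_le_log (by positivity) ?_
    rw [div_le_iff₀ (by positivity), show (1 + μ / m) * (m * (A + B)) = (m + μ) * (A + B) by
      field_simp]
    rcases hμ with h | h <;> rw [h] <;> nlinarith
  by_cases hc : μ ≤ Real.exp 6 * m
  · have q : Real.log (1 + μ / m) ≤ 7 := by
      rw [Real.log_le_iff_le_exp (by positivity), show (7 : ℝ) = 6 + 1 by norm_num, Real.exp_add]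
      have q1 : μ / m ≤ Real.exp 6 := by rwa [div_le_iff₀ m0]
      have q2 := Real.add_one_le_exp 1
      have q3 := Real.add_one_le_exp 6
      nlinarith
    linarith
  rw [not_le] at hc
  obtain ⟨a, ha⟩ : ∃ a, Real.exp a = m := ⟨_, Real.exp_log m0⟩
  obtain ⟨b, hb⟩ : ∃ b, Real.exp b = μ := ⟨_, Real.exp_log μ0⟩
  have ab : a + 6 < b := by rwa [← ha, ← hb, ← Real.exp_add, Real.exp_lt_exp, add_comm] at hc
  have hw2 : Real.log (1 + μ / m) ≤ b - a + 1 := by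
    rw [Real.log_le_iff_le_exp (by positivity), ← ha, ← hb, ← Real.exp_sub, Real.exp_add]
    have q2 := Real.add_one_le_exp 1
    have q3 := Real.add_one_le_exp (b - a)
    nlinarith
  have ιm := X.ι_mem
  have ι0 : X.ι x₀ = 0 := by rw [hx₀, X.ι_σ 0 ⟨by norm_num, by norm_num⟩]
  have ιA : X.ι (x₀ - A) = r - p := by
    rw [hA, sub_sub_cancel, X.ι_σ _ ⟨by linarith, by linarith⟩]
  have ιm' : X.ι (x₀ + m) = p' - p := by
    rw [hm', add_sub_cancel, X.ι_σ _ ⟨by linarith, by linarith⟩]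
  have ιB : X.ι (x₀ + B) = r' - p := by
    rw [hB, add_sub_cancel, X.ι_σ _ ⟨by linarith, by linarith⟩]
  have xr : ∀ y : ℝ, Z.C.ξi p y = Z.C.γ ((p + X.ι y : ℝ) : T) := fun y => by
    rw [ξi_real, hX.1]
  have ex : ∀ {s t : ℝ}, s < t → Real.exp s < Real.exp t := fun h => Real.exp_lt_exp.2 h
  have wl : ∀ ρ, ρ < b → p + X.ι (x₀ - Real.exp ρ) ∈ Ioo r p := fun ρ h => by
    have q1 := X.ι_mono (show x₀ - A < x₀ - Real.exp ρ by linarith [ex h])
    have q2 := X.ι_mono (show x₀ - Real.exp ρ < x₀ by linarith [Real.exp_pos ρ])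
    exact ⟨by linarith, by linarith⟩
  have wr : ∀ ρ ∈ Ioo a b, p + X.ι (x₀ + Real.exp ρ) ∈ Ioo p' r' := fun ρ h => by
    have q1 := X.ι_mono (show x₀ + m < x₀ + Real.exp ρ by linarith [ex h.1])
    have q2 := X.ι_mono (show x₀ + Real.exp ρ < x₀ + B by linarith [ex h.2])
    exact ⟨by linarith, by linarith⟩
  obtain ⟨φ, f1, f2, f3, f4, f5⟩ := D4_phi Z.C Z.gen (p := p) (x₀ := x₀) (a := a) (b := b)
    (by linarith) hV hG hF (fun E e1 e2 e3 => by
      have i0 : 0 < ((x₀ : ℂ) + E).im := by simpa using e1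
      have n1 := mem_Nξ Z.C i0.le
      have u1 := (ξi_U Z.C p n1).2 i0
      have o1 := om_ang Z.C p u1 (a := 0) (b := p' - p) (by norm_num) (by linarith) (by linarith)
      have o2 := om_ang Z.C p u1 (a := r - p) (b := r' - p) (by linarith) (by linarith)
        (by linarith)
      rw [ξ_ξi Z.C p n1, ← hX.2] at o1 o2
      simp only [add_sub_cancel, add_zero] at o1 o2
      rw [← hx₀, show X.σ (p' - p) = x₀ + m by linarith] at o1
      rw [show X.σ (r - p) = x₀ - A by linarith, show X.σ (r' - p) = x₀ + B by linarith] at o2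
      refine ⟨u1, ?_, ?_⟩
      · rw [o1]
        exact (D4_ang1 e1 m0 (by linarith)).trans_le hκ
      · rw [o2]
        exact (D4_ang2 e1 (by linarith) (by linarith)).trans_le hκ)
    (fun ρ h => by rw [xr]; exact hm _ (wl ρ h.2)) (fun ρ h => by rw [xr]; exact hbad _ (wr ρ h))
  obtain ⟨t₁, ht₁⟩ : ∃ t, t = X.ι (x₀ - Real.exp (b - 3)) := ⟨_, rfl⟩
  obtain ⟨t₂, ht₂⟩ : ∃ t, t = X.ι (x₀ - Real.exp (a + 3)) := ⟨_, rfl⟩
  obtain ⟨t₃, ht₃⟩ : ∃ t, t = X.ι (x₀ + Real.exp (a + 3)) := ⟨_, rfl⟩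
  obtain ⟨t₄, ht₄⟩ : ∃ t, t = X.ι (x₀ + Real.exp (b - 3)) := ⟨_, rfl⟩
  have x1 := ex (show a + 2 < a + 3 by linarith)
  have x2 := ex (show a + 3 < b - 3 by linarith)
  have x3 := ex (show b - 3 < b - 2 by linarith)
  have x0 := Real.exp_pos (a + 2)
  have g1 := X.ι_mono (show x₀ - Real.exp (b - 2) < x₀ - Real.exp (b - 3) by linarith)
  have g2 := X.ι_mono (show x₀ - Real.exp (a + 3) < x₀ - Real.exp (a + 2) by linarith)
  have g3 := X.ι_mono (show x₀ + Real.exp (a + 2) < x₀ + Real.exp (a + 3) by linarith)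
  have g4 := X.ι_mono (show x₀ + Real.exp (b - 3) < x₀ + Real.exp (b - 2) by linarith)
  have g12 := X.ι_mono (show x₀ - Real.exp (b - 3) < x₀ - Real.exp (a + 3) by linarith)
  have g23 := X.ι_mono (show x₀ - Real.exp (a + 3) < x₀ + Real.exp (a + 3) by linarith)
  have g34 := X.ι_mono (show x₀ + Real.exp (a + 3) < x₀ + Real.exp (b - 3) by linarith)
  have w1 := wl (b - 3) (by linarith)
  have w2 := wl (a + 3) (by linarith)
  have w3 := wr (a + 3) ⟨by linarith, by linarith⟩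
  have w4 := wr (b - 3) ⟨by linarith, by linarith⟩
  rw [← ht₁] at g1 g12 w1
  rw [← ht₂] at g2 g12 g23 w2
  rw [← ht₃] at g3 g23 g34 w3
  rw [← ht₄] at g4 g34 w4
  obtain ⟨δ, δ0, δ1, δ2, δ3, δ4⟩ : ∃ δ > 0, δ ≤ t₁ - X.ι (x₀ - Real.exp (b - 2)) ∧
      δ ≤ X.ι (x₀ - Real.exp (a + 2)) - t₂ ∧ δ ≤ t₃ - X.ι (x₀ + Real.exp (a + 2)) ∧
      δ ≤ X.ι (x₀ + Real.exp (b - 2)) - t₄ :=
    ⟨min (min _ _) (min _ _), lt_min (lt_min (sub_pos.2 g1) (sub_pos.2 g2))
      (lt_min (sub_pos.2 g3) (sub_pos.2 g4)), (min_le_left _ _).trans (min_le_left _ _),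
      (min_le_left _ _).trans (min_le_right _ _), (min_le_right _ _).trans (min_le_left _ _),
      (min_le_right _ _).trans (min_le_right _ _)⟩
  have near : ∀ (x y : T) (u v : ℝ) (y₁ y₂ : ℝ), y + (Z.C.α : T) ∈ arc (p + u) (p + v) →
      dist x y < δ → δ ≤ u - X.ι y₁ → δ ≤ X.ι y₂ - v →
      ∃ z ∈ Ioo y₁ y₂, Z.C.γ x = Z.C.mb (Z.C.ξi p z) := by
    rintro x y u v y₁ y₂ ⟨t, ht, e⟩ hd k1 k2
    obtain ⟨τ, e1, e2⟩ := exists_rep y x
    obtain ⟨τ1, τ2⟩ := abs_lt.1 (e2.trans_lt hd)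
    have j1 : X.ι y₁ < t + τ - p := by linarith [ht.1]
    have j2 : t + τ - p < X.ι y₂ := by linarith [ht.2]
    have j3 : t + τ - p ∈ Ioo (-(1 / 2) : ℝ) (1 / 2) := ⟨(ιm y₁).1.trans j1, j2.trans (ιm y₂).2⟩
    refine ⟨X.σ (t + τ - p), ⟨?_, ?_⟩, ?_⟩
    · exact (X.σ_ι y₁).symm.trans_lt (lt (ιm y₁).1 j1 j3.2)
    · exact (lt j3.1 j2 (ιm y₂).2).trans_eq (X.σ_ι y₂)
    · rw [xr, X.ι_σ _ j3, add_sub_cancel, AddCircle.coe_add, e, add_right_comm, ← e1, Z.C.mb_γ]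
  have cA : ∀ u v : ℝ, IsClosed {x : T | x + (Z.C.α : T) ∈ arc u v} := fun u v =>
    (isCompact_arc u v).isClosed.preimage (continuous_id.add continuous_const)
  have cut := Z.cut _ _ φ δ (cA (p + t₁) (p + t₂)) (cA (p + t₃) (p + t₄)) δ0 f1 f2
    (fun x y hy hd => by
      obtain ⟨z, hz, e⟩ := near x y t₁ t₂ _ _ hy hd δ1 δ2
      have z0 : 0 < x₀ - z := by linarith [hz.2]
      have := f3 (Real.log (x₀ - z)) ⟨by rw [Real.le_log_iff_exp_le z0]; linarith [hz.2],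
        by rw [Real.log_le_iff_le_exp z0]; linarith [hz.1]⟩
      rwa [Real.exp_log z0, sub_sub_cancel, ← e] at this)
    (fun x y hy hd => by
      obtain ⟨z, hz, e⟩ := near x y t₃ t₄ _ _ hy hd δ3 δ4
      have z0 : 0 < z - x₀ := by linarith [hz.1]
      have := f4 (Real.log (z - x₀)) ⟨by rw [Real.le_log_iff_exp_le z0]; linarith [hz.1],
        by rw [Real.log_le_iff_le_exp z0]; linarith [hz.2]⟩
      rwa [Real.exp_log z0, add_sub_cancel, ← e] at this)
  have off : Off (arc (p + t₁) (p + t₂) ×ˢ arc (p + t₃) (p + t₄)) :=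
    off_arc (by linarith) (by linarith [w1.1, w4.2])
  have E1 : Z.K.H.real (arc (p + t₁) (p + t₂) ×ˢ arc (p + t₃) (p + t₄)) +
      Z.K.h.real (sh Z.C.α (arc (p + t₁) (p + t₂) ×ˢ arc (p + t₃) (p + t₄))) =
      Z.K.H.real (sh Z.C.α (arc (p + t₁) (p + t₂) ×ˢ arc (p + t₃) (p + t₄))) +
      Z.K.b.real (sh Z.C.α (arc (p + t₁) (p + t₂) ×ˢ arc (p + t₃) (p + t₄))) :=
    Z.σ.E1r ((measurableSet_arc _ _).prod (measurableSet_arc _ _)) off
  rw [Z.hH] at E1
  have c2 : Z.C.H.real (sh Z.C.α (arc (p + t₁) (p + t₂) ×ˢ arc (p + t₃) (p + t₄))) ≤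
      Z.K.h.real (sh Z.C.α (arc (p + t₁) (p + t₂) ×ˢ arc (p + t₃) (p + t₄))) + 40 := by
    have c1 : Z.C.H (sh Z.C.α (arc (p + t₁) (p + t₂) ×ˢ arc (p + t₃) (p + t₄))) ≤
        Z.K.h (sh Z.C.α (arc (p + t₁) (p + t₂) ×ˢ arc (p + t₃) (p + t₄))) +
          ENNReal.ofReal 40 := by
      refine le_trans cut (add_le_add le_rfl ((mul_le_mul_right f5 _).trans ?_))
      rw [← ENNReal.ofReal_mul (by positivity)]
      exact ENNReal.ofReal_le_ofReal (by nlinarith [Real.pi_lt_d2, Real.pi_pos])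
    refine (ENNReal.toReal_mono (ENNReal.add_ne_top.2 ⟨measure_ne_top _ _, ENNReal.ofReal_ne_top⟩)
      c1).trans_eq ?_
    rw [ENNReal.toReal_add (measure_ne_top _ _) ENNReal.ofReal_ne_top,
      ENNReal.toReal_ofReal (by norm_num)]
    rfl
  have c3 : Z.K.b.real (sh Z.C.α (arc (p + t₁) (p + t₂) ×ˢ arc (p + t₃) (p + t₄))) ≤
      Z.K.b.real (sh Z.C.α (arc r p ×ˢ arc p' r')) :=
    measureReal_mono (sh_mono _ (prod_mono (arc_mono w1.1.le w2.2.le) (arc_mono w3.1.le w4.2.le)))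
  have c4 : b - a - 9 ≤ Z.C.H.real (arc (p + t₁) (p + t₂) ×ˢ arc (p + t₃) (p + t₄)) := by
    rw [measureReal_def, rect (ht₁ ▸ (ιm _).1) g12.le g23 g34.le (ht₄ ▸ (ιm _).2),
      ENNReal.toReal_ofReal']
    refine le_trans ?_ (le_max_left _ _)
    simp only [Ch.len, ht₁, ht₂, ht₃, ht₄, X.σ_ι]
    have y1 := Real.exp_pos (a + 3)
    have y2 := Real.exp_pos (b - 3)
    have y3 : Real.exp (b - a - 9) * Real.exp 3 * Real.exp (a + 3) = Real.exp (b - 3) := by
      rw [← Real.exp_add, ← Real.exp_add]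
      exact congrArg _ (by ring)
    have y4 := Real.add_one_le_exp 3
    have y5 := Real.exp_pos (b - a - 9)
    generalize Real.exp (a + 3) = n at *
    generalize Real.exp (b - 3) = M at *
    rw [show x₀ + n - (x₀ - M) = M + n by ring, show x₀ + M - (x₀ - n) = M + n by ring,
      show x₀ + n - (x₀ - n) = 2 * n by ring, show x₀ + M - (x₀ - M) = 2 * M by ring,
      Real.le_log_iff_exp_le (by positivity), le_div_iff₀ (by positivity)]
    have y6 : Real.exp (b - a - 9) * 4 * n ≤ M := by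
      rw [← y3]
      exact mul_le_mul_of_nonneg_right (mul_le_mul_of_nonneg_left (by linarith) y5.le) y1.le
    nlinarith [mul_le_mul_of_nonneg_right y6 y2.le, mul_pos y1 y2, mul_pos y1 y1]
  linarith

end Pool.Agent.Work.MP_042f46_an.Fu
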