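import Pool.Agent.Work.MP_042f46_an.F.Defs

-- merged part: Pool.Agent.Work.MP_042f46_an.F.A1
section
/-!
# Slowly varying majorants

Plans.  `TP`: cut the segment from `z` to `z'` (it lies in `HP`) into `n` equal parts of length at most `r`; the `k`-th part costs at most `L z exp (k d / (n s)) exp (d / (n s)) d / n`.  `Inv.vert`: the same subdivision gives `S t exp (d / (n Θ)) d` for every `n`.  `Inv.lipschitz`: subdivision with `L ≤ S ≤ B`.  `Inv.en`: at a point with `0 < re` the norm of `gr F` is at most `L z` (`norm_gr_le` on small balls, or `norm_fderiv_le_of_lip'`; `‖gr F z‖ ≤ ‖fderiv ℝ F z‖` from `fderiv_eq_dot`, `dot_self`).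
`tile1`, `tile2`: `S t ^ 2 ≤ (exp 4 / η) ∫ s ∈ [t - η, t], S s ^ 2`, then Tonelli (`lintegral_lintegral_swap`).
-/

open Set Metric Topology Filter MeasureTheory
open scoped ENNReal NNReal

noncomputable section
namespace Pool.Agent.Work.MP_042f46_an.Fu

open Pool.Agent.Work.MP_042f46_an.Ty

theorem A1_seg {F : ℂ → ℝ} {z z' : ℂ} (hz : z ∈ HP) (hz' : z' ∈ HP) {n : ℕ} (hn : 0 < n) {c : ℝ}
    (h : ∀ w ∈ HP, ∀ w' ∈ HP, ‖w - w'‖ = ‖z - z'‖ / n → ‖z - w‖ + ‖w - w'‖ ≤ ‖z - z'‖ →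
      (z.im = z'.im → w.im = z.im) → |F w - F w'| ≤ c) : |F z - F z'| ≤ n * c := by
  have hn' : (0 : ℝ) < n := by exact_mod_cast hn
  let p : ℝ → ℂ := fun a => z + (a / n) • (z' - z)
  have hp : ∀ a : ℝ, 0 ≤ a → a ≤ n → p a ∈ HP := by
    intro a h0 h1
    have h2 : a / n ≤ 1 := (div_le_one hn').2 h1
    have h3 : 0 ≤ a / n := by positivity
    have h4 : 0 ≤ z.re := hz
    have h5 : 0 ≤ z'.re := hz'
    show 0 ≤ (z + (a / n) • (z' - z)).re
    simp only [Complex.add_re, Complex.smul_re, Complex.sub_re, smul_eq_mul]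
    nlinarith
  have hd : ∀ a b : ℝ, a ≤ b → ‖p a - p b‖ = (b - a) / n * ‖z - z'‖ := by
    intro a b hab
    have e : p a - p b = ((b - a) / n) • (z - z') := by
      simp only [p, sub_div, sub_smul, smul_sub]
      abel
    rw [e, norm_smul, Real.norm_eq_abs, abs_of_nonneg (div_nonneg (sub_nonneg.2 hab) hn'.le)]
  have p0 : p 0 = z := by simp [p]
  have pn : p n = z' := by simp only [p, div_self hn'.ne', one_smul, add_sub_cancel]
  have key := dist_le_range_sum_of_dist_le (f := fun k : ℕ => F (p k)) n (d := fun _ => c) ?_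
  · simpa [p0, pn, Real.dist_eq] using key
  · intro k hk
    have hk' : (k : ℝ) + 1 ≤ n := by exact_mod_cast hk
    have hk0 : (0 : ℝ) ≤ k := Nat.cast_nonneg k
    rw [Real.dist_eq, Nat.cast_succ]
    refine h _ (hp _ hk0 (by linarith)) _ (hp _ (by linarith) hk') ?_ ?_ fun e => ?_
    · rw [hd _ _ (by linarith)]
      ring
    · nth_rewrite 1 [← p0]
      rw [hd _ _ hk0, hd _ _ (by linarith), ← add_mul, ← add_div]
      refine mul_le_of_le_one_left (norm_nonneg _) ((div_le_one hn').2 ?_)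
      linarith
    · simp [p, e]

theorem A1_nat {d r : ℝ} (hr : 0 < r) : ∃ n : ℕ, 0 < n ∧ d / n ≤ r := by
  obtain ⟨n, hn⟩ := exists_nat_gt (max 0 (d / r))
  have h0 : (0 : ℝ) < n := (le_max_left _ _).trans_lt hn
  refine ⟨n, by exact_mod_cast h0, ?_⟩
  have h1 := (div_lt_iff₀ hr).1 ((le_max_right _ _).trans_lt hn)
  rw [div_le_iff₀ h0]
  linarith

theorem TP {s r : ℝ} (hs : 0 < s) (hr : 0 < r) {F L : ℂ → ℝ} (h0 : ∀ z, 0 ≤ L z) (hL : Slow s L)
    (h : ∀ z ∈ HP, ∀ z' ∈ HP, ‖z - z'‖ ≤ r →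
      |F z - F z'| ≤ L z * Real.exp (‖z - z'‖ / s) * ‖z - z'‖) :
    ∀ z ∈ HP, ∀ z' ∈ HP, |F z - F z'| ≤ L z * Real.exp (‖z - z'‖ / s) * ‖z - z'‖ := by
  intro z hz z' hz'
  obtain ⟨n, hn, hr'⟩ := A1_nat (d := ‖z - z'‖) hr
  have hn' : (0 : ℝ) < n := by exact_mod_cast hn
  refine (A1_seg hz hz' hn (c := L z * Real.exp (‖z - z'‖ / s) * (‖z - z'‖ / n))
    fun w hw w' hw' e1 e2 _ => ?_).trans (le_of_eq (by field_simp))
  refine (h w hw w' hw' (e1 ▸ hr')).trans ?_
  rw [← e1]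
  refine mul_le_mul_of_nonneg_right ?_ (norm_nonneg _)
  refine (mul_le_mul_of_nonneg_right (hL z hz w hw) (Real.exp_pos _).le).trans ?_
  rw [mul_assoc, ← Real.exp_add, ← add_div]
  exact mul_le_mul_of_nonneg_left (Real.exp_le_exp.2 (div_le_div_of_nonneg_right e2 hs.le)) (h0 z)

theorem Inv.S_nonneg {Θ : ℝ} {F L : ℂ → ℝ} {S : ℝ → ℝ} (h : Inv Θ F L S) (t : ℝ) : 0 ≤ S t :=
  (h.L_nonneg (pt 0 t)).trans (h.L_le (pt 0 t) (le_refl (0 : ℝ)))

theorem Inv.vert {Θ : ℝ} (hΘ : 0 < Θ) {F L : ℂ → ℝ} {S : ℝ → ℝ} (h : Inv Θ F L S) {y y' : ℝ}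
    (hy : 0 ≤ y) (hy' : 0 ≤ y') (t : ℝ) : |F (pt y t) - F (pt y' t)| ≤ S t * |y - y'| := by
  have _ := hΘ
  have hd : ‖pt y t - pt y' t‖ = |y - y'| := by
    have e : pt y t - pt y' t = ((y - y' : ℝ) : ℂ) := by
      apply Complex.ext <;> simp [pt]
    rw [e, Complex.norm_real, Real.norm_eq_abs]
  have key : ∀ n : ℕ, 0 < n →
      |F (pt y t) - F (pt y' t)| ≤ S t * Real.exp (|y - y'| / n / Θ) * |y - y'| := by
    intro n hn
    have hn' : (0 : ℝ) < n := by exact_mod_cast hn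
    refine (A1_seg (z := pt y t) (z' := pt y' t) hy hy' hn
      (c := S t * Real.exp (|y - y'| / n / Θ) * (|y - y'| / n))
      fun w hw w' hw' e1 _ e3 => ?_).trans (le_of_eq (by field_simp))
    have e4 : L w ≤ S t := (h.L_le w hw).trans (le_of_eq (congrArg S (e3 rfl)))
    refine (h.lip w hw w' hw').trans ?_
    rw [e1, hd]
    gcongr
  have h1 : Tendsto (fun n : ℕ => |y - y'| / n / Θ) atTop (𝓝 (0 / Θ)) :=
    (tendsto_const_div_atTop_nhds_zero_nat _).div_const Θ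
  have h2 := (((Real.continuous_exp.tendsto _).comp h1).const_mul (S t)).mul_const |y - y'|
  rw [zero_div, Real.exp_zero, mul_one] at h2
  exact ge_of_tendsto h2 ((eventually_gt_atTop 0).mono key)

theorem Inv.lipschitz {Θ : ℝ} (hΘ : 0 < Θ) {F L : ℂ → ℝ} {S : ℝ → ℝ} (h : Inv Θ F L S) :
    ∃ K, LipschitzOnWith K F HP := by
  obtain ⟨B, hB⟩ := h.S_bdd
  refine ⟨_, LipschitzOnWith.of_dist_le' (K := B * Real.exp 1) fun z hz z' hz' => ?_⟩
  obtain ⟨n, hn, hr⟩ := A1_nat (d := ‖z - z'‖) hΘ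
  have hn' : (0 : ℝ) < n := by exact_mod_cast hn
  rw [Real.dist_eq, dist_eq_norm]
  refine (A1_seg hz hz' hn (c := B * Real.exp 1 * (‖z - z'‖ / n))
    fun w hw w' hw' e1 _ _ => ?_).trans (le_of_eq (by field_simp))
  refine (h.lip w hw w' hw').trans ?_
  have e2 : L w ≤ B := (h.L_le w hw).trans (hB _)
  have e3 : 0 ≤ B := (h.L_nonneg w).trans e2
  have e4 : ‖w - w'‖ / Θ ≤ 1 := (div_le_one hΘ).2 (e1 ▸ hr)
  rw [← e1]
  gcongr

theorem Inv.en {Θ : ℝ} (hΘ : 0 < Θ) {F L : ℂ → ℝ} {S : ℝ → ℝ} (h : Inv Θ F L S) :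
    En {z | 0 < z.re} F ≤ Eg L := by
  have _ := hΘ
  have hO : IsOpen {z : ℂ | 0 < z.re} := isOpen_lt continuous_const Complex.continuous_re
  refine setLIntegral_mono' hO.measurableSet fun z hz => ?_
  have hz' : z ∈ HP := le_of_lt (α := ℝ) hz
  have h1 : ‖fderiv ℝ F z‖ ≤ L z := by
    refine le_of_forall_gt_imp_ge_of_dense fun C hC => ?_
    refine norm_fderiv_le_of_lip' ℝ ((h.L_nonneg z).trans hC.le) ?_
    have h2 : Continuous fun x : ℂ => L z * Real.exp (‖z - x‖ / Θ) := by fun_prop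
    have h3 : ∀ᶠ x in 𝓝 z, L z * Real.exp (‖z - x‖ / Θ) < C :=
      h2.continuousAt.eventually_lt continuousAt_const (by simpa using hC)
    filter_upwards [h3, hO.mem_nhds hz] with x e1 e2
    rw [Real.norm_eq_abs, abs_sub_comm, norm_sub_rev]
    exact (h.lip z hz' x (le_of_lt (α := ℝ) e2)).trans
      (mul_le_mul_of_nonneg_right e1.le (norm_nonneg _))
  have h2 : ‖gr F z‖ ≤ L z := by
    have h3 := ((fderiv ℝ F z).le_opNorm (gr F z)).trans
      (mul_le_mul_of_nonneg_right h1 (norm_nonneg _))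
    rw [fderiv_eq_dot, dot_self, norm_pow, norm_norm, sq] at h3
    rcases (norm_nonneg (gr F z)).eq_or_lt with e | e
    · exact e ▸ h.L_nonneg z
    · exact le_of_mul_le_mul_right h3 e
  rw [← ofReal_norm, ← ENNReal.ofReal_pow (norm_nonneg _)]
  exact ENNReal.ofReal_le_ofReal (pow_le_pow_left₀ (norm_nonneg _) h2 2)

theorem A1_avg {Θ η : ℝ} (hη : 0 < η) (hΘ : η ≤ 2 * Θ) {S : ℝ → ℝ}
    (h0 : ∀ t, 0 ≤ S t) (hS : ∀ t t', S t' ≤ S t * Real.exp (|t - t'| / Θ)) (t : ℝ) :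
    ENNReal.ofReal (S t ^ 2) ≤ ENNReal.ofReal (Real.exp 4 / η) *
      ∫⁻ s in Icc (t - η) t, ENNReal.ofReal (S s ^ 2) := by
  have hΘ' : 0 < Θ := by linarith
  have h1 : ∫⁻ _s in Icc (t - η) t, ENNReal.ofReal (S t ^ 2 / Real.exp 4) ≤
      ∫⁻ s in Icc (t - η) t, ENNReal.ofReal (S s ^ 2) := by
    refine setLIntegral_mono' measurableSet_Icc fun s hs => ENNReal.ofReal_le_ofReal ?_
    have e1 : |s - t| / Θ ≤ 2 := by
      rw [div_le_iff₀ hΘ', abs_le]
      constructor <;> linarith [hs.1, hs.2]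
    have e2 : S t ≤ S s * Real.exp 2 :=
      (hS s t).trans (mul_le_mul_of_nonneg_left (Real.exp_le_exp.2 e1) (h0 s))
    have e3 : Real.exp 4 = Real.exp 2 ^ 2 := by
      rw [← Real.exp_nat_mul]
      norm_num
    rw [div_le_iff₀ (Real.exp_pos 4), e3, ← mul_pow]
    exact pow_le_pow_left₀ (h0 t) e2 2
  refine le_trans (le_of_eq ?_) (mul_le_mul_right h1 _)
  rw [setLIntegral_const, Real.volume_Icc, ← ENNReal.ofReal_mul (by positivity),
    ← ENNReal.ofReal_mul (by positivity)]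
  congr 1
  field_simp
  ring

theorem A1_tile {Θ η : ℝ} (hη : 0 < η) (hΘ : η ≤ 2 * Θ) {S : ℝ → ℝ} (hm : Measurable S)
    (h0 : ∀ t, 0 ≤ S t) (hS : ∀ t t', S t' ≤ S t * Real.exp (|t - t'| / Θ))
    {α : Type} [MeasurableSpace α] (μ : Measure α) [SFinite μ] {π : α → ℝ} (hπ : Measurable π)
    {g : α → ℝ≥0∞} (hg : Measurable g) {β : ℝ → ℝ≥0∞}
    (h : ∀ t, ∫⁻ p in {p | π p ∈ Icc t (t + η)}, g p ∂μ ≤ β t) :
    ∫⁻ p, ENNReal.ofReal (S (π p) ^ 2) * g p ∂μ ≤
      ENNReal.ofReal (Real.exp 4 / η) * ∫⁻ t, ENNReal.ofReal (S t ^ 2) * β t := by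
  have hS2 : Measurable fun s => ENNReal.ofReal (S s ^ 2) := (hm.pow_const 2).ennreal_ofReal
  let B : Set (α × ℝ) := {q | q.2 ≤ π q.1 ∧ π q.1 ≤ q.2 + η}
  have hB : MeasurableSet B :=
    (measurableSet_le measurable_snd (hπ.comp measurable_fst)).inter
      (measurableSet_le (hπ.comp measurable_fst) (measurable_snd.add_const η))
  let K : α × ℝ → ℝ≥0∞ := B.indicator fun q => ENNReal.ofReal (S q.2 ^ 2) * g q.1
  have hK : Measurable K :=
    ((hS2.comp measurable_snd).mul (hg.comp measurable_fst)).indicator hB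
  have e1 : ∀ p, ∫⁻ s, K (p, s) = (∫⁻ s in Icc (π p - η) (π p), ENNReal.ofReal (S s ^ 2)) * g p := by
    intro p
    rw [← lintegral_mul_const _ hS2, ← lintegral_indicator measurableSet_Icc]
    refine lintegral_congr fun s => ?_
    by_cases q : (p, s) ∈ B
    · have q' : s ∈ Icc (π p - η) (π p) := ⟨by linarith [q.2], q.1⟩
      simp only [K, indicator_of_mem q, indicator_of_mem q']
    · have q' : s ∉ Icc (π p - η) (π p) := fun r => q ⟨r.2, by linarith [r.1]⟩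
      simp only [K, indicator_of_notMem q, indicator_of_notMem q']
  have e2 : ∀ s, ∫⁻ p, K (p, s) ∂μ ≤ ENNReal.ofReal (S s ^ 2) * β s := by
    intro s
    refine le_trans (le_of_eq ?_) (mul_le_mul_right (h s) _)
    have m : MeasurableSet {p | π p ∈ Icc s (s + η)} := hπ measurableSet_Icc
    rw [← lintegral_const_mul _ hg, ← lintegral_indicator m]
    refine lintegral_congr fun p => ?_
    by_cases q : (p, s) ∈ B
    · have q' : p ∈ {p | π p ∈ Icc s (s + η)} := q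
      simp only [K, indicator_of_mem q, indicator_of_mem q']
    · have q' : p ∉ {p | π p ∈ Icc s (s + η)} := q
      simp only [K, indicator_of_notMem q, indicator_of_notMem q']
  calc _ ≤ ∫⁻ p, ENNReal.ofReal (Real.exp 4 / η) * ∫⁻ s, K (p, s) ∂volume ∂μ := by
        refine lintegral_mono fun p => ?_
        rw [e1, ← mul_assoc]
        exact mul_le_mul_left (A1_avg hη hΘ h0 hS _) _
    _ = ENNReal.ofReal (Real.exp 4 / η) * ∫⁻ s, ∫⁻ p, K (p, s) ∂μ := by
        rw [lintegral_const_mul' _ _ ENNReal.ofReal_ne_top,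
          lintegral_lintegral_swap (f := fun p s => K (p, s)) hK.aemeasurable]
    _ ≤ _ := mul_le_mul_right (lintegral_mono e2) _

theorem tile1 {Θ η : ℝ} (hη : 0 < η) (hΘ : η ≤ 2 * Θ) {S : ℝ → ℝ} (hm : Measurable S)
    (h0 : ∀ t, 0 ≤ S t) (hS : ∀ t t', S t' ≤ S t * Real.exp (|t - t'| / Θ)) {g : ℝ → ℝ≥0∞}
    (hg : Measurable g) {β : ℝ≥0∞} (h : ∀ t, ∫⁻ s in Icc t (t + η), g s ≤ β) :
    ∫⁻ t, ENNReal.ofReal (S t ^ 2) * g t ≤
      ENNReal.ofReal (Real.exp 4 / η) * β * ∫⁻ t, ENNReal.ofReal (S t ^ 2) := by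
  refine (A1_tile hη hΘ hm h0 hS volume measurable_id hg (β := fun _ => β) h).trans (le_of_eq ?_)
  rw [lintegral_mul_const _ (hm.pow_const 2).ennreal_ofReal, mul_assoc, mul_comm β]

theorem tile2 {Θ η ρ : ℝ} (hη : 0 < η) (hΘ : η ≤ 2 * Θ) {S : ℝ → ℝ} (hm : Measurable S)
    (h0 : ∀ t, 0 ≤ S t) (hS : ∀ t t', S t' ≤ S t * Real.exp (|t - t'| / Θ))
    (μ : Measure (ℝ × ℝ)) [SFinite μ] {g : ℝ × ℝ → ℝ≥0∞} (hg : Measurable g) {β : ℝ → ℝ≥0∞}
    (hβ : Measurable β)
    (h : ∀ t, |t| ≤ ρ → ∫⁻ p in {p : ℝ × ℝ | p.1 ∈ Icc t (t + η)}, g p ∂μ ≤ β t) :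
    ∫⁻ p in {p : ℝ × ℝ | |p.1| ≤ ρ - η}, ENNReal.ofReal (S p.1 ^ 2) * g p ∂μ ≤
      ENNReal.ofReal (Real.exp 4 / η) * ∫⁻ t, ENNReal.ofReal (S t ^ 2) * β t := by
  have _ := hβ
  refine A1_tile hη hΘ hm h0 hS (μ.restrict _) measurable_fst hg fun t => ?_
  by_cases ht : |t| ≤ ρ
  · exact (lintegral_mono' (Measure.restrict_mono le_rfl Measure.restrict_le_self) le_rfl).trans
      (h t ht)
  · have e : {p : ℝ × ℝ | p.1 ∈ Icc t (t + η)} ∩ {p : ℝ × ℝ | |p.1| ≤ ρ - η} = ∅ := by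
      refine eq_empty_of_forall_notMem fun p hp => ht ?_
      have e1 := abs_le.1 (show |p.1| ≤ ρ - η from hp.2)
      rw [abs_le]
      constructor <;> linarith [hp.1.1, hp.1.2, e1.1, e1.2]
    have m : MeasurableSet {p : ℝ × ℝ | p.1 ∈ Icc t (t + η)} := measurable_fst measurableSet_Icc
    rw [Measure.restrict_restrict m, e, Measure.restrict_empty,
      lintegral_zero_measure]
    exact zero_le

end Pool.Agent.Work.MP_042f46_an.Fu
end
end

-- merged part: Pool.Agent.Work.MP_042f46_an.F.A2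
section
/-!
# Smoothing by an exponential kernel

Plans.  The one-dimensional kernel `exp (-2 |x| / s)` has integral `s`, and `exp (-|x| / s)` has integral `2 s` (`integral_exp_neg_mul_Ioi`-type lemmas, `integral_comp_abs`); use `Complex.volume_preserving_equiv_real_prod`.  All integrands are bounded multiples of the kernel, so integrable.  `cv2_ge`: the kernel is at least `exp (-4)` on the square `[re z, re z + s] × [im z, im z + s] ⊆ HP`.  `cv2_slow`: `|Δ re| + |Δ im| ≤ 3 / 2 ‖Δ‖`.  `cv2_sq`, `cv1_sq`: Cauchy-Schwarz (`cv2 z ^ 2 ≤ exp 8 / s ^ 2 ∫ k e ^ 2`), Tonelli, and `W z ≤ W w exp ((|Δ re| + |Δ im|) / s)`.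
-/

open Set Metric Topology Filter MeasureTheory
open scoped ENNReal NNReal

noncomputable section
namespace Pool.Agent.Work.MP_042f46_an.Fu

open Pool.Agent.Work.MP_042f46_an.Ty

/-- smoothing on the half plane -/
def cv2 (s : ℝ) (e : ℂ → ℝ) (z : ℂ) : ℝ := Real.exp 4 / s ^ 2 *
  ∫ w in HP, Real.exp (-2 * (|z.re - w.re| + |z.im - w.im|) / s) * e w

/-- smoothing on the line -/
def cv1 (s : ℝ) (E : ℝ → ℝ) (t : ℝ) : ℝ :=
  Real.exp 4 / s * ∫ u, Real.exp (-2 * |t - u| / s) * E u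

lemma A2_val {c : ℝ} (hc : 0 < c) (t : ℝ) : ∫ u, Real.exp (-c * |t - u|) = 2 / c := by
  rw [integral_sub_left_eq_self (fun x => Real.exp (-c * |x|)) volume t,
    integral_comp_abs (f := fun x => Real.exp (-c * x)),
    integral_exp_mul_Ioi (neg_neg_of_pos hc), mul_zero, Real.exp_zero]
  field_simp

lemma A2_int {c : ℝ} (hc : 0 < c) (t : ℝ) : Integrable fun u => Real.exp (-c * |t - u|) :=
  Integrable.of_integral_ne_zero (by rw [A2_val hc]; positivity)

lemma A2_bdd {X : Type*} [MeasurableSpace X] {μ : Measure X} {k f : X → ℝ} {B : ℝ}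
    (hk : Integrable k μ) (hm : Measurable f) (h0 : ∀ w, 0 ≤ f w) (hB : ∀ w, f w ≤ B) :
    Integrable (fun w => k w * f w) μ :=
  hk.mul_bdd hm.aestronglyMeasurable (Eventually.of_forall fun w => by
    rw [Real.norm_eq_abs, abs_of_nonneg (h0 w)]; exact hB w)

lemma A2_prod {f g : ℝ → ℝ} (hf : Integrable f) (hg : Integrable g) :
    Integrable (fun w : ℂ => f w.re * g w.im) ∧
      ∫ w : ℂ, f w.re * g w.im = (∫ x, f x) * ∫ y, g y := by
  have h := Complex.volume_preserving_equiv_real_prod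
  refine ⟨(h.integrable_comp_emb Complex.measurableEquivRealProd.measurableEmbedding).2
    (hf.mul_prod hg), ?_⟩
  rw [← integral_prod_mul]
  exact h.integral_comp' fun p : ℝ × ℝ => f p.1 * g p.2

lemma A2_split (c : ℝ) (z w : ℂ) : Real.exp (-c * (|z.re - w.re| + |z.im - w.im|)) =
    Real.exp (-c * |z.re - w.re|) * Real.exp (-c * |z.im - w.im|) := by
  rw [← Real.exp_add, mul_add]

lemma A2_int2 {c : ℝ} (hc : 0 < c) (z : ℂ) :
    Integrable (fun w : ℂ => Real.exp (-c * (|z.re - w.re| + |z.im - w.im|))) ∧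
      ∫ w : ℂ, Real.exp (-c * (|z.re - w.re| + |z.im - w.im|)) = 2 / c * (2 / c) := by
  simp only [A2_split]
  have h := A2_prod (A2_int hc z.re) (A2_int hc z.im)
  rw [A2_val hc, A2_val hc] at h
  exact h

lemma A2_form (s x : ℝ) : -2 * x / s = -(2 / s) * x := by ring

lemma A2_HP : MeasurableSet HP := measurableSet_le measurable_const Complex.measurable_re

lemma A2_norm (z : ℂ) : |z.re| + |z.im| ≤ 3 / 2 * ‖z‖ := by
  have h1 : ‖z‖ ^ 2 = |z.re| ^ 2 + |z.im| ^ 2 := by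
    rw [Complex.sq_norm, Complex.normSq_apply, sq_abs, sq_abs]
    ring
  refine abs_le_of_sq_le_sq' ?_ (by positivity) |>.2
  nlinarith [sq_nonneg (|z.re| - |z.im|), sq_nonneg |z.re|, sq_nonneg |z.im|]

lemma A2_cs {X : Type*} [MeasurableSpace X] (μ : Measure X) {f g : X → ℝ≥0∞}
    (hf : Measurable f) (hg : Measurable g) :
    (∫⁻ x, f x * g x ∂μ) ^ 2 ≤ (∫⁻ x, f x ∂μ) * ∫⁻ x, f x * g x ^ 2 ∂μ := by
  have h := ENNReal.lintegral_mul_norm_pow_le (μ := μ) hf.aemeasurable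
    (hf.mul (hg.pow_const 2)).aemeasurable (p := 1 / 2) (q := 1 / 2) (by norm_num) (by norm_num)
    (by norm_num)
  have key : ∀ a : ℝ≥0∞, (a ^ 2) ^ (1 / 2 : ℝ) = a := fun a => by
    rw [← ENNReal.rpow_natCast, ← ENNReal.rpow_mul]
    norm_num
  have key' : ∀ a : ℝ≥0∞, (a ^ (1 / 2 : ℝ)) ^ 2 = a := fun a => by
    rw [← ENNReal.rpow_natCast, ← ENNReal.rpow_mul]
    norm_num
  have e : ∀ x, f x ^ (1 / 2 : ℝ) * (f x * g x ^ 2) ^ (1 / 2 : ℝ) = f x * g x := fun x => by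
    rw [← ENNReal.mul_rpow_of_nonneg _ _ (by norm_num), ← key (f x * g x)]
    congr 1
    ring
  simp only [Pi.mul_apply, e] at h
  refine (pow_le_pow_left' h 2).trans (le_of_eq ?_)
  rw [mul_pow, key', key']

lemma A2_abs {X : Type*} [MeasurableSpace X] (μ : Measure X) [SFinite μ] {k k' : X → X → ℝ}
    (hk : Measurable (Function.uncurry k)) (hk' : Measurable (Function.uncurry k'))
    (k0 : ∀ z w, 0 ≤ k z w) {f W : X → ℝ} (hm : Measurable f) (h0 : ∀ w, 0 ≤ f w)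
    (hW : Measurable W) (hW0 : ∀ z, 0 ≤ W z) {C m m' : ℝ} (hC : 0 ≤ C) (hm0 : 0 ≤ m)
    (h1 : ∀ z, ∫⁻ w, ENNReal.ofReal (k z w) ∂μ ≤ ENNReal.ofReal m)
    (h2 : ∀ w, ∫⁻ z, ENNReal.ofReal (k' z w) ∂μ ≤ ENNReal.ofReal m')
    (h3 : ∀ᵐ z ∂μ, ∀ᵐ w ∂μ, W z * k z w ≤ W w * k' z w) :
    ∫⁻ z, ENNReal.ofReal (W z * (C * ∫ w, k z w * f w ∂μ) ^ 2) ∂μ ≤
      ENNReal.ofReal (C ^ 2 * m * m') * ∫⁻ w, ENNReal.ofReal (W w * f w ^ 2) ∂μ := by
  have hG : Measurable fun w => ENNReal.ofReal (W w * f w ^ 2) :=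
    (hW.mul (hm.pow_const 2)).ennreal_ofReal
  have step : ∀ᵐ z ∂μ, ENNReal.ofReal (W z * (C * ∫ w, k z w * f w ∂μ) ^ 2) ≤
      ENNReal.ofReal (C ^ 2 * m) *
        ∫⁻ w, ENNReal.ofReal (W w * f w ^ 2) * ENNReal.ofReal (k' z w) ∂μ := by
    filter_upwards [h3] with z hz
    have hkz : Measurable (k z) := hk.of_uncurry_left
    have a1 : ENNReal.ofReal (∫ w, k z w * f w ∂μ) ≤
        ∫⁻ w, ENNReal.ofReal (k z w) * ENNReal.ofReal (f w) ∂μ := by
      rw [integral_eq_lintegral_of_nonneg_ae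
        (Eventually.of_forall fun w => mul_nonneg (k0 z w) (h0 w))
        (hkz.mul hm).aestronglyMeasurable]
      refine ENNReal.ofReal_toReal_le.trans (le_of_eq (lintegral_congr fun w => ?_))
      rw [ENNReal.ofReal_mul (k0 z w)]
    have a2 := (pow_le_pow_left' a1 2).trans
      (A2_cs μ hkz.ennreal_ofReal hm.ennreal_ofReal)
    have a3 : 0 ≤ ∫ w, k z w * f w ∂μ := integral_nonneg fun w => mul_nonneg (k0 z w) (h0 w)
    have a4 : ENNReal.ofReal (W z) *
        ∫⁻ w, ENNReal.ofReal (k z w) * ENNReal.ofReal (f w) ^ 2 ∂μ ≤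
        ∫⁻ w, ENNReal.ofReal (W w * f w ^ 2) * ENNReal.ofReal (k' z w) ∂μ := by
      rw [← lintegral_const_mul' _ _ ENNReal.ofReal_ne_top]
      refine lintegral_mono_ae ?_
      filter_upwards [hz] with w hw
      rw [← ENNReal.ofReal_pow (h0 w), ← ENNReal.ofReal_mul (k0 z w),
        ← ENNReal.ofReal_mul (hW0 z), ← ENNReal.ofReal_mul (mul_nonneg (hW0 w) (sq_nonneg _))]
      refine ENNReal.ofReal_le_ofReal ?_
      nlinarith [mul_le_mul_of_nonneg_right hw (sq_nonneg (f w))]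
    rw [mul_pow, ENNReal.ofReal_mul (hW0 z), ENNReal.ofReal_mul (sq_nonneg C),
      ENNReal.ofReal_pow a3, ENNReal.ofReal_mul (sq_nonneg C)]
    calc _ ≤ ENNReal.ofReal (W z) * (ENNReal.ofReal (C ^ 2) * (ENNReal.ofReal m *
          ∫⁻ w, ENNReal.ofReal (k z w) * ENNReal.ofReal (f w) ^ 2 ∂μ)) := by
          gcongr
          exact a2.trans (by gcongr; exact h1 z)
      _ = ENNReal.ofReal (C ^ 2) * ENNReal.ofReal m * (ENNReal.ofReal (W z) *
          ∫⁻ w, ENNReal.ofReal (k z w) * ENNReal.ofReal (f w) ^ 2 ∂μ) := by ring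
      _ ≤ _ := by gcongr
  refine (lintegral_mono_ae step).trans ?_
  rw [lintegral_const_mul' _ _ ENNReal.ofReal_ne_top, lintegral_lintegral_swap
    ((hG.comp measurable_snd).mul hk'.ennreal_ofReal).aemeasurable,
    ENNReal.ofReal_mul (mul_nonneg (sq_nonneg C) hm0), mul_assoc (ENNReal.ofReal (C ^ 2 * m))]
  gcongr
  rw [← lintegral_const_mul' _ _ ENNReal.ofReal_ne_top]
  refine lintegral_mono fun w => ?_
  rw [lintegral_const_mul' _ _ ENNReal.ofReal_ne_top, mul_comm]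
  gcongr
  exact h2 w

lemma A2_lint {X : Type*} [MeasurableSpace X] {μ : Measure X} {g : X → ℝ} {m : ℝ}
    (h : Integrable (fun w => Real.exp (g w)) μ ∧ ∫ w, Real.exp (g w) ∂μ = m) :
    ∫⁻ w, ENNReal.ofReal (Real.exp (g w)) ∂μ = ENNReal.ofReal m := by
  rw [← h.2, ofReal_integral_eq_lintegral_ofReal h.1
    (Eventually.of_forall fun w => (Real.exp_pos _).le)]

variable {s B : ℝ} {e : ℂ → ℝ} {E : ℝ → ℝ}

theorem cv2_nonneg (hs : 0 < s) (h0 : ∀ w, 0 ≤ e w) (z : ℂ) : 0 ≤ cv2 s e z := by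
  exact mul_nonneg (by positivity)
    (integral_nonneg fun w => mul_nonneg (Real.exp_pos _).le (h0 w))

theorem cv1_nonneg (hs : 0 < s) (h0 : ∀ t, 0 ≤ E t) (t : ℝ) : 0 ≤ cv1 s E t := by
  exact mul_nonneg (by positivity)
    (integral_nonneg fun w => mul_nonneg (Real.exp_pos _).le (h0 w))

theorem cv2_meas (s : ℝ) (hm : Measurable e) : Measurable (cv2 s e) := by
  refine measurable_const.mul (StronglyMeasurable.measurable ?_)
  refine StronglyMeasurable.integral_prod_right' (ν := volume.restrict HP)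
    (f := fun p : ℂ × ℂ => Real.exp (-2 * (|p.1.re - p.2.re| + |p.1.im - p.2.im|) / s) * e p.2)
    (Measurable.stronglyMeasurable ?_)
  exact (Continuous.measurable (by fun_prop)).mul (hm.comp measurable_snd)

theorem cv1_meas (s : ℝ) (hm : Measurable E) : Measurable (cv1 s E) := by
  refine measurable_const.mul (StronglyMeasurable.measurable ?_)
  refine StronglyMeasurable.integral_prod_right' (ν := volume)
    (f := fun p : ℝ × ℝ => Real.exp (-2 * |p.1 - p.2| / s) * E p.2)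
    (Measurable.stronglyMeasurable ?_)
  exact (Continuous.measurable (by fun_prop)).mul (hm.comp measurable_snd)

theorem cv2_ge (hs : 0 < s) (hm : Measurable e) (h0 : ∀ w, 0 ≤ e w) (hB : ∀ w, e w ≤ B) {z : ℂ}
    (hz : z ∈ HP) {a : ℝ} (h : ∀ w ∈ HP, ‖z - w‖ ≤ 3 / 2 * s → a ≤ e w) : a ≤ cv2 s e z := by
  rcases le_or_gt a 0 with ha | ha
  · exact ha.trans (cv2_nonneg hs h0 z)
  set Q : Set ℂ := Complex.measurableEquivRealProd ⁻¹'
    (Icc z.re (z.re + s) ×ˢ Icc z.im (z.im + s)) with hQ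
  have hmem : ∀ w ∈ Q, (z.re ≤ w.re ∧ w.re ≤ z.re + s) ∧ z.im ≤ w.im ∧ w.im ≤ z.im + s :=
    fun w hw => hw
  have hQm : MeasurableSet Q :=
    Complex.measurableEquivRealProd.measurable (measurableSet_Icc.prod measurableSet_Icc)
  have hv : volume Q = ENNReal.ofReal (s ^ 2) := by
    rw [hQ, Complex.volume_preserving_equiv_real_prod.measure_preimage
      (measurableSet_Icc.prod measurableSet_Icc).nullMeasurableSet, Measure.volume_eq_prod,
      Measure.prod_prod, Real.volume_Icc, Real.volume_Icc, add_sub_cancel_left,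
      add_sub_cancel_left, ← ENNReal.ofReal_mul hs.le, sq]
  have hsub : Q ⊆ HP := fun w hw => le_trans hz (hmem w hw).1.1
  have hI := A2_bdd (A2_int2 (c := 2 / s) (by positivity) z).1 hm h0 hB
  have h1 : Real.exp (-4) * a * volume.real Q ≤
      ∫ w in Q, Real.exp (-(2 / s) * (|z.re - w.re| + |z.im - w.im|)) * e w := by
    refine setIntegral_ge_of_const_le_real hQm (by rw [hv]; exact ENNReal.ofReal_ne_top)
      (fun w hw => ?_) hI.integrableOn
    obtain ⟨⟨b1, b2⟩, b3, b4⟩ := hmem w hw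
    have c1 : |z.re - w.re| ≤ s := abs_le.2 ⟨by linarith, by linarith⟩
    have c2 : |z.im - w.im| ≤ s := abs_le.2 ⟨by linarith, by linarith⟩
    have c3 : ‖z - w‖ ≤ 3 / 2 * s := by
      refine abs_le_of_sq_le_sq' ?_ (by positivity) |>.2
      rw [Complex.sq_norm, Complex.normSq_apply, Complex.sub_re, Complex.sub_im]
      nlinarith [sq_le_sq' (abs_le.1 c1).1 (abs_le.1 c1).2,
        sq_le_sq' (abs_le.1 c2).1 (abs_le.1 c2).2, sq_nonneg s]
    refine mul_le_mul (Real.exp_le_exp.2 ?_) (h w (hsub hw) c3) ha.le (Real.exp_pos _).le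
    have c4 : 2 / s * (|z.re - w.re| + |z.im - w.im|) ≤ 2 / s * (s + s) := by gcongr
    have c5 : 2 / s * (s + s) = 4 := by field_simp; norm_num
    linarith
  have h2 := setIntegral_mono_set (hI.integrableOn (s := HP))
    (Eventually.of_forall fun w => mul_nonneg (Real.exp_pos _).le (h0 w)) hsub.eventuallyLE
  rw [Measure.real, hv, ENNReal.toReal_ofReal (sq_nonneg s)] at h1
  unfold cv2
  simp only [A2_form]
  calc a = Real.exp 4 / s ^ 2 * (Real.exp (-4) * a * s ^ 2) := by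
        rw [Real.exp_neg]
        field_simp
    _ ≤ _ := mul_le_mul_of_nonneg_left (h1.trans h2) (by positivity)

theorem cv2_slow (hs : 0 < s) (hm : Measurable e) (h0 : ∀ w, 0 ≤ e w) (hB : ∀ w, e w ≤ B)
    (z z' : ℂ) : cv2 s e z' ≤ cv2 s e z * Real.exp (3 * ‖z - z'‖ / s) := by
  have hI := (A2_bdd (A2_int2 (c := 2 / s) (by positivity) z).1 hm h0 hB).integrableOn (s := HP)
  unfold cv2
  simp only [A2_form]
  rw [mul_assoc, ← integral_mul_const]
  refine mul_le_mul_of_nonneg_left (integral_mono_of_nonneg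
    (Eventually.of_forall fun w => mul_nonneg (Real.exp_pos _).le (h0 w)) (hI.mul_const _)
    (Eventually.of_forall fun w => ?_)) (by positivity)
  show _ ≤ _ * e w * _
  rw [mul_right_comm, ← Real.exp_add]
  refine mul_le_mul_of_nonneg_right (Real.exp_le_exp.2 ?_) (h0 w)
  have c1 := abs_sub_le z.re z'.re w.re
  have c2 := abs_sub_le z.im z'.im w.im
  have c3 := A2_norm (z - z')
  rw [Complex.sub_re, Complex.sub_im] at c3
  have c4 : 2 / s * (|z.re - w.re| + |z.im - w.im|) ≤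
      2 / s * (|z'.re - w.re| + |z'.im - w.im| + 3 / 2 * ‖z - z'‖) :=
    mul_le_mul_of_nonneg_left (by linarith) (by positivity)
  have c5 : 3 * ‖z - z'‖ / s = 2 / s * (3 / 2 * ‖z - z'‖) := by ring
  linarith

theorem cv1_slow (hs : 0 < s) (hm : Measurable E) (h0 : ∀ t, 0 ≤ E t) (hB : ∀ t, E t ≤ B)
    (t t' : ℝ) : cv1 s E t' ≤ cv1 s E t * Real.exp (2 * |t - t'| / s) := by
  have hI := A2_bdd (A2_int (c := 2 / s) (by positivity) t) hm h0 hB
  unfold cv1
  simp only [A2_form]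
  rw [mul_assoc, ← integral_mul_const]
  refine mul_le_mul_of_nonneg_left (integral_mono_of_nonneg
    (Eventually.of_forall fun w => mul_nonneg (Real.exp_pos _).le (h0 w)) (hI.mul_const _)
    (Eventually.of_forall fun w => ?_)) (by positivity)
  show _ ≤ _ * E w * _
  rw [mul_right_comm, ← Real.exp_add]
  refine mul_le_mul_of_nonneg_right (Real.exp_le_exp.2 ?_) (h0 w)
  have c1 := abs_sub_le t t' w
  have c4 : 2 / s * |t - w| ≤ 2 / s * (|t' - w| + |t - t'|) :=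
    mul_le_mul_of_nonneg_left (by linarith) (by positivity)
  have c5 : 2 * |t - t'| / s = 2 / s * |t - t'| := by ring
  linarith

theorem cv1_le (hs : 0 < s) (hm : Measurable E) (h0 : ∀ t, 0 ≤ E t) (hB : ∀ t, E t ≤ B) (t : ℝ) :
    cv1 s E t ≤ Real.exp 4 * B := by
  have hc : 0 < 2 / s := by positivity
  have h1 : ∫ u, Real.exp (-(2 / s) * |t - u|) * E u ≤
      ∫ u, Real.exp (-(2 / s) * |t - u|) * B :=
    integral_mono (A2_bdd (A2_int hc t) hm h0 hB) ((A2_int hc t).mul_const B)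
      fun u => mul_le_mul_of_nonneg_left (hB u) (Real.exp_pos _).le
  rw [integral_mul_const, A2_val hc] at h1
  unfold cv1
  simp only [A2_form]
  calc _ ≤ Real.exp 4 / s * (2 / (2 / s) * B) := mul_le_mul_of_nonneg_left h1 (by positivity)
    _ = _ := by field_simp

theorem cv2_le_cv1 (hs : 0 < s) (hm : Measurable e) (h0 : ∀ w, 0 ≤ e w) (hE : Measurable E)
    (hB : ∀ t, E t ≤ B) (h : ∀ w ∈ HP, e w ≤ E w.im) (z : ℂ) : cv2 s e z ≤ cv1 s E z.im := by
  have hc : 0 < 2 / s := by positivity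
  have E0 : ∀ t, 0 ≤ E t := fun t => (h0 ⟨0, t⟩).trans (h ⟨0, t⟩ (le_refl (0 : ℝ)))
  have hP := A2_prod (A2_int hc z.re) (A2_bdd (A2_int hc z.im) hE E0 hB)
  rw [A2_val hc] at hP
  have h1 : ∫ w in HP, Real.exp (-(2 / s) * (|z.re - w.re| + |z.im - w.im|)) * e w ≤
      ∫ w in HP, Real.exp (-(2 / s) * |z.re - w.re|) *
        (Real.exp (-(2 / s) * |z.im - w.im|) * E w.im) := by
    refine integral_mono_of_nonneg
      (Eventually.of_forall fun w => mul_nonneg (Real.exp_pos _).le (h0 w)) hP.1.integrableOn ?_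
    filter_upwards [ae_restrict_mem A2_HP] with w hw
    rw [A2_split, mul_assoc]
    have := h w hw
    gcongr
  have h2 := setIntegral_le_integral (s := HP) hP.1 (Eventually.of_forall fun w =>
    mul_nonneg (Real.exp_pos _).le (mul_nonneg (Real.exp_pos _).le (E0 _)))
  rw [hP.2] at h2
  unfold cv2 cv1
  simp only [A2_form]
  calc _ ≤ Real.exp 4 / s ^ 2 * (2 / (2 / s) * ∫ u, Real.exp (-(2 / s) * |z.im - u|) * E u) :=
        mul_le_mul_of_nonneg_left (h1.trans h2) (by positivity)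
    _ = _ := by field_simp

theorem cv2_sq (hs : 0 < s) (hm : Measurable e) (h0 : ∀ w, 0 ≤ e w) (hB : ∀ w, e w ≤ B)
    {W : ℂ → ℝ} (hW : Measurable W) (hW0 : ∀ z, 0 ≤ W z) (hWs : Slow s W) :
    ∫⁻ z in HP, ENNReal.ofReal (W z * cv2 s e z ^ 2) ≤
      ENNReal.ofReal (4 * Real.exp 8) * ∫⁻ w in HP, ENNReal.ofReal (W w * e w ^ 2) := by
  have hc : 0 < 2 / s := by positivity
  have hc' : 0 < 1 / s := by positivity
  have key := A2_abs (volume.restrict HP)
    (k := fun z w : ℂ => Real.exp (-(2 / s) * (|z.re - w.re| + |z.im - w.im|)))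
    (k' := fun z w : ℂ => Real.exp (-(1 / s) * (|w.re - z.re| + |w.im - z.im|)))
    (Continuous.measurable (by fun_prop)) (Continuous.measurable (by fun_prop))
    (fun _ _ => (Real.exp_pos _).le) hm h0 hW hW0 (C := Real.exp 4 / s ^ 2) (by positivity)
    (m := 2 / (2 / s) * (2 / (2 / s))) (m' := 2 / (1 / s) * (2 / (1 / s))) (by positivity)
    (fun z => (setLIntegral_le_lintegral _ _).trans (A2_lint (A2_int2 hc z)).le)
    (fun w => (setLIntegral_le_lintegral _ _).trans (A2_lint (A2_int2 hc' w)).le) (by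
      filter_upwards [ae_restrict_mem A2_HP] with z hz
      filter_upwards [ae_restrict_mem A2_HP] with w hw
      refine (mul_le_mul_of_nonneg_right (hWs w hw z hz) (Real.exp_pos _).le).trans ?_
      rw [mul_assoc, ← Real.exp_add, abs_sub_comm z.re, abs_sub_comm z.im]
      refine mul_le_mul_of_nonneg_left (Real.exp_le_exp.2 ?_) (hW0 w)
      have c1 := Complex.norm_le_abs_re_add_abs_im (w - z)
      rw [Complex.sub_re, Complex.sub_im] at c1
      have c2 : 1 / s * ‖w - z‖ ≤ 1 / s * (|w.re - z.re| + |w.im - z.im|) := by gcongr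
      have c3 : ‖w - z‖ / s = 1 / s * ‖w - z‖ := by ring
      have c4 : 2 / s = 2 * (1 / s) := by ring
      rw [c3, c4]
      linarith)
  have e1 : (Real.exp 4 / s ^ 2) ^ 2 * (2 / (2 / s) * (2 / (2 / s))) *
      (2 / (1 / s) * (2 / (1 / s))) = 4 * Real.exp 8 := by
    rw [show (8 : ℝ) = 4 + 4 by norm_num, Real.exp_add]
    field_simp
    norm_num
  rw [e1] at key
  unfold cv2
  simp only [A2_form]
  exact key

theorem cv1_sq (hs : 0 < s) (hm : Measurable E) (h0 : ∀ t, 0 ≤ E t) (hB : ∀ t, E t ≤ B)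
    {W : ℝ → ℝ} (hW : Measurable W) (hW0 : ∀ t, 0 ≤ W t)
    (hWs : ∀ t t', W t' ≤ W t * Real.exp (|t - t'| / s)) :
    ∫⁻ t, ENNReal.ofReal (W t * cv1 s E t ^ 2) ≤
      ENNReal.ofReal (2 * Real.exp 8) * ∫⁻ t, ENNReal.ofReal (W t * E t ^ 2) := by
  have hc : 0 < 2 / s := by positivity
  have hc' : 0 < 1 / s := by positivity
  have key := A2_abs volume (k := fun z w : ℝ => Real.exp (-(2 / s) * |z - w|))
    (k' := fun z w : ℝ => Real.exp (-(1 / s) * |w - z|))
    (Continuous.measurable (by fun_prop)) (Continuous.measurable (by fun_prop))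
    (fun _ _ => (Real.exp_pos _).le) hm h0 hW hW0 (C := Real.exp 4 / s) (by positivity)
    (m := 2 / (2 / s)) (m' := 2 / (1 / s)) (by positivity)
    (fun z => (A2_lint ⟨A2_int hc z, A2_val hc z⟩).le)
    (fun w => (A2_lint ⟨A2_int hc' w, A2_val hc' w⟩).le)
    (Eventually.of_forall fun z => Eventually.of_forall fun w => by
      refine (mul_le_mul_of_nonneg_right (hWs w z) (Real.exp_pos _).le).trans ?_
      rw [mul_assoc, ← Real.exp_add, abs_sub_comm z]
      refine mul_le_mul_of_nonneg_left (Real.exp_le_exp.2 (le_of_eq ?_)) (hW0 w)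
      ring)
  have e1 : (Real.exp 4 / s) ^ 2 * (2 / (2 / s)) * (2 / (1 / s)) = 2 * Real.exp 8 := by
    rw [show (8 : ℝ) = 4 + 4 by norm_num, Real.exp_add]
    field_simp
  rw [e1] at key
  unfold cv1
  simp only [A2_form]
  exact key

end Pool.Agent.Work.MP_042f46_an.Fu
end
end

-- merged part: Pool.Agent.Work.MP_042f46_an.F.A3
section
/-!
# The map of one step

`a = Θ / θ`.  `kap` is `2 / θ`-Lipschitz and at least `K ≥ 1000` on `HP`, so within distance `8 θ` it changes by a factor between `1 / 2` and `2`.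
`Psi_loc`: `Psi z - z = pt (c Θ Lam z / V) (zet z (Av z - im z))`.  `|log κ - log κ'| ≤ |κ - κ'| / min κ κ'`; `Lam z = Lam z'` if `kap w` is outside the range in `e₁`, the same for `zet` and `e₂`; `|Av z' - im z'| ≤ 2 Θ` (`Av_near`: the mean of `T s - s` over the symmetric interval); `zet z = 0` if `2 exp vz < kap w`.  For `|Av z - Av z'|`: with `t = im w`, `δ = del w`, `m = T (t - 2 δ)`, `ω = T (t + 2 δ) - m`, the primitive of `T - m` is `ω`-Lipschitz on `[t - 2 δ, t + 2 δ]`, which gives `|Av z - Av z'| ≤ 2 ω ‖z - z'‖ / del z`.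
`err_le`: `T (t + 2 δ) - T (t - 2 δ) ≤ 4 δ + 4 Θ`, `δ ≥ K θ`.  `Psi_lip`: subdivision of the segment with `Psi_loc` (`w = z`) and `err_le`; `18 + 28 a / K ≤ a / 16`.  `Psi_far`: `kap ≥ 4 a ≥ exp vz`.  `Psi_bd`: `log K ≤ V ≤ v₁`, `h ≤ 4 a`, `vz_or`.  `Psi_re_le`: `kap z ≤ max (h t) K + 8 + re z / θ`, so `log (kap z) ≤ log (max (h t) K) + (8 + re z / θ) / K`.
-/

open Set Metric Topology Filter MeasureTheory
open scoped ENNReal NNReal

noncomputable section
namespace Pool.Agent.Work.MP_042f46_an.Fu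

open Pool.Agent.Work.MP_042f46_an.Ty

section

variable {A V ρ₀ Θ θ : ℝ} {μ μ' : Measure (ℝ × ℝ)} (D : LD A V ρ₀ Θ θ μ μ') (K c : ℝ)

/-- depth function on the half plane -/
def LD.kap (z : ℂ) : ℝ := max (D.h z.im) K + z.re / θ

/-- logarithmic depth -/
def LD.Lam (z : ℂ) : ℝ :=
  max 0 (min (Real.log (D.kap K z)) (Real.log (4 * Θ / θ)) - D.v₁)

/-- weight of the outer parametrisation -/
def LD.zet (z : ℂ) : ℝ := zeta V D.vz (D.kap K z)

/-- mean of the outer parametrisation -/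
def LD.Av (z : ℂ) : ℝ :=
  (∫ s in (z.im - (z.re + K * θ))..(z.im + (z.re + K * θ)), D.T s) / (2 * (z.re + K * θ))

/-- the map of the step -/
def LD.Psi (z : ℂ) : ℂ :=
  pt (z.re + c * Θ * D.Lam K z / V) (z.im + D.zet K z * (D.Av K z - z.im))

/-- error from the depth -/
def LD.e₁ (w : ℂ) : ℝ :=
  if Real.exp D.v₁ / 2 ≤ D.kap K w ∧ D.kap K w ≤ 8 * Θ / θ then
    4 * c * Θ / (V * θ * D.kap K w) else 0

/-- error from the weight -/
def LD.e₂ (w : ℂ) : ℝ :=
  if Real.exp (D.vz - V) / 2 ≤ D.kap K w ∧ D.kap K w ≤ 2 * Real.exp D.vz then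
    8 * Θ / (V * θ * D.kap K w) else 0

/-- error from the outer parametrisation -/
def LD.e₃ (w : ℂ) : ℝ :=
  if D.kap K w ≤ 2 * Real.exp D.vz then
    1 + 4 * (D.T (w.im + 2 * (w.re + K * θ)) - D.T (w.im - 2 * (w.re + K * θ))) / (w.re + K * θ)
  else 0

/-- total error -/
def LD.err : ℂ → ℝ := HP.indicator fun w => D.e₁ K c w + D.e₂ K w + D.e₃ K w

end

/-- size conditions on the parameters of a step -/
structure Par (A V Θ θ K c : ℝ) : Prop where
  A_ge : 1 ≤ A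
  V_ge : 1 ≤ V
  θ_pos : 0 < θ
  a_ge : 1000 * θ ≤ Θ
  K_ge : 1000 ≤ K
  K_le : Real.log K ≤ V
  c_pos : 0 < c
  c_le : c ≤ 1 / (2 * A)

variable {A V ρ₀ Θ θ K c : ℝ} {μ μ' : Measure (ℝ × ℝ)} (D : LD A V ρ₀ Θ θ μ μ')

theorem A3_Θ (h : Par A V Θ θ K c) : 0 < Θ := by linarith only [h.θ_pos, h.a_ge]

theorem A3_K (h : Par A V Θ θ K c) : 0 < K := by linarith only [h.K_ge]

theorem A3_V (h : Par A V Θ θ K c) : 0 < V := by linarith only [h.V_ge]

theorem A3_c (h : Par A V Θ θ K c) : c ≤ 1 / 2 :=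
  h.c_le.trans (one_div_le_one_div_of_le two_pos (by linarith only [h.A_ge]))

theorem A3_del (h : Par A V Θ θ K c) {z : ℂ} (hz : z ∈ HP) : 1000 * θ ≤ z.re + K * θ :=
  le_add_of_nonneg_of_le hz (mul_le_mul_of_nonneg_right h.K_ge h.θ_pos.le)

theorem A3_del_pos (h : Par A V Θ θ K c) {z : ℂ} (hz : z ∈ HP) : 0 < z.re + K * θ := by
  linarith only [A3_del h hz, h.θ_pos]

theorem A3_kap_ge (h : Par A V Θ θ K c) {z : ℂ} (hz : z ∈ HP) : K ≤ D.kap K z :=
  le_add_of_le_of_nonneg (le_max_right _ _) (div_nonneg hz h.θ_pos.le)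

theorem A3_kap_lip (h : Par A V Θ θ K c) (z z' : ℂ) :
    |D.kap K z - D.kap K z'| ≤ 2 * (‖z - z'‖ / θ) := by
  have h1 := (abs_max_sub_max_le_abs (D.h z.im) (D.h z'.im) K).trans ((D.h_lip _ _).trans
    (div_le_div_of_nonneg_right (Complex.abs_im_le_norm (z - z')) h.θ_pos.le))
  have h2 : |z.re / θ - z'.re / θ| ≤ ‖z - z'‖ / θ := by
    rw [← sub_div, abs_div, abs_of_pos h.θ_pos]
    exact div_le_div_of_nonneg_right (Complex.abs_re_le_norm (z - z')) h.θ_pos.le
  rw [abs_le] at h1 h2 ⊢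
  unfold LD.kap
  constructor <;> linarith only [h1.1, h1.2, h2.1, h2.2]

theorem A3_kap_cmp (h : Par A V Θ θ K c) {w z : ℂ} (hw : w ∈ HP) (h₁ : ‖z - w‖ ≤ 8 * θ) :
    D.kap K w / 2 ≤ D.kap K z ∧ D.kap K z ≤ 2 * D.kap K w := by
  have h1 := abs_le.1 (A3_kap_lip D h z w)
  have h2 := (div_le_iff₀ h.θ_pos).2 h₁
  have h3 := A3_kap_ge D h hw
  constructor <;> linarith only [h1.1, h1.2, h2, h3, h.K_ge]

theorem A3_log {x y m : ℝ} (hm : 0 < m) (hx : m ≤ x) (hy : m ≤ y) :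
    |Real.log x - Real.log y| ≤ |x - y| / m := by
  have key : ∀ x y : ℝ, m ≤ x → m ≤ y → Real.log x - Real.log y ≤ |x - y| / m := by
    intro x y hx hy
    have x0 := hm.trans_le hx
    have y0 := hm.trans_le hy
    rw [← Real.log_div x0.ne' y0.ne']
    refine (Real.log_le_sub_one_of_pos (div_pos x0 y0)).trans ?_
    rw [div_sub_one y0.ne']
    exact div_le_div₀ (abs_nonneg _) (le_abs_self _) hm hy
  have h1 := key y x hy hx
  rw [abs_sub_comm] at h1
  exact abs_le.2 ⟨by linarith only [h1], key x y hx hy⟩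

theorem A3_int (a b : ℝ) : IntervalIntegrable D.T volume a b := D.T_mono.intervalIntegrable

theorem A3_prim (a b : ℝ) :
    ∫ s in a..b, D.T s = (∫ s in (0 : ℝ)..b, D.T s) - ∫ s in (0 : ℝ)..a, D.T s :=
  (intervalIntegral.integral_interval_sub_left (A3_int D _ _) (A3_int D _ _)).symm

theorem A3_osc {p q x y : ℝ} (hx : x ∈ Icc p q) (hy : y ∈ Icc p q) :
    |(∫ s in x..y, D.T s) - D.T p * (y - x)| ≤ (D.T q - D.T p) * |y - x| := by
  have h := intervalIntegral.norm_integral_le_of_norm_le_const (a := x) (b := y)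
    (f := fun s => D.T s - D.T p) (C := D.T q - D.T p) fun s hs => by
      have k := uIcc_subset_Icc hx hy (uIoc_subset_uIcc hs)
      rw [Real.norm_eq_abs, abs_of_nonneg (sub_nonneg.2 (D.T_mono k.1))]
      exact sub_le_sub_right (D.T_mono k.2) _
  rwa [intervalIntegral.integral_sub (A3_int D _ _) intervalIntegrable_const,
    intervalIntegral.integral_const, smul_eq_mul, mul_comm, Real.norm_eq_abs] at h

theorem A3_real {I I' J₁ J₂ m ω a t t' d d' : ℝ} (hd : 0 < d) (hd' : 0 < d') (hω : 0 ≤ ω)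
    (e : I - I' = J₁ + J₂) (h1 : |J₁ - m * (t' - d' - (t - d))| ≤ ω * |t' - d' - (t - d)|)
    (h2 : |J₂ - m * (t + d - (t' + d'))| ≤ ω * |t + d - (t' + d')|)
    (h3 : |I' - m * (t' + d' - (t' - d'))| ≤ ω * |t' + d' - (t' - d')|)
    (ht : |t - t'| ≤ a) (hdd : |d - d'| ≤ a) : |I / (2 * d) - I' / (2 * d')| ≤ 2 * ω * a / d := by
  have k1 : |t' - d' - (t - d)| + |t + d - (t' + d')| ≤ 2 * a := by
    rw [abs_le] at ht hdd
    rcases abs_cases (t' - d' - (t - d)) with k | k <;>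
      rcases abs_cases (t + d - (t' + d')) with k' | k' <;>
      linarith only [k.1, k'.1, ht.1, ht.2, hdd.1, hdd.2]
  have k2 : |I' / (2 * d') - m| ≤ ω := by
    rw [show t' + d' - (t' - d') = 2 * d' by ring, abs_of_pos (mul_pos two_pos hd')] at h3
    rw [show I' / (2 * d') - m = (I' - m * (2 * d')) / (2 * d') by field_simp, abs_div,
      abs_of_pos (mul_pos two_pos hd'), div_le_iff₀ (mul_pos two_pos hd')]
    exact h3
  have k3 : |(d' - d) * (I' / (2 * d') - m)| ≤ a * ω := by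
    rw [abs_mul, abs_sub_comm]
    exact mul_le_mul hdd k2 (abs_nonneg _) ((abs_nonneg _).trans hdd)
  have k4 := mul_le_mul_of_nonneg_left k1 hω
  have k5 : I / (2 * d) - I' / (2 * d') = (J₁ - m * (t' - d' - (t - d)) +
      (J₂ - m * (t + d - (t' + d'))) + 2 * ((d' - d) * (I' / (2 * d') - m))) / (2 * d) := by
    rw [show I = I' + J₁ + J₂ by linarith only [e]]
    field_simp
    ring
  rw [k5, abs_div, abs_of_pos (mul_pos two_pos hd), div_le_div_iff₀ (mul_pos two_pos hd) hd]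
  refine le_trans (mul_le_mul_of_nonneg_right (?_ : _ ≤ 4 * ω * a) hd.le) (le_of_eq (by ring))
  rw [abs_le] at h1 h2 k3 ⊢
  constructor <;> linarith only [h1.1, h1.2, h2.1, h2.2, k3.1, k3.2, k4]

theorem A3_Av_lip (h : Par A V Θ θ K c) {w z z' : ℂ} (hw : w ∈ HP) (hz : z ∈ HP) (hz' : z' ∈ HP)
    (h₁ : ‖z - w‖ ≤ 8 * θ) (h₂ : ‖z' - w‖ ≤ 8 * θ) : |D.Av K z - D.Av K z'| ≤
      4 * (D.T (w.im + 2 * (w.re + K * θ)) - D.T (w.im - 2 * (w.re + K * θ))) / (w.re + K * θ) *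
        ‖z - z'‖ := by
  have d0 := A3_del h hw
  have θ0 := h.θ_pos
  have mem : ∀ x : ℂ, x ∈ HP → ‖x - w‖ ≤ 8 * θ →
      x.im - (x.re + K * θ) ∈ Icc (w.im - 2 * (w.re + K * θ)) (w.im + 2 * (w.re + K * θ)) ∧
      x.im + (x.re + K * θ) ∈ Icc (w.im - 2 * (w.re + K * θ)) (w.im + 2 * (w.re + K * θ)) ∧
      (w.re + K * θ) / 2 ≤ x.re + K * θ := fun x hx k => by
    have k1 : |x.im - w.im| ≤ 8 * θ := (Complex.abs_im_le_norm (x - w)).trans k
    have k2 : |x.re - w.re| ≤ 8 * θ := (Complex.abs_re_le_norm (x - w)).trans k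
    have k3 := A3_del h hx
    rw [abs_le] at k1 k2
    refine ⟨⟨?_, ?_⟩, ⟨?_, ?_⟩, ?_⟩ <;> linarith only [k1.1, k1.2, k2.1, k2.2, k3, d0, θ0]
  obtain ⟨a1, a2, a3⟩ := mem z hz h₁
  obtain ⟨b1, b2, -⟩ := mem z' hz' h₂
  have ω0 : 0 ≤ D.T (w.im + 2 * (w.re + K * θ)) - D.T (w.im - 2 * (w.re + K * θ)) :=
    sub_nonneg.2 (D.T_mono (by linarith only [d0, θ0]))
  refine (A3_real (a := ‖z - z'‖) (A3_del_pos h hz) (A3_del_pos h hz') ω0 ?_ (A3_osc D a1 b1)
    (A3_osc D b2 a2) (A3_osc D b1 b2) (Complex.abs_im_le_norm (z - z')) ?_).trans ?_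
  · rw [A3_prim D (z.im - _) (z.im + _), A3_prim D (z'.im - _) (z'.im + _),
      A3_prim D (z.im - _) (z'.im - _), A3_prim D (z'.im + _) (z.im + _)]
    ring
  · rw [add_sub_add_right_eq_sub]
    exact Complex.abs_re_le_norm (z - z')
  · refine (div_le_div_of_nonneg_left (mul_nonneg (mul_nonneg two_pos.le ω0) (norm_nonneg _))
      (half_pos (A3_del_pos h hw)) a3).trans (le_of_eq ?_)
    have := (A3_del_pos h hw).ne'
    field_simp
    ring

theorem A3_logk (h : Par A V Θ θ K c) {w z z' : ℂ} (hw : w ∈ HP) (h₁ : ‖z - w‖ ≤ 8 * θ)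
    (h₂ : ‖z' - w‖ ≤ 8 * θ) :
    |Real.log (D.kap K z) - Real.log (D.kap K z')| ≤ 4 / (θ * D.kap K w) * ‖z - z'‖ := by
  have k0 := (A3_K h).trans_le (A3_kap_ge D h hw)
  refine (A3_log (half_pos k0) (A3_kap_cmp D h hw h₁).1 (A3_kap_cmp D h hw h₂).1).trans
    ((div_le_div_of_nonneg_right (A3_kap_lip D h z z') (half_pos k0).le).trans (le_of_eq ?_))
  have := h.θ_pos.ne'
  field_simp
  ring

theorem A3_Lam (h : Par A V Θ θ K c) {w z z' : ℂ} (hw : w ∈ HP) (hz : z ∈ HP) (hz' : z' ∈ HP)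
    (h₁ : ‖z - w‖ ≤ 8 * θ) (h₂ : ‖z' - w‖ ≤ 8 * θ) :
    |c * Θ * D.Lam K z / V - c * Θ * D.Lam K z' / V| ≤ D.e₁ K c w * ‖z - z'‖ := by
  have p0 : 0 < c * Θ / V := div_pos (mul_pos h.c_pos (A3_Θ h)) (A3_V h)
  rw [show c * Θ * D.Lam K z / V - c * Θ * D.Lam K z' / V =
    c * Θ / V * (D.Lam K z - D.Lam K z') by ring, abs_mul, abs_of_pos p0, LD.e₁]
  split_ifs with k
  · have h1 : |D.Lam K z - D.Lam K z'| ≤ |Real.log (D.kap K z) - Real.log (D.kap K z')| := by
      rw [LD.Lam, LD.Lam, max_comm, max_comm 0]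
      refine (abs_max_sub_max_le_abs _ _ _).trans ?_
      rw [sub_sub_sub_cancel_right]
      refine (abs_min_sub_min_le_max _ _ _ _).trans ?_
      rw [sub_self, abs_zero, max_eq_left (abs_nonneg _)]
    refine (mul_le_mul_of_nonneg_left (h1.trans (A3_logk D h hw h₁ h₂)) p0.le).trans (le_of_eq ?_)
    ring
  · have key : ∀ x : ℂ, x ∈ HP → ‖x - w‖ ≤ 8 * θ → D.Lam K x =
        if D.kap K w < Real.exp D.v₁ / 2 then 0 else max 0 (Real.log (4 * Θ / θ) - D.v₁) := by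
      intro x hx k1
      have k2 := A3_kap_cmp D h hw k1
      have k0 := (A3_K h).trans_le (A3_kap_ge D h hx)
      rw [LD.Lam]
      split_ifs with k3
      · have : Real.log (D.kap K x) ≤ D.v₁ :=
          (Real.log_le_iff_le_exp k0).2 (by linarith only [k2.2, k3])
        exact max_eq_left (sub_nonpos.2 ((min_le_left _ _).trans this))
      · have k4 : 8 * Θ / θ < D.kap K w := not_le.1 fun k4 => k ⟨not_lt.1 k3, k4⟩
        rw [min_eq_right (Real.log_le_log (div_pos (mul_pos four_pos (A3_Θ h)) h.θ_pos) ?_)]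
        rw [mul_div_assoc] at k4 ⊢
        linarith only [k4, k2.1]
    rw [key z hz h₁, key z' hz' h₂, sub_self, abs_zero, mul_zero, zero_mul]

theorem A3_zet0 (h : Par A V Θ θ K c) {x : ℂ} (k : Real.exp D.vz ≤ D.kap K x) :
    D.zet K x = 0 :=
  clamp_zero (div_nonpos_of_nonpos_of_nonneg (sub_nonpos.2
    ((Real.le_log_iff_exp_le ((Real.exp_pos _).trans_le k)).2 k)) (A3_V h).le)

theorem A3_zet (h : Par A V Θ θ K c) {w z z' : ℂ} (hw : w ∈ HP) (hz : z ∈ HP) (hz' : z' ∈ HP)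
    (h₁ : ‖z - w‖ ≤ 8 * θ) (h₂ : ‖z' - w‖ ≤ 8 * θ) :
    |D.zet K z - D.zet K z'| * (2 * Θ) ≤ D.e₂ K w * ‖z - z'‖ := by
  rw [LD.e₂]
  split_ifs with k
  · have h1 := lipschitz_clamp.dist_le_mul ((D.vz - Real.log (D.kap K z)) / V)
      ((D.vz - Real.log (D.kap K z')) / V)
    rw [NNReal.coe_one, one_mul, Real.dist_eq, Real.dist_eq, ← sub_div, abs_div,
      abs_of_pos (A3_V h), sub_sub_sub_cancel_left, abs_sub_comm (Real.log _)] at h1
    refine (mul_le_mul_of_nonneg_right (h1.trans (div_le_div_of_nonneg_right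
      (A3_logk D h hw h₁ h₂) (A3_V h).le)) (mul_pos two_pos (A3_Θ h)).le).trans (le_of_eq ?_)
    ring
  · have key : ∀ x : ℂ, x ∈ HP → ‖x - w‖ ≤ 8 * θ → D.zet K x =
        if D.kap K w < Real.exp (D.vz - V) / 2 then 1 else 0 := by
      intro x hx k1
      have k2 := A3_kap_cmp D h hw k1
      have k0 := (A3_K h).trans_le (A3_kap_ge D h hx)
      split_ifs with k3
      · have : Real.log (D.kap K x) ≤ D.vz - V :=
          (Real.log_le_iff_le_exp k0).2 (by linarith only [k2.2, k3])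
        exact clamp_one ((one_le_div (A3_V h)).2 (by linarith only [this]))
      · have k4 : 2 * Real.exp D.vz < D.kap K w := not_le.1 fun k4 => k ⟨not_lt.1 k3, k4⟩
        exact A3_zet0 D h (by linarith only [k4, k2.1])
    rw [key z hz h₁, key z' hz' h₂, sub_self, abs_zero, zero_mul, zero_mul]

theorem A3_zet_abs (z : ℂ) : |D.zet K z| ≤ 1 := by
  have := clamp_mem ((D.vz - Real.log (D.kap K z)) / V)
  exact abs_le.2 ⟨neg_one_lt_zero.le.trans this.1, this.2⟩

theorem A3_e3 (h : Par A V Θ θ K c) {w z z' : ℂ} (hw : w ∈ HP) (hz : z ∈ HP) (hz' : z' ∈ HP)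
    (h₁ : ‖z - w‖ ≤ 8 * θ) (h₂ : ‖z' - w‖ ≤ 8 * θ) :
    |D.zet K z * (D.Av K z - D.Av K z' - (z.im - z'.im))| ≤ D.e₃ K w * ‖z - z'‖ := by
  rw [LD.e₃]
  split_ifs with k
  · rw [abs_mul, add_mul, one_mul, add_comm]
    exact (mul_le_of_le_one_left (abs_nonneg _) (A3_zet_abs D z)).trans ((abs_sub _ _).trans
      (add_le_add (A3_Av_lip D h hw hz hz' h₁ h₂) (Complex.abs_im_le_norm (z - z'))))
  · rw [A3_zet0 D h (by linarith only [not_le.1 k, (A3_kap_cmp D h hw h₁).1]), zero_mul, abs_zero,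
      zero_mul]

theorem A3_max (h : Par A V Θ θ K c) (t : ℝ) :
    Real.log (max (D.h t) K) - D.v₁ ≤ dep D.v₁ (D.h t) := by
  rcases le_total (D.h t) K with k | k
  · rw [max_eq_right k]
    exact le_max_of_le_left (sub_nonpos.2 (h.K_le.trans D.v₁_ge))
  · rw [max_eq_left k]
    exact le_max_right _ _

theorem LD.kap_cont (h : Par A V Θ θ K c) : Continuous (D.kap K) := by
  refine (LipschitzWith.of_dist_le' (K := 2 / θ) fun z z' => ?_).continuous
  rw [Real.dist_eq, dist_eq_norm]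
  exact (A3_kap_lip D h z z').trans (le_of_eq (by ring))

theorem LD.Psi_meas (h : Par A V Θ θ K c) : Measurable (D.Psi K c) := by
  have h0 : Measurable fun z => Real.log (D.kap K z) :=
    Real.measurable_log.comp (D.kap_cont h).measurable
  have h1 : Measurable (D.Lam K) := measurable_const.max ((h0.min measurable_const).sub_const _)
  have h2 : Measurable (D.zet K) :=
    lipschitz_clamp.continuous.measurable.comp ((h0.const_sub _).div_const _)
  have h3 : Measurable fun z : ℂ => z.re + K * θ := Complex.measurable_re.add_const _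
  have h4 := (intervalIntegral.continuous_primitive (A3_int D) 0).measurable
  have h5 : Measurable (D.Av K) := by
    have := ((h4.comp (Complex.measurable_im.add h3)).sub
      (h4.comp (Complex.measurable_im.sub h3))).div (h3.const_mul 2)
    rwa [show D.Av K = _ from funext fun z => congrArg (· / (2 * (z.re + K * θ))) (A3_prim D _ _)]
  exact Complex.measurableEquivRealProd.symm.measurable.comp
    ((Complex.measurable_re.add ((h1.const_mul _).div_const _)).prodMk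
      (Complex.measurable_im.add (h2.mul (h5.sub Complex.measurable_im))))

theorem LD.e_meas (h : Par A V Θ θ K c) :
    Measurable (D.e₁ K c) ∧ Measurable (D.e₂ K) ∧ Measurable (D.e₃ K) ∧ Measurable (D.err K c) := by
  have h0 := (D.kap_cont h).measurable
  have h3 : Measurable fun z : ℂ => z.re + K * θ := Complex.measurable_re.add_const _
  have hT := D.T_mono.measurable
  have a1 : Measurable (D.e₁ K c) := Measurable.ite
    ((measurableSet_le measurable_const h0).inter (measurableSet_le h0 measurable_const))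
    ((h0.const_mul _).const_div _) measurable_const
  have a2 : Measurable (D.e₂ K) := Measurable.ite
    ((measurableSet_le measurable_const h0).inter (measurableSet_le h0 measurable_const))
    ((h0.const_mul _).const_div _) measurable_const
  have a3 : Measurable (D.e₃ K) := Measurable.ite (measurableSet_le h0 measurable_const)
    (((((hT.comp (Complex.measurable_im.add (h3.const_mul 2))).sub
      (hT.comp (Complex.measurable_im.sub (h3.const_mul 2)))).const_mul 4).div h3).const_add 1)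
    measurable_const
  exact ⟨a1, a2, a3, ((a1.add a2).add a3).indicator
    (measurableSet_le measurable_const Complex.measurable_re)⟩

theorem LD.e_nonneg (h : Par A V Θ θ K c) {w : ℂ} (hw : w ∈ HP) :
    0 ≤ D.e₁ K c w ∧ 0 ≤ D.e₂ K w ∧ 0 ≤ D.e₃ K w := by
  have k0 := (mul_pos (mul_pos (A3_V h) h.θ_pos) ((A3_K h).trans_le (A3_kap_ge D h hw))).le
  have d0 := A3_del_pos h hw
  refine ⟨?_, ?_, ?_⟩
  · rw [LD.e₁]
    split_ifs
    · exact div_nonneg (mul_pos (mul_pos four_pos h.c_pos) (A3_Θ h)).le k0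
    · exact le_rfl
  · rw [LD.e₂]
    split_ifs
    · exact div_nonneg (by linarith only [A3_Θ h]) k0
    · exact le_rfl
  · rw [LD.e₃]
    split_ifs
    · exact add_nonneg zero_le_one (div_nonneg (mul_nonneg four_pos.le
        (sub_nonneg.2 (D.T_mono (by linarith only [d0])))) d0.le)
    · exact le_rfl

theorem LD.err_nonneg (h : Par A V Θ θ K c) (w : ℂ) : 0 ≤ D.err K c w := by
  refine indicator_nonneg (fun w hw => ?_) w
  obtain ⟨h1, h2, h3⟩ := D.e_nonneg h hw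
  exact add_nonneg (add_nonneg h1 h2) h3

theorem LD.err_le (h : Par A V Θ θ K c) (w : ℂ) : D.err K c w ≤ 17 + 28 * (Θ / θ) / K := by
  have p0 : 0 < Θ / θ / K := div_pos (div_pos (A3_Θ h) h.θ_pos) (A3_K h)
  rw [mul_div_assoc]
  by_cases hw : w ∈ HP
  swap
  · rw [LD.err, indicator_of_notMem hw]
    linarith only [p0]
  have q0 := mul_pos h.θ_pos (A3_K h)
  have d0 := A3_del_pos h hw
  have h0 : Θ / (V * θ * D.kap K w) ≤ Θ / θ / K := by
    rw [div_div]
    exact div_le_div_of_nonneg_left (A3_Θ h).le q0 (mul_le_mul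
      (le_mul_of_one_le_left h.θ_pos.le h.V_ge) (A3_kap_ge D h hw) (A3_K h).le
      (mul_pos (A3_V h) h.θ_pos).le)
  have h1 : D.e₁ K c w ≤ 2 * (Θ / θ / K) := by
    rw [LD.e₁]
    split_ifs
    · rw [mul_div_assoc]
      exact mul_le_mul (by linarith only [A3_c h]) h0 (div_nonneg (A3_Θ h).le (mul_pos
        (mul_pos (A3_V h) h.θ_pos) ((A3_K h).trans_le (A3_kap_ge D h hw))).le) two_pos.le
    · linarith only [p0]
  have h2 : D.e₂ K w ≤ 8 * (Θ / θ / K) := by
    rw [LD.e₂]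
    split_ifs
    · rw [mul_div_assoc]
      linarith only [h0]
    · linarith only [p0]
  have h3 : D.e₃ K w ≤ 17 + 16 * (Θ / θ / K) := by
    rw [LD.e₃]
    split_ifs
    · have k1 := abs_le.1 (D.T_near (w.im + 2 * (w.re + K * θ)))
      have k2 := abs_le.1 (D.T_near (w.im - 2 * (w.re + K * θ)))
      have k3 : Θ / (w.re + K * θ) ≤ Θ / θ / K := by
        rw [div_div, mul_comm θ]
        exact div_le_div_of_nonneg_left (A3_Θ h).le (mul_comm θ K ▸ q0) (le_add_of_nonneg_left hw)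
      have k4 : 4 * (D.T (w.im + 2 * (w.re + K * θ)) - D.T (w.im - 2 * (w.re + K * θ))) /
          (w.re + K * θ) ≤ 16 + 16 * (Θ / (w.re + K * θ)) := by
        rw [div_le_iff₀ d0, add_mul, mul_assoc, div_mul_cancel₀ _ d0.ne']
        linarith only [k1.2, k2.1]
      linarith only [k3, k4]
    · linarith only [p0]
  rw [LD.err, indicator_of_mem hw]
  linarith only [h1, h2, h3, p0]

theorem LD.Av_near (h : Par A V Θ θ K c) {z : ℂ} (hz : z ∈ HP) : |D.Av K z - z.im| ≤ 2 * Θ := by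
  have d0 := mul_pos two_pos (A3_del_pos h hz)
  have k := intervalIntegral.norm_integral_le_of_norm_le_const (a := z.im - (z.re + K * θ))
    (b := z.im + (z.re + K * θ)) (f := fun s => D.T s - s) (C := 2 * Θ) fun s _ => D.T_near s
  rw [intervalIntegral.integral_sub (A3_int D _ _) intervalIntegral.intervalIntegrable_id,
    integral_id, Real.norm_eq_abs, show z.im + (z.re + K * θ) - (z.im - (z.re + K * θ)) =
      2 * (z.re + K * θ) by ring, abs_of_pos d0] at k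
  rw [LD.Av, div_sub' d0.ne', abs_div, abs_of_pos d0, div_le_iff₀ d0]
  refine le_trans (le_of_eq (congrArg _ ?_)) k
  ring

theorem LD.Av_mem (h : Par A V Θ θ K c) {z : ℂ} (hz : z ∈ HP) :
    D.T (z.im - (z.re + K * θ)) ≤ D.Av K z ∧ D.Av K z ≤ D.T (z.im + (z.re + K * θ)) := by
  have d1 := A3_del_pos h hz
  have d0 := mul_pos two_pos d1
  have l : z.im - (z.re + K * θ) ≤ z.im + (z.re + K * θ) := by linarith only [d1]
  have k1 := intervalIntegral.integral_mono_on (μ := volume) l intervalIntegrable_const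
    (A3_int D _ _) fun s hs => D.T_mono hs.1
  have k2 := intervalIntegral.integral_mono_on (μ := volume) l (A3_int D _ _)
    intervalIntegrable_const fun s hs => D.T_mono hs.2
  rw [intervalIntegral.integral_const, smul_eq_mul] at k1 k2
  rw [LD.Av, le_div_iff₀ d0, div_le_iff₀ d0]
  exact ⟨le_trans (le_of_eq (by ring)) k1, k2.trans (le_of_eq (by ring))⟩

theorem LD.Psi_loc (h : Par A V Θ θ K c) {w z z' : ℂ} (hw : w ∈ HP) (hz : z ∈ HP) (hz' : z' ∈ HP)
    (h₁ : ‖z - w‖ ≤ 8 * θ) (h₂ : ‖z' - w‖ ≤ 8 * θ) :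
    ‖D.Psi K c z - D.Psi K c z' - (z - z')‖ ≤ D.err K c w * ‖z - z'‖ := by
  have e1 : (D.Psi K c z - D.Psi K c z' - (z - z')).re =
      c * Θ * D.Lam K z / V - c * Θ * D.Lam K z' / V := by
    simp only [LD.Psi, pt, Complex.sub_re]
    ring
  have e2 : (D.Psi K c z - D.Psi K c z' - (z - z')).im =
      (D.zet K z - D.zet K z') * (D.Av K z' - z'.im) +
        D.zet K z * (D.Av K z - D.Av K z' - (z.im - z'.im)) := by
    simp only [LD.Psi, pt, Complex.sub_im]
    ring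
  refine (Complex.norm_le_abs_re_add_abs_im _).trans ?_
  rw [e1, e2, LD.err, indicator_of_mem hw, add_mul, add_mul, add_assoc]
  refine add_le_add (A3_Lam D h hw hz hz' h₁ h₂) ((abs_add_le _ _).trans (add_le_add ?_
    (A3_e3 D h hw hz hz' h₁ h₂)))
  rw [abs_mul]
  exact (mul_le_mul_of_nonneg_left (D.Av_near h hz') (abs_nonneg _)).trans
    (A3_zet D h hw hz hz' h₁ h₂)

theorem LD.Psi_lip (h : Par A V Θ θ K c) {z z' : ℂ} (hz : z ∈ HP) (hz' : z' ∈ HP) :
    ‖D.Psi K c z - D.Psi K c z'‖ ≤ Θ / (16 * θ) * ‖z - z'‖ := by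
  have θ0 := h.θ_pos
  have key : ∀ n : ℕ, ∀ z ∈ HP, ∀ z' ∈ HP, ‖z - z'‖ ≤ 2 ^ n * (8 * θ) →
      ‖D.Psi K c z - D.Psi K c z'‖ ≤ Θ / (16 * θ) * ‖z - z'‖ := by
    intro n
    induction n with
    | zero =>
      intro z hz z' hz' k
      rw [pow_zero, one_mul] at k
      have k1 := D.Psi_loc h hz' hz hz' k (by rw [sub_self, norm_zero]; linarith only [θ0])
      have k2 := D.err_le h z'
      have k3 : 1000 ≤ Θ / θ := (le_div_iff₀ θ0).2 h.a_ge
      have k4 : 28 * (Θ / θ) / K ≤ 28 * (Θ / θ) / 1000 :=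
        div_le_div_of_nonneg_left (by linarith only [k3]) (by norm_num) h.K_ge
      have k5 : D.err K c z' + 1 ≤ Θ / (16 * θ) := by
        rw [mul_comm, ← div_div]
        linarith only [k2, k3, k4]
      refine le_trans ?_ (mul_le_mul_of_nonneg_right k5 (norm_nonneg _))
      rw [add_mul, one_mul]
      exact (norm_le_norm_sub_add _ (z - z')).trans (add_le_add k1 le_rfl)
    | succ n ih =>
      intro z hz z' hz' k
      have m : (z + z') / 2 ∈ HP := by
        show 0 ≤ ((z + z') / 2).re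
        rw [Complex.div_ofNat_re, Complex.add_re]
        exact div_nonneg (add_nonneg hz hz') two_pos.le
      have e1 : ‖z - (z + z') / 2‖ = ‖z - z'‖ / 2 := by
        rw [show z - (z + z') / 2 = (z - z') / 2 by ring, norm_div, Complex.norm_ofNat]
      have e2 : ‖(z + z') / 2 - z'‖ = ‖z - z'‖ / 2 := by
        rw [show (z + z') / 2 - z' = (z - z') / 2 by ring, norm_div, Complex.norm_ofNat]
      rw [pow_succ] at k
      have k1 := ih z hz _ m (by rw [e1]; linarith only [k])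
      have k2 := ih _ m z' hz' (by rw [e2]; linarith only [k])
      rw [e1] at k1
      rw [e2] at k2
      linarith only [k1, k2, norm_sub_le_norm_sub_add_norm_sub (D.Psi K c z)
        (D.Psi K c ((z + z') / 2)) (D.Psi K c z')]
  obtain ⟨n, hn⟩ := pow_unbounded_of_one_lt (‖z - z'‖ / (8 * θ)) (one_lt_two (α := ℝ))
  exact key n z hz z' hz' ((div_le_iff₀ (by linarith only [θ0])).1 hn.le)

theorem LD.Psi_re_ge (h : Par A V Θ θ K c) (z : ℂ) : z.re ≤ (D.Psi K c z).re := by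
  exact le_add_of_nonneg_right (div_nonneg
    (mul_nonneg (mul_pos h.c_pos (A3_Θ h)).le (le_max_left _ _)) (A3_V h).le)

theorem LD.Psi_im (h : Par A V Θ θ K c) {z : ℂ} (hz : z ∈ HP) :
    |(D.Psi K c z).im - z.im| ≤ 2 * Θ := by
  show |z.im + D.zet K z * (D.Av K z - z.im) - z.im| ≤ _
  rw [add_sub_cancel_left, abs_mul]
  exact (mul_le_of_le_one_left (abs_nonneg _) (A3_zet_abs D z)).trans (D.Av_near h hz)

theorem LD.Psi_far (h : Par A V Θ θ K c) {z : ℂ} (hz : 4 * Θ ≤ z.re) :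
    D.Psi K c z = z + ((c * Θ * dep D.v₁ (4 * Θ / θ) / V : ℝ) : ℂ) := by
  have k : 4 * Θ / θ ≤ D.kap K z := le_add_of_nonneg_of_le (le_max_of_le_right (A3_K h).le)
    (div_le_div_of_nonneg_right hz h.θ_pos.le)
  have e : D.Lam K z = dep D.v₁ (4 * Θ / θ) := by
    rw [LD.Lam, min_eq_right (Real.log_le_log (div_pos (mul_pos four_pos (A3_Θ h)) h.θ_pos) k)]
    rfl
  rw [LD.Psi, e, A3_zet0 D h (D.vz_exp.trans k), zero_mul, add_zero]
  exact Complex.ext rfl (add_zero _).symm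

theorem LD.Psi_bd (h : Par A V Θ θ K c) (t : ℝ) :
    D.Lam K (pt 0 t) = dep D.v₁ (D.h t) ∧ D.zet K (pt 0 t) = zeta V D.vz (D.h t) := by
  have e : D.kap K (pt 0 t) = max (D.h t) K := by
    show max (D.h t) K + 0 / θ = _
    rw [zero_div, add_zero]
  have h0 := zero_lt_one.trans_le (D.one_le t)
  rw [LD.Lam, LD.zet, e]
  rcases le_total (D.h t) K with k | k
  · have k1 := Real.log_le_log h0 k
    have k2 := Real.log_nonneg (D.one_le t)
    have k3 := h.K_le
    rw [max_eq_right k, dep, max_eq_left (sub_nonpos.2 ((min_le_left _ _).trans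
      (k3.trans D.v₁_ge))), max_eq_left (sub_nonpos.2 (k1.trans (k3.trans D.v₁_ge)))]
    refine ⟨rfl, ?_⟩
    unfold zeta
    rcases D.vz_or with k4 | k4
    · rw [clamp_zero (div_nonpos_of_nonpos_of_nonneg (by linarith only [k1, k2, k4]) (A3_V h).le),
        clamp_zero (div_nonpos_of_nonpos_of_nonneg (by linarith only [k2, k4]) (A3_V h).le)]
    · rw [clamp_one ((one_le_div (A3_V h)).2 (by linarith only [k3, k4])),
        clamp_one ((one_le_div (A3_V h)).2 (by linarith only [k1, k3, k4]))]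
  · rw [max_eq_left k, min_eq_left (Real.log_le_log h0 (D.h_le t))]
    exact ⟨rfl, rfl⟩

theorem LD.Psi_re_le (h : Par A V Θ θ K c) {z : ℂ} (hz : z ∈ HP) {t : ℝ} (ht : |z.im - t| ≤ 8 * θ) :
    (D.Psi K c z).re / Θ ≤ 1 / 4 * (z.re / θ) + dep D.v₁ (D.h t) / V + 1 := by
  have θ0 := h.θ_pos
  have x0 : 0 ≤ z.re / θ := div_nonneg hz θ0.le
  have d0 : 0 ≤ dep D.v₁ (D.h t) := le_max_left _ _
  have m0 : 1000 ≤ max (D.h t) K := le_max_of_le_right h.K_ge
  have k0 := h.K_ge.trans (A3_kap_ge D h hz)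
  have k1 : |D.kap K z - max (D.h t) K| ≤ 8 + z.re / θ := by
    have := abs_le.1 ((abs_max_sub_max_le_abs (D.h z.im) (D.h t) K).trans ((D.h_lip _ _).trans
      ((div_le_iff₀ θ0).2 ht)))
    rw [LD.kap, abs_le]
    constructor <;> linarith only [this.1, this.2, x0]
  have k2 := (le_abs_self _).trans ((A3_log (by norm_num) k0 m0).trans
    (div_le_div_of_nonneg_right k1 (by norm_num)))
  have k3 : D.Lam K z ≤ dep D.v₁ (D.h t) + (8 + z.re / θ) / 1000 := max_le
    (by linarith only [d0, x0])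
    (by linarith only [min_le_left (Real.log (D.kap K z)) (Real.log (4 * Θ / θ)), k2, A3_max D h t])
  have k4 : D.Lam K z / V ≤ dep D.v₁ (D.h t) / V + (8 + z.re / θ) / 1000 := by
    refine (div_le_div_of_nonneg_right k3 (A3_V h).le).trans ?_
    rw [add_div]
    exact add_le_add le_rfl (div_le_self (by linarith only [x0]) h.V_ge)
  have k5 : c * (D.Lam K z / V) ≤ D.Lam K z / V := mul_le_of_le_one_left
    (div_nonneg (le_max_left _ _) (A3_V h).le) (by linarith only [A3_c h])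
  have k6 : z.re / Θ ≤ z.re / θ / 1000 := by
    rw [div_div, mul_comm]
    exact div_le_div_of_nonneg_left hz (by linarith only [θ0]) h.a_ge
  have e : (D.Psi K c z).re / Θ = z.re / Θ + c * (D.Lam K z / V) := by
    show (z.re + c * Θ * D.Lam K z / V) / Θ = _
    have := (A3_Θ h).ne'
    field_simp
  rw [e]
  linarith only [k4, k5, k6, x0]

end Pool.Agent.Work.MP_042f46_an.Fu
end
end

-- merged part: Pool.Agent.Work.MP_042f46_an.F.A4
section
/-!
# Energy of the error in a tile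

Plans (Tonelli on `ℂ ≃ ℝ × ℝ`, `Complex.volume_preserving_equiv_real_prod`).  `kap_band`: on `{k ≤ kap ≤ 2 k}` we have `h ≤ 2 k` (`cnt`) and `re` in an interval of length `k θ`, so the integral is at most `2 A V`; the range `[k, k exp W]` is covered by at most `2 W + 1` such bands.  `e₂_int`: `kap_band` with `k = max 1 (exp (vz - V) / 2)`, `W = V + 2`.
`e₃_int`: on the support `δ = re + K θ ≤ kap θ ≤ 2 exp vz θ ≤ 8 Θ`; `ω = T (s + 2 δ) - T (s - 2 δ) ≤ A Θ (4 δ / (exp vz θ)) ^ (1 / A)` (`frac`) and `∫ s ∈ [t, t + 2 Θ], ω ≤ 4 δ (T (t + 2 Θ + 2 δ) - T (t - 2 δ)) ≤ 152 δ Θ` (`T_int`); `∫ δ ∈ (0, x], δ ^ (1 / A - 1) = A x ^ (1 / A)`.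
`sup_err`: `E t = 12 Θ / (V θ max (h t) K) + 1 + ∑ i < n, 4 (T (t + 4 δ i) - T (t - 4 δ i)) / δ i` with `δ i = 2 ^ i K θ` and `n` the number of `i` with `δ i ≤ 8 Θ`.  `∫ 1 / max h K ^ 2 ≤ 4 A V θ / K` (bands `h ≤ 2 ^ (i + 1) K`, `cnt`); for the sum use Cauchy-Schwarz with weights `(3 / 4) ^ i`: the square of term `i` has integral at most `16 · 68 · 8 · 70 Θ ^ 2 / δ i`.
-/

open Set Metric Topology Filter MeasureTheory
open scoped ENNReal NNReal

noncomputable section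
namespace Pool.Agent.Work.MP_042f46_an.Fu

open Pool.Agent.Work.MP_042f46_an.Ty

theorem T_int {T : ℝ → ℝ} (hT : Monotone T) {d : ℝ} (hd : 0 ≤ d) {a b : ℝ} (h : a ≤ b) :
    ∫⁻ s in Icc a b, ENNReal.ofReal (T (s + d) - T (s - d)) ≤
      ENNReal.ofReal (2 * d * (T (b + d) - T (a - d))) := by
  have m1 : Monotone fun s => T (s + d) := fun x y e => hT (by linarith)
  have m2 : Monotone fun s => T (s - d) := fun x y e => hT (by linarith)
  have i1 : IntervalIntegrable (fun s => T (s + d)) volume a b := m1.intervalIntegrable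
  have i2 : IntervalIntegrable (fun s => T (s - d)) volume a b := m2.intervalIntegrable
  rw [← restrict_Ioc_eq_restrict_Icc, ← ofReal_integral_eq_lintegral_ofReal (i1.sub i2).1
    (Eventually.of_forall fun s => sub_nonneg.2 (hT (by linarith))),
    ← intervalIntegral.integral_of_le h, intervalIntegral.integral_sub i1 i2,
    intervalIntegral.integral_comp_add_right, intervalIntegral.integral_comp_sub_right,
    intervalIntegral.integral_interval_sub_interval_comm' hT.intervalIntegrable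
      hT.intervalIntegrable hT.intervalIntegrable]
  refine ENNReal.ofReal_le_ofReal ?_
  have k1 := intervalIntegral.integral_mono_on (μ := volume) (by linarith : b - d ≤ b + d)
    hT.intervalIntegrable (intervalIntegrable_const (c := T (b + d))) fun x hx => hT hx.2
  have k2 := intervalIntegral.integral_mono_on (μ := volume) (by linarith : a - d ≤ a + d)
    (intervalIntegrable_const (c := T (a - d))) hT.intervalIntegrable fun x hx => hT hx.1
  rw [intervalIntegral.integral_const, smul_eq_mul] at k1 k2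
  linarith

theorem A4_inner {T : ℝ → ℝ} (hT : Monotone T) {d a b p q : ℝ} (hd : 0 ≤ d) (h : a ≤ b)
    (hp : 0 ≤ p) (hq : 0 ≤ q) {F : ℝ → ℝ} (hF : ∀ s, F s ≤ p + q * (T (s + d) - T (s - d))) :
    ∫⁻ s in Icc a b, ENNReal.ofReal (F s) ≤
      ENNReal.ofReal (p * (b - a) + q * (2 * d * (T (b + d) - T (a - d)))) := by
  have h0 : 0 ≤ 2 * d * (T (b + d) - T (a - d)) :=
    mul_nonneg (by positivity) (sub_nonneg.2 (hT (by linarith)))
  calc ∫⁻ s in Icc a b, ENNReal.ofReal (F s)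
      ≤ ∫⁻ s in Icc a b, (ENNReal.ofReal p +
          ENNReal.ofReal q * ENNReal.ofReal (T (s + d) - T (s - d))) := by
        refine lintegral_mono fun s => (ENNReal.ofReal_le_ofReal (hF s)).trans ?_
        rw [← ENNReal.ofReal_mul hq]
        exact ENNReal.ofReal_add_le
    _ ≤ ENNReal.ofReal p * ENNReal.ofReal (b - a) +
          ENNReal.ofReal q * ENNReal.ofReal (2 * d * (T (b + d) - T (a - d))) := by
        rw [lintegral_add_left measurable_const, setLIntegral_const, Real.volume_Icc,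
          lintegral_const_mul' _ _ ENNReal.ofReal_ne_top]
        exact add_le_add le_rfl (mul_le_mul' le_rfl (T_int hT hd h))
    _ = _ := by
        rw [← ENNReal.ofReal_mul hp, ← ENNReal.ofReal_mul hq, ← ENNReal.ofReal_add
          (mul_nonneg hp (sub_nonneg.2 h)) (mul_nonneg hq h0)]

theorem A4_supp {α : Type} [MeasurableSpace α] {ν : Measure α} {S R : Set α}
    (hS : MeasurableSet S) {F G : α → ℝ≥0∞} (h : ∀ w ∈ S, F w = 0 ∨ (w ∈ R ∧ F w ≤ G w)) :
    ∫⁻ w in S, F w ∂ν ≤ ∫⁻ w in R, G w ∂ν := by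
  rw [← lintegral_indicator hS]
  refine le_trans (lintegral_mono fun w => ?_) (lintegral_indicator_le G R)
  by_cases k : w ∈ S
  · rw [indicator_of_mem k]
    rcases h w k with e | e
    · rw [e]; exact zero_le
    · rw [indicator_of_mem e.1]; exact e.2
  · rw [indicator_of_notMem k]; exact zero_le

theorem A4_rect {P Q : Set ℝ} {f : ℝ × ℝ → ℝ≥0∞} (hf : Measurable f) :
    ∫⁻ w in {w : ℂ | w.re ∈ P ∧ w.im ∈ Q}, f (w.re, w.im) = ∫⁻ x in P, ∫⁻ s in Q, f (x, s) := by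
  have e := Complex.volume_preserving_equiv_real_prod.setLIntegral_comp_preimage_emb
    Complex.measurableEquivRealProd.measurableEmbedding f (P ×ˢ Q)
  rw [Measure.volume_eq_prod, ← Measure.prod_restrict, lintegral_prod _ hf.aemeasurable] at e
  exact e

theorem A4_area {Y : Set ℝ} (hY : MeasurableSet Y) {g : ℝ → ℝ} (hg : Measurable g) (L : ℝ) :
    volume {w : ℂ | w.im ∈ Y ∧ w.re ∈ Icc (g w.im) (g w.im + L)} =
      ENNReal.ofReal L * volume Y := by
  have hs : MeasurableSet {p : ℝ × ℝ | p.2 ∈ Y ∧ p.1 ∈ Icc (g p.2) (g p.2 + L)} :=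
    (measurable_snd hY).inter ((measurableSet_le (hg.comp measurable_snd) measurable_fst).inter
      (measurableSet_le measurable_fst ((hg.comp measurable_snd).add_const L)))
  have e := Complex.volume_preserving_equiv_real_prod.measure_preimage hs.nullMeasurableSet
  rw [Measure.volume_eq_prod, Measure.prod_apply_symm hs] at e
  refine Eq.trans e ?_
  rw [← lintegral_indicator_const hY]
  refine lintegral_congr fun s => ?_
  by_cases k : s ∈ Y
  · have e1 : (fun x => (x, s)) ⁻¹' {p : ℝ × ℝ | p.2 ∈ Y ∧ p.1 ∈ Icc (g p.2) (g p.2 + L)} =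
        Icc (g s) (g s + L) := by
      ext x
      exact and_iff_right k
    rw [e1, indicator_of_mem k, Real.volume_Icc, add_sub_cancel_left]
  · have e1 : (fun x => (x, s)) ⁻¹' {p : ℝ × ℝ | p.2 ∈ Y ∧ p.1 ∈ Icc (g p.2) (g p.2 + L)} =
        ∅ := eq_empty_of_forall_notMem fun x hx => k hx.1
    rw [e1, indicator_of_notMem k, measure_empty]

theorem A4_dy {k x : ℝ} (hk : 0 < k) (hx : k ≤ x) :
    ∃ i : ℕ, 2 ^ i * k ≤ x ∧ x ≤ 2 * (2 ^ i * k) := by
  obtain ⟨i, h1, h2⟩ := exists_nat_pow_near ((one_le_div hk).2 hx) one_lt_two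
  rw [le_div_iff₀ hk] at h1
  rw [div_lt_iff₀ hk, pow_succ] at h2
  exact ⟨i, h1, by linarith⟩

theorem A4_tile (t Θ : ℝ) : MeasurableSet {w : ℂ | 0 ≤ w.re ∧ w.im ∈ Icc t (t + 2 * Θ)} :=
  (measurableSet_le measurable_const Complex.measurable_re).inter
    (Complex.measurable_im measurableSet_Icc)

variable {A V ρ₀ Θ θ K c : ℝ} {μ μ' : Measure (ℝ × ℝ)} (D : LD A V ρ₀ Θ θ μ μ')

theorem LD.A4_h (h : Par A V Θ θ K c) : Measurable D.h :=
  (LipschitzWith.of_dist_le' (K := 1 / θ) fun x y => by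
    rw [Real.dist_eq, Real.dist_eq, one_div_mul_eq_div]; exact D.h_lip x y).continuous.measurable

theorem LD.A4_T (u v : ℝ) : D.T u - D.T v ≤ u - v + 4 * Θ := by
  have h1 := abs_le.1 (D.T_near u)
  have h2 := abs_le.1 (D.T_near v)
  linarith [h1.2, h2.1]

theorem LD.A4_band (h : Par A V Θ θ K c) (t : ℝ) {k : ℝ} (hk : 1 ≤ k) :
    ∫⁻ w in {w : ℂ | 0 ≤ w.re ∧ w.im ∈ Icc t (t + 2 * Θ) ∧ k ≤ D.kap K w ∧ D.kap K w ≤ 2 * k},
      ENNReal.ofReal ((1 / (θ * D.kap K w)) ^ 2) ≤ ENNReal.ofReal (2 * A * V) := by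
  have hθ := h.θ_pos
  have hA := h.A_ge
  have hV := h.V_ge
  have hY : MeasurableSet {s | s ∈ Icc t (t + 2 * Θ) ∧ D.h s ≤ 2 * k} :=
    measurableSet_Icc.inter (measurableSet_le (D.A4_h h) measurable_const)
  have hg : Measurable fun s => θ * (k - max (D.h s) K) :=
    (measurable_const.sub ((D.A4_h h).max measurable_const)).const_mul θ
  refine (setLIntegral_mono (g := fun _ => ENNReal.ofReal ((1 / (θ * k)) ^ 2)) measurable_const
    fun w hw => ENNReal.ofReal_le_ofReal ?_).trans ?_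
  · have k1 := hw.2.2.1
    have k2 : 0 < D.kap K w := by linarith
    gcongr
  rw [setLIntegral_const]
  refine (mul_le_mul' le_rfl ((measure_mono fun w hw => ?_).trans ((A4_area hY hg (k * θ)).le.trans
    (mul_le_mul' le_rfl (D.cnt t (2 * k) (by linarith)))))).trans (le_of_eq ?_)
  · obtain ⟨k0, k1, k2, k3⟩ := hw
    have e : θ * D.kap K w = θ * max (D.h w.im) K + w.re := by
      unfold LD.kap
      field_simp
    have k4 : θ * k ≤ θ * D.kap K w := by gcongr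
    have k5 : θ * D.kap K w ≤ θ * (2 * k) := by gcongr
    refine ⟨⟨k1, ?_⟩, by linarith, by linarith⟩
    have k6 : D.h w.im ≤ D.kap K w :=
      (le_max_left _ K).trans (le_add_of_nonneg_right (by positivity))
    exact k6.trans k3
  · rw [← ENNReal.ofReal_mul (by positivity), ← ENNReal.ofReal_mul (by positivity)]
    refine congrArg _ ?_
    field_simp

theorem LD.kap_band (h : Par A V Θ θ K c) (t : ℝ) {k W : ℝ} (hk : 1 ≤ k) (hW : 0 ≤ W) :
    ∫⁻ w in {w : ℂ | 0 ≤ w.re ∧ w.im ∈ Icc t (t + 2 * Θ) ∧ k ≤ D.kap K w ∧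
      D.kap K w ≤ k * Real.exp W}, ENNReal.ofReal ((1 / (θ * D.kap K w)) ^ 2) ≤
      ENNReal.ofReal (2 * A * V * (2 * W + 1)) := by
  have hA := h.A_ge
  have hV := h.V_ge
  refine (lintegral_mono_set (t := ⋃ i : Fin (⌊2 * W⌋₊ + 1), {w : ℂ | 0 ≤ w.re ∧
    w.im ∈ Icc t (t + 2 * Θ) ∧ 2 ^ i.1 * k ≤ D.kap K w ∧ D.kap K w ≤ 2 * (2 ^ i.1 * k)})
    fun w hw => ?_).trans ((lintegral_iUnion_le _ _).trans ?_)
  · obtain ⟨i, h1, h2⟩ := A4_dy (by linarith) hw.2.2.1
    refine mem_iUnion.2 ⟨⟨i, Nat.lt_succ_of_le (Nat.le_floor ?_)⟩, hw.1, hw.2.1, h1, h2⟩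
    have h3 : (2 : ℝ) ^ i ≤ Real.exp W :=
      le_of_mul_le_mul_right ((h1.trans hw.2.2.2).trans_eq (mul_comm _ _)) (by linarith)
    have h4 := Real.log_le_log (by positivity) h3
    rw [Real.log_pow, Real.log_exp] at h4
    nlinarith [Real.log_two_gt_d9, (Nat.cast_nonneg i : (0 : ℝ) ≤ i)]
  · rw [tsum_fintype]
    refine (Finset.sum_le_card_nsmul _ _ _ fun i _ => D.A4_band h t
      (one_le_mul_of_one_le_of_one_le (one_le_pow₀ one_le_two) hk)).trans ?_
    rw [Finset.card_univ, Fintype.card_fin, nsmul_eq_mul, ← ENNReal.ofReal_natCast,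
      ← ENNReal.ofReal_mul (Nat.cast_nonneg _), mul_comm]
    refine ENNReal.ofReal_le_ofReal (mul_le_mul_of_nonneg_left ?_ (by positivity))
    push_cast
    linarith [Nat.floor_le (by positivity : 0 ≤ 2 * W)]

theorem LD.A4_kap (h : Par A V Θ θ K c) {w : ℂ} (hw : 0 ≤ w.re) :
    max (D.h w.im) K ≤ D.kap K w ∧ w.re + K * θ ≤ D.kap K w * θ := by
  have hθ := h.θ_pos
  refine ⟨le_add_of_nonneg_right (by positivity), ?_⟩
  have e : D.kap K w * θ = max (D.h w.im) K * θ + w.re := by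
    unfold LD.kap
    field_simp
  have k : K * θ ≤ max (D.h w.im) K * θ := mul_le_mul_of_nonneg_right (le_max_right _ _) hθ.le
  linarith

theorem LD.e₂_int (h : Par A V Θ θ K c) (t : ℝ) :
    ∫⁻ w in {w : ℂ | 0 ≤ w.re ∧ w.im ∈ Icc t (t + 2 * Θ)}, ENNReal.ofReal (D.e₂ K w ^ 2) ≤
      ENNReal.ofReal (1000 * A * Θ ^ 2) := by
  have hA := h.A_ge
  have hV := h.V_ge
  have hb := D.kap_band h t (le_max_left 1 (Real.exp (D.vz - V) / 2)) (by linarith : 0 ≤ V + 2)
  refine (A4_supp (G := fun w => ENNReal.ofReal ((8 * Θ / V) ^ 2) *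
    ENNReal.ofReal ((1 / (θ * D.kap K w)) ^ 2)) (A4_tile t Θ) fun w hw => ?_).trans
    (((lintegral_const_mul' _ _ ENNReal.ofReal_ne_top).trans_le (mul_le_mul' le_rfl hb)).trans ?_)
  · unfold LD.e₂
    split_ifs with k
    · refine Or.inr ⟨⟨hw.1, hw.2, max_le ?_ k.1, k.2.trans ?_⟩, le_of_eq ?_⟩
      · linarith [(D.A4_kap h hw.1).1, le_max_right (D.h w.im) K, h.K_ge]
      · refine le_trans ?_ (mul_le_mul_of_nonneg_right (le_max_right _ _) (Real.exp_pos _).le)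
        have e : Real.exp (D.vz - V) / 2 * Real.exp (V + 2) =
            Real.exp D.vz * (Real.exp 1 * Real.exp 1) / 2 := by
          rw [div_mul_eq_mul_div, ← Real.exp_add, ← Real.exp_add, ← Real.exp_add]
          refine congrArg (fun x => Real.exp x / 2) ?_
          ring
        have k1 : (2 : ℝ) ≤ Real.exp 1 := by linarith [Real.add_one_le_exp (1 : ℝ)]
        have k2 : (4 : ℝ) ≤ Real.exp 1 * Real.exp 1 := by nlinarith
        rw [e]
        nlinarith [Real.exp_pos D.vz]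
      · rw [← ENNReal.ofReal_mul (by positivity), ← mul_pow, div_mul_div_comm, mul_one, mul_assoc V]
    · exact Or.inl (by simp)
  · rw [← ENNReal.ofReal_mul (by positivity)]
    refine ENNReal.ofReal_le_ofReal ?_
    have e : (8 * Θ / V) ^ 2 * (2 * A * V * (2 * (V + 2) + 1)) =
        128 * A * Θ ^ 2 * ((2 * V + 5) / V) := by
      field_simp
      ring
    have k : (2 * V + 5) / V ≤ 7 := by
      rw [div_le_iff₀ (by linarith)]
      linarith
    have k0 : 0 ≤ A * Θ ^ 2 := by positivity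
    rw [e]
    nlinarith

theorem LD.A4_slice (h : Par A V Θ θ K c) (t : ℝ) {x δ : ℝ} (hx : 0 < x) (hxδ : x ≤ δ)
    (h1 : θ ≤ δ) (h2 : δ ≤ 8 * Θ) :
    ∫⁻ s in Icc t (t + 2 * Θ),
      ENNReal.ofReal ((1 + 4 * (D.T (s + 2 * δ) - D.T (s - 2 * δ)) / δ) ^ 2) ≤
      ENNReal.ofReal (4 * Θ + 4864 * A * Θ ^ 2 * (4 / (Real.exp D.vz * θ)) ^ (1 / A) *
        x ^ (1 / A - 1)) := by
  have hθ := h.θ_pos
  have hA := h.A_ge
  have hδ : 0 < δ := by linarith
  have hΘ : 0 < Θ := by linarith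
  have hX : 0 < Real.exp D.vz * θ := by positivity
  obtain ⟨M, hM⟩ : ∃ M, M = A * Θ * (4 * δ / (Real.exp D.vz * θ)) ^ (1 / A) := ⟨_, rfl⟩
  have hM0 : 0 ≤ M := by rw [hM]; positivity
  refine (A4_inner D.T_mono (d := 2 * δ) (p := 2) (q := 32 * M / δ ^ 2) (by positivity)
    (by linarith) (by positivity) (by positivity) fun s => ?_).trans (ENNReal.ofReal_le_ofReal ?_)
  · have k1 := D.frac (s - 2 * δ) (4 * δ) (by linarith) (by linarith)
    rw [← hM, show s - 2 * δ + 4 * δ = s + 2 * δ by ring] at k1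
    have k2 : 0 ≤ D.T (s + 2 * δ) - D.T (s - 2 * δ) := sub_nonneg.2 (D.T_mono (by linarith))
    generalize D.T (s + 2 * δ) - D.T (s - 2 * δ) = ω at *
    have k3 : 32 * ω / δ ^ 2 * ω ≤ 32 * M / δ ^ 2 * ω := by gcongr
    have k4 : 32 * ω / δ ^ 2 * ω = 2 * (4 * ω / δ) ^ 2 := by
      field_simp
      ring
    nlinarith [sq_nonneg (1 - 4 * ω / δ)]
  · have k1 : D.T (t + 2 * Θ + 2 * δ) - D.T (t - 2 * δ) ≤ 38 * Θ := by
      linarith [D.A4_T (t + 2 * Θ + 2 * δ) (t - 2 * δ)]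
    have k2 : δ ^ (1 / A - 1) ≤ x ^ (1 / A - 1) :=
      Real.rpow_le_rpow_of_nonpos hx hxδ (sub_nonpos.2 ((div_le_one (by linarith)).2 hA))
    have k3 : 32 * M / δ ^ 2 * (2 * (2 * δ) * (38 * Θ)) = 4864 * A * Θ ^ 2 *
        (4 / (Real.exp D.vz * θ)) ^ (1 / A) * δ ^ (1 / A - 1) := by
      rw [hM, Real.rpow_sub_one hδ.ne', ← div_mul_eq_mul_div 4 _ δ,
        Real.mul_rpow (by positivity) hδ.le]
      field_simp
      ring
    refine add_le_add (le_of_eq (by ring)) (le_trans ?_ (k3.le.trans ?_))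
    · gcongr
    · gcongr

theorem LD.e₃_int (h : Par A V Θ θ K c) (t : ℝ) :
    ∫⁻ w in {w : ℂ | 0 ≤ w.re ∧ w.im ∈ Icc t (t + 2 * Θ)}, ENNReal.ofReal (D.e₃ K w ^ 2) ≤
      ENNReal.ofReal (100000 * A ^ 2 * Θ ^ 2) := by
  have hθ := h.θ_pos
  have hA := h.A_ge
  have hK := h.K_ge
  have hΘ : 0 < Θ := by linarith [h.a_ge]
  have hT := D.T_mono.measurable
  have hKθ : θ ≤ K * θ := le_mul_of_one_le_left hθ.le (by linarith)
  obtain ⟨X, hX⟩ : ∃ X, X = Real.exp D.vz * θ := ⟨_, rfl⟩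
  have hX0 : 0 < X := by rw [hX]; positivity
  have hX1 : X ≤ 4 * Θ := by rw [hX, ← le_div_iff₀ hθ]; exact D.vz_exp
  have hr : -1 < 1 / A - 1 := by linarith [one_div_pos.2 (by linarith : 0 < A)]
  obtain ⟨C, hC⟩ : ∃ C, C = 4864 * A * Θ ^ 2 * (4 / X) ^ (1 / A) := ⟨_, rfl⟩
  have hC0 : 0 ≤ C := by rw [hC]; positivity
  have hf : Measurable fun p : ℝ × ℝ => ENNReal.ofReal ((1 + 4 * (D.T (p.2 + 2 * (p.1 + K * θ)) -
      D.T (p.2 - 2 * (p.1 + K * θ))) / (p.1 + K * θ)) ^ 2) := by fun_prop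
  have hi : IntervalIntegrable (fun x : ℝ => C * x ^ (1 / A - 1)) volume 0 (2 * X) :=
    (intervalIntegral.intervalIntegrable_rpow' hr).const_mul C
  refine (A4_supp (A4_tile t Θ) fun w hw => ?_).trans ((A4_rect (P := Icc 0 (2 * X - K * θ))
    (Q := Icc t (t + 2 * Θ)) hf).trans_le ?_)
  · unfold LD.e₃
    split_ifs with k
    · refine Or.inr ⟨⟨⟨hw.1, ?_⟩, hw.2⟩, le_rfl⟩
      have k1 := mul_le_mul_of_nonneg_right k hθ.le
      linarith [(D.A4_kap h hw.1).2]
    · exact Or.inl (by simp)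
  rw [← restrict_Ioc_eq_restrict_Icc]
  refine (setLIntegral_mono' (g := fun x => ENNReal.ofReal (4 * Θ + C * x ^ (1 / A - 1)))
    measurableSet_Ioc fun x hx => ?_).trans ((lintegral_mono_set (Ioc_subset_Ioc_right
      (by linarith : 2 * X - K * θ ≤ 2 * X))).trans ?_)
  · rw [hC, hX]
    exact D.A4_slice h t (δ := x + K * θ) hx.1 (by linarith) (by linarith [hx.1])
      (by linarith [hx.2])
  have hn : 0 ≤ᵐ[volume.restrict (Ioc 0 (2 * X))] fun x : ℝ => 4 * Θ + C * x ^ (1 / A - 1) :=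
    (ae_restrict_mem measurableSet_Ioc).mono fun x hx =>
      add_nonneg (by positivity) (mul_nonneg hC0 (Real.rpow_nonneg hx.1.le _))
  have hj : IntervalIntegrable (fun x : ℝ => 4 * Θ + C * x ^ (1 / A - 1)) volume 0 (2 * X) :=
    intervalIntegrable_const.add hi
  rw [← ofReal_integral_eq_lintegral_ofReal hj.1 hn,
    ← intervalIntegral.integral_of_le (by positivity),
    intervalIntegral.integral_add intervalIntegrable_const hi, intervalIntegral.integral_const,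
    intervalIntegral.integral_const_mul, integral_rpow (Or.inl hr), sub_add_cancel,
    Real.zero_rpow (by positivity), smul_eq_mul]
  refine ENNReal.ofReal_le_ofReal ?_
  have k1 : (4 / X) ^ (1 / A) * (2 * X) ^ (1 / A) ≤ 8 := by
    rw [← Real.mul_rpow (by positivity) (by positivity), show 4 / X * (2 * X) = 8 by
      field_simp; norm_num]
    exact (Real.rpow_le_rpow_of_exponent_le (by norm_num)
      ((div_le_one (by linarith)).2 hA)).trans_eq (Real.rpow_one 8)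
  have k2 : C * (((2 * X) ^ (1 / A) - 0) / (1 / A)) =
      4864 * (A ^ 2 * Θ ^ 2) * ((4 / X) ^ (1 / A) * (2 * X) ^ (1 / A)) := by
    rw [hC]
    field_simp
    ring
  have k3 : Θ ^ 2 ≤ A ^ 2 * Θ ^ 2 := le_mul_of_one_le_left (by positivity) (one_le_pow₀ hA)
  have k4 : 0 ≤ A ^ 2 * Θ ^ 2 := by positivity
  rw [k2]
  nlinarith

theorem LD.A4_inv (h : Par A V Θ θ K c) (t : ℝ) :
    ∫⁻ s in Icc t (t + 2 * Θ), ENNReal.ofReal ((1 / max (D.h s) K) ^ 2) ≤
      ENNReal.ofReal (4 * A * V * θ / K) := by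
  have hθ := h.θ_pos
  have hA := h.A_ge
  have hV := h.V_ge
  have hK : 1 ≤ K := by linarith [h.K_ge]
  refine (lintegral_mono_set (t := ⋃ i : ℕ, {s | (s ∈ Icc t (t + 2 * Θ) ∧
    D.h s ≤ 2 * (2 ^ i * K)) ∧ 2 ^ i * K ≤ max (D.h s) K}) fun s hs => ?_).trans
    ((lintegral_iUnion_le _ _).trans ?_)
  · obtain ⟨i, h1, h2⟩ := A4_dy (by linarith) (le_max_right (D.h s) K)
    exact mem_iUnion.2 ⟨i, ⟨hs, (le_max_left _ _).trans h2⟩, h1⟩
  refine (ENNReal.tsum_le_tsum (g := fun i : ℕ => ENNReal.ofReal (4 * A * V * θ / K / 2 / 2 ^ i))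
    fun i => ?_).trans ?_
  · have h1 : 1 ≤ 2 ^ i * K := one_le_mul_of_one_le_of_one_le (one_le_pow₀ one_le_two) hK
    refine (setLIntegral_mono (g := fun _ => ENNReal.ofReal ((1 / (2 ^ i * K)) ^ 2))
      measurable_const fun s hs => ENNReal.ofReal_le_ofReal ?_).trans ?_
    · have k1 := hs.2
      gcongr
    rw [setLIntegral_const]
    refine (mul_le_mul' le_rfl ((measure_mono fun s hs => hs.1).trans
      (D.cnt t (2 * (2 ^ i * K)) (by linarith)))).trans (le_of_eq ?_)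
    rw [← ENNReal.ofReal_mul (by positivity)]
    refine congrArg _ ?_
    field_simp
    ring
  · rw [← ENNReal.ofReal_tsum_of_nonneg (fun i => by positivity) (summable_geometric_two' _),
      tsum_geometric_two']

theorem LD.A4_term (h : Par A V Θ θ K c) (t : ℝ) {δ : ℝ} (h1 : 0 < δ) (h2 : δ ≤ 8 * Θ) :
    ∫⁻ s in Icc t (t + 2 * Θ),
      ENNReal.ofReal (3 * (4 * (D.T (s + 4 * δ) - D.T (s - 4 * δ)) / δ) ^ 2) ≤
      ENNReal.ofReal (2000000 * Θ ^ 2 / δ) := by
  have hΘ : 0 < Θ := by linarith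
  refine (A4_inner D.T_mono (d := 4 * δ) (p := 0) (q := 48 * (68 * Θ) / δ ^ 2) (by positivity)
    (by linarith) le_rfl (by positivity) fun s => ?_).trans (ENNReal.ofReal_le_ofReal ?_)
  · have k1 : D.T (s + 4 * δ) - D.T (s - 4 * δ) ≤ 68 * Θ := by
      linarith [D.A4_T (s + 4 * δ) (s - 4 * δ)]
    have k2 : 0 ≤ D.T (s + 4 * δ) - D.T (s - 4 * δ) := sub_nonneg.2 (D.T_mono (by linarith))
    generalize D.T (s + 4 * δ) - D.T (s - 4 * δ) = ω at *
    have k4 : 3 * (4 * ω / δ) ^ 2 = 48 * ω / δ ^ 2 * ω := by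
      field_simp
      ring
    rw [k4, zero_add]
    gcongr
  · have k1 : D.T (t + 2 * Θ + 4 * δ) - D.T (t - 4 * δ) ≤ 70 * Θ := by
      linarith [D.A4_T (t + 2 * Θ + 4 * δ) (t - 4 * δ)]
    have k3 : 48 * (68 * Θ) / δ ^ 2 * (2 * (4 * δ) * (70 * Θ)) = 1827840 * Θ ^ 2 / δ := by
      field_simp
      ring
    rw [zero_mul, zero_add]
    refine le_trans ?_ (k3.le.trans ?_)
    · gcongr
    · gcongr
      norm_num

theorem LD.sup_err (h : Par A V Θ θ K c) : ∃ (E : ℝ → ℝ) (B : ℝ), Measurable E ∧ (∀ t, 0 ≤ E t) ∧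
    (∀ t, E t ≤ B) ∧ (∀ w ∈ HP, D.err K c w ≤ E w.im) ∧
    ∀ t, ∫⁻ s in Icc t (t + 2 * Θ), ENNReal.ofReal (E s ^ 2) ≤
      ENNReal.ofReal ((6 * θ / Θ + 10 ^ 9 * A / K) * Θ ^ 2 / θ) := by
  have hθ := h.θ_pos
  have hA := h.A_ge
  have hV := h.V_ge
  have hK : 0 < K := by linarith [h.K_ge]
  have hΘ : 0 < Θ := by linarith [h.a_ge]
  have hT := D.T_mono.measurable
  have hh := D.A4_h h
  have hm : ∀ s, 0 < max (D.h s) K := fun s => hK.trans_le (le_max_right _ _)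
  obtain ⟨N, hN⟩ := pow_unbounded_of_one_lt (8 * Θ / (K * θ)) (one_lt_two (α := ℝ))
  obtain ⟨I, hI⟩ : ∃ I : Finset ℕ, I = (Finset.range N).filter
    fun i => 2 ^ i * (K * θ) ≤ 8 * Θ := ⟨_, rfl⟩
  obtain ⟨a, ha⟩ : ∃ a : ℕ → ℝ → ℝ, a = fun i s => 4 * (D.T (s + 4 * (2 ^ i * (K * θ))) -
    D.T (s - 4 * (2 ^ i * (K * θ)))) / (2 ^ i * (K * θ)) := ⟨_, rfl⟩
  have ha0 : ∀ i s, 0 ≤ a i s := fun i s => by
    have k : 0 < 2 ^ i * (K * θ) := by positivity
    rw [ha]
    exact div_nonneg (mul_nonneg (by norm_num) (sub_nonneg.2 (D.T_mono (by linarith)))) k.le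
  have ham : ∀ i, Measurable (a i) := fun i => by rw [ha]; fun_prop
  refine ⟨fun s => 12 * Θ / (V * θ) * (1 / max (D.h s) K) + 1 + √(∑ i ∈ I, a i s ^ 2),
    12 * Θ / (V * θ) * (1 / K) + 1 + √(∑ i ∈ I, (4 * (8 * (2 ^ i * (K * θ)) + 4 * Θ) /
      (2 ^ i * (K * θ))) ^ 2), by fun_prop, fun s => by have := hm s; positivity, fun s => ?_,
    fun w hw => ?_, fun t => ?_⟩
  · refine add_le_add (add_le_add ?_ le_rfl) (Real.sqrt_le_sqrt (Finset.sum_le_sum fun i _ =>
      pow_le_pow_left₀ (ha0 i s) ?_ 2))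
    · gcongr
      exact le_max_right _ _
    · rw [ha]
      have k := D.A4_T (s + 4 * (2 ^ i * (K * θ))) (s - 4 * (2 ^ i * (K * θ)))
      refine div_le_div_of_nonneg_right ?_ (by positivity)
      linarith
  · have hw0 : 0 ≤ w.re := hw
    obtain ⟨k1, k2⟩ := D.A4_kap h hw0
    have k0 := hm w.im
    have k3 : Θ / (V * θ * D.kap K w) ≤ Θ / (V * θ) * (1 / max (D.h w.im) K) := by
      rw [div_mul_div_comm, mul_one]
      gcongr
    have k4 : 0 ≤ Θ / (V * θ * D.kap K w) := by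
      have := k0.trans_le k1
      positivity
    have hc : c ≤ 1 := h.c_le.trans ((div_le_one (by linarith)).2 (by linarith))
    have b1 : D.e₁ K c w ≤ 4 * (Θ / (V * θ * D.kap K w)) := by
      unfold LD.e₁
      split_ifs
      · rw [mul_div_assoc]
        exact mul_le_mul_of_nonneg_right (by linarith) k4
      · positivity
    have b2 : D.e₂ K w ≤ 8 * (Θ / (V * θ * D.kap K w)) := by
      unfold LD.e₂
      split_ifs
      · rw [mul_div_assoc]
      · positivity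
    have b3 : D.e₃ K w ≤ 1 + √(∑ i ∈ I, a i w.im ^ 2) := by
      unfold LD.e₃
      split_ifs with k
      · obtain ⟨i, h1, h2⟩ := A4_dy (by positivity : 0 < K * θ) (le_add_of_nonneg_left hw0)
        have h3 : 2 ^ i * (K * θ) ≤ 8 * Θ := by
          have k5 := mul_le_mul_of_nonneg_right k hθ.le
          have k6 := (le_div_iff₀ hθ).1 D.vz_exp
          linarith
        have h4 : i ∈ I := by
          rw [hI, Finset.mem_filter, Finset.mem_range]
          exact ⟨(pow_lt_pow_iff_right₀ one_lt_two).1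
            (((le_div_iff₀ (by positivity)).2 h3).trans_lt hN), h3⟩
        refine add_le_add le_rfl (le_trans ?_ (Real.le_sqrt_of_sq_le
          (Finset.single_le_sum (f := fun i => a i w.im ^ 2) (fun _ _ => sq_nonneg _) h4)))
        have h6 : 0 < 2 ^ i * (K * θ) := by positivity
        rw [ha]
        refine div_le_div₀ (mul_nonneg (by norm_num) (sub_nonneg.2 (D.T_mono (by linarith))))
          ?_ h6 h1
        exact mul_le_mul_of_nonneg_left (sub_le_sub (D.T_mono (by linarith))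
          (D.T_mono (by linarith))) (by norm_num)
      · positivity
    unfold LD.err
    rw [indicator_of_mem hw]
    beta_reduce
    rw [mul_div_assoc 12, mul_assoc]
    linarith
  · calc _ ≤ ∫⁻ s in Icc t (t + 2 * Θ), (ENNReal.ofReal 3 +
          ENNReal.ofReal (3 * (12 * Θ / (V * θ)) ^ 2) *
            ENNReal.ofReal ((1 / max (D.h s) K) ^ 2) + ∑ i ∈ I, ENNReal.ofReal (3 * a i s ^ 2)) := by
          refine lintegral_mono fun s => ?_
          beta_reduce
          rw [← ENNReal.ofReal_mul (by positivity), ← ENNReal.ofReal_sum_of_nonneg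
            (fun _ _ => by positivity), ← ENNReal.ofReal_add (by positivity) (by positivity),
            ← ENNReal.ofReal_add (by positivity) (by positivity), ← Finset.mul_sum, mul_assoc,
            ← mul_pow]
          refine ENNReal.ofReal_le_ofReal ?_
          have k := Real.sq_sqrt (show 0 ≤ ∑ i ∈ I, a i s ^ 2 by positivity)
          generalize √(∑ i ∈ I, a i s ^ 2) = y at *
          generalize 12 * Θ / (V * θ) * (1 / max (D.h s) K) = x
          nlinarith [sq_nonneg (x - 1), sq_nonneg (x - y), sq_nonneg (y - 1)]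
      _ ≤ ENNReal.ofReal 3 * ENNReal.ofReal (t + 2 * Θ - t) +
          ENNReal.ofReal (3 * (12 * Θ / (V * θ)) ^ 2) * ENNReal.ofReal (4 * A * V * θ / K) +
          ∑ i ∈ I, ENNReal.ofReal (2000000 * Θ ^ 2 / (2 ^ i * (K * θ))) := by
          rw [lintegral_add_left (by fun_prop), lintegral_add_left measurable_const,
            setLIntegral_const, Real.volume_Icc, lintegral_const_mul' _ _ ENNReal.ofReal_ne_top,
            lintegral_finsetSum _ fun i _ => by have := ham i; fun_prop]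
          refine add_le_add (add_le_add le_rfl (mul_le_mul' le_rfl (D.A4_inv h t)))
            (Finset.sum_le_sum fun i hi => ?_)
          rw [hI] at hi
          rw [ha]
          exact D.A4_term h t (by positivity) (Finset.mem_filter.1 hi).2
      _ ≤ _ := by
          rw [add_sub_cancel_left, ← ENNReal.ofReal_mul (by positivity),
            ← ENNReal.ofReal_mul (by positivity), ← ENNReal.ofReal_sum_of_nonneg
            (fun _ _ => by positivity), ← ENNReal.ofReal_add (by positivity) (by positivity),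
            ← ENNReal.ofReal_add (by positivity) (by positivity)]
          refine ENNReal.ofReal_le_ofReal ?_
          obtain ⟨Z, hZ⟩ : ∃ Z, Z = Θ ^ 2 / (K * θ) := ⟨_, rfl⟩
          have hZ0 : 0 ≤ Z := by rw [hZ]; positivity
          have e1 : (6 * θ / Θ + 10 ^ 9 * A / K) * Θ ^ 2 / θ = 6 * Θ + 10 ^ 9 * (A * Z) := by
            rw [hZ]
            field_simp
          have e2 : 3 * (12 * Θ / (V * θ)) ^ 2 * (4 * A * V * θ / K) = 1728 * (A * Z / V) := by
            rw [hZ]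
            field_simp
            ring
          have e3 : ∑ i ∈ I, 2000000 * Θ ^ 2 / (2 ^ i * (K * θ)) =
              2000000 * Z * ∑ i ∈ I, (1 / 2 : ℝ) ^ i := by
            rw [Finset.mul_sum, hZ]
            refine Finset.sum_congr rfl fun i _ => ?_
            rw [one_div_pow]
            field_simp
          have e4 : ∑ i ∈ I, (1 / 2 : ℝ) ^ i ≤ 2 := by
            refine le_trans ?_ (sum_geometric_two_le N)
            rw [hI]
            exact Finset.sum_le_sum_of_subset_of_nonneg (Finset.filter_subset _ _)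
              fun _ _ _ => by positivity
          have e5 : A * Z / V ≤ A * Z := div_le_self (by positivity) hV
          have e6 : Z ≤ A * Z := le_mul_of_one_le_left hZ0 hA
          have e7 := mul_le_mul_of_nonneg_left e4 hZ0
          rw [e1, e2, e3]
          nlinarith

end Pool.Agent.Work.MP_042f46_an.Fu
end
end

-- merged part: Pool.Agent.Work.MP_042f46_an.F.A5
section
/-!
# The invariant and the energy after one step

`s₀ = 4 θ`, `L' z = L (Psi z) (1 + cv2 s₀ err z)`, `S' t = exp 2 S t (1 + cv1 s₀ E t)` with `E` from `sup_err`.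
`step_inv`: slow: `L ∘ Psi` has rate `1 / (16 θ)` (`Psi_lip`), `1 + cv2` has rate `3 / (4 θ)`.  Two-point bound: `TP` with `r = 2 θ`; for `‖z - z'‖ ≤ 2 θ`, `z ≠ z'`, `cv2_ge` with `a = ‖Psi z - Psi z' - (z - z')‖ / ‖z - z'‖` and `Psi_loc`.  `L (Psi z) ≤ S (im (Psi z)) ≤ exp 2 S (im z)`.  `Fl`: `(1 + x) ^ 2 ≤ 2 + 2 x ^ 2`, `cv1_sq` with `W = S ^ 2`, `tile1` with `η = 2 Θ`: `Fl θ S' ≤ (2 exp 4 θ / Θ + 2 exp 16 β) Fl Θ S`, `β = 6 θ / Θ + 10 ^ 9 A / K`; `exp 16 < 10 ^ 7`.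
`e₁_int`: `e₁ w ≠ 0` forces `re w ≤ 8 Θ`.  Level `n = ⌊Lam w / V⌋₊ ≤ dep v₁ (4 a) / V`; there `re (Psi w) ∈ [n c Θ, (n + 1) c Θ + 8 Θ]`, so `L (Psi w) ^ 2 ≤ exp 26 L u ^ 2` for all `u` in the box `[n c Θ, (n + 1) c Θ] × [im w - 2 Θ, im w]` (area `2 c Θ ^ 2`), and `kap w ∈ [k, k exp (V + 2)]`, `k = exp (v₁ + n V) / 2 ≥ 1`: `kap_band` gives `∫ e₁ ^ 2 ≤ 224 c ^ 2 A Θ ^ 2` for level `n` and a tile; Tonelli and summation over `n`.
`step_en`: `(1 + x) ^ 2 ≤ 1 + η + x ^ 2 (1 + 1 / η)`, `η = exp (-re z / Θ)`.  `∫ re > 4 Θ, L (Psi z) ^ 2 = ∫ re > Y, L ^ 2` (`Psi_far`, translation); `∫ re ≤ 4 Θ` and the term with `η` are at most `5 exp 4 Fl`.  `cv2_sq` with `W z = L (Psi z) ^ 2 (1 + exp (re z / Θ))` (rate `1 / (8 θ) + 1 / Θ ≤ 1 / s₀`), `err ^ 2 ≤ 3 (e₁ ^ 2 + e₂ ^ 2 + e₃ ^ 2)`, all supported in `re ≤ 8 Θ`; `e₁_int`, and `tile1` with `g t = ∫ y, e₂ ^ 2` (`e₂_int`, `e₃_int`).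
-/

open Set Metric Topology Filter MeasureTheory
open scoped ENNReal NNReal

noncomputable section
namespace Pool.Agent.Work.MP_042f46_an.Fu

open Pool.Agent.Work.MP_042f46_an.Ty

theorem A5_HP : MeasurableSet HP := measurableSet_le measurable_const Complex.measurable_re

theorem A5_fub {f : ℂ → ℝ≥0∞} (hf : Measurable f) : ∫⁻ z, f z = ∫⁻ t, ∫⁻ y, f (pt y t) := by
  rw [(Complex.volume_preserving_equiv_real_prod.symm _).lintegral_map_equiv f]
  exact lintegral_prod_symm' (fun p : ℝ × ℝ => f (Complex.measurableEquivRealProd.symm p))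
    (hf.comp (MeasurableEquiv.measurable _))

theorem A5_dec {Θ : ℝ} (hΘ : 0 < Θ) {S : ℝ → ℝ} (hS : Measurable S) :
    ∫⁻ z in {z : ℂ | 0 < z.re}, ENNReal.ofReal (S z.im ^ 2 * Real.exp (-Θ⁻¹ * z.re)) = Fl Θ S := by
  have hm : MeasurableSet {z : ℂ | 0 < z.re} :=
    measurableSet_lt measurable_const Complex.measurable_re
  have h1 : ∫⁻ y in Ioi (0 : ℝ), ENNReal.ofReal (Real.exp (-Θ⁻¹ * y)) = ENNReal.ofReal Θ := by
    have ha : -Θ⁻¹ < 0 := neg_neg_of_pos (inv_pos.2 hΘ)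
    rw [← ofReal_integral_eq_lintegral_ofReal (integrableOn_exp_mul_Ioi ha 0)
      (ae_of_all _ fun x => (Real.exp_pos _).le), integral_exp_mul_Ioi ha 0, mul_zero,
      Real.exp_zero, neg_div_neg_eq, one_div, inv_inv]
  rw [← lintegral_indicator hm, A5_fub (Measurable.indicator (by fun_prop) hm), Fl,
    ← lintegral_const_mul _ (by fun_prop)]
  refine lintegral_congr fun t => ?_
  rw [← h1, ← lintegral_mul_const _ (by fun_prop), ← lintegral_indicator measurableSet_Ioi]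
  refine lintegral_congr fun y => ?_
  by_cases hy : 0 < y
  · rw [indicator_of_mem (show pt y t ∈ {z : ℂ | 0 < z.re} from hy),
      indicator_of_mem (show y ∈ Ioi 0 from hy), ENNReal.ofReal_mul (sq_nonneg _), mul_comm]
    rfl
  · rw [indicator_of_notMem (show pt y t ∉ {z : ℂ | 0 < z.re} from hy),
      indicator_of_notMem (show y ∉ Ioi 0 from hy)]

theorem A5_tile {Θ : ℝ} (hΘ : 0 < Θ) {F L : ℂ → ℝ} {S : ℝ → ℝ} (hF : Inv Θ F L S)
    {G : ℂ → ℝ≥0∞} (hG : Measurable G) {β : ℝ} (hβ : 0 ≤ β)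
    (h : ∀ t, ∫⁻ w in {w : ℂ | 0 ≤ w.re ∧ w.im ∈ Icc t (t + 2 * Θ)}, G w ≤
      ENNReal.ofReal (β * Θ ^ 2)) :
    ∫⁻ w in HP, ENNReal.ofReal (S w.im ^ 2) * G w ≤
      ENNReal.ofReal (Real.exp 4 / 2 * β) * Fl Θ S := by
  have hS := hF.S_meas
  have hI : Measurable (HP.indicator G) := hG.indicator A5_HP
  have hp : Measurable fun q : ℝ × ℝ => pt q.2 q.1 :=
    Complex.measurableEquivRealProd.symm.measurable.comp measurable_swap
  have hg : Measurable fun t => ∫⁻ y, HP.indicator G (pt y t) :=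
    (hI.comp hp).lintegral_prod_right'
  have k := tile1 (η := 2 * Θ) (by positivity) le_rfl hS hF.S_nonneg hF.S_slow hg
    (β := ENNReal.ofReal (β * Θ ^ 2)) fun t => le_of_eq_of_le ?_ (h t)
  · refine le_of_eq_of_le ?_ (k.trans (le_of_eq ?_))
    · rw [← lintegral_indicator A5_HP, A5_fub (Measurable.indicator (by fun_prop) A5_HP)]
      refine lintegral_congr fun t => ?_
      rw [← lintegral_const_mul' _ _ ENNReal.ofReal_ne_top]
      refine lintegral_congr fun y => ?_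
      by_cases hy : pt y t ∈ HP
      · rw [indicator_of_mem hy, indicator_of_mem hy]
        rfl
      · rw [indicator_of_notMem hy, indicator_of_notMem hy, mul_zero]
    · rw [Fl, ← mul_assoc, ← ENNReal.ofReal_mul (by positivity),
        ← ENNReal.ofReal_mul (by positivity)]
      have e : Real.exp 4 / (2 * Θ) * (β * Θ ^ 2) = Real.exp 4 / 2 * β * Θ := by
        field_simp
      rw [e]
  · have hm : MeasurableSet {w : ℂ | 0 ≤ w.re ∧ w.im ∈ Icc t (t + 2 * Θ)} :=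
      A5_HP.inter (Complex.measurable_im measurableSet_Icc)
    rw [← lintegral_indicator hm, A5_fub (hG.indicator hm),
      ← lintegral_indicator measurableSet_Icc]
    refine lintegral_congr fun s => ?_
    by_cases hs : s ∈ Icc t (t + 2 * Θ)
    · rw [indicator_of_mem hs]
      refine lintegral_congr fun y => ?_
      by_cases hy : 0 ≤ y
      · rw [indicator_of_mem (show pt y s ∈ HP from hy), indicator_of_mem
          (show pt y s ∈ {w : ℂ | 0 ≤ w.re ∧ w.im ∈ Icc t (t + 2 * Θ)} from ⟨hy, hs⟩)]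
      · rw [indicator_of_notMem (show pt y s ∉ HP from hy), indicator_of_notMem
          (show pt y s ∉ {w : ℂ | 0 ≤ w.re ∧ w.im ∈ Icc t (t + 2 * Θ)} from fun k => hy k.1)]
    · rw [indicator_of_notMem hs]
      exact ((lintegral_congr fun y => indicator_of_notMem
        (show pt y s ∉ {w : ℂ | 0 ≤ w.re ∧ w.im ∈ Icc t (t + 2 * Θ)} from fun k => hs k.2) _).trans
          lintegral_zero).symm

theorem A5_box (a b c d : ℝ) : volume {u : ℂ | u.re ∈ Ioo a b ∧ u.im ∈ Icc c d} =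
    ENNReal.ofReal (b - a) * ENNReal.ofReal (d - c) := by
  have h := Complex.volume_preserving_equiv_real_prod.measure_preimage_equiv (Ioo a b ×ˢ Icc c d)
  rw [Measure.volume_eq_prod, Measure.prod_prod, Real.volume_Ioo, Real.volume_Icc] at h
  exact h

theorem A5_swap {f g e : ℂ → ℝ≥0∞} (hg : Measurable g) (he : Measurable e) {R : Set (ℂ × ℂ)}
    (hR : MeasurableSet R) {U : Set ℂ} (hU : MeasurableSet U) {β : ℝ≥0∞}
    (h1 : ∀ w, e w ≠ 0 → f w ≤ ∫⁻ u in {u | (w, u) ∈ R}, g u)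
    (h2 : ∀ u, ∫⁻ w in {w | (w, u) ∈ R}, e w ≤ β) (h3 : ∀ p ∈ R, p.2 ∈ U) :
    ∫⁻ w, f w * e w ≤ β * ∫⁻ u in U, g u := by
  calc ∫⁻ w, f w * e w ≤ ∫⁻ w, ∫⁻ u, R.indicator (fun p => e p.1 * g p.2) (w, u) := by
        refine lintegral_mono fun w => ?_
        by_cases hw : e w = 0
        · rw [hw, mul_zero]
          exact zero_le
        · have hm : MeasurableSet {u | (w, u) ∈ R} := measurable_prodMk_left hR
          calc f w * e w ≤ (∫⁻ u in {u | (w, u) ∈ R}, g u) * e w := mul_le_mul_left (h1 w hw) _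
            _ = ∫⁻ u in {u | (w, u) ∈ R}, e w * g u := by
              rw [lintegral_const_mul _ hg, mul_comm]
            _ = _ := by
              rw [← lintegral_indicator hm]
              rfl
    _ = ∫⁻ u, ∫⁻ w, R.indicator (fun p => e p.1 * g p.2) (w, u) :=
        lintegral_lintegral_swap (Measurable.indicator (f := fun p : ℂ × ℂ => e p.1 * g p.2)
          (by fun_prop) hR).aemeasurable
    _ ≤ ∫⁻ u, U.indicator (fun u => β * g u) u := by
        refine lintegral_mono fun u => ?_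
        have hm : MeasurableSet {w | (w, u) ∈ R} := measurable_prodMk_right hR
        by_cases hu : u ∈ U
        · rw [indicator_of_mem hu]
          calc _ = ∫⁻ w in {w | (w, u) ∈ R}, e w * g u := by
                rw [← lintegral_indicator hm]
                rfl
            _ = (∫⁻ w in {w | (w, u) ∈ R}, e w) * g u := lintegral_mul_const _ he
            _ ≤ β * g u := mul_le_mul_left (h2 u) _
        · exact ((lintegral_congr fun w => indicator_of_notMem
            (fun k => hu (h3 (w, u) k)) _).trans lintegral_zero).le.trans zero_le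
    _ = β * ∫⁻ u in U, g u := by rw [lintegral_indicator hU, lintegral_const_mul _ hg]

theorem A5_mm {a b : ℝ} (ha : 0 ≤ a) (x : ℝ≥0∞) :
    ENNReal.ofReal a * (ENNReal.ofReal b * x) = ENNReal.ofReal (a * b) * x := by
  rw [← mul_assoc, ← ENNReal.ofReal_mul ha]

theorem A5_exp (n : ℕ) : Real.exp n ≤ 2.72 ^ n ∧ 2.7 ^ n ≤ Real.exp n := by
  rw [← Real.exp_one_pow]
  exact ⟨pow_le_pow_left₀ (Real.exp_pos 1).le (Real.exp_one_lt_d9.le.trans (by norm_num)) n,
    pow_le_pow_left₀ (by norm_num) (le_trans (by norm_num) Real.exp_one_gt_d9.le) n⟩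

variable {A V ρ₀ Θ θ K c : ℝ} {μ μ' : Measure (ℝ × ℝ)} (D : LD A V ρ₀ Θ θ μ μ')
  {F L : ℂ → ℝ} {S : ℝ → ℝ}

theorem LD.A5_maps (h : Par A V Θ θ K c) {z : ℂ} (hz : z ∈ HP) : D.Psi K c z ∈ HP :=
  le_trans hz (D.Psi_re_ge h z)

theorem LD.A5_rate (h : Par A V Θ θ K c) {z z' : ℂ} (hz : z ∈ HP) (hz' : z' ∈ HP) :
    ‖D.Psi K c z - D.Psi K c z'‖ / Θ ≤ ‖z - z'‖ / θ / 16 := by
  have hθ := h.θ_pos
  have hΘ : 0 < Θ := by linarith [h.a_ge]
  rw [div_le_iff₀ hΘ]
  refine (D.Psi_lip h hz hz').trans (le_of_eq ?_)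
  field_simp

theorem LD.A5_slow (h : Par A V Θ θ K c) (hF : Inv Θ F L S) {z z' : ℂ} (hz : z ∈ HP)
    (hz' : z' ∈ HP) :
    L (D.Psi K c z') ≤ L (D.Psi K c z) * Real.exp (‖z - z'‖ / θ / 16) :=
  (hF.slow _ (D.A5_maps h hz) _ (D.A5_maps h hz')).trans (mul_le_mul_of_nonneg_left
    (Real.exp_le_exp.2 (D.A5_rate h hz hz')) (hF.L_nonneg _))

theorem LD.A5_MS (h : Par A V Θ θ K c) (hF : Inv Θ F L S) {z : ℂ} (hz : z ∈ HP) :
    L (D.Psi K c z) ≤ Real.exp 2 * S z.im := by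
  have hΘ : 0 < Θ := by linarith [h.a_ge, h.θ_pos]
  refine (hF.L_le _ (D.A5_maps h hz)).trans ((hF.S_slow z.im _).trans ?_)
  rw [mul_comm]
  refine mul_le_mul_of_nonneg_right (Real.exp_le_exp.2 ?_) (hF.S_nonneg _)
  rw [div_le_iff₀ hΘ, abs_sub_comm]
  exact D.Psi_im h hz

theorem LD.A5_MS2 (h : Par A V Θ θ K c) (hF : Inv Θ F L S) {z : ℂ} (hz : z ∈ HP) :
    L (D.Psi K c z) ^ 2 ≤ Real.exp 4 * S z.im ^ 2 := by
  refine (pow_le_pow_left₀ (hF.L_nonneg _) (D.A5_MS h hF hz) 2).trans (le_of_eq ?_)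
  rw [mul_pow, ← Real.exp_nat_mul]
  norm_num

theorem A5_one {x r : ℝ} {x' : ℝ} (hr : 0 ≤ r) (h : x' ≤ x * Real.exp r) :
    1 + x' ≤ (1 + x) * Real.exp r := by
  have := Real.one_le_exp hr
  linarith

theorem LD.step_inv (h : Par A V Θ θ K c) (ha : 10 ^ 9 * θ ≤ Θ) (hK : 10 ^ 18 * A ≤ K)
    (hF : Inv Θ F L S) : ∃ S' : ℝ → ℝ, Inv θ (fun z => F (D.Psi K c z))
      (fun z => L (D.Psi K c z) * (1 + cv2 (4 * θ) (D.err K c) z)) S' ∧
      Fl θ S' ≤ ENNReal.ofReal (1 / 4) * Fl Θ S := by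
  obtain ⟨E, B, hEm, hE0, hEB, hEe, hEi⟩ := D.sup_err h
  have hθ := h.θ_pos
  have hΘ : 0 < Θ := by linarith [h.a_ge]
  have hs : 0 < 4 * θ := by positivity
  have hem := (D.e_meas h).2.2.2
  have he0 := D.err_nonneg h
  have heB := D.err_le h
  have hx0 := cv2_nonneg hs he0
  have hy0 := cv1_nonneg hs hE0
  have hS0 := hF.S_nonneg
  have hSm := hF.S_meas
  have hym := cv1_meas (4 * θ) hEm
  have hrate : ∀ d : ℝ, 0 ≤ d → d / Θ ≤ d / θ / 1000 := fun d hd => by
    rw [div_div]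
    exact div_le_div_of_nonneg_left hd (by positivity) (by linarith [h.a_ge])
  have hslow : Slow θ fun z => L (D.Psi K c z) * (1 + cv2 (4 * θ) (D.err K c) z) := by
    intro z hz z' hz'
    have hd : 0 ≤ ‖z - z'‖ / θ := by positivity
    have k1 := D.A5_slow h hF hz hz'
    have k2 := A5_one (by positivity) (cv2_slow hs hem he0 heB z z')
    refine (mul_le_mul k1 k2 (by linarith [hx0 z'])
      (mul_nonneg (hF.L_nonneg _) (Real.exp_pos _).le)).trans ?_
    rw [mul_mul_mul_comm, ← Real.exp_add]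
    refine mul_le_mul_of_nonneg_left (Real.exp_le_exp.2 ?_)
      (mul_nonneg (hF.L_nonneg _) (by linarith [hx0 z]))
    have e : 3 * ‖z - z'‖ / (4 * θ) = 3 / 4 * (‖z - z'‖ / θ) := by field_simp
    linarith
  have hL0 : ∀ z, 0 ≤ L (D.Psi K c z) * (1 + cv2 (4 * θ) (D.err K c) z) := fun z =>
    mul_nonneg (hF.L_nonneg _) (by linarith [hx0 z])
  refine ⟨fun t => Real.exp 2 * S t * (1 + cv1 (4 * θ) E t), ⟨hL0,
    (hF.L_meas.comp (D.Psi_meas h)).mul (measurable_const.add (cv2_meas _ hem)), by fun_prop,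
    hslow, TP (r := 2 * θ) hθ (by positivity) hL0 hslow fun z hz z' hz' hd => ?_, fun z hz => ?_,
    fun t t' => ?_, ?_⟩, ?_⟩
  · have k1 : ‖D.Psi K c z - D.Psi K c z'‖ ≤ (1 + cv2 (4 * θ) (D.err K c) z) * ‖z - z'‖ := by
      by_cases hzz : z = z'
      · rw [hzz, sub_self, sub_self, norm_zero, mul_zero]
      · have hp : 0 < ‖z - z'‖ := norm_pos_iff.2 (sub_ne_zero.2 hzz)
        have k2 : ‖D.Psi K c z - D.Psi K c z' - (z - z')‖ / ‖z - z'‖ ≤
            cv2 (4 * θ) (D.err K c) z := by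
          refine cv2_ge hs hem he0 heB hz fun w hw hzw => ?_
          rw [div_le_iff₀ hp]
          refine D.Psi_loc h hw hz hz' (by linarith) ?_
          have k3 := norm_sub_le_norm_sub_add_norm_sub z' z w
          rw [norm_sub_rev z' z] at k3
          linarith
        rw [div_le_iff₀ hp] at k2
        have k4 := norm_le_norm_sub_add (D.Psi K c z - D.Psi K c z') (z - z')
        linarith
    have k5 : ‖D.Psi K c z - D.Psi K c z'‖ / Θ ≤ ‖z - z'‖ / θ := by
      have k6 := D.A5_rate h hz hz'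
      have k7 : 0 ≤ ‖z - z'‖ / θ := by positivity
      linarith
    refine (hF.lip _ (D.A5_maps h hz) _ (D.A5_maps h hz')).trans ((mul_le_mul
      (mul_le_mul_of_nonneg_left (Real.exp_le_exp.2 k5) (hF.L_nonneg _)) k1 (norm_nonneg _)
      (mul_nonneg (hF.L_nonneg _) (Real.exp_pos _).le)).trans (le_of_eq ?_))
    ring
  · exact mul_le_mul (D.A5_MS h hF hz) (add_le_add le_rfl (cv2_le_cv1 hs hem he0 hEm hEB hEe z))
      (by linarith [hx0 z]) (mul_nonneg (Real.exp_pos _).le (hS0 _))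
  · have k1 := mul_le_mul_of_nonneg_left (hF.S_slow t t') (Real.exp_pos 2).le
    have k2 := A5_one (by positivity) (cv1_slow hs hEm hE0 hEB t t')
    refine (mul_le_mul k1 k2 (by linarith [hy0 t']) (mul_nonneg (Real.exp_pos _).le
      (mul_nonneg (hS0 _) (Real.exp_pos _).le))).trans ?_
    rw [← mul_assoc (Real.exp 2), mul_mul_mul_comm, ← Real.exp_add]
    refine mul_le_mul_of_nonneg_left (Real.exp_le_exp.2 ?_)
      (mul_nonneg (mul_nonneg (Real.exp_pos _).le (hS0 _)) (by linarith [hy0 t]))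
    have e : 2 * |t - t'| / (4 * θ) = 1 / 2 * (|t - t'| / θ) := by
      field_simp
      ring
    have k3 := hrate _ (abs_nonneg (t - t'))
    have k4 : 0 ≤ |t - t'| / θ := by positivity
    linarith
  · obtain ⟨B', hB'⟩ := hF.S_bdd
    exact ⟨Real.exp 2 * B' * (1 + Real.exp 4 * B), fun t => mul_le_mul
      (mul_le_mul_of_nonneg_left (hB' t) (Real.exp_pos _).le)
      (add_le_add le_rfl (cv1_le hs hEm hE0 hEB t)) (by linarith [hy0 t])
      (mul_nonneg (Real.exp_pos _).le ((hS0 t).trans (hB' t)))⟩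
  · have k1 := cv1_sq hs hEm hE0 hEB (W := fun t => S t ^ 2) (by fun_prop) (fun t => sq_nonneg _)
      fun t t' => by
        refine (pow_le_pow_left₀ (hS0 _) (hF.S_slow t t') 2).trans ?_
        rw [mul_pow, ← Real.exp_nat_mul]
        refine mul_le_mul_of_nonneg_left (Real.exp_le_exp.2 ?_) (sq_nonneg _)
        have e : |t - t'| / (4 * θ) = 1 / 4 * (|t - t'| / θ) := by field_simp
        have k3 := hrate _ (abs_nonneg (t - t'))
        have k4 : 0 ≤ |t - t'| / θ := by positivity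
        push_cast
        linarith
    have k2 := tile1 (η := 2 * Θ) (by positivity) le_rfl hSm hS0 hF.S_slow
      (g := fun s => ENNReal.ofReal (E s ^ 2)) (by fun_prop) hEi
    simp only [← ENNReal.ofReal_mul (sq_nonneg _)] at k2
    have k3 : ∫⁻ t, ENNReal.ofReal ((Real.exp 2 * S t * (1 + cv1 (4 * θ) E t)) ^ 2) ≤
        ENNReal.ofReal (2 * Real.exp 4) * (∫⁻ t, ENNReal.ofReal (S t ^ 2)) +
          ENNReal.ofReal (2 * Real.exp 4) *
            ∫⁻ t, ENNReal.ofReal (S t ^ 2 * cv1 (4 * θ) E t ^ 2) := by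
      rw [← mul_add, ← lintegral_add_left (by fun_prop),
        ← lintegral_const_mul' _ _ ENNReal.ofReal_ne_top]
      refine lintegral_mono fun t => ?_
      rw [← ENNReal.ofReal_add (sq_nonneg _) (by positivity), ← ENNReal.ofReal_mul (by positivity)]
      refine ENNReal.ofReal_le_ofReal ?_
      have e : Real.exp 4 = Real.exp 2 ^ 2 := by
        rw [← Real.exp_nat_mul]
        norm_num
      rw [e]
      nlinarith [sq_nonneg (Real.exp 2 * S t * (1 - cv1 (4 * θ) E t))]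
    have hA := h.A_ge
    have hK0 : 0 < K := by linarith [h.K_ge]
    have b1 : θ / Θ ≤ 1 / 10 ^ 9 := by
      rw [div_le_div_iff₀ hΘ (by positivity)]
      linarith
    have b2 : 10 ^ 9 * A / K ≤ 1 / 10 ^ 9 := by
      rw [div_le_div_iff₀ hK0 (by positivity)]
      linarith
    have b3 : 0 ≤ 6 * θ / Θ + 10 ^ 9 * A / K := by positivity
    have b4 : 6 * θ / Θ + 10 ^ 9 * A / K ≤ 7 / 10 ^ 9 := by
      rw [mul_div_assoc 6]
      linarith
    generalize 6 * θ / Θ + 10 ^ 9 * A / K = β at k2 b3 b4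
    unfold Fl
    refine (mul_le_mul_right (k3.trans (add_le_add le_rfl (mul_le_mul_right
      (k1.trans (mul_le_mul_right k2 _)) _))) _).trans ?_
    rw [mul_assoc (ENNReal.ofReal (Real.exp 4 / (2 * Θ))),
      A5_mm (a := Real.exp 4 / (2 * Θ)) (by positivity),
      A5_mm (a := 2 * Real.exp 8) (by positivity), A5_mm (a := 2 * Real.exp 4) (by positivity),
      ← add_mul, ← ENNReal.ofReal_add (by positivity) (by positivity), A5_mm hθ.le,
      A5_mm (a := 1 / 4) (by norm_num)]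
    refine mul_le_mul_left (ENNReal.ofReal_le_ofReal ?_) _
    have e : θ * (2 * Real.exp 4 + 2 * Real.exp 4 * (2 * Real.exp 8 *
        (Real.exp 4 / (2 * Θ) * (β * Θ ^ 2 / θ)))) =
        2 * Real.exp 4 * θ + 2 * (Real.exp 4 * Real.exp 8 * Real.exp 4) * β * Θ := by
      field_simp
    have x4 : Real.exp 4 ≤ 55 := le_trans (by exact_mod_cast (A5_exp 4).1) (by norm_num)
    have x16 : Real.exp 4 * Real.exp 8 * Real.exp 4 ≤ 10 ^ 7 := by
      rw [← Real.exp_add, ← Real.exp_add, show (4 + 8 + 4 : ℝ) = (16 : ℕ) by norm_num]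
      exact (A5_exp 16).1.trans (by norm_num)
    have b5 := mul_le_mul x16 b4 b3 (by norm_num)
    have b6 := mul_le_mul_of_nonneg_right b5 hΘ.le
    have b7 := mul_le_mul_of_nonneg_right x4 hθ.le
    rw [e]
    linarith

theorem LD.A5_re (h : Par A V Θ θ K c) {w : ℂ} (hk : D.kap K w ≤ 8 * Θ / θ) : w.re ≤ 8 * Θ := by
  have k1 : w.re / θ ≤ 8 * Θ / θ := by
    have k2 := le_max_left (D.h w.im) K
    have k3 := D.one_le w.im
    unfold LD.kap at hk
    linarith
  exact (div_le_div_iff_of_pos_right h.θ_pos).1 k1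

theorem LD.A5_band (h : Par A V Θ θ K c) {w : ℂ} (h1 : Real.exp D.v₁ / 2 ≤ D.kap K w)
    (h2 : D.kap K w ≤ 8 * Θ / θ) {n : ℕ} (hn : ⌊D.Lam K w / V⌋₊ = n) :
    Real.exp (D.v₁ + n * V) / 2 ≤ D.kap K w ∧
      D.kap K w ≤ Real.exp (D.v₁ + n * V) / 2 * Real.exp (V + 2) := by
  have hV : 0 < V := by linarith [h.V_ge]
  have hθ := h.θ_pos
  have hΘ : 0 < Θ := by linarith [h.a_ge]
  have hk : 0 < D.kap K w := lt_of_lt_of_le (by positivity) h1
  have hL : 0 ≤ D.Lam K w := le_max_left _ _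
  obtain ⟨k1, k2⟩ := (Nat.floor_eq_iff (div_nonneg hL hV.le)).1 hn
  rw [le_div_iff₀ hV] at k1
  rw [div_lt_iff₀ hV] at k2
  constructor
  · rcases le_max_iff.1 k1 with k3 | k3
    · exact le_trans (div_le_div_of_nonneg_right (Real.exp_le_exp.2 (by linarith)) two_pos.le) h1
    · have k4 := min_le_left (Real.log (D.kap K w)) (Real.log (4 * Θ / θ))
      have k5 : Real.exp (D.v₁ + n * V) ≤ D.kap K w :=
        (Real.le_log_iff_exp_le hk).1 (by linarith)
      linarith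
  · have k3 := (max_lt_iff.1 k2).2
    have k4 : D.kap K w ≤ 2 * Real.exp (D.v₁ + (n + 1) * V) := by
      rcases min_lt_iff.1 (sub_lt_iff_lt_add'.1 k3) with k5 | k5
      · linarith [(Real.log_lt_iff_lt_exp hk).1 k5]
      · have k6 := (Real.log_lt_iff_lt_exp (by positivity)).1 k5
        have e : 8 * Θ / θ = 2 * (4 * Θ / θ) := by ring
        linarith
    have k7 : 4 ≤ Real.exp 2 := by
      have k9 := (A5_exp 2).2
      norm_num at k9
      linarith
    have e : Real.exp (D.v₁ + n * V) / 2 * Real.exp (V + 2) =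
        Real.exp (D.v₁ + (n + 1) * V) * Real.exp 2 / 2 := by
      rw [div_mul_eq_mul_div, ← Real.exp_add, ← Real.exp_add]
      ring_nf
    have k8 := mul_le_mul_of_nonneg_left k7 (Real.exp_pos (D.v₁ + (n + 1) * V)).le
    linarith

theorem LD.e₁_int (h : Par A V Θ θ K c) (hF : Inv Θ F L S) :
    ∫⁻ w in HP, ENNReal.ofReal (L (D.Psi K c w) ^ 2 * D.e₁ K c w ^ 2) ≤
      ENNReal.ofReal (112 * Real.exp 26 * c * A) *
        Lay L (4 * Θ + c * Θ * dep D.v₁ (4 * Θ / θ) / V) := by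
  have hV1 := h.V_ge
  have hA := h.A_ge
  have hV : 0 < V := by linarith
  have hθ := h.θ_pos
  have hΘ : 0 < Θ := by linarith [h.a_ge]
  have hc := h.c_pos
  have hc2 : c ≤ 1 / 2 := h.c_le.trans (one_div_le_one_div_of_le two_pos (by linarith))
  have hcΘ : 0 < c * Θ := by positivity
  have hcΘ2 : c * Θ ≤ Θ / 2 := by nlinarith
  have hLm := hF.L_meas
  have hkm := (D.kap_cont h).measurable
  have hLam : Measurable (D.Lam K) := by
    unfold LD.Lam
    fun_prop
  have hn : Measurable fun w => (⌊D.Lam K w / V⌋₊ : ℝ) :=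
    (measurable_of_countable fun n : ℕ => (n : ℝ)).comp (hLam.div_const V).nat_floor
  have he := (D.e_meas h).1
  have hL0 : ∀ w, 0 ≤ D.Lam K w / V := fun w => div_nonneg (le_max_left _ _) hV.le
  let R : Set (ℂ × ℂ) := {p | (0 ≤ p.1.re ∧ Real.exp D.v₁ / 2 ≤ D.kap K p.1 ∧
    D.kap K p.1 ≤ 8 * Θ / θ) ∧ (⌊D.Lam K p.1 / V⌋₊ * (c * Θ) < p.2.re ∧
      p.2.re < (⌊D.Lam K p.1 / V⌋₊ + 1) * (c * Θ)) ∧ p.1.im - 2 * Θ ≤ p.2.im ∧ p.2.im ≤ p.1.im}
  have hn' : Measurable fun p : ℂ × ℂ => (⌊D.Lam K p.1 / V⌋₊ : ℝ) := hn.comp measurable_fst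
  have m1 : Measurable fun p : ℂ × ℂ => p.1.re := by fun_prop
  have m2 : Measurable fun p : ℂ × ℂ => p.1.im := by fun_prop
  have m3 : Measurable fun p : ℂ × ℂ => p.2.re := by fun_prop
  have m4 : Measurable fun p : ℂ × ℂ => p.2.im := by fun_prop
  have m5 : Measurable fun p : ℂ × ℂ => D.kap K p.1 := hkm.comp measurable_fst
  have hR : MeasurableSet R :=
    ((measurableSet_le measurable_const m1).inter ((measurableSet_le measurable_const m5).inter
      (measurableSet_le m5 measurable_const))).inter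
      (((measurableSet_lt (hn'.mul_const (c * Θ)) m3).inter
        (measurableSet_lt m3 ((hn'.add_const 1).mul_const (c * Θ)))).inter
      ((measurableSet_le (m2.sub_const (2 * Θ)) m4).inter (measurableSet_le m4 m2)))
  have k := A5_swap (f := fun w => ENNReal.ofReal (L (D.Psi K c w) ^ 2))
    (g := fun u => ENNReal.ofReal (Real.exp 26 / (2 * c * Θ ^ 2)) * ENNReal.ofReal (L u ^ 2))
    (e := HP.indicator fun w => ENNReal.ofReal (D.e₁ K c w ^ 2)) (by fun_prop)
    (Measurable.indicator (by fun_prop) A5_HP) hR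
    (U := {z : ℂ | 0 < z.re ∧ z.re < 4 * Θ + c * Θ * dep D.v₁ (4 * Θ / θ) / V})
    ((measurableSet_lt measurable_const Complex.measurable_re).inter
      (measurableSet_lt Complex.measurable_re measurable_const))
    (β := ENNReal.ofReal (224 * c ^ 2 * A * Θ ^ 2)) (fun w hw => ?_) (fun u => ?_) fun p hp => ?_
  · rw [lintegral_const_mul' _ _ ENNReal.ofReal_ne_top, A5_mm (by positivity)] at k
    have e : 224 * c ^ 2 * A * Θ ^ 2 * (Real.exp 26 / (2 * c * Θ ^ 2)) =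
        112 * Real.exp 26 * c * A := by
      field_simp
      norm_num
    rw [e] at k
    refine le_of_eq_of_le ?_ k
    rw [← lintegral_indicator A5_HP]
    refine lintegral_congr fun w => ?_
    by_cases hw : w ∈ HP
    · rw [indicator_of_mem hw, indicator_of_mem hw, ENNReal.ofReal_mul (sq_nonneg _)]
    · rw [indicator_of_notMem hw, indicator_of_notMem hw, mul_zero]
  · have hw0 : w ∈ HP := by
      by_contra k
      exact hw (indicator_of_notMem k _)
    have hw1 : Real.exp D.v₁ / 2 ≤ D.kap K w ∧ D.kap K w ≤ 8 * Θ / θ := by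
      by_contra k
      refine hw ?_
      rw [indicator_of_mem hw0, LD.e₁, if_neg k]
      simp
    have hre := D.A5_re h hw1.2
    have f1 := mul_le_mul_of_nonneg_right (Nat.floor_le (hL0 w)) hcΘ.le
    have f2 := mul_le_mul_of_nonneg_right (Nat.lt_floor_add_one (D.Lam K w / V)).le hcΘ.le
    have f0 : 0 ≤ (⌊D.Lam K w / V⌋₊ : ℝ) * (c * Θ) := by positivity
    have eP : (D.Psi K c w).re = w.re + D.Lam K w / V * (c * Θ) := by
      show w.re + c * Θ * D.Lam K w / V = _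
      ring
    have hi := abs_le.1 (D.Psi_im h hw0)
    refine le_trans ?_ (lintegral_mono_set (s := {u : ℂ | u.re ∈ Ioo (⌊D.Lam K w / V⌋₊ * (c * Θ))
      ((⌊D.Lam K w / V⌋₊ + 1) * (c * Θ)) ∧ u.im ∈ Icc (w.im - 2 * Θ) w.im})
        fun u hu => ⟨⟨hw0, hw1⟩, hu.1, hu.2⟩)
    refine le_trans (le_of_eq ?_) (setLIntegral_mono' (f := fun _ =>
      ENNReal.ofReal (L (D.Psi K c w) ^ 2 / (2 * c * Θ ^ 2))) ((Complex.measurable_re
        measurableSet_Ioo).inter (Complex.measurable_im measurableSet_Icc)) fun u hu => ?_)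
    · rw [setLIntegral_const, A5_box, A5_mm (by positivity), ← ENNReal.ofReal_mul (by
        rw [add_mul, one_mul, add_sub_cancel_left]
        positivity)]
      refine congrArg _ ?_
      field_simp
      ring
    · obtain ⟨⟨u1, u2⟩, u3, u4⟩ := hu
      have hw2 : 0 ≤ w.re := hw0
      have hu0 : u ∈ HP := le_trans f0 u1.le
      have d1 : |(u - D.Psi K c w).re| ≤ 9 * Θ := by
        rw [Complex.sub_re, eP, abs_le]
        constructor <;> linarith
      have d2 : |(u - D.Psi K c w).im| ≤ 4 * Θ := by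
        rw [Complex.sub_im, abs_le]
        constructor <;> linarith
      have d3 : ‖u - D.Psi K c w‖ / Θ ≤ 13 := by
        rw [div_le_iff₀ hΘ]
        linarith [Complex.norm_le_abs_re_add_abs_im (u - D.Psi K c w)]
      have d4 := (hF.slow u hu0 _ (D.A5_maps h hw0)).trans
        (mul_le_mul_of_nonneg_left (Real.exp_le_exp.2 d3) (hF.L_nonneg _))
      have d5 := pow_le_pow_left₀ (hF.L_nonneg _) d4 2
      rw [mul_pow, ← Real.exp_nat_mul, show ((2 : ℕ) : ℝ) * 13 = 26 by norm_num] at d5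
      rw [← ENNReal.ofReal_mul (by positivity), div_mul_eq_mul_div, mul_comm (Real.exp 26)]
      exact ENNReal.ofReal_le_ofReal (div_le_div_of_nonneg_right d5 (by positivity))
  · have hk1 : 1 ≤ Real.exp (D.v₁ + ⌊u.re / (c * Θ)⌋₊ * V) / 2 := by
      have k1 : 0 ≤ (⌊u.re / (c * Θ)⌋₊ : ℝ) * V := by positivity
      have k2 := Real.add_one_le_exp (D.v₁ + ⌊u.re / (c * Θ)⌋₊ * V)
      linarith [D.v₁_ge]
    have k1 := D.kap_band h u.im hk1 (W := V + 2) (by linarith)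
    have k2 : ∀ w, HP.indicator (fun w => ENNReal.ofReal (D.e₁ K c w ^ 2)) w ≤
        ENNReal.ofReal ((4 * c * Θ / V) ^ 2) * ENNReal.ofReal ((1 / (θ * D.kap K w)) ^ 2) := by
      intro w
      refine (indicator_le_self _ _ w).trans ?_
      rw [← ENNReal.ofReal_mul (sq_nonneg _), ← mul_pow, LD.e₁]
      refine ENNReal.ofReal_le_ofReal ?_
      split_ifs
      · rw [div_mul_div_comm, mul_one, mul_assoc V]
      · rw [zero_pow two_ne_zero]
        exact sq_nonneg _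
    refine (lintegral_mono' (Measure.restrict_mono (fun w hw => ?_) le_rfl) k2).trans
      (((lintegral_const_mul' _ _ ENNReal.ofReal_ne_top).trans_le (mul_le_mul_right k1 _)).trans ?_)
    · obtain ⟨⟨w0, w1, w2⟩, ⟨u1, u2⟩, u3, u4⟩ := hw
      have f0 : 0 ≤ (⌊D.Lam K w / V⌋₊ : ℝ) * (c * Θ) := by positivity
      have e : ⌊u.re / (c * Θ)⌋₊ = ⌊D.Lam K w / V⌋₊ :=
        (Nat.floor_eq_iff (div_nonneg (f0.trans u1.le) hcΘ.le)).2
          ⟨(le_div_iff₀ hcΘ).2 u1.le, (div_lt_iff₀ hcΘ).2 u2⟩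
      exact ⟨w0, ⟨u4, sub_le_iff_le_add.1 u3⟩, D.A5_band h w1 w2 e.symm⟩
    · rw [← ENNReal.ofReal_mul (sq_nonneg _)]
      refine ENNReal.ofReal_le_ofReal ?_
      have e : (4 * c * Θ / V) ^ 2 * (2 * A * V * (2 * (V + 2) + 1)) =
          32 * c ^ 2 * A * Θ ^ 2 * ((2 * V + 5) / V) := by
        field_simp
        ring
      have k3 : (2 * V + 5) / V ≤ 7 := by
        rw [div_le_iff₀ hV]
        linarith
      have k4 := mul_le_mul_of_nonneg_left k3 (show 0 ≤ 32 * c ^ 2 * A * Θ ^ 2 by positivity)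
      linarith
  · obtain ⟨-, ⟨u1, u2⟩, -⟩ := hp
    have f0 : 0 ≤ (⌊D.Lam K p.1 / V⌋₊ : ℝ) * (c * Θ) := by positivity
    have f1 := mul_le_mul_of_nonneg_right (Nat.floor_le (hL0 p.1)) hcΘ.le
    have f2 : D.Lam K p.1 ≤ dep D.v₁ (4 * Θ / θ) :=
      max_le_max le_rfl (sub_le_sub_right (min_le_right _ _) _)
    have f3 := mul_le_mul_of_nonneg_right (div_le_div_of_nonneg_right f2 hV.le) hcΘ.le
    have e : c * Θ * dep D.v₁ (4 * Θ / θ) / V = dep D.v₁ (4 * Θ / θ) / V * (c * Θ) := by ring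
    exact ⟨f0.trans_lt u1, by linarith⟩

theorem A5_sq {x η : ℝ} (hη : 0 < η) : (1 + x) ^ 2 ≤ 1 + η + (1 + η⁻¹) * x ^ 2 := by
  have h1 : 0 ≤ η⁻¹ * (x - η) ^ 2 := by positivity
  have h2 : η⁻¹ * (x - η) ^ 2 = η⁻¹ * x ^ 2 - 2 * x + η := by
    field_simp
    ring
  linarith

theorem LD.A5_err (h : Par A V Θ θ K c) (hF : Inv Θ F L S) {w : ℂ} (hw : w ∈ HP) :
    L (D.Psi K c w) ^ 2 * (1 + Real.exp (Θ⁻¹ * w.re)) * D.err K c w ^ 2 ≤
      6 * Real.exp 8 * (L (D.Psi K c w) ^ 2 * D.e₁ K c w ^ 2) +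
        6 * Real.exp 12 * (S w.im ^ 2 * D.e₂ K w ^ 2 + S w.im ^ 2 * D.e₃ K w ^ 2) := by
  have hΘ : 0 < Θ := by linarith [h.a_ge, h.θ_pos]
  rw [LD.err, indicator_of_mem hw]
  by_cases hk : D.kap K w ≤ 8 * Θ / θ
  · have k1 : Θ⁻¹ * w.re ≤ 8 := by
      rw [inv_mul_le_iff₀ hΘ]
      linarith [D.A5_re h hk]
    have k2 : 1 + Real.exp (Θ⁻¹ * w.re) ≤ 2 * Real.exp 8 := by
      linarith [Real.exp_le_exp.2 k1, Real.one_le_exp (show (0 : ℝ) ≤ 8 by norm_num)]
    have k3 : (D.e₁ K c w + D.e₂ K w + D.e₃ K w) ^ 2 ≤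
        3 * (D.e₁ K c w ^ 2 + D.e₂ K w ^ 2 + D.e₃ K w ^ 2) := by
      nlinarith [sq_nonneg (D.e₁ K c w - D.e₂ K w), sq_nonneg (D.e₁ K c w - D.e₃ K w),
        sq_nonneg (D.e₂ K w - D.e₃ K w)]
    have k4 := mul_le_mul (mul_le_mul_of_nonneg_left k2 (sq_nonneg (L (D.Psi K c w)))) k3
      (sq_nonneg _) (by positivity)
    have k5 := mul_le_mul_of_nonneg_right (D.A5_MS2 h hF hw)
      (show 0 ≤ 6 * Real.exp 8 * (D.e₂ K w ^ 2 + D.e₃ K w ^ 2) by positivity)
    have e : Real.exp 12 = Real.exp 4 * Real.exp 8 := by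
      rw [← Real.exp_add]
      norm_num
    rw [e]
    linarith
  · have k1 : ¬ D.kap K w ≤ 2 * Real.exp D.vz := fun k => hk (by
      have e : 8 * Θ / θ = 2 * (4 * Θ / θ) := by ring
      linarith [D.vz_exp])
    have k2 : D.e₁ K c w = 0 := if_neg fun k => hk k.2
    have k3 : D.e₂ K w = 0 := if_neg fun k => k1 k.2
    have k4 : D.e₃ K w = 0 := if_neg k1
    rw [k2, k3, k4]
    simp

theorem LD.step_en (h : Par A V Θ θ K c) (hc : c ≤ 1 / (Real.exp 60 * A)) (hF : Inv Θ F L S) :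
    2 * Eg (fun z => L (D.Psi K c z) * (1 + cv2 (4 * θ) (D.err K c) z)) +
        Lay L (4 * Θ + c * Θ * dep D.v₁ (4 * Θ / θ) / V) ≤
      2 * Eg L + ENNReal.ofReal (Real.exp 60 * A ^ 2) * Fl Θ S := by
  have hA := h.A_ge
  have hV : 0 < V := by linarith [h.V_ge]
  have hθ := h.θ_pos
  have hΘ : 0 < Θ := by linarith [h.a_ge]
  have hc0 := h.c_pos
  have hs : 0 < 4 * θ := by positivity
  have k1 := D.e₁_int h hF
  have hfar := fun z hz => D.Psi_far h (z := z) hz
  have hτ : 0 ≤ c * Θ * dep D.v₁ (4 * Θ / θ) / V :=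
    div_nonneg (mul_nonneg (by positivity) (le_max_left _ _)) hV.le
  generalize c * Θ * dep D.v₁ (4 * Θ / θ) / V = τ at k1 hfar hτ ⊢
  obtain ⟨m1, m2, m3, hem⟩ := D.e_meas h
  have hLm := hF.L_meas
  have hSm := hF.S_meas
  have hM := D.Psi_meas h
  have hxm := cv2_meas (4 * θ) hem
  have hU : MeasurableSet {z : ℂ | 4 * Θ + τ ≤ z.re} :=
    measurableSet_le measurable_const Complex.measurable_re
  have k2 := A5_tile hΘ hF (G := fun w => ENNReal.ofReal (D.e₂ K w ^ 2)) (by fun_prop)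
    (β := 1000 * A) (by positivity) (D.e₂_int h)
  have k3 := A5_tile hΘ hF (G := fun w => ENNReal.ofReal (D.e₃ K w ^ 2)) (by fun_prop)
    (β := 100000 * A ^ 2) (by positivity) (D.e₃_int h)
  have k4 := cv2_sq hs hem (D.err_nonneg h) (D.err_le h)
    (W := fun z => L (D.Psi K c z) ^ 2 * (1 + Real.exp (Θ⁻¹ * z.re))) (by fun_prop)
    (fun z => by positivity) fun z hz z' hz' => by
      have d0 : 0 ≤ ‖z - z'‖ / θ := by positivity
      have d1 := pow_le_pow_left₀ (hF.L_nonneg _) (D.A5_slow h hF hz hz') 2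
      have d2 : Θ⁻¹ * z'.re ≤ Θ⁻¹ * z.re + ‖z - z'‖ / θ / 1000 := by
        have d3 := (abs_le.1 (Complex.abs_re_le_norm (z - z'))).1
        rw [Complex.sub_re] at d3
        have d4 : ‖z - z'‖ / Θ ≤ ‖z - z'‖ / θ / 1000 := by
          rw [div_div]
          exact div_le_div_of_nonneg_left (norm_nonneg _) (by positivity) (by linarith [h.a_ge])
        have d5 := mul_le_mul_of_nonneg_left (show z'.re ≤ z.re + ‖z - z'‖ by linarith)
          (inv_pos.2 hΘ).le
        rw [mul_add, inv_mul_eq_div Θ ‖z - z'‖] at d5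
        linarith
      have d6 := A5_one (by positivity) ((Real.exp_le_exp.2 d2).trans_eq (Real.exp_add _ _))
      refine (mul_le_mul d1 d6 (by positivity) (sq_nonneg _)).trans ?_
      rw [mul_pow, ← Real.exp_nat_mul, mul_mul_mul_comm, ← Real.exp_add]
      refine mul_le_mul_of_nonneg_left (Real.exp_le_exp.2 ?_) (by positivity)
      have e : ‖z - z'‖ / (4 * θ) = 1 / 4 * (‖z - z'‖ / θ) := by field_simp
      push_cast
      linarith
  have k5 : ∫⁻ w in HP, ENNReal.ofReal (L (D.Psi K c w) ^ 2 * (1 + Real.exp (Θ⁻¹ * w.re)) *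
      D.err K c w ^ 2) ≤ ENNReal.ofReal (6 * Real.exp 8) *
        (∫⁻ w in HP, ENNReal.ofReal (L (D.Psi K c w) ^ 2 * D.e₁ K c w ^ 2)) +
      ENNReal.ofReal (6 * Real.exp 12) *
        ((∫⁻ w in HP, ENNReal.ofReal (S w.im ^ 2) * ENNReal.ofReal (D.e₂ K w ^ 2)) +
          ∫⁻ w in HP, ENNReal.ofReal (S w.im ^ 2) * ENNReal.ofReal (D.e₃ K w ^ 2)) := by
    rw [← lintegral_add_left (by fun_prop), ← lintegral_const_mul' _ _ ENNReal.ofReal_ne_top,
      ← lintegral_const_mul' _ _ ENNReal.ofReal_ne_top, ← lintegral_add_left (by fun_prop)]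
    refine setLIntegral_mono' A5_HP fun w hw => ?_
    rw [← ENNReal.ofReal_mul (sq_nonneg _), ← ENNReal.ofReal_mul (sq_nonneg _),
      ← ENNReal.ofReal_add (by positivity) (by positivity), ← ENNReal.ofReal_mul (by positivity),
      ← ENNReal.ofReal_mul (by positivity), ← ENNReal.ofReal_add (by positivity) (by positivity)]
    exact ENNReal.ofReal_le_ofReal (D.A5_err h hF hw)
  have k6 : Eg (fun z => L (D.Psi K c z) * (1 + cv2 (4 * θ) (D.err K c) z)) ≤
      (∫⁻ z in {z : ℂ | 4 * Θ + τ ≤ z.re}, ENNReal.ofReal (L z ^ 2)) +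
        ENNReal.ofReal (2 * Real.exp 8) * Fl Θ S + ∫⁻ z in HP, ENNReal.ofReal
          (L (D.Psi K c z) ^ 2 * (1 + Real.exp (Θ⁻¹ * z.re)) * cv2 (4 * θ) (D.err K c) z ^ 2) := by
    have hI : Measurable fun x : ℂ => {z : ℂ | 4 * Θ + τ ≤ z.re}.indicator
        (fun z => ENNReal.ofReal (L z ^ 2)) (x + τ) :=
      (Measurable.indicator (by fun_prop) hU).comp (measurable_add_const (τ : ℂ))
    rw [← lintegral_indicator hU, ← lintegral_add_right_eq_self _ (τ : ℂ), ← A5_dec hΘ hSm,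
      ← lintegral_const_mul' _ _ ENNReal.ofReal_ne_top]
    refine le_trans ?_ (add_le_add (add_le_add (setLIntegral_le_lintegral {z : ℂ | 0 < z.re} _)
      le_rfl) (lintegral_mono_set (s := {z : ℂ | 0 < z.re})
        fun z hz => le_of_lt (a := 0) (b := z.re) hz))
    rw [← lintegral_add_left hI, ← lintegral_add_right _ (by fun_prop)]
    refine setLIntegral_mono' (measurableSet_lt measurable_const Complex.measurable_re)
      fun z hz => ?_
    have hz0 : z ∈ HP := le_of_lt (a := 0) (b := z.re) hz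
    have q1 := mul_le_mul_of_nonneg_left (A5_sq (x := cv2 (4 * θ) (D.err K c) z)
      (Real.exp_pos (-Θ⁻¹ * z.re))) (sq_nonneg (L (D.Psi K c z)))
    rw [← Real.exp_neg, neg_mul, neg_neg, ← neg_mul] at q1
    have q2 := (D.A5_MS2 h hF hz0).trans (mul_le_mul_of_nonneg_right
      (Real.exp_le_exp.2 (show (4 : ℝ) ≤ 8 by norm_num)) (sq_nonneg _))
    have q3 := mul_le_mul_of_nonneg_right q2 (Real.exp_pos (-Θ⁻¹ * z.re)).le
    have q0 : 0 ≤ Real.exp 8 * S z.im ^ 2 * Real.exp (-Θ⁻¹ * z.re) := by positivity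
    rw [← ENNReal.ofReal_mul (by positivity), add_assoc,
      ← ENNReal.ofReal_add (by positivity) (by positivity)]
    by_cases hz4 : 4 * Θ ≤ z.re
    · rw [indicator_of_mem (show z + (τ : ℂ) ∈ {z : ℂ | 4 * Θ + τ ≤ z.re} from
        add_le_add hz4 le_rfl), ← hfar z hz4, ← ENNReal.ofReal_add (sq_nonneg _) (by positivity)]
      refine ENNReal.ofReal_le_ofReal ?_
      rw [mul_pow]
      linarith
    · refine le_trans (ENNReal.ofReal_le_ofReal ?_) le_add_self
      have q4 : Real.exp 4 ≤ Real.exp 8 * Real.exp (-Θ⁻¹ * z.re) := by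
        rw [← Real.exp_add]
        refine Real.exp_le_exp.2 ?_
        have q5 : Θ⁻¹ * z.re ≤ 4 := by
          rw [inv_mul_le_iff₀ hΘ]
          linarith
        linarith
      have q6 := (D.A5_MS2 h hF hz0).trans (mul_le_mul_of_nonneg_right q4 (sq_nonneg _))
      rw [mul_pow]
      linarith
  have k7 : (∫⁻ z in {z : ℂ | 4 * Θ + τ ≤ z.re}, ENNReal.ofReal (L z ^ 2)) +
      Lay L (4 * Θ + τ) ≤ Eg L := by
    unfold Lay Eg
    have j1 : MeasurableSet {z : ℂ | 0 < z.re ∧ z.re < 4 * Θ + τ} :=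
      (measurableSet_lt measurable_const Complex.measurable_re).inter
        (measurableSet_lt Complex.measurable_re measurable_const)
    have j2 : Disjoint {z : ℂ | 4 * Θ + τ ≤ z.re} {z : ℂ | 0 < z.re ∧ z.re < 4 * Θ + τ} :=
      disjoint_left.2 fun z h1 h2 => not_lt.2 h1 h2.2
    rw [← lintegral_union j1 j2]
    refine lintegral_mono_set fun z hz => ?_
    rcases hz with hz | hz
    · exact lt_of_lt_of_le (b := 4 * Θ + τ) (by positivity) hz
    · exact hz.1
  have k8 := k6.trans (add_le_add le_rfl (k4.trans (mul_le_mul_right (k5.trans (add_le_add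
    (mul_le_mul_right k1 _) (mul_le_mul_right (add_le_add k2 k3) _))) _)))
  rw [← add_mul, ← ENNReal.ofReal_add (by positivity) (by positivity),
    A5_mm (a := 6 * Real.exp 8) (by positivity), A5_mm (a := 6 * Real.exp 12) (by positivity),
    mul_add, A5_mm (a := 4 * Real.exp 8) (by positivity),
    A5_mm (a := 4 * Real.exp 8) (by positivity)] at k8
  have x1 : 4 * Real.exp 8 * (6 * Real.exp 8 * (112 * Real.exp 26 * c * A)) ≤ 1 / 2 := by
    rw [le_div_iff₀ (by positivity)] at hc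
    have e : Real.exp 60 = Real.exp 8 * Real.exp 8 * Real.exp 26 * Real.exp (18 : ℕ) := by
      rw [← Real.exp_add, ← Real.exp_add, ← Real.exp_add]
      norm_num
    have y1 : (5376 : ℝ) ≤ Real.exp (18 : ℕ) := le_trans (by norm_num) (A5_exp 18).2
    have y2 := mul_le_mul_of_nonneg_left y1
      (show 0 ≤ Real.exp 8 * Real.exp 8 * Real.exp 26 * c * A by positivity)
    rw [e] at hc
    linarith
  have x2 : 2 * Real.exp 8 + 4 * Real.exp 8 * (6 * Real.exp 12 * (Real.exp 4 / 2 * (1000 * A) +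
      Real.exp 4 / 2 * (100000 * A ^ 2))) ≤ Real.exp 60 * A ^ 2 / 2 := by
    have e : Real.exp 60 = Real.exp 8 * Real.exp 12 * Real.exp 4 * Real.exp (36 : ℕ) := by
      rw [← Real.exp_add, ← Real.exp_add, ← Real.exp_add]
      norm_num
    have y1 : (10 ^ 7 : ℝ) ≤ Real.exp (36 : ℕ) := le_trans (by norm_num) (A5_exp 36).2
    have y0 : A ≤ A ^ 2 := by nlinarith
    have y2 := mul_le_mul_of_nonneg_left y1
      (show 0 ≤ Real.exp 8 * Real.exp 12 * Real.exp 4 * A ^ 2 by positivity)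
    have y3 := mul_le_mul_of_nonneg_left y0
      (show 0 ≤ Real.exp 8 * Real.exp 12 * Real.exp 4 by positivity)
    have y4 : 1 ≤ Real.exp 12 * Real.exp 4 * A ^ 2 :=
      one_le_mul_of_one_le_of_one_le (one_le_mul_of_one_le_of_one_le
        (Real.one_le_exp (by norm_num)) (Real.one_le_exp (by norm_num))) (hA.trans y0)
    have y5 := mul_le_mul_of_nonneg_left y4 (Real.exp_pos 8).le
    have y6 := Real.exp_pos 8
    rw [e]
    clear * - y2 y3 y5 y6
    generalize Real.exp (36 : ℕ) = a₁, Real.exp 8 = a₂, Real.exp 12 = a₃, Real.exp 4 = a₄ at *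
    linarith
  have k9 : Eg (fun z => L (D.Psi K c z) * (1 + cv2 (4 * θ) (D.err K c) z)) ≤
      (∫⁻ z in {z : ℂ | 4 * Θ + τ ≤ z.re}, ENNReal.ofReal (L z ^ 2)) +
        ENNReal.ofReal (1 / 2) * Lay L (4 * Θ + τ) +
          ENNReal.ofReal (Real.exp 60 * A ^ 2 / 2) * Fl Θ S := by
    refine k8.trans ?_
    rw [add_add_add_comm, add_comm (ENNReal.ofReal (2 * Real.exp 8) * _), ← add_mul,
      ← ENNReal.ofReal_add (by positivity) (by positivity)]
    exact add_le_add (add_le_add le_rfl (mul_le_mul_left (ENNReal.ofReal_le_ofReal x1) _))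
      (mul_le_mul_left (ENNReal.ofReal_le_ofReal (by linarith)) _)
  have e2 : ∀ (a : ℝ) (x : ℝ≥0∞), 2 * (ENNReal.ofReal (a / 2) * x) = ENNReal.ofReal a * x :=
    fun a x => by rw [← ENNReal.ofReal_ofNat 2, A5_mm two_pos.le, mul_div_cancel₀ a two_ne_zero]
  refine (add_le_add (mul_le_mul_right k9 2) le_rfl).trans ?_
  rw [mul_add, mul_add, e2, e2, ENNReal.ofReal_one, one_mul, add_right_comm]
  refine add_le_add (le_of_eq_of_le ?_ (mul_le_mul_right k7 2)) le_rfl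
  ring

end Pool.Agent.Work.MP_042f46_an.Fu
end
end

-- merged part: Pool.Agent.Work.MP_042f46_an.F.A8
section
/-!
# Chains of steps

`Wd Ψ j n = Ψ j ∘ Ψ (j + 1) ∘ ⋯ ∘ Ψ (j + n - 1)`.
`Wd_near`: induction on `n` generalising `j`, with the stronger bounds `|im - t| ≤ ∑ i < n, 2 θ (j + i) ≤ 8 θ j` and `re / θ j ≤ ∑ i < n, (∏ l < i, r (j + l)) (f (j + i) t + 1)`; `0 ≤ r ≤ 1`, `r l r (l + 1) ≤ 1 / 2`, so the product is at most `2 (3 / 4) ^ i`.
`Dp_int`: `(1 + Dp) ^ 2 ≤ 162 + 16 ∑ i < n, 2 (3 / 4) ^ i f (j + i) ^ 2` (the weights add up to at most `8`).  The set lies in `Icc s (s + θ j) ×ˢ Y`, `Y = {y | y ≤ s - 7 θ j ∨ s + 8 θ j ≤ y}`.  Cover `Icc s (s + θ j)` by tiles `Icc t (t + 2 θ l)`, `t = s + 2 k θ l ≤ s + θ j`, `l = j + i`; `Tail` for each; a point lies in at most two tiles and all lie in `Icc s (s + 3 θ j)`; `ν (Icc s (s + 3 θ j) ×ˢ Y) ≤ 3 B` by `KB`.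
`deep`: classes `η / 2 ≤ |Δ| / 8 < η`, `η = Θ / 2 ^ k`; `|ΔF| ≤ S p.1 exp 8 (8 η)`; `tile2` with tiles of length `η`: `64 exp 20 η R ∫ S ^ 2`; the diagonal costs nothing.
-/

open Set Metric Topology Filter MeasureTheory
open scoped ENNReal NNReal

noncomputable section
namespace Pool.Agent.Work.MP_042f46_an.Fu

open Pool.Agent.Work.MP_042f46_an.Ty

/-- composition of `n` maps from level `j` on -/
def Wd (Ψ : ℕ → ℂ → ℂ) : ℕ → ℕ → ℂ → ℂ
  | _, 0, z => z
  | j, n + 1, z => Ψ j (Wd Ψ (j + 1) n z)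

/-- majorant of the depth -/
def Dp (f : ℕ → ℝ → ℝ) (j n : ℕ) (t : ℝ) : ℝ :=
  ∑ i ∈ Finset.range n, 2 * (3 / 4) ^ i * (f (j + i) t + 1)

theorem Wd_succ (Ψ : ℕ → ℂ → ℂ) (j n : ℕ) (z : ℂ) :
    Wd Ψ j (n + 1) z = Wd Ψ j n (Ψ (j + n) z) := by
  induction n generalizing j with
  | zero => rfl
  | succ n ih =>
    show Ψ j (Wd Ψ (j + 1) (n + 1) z) = Ψ j (Wd Ψ (j + 1) n (Ψ (j + (n + 1)) z))
    rw [ih, show j + 1 + n = j + (n + 1) by omega]

theorem A8_prod {θ : ℕ → ℝ} (h0 : ∀ n, 0 < θ n) (h1 : Antitone θ) (h2 : ∀ n, 2 * θ (n + 2) ≤ θ n)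
    {r : ℕ → ℝ} {g : ℕ} (hr : ∀ j, g ≤ j → 0 ≤ r j)
    (hr' : ∀ j, g ≤ j → r j ≤ 1 / 4 ∨ r j = θ (j + 1) / θ j) {j : ℕ} (hj : g ≤ j) (i : ℕ) :
    ∏ l ∈ Finset.range i, r (j + l) ≤ 2 * (3 / 4) ^ i := by
  have a1 : ∀ l, g ≤ l → r l ≤ 1 := fun l hl => by
    rcases hr' l hl with h | h
    · linarith
    · rw [h, div_le_one (h0 l)]
      exact h1 (Nat.le_succ l)
  have a2 : ∀ l, g ≤ l → r l * r (l + 1) ≤ 9 / 16 := fun l hl => by
    have b0 := hr l hl
    have b1 := hr (l + 1) (by omega)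
    have b2 := a1 l hl
    have b3 := a1 (l + 1) (by omega)
    rcases hr' l hl with h | h
    · nlinarith
    rcases hr' (l + 1) (by omega) with h' | h'
    · nlinarith
    have b4 := h0 l
    have b5 := h0 (l + 1)
    have b6 : r l * r (l + 1) = θ (l + 2) / θ l := by
      rw [h, h']
      field_simp
    rw [b6, div_le_iff₀ b4]
    linarith [h2 l]
  induction i using Nat.twoStepInduction with
  | zero => norm_num
  | one =>
    rw [Finset.prod_range_one]
    linarith [a1 (j + 0) (by omega)]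
  | more i ih _ =>
    rw [Finset.prod_range_succ, Finset.prod_range_succ, mul_assoc]
    have b := a2 (j + i) (by omega)
    have b0 : 0 ≤ r (j + i) * r (j + i + 1) :=
      mul_nonneg (hr _ (by omega)) (hr _ (by omega))
    calc (∏ l ∈ Finset.range i, r (j + l)) * (r (j + i) * r (j + i + 1))
        ≤ 2 * (3 / 4) ^ i * (9 / 16) := mul_le_mul ih b b0 (by positivity)
      _ = 2 * (3 / 4) ^ (i + 2) := by ring

theorem Wd_near {θ : ℕ → ℝ} (h0 : ∀ n, 0 < θ n) (h1 : Antitone θ) (h2 : ∀ n, 2 * θ (n + 2) ≤ θ n)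
    {Ψ : ℕ → ℂ → ℂ} {r : ℕ → ℝ} {f : ℕ → ℝ → ℝ} {g : ℕ}
    (hm : ∀ j, g ≤ j → MapsTo (Ψ j) HP HP) (hr : ∀ j, g ≤ j → 0 ≤ r j)
    (hr' : ∀ j, g ≤ j → r j ≤ 1 / 4 ∨ r j = θ (j + 1) / θ j)
    (him : ∀ j, g ≤ j → ∀ z ∈ HP, |(Ψ j z).im - z.im| ≤ 2 * θ j)
    (hre : ∀ j, g ≤ j → ∀ z ∈ HP, z.re ≤ (Ψ j z).re)
    (hre' : ∀ j, g ≤ j → ∀ z ∈ HP, ∀ t, |z.im - t| ≤ 8 * θ (j + 1) →
      (Ψ j z).re / θ j ≤ r j * (z.re / θ (j + 1)) + f j t + 1)
    (hf : ∀ j, g ≤ j → ∀ t, 0 ≤ f j t) {j : ℕ} (hj : g ≤ j) (n : ℕ) :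
    (∀ z ∈ HP, Wd Ψ j n z ∈ HP ∧ z.re ≤ (Wd Ψ j n z).re ∧ |(Wd Ψ j n z).im - z.im| ≤ 8 * θ j) ∧
      ∀ t, (Wd Ψ j n (pt 0 t)).re ≤ θ j * Dp f j n t := by
  have key : ∀ n j, g ≤ j → ∀ z ∈ HP, Wd Ψ j n z ∈ HP ∧ z.re ≤ (Wd Ψ j n z).re ∧
      |(Wd Ψ j n z).im - z.im| ≤ 4 * θ j + 4 * θ (j + 1) := by
    intro n
    induction n with
    | zero =>
      intro j _ z hz
      refine ⟨hz, le_rfl, ?_⟩
      show |z.im - z.im| ≤ _
      rw [sub_self, abs_zero]
      linarith [h0 j, h0 (j + 1)]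
    | succ n ih =>
      intro j hj z hz
      obtain ⟨a1, a2, a3⟩ := ih (j + 1) (by omega) z hz
      refine ⟨hm j hj a1, a2.trans (hre j hj _ a1), ?_⟩
      have a4 := him j hj _ a1
      have a5 := abs_sub_le (Ψ j (Wd Ψ (j + 1) n z)).im (Wd Ψ (j + 1) n z).im z.im
      have a6 := h2 j
      show |(Ψ j (Wd Ψ (j + 1) n z)).im - z.im| ≤ _
      have a7 : θ (j + 1 + 1) = θ (j + 2) := rfl
      linarith
  have key' : ∀ n j, g ≤ j → ∀ z ∈ HP, Wd Ψ j n z ∈ HP ∧ z.re ≤ (Wd Ψ j n z).re ∧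
      |(Wd Ψ j n z).im - z.im| ≤ 8 * θ j := by
    intro n j hj z hz
    obtain ⟨a1, a2, a3⟩ := key n j hj z hz
    exact ⟨a1, a2, by linarith [h1 (Nat.le_succ j)]⟩
  refine ⟨key' n j hj, fun t => ?_⟩
  have hp : pt 0 t ∈ HP := le_refl (0 : ℝ)
  have key2 : ∀ n j, g ≤ j → (Wd Ψ j n (pt 0 t)).re / θ j ≤
      ∑ i ∈ Finset.range n, (∏ l ∈ Finset.range i, r (j + l)) * (f (j + i) t + 1) := by
    intro n
    induction n with
    | zero =>
      intro j _
      show (0 : ℝ) / θ j ≤ _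
      simp
    | succ n ih =>
      intro j hj
      obtain ⟨a1, -, a3⟩ := key' n (j + 1) (by omega) _ hp
      have a4 := hre' j hj _ a1 t a3
      have a5 := mul_le_mul_of_nonneg_left (ih (j + 1) (by omega)) (hr j hj)
      have e : ∑ i ∈ Finset.range (n + 1), (∏ l ∈ Finset.range i, r (j + l)) * (f (j + i) t + 1) =
          r j * ∑ i ∈ Finset.range n, (∏ l ∈ Finset.range i, r (j + 1 + l)) *
            (f (j + 1 + i) t + 1) + (f j t + 1) := by
        rw [Finset.sum_range_succ', Finset.mul_sum]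
        simp only [Finset.prod_range_zero, one_mul, add_zero, add_left_inj]
        refine Finset.sum_congr rfl fun i _ => ?_
        rw [Finset.prod_range_succ', add_zero, show j + (i + 1) = j + 1 + i by omega]
        have e' : ∏ l ∈ Finset.range i, r (j + (l + 1)) = ∏ l ∈ Finset.range i, r (j + 1 + l) :=
          Finset.prod_congr rfl fun l _ => by rw [show j + (l + 1) = j + 1 + l by omega]
        rw [e']
        ring
      rw [e]
      show (Ψ j (Wd Ψ (j + 1) n (pt 0 t))).re / θ j ≤ _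
      linarith
  have a := (key2 n j hj).trans (Finset.sum_le_sum fun i _ => mul_le_mul_of_nonneg_right
    (A8_prod h0 h1 h2 hr hr' hj i) (by linarith [hf (j + i) (by omega) t]))
  rw [div_le_iff₀ (h0 j), mul_comm] at a
  exact a

theorem A8_w (n : ℕ) : ∑ i ∈ Finset.range n, 2 * (3 / 4 : ℝ) ^ i ≤ 8 := by
  have h : ∑ i ∈ Finset.range n, 2 * (3 / 4 : ℝ) ^ i = 8 - 8 * (3 / 4) ^ n := by
    induction n with
    | zero => norm_num
    | succ n ih => rw [Finset.sum_range_succ, ih]; ring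
  have : (0 : ℝ) ≤ (3 / 4) ^ n := by positivity
  linarith

theorem A8_sq (n : ℕ) {x : ℕ → ℝ} (hx : ∀ i, 0 ≤ x i) :
    (1 + ∑ i ∈ Finset.range n, 2 * (3 / 4) ^ i * (x i + 1)) ^ 2 ≤
      162 + ∑ i ∈ Finset.range n, 16 * (2 * (3 / 4) ^ i) * x i ^ 2 := by
  have h1 := A8_w n
  have h0 : (0 : ℝ) ≤ ∑ i ∈ Finset.range n, 2 * (3 / 4 : ℝ) ^ i :=
    Finset.sum_nonneg fun i _ => by positivity
  have h2 : (∑ i ∈ Finset.range n, 2 * (3 / 4) ^ i * x i) ^ 2 ≤
      (∑ i ∈ Finset.range n, 2 * (3 / 4 : ℝ) ^ i) *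
        ∑ i ∈ Finset.range n, 2 * (3 / 4) ^ i * x i ^ 2 :=
    Finset.sum_sq_le_sum_mul_sum_of_sq_le_mul _ (fun i _ => by positivity)
      (fun i _ => by positivity) fun i _ => le_of_eq (by ring)
  have h3 : 0 ≤ ∑ i ∈ Finset.range n, 2 * (3 / 4) ^ i * x i :=
    Finset.sum_nonneg fun i _ => mul_nonneg (by positivity) (hx i)
  have h4 : 0 ≤ ∑ i ∈ Finset.range n, 2 * (3 / 4) ^ i * x i ^ 2 :=
    Finset.sum_nonneg fun i _ => by positivity
  have e1 : ∑ i ∈ Finset.range n, 2 * (3 / 4) ^ i * (x i + 1) =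
      ∑ i ∈ Finset.range n, 2 * (3 / 4) ^ i * x i + ∑ i ∈ Finset.range n, 2 * (3 / 4 : ℝ) ^ i := by
    rw [← Finset.sum_add_distrib]
    exact Finset.sum_congr rfl fun i _ => by ring
  have e2 : ∑ i ∈ Finset.range n, 16 * (2 * (3 / 4) ^ i) * x i ^ 2 =
      16 * ∑ i ∈ Finset.range n, 2 * (3 / 4) ^ i * x i ^ 2 := by
    rw [Finset.mul_sum]
    exact Finset.sum_congr rfl fun i _ => by ring
  rw [e1, e2]
  generalize ∑ i ∈ Finset.range n, 2 * (3 / 4) ^ i * x i = a at *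
  generalize ∑ i ∈ Finset.range n, 2 * (3 / 4) ^ i * x i ^ 2 = b at *
  generalize ∑ i ∈ Finset.range n, 2 * (3 / 4 : ℝ) ^ i = w at *
  have h5 : (1 + (a + w)) ^ 2 ≤ (9 + a) ^ 2 := by
    apply pow_le_pow_left₀ <;> linarith
  nlinarith [sq_nonneg (a - 9), mul_le_mul_of_nonneg_right h1 h4]

theorem A8_disj (ν : Measure (ℝ × ℝ)) {Y J : Set ℝ} (hY : MeasurableSet Y) (I : ℕ → Set ℝ) (K : ℕ)
    (hI : ∀ k, MeasurableSet (I k)) (hd : ∀ k k', k < k' → Disjoint (I k) (I k'))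
    (hJ : ∀ k < K, I k ⊆ J) : ∑ k ∈ Finset.range K, ν (I k ×ˢ Y) ≤ ν (J ×ˢ Y) := by
  rw [← measure_biUnion_finset _ fun k _ => (hI k).prod hY]
  · exact measure_mono (iUnion₂_subset fun k hk => prod_mono (hJ k (Finset.mem_range.1 hk)) le_rfl)
  · intro k _ k' _ hk
    refine Set.disjoint_left.2 fun p h1 h2 => ?_
    rcases lt_or_gt_of_ne hk with h | h
    · exact Set.disjoint_left.1 (hd k k' h) h1.1 h2.1
    · exact Set.disjoint_left.1 (hd k' k h) h2.1 h1.1

theorem A8_tail {η Θ ρ₀ s : ℝ} (hη : 0 < η) (hΘ : η ≤ Θ) {f : ℝ → ℝ} {ν : Measure (ℝ × ℝ)}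
    (hT : Tail ρ₀ η f ν) (hs : |s| ≤ ρ₀ - 3 * Θ) {Y : Set ℝ} (hY : MeasurableSet Y)
    (hY' : ∀ y ∈ Y, y ≤ s - 7 * Θ ∨ s + 8 * Θ ≤ y) :
    ∫⁻ p in Icc s (s + Θ) ×ˢ Y, ENNReal.ofReal (f p.1 ^ 2) ∂ν ≤
      2 * ν (Icc s (s + 3 * Θ) ×ˢ Y) := by
  obtain ⟨s1, s2⟩ := abs_le.1 hs
  have h2η : 0 < 2 * η := by linarith
  set K := ⌊Θ / (2 * η)⌋₊ + 1 with hK
  have hk : ∀ k < K, (k : ℝ) * (2 * η) ≤ Θ := fun k hk => by
    rw [← le_div_iff₀ h2η]
    exact (Nat.le_floor_iff (div_nonneg (by linarith) h2η.le)).1 (Nat.lt_succ_iff.1 hk)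
  have hk0 : ∀ k : ℕ, 0 ≤ (k : ℝ) * (2 * η) := fun k => by positivity
  have hlt : ∀ k k' : ℕ, k < k' → s + k * (2 * η) + 2 * η ≤ s + k' * (2 * η) := fun k k' h => by
    have h' : (k : ℝ) + 1 ≤ k' := by exact_mod_cast h
    nlinarith
  have cov : Icc s (s + Θ) ×ˢ Y ⊆
      ⋃ k : Fin K, Icc (s + k.1 * (2 * η)) (s + k.1 * (2 * η) + 2 * η) ×ˢ Y := by
    rintro p ⟨⟨a1, a2⟩, a3⟩
    have b0 : 0 ≤ (p.1 - s) / (2 * η) := div_nonneg (by linarith) h2η.le
    have b1 : ⌊(p.1 - s) / (2 * η)⌋₊ < K :=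
      Nat.lt_succ_iff.2 (Nat.floor_le_floor (div_le_div_of_nonneg_right (by linarith) h2η.le))
    have b2 := (le_div_iff₀ h2η).1 (Nat.floor_le b0)
    have b3 := (div_lt_iff₀ h2η).1 (Nat.lt_floor_add_one ((p.1 - s) / (2 * η)))
    exact mem_iUnion.2 ⟨⟨_, b1⟩, ⟨by dsimp only; linarith, by dsimp only; linarith⟩, a3⟩
  have d1 := A8_disj ν hY (J := Icc s (s + 3 * Θ))
    (fun k => Ico (s + k * (2 * η)) (s + k * (2 * η) + 2 * η)) K (fun _ => measurableSet_Ico)
    (fun k k' h => Set.disjoint_left.2 fun x a b => by linarith [hlt k k' h, a.2, b.1])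
    fun k h x a => ⟨by linarith [hk0 k, a.1], by linarith [hk k h, a.2]⟩
  have d2 := A8_disj ν hY (J := Icc s (s + 3 * Θ))
    (fun k => Ioc (s + k * (2 * η)) (s + k * (2 * η) + 2 * η)) K (fun _ => measurableSet_Ioc)
    (fun k k' h => Set.disjoint_left.2 fun x a b => by linarith [hlt k k' h, a.2, b.1])
    fun k h x a => ⟨by linarith [hk0 k, a.1], by linarith [hk k h, a.2]⟩
  refine (lintegral_mono_set cov).trans ((lintegral_iUnion_le _ _).trans ?_)
  rw [tsum_fintype, two_mul (ν _)]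
  refine le_trans ?_ (add_le_add d1 d2)
  rw [← Finset.sum_add_distrib, Finset.sum_range]
  refine Finset.sum_le_sum fun k _ => ?_
  have c1 := hk k.1 k.2
  have c2 := hk0 k.1
  refine (hT _ (abs_le.2 ⟨by linarith, by linarith⟩) Y hY fun y hy => ?_).trans
    ((measure_mono ?_).trans (measure_union_le _ _))
  · exact (hY' y hy).imp (fun h => by linarith) fun h => by linarith
  · rintro p ⟨⟨a1, a2⟩, a3⟩
    rcases a2.lt_or_eq with h | h
    · exact Or.inl ⟨⟨a1, h⟩, a3⟩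
    · exact Or.inr ⟨⟨by linarith, a2⟩, a3⟩

theorem Dp_int {θ : ℕ → ℝ} (h0 : ∀ n, 0 < θ n) (h1 : Antitone θ) {f : ℕ → ℝ → ℝ} {j : ℕ}
    (hm : ∀ l, j ≤ l → Measurable (f l)) (hf : ∀ l, j ≤ l → ∀ t, 0 ≤ f l t) {ρ₀ B : ℝ}
    {ν : Measure (ℝ × ℝ)} (hT : ∀ l, j ≤ l → Tail ρ₀ (θ l) (f l) ν) (hK : KB ρ₀ (θ j) B ν)
    (n : ℕ) {s : ℝ} (hs : |s| ≤ ρ₀ - 3 * θ j) :
    ∫⁻ p in {p : ℝ × ℝ | p.1 ∈ Icc s (s + θ j) ∧ 8 * θ j ≤ |p.1 - p.2|},
      ENNReal.ofReal ((1 + Dp f j n p.1) ^ 2) ∂ν ≤ ENNReal.ofReal (1000 * B) := by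
  have hθ := h0 j
  set Y : Set ℝ := Iic (s - 7 * θ j) ∪ Ici (s + 8 * θ j) with hYd
  have hY : MeasurableSet Y := measurableSet_Iic.union measurableSet_Ici
  obtain ⟨s1, s2⟩ := abs_le.1 hs
  have hsub : {p : ℝ × ℝ | p.1 ∈ Icc s (s + θ j) ∧ 8 * θ j ≤ |p.1 - p.2|} ⊆
      Icc s (s + θ j) ×ˢ Y := by
    rintro p ⟨⟨a1, a2⟩, a3⟩
    refine ⟨⟨a1, a2⟩, ?_⟩
    rcases le_abs.1 a3 with h | h
    · exact Or.inl (show p.2 ≤ _ by linarith)
    · exact Or.inr (show _ ≤ p.2 by linarith)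
  have one : ∀ t, s ≤ t → t ≤ s + 2 * θ j → ν (Icc t (t + θ j) ×ˢ Y) ≤ ENNReal.ofReal B := by
    intro t t1 t2
    refine le_trans (measure_mono ?_) (hK t (abs_le.2 ⟨by linarith, by linarith⟩))
    rintro p ⟨⟨a1, a2⟩, a3 | a3⟩
    · have a4 : p.2 ≤ s - 7 * θ j := a3
      exact ⟨⟨a1, a2⟩, le_abs.2 (Or.inl (by linarith))⟩
    · have a4 : s + 8 * θ j ≤ p.2 := a3
      exact ⟨⟨a1, a2⟩, le_abs.2 (Or.inr (by linarith))⟩
  have three : ν (Icc s (s + 3 * θ j) ×ˢ Y) ≤ 3 * ENNReal.ofReal B := by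
    have c : Icc s (s + 3 * θ j) ×ˢ Y ⊆ (Icc s (s + θ j) ×ˢ Y ∪
        Icc (s + θ j) (s + θ j + θ j) ×ˢ Y) ∪ Icc (s + 2 * θ j) (s + 2 * θ j + θ j) ×ˢ Y := by
      rintro p ⟨⟨a1, a2⟩, a3⟩
      rcases le_total p.1 (s + θ j) with h | h
      · exact Or.inl (Or.inl ⟨⟨a1, h⟩, a3⟩)
      rcases le_total p.1 (s + 2 * θ j) with h' | h'
      · exact Or.inl (Or.inr ⟨⟨h, by linarith⟩, a3⟩)
      · exact Or.inr ⟨⟨h', by linarith⟩, a3⟩
    refine (measure_mono c).trans ((measure_union_le _ _).trans ?_)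
    refine (add_le_add ((measure_union_le _ _).trans (add_le_add (one s le_rfl (by linarith))
      (one _ (by linarith) (by linarith)))) (one _ (by linarith) le_rfl)).trans (le_of_eq ?_)
    ring
  have lev : ∀ i : ℕ, ∫⁻ p in Icc s (s + θ j) ×ˢ Y, ENNReal.ofReal (f (j + i) p.1 ^ 2) ∂ν ≤
      6 * ENNReal.ofReal B := fun i => by
    refine (A8_tail (h0 (j + i)) (h1 (Nat.le_add_right j i)) (hT _ (Nat.le_add_right j i)) hs hY
      fun y hy => hy).trans ((mul_le_mul_right three 2).trans (le_of_eq ?_))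
    ring
  have hmeas : ∀ i : ℕ, Measurable fun p : ℝ × ℝ => ENNReal.ofReal (f (j + i) p.1 ^ 2) := fun i =>
    (((hm _ (Nat.le_add_right j i)).comp measurable_fst).pow_const 2).ennreal_ofReal
  calc ∫⁻ p in {p : ℝ × ℝ | p.1 ∈ Icc s (s + θ j) ∧ 8 * θ j ≤ |p.1 - p.2|},
        ENNReal.ofReal ((1 + Dp f j n p.1) ^ 2) ∂ν
      ≤ ∫⁻ p in Icc s (s + θ j) ×ˢ Y, (162 + ∑ i ∈ Finset.range n,
          ENNReal.ofReal (16 * (2 * (3 / 4) ^ i)) * ENNReal.ofReal (f (j + i) p.1 ^ 2)) ∂ν := by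
        refine (lintegral_mono_set hsub).trans (lintegral_mono fun p => ?_)
        refine (ENNReal.ofReal_le_ofReal (A8_sq n fun i => hf _ (Nat.le_add_right j i) p.1)).trans
          (le_of_eq ?_)
        rw [ENNReal.ofReal_add (by norm_num) (by positivity),
          ENNReal.ofReal_sum_of_nonneg fun i _ => by positivity]
        simp only [ENNReal.ofReal_ofNat]
        refine congrArg _ (Finset.sum_congr rfl fun i _ => ?_)
        rw [ENNReal.ofReal_mul (by positivity)]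
    _ = 162 * ν (Icc s (s + θ j) ×ˢ Y) + ∑ i ∈ Finset.range n,
          ENNReal.ofReal (16 * (2 * (3 / 4) ^ i)) *
            ∫⁻ p in Icc s (s + θ j) ×ˢ Y, ENNReal.ofReal (f (j + i) p.1 ^ 2) ∂ν := by
        rw [lintegral_add_left measurable_const, setLIntegral_const,
          lintegral_finsetSum _ fun i _ => (hmeas i).const_mul _]
        refine congrArg _ (Finset.sum_congr rfl fun i _ => ?_)
        rw [lintegral_const_mul _ (hmeas i)]
    _ ≤ 162 * ENNReal.ofReal B + ∑ i ∈ Finset.range n,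
          ENNReal.ofReal (16 * (2 * (3 / 4) ^ i)) * (6 * ENNReal.ofReal B) :=
        add_le_add (mul_le_mul_right (one s le_rfl (by linarith)) _)
          (Finset.sum_le_sum fun i _ => mul_le_mul_right (lev i) _)
    _ ≤ 162 * ENNReal.ofReal B + ENNReal.ofReal 128 * (6 * ENNReal.ofReal B) := by
        rw [← Finset.sum_mul, ← ENNReal.ofReal_sum_of_nonneg fun i _ => by positivity,
          ← Finset.mul_sum]
        refine add_le_add le_rfl (mul_le_mul_left (ENNReal.ofReal_le_ofReal ?_) _)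
        linarith [A8_w n]
    _ ≤ ENNReal.ofReal (1000 * B) := by
        rw [ENNReal.ofReal_mul (by norm_num), ENNReal.ofReal_ofNat, ENNReal.ofReal_ofNat,
          ← mul_assoc, ← add_mul]
        exact mul_le_mul_left (by norm_num) _

theorem A8_le {Θ : ℝ} (hΘ : 0 < Θ) (k : ℕ) : Θ * (1 / 2) ^ k ≤ Θ :=
  mul_le_of_le_one_right hΘ.le (pow_le_one₀ (by norm_num) (by norm_num))

theorem A8_norm (a b : ℝ) : ‖pt 0 a - pt 0 b‖ = |a - b| := by
  have e : pt 0 a - pt 0 b = ((a - b : ℝ) : ℂ) * Complex.I := by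
    apply Complex.ext <;> simp [pt]
  rw [e, norm_mul, Complex.norm_I, mul_one, Complex.norm_real, Real.norm_eq_abs]

theorem A8_cls {Θ ρ₀ R : ℝ} (hΘ : 0 < Θ) {F L : ℂ → ℝ} {S : ℝ → ℝ} (h : Inv Θ F L S)
    (μ : Measure (ℝ × ℝ)) [SFinite μ] {η : ℝ} (hη : 0 < η) (hη' : η ≤ Θ) (hK : KB ρ₀ η R μ) :
    ∫⁻ p in {p : ℝ × ℝ | |p.1| ≤ ρ₀ - η ∧ 2 * η ≤ |p.1 - p.2| ∧ |p.1 - p.2| ≤ 8 * η},
      ENNReal.ofReal ((F (pt 0 p.1) - F (pt 0 p.2)) ^ 2) ∂μ ≤
      ENNReal.ofReal η * (ENNReal.ofReal (64 * Real.exp 20) * ENNReal.ofReal R *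
        ∫⁻ t, ENNReal.ofReal (S t ^ 2)) := by
  have m0 : Measurable fun p : ℝ × ℝ => |p.1 - p.2| := (measurable_fst.sub measurable_snd).abs
  have m1 : MeasurableSet {p : ℝ × ℝ | 2 * η ≤ |p.1 - p.2|} := measurableSet_le measurable_const m0
  have m2 : MeasurableSet {p : ℝ × ℝ | |p.1| ≤ ρ₀ - η ∧ 2 * η ≤ |p.1 - p.2| ∧
      |p.1 - p.2| ≤ 8 * η} :=
    (measurableSet_le measurable_fst.abs measurable_const).inter
      (m1.inter (measurableSet_le m0 measurable_const))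
  have m3 : Measurable fun t => ENNReal.ofReal (S t ^ 2) := (h.S_meas.pow_const 2).ennreal_ofReal
  have t2 := tile2 (ρ := ρ₀) hη (by linarith) h.S_meas h.S_nonneg h.S_slow μ
    (g := {p : ℝ × ℝ | 2 * η ≤ |p.1 - p.2|}.indicator 1) (measurable_one.indicator m1)
    (β := fun _ => ENNReal.ofReal R) measurable_const fun t ht => by
      rw [lintegral_indicator_one m1, Measure.restrict_apply m1, inter_comm]
      exact hK t ht
  calc ∫⁻ p in {p : ℝ × ℝ | |p.1| ≤ ρ₀ - η ∧ 2 * η ≤ |p.1 - p.2| ∧ |p.1 - p.2| ≤ 8 * η},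
        ENNReal.ofReal ((F (pt 0 p.1) - F (pt 0 p.2)) ^ 2) ∂μ
      ≤ ∫⁻ p in {p : ℝ × ℝ | |p.1| ≤ ρ₀ - η ∧ 2 * η ≤ |p.1 - p.2| ∧ |p.1 - p.2| ≤ 8 * η},
          ENNReal.ofReal ((Real.exp 8 * (8 * η)) ^ 2) * (ENNReal.ofReal (S p.1 ^ 2) *
            {p : ℝ × ℝ | 2 * η ≤ |p.1 - p.2|}.indicator 1 p) ∂μ := by
        refine setLIntegral_mono' m2 fun p hp => ?_
        obtain ⟨-, a2, a3⟩ := hp
        rw [indicator_of_mem (show p ∈ {p : ℝ × ℝ | 2 * η ≤ |p.1 - p.2|} from a2), Pi.one_apply,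
          mul_one, ← ENNReal.ofReal_mul (by positivity), ← mul_pow]
        refine ENNReal.ofReal_le_ofReal (sq_le_sq' ?_ ?_) <;>
        · have b1 := h.lip (pt 0 p.1) (le_refl (0 : ℝ)) (pt 0 p.2) (le_refl (0 : ℝ))
          rw [A8_norm] at b1
          have b2 : L (pt 0 p.1) ≤ S p.1 := h.L_le (pt 0 p.1) (le_refl (0 : ℝ))
          have b3 : Real.exp (|p.1 - p.2| / Θ) ≤ Real.exp 8 :=
            Real.exp_le_exp.2 ((div_le_iff₀ hΘ).2 (by linarith))
          have b4 := mul_le_mul (mul_le_mul b2 b3 (Real.exp_pos _).le (h.S_nonneg _)) a3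
            (abs_nonneg _) (mul_nonneg (h.S_nonneg _) (Real.exp_pos _).le)
          have b5 := abs_le.1 (b1.trans b4)
          linarith [b5.1, b5.2]
    _ ≤ ENNReal.ofReal ((Real.exp 8 * (8 * η)) ^ 2) * ∫⁻ p in {p : ℝ × ℝ | |p.1| ≤ ρ₀ - η},
          ENNReal.ofReal (S p.1 ^ 2) * {p : ℝ × ℝ | 2 * η ≤ |p.1 - p.2|}.indicator 1 p ∂μ := by
        rw [lintegral_const_mul' _ _ ENNReal.ofReal_ne_top]
        exact mul_le_mul_right (lintegral_mono_set fun p hp => hp.1) _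
    _ ≤ ENNReal.ofReal ((Real.exp 8 * (8 * η)) ^ 2) * (ENNReal.ofReal (Real.exp 4 / η) *
          ∫⁻ t, ENNReal.ofReal (S t ^ 2) * ENNReal.ofReal R) := mul_le_mul_right t2 _
    _ = _ := by
        have e : (Real.exp 8 * (8 * η)) ^ 2 * (Real.exp 4 / η) = η * (64 * Real.exp 20) := by
          rw [show (20 : ℝ) = 8 + 8 + 4 by norm_num, Real.exp_add, Real.exp_add]
          field_simp
          ring
        rw [lintegral_mul_const _ m3, ← mul_assoc, ← ENNReal.ofReal_mul (by positivity), e,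
          ENNReal.ofReal_mul hη.le]
        ring

theorem deep {Θ ρ₀ R : ℝ} (hΘ : 0 < Θ) {F L : ℂ → ℝ} {S : ℝ → ℝ} (h : Inv Θ F L S)
    (μ : Measure (ℝ × ℝ)) [SFinite μ] (hK : ∀ η, 0 < η → η ≤ Θ → KB ρ₀ η R μ) :
    ∫⁻ p in Cls (ρ₀ - Θ) 0 (8 * Θ), ENNReal.ofReal ((F (pt 0 p.1) - F (pt 0 p.2)) ^ 2) ∂μ ≤
      ENNReal.ofReal (128 * Real.exp 20 * R) * Fl Θ S := by
  let η : ℕ → ℝ := fun k => Θ * (1 / 2) ^ k
  have hη : ∀ k, 0 < η k := fun k => by positivity
  have cov : Cls (ρ₀ - Θ) 0 (8 * Θ) ⊆ {p : ℝ × ℝ | p.1 = p.2} ∪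
      ⋃ k, {p : ℝ × ℝ | |p.1| ≤ ρ₀ - η k ∧ 2 * η k ≤ |p.1 - p.2| ∧ |p.1 - p.2| ≤ 8 * η k} := by
    rintro p ⟨a1, -, -, a2⟩
    by_cases e : p.1 = p.2
    · exact Or.inl e
    have b0 : 0 < |p.1 - p.2| := abs_pos.2 (sub_ne_zero.2 e)
    have b8 : 0 < 8 * Θ := by linarith
    obtain ⟨k, b1, b2⟩ := exists_nat_pow_near_of_lt_one (x := |p.1 - p.2| / (8 * Θ)) (y := 1 / 2)
      (div_pos b0 b8) ((div_le_one b8).2 a2.le) (by norm_num) (by norm_num)
    rw [lt_div_iff₀ b8, pow_succ] at b1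
    rw [div_le_iff₀ b8] at b2
    have b3 := A8_le hΘ k
    have b4 := hη k
    have b5 : η k = Θ * (1 / 2) ^ k := rfl
    exact Or.inr (mem_iUnion.2 ⟨k, by linarith, by linarith, by linarith⟩)
  have diag : ∫⁻ p in {p : ℝ × ℝ | p.1 = p.2},
      ENNReal.ofReal ((F (pt 0 p.1) - F (pt 0 p.2)) ^ 2) ∂μ = 0 := by
    refine le_antisymm ?_ bot_le
    refine (setLIntegral_mono' (g := fun _ => 0)
      (measurableSet_eq_fun measurable_fst measurable_snd) fun p hp => ?_).trans (by simp)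
    rw [show p.1 = p.2 from hp]
    simp
  refine (lintegral_mono_set cov).trans ((lintegral_union_le _ _ _).trans ?_)
  rw [diag, zero_add]
  refine (lintegral_iUnion_le _ _).trans ((ENNReal.tsum_le_tsum fun k =>
    A8_cls hΘ h μ (hη k) (A8_le hΘ k) (hK _ (hη k) (A8_le hΘ k))).trans (le_of_eq ?_))
  have hs : HasSum η (Θ * 2) := hasSum_geometric_two.mul_left Θ
  rw [ENNReal.tsum_mul_right, ← ENNReal.ofReal_tsum_of_nonneg (fun k => (hη k).le) hs.summable,
    hs.tsum_eq, Fl, show 128 * Real.exp 20 * R = 2 * (64 * Real.exp 20) * R by ring,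
    ENNReal.ofReal_mul hΘ.le, ENNReal.ofReal_mul (q := R) (by positivity),
    ENNReal.ofReal_mul (p := 2) (by positivity)]
  ring

end Pool.Agent.Work.MP_042f46_an.Fu
end
end
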