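import Pool.Agent.Work.MP_042f46_an.F.Defs

-- merged part: Pool.Agent.Work.MP_042f46_an.F.R1
section
/-!
# The distance to the zeros

Plan.  Let `m, z, a` be the data of `Fac`, `P y = a ∏ ‖y - z i‖ ^ 2`, `d y = min s (min over i of ‖y - z i‖)` (for instance `Finset.univ.fold min s`, or `min s (infDist y (range z))` when `m > 0`).  `pos`: `0 < u y ≤ A P y`.  `flat`: `‖y' - z i‖ ≤ 3 ‖y'' - z i‖`.  `grow`: `‖y - z i‖ ≤ (1 + |y - y'| / d y') ‖y' - z i‖`.  `gen`: among `m + 1` disjoint subintervals of `[a, a + D]` of length `D / (m + 1)` one has no `re (z i)` in its interior; take its middle point.  For `rev` and `low` (when `d y = ‖y - z j‖ < s`) take `y'` from `gen` in `[y, y + D]` (`D = s` for `low`): `‖y' - z i‖ ≥ ‖y - z i‖ / (4 A + 4)` for all `i` (if `‖y - z i‖ ≥ 2 D` the ratio is at least `1 / 2`, otherwise `‖y' - z i‖ ≥ D / (2 A + 2)`), and `‖y' - z j‖ ≥ D / (2 A + 2)`; so `P y' ≥ c (D / d y) ^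 2 P y`, and `u y' ≤ A s`.  `half`: `d ^ (-1 / 2) ≤ s ^ (-1 / 2) + ∑ |y - re (z i)| ^ (-1 / 2)` almost everywhere.  `win`: the points with `d y = s` give at most `2`; if `d y = ‖y - z j‖ ≤ d y' = ‖y' - z j‖` then `‖y - z i‖ ≤ 3 ‖y' - z i‖` for all `i`, so `P y' ≥ 9⁻¹ ^ A (d y' / d y) ^ 2 P y` and in the window `d y' ≤ C1 A Λ d y`; the class of `j` lies in an interval of length `2 sup d` and has `d ≥ sup d / (C1 A Λ)`.
-/

open Set Metric Topology Filter MeasureTheory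
open scoped ENNReal NNReal

noncomputable section
namespace Pool.Agent.Work.MP_042f46_an.Fu

open Pool.Agent.Work.MP_042f46_an.Ty

/-- the ratio allowed on a flat interval -/
def C1 (A : ℕ) : ℝ := (A : ℝ) ^ 2 * 9 ^ A

/-- properties of the distance to the zeros -/
structure Scale (A : ℕ) (C : ℝ) (u : ℝ → ℝ) (x s : ℝ) (d : ℝ → ℝ) : Prop where
  lip : ∀ y y', |d y - d y'| ≤ |y - y'|
  le : ∀ y, d y ≤ s
  pos : ∀ y ∈ Icc (x - 2 * s) (x + 2 * s), 0 < d y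
  top : ∀ y ∈ Icc (x - 2 * s) (x + 2 * s), u y ≤ A * s
  flat : ∀ y ∈ Icc (x - s) (x + s), ∀ y' y'', |y' - y| ≤ d y / 2 → |y'' - y| ≤ d y / 2 →
    u y' ≤ C1 A * u y''
  grow : ∀ y ∈ Icc (x - 2 * s) (x + 2 * s), ∀ y' ∈ Icc (x - 2 * s) (x + 2 * s),
    u y ≤ (A : ℝ) ^ 2 * (1 + |y - y'| / d y') ^ (2 * A) * u y'
  gen : ∀ a D, 0 < D → ∃ y ∈ Icc a (a + D), min D s ≤ C * d y
  rev : ∀ y ∈ Icc (x - s) (x + s), ∀ D, 0 < D → D ≤ s →
    (∀ y' ∈ Icc y (y + D), u y' ≤ C1 A * u y) → D ≤ C * d y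
  low : ∀ y ∈ Icc (x - s) (x + s), u y * s ≤ C * d y ^ 2
  half : ∫⁻ y in Icc (x - s) (x + s), ENNReal.ofReal (1 / √(d y * s)) ≤ ENNReal.ofReal C
  win : ∀ κ Λ : ℝ, 0 < κ → 1 ≤ Λ →
    ∫⁻ y in {y | y ∈ Icc (x - s) (x + s) ∧ κ * u y ≤ d y ∧ d y ≤ Λ * κ * u y},
      ENNReal.ofReal (1 / d y) ≤ ENNReal.ofReal (C * Λ)

lemma R1_lip (z : ℂ) (y y' : ℝ) : ‖(y : ℂ) - z‖ ≤ ‖(y' : ℂ) - z‖ + |y - y'| := by
  have e : (y : ℂ) - z = ((y' : ℂ) - z) + ((y - y' : ℝ) : ℂ) := by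
    push_cast
    ring
  rw [e]
  refine (norm_add_le _ _).trans (le_of_eq ?_)
  rw [Complex.norm_real, Real.norm_eq_abs]

lemma R1_re (z : ℂ) (y : ℝ) : |y - z.re| ≤ ‖(y : ℂ) - z‖ := by
  simpa using Complex.abs_re_le_norm ((y : ℂ) - z)

lemma R1_prod {m A : ℕ} (s : Finset (Fin m)) (hm : m ≤ A) {f g : Fin m → ℝ} {t : ℝ} (ht : 1 ≤ t)
    (hf : ∀ i, 0 ≤ f i) (h : ∀ i, f i ≤ t * g i) :
    ∏ i ∈ s, f i ^ 2 ≤ t ^ (2 * A) * ∏ i ∈ s, g i ^ 2 := by
  calc ∏ i ∈ s, f i ^ 2 ≤ ∏ i ∈ s, (t ^ 2 * g i ^ 2) :=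
        Finset.prod_le_prod (fun i _ => sq_nonneg _) fun i _ => by
          rw [← mul_pow]
          exact pow_le_pow_left₀ (hf i) (h i) 2
    _ = t ^ (2 * s.card) * ∏ i ∈ s, g i ^ 2 := by
        rw [Finset.prod_mul_distrib, Finset.prod_const, ← pow_mul]
    _ ≤ _ := by
        refine mul_le_mul_of_nonneg_right (pow_le_pow_right₀ ht ?_)
          (Finset.prod_nonneg fun i _ => sq_nonneg _)
        have := Finset.card_le_univ s
        rw [Fintype.card_fin] at this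
        omega

lemma R1_prod' {m A : ℕ} (hm : m ≤ A) {f g : Fin m → ℝ} {t τ : ℝ} (ht : 1 ≤ t)
    (hf : ∀ i, 0 ≤ f i) (h : ∀ i, f i ≤ t * g i) (j : Fin m) (hj : f j ≤ τ * g j) :
    ∏ i, f i ^ 2 ≤ t ^ (2 * A) * τ ^ 2 * ∏ i, g i ^ 2 := by
  rw [← Finset.mul_prod_erase _ _ (Finset.mem_univ j),
    ← Finset.mul_prod_erase _ (fun i => g i ^ 2) (Finset.mem_univ j)]
  have h1 := R1_prod (Finset.univ.erase j) hm ht hf h
  have h2 : f j ^ 2 ≤ (τ * g j) ^ 2 := pow_le_pow_left₀ (hf j) hj 2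
  calc _ ≤ (τ * g j) ^ 2 * (t ^ (2 * A) * ∏ i ∈ Finset.univ.erase j, g i ^ 2) :=
        mul_le_mul h2 h1 (Finset.prod_nonneg fun i _ => sq_nonneg _) (sq_nonneg _)
    _ = _ := by ring

lemma R1_gen {m A : ℕ} (hm : m ≤ A) (r : Fin m → ℝ) (a : ℝ) {D : ℝ} (hD : 0 < D) :
    ∃ y ∈ Icc a (a + D), ∀ i, D / (2 * A + 2) ≤ |y - r i| := by
  by_contra hn
  push Not at hn
  obtain ⟨h, hh⟩ : ∃ h : ℝ, h = D / (2 * A + 2) := ⟨_, rfl⟩
  have h0 : 0 < h := by
    rw [hh]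
    positivity
  have h1 : (2 * A + 2) * h = D := by
    rw [hh]
    field_simp
  have hm' : ∀ k : Fin (A + 1), a + (2 * (k : ℕ) + 1) * h ∈ Icc a (a + D) := fun k => by
    have k1 : ((k : ℕ) : ℝ) ≤ A := by exact_mod_cast Nat.lt_succ_iff.1 k.2
    have k0 : (0 : ℝ) ≤ (k : ℕ) := Nat.cast_nonneg _
    constructor <;> nlinarith
  choose f hf using fun k => hn _ (hm' k)
  obtain ⟨k, k', hk, e⟩ := Fintype.exists_ne_map_eq_of_card_lt f (by simp; omega)
  have a1 := abs_lt.1 (hf k)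
  have a2 := abs_lt.1 (hf k')
  rw [e, ← hh] at a1
  rw [← hh] at a2
  rcases lt_or_gt_of_ne hk with q | q
  · have : ((k : ℕ) : ℝ) + 1 ≤ (k' : ℕ) := by exact_mod_cast q
    nlinarith
  · have : ((k' : ℕ) : ℝ) + 1 ≤ (k : ℕ) := by exact_mod_cast q
    nlinarith

/-- the one-sided singular weight -/
def R1_G (s : ℝ) : ℝ → ℝ≥0∞ := (Ioc 0 s).indicator fun t => ENNReal.ofReal (1 / √(t * s))

lemma R1_G_meas (s : ℝ) : Measurable (R1_G s) :=
  Measurable.indicator (by fun_prop) measurableSet_Ioc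

lemma R1_G_int {s : ℝ} (hs : 0 < s) : ∫⁻ t, R1_G s t = ENNReal.ofReal 2 := by
  have hi : IntervalIntegrable (fun t : ℝ => t ^ (-(1 / 2) : ℝ) * (√s)⁻¹) volume 0 s :=
    (intervalIntegral.intervalIntegrable_rpow' (by norm_num)).mul_const _
  have e : ∀ t ∈ Ioc 0 s, ENNReal.ofReal (1 / √(t * s)) =
      ENNReal.ofReal (t ^ (-(1 / 2) : ℝ) * (√s)⁻¹) := fun t ht => by
    rw [Real.sqrt_mul ht.1.le, Real.rpow_neg ht.1.le, ← Real.sqrt_eq_rpow, one_div, mul_inv]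
  rw [R1_G, lintegral_indicator measurableSet_Ioc, setLIntegral_congr_fun measurableSet_Ioc e,
    ← ofReal_integral_eq_lintegral_ofReal hi.1 ((ae_restrict_iff' measurableSet_Ioc).2
      (Eventually.of_forall fun t ht => by
        have := ht.1
        positivity)),
    ← intervalIntegral.integral_of_le hs.le, intervalIntegral.integral_mul_const,
    integral_rpow (Or.inl (by norm_num))]
  congr 1
  have h1 : √s ≠ 0 := by positivity
  rw [show (-(1 / 2) + 1 : ℝ) = 1 / 2 by norm_num, Real.zero_rpow (by norm_num),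
    ← Real.sqrt_eq_rpow]
  field_simp
  ring

lemma R1_half {m A : ℕ} (hm : m ≤ A) (r : Fin m → ℝ) (x : ℝ) {s : ℝ} (hs : 0 < s) {d : ℝ → ℝ}
    (h1 : ∀ y, d y ≤ s) (h2 : ∀ y, s ≤ d y ∨ ∃ j, |y - r j| ≤ d y) :
    ∫⁻ y in Icc (x - s) (x + s), ENNReal.ofReal (1 / √(d y * s)) ≤ ENNReal.ofReal (2 + 4 * A) := by
  have hae : ∀ᵐ y : ℝ, y ∉ range r := (finite_range r).countable.ae_notMem volume
  have hp : ∀ y, y ∉ range r → ENNReal.ofReal (1 / √(d y * s)) ≤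
      ENNReal.ofReal (1 / s) + ∑ i, (R1_G s (y - r i) + R1_G s (r i - y)) := by
    intro y hy
    rcases h2 y with h | ⟨j, h⟩
    · refine le_trans (ENNReal.ofReal_le_ofReal ?_) le_self_add
      refine one_div_le_one_div_of_le hs (Real.le_sqrt_of_sq_le ?_)
      nlinarith
    · have h0 : 0 < |y - r j| := abs_pos.2 (sub_ne_zero.2 fun e => hy ⟨j, e.symm⟩)
      have h3 : ENNReal.ofReal (1 / √(d y * s)) ≤ R1_G s |y - r j| := by
        rw [R1_G, indicator_of_mem (show |y - r j| ∈ Ioc 0 s from ⟨h0, h.trans (h1 y)⟩)]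
        refine ENNReal.ofReal_le_ofReal (one_div_le_one_div_of_le (by positivity) ?_)
        gcongr
      refine le_trans (h3.trans ?_) (le_add_left (Finset.single_le_sum
        (f := fun i => R1_G s (y - r i) + R1_G s (r i - y)) (fun i _ => zero_le)
        (Finset.mem_univ j)))
      rcases abs_choice (y - r j) with e | e <;> rw [e]
      · exact le_self_add
      · rw [neg_sub]
        exact le_add_self
  have hm1 : ∀ i, Measurable fun y => R1_G s (y - r i) := fun i =>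
    (R1_G_meas s).comp (by fun_prop)
  have hm2 : ∀ i, Measurable fun y => R1_G s (r i - y) := fun i =>
    (R1_G_meas s).comp (by fun_prop)
  refine (lintegral_mono_ae (ae_restrict_of_ae (hae.mono hp))).trans ?_
  rw [lintegral_add_left measurable_const, setLIntegral_const, Real.volume_Icc,
    ← ENNReal.ofReal_mul (by positivity), ENNReal.ofReal_add (by norm_num) (by positivity)]
  refine add_le_add (ENNReal.ofReal_le_ofReal (le_of_eq ?_))
    ((setLIntegral_le_lintegral _ _).trans ?_)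
  · field_simp
    ring
  · rw [lintegral_finsetSum _ fun i _ => (hm1 i).fun_add (hm2 i)]
    have e : ∀ i, ∫⁻ y, (R1_G s (y - r i) + R1_G s (r i - y)) = ENNReal.ofReal 4 := fun i => by
      rw [lintegral_add_left (hm1 i), lintegral_sub_right_eq_self, lintegral_sub_left_eq_self,
        R1_G_int hs, ← ENNReal.ofReal_add (by norm_num) (by norm_num)]
      norm_num
    rw [Finset.sum_congr rfl fun i _ => e i, Finset.sum_const, Finset.card_univ, Fintype.card_fin,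
      nsmul_eq_mul, ← ENNReal.ofReal_natCast, ← ENNReal.ofReal_mul (Nat.cast_nonneg _)]
    refine ENNReal.ofReal_le_ofReal ?_
    have : (m : ℝ) ≤ A := by exact_mod_cast hm
    linarith

lemma R1_class {W : Set ℝ} {d : ℝ → ℝ} {r s B : ℝ} (hB : 0 ≤ B) (h0 : ∀ y ∈ W, 0 < d y)
    (h1 : ∀ y, d y ≤ s) (h2 : ∀ y ∈ W, |y - r| ≤ d y) (h3 : ∀ y ∈ W, ∀ y' ∈ W, d y' ≤ B * d y) :
    ∫⁻ y in W, ENNReal.ofReal (1 / d y) ≤ ENNReal.ofReal (2 * B) := by
  rcases W.eq_empty_or_nonempty with rfl | ⟨y0, hy0⟩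
  · simp
  have hb : BddAbove (d '' W) := ⟨s, by rintro _ ⟨y, -, rfl⟩; exact h1 y⟩
  obtain ⟨S, hS⟩ : ∃ S, S = sSup (d '' W) := ⟨_, rfl⟩
  have a1 : ∀ y ∈ W, d y ≤ S := fun y hy => hS ▸ le_csSup hb ⟨y, hy, rfl⟩
  have a2 : ∀ y ∈ W, S ≤ B * d y := fun y hy => hS ▸ csSup_le ⟨_, y0, hy0, rfl⟩ (by
    rintro _ ⟨y', hy', rfl⟩
    exact h3 y hy y' hy')
  have a3 : 0 < S := (h0 y0 hy0).trans_le (a1 y0 hy0)
  calc ∫⁻ y in W, ENNReal.ofReal (1 / d y) ≤ ∫⁻ _ in W, ENNReal.ofReal (B / S) :=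
        setLIntegral_mono measurable_const fun y hy => ENNReal.ofReal_le_ofReal (by
          rw [div_le_div_iff₀ (h0 y hy) a3, one_mul]
          exact a2 y hy)
    _ ≤ ∫⁻ _ in Icc (r - S) (r + S), ENNReal.ofReal (B / S) :=
        lintegral_mono_set fun y hy => by
          have := abs_le.1 ((h2 y hy).trans (a1 y hy))
          constructor <;> linarith [this.1, this.2]
    _ = _ := by
        rw [setLIntegral_const, Real.volume_Icc, ← ENNReal.ofReal_mul (by positivity)]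
        congr 1
        field_simp
        ring

theorem Fac.scale (A : ℕ) : ∃ C : ℝ, 1 ≤ C ∧ ∀ (u : ℝ → ℝ) (x s : ℝ), 1 ≤ A → 0 < s →
    Fac A u x s → (∀ y ∈ Icc (x - 2 * s) (x + 2 * s), 0 < u y) → ∃ d, Scale A C u x s d := by
  obtain ⟨T, hT⟩ : ∃ T : ℝ, T = (2 * A + 3) ^ (2 * A) := ⟨_, rfl⟩
  have A0 : (0 : ℝ) ≤ A := Nat.cast_nonneg A
  have T1 : 1 ≤ T := hT ▸ one_le_pow₀ (by linarith)
  have c0 : 0 ≤ C1 A := by
    unfold C1
    positivity
  obtain ⟨C, k1, k2, k3, k4, k5⟩ : ∃ C : ℝ, 2 + 4 * A ≤ C ∧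
      (2 * A + 2) * (T * (A ^ 2 * C1 A)) ≤ C ∧ A ^ 3 * T * (2 * A + 2) ^ 2 ≤ C ∧
      2 + A * (2 * C1 A) ≤ C ∧ 1 ≤ C := by
    have p1 : 0 ≤ (2 * A + 2) * (T * (A ^ 2 * C1 A)) := by positivity
    have p2 : 0 ≤ A ^ 3 * T * (2 * A + 2) ^ 2 := by positivity
    have p3 : 0 ≤ A * (2 * C1 A) := by positivity
    exact ⟨2 + 4 * A + (2 * A + 2) * (T * (A ^ 2 * C1 A)) + A ^ 3 * T * (2 * A + 2) ^ 2 +
      A * (2 * C1 A), by linarith, by linarith, by linarith, by linarith, by linarith⟩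
  refine ⟨C, k5, fun u x s hA hs ⟨m, z, a, hm, ha, hF⟩ hu => ?_⟩
  have A1 : (1 : ℝ) ≤ A := by exact_mod_cast hA
  have c1 : 1 ≤ C1 A := one_le_mul_of_one_le_of_one_le (one_le_pow₀ A1) (one_le_pow₀ (by norm_num))
  obtain ⟨n, hn⟩ : ∃ n : Fin m → ℝ → ℝ, ∀ i y, n i y = ‖(y : ℂ) - z i‖ := ⟨_, fun _ _ => rfl⟩
  simp only [← hn] at hF
  have n0 : ∀ i y, 0 ≤ n i y := fun i y => hn i y ▸ norm_nonneg _
  have nl : ∀ i y y', n i y ≤ n i y' + |y - y'| := fun i y y' => by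
    rw [hn, hn]
    exact R1_lip _ _ _
  have nr : ∀ i y, |y - (z i).re| ≤ n i y := fun i y => hn i y ▸ R1_re _ _
  obtain ⟨d, d1, d2, d3⟩ : ∃ d : ℝ → ℝ, (∀ y, d y ≤ s) ∧ (∀ i y, d y ≤ n i y) ∧
      ∀ y, s ≤ d y ∨ ∃ j, n j y ≤ d y := by
    refine ⟨fun y => Finset.univ.fold min s fun i => n i y, fun y => ?_, fun i y => ?_,
      fun y => ?_⟩
    · exact (Finset.fold_min_le _).2 (Or.inl le_rfl)
    · exact (Finset.fold_min_le _).2 (Or.inr ⟨i, Finset.mem_univ i, le_rfl⟩)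
    · exact ((Finset.fold_min_le _).1 le_rfl).imp id fun ⟨j, _, h⟩ => ⟨j, h⟩
  have d0 : ∀ y, 0 ≤ d y := fun y => by
    rcases d3 y with h | ⟨j, h⟩
    · linarith
    · exact (n0 j y).trans h
  have dpos : ∀ y ∈ Icc (x - 2 * s) (x + 2 * s), 0 < d y := fun y hy => by
    rcases d3 y with h | ⟨j, h⟩
    · linarith
    · refine lt_of_lt_of_le ((n0 j y).lt_of_ne fun e => ?_) h
      have h1 := (hu y hy).trans_le (hF y hy).2.1
      rw [Finset.prod_eq_zero (Finset.mem_univ j) (by rw [← e]; norm_num)] at h1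
      simp at h1
  have sub : ∀ y ∈ Icc (x - s) (x + s), ∀ y', |y' - y| ≤ s → y' ∈ Icc (x - 2 * s) (x + 2 * s) :=
    fun y hy y' h => by
      have := abs_le.1 h
      constructor <;> linarith [hy.1, hy.2, this.1, this.2]
  have sub0 : ∀ y ∈ Icc (x - s) (x + s), y ∈ Icc (x - 2 * s) (x + 2 * s) := fun y hy =>
    sub y hy y (by simpa using hs.le)
  have cmp : ∀ y ∈ Icc (x - 2 * s) (x + 2 * s), ∀ y' ∈ Icc (x - 2 * s) (x + 2 * s), ∀ B : ℝ,
      0 ≤ B → ∏ i, n i y ^ 2 ≤ B * ∏ i, n i y' ^ 2 → u y ≤ (A : ℝ) ^ 2 * B * u y' := by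
    intro y hy y' hy' B hB h
    calc u y ≤ A * (a * ∏ i, n i y ^ 2) := (hF y hy).2.1
      _ ≤ A * (a * (B * ∏ i, n i y' ^ 2)) := by gcongr
      _ = A * B * (a * ∏ i, n i y' ^ 2) := by ring
      _ ≤ A * B * (A * u y') := mul_le_mul_of_nonneg_left (hF y' hy').1 (by positivity)
      _ = _ := by ring
  have e9 : (3 : ℝ) ^ (2 * A) = 9 ^ A := by
    rw [pow_mul]
    norm_num
  have far : ∀ y ∈ Icc (x - s) (x + s), ∀ D, 0 < D → D ≤ s → ∀ j, n j y ≤ d y →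
      ∃ y' ∈ Icc y (y + D), y' ∈ Icc (x - 2 * s) (x + 2 * s) ∧
        u y ≤ (A : ℝ) ^ 2 * (T * (d y * (2 * A + 2) / D) ^ 2) * u y' := by
    intro y hy D hD hDs j hj
    obtain ⟨y', h1, h2⟩ := R1_gen hm (fun i => (z i).re) y hD
    have h3 : |y' - y| ≤ D := abs_le.2 ⟨by linarith [h1.1], by linarith [h1.2]⟩
    have h4 := sub y hy y' (h3.trans hDs)
    have h5 : ∀ i, D ≤ (2 * A + 2) * n i y' := fun i => by
      have := (h2 i).trans (nr i y')
      rwa [div_le_iff₀' (by positivity)] at this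
    refine ⟨y', h1, h4, cmp y (sub0 y hy) y' h4 _ (by positivity) ?_⟩
    rw [hT]
    refine R1_prod' hm (by linarith) (fun i => n0 i y) (fun i => ?_) j (hj.trans ?_)
    · have := nl i y y'
      rw [abs_sub_comm] at this
      linarith [h5 i]
    · rw [div_mul_eq_mul_div, le_div_iff₀ hD, mul_assoc]
      exact mul_le_mul_of_nonneg_left (h5 j) (d0 y)
  have lip1 : ∀ y y', d y ≤ d y' + |y - y'| := fun y y' => by
    rcases d3 y' with h | ⟨j, h⟩
    · linarith [d1 y, abs_nonneg (y - y')]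
    · linarith [d2 j y, nl j y y']
  refine ⟨d, fun y y' => ?_, d1, dpos, fun y hy => (hF y hy).2.2, fun y hy y' y'' h1 h2 => ?_,
    fun y hy y' hy' => ?_, fun b D hD => ?_, fun y hy D hD hDs h => ?_, fun y hy => ?_, ?_,
    fun κ Λ hκ hΛ => ?_⟩
  · have := lip1 y' y
    rw [abs_sub_comm] at this
    exact abs_le.2 ⟨by linarith, by linarith [lip1 y y']⟩
  · refine cmp y' (sub y hy y' (by linarith [d1 y])) y'' (sub y hy y'' (by linarith [d1 y])) _
      (by positivity) ?_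
    rw [← e9]
    refine R1_prod _ hm (by norm_num) (fun i => n0 i y') fun i => ?_
    have := nl i y y''
    rw [abs_sub_comm] at this
    linarith [nl i y' y, d2 i y]
  · have h0 := dpos y' hy'
    have h1 : 0 ≤ |y - y'| / d y' := by positivity
    refine cmp y hy y' hy' _ (by positivity)
      (R1_prod _ hm (by linarith) (fun i => n0 i y) fun i => ?_)
    have h2 : |y - y'| ≤ |y - y'| / d y' * n i y' := by
      rw [div_mul_eq_mul_div, le_div_iff₀ h0]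
      exact mul_le_mul_of_nonneg_left (d2 i y') (abs_nonneg _)
    linarith [nl i y y']
  · obtain ⟨y, h1, h2⟩ := R1_gen hm (fun i => (z i).re) b hD
    refine ⟨y, h1, ?_⟩
    rcases d3 y with h | ⟨j, h⟩
    · nlinarith [min_le_right D s]
    · have := ((h2 j).trans (nr j y)).trans h
      rw [div_le_iff₀' (by positivity)] at this
      nlinarith [min_le_left D s, d0 y]
  · rcases d3 y with q | ⟨j, q⟩
    · nlinarith
    · obtain ⟨y', h1, -, h3⟩ := far y hy D hD hDs j q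
      have h4 := hu y (sub0 y hy)
      have h5 := dpos y (sub0 y hy)
      obtain ⟨w, hw⟩ : ∃ w, w = d y * (2 * A + 2) / D := ⟨_, rfl⟩
      obtain ⟨Q, hQ⟩ : ∃ Q, Q = T * (A ^ 2 * C1 A) := ⟨_, rfl⟩
      have Q1 : 1 ≤ Q := hQ ▸ one_le_mul_of_one_le_of_one_le T1
        (one_le_mul_of_one_le_of_one_le (one_le_pow₀ A1) c1)
      have w0 : 0 < w := by
        rw [hw]
        positivity
      rw [← hw] at h3
      have h6 : 1 * u y ≤ Q * w ^ 2 * u y := by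
        calc 1 * u y ≤ (A : ℝ) ^ 2 * (T * w ^ 2) * u y' := by rwa [one_mul]
          _ ≤ (A : ℝ) ^ 2 * (T * w ^ 2) * (C1 A * u y) := by
              gcongr
              exact h y' h1
          _ = _ := by
              rw [hQ]
              ring
      have h7 : 1 ≤ Q * w ^ 2 := le_of_mul_le_mul_right h6 h4
      have h8 : 1 ≤ Q * w := by
        by_contra hc
        push Not at hc
        have w1 : w ≤ Q * w := le_mul_of_one_le_left w0.le Q1
        nlinarith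
      rw [hw, ← mul_div_assoc, le_div_iff₀ hD, one_mul] at h8
      rw [← hQ] at k2
      nlinarith
  · rcases d3 y with q | ⟨j, q⟩
    · have h1 := (hF y (sub0 y hy)).2.2
      calc u y * s ≤ A * s * s := by gcongr
        _ = A * s ^ 2 := by ring
        _ ≤ C * d y ^ 2 := by
            gcongr
            linarith
    · obtain ⟨y', -, h2, h3⟩ := far y hy s hs le_rfl j q
      calc u y * s ≤ (A : ℝ) ^ 2 * (T * (d y * (2 * A + 2) / s) ^ 2) * (A * s) * s := by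
            refine mul_le_mul_of_nonneg_right (h3.trans ?_) hs.le
            gcongr
            exact (hF y' h2).2.2
        _ = A ^ 3 * T * (2 * A + 2) ^ 2 * d y ^ 2 := by field_simp
        _ ≤ C * d y ^ 2 := by gcongr
  · exact (R1_half hm (fun i => (z i).re) x hs d1 fun y => (d3 y).imp id
      fun ⟨j, h⟩ => ⟨j, (nr j y).trans h⟩).trans (ENNReal.ofReal_le_ofReal k1)
  · obtain ⟨W, hW⟩ : ∃ W : Set ℝ,
        W = {y | y ∈ Icc (x - s) (x + s) ∧ κ * u y ≤ d y ∧ d y ≤ Λ * κ * u y} := ⟨_, rfl⟩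
    have mem : ∀ y ∈ W, y ∈ Icc (x - s) (x + s) ∧ κ * u y ≤ d y ∧ d y ≤ Λ * κ * u y :=
      fun y hy => by rwa [hW] at hy
    rw [← hW]
    have cov : W ⊆ {y | y ∈ W ∧ s ≤ d y} ∪ ⋃ j, {y | y ∈ W ∧ n j y ≤ d y} := fun y hy => by
      rcases d3 y with h | ⟨j, h⟩
      · exact Or.inl ⟨hy, h⟩
      · exact Or.inr (mem_iUnion.2 ⟨j, hy, h⟩)
    have B1 : 1 ≤ C1 A * Λ := one_le_mul_of_one_le_of_one_le c1 hΛ
    have p1 : ∫⁻ y in {y | y ∈ W ∧ s ≤ d y}, ENNReal.ofReal (1 / d y) ≤ ENNReal.ofReal (2 * 1) :=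
      R1_class (r := x) (by norm_num) (fun y hy => hs.trans_le hy.2) d1
        (fun y hy => (abs_le.2 ⟨by linarith [(mem y hy.1).1.1],
          by linarith [(mem y hy.1).1.2]⟩).trans hy.2)
        fun y hy y' _ => by linarith [hy.2, d1 y']
    have p2 : ∀ j, ∫⁻ y in {y | y ∈ W ∧ n j y ≤ d y}, ENNReal.ofReal (1 / d y) ≤
        ENNReal.ofReal (2 * (C1 A * Λ)) := fun j => by
      refine R1_class (r := (z j).re) (by linarith) (fun y hy => dpos y (sub0 y (mem y hy.1).1))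
        d1 (fun y hy => (nr j y).trans hy.2) fun y hy y' hy' => ?_
      obtain ⟨m1, m2, m3⟩ := mem y hy.1
      obtain ⟨m1', m2', m3'⟩ := mem y' hy'.1
      have q0 := dpos y (sub0 y m1)
      have q0' := dpos y' (sub0 y' m1')
      rcases le_total (d y') (d y) with q | q
      · nlinarith
      have q1 : |y - y'| ≤ 2 * d y' := by
        have a1 := abs_le.1 ((nr j y).trans hy.2)
        have a2 := abs_le.1 ((nr j y').trans hy'.2)
        exact abs_le.2 ⟨by linarith [a1.1, a2.2], by linarith [a1.2, a2.1]⟩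
      have q2 := cmp y (sub0 y m1) y' (sub0 y' m1') _ (by positivity)
        (R1_prod' hm (t := 3) (τ := d y / d y') (by norm_num) (fun i => n0 i y)
          (fun i => by linarith [nl i y y', d2 i y']) j (hy.2.trans (by
            rw [div_mul_eq_mul_div, le_div_iff₀ q0']
            exact mul_le_mul_of_nonneg_left (d2 j y') q0.le)))
      rw [e9] at q2
      have q3 : d y ≤ C1 A * Λ * (d y / d y') * d y := by
        calc d y ≤ Λ * κ * u y := m3
          _ ≤ Λ * κ * ((A : ℝ) ^ 2 * (9 ^ A * (d y / d y') ^ 2) * u y') := by gcongr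
          _ = C1 A * Λ * (d y / d y') ^ 2 * (κ * u y') := by
              unfold C1
              ring
          _ ≤ C1 A * Λ * (d y / d y') ^ 2 * d y' := by gcongr
          _ = _ := by field_simp
      have q4 : 1 ≤ C1 A * Λ * (d y / d y') :=
        le_of_mul_le_mul_right (by rwa [one_mul]) q0
      rwa [← mul_div_assoc, le_div_iff₀ q0', one_mul] at q4
    refine (lintegral_mono_set cov).trans ((lintegral_union_le _ _ _).trans
      ((add_le_add p1 ((lintegral_iUnion_le _ _).trans (ENNReal.tsum_le_tsum p2))).trans ?_))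
    rw [tsum_fintype, Finset.sum_const, Finset.card_univ, Fintype.card_fin, nsmul_eq_mul,
      ← ENNReal.ofReal_natCast, ← ENNReal.ofReal_mul (Nat.cast_nonneg _),
      ← ENNReal.ofReal_add (by norm_num) (by positivity)]
    refine ENNReal.ofReal_le_ofReal ?_
    have m1 : (m : ℝ) ≤ A := by exact_mod_cast hm
    calc 2 * 1 + m * (2 * (C1 A * Λ)) ≤ 2 * Λ + A * (2 * (C1 A * Λ)) := by gcongr
      _ = (2 + A * (2 * C1 A)) * Λ := by ring
      _ ≤ C * Λ := by gcongr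

end Pool.Agent.Work.MP_042f46_an.Fu
end
end

-- merged part: Pool.Agent.Work.MP_042f46_an.F.D1
section
/-!
# The half plane charts

Plans.  `bi` is the inverse of the increasing surjection `β` (`β_surj`, `Function.rightInverse_invFun`, `StrictMono.orderIsoOfSurjective` for continuity).  With `η₀ = e (bi (c + 1 / 2))`, `m = (x - I) / (x + I)`: `ξi x = ψ (η₀ m)`, `I (1 + m) / (1 - m) = x`, `‖m‖ < 1 ↔ 0 < im x`; `ψi (ψ w) = w` on `ball 0 R` (`Function.invFunOn`, `ψ_inj`); `ψ w ∈ U ↔ ‖w‖ < 1` there (`ψ_img`).  For real `x`: `m = e (-1 / 2 + arctan x / π)`.  `γ_eq` from `ψ_e`, `β_coe`.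
-/

open Set Metric Topology Filter MeasureTheory
open scoped ENNReal NNReal

noncomputable section
namespace Pool.Agent.Work.MP_042f46_an.Fu

open Pool.Agent.Work.MP_042f46_an.Ty

variable (C : Cf) (c : ℝ)

theorem β_bi (t : ℝ) : C.β (C.bi t) = t := by
  exact Function.rightInverse_invFun C.β_surj t

theorem bi_β (s : ℝ) : C.bi (C.β s) = s := by
  exact Function.leftInverse_invFun C.β_mono.injective s

theorem bi_mono : StrictMono C.bi := by
  exact fun a b h => C.β_mono.lt_iff_lt.1 (by rwa [β_bi, β_bi])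

theorem bi_cont : Continuous C.bi := by
  exact (bi_mono C).monotone.continuous_of_surjective fun s => ⟨_, bi_β C s⟩

theorem bi_per (t : ℝ) : C.bi (t + 1) = C.bi t + 1 := by
  exact C.β_mono.injective (by rw [β_bi, C.β_per, β_bi])

theorem γ_eq (t : ℝ) : C.γ (t : T) = C.ψ (e (C.bi t)) := by
  rw [← eT_coe, C.ψ_e, C.β_coe, β_bi]
  rfl

theorem D1_atan (x : ℝ) : Real.arctan x / Real.pi ∈ Ioo (-(1 / 2) : ℝ) (1 / 2) := by
  have hp := Real.pi_pos
  constructor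
  · rw [lt_div_iff₀ hp]
    linarith only [Real.neg_pi_div_two_lt_arctan x]
  · rw [div_lt_iff₀ hp]
    linarith only [Real.arctan_lt_pi_div_two x]

theorem D1_bi_ι (x : ℝ) :
    C.bi (c + C.ιc c x) = C.bi (c + 1 / 2) - 1 / 2 + Real.arctan x / Real.pi := by
  rw [Cf.ιc, add_sub_cancel, bi_β]

theorem D1_ι_σ {t : ℝ} (ht : t ∈ Ioo (-(1 / 2) : ℝ) (1 / 2)) : C.ιc c (C.σc c t) = t := by
  have hp := Real.pi_pos
  have h1 : C.bi (c + t) < C.bi (c + 1 / 2) := bi_mono C (by linarith only [ht.2])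
  have h2 : C.bi (c + 1 / 2) < C.bi (c + t) + 1 := by
    rw [← bi_per]
    exact bi_mono C (by linarith only [ht.1])
  rw [Cf.ιc, Cf.σc, Real.arctan_tan (by nlinarith) (by nlinarith), mul_div_cancel_left₀ _ hp.ne',
    show C.bi (c + 1 / 2) - 1 / 2 + (C.bi (c + t) - C.bi (c + 1 / 2) + 1 / 2) = C.bi (c + t) by
      ring, β_bi, add_sub_cancel_left]

theorem exists_ch : ∃ X : Ch, C.IsCh c X := by
  have hp := Real.pi_pos
  have hβ := C.β_cont
  have ha := Real.continuous_arctan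
  refine ⟨⟨C.ιc c, C.σc c, by unfold Cf.ιc; fun_prop, fun x y h => ?_, fun x => ?_, fun x => ?_,
    fun t ht => D1_ι_σ C c ht⟩, rfl, rfl⟩
  · have h1 := div_lt_div_of_pos_right (Real.arctan_strictMono h) hp
    exact sub_lt_sub_right (C.β_mono (by linarith only [h1])) c
  · obtain ⟨h1, h2⟩ := D1_atan x
    have h3 : C.β (C.bi (c + 1 / 2) - 1 / 2 + Real.arctan x / Real.pi) < C.β (C.bi (c + 1 / 2)) :=
      C.β_mono (by linarith only [h2])
    have h4 : C.β (C.bi (c + 1 / 2)) <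
        C.β (C.bi (c + 1 / 2) - 1 / 2 + Real.arctan x / Real.pi + 1) :=
      C.β_mono (by linarith only [h1])
    rw [C.β_per] at h4
    rw [β_bi] at h3 h4
    unfold Cf.ιc
    constructor <;> linarith only [h3, h4]
  · rw [Cf.σc, D1_bi_ι, show Real.pi * (C.bi (c + 1 / 2) - 1 / 2 + Real.arctan x / Real.pi -
      C.bi (c + 1 / 2) + 1 / 2) = Real.arctan x by field_simp; ring, Real.tan_arctan]

theorem isOpen_Oξ : IsOpen (C.Oξ c) := by
  exact C.isOpen_ψ.sdiff isClosed_singleton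

theorem isOpen_Nξ : IsOpen C.Nξ := by
  have h1 : IsOpen {x : ℂ | x + Complex.I ≠ 0} := isOpen_ne_fun (by fun_prop) continuous_const
  have h2 : ContinuousOn (fun x : ℂ => ‖(x - Complex.I) / (x + Complex.I)‖)
      {x : ℂ | x + Complex.I ≠ 0} :=
    (ContinuousOn.div (by fun_prop) (by fun_prop) fun x hx => hx).norm
  exact h2.isOpen_inter_preimage h1 (isOpen_Iio (a := C.R))

theorem U_sub_Oξ : C.U ⊆ C.Oξ c := by
  exact fun z hz => ⟨C.Ub_sub (C.U_sub hz), fun h => C.γ_not_U _ (mem_singleton_iff.1 h ▸ hz)⟩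

theorem γ_mem_Oξ {t : ℝ} (ht : t ∈ Ioo (-(1 / 2) : ℝ) (1 / 2)) :
    C.γ ((c + t : ℝ) : T) ∈ C.Oξ c := by
  refine ⟨C.Ub_sub (C.γ_Ub _), fun h => ?_⟩
  have h1 := congrArg eT (C.γ_inj (mem_singleton_iff.1 h))
  rw [eT_coe, eT_coe, e_eq_iff] at h1
  obtain ⟨m, hm⟩ := h1
  have h2 : (-1 : ℝ) < m := by linarith only [hm, ht.1]
  have h3 : (m : ℝ) < 0 := by linarith only [hm, ht.2]
  have h4 : (-1 : ℤ) < m := by exact_mod_cast h2
  have h5 : m < 0 := by exact_mod_cast h3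
  omega

theorem D1_sq (x : ℂ) : ‖x + Complex.I‖ ^ 2 = ‖x - Complex.I‖ ^ 2 + 4 * x.im := by
  rw [Complex.sq_norm, Complex.sq_norm, Complex.normSq_apply, Complex.normSq_apply]
  simp only [Complex.add_re, Complex.add_im, Complex.sub_re, Complex.sub_im, Complex.I_re,
    Complex.I_im]
  ring

theorem D1_lt {x : ℂ} (h : x + Complex.I ≠ 0) :
    ‖(x - Complex.I) / (x + Complex.I)‖ < 1 ↔ 0 < x.im := by
  rw [norm_div, div_lt_one (norm_pos_iff.2 h), ← sq_lt_sq₀ (norm_nonneg _) (norm_nonneg _), D1_sq]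
  constructor <;> intro k <;> linarith only [k]

theorem mem_Nξ {x : ℂ} (hx : 0 ≤ x.im) : x ∈ C.Nξ := by
  have h : x + Complex.I ≠ 0 := fun k => by
    have h1 := congrArg Complex.im k
    simp only [Complex.add_im, Complex.I_im, Complex.zero_im] at h1
    linarith only [h1, hx]
  refine ⟨h, lt_of_le_of_lt ?_ C.R_gt⟩
  rw [norm_div, div_le_one (norm_pos_iff.2 h), ← sq_le_sq₀ (norm_nonneg _) (norm_nonneg _), D1_sq]
  linarith only [hx]

theorem D1_e_ne (t : ℝ) : e t ≠ 0 := norm_ne_zero_iff.1 (by rw [norm_e]; exact one_ne_zero)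

theorem D1_ψi {w : ℂ} (h : w ∈ ball (0 : ℂ) C.R) : C.ψi (C.ψ w) = w :=
  C.ψ_inj.leftInvOn_invFunOn h

theorem D1_O {z : ℂ} (hz : z ∈ C.Oξ c) : C.ψi z ∈ ball (0 : ℂ) C.R ∧ C.ψ (C.ψi z) = z ∧
    e (C.bi (c + 1 / 2)) - C.ψi z ≠ 0 := by
  obtain ⟨⟨w, hw, rfl⟩, h⟩ := hz
  rw [D1_ψi C hw]
  refine ⟨hw, rfl, fun k => h ?_⟩
  rw [γ_eq, sub_eq_zero.1 k]
  rfl

theorem D1_N {x : ℂ} (hx : x ∈ C.Nξ) :
    e (C.bi (c + 1 / 2)) * ((x - Complex.I) / (x + Complex.I)) ∈ ball (0 : ℂ) C.R := by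
  rw [mem_ball_zero_iff, norm_mul, norm_e, one_mul]
  exact hx.2

theorem D1_mob {η w : ℂ} (h0 : η ≠ 0) (h : η - w ≠ 0) :
    Complex.I * (η + w) / (η - w) + Complex.I ≠ 0 ∧
      η * ((Complex.I * (η + w) / (η - w) - Complex.I) /
        (Complex.I * (η + w) / (η - w) + Complex.I)) = w := by
  have hI := Complex.I_ne_zero
  have e1 : Complex.I * (η + w) / (η - w) + Complex.I = 2 * Complex.I * η / (η - w) := by
    field_simp
    ring
  have e2 : Complex.I * (η + w) / (η - w) - Complex.I = 2 * Complex.I * w / (η - w) := by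
    field_simp
    ring
  rw [e1, e2]
  refine ⟨div_ne_zero (mul_ne_zero (mul_ne_zero two_ne_zero hI) h0) h, ?_⟩
  field_simp

theorem D1_ξ_mem {z : ℂ} (hz : z ∈ C.Oξ c) : C.ξ c z ∈ C.Nξ := by
  obtain ⟨h1, -, h3⟩ := D1_O C c hz
  obtain ⟨k1, k2⟩ := D1_mob (D1_e_ne _) h3
  refine ⟨k1, ?_⟩
  have k3 := congrArg norm k2
  rw [norm_mul, norm_e, one_mul] at k3
  exact k3.trans_lt (mem_ball_zero_iff.1 h1)

theorem ξ_diff : DifferentiableOn ℂ (C.ξ c) (C.Oξ c) := by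
  have h : DifferentiableOn ℂ C.ψi (C.Oξ c) := C.ψi_diff.mono sdiff_subset
  exact ((h.const_add _).const_mul _).div (h.const_sub _) fun z hz => (D1_O C c hz).2.2

theorem ξi_diff : DifferentiableOn ℂ (C.ξi c) C.Nξ := by
  refine C.ψ_diff.comp (DifferentiableOn.const_mul (DifferentiableOn.div ?_ ?_ fun x hx => hx.1) _)
    fun x hx => D1_N C c hx
  · fun_prop
  · fun_prop

theorem ξ_ξi {x : ℂ} (hx : x ∈ C.Nξ) : C.ξ c (C.ξi c x) = x := by
  have h0 := D1_e_ne (C.bi (c + 1 / 2))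
  have h1 := hx.1
  have hI := Complex.I_ne_zero
  rw [Cf.ξ, Cf.ξi, D1_ψi C (D1_N C c hx)]
  generalize e (C.bi (c + 1 / 2)) = η at h0 ⊢
  have e1 : η + η * ((x - Complex.I) / (x + Complex.I)) = 2 * η * x / (x + Complex.I) := by
    field_simp
    ring
  have e2 : η - η * ((x - Complex.I) / (x + Complex.I)) =
      2 * η * Complex.I / (x + Complex.I) := by
    field_simp
    ring
  rw [e1, e2]
  field_simp

theorem ξi_ξ {z : ℂ} (hz : z ∈ C.Oξ c) : C.ξi c (C.ξ c z) = z := by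
  obtain ⟨-, h2, h3⟩ := D1_O C c hz
  rw [Cf.ξi, Cf.ξ, (D1_mob (D1_e_ne _) h3).2, h2]

theorem ξi_U {x : ℂ} (hx : x ∈ C.Nξ) : C.ξi c x ∈ C.U ↔ 0 < x.im := by
  rw [← D1_lt hx.1]
  have h : ‖e (C.bi (c + 1 / 2)) * ((x - Complex.I) / (x + Complex.I))‖ =
      ‖(x - Complex.I) / (x + Complex.I)‖ := by rw [norm_mul, norm_e, one_mul]
  rw [← h]
  refine ⟨fun k => ?_, fun k => C.ψ_U k⟩
  have k2 := C.ψi_U k
  rwa [Cf.ξi, D1_ψi C (D1_N C c hx)] at k2

theorem ξ_im {z : ℂ} (hz : z ∈ C.U) : 0 < (C.ξ c z).im := by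
  have h := U_sub_Oξ C c hz
  rw [← ξi_U C c (D1_ξ_mem C c h), ξi_ξ C c h]
  exact hz

theorem D1_real (x : ℝ) :
    e (-(1 / 2) + Real.arctan x / Real.pi) = ((x : ℂ) - Complex.I) / (x + Complex.I) := by
  have h0 : (x : ℂ) + Complex.I ≠ 0 := fun k => by simpa using congrArg Complex.im k
  have hp : (Real.pi : ℂ) ≠ 0 := Complex.ofReal_ne_zero.2 Real.pi_ne_zero
  have h1 : e (-(1 / 2) + Real.arctan x / Real.pi) =
      -Complex.exp (Real.arctan x * Complex.I) ^ 2 := by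
    rw [e, sq, ← Complex.exp_add, ← Complex.exp_sub_pi_mul_I]
    congr 1
    push_cast
    field_simp
    ring
  have hc : Real.cos (Real.arctan x) ≠ 0 := (Real.cos_arctan_pos x).ne'
  have h2 : Real.sin (Real.arctan x) = x * Real.cos (Real.arctan x) := by
    rw [← div_eq_iff hc, ← Real.tan_eq_sin_div_cos, Real.tan_arctan]
  have h3 := Real.sin_sq_add_cos_sq (Real.arctan x)
  rw [h2] at h3
  have h4 : ((x : ℂ) * (Real.cos (Real.arctan x) : ℂ)) ^ 2 + (Real.cos (Real.arctan x) : ℂ) ^ 2 =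
      1 := by exact_mod_cast h3
  rw [h1, eq_div_iff h0, Complex.exp_mul_I, ← Complex.ofReal_cos, ← Complex.ofReal_sin, h2,
    Complex.ofReal_mul]
  generalize (Real.cos (Real.arctan x) : ℂ) = k at h4 ⊢
  linear_combination ((x : ℂ) - Complex.I) * h4 -
    k ^ 2 * x * (x ^ 2 + x * Complex.I + 2) * Complex.I_sq

theorem ξi_real (x : ℝ) : C.ξi c x = C.γ ((c + C.ιc c x : ℝ) : T) := by
  rw [γ_eq, D1_bi_ι, Cf.ξi, ← D1_real, ← e_add]
  congr 2
  ring

theorem ξ_γ {t : ℝ} (ht : t ∈ Ioo (-(1 / 2) : ℝ) (1 / 2)) :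
    C.ξ c (C.γ ((c + t : ℝ) : T)) = C.σc c t := by
  have h := ξi_real C c (C.σc c t)
  rw [D1_ι_σ C c ht] at h
  rw [← h]
  exact ξ_ξi C c (mem_Nξ C (by simp))

end Pool.Agent.Work.MP_042f46_an.Fu
end
end

-- merged part: Pool.Agent.Work.MP_042f46_an.F.D1b
section
/-!
# The excursion measure in a chart

Plans.  `rep`: `k x = ↑(s₀ - 1 / 2 + arctan x / π)`, `s₀ = bi (c + 1 / 2)`, satisfies `βT (k x) = ↑c + ↑(ι x)`; so it is enough to show `H0 = K0.map (Prod.map k k)`.  The image under `k` of the measure with density `1 / (π (1 + x ^ 2))` is the volume of `T` (change of variables `x = tan (π s)`, `lintegral_image_eq_lintegral_abs_deriv_mul`, `AddCircle.measurePreserving_mk`), and `4 π ^ 2 / ‖eT (k x) - eT (k y)‖ ^ 2 = π ^ 2 (1 + x ^ 2) (1 + y ^ 2) / (x - y) ^ 2` (`eT (k x) = e s₀ (x - I) / (x + I)`); `Measure.map_prod_map`, `prod_withDensity`.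
`K0_rect`, `K0_ray`: Tonelli and the fundamental theorem twice (`B6_ftc`), monotone limit for the rays.  The statements for `X.H` follow from `ι ⁻¹' Icc s t = Icc (σ s) (σ t)`.
-/

open Set Metric Topology Filter MeasureTheory
open scoped ENNReal NNReal

noncomputable section
namespace Pool.Agent.Work.MP_042f46_an.Fu

open Pool.Agent.Work.MP_042f46_an.Ty

def D1b_k (s x : ℝ) : T := ((s - 1 / 2 + Real.arctan x / Real.pi : ℝ) : T)

theorem D1b_k_meas (s : ℝ) : Measurable (D1b_k s) :=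
  (continuous_coeT.comp (continuous_const.add (Real.continuous_arctan.div_const _))).measurable

theorem D1b_meas (c : T) : Measurable fun p : ℝ × ℝ => (c + (p.1 : T), c + (p.2 : T)) :=
  ((continuous_const.add (continuous_coeT.comp continuous_fst)).prodMk
    (continuous_const.add (continuous_coeT.comp continuous_snd))).measurable

theorem D1b_K_meas : Measurable fun p : ℝ × ℝ => ENNReal.ofReal (1 / (p.1 - p.2) ^ 2) :=
  (measurable_const.div ((measurable_fst.sub measurable_snd).pow_const 2)).ennreal_ofReal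

theorem D1b_cv (s : ℝ) (f : T → ℝ≥0∞) :
    ∫⁻ y, f y = ∫⁻ x : ℝ, ENNReal.ofReal (1 / (1 + x ^ 2) / Real.pi) * f (D1b_k s x) := by
  have hp := Real.pi_pos
  have im : (fun x => s - 1 / 2 + Real.arctan x / Real.pi) '' univ = Ioo (s - 1) (s - 1 + 1) := by
    ext t
    constructor
    · rintro ⟨x, -, rfl⟩
      have h1 : -(1 / 2) < Real.arctan x / Real.pi := by
        rw [lt_div_iff₀ hp]
        linarith [Real.neg_pi_div_two_lt_arctan x]
      have h2 : Real.arctan x / Real.pi < 1 / 2 := by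
        rw [div_lt_iff₀ hp]
        linarith [Real.arctan_lt_pi_div_two x]
      exact ⟨by linarith, by linarith⟩
    · intro ht
      refine ⟨Real.tan (Real.pi * (t - s + 1 / 2)), mem_univ _, ?_⟩
      have h1 := mul_pos hp (show 0 < t - s + 1 by linarith [ht.1])
      have h2 := mul_pos hp (show 0 < s - t by linarith [ht.2])
      show s - 1 / 2 + Real.arctan _ / Real.pi = t
      rw [Real.arctan_tan (by linarith) (by linarith), mul_div_cancel_left₀ _ hp.ne']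
      ring
  rw [← UnitAddCircle.lintegral_preimage (s - 1), ← Measure.restrict_congr_set Ioo_ae_eq_Ioc, ← im,
    lintegral_image_eq_lintegral_abs_deriv_mul MeasurableSet.univ
      (f' := fun x => 1 / (1 + x ^ 2) / Real.pi)
      (fun x _ => (((Real.hasDerivAt_arctan x).div_const _).const_add _).hasDerivWithinAt)
      (fun x _ y _ h => Real.arctan_injective
        ((div_left_inj' hp.ne').1 (add_left_cancel h))), Measure.restrict_univ]
  refine lintegral_congr fun x => ?_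
  rw [abs_of_nonneg (by positivity), D1b_k]

theorem D1b_sin (x y : ℝ) : Real.sin (Real.arctan y - Real.arctan x) ^ 2 =
    (x - y) ^ 2 * (1 / (1 + x ^ 2)) * (1 / (1 + y ^ 2)) := by
  have h : ∀ z, Real.sin (Real.arctan z) = z * Real.cos (Real.arctan z) := fun z => by
    have := Real.tan_mul_cos (Real.cos_arctan_pos z).ne'
    rw [Real.tan_arctan] at this
    exact this.symm
  rw [Real.sin_sub, h, h, ← Real.cos_sq_arctan, ← Real.cos_sq_arctan]
  ring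

theorem D1b_dens (s x y : ℝ) : ENNReal.ofReal (1 / (1 + x ^ 2) / Real.pi) *
    (ENNReal.ofReal (1 / (1 + y ^ 2) / Real.pi) *
      ENNReal.ofReal (4 * Real.pi ^ 2 / ‖eT (D1b_k s x) - eT (D1b_k s y)‖ ^ 2)) =
    ENNReal.ofReal (1 / (x - y) ^ 2) := by
  have hp := Real.pi_pos
  have e : Real.pi * (s - 1 / 2 + Real.arctan y / Real.pi - (s - 1 / 2 + Real.arctan x / Real.pi)) =
      Real.arctan y - Real.arctan x := by
    field_simp
    ring
  rw [← ENNReal.ofReal_mul (by positivity), ← ENNReal.ofReal_mul (by positivity), D1b_k, D1b_k,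
    B6_chord, e, D1b_sin]
  congr 1
  by_cases h : x - y = 0
  · simp [h]
  · field_simp

theorem D1b_H0 (s : ℝ) : H0 = K0.map (Prod.map (D1b_k s) (D1b_k s)) := by
  have hk := (D1b_k_meas s).prodMap (D1b_k_meas s)
  ext X hX
  rw [Measure.map_apply hk hX, H0, K0, withDensity_apply _ hX, withDensity_apply _ (hk hX),
    ← lintegral_indicator hX, ← lintegral_indicator (hk hX),
    lintegral_prod _ (B6_meas.indicator hX).aemeasurable,
    lintegral_prod _ (D1b_K_meas.indicator (hk hX)).aemeasurable, D1b_cv s]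
  refine lintegral_congr fun x => ?_
  rw [D1b_cv s, ← lintegral_const_mul' _ _ ENNReal.ofReal_ne_top]
  refine lintegral_congr fun y => ?_
  by_cases h : (D1b_k s x, D1b_k s y) ∈ X
  · rw [indicator_of_mem h, indicator_of_mem (show (x, y) ∈ _ from h)]
    exact D1b_dens s x y
  · rw [indicator_of_notMem h, indicator_of_notMem (show (x, y) ∉ _ from h), mul_zero, mul_zero]

theorem rep (C : Cf) (c : ℝ) {X : Ch} (h : C.IsCh c X) : Rep C.H (c : T) X := by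
  have hk := D1b_k_meas (C.bi (c + 1 / 2))
  have hι : Measurable X.ι := X.ι_cont.measurable
  have hc : Measurable fun p : ℝ × ℝ => ((c : T) + (p.1 : T), (c : T) + (p.2 : T)) :=
    D1b_meas c
  unfold Rep Ch.H Cf.H
  rw [D1b_H0 (C.bi (c + 1 / 2)), Measure.map_map C.CB_meas (hk.prodMap hk),
    Measure.map_map hc (hι.prodMap hι)]
  have e : ∀ x : ℝ, C.βT (D1b_k (C.bi (c + 1 / 2)) x) = (c : T) + (X.ι x : T) := fun x => by
    rw [D1b_k, C.β_coe, h.1, ← AddCircle.coe_add, Cf.ιc, add_sub_cancel]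
  refine congrArg (fun f => Measure.map f K0) (funext fun p => ?_)
  simp only [Function.comp_apply, Prod.map, e]

theorem K0_symm : K0.map Prod.swap = K0 := by
  ext X hX
  rw [Measure.map_apply measurable_swap hX, K0, withDensity_apply _ (measurable_swap hX),
    withDensity_apply _ hX,
    ← Measure.measurePreserving_swap.setLIntegral_comp_preimage hX D1b_K_meas]
  simp only [Prod.fst_swap, Prod.snd_swap, sub_sq_comm]

theorem D1b_der {s t : ℝ} (h : s < t) : HasDerivAt (fun t => (s - t)⁻¹) (1 / (s - t) ^ 2) t :=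
  (((hasDerivAt_id t).const_sub s).inv (sub_neg.2 h).ne).congr_deriv (by simp)

theorem D1b_log {s t : ℝ} (h : s < t) : HasDerivAt (fun s => Real.log (t - s)) (s - t)⁻¹ s :=
  (((hasDerivAt_id s).const_sub t).log (sub_pos.2 h).ne').congr_deriv (by
    rw [← neg_sub t s, inv_neg]
    simp [neg_div])

theorem D1b_ici {s c : ℝ} (h : s < c) :
    ∫⁻ t in Ici c, ENNReal.ofReal (1 / (s - t) ^ 2) = ENNReal.ofReal (0 - (s - c)⁻¹) := by
  have d : ∀ t ∈ Ici c, HasDerivAt (fun t => (s - t)⁻¹) (1 / (s - t) ^ 2) t :=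
    fun t ht => D1b_der (h.trans_le ht)
  have p : ∀ t ∈ Ioi c, 0 ≤ 1 / (s - t) ^ 2 := fun t _ => by positivity
  have l : Tendsto (fun t => (s - t)⁻¹) atTop (𝓝 0) := tendsto_inv_atBot_zero.comp
    (tendsto_atBot_add_const_left _ s tendsto_neg_atTop_atBot)
  rw [← integral_Ioi_of_hasDerivAt_of_nonneg' d p l, ofReal_integral_eq_lintegral_ofReal
    (integrableOn_Ioi_deriv_of_nonneg' d p l) (ae_restrict_of_forall_mem measurableSet_Ioi p),
    Measure.restrict_congr_set Ioi_ae_eq_Ici]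

theorem K0_rect {a b c d : ℝ} (h₁ : a ≤ b) (h₂ : b < c) (h₃ : c ≤ d) :
    K0 (Icc a b ×ˢ Icc c d) =
      ENNReal.ofReal (Real.log ((c - a) * (d - b) / ((c - b) * (d - a)))) := by
  have i1 := fun s (hs : s ∈ Icc a b) => B6_ftc (f := fun t => 1 / (s - t) ^ 2)
    (F := fun t => (s - t)⁻¹) h₃ (fun t ht => D1b_der (by linarith [hs.2, ht.1]))
    fun t _ => by positivity
  have i2 := B6_ftc (F := fun s => Real.log (d - s) - Real.log (c - s)) h₁
    (fun s hs => (D1b_log (by linarith [hs.2] : s < d)).sub (D1b_log (by linarith [hs.2] : s < c)))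
    fun s hs => (i1 s hs).1
  have p1 : c - a ≠ 0 := (by linarith : 0 < c - a).ne'
  have p2 : d - b ≠ 0 := (by linarith : 0 < d - b).ne'
  have p3 : c - b ≠ 0 := (by linarith : 0 < c - b).ne'
  have p4 : d - a ≠ 0 := (by linarith : 0 < d - a).ne'
  rw [K0, withDensity_apply _ (measurableSet_Icc.prod measurableSet_Icc),
    setLIntegral_prod _ D1b_K_meas.aemeasurable,
    setLIntegral_congr_fun measurableSet_Icc fun s hs => (i1 s hs).2, i2.2,
    Real.log_div (mul_ne_zero p1 p2) (mul_ne_zero p3 p4), Real.log_mul p1 p2, Real.log_mul p3 p4]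
  exact congrArg ENNReal.ofReal (by ring)

theorem K0_ray {a b c : ℝ} (h₁ : a ≤ b) (h₂ : b < c) :
    K0 (Icc a b ×ˢ Ici c) = ENNReal.ofReal (Real.log ((c - a) / (c - b))) := by
  have i2 := B6_ftc (F := fun s => 0 - Real.log (c - s)) (f := fun s => 0 - (s - c)⁻¹) h₁
    (fun s hs => (hasDerivAt_const s 0).sub (D1b_log (by linarith [hs.2] : s < c)))
    fun s hs => sub_nonneg.2 (inv_nonpos.2 (by linarith [hs.2]))
  have p1 : c - a ≠ 0 := (by linarith : 0 < c - a).ne'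
  have p3 : c - b ≠ 0 := (by linarith : 0 < c - b).ne'
  rw [K0, withDensity_apply _ (measurableSet_Icc.prod measurableSet_Ici),
    setLIntegral_prod _ D1b_K_meas.aemeasurable,
    setLIntegral_congr_fun measurableSet_Icc fun s hs => D1b_ici (hs.2.trans_lt h₂), i2.2,
    Real.log_div p1 p3]
  exact congrArg ENNReal.ofReal (by ring)

theorem D1b_iic {s a : ℝ} (h : a < s) :
    ∫⁻ t in Iic a, ENNReal.ofReal (1 / (s - t) ^ 2) = ENNReal.ofReal (s - a)⁻¹ := by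
  have m : Measurable fun t : ℝ => ENNReal.ofReal (1 / (-s - t) ^ 2) :=
    (measurable_const.div ((measurable_const.sub measurable_id).pow_const 2)).ennreal_ofReal
  have e := (Measure.measurePreserving_neg (volume : Measure ℝ)).setLIntegral_comp_preimage
    (measurableSet_Ici (a := -a)) m
  have e1 : Neg.neg ⁻¹' Ici (-a) = Iic a := by
    ext t
    simp
  have e2 : ∀ t : ℝ, (-s - -t) ^ 2 = (s - t) ^ 2 := fun t => by ring
  have e3 : 0 - (-s - -a)⁻¹ = (s - a)⁻¹ := by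
    rw [zero_sub, ← inv_neg]
    exact congrArg Inv.inv (by ring)
  rw [D1b_ici (neg_lt_neg h), e1, e3] at e
  simpa only [e2] using e

theorem K0_ray' {a b c : ℝ} (h₁ : a < b) (h₂ : b ≤ c) :
    K0 (Icc b c ×ˢ Iic a) = ENNReal.ofReal (Real.log ((c - a) / (b - a))) := by
  have i2 := B6_ftc (F := fun s => Real.log (s - a)) (f := fun s => (s - a)⁻¹) h₂
    (fun s hs => (((hasDerivAt_id s).sub_const a).log
      (by linarith [hs.1] : 0 < s - a).ne').congr_deriv (by simp))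
    fun s hs => inv_nonneg.2 (by linarith [hs.1])
  have p1 : c - a ≠ 0 := (by linarith : 0 < c - a).ne'
  have p3 : b - a ≠ 0 := (by linarith : 0 < b - a).ne'
  rw [K0, withDensity_apply _ (measurableSet_Icc.prod measurableSet_Iic),
    setLIntegral_prod _ D1b_K_meas.aemeasurable,
    setLIntegral_congr_fun measurableSet_Icc fun s hs => D1b_iic (h₁.trans_le hs.1), i2.2,
    Real.log_div p1 p3]

instance : SFinite K0 := by
  unfold K0
  infer_instance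

instance (X : Ch) : SFinite X.H := by
  unfold Ch.H
  infer_instance

namespace Ch

variable (X : Ch)

theorem σ_mono : StrictMonoOn X.σ (Ioo (-(1 / 2) : ℝ) (1 / 2)) := by
  intro s hs t ht h
  refine X.ι_mono.lt_iff_lt.1 ?_
  rwa [X.ι_σ s hs, X.ι_σ t ht]

theorem D1b_ι : Measurable (Prod.map X.ι X.ι) :=
  X.ι_cont.measurable.prodMap X.ι_cont.measurable

theorem D1b_ici {t : ℝ} (ht : t ∈ Ioo (-(1 / 2) : ℝ) (1 / 2)) : X.ι ⁻¹' Ici t = Ici (X.σ t) := by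
  ext x
  rw [mem_preimage, mem_Ici, mem_Ici, ← X.ι_mono.le_iff_le (a := X.σ t), X.ι_σ t ht]

theorem D1b_iic {t : ℝ} (ht : t ∈ Ioo (-(1 / 2) : ℝ) (1 / 2)) : X.ι ⁻¹' Iic t = Iic (X.σ t) := by
  ext x
  rw [mem_preimage, mem_Iic, mem_Iic, ← X.ι_mono.le_iff_le (b := X.σ t), X.ι_σ t ht]

theorem D1b_icc {s t : ℝ} (hs : s ∈ Ioo (-(1 / 2) : ℝ) (1 / 2))
    (ht : t ∈ Ioo (-(1 / 2) : ℝ) (1 / 2)) : X.ι ⁻¹' Icc s t = Icc (X.σ s) (X.σ t) := by
  rw [← Ici_inter_Iic, preimage_inter, X.D1b_ici hs, X.D1b_iic ht, Ici_inter_Iic]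

theorem H_symm : X.H.map Prod.swap = X.H := by
  have hι := X.D1b_ι
  have e : Prod.swap ∘ Prod.map X.ι X.ι = Prod.map X.ι X.ι ∘ Prod.swap := rfl
  rw [H, Measure.map_map measurable_swap hι, e, ← Measure.map_map hι measurable_swap, K0_symm]

theorem H_ae : ∀ᵐ p ∂X.H, p.1 ∈ Ioo (-(1 / 2) : ℝ) (1 / 2) ∧ p.2 ∈ Ioo (-(1 / 2) : ℝ) (1 / 2) := by
  have m : MeasurableSet {p : ℝ × ℝ | p.1 ∈ Ioo (-(1 / 2) : ℝ) (1 / 2) ∧
      p.2 ∈ Ioo (-(1 / 2) : ℝ) (1 / 2)} := measurableSet_Ioo.prod measurableSet_Ioo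
  exact (ae_map_iff X.D1b_ι.aemeasurable m).2 (ae_of_all _ fun p => ⟨X.ι_mem _, X.ι_mem _⟩)

theorem H_rect {a b c d : ℝ} (h₀ : -(1 / 2) < a) (h₁ : a ≤ b) (h₂ : b < c) (h₃ : c ≤ d)
    (h₄ : d < 1 / 2) : X.H (Icc a b ×ˢ Icc c d) =
      ENNReal.ofReal (Real.log (X.len a c * X.len b d / (X.len b c * X.len a d))) := by
  have ha : a ∈ Ioo (-(1 / 2) : ℝ) (1 / 2) := ⟨h₀, by linarith⟩
  have hb : b ∈ Ioo (-(1 / 2) : ℝ) (1 / 2) := ⟨by linarith, by linarith⟩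
  have hc : c ∈ Ioo (-(1 / 2) : ℝ) (1 / 2) := ⟨by linarith, by linarith⟩
  have hd : d ∈ Ioo (-(1 / 2) : ℝ) (1 / 2) := ⟨by linarith, h₄⟩
  rw [H, Measure.map_apply X.D1b_ι (measurableSet_Icc.prod measurableSet_Icc),
    preimage_prod_map_prod, X.D1b_icc ha hb, X.D1b_icc hc hd,
    K0_rect (X.σ_mono.monotoneOn ha hb h₁) (X.σ_mono hb hc h₂) (X.σ_mono.monotoneOn hc hd h₃)]
  rfl

theorem H_ray {a b c : ℝ} (h₀ : -(1 / 2) < a) (h₁ : a ≤ b) (h₂ : b < c) (h₃ : c < 1 / 2) :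
    X.H (Icc a b ×ˢ Ici c) = ENNReal.ofReal (Real.log (X.len a c / X.len b c)) := by
  have ha : a ∈ Ioo (-(1 / 2) : ℝ) (1 / 2) := ⟨h₀, by linarith⟩
  have hb : b ∈ Ioo (-(1 / 2) : ℝ) (1 / 2) := ⟨by linarith, by linarith⟩
  have hc : c ∈ Ioo (-(1 / 2) : ℝ) (1 / 2) := ⟨by linarith, h₃⟩
  rw [H, Measure.map_apply X.D1b_ι (measurableSet_Icc.prod measurableSet_Ici),
    preimage_prod_map_prod, X.D1b_icc ha hb, X.D1b_ici hc,
    K0_ray (X.σ_mono.monotoneOn ha hb h₁) (X.σ_mono hb hc h₂)]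
  rfl

theorem H_ray' {a b c : ℝ} (h₀ : -(1 / 2) < a) (h₁ : a < b) (h₂ : b ≤ c) (h₃ : c < 1 / 2) :
    X.H (Icc b c ×ˢ Iic a) = ENNReal.ofReal (Real.log (X.len a c / X.len a b)) := by
  have ha : a ∈ Ioo (-(1 / 2) : ℝ) (1 / 2) := ⟨h₀, by linarith⟩
  have hb : b ∈ Ioo (-(1 / 2) : ℝ) (1 / 2) := ⟨by linarith, by linarith⟩
  have hc : c ∈ Ioo (-(1 / 2) : ℝ) (1 / 2) := ⟨by linarith, h₃⟩
  rw [H, Measure.map_apply X.D1b_ι (measurableSet_Icc.prod measurableSet_Iic),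
    preimage_prod_map_prod, X.D1b_icc hb hc, X.D1b_iic ha,
    K0_ray' (X.σ_mono ha hb h₁) (X.σ_mono.monotoneOn hb hc h₂)]
  rfl

end Ch

theorem Rep.le {H : Measure (T × T)} {c : T} {X : Ch} (h : Rep H c X) {S : Set (ℝ × ℝ)}
    {S' : Set (T × T)} (hS' : MeasurableSet S')
    (hs : ∀ p ∈ S, p.1 ∈ Ioo (-(1 / 2) : ℝ) (1 / 2) → p.2 ∈ Ioo (-(1 / 2) : ℝ) (1 / 2) →
      (c + (p.1 : T), c + (p.2 : T)) ∈ S') : X.H S ≤ H S' := by
  rw [show H = _ from h, Measure.map_apply (D1b_meas c) hS']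
  exact measure_mono_ae (X.H_ae.mono fun p hp hS => hs p hS hp.1 hp.2)

theorem D1b_arc {c a b t : ℝ} (h₀ : -(1 / 2) < a) (h₁ : b < 1 / 2)
    (ht : t ∈ Ioo (-(1 / 2) : ℝ) (1 / 2)) :
    (c : T) + (t : T) ∈ arc (c + a) (c + b) ↔ t ∈ Icc a b := by
  rw [← AddCircle.coe_add]
  refine ⟨?_, fun h => ⟨c + t, ⟨by linarith [h.1], by linarith [h.2]⟩, rfl⟩⟩
  rintro ⟨u, hu, e⟩
  have := (AddCircle.coe_eq_coe_iff_of_mem_Ioc (p := 1) (a := c - 1 / 2)
    ⟨by linarith [hu.1], by linarith [hu.2]⟩ ⟨by linarith [ht.1], by linarith [ht.2]⟩).1 e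
  exact ⟨by linarith [hu.1], by linarith [hu.2]⟩

theorem Rep.rect {H : Measure (T × T)} {c : ℝ} {X : Ch} (h : Rep H (c : T) X) {a b a' b' : ℝ}
    (h₀ : -(1 / 2) < a) (h₁ : b < 1 / 2) (h₂ : -(1 / 2) < a') (h₃ : b' < 1 / 2) :
    H (arc (c + a) (c + b) ×ˢ arc (c + a') (c + b')) = X.H (Icc a b ×ˢ Icc a' b') := by
  rw [show H = _ from h, Measure.map_apply (D1b_meas c)
    ((measurableSet_arc _ _).prod (measurableSet_arc _ _))]
  refine measure_congr (X.H_ae.mono fun p hp => propext ?_)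
  exact and_congr (D1b_arc h₀ h₁ hp.1) (D1b_arc h₂ h₃ hp.2)

end Pool.Agent.Work.MP_042f46_an.Fu
end
end

-- merged part: Pool.Agent.Work.MP_042f46_an.F.R2
section
/-!
# The flat scale: definitions and first properties

`u x` = outer length of the unit at `x`, `r x` = distance to the marks, `hh t` = largest radius (in units of `θ`) of a flat interval without marks, `k = max hh 1`, `ϱ = k u`, `ϱ' = min ϱ r`, `w x` = inner length of `[x - r / 2, x + r / 2]`, `ℓ t` = outer length of the tile.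
Plans.  `σ` is continuous on `(-1 / 2, 1 / 2)` (inverse of the continuous increasing `ι`; `StrictMonoOn.continuousAt_of_image_mem_nhds`).  `ut t = len t (t + 2 θ)` for `ε = 1` and `len (t - 2 θ) t` for `ε = -1`.  `unit_le`, `unit_ge`: add the units anchored at `a + 2 j θ` (`ε = 1`) or `b - 2 j θ` (`ε = -1`).  `cmp_u`, `cmp_ℓ`: `cmp`.  `hh`: the set is bounded by `Θ / θ` (`E_dense`), `good` is monotone, and `good t κ` gives `good s (κ - |s - t| / θ)`.  `L_h`: `n = ⌊D / (C1 u)⌋₊`; if `σ (t + 2 n θ) > x + D` or `σ (t - 2 n θ) < x - D`, `unit_le`-type summation inside `[x - D, x + D]` gives `D < n C1 u` (apply `unit_le` to the inner interval from `t` to `ι (x ± D)`, or add `n` units one by one); so `good t (2 n)`, and `2 n ≥ D / (C1 u)` if `n ≥ 1`.  `U_h`: `unit_ge` on `[t, t + hh θ / 2]` and on `[t - hh θ / 2, t]`.  `near_mark`: the nearest mark is the largest one below or the smallest one above, both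 within `2 Θ`.  `far_point`: at most `A` marks are within `100 Θ`; one of `A + 1` subintervals of the middle third has none in its interior; the other marks are outside `[σ a, σ b]`.
-/

open Set Metric Topology Filter MeasureTheory
open scoped ENNReal NNReal

noncomputable section
namespace Pool.Agent.Work.MP_042f46_an.Fu

open Pool.Agent.Work.MP_042f46_an.Ty

namespace RD

section

variable {A : ℕ} {V ρ₀ Θ θ : ℝ} {X X' : Ch} (D : RD A V ρ₀ Θ θ X X')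

/-- the displacement -/
def u (x : ℝ) : ℝ := X.u (2 * D.ε * θ) x

/-- distance to the marks -/
def r (x : ℝ) : ℝ := X.r D.E x

/-- flat intervals without marks -/
def good (t κ : ℝ) : Prop := (∀ e ∈ D.E, κ * θ < |e - t|) ∧
  ∀ s ∈ Icc (t - κ * θ) (t + κ * θ), ∀ s' ∈ Icc (t - κ * θ) (t + κ * θ),
    D.u (X.σ s) ≤ C1 A * D.u (X.σ s')

/-- radius of the flat interval -/
def hh (t : ℝ) : ℝ := sSup {κ | 0 ≤ κ ∧ D.good t κ}

/-- the same, at least one -/
def kb (t : ℝ) : ℝ := max (D.hh t) 1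

/-- as a function of the outer coordinate -/
def k (x : ℝ) : ℝ := D.kb (X.ι x)

/-- the flat scale -/
def ϱ (x : ℝ) : ℝ := D.k x * D.u x

/-- the flat scale cut at the distance to the marks -/
def ϱ' (x : ℝ) : ℝ := min (D.ϱ x) (D.r x)

/-- inner length of the Whitney interval -/
def w (x : ℝ) : ℝ := X.ι (x + D.r x / 2) - X.ι (x - D.r x / 2)

/-- points away from the marks -/
def G : Set ℝ := {x | ∀ e ∈ D.E, 4 * θ < |X.ι x - e|}

end

end RD

/-- inside the range -/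
def In (X : Ch) (ρ₀ Θ n x : ℝ) : Prop := |X.ι x| ≤ ρ₀ + n * Θ

/-- outer length of a tile -/
def Ch.ℓ (X : Ch) (Θ t : ℝ) : ℝ := X.len (t - Θ) (t + Θ)

theorem Ch.σ_cont (X : Ch) : ContinuousOn X.σ (Ioo (-(1 / 2) : ℝ) (1 / 2)) := by
  intro t ht
  refine (continuousAt_of_monotoneOn_of_image_mem_nhds X.σ_mono.monotoneOn
    (Ioo_mem_nhds ht.1 ht.2) ?_).continuousWithinAt
  have e : X.σ '' Ioo (-(1 / 2) : ℝ) (1 / 2) = univ :=
    eq_univ_of_forall fun x => ⟨X.ι x, X.ι_mem x, X.σ_ι x⟩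
  rw [e]
  exact univ_mem

theorem Ch.H_int (X : Ch) {f : ℝ × ℝ → ℝ≥0∞} (hf : Measurable f) : ∫⁻ p, f p ∂X.H =
    ∫⁻ x, ∫⁻ y, f (X.ι x, X.ι y) * ENNReal.ofReal (1 / (x - y) ^ 2) := by
  have hm : Measurable fun p : ℝ × ℝ => f (Prod.map X.ι X.ι p) := hf.comp X.D1b_ι
  rw [Ch.H, lintegral_map hf X.D1b_ι, K0, lintegral_withDensity_eq_lintegral_mul _ D1b_K_meas hm,
    lintegral_prod _ (D1b_K_meas.mul hm).aemeasurable]
  refine lintegral_congr fun x => lintegral_congr fun y => ?_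
  exact mul_comm _ _

theorem one_le_C1 {A : ℕ} (h : 1 ≤ A) : (A : ℝ) ≤ C1 A ∧ 1 ≤ C1 A := by
  have h1 : (1 : ℝ) ≤ A := by exact_mod_cast h
  have h2 : (1 : ℝ) ≤ 9 ^ A := one_le_pow₀ (by norm_num)
  have h3 : (A : ℝ) ≤ (A : ℝ) ^ 2 := by nlinarith
  have h4 : (A : ℝ) ^ 2 ≤ (A : ℝ) ^ 2 * 9 ^ A := le_mul_of_one_le_right (by positivity) h2
  unfold C1
  constructor <;> linarith

theorem Ch.R2_le (X : Ch) {s t : ℝ} (hs : -(1 / 2) < s) (h : s ≤ t) (ht : t < 1 / 2) :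
    X.σ s ≤ X.σ t :=
  X.σ_mono.monotoneOn ⟨hs, h.trans_lt ht⟩ ⟨hs.trans_le h, ht⟩ h

theorem Ch.R2_lt (X : Ch) {s t : ℝ} (hs : -(1 / 2) < s) (h : s < t) (ht : t < 1 / 2) :
    X.σ s < X.σ t :=
  X.σ_mono ⟨hs, h.trans ht⟩ ⟨hs.trans h, ht⟩ h

theorem Ch.R2_mono (X : Ch) {a b c d : ℝ} (h₀ : -(1 / 2) < a) (h₁ : a ≤ b) (h₂ : b ≤ c)
    (h₃ : c ≤ d) (h₄ : d < 1 / 2) : X.len b c ≤ X.len a d := by
  have e₁ := X.R2_le h₀ h₁ (by linarith)
  have e₂ := X.R2_le (s := c) (by linarith) h₃ h₄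
  unfold Ch.len
  linarith

theorem Ch.R2_ι_le (X : Ch) {y t : ℝ} (h₀ : -(1 / 2) < t) (h₁ : t < 1 / 2) (h : y ≤ X.σ t) :
    X.ι y ≤ t := by
  have := X.ι_mono.monotone h
  rwa [X.ι_σ t ⟨h₀, h₁⟩] at this

theorem Ch.R2_le_ι (X : Ch) {y t : ℝ} (h₀ : -(1 / 2) < t) (h₁ : t < 1 / 2) (h : X.σ t ≤ y) :
    t ≤ X.ι y := by
  have := X.ι_mono.monotone h
  rwa [X.ι_σ t ⟨h₀, h₁⟩] at this

namespace RD

variable {A : ℕ} {V ρ₀ Θ θ : ℝ} {X X' : Ch} (D : RD A V ρ₀ Θ θ X X') {x y t s a b : ℝ}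

include D in
theorem R2_num : 0 < θ ∧ 100 * θ ≤ Θ ∧ 0 ≤ ρ₀ ∧ ρ₀ + 300 * Θ ≤ 1 / 4 :=
  ⟨D.θ_pos, D.θ_le, D.ρ_nonneg, D.ρ_le⟩

include D in
theorem R2_C : 1 ≤ C1 A := (one_le_C1 (le_trans (by norm_num) D.A_ge)).2

theorem R2_E {e : ℝ} (he : e ∈ D.E) : -(1 / 2) < e ∧ e < 1 / 2 := by
  obtain ⟨n1, n2, n3, n4⟩ := D.R2_num
  have := abs_le.1 (D.E_mem e he)
  constructor <;> linarith

theorem u_eq (h : |t| ≤ ρ₀ + 200 * Θ) : D.ε = 1 ∧ D.u (X.σ t) = X.len t (t + 2 * θ) ∨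
    D.ε = -1 ∧ D.u (X.σ t) = X.len (t - 2 * θ) t := by
  obtain ⟨n1, n2, n3, n4⟩ := D.R2_num
  obtain ⟨h1, h2⟩ := abs_le.1 h
  have ht : t ∈ Ioo (-(1 / 2) : ℝ) (1 / 2) := ⟨by linarith, by linarith⟩
  unfold RD.u Ch.u Ch.g Ch.len
  rw [X.ι_σ t ht]
  rcases D.hε with e | e
  · refine Or.inl ⟨e, ?_⟩
    rw [e, mul_one, abs_of_nonneg (sub_nonneg.2 (X.R2_le ht.1 (by linarith) (by linarith)))]
  · refine Or.inr ⟨e, ?_⟩
    rw [e, show t + 2 * -1 * θ = t - 2 * θ by ring,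
      abs_of_nonpos (sub_nonpos.2 (X.R2_le (by linarith) (by linarith) ht.2)), neg_sub]

theorem R2_pos (h : |t| ≤ ρ₀ + 200 * Θ) : 0 < D.u (X.σ t) := by
  obtain ⟨n1, n2, n3, n4⟩ := D.R2_num
  obtain ⟨h1, h2⟩ := abs_le.1 h
  rcases D.u_eq h with ⟨-, e⟩ | ⟨-, e⟩ <;> rw [e] <;>
    exact sub_pos.2 (X.R2_lt (by linarith) (by linarith) (by linarith))

theorem u_pos (h : In X ρ₀ Θ 200 x) : 0 < D.u x := by
  have := D.R2_pos h
  rwa [X.σ_ι] at this

theorem u_cont : ContinuousOn D.u {x | In X ρ₀ Θ 200 x} := by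
  obtain ⟨n1, n2, n3, n4⟩ := D.R2_num
  have h : ContinuousOn (fun x => X.σ (X.ι x + 2 * D.ε * θ)) {x | In X ρ₀ Θ 200 x} := by
    refine X.σ_cont.comp (X.ι_cont.add continuous_const).continuousOn fun x hx => ?_
    obtain ⟨h1, h2⟩ := abs_le.1 (show |X.ι x| ≤ ρ₀ + 200 * Θ from hx)
    rcases D.hε with e | e <;> rw [e] <;> constructor <;> linarith
  exact (h.sub continuousOn_id).abs

theorem r_lip (x y : ℝ) : |D.r x - D.r y| ≤ |x - y| := by
  have := (lipschitz_infDist_pt (X.σ '' (D.E : Set ℝ))).dist_le_mul x y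
  rwa [NNReal.coe_one, one_mul, Real.dist_eq, Real.dist_eq] at this

theorem r_le {e : ℝ} (he : e ∈ D.E) (x : ℝ) : D.r x ≤ |x - X.σ e| := by
  rw [← Real.dist_eq]
  exact infDist_le_dist_of_mem (mem_image_of_mem _ (Finset.mem_coe.2 he))

theorem R2_two (h : In X ρ₀ Θ 130 x) : ∃ e₁ ∈ D.E, ∃ e₂ ∈ D.E, X.ι x - 2 * Θ ≤ e₁ ∧
    e₂ ≤ X.ι x + 2 * Θ ∧ X.σ e₁ ≤ x - D.r x ∧ x + D.r x ≤ X.σ e₂ := by
  obtain ⟨n1, n2, n3, n4⟩ := D.R2_num
  obtain ⟨h1, h2⟩ := abs_le.1 (show |X.ι x| ≤ ρ₀ + 130 * Θ from h)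
  obtain ⟨e₁, he₁, a1, a2⟩ := D.E_dense (X.ι x) (abs_le.2 ⟨by linarith, by linarith⟩)
  obtain ⟨e₂, he₂, b1, b2⟩ := D.E_dense (X.ι x + 2 * Θ) (abs_le.2 ⟨by linarith, by linarith⟩)
  have c1 := X.R2_le (D.R2_E he₁).1 a2 (X.ι_mem x).2
  have c2 := X.R2_le (t := e₂) (X.ι_mem x).1 (by linarith) (D.R2_E he₂).2
  rw [X.σ_ι] at c1 c2
  have d1 := D.r_le he₁ x
  have d2 := D.r_le he₂ x
  rw [abs_of_nonneg (by linarith)] at d1
  rw [abs_of_nonpos (by linarith)] at d2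
  exact ⟨e₁, he₁, e₂, he₂, a1, b2, by linarith, by linarith⟩

theorem within (h : In X ρ₀ Θ 130 x) (hy : |y - x| ≤ D.r x) : |X.ι y - X.ι x| ≤ 2 * Θ := by
  obtain ⟨e₁, he₁, e₂, he₂, a1, a2, a3, a4⟩ := D.R2_two h
  obtain ⟨h1, h2⟩ := abs_le.1 hy
  have c1 := X.R2_le_ι (y := y) (D.R2_E he₁).1 (D.R2_E he₁).2 (by linarith)
  have c2 := X.R2_ι_le (y := y) (D.R2_E he₂).1 (D.R2_E he₂).2 (by linarith)
  exact abs_le.2 ⟨by linarith, by linarith⟩

theorem near_mark (h : In X ρ₀ Θ 130 x) :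
    ∃ e ∈ D.E, D.r x = |x - X.σ e| ∧ |X.ι x - e| ≤ 2 * Θ := by
  obtain ⟨e₁, he₁, -⟩ := D.R2_two h
  obtain ⟨z, ⟨e, he, rfl⟩, hz⟩ := (D.E.finite_toSet.image X.σ).isCompact.exists_infDist_eq_dist
    ⟨_, mem_image_of_mem _ (Finset.mem_coe.2 he₁)⟩ x
  have he' : e ∈ D.E := Finset.mem_coe.1 he
  have hr : D.r x = |x - X.σ e| := by rw [← Real.dist_eq]; exact hz
  refine ⟨e, he', hr, ?_⟩
  have := D.within (y := X.σ e) h (by rw [hr, abs_sub_comm])
  rwa [X.ι_σ e (D.R2_E he'), abs_sub_comm] at this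

theorem R2_step (ha : |a| ≤ ρ₀ + 190 * Θ) :
    ∃ s ∈ Icc a (a + 2 * θ), X.len a (a + 2 * θ) = D.u (X.σ s) := by
  obtain ⟨n1, n2, n3, n4⟩ := D.R2_num
  obtain ⟨h1, h2⟩ := abs_le.1 ha
  rcases D.u_eq (t := a) (abs_le.2 ⟨by linarith, by linarith⟩) with ⟨e, h⟩ | ⟨e, -⟩
  · exact ⟨a, ⟨le_rfl, by linarith⟩, h.symm⟩
  · rcases D.u_eq (t := a + 2 * θ) (abs_le.2 ⟨by linarith, by linarith⟩) with ⟨e', -⟩ | ⟨-, h⟩
    · rw [e] at e'; norm_num at e'
    · rw [add_sub_cancel_right] at h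
      exact ⟨a + 2 * θ, ⟨by linarith, le_rfl⟩, h.symm⟩

theorem R2_chain (ha : |a| ≤ ρ₀ + 190 * Θ) (hb : |b| ≤ ρ₀ + 190 * Θ) (c m : ℝ)
    (hm : ∀ s ∈ Icc a b, c * D.u (X.σ s) ≤ m) (n : ℕ) (h : a + 2 * n * θ ≤ b) :
    c * X.len a (a + 2 * n * θ) ≤ n * m := by
  have n1 := D.θ_pos
  induction n with
  | zero => simp [Ch.len]
  | succ n ih =>
    push_cast at h ⊢
    have hn : (0 : ℝ) ≤ 2 * n * θ := by positivity
    have e : a + 2 * ((n : ℝ) + 1) * θ = a + 2 * n * θ + 2 * θ := by ring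
    rw [e] at h ⊢
    obtain ⟨h1, h2⟩ := abs_le.1 ha
    obtain ⟨h3, h4⟩ := abs_le.1 hb
    obtain ⟨s, hs, hl⟩ := D.R2_step (a := a + 2 * n * θ) (abs_le.2 ⟨by linarith, by linarith⟩)
    have h5 := hm s ⟨by linarith [hs.1], by linarith [hs.2]⟩
    have h6 := ih (by linarith)
    rw [← hl] at h5
    unfold Ch.len at h5 h6 ⊢
    linarith

theorem R2_floor (h0 : 0 < θ) (h : a + 2 * θ ≤ b) : ∃ n : ℕ, (1 : ℝ) ≤ n ∧ a + 2 * n * θ ≤ b ∧
    b - 2 * θ ≤ a + 2 * n * θ := by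
  have h2 : 0 < 2 * θ := by linarith
  have h1 : 1 ≤ (b - a) / (2 * θ) := by rw [le_div_iff₀ h2]; linarith
  have a1 := Nat.floor_le (le_trans zero_le_one h1)
  have a2 := Nat.lt_floor_add_one ((b - a) / (2 * θ))
  rw [le_div_iff₀ h2] at a1
  rw [div_lt_iff₀ h2] at a2
  refine ⟨⌊(b - a) / (2 * θ)⌋₊, ?_, by linarith, by linarith⟩
  exact_mod_cast (Nat.one_le_floor_iff _).2 h1

theorem unit_le (ha : |a| ≤ ρ₀ + 190 * Θ) (hb : |b| ≤ ρ₀ + 190 * Θ) (h : a + 2 * θ ≤ b) {m : ℝ}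
    (hm : ∀ s ∈ Icc a b, D.u (X.σ s) ≤ m) : X.len a b ≤ (b - a) / θ * m := by
  obtain ⟨n1, n2, n3, n4⟩ := D.R2_num
  obtain ⟨h1, h2⟩ := abs_le.1 ha
  obtain ⟨h3, h4⟩ := abs_le.1 hb
  obtain ⟨n, b1, b2, b3⟩ := R2_floor n1 h
  have c1 := D.R2_chain ha hb 1 m (fun s hs => by rw [one_mul]; exact hm s hs) n b2
  obtain ⟨s, hs, hl⟩ := D.R2_step (a := b - 2 * θ) (abs_le.2 ⟨by linarith, by linarith⟩)
  have c2 := hm s ⟨by linarith [hs.1], by linarith [hs.2]⟩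
  have c3 := X.R2_le (by linarith) b3 (by linarith)
  have m0 : 0 ≤ m :=
    (D.R2_pos (t := a) (ha.trans (by linarith))).le.trans (hm a ⟨le_rfl, by linarith⟩)
  have c4 : (n : ℝ) + 1 ≤ (b - a) / θ := by
    rw [le_div_iff₀ n1]; nlinarith
  have c5 := mul_le_mul_of_nonneg_right c4 m0
  rw [← hl, sub_add_cancel] at c2
  unfold Ch.len at c1 c2 ⊢
  linarith

theorem unit_ge (ha : |a| ≤ ρ₀ + 190 * Θ) (hb : |b| ≤ ρ₀ + 190 * Θ) (h : a + 2 * θ ≤ b) {m : ℝ}
    (hm : ∀ s ∈ Icc a b, m ≤ D.u (X.σ s)) : (b - a) / (4 * θ) * m ≤ X.len a b := by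
  obtain ⟨n1, n2, n3, n4⟩ := D.R2_num
  obtain ⟨h1, h2⟩ := abs_le.1 ha
  obtain ⟨h3, h4⟩ := abs_le.1 hb
  obtain ⟨n, b1, b2, b3⟩ := R2_floor n1 h
  have c1 := D.R2_chain ha hb (-1) (-m) (fun s hs => by linarith [hm s hs]) n b2
  have hn : (0 : ℝ) ≤ 2 * n * θ := by positivity
  have c3 := X.R2_le (by linarith) b2 (by linarith)
  have c0 := X.R2_le (s := a) (t := b) (by linarith) (by linarith) (by linarith)
  have q0 : 0 ≤ (b - a) / (4 * θ) := div_nonneg (by linarith) (by linarith)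
  unfold Ch.len at c1 ⊢
  rcases le_total m 0 with m0 | m0
  · have := mul_nonpos_of_nonneg_of_nonpos q0 m0
    linarith
  · have c4 : (b - a) / (4 * θ) ≤ n := by
      rw [div_le_iff₀ (by linarith)]; nlinarith
    have c5 := mul_le_mul_of_nonneg_right c4 m0
    linarith

theorem cmp_u (ht : |t| ≤ ρ₀ + 140 * Θ) (ha : t - 90 * θ ≤ a) (hb : b ≤ t + 90 * θ)
    (hab : a ≤ b) :
    X.len a b ≤ Real.exp (A * V) * D.u (X.σ t) := by
  obtain ⟨n1, n2, n3, n4⟩ := D.R2_num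
  obtain ⟨h1, h2⟩ := abs_le.1 ht
  rcases D.u_eq (t := t) (ht.trans (by linarith)) with ⟨-, e⟩ | ⟨-, e⟩
  · rw [e]
    exact (X.R2_mono (by linarith) (by linarith) hab (by linarith) (by linarith)).trans
      (D.cmp X (Or.inl rfl) θ (Or.inl rfl) t (ht.trans (by linarith)))
  · have := D.cmp X (Or.inl rfl) θ (Or.inl rfl) (t - 2 * θ) (abs_le.2 ⟨by linarith, by linarith⟩)
    rw [sub_add_cancel] at this
    rw [e]
    exact (X.R2_mono (by linarith) (by linarith) hab (by linarith) (by linarith)).trans this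

theorem R2_u_le (ht : |t| ≤ ρ₀ + 200 * Θ) (h₀ : -(1 / 2) < a) (ha : a ≤ t - 2 * θ)
    (hb : t + 2 * θ ≤ b) (h₁ : b < 1 / 2) : D.u (X.σ t) ≤ X.len a b := by
  have n1 := D.θ_pos
  rcases D.u_eq ht with ⟨-, e⟩ | ⟨-, e⟩ <;> rw [e] <;>
    exact X.R2_mono h₀ (by linarith) (by linarith) (by linarith) h₁

theorem cmp_u' (ht : |t| ≤ ρ₀ + 140 * Θ) (ha : |a - t| ≤ 90 * θ) (hb : a + 2 * θ ≤ b)
    (hb' : b < 1 / 2) : D.u (X.σ t) ≤ Real.exp (A * V) * X.len a b := by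
  obtain ⟨n1, n2, n3, n4⟩ := D.R2_num
  obtain ⟨h1, h2⟩ := abs_le.1 ht
  obtain ⟨h3, h4⟩ := abs_le.1 ha
  have c1 := D.R2_u_le (t := t) (a := a - 100 * θ) (b := a + 100 * θ) (ht.trans (by linarith))
    (by linarith) (by linarith) (by linarith) (by linarith)
  have c2 := D.cmp X (Or.inl rfl) θ (Or.inl rfl) a (abs_le.2 ⟨by linarith, by linarith⟩)
  have c3 := X.R2_mono (a := a) (b := a) (c := a + 2 * θ) (by linarith) le_rfl (by linarith) hb hb'
  exact c1.trans (c2.trans (mul_le_mul_of_nonneg_left c3 (Real.exp_pos _).le))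

theorem cmp_uu (ht : |t| ≤ ρ₀ + 140 * Θ) (hs : |s - t| ≤ 80 * θ) :
    D.u (X.σ s) ≤ Real.exp (A * V) * D.u (X.σ t) := by
  obtain ⟨n1, n2, n3, n4⟩ := D.R2_num
  obtain ⟨h1, h2⟩ := abs_le.1 ht
  obtain ⟨h3, h4⟩ := abs_le.1 hs
  exact (D.R2_u_le (t := s) (a := t - 90 * θ) (b := t + 90 * θ)
    (abs_le.2 ⟨by linarith, by linarith⟩) (by linarith) (by linarith) (by linarith)
    (by linarith)).trans (D.cmp_u ht le_rfl le_rfl (by linarith))

include D in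
theorem cmp_ℓ {Y : Ch} (hY : Y = X ∨ Y = X') (ht : |t| ≤ ρ₀ + 140 * Θ) (ha : t - 90 * Θ ≤ a)
    (hb : b ≤ t + 90 * Θ) (hab : a ≤ b) : Y.len a b ≤ Real.exp (A * V) * Y.ℓ Θ t := by
  obtain ⟨n1, n2, n3, n4⟩ := D.R2_num
  obtain ⟨h1, h2⟩ := abs_le.1 ht
  have := D.cmp Y hY Θ (Or.inr rfl) (t - Θ) (abs_le.2 ⟨by linarith, by linarith⟩)
  rw [show t - Θ + 2 * Θ = t + Θ by ring] at this
  exact (Y.R2_mono (by linarith) (by linarith) hab (by linarith) (by linarith)).trans this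

theorem hh_nonneg (t : ℝ) : 0 ≤ D.hh t :=
  Real.sSup_nonneg fun _ h => h.1

theorem R2_good_le (ht : |t| ≤ ρ₀ + 130 * Θ) {κ : ℝ} (h : D.good t κ) : κ ≤ Θ / θ := by
  obtain ⟨n1, n2, n3, n4⟩ := D.R2_num
  obtain ⟨h1, h2⟩ := abs_le.1 ht
  obtain ⟨e, he, a1, a2⟩ := D.E_dense (t + Θ) (abs_le.2 ⟨by linarith, by linarith⟩)
  have a3 : |e - t| ≤ Θ := abs_le.2 ⟨by linarith, by linarith⟩
  rw [le_div_iff₀ n1]
  exact ((h.1 e he).trans_le a3).le

theorem hh_le (ht : |t| ≤ ρ₀ + 130 * Θ) : D.hh t ≤ Θ / θ := by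
  obtain ⟨n1, n2, -⟩ := D.R2_num
  exact Real.sSup_le (fun κ h => D.R2_good_le ht h.2) (div_nonneg (by linarith) n1.le)

theorem R2_le_hh (ht : |t| ≤ ρ₀ + 130 * Θ) {κ : ℝ} (h0 : 0 ≤ κ) (h : D.good t κ) : κ ≤ D.hh t :=
  le_csSup ⟨Θ / θ, fun _ h => D.R2_good_le ht h.2⟩ ⟨h0, h⟩

theorem R2_shift {κ κ' : ℝ} (h : D.good t κ) (hs : κ' * θ + |s - t| ≤ κ * θ) : D.good s κ' := by
  have a1 := le_abs_self (s - t)
  have a2 := neg_abs_le (s - t)
  refine ⟨fun e he => ?_, fun p hp q hq => h.2 p ⟨by linarith [hp.1], by linarith [hp.2]⟩ q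
    ⟨by linarith [hq.1], by linarith [hq.2]⟩⟩
  have a3 := h.1 e he
  have a4 := abs_sub_le e s t
  linarith

theorem good_of_lt (ht : |t| ≤ ρ₀ + 130 * Θ) {κ : ℝ} (h0 : 0 ≤ κ) (h : κ < D.hh t) :
    D.good t κ := by
  have _ := ht
  rcases eq_empty_or_nonempty {κ | 0 ≤ κ ∧ D.good t κ} with e | e
  · unfold RD.hh at h
    rw [e, Real.sSup_empty] at h
    exact absurd h (not_lt.2 h0)
  · obtain ⟨κ', hκ, hl⟩ := exists_lt_of_lt_csSup e h
    refine D.R2_shift hκ.2 ?_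
    rw [sub_self, abs_zero, add_zero]
    exact mul_le_mul_of_nonneg_right hl.le D.θ_pos.le

theorem R2_hh_lip (hs : |s| ≤ ρ₀ + 130 * Θ) : D.hh t ≤ D.hh s + |s - t| / θ := by
  have n1 := D.θ_pos
  have a0 := D.hh_nonneg s
  have a1 : 0 ≤ |s - t| / θ := by positivity
  refine Real.sSup_le (fun κ h => ?_) (by linarith)
  rcases le_total κ (|s - t| / θ) with c | c
  · linarith
  · have := D.R2_le_hh hs (κ := κ - |s - t| / θ) (by linarith) (D.R2_shift h.2 (by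
      rw [sub_mul, div_mul_cancel₀ _ n1.ne']; linarith))
    linarith

theorem kb_lip (ht : |t| ≤ ρ₀ + 130 * Θ) (hs : |s| ≤ ρ₀ + 130 * Θ) :
    |D.kb s - D.kb t| ≤ |s - t| / θ := by
  have a1 := D.R2_hh_lip (t := t) hs
  have a2 := D.R2_hh_lip (t := s) ht
  rw [abs_sub_comm t s] at a2
  exact (abs_max_sub_max_le_abs _ _ _).trans (abs_le.2 ⟨by linarith, by linarith⟩)

theorem k_cont : ContinuousOn D.k {x | In X ρ₀ Θ 130 x} := by
  have n1 := D.θ_pos
  have h : LipschitzOnWith (Real.toNNReal θ⁻¹) D.kb {t | |t| ≤ ρ₀ + 130 * Θ} := by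
    refine LipschitzOnWith.of_dist_le_mul fun s hs t ht => ?_
    rw [Real.coe_toNNReal _ (by positivity), Real.dist_eq, Real.dist_eq, mul_comm,
      ← div_eq_mul_inv]
    exact D.kb_lip ht hs
  exact h.continuousOn.comp X.ι_cont.continuousOn fun x hx => hx

theorem R2_unit (ha : |a| ≤ ρ₀ + 190 * Θ) (hb : |b| ≤ ρ₀ + 190 * Θ) (h : a ≤ b) {m : ℝ}
    (hm : ∀ s ∈ Icc a b, D.u (X.σ s) ≤ m) : X.len a b ≤ max ((b - a) / θ) 1 * m := by
  obtain ⟨n1, n2, n3, n4⟩ := D.R2_num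
  obtain ⟨h1, h2⟩ := abs_le.1 ha
  obtain ⟨h3, h4⟩ := abs_le.1 hb
  have ma := hm a ⟨le_rfl, h⟩
  have mb := hm b ⟨h, le_rfl⟩
  have m0 : 0 ≤ m := (D.R2_pos (t := a) (ha.trans (by linarith))).le.trans ma
  rcases le_total (a + 2 * θ) b with c | c
  · exact (D.unit_le ha hb c hm).trans (mul_le_mul_of_nonneg_right (le_max_left _ _) m0)
  · refine le_trans ?_ (le_mul_of_one_le_left m0 (le_max_right _ _))
    rcases D.u_eq (t := a) (ha.trans (by linarith)) with ⟨e, q⟩ | ⟨e, -⟩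
    · rw [q] at ma
      exact (X.R2_mono (by linarith) le_rfl h c (by linarith)).trans ma
    · rcases D.u_eq (t := b) (hb.trans (by linarith)) with ⟨e', -⟩ | ⟨-, q⟩
      · rw [e] at e'; norm_num at e'
      · rw [q] at mb
        exact (X.R2_mono (by linarith) (by linarith) h le_rfl (by linarith)).trans mb

theorem L_h (h : In X ρ₀ Θ 120 x) {d : ℝ} (hd : d < D.r x)
    (hf : ∀ y' y'', |y' - x| ≤ d → |y'' - x| ≤ d → D.u y' ≤ C1 A * D.u y'') :
    d ≤ C1 A * D.ϱ x := by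
  obtain ⟨n1, n2, n3, n4⟩ := D.R2_num
  have hx : |X.ι x| ≤ ρ₀ + 120 * Θ := h
  obtain ⟨h1, h2⟩ := abs_le.1 hx
  have hC := D.R2_C
  have hu : 0 < D.u x := D.u_pos (hx.trans (by linarith))
  have hm : 0 ≤ C1 A * D.u x := by positivity
  have hk : 1 ≤ D.k x := le_max_right _ _
  have e : C1 A * D.ϱ x = D.k x * (C1 A * D.u x) := by unfold RD.ϱ; ring
  rw [e]
  rcases le_total d 0 with d0 | d0
  · exact d0.trans (by positivity)
  have h130 : In X ρ₀ Θ 130 x := hx.trans (by linarith)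
  obtain ⟨p1, p2⟩ := abs_le.1 (D.within (y := x + d) h130 (abs_le.2 ⟨by linarith, by linarith⟩))
  obtain ⟨q1, q2⟩ := abs_le.1 (D.within (y := x - d) h130 (abs_le.2 ⟨by linarith, by linarith⟩))
  have p0 : X.ι x ≤ X.ι (x + d) := X.ι_mono.monotone (by linarith)
  have q0 : X.ι (x - d) ≤ X.ι x := X.ι_mono.monotone (by linarith)
  have hin : ∀ s, X.ι (x - d) ≤ s → s ≤ X.ι (x + d) → |X.σ s - x| ≤ d := fun s s1 s2 => by
    have c1 := X.R2_le (X.ι_mem _).1 s1 (s2.trans_lt (X.ι_mem _).2)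
    have c2 := X.R2_le ((X.ι_mem _).1.trans_le s1) s2 (X.ι_mem _).2
    rw [X.σ_ι] at c1 c2
    exact abs_le.2 ⟨by linarith, by linarith⟩
  have hx0 : |x - x| ≤ d := by rwa [sub_self, abs_zero]
  have l1 := D.R2_unit (a := X.ι x) (b := X.ι (x + d)) (hx.trans (by linarith))
    (abs_le.2 ⟨by linarith, by linarith⟩) p0
    (fun s hs => hf _ x (hin s (q0.trans hs.1) hs.2) hx0)
  have l2 := D.R2_unit (a := X.ι (x - d)) (b := X.ι x) (abs_le.2 ⟨by linarith, by linarith⟩)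
    (hx.trans (by linarith)) q0 (fun s hs => hf _ x (hin s hs.1 (hs.2.trans p0)) hx0)
  unfold Ch.len at l1 l2
  rw [X.σ_ι, X.σ_ι] at l1 l2
  have key : ∀ c, 0 ≤ c → c ≤ X.ι (x + d) - X.ι x → c ≤ X.ι x - X.ι (x - d) →
      max (c / θ) 1 * (C1 A * D.u x) ≤ D.k x * (C1 A * D.u x) := fun c c0 c1 c2 => by
    refine mul_le_mul_of_nonneg_right (max_le_max_right _ (D.R2_le_hh h130 (by positivity) ?_)) hm
    unfold RD.good
    rw [div_mul_cancel₀ _ n1.ne']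
    refine ⟨fun e he => ?_, fun p hp q hq => hf _ _ (hin p (by linarith [hp.1])
      (by linarith [hp.2])) (hin q (by linarith [hq.1]) (by linarith [hq.2]))⟩
    by_contra hn
    obtain ⟨a1, a2⟩ := abs_le.1 (not_lt.1 hn)
    have a3 := hin e (by linarith) (by linarith)
    have a4 := D.r_le he x
    rw [abs_sub_comm] at a4
    linarith
  rcases le_total (X.ι (x + d) - X.ι x) (X.ι x - X.ι (x - d)) with c | c
  · have := key _ (by linarith) le_rfl c
    linarith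
  · have := key _ (by linarith) c le_rfl
    linarith

theorem R2_half (h : In X ρ₀ Θ 120 x) (hk : 8 ≤ D.k x) :
    D.good (X.ι x) (D.k x / 2) ∧ D.k x * θ ≤ Θ := by
  obtain ⟨n1, n2, n3, n4⟩ := D.R2_num
  have hx : |X.ι x| ≤ ρ₀ + 130 * Θ := le_trans h (by linarith)
  have e : D.k x = D.hh (X.ι x) := by
    refine max_eq_left ?_
    by_contra hn
    have : D.k x = 1 := max_eq_right (not_le.1 hn).le
    linarith
  refine ⟨D.good_of_lt hx (by linarith) (by linarith), ?_⟩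
  rw [← le_div_iff₀ n1, e]
  exact D.hh_le hx

theorem U_h (h : In X ρ₀ Θ 120 x) (hk : 8 ≤ D.k x) (hy : |y - x| ≤ D.ϱ x / (8 * C1 A)) :
    |X.ι y - X.ι x| ≤ D.k x * θ / 2 := by
  obtain ⟨n1, n2, n3, n4⟩ := D.R2_num
  have hx : |X.ι x| ≤ ρ₀ + 120 * Θ := h
  obtain ⟨h1, h2⟩ := abs_le.1 hx
  obtain ⟨y1, y2⟩ := abs_le.1 hy
  obtain ⟨hg, hΘ⟩ := D.R2_half h hk
  have hC := D.R2_C
  have k8 : 8 * θ ≤ D.k x * θ := mul_le_mul_of_nonneg_right hk n1.le
  have ek : D.k x / 2 * θ = D.k x * θ / 2 := by ring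
  have hm : ∀ s, X.ι x - D.k x * θ / 2 ≤ s → s ≤ X.ι x + D.k x * θ / 2 →
      D.u x / C1 A ≤ D.u (X.σ s) := fun s s1 s2 => by
    have := hg.2 (X.ι x) ⟨by linarith, by linarith⟩ s ⟨by linarith, by linarith⟩
    rw [X.σ_ι] at this
    rwa [div_le_iff₀' (by linarith)]
  have l1 := D.unit_ge (a := X.ι x) (b := X.ι x + D.k x * θ / 2) (hx.trans (by linarith))
    (abs_le.2 ⟨by linarith, by linarith⟩) (by linarith)
    (fun s hs => hm s (by linarith [hs.1]) hs.2)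
  have l2 := D.unit_ge (a := X.ι x - D.k x * θ / 2) (b := X.ι x)
    (abs_le.2 ⟨by linarith, by linarith⟩) (hx.trans (by linarith)) (by linarith)
    (fun s hs => hm s hs.1 (by linarith [hs.2]))
  have e : D.k x * θ / 2 / (4 * θ) * (D.u x / C1 A) = D.ϱ x / (8 * C1 A) := by
    unfold RD.ϱ
    field_simp
    ring
  unfold Ch.len at l1 l2
  rw [add_sub_cancel_left, e, X.σ_ι] at l1
  rw [sub_sub_cancel, e, X.σ_ι] at l2
  have c1 := X.R2_ι_le (y := y) (t := X.ι x + D.k x * θ / 2) (by linarith) (by linarith)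
    (by linarith)
  have c2 := X.R2_le_ι (y := y) (t := X.ι x - D.k x * θ / 2) (by linarith) (by linarith)
    (by linarith)
  exact abs_le.2 ⟨by linarith, by linarith⟩

theorem U_r (h : In X ρ₀ Θ 120 x) (hk : 8 ≤ D.k x) : D.ϱ x ≤ 8 * C1 A * D.r x := by
  obtain ⟨n1, n2, n3, n4⟩ := D.R2_num
  have hC := D.R2_C
  obtain ⟨e, he, hr, -⟩ := D.near_mark (x := x) (le_trans h (by linarith))
  by_contra hn
  have a1 := D.U_h (y := X.σ e) h hk (by
    rw [abs_sub_comm, ← hr, le_div_iff₀' (by linarith)]; exact (not_le.1 hn).le)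
  rw [X.ι_σ e (D.R2_E he)] at a1
  have a2 := (D.R2_half h hk).1.1 e he
  linarith

theorem ϱ_le (h : In X ρ₀ Θ 120 x) :
    D.ϱ x ≤ 8 * C1 A * Real.exp (A * V) * X.ℓ Θ (X.ι x) := by
  obtain ⟨n1, n2, n3, n4⟩ := D.R2_num
  have hx : |X.ι x| ≤ ρ₀ + 120 * Θ := h
  obtain ⟨h1, h2⟩ := abs_le.1 hx
  have hC := D.R2_C
  have l := D.cmp_ℓ (t := X.ι x) (a := X.ι x - 2 * Θ) (b := X.ι x + 2 * Θ) (Or.inl rfl)
    (hx.trans (by linarith)) (by linarith) (by linarith) (by linarith)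
  rw [mul_assoc]
  refine le_trans ?_ (mul_le_mul_of_nonneg_left l (by linarith))
  rcases le_total 8 (D.k x) with hk | hk
  · refine (D.U_r h hk).trans (mul_le_mul_of_nonneg_left ?_ (by linarith))
    obtain ⟨e₁, he₁, e₂, he₂, a1, a2, a3, a4⟩ := D.R2_two (x := x) (hx.trans (by linarith))
    have c1 := X.R2_le (by linarith) a1 (D.R2_E he₁).2
    have c2 := X.R2_le (D.R2_E he₂).1 a2 (by linarith)
    have r0 : 0 ≤ D.r x := infDist_nonneg
    unfold Ch.len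
    linarith
  · have c1 := D.R2_u_le (t := X.ι x) (a := X.ι x - 2 * Θ) (b := X.ι x + 2 * Θ)
      (hx.trans (by linarith)) (by linarith) (by linarith) (by linarith) (by linarith)
    rw [X.σ_ι] at c1
    have hu : 0 < D.u x := D.u_pos (hx.trans (by linarith))
    exact mul_le_mul (by linarith) c1 hu.le (by linarith)

theorem far_point (ha : |a| ≤ ρ₀ + 120 * Θ) (h : a < b) (hb : b ≤ a + 50 * Θ) :
    ∃ x, X.σ a + X.len a b / 3 ≤ x ∧ x ≤ X.σ b - X.len a b / 3 ∧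
      X.len a b ≤ 6 * (A + 1) * D.r x := by
  classical
  obtain ⟨n1, n2, n3, n4⟩ := D.R2_num
  obtain ⟨h1, h2⟩ := abs_le.1 ha
  have hL : 0 < X.len a b := sub_pos.2 (X.R2_lt (by linarith) h (by linarith))
  obtain ⟨δ, hδ⟩ : ∃ δ, δ = X.len a b / (6 * (A + 1)) := ⟨_, rfl⟩
  have δ0 : 0 < δ := by rw [hδ]; positivity
  have eL : X.len a b = 6 * (A + 1) * δ := by rw [hδ]; field_simp
  have key : ∃ j : Fin (A + 1), ∀ e ∈ D.E.filter fun e => |e - a| ≤ 100 * Θ,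
      δ ≤ |X.σ a + X.len a b / 3 + (2 * ((j : ℕ) : ℝ) + 1) * δ - X.σ e| := by
    by_contra hn
    push Not at hn
    choose f hf hlt using hn
    have hinj : Function.Injective f := fun i j hij => by
      have a1 := abs_lt.1 (hlt i)
      have a2 := abs_lt.1 (hlt j)
      rw [hij] at a1
      have b1 : ((i : ℕ) : ℝ) < (j : ℕ) + 1 := by nlinarith [a1.2, a2.1]
      have b2 : ((j : ℕ) : ℝ) < (i : ℕ) + 1 := by nlinarith [a1.1, a2.2]
      have b3 : (i : ℕ) < j + 1 := by exact_mod_cast b1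
      have b4 : (j : ℕ) < i + 1 := by exact_mod_cast b2
      exact Fin.ext (by omega)
    have c1 := Finset.card_le_card_of_injOn (s := Finset.univ) f (fun i _ => hf i) hinj.injOn
    have c2 := D.E_card a
    rw [Finset.card_univ, Fintype.card_fin] at c1
    omega
  obtain ⟨j, hj⟩ := key
  have j0 : (0 : ℝ) ≤ (j : ℕ) := Nat.cast_nonneg _
  have j1 : ((j : ℕ) : ℝ) ≤ A := by exact_mod_cast Nat.lt_succ_iff.1 j.2
  have j2 : 0 ≤ ((j : ℕ) : ℝ) * δ := by positivity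
  have j3 : ((j : ℕ) : ℝ) * δ ≤ A * δ := mul_le_mul_of_nonneg_right j1 δ0.le
  have eb : X.σ b = X.σ a + X.len a b := by unfold Ch.len; ring
  refine ⟨X.σ a + X.len a b / 3 + (2 * ((j : ℕ) : ℝ) + 1) * δ, by nlinarith, by nlinarith, ?_⟩
  conv_lhs => rw [eL]
  refine mul_le_mul_of_nonneg_left ?_ (by positivity)
  obtain ⟨e₀, he₀, -⟩ := D.E_dense a (ha.trans (by linarith))
  refine (le_infDist ⟨_, mem_image_of_mem _ (Finset.mem_coe.2 he₀)⟩).2 ?_
  rintro _ ⟨e, he, rfl⟩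
  have he' : e ∈ D.E := Finset.mem_coe.1 he
  rw [Real.dist_eq]
  by_cases c : |e - a| ≤ 100 * Θ
  · exact hj e (Finset.mem_filter.2 ⟨he', c⟩)
  · rcases lt_abs.1 (not_le.1 c) with c | c
    · have := X.R2_le (s := b) (by linarith) (by linarith) (D.R2_E he').2
      exact le_abs.2 (Or.inr (by nlinarith))
    · have := X.R2_le (t := a) (D.R2_E he').1 (by linarith) (by linarith)
      exact le_abs.2 (Or.inl (by nlinarith))

end RD

end Pool.Agent.Work.MP_042f46_an.Fu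
end
end
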