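import Pool.Agent.Work.MP_042f46_an.F.Defs
import Pool.Agent.Work.MP_042f46_an.F.R2
import Pool.Agent.Work.MP_042f46_an.F.A8
import Pool.Agent.Work.MP_042f46_an.F.E5

-- merged part: Pool.Agent.Work.MP_042f46_an.F.E1
section
/-!
# Quasi-invariance of rectangles

Plans.  `QI`: `θ' = θ (n + 1)`, `q = q (n + 1)`.  `Y ⊆ SS (ball c R') (2 θ') (2 θ l)` with `c` the middle of `arc a a'`, `R' = R θ n / 2 + θ n`.  `iter` gives `H Y ≤ H (sh (i α) Y) + ∑ k < i, b (sh ((k + 1) α) Y)` and `H (sh (i α) Y) ≤ H (sh (q α) Y) + ∑ k ∈ [i, q), b (sh ((k + 1) α) Y)` (`sh_sh`); both sums are at most `(R + 3) J l (n + 1) ≤ (R + 3) (n + 1 - l) V` (`births`, `J_sum`).  `↑(q α) = ↑(ε θ')` (`A3_sign`), and a chord of `sh (q α) Y` outside `Y` has its first end point in a ball of radius `θ'` near an end of `arc a a'` or its second end point in such a ball near an end of `arc b b'`, and length at least `2 θ'`: mass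 at most `4 K (n + 1) ≤ 4 V` each (`κ_cover` with `ν = 4`, `swap_apply H_symm`).
`QS`: both sets are rectangles with the same four lengths, so prove: if `X`, `X'` are the two rectangles in either order then `H X ≤ B (H X' + 1)`.  Let `ℓ` be the smaller side, `d` the smaller gap, `m₀` the last level with `ℓ < θ m₀`, `m₁` the first level with `2 θ m₁ ≤ d` (`θ_small`, `θ_zero`).  Chords of `X` of length at least `2 θ m₀` have mass at most `K m₀ ≤ V` (symmetry if the second side is the smaller one).  For a class `j` (`cls_find`, `m₀ ≤ j < m₁`) the set `X ∩ SS univ (2 θ (j + 1)) (2 θ j)` is one set `Y` of `QI` with `R = 4` (first side at most `4 θ j`) or the disjoint union of two (first end point within `2 θ j` of an end of the first side), so its mass changes by at most `30 V` (`QI` with `l = n = j`, `i = 1 ≤ q (j + 1)`).  So `H X ≤ V + H X' + 30 V (m₁ - m₀)`.  For levels `k = m₀ + 5 + 8 i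 ≤ m₁ - 5` the rectangles of `dual_low` centred at the middle of the smaller gap are disjoint subsets of `X'` or of its mirror image (`θ_four`, `θ_pow`), each of mass at least `exp (-V) / 2`; hence `m₁ - m₀ ≤ 16 exp V H X' + 18`.
-/

open Set Metric Topology Filter MeasureTheory
open scoped ENNReal NNReal

noncomputable section
namespace Pool.Agent.Work.MP_042f46_an.Fu

open Pool.Agent.Work.MP_042f46_an.Ty

theorem E1_edge {ε θ : ℝ} (hε : ε = 1 ∨ ε = -1) (hθ : 0 < θ) (a a' : ℝ) :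
    ∃ c : T, ∀ x : T, x + ((ε * θ : ℝ) : T) ∈ arc a a' → x ∈ arc a a' ∨ x ∈ ball c θ := by
  have key : ∀ (x : T) (s : ℝ), (s : T) = x + ((ε * θ : ℝ) : T) → x = ((s - ε * θ : ℝ) : T) :=
    fun x s e => by rw [AddCircle.coe_sub, e, add_sub_cancel_right]
  rcases hε with rfl | rfl
  · refine ⟨((a - θ / 2 : ℝ) : T), ?_⟩
    rintro x ⟨s, hs, e⟩
    rw [key x s e]
    by_cases h : a ≤ s - 1 * θ
    · exact Or.inl ⟨_, ⟨h, by linarith only [hθ, hs.2]⟩, rfl⟩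
    · refine Or.inr ((dist_coe_le _ _).trans_lt (abs_lt.2 ⟨?_, ?_⟩))
      · linarith only [hθ, hs.1]
      · linarith only [hθ, not_le.1 h]
  · refine ⟨((a' + θ / 2 : ℝ) : T), ?_⟩
    rintro x ⟨s, hs, e⟩
    rw [key x s e]
    by_cases h : s - -1 * θ ≤ a'
    · exact Or.inl ⟨_, ⟨by linarith only [hθ, hs.1], h⟩, rfl⟩
    · refine Or.inr ((dist_coe_le _ _).trans_lt (abs_lt.2 ⟨?_, ?_⟩))
      · linarith only [hθ, not_le.1 h]
      · linarith only [hθ, hs.2]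

theorem E1_swap {α : ℝ} {N : ℕ} (σ : Sys α N) {X : Set (T × T)} (hX : MeasurableSet X) :
    σ.H.real (Prod.swap ⁻¹' X) = σ.H.real X := by
  rw [Measure.real, swap_apply σ.H_symm hX, Measure.real]

theorem E1_off_swap {X : Set (T × T)} (h : Off X) : Off (Prod.swap ⁻¹' X) := by
  obtain ⟨r, hr, h⟩ := h
  exact ⟨r, hr, fun p hp => (h p.swap hp).trans_eq (dist_comm p.2 p.1)⟩

theorem E1_ret {α : ℝ} {N : ℕ} (σ : Sys α N) {V : ℝ} (hV : Bd σ V) (n : ℕ) (a a' b b' s : ℝ) :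
    σ.H.real (sh (σ.q (n + 1) * α) (arc a a' ×ˢ arc b b' ∩ SS univ (2 * σ.θ (n + 1)) s)) ≤
      σ.H.real (arc a a' ×ˢ arc b b' ∩ SS univ (2 * σ.θ (n + 1)) s) + 8 * V := by
  obtain ⟨ε, hε, hq⟩ := σ.A3_sign n
  have hθ := σ.θ_pos (n + 1)
  obtain ⟨c, hc⟩ := E1_edge hε hθ a a'
  obtain ⟨c', hc'⟩ := E1_edge hε hθ b b'
  have h2 : 0 < 2 * σ.θ (n + 1) := by positivity
  have k : ∀ c : T, σ.H.real (SS (ball c (σ.θ (n + 1))) (2 * σ.θ (n + 1)) 2) ≤ 4 * V := fun c => by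
    have h1 := σ.κ_cover c (R := σ.θ (n + 1)) 4 (n + 1) (n + 1) (by push_cast; exact le_rfl)
    have h3 : σ.At (n + 1) (n + 1) ≤ V := hV.K_le (n + 1)
    push_cast at h1
    exact h1.trans (by linarith only [h3])
  have sub : sh (σ.q (n + 1) * α) (arc a a' ×ˢ arc b b' ∩ SS univ (2 * σ.θ (n + 1)) s) ⊆
      (arc a a' ×ˢ arc b b' ∩ SS univ (2 * σ.θ (n + 1)) s ∪
        SS (ball c (σ.θ (n + 1))) (2 * σ.θ (n + 1)) 2) ∪
        Prod.swap ⁻¹' SS (ball c' (σ.θ (n + 1))) (2 * σ.θ (n + 1)) 2 := by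
    rintro ⟨x, y⟩ ⟨⟨hx, hy⟩, -, h3, h4⟩
    simp only [dist_add_right] at h3 h4
    rw [hq] at hx hy
    have h5 : dist x y < 2 := (dist_le_half x y).trans_lt (by norm_num)
    rcases hc x hx with hx | hx
    · rcases hc' y hy with hy | hy
      · exact Or.inl (Or.inl ⟨⟨hx, hy⟩, mem_univ _, h3, h4⟩)
      · rw [dist_comm] at h3 h5
        exact Or.inr ⟨hy, h3, h5⟩
    · exact Or.inl (Or.inr ⟨hx, h3, h5⟩)
  have o1 : Off (arc a a' ×ˢ arc b b' ∩ SS univ (2 * σ.θ (n + 1)) s) :=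
    (off_SS _ h2 _).mono inter_subset_right
  have h6 := (σ.Hr_mono sub ((o1.union (off_SS _ h2 _)).union (E1_off_swap (off_SS _ h2 _)))).trans
    ((measureReal_union_le _ _).trans (add_le_add (measureReal_union_le _ _) le_rfl))
  rw [E1_swap σ (measurableSet_SS measurableSet_ball _ _)] at h6
  linarith only [h6, k c, k c']

theorem E1_J {α : ℝ} {N : ℕ} (σ : Sys α N) {V : ℝ} (hV : Bd σ V) {l m : ℕ} (h : l ≤ m) :
    σ.J l m ≤ ((m : ℝ) - l) * V := by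
  rw [← σ.J_sum h]
  refine (Finset.sum_le_sum fun j _ => hV.J_le j).trans (le_of_eq ?_)
  rw [Finset.sum_const, Nat.card_Ico, nsmul_eq_mul, Nat.cast_sub h]

theorem QI {α : ℝ} {N : ℕ} (σ : Sys α N) {V : ℝ} (hV : Bd σ V) {n l i : ℕ} (hl : l ≤ n)
    (hi : i ≤ σ.q (n + 1)) {a a' R : ℝ} (b b' : ℝ) (hR : 0 ≤ R) (ha : a' - a ≤ R * σ.θ n) :
    |σ.H.real (sh (i * α) (arc a a' ×ˢ arc b b' ∩ SS univ (2 * σ.θ (n + 1)) (2 * σ.θ l))) -
        σ.H.real (arc a a' ×ˢ arc b b' ∩ SS univ (2 * σ.θ (n + 1)) (2 * σ.θ l))| ≤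
      ((R + 3) * ((n : ℝ) + 1 - l) + 8) * V := by
  have hθ := σ.θ_pos n
  have hθ' := σ.θ_pos (n + 1)
  have h8 := E1_ret σ hV n a a' b b' (2 * σ.θ l)
  obtain ⟨Y, hY⟩ : ∃ Y, Y = arc a a' ×ˢ arc b b' ∩ SS univ (2 * σ.θ (n + 1)) (2 * σ.θ l) := ⟨_, rfl⟩
  rw [← hY] at h8 ⊢
  have mY : MeasurableSet Y := hY ▸ ((measurableSet_arc _ _).prod (measurableSet_arc _ _)).inter
    (measurableSet_SS MeasurableSet.univ _ _)
  have oY : Off Y := hY ▸ (off_SS _ (by positivity) _).mono inter_subset_right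
  have sY : Y ⊆ SS (ball (((a + a') / 2 : ℝ) : T) (R * σ.θ n / 2 + σ.θ n)) (2 * σ.θ (n + 1))
      (2 * σ.θ l) := by
    rw [hY]
    rintro ⟨_, y⟩ ⟨⟨⟨s, hs, rfl⟩, -⟩, -, h⟩
    refine ⟨(dist_coe_le _ _).trans_lt (abs_lt.2 ⟨?_, ?_⟩), h⟩
    · linarith only [hθ, ha, hs.1]
    · linarith only [hθ, ha, hs.2]
  have hb := (Finset.sum_le_sum fun (k : ℕ) (_ : k ∈ Finset.range (σ.q (n + 1))) =>
    (measureReal_mono (sh_mono (((k : ℝ) + 1) * α) sY) : σ.b.real _ ≤ σ.b.real _)).trans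
    (σ.births n _ (by positivity) _ _)
  have e1 : 2 * (R * σ.θ n / 2 + σ.θ n) / σ.θ n + 1 = R + 3 := by
    field_simp
    ring
  have hJ : σ.b.real (SS univ (2 * σ.θ (n + 1)) (2 * σ.θ l)) ≤ ((n : ℝ) + 1 - l) * V := by
    have := E1_J σ hV (show l ≤ n + 1 by omega)
    push_cast at this
    exact this
  rw [e1] at hb
  replace hb := hb.trans (mul_le_mul_of_nonneg_left hJ (by linarith only [hR]))
  obtain ⟨r, hr⟩ := Nat.exists_eq_add_of_le hi
  have h1 := σ.iter mY oY i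
  have h2 := σ.iter (measurableSet_sh (i * α) mY) (oY.sh (i * α)) r
  have e2 : (r : ℝ) * α + i * α = σ.q (n + 1) * α := by
    rw [hr]
    push_cast
    ring
  have e3 : ∀ k ∈ Finset.range r, σ.b.real (sh (((k : ℝ) + 1) * α) (sh (i * α) Y)) =
      σ.b.real (sh ((((i + k : ℕ) : ℝ) + 1) * α) Y) := fun k _ => by
    rw [sh_sh, show ((k : ℝ) + 1) * α + i * α = (((i + k : ℕ) : ℝ) + 1) * α by push_cast; ring]
  rw [sh_sh, e2, Finset.sum_congr rfl e3] at h2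
  rw [hr, Finset.sum_range_add] at hb
  have n1 : 0 ≤ ∑ k ∈ Finset.range i, σ.b.real (sh (((k : ℝ) + 1) * α) Y) :=
    Finset.sum_nonneg fun _ _ => measureReal_nonneg
  have n2 : 0 ≤ ∑ k ∈ Finset.range r, σ.b.real (sh ((((i + k : ℕ) : ℝ) + 1) * α) Y) :=
    Finset.sum_nonneg fun _ _ => measureReal_nonneg
  have hV1 := hV.one_le
  rw [abs_le]
  constructor <;> linarith only [h1, h2, h8, hb, n1, n2, hV1]

/-- rectangles keep a fixed part of their mass under the rotation -/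
def QS (H : Measure (T × T)) (α B : ℝ) : Prop :=
  ∀ x₁ x₂ x₃ x₄ : ℝ, x₁ < x₂ → x₂ < x₃ → x₃ < x₄ → x₄ < x₁ + 1 →
    H.real (arc x₁ x₂ ×ˢ arc x₃ x₄) ≤ B * (H.real (sh α (arc x₁ x₂ ×ˢ arc x₃ x₄)) + 1) ∧
      H.real (sh α (arc x₁ x₂ ×ˢ arc x₃ x₄)) ≤ B * (H.real (arc x₁ x₂ ×ˢ arc x₃ x₄) + 1)

theorem E1_sh_rect (t a b c d : ℝ) :
    sh t (arc a b ×ˢ arc c d) = arc (a - t) (b - t) ×ˢ arc (c - t) (d - t) := by
  have k : ∀ (a b : ℝ) (x : T), x + (t : T) ∈ arc a b ↔ x ∈ arc (a - t) (b - t) := fun a b x => by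
    constructor
    · rintro ⟨s, hs, e⟩
      refine ⟨s - t, ⟨by linarith only [hs.1], by linarith only [hs.2]⟩, ?_⟩
      rw [AddCircle.coe_sub, e, add_sub_cancel_right]
    · rintro ⟨s, hs, rfl⟩
      exact ⟨s + t, ⟨by linarith only [hs.1], by linarith only [hs.2]⟩, AddCircle.coe_add _ _ _⟩
  ext p
  exact and_congr (k a b p.1) (k c d p.2)

theorem E1_sh_cls (t r s : ℝ) (X : Set (T × T)) :
    sh t (X ∩ SS univ r s) = sh t X ∩ SS univ r s := by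
  ext p
  simp only [sh, SS, mem_inter_iff, mem_ofPred_eq, dist_add_right, mem_univ]

theorem E1_mirror {α : ℝ} {N : ℕ} (σ : Sys α N) (x₁ x₂ x₃ x₄ : ℝ) :
    σ.H.real (arc x₃ x₄ ×ˢ arc (x₁ + 1) (x₂ + 1)) = σ.H.real (arc x₁ x₂ ×ˢ arc x₃ x₄) := by
  rw [arc_add_one, Measure.real, swap_prod σ.H_symm (measurableSet_arc _ _)
    (measurableSet_arc _ _), Measure.real]

theorem E1_disj {a b c d : ℝ} (h : b < c) (h' : d < a + 1) : Disjoint (arc a b) (arc c d) := by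
  obtain ⟨r, hr, k⟩ := off_arc h h'
  refine disjoint_left.2 fun x h1 h2 => ?_
  have := k (x, x) ⟨h1, h2⟩
  rw [dist_self] at this
  exact absurd hr (not_lt.2 this)

/-- one class of chords of a rectangle -/
theorem E1_cls {α : ℝ} {N : ℕ} (σ : Sys α N) {V : ℝ} (hV : Bd σ V) {x₁ x₂ x₃ x₄ : ℝ}
    (h₂ : x₂ < x₃) (h₄ : x₄ < x₁ + 1) (j : ℕ) :
    |σ.H.real (sh α (arc x₁ x₂ ×ˢ arc x₃ x₄) ∩ SS univ (2 * σ.θ (j + 1)) (2 * σ.θ j)) -
      σ.H.real (arc x₁ x₂ ×ˢ arc x₃ x₄ ∩ SS univ (2 * σ.θ (j + 1)) (2 * σ.θ j))| ≤ 30 * V := by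
  have hθ := σ.θ_pos j
  have hθ' := σ.θ_pos (j + 1)
  have hV1 := hV.one_le
  have q : ∀ a a' : ℝ, a' - a ≤ 4 * σ.θ j →
      |σ.H.real (sh α (arc a a' ×ˢ arc x₃ x₄ ∩ SS univ (2 * σ.θ (j + 1)) (2 * σ.θ j))) -
        σ.H.real (arc a a' ×ˢ arc x₃ x₄ ∩ SS univ (2 * σ.θ (j + 1)) (2 * σ.θ j))| ≤ 15 * V :=
    fun a a' h => by
      have := QI σ hV (le_refl j) (σ.q_pos j) x₃ x₄ (R := 4) (by norm_num) h
      rw [Nat.cast_one, one_mul] at this
      exact this.trans (le_of_eq (by ring))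
  rw [← E1_sh_cls]
  by_cases h : x₂ - x₁ ≤ 4 * σ.θ j
  · exact (q x₁ x₂ h).trans (by linarith only [hV1])
  have h' := not_le.1 h
  have e : arc x₁ x₂ ×ˢ arc x₃ x₄ ∩ SS univ (2 * σ.θ (j + 1)) (2 * σ.θ j) =
      arc x₁ (x₁ + 2 * σ.θ j) ×ˢ arc x₃ x₄ ∩ SS univ (2 * σ.θ (j + 1)) (2 * σ.θ j) ∪
        arc (x₂ - 2 * σ.θ j) x₂ ×ˢ arc x₃ x₄ ∩ SS univ (2 * σ.θ (j + 1)) (2 * σ.θ j) := by
    refine Subset.antisymm ?_ (union_subset
      (inter_subset_inter_left _ (prod_mono (arc_mono le_rfl (by linarith only [hθ, h'])) subset_rfl))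
      (inter_subset_inter_left _ (prod_mono (arc_mono (by linarith only [hθ, h']) le_rfl) subset_rfl)))
    rintro ⟨_, _⟩ ⟨⟨⟨s, hs, rfl⟩, ⟨t, ht, rfl⟩⟩, hc⟩
    by_cases k1 : s ≤ x₁ + 2 * σ.θ j
    · exact Or.inl ⟨⟨⟨s, ⟨hs.1, k1⟩, rfl⟩, ⟨t, ht, rfl⟩⟩, hc⟩
    by_cases k2 : x₂ - 2 * σ.θ j ≤ s
    · exact Or.inr ⟨⟨⟨s, ⟨k2, hs.2⟩, rfl⟩, ⟨t, ht, rfl⟩⟩, hc⟩
    have k3 : |s - t| = t - s := by
      rw [abs_sub_comm, abs_of_nonneg (by linarith only [h₂, hs.2, ht.1])]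
    exact absurd hc.2.2 (not_lt.2 (le_dist_coe
      (by linarith only [k3, h₂, not_le.1 k2, ht.1]) (by linarith only [k3, h₄, not_le.1 k1, ht.2])))
  have hx : x₃ ≤ x₄ ∨ x₄ < x₃ := le_or_gt _ _
  rcases hx with hx | hx
  swap
  · have e0 : arc x₃ x₄ = ∅ := by rw [arc, Icc_eq_empty (not_le.2 hx), image_empty]
    have e1 : sh α (∅ : Set (T × T)) = ∅ := rfl
    rw [e0, prod_empty, empty_inter, e1, sub_self, abs_zero]
    linarith only [hV1]
  have d0 : Disjoint (arc x₁ (x₁ + 2 * σ.θ j)) (arc (x₂ - 2 * σ.θ j) x₂) :=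
    E1_disj (by linarith only [h']) (by linarith only [h₂, h₄, hx])
  have m : ∀ a a' : ℝ, MeasurableSet
      (arc a a' ×ˢ arc x₃ x₄ ∩ SS univ (2 * σ.θ (j + 1)) (2 * σ.θ j)) := fun a a' =>
    ((measurableSet_arc _ _).prod (measurableSet_arc _ _)).inter
      (measurableSet_SS MeasurableSet.univ _ _)
  have o : ∀ a a' : ℝ, Off
      (arc a a' ×ˢ arc x₃ x₄ ∩ SS univ (2 * σ.θ (j + 1)) (2 * σ.θ j)) := fun a a' =>
    (off_SS _ (by positivity) _).mono inter_subset_right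
  have q1 := q x₁ (x₁ + 2 * σ.θ j) (by linarith only [hθ])
  have q2 := q (x₂ - 2 * σ.θ j) x₂ (by linarith only [hθ])
  have e2 : ∀ Y Y' : Set (T × T), sh α (Y ∪ Y') = sh α Y ∪ sh α Y' := fun _ _ => rfl
  rw [e, e2, measureReal_union (disjoint_left.2 fun p k k' => disjoint_left.1 d0 k.1.1 k'.1.1)
      (measurableSet_sh α (m _ _)) (σ.H_fin ((o _ _).sh α)) (σ.H_fin ((o _ _).sh α)),
    measureReal_union (disjoint_left.2 fun p k k' => disjoint_left.1 d0 k.1.1 k'.1.1) (m _ _)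
      (σ.H_fin (o _ _)) (σ.H_fin (o _ _))]
  rw [abs_le] at q1 q2 ⊢
  constructor <;> linarith only [q1.1, q1.2, q2.1, q2.2]

/-- decomposition of a rectangle into classes -/
theorem E1_split {α : ℝ} {N : ℕ} (σ : Sys α N) {V : ℝ} (hV : Bd σ V) {x₁ x₂ x₃ x₄ : ℝ}
    {m₀ m₁ : ℕ} (h₁ : x₂ - x₁ < σ.θ m₀) (h₂ : 2 * σ.θ m₁ ≤ x₃ - x₂)
    (h₄ : 2 * σ.θ m₁ ≤ x₁ + 1 - x₄) :
    ∑ j ∈ Finset.Ico m₀ m₁,
        σ.H.real (arc x₁ x₂ ×ˢ arc x₃ x₄ ∩ SS univ (2 * σ.θ (j + 1)) (2 * σ.θ j)) ≤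
      σ.H.real (arc x₁ x₂ ×ˢ arc x₃ x₄) ∧
    σ.H.real (arc x₁ x₂ ×ˢ arc x₃ x₄) ≤ V + ∑ j ∈ Finset.Ico m₀ m₁,
        σ.H.real (arc x₁ x₂ ×ˢ arc x₃ x₄ ∩ SS univ (2 * σ.θ (j + 1)) (2 * σ.θ j)) := by
  have p0 := σ.θ_pos m₀
  have p1 := σ.θ_pos m₁
  have o : Off (arc x₁ x₂ ×ˢ arc x₃ x₄) :=
    off_arc (by linarith only [p1, h₂]) (by linarith only [p1, h₄])
  have dis : ∀ i j : ℕ, i < j →
      Disjoint (arc x₁ x₂ ×ˢ arc x₃ x₄ ∩ SS univ (2 * σ.θ (i + 1)) (2 * σ.θ i))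
        (arc x₁ x₂ ×ˢ arc x₃ x₄ ∩ SS univ (2 * σ.θ (j + 1)) (2 * σ.θ j)) := fun i j h =>
    disjoint_left.2 fun p k k' => by
      have := σ.θ_anti (show i + 1 ≤ j from h)
      linarith only [this, k.2.2.1, k'.2.2.2]
  constructor
  · rw [← measureReal_biUnion_finset
      (fun i _ j _ h => (lt_or_gt_of_ne h).elim (dis i j) fun h => (dis j i h).symm)
      (fun i _ => ((measurableSet_arc _ _).prod (measurableSet_arc _ _)).inter
        (measurableSet_SS MeasurableSet.univ _ _))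
      fun i _ => σ.H_fin (o.mono inter_subset_left)]
    exact σ.Hr_mono (iUnion₂_subset fun _ _ => inter_subset_left) o
  · have sub : arc x₁ x₂ ×ˢ arc x₃ x₄ ⊆
        SS (ball (((x₁ + x₂) / 2 : ℝ) : T) (σ.θ m₀ / 2)) (2 * σ.θ m₀) 2 ∪ ⋃ j ∈ Finset.Ico m₀ m₁,
          arc x₁ x₂ ×ˢ arc x₃ x₄ ∩ SS univ (2 * σ.θ (j + 1)) (2 * σ.θ j) := by
      rintro ⟨_, _⟩ ⟨⟨s, hs, rfl⟩, ⟨t, ht, rfl⟩⟩
      by_cases k : 2 * σ.θ m₀ ≤ dist (s : T) (t : T)
      · refine Or.inl ⟨(dist_coe_le _ _).trans_lt (abs_lt.2 ⟨?_, ?_⟩), k,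
          (dist_le_half _ _).trans_lt (by norm_num)⟩
        · linarith only [h₁, hs.1]
        · linarith only [h₁, hs.2]
      · have k3 : |s - t| = t - s := by
          rw [abs_sub_comm, abs_of_nonneg (by linarith only [p1, h₂, hs.2, ht.1])]
        have k4 : 2 * σ.θ m₁ ≤ dist (s : T) (t : T) := le_dist_coe
          (by linarith only [k3, h₂, hs.2, ht.1]) (by linarith only [k3, h₄, hs.1, ht.2])
        obtain ⟨j, j1, j2, j3⟩ := σ.cls_find k4 (not_le.1 k)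
        exact Or.inr (mem_iUnion₂.2 ⟨j, Finset.mem_Ico.2 ⟨j1, j2⟩,
          ⟨⟨s, hs, rfl⟩, ⟨t, ht, rfl⟩⟩, mem_univ _, j3⟩)
    refine (σ.Hr_mono sub ((off_SS _ (by positivity) _).union
      (o.mono (iUnion₂_subset fun _ _ => inter_subset_left)))).trans
      ((measureReal_union_le _ _).trans (add_le_add ?_ (measureReal_biUnion_finset_le _ _)))
    exact (σ.a_le_At _ m₀ m₀).trans (hV.K_le m₀)

theorem E1_diff {α : ℝ} {N : ℕ} (σ : Sys α N) {V : ℝ} (hV : Bd σ V) {x₁ x₂ x₃ x₄ : ℝ}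
    {m₀ m₁ : ℕ} (h₁ : x₂ - x₁ < σ.θ m₀) (h₂ : 2 * σ.θ m₁ ≤ x₃ - x₂)
    (h₄ : 2 * σ.θ m₁ ≤ x₁ + 1 - x₄) :
    |σ.H.real (arc (x₁ - α) (x₂ - α) ×ˢ arc (x₃ - α) (x₄ - α)) -
      σ.H.real (arc x₁ x₂ ×ˢ arc x₃ x₄)| ≤ V + 30 * V * ((m₁ - m₀ : ℕ) : ℝ) := by
  have p1 := σ.θ_pos m₁
  obtain ⟨a1, a2⟩ := E1_split σ hV h₁ h₂ h₄
  obtain ⟨b1, b2⟩ := E1_split σ hV (x₁ := x₁ - α) (x₂ := x₂ - α) (x₃ := x₃ - α) (x₄ := x₄ - α)
    (m₀ := m₀) (m₁ := m₁) (by linarith only [h₁]) (by linarith only [h₂]) (by linarith only [h₄])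
  have c := (Finset.abs_sum_le_sum_abs _ _).trans
    (Finset.sum_le_sum fun j (_ : j ∈ Finset.Ico m₀ m₁) => E1_cls σ hV (x₁ := x₁) (x₂ := x₂)
      (x₃ := x₃) (x₄ := x₄) (by linarith only [p1, h₂]) (by linarith only [p1, h₄]) j)
  rw [Finset.sum_sub_distrib, Finset.sum_const, Nat.card_Ico, nsmul_eq_mul, E1_sh_rect,
    abs_le] at c
  rw [abs_le]
  constructor <;> linarith only [a1, a2, b1, b2, c.1, c.2]

theorem E1_diff' {α : ℝ} {N : ℕ} (σ : Sys α N) {V : ℝ} (hV : Bd σ V) {x₁ x₂ x₃ x₄ : ℝ}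
    {m₀ m₁ : ℕ} (h₁ : x₂ - x₁ < σ.θ m₀ ∨ x₄ - x₃ < σ.θ m₀) (h₂ : 2 * σ.θ m₁ ≤ x₃ - x₂)
    (h₄ : 2 * σ.θ m₁ ≤ x₁ + 1 - x₄) :
    |σ.H.real (arc (x₁ - α) (x₂ - α) ×ˢ arc (x₃ - α) (x₄ - α)) -
      σ.H.real (arc x₁ x₂ ×ˢ arc x₃ x₄)| ≤ V + 30 * V * ((m₁ - m₀ : ℕ) : ℝ) := by
  rcases h₁ with h₁ | h₁
  · exact E1_diff σ hV h₁ h₂ h₄
  · have := E1_diff σ hV (x₁ := x₃) (x₂ := x₄) (x₃ := x₁ + 1) (x₄ := x₂ + 1) (m₀ := m₀) (m₁ := m₁)
      h₁ h₄ (by linarith only [h₂])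
    rwa [show x₁ + 1 - α = x₁ - α + 1 by ring, show x₂ + 1 - α = x₂ - α + 1 by ring, E1_mirror,
      E1_mirror] at this

/-- many levels between the gap and the sides force a large mass -/
theorem E1_low {α : ℝ} {N : ℕ} (σ : Sys α N) {V : ℝ} (hV : Bd σ V) {x₁ x₂ x₃ x₄ : ℝ}
    {p m : ℕ} (h₁ : σ.θ p ≤ x₂ - x₁) (h₂ : x₂ < x₃) (h₃ : σ.θ p ≤ x₄ - x₃) (h₄ : x₄ < x₁ + 1)
    (hg : x₁ + 1 - x₄ < 2 * σ.θ m) :
    ((m - p : ℕ) : ℝ) ≤ 16 * Real.exp V * σ.H.real (arc x₁ x₂ ×ˢ arc x₃ x₄) + 8 := by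
  have hV0 : 0 ≤ V := zero_le_one.trans hV.one_le
  have pp := σ.θ_pos p
  obtain ⟨n, hn⟩ : ∃ n, n = (m - p - 1) / 8 := ⟨_, rfl⟩
  obtain ⟨c, hc⟩ : ∃ c, c = (x₄ - 1 + x₁) / 2 := ⟨_, rfl⟩
  have o : Off (arc x₁ x₂ ×ˢ arc x₃ x₄) := off_arc h₂ h₄
  let R : ℕ → Set (T × T) := fun i =>
    arc (c + σ.θ (p + 5 + 8 * i) / 4) (c + 3 * σ.θ (p + 5 + 8 * i)) ×ˢ
      arc (c - 3 * σ.θ (p + 5 + 8 * i) + 1) (c - σ.θ (p + 5 + 8 * i) / 4 + 1)
  have a1 : ∀ i, 4 * σ.θ (p + 5 + 8 * i) ≤ σ.θ p := fun i => σ.θ_four (by omega)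
  have sub : ∀ i ∈ Finset.range n, R i ⊆ arc x₁ x₂ ×ˢ arc x₃ x₄ := fun i hi => by
    have hi' := Finset.mem_range.1 hi
    have a2 : 4 * σ.θ m ≤ σ.θ (p + 5 + 8 * i) := σ.θ_four (by omega)
    have a3 := a1 i
    exact prod_mono
      (arc_mono (by linarith only [hc, hg, a2]) (by linarith only [hc, h₄, h₁, a3, pp]))
      (arc_mono (by linarith only [hc, h₄, h₃, a3, pp]) (by linarith only [hc, hg, a2]))
  have dis : ∀ i j, i < j → Disjoint (R i) (R j) := fun i j h => by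
    have a2 : 4 * σ.θ (p + 5 + 8 * j) ≤ σ.θ (p + 5 + 8 * i + 4) := σ.θ_four (by omega)
    have a3 : 4 * σ.θ (p + 5 + 8 * i + 4) ≤ σ.θ (p + 5 + 8 * i) := σ.θ_four le_rfl
    have a4 := σ.θ_pos (p + 5 + 8 * j)
    have a5 := a1 i
    have a6 := σ.θ_le_one p
    have d : Disjoint (arc (c + σ.θ (p + 5 + 8 * j) / 4) (c + 3 * σ.θ (p + 5 + 8 * j)))
        (arc (c + σ.θ (p + 5 + 8 * i) / 4) (c + 3 * σ.θ (p + 5 + 8 * i))) :=
      E1_disj (by linarith only [a2, a3, a4]) (by linarith only [a4, a5, a6])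
    exact disjoint_left.2 fun q k k' => disjoint_left.1 d k'.1 k.1
  have hy : n * (Real.exp (-V) / 2) ≤ σ.H.real (arc x₁ x₂ ×ˢ arc x₃ x₄) := by
    refine le_trans ?_ (σ.Hr_mono (iUnion₂_subset sub) o)
    rw [measureReal_biUnion_finset
      (fun i _ j _ h => (lt_or_gt_of_ne h).elim (dis i j) fun h => (dis j i h).symm)
      (fun i _ => (measurableSet_arc _ _).prod (measurableSet_arc _ _))
      fun i hi => σ.H_fin (o.mono (sub i hi))]
    have := Finset.card_nsmul_le_sum (Finset.range n) (fun i => σ.H.real (R i))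
      (Real.exp (-V) / 2) fun i _ => σ.dual_low hV0 (by omega) (hV.K_le _) c
    rwa [Finset.card_range, nsmul_eq_mul] at this
  have h5 : ((m - p : ℕ) : ℝ) ≤ 8 * n + 8 := by
    exact_mod_cast (by omega : m - p ≤ 8 * n + 8)
  have h6 := mul_le_mul_of_nonneg_left hy (Real.exp_pos V).le
  have h7 : Real.exp V * (n * (Real.exp (-V) / 2)) = n / 2 := by
    rw [Real.exp_neg]
    field_simp
  rw [h7] at h6
  linarith only [h5, h6]

theorem E1_low' {α : ℝ} {N : ℕ} (σ : Sys α N) {V : ℝ} (hV : Bd σ V) {x₁ x₂ x₃ x₄ : ℝ}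
    {p m : ℕ} (h₁ : σ.θ p ≤ x₂ - x₁) (h₂ : x₂ < x₃) (h₃ : σ.θ p ≤ x₄ - x₃) (h₄ : x₄ < x₁ + 1)
    (hg : x₁ + 1 - x₄ < 2 * σ.θ m ∨ x₃ - x₂ < 2 * σ.θ m) :
    ((m - p : ℕ) : ℝ) ≤ 16 * Real.exp V * σ.H.real (arc x₁ x₂ ×ˢ arc x₃ x₄) + 8 := by
  rcases hg with hg | hg
  · exact E1_low σ hV h₁ h₂ h₃ h₄ hg
  · have := E1_low σ hV (x₁ := x₃) (x₂ := x₄) (x₃ := x₁ + 1) (x₄ := x₂ + 1) (p := p) (m := m)
      h₃ h₄ (by linarith only [h₁]) (by linarith only [h₂]) (by linarith only [hg])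
    rwa [E1_mirror] at this

theorem E1_lev {α : ℝ} (Λ : Lev α) {r : ℝ} (h0 : 0 < r) (h2 : r < 2) :
    ∃ j, 2 * Λ.θ (j + 1) ≤ r ∧ r < 2 * Λ.θ j := by
  obtain ⟨g, hg⟩ := Λ.θ_small (half_pos h0)
  obtain ⟨j, -, -, h⟩ := Λ.cls_find (f := 0) (g := g) (r := r) (by linarith only [hg])
    (by rw [Λ.θ_zero]; linarith only [h2])
  exact ⟨j, h⟩

theorem qs (V : ℝ) : ∃ B : ℝ, 1 ≤ B ∧ ∀ (α : ℝ) (N : ℕ) (σ : Sys α N), Bd σ V → QS σ.H α B := by
  refine ⟨1 + 301 * |V| + 480 * |V| * Real.exp V, ?_, fun α N σ hV x₁ x₂ x₃ x₄ h₁ h₂ h₃ h₄ => ?_⟩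
  · have : 0 ≤ 301 * |V| + 480 * |V| * Real.exp V := by positivity
    linarith only [this]
  have hV0 : 0 ≤ V := zero_le_one.trans hV.one_le
  rw [abs_of_nonneg hV0, E1_sh_rect]
  obtain ⟨m₀, a1, a2⟩ := E1_lev σ.toLev (r := 2 * min (x₂ - x₁) (x₄ - x₃))
    (by have := lt_min (sub_pos.2 h₁) (sub_pos.2 h₃); linarith only [this])
    (by have := min_le_left (x₂ - x₁) (x₄ - x₃); linarith only [this, h₂, h₃, h₄])
  obtain ⟨m, b1, b2⟩ := E1_lev σ.toLev (r := min (x₁ + 1 - x₄) (x₃ - x₂))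
    (lt_min (sub_pos.2 h₄) (sub_pos.2 h₂))
    (by have := min_le_right (x₁ + 1 - x₄) (x₃ - x₂); linarith only [this, h₁, h₃, h₄])
  have a3 := le_min_iff.1 (show σ.θ (m₀ + 1) ≤ min (x₂ - x₁) (x₄ - x₃) by linarith only [a1])
  have a4 := min_lt_iff.1 (show min (x₂ - x₁) (x₄ - x₃) < σ.θ m₀ by linarith only [a2])
  have b3 := le_min_iff.1 b1
  have b4 := min_lt_iff.1 b2
  have d := abs_le.1 (E1_diff' σ hV a4 b3.2 b3.1)
  have l1 := E1_low' σ hV a3.1 h₂ a3.2 h₄ b4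
  have l2 := E1_low' σ hV (x₁ := x₁ - α) (x₂ := x₂ - α) (x₃ := x₃ - α) (x₄ := x₄ - α)
    (p := m₀ + 1) (m := m) (by linarith only [a3.1]) (by linarith only [h₂])
    (by linarith only [a3.2]) (by linarith only [h₄])
    (b4.imp (fun h => by linarith only [h]) fun h => by linarith only [h])
  have c : ((m + 1 - m₀ : ℕ) : ℝ) ≤ ((m - (m₀ + 1) : ℕ) : ℝ) + 2 := by
    exact_mod_cast (by omega : m + 1 - m₀ ≤ m - (m₀ + 1) + 2)
  have fin : ∀ u w : ℝ, 0 ≤ w → ((m - (m₀ + 1) : ℕ) : ℝ) ≤ 16 * Real.exp V * w + 8 →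
      u ≤ w + (V + 30 * V * ((m + 1 - m₀ : ℕ) : ℝ)) →
      u ≤ (1 + 301 * V + 480 * V * Real.exp V) * (w + 1) := fun u w hw k1 k2 => by
    have k3 := mul_le_mul_of_nonneg_left (c.trans (add_le_add k1 le_rfl)) hV0
    have k4 := mul_nonneg hV0 hw
    have k5 := mul_nonneg hV0 (Real.exp_pos V).le
    linarith only [k2, k3, k4, k5]
  exact ⟨fin _ _ measureReal_nonneg l2 (by linarith only [d.1]),
    fin _ _ measureReal_nonneg l1 (by linarith only [d.2])⟩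

end Pool.Agent.Work.MP_042f46_an.Fu
end
end

-- merged part: Pool.Agent.Work.MP_042f46_an.F.D8
section
/-!
# Comparison of lengths from the bootstrap bound

Plans.  `kb`: `Rep.le` into `SS (ball (c + t) (2 θ n)) (2 θ n) 2` (a real difference between `2 θ n` and `3 / 4 + θ n` has circle distance at least `2 θ n`, `le_dist_coe`), `κ_cover` with `ν = 8`.
`cmp`: `η = θ n`.  `H_ray`: `log (len (x - η / 2) (x + 2 η) / len x (x + 2 η)) ≤ K n ≤ V` (`Rep.le`, first end point in a ball of radius `η / 2`), and the mirror image with `H_ray'`.  So an interval that contains `[x, x + 2 η]` at its left end grows by the factor at most `exp V` when `[x - η / 2, x]` is added; `200 + 196` such steps.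
`lam_near`: `H_rect` for `[t - 5 Θ, t] × [t + δ, t + 10 Θ]`; the four lengths `len (t - 5 Θ) (t + δ)`, `len t (t + 10 Θ)`, `len (t - 5 Θ) (t + 10 Θ)`, `len (t - Θ) (t + Θ)` lie between `exp (-400 V) B` and `B`, `B = len (t - 50 Θ) (t + 50 Θ)`.
`lam_shift`: `Rep.rect`; the rectangle lies in `SS univ (2 θ (n + 1)) (2 θ (n - 8))` (`θ_pow`; for `n < 8` use `θ 0 = 1`), the second rectangle is `sh (i α)` of the first; `QI` with `R = 5` gives at most `80 V`.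
-/

open Set Metric Topology Filter MeasureTheory
open scoped ENNReal NNReal

noncomputable section
namespace Pool.Agent.Work.MP_042f46_an.Fu

open Pool.Agent.Work.MP_042f46_an.Ty

variable {α : ℝ} {N : ℕ} (σ : Sys α N) {V : ℝ}

theorem D8_sub {c : T} {X : Ch} (hX : Rep σ.H c X) {m R r : ℝ} (hr : 0 < r)
    (hm : |m| + R + r ≤ 1 / 2) {S : Set (ℝ × ℝ)}
    (hS : ∀ p ∈ S, |p.1 - m| < R ∧ r ≤ |p.1 - p.2|) :
    X.H S ≤ ENNReal.ofReal (σ.κ (c + (m : T)) R r) := by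
  rw [Sys.κ, ofReal_measureReal (σ.H_fin (off_SS _ hr _))]
  refine hX.le (measurableSet_SS measurableSet_ball _ _) fun p hp _ h2 => ?_
  obtain ⟨k1, k2⟩ := hS p hp
  refine ⟨(dist_add_coe_le c p.1 m).trans_lt k1, ?_, (dist_le_half _ _).trans_lt (by norm_num)⟩
  show r ≤ dist (c + (p.1 : T)) (c + (p.2 : T))
  rw [dist_add_left]
  refine le_dist_coe k2 ?_
  obtain ⟨k3, k4⟩ := abs_lt.1 k1
  have k5 := le_abs_self m
  have k6 := neg_abs_le m
  exact abs_le.2 ⟨by linarith only [hm, k3, k6, h2.2], by linarith only [hm, k4, k5, h2.1]⟩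

theorem D8_one (hV : Bd σ V) {c : T} {X : Ch} (hX : Rep σ.H c X) (n : ℕ) (hn : σ.θ n ≤ 1 / 100)
    {m : ℝ} (hm : |m| ≤ 1 / 4) {S : Set (ℝ × ℝ)}
    (hS : ∀ p ∈ S, |p.1 - m| < σ.θ n / 2 ∧ 2 * σ.θ n ≤ |p.1 - p.2|) :
    X.H S ≤ ENNReal.ofReal V := by
  have hθ := σ.θ_pos n
  refine (D8_sub σ hX (by linarith only [hθ]) (by linarith only [hm, hn]) hS).trans ?_
  exact ENNReal.ofReal_le_ofReal ((σ.a_le_At _ n n).trans (hV.K_le n))

theorem D8_pos (X : Ch) {a b : ℝ} (h₀ : -(1 / 4) ≤ a) (h : a < b) (h₁ : b ≤ 1 / 4) :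
    0 < X.len a b := by
  exact sub_pos.2 (X.σ_mono ⟨by linarith only [h₀], by linarith only [h, h₁]⟩
    ⟨by linarith only [h₀, h], by linarith only [h₁]⟩ h)

theorem D8_le (X : Ch) {a b : ℝ} (h₀ : -(1 / 4) ≤ a) (h : a ≤ b) (h₁ : b ≤ 1 / 4) :
    X.σ a ≤ X.σ b := by
  exact X.σ_mono.monotoneOn ⟨by linarith only [h₀], by linarith only [h, h₁]⟩
    ⟨by linarith only [h₀, h], by linarith only [h₁]⟩ h

theorem D8_exp {u v V : ℝ} (hV : 0 ≤ V) (hu : 0 < u) (hv : 0 < v)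
    (h : ENNReal.ofReal (Real.log (u / v)) ≤ ENNReal.ofReal V) : u ≤ Real.exp V * v := by
  rw [ENNReal.ofReal_le_ofReal_iff hV, Real.log_le_iff_le_exp (div_pos hu hv),
    div_le_iff₀ hv] at h
  exact h

theorem D8_stepL (hV : Bd σ V) {c : T} {X : Ch} (hX : Rep σ.H c X) (n : ℕ)
    (hn : σ.θ n ≤ 1 / 100) {a x y : ℝ} (h₀ : -(1 / 4) ≤ a) (h₁ : a ≤ x)
    (h₂ : x - a ≤ σ.θ n / 2) (h₃ : x + 2 * σ.θ n ≤ y) (h₄ : y ≤ 1 / 4) :
    X.len a y ≤ Real.exp V * X.len x y := by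
  have hθ := σ.θ_pos n
  refine D8_exp (zero_le_one.trans hV.one_le) (D8_pos X h₀ (by linarith only [h₁, h₃, hθ]) h₄)
    (D8_pos X (h₀.trans h₁) (by linarith only [h₃, hθ]) h₄) ?_
  rw [← X.H_ray (by linarith only [h₀]) h₁ (by linarith only [h₃, hθ]) (by linarith only [h₄])]
  refine D8_one σ hV hX n hn (m := (a + x) / 2)
    (abs_le.2 ⟨by linarith only [h₀, h₁], by linarith only [h₁, h₃, h₄, hθ]⟩) ?_
  rintro ⟨s, t⟩ ⟨⟨k1, k2⟩, k3⟩
  have k4 : y ≤ t := k3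
  have k5 : a ≤ s := k1
  have k6 : s ≤ x := k2
  refine ⟨abs_lt.2 ⟨?_, ?_⟩, le_abs.2 (Or.inr ?_)⟩
  · show -(σ.θ n / 2) < s - (a + x) / 2
    linarith only [k5, h₂, hθ]
  · show s - (a + x) / 2 < σ.θ n / 2
    linarith only [k6, h₂, hθ]
  · show 2 * σ.θ n ≤ -(s - t)
    linarith only [k6, k4, h₃]

theorem D8_stepR (hV : Bd σ V) {c : T} {X : Ch} (hX : Rep σ.H c X) (n : ℕ)
    (hn : σ.θ n ≤ 1 / 100) {x y b : ℝ} (h₀ : -(1 / 4) ≤ x) (h₃ : x + 2 * σ.θ n ≤ y) (h₁ : y ≤ b)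
    (h₂ : b - y ≤ σ.θ n / 2) (h₄ : b ≤ 1 / 4) :
    X.len x b ≤ Real.exp V * X.len x y := by
  have hθ := σ.θ_pos n
  refine D8_exp (zero_le_one.trans hV.one_le) (D8_pos X h₀ (by linarith only [h₁, h₃, hθ]) h₄)
    (D8_pos X h₀ (by linarith only [h₃, hθ]) (h₁.trans h₄)) ?_
  rw [← X.H_ray' (by linarith only [h₀]) (by linarith only [h₃, hθ]) h₁ (by linarith only [h₄])]
  refine D8_one σ hV hX n hn (m := (y + b) / 2)
    (abs_le.2 ⟨by linarith only [h₀, h₁, h₃, hθ], by linarith only [h₁, h₄]⟩) ?_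
  rintro ⟨s, t⟩ ⟨⟨k1, k2⟩, k3⟩
  have k4 : t ≤ x := k3
  have k5 : y ≤ s := k1
  have k6 : s ≤ b := k2
  refine ⟨abs_lt.2 ⟨?_, ?_⟩, le_abs.2 (Or.inl ?_)⟩
  · show -(σ.θ n / 2) < s - (y + b) / 2
    linarith only [k5, h₂, hθ]
  · show s - (y + b) / 2 < σ.θ n / 2
    linarith only [k6, h₂, hθ]
  · show 2 * σ.θ n ≤ s - t
    linarith only [k5, k4, h₃]

theorem D8_growL (hV : Bd σ V) {c : T} {X : Ch} (hX : Rep σ.H c X) (n : ℕ)
    (hn : σ.θ n ≤ 1 / 100) {x y : ℝ} (h₃ : x + 2 * σ.θ n ≤ y) (h₄ : y ≤ 1 / 4) (k : ℕ) :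
    ∀ a : ℝ, -(1 / 4) ≤ a → a ≤ x → x - a ≤ k * (σ.θ n / 2) →
      X.len a y ≤ Real.exp (k * V) * X.len x y := by
  have hθ := σ.θ_pos n
  induction k with
  | zero =>
    intro a _ h₁ h₂
    rw [Nat.cast_zero, zero_mul] at h₂
    rw [Nat.cast_zero, zero_mul, Real.exp_zero, one_mul, show a = x by linarith only [h₁, h₂]]
  | succ k ih =>
    intro a h₀ h₁ h₂
    have m1 := min_le_left x (a + σ.θ n / 2)
    have m2 := min_le_right x (a + σ.θ n / 2)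
    have m3 : a ≤ min x (a + σ.θ n / 2) := le_min h₁ (by linarith only [hθ])
    have m4 : x - min x (a + σ.θ n / 2) ≤ k * (σ.θ n / 2) := by
      have : x - k * (σ.θ n / 2) ≤ min x (a + σ.θ n / 2) := by
        refine le_min ?_ ?_
        · have : (0 : ℝ) ≤ k * (σ.θ n / 2) := by positivity
          linarith only [this]
        · push_cast at h₂
          linarith only [h₂]
      linarith only [this]
    have s1 := D8_stepL σ hV hX n hn h₀ m3 (by linarith only [m2]) (by linarith only [m1, h₃]) h₄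
    have s2 := ih _ (h₀.trans m3) m1 m4
    refine s1.trans ((mul_le_mul_of_nonneg_left s2 (Real.exp_pos V).le).trans (le_of_eq ?_))
    rw [← mul_assoc, ← Real.exp_add]
    push_cast
    ring_nf

theorem D8_growR (hV : Bd σ V) {c : T} {X : Ch} (hX : Rep σ.H c X) (n : ℕ)
    (hn : σ.θ n ≤ 1 / 100) {x y : ℝ} (h₀ : -(1 / 4) ≤ x) (h₃ : x + 2 * σ.θ n ≤ y) (k : ℕ) :
    ∀ b : ℝ, y ≤ b → b ≤ 1 / 4 → b - y ≤ k * (σ.θ n / 2) →
      X.len x b ≤ Real.exp (k * V) * X.len x y := by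
  have hθ := σ.θ_pos n
  induction k with
  | zero =>
    intro b h₁ _ h₂
    rw [Nat.cast_zero, zero_mul] at h₂
    rw [Nat.cast_zero, zero_mul, Real.exp_zero, one_mul, show b = y by linarith only [h₁, h₂]]
  | succ k ih =>
    intro b h₁ h₄ h₂
    have m1 := le_max_left y (b - σ.θ n / 2)
    have m2 := le_max_right y (b - σ.θ n / 2)
    have m3 : max y (b - σ.θ n / 2) ≤ b := max_le h₁ (by linarith only [hθ])
    have m4 : max y (b - σ.θ n / 2) - y ≤ k * (σ.θ n / 2) := by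
      have : max y (b - σ.θ n / 2) ≤ y + k * (σ.θ n / 2) := by
        refine max_le ?_ ?_
        · have : (0 : ℝ) ≤ k * (σ.θ n / 2) := by positivity
          linarith only [this]
        · push_cast at h₂
          linarith only [h₂]
      linarith only [this]
    have s1 := D8_stepR σ hV hX n hn h₀ (by linarith only [m1, h₃]) m3 (by linarith only [m2]) h₄
    have s2 := ih _ m1 (m3.trans h₄) m4
    refine s1.trans ((mul_le_mul_of_nonneg_left s2 (Real.exp_pos V).le).trans (le_of_eq ?_))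
    rw [← mul_assoc, ← Real.exp_add]
    push_cast
    ring_nf

theorem D8_grow (hV : Bd σ V) {c : T} {X : Ch} (hX : Rep σ.H c X) (n : ℕ)
    (hn : σ.θ n ≤ 1 / 100) {a x y b : ℝ} (k l : ℕ) (h₀ : -(1 / 4) ≤ a) (h₁ : a ≤ x)
    (h₂ : x + 2 * σ.θ n ≤ y) (h₃ : y ≤ b) (h₄ : b ≤ 1 / 4) (hk : x - a ≤ k * (σ.θ n / 2))
    (hl : b - y ≤ l * (σ.θ n / 2)) :
    X.len a b ≤ Real.exp ((k + l) * V) * X.len x y := by
  have s1 := D8_growL σ hV hX n hn (h₂.trans h₃) h₄ k a h₀ h₁ hk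
  have s2 := D8_growR σ hV hX n hn (h₀.trans h₁) h₂ l b h₃ h₄ hl
  refine s1.trans ((mul_le_mul_of_nonneg_left s2 (Real.exp_pos _).le).trans (le_of_eq ?_))
  rw [← mul_assoc, ← Real.exp_add, ← add_mul]

theorem D8_log {u B W : ℝ} (hu : 0 < u) (h₁ : u ≤ B) (h₂ : B ≤ Real.exp W * u) :
    Real.log u ≤ Real.log B ∧ Real.log B ≤ W + Real.log u := by
  refine ⟨Real.log_le_log hu h₁, ?_⟩
  have := Real.log_le_log (hu.trans_le h₁) h₂
  rwa [Real.log_mul (Real.exp_pos W).ne' hu.ne', Real.log_exp] at this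

theorem D8_arc {u v : ℝ} (h : (u : T) = (v : T)) (a b : ℝ) :
    arc (u + a) (u + b) = arc (v + a) (v + b) := by
  have k : ∀ u v : ℝ, (u : T) = (v : T) → arc (u + a) (u + b) ⊆ arc (v + a) (v + b) := by
    rintro u v h _ ⟨s, hs, rfl⟩
    refine ⟨s - u + v, ⟨by linarith only [hs.1], by linarith only [hs.2]⟩, ?_⟩
    show ((s - u + v : ℝ) : T) = (s : T)
    rw [AddCircle.coe_add, AddCircle.coe_sub, h, sub_add_cancel]
  exact (k u v h).antisymm (k v u h.symm)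

theorem kb (hV : Bd σ V) {c : T} {X : Ch} (hX : Rep σ.H c X) (n : ℕ) (hn : σ.θ n ≤ 1 / 100) :
    KB (1 / 4) (σ.θ n) (8 * V) X.H := by
  intro t ht
  have hθ := σ.θ_pos n
  refine (D8_sub σ hX (m := t) (R := 2 * σ.θ n) (r := 2 * σ.θ n) (by linarith only [hθ])
    (by linarith only [ht, hn]) ?_).trans (ENNReal.ofReal_le_ofReal ?_)
  · rintro p ⟨⟨k1, k2⟩, k3⟩
    exact ⟨abs_lt.2 ⟨by linarith only [k1, hθ], by linarith only [k2, hθ]⟩, k3⟩
  · have h1 := σ.κ_cover (c + (t : T)) (R := 2 * σ.θ n) 8 n n (by push_cast; linarith only [])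
    have h2 : σ.At n n ≤ V := hV.K_le n
    push_cast at h1
    linarith only [h1, h2]

theorem cmp (hV : Bd σ V) {c : T} {X : Ch} (hX : Rep σ.H c X) (n : ℕ) {t : ℝ}
    (ht : |t| + 100 * σ.θ n ≤ 1 / 4) :
    X.len (t - 100 * σ.θ n) (t + 100 * σ.θ n) ≤ Real.exp (400 * V) * X.len t (t + 2 * σ.θ n) := by
  have hθ := σ.θ_pos n
  have hV0 : 0 ≤ V := zero_le_one.trans hV.one_le
  have t1 := le_abs_self t
  have t2 := neg_abs_le t
  have t3 := abs_nonneg t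
  have h := D8_grow σ hV hX n (by linarith only [ht, t3]) (a := t - 100 * σ.θ n) (x := t)
    (y := t + 2 * σ.θ n) (b := t + 100 * σ.θ n) 200 196 (by linarith only [ht, t2])
    (by linarith only [hθ]) le_rfl (by linarith only [hθ]) (by linarith only [ht, t1])
    (by push_cast; linarith only []) (by push_cast; linarith only [])
  refine h.trans (mul_le_mul_of_nonneg_right (Real.exp_le_exp.2 ?_) (D8_pos X ?_ ?_ ?_).le)
  · push_cast
    linarith only [hV0]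
  · linarith only [ht, t2, hθ]
  · linarith only [hθ]
  · linarith only [ht, t1, hθ]

theorem lam_near (hV : Bd σ V) {c : T} {X : Ch} (hX : Rep σ.H c X) (n : ℕ) {t δ : ℝ}
    (ht : |t| + 110 * σ.θ n ≤ 1 / 4) (h₁ : 0 < δ) (h₂ : δ ≤ 4 * σ.θ n) :
    |(X.H (Icc (t - 5 * σ.θ n) t ×ˢ Icc (t + δ) (t + 10 * σ.θ n))).toReal -
      X.lam (σ.θ n) t δ| ≤ 800 * V := by
  have hθ := σ.θ_pos n
  have hV0 : 0 ≤ V := zero_le_one.trans hV.one_le
  have t1 := le_abs_self t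
  have t2 := neg_abs_le t
  have t3 := abs_nonneg t
  have hn : σ.θ n ≤ 1 / 100 := by linarith only [ht, t3, hθ]
  have a0 : -(1 / 4) ≤ t - 5 * σ.θ n := by linarith only [ht, t2, hθ]
  have b0 : t + 10 * σ.θ n ≤ 1 / 4 := by linarith only [ht, t1, hθ]
  have o1 : X.σ (t - 5 * σ.θ n) ≤ X.σ (t - σ.θ n) :=
    D8_le X a0 (by linarith only [hθ]) (by linarith only [b0, hθ])
  have o2 : X.σ (t - 5 * σ.θ n) ≤ X.σ t :=
    D8_le X a0 (by linarith only [hθ]) (by linarith only [b0, hθ])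
  have o3 : X.σ (t + δ) ≤ X.σ (t + 10 * σ.θ n) :=
    D8_le X (by linarith only [a0, hθ, h₁]) (by linarith only [hθ, h₂]) b0
  have o4 : X.σ (t + σ.θ n) ≤ X.σ (t + 10 * σ.θ n) :=
    D8_le X (by linarith only [a0, hθ]) (by linarith only [hθ]) b0
  have p1 : 0 < X.len (t - 5 * σ.θ n) (t + δ) :=
    D8_pos X a0 (by linarith only [hθ, h₁]) (by linarith only [b0, hθ, h₂])
  have p2 : 0 < X.len t (t + 10 * σ.θ n) :=
    D8_pos X (by linarith only [a0, hθ]) (by linarith only [hθ]) b0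
  have p3 : 0 < X.len t (t + δ) :=
    D8_pos X (by linarith only [a0, hθ]) (by linarith only [h₁]) (by linarith only [b0, hθ, h₂])
  have p4 : 0 < X.len (t - 5 * σ.θ n) (t + 10 * σ.θ n) :=
    D8_pos X a0 (by linarith only [hθ]) b0
  have p5 : 0 < X.len (t - σ.θ n) (t + σ.θ n) :=
    D8_pos X (by linarith only [a0, hθ]) (by linarith only [hθ]) (by linarith only [b0, hθ])
  have g1 := D8_grow σ hV hX n hn (a := t - 5 * σ.θ n) (x := t - 5 * σ.θ n) (y := t + δ)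
    (b := t + 10 * σ.θ n) 0 20 a0 le_rfl (by linarith only [hθ, h₁]) (by linarith only [hθ, h₂]) b0
    (by push_cast; linarith only []) (by push_cast; linarith only [h₁])
  have g2 := D8_grow σ hV hX n hn (a := t - 5 * σ.θ n) (x := t) (y := t + 10 * σ.θ n)
    (b := t + 10 * σ.θ n) 10 0 a0 (by linarith only [hθ]) (by linarith only [hθ]) le_rfl b0
    (by push_cast; linarith only []) (by push_cast; linarith only [])
  have g5 := D8_grow σ hV hX n hn (a := t - 5 * σ.θ n) (x := t - σ.θ n) (y := t + σ.θ n)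
    (b := t + 10 * σ.θ n) 8 18 a0 (by linarith only [hθ]) (by linarith only [])
    (by linarith only [hθ]) b0 (by push_cast; linarith only []) (by push_cast; linarith only [])
  obtain ⟨l1, l1'⟩ := D8_log p1 (by unfold Ch.len; linarith only [o3]) g1
  obtain ⟨l2, l2'⟩ := D8_log p2 (by unfold Ch.len; linarith only [o2]) g2
  obtain ⟨l5, l5'⟩ := D8_log p5 (by unfold Ch.len; linarith only [o1, o4]) g5
  have cr : 0 ≤ Real.log (X.len (t - 5 * σ.θ n) (t + δ) * X.len t (t + 10 * σ.θ n) /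
      (X.len t (t + δ) * X.len (t - 5 * σ.θ n) (t + 10 * σ.θ n))) := by
    refine Real.log_nonneg ((one_le_div (mul_pos p3 p4)).2 ?_)
    unfold Ch.len
    nlinarith only [mul_nonneg (sub_nonneg.2 o2) (sub_nonneg.2 o3)]
  rw [X.H_rect (by linarith only [a0]) (by linarith only [hθ]) (by linarith only [h₁])
    (by linarith only [hθ, h₂]) (by linarith only [b0]), ENNReal.toReal_ofReal cr, Ch.lam,
    Real.log_div (mul_pos p1 p2).ne' (mul_pos p3 p4).ne', Real.log_mul p1.ne' p2.ne',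
    Real.log_mul p3.ne' p4.ne', Real.log_div p5.ne' p3.ne']
  push_cast at l1' l2' l5'
  exact abs_le.2 ⟨by linarith only [l1', l2', l5, hV0], by linarith only [l1, l2, l5', hV0]⟩

theorem lam_shift (hV : Bd σ V) {c c' : ℝ} {X X' : Ch} (hX : Rep σ.H (c : T) X)
    (hX' : Rep σ.H (c' : T) X') (n : ℕ) {i : ℕ} (hi : i ≤ σ.q (n + 1)) {t t' δ : ℝ}
    (he : ((c' + t' : ℝ) : T) + (((i : ℝ) * α : ℝ) : T) = ((c + t : ℝ) : T))
    (ht : |t| + 110 * σ.θ n ≤ 1 / 4) (ht' : |t'| + 110 * σ.θ n ≤ 1 / 4)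
    (h₁ : 4 * σ.θ (n + 1) ≤ δ) (h₂ : δ ≤ 4 * σ.θ n) :
    |X'.lam (σ.θ n) t' δ - X.lam (σ.θ n) t δ| ≤ 1700 * V := by
  have hθ := σ.θ_pos n
  have hθ' := σ.θ_pos (n + 1)
  have hθa : σ.θ (n + 1) ≤ σ.θ n := σ.θ_anti (Nat.le_succ n)
  have hV0 : 0 ≤ V := zero_le_one.trans hV.one_le
  have hδ : 0 < δ := by linarith only [h₁, hθ']
  have t1 := le_abs_self t
  have t2 := neg_abs_le t
  have t3 := abs_nonneg t
  have t1' := le_abs_self t'
  have t2' := neg_abs_le t'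
  have n1 := lam_near σ hV hX n ht hδ h₂
  have n2 := lam_near σ hV hX' n ht' hδ h₂
  rw [← hX.rect (by linarith only [ht, t2, hθ]) (by linarith only [ht, t1, hθ])
    (by linarith only [ht, t2, hθ, hδ]) (by linarith only [ht, t1, hθ])] at n1
  rw [← hX'.rect (by linarith only [ht', t2', hθ]) (by linarith only [ht', t1', hθ])
    (by linarith only [ht', t2', hθ, hδ]) (by linarith only [ht', t1', hθ])] at n2
  have hl : 15 * σ.θ n < 2 * σ.θ (n - 8) := by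
    rcases le_or_gt 8 n with h | h
    · have := σ.θ_pow (n - 8) 4
      rw [show n - 8 + 2 * 4 = n by omega] at this
      linarith only [this, hθ]
    · rw [show n - 8 = 0 by omega, σ.θ_zero]
      linarith only [ht, t3, hθ]
  have hs : arc (c + (t - 5 * σ.θ n)) (c + t) ×ˢ arc (c + (t + δ)) (c + (t + 10 * σ.θ n)) ⊆
      SS univ (2 * σ.θ (n + 1)) (2 * σ.θ (n - 8)) := by
    rintro ⟨_, _⟩ ⟨⟨r, hr, rfl⟩, ⟨s, hs, rfl⟩⟩
    have e : |r - s| = s - r := by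
      rw [abs_sub_comm]
      exact abs_of_nonneg (by linarith only [hr.2, hs.1, hδ])
    refine ⟨mem_univ _, le_dist_coe ?_ ?_, (dist_coe_le r s).trans_lt ?_⟩
    · rw [e]
      linarith only [hr.2, hs.1, h₁, hθ']
    · rw [e]
      linarith only [hr.1, hs.2, hθa, ht, t3, hθ]
    · rw [e]
      linarith only [hr.1, hs.2, hl]
  have q := QI σ hV (n := n) (l := n - 8) (i := i) (Nat.sub_le n 8) hi
    (a := c + (t - 5 * σ.θ n)) (a' := c + t) (R := 5) (c + (t + δ)) (c + (t + 10 * σ.θ n))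
    (by norm_num) (by linarith only [])
  have hu : ((c + t - i * α : ℝ) : T) = ((c' + t' : ℝ) : T) := by
    rw [AddCircle.coe_sub, ← he, add_sub_cancel_right]
  have e1 := D8_arc hu (-(5 * σ.θ n)) 0
  have e2 := D8_arc hu δ (10 * σ.θ n)
  rw [inter_eq_left.2 hs, E1_sh_rect,
    show c + (t - 5 * σ.θ n) - i * α = c + t - i * α + -(5 * σ.θ n) by ring,
    show c + (t + δ) - i * α = c + t - i * α + δ by ring,
    show c + (t + 10 * σ.θ n) - i * α = c + t - i * α + 10 * σ.θ n by ring,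
    ← add_zero (c + t - i * α), add_assoc (c + t - i * α) 0, add_assoc (c + t - i * α) 0,
    add_assoc (c + t - i * α) 0, zero_add, zero_add, zero_add, e1, e2,
    show c' + t' + -(5 * σ.θ n) = c' + (t' - 5 * σ.θ n) by ring, add_zero,
    add_assoc c' t' δ, add_assoc c' t' (10 * σ.θ n), Measure.real, Measure.real] at q
  have hc : (n : ℝ) ≤ ((n - 8 : ℕ) : ℝ) + 8 := by exact_mod_cast (by omega : n ≤ n - 8 + 8)
  have hb : ((5 + 3) * ((n : ℝ) + 1 - ((n - 8 : ℕ) : ℝ)) + 8) * V ≤ 80 * V :=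
    mul_le_mul_of_nonneg_right (by linarith only [hc]) hV0
  obtain ⟨q1, q2⟩ := abs_le.1 (q.trans hb)
  obtain ⟨n11, n12⟩ := abs_le.1 n1
  obtain ⟨n21, n22⟩ := abs_le.1 n2
  exact abs_le.2 ⟨by linarith only [q1, n11, n22, hV0], by linarith only [q2, n12, n21, hV0]⟩

end Pool.Agent.Work.MP_042f46_an.Fu
end
end

-- merged part: Pool.Agent.Work.MP_042f46_an.F.A6
section
/-!
# Chords of the class of the step

Plan.  The integrand and `Cls` are symmetric and `μ` is symmetric, so by `S_cov` the integral is at most twice the integral over `D.S ∩ Cls`.  Let `P i = Psi (pt 0 (p.i))`, `d i = dep v₁ (h p.i)`, `ζ i = zeta V vz (h p.i)` (`Psi_bd`), `a i = Av (pt 0 p.i)`.  Go from `P 1` to `pt (re (P 1)) (im (P 2))` (distance at most `12 Θ`) and then to `P 2`: `|F (P 1) - F (P 2)| ≤ exp 12 L (P 1) (|Δ im| + exp (c |d 1 - d 2| / V) c Θ |d 1 - d 2| / V)`, and `Δ im = (1 - ζ 1) (p.1 - p.2) + ζ 1 (a 1 -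 a 2) + (ζ 1 - ζ 2) (a 2 - p.2)`.  With `2 c ≤ 1 / A` the square is at most `C L (P 1) ^ 2 (Θ ^ 2 cost p + ζ 1 ^ 2 (a 1 - a 2) ^ 2)`.
`cost` term: on level `n` (`n V ≤ d 1 < (n + 1) V`, `n ≤ dep v₁ (4 a) / V`) `L (P 1) ^ 2 ≤ exp 10 L u ^ 2` for `u` in the box `[n c Θ, (n + 1) c Θ] × [p.1 - 2 Θ, p.1]`; Tonelli and `outM` at `t = im u` (`|t| ≤ ρ₀`) give `exp 10 A V / (2 c) Lay`.
Last term: zero if `vz ≤ 0`.  Otherwise `2 V ≤ vz`; `L (P 1) ≤ exp 2 S p.1`, `|a 1 - a 2| ≤ |T p.1 - T p.2| + ω p.1 + ω p.2`, `ω t = T (t + K θ) - T (t - K θ)` (`Av_mem`).  `tile2` with `η = 2 Θ` and `outT`.  `tile2` with `η = θ`, `β t = ω' t ^ 2 A V`, `ω' t = T (t + 2 K θ) - T (t - 2 K θ) ≤ A Θ (4 K / exp vz) ^ (1 / A)` (`frac`; `4 K θ ≤ 200 Θ` because `K ≤ exp V`, `exp (2 V) ≤ 4 a`), then `tile1` with `T_int`; `K (4 K exp (-2 V)) ^ (1 / A) ≤ 1` by `hV`.  For `ω p.2` use `S p.1 ≤ exp 8 S p.2` and the symmetry.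
As proved below: `B` may depend on `K`, so `ω' ≤ 8 K Θ` from `T_near` replaces `frac`, `vz_or` and the hypothesis on `log (4 K)`.
-/

open Set Metric Topology Filter MeasureTheory
open scoped ENNReal NNReal

noncomputable section
namespace Pool.Agent.Work.MP_042f46_an.Fu

open Pool.Agent.Work.MP_042f46_an.Ty

theorem A6_swap {μ : Measure (ℝ × ℝ)} (hμ : μ.map Prod.swap = μ) {s : Set (ℝ × ℝ)}
    (hs : MeasurableSet s) (f : ℝ × ℝ → ℝ≥0∞) :
    ∫⁻ p in Prod.swap ⁻¹' s, f p.swap ∂μ = ∫⁻ p in s, f p ∂μ := by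
  have e := lintegral_map_equiv (μ := μ) (s.indicator f)
    (MeasurableEquiv.prodComm : ℝ × ℝ ≃ᵐ ℝ × ℝ)
  have h2 : μ.map (MeasurableEquiv.prodComm : ℝ × ℝ ≃ᵐ ℝ × ℝ) = μ := hμ
  rw [h2, lintegral_indicator hs] at e
  rw [e, ← lintegral_indicator (measurable_swap hs)]
  refine lintegral_congr fun p => ?_
  show (Prod.swap ⁻¹' s).indicator (fun p => f p.swap) p = s.indicator f p.swap
  by_cases hp : p.swap ∈ s
  · rw [indicator_of_mem hp, indicator_of_mem (show p ∈ Prod.swap ⁻¹' s from hp)]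
  · rw [indicator_of_notMem hp, indicator_of_notMem (show p ∉ Prod.swap ⁻¹' s from hp)]

theorem A6_ton {μ : Measure (ℝ × ℝ)} [SFinite μ] {E : Set (ℝ × ℝ)} (hE : MeasurableSet E)
    {Z : Set ℂ} (hZ : MeasurableSet Z) {R : Set ((ℝ × ℝ) × ℂ)} (hR : MeasurableSet R)
    {f g : ℝ × ℝ → ℝ≥0∞} (hg : Measurable g) {w : ℂ → ℝ≥0∞} (hw : Measurable w) {κ β : ℝ≥0∞}
    (hκ : κ ≠ ⊤) (h1 : ∀ p ∈ E, f p ≤ κ * ∫⁻ u in {u | (p, u) ∈ R} ∩ Z, w u)
    (h2 : ∀ u ∈ Z, ∫⁻ p in {p | (p, u) ∈ R} ∩ E, g p ∂μ ≤ β) :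
    ∫⁻ p in E, f p * g p ∂μ ≤ κ * β * ∫⁻ u in Z, w u := by
  have hH : Measurable (R.indicator fun q : (ℝ × ℝ) × ℂ => w q.2 * g q.1) :=
    ((hw.comp measurable_snd).mul (hg.comp measurable_fst)).indicator hR
  have a1 : ∀ p ∈ E, f p * g p ≤
      κ * ∫⁻ u in Z, R.indicator (fun q : (ℝ × ℝ) × ℂ => w q.2 * g q.1) (p, u) := by
    intro p hp
    have hm : MeasurableSet {u : ℂ | (p, u) ∈ R} := measurable_prodMk_left hR
    have e : ∫⁻ u in Z, R.indicator (fun q : (ℝ × ℝ) × ℂ => w q.2 * g q.1) (p, u) =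
        (∫⁻ u in {u | (p, u) ∈ R} ∩ Z, w u) * g p := by
      rw [← Measure.restrict_restrict hm, ← lintegral_indicator hm,
        ← lintegral_mul_const _ (hw.indicator hm)]
      refine lintegral_congr fun u => ?_
      by_cases hu : (p, u) ∈ R
      · rw [indicator_of_mem hu, indicator_of_mem (show u ∈ {u : ℂ | (p, u) ∈ R} from hu)]
      · rw [indicator_of_notMem hu, indicator_of_notMem (show u ∉ {u : ℂ | (p, u) ∈ R} from hu),
          zero_mul]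
    rw [e, ← mul_assoc]
    exact mul_le_mul_left (h1 p hp) _
  have a2 : ∀ u ∈ Z, ∫⁻ p in E, R.indicator (fun q : (ℝ × ℝ) × ℂ => w q.2 * g q.1) (p, u) ∂μ ≤
      β * w u := by
    intro u hu
    have hm : MeasurableSet {p : ℝ × ℝ | (p, u) ∈ R} := measurable_prodMk_right hR
    have e : ∫⁻ p in E, R.indicator (fun q : (ℝ × ℝ) × ℂ => w q.2 * g q.1) (p, u) ∂μ =
        (∫⁻ p in {p | (p, u) ∈ R} ∩ E, g p ∂μ) * w u := by
      rw [← Measure.restrict_restrict hm, ← lintegral_indicator hm,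
        ← lintegral_mul_const _ (hg.indicator hm)]
      refine lintegral_congr fun p => ?_
      by_cases hp : (p, u) ∈ R
      · rw [indicator_of_mem hp, indicator_of_mem (show p ∈ {p : ℝ × ℝ | (p, u) ∈ R} from hp),
          mul_comm]
      · rw [indicator_of_notMem hp,
          indicator_of_notMem (show p ∉ {p : ℝ × ℝ | (p, u) ∈ R} from hp), zero_mul]
    rw [e]
    exact mul_le_mul_left (h2 u hu) _
  calc ∫⁻ p in E, f p * g p ∂μ
      ≤ ∫⁻ p in E, κ * (∫⁻ u in Z, R.indicator (fun q : (ℝ × ℝ) × ℂ => w q.2 * g q.1) (p, u)) ∂μ :=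
        setLIntegral_mono' hE a1
    _ = κ * ∫⁻ p in E, (∫⁻ u in Z, R.indicator (fun q : (ℝ × ℝ) × ℂ => w q.2 * g q.1) (p, u)) ∂μ :=
        lintegral_const_mul' _ _ hκ
    _ = κ * ∫⁻ u in Z, (∫⁻ p in E, R.indicator (fun q : (ℝ × ℝ) × ℂ => w q.2 * g q.1) (p, u) ∂μ) := by
        rw [lintegral_lintegral_swap (μ := μ.restrict E) (ν := volume.restrict Z)
          (f := fun p u => R.indicator (fun q : (ℝ × ℝ) × ℂ => w q.2 * g q.1) (p, u))
          hH.aemeasurable]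
    _ ≤ κ * ∫⁻ u in Z, β * w u := mul_le_mul_right (setLIntegral_mono' hZ a2) _
    _ = κ * β * ∫⁻ u in Z, w u := by rw [lintegral_const_mul _ hw, mul_assoc]

theorem A6_box (a b s t : ℝ) :
    volume {u : ℂ | u.re ∈ Ioo a b ∧ u.im ∈ Icc s t} =
      ENNReal.ofReal (b - a) * ENNReal.ofReal (t - s) := by
  have e := Complex.volume_preserving_equiv_real_prod.measure_preimage
    (s := Ioo a b ×ˢ Icc s t) (measurableSet_Ioo.prod measurableSet_Icc).nullMeasurableSet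
  rw [Measure.volume_eq_prod, Measure.prod_prod, Real.volume_Ioo, Real.volume_Icc] at e
  exact e

theorem A6_norm (y t y' t' : ℝ) : ‖pt y t - pt y' t'‖ ≤ |y - y'| + |t - t'| :=
  Complex.norm_le_abs_re_add_abs_im _

theorem A6_two {Θ : ℝ} (hΘ : 0 < Θ) {F L : ℂ → ℝ} {S : ℝ → ℝ} (h : Inv Θ F L S)
    {y₁ y₂ t₁ t₂ : ℝ} (h₁ : 0 ≤ y₁) (h₂ : 0 ≤ y₂) (ht : |t₁ - t₂| ≤ 12 * Θ) :
    |F (pt y₁ t₁) - F (pt y₂ t₂)| ≤ Real.exp 12 * L (pt y₁ t₁) *
      (|t₁ - t₂| + Real.exp (|y₁ - y₂| / Θ) * |y₁ - y₂|) := by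
  have n1 : ‖pt y₁ t₁ - pt y₁ t₂‖ ≤ |t₁ - t₂| := by
    have := A6_norm y₁ t₁ y₁ t₂
    rwa [sub_self, abs_zero, zero_add] at this
  have n2 : ‖pt y₁ t₂ - pt y₂ t₂‖ ≤ |y₁ - y₂| := by
    have := A6_norm y₁ t₂ y₂ t₂
    rwa [sub_self, abs_zero, add_zero] at this
  have e1 : Real.exp (‖pt y₁ t₁ - pt y₁ t₂‖ / Θ) ≤ Real.exp 12 :=
    Real.exp_le_exp.2 ((div_le_iff₀ hΘ).2 (n1.trans ht))
  have e2 : Real.exp (‖pt y₁ t₂ - pt y₂ t₂‖ / Θ) ≤ Real.exp (|y₁ - y₂| / Θ) :=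
    Real.exp_le_exp.2 (div_le_div_of_nonneg_right n2 hΘ.le)
  have L0 := h.L_nonneg (pt y₁ t₁)
  have a := h.lip (pt y₁ t₁) h₁ (pt y₁ t₂) h₁
  have b := h.lip (pt y₁ t₂) h₁ (pt y₂ t₂) h₂
  have s : L (pt y₁ t₂) ≤ L (pt y₁ t₁) * Real.exp 12 :=
    (h.slow (pt y₁ t₁) h₁ (pt y₁ t₂) h₁).trans (mul_le_mul_of_nonneg_left e1 L0)
  have a' : |F (pt y₁ t₁) - F (pt y₁ t₂)| ≤ L (pt y₁ t₁) * Real.exp 12 * |t₁ - t₂| :=
    a.trans (mul_le_mul (mul_le_mul_of_nonneg_left e1 L0) n1 (norm_nonneg _) (by positivity))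
  have b' : |F (pt y₁ t₂) - F (pt y₂ t₂)| ≤
      L (pt y₁ t₁) * Real.exp 12 * Real.exp (|y₁ - y₂| / Θ) * |y₁ - y₂| :=
    b.trans (mul_le_mul (mul_le_mul s e2 (Real.exp_pos _).le (by positivity)) n2 (norm_nonneg _)
      (by positivity))
  have t := abs_sub_le (F (pt y₁ t₁)) (F (pt y₁ t₂)) (F (pt y₂ t₂))
  linarith only [a', b', t]

theorem A6_alg {G E E' l s Θ u x₁ x₂ x₃ x₄ c₁ c₂ c₃ τ w₁ w₂ : ℝ} (hE' : 1 ≤ E') (hl : 0 ≤ l)
    (hG : |G| ≤ E * l * (|u| + x₄)) (hu : u = x₁ + x₂ + x₃) (h1 : x₁ ^ 2 ≤ Θ ^ 2 * c₁)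
    (h3 : x₃ ^ 2 ≤ 4 * Θ ^ 2 * c₂) (h4 : x₄ ^ 2 ≤ Θ ^ 2 * c₃) (c1 : 0 ≤ c₁) (c2 : 0 ≤ c₂)
    (c3 : 0 ≤ c₃) (h2 : |x₂| ≤ |τ| + w₁ + w₂) (hs : l ≤ s * E') :
    G ^ 2 ≤ 24 * E ^ 2 * E' ^ 2 *
      (l ^ 2 * Θ ^ 2 * (c₁ + c₂ + c₃) + s ^ 2 * τ ^ 2 + s ^ 2 * w₁ ^ 2 + s ^ 2 * w₂ ^ 2) := by
  have g1 : G ^ 2 ≤ (E * l * (|u| + x₄)) ^ 2 := by
    rw [← sq_abs G]
    exact pow_le_pow_left₀ (abs_nonneg _) hG 2
  have g2 : (|u| + x₄) ^ 2 ≤ 2 * u ^ 2 + 2 * x₄ ^ 2 := by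
    rw [← sq_abs u]
    nlinarith only [sq_nonneg (|u| - x₄)]
  have g3 : u ^ 2 ≤ 3 * (x₁ ^ 2 + x₂ ^ 2 + x₃ ^ 2) := by
    rw [hu]
    nlinarith only [sq_nonneg (x₁ - x₂), sq_nonneg (x₁ - x₃), sq_nonneg (x₂ - x₃)]
  have g4 : x₂ ^ 2 ≤ 3 * (τ ^ 2 + w₁ ^ 2 + w₂ ^ 2) := by
    have := pow_le_pow_left₀ (abs_nonneg _) h2 2
    rw [sq_abs] at this
    rw [← sq_abs τ]
    nlinarith only [this, sq_nonneg (|τ| - w₁), sq_nonneg (|τ| - w₂), sq_nonneg (w₁ - w₂)]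
  have k1 : 0 ≤ Θ ^ 2 * c₁ := by positivity
  have k3 : 0 ≤ Θ ^ 2 * c₃ := by positivity
  have k2 : 0 ≤ Θ ^ 2 * c₂ := by positivity
  have g5 : (|u| + x₄) ^ 2 ≤ 24 * (Θ ^ 2 * (c₁ + c₂ + c₃)) + 18 * (τ ^ 2 + w₁ ^ 2 + w₂ ^ 2) := by
    linarith only [g2, g3, g4, h1, h3, h4, k1, k3]
  have g6 : l ^ 2 ≤ s ^ 2 * E' ^ 2 := by
    rw [← mul_pow]
    exact pow_le_pow_left₀ hl hs 2
  have g7 : 1 ≤ E' ^ 2 := one_le_pow₀ hE'
  have k4 : 0 ≤ Θ ^ 2 * (c₁ + c₂ + c₃) := by positivity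
  have k5 : 0 ≤ τ ^ 2 + w₁ ^ 2 + w₂ ^ 2 := by positivity
  have g8 : l ^ 2 * (|u| + x₄) ^ 2 ≤ 24 * E' ^ 2 *
      (l ^ 2 * Θ ^ 2 * (c₁ + c₂ + c₃) + s ^ 2 * τ ^ 2 + s ^ 2 * w₁ ^ 2 + s ^ 2 * w₂ ^ 2) := by
    have m1 := mul_le_mul_of_nonneg_left g5 (sq_nonneg l)
    have m2 := mul_le_mul_of_nonneg_right g6 k5
    have m3 := mul_le_mul_of_nonneg_right g7 (mul_nonneg (sq_nonneg l) k4)
    have m4 : 0 ≤ s ^ 2 * E' ^ 2 * (τ ^ 2 + w₁ ^ 2 + w₂ ^ 2) := by positivity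
    linarith only [m1, m2, m3, m4]
  have m5 := mul_le_mul_of_nonneg_left g8 (sq_nonneg E)
  linarith only [g1, m5]

theorem A6_Cls_meas (ρ r s : ℝ) : MeasurableSet (Cls ρ r s) := by
  have h1 : Measurable fun p : ℝ × ℝ => |p.1 - p.2| := (measurable_fst.sub measurable_snd).abs
  exact (measurableSet_le measurable_fst.abs measurable_const).inter
    ((measurableSet_le measurable_snd.abs measurable_const).inter
      ((measurableSet_le measurable_const h1).inter (measurableSet_lt h1 measurable_const)))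

theorem A6_Cls_swap (ρ r s : ℝ) : Prod.swap ⁻¹' Cls ρ r s = Cls ρ r s := by
  ext p
  show (|p.2| ≤ ρ ∧ |p.1| ≤ ρ ∧ r ≤ |p.2 - p.1| ∧ |p.2 - p.1| < s) ↔
    (|p.1| ≤ ρ ∧ |p.2| ≤ ρ ∧ r ≤ |p.1 - p.2| ∧ |p.1 - p.2| < s)
  rw [abs_sub_comm p.2 p.1]
  exact and_left_comm

section

variable {A V ρ₀ Θ θ K c : ℝ} {μ μ' : Measure (ℝ × ℝ)} (D : LD A V ρ₀ Θ θ μ μ')
  {F L : ℂ → ℝ} {S : ℝ → ℝ}

theorem A6_Psi (h : Par A V Θ θ K c) (t : ℝ) : D.Psi K c (pt 0 t) =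
    pt (c * Θ * dep D.v₁ (D.h t) / V) (t + zeta V D.vz (D.h t) * (D.Av K (pt 0 t) - t)) := by
  obtain ⟨h1, h2⟩ := D.Psi_bd h t
  unfold LD.Psi
  rw [h1, h2]
  show pt (0 + _) (t + _ * (_ - t)) = _
  rw [zero_add]

theorem A6_dep_meas (D : LD A V ρ₀ Θ θ μ μ') :
    Measurable (fun t => dep D.v₁ (D.h t)) ∧ Measurable (cost A V Θ D.vz D.v₁ D.h) := by
  have h0 : Measurable D.h := by
    refine (LipschitzWith.of_dist_le' (K := 1 / θ) fun s t => ?_).continuous.measurable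
    rw [Real.dist_eq, Real.dist_eq, one_div_mul_eq_div]
    exact D.h_lip s t
  have hl : Measurable fun t => Real.log (D.h t) := Real.measurable_log.comp h0
  have h1 : Measurable fun t => dep D.v₁ (D.h t) := measurable_const.max (hl.sub measurable_const)
  have h2 : Measurable fun t => zeta V D.vz (D.h t) :=
    lipschitz_clamp.continuous.measurable.comp ((measurable_const.sub hl).div_const V)
  have h3 : Measurable fun p : ℝ × ℝ => dep D.v₁ (D.h p.1) - dep D.v₁ (D.h p.2) :=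
    (h1.comp measurable_fst).sub (h1.comp measurable_snd)
  refine ⟨h1, ?_⟩
  unfold cost
  refine Measurable.add (Measurable.add (Measurable.ite ?_ ?_ measurable_const) ?_) ?_
  · exact measurableSet_lt (h2.comp measurable_fst) measurable_const
  · exact ((measurable_fst.sub measurable_snd).div_const Θ).pow_const 2
  · exact ((h2.comp measurable_fst).sub (h2.comp measurable_snd)).pow_const 2
  · exact ((h3.div_const V).pow_const 2).mul (Real.measurable_exp.comp (h3.abs.div_const _))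

theorem A6_pt (h : Par A V Θ θ K c) (hI : Inv Θ F L S) {p : ℝ × ℝ} (hp : |p.1 - p.2| < 8 * Θ) :
    (F (D.Psi K c (pt 0 p.1)) - F (D.Psi K c (pt 0 p.2))) ^ 2 ≤
      24 * Real.exp 12 ^ 2 * Real.exp 2 ^ 2 *
        (L (D.Psi K c (pt 0 p.1)) ^ 2 * Θ ^ 2 * cost A V Θ D.vz D.v₁ D.h p +
          S p.1 ^ 2 * (D.T p.1 - D.T p.2) ^ 2 +
          S p.1 ^ 2 * (D.T (p.1 + K * θ) - D.T (p.1 - K * θ)) ^ 2 +
          S p.1 ^ 2 * (D.T (p.2 + K * θ) - D.T (p.2 - K * θ)) ^ 2) := by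
  have hθ := h.θ_pos
  have hΘ : 0 < Θ := by linarith only [h.a_ge, hθ]
  have hV : 0 < V := by linarith only [h.V_ge]
  have hA : 0 < A := by linarith only [h.A_ge]
  have hc := h.c_pos
  have hK : 0 ≤ K * θ := mul_nonneg (by linarith only [h.K_ge]) hθ.le
  have hc2 : c * (2 * A) ≤ 1 := (le_div_iff₀ (by positivity)).1 h.c_le
  have hc1 : c ≤ 1 := by nlinarith only [hc2, h.A_ge, hc]
  have hP : ∀ t, pt 0 t ∈ HP := fun t => le_refl (0 : ℝ)
  have near : ∀ t, |D.Av K (pt 0 t) - t| ≤ 2 * Θ := fun t => D.Av_near h (hP t)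
  have mem : ∀ t, |D.Av K (pt 0 t) - D.T t| ≤ D.T (t + K * θ) - D.T (t - K * θ) := by
    intro t
    have m : D.T (t - (0 + K * θ)) ≤ D.Av K (pt 0 t) ∧ D.Av K (pt 0 t) ≤ D.T (t + (0 + K * θ)) :=
      D.Av_mem h (hP t)
    rw [zero_add] at m
    have m1 : D.T (t - K * θ) ≤ D.T t := D.T_mono (by linarith only [hK])
    have m2 : D.T t ≤ D.T (t + K * θ) := D.T_mono (by linarith only [hK])
    exact abs_le.2 ⟨by linarith only [m.1, m2], by linarith only [m.2, m1]⟩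
  have z : ∀ t, zeta V D.vz (D.h t) ∈ Icc (0 : ℝ) 1 := fun t => clamp_mem _
  have d0 : ∀ t, 0 ≤ dep D.v₁ (D.h t) := fun t => le_max_left _ _
  have zn : ∀ t, |zeta V D.vz (D.h t) * (D.Av K (pt 0 t) - t)| ≤ 2 * Θ := by
    intro t
    rw [abs_mul, abs_of_nonneg (z t).1]
    exact (mul_le_of_le_one_left (abs_nonneg _) (z t).2).trans (near t)
  rw [A6_Psi D h, A6_Psi D h]
  unfold cost
  have n1 := near p.1
  have n2 := near p.2
  have m1 := mem p.1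
  have m2 := mem p.2
  have z1 := z p.1
  have zn1 := zn p.1
  have zn2 := zn p.2
  have y1 : 0 ≤ c * Θ * dep D.v₁ (D.h p.1) / V := by have := d0 p.1; positivity
  have y2 : 0 ≤ c * Θ * dep D.v₁ (D.h p.2) / V := by have := d0 p.2; positivity
  generalize dep D.v₁ (D.h p.1) = d₁ at *
  generalize dep D.v₁ (D.h p.2) = d₂ at *
  generalize zeta V D.vz (D.h p.1) = ζ₁ at *
  generalize zeta V D.vz (D.h p.2) = ζ₂ at *
  generalize D.Av K (pt 0 p.1) = a₁ at *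
  generalize D.Av K (pt 0 p.2) = a₂ at *
  have ht : |p.1 + ζ₁ * (a₁ - p.1) - (p.2 + ζ₂ * (a₂ - p.2))| ≤ 12 * Θ := by
    obtain ⟨u1, u2⟩ := abs_le.1 zn1
    obtain ⟨u3, u4⟩ := abs_le.1 zn2
    obtain ⟨u5, u6⟩ := abs_lt.1 hp
    exact abs_le.2 ⟨by linarith only [u1, u4, u5], by linarith only [u2, u3, u6]⟩
  refine A6_alg (x₁ := (1 - ζ₁) * (p.1 - p.2)) (x₂ := ζ₁ * (a₁ - a₂))
    (x₃ := (ζ₁ - ζ₂) * (a₂ - p.2)) (Real.one_le_exp (by norm_num)) (hI.L_nonneg _)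
    (A6_two hΘ hI y1 y2 ht) (by ring) ?_ ?_ ?_ ?_ (sq_nonneg _) (by positivity) ?_ ?_
  · split_ifs with hz
    · have e : Θ ^ 2 * ((p.1 - p.2) / Θ) ^ 2 = (p.1 - p.2) ^ 2 := by field_simp
      rw [e, mul_pow]
      refine mul_le_of_le_one_left (sq_nonneg _) (pow_le_one₀ ?_ ?_)
      · linarith only [z1.2]
      · linarith only [z1.1]
    · rw [le_antisymm z1.2 (not_lt.1 hz)]
      simp
  · have e : (a₂ - p.2) ^ 2 ≤ (2 * Θ) ^ 2 := by
      rw [← sq_abs (a₂ - p.2)]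
      exact pow_le_pow_left₀ (abs_nonneg _) n2 2
    have := mul_le_mul_of_nonneg_left e (sq_nonneg (ζ₁ - ζ₂))
    linarith only [this]
  · have e : |c * Θ * d₁ / V - c * Θ * d₂ / V| = c * Θ * (|d₁ - d₂| / V) := by
      rw [show c * Θ * d₁ / V - c * Θ * d₂ / V = c * Θ / V * (d₁ - d₂) by ring, abs_mul,
        abs_of_pos (by positivity : 0 < c * Θ / V)]
      ring
    have e2 : ((d₁ - d₂) / V) ^ 2 = (|d₁ - d₂| / V) ^ 2 := by rw [div_pow, div_pow, sq_abs]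
    have e3 : |d₁ - d₂| / (A * V) = |d₁ - d₂| / V / A := by rw [div_div, mul_comm]
    rw [e, e2, e3]
    have hδ : 0 ≤ |d₁ - d₂| / V := by positivity
    generalize |d₁ - d₂| / V = δ at *
    have e4 : c * Θ * δ / Θ = c * δ := by field_simp
    have e5 : Real.exp (c * δ) ^ 2 ≤ Real.exp (δ / A) := by
      rw [sq, ← Real.exp_add]
      refine Real.exp_le_exp.2 ((le_div_iff₀ hA).2 ?_)
      have := mul_le_mul_of_nonneg_right hc2 hδ
      linarith only [this]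
    have e6 : (c * Θ * δ) ^ 2 ≤ Θ ^ 2 * δ ^ 2 := by
      rw [mul_assoc, mul_pow, mul_pow]
      exact mul_le_of_le_one_left (by positivity) (pow_le_one₀ hc.le hc1)
    have := mul_le_mul e5 e6 (sq_nonneg _) (Real.exp_pos _).le
    rw [e4, mul_pow]
    linarith only [this]
  · split_ifs
    · exact sq_nonneg _
    · exact le_rfl
  · have e : |ζ₁ * (a₁ - a₂)| ≤ |a₁ - a₂| := by
      rw [abs_mul, abs_of_nonneg z1.1]
      exact mul_le_of_le_one_left (abs_nonneg _) z1.2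
    refine e.trans (abs_le.2 ⟨?_, ?_⟩)
    · linarith only [(abs_le.1 m1).1, (abs_le.1 m2).2, neg_abs_le (D.T p.1 - D.T p.2)]
    · linarith only [(abs_le.1 m1).2, (abs_le.1 m2).1, le_abs_self (D.T p.1 - D.T p.2)]
  · refine (hI.L_le _ y1).trans ((hI.S_slow p.1 _).trans
      (mul_le_mul_of_nonneg_left (Real.exp_le_exp.2 ((div_le_iff₀ hΘ).2 ?_)) (hI.S_nonneg _)))
    show |p.1 - (p.1 + ζ₁ * (a₁ - p.1))| ≤ 2 * Θ
    rw [show p.1 - (p.1 + ζ₁ * (a₁ - p.1)) = -(ζ₁ * (a₁ - p.1)) by ring, abs_neg]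
    exact zn1

theorem A6_cost [SFinite μ] (h : Par A V Θ θ K c) (hI : Inv Θ F L S) :
    ∫⁻ p in Cls (ρ₀ - 2 * Θ) (8 * θ) (8 * Θ) ∩ D.S,
      ENNReal.ofReal (L (D.Psi K c (pt 0 p.1)) ^ 2 * Θ ^ 2) *
        ENNReal.ofReal (cost A V Θ D.vz D.v₁ D.h p) ∂μ ≤
      ENNReal.ofReal (Real.exp 5 ^ 2 / (2 * c) * A * V) *
        Lay L (4 * Θ + c * Θ * dep D.v₁ (4 * Θ / θ) / V) := by
  have hθ := h.θ_pos
  have hΘ : 0 < Θ := by linarith only [h.a_ge, hθ]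
  have hV : 0 < V := by linarith only [h.V_ge]
  have hA : 0 < A := by linarith only [h.A_ge]
  have hc := h.c_pos
  have hc2 : c * (2 * A) ≤ 1 := (le_div_iff₀ (by positivity)).1 h.c_le
  have hc1 : c ≤ 1 := by nlinarith only [hc2, h.A_ge, hc]
  have hcΘ : 0 < c * Θ := by positivity
  have hcΘ' : c * Θ ≤ Θ := mul_le_of_le_one_left hΘ.le hc1
  obtain ⟨m1, m2⟩ := A6_dep_meas D
  have d0 : ∀ t, 0 ≤ dep D.v₁ (D.h t) := fun t => le_max_left _ _
  have hw : Measurable fun u => ENNReal.ofReal (L u ^ 2) := (hI.L_meas.pow_const 2).ennreal_ofReal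
  have hR : MeasurableSet {q : (ℝ × ℝ) × ℂ | ⌊dep D.v₁ (D.h q.1.1) / V⌋₊ = ⌊q.2.re / (c * Θ)⌋₊ ∧
      q.2.im ≤ q.1.1 ∧ q.1.1 ≤ q.2.im + 2 * Θ} := by
    have f1 : Measurable fun q : (ℝ × ℝ) × ℂ => q.1.1 := measurable_fst.comp measurable_fst
    have f2 : Measurable fun q : (ℝ × ℝ) × ℂ => q.2.im := Complex.measurable_im.comp measurable_snd
    exact (measurableSet_eq_fun ((m1.comp f1).div_const V).nat_floor
      ((Complex.measurable_re.comp measurable_snd).div_const _).nat_floor).inter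
      ((measurableSet_le f2 f1).inter (measurableSet_le f1 (f2.add_const _)))
  have hZ : MeasurableSet {z : ℂ | 0 < z.re ∧
      z.re < 4 * Θ + c * Θ * dep D.v₁ (4 * Θ / θ) / V} :=
    (measurableSet_lt measurable_const Complex.measurable_re).inter
      (measurableSet_lt Complex.measurable_re measurable_const)
  refine (A6_ton ((A6_Cls_meas _ _ _).inter D.S_meas) hZ hR m2.ennreal_ofReal hw
    (κ := ENNReal.ofReal (Real.exp 5 ^ 2 / (2 * c))) (β := ENNReal.ofReal (A * V))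
    ENNReal.ofReal_ne_top ?_ ?_).trans ?_
  · rintro p -
    have k1 := Nat.floor_le (div_nonneg (d0 p.1) hV.le)
    have k2 := Nat.lt_floor_add_one (dep D.v₁ (D.h p.1) / V)
    have k3 : dep D.v₁ (D.h p.1) ≤ dep D.v₁ (4 * Θ / θ) :=
      max_le_max le_rfl (sub_le_sub_right
        (Real.log_le_log (lt_of_lt_of_le one_pos (D.one_le _)) (D.h_le _)) _)
    have k4 : dep D.v₁ (D.h p.1) / V ≤ dep D.v₁ (4 * Θ / θ) / V :=
      div_le_div_of_nonneg_right k3 hV.le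
    have k5 : (D.Psi K c (pt 0 p.1)).re = c * Θ * (dep D.v₁ (D.h p.1) / V) := by
      rw [A6_Psi D h, ← mul_div_assoc]
      rfl
    have k6 : |(D.Psi K c (pt 0 p.1)).im - p.1| ≤ 2 * Θ :=
      D.Psi_im h (z := pt 0 p.1) (le_refl (0 : ℝ))
    have k7 : D.Psi K c (pt 0 p.1) ∈ HP := D.Psi_re_ge h (pt 0 p.1)
    have k8 : (0 : ℝ) ≤ ⌊dep D.v₁ (D.h p.1) / V⌋₊ := Nat.cast_nonneg _
    have k9 : c * Θ * dep D.v₁ (4 * Θ / θ) / V = c * Θ * (dep D.v₁ (4 * Θ / θ) / V) :=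
      mul_div_assoc _ _ _
    rw [k9]
    generalize D.Psi K c (pt 0 p.1) = P at *
    obtain ⟨n, hn⟩ : ∃ n, n = ⌊dep D.v₁ (D.h p.1) / V⌋₊ := ⟨_, rfl⟩
    rw [← hn] at k1 k2 k8
    have l1 := mul_le_mul_of_nonneg_left k1 hcΘ.le
    have l2 := mul_le_mul_of_nonneg_left k2.le hcΘ.le
    have l3 := mul_le_mul_of_nonneg_left k4 hcΘ.le
    have l4 := mul_nonneg hcΘ.le k8
    have hB : MeasurableSet {u : ℂ | u.re ∈ Ioo (c * Θ * n) (c * Θ * (n + 1)) ∧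
        u.im ∈ Icc (p.1 - 2 * Θ) p.1} :=
      (Complex.measurable_re measurableSet_Ioo).inter (Complex.measurable_im measurableSet_Icc)
    have b1 : ∀ u ∈ {u : ℂ | u.re ∈ Ioo (c * Θ * n) (c * Θ * (n + 1)) ∧
        u.im ∈ Icc (p.1 - 2 * Θ) p.1},
        ENNReal.ofReal (L P ^ 2) ≤ ENNReal.ofReal (Real.exp 5 ^ 2) * ENNReal.ofReal (L u ^ 2) := by
      rintro u ⟨⟨u1, u2⟩, u3, u4⟩
      have hu : u ∈ HP := l4.trans u1.le
      have n1 : ‖u - P‖ ≤ 5 * Θ := by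
        have r1 : |u.re - P.re| ≤ Θ := by
          rw [k5]
          exact abs_le.2 ⟨by linarith only [u1, l2, hcΘ'], by linarith only [u2, l1, hcΘ']⟩
        have r2 : |u.im - P.im| ≤ 4 * Θ := by
          obtain ⟨v1, v2⟩ := abs_le.1 k6
          exact abs_le.2 ⟨by linarith only [u3, v2], by linarith only [u4, v1, hΘ]⟩
        have r3 : ‖u - P‖ ≤ |u.re - P.re| + |u.im - P.im| := Complex.norm_le_abs_re_add_abs_im _
        linarith only [r1, r2, r3]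
      have s1 : L P ≤ L u * Real.exp 5 := (hI.slow u hu P k7).trans (mul_le_mul_of_nonneg_left
        (Real.exp_le_exp.2 ((div_le_iff₀ hΘ).2 n1)) (hI.L_nonneg _))
      rw [← ENNReal.ofReal_mul (sq_nonneg _), ← mul_pow, mul_comm]
      exact ENNReal.ofReal_le_ofReal (pow_le_pow_left₀ (hI.L_nonneg _) s1 2)
    have b2 := setLIntegral_mono' (μ := volume) hB b1
    rw [setLIntegral_const, A6_box, lintegral_const_mul _ hw,
      ← ENNReal.ofReal_mul (by linarith only [hcΘ]), ← ENNReal.ofReal_mul (sq_nonneg _)] at b2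
    have e1 : L P ^ 2 * Θ ^ 2 = 1 / (2 * c) *
        (L P ^ 2 * ((c * Θ * (n + 1) - c * Θ * n) * (p.1 - (p.1 - 2 * Θ)))) := by
      field_simp
      ring
    have e2 : Real.exp 5 ^ 2 / (2 * c) = 1 / (2 * c) * Real.exp 5 ^ 2 := by ring
    rw [e1, e2, ENNReal.ofReal_mul (p := 1 / (2 * c)) (by positivity),
      ENNReal.ofReal_mul (p := 1 / (2 * c)) (by positivity), mul_assoc (ENNReal.ofReal _)]
    refine mul_le_mul_right (b2.trans (mul_le_mul_right (lintegral_mono_set ?_) _)) _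
    rintro u ⟨⟨u1, u2⟩, u3, u4⟩
    refine ⟨⟨?_, u4, by linarith only [u3]⟩, l4.trans_lt u1, by linarith only [u2, l1, l3, hcΘ', hΘ]⟩
    show ⌊dep D.v₁ (D.h p.1) / V⌋₊ = ⌊u.re / (c * Θ)⌋₊
    rw [← hn]
    refine ((Nat.floor_eq_iff (div_nonneg (l4.trans u1.le) hcΘ.le)).2 ⟨?_, ?_⟩).symm
    · exact (le_div_iff₀ hcΘ).2 (by linarith only [u1])
    · exact (div_lt_iff₀ hcΘ).2 (by linarith only [u2])
  · rintro u -
    by_cases hu : |u.im| ≤ ρ₀
    · refine (lintegral_mono_set ?_).trans (D.outM u.im hu ⌊u.re / (c * Θ)⌋₊)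
      rintro p ⟨⟨p1, p2, p3⟩, ⟨-, -, p4, p5⟩, p6⟩
      have p0 : ⌊dep D.v₁ (D.h p.1) / V⌋₊ = ⌊u.re / (c * Θ)⌋₊ := p1
      refine ⟨p6, ⟨p2, p3⟩, p4, p5, ?_, ?_⟩
      · rw [← p0]
        exact (le_div_iff₀ hV).1 (Nat.floor_le (div_nonneg (d0 p.1) hV.le))
      · rw [← p0]
        exact (div_lt_iff₀ hV).1 (Nat.lt_floor_add_one _)
    · refine (lintegral_mono_set (t := ∅) ?_).trans (by simp)
      rintro p ⟨⟨-, p2, p3⟩, ⟨p4, -⟩, -⟩
      have p2' : u.im ≤ p.1 := p2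
      have p3' : p.1 ≤ u.im + 2 * Θ := p3
      obtain ⟨p5, p6⟩ := abs_le.1 p4
      exact hu (abs_le.2 ⟨by linarith only [p3', p5], by linarith only [p2', p6, hΘ]⟩)
  · rw [← ENNReal.ofReal_mul (by positivity), ← mul_assoc]
    exact le_rfl

theorem A6_T [SFinite μ] (h : Par A V Θ θ K c) (hI : Inv Θ F L S) :
    ∫⁻ p in Cls (ρ₀ - 2 * Θ) (8 * θ) (8 * Θ),
      ENNReal.ofReal (S p.1 ^ 2) * ENNReal.ofReal ((D.T p.1 - D.T p.2) ^ 2) ∂μ ≤
      ENNReal.ofReal (Real.exp 4 / 2 * A * V) * Fl Θ S := by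
  have hθ := h.θ_pos
  have hΘ : 0 < Θ := by linarith only [h.a_ge, hθ]
  have hV : 0 < V := by linarith only [h.V_ge]
  have hA : 0 < A := by linarith only [h.A_ge]
  have hT := D.T_mono.measurable
  have hs : MeasurableSet {p : ℝ × ℝ | |p.1 - p.2| < 8 * Θ} :=
    measurableSet_lt (measurable_fst.sub measurable_snd).abs measurable_const
  have hg : Measurable fun p : ℝ × ℝ => ENNReal.ofReal ((D.T p.1 - D.T p.2) ^ 2) :=
    (((hT.comp measurable_fst).sub (hT.comp measurable_snd)).pow_const 2).ennreal_ofReal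
  have t2 := tile2 (Θ := Θ) (η := 2 * Θ) (ρ := ρ₀) (by positivity) le_rfl hI.S_meas hI.S_nonneg
    hI.S_slow μ (hg.indicator hs) (β := fun _ => ENNReal.ofReal (A * V * Θ ^ 2)) measurable_const
    (fun t ht => by
      rw [lintegral_indicator hs, Measure.restrict_restrict hs]
      exact le_trans (lintegral_mono_set fun p hp => And.intro hp.2 hp.1) (D.outT t ht))
  refine (setLIntegral_mono' (A6_Cls_meas _ _ _) fun p hp => ?_).trans
    ((lintegral_mono_set fun p hp => hp.1).trans (t2.trans ?_))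
  · rw [indicator_of_mem (show p ∈ {p : ℝ × ℝ | |p.1 - p.2| < 8 * Θ} from hp.2.2.2)]
  · have e : Real.exp 4 / (2 * Θ) * (A * V * Θ ^ 2) = Real.exp 4 / 2 * A * V * Θ := by field_simp
    rw [lintegral_mul_const _ (hI.S_meas.pow_const 2).ennreal_ofReal, Fl, mul_comm (∫⁻ _, _) _,
      ← mul_assoc, ← mul_assoc, ← ENNReal.ofReal_mul (by positivity),
      ← ENNReal.ofReal_mul (by positivity), e]

theorem A6_w1 [SFinite μ] (h : Par A V Θ θ K c) (hK : KB ρ₀ θ (A * V) μ) (hI : Inv Θ F L S) :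
    ∫⁻ p in Cls (ρ₀ - 2 * Θ) (8 * θ) (8 * Θ), ENNReal.ofReal (S p.1 ^ 2) *
      ENNReal.ofReal ((D.T (p.1 + K * θ) - D.T (p.1 - K * θ)) ^ 2) ∂μ ≤
      ENNReal.ofReal (160 * Real.exp 4 ^ 2 * K ^ 3 * A * V) * Fl Θ S := by
  have hθ := h.θ_pos
  have hΘ : 0 < Θ := by linarith only [h.a_ge, hθ]
  have hθΘ : θ ≤ Θ := by linarith only [h.a_ge, hθ]
  have hV : 0 < V := by linarith only [h.V_ge]
  have hA : 0 < A := by linarith only [h.A_ge]
  have hK1 : 1 ≤ K := by linarith only [h.K_ge]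
  have hK0 : 0 < K := by linarith only [hK1]
  have q1 : θ ≤ K * θ := le_mul_of_one_le_left hθ.le hK1
  have q2 : Θ ≤ K * Θ := le_mul_of_one_le_left hΘ.le hK1
  have q3 : K * θ ≤ K * Θ := mul_le_mul_of_nonneg_left hθΘ hK0.le
  have hT := D.T_mono.measurable
  have hS2 : Measurable fun t => ENNReal.ofReal (S t ^ 2) := (hI.S_meas.pow_const 2).ennreal_ofReal
  have hs : MeasurableSet {p : ℝ × ℝ | 2 * θ ≤ |p.1 - p.2|} :=
    measurableSet_le measurable_const (measurable_fst.sub measurable_snd).abs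
  have hg : Measurable fun p : ℝ × ℝ =>
      ENNReal.ofReal ((D.T (p.1 + K * θ) - D.T (p.1 - K * θ)) ^ 2) :=
    (((hT.comp (measurable_fst.add_const _)).sub
      (hT.comp (measurable_fst.sub_const _))).pow_const 2).ennreal_ofReal
  have hω : Measurable fun t => ENNReal.ofReal (D.T (t + 2 * K * θ) - D.T (t - 2 * K * θ)) :=
    ((hT.comp (measurable_id.add_const _)).sub (hT.comp (measurable_id.sub_const _))).ennreal_ofReal
  have t1 := tile1 (Θ := Θ) (η := 2 * Θ) (by positivity) le_rfl hI.S_meas hI.S_nonneg hI.S_slow hω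
    (β := ENNReal.ofReal (40 * K ^ 2 * θ * Θ)) (fun t => by
      refine (T_int D.T_mono (d := 2 * K * θ) (by positivity) (by linarith only [hΘ])).trans
        (ENNReal.ofReal_le_ofReal ?_)
      have a1 := (abs_le.1 (D.T_near (t + 2 * Θ + 2 * K * θ))).2
      have a2 := (abs_le.1 (D.T_near (t - 2 * K * θ))).1
      have a3 : D.T (t + 2 * Θ + 2 * K * θ) - D.T (t - 2 * K * θ) ≤ 10 * (K * Θ) := by
        linarith only [a1, a2, q2, q3]
      have a4 := mul_le_mul_of_nonneg_left a3 (by positivity : 0 ≤ 2 * (2 * K * θ))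
      linarith only [a4])
  have t2 := tile2 (Θ := Θ) (η := θ) (ρ := ρ₀) hθ (by linarith only [hθΘ, hΘ]) hI.S_meas
    hI.S_nonneg hI.S_slow μ (hg.indicator hs)
    (β := fun t => ENNReal.ofReal (D.T (t + 2 * K * θ) - D.T (t - 2 * K * θ)) *
      ENNReal.ofReal (8 * K * Θ * (A * V))) (hω.mul_const _) (fun t ht => by
      have hm : MeasurableSet ({p : ℝ × ℝ | 2 * θ ≤ |p.1 - p.2|} ∩
          {p : ℝ × ℝ | p.1 ∈ Icc t (t + θ)}) := hs.inter (measurable_fst measurableSet_Icc)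
      have b : ∀ p ∈ {p : ℝ × ℝ | 2 * θ ≤ |p.1 - p.2|} ∩ {p : ℝ × ℝ | p.1 ∈ Icc t (t + θ)},
          ENNReal.ofReal ((D.T (p.1 + K * θ) - D.T (p.1 - K * θ)) ^ 2) ≤
            ENNReal.ofReal (D.T (t + 2 * K * θ) - D.T (t - 2 * K * θ)) *
              ENNReal.ofReal (8 * K * Θ) := by
        rintro p ⟨-, p1, p2⟩
        have a0 : D.T (p.1 - K * θ) ≤ D.T (p.1 + K * θ) := D.T_mono (by linarith only [q1, hθ])
        have a1 : D.T (p.1 + K * θ) ≤ D.T (t + 2 * K * θ) := D.T_mono (by linarith only [q1, p2])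
        have a2 : D.T (t - 2 * K * θ) ≤ D.T (p.1 - K * θ) :=
          D.T_mono (by linarith only [q1, p1, hθ])
        have a3 := (abs_le.1 (D.T_near (p.1 + K * θ))).2
        have a4 := (abs_le.1 (D.T_near (p.1 - K * θ))).1
        rw [← ENNReal.ofReal_mul (by linarith only [a0, a1, a2]), sq]
        exact ENNReal.ofReal_le_ofReal (mul_le_mul (by linarith only [a1, a2])
          (by linarith only [a3, a4, q2, q3, hΘ]) (by linarith only [a0])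
          (by linarith only [a0, a1, a2]))
      rw [lintegral_indicator hs, Measure.restrict_restrict hs]
      refine (setLIntegral_mono' hm b).trans ?_
      rw [setLIntegral_const, mul_assoc, ENNReal.ofReal_mul (p := 8 * K * Θ) (by positivity)]
      exact mul_le_mul_right (mul_le_mul_right
        (le_trans (measure_mono fun p hp => And.intro hp.2 hp.1) (hK t ht)) _) _)
  refine (setLIntegral_mono' (A6_Cls_meas _ _ _) fun p hp => ?_).trans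
    ((lintegral_mono_set (t := {p : ℝ × ℝ | |p.1| ≤ ρ₀ - θ}) fun p hp => ?_).trans (t2.trans ?_))
  · rw [indicator_of_mem (show p ∈ {p : ℝ × ℝ | 2 * θ ≤ |p.1 - p.2|} from
      le_trans (by linarith only [hθ]) hp.2.2.1)]
  · exact le_trans hp.1 (by linarith only [hθΘ, hΘ])
  · have e : Real.exp 4 / θ * (8 * K * Θ * (A * V)) * (Real.exp 4 / (2 * Θ)) *
        (40 * K ^ 2 * θ * Θ) = 160 * Real.exp 4 ^ 2 * K ^ 3 * A * V * Θ := by
      field_simp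
      ring
    simp only [← mul_assoc (ENNReal.ofReal (S _ ^ 2))]
    have hm : Measurable fun t => ENNReal.ofReal (S t ^ 2) *
        ENNReal.ofReal (D.T (t + 2 * K * θ) - D.T (t - 2 * K * θ)) := hS2.mul hω
    rw [lintegral_mul_const _ hm, mul_comm (∫⁻ _, _) _, ← mul_assoc]
    refine (mul_le_mul_right t1 _).trans ?_
    rw [Fl, ← mul_assoc, ← mul_assoc, ← mul_assoc (ENNReal.ofReal _) (ENNReal.ofReal Θ),
      ← ENNReal.ofReal_mul (by positivity),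
      ← ENNReal.ofReal_mul (by positivity), ← ENNReal.ofReal_mul (by positivity),
      ← ENNReal.ofReal_mul (by positivity), e]

theorem A6_w2 [SFinite μ] (h : Par A V Θ θ K c) (hμ : μ.map Prod.swap = μ)
    (hK : KB ρ₀ θ (A * V) μ) (hI : Inv Θ F L S) :
    ∫⁻ p in Cls (ρ₀ - 2 * Θ) (8 * θ) (8 * Θ), ENNReal.ofReal (S p.1 ^ 2) *
      ENNReal.ofReal ((D.T (p.2 + K * θ) - D.T (p.2 - K * θ)) ^ 2) ∂μ ≤
      ENNReal.ofReal (Real.exp 8 ^ 2 * (160 * Real.exp 4 ^ 2 * K ^ 3 * A) * V) * Fl Θ S := by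
  have hΘ : 0 < Θ := by linarith only [h.a_ge, h.θ_pos]
  have e := A6_swap hμ (A6_Cls_meas (ρ₀ - 2 * Θ) (8 * θ) (8 * Θ)) fun p =>
    ENNReal.ofReal (S p.1 ^ 2) * ENNReal.ofReal ((D.T (p.1 + K * θ) - D.T (p.1 - K * θ)) ^ 2)
  rw [A6_Cls_swap] at e
  have b : ∀ p ∈ Cls (ρ₀ - 2 * Θ) (8 * θ) (8 * Θ), ENNReal.ofReal (S p.1 ^ 2) *
      ENNReal.ofReal ((D.T (p.2 + K * θ) - D.T (p.2 - K * θ)) ^ 2) ≤
      ENNReal.ofReal (Real.exp 8 ^ 2) * (ENNReal.ofReal (S p.2 ^ 2) *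
        ENNReal.ofReal ((D.T (p.2 + K * θ) - D.T (p.2 - K * θ)) ^ 2)) := by
    intro p hp
    have s1 : S p.1 ≤ S p.2 * Real.exp 8 := by
      refine (hI.S_slow p.2 p.1).trans (mul_le_mul_of_nonneg_left
        (Real.exp_le_exp.2 ((div_le_iff₀ hΘ).2 ?_)) (hI.S_nonneg _))
      rw [abs_sub_comm]
      exact hp.2.2.2.le
    rw [← mul_assoc, ← ENNReal.ofReal_mul (p := Real.exp 8 ^ 2) (sq_nonneg _), ← mul_pow,
      mul_comm (Real.exp 8)]
    exact mul_le_mul_left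
      (ENNReal.ofReal_le_ofReal (pow_le_pow_left₀ (hI.S_nonneg _) s1 2)) _
  refine (setLIntegral_mono' (A6_Cls_meas _ _ _) b).trans ?_
  rw [lintegral_const_mul' _ _ ENNReal.ofReal_ne_top, mul_assoc (Real.exp 8 ^ 2),
    ENNReal.ofReal_mul (sq_nonneg _), mul_assoc]
  exact mul_le_mul_right (e.le.trans (A6_w1 D h hK hI)) _

end

theorem step_out {A K c : ℝ} : ∃ B : ℝ, 0 ≤ B ∧ ∀ {V ρ₀ Θ θ : ℝ} {μ μ' : Measure (ℝ × ℝ)}
    [SFinite μ] (D : LD A V ρ₀ Θ θ μ μ') {F L : ℂ → ℝ} {S : ℝ → ℝ}, Par A V Θ θ K c →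
      (A + 1) * Real.log (4 * K) ≤ 2 * V → μ.map Prod.swap = μ → KB ρ₀ θ (A * V) μ →
      Inv Θ F L S → ∫⁻ p in Cls (ρ₀ - 2 * Θ) (8 * θ) (8 * Θ),
        ENNReal.ofReal ((F (D.Psi K c (pt 0 p.1)) - F (D.Psi K c (pt 0 p.2))) ^ 2) ∂μ ≤
        ENNReal.ofReal (B * V) *
          (Lay L (4 * Θ + c * Θ * dep D.v₁ (4 * Θ / θ) / V) + Fl Θ S) := by
  obtain ⟨M, hM⟩ : ∃ M : ℝ, M = 24 * Real.exp 12 ^ 2 * Real.exp 2 ^ 2 := ⟨_, rfl⟩
  obtain ⟨C₁, hC₁⟩ : ∃ C : ℝ, C = Real.exp 5 ^ 2 / (2 * c) * A := ⟨_, rfl⟩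
  obtain ⟨C₂, hC₂⟩ : ∃ C : ℝ, C = Real.exp 4 / 2 * A := ⟨_, rfl⟩
  obtain ⟨C₃, hC₃⟩ : ∃ C : ℝ, C = 160 * Real.exp 4 ^ 2 * K ^ 3 * A := ⟨_, rfl⟩
  obtain ⟨C₄, hC₄⟩ : ∃ C : ℝ, C = Real.exp 8 ^ 2 * C₃ := ⟨_, rfl⟩
  refine ⟨|2 * M * (C₁ + C₂ + C₃ + C₄)|, abs_nonneg _, ?_⟩
  intro V ρ₀ Θ θ μ μ' _ D F L S h _ hμ hK hI
  have hV : 0 < V := by linarith only [h.V_ge]
  have hA : 0 < A := by linarith only [h.A_ge]
  have hK0 : 0 < K := by linarith only [h.K_ge]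
  have hc := h.c_pos
  have M0 : 0 ≤ M := by rw [hM]; positivity
  have c1 : 0 ≤ C₁ := by rw [hC₁]; positivity
  have c2 : 0 ≤ C₂ := by rw [hC₂]; positivity
  have c3 : 0 ≤ C₃ := by rw [hC₃]; positivity
  have c4 : 0 ≤ C₄ := by rw [hC₄]; positivity
  have i1 := A6_cost D h hI
  have i2 := (lintegral_mono_set (inter_subset_left (t := D.S))).trans (A6_T D h hI)
  have i3 := (lintegral_mono_set (inter_subset_left (t := D.S))).trans (A6_w1 D h hK hI)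
  have i4 := (lintegral_mono_set (inter_subset_left (t := D.S))).trans (A6_w2 D h hμ hK hI)
  rw [← hC₃] at i3 i4
  rw [← hC₁] at i1
  rw [← hC₂] at i2
  rw [← hC₄] at i4
  have hE := (A6_Cls_meas (ρ₀ - 2 * Θ) (8 * θ) (8 * Θ)).inter D.S_meas
  have hT := D.T_mono.measurable
  have hS2 : Measurable fun p : ℝ × ℝ => ENNReal.ofReal (S p.1 ^ 2) :=
    ((hI.S_meas.comp measurable_fst).pow_const 2).ennreal_ofReal
  have hω : Measurable fun t => ENNReal.ofReal ((D.T (t + K * θ) - D.T (t - K * θ)) ^ 2) :=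
    (((hT.comp (measurable_id.add_const _)).sub
      (hT.comp (measurable_id.sub_const _))).pow_const 2).ennreal_ofReal
  have hg : Measurable fun p : ℝ × ℝ => ENNReal.ofReal ((D.T p.1 - D.T p.2) ^ 2) :=
    (((hT.comp measurable_fst).sub (hT.comp measurable_snd)).pow_const 2).ennreal_ofReal
  have b : ∀ p ∈ Cls (ρ₀ - 2 * Θ) (8 * θ) (8 * Θ) ∩ D.S,
      ENNReal.ofReal ((F (D.Psi K c (pt 0 p.1)) - F (D.Psi K c (pt 0 p.2))) ^ 2) ≤
      ENNReal.ofReal M * (ENNReal.ofReal (L (D.Psi K c (pt 0 p.1)) ^ 2 * Θ ^ 2) *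
        ENNReal.ofReal (cost A V Θ D.vz D.v₁ D.h p) +
        ENNReal.ofReal (S p.1 ^ 2) * ENNReal.ofReal ((D.T p.1 - D.T p.2) ^ 2) +
        ENNReal.ofReal (S p.1 ^ 2) * ENNReal.ofReal ((D.T (p.1 + K * θ) - D.T (p.1 - K * θ)) ^ 2) +
        ENNReal.ofReal (S p.1 ^ 2) *
          ENNReal.ofReal ((D.T (p.2 + K * θ) - D.T (p.2 - K * θ)) ^ 2)) := by
    intro p hp
    refine (ENNReal.ofReal_le_ofReal (A6_pt D h hI hp.1.2.2.2)).trans ?_
    rw [← hM, ENNReal.ofReal_mul M0, ← ENNReal.ofReal_mul (p := _ * Θ ^ 2) (by positivity),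
      ← ENNReal.ofReal_mul (p := S p.1 ^ 2) (sq_nonneg _),
      ← ENNReal.ofReal_mul (p := S p.1 ^ 2) (sq_nonneg _),
      ← ENNReal.ofReal_mul (p := S p.1 ^ 2) (sq_nonneg _)]
    exact mul_le_mul_right (ENNReal.ofReal_add_le.trans (add_le_add_left
      (ENNReal.ofReal_add_le.trans (add_le_add_left ENNReal.ofReal_add_le _)) _)) _
  have j := setLIntegral_mono' (μ := μ) hE b
  have g2 : Measurable fun p : ℝ × ℝ => ENNReal.ofReal (S p.1 ^ 2) *
      ENNReal.ofReal ((D.T p.1 - D.T p.2) ^ 2) := hS2.mul hg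
  have g3 : Measurable fun p : ℝ × ℝ => ENNReal.ofReal (S p.1 ^ 2) *
      ENNReal.ofReal ((D.T (p.1 + K * θ) - D.T (p.1 - K * θ)) ^ 2) :=
    hS2.mul (hω.comp measurable_fst)
  have g4 : Measurable fun p : ℝ × ℝ => ENNReal.ofReal (S p.1 ^ 2) *
      ENNReal.ofReal ((D.T (p.2 + K * θ) - D.T (p.2 - K * θ)) ^ 2) :=
    hS2.mul (hω.comp measurable_snd)
  rw [lintegral_const_mul' _ _ ENNReal.ofReal_ne_top, lintegral_add_right _ g4,
    lintegral_add_right _ g3, lintegral_add_right _ g2] at j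
  have f1 : Fl Θ S ≤ Lay L (4 * Θ + c * Θ * dep D.v₁ (4 * Θ / θ) / V) + Fl Θ S := le_add_self
  have j2 := j.trans (mul_le_mul_right (add_le_add (add_le_add (add_le_add
    (i1.trans (mul_le_mul_right (le_self_add (b := Fl Θ S)) _))
    (i2.trans (mul_le_mul_right f1 _))) (i3.trans (mul_le_mul_right f1 _)))
    (i4.trans (mul_le_mul_right f1 _))) _)
  rw [← add_mul, ← add_mul, ← add_mul, ← mul_assoc,
    ← ENNReal.ofReal_add (by positivity) (by positivity),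
    ← ENNReal.ofReal_add (by positivity) (by positivity),
    ← ENNReal.ofReal_add (by positivity) (by positivity), ← ENNReal.ofReal_mul M0] at j2
  have e := A6_swap hμ hE fun p =>
    ENNReal.ofReal ((F (D.Psi K c (pt 0 p.1)) - F (D.Psi K c (pt 0 p.2))) ^ 2)
  have e2 : ∫⁻ p in Prod.swap ⁻¹' (Cls (ρ₀ - 2 * Θ) (8 * θ) (8 * Θ) ∩ D.S),
      ENNReal.ofReal ((F (D.Psi K c (pt 0 p.1)) - F (D.Psi K c (pt 0 p.2))) ^ 2) ∂μ =
      ∫⁻ p in Cls (ρ₀ - 2 * Θ) (8 * θ) (8 * Θ) ∩ D.S,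
      ENNReal.ofReal ((F (D.Psi K c (pt 0 p.1)) - F (D.Psi K c (pt 0 p.2))) ^ 2) ∂μ := by
    rw [← e]
    exact lintegral_congr fun p => congrArg ENNReal.ofReal (sub_sq_comm _ _)
  have hsub : Cls (ρ₀ - 2 * Θ) (8 * θ) (8 * Θ) ⊆ Cls (ρ₀ - 2 * Θ) (8 * θ) (8 * Θ) ∩ D.S ∪
      Prod.swap ⁻¹' (Cls (ρ₀ - 2 * Θ) (8 * θ) (8 * Θ) ∩ D.S) := by
    intro p hp
    rw [preimage_inter, A6_Cls_swap]
    exact (D.S_cov p).imp (fun q => ⟨hp, q⟩) fun q => ⟨hp, q⟩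
  refine (lintegral_mono_set hsub).trans ((lintegral_union_le _ _ _).trans ?_)
  rw [e2]
  refine (add_le_add j2 j2).trans ?_
  rw [← add_mul, ← ENNReal.ofReal_add (by positivity) (by positivity),
    abs_of_nonneg (by positivity : 0 ≤ 2 * M * (C₁ + C₂ + C₃ + C₄))]
  exact mul_le_mul_left (ENNReal.ofReal_le_ofReal (le_of_eq (by ring))) _

end Pool.Agent.Work.MP_042f46_an.Fu
end
end

-- merged part: Pool.Agent.Work.MP_042f46_an.F.A7
section
/-!
# The two kinds of steps and the first function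

Plans.  `step_ld`: `K = 10 ^ 18 A`, `c = 1 / (exp 60 A)`, `a₀ = 10 ^ 9`, `V₀ = (A + 1) log (4 K)`; collect `step_inv`, `step_en`, `step_out`, `f t = dep v₁ (h t) / V`.
`step_id`: `|F (pt 0 p.1) - F (pt 0 p.2)| ≤ S p.1 exp 8 (8 Θ)`, `tile2` with `η = θ`.
`init`: `s i = 2 ^ i s₀`, `s₀ = (m + 2) Θ`, `F z = (∑ i < n, clamp (2 - ‖z‖ / s i)) / n`, `L z = (∑ i < n, exp 5 / s i exp (-(|re z| + |im z|) / s i)) / n`, `S t = (∑ i < n, exp 5 / s i exp (-|t| / s i)) / n`.  `TP` with `r = s₀`: if term `i` differs at `z` and `z'` then `‖z‖ ≤ 3 s i`, `|re z| + |im z| ≤ 5 s i`.  The product of terms `i ≤ j` is at most `exp 10 / (s i s j) exp (-(|re| + |im|) / s i)`, with integral at most `4 exp 10 2⁻¹ ^ (j - i)`; so `Eg L ≤ 16 exp 10 / n`; in the same way `Fl Θ S ≤ 8 exp 10 / n`.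
-/

open Set Metric Topology Filter MeasureTheory
open scoped ENNReal NNReal

noncomputable section
namespace Pool.Agent.Work.MP_042f46_an.Fu

open Pool.Agent.Work.MP_042f46_an.Ty

theorem step_ld {A : ℝ} (hA : 1 ≤ A) : ∃ a₀ V₀ B : ℝ, 1 ≤ a₀ ∧ 0 ≤ B ∧
    ∀ {V ρ₀ Θ θ : ℝ} {μ μ' : Measure (ℝ × ℝ)} [SFinite μ], V₀ ≤ V → 0 < θ → a₀ * θ ≤ Θ →
      Nonempty (LD A V ρ₀ Θ θ μ μ') → μ.map Prod.swap = μ → KB ρ₀ θ (A * V) μ →
      ∀ {F L : ℂ → ℝ} {S : ℝ → ℝ}, Inv Θ F L S →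
        ∃ Ψ L' S' Y f, Stp B V ρ₀ Θ θ μ μ' F L S Ψ L' S' Y (1 / 4) f := by
  obtain ⟨K, hK⟩ : ∃ K : ℝ, K = 10 ^ 18 * A := ⟨_, rfl⟩
  obtain ⟨c, hc⟩ : ∃ c : ℝ, c = 1 / (Real.exp 60 * A) := ⟨_, rfl⟩
  obtain ⟨B₁, hB₁, hout⟩ := step_out (A := A) (K := K) (c := c)
  have hA0 : 0 < A := by linarith
  have hK1 : 1000 ≤ K := by rw [hK]; nlinarith
  have hl1 : 1 ≤ Real.log (4 * K) := by
    rw [Real.le_log_iff_exp_le (by linarith)]
    linarith [Real.exp_one_lt_d9]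
  have hl2 : Real.log K ≤ Real.log (4 * K) := Real.log_le_log (by linarith) (by linarith)
  have he : 2 ≤ Real.exp 60 := by linarith [Real.add_one_le_exp (60 : ℝ)]
  have hB₂ : 0 ≤ Real.exp 60 * A ^ 2 := by positivity
  refine ⟨10 ^ 9, (A + 1) * Real.log (4 * K), B₁ + Real.exp 60 * A ^ 2, by norm_num,
    by positivity, ?_⟩
  intro V ρ₀ Θ θ μ μ' _ hV hθ ha ⟨D⟩ hμ hKB F L S hF
  have hV1 : Real.log (4 * K) ≤ V := by nlinarith
  have hP : Par A V Θ θ K c :=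
    { A_ge := hA
      V_ge := hl1.trans hV1
      θ_pos := hθ
      a_ge := by nlinarith
      K_ge := hK1
      K_le := hl2.trans hV1
      c_pos := by rw [hc]; positivity
      c_le := by
        rw [hc]
        exact one_div_le_one_div_of_le (by positivity) (mul_le_mul_of_nonneg_right he hA0.le) }
  have hV0 : 0 ≤ V := zero_le_one.trans hP.V_ge
  obtain ⟨S', h1, h2⟩ := D.step_inv hP ha hK.ge hF
  have hh : Continuous D.h := by
    refine (LipschitzWith.of_dist_le_mul (K := ⟨1 / θ, by positivity⟩) fun s t => ?_).continuous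
    rw [Real.dist_eq, Real.dist_eq]
    refine (D.h_lip s t).trans (le_of_eq ?_)
    show _ = 1 / θ * _
    ring
  refine ⟨D.Psi K c, _, S', 4 * Θ + c * Θ * dep D.v₁ (4 * Θ / θ) / V,
    fun t => dep D.v₁ (D.h t) / V, h1, fun z hz => le_trans hz (D.Psi_re_ge hP z), by norm_num,
    Or.inl le_rfl, ?_, h2, fun z hz => D.Psi_im hP hz, fun z _ => D.Psi_re_ge hP z,
    fun z hz t ht => D.Psi_re_le hP hz ht, ?_, fun t => div_nonneg (le_max_left _ _) hV0,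
    D.tail, D.tail', ?_⟩
  · refine (D.step_en hP hc.le hF).trans ?_
    gcongr
    linarith
  · exact (measurable_const.max ((Real.measurable_log.comp hh.measurable).sub_const _)).div_const V
  · refine (hout D hP (by linarith) hμ hKB hF).trans ?_
    gcongr
    linarith

theorem step_id {A a₀ : ℝ} (hA : 1 ≤ A) (ha : 1 ≤ a₀) : ∃ B : ℝ, 0 ≤ B ∧
    ∀ {V ρ₀ Θ θ : ℝ} {μ μ' : Measure (ℝ × ℝ)} [SFinite μ], 0 ≤ V → 0 < θ → θ ≤ Θ → Θ ≤ a₀ * θ →
      KB ρ₀ θ (A * V) μ → ∀ {F L : ℂ → ℝ} {S : ℝ → ℝ}, Inv Θ F L S →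
        Stp B V ρ₀ Θ θ μ μ' F L S id L S 0 (θ / Θ) fun _ => 0 := by
  have hA0 : 0 < A := by linarith
  have ha0 : 0 < a₀ := by linarith
  refine ⟨(Real.exp 8 * 8) ^ 2 * Real.exp 4 * A * a₀, by positivity, ?_⟩
  intro V ρ₀ Θ θ μ μ' _ hV hθ h1 h2 hKB F L S hF
  have hΘ : 0 < Θ := hθ.trans_le h1
  have hx : ∀ x : ℝ, 0 ≤ x → Real.exp (x / Θ) ≤ Real.exp (x / θ) := fun x hx =>
    Real.exp_le_exp.2 (div_le_div_of_nonneg_left hx hθ h1)
  have hL0 : Lay L 0 = 0 := by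
    have : {z : ℂ | 0 < z.re ∧ z.re < 0} = ∅ :=
      eq_empty_of_forall_notMem fun z hz => lt_asymm hz.1 hz.2
    rw [Lay, this, Measure.restrict_empty, lintegral_zero_measure]
  have hT : ∀ ν : Measure (ℝ × ℝ), Tail ρ₀ Θ (fun _ => 0) ν := fun ν t _ Y _ _ => by simp
  refine ⟨⟨hF.L_nonneg, hF.L_meas, hF.S_meas, fun z hz z' hz' => (hF.slow z hz z' hz').trans
      (mul_le_mul_of_nonneg_left (hx _ (norm_nonneg _)) (hF.L_nonneg z)),
    fun z hz z' hz' => (hF.lip z hz z' hz').trans (mul_le_mul_of_nonneg_right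
      (mul_le_mul_of_nonneg_left (hx _ (norm_nonneg _)) (hF.L_nonneg z)) (norm_nonneg _)),
    hF.L_le, fun t t' => (hF.S_slow t t').trans
      (mul_le_mul_of_nonneg_left (hx _ (abs_nonneg _)) (hF.S_nonneg t)), hF.S_bdd⟩,
    fun z hz => hz, by positivity, Or.inr rfl, ?_, le_of_eq ?_, fun z _ => ?_, fun z _ => le_rfl,
    fun z _ t _ => ?_, measurable_const, fun _ => le_rfl, hT μ, hT μ', ?_⟩
  · rw [hL0]
    gcongr
    exact zero_le
  · rw [Fl, Fl, ← mul_assoc, ← ENNReal.ofReal_mul (by positivity), div_mul_cancel₀ _ hΘ.ne']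
  · simp only [id, sub_self, abs_zero]
    positivity
  · have : θ / Θ * (z.re / θ) = z.re / Θ := by field_simp
    simp only [id, this]
    linarith
  · let G : Set (ℝ × ℝ) := {p | 2 * θ ≤ |p.1 - p.2|}
    have hG : MeasurableSet G :=
      measurableSet_le measurable_const (measurable_fst.sub measurable_snd).abs
    have hI : ∀ t, MeasurableSet {p : ℝ × ℝ | p.1 ∈ Icc t (t + θ)} := fun t =>
      measurable_fst measurableSet_Icc
    have k1 := tile2 (ρ := ρ₀) hθ (by linarith : θ ≤ 2 * Θ) hF.S_meas hF.S_nonneg hF.S_slow μ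
      (g := G.indicator 1) (measurable_one.indicator hG) (β := fun _ => ENNReal.ofReal (A * V))
      measurable_const fun t ht => by
        rw [lintegral_indicator_one hG, Measure.restrict_apply hG, inter_comm]
        exact hKB t ht
    have hC : MeasurableSet (Cls (ρ₀ - 2 * Θ) (8 * θ) (8 * Θ)) :=
      (measurableSet_le measurable_fst.abs measurable_const).inter
        ((measurableSet_le measurable_snd.abs measurable_const).inter
          ((measurableSet_le measurable_const (measurable_fst.sub measurable_snd).abs).inter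
            (measurableSet_lt (measurable_fst.sub measurable_snd).abs measurable_const)))
    have k2 : ∀ p ∈ Cls (ρ₀ - 2 * Θ) (8 * θ) (8 * Θ),
        ENNReal.ofReal ((F (id (pt 0 p.1)) - F (id (pt 0 p.2))) ^ 2) ≤
          ENNReal.ofReal ((Real.exp 8 * 8 * Θ) ^ 2) *
            (ENNReal.ofReal (S p.1 ^ 2) * G.indicator 1 p) := by
      intro p hp
      have e1 : p ∈ G := le_trans (by linarith) hp.2.2.1
      have e2 : ‖pt 0 p.1 - pt 0 p.2‖ = |p.1 - p.2| := by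
        have : pt 0 p.1 - pt 0 p.2 = ((p.1 - p.2 : ℝ) : ℂ) * Complex.I := by
          apply Complex.ext <;> simp [pt]
        rw [this, norm_mul, Complex.norm_I, mul_one, Complex.norm_real, Real.norm_eq_abs]
      have e3 := hF.lip (pt 0 p.1) (le_refl (0 : ℝ)) (pt 0 p.2) (le_refl (0 : ℝ))
      have e4 : L (pt 0 p.1) ≤ S p.1 := hF.L_le (pt 0 p.1) (le_refl (0 : ℝ))
      have e5 : Real.exp (|p.1 - p.2| / Θ) ≤ Real.exp 8 :=
        Real.exp_le_exp.2 ((div_le_iff₀ hΘ).2 hp.2.2.2.le)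
      have e6 := hF.S_nonneg p.1
      have e7 : |F (pt 0 p.1) - F (pt 0 p.2)| ≤ Real.exp 8 * 8 * Θ * S p.1 := by
        rw [e2] at e3
        refine e3.trans (le_of_le_of_eq (b := S p.1 * Real.exp 8 * (8 * Θ)) ?_ (by ring))
        have := hp.2.2.2.le
        gcongr
      rw [indicator_of_mem e1, Pi.one_apply, mul_one, ← ENNReal.ofReal_mul (by positivity),
        ← mul_pow]
      refine ENNReal.ofReal_le_ofReal ?_
      rw [← sq_abs]
      exact pow_le_pow_left₀ (abs_nonneg _) e7 2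
    refine (setLIntegral_mono' hC k2).trans ?_
    rw [lintegral_const_mul' _ _ ENNReal.ofReal_ne_top, hL0, zero_add]
    have k3 : Cls (ρ₀ - 2 * Θ) (8 * θ) (8 * Θ) ⊆ {p : ℝ × ℝ | |p.1| ≤ ρ₀ - θ} := fun p hp =>
      le_trans hp.1 (by linarith)
    refine (mul_le_mul_right ((lintegral_mono_set k3).trans k1) _).trans ?_
    rw [lintegral_mul_const' _ _ ENNReal.ofReal_ne_top, Fl, mul_comm _ (ENNReal.ofReal (A * V)),
      ← mul_assoc, ← mul_assoc, ← mul_assoc, ← ENNReal.ofReal_mul (by positivity),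
      ← ENNReal.ofReal_mul (by positivity), ← ENNReal.ofReal_mul (by positivity)]
    refine mul_le_mul_left (ENNReal.ofReal_le_ofReal ?_) _
    have k4 : Θ / θ ≤ a₀ := (div_le_iff₀ hθ).2 h2
    calc _ = (Real.exp 8 * 8) ^ 2 * Real.exp 4 * A * (Θ / θ) * V * Θ := by ring
      _ ≤ _ := by gcongr

theorem Stp.mono {B B' V ρ₀ Θ θ : ℝ} {μ μ' : Measure (ℝ × ℝ)} {F L : ℂ → ℝ} {S : ℝ → ℝ}
    {Ψ : ℂ → ℂ} {L' : ℂ → ℝ} {S' : ℝ → ℝ} {Y r : ℝ} {f : ℝ → ℝ} (hV : 0 ≤ V) (hB : B ≤ B')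
    (h : Stp B V ρ₀ Θ θ μ μ' F L S Ψ L' S' Y r f) : Stp B' V ρ₀ Θ θ μ μ' F L S Ψ L' S' Y r f :=
  { h with
    en := h.en.trans (by gcongr)
    out := h.out.trans (by gcongr) }

/-- squares of sums with geometrically decaying bounds -/
theorem A7_sq (n : ℕ) : ∀ (b : ℝ) (u : ℕ → ℝ), 0 ≤ b → (∀ i, 0 ≤ u i ∧ u i ≤ b / 2 ^ i) →
    ∑ i ∈ Finset.range n, u i ≤ 2 * b ∧
      (∑ i ∈ Finset.range n, u i) ^ 2 ≤ 4 * ∑ i ∈ Finset.range n, u i * (b / 2 ^ i) := by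
  induction n with
  | zero => intro b u hb _; simpa using hb
  | succ n ih =>
    intro b u hb h
    have e : ∀ i : ℕ, b / 2 ^ (i + 1) = b / 2 / 2 ^ i := fun i => by
      rw [pow_succ, div_div, mul_comm]
    obtain ⟨h1, h2⟩ := ih (b / 2) (fun i => u (i + 1)) (by positivity) fun i =>
      ⟨(h _).1, e i ▸ (h _).2⟩
    have h3 := h 0
    have h4 : 0 ≤ ∑ i ∈ Finset.range n, u (i + 1) := Finset.sum_nonneg fun i _ => (h _).1
    rw [pow_zero, div_one] at h3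
    rw [Finset.sum_range_succ', Finset.sum_range_succ']
    simp only [e, pow_zero, div_one]
    refine ⟨by linarith [h3.2], ?_⟩
    nlinarith [mul_le_mul_of_nonneg_left h1 h3.1, mul_le_mul_of_nonneg_left h3.2 h3.1,
      mul_nonneg h3.1 hb]

/-- radial profile of the first majorants -/
def A7_G (n : ℕ) (s r : ℝ) : ℝ :=
  Real.exp 6 / n * ∑ i ∈ Finset.range n, Real.exp (-r / (2 ^ i * s)) / (2 ^ i * s)

theorem A7_G_nonneg (n : ℕ) {s : ℝ} (hs : 0 < s) (r : ℝ) : 0 ≤ A7_G n s r :=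
  mul_nonneg (by positivity) (Finset.sum_nonneg fun _ _ => by positivity)

theorem A7_G_cont (n : ℕ) (s : ℝ) : Continuous (A7_G n s) := by
  unfold A7_G
  fun_prop

theorem A7_G_slow (n : ℕ) {s : ℝ} (hs : 0 < s) {r r' d : ℝ} (hd : 0 ≤ d) (h : r - r' ≤ d * s) :
    A7_G n s r' ≤ A7_G n s r * Real.exp d := by
  rw [A7_G, A7_G, mul_assoc, Finset.sum_mul]
  refine mul_le_mul_of_nonneg_left (Finset.sum_le_sum fun i _ => ?_) (by positivity)
  have h1 : (0 : ℝ) < 2 ^ i * s := by positivity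
  have h2 : s ≤ 2 ^ i * s := le_mul_of_one_le_left hs.le (one_le_pow₀ one_le_two)
  rw [div_mul_eq_mul_div, ← Real.exp_add]
  refine div_le_div_of_nonneg_right (Real.exp_le_exp.2 ?_) h1.le
  rw [div_add' _ _ _ h1.ne']
  refine div_le_div_of_nonneg_right ?_ h1.le
  linarith [mul_le_mul_of_nonneg_left h2 hd]

theorem A7_G_anti (n : ℕ) {s : ℝ} (hs : 0 < s) {r r' : ℝ} (h : r ≤ r') :
    A7_G n s r' ≤ A7_G n s r := by
  simpa using A7_G_slow n hs (r := r) (r' := r') le_rfl (by linarith)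

theorem A7_int {α : Type*} [MeasurableSpace α] (μ : Measure α) {ρ : α → ℝ} (hρ : Measurable ρ)
    (h0 : ∀ x, 0 ≤ ρ x) {n : ℕ} (hn : 0 < n) {s J : ℝ} (hs : 0 < s) (hJ : 0 ≤ J)
    (h : ∀ a : ℝ, s ≤ a →
      ∫⁻ x, ENNReal.ofReal (Real.exp (-ρ x / a)) ∂μ ≤ ENNReal.ofReal (J * a ^ 2)) :
    ∫⁻ x, ENNReal.ofReal (A7_G n s (ρ x) ^ 2) ∂μ ≤
      ENNReal.ofReal (4 * Real.exp 6 ^ 2 * J / n) := by
  have hn' : (0 : ℝ) < n := by exact_mod_cast hn
  have h1 : ∀ x, ENNReal.ofReal (A7_G n s (ρ x) ^ 2) ≤ ∑ i ∈ Finset.range n,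
      ENNReal.ofReal (4 * (Real.exp 6 / n) ^ 2 / (2 ^ i * s) ^ 2) *
        ENNReal.ofReal (Real.exp (-ρ x / (2 ^ i * s))) := by
    intro x
    have e : ∀ i : ℕ, 1 / s / 2 ^ i = 1 / (2 ^ i * s) := fun i => by rw [div_div, mul_comm]
    have k := (A7_sq n (1 / s) (fun i => Real.exp (-ρ x / (2 ^ i * s)) / (2 ^ i * s))
      (by positivity) fun i => ⟨by positivity, by
        rw [e]
        refine div_le_div_of_nonneg_right (Real.exp_le_one_iff.2 ?_) (by positivity)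
        exact div_nonpos_of_nonpos_of_nonneg (neg_nonpos.2 (h0 x)) (by positivity)⟩).2
    rw [Finset.sum_congr rfl fun i _ => (ENNReal.ofReal_mul (by positivity)).symm,
      ← ENNReal.ofReal_sum_of_nonneg fun i _ => by positivity]
    refine ENNReal.ofReal_le_ofReal ?_
    rw [A7_G, mul_pow]
    refine (mul_le_mul_of_nonneg_left k (by positivity)).trans (le_of_eq ?_)
    rw [Finset.mul_sum, Finset.mul_sum]
    refine Finset.sum_congr rfl fun i _ => ?_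
    rw [e]
    ring
  refine (lintegral_mono h1).trans ?_
  rw [lintegral_finsetSum _ fun i _ => by fun_prop]
  have h2 : ∀ i ∈ Finset.range n,
      ∫⁻ x, ENNReal.ofReal (4 * (Real.exp 6 / n) ^ 2 / (2 ^ i * s) ^ 2) *
        ENNReal.ofReal (Real.exp (-ρ x / (2 ^ i * s))) ∂μ ≤
        ENNReal.ofReal (4 * (Real.exp 6 / n) ^ 2 * J) := by
    intro i _
    rw [lintegral_const_mul' _ _ ENNReal.ofReal_ne_top]
    refine (mul_le_mul_right (h _ (le_mul_of_one_le_left hs.le (one_le_pow₀ one_le_two))) _).trans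
      ?_
    rw [← ENNReal.ofReal_mul (by positivity)]
    refine ENNReal.ofReal_le_ofReal (le_of_eq ?_)
    field_simp
  refine (Finset.sum_le_sum h2).trans ?_
  rw [← ENNReal.ofReal_sum_of_nonneg fun i _ => by positivity, Finset.sum_const, Finset.card_range,
    nsmul_eq_mul]
  refine ENNReal.ofReal_le_ofReal (le_of_eq ?_)
  field_simp

theorem A7_line {a : ℝ} (ha : 0 < a) :
    ∫⁻ t : ℝ, ENNReal.ofReal (Real.exp (-|t| / a)) = ENNReal.ofReal (2 * a) := by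
  have h1 : (0 : ℝ) < 1 / a := by positivity
  have h2 : -(1 / a) < 0 := by linarith
  rw [← lintegral_add_compl _ (measurableSet_Iic (a := (0 : ℝ))), compl_Iic,
    setLIntegral_congr_fun measurableSet_Iic
      (g := fun t => ENNReal.ofReal (Real.exp (1 / a * t))) fun t ht => by
        simp only [abs_of_nonpos (mem_Iic.1 ht), neg_neg]
        rw [one_div, inv_mul_eq_div],
    setLIntegral_congr_fun measurableSet_Ioi
      (g := fun t => ENNReal.ofReal (Real.exp (-(1 / a) * t))) fun t ht => by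
        simp only [abs_of_pos (mem_Ioi.1 ht)]
        rw [one_div, neg_mul, inv_mul_eq_div, neg_div],
    ← ofReal_integral_eq_lintegral_ofReal (integrableOn_exp_mul_Iic h1 0)
      (Eventually.of_forall fun _ => (Real.exp_pos _).le),
    ← ofReal_integral_eq_lintegral_ofReal (integrableOn_exp_mul_Ioi h2 0)
      (Eventually.of_forall fun _ => (Real.exp_pos _).le),
    integral_exp_mul_Iic h1, integral_exp_mul_Ioi h2, mul_zero, mul_zero, Real.exp_zero,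
    neg_div_neg_eq, one_div_one_div, ← ENNReal.ofReal_add ha.le ha.le, two_mul]

theorem A7_plane {a : ℝ} (ha : 0 < a) :
    ∫⁻ z : ℂ, ENNReal.ofReal (Real.exp (-(|z.re| + |z.im|) / a)) = ENNReal.ofReal (4 * a ^ 2) := by
  have h := Complex.volume_preserving_equiv_real_prod.lintegral_comp_emb
    Complex.measurableEquivRealProd.measurableEmbedding fun p : ℝ × ℝ =>
      ENNReal.ofReal (Real.exp (-|p.1| / a)) * ENNReal.ofReal (Real.exp (-|p.2| / a))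
  have hm : Measurable fun t : ℝ => ENNReal.ofReal (Real.exp (-|t| / a)) := by fun_prop
  rw [Measure.volume_eq_prod, lintegral_prod_mul hm.aemeasurable hm.aemeasurable, A7_line ha,
    ← ENNReal.ofReal_mul (by positivity)] at h
  rw [show 4 * a ^ 2 = 2 * a * (2 * a) by ring, ← h]
  refine lintegral_congr fun z => ?_
  rw [← ENNReal.ofReal_mul (Real.exp_pos _).le, ← Real.exp_add, neg_add, add_div]
  rfl

/-- one term of the first function -/
theorem A7_term {s a : ℝ} (hs : s ≤ a) (ha : 0 < a) {z z' : ℂ} (h : ‖z - z'‖ ≤ s) :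
    |clamp (2 - ‖z‖ / a) - clamp (2 - ‖z'‖ / a)| ≤
      Real.exp 6 * (Real.exp (-(|z.re| + |z.im|) / a) / a) * ‖z - z'‖ := by
  rcases le_or_gt ‖z‖ (3 * a) with hz | hz
  · have h1 := lipschitz_clamp.dist_le_mul (2 - ‖z‖ / a) (2 - ‖z'‖ / a)
    rw [NNReal.coe_one, one_mul, Real.dist_eq, Real.dist_eq] at h1
    have h2 : |2 - ‖z‖ / a - (2 - ‖z'‖ / a)| ≤ 1 / a * ‖z - z'‖ := by
      rw [show 2 - ‖z‖ / a - (2 - ‖z'‖ / a) = 1 / a * (‖z'‖ - ‖z‖) by ring, abs_mul,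
        abs_of_pos (by positivity : 0 < 1 / a), abs_sub_comm]
      exact mul_le_mul_of_nonneg_left (abs_norm_sub_norm_le _ _) (by positivity)
    refine (h1.trans h2).trans (mul_le_mul_of_nonneg_right ?_ (norm_nonneg _))
    rw [← mul_div_assoc, ← Real.exp_add]
    refine div_le_div_of_nonneg_right (Real.one_le_exp ?_) ha.le
    have h3 : (|z.re| + |z.im|) / a ≤ 6 := by
      rw [div_le_iff₀ ha]
      linarith [Complex.abs_re_le_norm z, Complex.abs_im_le_norm z]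
    rw [neg_div]
    linarith
  · have h1 : 2 * a ≤ ‖z'‖ := by linarith [norm_sub_norm_le z z']
    rw [clamp_zero (sub_nonpos.2 ((le_div_iff₀ ha).2 (by linarith))),
      clamp_zero (sub_nonpos.2 ((le_div_iff₀ ha).2 h1)), sub_self, abs_zero]
    positivity

theorem init {ε : ℝ} (hε : 0 < ε) {m : ℝ} (hm : 1 ≤ m) : ∃ M : ℝ, m ≤ M ∧ ∀ Θ : ℝ, 0 < Θ →
    ∃ (F L : ℂ → ℝ) (S : ℝ → ℝ), Inv Θ F L S ∧ (∀ z, F z ∈ Icc (0 : ℝ) 1) ∧
      (∀ z, ‖z‖ ≤ m * Θ → F z = 1) ∧ (∀ z, F z ≠ 0 → ‖z‖ < M * Θ) ∧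
      Eg L ≤ ENNReal.ofReal ε ∧ Fl Θ S ≤ ENNReal.ofReal ε := by
  obtain ⟨n, hn⟩ := exists_nat_gt (16 * Real.exp 6 ^ 2 / ε)
  have hn' : (0 : ℝ) < n := lt_trans (by positivity) hn
  have hn0 : 0 < n := by exact_mod_cast hn'
  have hε' : 16 * Real.exp 6 ^ 2 / n ≤ ε := by
    rw [div_lt_iff₀ hε] at hn
    rw [div_le_iff₀ hn']
    linarith
  have h2n : (1 : ℝ) ≤ 2 ^ n := one_le_pow₀ one_le_two
  refine ⟨2 ^ n * (m + 2), by nlinarith, fun Θ hΘ => ?_⟩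
  obtain ⟨s, hs⟩ : ∃ s : ℝ, s = (m + 2) * Θ := ⟨_, rfl⟩
  have s1 : 2 * Θ ≤ s := by rw [hs]; nlinarith
  have s2 : m * Θ ≤ s := by rw [hs]; nlinarith
  have s0 : 0 < s := by linarith
  have si : ∀ i : ℕ, s ≤ 2 ^ i * s := fun i => le_mul_of_one_le_left s0.le (one_le_pow₀ one_le_two)
  have sd : ∀ x : ℝ, 0 ≤ x → 2 * x ≤ x / Θ * s := fun x hx => by
    rw [div_mul_eq_mul_div, le_div_iff₀ hΘ]
    nlinarith
  have hsl : Slow Θ fun z : ℂ => A7_G n s (|z.re| + |z.im|) := fun z _ z' _ => by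
    refine A7_G_slow n s0 (by positivity) (le_trans ?_ (sd _ (norm_nonneg _)))
    have k1 := Complex.abs_re_le_norm (z - z')
    have k2 := Complex.abs_im_le_norm (z - z')
    rw [Complex.sub_re] at k1
    rw [Complex.sub_im] at k2
    linarith [abs_sub_abs_le_abs_sub z.re z'.re, abs_sub_abs_le_abs_sub z.im z'.im]
  refine ⟨fun z => (∑ i ∈ Finset.range n, clamp (2 - ‖z‖ / (2 ^ i * s))) / n,
    fun z => A7_G n s (|z.re| + |z.im|), fun t => A7_G n s |t|,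
    ⟨fun z => A7_G_nonneg n s0 _, ((A7_G_cont n s).comp (by fun_prop)).measurable,
      ((A7_G_cont n s).comp continuous_abs).measurable, hsl,
      TP hΘ s0 (fun z => A7_G_nonneg n s0 _) hsl fun z _ z' _ hz => ?_,
      fun z _ => A7_G_anti n s0 (le_add_of_nonneg_left (abs_nonneg _)), fun t t' => ?_,
      A7_G n s 0, fun t => A7_G_anti n s0 (abs_nonneg t)⟩,
    fun z => ⟨div_nonneg (Finset.sum_nonneg fun i _ => (clamp_mem _).1) hn'.le, ?_⟩,
    fun z hz => ?_, fun z hz => ?_, ?_, ?_⟩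
  · have k1 : A7_G n s (|z.re| + |z.im|) * ‖z - z'‖ ≤
        A7_G n s (|z.re| + |z.im|) * Real.exp (‖z - z'‖ / Θ) * ‖z - z'‖ :=
      mul_le_mul_of_nonneg_right (le_mul_of_one_le_right (A7_G_nonneg n s0 _)
        (Real.one_le_exp (by positivity))) (norm_nonneg _)
    refine le_trans ?_ k1
    rw [← sub_div, ← Finset.sum_sub_distrib, abs_div, abs_of_pos hn', div_le_iff₀ hn']
    refine ((Finset.abs_sum_le_sum_abs _ _).trans (Finset.sum_le_sum fun i _ =>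
      A7_term (si i) (by positivity) hz)).trans (le_of_eq ?_)
    rw [← Finset.sum_mul, ← Finset.mul_sum, A7_G, mul_right_comm _ _ (n : ℝ),
      mul_right_comm _ _ (n : ℝ), div_mul_cancel₀ _ hn'.ne']
  · refine A7_G_slow n s0 (by positivity) (le_trans ?_ (sd _ (abs_nonneg _)))
    linarith [abs_sub_abs_le_abs_sub t t', abs_nonneg (t - t')]
  · rw [div_le_one hn']
    refine (Finset.sum_le_sum fun i _ => (clamp_mem _).2).trans ?_
    simp
  · rw [div_eq_one_iff_eq hn'.ne', Finset.sum_congr rfl fun i _ => clamp_one (s :=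
      2 - ‖z‖ / (2 ^ i * s)) (by
        have : ‖z‖ / (2 ^ i * s) ≤ 1 := (div_le_one (by positivity)).2 ((hz.trans s2).trans (si i))
        linarith)]
    simp
  · by_contra hc
    refine hz ?_
    rw [not_lt, mul_assoc, ← hs] at hc
    simp only
    rw [Finset.sum_eq_zero fun i hi => clamp_zero (sub_nonpos.2 ((le_div_iff₀ (by positivity)).2
      (le_trans ?_ hc))), zero_div]
    rw [← mul_assoc, ← pow_succ']
    exact mul_le_mul_of_nonneg_right (pow_le_pow_right₀ one_le_two (Finset.mem_range.1 hi)) s0.le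
  · refine (setLIntegral_le_lintegral _ _).trans ((A7_int volume
      (ρ := fun z : ℂ => |z.re| + |z.im|) (by fun_prop) (fun z => by positivity) hn0 s0
      (J := 4) (by norm_num) fun a ha => (A7_plane (s0.trans_le ha)).le).trans
      (ENNReal.ofReal_le_ofReal (le_of_eq_of_le (by ring) hε')))
  · have k1 := A7_int volume (ρ := fun t : ℝ => |t|) (by fun_prop) abs_nonneg hn0 s0
      (J := 1 / Θ) (by positivity) fun a ha => by
        rw [A7_line (s0.trans_le ha)]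
        refine ENNReal.ofReal_le_ofReal ?_
        rw [one_div, inv_mul_eq_div, le_div_iff₀ hΘ]
        nlinarith
    refine (mul_le_mul_right k1 _).trans ?_
    rw [← ENNReal.ofReal_mul hΘ.le]
    refine ENNReal.ofReal_le_ofReal (le_trans ?_ hε')
    have k2 : Θ * (4 * Real.exp 6 ^ 2 * (1 / Θ) / n) = 4 * Real.exp 6 ^ 2 / n := by field_simp
    rw [k2]
    gcongr
    norm_num

end Pool.Agent.Work.MP_042f46_an.Fu
end
end

-- merged part: Pool.Agent.Work.MP_042f46_an.F.A9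
section
/-!
# The test function

Plan.  `a₀`, `V₀`, `B` from `step_ld` and `step_id` (`Stp.mono`; `V₀ ≥ 1`).  `m - 9 ≥ (4000 A / ε) ^ (1 / 2)`; `init` with a small `ε₀` and `m` gives `M₀`; `M = 2 M₀ + 9`.  By recursion on `k` (dependent choice on triples `F, L, S` with `Inv (θ (g + k)) F L S`) get `F j, L j, S j, Ψ j, Y j, r j, f j` with `Stp B V ρ₀ (θ j) (θ (j + 1)) μ μ' (F j) (L j) (S j) (Ψ j) (L (j + 1)) (S (j + 1)) (Y j) (r j) (f j)` and `F (j + 1) = F j ∘ Ψ j`; so `F (j + n) = F j ∘ Wd Ψ j n`.  `Fl (θ (g + k)) (S (g + k)) ≤ 2 (3 / 4) ^ k ε₀`, their sum is at most `8 ε₀`; `2 Eg (L J) + ∑ j < J, Lay (L j) (Y j) ≤ 2 ε₀ + 8 B ε₀`.  Take `F (g + n)` with `n` so large that `deep` gives at most `ε / 4`.  For the class `8 θ (j + 1) ≤ |Δ| < 8 θ j`, `g ≤ j < g + n`: with `w = Wd Ψ (j + 1) n' (pt 0 t)`, `|F (j + 1) w - F (j + 1) (pt 0 t)| ≤ 9 exp 8 S (j + 1) t θ (j + 1) (1 + Dp f (j + 1) n'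 t)` (go through `pt 0 (im w)`; `Inv.vert`); `(x + y + z) ^ 2 ≤ 3 (…)`, `Stp.out`, and `tile2` with `η = θ (j + 1)` and `Dp_int` for both end points (symmetry).  Total at most `C V ε₀`.  Support and the value one: `Wd_near`; `F (pt 0 t) ≠ 1` forces `m θ g < θ g Dp + 9 θ g`; Chebyshev and `Dp_int` for `μ'` with `s = -θ g` and `s = 0`.
-/

open Set Metric Topology Filter MeasureTheory
open scoped ENNReal NNReal

noncomputable section
namespace Pool.Agent.Work.MP_042f46_an.Fu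

open Pool.Agent.Work.MP_042f46_an.Ty

theorem A9_chain {B V ρ₀ : ℝ} {θ : ℕ → ℝ} {μ μ' : Measure (ℝ × ℝ)}
    (h : ∀ k (F L : ℂ → ℝ) (S : ℝ → ℝ), Inv (θ k) F L S →
      ∃ Ψ L' S' Y r f, Stp B V ρ₀ (θ k) (θ (k + 1)) μ μ' F L S Ψ L' S' Y r f)
    {F0 L0 : ℂ → ℝ} {S0 : ℝ → ℝ} (h0 : Inv (θ 0) F0 L0 S0) :
    ∃ (F L : ℕ → ℂ → ℝ) (S : ℕ → ℝ → ℝ) (Ψ : ℕ → ℂ → ℂ) (Y r : ℕ → ℝ) (f : ℕ → ℝ → ℝ),
      F 0 = F0 ∧ L 0 = L0 ∧ S 0 = S0 ∧ (∀ k, Inv (θ k) (F k) (L k) (S k)) ∧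
      (∀ k, Stp B V ρ₀ (θ k) (θ (k + 1)) μ μ' (F k) (L k) (S k) (Ψ k) (L (k + 1)) (S (k + 1))
        (Y k) (r k) (f k)) ∧ ∀ k z, F (k + 1) z = F k (Ψ k z) := by
  choose! Ψ L' S' Y r f hc using h
  let x : ℕ → (ℂ → ℝ) × (ℂ → ℝ) × (ℝ → ℝ) := fun n => Nat.rec (F0, L0, S0)
    (fun k y => (fun z => y.1 (Ψ k y.1 y.2.1 y.2.2 z), L' k y.1 y.2.1 y.2.2,
      S' k y.1 y.2.1 y.2.2)) n
  have hi : ∀ k, Inv (θ k) (x k).1 (x k).2.1 (x k).2.2 := by
    intro k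
    induction k with
    | zero => exact h0
    | succ k ih => exact (hc k _ _ _ ih).inv
  exact ⟨fun k => (x k).1, fun k => (x k).2.1, fun k => (x k).2.2,
    fun k => Ψ k (x k).1 (x k).2.1 (x k).2.2, fun k => Y k (x k).1 (x k).2.1 (x k).2.2,
    fun k => r k (x k).1 (x k).2.1 (x k).2.2, fun k => f k (x k).1 (x k).2.1 (x k).2.2,
    rfl, rfl, rfl, hi, fun k => hc k _ _ _ (hi k), fun _ _ => rfl⟩

theorem A9_comp {F : ℕ → ℂ → ℝ} {Ψ : ℕ → ℂ → ℂ} (h : ∀ k z, F (k + 1) z = F k (Ψ k z))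
    (j n : ℕ) : ∀ z, F (j + n) z = F j (Wd Ψ j n z) := by
  induction n with
  | zero => intro z; rfl
  | succ n ih => intro z; rw [← add_assoc, h, ih, Wd_succ]

theorem A9_fl {θ : ℕ → ℝ} (h0 : ∀ n, 0 < θ n) (h1 : Antitone θ) (h2 : ∀ n, 2 * θ (n + 2) ≤ θ n)
    {Φ : ℕ → ℝ≥0∞} {r : ℕ → ℝ} (hr : ∀ k, 0 ≤ r k)
    (hr' : ∀ k, r k ≤ 1 / 4 ∨ r k = θ (k + 1) / θ k)
    (h : ∀ k, Φ (k + 1) ≤ ENNReal.ofReal (r k) * Φ k) {ε : ℝ} (hε : 0 ≤ ε)
    (hΦ : Φ 0 ≤ ENNReal.ofReal ε) (k : ℕ) : Φ k ≤ ENNReal.ofReal (2 * (3 / 4) ^ k * ε) := by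
  have a1 : ∀ k, r k ≤ 1 := fun k => by
    rcases hr' k with h3 | h3
    · linarith
    · rw [h3, div_le_one (h0 k)]
      exact h1 (Nat.le_succ k)
  have a2 : ∀ k, r (k + 1) * r k ≤ 1 / 2 := fun k => by
    rcases hr' k with h3 | h3
    · nlinarith [a1 (k + 1), hr (k + 1), hr k]
    rcases hr' (k + 1) with h4 | h4
    · nlinarith [a1 k, hr (k + 1), hr k]
    · have := h0 k
      have := h0 (k + 1)
      have e : r (k + 1) * r k = θ (k + 2) / θ k := by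
        rw [h3, h4]
        field_simp
      rw [e, div_le_iff₀ (h0 k)]
      linarith [h2 k]
  induction k using Nat.twoStepInduction with
  | zero => exact hΦ.trans (ENNReal.ofReal_le_ofReal (by simp only [pow_zero]; linarith))
  | one =>
    refine (h 0).trans ((mul_le_mul' le_rfl hΦ).trans ?_)
    rw [← ENNReal.ofReal_mul (hr 0)]
    exact ENNReal.ofReal_le_ofReal (by nlinarith [a1 0])
  | more k ih _ =>
    refine (h (k + 1)).trans ((mul_le_mul' le_rfl ((h k).trans (mul_le_mul' le_rfl ih))).trans ?_)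
    rw [← ENNReal.ofReal_mul (hr k), ← ENNReal.ofReal_mul (hr (k + 1)), ← mul_assoc]
    refine ENNReal.ofReal_le_ofReal ?_
    have h5 : 0 ≤ (3 / 4 : ℝ) ^ k * ε := by positivity
    have h6 := a2 k
    rw [pow_add]
    nlinarith

theorem A9_sum {ε : ℝ} (hε : 0 ≤ ε) (n : ℕ) :
    ∑ k ∈ Finset.range n, ENNReal.ofReal (2 * (3 / 4) ^ k * ε) ≤ ENNReal.ofReal (8 * ε) := by
  rw [← ENNReal.ofReal_sum_of_nonneg fun k _ => by positivity]
  refine ENNReal.ofReal_le_ofReal ?_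
  have : ∑ k ∈ Finset.range n, 2 * (3 / 4 : ℝ) ^ k * ε = 8 * ε - 8 * (3 / 4) ^ n * ε := by
    induction n with
    | zero => simp
    | succ n ih => rw [Finset.sum_range_succ, ih]; ring
  have h1 : 0 ≤ 8 * (3 / 4 : ℝ) ^ n * ε := by positivity
  linarith

theorem A9_en {E La Φ : ℕ → ℝ≥0∞} {b : ℝ≥0∞}
    (h : ∀ k, 2 * E (k + 1) + La k ≤ 2 * E k + b * Φ k) (n : ℕ) :
    2 * E n + ∑ k ∈ Finset.range n, La k ≤ 2 * E 0 + b * ∑ k ∈ Finset.range n, Φ k := by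
  induction n with
  | zero => simp
  | succ n ih =>
    rw [Finset.sum_range_succ, Finset.sum_range_succ]
    calc 2 * E (n + 1) + (∑ k ∈ Finset.range n, La k + La n)
        = (2 * E (n + 1) + La n) + ∑ k ∈ Finset.range n, La k := by ring
      _ ≤ (2 * E n + b * Φ n) + ∑ k ∈ Finset.range n, La k := add_le_add (h n) le_rfl
      _ = (2 * E n + ∑ k ∈ Finset.range n, La k) + b * Φ n := by ring
      _ ≤ (2 * E 0 + b * ∑ k ∈ Finset.range n, Φ k) + b * Φ n := add_le_add ih le_rfl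
      _ = _ := by ring

theorem A9_split (θ : ℕ → ℝ) (ρ : ℝ) (G : ℝ × ℝ → ℝ≥0∞) (μ : Measure (ℝ × ℝ)) (n : ℕ) :
    ∫⁻ p in Cls ρ 0 (8 * θ 0), G p ∂μ ≤ ∫⁻ p in Cls ρ 0 (8 * θ n), G p ∂μ +
      ∑ j ∈ Finset.range n, ∫⁻ p in Cls ρ (8 * θ (j + 1)) (8 * θ j), G p ∂μ := by
  induction n with
  | zero => simp
  | succ n ih =>
    refine ih.trans ?_
    rw [Finset.sum_range_succ, add_comm (∑ j ∈ Finset.range n, _), ← add_assoc]
    refine add_le_add ((lintegral_mono_set ?_).trans (lintegral_union_le _ _ _)) le_rfl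
    rintro p ⟨a, b, c, d⟩
    rcases lt_or_ge |p.1 - p.2| (8 * θ (n + 1)) with h | h
    · exact Or.inl ⟨a, b, c, h⟩
    · exact Or.inr ⟨a, b, h, d⟩

theorem A9_Cls_mono {ρ ρ' : ℝ} (h : ρ ≤ ρ') (r s : ℝ) : Cls ρ r s ⊆ Cls ρ' r s :=
  fun _ hp => ⟨hp.1.trans h, hp.2.1.trans h, hp.2.2⟩

theorem A9_Cls_meas (ρ r s : ℝ) : MeasurableSet (Cls ρ r s) := by
  unfold Cls
  measurability

theorem A9_swap {μ : Measure (ℝ × ℝ)} (hμ : μ.map Prod.swap = μ) (ρ r s : ℝ) {a : ℝ → ℝ≥0∞}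
    (ha : Measurable a) :
    ∫⁻ p in Cls ρ r s, a p.2 ∂μ = ∫⁻ p in Cls ρ r s, a p.1 ∂μ := by
  have h1 := setLIntegral_map (μ := μ) (f := fun p : ℝ × ℝ => a p.1) (g := Prod.swap)
    (A9_Cls_meas ρ r s) (ha.comp measurable_fst) measurable_swap
  have h2 : Prod.swap ⁻¹' Cls ρ r s = Cls ρ r s := by
    ext p
    simp only [Cls, mem_preimage, mem_ofPred_eq, Prod.fst_swap, Prod.snd_swap, abs_sub_comm p.2 p.1]
    tauto
  rw [hμ, h2] at h1
  exact h1.symm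

theorem A9_pt {Θ : ℝ} (hΘ : 0 < Θ) {H L : ℂ → ℝ} {S : ℝ → ℝ} (h : Inv Θ H L S) {w : ℂ}
    (hw : w ∈ HP) {t D : ℝ} (h1 : |w.im - t| ≤ 8 * Θ) (h2 : w.re ≤ Θ * D) :
    |H w - H (pt 0 t)| ≤ 8 * Real.exp 8 * Θ * (S t * (1 + D)) := by
  have hw0 : 0 ≤ w.re := hw
  have a1 := h.vert hΘ hw0 le_rfl w.im
  have e1 : pt w.re w.im = w := rfl
  rw [e1, sub_zero, abs_of_nonneg hw0] at a1
  have a2 := h.lip (pt 0 t) (le_refl (0 : ℝ)) (pt 0 w.im) (le_refl (0 : ℝ))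
  have e2 : ‖pt 0 t - pt 0 w.im‖ = |w.im - t| := by
    have : pt 0 t - pt 0 w.im = ((t - w.im : ℝ) : ℂ) * Complex.I := by
      apply Complex.ext <;> simp [pt]
    rw [this, norm_mul, Complex.norm_I, mul_one, Complex.norm_real, Real.norm_eq_abs, abs_sub_comm]
  rw [e2] at a2
  have a3 : Real.exp (|w.im - t| / Θ) ≤ Real.exp 8 :=
    Real.exp_le_exp.2 ((div_le_iff₀ hΘ).2 h1)
  have a4 := h.S_slow t w.im
  rw [abs_sub_comm] at a4
  have a5 : L (pt 0 t) ≤ S t := h.L_le (pt 0 t) (le_refl (0 : ℝ))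
  have s0 := h.S_nonneg t
  have e8 := Real.exp_pos 8
  have b1 : S w.im * w.re ≤ S t * Real.exp 8 * (Θ * D) :=
    mul_le_mul (a4.trans (mul_le_mul_of_nonneg_left a3 s0)) h2 hw0 (by positivity)
  have b2 : L (pt 0 t) * Real.exp (|w.im - t| / Θ) * |w.im - t| ≤ S t * Real.exp 8 * (8 * Θ) :=
    mul_le_mul (mul_le_mul a5 a3 (Real.exp_pos _).le s0) h1 (abs_nonneg _) (by positivity)
  have b3 : 0 ≤ S t * Real.exp 8 * (Θ * D) := mul_nonneg (by positivity) (hw0.trans h2)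
  have b4 := abs_sub_le (H w) (H (pt 0 w.im)) (H (pt 0 t))
  rw [abs_sub_comm (H (pt 0 w.im))] at b4
  nlinarith

theorem A9_end {Θ ρ s b : ℝ} (hΘ : 0 < Θ) {H L : ℂ → ℝ} {S : ℝ → ℝ} (h : Inv Θ H L S)
    (μ : Measure (ℝ × ℝ)) [SFinite μ] {D : ℝ → ℝ} (hD : Measurable D)
    (hb : ∀ t, |t| ≤ ρ + Θ →
      ∫⁻ p in {p : ℝ × ℝ | p.1 ∈ Icc t (t + Θ) ∧ 8 * Θ ≤ |p.1 - p.2|},
        ENNReal.ofReal ((1 + D p.1) ^ 2) ∂μ ≤ ENNReal.ofReal b) :
    ∫⁻ p in Cls ρ (8 * Θ) s, ENNReal.ofReal ((8 * Real.exp 8 * Θ * (S p.1 * (1 + D p.1))) ^ 2) ∂μ ≤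
      ENNReal.ofReal (64 * Real.exp 20) * ENNReal.ofReal b * Fl Θ S := by
  have hs : MeasurableSet {p : ℝ × ℝ | 8 * Θ ≤ |p.1 - p.2|} := by measurability
  have hg0 : Measurable fun p : ℝ × ℝ => ENNReal.ofReal ((1 + D p.1) ^ 2) :=
    (((hD.comp measurable_fst).const_add 1).pow_const 2).ennreal_ofReal
  have a1 := tile2 (Θ := Θ) (η := Θ) (ρ := ρ + Θ) hΘ (by linarith) h.S_meas h.S_nonneg h.S_slow μ
    (hg0.indicator hs) (β := fun _ => ENNReal.ofReal b) measurable_const fun t ht => by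
      rw [lintegral_indicator hs, Measure.restrict_restrict hs, inter_comm]
      exact hb t ht
  rw [add_sub_cancel_right, lintegral_mul_const' _ _ ENNReal.ofReal_ne_top] at a1
  calc _ ≤ ∫⁻ p in Cls ρ (8 * Θ) s, ENNReal.ofReal ((8 * Real.exp 8 * Θ) ^ 2) *
        (ENNReal.ofReal (S p.1 ^ 2) * {p : ℝ × ℝ | 8 * Θ ≤ |p.1 - p.2|}.indicator
          (fun p => ENNReal.ofReal ((1 + D p.1) ^ 2)) p) ∂μ := by
        refine setLIntegral_mono' (A9_Cls_meas _ _ _) fun p hp => le_of_eq ?_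
        rw [indicator_of_mem (show p ∈ {p : ℝ × ℝ | 8 * Θ ≤ |p.1 - p.2|} from hp.2.2.1),
          ← ENNReal.ofReal_mul (sq_nonneg _), ← ENNReal.ofReal_mul (sq_nonneg _)]
        congr 1
        ring
    _ ≤ ENNReal.ofReal ((8 * Real.exp 8 * Θ) ^ 2) * (ENNReal.ofReal (Real.exp 4 / Θ) *
        ((∫⁻ t, ENNReal.ofReal (S t ^ 2)) * ENNReal.ofReal b)) := by
        rw [lintegral_const_mul' _ _ ENNReal.ofReal_ne_top]
        exact mul_le_mul' le_rfl ((lintegral_mono_set fun p hp => hp.1).trans a1)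
    _ = _ := by
        have e : (8 * Real.exp 8 * Θ) ^ 2 * (Real.exp 4 / Θ) = 64 * Real.exp 20 * Θ := by
          have : Real.exp 20 = Real.exp 8 * Real.exp 8 * Real.exp 4 := by
            rw [← Real.exp_add, ← Real.exp_add]
            norm_num
          rw [this]
          field_simp
          norm_num
        rw [← mul_assoc, ← ENNReal.ofReal_mul (sq_nonneg _), e,
          ENNReal.ofReal_mul (by positivity), Fl]
        ring

theorem A9_three {μ : Measure (ℝ × ℝ)} (hμ : μ.map Prod.swap = μ) (ρ r s : ℝ) {u v a : ℝ → ℝ}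
    (ha : Measurable a) (h : ∀ t, |u t - v t| ≤ a t) :
    ∫⁻ p in Cls ρ r s, ENNReal.ofReal ((u p.1 - u p.2) ^ 2) ∂μ ≤
      6 * ∫⁻ p in Cls ρ r s, ENNReal.ofReal (a p.1 ^ 2) ∂μ +
        3 * ∫⁻ p in Cls ρ r s, ENNReal.ofReal ((v p.1 - v p.2) ^ 2) ∂μ := by
  have hm : Measurable fun t => ENNReal.ofReal (a t ^ 2) := (ha.pow_const 2).ennreal_ofReal
  calc _ ≤ ∫⁻ p in Cls ρ r s, 3 * (ENNReal.ofReal (a p.1 ^ 2) + (ENNReal.ofReal (a p.2 ^ 2) +
        ENNReal.ofReal ((v p.1 - v p.2) ^ 2))) ∂μ := by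
        refine lintegral_mono fun p => ?_
        have e3 : (3 : ℝ≥0∞) = ENNReal.ofReal 3 := by simp
        rw [← ENNReal.ofReal_add (sq_nonneg _) (sq_nonneg _),
          ← ENNReal.ofReal_add (sq_nonneg _) (by positivity), e3,
          ← ENNReal.ofReal_mul (by norm_num)]
        refine ENNReal.ofReal_le_ofReal ?_
        have a1 := sq_le_sq' (abs_le.1 (h p.1)).1 (abs_le.1 (h p.1)).2
        have a2 := sq_le_sq' (abs_le.1 (h p.2)).1 (abs_le.1 (h p.2)).2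
        nlinarith [sq_nonneg ((u p.1 - v p.1) + (u p.2 - v p.2)),
          sq_nonneg ((u p.1 - v p.1) - (v p.1 - v p.2)),
          sq_nonneg ((u p.2 - v p.2) + (v p.1 - v p.2))]
    _ = _ := by
        have m1 : Measurable fun p : ℝ × ℝ => ENNReal.ofReal (a p.1 ^ 2) := hm.comp measurable_fst
        have m2 : Measurable fun p : ℝ × ℝ => ENNReal.ofReal (a p.2 ^ 2) := hm.comp measurable_snd
        rw [lintegral_const_mul' _ _ (by simp), lintegral_add_left m1, lintegral_add_left m2,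
          A9_swap hμ ρ r s hm]
        ring

theorem A9_cheb {ν : Measure (ℝ × ℝ)} {T E : Set (ℝ × ℝ)} {g : ℝ × ℝ → ℝ} (hg : Measurable g)
    {c b : ℝ} (hc : 0 < c) (h : ∫⁻ p in T, ENNReal.ofReal (g p) ∂ν ≤ ENNReal.ofReal b)
    (hE : ∀ p ∈ E, p ∈ T ∧ c ≤ g p) : ν E ≤ ENNReal.ofReal (b / c) := by
  have a1 := mul_meas_ge_le_lintegral₀ (μ := ν.restrict T) hg.ennreal_ofReal.aemeasurable
    (ENNReal.ofReal c)
  rw [Measure.restrict_apply (measurableSet_le measurable_const hg.ennreal_ofReal)] at a1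
  have a2 : ν E ≤ ν ({p | ENNReal.ofReal c ≤ ENNReal.ofReal (g p)} ∩ T) :=
    measure_mono fun p hp => ⟨ENNReal.ofReal_le_ofReal (hE p hp).2, (hE p hp).1⟩
  rw [ENNReal.ofReal_div_of_pos hc, ENNReal.le_div_iff_mul_le (Or.inl (by simpa using hc))
    (Or.inl ENNReal.ofReal_ne_top), mul_comm]
  exact (mul_le_mul' le_rfl a2).trans (a1.trans h)

theorem A9_Dp_meas {f : ℕ → ℝ → ℝ} (hf : ∀ l, Measurable (f l)) (j n : ℕ) :
    Measurable (Dp f j n) :=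
  Finset.measurable_sum _ fun i _ => ((hf (j + i)).add_const 1).const_mul _

theorem A9_core {A B V ε ε₀ M₀ R ρ₀ : ℝ} {θ : ℕ → ℝ} {μ μ' : Measure (ℝ × ℝ)} [SFinite μ]
    (hA : 1 ≤ A) (hB : 0 ≤ B) (hV : 1 ≤ V) (hε : 0 < ε) (hε₀ : 0 < ε₀)
    (e1 : (2 + 8 * B) * ε₀ ≤ 1)
    (e2 : (384000 * Real.exp 20 * A + 3 * B) * ((10 + 8 * B) * ε₀) ≤ ε / 2)
    (hM : 1 ≤ M₀) (h0 : ∀ n, 0 < θ n) (h1 : Antitone θ) (h2 : ∀ n, 2 * θ (n + 2) ≤ θ n)
    (hμ : μ.map Prod.swap = μ) (hρ : ρ₀ = (2 * M₀ + 9 + 40) * θ 0)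
    (hst : ∀ k (F L : ℂ → ℝ) (S : ℝ → ℝ), Inv (θ k) F L S →
      ∃ Ψ L' S' Y r f, Stp B V ρ₀ (θ k) (θ (k + 1)) μ μ' F L S Ψ L' S' Y r f)
    (hK : ∀ j, KB ρ₀ (θ j) (A * V) μ) (hK' : KB ρ₀ (θ 0) (A * V) μ')
    (hR : ∀ η, 0 < η → η ≤ θ 0 → KB ρ₀ η R μ) {F0 L0 : ℂ → ℝ} {S0 : ℝ → ℝ}
    (i1 : Inv (θ 0) F0 L0 S0) (i2 : ∀ z, F0 z ∈ Icc (0 : ℝ) 1)
    (i3 : ∀ z, ‖z‖ ≤ (9 + 2000 * A / ε) * θ 0 → F0 z = 1)
    (i4 : ∀ z, F0 z ≠ 0 → ‖z‖ < M₀ * θ 0)
    (i5 : Eg L0 ≤ ENNReal.ofReal ε₀) (i6 : Fl (θ 0) S0 ≤ ENNReal.ofReal ε₀) :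
    ∃ F : ℂ → ℝ, (∃ K, LipschitzOnWith K F HP) ∧ (∀ z, F z ∈ Icc (0 : ℝ) 1) ∧
      (∀ z ∈ HP, F z ≠ 0 → ‖z‖ < (2 * M₀ + 9) * θ 0) ∧ En {z | 0 < z.re} F ≤ 1 ∧
      ∫⁻ p in Cls ((2 * M₀ + 9 + 10) * θ 0) 0 (8 * θ 0),
        ENNReal.ofReal ((F (pt 0 p.1) - F (pt 0 p.2)) ^ 2) ∂μ ≤ ENNReal.ofReal (ε * V) ∧
      μ' {p | |p.1| < θ 0 ∧ 8 * θ 0 ≤ |p.1 - p.2| ∧ F (pt 0 p.1) ≠ 1} ≤
        ENNReal.ofReal (ε * V) := by
  obtain ⟨F, L, S, Ψ, Y, r, f, rfl, rfl, rfl, hi, hs, hc⟩ := A9_chain hst i1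
  have hW := fun j n => Wd_near h0 h1 h2 (g := 0) (fun j _ => (hs j).maps)
    (fun j _ => (hs j).r_nonneg) (fun j _ => (hs j).r_or) (fun j _ => (hs j).im_near)
    (fun j _ => (hs j).re_ge) (fun j _ => (hs j).re_le) (fun j _ => (hs j).f_nonneg)
    (Nat.zero_le j) n
  have hfl := A9_fl h0 h1 h2 (Φ := fun k => Fl (θ k) (S k)) (fun k => (hs k).r_nonneg)
    (fun k => (hs k).r_or) (fun k => (hs k).fl) hε₀.le i6
  have hen : ∀ n, 2 * Eg (L n) + ∑ k ∈ Finset.range n, Lay (L k) (Y k) ≤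
      ENNReal.ofReal ((2 + 8 * B) * ε₀) := fun n => by
    refine (A9_en (E := fun k => Eg (L k)) (La := fun k => Lay (L k) (Y k))
      (Φ := fun k => Fl (θ k) (S k)) (fun k => (hs k).en) n).trans ?_
    refine (add_le_add (mul_le_mul' le_rfl i5) (mul_le_mul' le_rfl
      ((Finset.sum_le_sum fun k _ => hfl k).trans (A9_sum hε₀.le n)))).trans (le_of_eq ?_)
    have e : (2 : ℝ≥0∞) = ENNReal.ofReal 2 := by simp
    rw [e, ← ENNReal.ofReal_mul (by norm_num), ← ENNReal.ofReal_mul hB,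
      ← ENNReal.ofReal_add (by positivity) (by positivity)]
    congr 1
    ring
  have hθ : ∀ j, θ j ≤ θ 0 := fun j => h1 (Nat.zero_le j)
  have t0 := h0 0
  have tM : θ 0 ≤ M₀ * θ 0 := by nlinarith
  have hDm := A9_Dp_meas fun l => (hs l).f_meas
  have hQ : 0 ≤ 128 * Real.exp 20 * |R| := by positivity
  obtain ⟨n, hn⟩ := exists_pow_lt_of_lt_one
    (show 0 < ε / 2 / (128 * Real.exp 20 * |R| * 2 * ε₀ + 1) by positivity)
    (show (3 / 4 : ℝ) < 1 by norm_num)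
  rw [lt_div_iff₀ (by positivity)] at hn
  have hF0 : ∀ z, F n z = F 0 (Wd Ψ 0 n z) := fun z => by
    have := A9_comp hc 0 n z
    rwa [zero_add] at this
  refine ⟨F n, (hi n).lipschitz (h0 n), fun z => hF0 z ▸ i2 _, fun z hz hne => ?_, ?_, ?_, ?_⟩
  · obtain ⟨-, a1, a2⟩ := (hW 0 n).1 z hz
    have a3 := i4 _ (hF0 z ▸ hne)
    have a4 := Complex.norm_le_abs_re_add_abs_im z
    have a5 := Complex.abs_im_le_norm (Wd Ψ 0 n z)
    have a6 := Complex.re_le_norm (Wd Ψ 0 n z)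
    have a7 := abs_sub_abs_le_abs_sub z.im (Wd Ψ 0 n z).im
    rw [abs_sub_comm] at a7
    rw [abs_of_nonneg (show 0 ≤ z.re from hz)] at a4
    linarith
  · refine ((hi n).en (h0 n)).trans ?_
    calc Eg (L n) ≤ 2 * Eg (L n) := by
          rw [two_mul]
          exact le_self_add
      _ ≤ _ := le_self_add
      _ ≤ _ := hen n
      _ ≤ 1 := ENNReal.ofReal_le_one.2 e1
  · have hcl : ∀ j ∈ Finset.range n,
        ∫⁻ p in Cls ((2 * M₀ + 9 + 10) * θ 0) (8 * θ (j + 1)) (8 * θ j),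
          ENNReal.ofReal ((F n (pt 0 p.1) - F n (pt 0 p.2)) ^ 2) ∂μ ≤
        ENNReal.ofReal ((384000 * Real.exp 20 * A + 3 * B) * V) *
          (Lay (L j) (Y j) + ENNReal.ofReal (2 * (3 / 4) ^ j * ε₀)) := by
      intro j hj
      obtain ⟨n', rfl⟩ := Nat.exists_eq_add_of_le (Nat.succ_le_of_lt (Finset.mem_range.1 hj))
      have b1 := A9_three hμ ((2 * M₀ + 9 + 10) * θ 0) (8 * θ (j + 1)) (8 * θ j)
        (u := fun t => F (j + 1 + n') (pt 0 t)) (v := fun t => F (j + 1) (pt 0 t))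
        (a := fun t => 8 * Real.exp 8 * θ (j + 1) * (S (j + 1) t * (1 + Dp f (j + 1) n' t)))
        (((hi (j + 1)).S_meas.mul ((hDm _ _).const_add 1)).const_mul _) fun t => by
          obtain ⟨a1, -, a2⟩ := (hW (j + 1) n').1 (pt 0 t) (le_refl (0 : ℝ))
          rw [A9_comp hc]
          exact A9_pt (h0 _) (hi (j + 1)) a1 a2 ((hW (j + 1) n').2 t)
      have b2 := A9_end (ρ := (2 * M₀ + 9 + 10) * θ 0) (s := 8 * θ j) (h0 _) (hi (j + 1)) μ
        (hDm (j + 1) n') fun t ht => Dp_int h0 h1 (fun l _ => (hs l).f_meas)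
          (fun l _ => (hs l).f_nonneg) (fun l _ => (hs l).tail) (hK (j + 1)) n'
          (by rw [hρ]; linarith [hθ (j + 1)])
      have b3 := (lintegral_mono_set (A9_Cls_mono
        (show (2 * M₀ + 9 + 10) * θ 0 ≤ ρ₀ - 2 * θ j by rw [hρ]; linarith [hθ j]) _ _)).trans
        (hs j).out
      simp only [← hc] at b3
      have b4 : Fl (θ (j + 1)) (S (j + 1)) ≤
          Lay (L j) (Y j) + ENNReal.ofReal (2 * (3 / 4) ^ j * ε₀) := by
        refine ((hfl (j + 1)).trans (ENNReal.ofReal_le_ofReal ?_)).trans le_add_self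
        have : 0 ≤ (3 / 4 : ℝ) ^ j * ε₀ := by positivity
        rw [pow_succ]
        nlinarith
      refine b1.trans ((add_le_add (mul_le_mul' le_rfl (b2.trans (mul_le_mul' le_rfl b4)))
        (mul_le_mul' le_rfl (b3.trans (mul_le_mul' le_rfl (add_le_add le_rfl (hfl j)))))).trans
        (le_of_eq ?_))
      have e6 : (6 : ℝ≥0∞) = ENNReal.ofReal 6 := by simp
      have e3 : (3 : ℝ≥0∞) = ENNReal.ofReal 3 := by simp
      rw [← mul_assoc, ← mul_assoc (3 : ℝ≥0∞), ← add_mul, e6, e3,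
        ← ENNReal.ofReal_mul (by positivity), ← ENNReal.ofReal_mul (by norm_num),
        ← ENNReal.ofReal_mul (by norm_num),
        ← ENNReal.ofReal_add (by positivity) (by positivity)]
      congr 2
      ring
    have hdp := (lintegral_mono_set (A9_Cls_mono
      (show (2 * M₀ + 9 + 10) * θ 0 ≤ ρ₀ - θ n by rw [hρ]; linarith [hθ n]) _ _)).trans
      (deep (h0 n) (hi n) μ fun η a b => hR η a (b.trans (hθ n)))
    have c1 : ENNReal.ofReal (128 * Real.exp 20 * R) * Fl (θ n) (S n) ≤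
        ENNReal.ofReal (ε / 2 * V) := by
      refine (mul_le_mul' (ENNReal.ofReal_le_ofReal
        (mul_le_mul_of_nonneg_left (le_abs_self R) (by positivity))) (hfl n)).trans ?_
      rw [← ENNReal.ofReal_mul hQ]
      refine ENNReal.ofReal_le_ofReal ?_
      have : 0 ≤ (3 / 4 : ℝ) ^ n := by positivity
      nlinarith
    have c2 : ∑ j ∈ Finset.range n, ENNReal.ofReal ((384000 * Real.exp 20 * A + 3 * B) * V) *
        (Lay (L j) (Y j) + ENNReal.ofReal (2 * (3 / 4) ^ j * ε₀)) ≤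
        ENNReal.ofReal (ε / 2 * V) := by
      rw [← Finset.mul_sum, Finset.sum_add_distrib]
      refine (mul_le_mul' le_rfl (add_le_add (le_add_self.trans (hen n))
        (A9_sum hε₀.le n))).trans ?_
      rw [← ENNReal.ofReal_add (by positivity) (by positivity),
        ← ENNReal.ofReal_mul (by positivity)]
      refine ENNReal.ofReal_le_ofReal ?_
      have := mul_le_mul_of_nonneg_right e2 (show 0 ≤ V by linarith)
      linarith
    refine (A9_split θ _ _ μ n).trans ((add_le_add (hdp.trans c1)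
      ((Finset.sum_le_sum hcl).trans c2)).trans (le_of_eq ?_))
    rw [← ENNReal.ofReal_add (by positivity) (by positivity)]
    congr 1
    ring
  · have hx : 0 < 2000 * A / ε := by positivity
    have hcb : ∀ s, |s| ≤ θ 0 → μ' {p | p.1 ∈ Icc s (s + θ 0) ∧ |p.1| < θ 0 ∧
        8 * θ 0 ≤ |p.1 - p.2| ∧ F n (pt 0 p.1) ≠ 1} ≤ ENNReal.ofReal (ε / 2 * V) := by
      intro s hs'
      have d1 := Dp_int h0 h1 (j := 0) (fun l _ => (hs l).f_meas)
        (fun l _ => (hs l).f_nonneg) (fun l _ => (hs l).tail') hK' n (s := s)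
        (by rw [hρ]; linarith)
      refine (A9_cheb (g := fun p => (1 + Dp f 0 n p.1) ^ 2)
        ((((hDm 0 n).comp measurable_fst).const_add 1).pow_const 2) hx d1 ?_).trans (le_of_eq ?_)
      · rintro p ⟨a, b, c, d⟩
        refine ⟨⟨a, c⟩, ?_⟩
        obtain ⟨a1, -, a2⟩ := (hW 0 n).1 (pt 0 p.1) (le_refl (0 : ℝ))
        have a3 := (hW 0 n).2 p.1
        have a4 : (9 + 2000 * A / ε) * θ 0 < ‖Wd Ψ 0 n (pt 0 p.1)‖ :=
          lt_of_not_ge fun h => d (hF0 _ ▸ i3 _ h)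
        have a5 := Complex.norm_le_abs_re_add_abs_im (Wd Ψ 0 n (pt 0 p.1))
        rw [abs_of_nonneg (show 0 ≤ (Wd Ψ 0 n (pt 0 p.1)).re from a1)] at a5
        have a6 := abs_sub_abs_le_abs_sub (Wd Ψ 0 n (pt 0 p.1)).im p.1
        have a7 : |(Wd Ψ 0 n (pt 0 p.1)).im - p.1| ≤ 8 * θ 0 := a2
        have a8 : 2000 * A / ε * θ 0 < Dp f 0 n p.1 * θ 0 := by linarith
        have a9 := lt_of_mul_lt_mul_right a8 t0.le
        nlinarith
      · congr 1
        field_simp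
        norm_num
    refine (measure_mono (t := {p : ℝ × ℝ | p.1 ∈ Icc (-θ 0) (-θ 0 + θ 0) ∧ |p.1| < θ 0 ∧
        8 * θ 0 ≤ |p.1 - p.2| ∧ F n (pt 0 p.1) ≠ 1} ∪ {p : ℝ × ℝ | p.1 ∈ Icc 0 (0 + θ 0) ∧
        |p.1| < θ 0 ∧ 8 * θ 0 ≤ |p.1 - p.2| ∧ F n (pt 0 p.1) ≠ 1}) fun p hp => ?_).trans
      ((measure_union_le _ _).trans ((add_le_add (hcb _ (by rw [abs_neg, abs_of_pos t0]))
        (hcb _ (by simpa using t0.le))).trans (le_of_eq ?_)))
    · have a := abs_lt.1 hp.1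
      rcases le_total p.1 0 with h | h
      · exact Or.inl ⟨⟨a.1.le, by linarith⟩, hp⟩
      · exact Or.inr ⟨⟨h, by linarith⟩, hp⟩
    · rw [← ENNReal.ofReal_add (by positivity) (by positivity)]
      congr 1
      ring

theorem asm_ge {A : ℝ} (hA : 1 ≤ A) (a₁ : ℝ) : ∃ a₀ V₀ : ℝ, a₁ ≤ a₀ ∧ ∀ ε : ℝ, 0 < ε →
    ∃ M : ℝ, 2 ≤ M ∧
    ∀ (V : ℝ) (θ : ℕ → ℝ) (g : ℕ) (μ μ' : Measure (ℝ × ℝ)) [SFinite μ], V₀ ≤ V →
      (∀ n, 0 < θ n) → Antitone θ → (∀ n, 2 * θ (n + 2) ≤ θ n) → μ.map Prod.swap = μ →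
      (∀ j, g ≤ j → a₀ * θ (j + 1) ≤ θ j →
        Nonempty (LD A V ((M + 40) * θ g) (θ j) (θ (j + 1)) μ μ')) →
      (∀ j, g ≤ j → KB ((M + 40) * θ g) (θ j) (A * V) μ) →
      KB ((M + 40) * θ g) (θ g) (A * V) μ' →
      (∃ R, ∀ η, 0 < η → η ≤ θ g → KB ((M + 40) * θ g) η R μ) →
      ∃ F : ℂ → ℝ, (∃ K, LipschitzOnWith K F HP) ∧ (∀ z, F z ∈ Icc (0 : ℝ) 1) ∧
        (∀ z ∈ HP, F z ≠ 0 → ‖z‖ < M * θ g) ∧ En {z | 0 < z.re} F ≤ 1 ∧
        ∫⁻ p in Cls ((M + 10) * θ g) 0 (8 * θ g),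
          ENNReal.ofReal ((F (pt 0 p.1) - F (pt 0 p.2)) ^ 2) ∂μ ≤ ENNReal.ofReal (ε * V) ∧
        μ' {p | |p.1| < θ g ∧ 8 * θ g ≤ |p.1 - p.2| ∧ F (pt 0 p.1) ≠ 1} ≤
          ENNReal.ofReal (ε * V) := by
  obtain ⟨a₀, V₀, B₁, ha, hB₁, s1⟩ := step_ld hA
  obtain ⟨B₂, hB₂, s2⟩ := step_id hA (ha.trans (le_max_left a₀ a₁))
  refine ⟨max a₀ a₁, max V₀ 1, le_max_right _ _, fun ε hε => ?_⟩
  have hB : 0 ≤ B₁ + B₂ := add_nonneg hB₁ hB₂
  obtain ⟨ε₀, hε₀, e1, e2⟩ : ∃ ε₀ : ℝ, 0 < ε₀ ∧ (2 + 8 * (B₁ + B₂)) * ε₀ ≤ 1 ∧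
      (384000 * Real.exp 20 * A + 3 * (B₁ + B₂)) * ((10 + 8 * (B₁ + B₂)) * ε₀) ≤ ε / 2 := by
    have p1 : 0 < 2 + 8 * (B₁ + B₂) := by positivity
    have p2 : 0 < (384000 * Real.exp 20 * A + 3 * (B₁ + B₂)) * (10 + 8 * (B₁ + B₂)) := by
      positivity
    refine ⟨min (1 / (2 + 8 * (B₁ + B₂))) (ε / 2 /
      ((384000 * Real.exp 20 * A + 3 * (B₁ + B₂)) * (10 + 8 * (B₁ + B₂)))),
      lt_min (by positivity) (by positivity), ?_, ?_⟩
    · rw [mul_comm]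
      exact (le_div_iff₀ p1).1 (min_le_left _ _)
    · rw [← mul_assoc, mul_comm]
      exact (le_div_iff₀ p2).1 (min_le_right _ _)
  have hx : 0 < 2000 * A / ε := by positivity
  obtain ⟨M₀, hM, hin⟩ := init hε₀ (m := 9 + 2000 * A / ε) (by linarith)
  refine ⟨2 * M₀ + 9, by linarith, ?_⟩
  intro V θ g μ μ' _ hV h0 h1 h2 hμ hL hK hK' ⟨R, hR⟩
  have hV1 : 1 ≤ V := (le_max_right _ _).trans hV
  obtain ⟨F0, L0, S0, i1, i2, i3, i4, i5, i6⟩ := hin (θ g) (h0 g)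
  refine A9_core (θ := fun k => θ (g + k)) hA hB hV1 hε hε₀ e1 e2 (by linarith)
    (fun n => h0 _) (fun a b h => h1 (Nat.add_le_add_left h g)) (fun n => h2 (g + n)) hμ rfl
    (fun k F L S hF => ?_) (fun j => hK _ (Nat.le_add_right g j)) hK' hR i1 i2 i3 i4 i5 i6
  rcases le_total (max a₀ a₁ * θ (g + k + 1)) (θ (g + k)) with h | h
  · obtain ⟨Ψ, L', S', Y, f, h3⟩ := s1 ((le_max_left _ _).trans hV) (h0 _)
      ((mul_le_mul_of_nonneg_right (le_max_left _ _) (h0 _).le).trans h)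
      (hL _ (Nat.le_add_right g k) h) hμ (hK (g + k + 1) (by omega)) hF
    exact ⟨Ψ, L', S', Y, _, f, h3.mono (by linarith) (by linarith)⟩
  · exact ⟨_, _, _, _, _, _, (s2 (by linarith) (h0 _) (h1 (Nat.le_succ _)) h
      (hK (g + k + 1) (by omega)) hF).mono (by linarith) (by linarith)⟩

theorem asm {A : ℝ} (hA : 1 ≤ A) : ∃ a₀ V₀ : ℝ, ∀ ε : ℝ, 0 < ε → ∃ M : ℝ, 2 ≤ M ∧
    ∀ (V : ℝ) (θ : ℕ → ℝ) (g : ℕ) (μ μ' : Measure (ℝ × ℝ)) [SFinite μ], V₀ ≤ V →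
      (∀ n, 0 < θ n) → Antitone θ → (∀ n, 2 * θ (n + 2) ≤ θ n) → μ.map Prod.swap = μ →
      (∀ j, g ≤ j → a₀ * θ (j + 1) ≤ θ j →
        Nonempty (LD A V ((M + 40) * θ g) (θ j) (θ (j + 1)) μ μ')) →
      (∀ j, g ≤ j → KB ((M + 40) * θ g) (θ j) (A * V) μ) →
      KB ((M + 40) * θ g) (θ g) (A * V) μ' →
      (∃ R, ∀ η, 0 < η → η ≤ θ g → KB ((M + 40) * θ g) η R μ) →
      ∃ F : ℂ → ℝ, (∃ K, LipschitzOnWith K F HP) ∧ (∀ z, F z ∈ Icc (0 : ℝ) 1) ∧
        (∀ z ∈ HP, F z ≠ 0 → ‖z‖ < M * θ g) ∧ En {z | 0 < z.re} F ≤ 1 ∧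
        ∫⁻ p in Cls ((M + 10) * θ g) 0 (8 * θ g),
          ENNReal.ofReal ((F (pt 0 p.1) - F (pt 0 p.2)) ^ 2) ∂μ ≤ ENNReal.ofReal (ε * V) ∧
        μ' {p | |p.1| < θ g ∧ 8 * θ g ≤ |p.1 - p.2| ∧ F (pt 0 p.1) ≠ 1} ≤
          ENNReal.ofReal (ε * V) := by
  obtain ⟨a₀, V₀, -, h⟩ := asm_ge hA 0
  exact ⟨a₀, V₀, h⟩

end Pool.Agent.Work.MP_042f46_an.Fu
end
end

-- merged part: Pool.Agent.Work.MP_042f46_an.F.D10
section
/-!
# Test functions

Plan.  `asm_ge` (file `A9`) with `a₁ = 100`; `Mf ε` is its `M`.  Given `c = ↑c₀`, `g` with `M θ g ≤ 1 / 1000`: `ρ₀ = (M + 40) θ g`, `ρ₀ + 300 θ j ≤ 1 / 4`; charts `X`, `X'` at `c₀`, `c₀ - α` (`exists_ch`, `rep`), `kb`, `H_symm`; the deep bound from `fin` (`DD_ge` with `bump (c + t + η / 2) (2 η / 3)`, `Rep.le`).  `Ξ ζ = F (pt (max (re w) 0) (im w))`, `w = log (ζ e (-c₀)) / (2 π)`; it vanishes near the ray where `log` jumps and for large `ζ`, so it is `Nice`;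 `En {1 < ‖ζ‖} Ξ ≤ En {0 < re} F` (`En_comp_le` on the slit domain, `d = 1`; `F` is `LL` on the open half plane); `u x = Ξ (eT x)`, `u (c + t) = F (pt 0 t)` for `|t| < 1 / 2`; `pull2`.  The two integrals: `lintegral_map`, `H_ae`.
-/

open Set Metric Topology Filter MeasureTheory
open scoped ENNReal NNReal

noncomputable section
namespace Pool.Agent.Work.MP_042f46_an.Fu

open Pool.Agent.Work.MP_042f46_an.Ty

/-- the logarithmic coordinate around the angle `c` -/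
def D10_w (c : ℝ) (ζ : ℂ) : ℂ := Complex.log (ζ * e (-c)) / ((2 * Real.pi : ℝ) : ℂ)

/-- the projection to the closed half plane -/
def D10_pr (w : ℂ) : ℂ := pt (max w.re 0) w.im

theorem D10_pr_mem (w : ℂ) : D10_pr w ∈ HP := le_max_right w.re 0

theorem D10_pr_lip : LipschitzWith 2 D10_pr := by
  refine LipschitzWith.of_dist_le_mul fun a b => ?_
  rw [dist_eq_norm, dist_eq_norm]
  have h1 := Complex.norm_le_abs_re_add_abs_im (D10_pr a - D10_pr b)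
  have h2 := abs_max_sub_max_le_abs a.re b.re 0
  have h3 := Complex.abs_re_le_norm (a - b)
  have h4 := Complex.abs_im_le_norm (a - b)
  simp only [D10_pr, pt, Complex.sub_re, Complex.sub_im] at h1 h3 h4 ⊢
  push_cast
  linarith

theorem D10_norm (c : ℝ) (ζ : ℂ) : ‖ζ * e (-c)‖ = ‖ζ‖ := by rw [norm_mul, norm_e, mul_one]

theorem D10_re (c : ℝ) (ζ : ℂ) : (D10_w c ζ).re = Real.log ‖ζ‖ / (2 * Real.pi) := by
  rw [D10_w, Complex.div_ofReal_re, Complex.log_re, D10_norm]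

theorem D10_im (c : ℝ) (ζ : ℂ) : (D10_w c ζ).im = Complex.arg (ζ * e (-c)) / (2 * Real.pi) := by
  rw [D10_w, Complex.div_ofReal_im, Complex.log_im]

theorem D10_val (c : ℝ) {t : ℝ} (ht : t ∈ Ioc (-(1 / 2) : ℝ) (1 / 2)) :
    D10_pr (D10_w c (eT ((c : T) + (t : T)))) = pt 0 t := by
  have hπ := Real.pi_pos
  have h1 : eT ((c : T) + (t : T)) * e (-c) = Complex.exp ⟨0, 2 * Real.pi * t⟩ := by
    rw [eT_add, eT_coe, eT_coe, ← e_add, ← e_add, e]
    congr 1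
    apply Complex.ext <;> simp
  have h2 : D10_w c (eT ((c : T) + (t : T))) = pt 0 t := by
    rw [D10_w, h1, Complex.log_exp (by dsimp only; nlinarith [ht.1])
      (by dsimp only; nlinarith [ht.2])]
    apply Complex.ext
    · rw [Complex.div_ofReal_re]
      simp [pt]
    · rw [Complex.div_ofReal_im]
      simp only [pt]
      field_simp
  rw [h2]
  simp [D10_pr, pt]

theorem D10_xi {F : ℂ → ℝ} {K : ℝ≥0} (hF : LipschitzOnWith K F HP)
    (hs : ∀ z ∈ HP, F z ≠ 0 → ‖z‖ < 1 / 4) (hE : En {z | 0 < z.re} F ≤ 1) (c : ℝ) :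
    Nice (fun ζ => F (D10_pr (D10_w c ζ))) ∧
      En {ζ | 1 < ‖ζ‖} (fun ζ => F (D10_pr (D10_w c ζ))) ≤ 1 := by
  have hπ := Real.pi_pos
  have hG : LipschitzWith (K * 2) fun w => F (D10_pr w) :=
    lipschitzOnWith_univ.1 (hF.comp D10_pr_lip.lipschitzOnWith fun w _ => D10_pr_mem w)
  have hc : Continuous fun ζ : ℂ => ζ * e (-c) := continuous_id.mul continuous_const
  have o1 : IsOpen {ζ : ℂ | ζ * e (-c) ∈ Complex.slitPlane} := Complex.isOpen_slitPlane.preimage hc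
  have o2 : IsOpen {ζ : ℂ | (ζ * e (-c)).re < 0} :=
    isOpen_lt (Complex.continuous_re.comp hc) continuous_const
  have o3 : IsOpen {ζ : ℂ | 1 < ‖ζ‖} := isOpen_lt continuous_const continuous_norm
  have d1 : DifferentiableOn ℂ (D10_w c) {ζ : ℂ | ζ * e (-c) ∈ Complex.slitPlane} :=
    (DifferentiableOn.clog (differentiableOn_id.mul_const _) fun _ h => h).div_const _
  have z2 : ∀ ζ ∈ {ζ : ℂ | (ζ * e (-c)).re < 0}, F (D10_pr (D10_w c ζ)) = 0 := by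
    intro ζ h
    by_contra h0
    have a1 := (Complex.abs_im_le_norm _).trans_lt (hs _ (D10_pr_mem _) h0)
    have a2 := not_le.1 (Complex.abs_arg_le_pi_div_two_iff.not.2 (not_le.2 h))
    change |(D10_w c ζ).im| < _ at a1
    rw [D10_im, abs_div, abs_of_pos (by positivity : 0 < 2 * Real.pi),
      div_lt_iff₀ (by positivity)] at a1
    linarith
  have cov : ∀ ζ : ℂ, ζ ≠ 0 → ζ * e (-c) ∈ Complex.slitPlane ∨ (ζ * e (-c)).re < 0 := by
    intro ζ h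
    have h1 : ζ * e (-c) ≠ 0 := by
      rw [← norm_ne_zero_iff, D10_norm]
      exact norm_ne_zero_iff.2 h
    by_contra h2
    rw [not_or, Complex.mem_slitPlane_iff, not_or, not_not, not_lt, not_lt] at h2
    exact h1 (Complex.ext (le_antisymm h2.1.1 h2.2) h2.1.2)
  refine ⟨⟨fun ζ hζ => ?_, Real.exp (2 * Real.pi), fun ζ hζ => ?_⟩, ?_⟩
  · rcases cov ζ hζ with h | h
    · exact (LL.of_diff o1 d1).lip_comp hG ζ h
    · exact LL.of_local (O := {ζ}) (fun z hz => ⟨fun _ => 0, LL.const _ 0,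
        eventually_of_mem (o2.mem_nhds (hz ▸ h)) z2⟩) ζ rfl
  · by_contra h0
    have a1 := (Complex.re_le_norm _).trans_lt (hs _ (D10_pr_mem _) h0)
    have a2 := Real.log_le_log (Real.exp_pos _) hζ
    change max (D10_w c ζ).re 0 < _ at a1
    rw [Real.log_exp] at a2
    rw [D10_re, max_lt_iff, div_lt_iff₀ (by positivity)] at a1
    linarith [a1.1]
  · have oA := o3.inter o1
    have pos : MapsTo (D10_w c) ({ζ : ℂ | 1 < ‖ζ‖} ∩ {ζ : ℂ | ζ * e (-c) ∈ Complex.slitPlane})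
        {z | 0 < z.re} := fun ζ h => by
      change 0 < (D10_w c ζ).re
      rw [D10_re]
      exact div_pos (Real.log_pos h.1) (by positivity)
    have oB : IsOpen {z : ℂ | 0 < z.re} := isOpen_lt continuous_const Complex.continuous_re
    have hL : LL {z : ℂ | 0 < z.re} F := fun z hz =>
      ⟨K, HP, mem_of_superset (oB.mem_nhds hz) fun w hw => le_of_lt (a := (0 : ℝ)) hw, hF⟩
    have e1 := En_comp_le oA (d1.mono inter_subset_right) pos hL oA.measurableSet Subset.rfl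
      oB.measurableSet pos (d := 1) fun w => by
        rw [Nat.cast_one, encard_le_one_iff]
        intro a b ha hb
        have h1 := ha.2.trans hb.2.symm
        rw [D10_w, D10_w, div_left_inj' (Complex.ofReal_ne_zero.2 (by positivity))] at h1
        have h2 := congrArg Complex.exp h1
        rw [Complex.exp_log (Complex.slitPlane_ne_zero ha.1.2),
          Complex.exp_log (Complex.slitPlane_ne_zero hb.1.2)] at h2
        exact mul_right_cancel₀ (norm_ne_zero_iff.1 (by rw [norm_e]; exact one_ne_zero)) h2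
    have e2 := En_congr oA (f := fun ζ => F (D10_pr (D10_w c ζ))) (f' := fun ζ => F (D10_w c ζ))
      fun ζ h => by
        have : D10_pr (D10_w c ζ) = D10_w c ζ := by
          rw [D10_pr, max_eq_left (le_of_lt (pos h))]
          rfl
        simp only [this]
    have e3 : En {ζ : ℂ | (ζ * e (-c)).re < 0} (fun ζ => F (D10_pr (D10_w c ζ))) = 0 := by
      rw [En_congr o2 (f' := fun _ => 0) z2]
      simp [En, gr_const]
    have e4 : {ζ : ℂ | 1 < ‖ζ‖} ⊆ ({ζ : ℂ | 1 < ‖ζ‖} ∩ {ζ : ℂ | ζ * e (-c) ∈ Complex.slitPlane}) ∪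
        {ζ : ℂ | (ζ * e (-c)).re < 0} := fun ζ h =>
      (cov ζ (norm_pos_iff.1 (one_pos.trans h))).imp_left fun k => ⟨h, k⟩
    refine (En_mono e4 _).trans ((lintegral_union_le _ _ _).trans ?_)
    change En _ _ + En _ _ ≤ 1
    rw [e2, e3, add_zero]
    refine e1.trans ?_
    rwa [Nat.cast_one, one_mul]

theorem D10_rep (x c : T) : ∃ t ∈ Ioc (-(1 / 2) : ℝ) (1 / 2), x = c + (t : T) := by
  obtain ⟨t, e, ht⟩ := exists_rep c x
  have h1 := dist_le_half x c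
  rw [← ht, abs_le] at h1
  rcases h1.1.eq_or_lt with h | h
  · refine ⟨1 / 2, by norm_num, ?_⟩
    rw [e, ← h, ← coe_add_one]
    norm_num
  · exact ⟨t, ⟨h, h1.2⟩, e⟩

theorem D10_far (c : T) {s t r : ℝ} (h₁ : r ≤ |s - t|) (h₂ : |s - t| ≤ 1 - r) :
    r ≤ dist (c + (s : T)) (c + (t : T)) := by
  rw [dist_add_left]
  exact le_dist_coe h₁ h₂

theorem D10_meas (c : T) : Measurable fun p : ℝ × ℝ => (c + (p.1 : T), c + (p.2 : T)) :=
  ((continuous_const.add (continuous_coeT.comp continuous_fst)).prodMk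
    (continuous_const.add (continuous_coeT.comp continuous_snd))).measurable

theorem D10_KB {ρ ρ' η B B' : ℝ} {ν : Measure (ℝ × ℝ)} (h : KB ρ η B ν) (h1 : ρ' ≤ ρ)
    (h2 : B ≤ B') : KB ρ' η B' ν :=
  fun t ht => (h t (ht.trans h1)).trans (ENNReal.ofReal_le_ofReal h2)

theorem D10_deep {H : Measure (T × T)} (hH : FinB H) {c : T} {X : Ch} (hX : Rep H c X) :
    ∃ R, ∀ η, 0 < η → η ≤ 1 / 100 → KB (1 / 4) η R X.H := by
  obtain ⟨R, hR⟩ := hH
  refine ⟨R, fun η h0 h1 t ht => ?_⟩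
  have hq : 0 < 2 * η / 3 := by positivity
  have hm : MeasurableSet (closedBall (c + ((t + η / 2 : ℝ) : T)) (2 * η / 3) ×ˢ
      {y : T | 2 * (2 * η / 3) ≤ dist y (c + ((t + η / 2 : ℝ) : T))}) :=
    measurableSet_closedBall.prod (AE_meas _ _)
  refine (hX.le hm fun p hp a b => ⟨?_, ?_⟩).trans ((DD_ge H hm fun p hp =>
    ⟨bump_one hq hp.1, bump_zero hq hp.2⟩).trans (hR _ _ hq (by linarith)))
  · refine (dist_add_coe_le _ _ _).trans (abs_le.2 ?_)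
    constructor <;> linarith [hp.1.1, hp.1.2]
  · have a1 := hp.1.1
    have a2 := hp.1.2
    have a3 := abs_le.1 ht
    refine D10_far c ?_ (abs_le.2 ⟨by linarith [b.1], by linarith [b.2]⟩)
    rcases le_abs.1 hp.2 with k | k
    · exact le_abs.2 (Or.inr (by linarith))
    · exact le_abs.2 (Or.inl (by linarith))

theorem D10_near {c : T} {a b r s : ℝ} (ha : |a| < r) (hb : b ∈ Ioo (-(1 / 2) : ℝ) (1 / 2))
    (h : dist (c + (a : T)) (c + (b : T)) < s) (h2 : r + s ≤ 1 / 2) : |a - b| < s := by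
  by_contra k
  have h3 := abs_lt.1 ha
  exact not_le.2 h (D10_far c (not_lt.1 k) (abs_le.2 ⟨by linarith [hb.2], by linarith [hb.1]⟩))

theorem D10_int {H : Measure (T × T)} {c : T} {X : Ch} (hX : Rep H c X) {u : T → ℝ}
    (hu : Continuous u) {f : ℝ → ℝ} (hf : ∀ t ∈ Ioo (-(1 / 2) : ℝ) (1 / 2), u (c + (t : T)) = f t)
    {r ρ s : ℝ} (h0 : ∀ t, f t ≠ 0 → |t| < r) (h1 : r + s ≤ ρ) (h2 : r + s ≤ 1 / 2) (hs : 0 ≤ s) :
    ∫⁻ p in SS univ 0 s, ENNReal.ofReal ((u p.1 - u p.2) ^ 2) ∂H ≤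
      ∫⁻ p in Cls ρ 0 s, ENNReal.ofReal ((f p.1 - f p.2) ^ 2) ∂X.H := by
  have m1 := measurableSet_SS MeasurableSet.univ 0 s
  have m2 : Measurable fun p : T × T => ENNReal.ofReal ((u p.1 - u p.2) ^ 2) :=
    (((hu.comp continuous_fst).sub (hu.comp continuous_snd)).pow 2).measurable.ennreal_ofReal
  rw [hX, setLIntegral_map m1 m2 (D10_meas c), ← lintegral_indicator (D10_meas c m1),
    ← lintegral_indicator (A9_Cls_meas ρ 0 s)]
  refine lintegral_mono_ae ?_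
  filter_upwards [X.H_ae] with p hp
  refine indicator_apply_le fun hq => ?_
  have hd : dist (c + (p.1 : T)) (c + (p.2 : T)) < s := hq.2.2
  rw [hf _ hp.1, hf _ hp.2]
  by_cases a : f p.1 = 0 ∧ f p.2 = 0
  · simp [a.1, a.2]
  · refine le_of_eq (indicator_of_mem (s := Cls ρ 0 s) ?_
      fun p : ℝ × ℝ => ENNReal.ofReal ((f p.1 - f p.2) ^ 2)).symm
    rcases not_and_or.1 a with a | a
    · have k1 := h0 _ a
      have k2 := D10_near k1 hp.2 hd h2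
      have k3 := abs_sub_abs_le_abs_sub p.2 p.1
      rw [abs_sub_comm] at k3
      exact ⟨by linarith, by linarith, abs_nonneg _, k2⟩
    · have k1 := h0 _ a
      have k2 := D10_near k1 hp.1 (dist_comm (c + (p.1 : T)) _ ▸ hd) h2
      have k3 := abs_sub_abs_le_abs_sub p.1 p.2
      rw [abs_sub_comm] at k2
      exact ⟨by linarith, by linarith, abs_nonneg _, k2⟩

theorem D10_mass {H : Measure (T × T)} {c α : ℝ} {X : Ch} (hX : Rep H ((c - α : ℝ) : T) X)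
    {u : T → ℝ} (hu : Continuous u) {f : ℝ → ℝ}
    (hf : ∀ t ∈ Ioo (-(1 / 2) : ℝ) (1 / 2), u ((c : T) + (t : T)) = f t) {r s : ℝ}
    (hr : r ≤ 1 / 2) :
    H {p | dist (p.1 + (α : T)) (c : T) < r ∧ s ≤ dist p.1 p.2 ∧ u (p.1 + (α : T)) ≠ 1} ≤
      X.H {p | |p.1| < r ∧ s ≤ |p.1 - p.2| ∧ f p.1 ≠ 1} := by
  have c1 : Continuous fun p : T × T => p.1 + (α : T) := continuous_fst.add continuous_const
  have m : MeasurableSet {p : T × T | dist (p.1 + (α : T)) (c : T) < r ∧ s ≤ dist p.1 p.2 ∧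
      u (p.1 + (α : T)) ≠ 1} :=
    (isOpen_lt (c1.dist continuous_const) continuous_const).measurableSet.inter
      ((isClosed_le continuous_const continuous_dist).measurableSet.inter
        (isOpen_ne_fun (hu.comp c1) continuous_const).measurableSet)
  rw [hX, Measure.map_apply (D10_meas _) m]
  refine measure_mono_ae ?_
  filter_upwards [X.H_ae] with p hp hq
  obtain ⟨q1, q2, q3⟩ := hq
  have e1 : ((c - α : ℝ) : T) + (p.1 : T) + (α : T) = (c : T) + (p.1 : T) := by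
    rw [AddCircle.coe_sub]
    abel
  dsimp only at q1 q2 q3
  rw [e1] at q1 q3
  refine ⟨?_, q2.trans (dist_add_coe_le _ _ _), hf _ hp.1 ▸ q3⟩
  by_contra k
  have := D10_far (c : T) (s := p.1) (t := 0) (r := r) (by rw [sub_zero]; exact not_lt.1 k)
    (by rw [sub_zero]; exact abs_le.2 ⟨by linarith [hp.1.1], by linarith [hp.1.2]⟩)
  rw [AddCircle.coe_zero, add_zero] at this
  exact not_le.2 q1 this

theorem tf_of_ld {A : ℝ} (hA : 8 ≤ A) : ∃ (a₀ V₀ : ℝ) (Mf : ℝ → ℝ), ∀ (Z : Ctx) (V : ℝ), V₀ ≤ V →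
    Bd Z.σ V → (∀ (c ρ₀ : ℝ) (j : ℕ) (X X' : Ch), Z.C.IsCh c X → Z.C.IsCh (c - Z.C.α) X' →
      0 ≤ ρ₀ → ρ₀ + 300 * Z.Λ.θ j ≤ 1 / 4 → a₀ * Z.Λ.θ (j + 1) ≤ Z.Λ.θ j →
      100 * Z.Λ.θ (j + 1) ≤ Z.Λ.θ j →
      Nonempty (LD A V ρ₀ (Z.Λ.θ j) (Z.Λ.θ (j + 1)) X.H X'.H)) →
    ∀ ε, 0 < ε → TF Z.σ ε (Mf ε) V := by
  obtain ⟨a₀, V₀, ha, h⟩ := asm_ge (A := A) (by linarith) 100
  choose! Mf h2 hM using h
  refine ⟨a₀, V₀, Mf, fun Z V hV hB hLD ε hε c g hg => ?_⟩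
  obtain ⟨c, -, rfl⟩ := exists_coe c
  obtain ⟨X, hX⟩ := exists_ch Z.C c
  obtain ⟨X', hX'⟩ := exists_ch Z.C (c - Z.C.α)
  have hH : Z.σ.H = Z.C.H := Z.hH
  have r1 : Rep Z.σ.H (c : T) X := hH ▸ rep Z.C c hX
  have r2 : Rep Z.σ.H ((c - Z.C.α : ℝ) : T) X' := hH ▸ rep Z.C _ hX'
  have m2 := h2 ε hε
  have p0 := Z.Λ.θ_pos g
  change Mf ε * Z.Λ.θ g ≤ _ at hg
  have p1 := mul_le_mul_of_nonneg_right m2 p0.le
  have p2 : (Mf ε + 40) * Z.Λ.θ g ≤ 1 / 40 := by linarith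
  have p3 : ∀ j, g ≤ j → Z.Λ.θ j ≤ 1 / 2000 := fun j hj => by linarith [Z.Λ.θ_anti hj]
  have p4 : 8 * V ≤ A * V := mul_le_mul_of_nonneg_right hA (by linarith [hB.one_le])
  obtain ⟨R, hR⟩ := D10_deep Z.σ.fin r1
  obtain ⟨F, ⟨K, f1⟩, f2, f3, f4, f5, f6⟩ := hM ε hε V Z.Λ.θ g X.H X'.H hV Z.Λ.θ_pos Z.Λ.θ_anti
    Z.Λ.θ_half X.H_symm
    (fun j hj k => hLD c _ j X X' hX hX' (by linarith) (by linarith [p3 j hj]) k
      ((mul_le_mul_of_nonneg_right ha (Z.Λ.θ_pos _).le).trans k))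
    (fun j hj => D10_KB (kb Z.σ hB r1 j ((p3 j hj).trans (by norm_num))) (by linarith) p4)
    (D10_KB (kb Z.σ hB r2 g ((p3 g le_rfl).trans (by norm_num))) (by linarith) p4)
    ⟨R, fun η a b => D10_KB (hR η a (by linarith [p3 g le_rfl])) (by linarith) le_rfl⟩
  obtain ⟨n1, n2⟩ := D10_xi f1 (fun z hz k => by linarith [f3 z hz k]) f4 c
  have hu : Continuous fun x => F (D10_pr (D10_w c (eT x))) :=
    continuous_iff_continuousAt.2 fun x =>
      (n1.lip.continuousAt (eT_ne x)).comp continuous_eT.continuousAt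
  have hv : ∀ t ∈ Ioo (-(1 / 2) : ℝ) (1 / 2),
      F (D10_pr (D10_w c (eT ((c : T) + (t : T))))) = F (pt 0 t) := fun t ht => by
    rw [D10_val c (Ioo_subset_Ioc_self ht)]
  have h0 : ∀ t, F (pt 0 t) ≠ 0 → |t| < Mf ε * Z.Λ.θ g := fun t k =>
    (Complex.abs_im_le_norm (pt 0 t)).trans_lt (f3 _ (le_refl (0 : ℝ)) k)
  have q1 := pull2 Z.C n1 n2
  rw [← hH] at q1
  have q2 := (D10_int r1 hu hv h0 (s := 8 * Z.Λ.θ g) (by linarith) (by linarith)
    (by linarith)).trans f5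
  have q3 := (D10_mass r2 hu hv (r := Z.Λ.θ g) (by linarith)).trans f6
  refine ⟨fun x => F (D10_pr (D10_w c (eT x))), hu, fun x => f2 _, fun x hx => ?_, q1, q2, q3⟩
  obtain ⟨t, ht, rfl⟩ := D10_rep x (c : T)
  simp only [D10_val c ht] at hx
  have := dist_add_coe_le (c : T) t 0
  rw [AddCircle.coe_zero, add_zero, sub_zero] at this
  exact this.trans_lt (h0 t hx)

end Pool.Agent.Work.MP_042f46_an.Fu
end
end

-- merged part: Pool.Agent.Work.MP_042f46_an.F.E2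
section
/-!
# Douglas integrals for a measure with power decay

Plan.  For `j : ℕ` let `r j = 2⁻¹ ^ j`, `m j x` the mean of `v` over `ball x (r j)` (volume `min 1 (2 r j)`, at least `r j`; `AddCircle.volume_closedBall`).  `m j x → v x`.  For `dist x y ∈ [r k / 2, r k)`: `|v x - v y| ≤ ∑ j ≥ k, a j x + ∑ j ≥ k, a j y + |m k x - m k y|`, where `a j x = |m j x - m (j + 1) x|`; each of `a j x ^ 2` and `|m k x - m k y| ^ 2` is at most `2 / r j ^ 2 * I j x` with `I j x = ∫∫ (v s - v t) ^ 2` over `s, t ∈ ball x (2 r j)` (Jensen).  With `λ = 2 ^ (s / 2)`: `(∑ j ≥ k, a j) ^ 2 ≤ (1 - λ⁻¹)⁻¹ ∑ j ≥ k, λ ^ (j - k) a j ^ 2`.  Integrate over class `k` (on which `ν` is finite: cover `T` by finitely many balls of radius `r k / 8`), use the symmetry for the terms in `y` and Tonelli: `∫ I j p.1 dν ≤ ∫∫ (v s - v t) ^ 2 1 {dist s t < 4 r j} ν {p.1 ∈ ball s (2 r j), class k}`, and the last mass is at most `C'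 2 ^ (-s (j - k))` (for `j < k + 4` cover by at most `32` balls of radius `r k / 8`, `cover`).  Sum over `k ≤ j`, then `∑ j, 1 {dist s t < 4 r j} / r j ^ 2 ≤ 22 / dist s t ^ 2 ≤ 28 * (4 π ^ 2 / ‖eT s - eT t‖ ^ 2)` (`chord_le`; `4 π ^ 2 / 49 ≥ 4 / 5`).  It is convenient to work in `ℝ≥0∞` throughout (`lintegral_tsum`, `ENNReal.tsum_comm`, `lintegral_withDensity_eq_lintegral_mul`).
-/

open Set Metric Topology Filter MeasureTheory
open scoped ENNReal NNReal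

noncomputable section
namespace Pool.Agent.Work.MP_042f46_an.Fu

open Pool.Agent.Work.MP_042f46_an.Ty

/-- squared increment -/
def E2_w (v : T → ℝ) (s t : T) : ℝ≥0∞ := ENNReal.ofReal ((v s - v t) ^ 2)

/-- squared increments from one point at scale `n` -/
def E2_W (v : T → ℝ) (n : ℕ) (s : T) : ℝ≥0∞ := ∫⁻ t in ball s (3 * 2⁻¹ ^ n), E2_w v s t

/-- normalised local energy at scale `n` -/
def E2_e (v : T → ℝ) (n : ℕ) (x : T) : ℝ≥0∞ := 4 ^ n * ∫⁻ s in ball x (2⁻¹ ^ n), E2_W v n s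

/-- weighted sum of the local energies below scale `k` -/
def E2_S (l : ℝ≥0∞) (v : T → ℝ) (k : ℕ) (x : T) : ℝ≥0∞ := ∑' j, l ^ j * E2_e v (j + k) x

theorem E2_set (ρ : ℝ) : MeasurableSet {q : T × T | dist q.2 q.1 < ρ} := by
  have h : Continuous fun q : T × T => dist q.2 q.1 := by fun_prop
  exact measurableSet_lt h.measurable measurable_const

theorem E2_ind (f : T × T → ℝ≥0∞) (ρ : ℝ) (s : T) : ∫⁻ t in ball s ρ, f (s, t) =
    ∫⁻ t, {q : T × T | dist q.2 q.1 < ρ}.indicator f (s, t) := by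
  rw [← lintegral_indicator measurableSet_ball]
  refine lintegral_congr fun t => ?_
  simp only [indicator, mem_ball, mem_ofPred_eq]

theorem E2_meas {f : T × T → ℝ≥0∞} (hf : Measurable f) (ρ : ℝ) :
    Measurable fun s => ∫⁻ t in ball s ρ, f (s, t) := by
  simp only [E2_ind]
  exact (hf.indicator (E2_set ρ)).lintegral_prod_right'

theorem E2_w_meas {v : T → ℝ} (hv : Continuous v) :
    Measurable fun q : T × T => E2_w v q.1 q.2 := by
  have h : Continuous fun q : T × T => (v q.1 - v q.2) ^ 2 := by fun_prop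
  exact h.measurable.ennreal_ofReal

theorem E2_W_meas {v : T → ℝ} (hv : Continuous v) (n : ℕ) : Measurable (E2_W v n) :=
  E2_meas (E2_w_meas hv) _

theorem E2_e_meas {v : T → ℝ} (hv : Continuous v) (n : ℕ) : Measurable (E2_e v n) :=
  (E2_meas (f := fun q => E2_W v n q.2) ((E2_W_meas hv n).comp measurable_snd) _).const_mul _

theorem E2_S_meas (l : ℝ≥0∞) {v : T → ℝ} (hv : Continuous v) (k : ℕ) : Measurable (E2_S l v k) :=
  Measurable.tsum fun _ => (E2_e_meas hv _).const_mul _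

theorem E2_vol (x : T) (n : ℕ) : 1 ≤ 2 ^ n * volume (ball x ((2⁻¹ : ℝ) ^ n)) := by
  have h0 : (0 : ℝ) < 2⁻¹ ^ n := by positivity
  have h1 : (2⁻¹ : ℝ) ^ n ≤ 1 := pow_le_one₀ (by norm_num) (by norm_num)
  have h2 : volume (closedBall x ((2⁻¹ : ℝ) ^ n / 2)) ≤ volume (ball x ((2⁻¹ : ℝ) ^ n)) :=
    measure_mono (closedBall_subset_ball (by linarith only [h0]))
  rw [AddCircle.volume_closedBall, mul_div_cancel₀ _ two_ne_zero, min_eq_right h1] at h2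
  refine le_trans (le_of_eq ?_) (mul_le_mul_right h2 _)
  rw [ENNReal.ofReal_pow (by norm_num), ← mul_pow, ENNReal.ofReal_inv_of_pos two_pos,
    ENNReal.ofReal_ofNat, ENNReal.mul_inv_cancel two_ne_zero ENNReal.ofNat_ne_top, one_pow]

theorem E2_pick {v : T → ℝ} (hv : Continuous v) (x : T) (n : ℕ) :
    ∃ a ∈ ball x ((2⁻¹ : ℝ) ^ n), 2 ^ n * E2_W v n a ≤ E2_e v n x := by
  have h1 := E2_vol x n
  have h0 : volume (ball x ((2⁻¹ : ℝ) ^ n)) ≠ 0 := fun h => by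
    rw [h, mul_zero] at h1
    exact one_ne_zero (le_zero_iff.1 h1)
  obtain ⟨a, ha, h⟩ := exists_le_setLAverage h0 (measure_ne_top _ _)
    (E2_W_meas hv n).aemeasurable
  refine ⟨a, ha, ?_⟩
  rw [setLAverage_eq, ENNReal.le_div_iff_mul_le (Or.inl h0) (Or.inl (measure_ne_top _ _))] at h
  calc 2 ^ n * E2_W v n a = 2 ^ n * E2_W v n a * 1 := (mul_one _).symm
    _ ≤ 2 ^ n * E2_W v n a * (2 ^ n * volume (ball x ((2⁻¹ : ℝ) ^ n))) := mul_le_mul_right h1 _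
    _ = 4 ^ n * (E2_W v n a * volume (ball x ((2⁻¹ : ℝ) ^ n))) := by
      rw [show (4 : ℝ≥0∞) = 2 * 2 by norm_num, mul_pow]
      ring
    _ ≤ _ := mul_le_mul_right h _

theorem E2_tri (v : T → ℝ) (a b t : T) : E2_w v a b ≤ 2 * E2_w v a t + 2 * E2_w v b t := by
  unfold E2_w
  rw [← ENNReal.ofReal_ofNat 2, ← ENNReal.ofReal_mul zero_le_two, ← ENNReal.ofReal_mul zero_le_two,
    ← ENNReal.ofReal_add (by positivity) (by positivity)]
  exact ENNReal.ofReal_le_ofReal (by nlinarith only [sq_nonneg (v a - v t + (v b - v t))])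

theorem E2_step {v : T → ℝ} (hv : Continuous v) {x a b : T} {n m m' : ℕ}
    (ha : ball x ((2⁻¹ : ℝ) ^ n) ⊆ ball a (3 * 2⁻¹ ^ m))
    (hb : ball x ((2⁻¹ : ℝ) ^ n) ⊆ ball b (3 * 2⁻¹ ^ m')) (hm : n ≤ m) (hm' : n ≤ m') :
    E2_w v a b ≤ 2 * (2 ^ m * E2_W v m a) + 2 * (2 ^ m' * E2_W v m' b) := by
  have k : ∀ c, Measurable (E2_w v c) := fun c =>
    (E2_w_meas hv).comp (measurable_prodMk_left (x := c))
  have h1 : E2_w v a b * volume (ball x ((2⁻¹ : ℝ) ^ n)) ≤ 2 * E2_W v m a + 2 * E2_W v m' b := by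
    rw [← setLIntegral_const]
    refine (lintegral_mono fun t => E2_tri v a b t).trans ?_
    rw [lintegral_add_left ((k a).const_mul _), lintegral_const_mul _ (k a),
      lintegral_const_mul _ (k b)]
    exact add_le_add (mul_le_mul_right (lintegral_mono_set ha) _)
      (mul_le_mul_right (lintegral_mono_set hb) _)
  have p : ∀ i, n ≤ i → (2 : ℝ≥0∞) ^ n ≤ 2 ^ i := fun i hi => pow_le_pow_right₀ one_le_two hi
  calc E2_w v a b = E2_w v a b * 1 := (mul_one _).symm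
    _ ≤ E2_w v a b * (2 ^ n * volume (ball x ((2⁻¹ : ℝ) ^ n))) := mul_le_mul_right (E2_vol x n) _
    _ = 2 ^ n * (E2_w v a b * volume (ball x ((2⁻¹ : ℝ) ^ n))) := by ring
    _ ≤ 2 ^ n * (2 * E2_W v m a + 2 * E2_W v m' b) := mul_le_mul_right h1 _
    _ = 2 * (2 ^ n * E2_W v m a) + 2 * (2 ^ n * E2_W v m' b) := by ring
    _ ≤ _ := add_le_add (mul_le_mul_right (mul_le_mul_left (p m hm) _) _)
      (mul_le_mul_right (mul_le_mul_left (p m' hm') _) _)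

theorem E2_chain_fin {ε : ℝ} (hε : 0 < ε) (N : ℕ) : ∀ u : ℕ → ℝ, (u 0 - u N) ^ 2 ≤
    (1 + ε⁻¹) * ∑ j ∈ Finset.range N, (1 + ε) ^ j * (u j - u (j + 1)) ^ 2 := by
  induction N with
  | zero => intro u; simp
  | succ N ih =>
    intro u
    have h := ih fun j => u (j + 1)
    have h1 : ε * ε⁻¹ = 1 := mul_inv_cancel₀ hε.ne'
    have h2 : 0 < ε⁻¹ := inv_pos.2 hε
    have h3 : ∑ j ∈ Finset.range N, (1 + ε) ^ (j + 1) * (u (j + 1) - u (j + 1 + 1)) ^ 2 =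
        (1 + ε) * ∑ j ∈ Finset.range N, (1 + ε) ^ j * (u (j + 1) - u (j + 1 + 1)) ^ 2 := by
      rw [Finset.mul_sum]
      exact Finset.sum_congr rfl fun j _ => by ring
    rw [Finset.sum_range_succ', h3]
    simp only [zero_add, pow_zero, one_mul] at h ⊢
    generalize ∑ j ∈ Finset.range N, (1 + ε) ^ j * (u (j + 1) - u (j + 1 + 1)) ^ 2 = Q at h ⊢
    have h4 := mul_le_mul_of_nonneg_left h (show 0 ≤ 1 + ε by linarith only [hε])
    have h5 := mul_nonneg h2.le (sq_nonneg (u 0 - u 1 - ε * (u 1 - u (N + 1))))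
    have h6 : ε⁻¹ * (u 0 - u 1 - ε * (u 1 - u (N + 1))) ^ 2 = ε⁻¹ * (u 0 - u 1) ^ 2 -
        2 * (ε * ε⁻¹) * ((u 0 - u 1) * (u 1 - u (N + 1))) +
          ε * (ε * ε⁻¹) * (u 1 - u (N + 1)) ^ 2 := by ring
    rw [h6, h1] at h5
    nlinarith only [h4, h5]

theorem E2_chain {ε : ℝ} (hε : 0 < ε) {u : ℕ → ℝ} {L : ℝ} (hu : Tendsto u atTop (𝓝 L)) :
    ENNReal.ofReal ((u 0 - L) ^ 2) ≤ ENNReal.ofReal (1 + ε⁻¹) *
      ∑' j, ENNReal.ofReal (1 + ε) ^ j * ENNReal.ofReal ((u j - u (j + 1)) ^ 2) := by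
  refine le_of_tendsto' (ENNReal.tendsto_ofReal ((tendsto_const_nhds.sub hu).pow 2)) fun N => ?_
  refine (ENNReal.ofReal_le_ofReal (E2_chain_fin hε N u)).trans ?_
  rw [ENNReal.ofReal_mul (by positivity), ENNReal.ofReal_sum_of_nonneg fun j _ => by positivity]
  refine mul_le_mul_right (le_trans (le_of_eq ?_) (ENNReal.sum_le_tsum (Finset.range N))) _
  refine Finset.sum_congr rfl fun j _ => ?_
  rw [ENNReal.ofReal_mul (by positivity), ENNReal.ofReal_pow (by positivity)]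

theorem E2_half {ε : ℝ} (hε : 0 < ε) {v : T → ℝ} (hv : Continuous v) (x : T) (k : ℕ) :
    ∃ a ∈ ball x ((2⁻¹ : ℝ) ^ k), 2 ^ k * E2_W v k a ≤ E2_S (ENNReal.ofReal (1 + ε)) v k x ∧
      E2_w v a x ≤ ENNReal.ofReal (1 + ε⁻¹) * (4 * E2_S (ENNReal.ofReal (1 + ε)) v k x) := by
  choose a ha h using E2_pick hv x
  have h1 : Tendsto a atTop (𝓝 x) := by
    rw [tendsto_iff_dist_tendsto_zero]
    exact squeeze_zero (fun _ => dist_nonneg) (fun n => (ha n).le)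
      (tendsto_pow_atTop_nhds_zero_of_lt_one (by norm_num) (by norm_num))
  have h2 : Tendsto (fun j => v (a (j + k))) atTop (𝓝 (v x)) :=
    ((hv.tendsto x).comp h1).comp (tendsto_add_atTop_nat k)
  have h3 := E2_chain hε h2
  have h4 : ∀ n, E2_w v (a n) (a (n + 1)) ≤ 2 * E2_e v n x + 2 * E2_e v (n + 1) x := fun n => by
    have p : (0 : ℝ) < 2⁻¹ ^ n := by positivity
    have k1 := mem_ball.1 (ha n)
    have k2 := mem_ball.1 (ha (n + 1))
    refine (E2_step hv (x := x) (n := n) (m := n) (m' := n + 1) (ball_subset_ball' ?_)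
      (ball_subset_ball' ?_) le_rfl (Nat.le_succ n)).trans
      (add_le_add (mul_le_mul_right (h n) _) (mul_le_mul_right (h (n + 1)) _))
    · rw [dist_comm]
      linarith only [k1, p]
    · rw [dist_comm]
      rw [pow_succ] at k2 ⊢
      linarith only [k2]
  have hl : 1 ≤ ENNReal.ofReal (1 + ε) := ENNReal.one_le_ofReal.2 (by linarith only [hε])
  generalize ENNReal.ofReal (1 + ε) = l at h3 hl ⊢
  refine ⟨a k, ha k, (h k).trans ?_, ?_⟩
  · refine le_trans (le_of_eq ?_) (ENNReal.le_tsum 0)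
    rw [pow_zero, one_mul, zero_add]
  · simp only [zero_add] at h3
    refine h3.trans (mul_le_mul_right ?_ _)
    have h5 : ∑' j, l ^ (j + 1) * E2_e v (j + 1 + k) x ≤ E2_S l v k x :=
      ENNReal.tsum_comp_le_tsum_of_injective (f := fun j => j + 1) (add_left_injective 1)
        fun j => l ^ j * E2_e v (j + k) x
    calc _ ≤ ∑' j, (2 * (l ^ j * E2_e v (j + k) x) + 2 * (l ^ (j + 1) * E2_e v (j + 1 + k) x)) := by
          refine ENNReal.tsum_le_tsum fun j => ?_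
          rw [show j + 1 + k = j + k + 1 by ring]
          refine (mul_le_mul_right (h4 (j + k)) _).trans ?_
          rw [mul_add, mul_left_comm, mul_left_comm (l ^ j)]
          exact add_le_add le_rfl (mul_le_mul_right
            (mul_le_mul_left (pow_le_pow_right₀ hl (Nat.le_succ j)) _) _)
      _ = 2 * E2_S l v k x + 2 * ∑' j, l ^ (j + 1) * E2_e v (j + 1 + k) x := by
          rw [ENNReal.tsum_add, ENNReal.tsum_mul_left, ENNReal.tsum_mul_left, E2_S]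
      _ ≤ 2 * E2_S l v k x + 2 * E2_S l v k x := add_le_add le_rfl (mul_le_mul_right h5 _)
      _ = _ := by ring

theorem E2_comm (v : T → ℝ) (a b : T) : E2_w v a b = E2_w v b a := by
  unfold E2_w
  rw [show (v a - v b) ^ 2 = (v b - v a) ^ 2 by ring]

theorem E2_point {ε : ℝ} (hε : 0 < ε) {v : T → ℝ} (hv : Continuous v) {x y : T} {k : ℕ}
    (hxy : dist x y < 2⁻¹ ^ k) : E2_w v x y ≤ (16 * ENNReal.ofReal (1 + ε⁻¹) + 8) *
      (E2_S (ENNReal.ofReal (1 + ε)) v k x + E2_S (ENNReal.ofReal (1 + ε)) v k y) := by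
  obtain ⟨a, ha, a1, a2⟩ := E2_half hε hv x k
  obtain ⟨b, hb, b1, b2⟩ := E2_half hε hv y k
  have p : (0 : ℝ) < 2⁻¹ ^ k := by positivity
  have k1 := mem_ball'.1 ha
  have k2 := mem_ball'.1 hb
  have h := (E2_step hv (x := x) (a := a) (b := b) (n := k) (m := k) (m' := k)
    (ball_subset_ball' (by linarith only [k1, p]))
    (ball_subset_ball' (by linarith only [k2, hxy, dist_triangle x y b])) le_rfl le_rfl).trans
    (add_le_add (mul_le_mul_right a1 _) (mul_le_mul_right b1 _))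
  have t1 := E2_tri v x y a
  have t2 := E2_tri v y a b
  rw [E2_comm v x a] at t1
  rw [E2_comm v y b] at t2
  generalize E2_S (ENNReal.ofReal (1 + ε)) v k x = P at *
  generalize E2_S (ENNReal.ofReal (1 + ε)) v k y = Q at *
  generalize ENNReal.ofReal (1 + ε⁻¹) = c at *
  calc _ ≤ 2 * (c * (4 * P)) + 2 * (2 * (c * (4 * Q)) + 2 * (2 * P + 2 * Q)) :=
        t1.trans (add_le_add (mul_le_mul_right a2 _) (mul_le_mul_right
          (t2.trans (add_le_add (mul_le_mul_right b2 _) (mul_le_mul_right h _))) _))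
    _ ≤ 2 * (c * (4 * P)) + 2 * (2 * (c * (4 * Q)) + 2 * (2 * P + 2 * Q)) + 8 * (c * P) :=
        le_self_add
    _ = _ := by ring

theorem E2_tonelli (μ : Measure T) [IsFiniteMeasure μ] {g : T → ℝ≥0∞} (hg : Measurable g) {ρ : ℝ}
    {M : ℝ≥0∞} (hM : ∀ z, μ (ball z ρ) ≤ M) :
    ∫⁻ x, (∫⁻ s in ball x ρ, g s) ∂μ ≤ M * ∫⁻ s, g s := by
  have h := E2_ind (fun q => g q.2) ρ
  simp only at h
  simp only [h]
  rw [lintegral_lintegral_swap
    (f := fun x t => {q : T × T | dist q.2 q.1 < ρ}.indicator (fun q => g q.2) (x, t))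
    (((hg.comp measurable_snd).indicator (E2_set ρ)).aemeasurable), ← lintegral_const_mul _ hg]
  refine lintegral_mono fun s => ?_
  have h1 : ∀ x, {q : T × T | dist q.2 q.1 < ρ}.indicator (fun q => g q.2) (x, s) =
      (ball s ρ).indicator (fun _ => g s) x := fun x => by
    simp only [indicator, mem_ball', mem_ofPred_eq]
  simp only [h1]
  rw [lintegral_indicator measurableSet_ball, setLIntegral_const, mul_comm]
  exact mul_le_mul_left (hM s) _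

theorem E2_mass {C s : ℝ} {ν : Measure (T × T)}
    (h : ∀ (z : T) (r d : ℝ), 0 < r → 8 * r ≤ d →
      ν (SS (ball z r) (d / 2) d) ≤ ENNReal.ofReal (C * (r / d) ^ s))
    {d : ℝ} (hd : 0 < d) (z : T) (R : ℝ) {n : ℕ} (hn : 2 * R ≤ n * (d / 8)) :
    ν (SS (ball z R) (d / 2) d) ≤ n * ENNReal.ofReal (|C| * (1 / 8) ^ s) := by
  obtain ⟨x, hx⟩ := cover z (show 0 < d / 8 by positivity) n hn
  have h1 : SS (ball z R) (d / 2) d ⊆ ⋃ i ∈ Finset.range n, SS (ball (x i) (d / 8)) (d / 2) d := by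
    intro p hp
    obtain ⟨i, hi, k⟩ := mem_iUnion₂.1 (hx hp.1)
    exact mem_iUnion₂.2 ⟨i, hi, k, hp.2⟩
  refine (measure_mono h1).trans ((measure_biUnion_finset_le _ _).trans ?_)
  refine (Finset.sum_le_card_nsmul _ _ _ fun i _ => ?_).trans
    (le_of_eq (by rw [Finset.card_range, nsmul_eq_mul]))
  refine (h (x i) (d / 8) d (by positivity) (by linarith only [])).trans
    (ENNReal.ofReal_le_ofReal ?_)
  rw [show d / 8 / d = 1 / 8 by field_simp]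
  exact mul_le_mul_of_nonneg_right (le_abs_self C) (by positivity)

theorem E2_mass' {C s : ℝ} (hs : 0 < s) {ν : Measure (T × T)}
    (h : ∀ (z : T) (r d : ℝ), 0 < r → 8 * r ≤ d →
      ν (SS (ball z r) (d / 2) d) ≤ ENNReal.ofReal (C * (r / d) ^ s))
    {d r : ℝ} (hr : 0 < r) (hd : r ≤ d) (z : T) :
    ν (SS (ball z r) (d / 2) d) ≤ 16 * ENNReal.ofReal (|C| * (r / d) ^ s) := by
  have hd0 := hr.trans_le hd
  rcases le_total (8 * r) d with k | k
  · refine (h z r d hr k).trans ((ENNReal.ofReal_le_ofReal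
      (mul_le_mul_of_nonneg_right (le_abs_self C) (by positivity))).trans ?_)
    exact le_mul_of_one_le_left' (by norm_num)
  · refine (E2_mass h hd0 z r (n := 16) (by push_cast; linarith only [hd])).trans ?_
    refine mul_le_mul' (by norm_num) (ENNReal.ofReal_le_ofReal (mul_le_mul_of_nonneg_left
      (Real.rpow_le_rpow (by norm_num) ?_ hs.le) (abs_nonneg C)))
    rw [le_div_iff₀ hd0]
    linarith only [k]

theorem E2_geo {d : ℝ} (hd : 0 < d) (M : ℕ) :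
    ∑ n ∈ Finset.range M, (if d < 3 * 2⁻¹ ^ n then (4 : ℝ) ^ n else 0) ≤ 4 ^ M / 3 ∧
    ∑ n ∈ Finset.range M, (if d < 3 * 2⁻¹ ^ n then (4 : ℝ) ^ n else 0) ≤ 12 / d ^ 2 := by
  induction M with
  | zero =>
    rw [Finset.sum_range_zero]
    exact ⟨by positivity, by positivity⟩
  | succ M ih =>
    have p : (0 : ℝ) < 4 ^ M := by positivity
    rw [Finset.sum_range_succ, pow_succ]
    split_ifs with h
    · refine ⟨by linarith only [ih.1], ?_⟩
      have h1 : (4 : ℝ) ^ M * (2⁻¹ ^ M) ^ 2 = 1 := by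
        rw [← pow_mul, mul_comm M 2, pow_mul, ← mul_pow]
        norm_num
      have h2 : d ^ 2 ≤ (3 * 2⁻¹ ^ M) ^ 2 := pow_le_pow_left₀ hd.le h.le 2
      have h3 : (4 : ℝ) ^ M * 4 / 3 ≤ 12 / d ^ 2 := by
        rw [le_div_iff₀ (by positivity)]
        nlinarith only [mul_le_mul_of_nonneg_left h2 p.le, h1]
      linarith only [ih.1, h3]
    · exact ⟨by linarith only [ih.1, p], by linarith only [ih.2]⟩

theorem E2_kernel (v : T → ℝ) (q : T × T) :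
    ∑' n : ℕ, 4 ^ n * {q : T × T | dist q.2 q.1 < 3 * 2⁻¹ ^ n}.indicator
      (fun q => E2_w v q.1 q.2) q ≤
      17 * (ENNReal.ofReal (4 * Real.pi ^ 2 / ‖eT q.1 - eT q.2‖ ^ 2) * E2_w v q.1 q.2) := by
  rcases (dist_nonneg (x := q.2) (y := q.1)).eq_or_lt with h | h
  · have h1 : E2_w v q.1 q.2 = 0 := by simp [E2_w, dist_eq_zero.1 h.symm]
    simp [indicator, h1]
  · have h1 : ∀ n : ℕ, 4 ^ n * {q : T × T | dist q.2 q.1 < 3 * 2⁻¹ ^ n}.indicator
        (fun q => E2_w v q.1 q.2) q = ENNReal.ofReal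
          (if dist q.2 q.1 < 3 * 2⁻¹ ^ n then (4 : ℝ) ^ n else 0) * E2_w v q.1 q.2 := fun n => by
      simp only [indicator, mem_ofPred_eq]
      split_ifs
      · rw [ENNReal.ofReal_pow (by norm_num), ENNReal.ofReal_ofNat]
      · simp
    simp only [h1]
    rw [ENNReal.tsum_mul_right, ← mul_assoc]
    refine mul_le_mul_left (ENNReal.tsum_le_of_sum_range_le fun M => ?_) _
    rw [← ENNReal.ofReal_sum_of_nonneg fun n _ => by split_ifs <;> positivity,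
      ← ENNReal.ofReal_ofNat 17, ← ENNReal.ofReal_mul (by norm_num)]
    refine ENNReal.ofReal_le_ofReal ((E2_geo h M).2.trans ?_)
    have h2 := chord_le q.1 q.2
    have h3 := chord_ge q.1 q.2
    rw [dist_comm] at h2 h3
    have h4 : 0 < ‖eT q.1 - eT q.2‖ := by linarith only [h, h3]
    have h5 := pow_le_pow_left₀ h4.le h2 2
    have h6 : 9 ≤ Real.pi ^ 2 := by nlinarith only [Real.pi_gt_three]
    rw [← mul_div_assoc, div_le_div_iff₀ (by positivity) (by positivity)]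
    nlinarith only [h5, mul_le_mul_of_nonneg_right h6 (sq_nonneg (dist q.2 q.1)),
      sq_nonneg (dist q.2 q.1)]

theorem E2_total {v : T → ℝ} (hv : Continuous v) :
    ∑' n : ℕ, 4 ^ n * ∫⁻ s, E2_W v n s ≤ 17 * DD H0 v := by
  have m := E2_w_meas hv
  have h : ∀ n : ℕ, 4 ^ n * ∫⁻ s, E2_W v n s = ∫⁻ q, 4 ^ n *
      {q : T × T | dist q.2 q.1 < 3 * 2⁻¹ ^ n}.indicator (fun q => E2_w v q.1 q.2) q
        ∂((volume : Measure T).prod volume) := fun n => by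
    rw [lintegral_const_mul _ (m.indicator (E2_set _)),
      lintegral_prod _ (m.indicator (E2_set _)).aemeasurable]
    exact congrArg _ (lintegral_congr fun s => E2_ind (fun q => E2_w v q.1 q.2) _ s)
  simp only [h]
  rw [← lintegral_tsum fun n => ((m.indicator (E2_set _)).const_mul _).aemeasurable]
  refine (lintegral_mono (E2_kernel v)).trans (le_of_eq ?_)
  rw [lintegral_const_mul _ (B6_meas.fun_mul m), DD, H0]
  exact congrArg _ (lintegral_withDensity_eq_lintegral_mul _ B6_meas m).symm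

theorem E2_class {C s : ℝ} (hs : 0 < s) {ν : Measure (T × T)}
    (h : ∀ (z : T) (r d : ℝ), 0 < r → 8 * r ≤ d →
      ν (SS (ball z r) (d / 2) d) ≤ ENNReal.ofReal (C * (r / d) ^ s))
    {v : T → ℝ} (hv : Continuous v) {l : ℝ} (hl : 0 ≤ l) (k : ℕ) :
    ∫⁻ p in SS univ (2⁻¹ ^ k / 2) (2⁻¹ ^ k), E2_S (ENNReal.ofReal l) v k p.1 ∂ν ≤
      ∑' j, 16 * ENNReal.ofReal |C| * ENNReal.ofReal (l * 2⁻¹ ^ s) ^ j *
        (4 ^ (j + k) * ∫⁻ s, E2_W v (j + k) s) := by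
  have p : (0 : ℝ) < 2⁻¹ ^ k := by positivity
  have mS := measurableSet_SS MeasurableSet.univ ((2⁻¹ : ℝ) ^ k / 2) (2⁻¹ ^ k)
  have hμ : ∀ z ρ, (ν.restrict (SS univ (2⁻¹ ^ k / 2) (2⁻¹ ^ k))).map Prod.fst (ball z ρ) =
      ν (SS (ball z ρ) (2⁻¹ ^ k / 2) (2⁻¹ ^ k)) := fun z ρ => by
    rw [Measure.map_apply measurable_fst measurableSet_ball, Measure.restrict_apply' mS]
    congr 1
    ext p
    simp only [SS, mem_inter_iff, mem_preimage, mem_ofPred_eq, mem_univ, true_and]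
  rw [← lintegral_map (E2_S_meas _ hv k) measurable_fst]
  generalize (ν.restrict (SS univ (2⁻¹ ^ k / 2) (2⁻¹ ^ k))).map Prod.fst = μ at hμ
  have : IsFiniteMeasure μ := by
    obtain ⟨n, hn⟩ := exists_nat_ge (2 * 1 / ((2⁻¹ : ℝ) ^ k / 8))
    rw [div_le_iff₀ (by positivity)] at hn
    have h1 : (univ : Set T) = ball 0 1 :=
      (eq_univ_of_forall fun x => (dist_le_half x 0).trans_lt (by norm_num)).symm
    refine ⟨?_⟩
    rw [h1, hμ]
    exact (E2_mass h p 0 1 hn).trans_lt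
      (ENNReal.mul_lt_top (ENNReal.natCast_lt_top n) ENNReal.ofReal_lt_top)
  unfold E2_S
  rw [lintegral_tsum fun j => ((E2_e_meas hv _).const_mul _).aemeasurable]
  refine ENNReal.tsum_le_tsum fun j => ?_
  have h2 : ∀ z, μ (ball z (2⁻¹ ^ (j + k))) ≤
      16 * (ENNReal.ofReal |C| * ENNReal.ofReal (2⁻¹ ^ s) ^ j) := fun z => by
    rw [hμ]
    refine (E2_mass' hs h (by positivity) (pow_le_pow_of_le_one (by norm_num) (by norm_num)
      (Nat.le_add_left k j)) z).trans (le_of_eq ?_)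
    rw [pow_add, mul_div_cancel_right₀ _ p.ne', ENNReal.ofReal_mul (abs_nonneg C),
      ← ENNReal.ofReal_pow (by positivity), ← Real.rpow_pow_comm (by norm_num)]
  rw [lintegral_const_mul _ (E2_e_meas hv _)]
  unfold E2_e
  rw [lintegral_const_mul _ (E2_meas (f := fun q => E2_W v (j + k) q.2)
    ((E2_W_meas hv _).comp measurable_snd) _)]
  refine (mul_le_mul_right (mul_le_mul_right
    (E2_tonelli μ (E2_W_meas hv _) h2) _) _).trans (le_of_eq ?_)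
  rw [ENNReal.ofReal_mul hl, mul_pow]
  ring

theorem DDQ (C : ℝ) {s : ℝ} (hs : 0 < s) : ∃ B : ℝ, ∀ ν : Measure (T × T), ν.map Prod.swap = ν →
    (∀ (z : T) (r d : ℝ), 0 < r → 8 * r ≤ d →
      ν (SS (ball z r) (d / 2) d) ≤ ENNReal.ofReal (C * (r / d) ^ s)) →
    ∀ v : T → ℝ, Continuous v → DD ν v ≤ ENNReal.ofReal B * DD H0 v := by
  have q0 : (0 : ℝ) < 2⁻¹ ^ s := by positivity
  have q1 : (2⁻¹ : ℝ) ^ s < 1 := Real.rpow_lt_one (by norm_num) (by norm_num) hs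
  obtain ⟨ε, hε, hq⟩ : ∃ ε : ℝ, 0 < ε ∧ (1 + ε) * 2⁻¹ ^ s < 1 :=
    ⟨1 - 2⁻¹ ^ s, by linarith only [q1], by nlinarith only [q1, mul_pos (sub_pos.2 q1) (sub_pos.2 q1)]⟩
  have hG : ∑' j, ENNReal.ofReal ((1 + ε) * 2⁻¹ ^ s) ^ j ≠ ∞ := by
    rw [ENNReal.tsum_geometric]
    exact ENNReal.inv_ne_top.2 (tsub_pos_of_lt (ENNReal.ofReal_lt_one.2 hq)).ne'
  have hK : (16 * ENNReal.ofReal (1 + ε⁻¹) + 8) * (2 * (16 * ENNReal.ofReal |C| *
      (∑' j, ENNReal.ofReal ((1 + ε) * 2⁻¹ ^ s) ^ j) * 17)) ≠ ∞ := by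
    refine ENNReal.mul_ne_top (ENNReal.add_ne_top.2 ⟨ENNReal.mul_ne_top ENNReal.ofNat_ne_top
      ENNReal.ofReal_ne_top, ENNReal.ofNat_ne_top⟩) (ENNReal.mul_ne_top ENNReal.ofNat_ne_top ?_)
    exact ENNReal.mul_ne_top (ENNReal.mul_ne_top (ENNReal.mul_ne_top ENNReal.ofNat_ne_top
      ENNReal.ofReal_ne_top) hG) ENNReal.ofNat_ne_top
  refine ⟨_, fun ν hν h v hv => le_trans ?_
    (le_of_eq (congrArg (· * DD H0 v) (ENNReal.ofReal_toReal hK).symm))⟩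
  have hc := E2_class hs h hv (show 0 ≤ 1 + ε by linarith only [hε])
  have hp := fun x y k => E2_point hε hv (x := x) (y := y) (k := k)
  have mS := E2_S_meas (ENNReal.ofReal (1 + ε)) hv
  generalize E2_S (ENNReal.ofReal (1 + ε)) v = S at hc hp mS
  generalize 16 * ENNReal.ofReal (1 + ε⁻¹) + 8 = K at hp ⊢
  generalize ENNReal.ofReal ((1 + ε) * 2⁻¹ ^ s) = g at hc ⊢
  generalize 16 * ENNReal.ofReal |C| = c at hc ⊢
  have mC := fun k : ℕ => measurableSet_SS MeasurableSet.univ ((2⁻¹ : ℝ) ^ k / 2) (2⁻¹ ^ k)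
  have m1 : ∀ k, Measurable fun p : T × T => S k p.1 := fun k => (mS k).comp measurable_fst
  have m2 : ∀ k, Measurable fun p : T × T => S k p.2 := fun k => (mS k).comp measurable_snd
  have h1 : ∀ p : T × T, E2_w v p.1 p.2 ≤ ∑' k : ℕ, (SS univ (2⁻¹ ^ k / 2) (2⁻¹ ^ k)).indicator
      (fun p => K * (S k p.1 + S k p.2)) p := fun p => by
    rcases (dist_nonneg (x := p.1) (y := p.2)).eq_or_lt with e | e
    · simp [E2_w, dist_eq_zero.1 e.symm]
    · obtain ⟨n, hn⟩ := exists_pow_lt_of_lt_one e (show (2⁻¹ : ℝ) < 1 by norm_num)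
      obtain ⟨k, k1, k2⟩ := Nat.exists_not_and_succ_of_not_zero_of_exists
        (p := fun n => (2⁻¹ : ℝ) ^ n ≤ dist p.1 p.2)
        (not_le.2 ((dist_le_half _ _).trans_lt (by norm_num))) ⟨n, hn.le⟩
      refine le_trans ?_ (ENNReal.le_tsum k)
      rw [indicator_of_mem (show p ∈ SS univ ((2⁻¹ : ℝ) ^ k / 2) (2⁻¹ ^ k) from
        ⟨mem_univ _, by rwa [div_eq_mul_inv, ← pow_succ], not_le.1 k1⟩)]
      exact hp _ _ k (not_le.1 k1)
  have h2 : ∀ k : ℕ, ∫⁻ p in SS univ (2⁻¹ ^ k / 2) (2⁻¹ ^ k), S k p.2 ∂ν =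
      ∫⁻ p in SS univ (2⁻¹ ^ k / 2) (2⁻¹ ^ k), S k p.1 ∂ν := fun k => by
    conv_lhs => rw [← hν]
    rw [setLIntegral_map (mC k) (m2 k) measurable_swap]
    have e : Prod.swap ⁻¹' SS univ ((2⁻¹ : ℝ) ^ k / 2) (2⁻¹ ^ k) =
        SS univ (2⁻¹ ^ k / 2) (2⁻¹ ^ k) := by
      ext p
      simp only [SS, mem_preimage, mem_ofPred_eq, mem_univ, true_and, Prod.fst_swap,
        Prod.snd_swap, dist_comm]
    rw [e]
    rfl
  calc DD ν v ≤ _ := lintegral_mono h1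
    _ = ∑' k : ℕ, K * (2 * ∫⁻ p in SS univ (2⁻¹ ^ k / 2) (2⁻¹ ^ k), S k p.1 ∂ν) := by
      rw [lintegral_tsum fun k => ((((m1 k).fun_add (m2 k)).const_mul _).indicator (mC k)).aemeasurable]
      refine tsum_congr fun k => ?_
      rw [lintegral_indicator (mC k), lintegral_const_mul _ ((m1 k).fun_add (m2 k)),
        lintegral_add_left (m1 k), h2, two_mul]
    _ ≤ K * (2 * ∑' k : ℕ, ∑' j, c * g ^ j * (4 ^ (j + k) * ∫⁻ s, E2_W v (j + k) s)) := by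
      rw [ENNReal.tsum_mul_left, ENNReal.tsum_mul_left]
      exact mul_le_mul_right (mul_le_mul_right (ENNReal.tsum_le_tsum hc) _) _
    _ ≤ K * (2 * ∑' j : ℕ, c * g ^ j * (17 * DD H0 v)) := by
      rw [ENNReal.tsum_comm]
      refine mul_le_mul_right (mul_le_mul_right (ENNReal.tsum_le_tsum fun j => ?_) _) _
      rw [ENNReal.tsum_mul_left]
      exact mul_le_mul_right ((ENNReal.tsum_comp_le_tsum_of_injective (f := fun k => j + k)
        (add_right_injective j) fun n => 4 ^ n * ∫⁻ s, E2_W v n s).trans (E2_total hv)) _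
    _ = _ := by
      rw [ENNReal.tsum_mul_right, ENNReal.tsum_mul_left]
      ring

end Pool.Agent.Work.MP_042f46_an.Fu
end
end

-- merged part: Pool.Agent.Work.MP_042f46_an.F.E3
section
/-!
# The rotation is bounded on the Douglas integral

Plan.  `βT` is a continuous bijection of a compact space, so a homeomorphism (`Continuous.homeoOfEquivCompactToT2`, `βT_inj`, `βT_surj`); let `k x = βT⁻¹ (x - α)`, `ν = C.H.map (Prod.map k k)`.  Then `DD C.H (u (· - α)) = DD ν (u ∘ βT)`, `DD C.H u = DD H0 (u ∘ βT)` (`DD_H`), `ν (arc a b ×ˢ arc c d) = C.H X` with `X = arc (β a + α) (β b + α) ×ˢ arc (β c + α) (β d + α)` and `C.H (sh α X) = H0 (arc a b ×ˢ arc c d)` (`CB_rect`, `βT_arc`); `C.H` is finite on these (`off_fin finB`, `off_arc`), `ν` is symmetric.  For `z = ↑t`, `8 r ≤ d ≤ 1` (for `d > 1` the set is empty): `SS (ball z r) (d / 2) d ⊆ A ×ˢ B`, `A = arc (t - r) (t + r)`, `B = arc (t + d / 2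 - r) (t + 1 - d / 2 + r)`; `A'`, `B'` the two complementary arcs.  `H0_rect`: `exp (H0 (A' ×ˢ B')) = sin (π d / 2) ^ 2 / (sin (π (d - 2 r)) sin (2 π r)) ≥ d / (20 r)`, and `exp (H0 (A' ×ˢ B')) - 1 = (1 - cos (π (d - 4 r))) / (cos (π (d - 4 r)) - cos (π d)) ≥ 1 / π ^ 2`, so `H0 (A ×ˢ B) ≤ 3` by `H0_dual`.  `QS` gives `ν (A ×ˢ B) ≤ 4 B` and `ν (A' ×ˢ B') ≥ log (d / (20 r)) / B - 1`; `H_dual` gives `ν (A ×ˢ B) ≤ exp (ν (A ×ˢ B)) - 1 = 1 / (exp (ν (A' ×ˢ B')) - 1) ≤ 2 e (20 r / d) ^ (1 / B)` as soon as `(d / (20 r)) ^ (1 / B) ≥ 2 e`.  So `DDQ` applies with `s = 1 / B`, `C = 8 e B 20 ^ (1 / B)`.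
-/

open Set Metric Topology Filter MeasureTheory
open scoped ENNReal NNReal

noncomputable section
namespace Pool.Agent.Work.MP_042f46_an.Fu

open Pool.Agent.Work.MP_042f46_an.Ty

theorem E3_arc (a b α : ℝ) (x : T) : x + (α : T) ∈ arc (a + α) (b + α) ↔ x ∈ arc a b := by
  constructor
  · rintro ⟨t, ht, e⟩
    refine ⟨t - α, ⟨by linarith only [ht.1], by linarith only [ht.2]⟩, ?_⟩
    show ((t - α : ℝ) : T) = x
    rw [AddCircle.coe_sub, show ((t : ℝ) : T) = x + (α : T) from e, add_sub_cancel_right]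
  · rintro ⟨t, ht, rfl⟩
    exact ⟨t + α, ⟨by linarith only [ht.1], by linarith only [ht.2]⟩, AddCircle.coe_add _ _ _⟩

theorem E3_sub (t r d : ℝ) : SS (ball (t : T) r) (d / 2) d ⊆
    arc (t - r) (t + r) ×ˢ arc (t + d / 2 - r) (t + 1 - d / 2 + r) := by
  rintro ⟨x, y⟩ ⟨h1, h2, -⟩
  obtain ⟨s, rfl, hs⟩ := exists_rep (t : T) x
  obtain ⟨s1, s2⟩ := abs_lt.1 (hs.trans_lt h1)
  obtain ⟨v, hv, e⟩ := exists_coe (y - ((t : T) + (s : T)))
  have ey : y = (t : T) + ((s + v : ℝ) : T) := by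
    rw [AddCircle.coe_add, ← e]
    abel
  have ey' : y = (t : T) + ((s + v - 1 : ℝ) : T) := by
    rw [ey, ← coe_add_one (s + v - 1), sub_add_cancel]
  have k1 : d / 2 ≤ |s - (s + v)| := by
    refine le_trans ?_ (dist_add_coe_le (t : T) s (s + v))
    rw [← ey]
    exact h2
  have k2 : d / 2 ≤ |s - (s + v - 1)| := by
    refine le_trans ?_ (dist_add_coe_le (t : T) s (s + v - 1))
    rw [← ey']
    exact h2
  rw [abs_of_nonpos (by linarith only [hv.1])] at k1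
  rw [abs_of_nonneg (by linarith only [hv.2])] at k2
  refine ⟨⟨t + s, ⟨by linarith only [s1], by linarith only [s2]⟩, AddCircle.coe_add _ _ _⟩,
    ⟨t + (s + v), ⟨by linarith only [s1, k1], by linarith only [s2, k2]⟩, ?_⟩⟩
  show ((t + (s + v) : ℝ) : T) = y
  rw [ey, AddCircle.coe_add]

theorem E3_low {x : ℝ} (h0 : 0 ≤ x) (h1 : x ≤ 1 / 2) : 2 * x ≤ Real.sin (Real.pi * x) := by
  have hp := Real.pi_pos
  have h := Real.mul_le_sin (x := Real.pi * x) (by positivity) (by nlinarith)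
  rwa [show 2 / Real.pi * (Real.pi * x) = 2 * x by field_simp] at h

theorem E3_refl (x : ℝ) : Real.sin (Real.pi * (1 - x)) = Real.sin (Real.pi * x) := by
  rw [← Real.sin_pi_sub]
  ring_nf

theorem E3_pi : Real.pi ^ 2 ≤ 10 := by nlinarith [Real.pi_pos, Real.pi_lt_d2]

theorem E3_up (t : ℝ) {r d : ℝ} (hr : 0 < r) (h : 8 * r ≤ d) (hd : d ≤ 1) :
    H0.real (arc (t - r) (t + r) ×ˢ arc (t + d / 2 - r) (t + 1 - d / 2 + r)) ≤ 9 := by
  have hp := Real.pi_pos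
  rw [H0_rect (by linarith) (by linarith) (by linarith) (by linarith),
    show t + d / 2 - r - (t - r) = d / 2 by ring,
    show t + 1 - d / 2 + r - (t + r) = 1 - d / 2 by ring,
    show t + d / 2 - r - (t + r) = d / 2 - 2 * r by ring,
    show t + 1 - d / 2 + r - (t - r) = 1 - (d / 2 - 2 * r) by ring, E3_refl, E3_refl]
  have a0 := B6_sin (t := d / 2) (by linarith) (by linarith)
  have a1 : Real.sin (Real.pi * (d / 2)) ≤ Real.pi * (d / 2) :=
    Real.sin_le (mul_nonneg hp.le (by linarith))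
  have b1 := E3_low (x := d / 2 - 2 * r) (by linarith) (by linarith)
  have b0 : 0 < Real.sin (Real.pi * (d / 2 - 2 * r)) := by linarith
  refine (Real.log_le_sub_one_of_pos (by positivity)).trans ?_
  rw [sub_le_iff_le_add, div_le_iff₀ (by positivity)]
  have a2 : Real.sin (Real.pi * (d / 2)) ≤ Real.pi * Real.sin (Real.pi * (d / 2 - 2 * r)) :=
    a1.trans (mul_le_mul_of_nonneg_left (by linarith) hp.le)
  have a3 := mul_le_mul a2 a2 a0.le (by positivity)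
  nlinarith [mul_le_mul_of_nonneg_right E3_pi (mul_pos b0 b0).le]

theorem E3_lo (t : ℝ) {r d : ℝ} (hr : 0 < r) (h : 8 * r ≤ d) (hd : d ≤ 1) :
    Real.log (d / (20 * r)) ≤
      H0.real (arc (t + r) (t + d / 2 - r) ×ˢ arc (t + 1 - d / 2 + r) (t - r + 1)) := by
  have hp := Real.pi_pos
  have hd0 : 0 < d := by linarith
  rw [H0_rect (by linarith) (by linarith) (by linarith) (by linarith),
    show t + 1 - d / 2 + r - (t + r) = 1 - d / 2 by ring,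
    show t - r + 1 - (t + d / 2 - r) = 1 - d / 2 by ring,
    show t + 1 - d / 2 + r - (t + d / 2 - r) = 1 - (d - 2 * r) by ring,
    show t - r + 1 - (t + r) = 1 - 2 * r by ring, E3_refl, E3_refl, E3_refl]
  have a1 := E3_low (x := d / 2) (by linarith) (by linarith)
  have b0 := B6_sin (t := d - 2 * r) (by linarith) (by linarith)
  have c0 := B6_sin (t := 2 * r) (by linarith) (by linarith)
  have b1 : Real.sin (Real.pi * (d - 2 * r)) ≤ Real.pi * d :=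
    (Real.sin_le (mul_nonneg hp.le (by linarith))).trans
      (mul_le_mul_of_nonneg_left (by linarith) hp.le)
  have c1 : Real.sin (Real.pi * (2 * r)) ≤ Real.pi * (2 * r) := Real.sin_le (by positivity)
  refine Real.log_le_log (by positivity) ?_
  rw [div_le_div_iff₀ (by positivity) (by positivity)]
  have a2 : d * d ≤ Real.sin (Real.pi * (d / 2)) * Real.sin (Real.pi * (d / 2)) :=
    mul_le_mul (by linarith) (by linarith) hd0.le (by linarith)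
  have a3 := mul_le_mul_of_nonneg_left (mul_le_mul b1 c1 c0.le (by positivity)) hd0.le
  have a4 := mul_le_mul_of_nonneg_right a2 (by positivity : 0 ≤ 20 * r)
  have a5 := mul_le_mul_of_nonneg_right E3_pi (by positivity : 0 ≤ 2 * d * d * r)
  nlinarith

theorem E3_real {B a a' L : ℝ} (hB : 1 ≤ B) (h1 : a ≤ B * (9 + 1)) (h2 : L ≤ B * (a' + 1))
    (h3 : (Real.exp a - 1) * (Real.exp a' - 1) = 1) :
    a * Real.exp (L / B) ≤ 20 * Real.exp 1 * B := by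
  have hB0 : 0 < B := by linarith
  have he := Real.exp_pos 1
  have hy := Real.exp_pos (L / B)
  have h4 : Real.exp (L / B) ≤ Real.exp a' * Real.exp 1 := by
    rw [← Real.exp_add, Real.exp_le_exp, div_le_iff₀ hB0]
    linarith
  rcases le_total (Real.exp (L / B)) (2 * Real.exp 1) with k | k
  · calc a * Real.exp (L / B) ≤ B * (9 + 1) * Real.exp (L / B) :=
          mul_le_mul_of_nonneg_right h1 hy.le
      _ ≤ B * (9 + 1) * (2 * Real.exp 1) := mul_le_mul_of_nonneg_left k (by positivity)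
      _ = 20 * Real.exp 1 * B := by ring
  · have h5 : 2 ≤ Real.exp a' := le_of_mul_le_mul_right (k.trans h4) he
    have h6 : Real.exp (L / B) ≤ 2 * Real.exp 1 * (Real.exp a' - 1) := by nlinarith
    have h7 : 0 < Real.exp a - 1 := by
      by_contra q
      nlinarith [mul_nonneg (neg_nonneg.2 (not_lt.1 q)) (by linarith : 0 ≤ Real.exp a' - 1)]
    have h8 : a ≤ Real.exp a - 1 := by linarith [Real.add_one_le_exp a]
    calc a * Real.exp (L / B) ≤ (Real.exp a - 1) * Real.exp (L / B) :=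
          mul_le_mul_of_nonneg_right h8 hy.le
      _ ≤ (Real.exp a - 1) * (2 * Real.exp 1 * (Real.exp a' - 1)) :=
          mul_le_mul_of_nonneg_left h6 h7.le
      _ = 2 * Real.exp 1 := by linear_combination 2 * Real.exp 1 * h3
      _ ≤ 20 * Real.exp 1 * B := by nlinarith

theorem E3_decay {B : ℝ} (hB : 1 ≤ B) {ν : Measure (T × T)} (h1 : Dual ν)
    (h2 : ∀ x₁ x₂ x₃ x₄ : ℝ, x₁ < x₂ → x₂ < x₃ → x₃ < x₄ → x₄ < x₁ + 1 →
      ν (arc x₁ x₂ ×ˢ arc x₃ x₄) ≠ ∞ ∧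
      ν.real (arc x₁ x₂ ×ˢ arc x₃ x₄) ≤ B * (H0.real (arc x₁ x₂ ×ˢ arc x₃ x₄) + 1) ∧
      H0.real (arc x₁ x₂ ×ˢ arc x₃ x₄) ≤ B * (ν.real (arc x₁ x₂ ×ˢ arc x₃ x₄) + 1))
    (z : T) (r d : ℝ) (hr : 0 < r) (h : 8 * r ≤ d) :
    ν (SS (ball z r) (d / 2) d) ≤
      ENNReal.ofReal (20 * Real.exp 1 * B * Real.exp (Real.log 20 / B) * (r / d) ^ (1 / B)) := by
  have hB0 : 0 < B := by linarith
  have hd0 : 0 < d := by linarith
  rcases lt_or_ge 1 d with hd | hd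
  · have e : SS (ball z r) (d / 2) d = ∅ := eq_empty_of_forall_notMem fun p hp => by
      linarith only [hd, dist_le_half p.1 p.2, hp.2.1]
    rw [e, measure_empty]
    exact zero_le
  obtain ⟨t, -, rfl⟩ := exists_coe z
  have o1 : t - r < t + r := by linarith
  have o2 : t + r < t + d / 2 - r := by linarith
  have o3 : t + d / 2 - r < t + 1 - d / 2 + r := by linarith
  have o4 : t + 1 - d / 2 + r < t - r + 1 := by linarith
  obtain ⟨a0, a1, -⟩ := h2 _ _ _ _ o1 o2 o3 o4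
  obtain ⟨-, -, a2⟩ := h2 _ _ _ _ o2 o3 o4 (by linarith)
  have k := E3_real hB (a1.trans (mul_le_mul_of_nonneg_left
    (add_le_add_left (E3_up t hr h hd) 1) hB0.le)) ((E3_lo t hr h hd).trans a2)
    (h1 _ _ _ _ o1 o2 o3 o4)
  refine (measure_mono (E3_sub t r d)).trans ?_
  rw [← ofReal_measureReal a0]
  refine ENNReal.ofReal_le_ofReal (le_of_mul_le_mul_right (k.trans (le_of_eq ?_)) (Real.exp_pos _))
  rw [Real.rpow_def_of_pos (by positivity), mul_assoc (20 * Real.exp 1 * B), ← Real.exp_add,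
    mul_assoc (20 * Real.exp 1 * B), ← Real.exp_add, Real.log_div hr.ne' hd0.ne',
    Real.log_div hd0.ne' (by positivity), Real.log_mul (by norm_num) hr.ne',
    show Real.log 20 / B + (Real.log r - Real.log d) * (1 / B) +
      (Real.log d - (Real.log 20 + Real.log r)) / B = 0 by ring, Real.exp_zero, mul_one]

theorem DD_shift {B : ℝ} (hB : 1 ≤ B) : ∃ B' : ℝ, ∀ C : Cf, QS C.H C.α B →
    ∀ u : T → ℝ, Continuous u →
      DD C.H (fun x => u (x - (C.α : T))) ≤ ENNReal.ofReal B' * DD C.H u := by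
  have hB0 : 0 < B := by linarith
  obtain ⟨B', hB'⟩ := DDQ (20 * Real.exp 1 * B * Real.exp (Real.log 20 / B))
    (s := 1 / B) (by positivity)
  refine ⟨B', fun C hQ u hu => ?_⟩
  let E : T ≃ₜ T := Continuous.homeoOfEquivCompactToT2
    (f := Equiv.ofBijective C.βT ⟨C.βT_inj, C.βT_surj⟩) C.continuous_βT
  obtain ⟨k, hk, hβ⟩ : ∃ k : T → T, Continuous k ∧ ∀ x, C.βT (k x) = x - (C.α : T) :=
    ⟨fun x => E.symm (x - (C.α : T)), by fun_prop, fun x => E.apply_symm_apply _⟩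
  have hm : Measurable (Prod.map k k) := hk.measurable.prodMap hk.measurable
  have hpre : ∀ a b : ℝ, k ⁻¹' arc a b = arc (C.β a + C.α) (C.β b + C.α) := fun a b => by
    ext x
    rw [← C.βT_arc a b, mem_preimage, mem_preimage, hβ, ← E3_arc _ _ C.α, sub_add_cancel]
  have hν : ∀ a b c d : ℝ, (C.H.map (Prod.map k k)) (arc a b ×ˢ arc c d) =
      C.H (arc (C.β a + C.α) (C.β b + C.α) ×ˢ arc (C.β c + C.α) (C.β d + C.α)) := fun a b c d => by
    rw [Measure.map_apply hm ((measurableSet_arc _ _).prod (measurableSet_arc _ _)),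
      preimage_prod_map_prod, hpre, hpre]
  have hνr : ∀ a b c d : ℝ, (C.H.map (Prod.map k k)).real (arc a b ×ˢ arc c d) =
      C.H.real (arc (C.β a + C.α) (C.β b + C.α) ×ˢ arc (C.β c + C.α) (C.β d + C.α)) :=
    fun a b c d => congrArg ENNReal.toReal (hν a b c d)
  have hsh : ∀ a b c d : ℝ, sh C.α (arc (a + C.α) (b + C.α) ×ˢ arc (c + C.α) (d + C.α)) =
      arc a b ×ˢ arc c d := fun a b c d => by
    ext p
    exact and_congr (E3_arc _ _ _ _) (E3_arc _ _ _ _)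
  have hlt : ∀ {a b : ℝ}, a < b → C.β a + C.α < C.β b + C.α := fun h => by
    linarith only [C.β_mono h]
  have hlt' : ∀ {a b : ℝ}, a < b + 1 → C.β a + C.α < C.β b + C.α + 1 := fun {a b} h => by
    linarith only [C.β_mono h, C.β_per b]
  have hs : (C.H.map (Prod.map k k)).map Prod.swap = C.H.map (Prod.map k k) := by
    rw [Measure.map_map measurable_swap hm]
    conv_rhs => rw [← C.H_symm, Measure.map_map hm measurable_swap]
    rfl
  have hD : Dual (C.H.map (Prod.map k k)) := fun x₁ x₂ x₃ x₄ h₁ h₂ h₃ h₄ => by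
    rw [hνr, hνr, C.β_per, add_right_comm (C.β x₁) 1]
    exact C.H_dual _ _ _ _ (hlt h₁) (hlt h₂) (hlt h₃) (hlt' h₄)
  have h1 := hB' _ hs (E3_decay hB hD fun x₁ x₂ x₃ x₄ h₁ h₂ h₃ h₄ => by
    have q := hQ _ _ _ _ (hlt h₁) (hlt h₂) (hlt h₃) (hlt' h₄)
    rw [hsh, C.CB_rect] at q
    rw [hν, hνr]
    exact ⟨off_fin C.finB (off_arc (hlt h₂) (hlt' h₄)), q⟩) (fun x => u (C.βT x))
    (hu.comp C.continuous_βT)
  have hβc := C.continuous_βT
  have h2 : DD (C.H.map (Prod.map k k)) (fun x => u (C.βT x)) =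
      DD C.H fun x => u (x - (C.α : T)) := by
    unfold DD
    rw [lintegral_map (by fun_prop) hm]
    simp only [Prod.map_fst, Prod.map_snd, hβ]
  rw [← h2, C.DD_H hu]
  exact h1

end Pool.Agent.Work.MP_042f46_an.Fu
end
end
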