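import Pool.Agent.Work.MP_042f46_an.F.R3

-- merged part: Pool.Agent.Work.MP_042f46_an.F.R5
section
/-!
# Chains

`uu y = min (r y) (sup of u over the interval of radius r y / (4 A))`.
`whit`: if some `y''` within `r y / (4 A)` of `y`, or within `r y' / (4 A)` of `y'`, has `u y'' ≤ r y'' / A`, both intervals lie in `[y'' - 2 s, y'' + 2 s]`, `s = r y'' / A` (`A ≥ 300`), and have length at least `s / 3`; `gen` and `grow` show that both suprema are comparable.  Otherwise `uu y ∈ [r y / A, r y]` and the same for `y'`.  `r y'` is within one percent of `r y`.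
`wall_chain`: `a`, `b` the marks next to the interval, `r y = min (y - a) (b - y)`; `Φ y = log (y - a) - log (b - y)` grows by at least `1 / (8 A)` in a step `y ↦ y + r y / (4 A)`; induction on `n` for the statement: `Φ y₁ - Φ y ≤ n / (8 A)` implies `|log (uu y) - log (uu y₁)| ≤ (n + 1) B`; `Φ y₁ - Φ y₀ ≤ 2 log (1 + (y₁ - y₀) / η)`.
`chain`: `choose` the sets `Exc e` for the at most `A` marks within `30 Θ`; their union has at most `A ^ 2 V` points, so there is `i` outside it with `η exp (-A V) / 100 / 2 ^ (A ^ 2 V + 2) ≤ 2 ^ i ≤ η exp (-A V) / 100`; `2 ^ i ≤ len (e - 2 Θ) (e + 2 Θ)` (`near_mark`, `cmp_ℓ`).  Jump over a mark `p = σ e`: `r (p ± 2 ^ i) ∈ [7 / 8, 1] 2 ^ i`, and the two suprema are within the factor `A` (`Flat`) or `exp (A V)` (`cmp_uu`).  Induction on the number of marks strictly between `y` and `x'` with the invariant `7 / 8 · 2 ^ i ≤ r y` and `y ≤ p - 2 ^ i` for all marks `p > y`.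
`M'`: if `R ≤ r x' / A`, `loc_scale` at `x'` and `grow`; `ϱ' x' ≤ C d x'` in all cases (for `k x' < 8` by `low`-type bound: `Scale.low` and `d ≤ B ϱ' ≤ 8 B u` give `s ≤ C' d`).  Otherwise `r x' ≤ A R`, `r x ≤ (A + 1) R`; `u x ≤ (R / ϱ' x) uu x`; `chain` with `η = min (ϱ' x) (ϱ' x')`; `uu x' ≤ r x' ≤ A u x'` if `u x' > r x' / A`, else `grow`.
`M`: if `k x < 8` replace `x` by the point of `GR` in the unit at `x` (`ϱ' ≥ u x / B ≥ ϱ x / (8 B)`, `cmp_uu`), if `k x ≥ 8` use `U_r`; the same for `x'`; enlarge `R` to `3 exp (A V) R · 8 C1`-like size (`ϱ' ≤ r ≤ r x + …`; it is enough that `M'` holds for `R' = max R (ϱ' …)`; note `M'` only asks for a lower bound `η ≤ ϱ'`).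
`MC`: if `8 ≤ k y` and `δ ≤ ϱ y / (8 C1)`, `U_h` and `kb_lip` give `k x ∈ [k y / 2, 3 k y / 2]`.  Otherwise `ϱ y ≤ 8 C1 exp (A V) δ` (`cmp_u'`); `M` in both directions with `R = 8 C1 exp (A V) (δ + ϱ x)`.
-/

open Set Metric Topology Filter MeasureTheory
open scoped ENNReal NNReal

noncomputable section
namespace Pool.Agent.Work.MP_042f46_an.Fu

open Pool.Agent.Work.MP_042f46_an.Ty

/-- local maximum of the displacement, cut at the distance to the marks -/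
def RD.uu {A : ℕ} {V ρ₀ Θ θ : ℝ} {X X' : Ch} (D : RD A V ρ₀ Θ θ X X') (y : ℝ) : ℝ :=
  min (D.r y) (sSup (D.u '' Icc (y - D.r y / (4 * A)) (y + D.r y / (4 * A))))

section
variable {A : ℕ} {V ρ₀ Θ θ : ℝ} {X X' : Ch} (D : RD A V ρ₀ Θ θ X X') {x y : ℝ}

omit D in
theorem R5b_in {n n' w : ℝ} (h : In X ρ₀ Θ n x) (hy : |X.ι y - X.ι x| ≤ w)
    (hw : n * Θ + w ≤ n' * Θ) : In X ρ₀ Θ n' y := by
  have := abs_sub_abs_le_abs_sub (X.ι y) (X.ι x)
  unfold In at h ⊢
  linarith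

include D in
theorem R5b_mono {n n' : ℝ} (h : In X ρ₀ Θ n x) (hn : n ≤ n') : In X ρ₀ Θ n' x :=
  R5b_in h (w := 0) (by simp) (by nlinarith [D.θ_pos, D.θ_le])

theorem R5b_k (x : ℝ) : 1 ≤ D.k x := le_max_right _ _

theorem R5b_u (h : In X ρ₀ Θ 200 x) : D.u x ≤ D.ϱ x :=
  le_mul_of_one_le_left (D.u_pos h).le (R5b_k D x)

theorem R5w_le (h : In X ρ₀ Θ 100 x) (hy : y ∈ Icc (x - D.r x / (4 * A)) (x + D.r x / (4 * A))) :
    D.u y ≤ sSup (D.u '' Icc (x - D.r x / (4 * A)) (x + D.r x / (4 * A))) := by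
  have hA : (300 : ℝ) ≤ A := by exact_mod_cast D.A_ge
  have r1 : D.r x / (4 * A) ≤ D.r x := div_le_self infDist_nonneg (by linarith)
  refine le_csSup (isCompact_Icc.bddAbove_image (D.u_cont.mono fun z hz => ?_)) ⟨y, hy, rfl⟩
  exact R5b_in h (D.within (R5b_mono D h (by norm_num))
    (abs_le.2 ⟨by linarith [hz.1], by linarith [hz.2]⟩)) (by nlinarith [D.θ_pos, D.θ_le])

theorem R5b_uu (h : In X ρ₀ Θ 100 x) : min (D.r x) (D.u x) ≤ D.uu x := by
  have r0 : 0 ≤ D.r x := infDist_nonneg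
  have r2 : 0 ≤ D.r x / (4 * A) := by positivity
  exact min_le_min le_rfl (R5w_le D h ⟨by linarith, by linarith⟩)

end

theorem R5w_cmp (A : ℕ) : ∃ K : ℝ, 1 ≤ K ∧ ∀ {V ρ₀ Θ θ : ℝ} {X X' : Ch}
    (D : RD A V ρ₀ Θ θ X X') (y q a b : ℝ), In X ρ₀ Θ 90 y → D.r y = 4 * A * q → 0 < q →
      |a - y| ≤ q → |b - y| ≤ q → 0 < D.uu a ∧ D.uu a ≤ K * D.uu b := by
  obtain ⟨C, c1, hC⟩ := loc_scale A
  obtain ⟨K, hK⟩ : ∃ K : ℝ, K = (A : ℝ) ^ 2 * (1 + 6 * C) ^ (2 * A) := ⟨_, rfl⟩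
  have K0 : 0 ≤ K := by rw [hK]; positivity
  have A0 : (0 : ℝ) ≤ A := Nat.cast_nonneg A
  refine ⟨2 + 2 * A + K, by linarith, fun {V ρ₀ Θ θ X X'} D y q a b hy e q0 ha hb => ?_⟩
  have hA : (300 : ℝ) ≤ A := by exact_mod_cast D.A_ge
  have A1 : (0 : ℝ) < A := by linarith
  have Aq := mul_le_mul_of_nonneg_right hA q0.le
  have t0 := D.θ_pos
  have t1 := D.θ_le
  have hin : ∀ w, |w - y| ≤ 3 * q → In X ρ₀ Θ 100 w := fun w hw =>
    R5b_in hy (D.within (R5b_mono D hy (by norm_num)) (hw.trans (by linarith))) (by linarith)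
  have hu : ∀ w, |w - y| ≤ 3 * q → 0 < D.u w := fun w hw =>
    D.u_pos (R5b_mono D (hin w hw) (by norm_num))
  have hr : ∀ w, |w - y| ≤ 3 * q → 3 * q * A ≤ D.r w ∧ D.r w ≤ 5 * q * A := fun w hw => by
    obtain ⟨a1, a2⟩ := abs_le.1 ((D.r_lip w y).trans hw)
    exact ⟨by linarith, by linarith⟩
  have ha' : |a - y| ≤ 3 * q := by linarith
  have hb' : |b - y| ≤ 3 * q := by linarith
  obtain ⟨a1, a2⟩ := hr a ha'
  obtain ⟨b1, b2⟩ := hr b hb'
  have pb := (lt_min (by linarith) (hu b hb')).trans_le (R5b_uu D (hin b hb'))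
  refine ⟨(lt_min (by linarith) (hu a ha')).trans_le (R5b_uu D (hin a ha')), ?_⟩
  by_cases hc : ∃ w, |w - y| ≤ 3 * q ∧ D.u w ≤ D.r w / A
  · obtain ⟨w, w1, w2⟩ := hc
    obtain ⟨d, hd, -⟩ := hC D w (hin w w1) w2
    have s1 := (le_div_iff₀ A1).2 (hr w w1).1
    obtain ⟨z, ⟨z1, z2⟩, z3⟩ := hd.gen (b - q / 2) q q0
    rw [min_eq_left (by linarith)] at z3
    obtain ⟨w3, w4⟩ := abs_le.1 w1
    obtain ⟨a3, a4⟩ := abs_le.1 ha
    obtain ⟨b3, b4⟩ := abs_le.1 hb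
    have a5 : D.r a / (4 * A) ≤ 2 * q := (div_le_iff₀ (by linarith)).2 (by linarith)
    have a6 : 0 ≤ D.r a / (4 * A) := div_nonneg (by linarith) (by linarith)
    have b5 : q / 2 ≤ D.r b / (4 * A) := (le_div_iff₀ (by linarith)).2 (by linarith)
    have mz : z ∈ Icc (w - 2 * (D.r w / A)) (w + 2 * (D.r w / A)) := ⟨by linarith, by linarith⟩
    have d0 := hd.pos z mz
    have uz := hu z (abs_le.2 ⟨by linarith, by linarith⟩)
    have s2 := R5w_le D (hin b hb') (y := z) ⟨by linarith, by linarith⟩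
    rw [RD.uu, RD.uu, mul_min_of_nonneg _ _ (by linarith)]
    refine min_le_min (by nlinarith) (le_trans (b := K * D.u z)
      (csSup_le ⟨_, a, ⟨by linarith, by linarith⟩, rfl⟩ ?_)
      (mul_le_mul (by linarith) s2 uz.le (by linarith)))
    rintro _ ⟨v, ⟨v1, v2⟩, rfl⟩
    refine (hd.grow v ⟨by linarith, by linarith⟩ z mz).trans ?_
    have : |v - z| / d z ≤ 6 * C :=
      (div_le_iff₀ d0).2 (abs_le.2 ⟨by linarith, by linarith⟩)
    rw [hK]
    gcongr
  · have b3 : D.r b / A ≤ D.uu b := (le_min (div_le_self (by linarith) (by linarith))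
      (not_le.1 fun h => hc ⟨b, hb', h⟩).le).trans (R5b_uu D (hin b hb'))
    rw [div_le_iff₀ A1] at b3
    exact (min_le_left _ _).trans (by linarith [mul_nonneg K0 pb.le])

theorem whit (A : ℕ) : ∃ B : ℝ, 1 ≤ B ∧ ∀ {V ρ₀ Θ θ : ℝ} {X X' : Ch} (D : RD A V ρ₀ Θ θ X X')
    (y y' : ℝ), In X ρ₀ Θ 90 y → 0 < D.r y → |y - y'| ≤ D.r y / (4 * A) →
      |Real.log (D.uu y) - Real.log (D.uu y')| ≤ B := by
  obtain ⟨K, K1, hK⟩ := R5w_cmp A
  have l0 := Real.log_nonneg K1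
  refine ⟨1 + Real.log K, by linarith, fun {V ρ₀ Θ θ X X'} D y y' hy r0 h => ?_⟩
  have hA : (300 : ℝ) ≤ A := by exact_mod_cast D.A_ge
  have q0 : 0 < D.r y / (4 * A) := by positivity
  have e : D.r y = 4 * A * (D.r y / (4 * A)) := (mul_div_cancel₀ _ (by positivity)).symm
  have h0 : |y - y| ≤ D.r y / (4 * A) := by rw [sub_self, abs_zero]; exact q0.le
  rw [abs_sub_comm] at h
  obtain ⟨p0, a0⟩ := hK D y _ y y' hy e q0 h0 h
  obtain ⟨p1, a1⟩ := hK D y _ y' y hy e q0 h h0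
  have b0 := Real.log_le_log p0 a0
  have b1 := Real.log_le_log p1 a1
  rw [Real.log_mul (by linarith) (by linarith)] at b0 b1
  exact abs_le.2 ⟨by linarith, by linarith⟩

theorem R5w_side {F : ℝ → ℝ} {c η L B : ℝ} (hc : 0 < c) (hη : 0 < η)
    (h : ∀ s s', 0 ≤ s → s ≤ s' → s' ≤ L → s' - s ≤ c * (η + s) → |F s - F s'| ≤ B) (n : ℕ) :
    ∀ s, 0 ≤ s → s ≤ L → η + s ≤ η * (1 + c) ^ n → |F 0 - F s| ≤ n * B := by
  induction n with
  | zero =>
    intro s h0 _ h2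
    rw [pow_zero] at h2
    rw [show s = 0 by linarith]
    simp
  | succ n ih =>
    intro s h0 h1 h2
    have c1 : 0 < 1 + c := by linarith
    obtain ⟨g, hg⟩ : ∃ g, η + s = (1 + c) * g := ⟨(η + s) / (1 + c), by field_simp⟩
    have g0 : 0 < g := (mul_pos_iff_of_pos_left c1).1 (by linarith)
    have g1 : g ≤ η * (1 + c) ^ n := le_of_mul_le_mul_left (by rw [pow_succ] at h2; linarith) c1
    have p1 : η ≤ η * (1 + c) ^ n := le_mul_of_one_le_right hη.le (one_le_pow₀ (by linarith))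
    have a0 := le_max_right 0 (g - η)
    have a1 : max 0 (g - η) ≤ s := max_le h0 (by linarith [mul_pos hc g0])
    have a2 := ih _ (le_max_left _ _) (a1.trans h1)
      (le_sub_iff_add_le'.1 (max_le (by linarith) (by linarith)))
    have a3 := h _ s (le_max_left _ _) a1 h1 (by linarith [mul_le_mul_of_nonneg_left a0 hc.le])
    push_cast
    linarith [abs_sub_le (F 0) (F (max 0 (g - η))) (F s)]

theorem wall_chain (A : ℕ) : ∃ B : ℝ, 1 ≤ B ∧ ∀ {V ρ₀ Θ θ : ℝ} {X X' : Ch}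
    (D : RD A V ρ₀ Θ θ X X') (y₀ y₁ η : ℝ), In X ρ₀ Θ 90 y₀ → In X ρ₀ Θ 90 y₁ → y₀ ≤ y₁ →
      (∀ e ∈ D.E, X.σ e ∉ Icc y₀ y₁) → 0 < η → η ≤ D.r y₀ → η ≤ D.r y₁ →
      |Real.log (D.uu y₀) - Real.log (D.uu y₁)| ≤ B * (1 + Real.log (1 + (y₁ - y₀) / η)) := by
  obtain ⟨B, B1, hB⟩ := whit A
  have l0 : 0 ≤ 1 / Real.log (1 + 1 / (4 * A)) :=
    one_div_nonneg.2 (Real.log_nonneg (le_add_of_nonneg_right (by positivity)))
  refine ⟨2 * B * (1 + 1 / Real.log (1 + 1 / (4 * A))), by nlinarith,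
    fun {V ρ₀ Θ θ X X'} D y₀ y₁ η h0 h1 h01 hE η0 r0 r1 => ?_⟩
  have hA : (300 : ℝ) ≤ A := by exact_mod_cast D.A_ge
  have t0 := D.θ_pos
  have t1 := D.θ_le
  have c0 : (0 : ℝ) < 1 / (4 * A) := by positivity
  have key : ∀ y y' s, 0 ≤ s → s ≤ y - y₀ → s ≤ y₁ - y → |y - y'| ≤ 1 / (4 * A) * (η + s) →
      |Real.log (D.uu y) - Real.log (D.uu y')| ≤ B := by
    intro y y' s s0 s1 s2 s3
    have hy : In X ρ₀ Θ 90 y := abs_le.2 ⟨(abs_le.1 h0).1.trans (X.ι_mono.monotone (by linarith)),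
      (X.ι_mono.monotone (by linarith)).trans (abs_le.1 h1).2⟩
    have hr : η + s ≤ D.r y := by
      obtain ⟨e, he, e1, -⟩ := D.near_mark (x := y) (le_trans hy (by linarith))
      have a0 := D.r_le he y₀
      have a1 := D.r_le he y₁
      rcases not_and_or.1 (hE e he) with k | k <;> rw [not_le] at k
      · rw [abs_of_pos (by linarith)] at a0
        linarith [le_abs_self (y - X.σ e)]
      · rw [abs_of_neg (by linarith)] at a1
        linarith [neg_le_abs (y - X.σ e)]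
    refine hB D y y' hy (by linarith) (s3.trans ?_)
    rw [one_div_mul_eq_div]
    gcongr
  generalize 1 / (4 * (A : ℝ)) = c at *
  have l1 : 0 < Real.log (1 + c) := Real.log_pos (by linarith)
  have z0 : 0 ≤ (y₁ - y₀) / η := div_nonneg (by linarith) η0.le
  have L0 := Real.log_nonneg (le_add_of_nonneg_right z0)
  obtain ⟨n, n1, n2⟩ : ∃ n : ℕ, Real.log (1 + (y₁ - y₀) / η) / Real.log (1 + c) ≤ n ∧
      (n : ℝ) < Real.log (1 + (y₁ - y₀) / η) / Real.log (1 + c) + 1 :=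
    ⟨_, Nat.le_ceil _, Nat.ceil_lt_add_one (by positivity)⟩
  have p : η + (y₁ - y₀) / 2 ≤ η * (1 + c) ^ n := by
    rw [div_le_iff₀ l1, ← Real.log_pow, Real.log_le_log_iff (by linarith) (by positivity)] at n1
    have := mul_le_mul_of_nonneg_left n1 η0.le
    rw [mul_add, mul_div_cancel₀ _ η0.ne'] at this
    linarith
  have a1 := R5w_side (F := fun s => Real.log (D.uu (y₀ + s))) (L := (y₁ - y₀) / 2) c0 η0
    (fun s s' s0 s1 s2 s3 => key _ _ s s0 (by linarith) (by linarith)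
      (abs_le.2 ⟨by linarith, by linarith⟩)) n _ (by linarith) le_rfl p
  have a2 := R5w_side (F := fun s => Real.log (D.uu (y₁ - s))) (L := (y₁ - y₀) / 2) c0 η0
    (fun s s' s0 s1 s2 s3 => key _ _ s s0 (by linarith) (by linarith)
      (abs_le.2 ⟨by linarith, by linarith⟩)) n _ (by linarith) le_rfl p
  rw [add_zero] at a1
  rw [sub_zero, show y₁ - (y₁ - y₀) / 2 = y₀ + (y₁ - y₀) / 2 by ring, abs_sub_comm] at a2
  have a3 := mul_le_mul_of_nonneg_right n2.le (zero_le_one.trans B1)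
  rw [div_eq_mul_one_div] at a3
  have B0 := zero_le_one.trans B1
  linarith [abs_sub_le (Real.log (D.uu y₀)) (Real.log (D.uu (y₀ + (y₁ - y₀) / 2)))
    (Real.log (D.uu y₁)), mul_nonneg B0 l0, mul_nonneg B0 L0]

namespace RD

variable {A : ℕ} {V ρ₀ Θ θ : ℝ} {X X' : Ch} (D : RD A V ρ₀ Θ θ X X')

include D in
theorem R5c_exp : (A : ℝ) ≤ Real.exp (A * V) := by
  have a := Real.add_one_le_exp (A * V)
  have b := le_mul_of_one_le_right (Nat.cast_nonneg A) D.V_ge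
  linarith

/-- the good scales at a mark -/
theorem R5c_reg (e : ℝ) : ∃ Exc : Finset ℤ, (Exc.card : ℝ) ≤ A * V ∧ (e ∈ D.E →
    |e| ≤ ρ₀ + 90 * Θ → ∀ i : ℤ, i ∉ Exc → (2 : ℝ) ^ i ≤ X.len (e - 2 * Θ) (e + 2 * Θ) →
      (∀ e' ∈ D.E, |X.σ e' - X.σ e| ≤ (2 : ℝ) ^ i / 8 ∨ 16 * (2 : ℝ) ^ i ≤ |X.σ e' - X.σ e|) ∧
      (∀ y, |y - X.σ e| ≤ 4 * (2 : ℝ) ^ i → In X ρ₀ Θ 130 y) ∧
      ∀ y y', 2 ^ i / 2 ≤ |y - X.σ e| → |y - X.σ e| ≤ 4 * 2 ^ i → 2 ^ i / 2 ≤ |y' - X.σ e| →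
        |y' - X.σ e| ≤ 4 * 2 ^ i → D.u y ≤ Real.exp (A * V) * D.u y') := by
  have h1 := D.θ_pos
  have h2 := D.θ_le
  by_cases h : e ∈ D.E ∧ |e| ≤ ρ₀ + 90 * Θ
  swap
  · refine ⟨∅, ?_, fun a b => absurd ⟨a, b⟩ h⟩
    have := D.V_ge
    rw [Finset.card_empty, Nat.cast_zero]
    positivity
  obtain ⟨Exc, Reg, a1, a2, a3, -⟩ := D.reg e h.1 h.2
  refine ⟨Exc, a1, fun _ he i hi hl => ?_⟩
  obtain ⟨b1, b2⟩ := a2 i hi hl
  have e' := abs_le.1 he
  have c : ∀ y, |y - X.σ e| ≤ 4 * (2 : ℝ) ^ i → In X ρ₀ Θ 130 y := fun y hy => by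
    have : |X.ι y - e| ≤ 40 * Θ := b2.elim (fun b => (b y hy).trans (by linarith))
      fun b => (a3 i b).2 y hy
    have := abs_le.1 this
    exact abs_le.2 ⟨by linarith, by linarith⟩
  refine ⟨b1, c, fun y y' c1 c2 c3 c4 => ?_⟩
  rcases b2 with b | b
  · have f1 := abs_le.1 (b y c2)
    have f2 := abs_le.1 (b y' c4)
    have := D.cmp_uu (t := X.ι y') (s := X.ι y) (D.R3_In (c y' c4) (by norm_num))
      (abs_le.2 ⟨by linarith, by linarith⟩)
    rwa [X.σ_ι, X.σ_ι] at this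
  · exact ((a3 i b).1 y y' c1 c2 c3 c4).trans (mul_le_mul_of_nonneg_right D.R5c_exp
      (D.u_pos (D.R3_In (c y' c4) (by norm_num))).le)

/-- the jump over a mark -/
theorem R5c_jump {e g : ℝ} (he : e ∈ D.E) (g0 : 0 < g)
    (h1 : ∀ e' ∈ D.E, |X.σ e' - X.σ e| ≤ g / 8 ∨ 16 * g ≤ |X.σ e' - X.σ e|)
    (h2 : ∀ y, |y - X.σ e| ≤ 4 * g → In X ρ₀ Θ 130 y)
    (h3 : ∀ y y', g / 2 ≤ |y - X.σ e| → |y - X.σ e| ≤ 4 * g → g / 2 ≤ |y' - X.σ e| →
      |y' - X.σ e| ≤ 4 * g → D.u y ≤ Real.exp (A * V) * D.u y') :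
    (∀ z, |z - X.σ e| = g → 7 / 8 * g ≤ D.r z) ∧ ∀ z z', |z - X.σ e| = g → |z' - X.σ e| = g →
      |Real.log (D.uu z) - Real.log (D.uu z')| ≤ A * V := by
  obtain ⟨A1, -⟩ := D.R3_A
  have K1 := D.R5c_exp
  have a : ∀ z, |z - X.σ e| = g → 7 / 8 * g ≤ D.r z := fun z hz => by
    obtain ⟨e', he', b, -⟩ := D.near_mark (h2 z (by linarith))
    have c1 := abs_sub_le z (X.σ e') (X.σ e)
    have c2 := abs_sub_le (X.σ e') z (X.σ e)
    rw [abs_sub_comm (X.σ e') z] at c2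
    rcases h1 e' he' with c | c <;> linarith
  have b : ∀ z, |z - X.σ e| = g → ∀ y ∈ Icc (z - D.r z / (4 * A)) (z + D.r z / (4 * A)),
      g / 2 ≤ |y - X.σ e| ∧ |y - X.σ e| ≤ 4 * g := fun z hz y hy => by
    have c1 : D.r z / (4 * A) ≤ g / 2 := by
      rw [div_le_iff₀ (by linarith)]
      nlinarith [D.r_le he z]
    have c2 : |z - y| ≤ g / 2 := abs_le.2 ⟨by linarith [hy.2], by linarith [hy.1]⟩
    have c3 := abs_sub_le z y (X.σ e)
    have c4 := abs_sub_le y z (X.σ e)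
    rw [abs_sub_comm y z] at c4
    constructor <;> linarith
  have m : ∀ z, z ∈ Icc (z - D.r z / (4 * A)) (z + D.r z / (4 * A)) := fun z => by
    have : 0 ≤ D.r z / (4 * A) := div_nonneg (D.R3_r z) (by linarith)
    exact ⟨by linarith, by linarith⟩
  have s : ∀ z z', |z - X.σ e| = g → |z' - X.σ e| = g →
      ∀ w ∈ D.u '' Icc (z - D.r z / (4 * A)) (z + D.r z / (4 * A)),
        w ≤ Real.exp (A * V) * D.u z' := by
    rintro z z' hz hz' _ ⟨y, hy, rfl⟩
    exact h3 y z' (b z hz y hy).1 (b z hz y hy).2 (by linarith) (by linarith)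
  have l : ∀ z, |z - X.σ e| = g →
      D.u z ≤ sSup (D.u '' Icc (z - D.r z / (4 * A)) (z + D.r z / (4 * A))) := fun z hz =>
    le_csSup ⟨_, s z z hz hz⟩ ⟨z, m z, rfl⟩
  have p : ∀ z, |z - X.σ e| = g → 0 < D.uu z := fun z hz =>
    lt_min (by linarith [a z hz])
      ((D.u_pos (D.R3_In (h2 z (by linarith)) (by norm_num))).trans_le (l z hz))
  have q : ∀ z z', |z - X.σ e| = g → |z' - X.σ e| = g →
      Real.log (D.uu z) ≤ A * V + Real.log (D.uu z') := fun z z' hz hz' => by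
    have : D.uu z ≤ Real.exp (A * V) * D.uu z' := by
      rw [uu, uu, mul_min_of_nonneg _ _ (Real.exp_pos _).le]
      refine min_le_min ?_ ((csSup_le (Nonempty.image _ ⟨z, m z⟩) (s z z' hz hz')).trans
        (mul_le_mul_of_nonneg_left (l z' hz') (Real.exp_pos _).le))
      nlinarith [D.r_le he z, a z' hz']
    have := Real.log_le_log (p z hz) this
    rwa [Real.log_mul (Real.exp_pos _).ne' (p z' hz').ne', Real.log_exp] at this
  exact ⟨a, fun z z' hz hz' => abs_le.2 ⟨by linarith [q z' z hz' hz], by linarith [q z z' hz hz']⟩⟩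

end RD

theorem R5c_pick (U : Finset ℤ) {τ : ℝ} (h : 0 < τ) :
    ∃ i ∉ U, (2 : ℝ) ^ i ≤ τ ∧ τ ≤ Real.exp (U.card + 1) * 2 ^ i := by
  obtain ⟨j, a1, a2⟩ := exists_mem_Ico_zpow h (one_lt_two (α := ℝ))
  obtain ⟨i, b1, b2⟩ := Finset.exists_mem_notMem_of_card_lt_card (s := U)
    (t := Finset.Icc (j - U.card) j) (by rw [Int.card_Icc]; omega)
  obtain ⟨b3, b4⟩ := Finset.mem_Icc.1 b1
  refine ⟨i, b2, (zpow_le_zpow_right₀ one_le_two b4).trans a1, a2.le.trans ?_⟩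
  have c : (2 : ℝ) ^ (j + 1) ≤ 2 ^ (((U.card + 1 : ℕ) : ℤ) + i) :=
    zpow_le_zpow_right₀ one_le_two (by omega)
  rw [zpow_add₀ two_ne_zero _ i, zpow_natCast] at c
  refine c.trans (mul_le_mul_of_nonneg_right ?_ (by positivity))
  have := pow_le_pow_left₀ zero_le_two
    (show (2 : ℝ) ≤ Real.exp 1 by linarith [Real.add_one_le_exp 1]) (U.card + 1)
  rwa [Real.exp_one_pow, Nat.cast_add, Nat.cast_one] at this

theorem R5c_log {η g δ c : ℝ} (h1 : 0 < η) (h2 : 0 < g) (h3 : 0 ≤ δ) (h4 : 0 ≤ c)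
    (h5 : η ≤ Real.exp c * g) : Real.log (1 + δ / (7 / 8 * g)) ≤ c + 1 + Real.log (1 + δ / η) := by
  have a : 1 ≤ Real.exp c := Real.one_le_exp h4
  have a2 : 2 * Real.exp c ≤ Real.exp (c + 1) := by
    rw [Real.exp_add]
    nlinarith [Real.add_one_le_exp 1]
  have b : δ / (7 / 8 * g) ≤ 2 * Real.exp c * (δ / η) := by
    rw [← mul_div_assoc, div_le_div_iff₀ (by linarith) h1]
    nlinarith [mul_le_mul_of_nonneg_left h5 h3, mul_nonneg h3 h1.le]
  have d : 0 ≤ δ / (7 / 8 * g) := by positivity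
  have q : 0 ≤ δ / η := by positivity
  have := Real.log_le_log (by linarith : 0 < 1 + δ / (7 / 8 * g))
    (show _ ≤ Real.exp (c + 1) * (1 + δ / η) by nlinarith)
  rwa [Real.log_mul (by linarith) (by linarith), Real.log_exp] at this

theorem chain (A : ℕ) : ∃ B : ℝ, 1 ≤ B ∧ ∀ {V ρ₀ Θ θ : ℝ} {X X' : Ch} (D : RD A V ρ₀ Θ θ X X')
    (x x' η : ℝ), In X ρ₀ Θ 80 x → In X ρ₀ Θ 80 x' → |X.ι x - X.ι x'| ≤ 30 * Θ → 0 < η →
      η ≤ D.r x → η ≤ D.r x' →
      |Real.log (D.uu x) - Real.log (D.uu x')| ≤ B * (V + Real.log (1 + |x - x'| / η)) := by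
  classical
  obtain ⟨B, hB, hw⟩ := wall_chain A
  have A0 : (0 : ℝ) ≤ A := Nat.cast_nonneg A
  obtain ⟨c, hc⟩ : ∃ c : ℝ, c = A ^ 2 + A + 2 := ⟨_, rfl⟩
  have c0 : 0 ≤ c := by rw [hc]; positivity
  have B1 : 1 ≤ (A + 1) * B := by nlinarith
  refine ⟨(A + 1) * B * (1 + c) + A ^ 2, by nlinarith [sq_nonneg (A : ℝ)],
    fun {V ρ₀ Θ θ X X'} D x x' η hx hx' ht η0 r1 r2 => ?_⟩
  wlog hxx : x ≤ x' generalizing x x'
  · rw [abs_sub_comm (Real.log _), abs_sub_comm x]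
    exact this x' x hx' hx (by rwa [abs_sub_comm]) r2 r1 (not_le.1 hxx).le
  obtain ⟨n1, n2, n3, n4⟩ := D.R2_num
  have V1 := D.V_ge
  have t1 := abs_le.1 hx
  have t2 := abs_le.1 hx'
  have t3 := abs_le.1 ht
  choose Exc h1 h2 using D.R5c_reg
  obtain ⟨E, hE⟩ : ∃ E, E = D.E.filter fun e => X.ι x ≤ e ∧ e ≤ X.ι x' := ⟨_, rfl⟩
  have mE : ∀ e, e ∈ E ↔ e ∈ D.E ∧ X.ι x ≤ e ∧ e ≤ X.ι x' := fun e => by rw [hE, Finset.mem_filter]
  have cE : E.card ≤ A := le_trans (Finset.card_le_card fun e he => by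
    obtain ⟨a1, a2, a3⟩ := (mE e).1 he
    exact Finset.mem_filter.2 ⟨a1, abs_le.2 ⟨by linarith, by linarith⟩⟩) (D.E_card (X.ι x))
  have cU : ((E.biUnion Exc).card : ℝ) ≤ A * (A * V) := by
    have a : ((E.biUnion Exc).card : ℝ) ≤ ∑ e ∈ E, ((Exc e).card : ℝ) := by
      exact_mod_cast Finset.card_biUnion_le
    refine a.trans ((Finset.sum_le_card_nsmul _ _ _ fun e _ => h1 e).trans ?_)
    rw [nsmul_eq_mul]
    exact mul_le_mul_of_nonneg_right (by exact_mod_cast cE) (by positivity)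
  have K0 := Real.exp_pos (A * V)
  have K1 : 1 ≤ Real.exp (A * V) := Real.one_le_exp (by positivity)
  obtain ⟨i, i1, i2, i3⟩ := R5c_pick (E.biUnion Exc) (τ := η / Real.exp (A * V)) (by positivity)
  have h3 := fun e (he : e ∈ E) => h2 e ((mE e).1 he).1 (abs_le.2
    ⟨by linarith [((mE e).1 he).2.1], by linarith [((mE e).1 he).2.2]⟩) i
    (fun h => i1 (Finset.mem_biUnion.2 ⟨e, he, h⟩)) (by
      obtain ⟨a1, a2, a3⟩ := (mE e).1 he
      have b1 := D.cmp_ℓ (Y := X) (t := e) (a := X.ι x) (b := e) (Or.inl rfl)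
        (abs_le.2 ⟨by linarith, by linarith⟩) (by linarith) (by linarith) a2
      have b2 := X.R2_mono (a := e - 2 * Θ) (b := e - Θ) (c := e + Θ) (d := e + 2 * Θ)
        (by linarith) (by linarith) (by linarith) (by linarith) (by linarith)
      have b3 := X.R2_le (s := X.ι x) (t := e) (by linarith) a2 (by linarith)
      have b4 := D.r_le a1 x
      rw [Ch.len, X.σ_ι, Ch.ℓ] at b1
      rw [X.σ_ι] at b3
      rw [abs_sub_comm, abs_of_nonneg (by linarith)] at b4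
      refine i2.trans (le_trans ?_ b2)
      rw [div_le_iff₀' K0]
      linarith)
  obtain ⟨g, hg⟩ : ∃ g : ℝ, g = 2 ^ i := ⟨_, rfl⟩
  have g0 : 0 < g := by rw [hg]; positivity
  rw [← hg] at h3 i2 i3
  have g1 : g ≤ η := i2.trans (div_le_self η0.le K1)
  have h4 := fun e (he : e ∈ E) =>
    D.R5c_jump ((mE e).1 he).1 g0 (h3 e he).1 (h3 e he).2.1 (h3 e he).2.2
  have iE : ∀ e ∈ D.E, x ≤ X.σ e → X.σ e ≤ x' → e ∈ E := fun e he a b =>
    (mE e).2 ⟨he, X.R2_ι_le (D.R2_E he).1 (D.R2_E he).2 a, X.R2_le_ι (D.R2_E he).1 (D.R2_E he).2 b⟩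
  have oE : ∀ e ∈ E, X.σ e ≤ x' := fun e he => by
    obtain ⟨a1, a2, a3⟩ := (mE e).1 he
    have := X.R2_le (s := e) (t := X.ι x') (by linarith) a3 (by linarith)
    rwa [X.σ_ι] at this
  obtain ⟨W, hW⟩ : ∃ W, W = B * (1 + Real.log (1 + (x' - x) / (7 / 8 * g))) := ⟨_, rfl⟩
  have wl : ∀ y y₁, x ≤ y → y ≤ y₁ → y₁ ≤ x' → (∀ e ∈ E, y < X.σ e → y₁ < X.σ e) →
      7 / 8 * g ≤ D.r y → 7 / 8 * g ≤ D.r y₁ →
      |Real.log (D.uu y) - Real.log (D.uu y₁)| ≤ W := by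
    intro y y₁ a1 a2 a3 a4 a5 a6
    have m := X.ι_mono.monotone
    have b1 := m a1
    have b2 := m a2
    have b3 := m a3
    refine (hw D y y₁ (7 / 8 * g) (abs_le.2 ⟨by linarith, by linarith⟩)
      (abs_le.2 ⟨by linarith, by linarith⟩) a2 (fun e he hm => ?_) (by linarith) a5 a6).trans ?_
    · have b4 := D.r_le he y
      rw [abs_sub_comm, abs_of_nonneg (by linarith [hm.1])] at b4
      exact absurd (a4 e (iE e he (a1.trans hm.1) (hm.2.trans a3)) (by linarith)) (not_lt.2 hm.2)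
    · rw [hW]
      refine mul_le_mul_of_nonneg_left (add_le_add_right (Real.log_le_log ?_ ?_) _) (by linarith)
      · have : 0 ≤ (y₁ - y) / (7 / 8 * g) := div_nonneg (by linarith) (by linarith)
        linarith
      · exact add_le_add_right (div_le_div_of_nonneg_right (by linarith) (by linarith)) _
  have W0 : 0 ≤ W := (abs_nonneg _).trans
    (wl x' x' hxx le_rfl le_rfl (fun _ _ h => h) (by linarith) (by linarith))
  have key : ∀ n : ℕ, ∀ y, x ≤ y → y ≤ x' → 7 / 8 * g ≤ D.r y →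
      (∀ e ∈ E, y < X.σ e → y ≤ X.σ e - g) → (E.filter fun e => y < X.σ e).card ≤ n →
      |Real.log (D.uu y) - Real.log (D.uu x')| ≤ (n + 1) * W + n * (A * V) := by
    intro n
    induction n with
    | zero =>
      intro y a1 a2 a3 _ a5
      have := wl y x' a1 a2 le_rfl (fun e he h => absurd (Finset.card_pos.2
        ⟨e, Finset.mem_filter.2 ⟨he, h⟩⟩) (not_lt.2 a5)) a3 (by linarith)
      simpa using this
    | succ n ih =>
      intro y a1 a2 a3 a4 a5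
      have AV : 0 ≤ A * V := by positivity
      by_cases z : (E.filter fun e => y < X.σ e).card ≤ n
      · have := ih y a1 a2 a3 a4 z
        push_cast
        linarith
      obtain ⟨e, he, hm⟩ := (E.filter fun e => y < X.σ e).exists_min_image X.σ
        (Finset.card_pos.1 (by omega))
      obtain ⟨b1, b2⟩ := Finset.mem_filter.1 he
      have b3 := a4 e b1 b2
      have b4 := oE e b1
      have b5 := D.r_le ((mE e).1 b1).1 x'
      rw [abs_of_nonneg (by linarith)] at b5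
      have z1 : |X.σ e - g - X.σ e| = g := by rw [sub_sub_cancel_left, abs_neg, abs_of_pos g0]
      have z2 : |X.σ e + g - X.σ e| = g := by rw [add_sub_cancel_left, abs_of_pos g0]
      have f1 := abs_le.1 (wl y (X.σ e - g) a1 b3 (by linarith) (fun e' he' h => by
        linarith [hm e' (Finset.mem_filter.2 ⟨he', h⟩)]) a3 ((h4 e b1).1 _ z1))
      have f2 := abs_le.1 ((h4 e b1).2 _ _ z1 z2)
      have f3 := abs_le.1 (ih (X.σ e + g) (by linarith) (by linarith) ((h4 e b1).1 _ z2)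
        (fun e' he' h => by
          have := (h3 e b1).1 e' ((mE e').1 he').1
          rw [abs_of_nonneg (by linarith)] at this
          rcases this with h' | h' <;> linarith) (by
          have : (E.filter fun e' => X.σ e + g < X.σ e') ⊆
              (E.filter fun e => y < X.σ e).erase e := fun e' he' => by
            obtain ⟨c1, c2⟩ := Finset.mem_filter.1 he'
            exact Finset.mem_erase.2 ⟨fun c => by rw [c] at c2; linarith,
              Finset.mem_filter.2 ⟨c1, by linarith⟩⟩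
          have := Finset.card_le_card this
          rw [Finset.card_erase_of_mem he] at this
          omega))
      push_cast
      exact abs_le.2 ⟨by linarith, by linarith⟩
  have fin := key A x le_rfl hxx (by linarith) (fun e he h => by
    have := D.r_le ((mE e).1 he).1 x
    rw [abs_sub_comm, abs_of_nonneg (by linarith)] at this
    linarith) ((Finset.card_filter_le _ _).trans cE)
  rw [abs_sub_comm x x', abs_of_nonneg (by linarith : 0 ≤ x' - x)]
  have q0 : 0 ≤ (x' - x) / η := div_nonneg (by linarith) η0.le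
  have L0 : 0 ≤ Real.log (1 + (x' - x) / η) := Real.log_nonneg (by linarith)
  rw [div_le_iff₀' K0, ← mul_assoc, ← Real.exp_add] at i3
  have q2 := R5c_log η0 g0 (by linarith : 0 ≤ x' - x) (by positivity) i3
  have q1 : A * V + ((E.biUnion Exc).card + 1) + 1 ≤ c * V := by
    rw [hc]
    linarith only [cU, V1]
  have q3 : W ≤ B * ((1 + c) * (V + Real.log (1 + (x' - x) / η))) := by
    rw [hW]
    exact mul_le_mul_of_nonneg_left (by linarith only [mul_nonneg c0 L0, q1, q2, V1]) (by linarith)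
  have q4 := mul_le_mul_of_nonneg_left q3 (by linarith : 0 ≤ (A : ℝ) + 1)
  linarith only [mul_nonneg (sq_nonneg (A : ℝ)) L0, q4, fin]

theorem R5b_grow (A : ℕ) : ∃ K : ℝ, (A : ℝ) ≤ K ∧ ∀ {V ρ₀ Θ θ : ℝ} {X X' : Ch}
    (D : RD A V ρ₀ Θ θ X X') (x y η z : ℝ), In X ρ₀ Θ 100 x → D.u x ≤ D.r x / A → η ≤ D.ϱ' x →
      1 ≤ z → |y - x| ≤ D.r x / A → |y - x| ≤ z * min η (D.r x / A) →
      D.u y ≤ K * z ^ (2 * A) * D.u x := by
  obtain ⟨B, B1, hB⟩ := loc_scale A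
  have c1 : 1 ≤ (9 * B ^ 2) ^ (2 * A) := one_le_pow₀ (by nlinarith)
  have A0 : (A : ℝ) ≤ (A : ℝ) ^ 2 := by exact_mod_cast Nat.le_self_pow two_ne_zero A
  refine ⟨(A : ℝ) ^ 2 * (9 * B ^ 2) ^ (2 * A), A0.trans (le_mul_of_one_le_right (by positivity) c1),
    fun D x y η z hx hu hη hz h1 h2 => ?_⟩
  obtain ⟨d, hd, h3⟩ := hB D x hx hu
  have u0 := D.u_pos (R5b_mono D hx (by norm_num))
  have s0 := u0.trans_le hu
  generalize D.r x / A = s at *
  have m1 : x ∈ Icc (x - s) (x + s) := ⟨by linarith, by linarith⟩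
  have m2 : x ∈ Icc (x - 2 * s) (x + 2 * s) := ⟨by linarith, by linarith⟩
  have d0 := hd.pos x m2
  have h4 : min η s ≤ 8 * B ^ 2 * d x := by
    rcases le_or_gt 8 (D.k x) with k | k
    · refine ((min_le_min (hη.trans (min_le_left _ _)) le_rfl).trans ((h3 x m1).2 k)).trans ?_
      exact mul_le_mul_of_nonneg_right (by nlinarith) d0.le
    · have a1 : d x ≤ B * (8 * D.u x) := (h3 x m1).1.trans (mul_le_mul_of_nonneg_left
        ((min_le_left _ _).trans (mul_le_mul_of_nonneg_right k.le u0.le)) (by linarith))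
      have a2 := mul_le_mul_of_nonneg_left a1 (by positivity : 0 ≤ B * d x)
      exact (min_le_right _ _).trans
        (le_of_mul_le_mul_left (by linarith [hd.low x m1]) u0)
  have h5 : 1 + |y - x| / d x ≤ 9 * B ^ 2 * z := by
    have a1 : |y - x| / d x ≤ z * (8 * B ^ 2) := by
      rw [div_le_iff₀ d0, mul_assoc]
      exact h2.trans (mul_le_mul_of_nonneg_left h4 (by linarith))
    nlinarith [mul_le_mul (show 1 ≤ B ^ 2 by nlinarith) hz zero_le_one (sq_nonneg B)]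
  obtain ⟨a1, a2⟩ := abs_le.1 h1
  refine (hd.grow y ⟨by linarith, by linarith⟩ x m2).trans ?_
  rw [mul_assoc ((A : ℝ) ^ 2) _ (z ^ (2 * A)), ← mul_pow]
  gcongr

theorem M' (A : ℕ) : ∃ B : ℝ, 1 ≤ B ∧ ∀ {V ρ₀ Θ θ : ℝ} {X X' : Ch} (D : RD A V ρ₀ Θ θ X X')
    (x x' η R : ℝ), In X ρ₀ Θ 80 x → In X ρ₀ Θ 80 x' → |X.ι x - X.ι x'| ≤ 30 * Θ → 0 < η →
      η ≤ D.ϱ' x → η ≤ D.ϱ' x' → η ≤ R → |x - x'| ≤ R → D.u x ≤ R → D.u x' ≤ R →
      Real.log (D.u x) ≤ Real.log (D.u x') + B * (V + Real.log (R / η)) := by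
  obtain ⟨K, K1, hK⟩ := R5b_grow A
  obtain ⟨B, B1, hB⟩ := chain A
  have A0 : (0 : ℝ) ≤ A := Nat.cast_nonneg A
  refine ⟨1 + 2 * A + |Real.log K| + 2 * B, by linarith [abs_nonneg (Real.log K)],
    fun {V ρ₀ Θ θ X X'} D x x' η R hx hx' hd η0 h1 h2 h3 h4 h5 h6 => ?_⟩
  have hA : (300 : ℝ) ≤ A := by exact_mod_cast D.A_ge
  have V1 := D.V_ge
  have K0 : 0 < K := by linarith
  have u0 := D.u_pos (R5b_mono D hx (by norm_num))
  have u1 := D.u_pos (R5b_mono D hx' (by norm_num))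
  have i1 := R5b_mono D hx (show (80 : ℝ) ≤ 100 by norm_num)
  have i2 := R5b_mono D hx' (show (80 : ℝ) ≤ 100 by norm_num)
  have z1 : 1 ≤ R / η := (one_le_div η0).2 h3
  have e1 : R / η * η = R := div_mul_cancel₀ _ η0.ne'
  generalize R / η = z at *
  have L0 := Real.log_nonneg z1
  have z0 : 0 < z := by linarith
  have e2 : Real.log (K * z ^ (2 * A) * D.u x') =
      Real.log K + 2 * A * Real.log z + Real.log (D.u x') := by
    rw [Real.log_mul (by positivity) u1.ne', Real.log_mul K0.ne' (by positivity), Real.log_pow]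
    push_cast
    rfl
  have b1 := mul_le_mul (le_abs_self (Real.log K)) V1 zero_le_one (abs_nonneg _)
  have b2 := mul_nonneg (abs_nonneg (Real.log K)) L0
  have b3 := mul_nonneg A0 (zero_le_one.trans V1)
  have b4 := mul_nonneg (zero_le_one.trans B1) L0
  have b5 := mul_le_mul_of_nonneg_left V1 (zero_le_one.trans B1)
  rcases le_or_gt R (D.r x' / A) with k | k
  · have := Real.log_le_log u0 (hK D x' x η z i2 (h6.trans k) h2 z1 (h4.trans k)
      (by rwa [min_eq_left (h3.trans k), e1]))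
    linarith
  have r0 := η0.trans_le (h1.trans (min_le_right _ _))
  have r1 := η0.trans_le (h2.trans (min_le_right _ _))
  have c1 : D.u x ≤ z * D.uu x := by
    refine le_trans ?_ (mul_le_mul_of_nonneg_left (R5b_uu D i1) z0.le)
    rw [mul_min_of_nonneg _ _ z0.le]
    exact le_min (h5.trans (e1.ge.trans (mul_le_mul_of_nonneg_left (h1.trans (min_le_right _ _))
      z0.le))) (le_mul_of_one_le_left u0.le z1)
  have c2 : D.uu x' ≤ K * z ^ (2 * A) * D.u x' := by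
    rcases le_or_gt (D.u x') (D.r x' / A) with k' | k'
    · have s0 : 0 ≤ D.r x' / (4 * A) := by positivity
      have s1 : D.r x' / (4 * A) ≤ D.r x' / A := by gcongr; linarith
      refine (min_le_right _ _).trans (csSup_le ⟨_, x', ⟨by linarith, by linarith⟩, rfl⟩ ?_)
      rintro _ ⟨y, hy, rfl⟩
      have s2 : |y - x'| ≤ D.r x' / A := abs_le.2 ⟨by linarith [hy.1], by linarith [hy.2]⟩
      refine hK D x' y η z i2 k' h2 z1 s2 (s2.trans ?_)
      rw [mul_min_of_nonneg _ _ z0.le]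
      exact le_min (k.le.trans e1.ge) (le_mul_of_one_le_left (s0.trans s1) z1)
    · rw [div_lt_iff₀' (by linarith)] at k'
      refine ((min_le_left _ _).trans k'.le).trans (mul_le_mul_of_nonneg_right ?_ u1.le)
      exact K1.trans (le_mul_of_one_le_right K0.le (one_le_pow₀ z1))
  have p0 := (lt_min r0 u0).trans_le (R5b_uu D i1)
  have p1 := (lt_min r1 u1).trans_le (R5b_uu D i2)
  have c3 := Real.log_le_log u0 c1
  have c4 := Real.log_le_log p1 c2
  have c5 := (abs_le.1 (hB D x x' η hx hx' hd η0 (h1.trans (min_le_right _ _))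
    (h2.trans (min_le_right _ _)))).2
  have c6 : Real.log (1 + |x - x'| / η) ≤ 1 + Real.log z := by
    have a1 : |x - x'| / η ≤ z := (div_le_iff₀ η0).2 (h4.trans e1.ge)
    refine (Real.log_le_log (by positivity) (show _ ≤ 2 * z by linarith)).trans ?_
    rw [Real.log_mul two_ne_zero z0.ne']
    linarith [Real.log_le_sub_one_of_pos two_pos]
  have c7 := mul_le_mul_of_nonneg_left c6 (zero_le_one.trans B1)
  rw [Real.log_mul z0.ne' p0.ne'] at c3
  linarith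

theorem R5b_rep (A : ℕ) : ∃ c : ℝ, 1 ≤ c ∧ ∀ {V ρ₀ Θ θ : ℝ} {X X' : Ch} (D : RD A V ρ₀ Θ θ X X')
    (x : ℝ), In X ρ₀ Θ 70 x → ∃ y, |X.ι y - X.ι x| ≤ 2 * θ ∧ |y - x| ≤ D.u x ∧
      D.ϱ x ≤ c * D.ϱ' y := by
  obtain ⟨B, B1, hB⟩ := GR A
  have c0 : 0 ≤ C1 A := by unfold C1; positivity
  refine ⟨8 * B + 8 * C1 A, by linarith, fun {V ρ₀ Θ θ X X'} D x hx => ?_⟩
  have t0 := D.θ_pos
  have t1 := D.θ_le
  have t2 := D.ρ_le
  have t3 := D.ρ_nonneg
  have i1 := R5b_mono D hx (show (70 : ℝ) ≤ 200 by norm_num)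
  have u0 := D.u_pos i1
  have p0 := u0.trans_le (R5b_u D i1)
  rcases le_or_gt 8 (D.k x) with k | k
  · refine ⟨x, by rw [sub_self, abs_zero]; linarith, by rw [sub_self, abs_zero]; linarith, ?_⟩
    have r0 : 0 ≤ D.r x := infDist_nonneg
    rw [RD.ϱ', mul_min_of_nonneg _ _ (by linarith)]
    exact le_min (le_mul_of_one_le_left p0.le (by linarith))
      ((D.U_r (R5b_mono D hx (by norm_num)) k).trans (mul_le_mul_of_nonneg_right (by linarith) r0))
  have key : ∀ a, X.ι x ∈ Icc a (a + 2 * θ) → D.u x = X.len a (a + 2 * θ) →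
      ∃ y, |X.ι y - X.ι x| ≤ 2 * θ ∧ |y - x| ≤ D.u x ∧ D.ϱ x ≤ (8 * B + 8 * C1 A) * D.ϱ' y := by
    intro a ha e
    obtain ⟨x1, x2⟩ := abs_le.1 (show |X.ι x| ≤ ρ₀ + 70 * Θ from hx)
    obtain ⟨a1, a2⟩ := ha
    obtain ⟨t, ht, h⟩ := hB D a (a + 2 * θ) (abs_le.2 ⟨by linarith, by linarith⟩) (by linarith)
      (by linarith)
    have m : ∀ s ∈ Icc a (a + 2 * θ), s ∈ Ioo (-(1 / 2) : ℝ) (1 / 2) := fun s hs =>
      ⟨by linarith [hs.1], by linarith [hs.2]⟩
    have ma := m a ⟨le_rfl, by linarith⟩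
    have mb := m (a + 2 * θ) ⟨by linarith, le_rfl⟩
    have mono := X.σ_mono.monotoneOn
    have b1 := mono ma (m t ht) ht.1
    have b2 := mono (m t ht) mb ht.2
    have b3 := mono ma (X.ι_mem x) a1
    have b4 := mono (X.ι_mem x) mb a2
    rw [X.σ_ι] at b3 b4
    rw [← e] at h
    refine ⟨X.σ t, ?_, ?_, ?_⟩
    · rw [X.ι_σ t (m t ht)]
      exact abs_le.2 ⟨by linarith [ht.1], by linarith [ht.2]⟩
    · rw [e, Ch.len]
      exact abs_le.2 ⟨by linarith, by linarith⟩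
    · have b5 : D.ϱ x ≤ 8 * D.u x := mul_le_mul_of_nonneg_right k.le u0.le
      have b6 : 0 ≤ D.ϱ' (X.σ t) :=
        ((mul_pos_iff_of_pos_left (by linarith : 0 < B)).1 (u0.trans_le h)).le
      linarith [mul_nonneg c0 b6]
  rcases D.u_eq (t := X.ι x) i1 with ⟨-, e⟩ | ⟨-, e⟩
  · rw [X.σ_ι] at e
    exact key _ ⟨le_rfl, by linarith⟩ e
  · rw [X.σ_ι] at e
    exact key (X.ι x - 2 * θ) ⟨by linarith, by linarith⟩ (by rwa [sub_add_cancel])

theorem M (A : ℕ) : ∃ B : ℝ, 1 ≤ B ∧ ∀ {V ρ₀ Θ θ : ℝ} {X X' : Ch} (D : RD A V ρ₀ Θ θ X X')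
    (x x' η R : ℝ), In X ρ₀ Θ 70 x → In X ρ₀ Θ 70 x' → |X.ι x - X.ι x'| ≤ 20 * Θ → 0 < η →
      η ≤ D.ϱ x → η ≤ D.ϱ x' → η ≤ R → |x - x'| ≤ R → D.u x ≤ R → D.u x' ≤ R →
      Real.log (D.u x) ≤ Real.log (D.u x') + B * (V + Real.log (R / η)) := by
  obtain ⟨B, B1, hB⟩ := M' A
  obtain ⟨c, c1, hc⟩ := R5b_rep A
  have A0 : (0 : ℝ) ≤ A := Nat.cast_nonneg A
  have l0 : 0 ≤ Real.log (3 * c) := Real.log_nonneg (by linarith)
  refine ⟨2 * A + B * (1 + A + Real.log (3 * c)), by nlinarith,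
    fun {V ρ₀ Θ θ X X'} D x x' η R hx hx' hd η0 h1 h2 h3 h4 h5 h6 => ?_⟩
  have t0 := D.θ_pos
  have t1 := D.θ_le
  have V1 := D.V_ge
  have c0 : 0 < c := by linarith
  have R0 := η0.trans_le h3
  have E1 : 1 ≤ Real.exp (A * V) := Real.one_le_exp (by positivity)
  obtain ⟨y, y1, y2, y3⟩ := hc D x hx
  obtain ⟨y', z1, z2, z3⟩ := hc D x' hx'
  have i1 : In X ρ₀ Θ 80 y := R5b_in hx y1 (by linarith)
  have i2 : In X ρ₀ Θ 80 y' := R5b_in hx' z1 (by linarith)
  have cu : ∀ {a b : ℝ}, In X ρ₀ Θ 80 a → |X.ι b - X.ι a| ≤ 2 * θ →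
      D.u b ≤ Real.exp (A * V) * D.u a := fun ha hb => by
    have := D.cmp_uu (R5b_mono D ha (show (80 : ℝ) ≤ 140 by norm_num)) (hb.trans (by linarith))
    rwa [X.σ_ι, X.σ_ι] at this
  have j1 := R5b_mono D hx (show (70 : ℝ) ≤ 80 by norm_num)
  have j2 := R5b_mono D hx' (show (70 : ℝ) ≤ 80 by norm_num)
  have up : ∀ {a : ℝ}, In X ρ₀ Θ 80 a → 0 < D.u a := fun ha => D.u_pos (R5b_mono D ha (by norm_num))
  have ER := le_mul_of_one_le_left R0.le E1
  have k1 := hB D y y' (η / c) (3 * (Real.exp (A * V) * R)) i1 i2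
    (by linarith [abs_sub_le (X.ι y) (X.ι x) (X.ι y'), abs_sub_le (X.ι x) (X.ι x') (X.ι y'),
      abs_sub_comm (X.ι x') (X.ι y')]) (by positivity)
    ((div_le_iff₀' c0).2 (h1.trans y3)) ((div_le_iff₀' c0).2 (h2.trans z3))
    (by linarith [div_le_self η0.le c1])
    (by linarith [abs_sub_le y x y', abs_sub_le x x' y', abs_sub_comm x' y'])
    (by linarith [cu j1 y1, mul_le_mul_of_nonneg_left h5 (zero_le_one.trans E1)])
    (by linarith [cu j2 z1, mul_le_mul_of_nonneg_left h6 (zero_le_one.trans E1)])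
  have e : 3 * (Real.exp (A * V) * R) / (η / c) = 3 * c * (Real.exp (A * V) * (R / η)) := by
    field_simp
  have k2 := Real.log_le_log (up j1) (cu i1 ((abs_sub_comm _ _).trans_le y1))
  have k3 := Real.log_le_log (up i2) (cu j2 z1)
  rw [Real.log_mul (Real.exp_pos _).ne' (up i1).ne', Real.log_exp] at k2
  rw [Real.log_mul (Real.exp_pos _).ne' (up j2).ne', Real.log_exp] at k3
  rw [e, Real.log_mul (by positivity) (by positivity),
    Real.log_mul (Real.exp_pos _).ne' (by positivity), Real.log_exp] at k1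
  have L0 := Real.log_nonneg ((one_le_div η0).2 h3)
  have B0 := zero_le_one.trans B1
  linarith [mul_nonneg A0 L0, mul_nonneg (mul_nonneg B0 A0) L0, mul_nonneg (mul_nonneg B0 l0) L0,
    mul_le_mul_of_nonneg_left V1 (mul_nonneg B0 l0)]

theorem MC (A : ℕ) : ∃ B : ℝ, 1 ≤ B ∧ ∀ {V ρ₀ Θ θ : ℝ} {X X' : Ch} (D : RD A V ρ₀ Θ θ X X')
    (x y : ℝ), In X ρ₀ Θ 50 x → 8 * θ ≤ |X.ι x - X.ι y| → |X.ι x - X.ι y| ≤ 8 * Θ →
      D.ϱ x ≤ D.ϱ y →
      |Real.log (D.k x) - Real.log (D.k y)| ≤ B * (V + Real.log (1 + |x - y| / D.ϱ x)) := by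
  obtain ⟨B, B1, hB⟩ := M A
  have A0 : (0 : ℝ) ≤ A := Nat.cast_nonneg A
  refine ⟨(B + 1) * (1 + A + |Real.log (8 * C1 A)|),
    by nlinarith [abs_nonneg (Real.log (8 * C1 A))],
    fun {V ρ₀ Θ θ X X'} D x y hx h1 h2 h3 => ?_⟩
  have t0 := D.θ_pos
  have t1 := D.θ_le
  have V1 := D.V_ge
  have c1 := (one_le_C1 (le_trans (by norm_num) D.A_ge : 1 ≤ A)).2
  have l0 : 0 ≤ Real.log (8 * C1 A) := Real.log_nonneg (by linarith)
  have hy : In X ρ₀ Θ 58 y := R5b_in hx ((abs_sub_comm _ _).trans_le h2) (by linarith)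
  have i1 := R5b_mono D hx (show (50 : ℝ) ≤ 200 by norm_num)
  have i2 := R5b_mono D hy (show (58 : ℝ) ≤ 200 by norm_num)
  have u0 := D.u_pos i1
  have u1 := D.u_pos i2
  have p0 := u0.trans_le (R5b_u D i1)
  have k0 := R5b_k D x
  have k1 := R5b_k D y
  have L0 : 0 ≤ Real.log (1 + |x - y| / D.ϱ x) :=
    Real.log_nonneg (le_add_of_nonneg_right (by positivity))
  have E1 : 1 ≤ Real.exp (A * V) := Real.one_le_exp (by positivity)
  rw [abs_of_nonneg l0]
  by_cases hc : 8 ≤ D.k y ∧ |x - y| ≤ D.ϱ y / (8 * C1 A)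
  · have a1 := D.U_h (R5b_mono D hy (by norm_num)) hc.1 hc.2
    have a2 : |D.k x - D.k y| ≤ |X.ι x - X.ι y| / θ :=
      D.kb_lip (R5b_mono D hy (show (58 : ℝ) ≤ 130 by norm_num))
        (R5b_mono D hx (show (50 : ℝ) ≤ 130 by norm_num))
    obtain ⟨a3, a4⟩ := abs_le.1 (a2.trans ((div_le_iff₀ t0).2
      (show _ ≤ D.k y / 2 * θ by linarith)))
    have a5 := Real.log_le_log (by linarith) (show D.k x ≤ 2 * D.k y by linarith)
    have a6 := Real.log_le_log (by linarith) (show D.k y ≤ 2 * D.k x by linarith)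
    rw [Real.log_mul two_ne_zero (by linarith)] at a5 a6
    have a7 := Real.log_le_sub_one_of_pos two_pos
    refine le_trans (b := 1) (abs_le.2 ⟨by linarith, by linarith⟩) ?_
    exact one_le_mul_of_one_le_of_one_le
      (one_le_mul_of_one_le_of_one_le (by linarith) (by linarith)) (by linarith)
  have a1 : D.ϱ y ≤ 8 * C1 A * Real.exp (A * V) * |x - y| := by
    rcases le_or_gt 8 (D.k y) with k | k
    · have := not_le.1 fun e => hc ⟨k, e⟩
      rw [div_lt_iff₀ (by linarith)] at this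
      nlinarith [mul_le_mul_of_nonneg_left E1 (mul_nonneg (abs_nonneg (x - y))
        (zero_le_one.trans c1))]
    · have b1 : D.u y ≤ Real.exp (A * V) * |x - y| := by
        have j := R5b_mono D hy (show (58 : ℝ) ≤ 140 by norm_num)
        have b2 := X.ι_mem x
        have b3 := X.ι_mem y
        rcases le_abs.1 h1 with e | e
        · have := D.cmp_u' (a := X.ι y) (b := X.ι x) j (by rw [sub_self, abs_zero]; linarith)
            (by linarith) b2.2
          rw [Ch.len, X.σ_ι, X.σ_ι] at this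
          exact this.trans (mul_le_mul_of_nonneg_left (le_abs_self _) (by linarith))
        · have := D.cmp_u' (a := X.ι y - 2 * θ) (b := X.ι y) j
            (abs_le.2 ⟨by linarith, by linarith⟩) (by linarith) b3.2
          have b4 := X.σ_mono.monotoneOn b2 (show X.ι y - 2 * θ ∈ _ from
            ⟨by linarith [b2.1], by linarith [b3.2]⟩) (by linarith)
          rw [Ch.len, X.σ_ι] at this
          rw [X.σ_ι] at b4
          exact this.trans (mul_le_mul_of_nonneg_left (by linarith [neg_abs_le (x - y)])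
            (by linarith))
      have b5 : D.ϱ y ≤ 8 * D.u y := mul_le_mul_of_nonneg_right k.le u1.le
      nlinarith [mul_le_mul_of_nonneg_left c1 (mul_nonneg (zero_le_one.trans E1)
        (abs_nonneg (x - y)))]
  obtain ⟨R, hR⟩ : ∃ R, R = 8 * C1 A * Real.exp (A * V) * (|x - y| + D.ϱ x) := ⟨_, rfl⟩
  have c2 : 1 ≤ 8 * C1 A * Real.exp (A * V) := one_le_mul_of_one_le_of_one_le (by linarith) E1
  have a2 : |x - y| + D.ϱ x ≤ R := hR ▸ le_mul_of_one_le_left (by positivity) c2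
  have a3 : D.ϱ y ≤ R :=
    hR ▸ a1.trans (mul_le_mul_of_nonneg_left (by linarith) (by linarith))
  have j1 := R5b_mono D hx (show (50 : ℝ) ≤ 70 by norm_num)
  have j2 := R5b_mono D hy (show (58 : ℝ) ≤ 70 by norm_num)
  have a4 := hB D x y (D.ϱ x) R j1 j2 (by linarith) p0 le_rfl h3 (h3.trans a3) (by linarith)
    ((R5b_u D i1).trans (h3.trans a3)) ((R5b_u D i2).trans a3)
  have a5 := hB D y x (D.ϱ x) R j2 j1 (by rw [abs_sub_comm]; linarith) p0 h3 le_rfl (h3.trans a3)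
    (by rw [abs_sub_comm]; linarith) ((R5b_u D i2).trans a3) ((R5b_u D i1).trans (h3.trans a3))
  have a6 := Real.log_le_log p0 h3
  have a7 := Real.log_le_log (p0.trans_le h3) a3
  have e1 : Real.log (D.ϱ x) = Real.log (D.k x) + Real.log (D.u x) :=
    Real.log_mul (by linarith) u0.ne'
  have e2 : Real.log (D.ϱ y) = Real.log (D.k y) + Real.log (D.u y) :=
    Real.log_mul (by linarith) u1.ne'
  have e3 : Real.log (R / D.ϱ x) =
      Real.log (8 * C1 A) + A * V + Real.log (1 + |x - y| / D.ϱ x) := by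
    rw [hR, mul_div_assoc, add_div, div_self p0.ne', add_comm _ 1,
      Real.log_mul (by linarith) (by positivity),
      Real.log_mul (by linarith) (Real.exp_pos _).ne', Real.log_exp]
  have e4 := Real.log_div (p0.trans_le (h3.trans a3)).ne' p0.ne'
  have B0 : 0 ≤ B + 1 := by linarith
  have a8 : V + Real.log (R / D.ϱ x) ≤
      (1 + A + Real.log (8 * C1 A)) * (V + Real.log (1 + |x - y| / D.ϱ x)) := by
    linarith [mul_nonneg A0 L0, mul_nonneg l0 L0, mul_le_mul_of_nonneg_left V1 l0]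
  rw [mul_assoc]
  refine le_trans (abs_le.2 ⟨?_, ?_⟩) (mul_le_mul_of_nonneg_left a8 B0) <;> linarith

end Pool.Agent.Work.MP_042f46_an.Fu
end
end

-- merged part: Pool.Agent.Work.MP_042f46_an.F.R6
section
/-!
# The typical number of units

Plan.  `t₀ ∈ [0, 2 Θ]` from `GR`, `x₀ = σ t₀`, `lam = log (ℓ t₀ / u x₀)`; `ℓ t₀ ≤ exp (A V) len 0 (2 Θ) ≤ exp (A V) B k u` and `k ≤ Θ / θ` give the first bound.  `δ₀ = max (4 θ) (hh t₀ θ / 2) ≤ 4 Θ`, `I = [t₀, t₀ + δ₀]`: all `s ∈ I` have `u (σ s)` within the factor `C1 exp (A V)` of `u x₀`, and `len I ≥ ϱ x₀ / (8 C1 exp (A V))` (`unit_ge` if `hh ≥ 8`, `cmp_u'` otherwise).  Given `x`, `t₁ = ι x`, `tr t₀ t₁` gives `ς`; `X.lam Θ (t₀ + ς) δ₀` is within `A V` of `X.lam Θ t₀ δ₀`; `GR` in `I + ς` gives `t' = s + ς` with `ϱ (σ t') ≥ exp (-B V) ℓ t'` (`cmp_ℓ`), `|t' - t₁| ≤ 6 Θ`; `X.lam Θ t (4 θ)` is within `A V` of `log (ℓ t / u (σ t))` (`cmp_u`, `cmp_u'`); so `|log (ℓ t' / u (σ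 t')) - lam| ≤ B V`.  `M` in both directions for `x`, `σ t'` with `R = exp (A V) ℓ t₁`, `η = min (ϱ x) (exp (-B' V) ℓ t₁)`.
-/

open Set Metric Topology Filter MeasureTheory
open scoped ENNReal NNReal

noncomputable section
namespace Pool.Agent.Work.MP_042f46_an.Fu

open Pool.Agent.Work.MP_042f46_an.Ty

theorem R6_len_pos (X : Ch) {a b : ℝ} (ha : -(1 / 2) < a) (h : a < b) (hb : b < 1 / 2) :
    0 < X.len a b :=
  sub_pos.2 (X.σ_mono ⟨ha, h.trans hb⟩ ⟨ha.trans h, hb⟩ h)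

theorem R6_log {a b c : ℝ} (ha : 0 < a) (hb : 0 < b) (h : a ≤ Real.exp c * b) :
    Real.log a ≤ c + Real.log b := by
  have := Real.log_le_log ha h
  rwa [Real.log_mul (Real.exp_pos c).ne' hb.ne', Real.log_exp] at this

theorem R6_log' {a b c : ℝ} (ha : 0 < a) (hb : 0 < b) (hc : 0 < c) (h : a ≤ c * b) :
    Real.log a ≤ Real.log c + Real.log b := by
  have := Real.log_le_log ha h
  rwa [Real.log_mul hc.ne' hb.ne'] at this

section

variable {A : ℕ} {V ρ₀ Θ θ : ℝ} {X X' : Ch} (D : RD A V ρ₀ Θ θ X X') {s t δ : ℝ}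

include D in
theorem R6_ισ (ht : |t| ≤ ρ₀ + 200 * Θ) : X.ι (X.σ t) = t := by
  have := D.θ_pos
  have := D.θ_le
  have := D.ρ_le
  have := abs_le.1 ht
  exact X.ι_σ t ⟨by linarith, by linarith⟩

include D in
theorem R6_lpos (ht : |t| ≤ ρ₀ + 200 * Θ) : 0 < X.ℓ Θ t := by
  have := D.θ_pos
  have := D.θ_le
  have := D.ρ_le
  have := abs_le.1 ht
  exact R6_len_pos X (by linarith) (by linarith) (by linarith)

include D in
theorem R6_dpos (ht : |t| ≤ ρ₀ + 200 * Θ) (h1 : 4 * θ ≤ δ) (h2 : δ ≤ 4 * Θ) :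
    0 < X.len t (t + δ) := by
  have := D.θ_pos
  have := D.θ_le
  have := D.ρ_le
  have := abs_le.1 ht
  exact R6_len_pos X (by linarith) (by linarith) (by linarith)

theorem R6_upos (ht : |t| ≤ ρ₀ + 200 * Θ) : 0 < D.u (X.σ t) :=
  D.u_pos (by rw [In, R6_ισ D ht]; exact ht)

theorem R6_rpos (ht : |t| ≤ ρ₀ + 200 * Θ) : 0 < D.ϱ (X.σ t) :=
  mul_pos (lt_of_lt_of_le one_pos (le_max_right _ _)) (R6_upos D ht)

include D in
theorem R6_lam (ht : |t| ≤ ρ₀ + 200 * Θ) (h1 : 4 * θ ≤ δ) (h2 : δ ≤ 4 * Θ) :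
    X.lam Θ t δ = Real.log (X.ℓ Θ t) - Real.log (X.len t (t + δ)) :=
  Real.log_div (R6_lpos D ht).ne' (R6_dpos D ht h1 h2).ne'

include D in
theorem R6_ll (ht : |t| ≤ ρ₀ + 140 * Θ) (hs : |s| ≤ ρ₀ + 140 * Θ) (h : |s - t| ≤ 80 * Θ) :
    Real.log (X.ℓ Θ s) ≤ A * V + Real.log (X.ℓ Θ t) := by
  have := D.θ_pos
  have := D.θ_le
  have := abs_le.1 h
  exact R6_log (R6_lpos D (by linarith)) (R6_lpos D (by linarith))
    (D.cmp_ℓ (Or.inl rfl) ht (by linarith) (by linarith) (by linarith))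

theorem R6_lam4 (ht : |t| ≤ ρ₀ + 140 * Θ) :
    |X.lam Θ t (4 * θ) - (Real.log (X.ℓ Θ t) - Real.log (D.u (X.σ t)))| ≤ A * V := by
  have := D.θ_pos
  have := D.θ_le
  have := D.ρ_le
  have h0 := abs_le.1 ht
  have ht' : |t| ≤ ρ₀ + 200 * Θ := by linarith
  have p1 := R6_dpos D ht' (le_refl (4 * θ)) (by linarith)
  have p2 := R6_upos D ht'
  have a := R6_log p1 p2 (D.cmp_u ht (by linarith) (by linarith) (by linarith))
  have b := R6_log p2 p1 (D.cmp_u' ht (by rw [sub_self, abs_zero]; linarith) (by linarith)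
    (by linarith))
  rw [R6_lam D ht' le_rfl (by linarith), abs_le]
  constructor <;> linarith

theorem R6_ul (ht : |t| ≤ ρ₀ + 100 * Θ) (h : |s - t| ≤ 80 * Θ) :
    D.u (X.σ s) ≤ Real.exp (A * V) * X.ℓ Θ t := by
  have := D.θ_pos
  have := D.θ_le
  have h0 := abs_le.1 ht
  have h1 := abs_le.1 h
  rcases D.u_eq (t := s) (abs_le.2 ⟨by linarith, by linarith⟩) with ⟨-, e⟩ | ⟨-, e⟩ <;> rw [e] <;>
    exact D.cmp_ℓ (Or.inl rfl) (by linarith) (by linarith) (by linarith) (by linarith)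

/-- the flat interval to the right of `t` -/
theorem R6_flat (ht : |t| ≤ ρ₀ + 100 * Θ) : ∃ δ, 4 * θ ≤ δ ∧ δ ≤ 4 * Θ ∧
    (∀ s ∈ Icc t (t + δ), |Real.log (D.u (X.σ s)) - Real.log (D.u (X.σ t))| ≤
      A * V + Real.log (C1 A)) ∧
    Real.log (D.ϱ (X.σ t)) ≤ A * V + Real.log (8 * C1 A) + Real.log (X.len t (t + δ)) := by
  have hθ := D.θ_pos
  have := D.θ_le
  have := D.ρ_le
  have h0 := abs_le.1 ht
  have hC := (one_le_C1 (A := A) (le_trans (by norm_num) D.A_ge)).2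
  have hW : (0 : ℝ) ≤ A * V := mul_nonneg (Nat.cast_nonneg _) (zero_le_one.trans D.V_ge)
  have hl := Real.log_nonneg hC
  have ht' : |t| ≤ ρ₀ + 200 * Θ := by linarith
  have hu := R6_upos D ht'
  have hk : D.ϱ (X.σ t) = max (D.hh t) 1 * D.u (X.σ t) := by
    rw [RD.ϱ, RD.k, R6_ισ D ht', RD.kb]
  rcases le_or_gt 8 (D.hh t) with h | h
  · have h1 : D.hh t * θ ≤ Θ := (le_div_iff₀ hθ).1 (D.hh_le (by linarith))
    have h2 : 4 * θ ≤ D.hh t / 2 * θ := by nlinarith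
    have hg := (D.good_of_lt (t := t) (by linarith) (κ := D.hh t / 2) (by linarith)
      (by linarith)).2
    have m0 : t ∈ Icc (t - D.hh t / 2 * θ) (t + D.hh t / 2 * θ) := ⟨by linarith, by linarith⟩
    have m1 : ∀ s ∈ Icc t (t + D.hh t / 2 * θ),
        s ∈ Icc (t - D.hh t / 2 * θ) (t + D.hh t / 2 * θ) := fun s hs =>
      ⟨by linarith [hs.1], hs.2⟩
    refine ⟨D.hh t / 2 * θ, h2, by linarith, fun s hs => ?_, ?_⟩
    · have p := R6_upos D (t := s) (abs_le.2 ⟨by linarith [hs.1], by linarith [hs.2]⟩)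
      have a := R6_log' p hu (by linarith) (hg s (m1 s hs) t m0)
      have b := R6_log' hu p (by linarith) (hg t m0 s (m1 s hs))
      rw [abs_le]
      constructor <;> linarith
    · have a := D.unit_ge (a := t) (b := t + D.hh t / 2 * θ) (by linarith)
        (abs_le.2 ⟨by linarith, by linarith⟩) (by linarith) (m := D.u (X.σ t) / C1 A)
        fun s hs => (div_le_iff₀' (by linarith)).2 (hg t m0 s (m1 s hs))
      have e : (t + D.hh t / 2 * θ - t) / (4 * θ) * (D.u (X.σ t) / C1 A) =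
          D.hh t * D.u (X.σ t) / (8 * C1 A) := by
        have : C1 A ≠ 0 := by linarith
        field_simp
        ring
      rw [e, div_le_iff₀' (by linarith)] at a
      have b := R6_log' (R6_rpos D ht') (R6_dpos D ht' h2 (by linarith)) (c := 8 * C1 A)
        (by linarith) (by rwa [hk, max_eq_left (by linarith)])
      linarith
  · refine ⟨4 * θ, le_rfl, by linarith, fun s hs => ?_, ?_⟩
    · have hs' : |s| ≤ ρ₀ + 140 * Θ := abs_le.2 ⟨by linarith [hs.1], by linarith [hs.2]⟩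
      have p := R6_upos D (t := s) (by linarith)
      have a := R6_log p hu (D.cmp_uu (by linarith)
        (abs_le.2 ⟨by linarith [hs.1], by linarith [hs.2]⟩))
      have b := R6_log hu p (D.cmp_uu hs' (abs_le.2 ⟨by linarith [hs.2], by linarith [hs.1]⟩))
      rw [abs_le]
      constructor <;> linarith
    · have a := R6_log hu (R6_dpos D ht' (le_refl (4 * θ)) (by linarith))
        (D.cmp_u' (by linarith) (by rw [sub_self, abs_zero]; linarith) (by linarith)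
          (by linarith))
      have b := R6_log' (R6_rpos D ht') hu (c := 8 * C1 A) (by linarith) (by
        rw [hk]
        exact mul_le_mul_of_nonneg_right (max_le (by linarith) (by linarith)) hu.le)
      linarith

end

theorem GG (A : ℕ) : ∃ B : ℝ, 1 ≤ B ∧ ∀ {V ρ₀ Θ θ : ℝ} {X X' : Ch} (D : RD A V ρ₀ Θ θ X X'),
    ∃ lam : ℝ, lam ≤ Real.log (Θ / θ) + B * V ∧ ∀ x, In X ρ₀ Θ 50 x →
      |Real.log (X.ℓ Θ (X.ι x) / D.u x) - lam| ≤
        B * (V + Real.log (1 + X.ℓ Θ (X.ι x) / D.ϱ x)) := by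
  obtain ⟨G, hG, gr⟩ := GR A
  obtain ⟨N, hN, mm⟩ := M A
  obtain ⟨κ, hκ⟩ : ∃ κ : ℝ, κ = |Real.log (8 * C1 A)| + 2 * Real.log G := ⟨_, rfl⟩
  have hlG := Real.log_nonneg hG
  have hκ0 : 0 ≤ κ := by
    have := abs_nonneg (Real.log (8 * C1 A))
    linarith
  have hA0 : (0 : ℝ) ≤ A := Nat.cast_nonneg _
  have hNN : N ≤ N * (1 + 5 * A + κ) := le_mul_of_one_le_right (by linarith) (by linarith)
  refine ⟨6 * A + κ + N * (1 + 5 * A + κ), by linarith, ?_⟩
  intro V ρ₀ Θ θ X X' D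
  have hθ := D.θ_pos
  have hΘ := D.θ_le
  have hρ := D.ρ_le
  have hρ0 := D.ρ_nonneg
  have hV := D.V_ge
  have hC := (one_le_C1 (A := A) (le_trans (by norm_num) D.A_ge)).2
  have hW : (0 : ℝ) ≤ A * V := mul_nonneg hA0 (zero_le_one.trans hV)
  have h8 : 0 ≤ Real.log (8 * C1 A) := Real.log_nonneg (by linarith)
  have h8' : Real.log (C1 A) ≤ Real.log (8 * C1 A) := Real.log_le_log (by linarith) (by linarith)
  rw [abs_of_nonneg h8] at hκ
  have hκV : κ ≤ κ * V := le_mul_of_one_le_right hκ0 hV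
  obtain ⟨t₀, ⟨a0, a1⟩, h0⟩ := gr D 0 (2 * Θ) (by rw [abs_zero]; linarith) (by linarith)
    (by linarith)
  have b0 : |t₀| ≤ ρ₀ + 60 * Θ := abs_le.2 ⟨by linarith, by linarith⟩
  have b1 : |t₀| ≤ ρ₀ + 200 * Θ := by linarith
  have u0 := R6_upos D b1
  have r0 := R6_rpos D b1
  have l0 := R6_lpos D b1
  have c1 : Real.log (X.ℓ Θ t₀) ≤ A * V + Real.log G + Real.log (D.ϱ (X.σ t₀)) := by
    have bΘ : |Θ| ≤ ρ₀ + 140 * Θ := abs_le.2 ⟨by linarith, by linarith⟩
    have e1 := R6_ll D bΘ (s := t₀) (by linarith) (abs_le.2 ⟨by linarith, by linarith⟩)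
    have e2 := R6_log' (R6_lpos D (t := Θ) (by linarith)) r0 (c := G) (by linarith) (by
      rw [Ch.ℓ, sub_self, ← two_mul]
      exact h0.trans (mul_le_mul_of_nonneg_left (min_le_left _ _) (by linarith)))
    linarith
  obtain ⟨δ, d1, d2, d3, d4⟩ := R6_flat D (t := t₀) (by linarith)
  refine ⟨Real.log (X.ℓ Θ t₀) - Real.log (D.u (X.σ t₀)), ?_, fun x hx => ?_⟩
  · have e1 := R6_log' r0 u0 (c := Θ / θ) (div_pos (by linarith) hθ) (by
      rw [RD.ϱ, RD.k, R6_ισ D b1, RD.kb]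
      exact mul_le_mul_of_nonneg_right (max_le (D.hh_le (by linarith))
        ((one_le_div hθ).2 (by linarith))) u0.le)
    have e2 : 0 ≤ N * (1 + 5 * A + κ) * V := mul_nonneg (by linarith) (by linarith)
    nlinarith
  obtain ⟨t₁, rfl⟩ : ∃ t₁, X.σ (X.ι t₁) = x := ⟨x, X.σ_ι x⟩
  rw [In, X.σ_ι] at hx
  rw [show X.ι (X.σ (X.ι t₁)) = X.ι t₁ by rw [X.σ_ι]]
  generalize X.ι t₁ = t at hx ⊢
  have hx' := abs_le.1 hx
  have bt : |t| ≤ ρ₀ + 200 * Θ := by linarith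
  obtain ⟨ς, s1, s2, s3⟩ := D.tr t₀ t b0 (by linarith)
  have ba : |t₀ + ς| ≤ ρ₀ + 90 * Θ := abs_le.2 ⟨by linarith, by linarith⟩
  have ba' : |t₀ + ς| ≤ ρ₀ + 200 * Θ := by linarith
  obtain ⟨t', ⟨f1, f2⟩, f3⟩ := gr D (t₀ + ς) (t₀ + ς + δ) ba (by linarith) (by linarith)
  have bt' : |t'| ≤ ρ₀ + 60 * Θ := abs_le.2 ⟨by linarith, by linarith⟩
  have bt'' : |t'| ≤ ρ₀ + 200 * Θ := by linarith
  have lt := R6_lpos D bt
  have ut := R6_upos D bt
  have rt := R6_rpos D bt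
  have rt' := R6_rpos D bt''
  have g1 : Real.log (X.ℓ Θ t) ≤ 4 * (A * V) + κ + Real.log (D.ϱ (X.σ t')) := by
    have e1 := (abs_le.1 (s3 t₀ δ (by rw [sub_self, abs_zero]; linarith) d1 d2)).2
    rw [R6_lam D ba' d1 d2, R6_lam D b1 d1 d2] at e1
    have e2 := R6_log' (R6_dpos D ba' d1 d2) rt' (c := G) (by linarith)
      (f3.trans (mul_le_mul_of_nonneg_left (min_le_left _ _) (by linarith)))
    have e3 := R6_ll D (t := t₀ + ς) (s := t) (by linarith) (by linarith)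
      (abs_le.2 ⟨by linarith, by linarith⟩)
    linarith
  have g2 : |Real.log (X.ℓ Θ t) - Real.log (D.u (X.σ t')) -
      (Real.log (X.ℓ Θ t₀) - Real.log (D.u (X.σ t₀)))| ≤ 6 * (A * V) + κ := by
    have bs : |t' - ς| ≤ ρ₀ + 140 * Θ := abs_le.2 ⟨by linarith, by linarith⟩
    have e1 := s3 (t' - ς) (4 * θ) (abs_le.2 ⟨by linarith, by linarith⟩) le_rfl (by linarith)
    rw [sub_add_cancel] at e1
    have e1 := abs_le.1 e1
    have e2 := abs_le.1 (R6_lam4 D (t := t') (by linarith))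
    have e3 := abs_le.1 (R6_lam4 D bs)
    have e4 := abs_le.1 (d3 (t' - ς) ⟨by linarith, by linarith⟩)
    have e5 := R6_ll D (t := t₀) (by linarith) bs (abs_le.2 ⟨by linarith, by linarith⟩)
    have e6 := R6_ll D (s := t₀) bs (by linarith) (abs_le.2 ⟨by linarith, by linarith⟩)
    have e7 := R6_ll D (t := t') (s := t) (by linarith) (by linarith)
      (abs_le.2 ⟨by linarith, by linarith⟩)
    have e8 := R6_ll D (t := t) (s := t') (by linarith) (by linarith)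
      (abs_le.2 ⟨by linarith, by linarith⟩)
    rw [abs_le]
    constructor <;> linarith [e1.1, e1.2, e2.1, e2.2, e3.1, e3.2, e4.1, e4.2]
  obtain ⟨c, hc⟩ : ∃ c : ℝ, c = 4 * (A * V) + κ := ⟨_, rfl⟩
  have hc0 : 0 ≤ c := by linarith
  have hE : 1 ≤ Real.exp (A * V) := Real.one_le_exp hW
  have hq : 0 < X.ℓ Θ t / D.ϱ (X.σ t) := div_pos lt rt
  have hL : 0 ≤ Real.log (1 + X.ℓ Θ t / D.ϱ (X.σ t)) := Real.log_nonneg (by linarith)
  obtain ⟨η, η0, η1, η2, η3, η4⟩ : ∃ η : ℝ, 0 < η ∧ η ≤ D.ϱ (X.σ t) ∧ η ≤ D.ϱ (X.σ t') ∧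
      η ≤ X.ℓ Θ t ∧
      Real.log (X.ℓ Θ t) ≤ c + Real.log (1 + X.ℓ Θ t / D.ϱ (X.σ t)) + Real.log η := by
    have p : 0 < Real.exp (-c) * X.ℓ Θ t := mul_pos (Real.exp_pos _) lt
    have q : Real.log (Real.exp (-c) * X.ℓ Θ t) = -c + Real.log (X.ℓ Θ t) := by
      rw [Real.log_mul (Real.exp_pos _).ne' lt.ne', Real.log_exp]
    refine ⟨min (D.ϱ (X.σ t)) (Real.exp (-c) * X.ℓ Θ t), lt_min rt p, min_le_left _ _,
      (min_le_right _ _).trans ((Real.log_le_log_iff p rt').1 (by linarith)),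
      (min_le_right _ _).trans ((Real.log_le_log_iff p lt).1 (by linarith)), ?_⟩
    rcases le_total (D.ϱ (X.σ t)) (Real.exp (-c) * X.ℓ Θ t) with h | h
    · rw [min_eq_left h]
      have e1 := Real.log_le_log hq (le_add_of_nonneg_left zero_le_one)
      rw [Real.log_div lt.ne' rt.ne'] at e1
      linarith
    · rw [min_eq_right h]
      linarith
  have i1 : In X ρ₀ Θ 70 (X.σ t) := by
    rw [In, R6_ισ D bt]
    linarith
  have i2 : In X ρ₀ Θ 70 (X.σ t') := by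
    rw [In, R6_ισ D bt'']
    linarith
  have i3 : |X.ι (X.σ t) - X.ι (X.σ t')| ≤ 20 * Θ := by
    rw [R6_ισ D bt, R6_ισ D bt'']
    exact abs_le.2 ⟨by linarith, by linarith⟩
  have i4 : η ≤ Real.exp (A * V) * X.ℓ Θ t := η3.trans (le_mul_of_one_le_left lt.le hE)
  have i5 : |X.σ t' - X.σ t| ≤ Real.exp (A * V) * X.ℓ Θ t := by
    have := abs_le.1 bt'
    rw [abs_of_nonneg (sub_nonneg.2 (X.σ_mono.monotoneOn ⟨by linarith, by linarith⟩
      ⟨by linarith, by linarith⟩ (by linarith : t ≤ t')))]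
    exact D.cmp_ℓ (Or.inl rfl) (by linarith) (by linarith) (by linarith) (by linarith)
  have i6 := R6_ul D (t := t) (s := t) (by linarith) (by rw [sub_self, abs_zero]; linarith)
  have i7 := R6_ul D (t := t) (s := t') (by linarith) (abs_le.2 ⟨by linarith, by linarith⟩)
  have m1 := mm D _ _ η _ i1 i2 i3 η0 η1 η2 i4 (by rwa [abs_sub_comm]) i6 i7
  have m2 := mm D _ _ η _ i2 i1 (by rwa [abs_sub_comm]) η0 η2 η1 i4 i5 i7 i6
  have m3 : N * (V + Real.log (Real.exp (A * V) * X.ℓ Θ t / η)) ≤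
      N * ((1 + 5 * A + κ) * V + Real.log (1 + X.ℓ Θ t / D.ϱ (X.σ t))) := by
    refine mul_le_mul_of_nonneg_left ?_ (by linarith)
    rw [Real.log_div (mul_pos (Real.exp_pos _) lt).ne' η0.ne',
      Real.log_mul (Real.exp_pos _).ne' lt.ne', Real.log_exp]
    linarith
  have m4 : N * Real.log (1 + X.ℓ Θ t / D.ϱ (X.σ t)) ≤
      (6 * A + κ + N * (1 + 5 * A + κ)) * Real.log (1 + X.ℓ Θ t / D.ϱ (X.σ t)) :=
    mul_le_mul_of_nonneg_right (by linarith) hL
  have g3 := abs_le.1 g2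
  rw [Real.log_div lt.ne' ut.ne', abs_le]
  constructor <;> linarith [g3.1, g3.2]

end Pool.Agent.Work.MP_042f46_an.Fu
end
end

-- merged part: Pool.Agent.Work.MP_042f46_an.F.R9
section
/-!
# The outer parametrisation

Plans.  `ramp_int`: for fixed `δ = x - y` the difference vanishes unless `x` lies in an interval of length `l + |δ|`, and it is at most `min 1 (|δ| / l)`; `∫ |δ| ≤ L, (l + |δ|) min 1 (|δ| / l) ^ 2 / δ ^ 2 ≤ 6 + 2 log (1 + L / l)`.
`exists_T`: `n` with `ρ₀ + 26 Θ ≤ 2 n Θ ≤ ρ₀ + 28 Θ`, `τ j = -2 n Θ + 2 j Θ`, `c t = max (τ 0) (min t (τ (2 n)))`, `T t = (t - c t) + τ 0 + ∑ j < 2 n, 2 Θ clamp ((σ (c t) - σ (τ j)) / len (τ j) (τ (j + 1)))`.  For `t ∈ [τ j, τ (j + 1)]` the value is in the same interval.  On `[t - 8 Θ, t + 10 Θ]` at most eleven terms are not constant; `ramp_int` with `L ≤ exp (A V) l` (`cmp_ℓ`: `len (τ j) (τ (j + 1)) = ℓ (τ j + Θ)`), `H = K0.map`, `lintegral_map`.  Last clause: with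 `t₁ = c t`, `t₂ = c (t + δ)` at most three terms change, each by at most `2 Θ len t₁ t₂ / l ≤ 2 Θ exp (A V) len t₁ t₂ / ℓ t₁`.
`len_frac`: `η = len t (t + δ) / ℓ t ≤ exp (A V)`; `GR` gives `t'` with `η ℓ t ≤ B ϱ (σ t')`.  Also `η ℓ t ≤ C (δ / θ) u (σ t')`: if `k < 8` or `k θ / 2 ≤ δ` from `ϱ = k u`; otherwise from `unit_le`.  `ℓ t'` is within `exp (A V)` of `ℓ t`, and `1 + ℓ t' / ϱ ≤ exp (C V) / η`.
-/

open Set Metric Topology Filter MeasureTheory
open scoped ENNReal NNReal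

noncomputable section
namespace Pool.Agent.Work.MP_042f46_an.Fu

open Pool.Agent.Work.MP_042f46_an.Ty

theorem R9_lip (s t : ℝ) : |clamp s - clamp t| ≤ |s - t| := by
  have := lipschitz_clamp.dist_le_mul s t
  rwa [NNReal.coe_one, one_mul, Real.dist_eq, Real.dist_eq] at this

theorem R9_mono {s t : ℝ} (h : s ≤ t) : clamp s ≤ clamp t :=
  max_le_max le_rfl (min_le_min le_rfl h)

theorem R9_pt {l : ℝ} (hl : 0 < l) (a x y : ℝ) :
    1 / (x - y) ^ 2 * (clamp ((x - a) / l) - clamp ((y - a) / l)) ^ 2 ≤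
      1 / max l |-x + y| ^ 2 := by
  rcases eq_or_ne x y with rfl | h
  · rw [sub_self, sub_self, zero_pow two_ne_zero, mul_zero]
    positivity
  have h0 : 0 < (x - y) ^ 2 := by
    have := sub_ne_zero.2 h
    positivity
  have e : |-x + y| = |x - y| := by rw [← abs_neg, show -(-x + y) = x - y by ring]
  rw [e]
  rcases le_total l |x - y| with k | k
  · rw [max_eq_right k, sq_abs]
    refine mul_le_of_le_one_right (by positivity) ?_
    have h1 := clamp_mem ((x - a) / l)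
    have h2 := clamp_mem ((y - a) / l)
    exact (sq_le_one_iff_abs_le_one _).2
      (abs_le.2 ⟨by linarith only [h1.1, h2.2], by linarith only [h1.2, h2.1]⟩)
  · rw [max_eq_left k]
    have h1 := R9_lip ((x - a) / l) ((y - a) / l)
    rw [show (x - a) / l - (y - a) / l = (x - y) / l by ring] at h1
    have h2 := sq_le_sq.2 h1
    refine (mul_le_mul_of_nonneg_left h2 (by positivity)).trans (le_of_eq ?_)
    field_simp

theorem R9_out {l : ℝ} (hl : 0 < l) {a x y : ℝ}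
    (h : ¬ |x - (a + l / 2 - (-x + y) / 2)| ≤ (l + |-x + y|) / 2) :
    clamp ((x - a) / l) = clamp ((y - a) / l) := by
  have h1 := le_abs_self (-x + y)
  have h2 := neg_abs_le (-x + y)
  rcases lt_abs.1 (not_le.1 h) with k | k
  · rw [clamp_one ((one_le_div hl).2 (by linarith only [k, h1])),
      clamp_one ((one_le_div hl).2 (by linarith only [k, h2]))]
  · rw [clamp_zero (div_nonpos_of_nonpos_of_nonneg (by linarith only [k, h2]) hl.le),
      clamp_zero (div_nonpos_of_nonpos_of_nonneg (by linarith only [k, h1]) hl.le)]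

theorem R9_line {l L : ℝ} (hl : 0 < l) (hL : 0 ≤ L) :
    ∫⁻ d in Icc (-L) L, ENNReal.ofReal ((l + |d|) / max l |d| ^ 2) ≤
      ENNReal.ofReal (6 + 2 * Real.log (1 + L / l)) := by
  have hs : Icc (-L) L ⊆ Icc (-l) l ∪ (Icc l (l + L) ∪ Icc (-(l + L)) (-l)) := by
    intro d hd
    rcases le_total d l with k | k
    · rcases le_total (-l) d with k' | k'
      · exact Or.inl ⟨k', k⟩
      · exact Or.inr (Or.inr ⟨by linarith only [hd.1, hl], k'⟩)
    · exact Or.inr (Or.inl ⟨k, by linarith only [hd.2, hl]⟩)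
  have hp : 0 < l + L := by linarith only [hl, hL]
  have lg : Real.log (1 + L / l) = Real.log (l + L) - Real.log l := by
    rw [← Real.log_div hp.ne' hl.ne']
    congr 1
    field_simp
  have l0 : 0 ≤ Real.log (1 + L / l) := Real.log_nonneg (le_add_of_nonneg_right (by positivity))
  have i1 : ∫⁻ d in Icc (-l) l, ENNReal.ofReal ((l + |d|) / max l |d| ^ 2) ≤
      ENNReal.ofReal 4 := by
    have := (B6_ftc (F := fun d => 2 / l * d) (f := fun _ => 2 / l) (a := -l) (b := l)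
      (by linarith only [hl]) (fun d _ => ((hasDerivAt_id d).const_mul (2 / l)).congr_deriv
        (mul_one _)) fun _ _ => by positivity).2
    rw [show 2 / l * l - 2 / l * -l = 4 by field_simp; norm_num] at this
    rw [← this]
    refine setLIntegral_mono' measurableSet_Icc fun d hd => ENNReal.ofReal_le_ofReal ?_
    have k := abs_le.2 hd
    rw [max_eq_left k, div_le_div_iff₀ (by positivity) hl]
    nlinarith only [k, hl]
  have i2 : ∫⁻ d in Icc l (l + L), ENNReal.ofReal ((l + |d|) / max l |d| ^ 2) ≤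
      ENNReal.ofReal (1 + Real.log (1 + L / l)) := by
    have := (B6_ftc (F := fun d => -l * d⁻¹ + Real.log d) (f := fun d => -l * -(d ^ 2)⁻¹ + d⁻¹)
      (a := l) (b := l + L) (by linarith only [hL])
      (fun d hd => ((hasDerivAt_inv (hl.trans_le hd.1).ne').const_mul (-l)).add
        (Real.hasDerivAt_log (hl.trans_le hd.1).ne')) fun d hd => by
          have := hl.trans_le hd.1
          rw [neg_mul_neg]
          positivity).2
    refine le_trans (setLIntegral_mono' measurableSet_Icc fun d hd =>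
      ENNReal.ofReal_le_ofReal (le_of_eq ?_)) (this.le.trans (ENNReal.ofReal_le_ofReal ?_))
    · have k := hl.trans_le hd.1
      rw [abs_of_pos k, max_eq_right hd.1]
      field_simp
    · have : 0 ≤ l * (l + L)⁻¹ := by positivity
      have e : l * l⁻¹ = 1 := mul_inv_cancel₀ hl.ne'
      rw [lg]
      linarith only [this, e]
  have i3 : ∫⁻ d in Icc (-(l + L)) (-l), ENNReal.ofReal ((l + |d|) / max l |d| ^ 2) ≤
      ENNReal.ofReal (1 + Real.log (1 + L / l)) := by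
    have ne : ∀ d ∈ Icc (-(l + L)) (-l), d < 0 := fun d hd => by linarith only [hd.2, hl]
    have := (B6_ftc (F := fun d => -l * d⁻¹ - Real.log d) (f := fun d => -l * -(d ^ 2)⁻¹ - d⁻¹)
      (a := -(l + L)) (b := -l) (by linarith only [hL])
      (fun d hd => ((hasDerivAt_inv (ne d hd).ne).const_mul (-l)).sub
        (Real.hasDerivAt_log (ne d hd).ne)) fun d hd => by
          have h1 := inv_nonpos.2 (ne d hd).le
          have h2 : 0 ≤ l * (d ^ 2)⁻¹ := by positivity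
          linarith only [h1, h2]).2
    refine le_trans (setLIntegral_mono' measurableSet_Icc fun d hd =>
      ENNReal.ofReal_le_ofReal (le_of_eq ?_)) (this.le.trans (ENNReal.ofReal_le_ofReal ?_))
    · have k := (ne d hd).ne
      rw [abs_of_neg (ne d hd), max_eq_right (by linarith only [hd.2])]
      field_simp
      ring
    · have : 0 ≤ l * (l + L)⁻¹ := by positivity
      have e : l * l⁻¹ = 1 := mul_inv_cancel₀ hl.ne'
      rw [lg, Real.log_neg_eq_log, Real.log_neg_eq_log, inv_neg, inv_neg]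
      linarith only [this, e]
  refine (lintegral_mono_set hs).trans ((lintegral_union_le _ _ _).trans
    ((add_le_add i1 ((lintegral_union_le _ _ _).trans (add_le_add i2 i3))).trans (le_of_eq ?_)))
  rw [← ENNReal.ofReal_add (by linarith only [l0]) (by linarith only [l0]),
    ← ENNReal.ofReal_add (by norm_num) (by linarith only [l0])]
  congr 1
  ring

theorem ramp_int {l L : ℝ} (hl : 0 < l) (hL : 0 ≤ L) (a c : ℝ) :
    ∫⁻ p in Icc c (c + L) ×ˢ Icc c (c + L),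
      ENNReal.ofReal ((clamp ((p.1 - a) / l) - clamp ((p.2 - a) / l)) ^ 2) ∂K0 ≤
      ENNReal.ofReal (6 + 2 * Real.log (1 + L / l)) := by
  have cc := lipschitz_clamp.continuous
  have m1 : Measurable fun p : ℝ × ℝ =>
      ENNReal.ofReal ((clamp ((p.1 - a) / l) - clamp ((p.2 - a) / l)) ^ 2) :=
    (show Continuous fun p : ℝ × ℝ => (clamp ((p.1 - a) / l) - clamp ((p.2 - a) / l)) ^ 2 by
      fun_prop).measurable.ennreal_ofReal
  have mS : MeasurableSet (Icc c (c + L) ×ˢ Icc c (c + L)) :=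
    measurableSet_Icc.prod measurableSet_Icc
  obtain ⟨Q, hQ⟩ : ∃ Q : Set (ℝ × ℝ), Q = {p | |p.1 - (a + l / 2 - p.2 / 2)| ≤ (l + |p.2|) / 2 ∧
    |p.2| ≤ L} := ⟨_, rfl⟩
  have mQ : MeasurableSet Q := by
    rw [hQ]
    have c1 : IsClosed {p : ℝ × ℝ | |p.1 - (a + l / 2 - p.2 / 2)| ≤ (l + |p.2|) / 2} :=
      isClosed_le (by fun_prop) (by fun_prop)
    have c2 : IsClosed {p : ℝ × ℝ | |p.2| ≤ L} := isClosed_le (by fun_prop) (by fun_prop)
    exact (c1.inter c2).measurableSet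
  have m2 : Measurable (Q.indicator fun p : ℝ × ℝ => ENNReal.ofReal (1 / max l |p.2| ^ 2)) :=
    (measurable_const.div ((show Continuous fun p : ℝ × ℝ => max l |p.2| ^ 2 by
      fun_prop).measurable)).ennreal_ofReal.indicator mQ
  rw [K0, setLIntegral_withDensity_eq_setLIntegral_mul _ D1b_K_meas m1 mS,
    ← lintegral_indicator mS]
  refine le_trans (lintegral_mono (g := fun p : ℝ × ℝ => Q.indicator
    (fun p : ℝ × ℝ => ENNReal.ofReal (1 / max l |p.2| ^ 2)) (p.1, -p.1 + p.2)) fun p => ?_) ?_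
  · by_cases hp : p ∈ Icc c (c + L) ×ˢ Icc c (c + L)
    · rw [indicator_of_mem hp, Pi.mul_apply, ← ENNReal.ofReal_mul (by positivity)]
      by_cases k : |p.1 - (a + l / 2 - (-p.1 + p.2) / 2)| ≤ (l + |-p.1 + p.2|) / 2
      · have : (p.1, -p.1 + p.2) ∈ Q := by
          rw [hQ]
          exact ⟨k, abs_le.2 ⟨by linarith only [hp.1.2, hp.2.1], by linarith only [hp.1.1, hp.2.2]⟩⟩
        exact (ENNReal.ofReal_le_ofReal (R9_pt hl a p.1 p.2)).trans (indicator_of_mem this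
          fun p : ℝ × ℝ => ENNReal.ofReal (1 / max l |p.2| ^ 2)).ge
      · rw [R9_out hl k, sub_self, zero_pow two_ne_zero, mul_zero, ENNReal.ofReal_zero]
        exact zero_le
    · rw [indicator_of_notMem hp]
      exact zero_le
  rw [(measurePreserving_prod_neg_add (volume : Measure ℝ) volume).lintegral_comp m2,
    lintegral_prod_symm' _ m2]
  refine le_trans ?_ (R9_line hl hL)
  rw [← lintegral_indicator measurableSet_Icc]
  refine lintegral_mono fun d => ?_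
  by_cases hd : d ∈ Icc (-L) L
  · rw [indicator_of_mem hd]
    refine le_trans (lintegral_mono (g := (closedBall (a + l / 2 - d / 2) ((l + |d|) / 2)).indicator
      fun _ => ENNReal.ofReal (1 / max l |d| ^ 2)) fun x => ?_) (le_of_eq ?_)
    · by_cases k : (x, d) ∈ Q
      · rw [indicator_of_mem k, indicator_of_mem]
        rw [hQ] at k
        exact k.1
      · rw [indicator_of_notMem k]
        exact zero_le
    · rw [lintegral_indicator_const measurableSet_closedBall, Real.volume_closedBall,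
        ← ENNReal.ofReal_mul (by positivity)]
      congr 1
      ring
  · rw [indicator_of_notMem hd]
    refine le_of_eq ((lintegral_congr fun x => indicator_of_notMem ?_ _).trans lintegral_zero)
    rw [hQ]
    exact fun k => hd (abs_le.1 k.2)

theorem R9_pos (X : Ch) {a b : ℝ} (h₀ : -(1 / 4) ≤ a) (h : a < b) (h₁ : b ≤ 1 / 4) :
    0 < X.len a b := by
  exact sub_pos.2 (X.σ_mono ⟨by linarith only [h₀], by linarith only [h, h₁]⟩
    ⟨by linarith only [h₀, h], by linarith only [h₁]⟩ h)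

theorem R9_le (X : Ch) {a b : ℝ} (h₀ : -(1 / 4) ≤ a) (h : a ≤ b) (h₁ : b ≤ 1 / 4) :
    X.σ a ≤ X.σ b := by
  exact X.σ_mono.monotoneOn ⟨by linarith only [h₀], by linarith only [h, h₁]⟩
    ⟨by linarith only [h₀, h], by linarith only [h₁]⟩ h

theorem R9_ℓ (X : Ch) {Θ m : ℝ} (hΘ : 0 < Θ) (hm : |m| + Θ ≤ 1 / 4) : 0 < X.ℓ Θ m :=
  R9_pos X (by linarith only [hm, neg_abs_le m]) (by linarith only [hΘ])
    (by linarith only [hm, le_abs_self m])

/-- the ramp over the tile with centre `m` -/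
def R9_φ (X : Ch) (Θ m x : ℝ) : ℝ := clamp ((x - X.σ (m - Θ)) / X.ℓ Θ m)

/-- centres of the tiles -/
def R9_m (Θ R : ℝ) (j : ℕ) : ℝ := -R + (2 * j + 1) * Θ

/-- the sum of the ramps -/
def R9_P (X : Ch) (Θ R : ℝ) (k : ℕ) (u : ℝ) : ℝ :=
  ∑ j ∈ Finset.range k, R9_φ X Θ (R9_m Θ R j) (X.σ u)

open Classical in
/-- tiles that meet a window -/
def R9_A (Θ R : ℝ) (k : ℕ) (α β : ℝ) : Finset ℕ :=
  (Finset.range k).filter fun j => R9_m Θ R j - Θ < β ∧ α < R9_m Θ R j + Θ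

theorem R9_zero (X : Ch) {Θ m u : ℝ} (hΘ : 0 < Θ) (hm : |m| + Θ ≤ 1 / 4) (h₀ : -(1 / 4) ≤ u)
    (h : u ≤ m - Θ) : R9_φ X Θ m (X.σ u) = 0 :=
  clamp_zero (div_nonpos_of_nonpos_of_nonneg (sub_nonpos.2
    (R9_le X h₀ h (by linarith only [hm, hΘ, le_abs_self m]))) (R9_ℓ X hΘ hm).le)

theorem R9_one (X : Ch) {Θ m u : ℝ} (hΘ : 0 < Θ) (hm : |m| + Θ ≤ 1 / 4) (h₀ : u ≤ 1 / 4)
    (h : m + Θ ≤ u) : R9_φ X Θ m (X.σ u) = 1 :=
  clamp_one ((one_le_div (R9_ℓ X hΘ hm)).2 (sub_le_sub_right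
    (R9_le X (by linarith only [hm, hΘ, neg_abs_le m]) h h₀) _))

theorem R9_mabs {Θ R : ℝ} (hΘ : 0 < Θ) {k j : ℕ} (hk : k * Θ ≤ R) (hj : j < k) :
    |R9_m Θ R j| + Θ ≤ R := by
  have h1 : (j : ℝ) + 1 ≤ k := by exact_mod_cast hj
  have h2 := mul_le_mul_of_nonneg_right h1 hΘ.le
  have h3 : (0 : ℝ) ≤ j * Θ := by positivity
  have : |R9_m Θ R j| ≤ R - Θ :=
    abs_le.2 ⟨by unfold R9_m; linarith only [h3], by unfold R9_m; linarith only [h2, hk]⟩
  linarith only [this]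

theorem R9_near (X : Ch) {Θ R : ℝ} (hΘ : 0 < Θ) (hR : R ≤ 1 / 4) (k : ℕ) (hk : k * Θ ≤ R) :
    ∀ u, -R ≤ u → u ≤ -R + 2 * k * Θ → |2 * Θ * R9_P X Θ R k u - (u + R)| ≤ 2 * Θ := by
  induction k with
  | zero =>
    intro u h1 h2
    rw [R9_P, Finset.sum_range_zero]
    push_cast at h2
    exact abs_le.2 ⟨by linarith only [h2, hΘ], by linarith only [h1, hΘ]⟩
  | succ k ih =>
    intro u h1 h2
    have hk' := hk
    push_cast at hk' h2
    rw [R9_P, Finset.sum_range_succ]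
    rcases le_total u (-R + 2 * k * Θ) with h | h
    · rw [R9_zero X hΘ ((R9_mabs hΘ hk (Nat.lt_succ_self k)).trans hR) (by linarith only [h1, hR])
        (by unfold R9_m; linarith only [h]), add_zero]
      exact ih (by linarith only [hk', hΘ]) u h1 h
    · have e : ∑ j ∈ Finset.range k, R9_φ X Θ (R9_m Θ R j) (X.σ u) = k := by
        rw [Finset.sum_congr rfl fun j hj => R9_one X hΘ ((R9_mabs hΘ hk
          (Nat.lt_succ_of_lt (Finset.mem_range.1 hj))).trans hR)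
          (by linarith only [h2, hk', hR]) ?_, Finset.sum_const, Finset.card_range,
          nsmul_eq_mul, mul_one]
        have h3 : (j : ℝ) + 1 ≤ k := by exact_mod_cast Finset.mem_range.1 hj
        have h4 := mul_le_mul_of_nonneg_right h3 hΘ.le
        unfold R9_m
        linarith only [h4, h]
      have c : R9_φ X Θ (R9_m Θ R k) (X.σ u) ∈ Icc (0 : ℝ) 1 := clamp_mem _
      have c1 := mul_nonneg hΘ.le c.1
      have c2 := mul_le_mul_of_nonneg_left c.2 hΘ.le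
      rw [e]
      exact abs_le.2 ⟨by linarith only [c1, h2], by linarith only [c2, h]⟩

theorem R9_Pmono (X : Ch) {Θ R : ℝ} (hΘ : 0 < Θ) (hR : R ≤ 1 / 4) {k : ℕ} (hk : k * Θ ≤ R)
    {u v : ℝ} (h₀ : -(1 / 4) ≤ u) (h : u ≤ v) (h₁ : v ≤ 1 / 4) :
    R9_P X Θ R k u ≤ R9_P X Θ R k v :=
  Finset.sum_le_sum fun j hj => R9_mono (div_le_div_of_nonneg_right
    (sub_le_sub_right (R9_le X h₀ h h₁) _)
    (R9_ℓ X hΘ ((R9_mabs hΘ hk (Finset.mem_range.1 hj)).trans hR)).le)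

theorem R9_card {Θ : ℝ} (hΘ : 0 < Θ) (R : ℝ) (k : ℕ) {α β : ℝ} (i : ℕ) (h : β ≤ α + 2 * i * Θ) :
    (R9_A Θ R k α β).card ≤ i + 1 := by
  obtain ⟨n, hn⟩ : ∃ n, n = ⌊(α + R) / (2 * Θ)⌋₊ := ⟨_, rfl⟩
  have hp : 0 < 2 * Θ := by linarith only [hΘ]
  have h1 : α + R < ((n : ℝ) + 1) * (2 * Θ) := by
    rw [← div_lt_iff₀ hp, hn]
    exact Nat.lt_floor_add_one _
  refine (Finset.card_le_card (t := Finset.Ico n (n + (i + 1))) fun j hj => ?_).trans
    (by rw [Nat.card_Ico]; omega)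
  obtain ⟨-, k1, k2⟩ := Finset.mem_filter.1 hj
  unfold R9_m at k1 k2
  refine Finset.mem_Ico.2 ⟨Nat.lt_succ_iff.1 ?_, ?_⟩
  · rw [hn, Nat.floor_lt' (Nat.succ_ne_zero j), div_lt_iff₀ hp]
    push_cast
    linarith only [k2]
  · have : (j : ℝ) * (2 * Θ) < ((n : ℝ) + (i + 1)) * (2 * Θ) := by linarith only [k1, h, h1]
    exact_mod_cast lt_of_mul_lt_mul_right this hp.le

theorem R9_red (X : Ch) {Θ R : ℝ} (hΘ : 0 < Θ) (hR : R ≤ 1 / 4) {k : ℕ} (hk : k * Θ ≤ R)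
    {α β u v : ℝ} (h₀ : -(1 / 4) ≤ α) (h₁ : β ≤ 1 / 4) (hu : u ∈ Icc α β) (hv : v ∈ Icc α β) :
    R9_P X Θ R k u - R9_P X Θ R k v = ∑ j ∈ R9_A Θ R k α β,
      (R9_φ X Θ (R9_m Θ R j) (X.σ u) - R9_φ X Θ (R9_m Θ R j) (X.σ v)) := by
  rw [R9_P, R9_P, ← Finset.sum_sub_distrib]
  refine (Finset.sum_filter_of_ne fun j hj h => ?_).symm
  have hm := (R9_mabs hΘ hk (Finset.mem_range.1 hj)).trans hR
  refine ⟨lt_of_not_ge fun k => h ?_, lt_of_not_ge fun k => h ?_⟩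
  · rw [R9_zero X hΘ hm (h₀.trans hu.1) (hu.2.trans k),
      R9_zero X hΘ hm (h₀.trans hv.1) (hv.2.trans k), sub_self]
  · rw [R9_one X hΘ hm (hu.2.trans h₁) (k.trans hu.1),
      R9_one X hΘ hm (hv.2.trans h₁) (k.trans hv.1), sub_self]

theorem R9_en (X : Ch) {Θ R W : ℝ} (hΘ : 0 < Θ) (hR : R ≤ 1 / 4) {k : ℕ} (hk : k * Θ ≤ R)
    {α β : ℝ} (h₀ : -(1 / 4) ≤ α) (hab : α ≤ β) (h₁ : β ≤ 1 / 4) (hw : β ≤ α + 18 * Θ)
    (hW : 0 ≤ W)
    (hc : ∀ j ∈ R9_A Θ R k α β, X.len α β ≤ Real.exp W * X.ℓ Θ (R9_m Θ R j)) :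
    ∫⁻ p in Icc α β ×ˢ Icc α β,
      ENNReal.ofReal ((2 * Θ * (R9_P X Θ R k p.1 - R9_P X Θ R k p.2)) ^ 2) ∂X.H ≤
      ENNReal.ofReal (400 * (8 + 2 * W) * Θ ^ 2) := by
  have cc := lipschitz_clamp.continuous
  have hcard := R9_card hΘ R k (α := α) (β := β) 9 (by push_cast; linarith only [hw])
  have hcard' : ((R9_A Θ R k α β).card : ℝ) ≤ 10 := by exact_mod_cast hcard
  have ha : α ∈ Ioo (-(1 / 2) : ℝ) (1 / 2) := ⟨by linarith only [h₀], by linarith only [hab, h₁]⟩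
  have hb : β ∈ Ioo (-(1 / 2) : ℝ) (1 / 2) := ⟨by linarith only [h₀, hab], by linarith only [h₁]⟩
  have hL : 0 ≤ X.len α β := sub_nonneg.2 (R9_le X h₀ hab h₁)
  rw [Ch.H, Measure.restrict_map X.D1b_ι (measurableSet_Icc.prod measurableSet_Icc)]
  refine (lintegral_map_le _ _).trans ?_
  refine (setLIntegral_mono' (g := fun p : ℝ × ℝ => ENNReal.ofReal (40 * Θ ^ 2) *
    ∑ j ∈ R9_A Θ R k α β, ENNReal.ofReal ((R9_φ X Θ (R9_m Θ R j) p.1 -
      R9_φ X Θ (R9_m Θ R j) p.2) ^ 2)) (X.D1b_ι (measurableSet_Icc.prod measurableSet_Icc))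
    fun p hp => ?_).trans ?_
  · show ENNReal.ofReal ((2 * Θ * (R9_P X Θ R k (X.ι p.1) - R9_P X Θ R k (X.ι p.2))) ^ 2) ≤ _
    rw [R9_red X hΘ hR hk (u := X.ι p.1) (v := X.ι p.2) h₀ h₁ hp.1 hp.2, X.σ_ι, X.σ_ι,
      ← ENNReal.ofReal_sum_of_nonneg fun j _ => sq_nonneg _, ← ENNReal.ofReal_mul (by positivity)]
    refine ENNReal.ofReal_le_ofReal ?_
    have h1 := sq_sum_le_card_mul_sum_sq (s := R9_A Θ R k α β)
      (f := fun j => R9_φ X Θ (R9_m Θ R j) p.1 - R9_φ X Θ (R9_m Θ R j) p.2)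
    have h2 := h1.trans (mul_le_mul_of_nonneg_right hcard'
      (Finset.sum_nonneg fun j _ => sq_nonneg _))
    have h3 := mul_le_mul_of_nonneg_left h2 (by positivity : 0 ≤ (2 * Θ) ^ 2)
    rw [mul_pow]
    exact h3.trans (le_of_eq (by ring))
  rw [lintegral_const_mul' _ _ ENNReal.ofReal_ne_top, lintegral_finsetSum _ fun j _ =>
    (show Continuous fun p : ℝ × ℝ => (R9_φ X Θ (R9_m Θ R j) p.1 -
      R9_φ X Θ (R9_m Θ R j) p.2) ^ 2 by unfold R9_φ; fun_prop).measurable.ennreal_ofReal,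
    preimage_prod_map_prod, X.D1b_icc ha hb,
    show X.σ β = X.σ α + X.len α β by unfold Ch.len; ring]
  refine (mul_le_mul_right (Finset.sum_le_card_nsmul _ _ (ENNReal.ofReal (8 + 2 * W))
    fun j hj => ?_) _).trans ?_
  · have hm := (R9_mabs hΘ hk (Finset.mem_range.1 (Finset.mem_filter.1 hj).1)).trans hR
    have hl := R9_ℓ X hΘ hm
    refine (ramp_int hl hL _ _).trans (ENNReal.ofReal_le_ofReal ?_)
    have h1 := (div_le_iff₀ hl).2 (hc j hj)
    have h2 := Real.one_le_exp hW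
    have h3 := Real.add_one_le_exp 1
    have h4 : 1 + X.len α β / X.ℓ Θ (R9_m Θ R j) ≤ Real.exp (1 + W) := by
      rw [Real.exp_add]
      nlinarith only [h1, h2, h3]
    have h5 := (Real.log_le_iff_le_exp (by positivity)).2 h4
    linarith only [h5]
  · rw [nsmul_eq_mul, ← ENNReal.ofReal_natCast, ← ENNReal.ofReal_mul (by positivity),
      ← ENNReal.ofReal_mul (by positivity)]
    refine ENNReal.ofReal_le_ofReal ?_
    have h1 := mul_le_mul_of_nonneg_right hcard' (by positivity : 0 ≤ 8 + 2 * W)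
    have h2 := mul_le_mul_of_nonneg_left h1 (by positivity : 0 ≤ 40 * Θ ^ 2)
    exact h2.trans (le_of_eq (by ring))

theorem exists_T (A : ℕ) : ∃ B : ℝ, 1 ≤ B ∧ ∀ {V ρ₀ Θ θ : ℝ} {X X' : Ch}
    (_ : RD A V ρ₀ Θ θ X X'), ∃ T : ℝ → ℝ, Monotone T ∧ (∀ t, |T t - t| ≤ 2 * Θ) ∧
      (∀ t, |t| ≤ ρ₀ → ∫⁻ p in {p : ℝ × ℝ | p.1 ∈ Icc t (t + 2 * Θ) ∧ |p.1 - p.2| < 8 * Θ},
        ENNReal.ofReal ((T p.1 - T p.2) ^ 2) ∂X.H ≤ ENNReal.ofReal (B * V * Θ ^ 2)) ∧
      ∀ t δ, 0 ≤ δ → δ ≤ 4 * Θ → ∃ t₁, |t₁| ≤ ρ₀ + 28 * Θ ∧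
        T (t + δ) - T t ≤ δ + 6 * Θ * Real.exp (A * V) * (X.len t₁ (t₁ + δ) / X.ℓ Θ t₁) := by
  have hA : (0 : ℝ) ≤ A := Nat.cast_nonneg A
  refine ⟨400 * (8 + 2 * A), by linarith only [hA], fun {V ρ₀ Θ θ X X'} D => ?_⟩
  have hΘ : 0 < Θ := by linarith only [D.θ_pos, D.θ_le]
  have hρ := D.ρ_nonneg
  have hρ' := D.ρ_le
  have hV := D.V_ge
  obtain ⟨k, hk⟩ : ∃ k : ℕ, k = ⌈(ρ₀ + 26 * Θ) / Θ⌉₊ := ⟨_, rfl⟩
  obtain ⟨R, hR⟩ : ∃ R : ℝ, R = k * Θ := ⟨_, rfl⟩
  have R1 : ρ₀ + 26 * Θ ≤ R := by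
    rw [hR, ← div_le_iff₀ hΘ, hk]
    exact Nat.le_ceil _
  have R2 : R ≤ ρ₀ + 27 * Θ := by
    have h1 : (k : ℝ) < (ρ₀ + 26 * Θ) / Θ + 1 := by
      rw [hk]
      exact Nat.ceil_lt_add_one (by positivity)
    have h2 := mul_le_mul_of_nonneg_right h1.le hΘ.le
    rw [add_mul, div_mul_cancel₀ _ hΘ.ne'] at h2
    linarith only [h2, hR]
  have R3 : R ≤ 1 / 4 := by linarith only [R2, hρ', hΘ]
  have R0 : -R ≤ R := by linarith only [R1, hρ, hΘ]
  obtain ⟨c, hc⟩ : ∃ c : ℝ → ℝ, c = fun t => max (-R) (min t R) := ⟨_, rfl⟩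
  have c1 : ∀ t, -R ≤ c t := fun t => by rw [hc]; exact le_max_left _ _
  have c2 : ∀ t, c t ≤ R := fun t => by rw [hc]; exact max_le R0 (min_le_right _ _)
  have c3 : ∀ s t, s ≤ t → c s ≤ c t ∧ c t - c s ≤ t - s := fun s t h => by
    rw [hc]
    refine ⟨max_le_max le_rfl (min_le_min h le_rfl), ?_⟩
    show max (-R) (min t R) - max (-R) (min s R) ≤ t - s
    simp only [max_def, min_def]
    split_ifs <;> linarith
  have c4 : ∀ t, -R ≤ t → t ≤ R → c t = t := fun t h h' => by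
    rw [hc]
    show max (-R) (min t R) = t
    rw [min_eq_left h', max_eq_right h]
  refine ⟨fun t => t - c t + (2 * Θ * R9_P X Θ R k (c t) - R), fun s t h => ?_, fun t => ?_,
    fun t ht => ?_, fun t δ h0 h1 => ?_⟩
  · have h1 := mul_le_mul_of_nonneg_left (R9_Pmono X hΘ R3 hR.ge (u := c s) (v := c t)
      (by linarith only [c1 s, R3]) (c3 s t h).1 ((c2 t).trans R3)) (by positivity : 0 ≤ 2 * Θ)
    show s - c s + _ ≤ t - c t + _
    linarith only [h1, (c3 s t h).2]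
  · have h1 := R9_near X hΘ R3 k hR.ge (c t) (c1 t) (by linarith only [c2 t, hR])
    rw [show t - c t + (2 * Θ * R9_P X Θ R k (c t) - R) - t =
      2 * Θ * R9_P X Θ R k (c t) - (c t + R) by ring]
    exact h1
  · obtain ⟨t1, t2⟩ := abs_le.1 ht
    have h1 := R9_en X (W := A * V) hΘ R3 hR.ge (α := t - 8 * Θ) (β := t + 10 * Θ)
      (by linarith only [t1, hρ', hΘ]) (by linarith only [hΘ]) (by linarith only [t2, hρ', hΘ])
      (by linarith only []) (mul_nonneg hA (by linarith only [hV])) fun j hj => by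
        obtain ⟨-, k1, k2⟩ := Finset.mem_filter.1 hj
        exact D.cmp_ℓ (Or.inl rfl) (abs_le.2 ⟨by linarith only [k2, t1, hΘ],
          by linarith only [k1, t2, hΘ]⟩) (by linarith only [k1, hΘ]) (by linarith only [k2, hΘ])
          (by linarith only [hΘ])
    refine le_trans (lintegral_mono_set (t := Icc (t - 8 * Θ) (t + 10 * Θ) ×ˢ
      Icc (t - 8 * Θ) (t + 10 * Θ)) ?_) (le_trans (setLIntegral_mono'
        (measurableSet_Icc.prod measurableSet_Icc) fun p hp => le_of_eq ?_)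
        (h1.trans (ENNReal.ofReal_le_ofReal ?_)))
    · rintro p ⟨⟨k1, k2⟩, k3⟩
      obtain ⟨k4, k5⟩ := abs_lt.1 k3
      exact ⟨⟨by linarith only [k1, hΘ], by linarith only [k2, hΘ]⟩,
        ⟨by linarith only [k1, k5], by linarith only [k2, k4]⟩⟩
    · beta_reduce
      rw [c4 p.1 (by linarith only [hp.1.1, t1, R1, hΘ]) (by linarith only [hp.1.2, t2, R1, hΘ]),
        c4 p.2 (by linarith only [hp.2.1, t1, R1, hΘ]) (by linarith only [hp.2.2, t2, R1, hΘ])]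
      congr 1
      ring
    · refine mul_le_mul_of_nonneg_right ?_ (sq_nonneg Θ)
      linarith only [hV]
  · obtain ⟨d1, d2⟩ := c3 t (t + δ) (by linarith only [h0])
    have e1 := c1 t
    have e2 := c2 t
    have e3 := c2 (t + δ)
    refine ⟨c t, abs_le.2 ⟨by linarith only [e1, R2, hΘ], by linarith only [e2, R2, hΘ]⟩, ?_⟩
    have hl : 0 < X.ℓ Θ (c t) := R9_pos X (by linarith only [e1, R2, hρ', hΘ])
      (by linarith only [hΘ]) (by linarith only [e2, R2, hρ', hΘ])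
    have hL : 0 ≤ X.len (c t) (c t + δ) := sub_nonneg.2 (R9_le X (by linarith only [e1, R3])
      (by linarith only [h0]) (by linarith only [e2, R2, hρ', hΘ, h1]))
    have hs : X.σ (c (t + δ)) ≤ X.σ (c t + δ) := R9_le X (by linarith only [e1, R3, d1])
      (by linarith only [d2]) (by linarith only [e2, R2, hρ', hΘ, h1])
    have hs' : X.σ (c t) ≤ X.σ (c (t + δ)) := R9_le X (by linarith only [e1, R3]) d1 (e3.trans R3)
    have hcard := R9_card hΘ R k (α := c t) (β := c (t + δ)) 2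
      (by push_cast; linarith only [d2, h1])
    have hcard' : ((R9_A Θ R k (c t) (c (t + δ))).card : ℝ) ≤ 3 := by exact_mod_cast hcard
    have hsum : R9_P X Θ R k (c (t + δ)) - R9_P X Θ R k (c t) ≤
        3 * (Real.exp (A * V) * (X.len (c t) (c t + δ) / X.ℓ Θ (c t))) := by
      rw [R9_red X hΘ R3 hR.ge (α := c t) (β := c (t + δ)) (by linarith only [e1, R3])
        (e3.trans R3) ⟨d1, le_rfl⟩ ⟨le_rfl, d1⟩]
      refine (Finset.sum_le_card_nsmul _ _
        (Real.exp (A * V) * (X.len (c t) (c t + δ) / X.ℓ Θ (c t))) fun j hj => ?_).trans ?_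
      · obtain ⟨k0, k1, k2⟩ := Finset.mem_filter.1 hj
        have hm := R9_mabs hΘ hR.ge (Finset.mem_range.1 k0)
        have hl' := R9_ℓ X hΘ (hm.trans R3)
        have hcmp : X.ℓ Θ (c t) ≤ Real.exp (A * V) * X.ℓ Θ (R9_m Θ R j) :=
          D.cmp_ℓ (Or.inl rfl) (by linarith only [hm, R2, hΘ])
            (by linarith only [k1, d2, h1, hΘ]) (by linarith only [k2, hΘ])
            (by linarith only [hΘ])
        refine (le_abs_self _).trans ((R9_lip _ _).trans ?_)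
        rw [← sub_div, sub_sub_sub_cancel_right,
          abs_of_nonneg (div_nonneg (sub_nonneg.2 hs') hl'.le), ← mul_div_assoc,
          div_le_div_iff₀ hl' hl]
        have h2 : X.σ (c (t + δ)) - X.σ (c t) ≤ X.len (c t) (c t + δ) := sub_le_sub_right hs _
        exact (mul_le_mul h2 hcmp hl.le hL).trans (le_of_eq (by ring))
      · rw [nsmul_eq_mul]
        exact mul_le_mul_of_nonneg_right hcard' (by positivity)
    have h2 := mul_le_mul_of_nonneg_left hsum (by positivity : 0 ≤ 2 * Θ)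
    show t + δ - c (t + δ) + _ - (t - c t + _) ≤ _
    linarith only [h2, d1]

theorem len_frac (A : ℕ) (B₀ : ℝ) : ∃ B : ℝ, 1 ≤ B ∧ ∀ {V ρ₀ Θ θ : ℝ} {X X' : Ch}
    (D : RD A V ρ₀ Θ θ X X') (lam : ℝ), (∀ x, In X ρ₀ Θ 50 x →
      |Real.log (X.ℓ Θ (X.ι x) / D.u x) - lam| ≤
        B₀ * (V + Real.log (1 + X.ℓ Θ (X.ι x) / D.ϱ x))) →
      ∀ t δ, |t| ≤ ρ₀ + 28 * Θ → 2 * θ ≤ δ → δ ≤ 8 * Θ →
        B * Real.log (X.len t (t + δ) / X.ℓ Θ t) ≤ B ^ 2 * V + Real.log (δ / θ) - lam := by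
  obtain ⟨G, hG, GR'⟩ := GR A
  have hA : (0 : ℝ) ≤ A := Nat.cast_nonneg A
  have hC0 : 0 ≤ C1 A := by
    unfold C1
    positivity
  obtain ⟨b, hb⟩ : ∃ b : ℝ, b = max B₀ 0 := ⟨_, rfl⟩
  have b0 : 0 ≤ b := hb ▸ le_max_right _ _
  have b1 : B₀ ≤ b := hb ▸ le_max_left _ _
  obtain ⟨K, hK⟩ : ∃ K : ℝ, K = A + G * C1 A + b * (1 + 2 * G + A) := ⟨_, rfl⟩
  have G0 : 0 < G := by linarith only [hG]
  have K0' : 0 ≤ K := by
    rw [hK]
    positivity
  refine ⟨1 + b + A + K, by linarith only [b0, hA, K0'],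
    fun {V ρ₀ Θ θ X X'} D lam H t δ ht h₁ h₂ => ?_⟩
  have hθ := D.θ_pos
  have hΘ : 0 < Θ := by linarith only [D.θ_pos, D.θ_le]
  have hρ := D.ρ_nonneg
  have hρ' := D.ρ_le
  have hV := D.V_ge
  have hδ : 0 < δ := by linarith only [h₁, hθ]
  have hC := (one_le_C1 (le_trans (by norm_num) D.A_ge)).2
  obtain ⟨t1, t2⟩ := abs_le.1 ht
  obtain ⟨s, hs, hg⟩ := GR' D t (t + δ) (by linarith only [ht, hΘ]) (by linarith only [hδ])
    (by linarith only [h₂])
  have s1 : -(ρ₀ + 36 * Θ) ≤ s := by linarith only [hs.1, t1, hΘ]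
  have s2 : s ≤ ρ₀ + 36 * Θ := by linarith only [hs.2, t2, h₂]
  have sa := abs_le.2 ⟨s1, s2⟩
  have es : X.ι (X.σ s) = s :=
    X.ι_σ s ⟨by linarith only [s1, hρ', hΘ], by linarith only [s2, hρ', hΘ]⟩
  have H1 := H (X.σ s) (by unfold In; rw [es]; linarith only [sa, hΘ])
  rw [es] at H1
  have pu : 0 < D.u (X.σ s) := D.u_pos (by unfold In; rw [es]; linarith only [sa, hΘ])
  have pL : 0 < X.len t (t + δ) := R9_pos X (by linarith only [t1, hρ', hΘ])
    (by linarith only [hδ]) (by linarith only [t2, hρ', hΘ, h₂])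
  have pl : 0 < X.ℓ Θ t := R9_ℓ X hΘ (by linarith only [ht, hρ', hΘ])
  have pl' : 0 < X.ℓ Θ s := R9_ℓ X hΘ (by linarith only [sa, hρ', hΘ])
  have g1 : X.len t (t + δ) ≤ G * D.ϱ (X.σ s) :=
    hg.trans (mul_le_mul_of_nonneg_left (min_le_left _ _) G0.le)
  have pϱ : 0 < D.ϱ (X.σ s) := pos_of_mul_pos_right (pL.trans_le g1) G0.le
  have q1 : X.ℓ Θ s ≤ Real.exp (A * V) * X.ℓ Θ t :=
    D.cmp_ℓ (Or.inl rfl) (by linarith only [ht, hΘ]) (by linarith only [hs.1, hΘ])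
      (by linarith only [hs.2, h₂, hΘ]) (by linarith only [hΘ])
  have q2 : X.len t (t + δ) ≤ Real.exp (A * V) * X.ℓ Θ t :=
    D.cmp_ℓ (Or.inl rfl) (by linarith only [ht, hΘ]) (by linarith only [hΘ])
      (by linarith only [h₂, hΘ]) (by linarith only [hδ])
  have r2 : 2 ≤ δ / θ := (le_div_iff₀ hθ).2 h₁
  have q3 : X.len t (t + δ) ≤ G * C1 A * (δ / θ) * D.u (X.σ s) := by
    have pp : 0 ≤ δ / θ * D.u (X.σ s) := by positivity
    rcases lt_or_ge (δ / θ) (D.hh s) with k | k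
    · have gd := (D.good_of_lt (by linarith only [sa, hΘ]) (by linarith only [r2]) k).2
      rw [div_mul_cancel₀ _ hθ.ne'] at gd
      have := D.unit_le (a := t) (b := t + δ) (by linarith only [ht, hΘ])
        (abs_le.2 ⟨by linarith only [t1, hδ, hΘ], by linarith only [t2, h₂, hΘ]⟩)
        (by linarith only [h₁]) (m := C1 A * D.u (X.σ s)) fun r hr =>
          gd r ⟨by linarith only [hr.1, hs.2], by linarith only [hr.2, hs.1]⟩ s
            ⟨by linarith only [hδ], by linarith only [hδ]⟩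
      rw [add_sub_cancel_left] at this
      have h3 := mul_le_mul_of_nonneg_right hG (mul_nonneg hC0 pp)
      linarith only [this, h3]
    · have k1 : D.ϱ (X.σ s) ≤ δ / θ * D.u (X.σ s) := by
        refine mul_le_mul_of_nonneg_right ?_ pu.le
        unfold RD.k RD.kb
        rw [es]
        exact max_le k (by linarith only [r2])
      have h3 := mul_le_mul_of_nonneg_left k1 G0.le
      have h4 := mul_le_mul_of_nonneg_right hC (mul_nonneg G0.le pp)
      linarith only [g1, h3, h4]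
  obtain ⟨η, hη⟩ : ∃ η, η = X.len t (t + δ) / X.ℓ Θ t := ⟨_, rfl⟩
  have pη : 0 < η := hη ▸ div_pos pL pl
  have eL : X.len t (t + δ) = η * X.ℓ Θ t := by rw [hη, div_mul_cancel₀ _ pl.ne']
  rw [← hη]
  rw [eL] at g1 q2 q3
  have pE := Real.exp_pos (A * V)
  have pC : 0 < G * C1 A := mul_pos G0 (by linarith only [hC])
  have pr : 0 < δ / θ := by linarith only [r2]
  have ηE : η ≤ Real.exp (A * V) := le_of_mul_le_mul_right q2 pl
  have l0 : Real.log η ≤ A * V := (Real.log_le_iff_le_exp pη).2 ηE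
  have l1 : Real.log (X.ℓ Θ s / D.u (X.σ s)) ≤
      A * V + G * C1 A + Real.log (δ / θ) - Real.log η := by
    have h3 : X.ℓ Θ s / D.u (X.σ s) ≤ Real.exp (A * V) * (G * C1 A) * (δ / θ) / η := by
      rw [div_le_div_iff₀ pu pη]
      have h4 := mul_le_mul_of_nonneg_right q1 pη.le
      have h5 := mul_le_mul_of_nonneg_left q3 pE.le
      linarith only [h4, h5]
    have h6 := Real.log_le_log (div_pos pl' pu) h3
    rw [Real.log_div (by positivity) pη.ne', Real.log_mul (by positivity) pr.ne',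
      Real.log_mul pE.ne' pC.ne', Real.log_exp] at h6
    linarith only [h6, Real.log_le_self pC.le]
  have l2 : Real.log (1 + X.ℓ Θ s / D.ϱ (X.σ s)) ≤ A * V + 2 * G - Real.log η := by
    have h3 : X.ℓ Θ s / D.ϱ (X.σ s) ≤ Real.exp (A * V) * G / η := by
      rw [div_le_div_iff₀ pϱ pη]
      have h4 := mul_le_mul_of_nonneg_right q1 pη.le
      have h5 := mul_le_mul_of_nonneg_left g1 pE.le
      linarith only [h4, h5]
    have h4 : 1 ≤ Real.exp (A * V) * G / η := by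
      rw [one_le_div pη]
      exact ηE.trans (le_mul_of_one_le_right pE.le hG)
    have h5 : 1 + X.ℓ Θ s / D.ϱ (X.σ s) ≤ Real.exp (A * V) * (2 * G) / η := by
      rw [show Real.exp (A * V) * (2 * G) / η = 2 * (Real.exp (A * V) * G / η) by ring]
      linarith only [h3, h4]
    have h6 := Real.log_le_log (by positivity) h5
    rw [Real.log_div (by positivity) pη.ne', Real.log_mul pE.ne' (by positivity),
      Real.log_exp] at h6
    linarith only [h6, Real.log_le_self (by positivity : 0 ≤ 2 * G)]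
  have l3 : 0 ≤ Real.log (1 + X.ℓ Θ s / D.ϱ (X.σ s)) :=
    Real.log_nonneg (le_add_of_nonneg_right (by positivity))
  have l4 := mul_le_mul_of_nonneg_right b1 (by linarith only [l3, hV] :
    0 ≤ V + Real.log (1 + X.ℓ Θ s / D.ϱ (X.σ s)))
  have l5 := mul_le_mul_of_nonneg_left l2 b0
  have l6 := (abs_le.1 H1).1
  have l7 := mul_le_mul_of_nonneg_left l0 (add_nonneg hA K0')
  have l8 := mul_le_mul_of_nonneg_left hV pC.le
  have l9 := mul_le_mul_of_nonneg_left hV (mul_nonneg b0 G0.le)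
  have V0 : 0 ≤ V := by linarith only [hV]
  have m1 : (1 + b) * Real.log η ≤ K * V + Real.log (δ / θ) - lam := by
    rw [hK]
    linarith only [l1, l4, l5, l6, l8, l9]
  have m2 : K + (A + K) * A ≤ (1 + b + A + K) ^ 2 := by
    nlinarith only [b0, hA, K0', mul_nonneg b0 hA, mul_nonneg b0 K0', mul_nonneg hA K0',
      mul_nonneg b0 b0, mul_nonneg K0' K0']
  have m3 := mul_le_mul_of_nonneg_right m2 V0
  linarith only [m1, m3, l7]

end Pool.Agent.Work.MP_042f46_an.Fu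
end
end
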