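import Pool.Agent.Work.MP_042f46_an.F.R10
import Pool.Agent.Work.MP_042f46_an.F.R9
import Pool.Agent.Work.MP_042f46_an.F.D4
import Pool.Agent.Work.MP_042f46_an.F.C7
import Pool.Agent.Work.MP_042f46_an.F.E3

-- merged part: Pool.Agent.Work.MP_042f46_an.F.R8
section
/-!
# The cost of the chords

Let `Δ = |log (k x) - log (k y)|`, `m = max 0 (vz - V - log (k x))`, `δ = |x - y|`.  `zeta` and `dep` are Lipschitz in `log k`; if `m > 0` then `zeta (k x) = 1`, `dep (k x) = 0` (`vz ≤ v₁`), and the last two terms vanish unless `Δ ≥ m`.  `cost_le` states this.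
`dens`: `z = δ / ϱ' x`.  For `B δ ≤ r x`: `LOC`; `log (1 + z) ^ 2 (1 + z) ^ (1 / 4) ≤ C min (z ^ 2) (√z)`, the indicator of `Δ ≥ m` is at most `exp ((Δ - m) / (8 B))`, `A' ≥ 8 B`; `∫ min (z ^ 2) (√z) / δ ^ 2 = 6 / ϱ'` (`phi_int`).  For `B δ ≥ r x`: `MC` (`ϱ' ≤ ϱ`), `L = log (1 + z)`, `(Δ / V) ^ 2 ≤ B ^ 2 (1 + L) ^ 2`, `exp (Δ / (A' V)) ≤ e exp (L / 8)`, indicator at most `exp (L / 8) exp (-max 0 (m - B V) / (8 B))`, `z ≥ 1 / B`; `∫ δ ≥ c, √(δ / ϱ') / δ ^ 2 = 4 / √(ϱ' c)`.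
`near`: `L₀ = len (e - 4 θ) (e + 4 θ)`; `ϱ x ≥ u x ≥ exp (-A V) L₀` (`cmp_u`), so `Δ ≤ B' (V + log (1 + δ / L₀))` and the cost is at most `C (1 + √(δ / L₀))`; `Kb` for eight intervals of length `θ`, and the integral of `√(δ / L₀) / δ ^ 2` over `δ ≥ L₀` and `x` in an interval of length `L₀` is `4`.
`out_kb`: `H_int`.  First end points within `4 θ` of a mark: `near` (at most `A` marks).  The others: `dens`.  On level `n`: `log k < v₁ + (n + 1) V`, and `log k ≥ v₁ + n V` if `n ≥ 1`.  The range `[lo, lo + (C₀ + 2) V]`, `lo = vz - V` or `v₁ + n V`, has at most `2 (C₀ + 2) V + 1` dyadic windows (`win_N` with the factor `1 / V ^ 2`, `win_W`) and `C₀ + 3` windows of length `V` (`win_R`).  Below `vz - V` use the geometric decay in `m` over dyadic windows and over windows of length `V ≥ 1`.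
-/

open Set Metric Topology Filter MeasureTheory
open scoped ENNReal NNReal

noncomputable section
namespace Pool.Agent.Work.MP_042f46_an.Fu

open Pool.Agent.Work.MP_042f46_an.Ty

theorem cost_le {A V Θ vz v₁ : ℝ} (hA : 0 < A) (hV : 0 < V) (hv : vz ≤ v₁) {h : ℝ → ℝ} {p : ℝ × ℝ} :
    cost A V Θ vz v₁ h p ≤
      (if vz - V ≤ Real.log (h p.1) then ((p.1 - p.2) / Θ) ^ 2 else 0) +
        if max 0 (vz - V - Real.log (h p.1)) ≤ |Real.log (h p.1) - Real.log (h p.2)| then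
          2 * (|Real.log (h p.1) - Real.log (h p.2)| / V) ^ 2 *
            Real.exp (|Real.log (h p.1) - Real.log (h p.2)| / (A * V)) else 0 := by
  set a := Real.log (h p.1) with ha
  set b := Real.log (h p.2) with hb
  rw [cost, add_assoc]
  refine add_le_add ?_ ?_
  · split_ifs with h1 h2 h2
    · exact le_rfl
    · refine absurd (clamp_one ((one_le_div hV).2 (by linarith))) h1.ne
    · positivity
    · exact le_rfl
  · split_ifs with h1
    · have k1 : |zeta V vz (h p.1) - zeta V vz (h p.2)| ≤ |a - b| / V := by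
        have := lipschitz_clamp.dist_le_mul ((vz - a) / V) ((vz - b) / V)
        rw [Real.dist_eq, Real.dist_eq, NNReal.coe_one, one_mul, ← sub_div, abs_div, abs_of_pos hV,
          sub_sub_sub_cancel_left, abs_sub_comm b a] at this
        exact this
      have k2 : |dep v₁ (h p.1) - dep v₁ (h p.2)| ≤ |a - b| := by
        have := abs_max_sub_max_le_max 0 (a - v₁) 0 (b - v₁)
        rw [sub_self, abs_zero, sub_sub_sub_cancel_right, max_eq_right (abs_nonneg (a - b))] at this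
        exact this
      have k3 : (zeta V vz (h p.1) - zeta V vz (h p.2)) ^ 2 ≤ (|a - b| / V) ^ 2 := by
        rw [← sq_abs]
        gcongr
      have k4 : ((dep v₁ (h p.1) - dep v₁ (h p.2)) / V) ^ 2 ≤ (|a - b| / V) ^ 2 := by
        rw [← sq_abs, abs_div, abs_of_pos hV]
        gcongr
      have k5 : Real.exp (|dep v₁ (h p.1) - dep v₁ (h p.2)| / (A * V)) ≤
          Real.exp (|a - b| / (A * V)) := by gcongr
      have k6 : 1 ≤ Real.exp (|a - b| / (A * V)) := Real.one_le_exp (by positivity)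
      have k7 := mul_le_mul k4 k5 (Real.exp_pos _).le (sq_nonneg _)
      have k8 := le_mul_of_one_le_right (sq_nonneg (|a - b| / V)) k6
      linarith
    · have h2 : |a - b| < vz - V - a := (lt_max_iff.1 (not_le.1 h1)).resolve_left
        (not_lt.2 (abs_nonneg _))
      have h3 := abs_nonneg (a - b)
      have h4 := neg_abs_le (a - b)
      have z1 : zeta V vz (h p.1) = 1 := clamp_one ((one_le_div hV).2 (by linarith))
      have z2 : zeta V vz (h p.2) = 1 := clamp_one ((one_le_div hV).2 (by linarith))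
      have d1 : dep v₁ (h p.1) = 0 := max_eq_left (by linarith)
      have d2 : dep v₁ (h p.2) = 0 := max_eq_left (by linarith)
      simp [z1, z2, d1, d2]

theorem R8_sym {F : ℝ → ℝ≥0∞} (hF : Measurable F) {c : ℝ} (hc : 0 < c) (x : ℝ) :
    ∫⁻ y in {y | c ≤ |x - y|}, F |x - y| ≤ 2 * ∫⁻ t in Ici c, F t := by
  have e1 := (Measure.measurePreserving_sub_left (volume : Measure ℝ) x).setLIntegral_comp_preimage
    (measurableSet_Ici (a := c)) hF
  have e2 := (measurePreserving_sub_right (volume : Measure ℝ) x).setLIntegral_comp_preimage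
    (measurableSet_Ici (a := c)) hF
  have sub : {y | c ≤ |x - y|} ⊆ (fun y => x - y) ⁻¹' Ici c ∪ (fun y => y - x) ⁻¹' Ici c := by
    intro y hy
    rcases le_abs.1 (show c ≤ |x - y| from hy) with h | h
    · exact Or.inl h
    · exact Or.inr (by rwa [neg_sub] at h)
  refine (lintegral_mono_set sub).trans ((lintegral_union_le _ _ _).trans ?_)
  rw [two_mul]
  refine add_le_add (le_of_eq (Eq.trans ?_ e1)) (le_of_eq (Eq.trans ?_ e2))
  · refine setLIntegral_congr_fun (measurableSet_Ici.preimage (by fun_prop)) fun y hy => ?_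
    have : c ≤ x - y := hy
    simp only [abs_of_pos (hc.trans_le this)]
  · refine setLIntegral_congr_fun (measurableSet_Ici.preimage (by fun_prop)) fun y hy => ?_
    have : c ≤ y - x := hy
    simp only [abs_sub_comm x y, abs_of_pos (hc.trans_le this)]

theorem R8_ray {ϱ c : ℝ} (h : 0 < ϱ) (hc : 0 < c) :
    ∫⁻ t in Ici c, ENNReal.ofReal √(t / ϱ) * ENNReal.ofReal (1 / t ^ 2) =
      ENNReal.ofReal (2 / √(ϱ * c)) := by
  have d : ∀ t ∈ Ici c, HasDerivAt (fun t => -2 * (√(ϱ * t))⁻¹) (√(t / ϱ) * (1 / t ^ 2)) t := by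
    intro t ht
    have ht0 : 0 < t := hc.trans_le ht
    have hs : 0 < √(ϱ * t) := Real.sqrt_pos.2 (by positivity)
    refine (((((hasDerivAt_id t).const_mul ϱ).sqrt (by positivity : ϱ * t ≠ 0)).inv
      hs.ne').const_mul (-2)).congr_deriv ?_
    have e : √(t / ϱ) = √(ϱ * t) / ϱ := by
      rw [eq_div_iff h.ne', ← Real.sqrt_mul_self h.le, ← Real.sqrt_mul (by positivity),
        Real.sqrt_mul_self h.le]
      congr 1
      field_simp
    have e2 : √(ϱ * t) ^ 2 = ϱ * t := Real.sq_sqrt (by positivity)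
    simp only [id, mul_one]
    rw [e, e2]
    field_simp
    rw [e2]
  have p : ∀ t ∈ Ioi c, 0 ≤ √(t / ϱ) * (1 / t ^ 2) := fun t _ => by positivity
  have l : Tendsto (fun t => -2 * (√(ϱ * t))⁻¹) atTop (𝓝 (-2 * 0)) :=
    (tendsto_inv_atTop_zero.comp (Real.tendsto_sqrt_atTop.comp
      (tendsto_id.const_mul_atTop h))).const_mul _
  have e := integral_Ioi_of_hasDerivAt_of_nonneg' d p l
  rw [show 2 / √(ϱ * c) = -2 * 0 - -2 * (√(ϱ * c))⁻¹ by ring, ← e,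
    ofReal_integral_eq_lintegral_ofReal
    (integrableOn_Ioi_deriv_of_nonneg' d p l) (ae_restrict_of_forall_mem measurableSet_Ioi p),
    Measure.restrict_congr_set Ioi_ae_eq_Ici]
  exact lintegral_congr fun t => (ENNReal.ofReal_mul (Real.sqrt_nonneg _)).symm

theorem R8_far {ϱ c : ℝ} (h : 0 < ϱ) (hc : 0 < c) (x : ℝ) :
    ∫⁻ y in {y | c ≤ |x - y|}, ENNReal.ofReal √(|x - y| / ϱ) *
      ENNReal.ofReal (1 / (x - y) ^ 2) ≤ ENNReal.ofReal (4 / √(ϱ * c)) := by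
  have := R8_sym (F := fun t => ENNReal.ofReal √(t / ϱ) * ENNReal.ofReal (1 / t ^ 2))
    (by fun_prop) hc x
  rw [R8_ray h hc, ← ENNReal.ofReal_ofNat 2, ← ENNReal.ofReal_mul (by norm_num),
    show 2 * (2 / √(ϱ * c)) = 4 / √(ϱ * c) by ring] at this
  simpa only [sq_abs] using this

theorem phi_int {ϱ : ℝ} (h : 0 < ϱ) (x : ℝ) :
    ∫⁻ y, ENNReal.ofReal (min ((|x - y| / ϱ) ^ 2) √(|x - y| / ϱ)) *
      ENNReal.ofReal (1 / (x - y) ^ 2) ≤ ENNReal.ofReal (6 / ϱ) := by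
  have u : (univ : Set ℝ) ⊆ Icc (x - ϱ) (x + ϱ) ∪ {y | ϱ ≤ |x - y|} := fun y _ => by
    by_cases k : ϱ ≤ |x - y|
    · exact Or.inr k
    · have := abs_lt.1 (not_le.1 k)
      exact Or.inl ⟨by linarith [this.2], by linarith [this.1]⟩
  rw [← setLIntegral_univ]
  refine (lintegral_mono_set u).trans ((lintegral_union_le _ _ _).trans ?_)
  have e : 6 / ϱ = 1 / ϱ ^ 2 * (x + ϱ - (x - ϱ)) + 4 / √(ϱ * ϱ) := by
    rw [Real.sqrt_mul_self h.le]
    field_simp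
    ring
  rw [e, ENNReal.ofReal_add (mul_nonneg (by positivity) (by linarith)) (by positivity)]
  refine add_le_add ?_ (le_trans (lintegral_mono fun y => ?_) (R8_far h h x))
  · rw [ENNReal.ofReal_mul (by positivity), ← Real.volume_Icc, ← setLIntegral_const]
    refine lintegral_mono fun y => ?_
    rw [← ENNReal.ofReal_mul (le_min (sq_nonneg _) (Real.sqrt_nonneg _))]
    refine ENNReal.ofReal_le_ofReal ((mul_le_mul_of_nonneg_right (min_le_left _ _)
      (by positivity)).trans ?_)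
    by_cases k : x - y = 0
    · simp [k, sq_nonneg]
    · rw [div_pow, sq_abs]
      exact le_of_eq (by field_simp)
  · exact mul_le_mul_left (ENNReal.ofReal_le_ofReal (min_le_right _ _)) _

theorem far_int {ϱ c : ℝ} (h : 0 < ϱ) (hc : 0 < c) (x : ℝ) :
    ∫⁻ y in {y | c ≤ |x - y|}, ENNReal.ofReal √(|x - y| / ϱ) *
      ENNReal.ofReal (1 / (x - y) ^ 2) ≤ ENNReal.ofReal (4 / √(ϱ * c)) := by
  exact R8_far h hc x

theorem R8_sq (L : ℝ) (hL : 0 ≤ L) : (1 + L) ^ 2 ≤ 64 * Real.exp (L / 4) := by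
  have h1 := Real.add_one_le_exp (L / 8)
  have h2 : Real.exp (L / 4) = Real.exp (L / 8) ^ 2 := by
    rw [sq, ← Real.exp_add]
    exact congrArg Real.exp (by ring)
  have h3 : (1 + L) ^ 2 ≤ (8 * Real.exp (L / 8)) ^ 2 := by
    gcongr
    linarith
  rw [h2]
  linarith

theorem R8_half {z : ℝ} (hz : 0 ≤ z) : Real.exp (Real.log (1 + z) / 2) ≤ 1 + √z := by
  rw [← Real.log_sqrt (by linarith), Real.exp_log (Real.sqrt_pos.2 (by linarith))]
  refine Real.sqrt_le_iff.2 ⟨by positivity, ?_⟩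
  nlinarith [Real.sq_sqrt hz, Real.sqrt_nonneg z]

theorem R8_small {z : ℝ} (hz : 0 ≤ z) (h : z ≤ 1) : z ^ 2 ≤ √z :=
  Real.le_sqrt_of_sq_le (by nlinarith [mul_le_mul h h hz zero_le_one, sq_nonneg z, sq_nonneg (z ^ 2)])

theorem R8_large {z : ℝ} (h : 1 ≤ z) : 1 ≤ √z ∧ √z ≤ z ^ 2 :=
  ⟨Real.one_le_sqrt.2 h, Real.sqrt_le_iff.2 ⟨by positivity, by
    have : 1 ≤ z ^ 3 := one_le_pow₀ h
    nlinarith⟩⟩

theorem R8_phi {z : ℝ} (hz : 0 ≤ z) :
    Real.log (1 + z) ^ 2 * Real.exp (Real.log (1 + z) / 4) ≤ 128 * min (z ^ 2) √z := by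
  have l0 : 0 ≤ Real.log (1 + z) := Real.log_nonneg (by linarith)
  have l1 : Real.log (1 + z) ≤ z := by linarith [Real.log_le_sub_one_of_pos (by linarith : 0 < 1 + z)]
  rcases le_total z 1 with h | h
  · rw [min_eq_left (R8_small hz h)]
    have a1 : Real.exp (Real.log (1 + z) / 4) ≤ 2 := by
      refine (Real.exp_le_exp.2 (by linarith : _ ≤ Real.log (1 + z))).trans ?_
      rw [Real.exp_log (by linarith)]
      linarith
    have a2 : Real.log (1 + z) ^ 2 ≤ z ^ 2 := by gcongr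
    have := mul_le_mul a2 a1 (Real.exp_pos _).le (sq_nonneg _)
    nlinarith [sq_nonneg z]
  · rw [min_eq_right (R8_large h).2]
    have a1 : Real.log (1 + z) ^ 2 ≤ 64 * Real.exp (Real.log (1 + z) / 4) :=
      le_trans (by gcongr; linarith) (R8_sq _ l0)
    have a2 := mul_le_mul_of_nonneg_right a1 (Real.exp_pos (Real.log (1 + z) / 4)).le
    rw [mul_assoc, ← Real.exp_add, show Real.log (1 + z) / 4 + Real.log (1 + z) / 4 =
      Real.log (1 + z) / 2 by ring] at a2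
    linarith [R8_half hz, (R8_large h).1]

theorem R8_min {z : ℝ} (hz : 0 ≤ z) : min 1 z ^ 2 ≤ min (z ^ 2) √z := by
  rcases le_total z 1 with h | h
  · rw [min_eq_right h, min_eq_left (R8_small hz h)]
  · rw [min_eq_left h, min_eq_right (R8_large h).2, one_pow]
    exact (R8_large h).1

theorem R8_loc {B₁ B A' V Δ m z : ℝ} (h1 : 1 ≤ B₁) (hB : 8 * B₁ ≤ B) (hA : B ≤ A') (hV : 1 ≤ V)
    (hz : 0 ≤ z) (h0 : 0 ≤ Δ) (hΔ : Δ ≤ B₁ * Real.log (1 + z)) (hm : m ≤ Δ) :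
    2 * (Δ / V) ^ 2 * Real.exp (Δ / (A' * V)) ≤
      256 * B₁ ^ 2 * (Real.exp (-m / B) / V ^ 2) * min (z ^ 2) √z := by
  have l0 : 0 ≤ Real.log (1 + z) := Real.log_nonneg (by linarith)
  have hB0 : 0 < B := by linarith
  have a1 : Δ / B ≤ Real.log (1 + z) / 8 := by
    rw [div_le_iff₀ hB0]
    nlinarith
  have a2 : Δ / (A' * V) ≤ Δ / B := by
    gcongr
    nlinarith
  have a3 : m / B ≤ Δ / B := by gcongr
  have a4 : Real.exp (Δ / (A' * V)) ≤ Real.exp (-m / B) * Real.exp (Real.log (1 + z) / 4) := by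
    rw [← Real.exp_add, neg_div]
    exact Real.exp_le_exp.2 (by linarith)
  have a5 : (Δ / V) ^ 2 ≤ (B₁ * Real.log (1 + z) / V) ^ 2 := by gcongr
  calc 2 * (Δ / V) ^ 2 * Real.exp (Δ / (A' * V))
      ≤ 2 * (B₁ * Real.log (1 + z) / V) ^ 2 *
        (Real.exp (-m / B) * Real.exp (Real.log (1 + z) / 4)) := by gcongr
    _ = 2 * B₁ ^ 2 * (Real.exp (-m / B) / V ^ 2) *
        (Real.log (1 + z) ^ 2 * Real.exp (Real.log (1 + z) / 4)) := by ring
    _ ≤ 2 * B₁ ^ 2 * (Real.exp (-m / B) / V ^ 2) * (128 * min (z ^ 2) √z) :=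
        mul_le_mul_of_nonneg_left (R8_phi hz) (by positivity)
    _ = _ := by ring

theorem R8_mc {B₂ A' V Δ z : ℝ} (h1 : 1 ≤ B₂) (hA : 8 * B₂ ≤ A') (hV : 1 ≤ V)
    (hz : 0 ≤ z) (h0 : 0 ≤ Δ) (hΔ : Δ ≤ B₂ * (V + Real.log (1 + z))) :
    2 * (Δ / V) ^ 2 * Real.exp (Δ / (A' * V)) * Real.exp (Real.log (1 + z) / 8) ≤
      384 * B₂ ^ 2 * (1 + √z) := by
  have l0 : 0 ≤ Real.log (1 + z) := Real.log_nonneg (by linarith)
  set L := Real.log (1 + z) with hL
  have a1 : Δ / V ≤ B₂ * (1 + L) := by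
    rw [div_le_iff₀ (by linarith)]
    refine hΔ.trans ?_
    rw [mul_assoc]
    gcongr
    nlinarith
  have a2 : Δ / (A' * V) ≤ 1 + L / 8 := by
    rw [mul_comm, ← div_div, div_le_iff₀ (by linarith)]
    nlinarith
  have a3 : Real.exp (Δ / (A' * V)) ≤ 3 * Real.exp (L / 8) := by
    refine (Real.exp_le_exp.2 a2).trans ?_
    rw [Real.exp_add]
    gcongr
    linarith [Real.exp_one_lt_d9]
  have a4 : (Δ / V) ^ 2 ≤ B₂ ^ 2 * (64 * Real.exp (L / 4)) := by
    refine le_trans ?_ (mul_le_mul_of_nonneg_left (R8_sq L l0) (sq_nonneg B₂))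
    rw [← mul_pow]
    have : 0 ≤ Δ / V := div_nonneg h0 (by linarith)
    gcongr
  have a5 : Real.exp (L / 4) * Real.exp (L / 8) * Real.exp (L / 8) = Real.exp (L / 2) := by
    rw [← Real.exp_add, ← Real.exp_add]
    exact congrArg Real.exp (by ring)
  calc 2 * (Δ / V) ^ 2 * Real.exp (Δ / (A' * V)) * Real.exp (L / 8)
      ≤ 2 * (B₂ ^ 2 * (64 * Real.exp (L / 4))) * (3 * Real.exp (L / 8)) * Real.exp (L / 8) := by
        gcongr
    _ = 384 * B₂ ^ 2 * (Real.exp (L / 4) * Real.exp (L / 8) * Real.exp (L / 8)) := by ring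
    _ ≤ _ := by
        rw [a5]
        gcongr
        exact R8_half hz

section

variable {A : ℕ} {V ρ₀ Θ θ : ℝ} {X X' : Ch} (D : RD A V ρ₀ Θ θ X X')

include D in
theorem R8_Θ : 0 < Θ := by linarith [D.θ_pos, D.θ_le]

include D in
theorem R8_in {x n n' : ℝ} (h : In X ρ₀ Θ n x) (hn : n ≤ n') : In X ρ₀ Θ n' x :=
  le_trans h (by nlinarith [R8_Θ D])

theorem R8_k (x : ℝ) : 1 ≤ D.k x := le_max_right _ _

theorem R8_ϱ {x : ℝ} (h : In X ρ₀ Θ 130 x) : 0 < D.u x ∧ D.u x ≤ D.ϱ x := by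
  have := D.u_pos (R8_in D h (by norm_num))
  exact ⟨this, le_mul_of_one_le_left this.le (R8_k D x)⟩

theorem R8_r {x : ℝ} (h : In X ρ₀ Θ 130 x) (hG : x ∈ D.G) : 0 < D.r x := by
  obtain ⟨e, he, h1, -⟩ := D.near_mark h
  rw [h1, abs_pos, sub_ne_zero]
  rintro rfl
  have h2 := hG e he
  have h3 := abs_le.1 (D.E_mem e he)
  have h4 := D.ρ_le
  have h5 := R8_Θ D
  rw [X.ι_σ e ⟨by linarith [h3.1], by linarith [h3.2]⟩, sub_self, abs_zero] at h2
  linarith [D.θ_pos]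

end

theorem R8_split {a b ϱ c : ℝ} (ha : 0 ≤ a) (hb : 0 ≤ b) (h : 0 < ϱ) (hc : 0 < c) (x : ℝ)
    {S : Set ℝ} {f : ℝ → ℝ} (hf : ∀ y ∈ S, f y ≤ a * min ((|x - y| / ϱ) ^ 2) √(|x - y| / ϱ) ∨
      c ≤ |x - y| ∧ f y ≤ b * √(|x - y| / ϱ)) :
    ∫⁻ y in S, ENNReal.ofReal (f y) * ENNReal.ofReal (1 / (x - y) ^ 2) ≤
      ENNReal.ofReal (a * (6 / ϱ) + b * (4 / √(ϱ * c))) := by
  have m : MeasurableSet {y | c ≤ |x - y|} := measurableSet_le (by fun_prop) (by fun_prop)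
  have m1 : Measurable fun y => ENNReal.ofReal a *
      (ENNReal.ofReal (min ((|x - y| / ϱ) ^ 2) √(|x - y| / ϱ)) *
        ENNReal.ofReal (1 / (x - y) ^ 2)) := by fun_prop
  have m2 : Measurable fun y => ENNReal.ofReal b * (ENNReal.ofReal √(|x - y| / ϱ) *
      ENNReal.ofReal (1 / (x - y) ^ 2)) := by fun_prop
  refine (setLIntegral_mono (m1.fun_add (m2.indicator m)) fun y hy => ?_).trans
    ((setLIntegral_le_lintegral _ _).trans ?_)
  · rcases hf y hy with k | ⟨k, k'⟩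
    · refine le_add_right ?_
      rw [← mul_assoc, ← ENNReal.ofReal_mul ha]
      exact mul_le_mul_left (ENNReal.ofReal_le_ofReal k) _
    · refine le_add_left ?_
      rw [indicator_of_mem (show y ∈ {y | c ≤ |x - y|} from k), ← mul_assoc,
        ← ENNReal.ofReal_mul hb]
      exact mul_le_mul_left (ENNReal.ofReal_le_ofReal k') _
  · rw [lintegral_add_left m1, lintegral_indicator m,
      lintegral_const_mul' _ _ ENNReal.ofReal_ne_top,
      lintegral_const_mul' _ _ ENNReal.ofReal_ne_top,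
      ENNReal.ofReal_add (by positivity) (by positivity), ENNReal.ofReal_mul ha,
      ENNReal.ofReal_mul hb]
    exact add_le_add (mul_le_mul_right (phi_int h x) _) (mul_le_mul_right (far_int h hc x) _)

theorem dens (A : ℕ) : ∃ B : ℝ, 1 ≤ B ∧ ∀ {V ρ₀ Θ θ : ℝ} {X X' : Ch} (D : RD A V ρ₀ Θ θ X X')
    (A' vz v₁ x : ℝ), B ≤ A' → vz ≤ v₁ → In X ρ₀ Θ 20 x → x ∈ D.G →
      ∫⁻ y in {y | D.ϱ x ≤ D.ϱ y ∧ 8 * θ ≤ |X.ι x - X.ι y| ∧ |X.ι x - X.ι y| < 8 * Θ},
        ENNReal.ofReal (cost A' V Θ vz v₁ D.kb (X.ι x, X.ι y)) * ENNReal.ofReal (1 / (x - y) ^ 2) ≤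
      ENNReal.ofReal (B * (Real.exp (-max 0 (vz - V - Real.log (D.k x)) / B) / V ^ 2 / D.ϱ' x +
        (if vz - V ≤ Real.log (D.k x) then (D.w x / Θ) ^ 2 / D.ϱ' x else 0) +
        Real.exp (-max 0 (vz - V - Real.log (D.k x) - B * V) / B) / √(D.ϱ' x * D.r x))) := by
  obtain ⟨B₁, h1, H1⟩ := LOC A
  obtain ⟨B₂, h2, H2⟩ := MC A
  have q1 : B₁ ≤ B₁ ^ 2 := by nlinarith
  have q2 : B₂ ≤ B₂ ^ 2 := by nlinarith
  have q3 : B₁ ^ 2 ≤ B₁ ^ 2 * B₂ ^ 2 := le_mul_of_one_le_right (sq_nonneg _) (by linarith)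
  have q4 : B₂ ^ 2 ≤ B₁ ^ 2 * B₂ ^ 2 := le_mul_of_one_le_left (sq_nonneg _) (by linarith)
  obtain ⟨B, hB⟩ : ∃ B, B = 4000 * (B₁ ^ 2 * B₂ ^ 2) := ⟨_, rfl⟩
  refine ⟨B, by linarith, fun {V ρ₀ Θ θ X X'} D A' vz v₁ x hA hv hx hG => ?_⟩
  have hV := D.V_ge
  have hΘ := R8_Θ D
  have hr := R8_r D (R8_in D hx (by norm_num)) hG
  obtain ⟨hu, hϱ⟩ := R8_ϱ D (R8_in D hx (by norm_num : (20 : ℝ) ≤ 130))
  have hϱ' : 0 < D.ϱ' x := lt_min (hu.trans_le hϱ) hr
  set E₁ := Real.exp (-max 0 (vz - V - Real.log (D.k x)) / B) with hE₁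
  set E₂ := Real.exp (-max 0 (vz - V - Real.log (D.k x) - B * V) / B) with hE₂
  set W := if vz - V ≤ Real.log (D.k x) then (D.w x / Θ) ^ 2 else 0 with hW
  have W0 : 0 ≤ W := by
    rw [hW]
    split_ifs <;> positivity
  have E1 : 0 < E₁ := Real.exp_pos _
  have E2 : 0 < E₂ := Real.exp_pos _
  refine (R8_split (a := 256 * B₁ ^ 2 * (E₁ / V ^ 2 + W)) (b := 832 * B₁ * B₂ ^ 2 * E₂)
    (c := D.r x / B₁) (f := fun y => cost A' V Θ vz v₁ D.kb (X.ι x, X.ι y)) (by positivity)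
    (by positivity) hϱ' (by positivity) x fun y hy => ?_).trans (ENNReal.ofReal_le_ofReal ?_)
  · obtain ⟨y1, y2, y3⟩ := hy
    have hc := cost_le (A := A') (Θ := Θ) (by linarith) (by linarith : 0 < V) hv (h := D.kb)
      (p := (X.ι x, X.ι y))
    change _ ≤ (if vz - V ≤ Real.log (D.k x) then ((X.ι x - X.ι y) / Θ) ^ 2 else 0) +
      (if max 0 (vz - V - Real.log (D.k x)) ≤ |Real.log (D.k x) - Real.log (D.k y)| then
        2 * (|Real.log (D.k x) - Real.log (D.k y)| / V) ^ 2 *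
          Real.exp (|Real.log (D.k x) - Real.log (D.k y)| / (A' * V)) else 0) at hc
    have hz : 0 ≤ |x - y| / D.ϱ' x := by positivity
    set z := |x - y| / D.ϱ' x with hz'
    set Δ := |Real.log (D.k x) - Real.log (D.k y)| with hΔ
    have hφ : 0 ≤ min (z ^ 2) √z := le_min (sq_nonneg _) (Real.sqrt_nonneg _)
    rcases le_total (B₁ * |x - y|) (D.r x) with k | k
    · obtain ⟨l1, l2⟩ := H1 D x y (R8_in D hx (by norm_num)) k y2 y1
      refine Or.inl (hc.trans ?_)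
      have b1 : (if vz - V ≤ Real.log (D.k x) then ((X.ι x - X.ι y) / Θ) ^ 2 else 0) ≤
          B₁ ^ 2 * W * min (z ^ 2) √z := by
        rw [hW]
        split_ifs
        · calc ((X.ι x - X.ι y) / Θ) ^ 2 = (|X.ι x - X.ι y| / Θ) ^ 2 := by
                rw [div_pow, div_pow, sq_abs]
            _ ≤ (B₁ * D.w x * min 1 z / Θ) ^ 2 := by gcongr
            _ = B₁ ^ 2 * (D.w x / Θ) ^ 2 * min 1 z ^ 2 := by ring
            _ ≤ _ := mul_le_mul_of_nonneg_left (R8_min hz) (by positivity)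
        · simp
      have b2 : (if max 0 (vz - V - Real.log (D.k x)) ≤ Δ then
          2 * (Δ / V) ^ 2 * Real.exp (Δ / (A' * V)) else 0) ≤
          256 * B₁ ^ 2 * (E₁ / V ^ 2) * min (z ^ 2) √z := by
        split_ifs with k'
        · exact R8_loc h1 (by linarith) hA hV hz (abs_nonneg _) l1 k'
        · positivity
      have b3 : 0 ≤ B₁ ^ 2 * W * min (z ^ 2) √z := by positivity
      linarith
    · have l0 : 0 ≤ Real.log (1 + z) := Real.log_nonneg (by linarith)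
      have l1 : Δ ≤ B₂ * (V + Real.log (1 + z)) := by
        refine (H2 D x y (R8_in D hx (by norm_num)) y2 y3.le y1).trans ?_
        have : |x - y| / D.ϱ x ≤ z := div_le_div_of_nonneg_left (abs_nonneg _) hϱ' (min_le_left _ _)
        have : 0 ≤ |x - y| / D.ϱ x := div_nonneg (abs_nonneg _) (hu.le.trans hϱ)
        gcongr
      have s1 : 1 ≤ B₁ * √z := by
        have t1 : 1 ≤ B₁ * z := by
          rw [hz', ← mul_div_assoc, one_le_div hϱ']
          exact (min_le_right _ _).trans k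
        have t2 : B₁ * z ≤ B₁ ^ 2 * z := by gcongr
        rw [← Real.sqrt_sq (by linarith : 0 ≤ B₁), ← Real.sqrt_mul (sq_nonneg _)]
        exact Real.one_le_sqrt.2 (t1.trans t2)
      have s0 := Real.sqrt_nonneg z
      have s2 : √z ≤ B₁ * √z := le_mul_of_one_le_left s0 h1
      refine Or.inr ⟨(div_le_iff₀' (by linarith)).2 k, hc.trans ?_⟩
      have b1 : (if vz - V ≤ Real.log (D.k x) then ((X.ι x - X.ι y) / Θ) ^ 2 else 0) ≤
          64 * E₂ * (B₁ * √z) := by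
        split_ifs with k'
        · have t1 : max 0 (vz - V - Real.log (D.k x) - B * V) = 0 := max_eq_left (by nlinarith)
          have t2 : ((X.ι x - X.ι y) / Θ) ^ 2 ≤ 8 ^ 2 := by
            rw [← sq_abs, abs_div, abs_of_pos hΘ]
            gcongr
            exact (div_le_iff₀ hΘ).2 y3.le
          rw [hE₂, t1, neg_zero, zero_div, Real.exp_zero]
          linarith
        · positivity
      have b2 : (if max 0 (vz - V - Real.log (D.k x)) ≤ Δ then
          2 * (Δ / V) ^ 2 * Real.exp (Δ / (A' * V)) else 0) ≤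
          384 * B₂ ^ 2 * (B₁ * √z + B₁ * √z) * E₂ := by
        split_ifs with k'
        · have t1 := R8_mc (A' := A') h2 (by linarith) hV hz (abs_nonneg _) l1
          have t2 : 1 ≤ Real.exp (Real.log (1 + z) / 8) * E₂ := by
            rw [hE₂, ← Real.exp_add, neg_div]
            refine Real.one_le_exp (sub_nonneg.2 ?_)
            rw [div_le_iff₀ (by linarith)]
            have t3 := (le_max_right _ _).trans k'
            have t4 : B₂ * V ≤ B * V := by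
              gcongr
              linarith
            have t5 : B₂ * Real.log (1 + z) ≤ B / 8 * Real.log (1 + z) := by
              gcongr
              linarith
            refine max_le (mul_nonneg (by linarith) (by linarith)) (by linarith)
          calc 2 * (Δ / V) ^ 2 * Real.exp (Δ / (A' * V))
              ≤ 2 * (Δ / V) ^ 2 * Real.exp (Δ / (A' * V)) *
                (Real.exp (Real.log (1 + z) / 8) * E₂) := le_mul_of_one_le_right (by positivity) t2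
            _ ≤ 384 * B₂ ^ 2 * (1 + √z) * E₂ := by
                rw [← mul_assoc]
                exact mul_le_mul_of_nonneg_right t1 E2.le
            _ ≤ _ := by gcongr
        · positivity
      have b3 : E₂ * (B₁ * √z) ≤ B₂ ^ 2 * (E₂ * (B₁ * √z)) :=
        le_mul_of_one_le_left (by positivity) (by linarith)
      linarith
  · have e1 : (if vz - V ≤ Real.log (D.k x) then (D.w x / Θ) ^ 2 / D.ϱ' x else 0) = W / D.ϱ' x := by
      rw [hW]
      split_ifs <;> simp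
    have p1 : 0 < √(D.ϱ' x * D.r x) := Real.sqrt_pos.2 (by positivity)
    have p2 : 0 < √(D.ϱ' x * (D.r x / B₁)) := Real.sqrt_pos.2 (by positivity)
    have e2 : 1 / √(D.ϱ' x * (D.r x / B₁)) ≤ B₁ / √(D.ϱ' x * D.r x) := by
      rw [div_le_div_iff₀ p2 p1, one_mul, ← Real.sqrt_sq (by linarith : 0 ≤ B₁),
        ← Real.sqrt_mul (sq_nonneg _), Real.sqrt_sq (by linarith : 0 ≤ B₁)]
      refine Real.sqrt_le_sqrt ?_
      rw [show B₁ ^ 2 * (D.ϱ' x * (D.r x / B₁)) = B₁ * (D.ϱ' x * D.r x) by field_simp]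
      exact le_mul_of_one_le_left (by positivity) h1
    have e3 : 256 * B₁ ^ 2 * (E₁ / V ^ 2 + W) * (6 / D.ϱ' x) ≤
        B * (E₁ / V ^ 2 / D.ϱ' x + W / D.ϱ' x) := by
      rw [show 256 * B₁ ^ 2 * (E₁ / V ^ 2 + W) * (6 / D.ϱ' x) =
        1536 * B₁ ^ 2 * (E₁ / V ^ 2 / D.ϱ' x + W / D.ϱ' x) by ring]
      gcongr
      linarith
    have e4 : 832 * B₁ * B₂ ^ 2 * E₂ * (4 / √(D.ϱ' x * (D.r x / B₁))) ≤
        B * (E₂ / √(D.ϱ' x * D.r x)) := by
      calc _ = 3328 * B₁ * B₂ ^ 2 * E₂ * (1 / √(D.ϱ' x * (D.r x / B₁))) := by ring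
        _ ≤ 3328 * B₁ * B₂ ^ 2 * E₂ * (B₁ / √(D.ϱ' x * D.r x)) := by gcongr
        _ = 3328 * (B₁ ^ 2 * B₂ ^ 2) * (E₂ / √(D.ϱ' x * D.r x)) := by ring
        _ ≤ _ := by
          gcongr
          linarith
    rw [e1, mul_add B]
    exact add_le_add e3 e4

theorem R8_fin {α β : Type*} [MeasurableSpace α] {μ : Measure α} {f : α → ℝ≥0∞} (P : Finset β)
    (s : β → Set α) {M : ℝ} (h : ∀ j ∈ P, ∫⁻ x in s j, f x ∂μ ≤ ENNReal.ofReal M) :
    ∫⁻ x in ⋃ j ∈ P, s j, f x ∂μ ≤ ENNReal.ofReal (P.card * M) := by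
  classical
  rw [ENNReal.ofReal_mul (Nat.cast_nonneg _), ENNReal.ofReal_natCast]
  induction P using Finset.induction_on with
  | empty => simp
  | insert j P hj ih =>
    rw [Finset.set_biUnion_insert, Finset.card_insert_of_notMem hj, Nat.cast_succ, add_mul, one_mul,
      add_comm]
    exact (lintegral_union_le _ _ _).trans (add_le_add (h j (Finset.mem_insert_self _ _))
      (ih fun i hi => h i (Finset.mem_insert_of_mem hi)))

theorem R8_cover {α : Type*} [MeasurableSpace α] {μ : Measure α} {f : α → ℝ≥0∞} {T : Set α}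
    {L : α → ℝ} {ω a b n M : ℝ} (hω : 0 < ω) (hn : 0 ≤ n) (hb : b ≤ a + n * ω) (hM : 0 ≤ M)
    (h : ∀ v, a ≤ v → v ≤ a + n * ω →
      ∫⁻ x in {x | x ∈ T ∧ v ≤ L x ∧ L x ≤ v + ω}, f x ∂μ ≤ ENNReal.ofReal M) :
    ∫⁻ x in {x | x ∈ T ∧ a ≤ L x ∧ L x ≤ b}, f x ∂μ ≤ ENNReal.ofReal ((n + 1) * M) := by
  have sub : {x | x ∈ T ∧ a ≤ L x ∧ L x ≤ b} ⊆ ⋃ j ∈ Finset.range (⌊n⌋₊ + 1),
      {x | x ∈ T ∧ a + j * ω ≤ L x ∧ L x ≤ a + j * ω + ω} := by
    rintro x ⟨h1, h2, h3⟩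
    have k0 : 0 ≤ (L x - a) / ω := div_nonneg (by linarith) hω.le
    have k1 := (le_div_iff₀ hω).1 (Nat.floor_le k0)
    have k2 := (div_lt_iff₀ hω).1 (Nat.lt_floor_add_one ((L x - a) / ω))
    refine mem_biUnion (Finset.mem_coe.2 (Finset.mem_range.2 (Nat.lt_succ_of_le
      (Nat.floor_le_floor ((div_le_iff₀ hω).2 (by linarith : L x - a ≤ n * ω))))))
      ⟨h1, by linarith, by linarith⟩
  refine (lintegral_mono_set sub).trans ((R8_fin _ _ fun j hj => h _ ?_ ?_).trans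
    (ENNReal.ofReal_le_ofReal ?_))
  · exact le_add_of_nonneg_right (by positivity)
  · have : (j : ℝ) ≤ n := (Nat.le_floor_iff hn).1 (Nat.lt_succ_iff.1 (Finset.mem_range.1 hj))
    gcongr
  · rw [Finset.card_range, Nat.cast_succ]
    gcongr
    exact Nat.floor_le hn

theorem R8_geo {α : Type*} [MeasurableSpace α] {μ : Measure α} {f g : α → ℝ≥0∞} {T : Set α}
    {L : α → ℝ} {ω B c hi M : ℝ} (hω : 0 < ω) (hB : 0 < B) (hc : 0 ≤ c) (hM : 0 ≤ M)
    (hf : AEMeasurable f (μ.restrict T))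
    (hg : ∀ x ∈ T, L x ≤ hi → g x ≤ ENNReal.ofReal (c * Real.exp (-(hi - L x) / B)) * f x)
    (h : ∀ v, ∫⁻ x in {x | x ∈ T ∧ v ≤ L x ∧ L x ≤ v + ω}, f x ∂μ ≤ ENNReal.ofReal M) :
    ∫⁻ x in {x | x ∈ T ∧ L x ≤ hi}, g x ∂μ ≤
      ENNReal.ofReal ((1 - Real.exp (-ω / B))⁻¹ * (c * M)) := by
  have q0 := (Real.exp_pos (-ω / B)).le
  have q1 : Real.exp (-ω / B) < 1 := Real.exp_lt_one_iff.2 (div_neg_of_neg_of_pos (by linarith) hB)
  have sub : {x | x ∈ T ∧ L x ≤ hi} ⊆ ⋃ j : ℕ,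
      {x | x ∈ T ∧ hi - j * ω - ω ≤ L x ∧ L x ≤ hi - j * ω - ω + ω} := by
    rintro x ⟨h1, h2⟩
    have k0 : 0 ≤ (hi - L x) / ω := div_nonneg (by linarith) hω.le
    have k1 := (le_div_iff₀ hω).1 (Nat.floor_le k0)
    have k2 := (div_lt_iff₀ hω).1 (Nat.lt_floor_add_one ((hi - L x) / ω))
    exact mem_iUnion.2 ⟨⌊(hi - L x) / ω⌋₊, h1, by linarith, by linarith⟩
  rw [← tsum_geometric_of_lt_one q0 q1, ← tsum_mul_right, ENNReal.ofReal_tsum_of_nonneg
    (fun j => by positivity) ((summable_geometric_of_lt_one q0 q1).mul_right _)]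
  refine (lintegral_mono_set sub).trans ((lintegral_iUnion_le _ _).trans
    (ENNReal.tsum_le_tsum fun j => ?_))
  have hj : 0 ≤ j * ω := by positivity
  refine (setLIntegral_mono_ae (g := fun x => ENNReal.ofReal (Real.exp (-ω / B) ^ j * c) * f x)
    ((hf.mono_set fun x hx => hx.1).const_mul _) (ae_of_all _ fun x hx => ?_)).trans ?_
  · refine (hg x hx.1 (by linarith [hx.2.2])).trans
      (mul_le_mul_left (ENNReal.ofReal_le_ofReal ?_) _)
    rw [mul_comm, ← Real.exp_nat_mul, ← mul_div_assoc]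
    gcongr
    linarith [hx.2.2]
  · rw [lintegral_const_mul' _ _ ENNReal.ofReal_ne_top, ← mul_assoc,
      ENNReal.ofReal_mul (q := M) (by positivity)]
    exact mul_le_mul_right (h _) _

theorem R8_meas (A V Θ vz v₁ : ℝ) {h : ℝ → ℝ} (hh : Measurable h) :
    Measurable (cost A V Θ vz v₁ h) := by
  have m1 : Measurable fun t => zeta V vz (h t) := by
    unfold zeta clamp
    fun_prop
  have m2 : Measurable fun t => dep v₁ (h t) := by
    unfold dep
    fun_prop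
  have m3 : Measurable fun p : ℝ × ℝ => zeta V vz (h p.1) := m1.comp measurable_fst
  have m4 : Measurable fun p : ℝ × ℝ => zeta V vz (h p.2) := m1.comp measurable_snd
  have m5 : Measurable fun p : ℝ × ℝ => dep v₁ (h p.1) - dep v₁ (h p.2) :=
    (m2.comp measurable_fst).sub (m2.comp measurable_snd)
  exact ((Measurable.ite (measurableSet_lt m3 measurable_const) (by fun_prop)
    measurable_const).add ((m3.sub m4).pow_const 2)).add
      (((m5.div_const V).pow_const 2).mul (m5.abs.div_const _).exp)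

section

variable {A : ℕ} {V ρ₀ Θ θ : ℝ} {X X' : Ch} (D : RD A V ρ₀ Θ θ X X')

include D in
theorem R8_Ioo {t : ℝ} (h : |t| ≤ ρ₀ + 200 * Θ) : t ∈ Ioo (-(1 / 2) : ℝ) (1 / 2) := by
  have h1 := abs_le.1 h
  have h2 := D.ρ_le
  have h3 := R8_Θ D
  exact ⟨by linarith [h1.1], by linarith [h1.2]⟩

theorem R8_s : ∃ s : ℝ → ℝ, Continuous (fun t => D.k (s t)) ∧ Continuous (fun t => D.ϱ (s t)) ∧
    ∀ t, |t| ≤ ρ₀ + 100 * Θ → s t = X.σ t ∧ D.k (s t) = D.kb t := by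
  have hΘ := R8_Θ D
  have hρ := D.ρ_nonneg
  have b : ∀ t, |max (-(ρ₀ + 100 * Θ)) (min (ρ₀ + 100 * Θ) t)| ≤ ρ₀ + 100 * Θ := fun t =>
    abs_le.2 ⟨le_max_left _ _, max_le (by linarith) (min_le_left _ _)⟩
  have b' := fun t => R8_Ioo D ((b t).trans (by linarith))
  have c : Continuous fun t => X.σ (max (-(ρ₀ + 100 * Θ)) (min (ρ₀ + 100 * Θ) t)) :=
    X.σ_cont.comp_continuous (by fun_prop) b'
  have i : ∀ t, In X ρ₀ Θ 100 (X.σ (max (-(ρ₀ + 100 * Θ)) (min (ρ₀ + 100 * Θ) t))) := fun t => by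
    rw [In, X.ι_σ _ (b' t)]
    exact b t
  have ck := D.k_cont.comp_continuous c fun t => R8_in D (i t) (by norm_num)
  have cu := D.u_cont.comp_continuous c fun t => R8_in D (i t) (by norm_num)
  refine ⟨_, ck, ck.mul cu, fun t ht => ?_⟩
  have e : max (-(ρ₀ + 100 * Θ)) (min (ρ₀ + 100 * Θ) t) = t := by
    rw [min_eq_right (abs_le.1 ht).2, max_eq_right (abs_le.1 ht).1]
  simp only [e, RD.k, X.ι_σ t (R8_Ioo D (ht.trans (by linarith))), and_self]

theorem R8_fub (A' vz v₁ : ℝ) {Q : Set ℝ} (hQ : MeasurableSet Q)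
    (hQ' : ∀ t ∈ Q, |t| ≤ ρ₀ + 20 * Θ) :
    ∫⁻ p in {p : ℝ × ℝ | D.ϱ (X.σ p.1) ≤ D.ϱ (X.σ p.2) ∧ p.1 ∈ Q ∧
        8 * θ ≤ |p.1 - p.2| ∧ |p.1 - p.2| < 8 * Θ},
        ENNReal.ofReal (cost A' V Θ vz v₁ D.kb p) ∂X.H ≤ ∫⁻ x in X.ι ⁻¹' Q,
      ∫⁻ y in {y | D.ϱ x ≤ D.ϱ y ∧ 8 * θ ≤ |X.ι x - X.ι y| ∧ |X.ι x - X.ι y| < 8 * Θ},
        ENNReal.ofReal (cost A' V Θ vz v₁ D.kb (X.ι x, X.ι y)) *
          ENNReal.ofReal (1 / (x - y) ^ 2) := by
  obtain ⟨s, c1, c2, hs⟩ := R8_s D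
  have hΘ := R8_Θ D
  have hι := X.ι_cont.measurable
  have rng : ∀ p : ℝ × ℝ, p.1 ∈ Q → |p.1 - p.2| < 8 * Θ →
      |p.1| ≤ ρ₀ + 100 * Θ ∧ |p.2| ≤ ρ₀ + 100 * Θ := fun p h1 h2 => by
    have h3 := hQ' _ h1
    have h4 := abs_sub_abs_le_abs_sub p.2 p.1
    rw [abs_sub_comm] at h4
    exact ⟨by linarith, by linarith⟩
  set S := {p : ℝ × ℝ | D.ϱ (X.σ p.1) ≤ D.ϱ (X.σ p.2) ∧ p.1 ∈ Q ∧
    8 * θ ≤ |p.1 - p.2| ∧ |p.1 - p.2| < 8 * Θ} with hS
  have mS : MeasurableSet S := by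
    have e : S = {p : ℝ × ℝ | D.ϱ (s p.1) ≤ D.ϱ (s p.2)} ∩ (Prod.fst ⁻¹' Q ∩
        ({p | 8 * θ ≤ |p.1 - p.2|} ∩ {p | |p.1 - p.2| < 8 * Θ})) := by
      ext p
      refine and_congr_left fun h => ?_
      obtain ⟨h1, h2⟩ := rng p h.1 h.2.2
      rw [mem_ofPred_eq, (hs _ h1).1, (hs _ h2).1]
    rw [e]
    exact (measurableSet_le (c2.measurable.comp measurable_fst)
      (c2.measurable.comp measurable_snd)).inter ((measurable_fst hQ).inter
      ((measurableSet_le (by fun_prop) (by fun_prop)).inter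
      (measurableSet_lt (by fun_prop) (by fun_prop))))
  have ec : ∀ p ∈ S, cost A' V Θ vz v₁ D.kb p = cost A' V Θ vz v₁ (fun t => D.k (s t)) p := by
    intro p hp
    obtain ⟨h1, h2⟩ := rng p hp.2.1 hp.2.2.2
    simp only [cost, (hs _ h1).2, (hs _ h2).2]
  have mF := (R8_meas A' V Θ vz v₁ c1.measurable).ennreal_ofReal
  rw [setLIntegral_congr_fun mS fun p hp => congrArg ENNReal.ofReal (ec p hp),
    ← lintegral_indicator mS, X.H_int (mF.indicator mS), ← lintegral_indicator (hι hQ)]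
  refine lintegral_mono fun x => ?_
  by_cases k : X.ι x ∈ Q
  · have e : {y | D.ϱ x ≤ D.ϱ y ∧ 8 * θ ≤ |X.ι x - X.ι y| ∧ |X.ι x - X.ι y| < 8 * Θ} =
        (fun y => (X.ι x, X.ι y)) ⁻¹' S := by
      ext y
      simp only [hS, mem_ofPred_eq, mem_preimage, X.σ_ι, k, true_and]
    rw [indicator_of_mem (show x ∈ X.ι ⁻¹' Q from k), e,
      ← lintegral_indicator ((measurable_const.prodMk hι) mS)]
    refine lintegral_mono fun y => ?_
    by_cases k' : (X.ι x, X.ι y) ∈ S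
    · rw [indicator_of_mem k', indicator_of_mem (show y ∈ (fun y => (X.ι x, X.ι y)) ⁻¹' S from k'),
        ec _ k']
    · rw [indicator_of_notMem k', zero_mul]
      exact bot_le
  · refine le_trans (le_of_eq ?_) bot_le
    refine (lintegral_congr fun y => ?_).trans lintegral_zero
    rw [indicator_of_notMem (fun h : (X.ι x, X.ι y) ∈ S => k h.2.1), zero_mul]

end

theorem near (A : ℕ) : ∃ B : ℝ, 1 ≤ B ∧ ∀ {V ρ₀ Θ θ : ℝ} {X X' : Ch} (D : RD A V ρ₀ Θ θ X X')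
    (A' vz v₁ e : ℝ), B ≤ A' → vz ≤ v₁ → |e| ≤ ρ₀ + 10 * Θ →
      ∫⁻ p in {p : ℝ × ℝ | D.ϱ (X.σ p.1) ≤ D.ϱ (X.σ p.2) ∧ |p.1 - e| ≤ 4 * θ ∧
        8 * θ ≤ |p.1 - p.2| ∧ |p.1 - p.2| < 8 * Θ},
        ENNReal.ofReal (cost A' V Θ vz v₁ D.kb p) ∂X.H ≤ ENNReal.ofReal (B * V) := by
  obtain ⟨B₂, h2, H2⟩ := MC A
  obtain ⟨B₃, hB₃⟩ : ∃ B₃ : ℝ, B₃ = B₂ * (A + 1) := ⟨_, rfl⟩
  have hA0 : (0 : ℝ) ≤ A := Nat.cast_nonneg A
  have h3 : 1 ≤ B₃ := by nlinarith
  obtain ⟨C, hC⟩ : ∃ C : ℝ, C = 448 * B₃ ^ 2 := ⟨_, rfl⟩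
  have q3 : B₃ ≤ B₃ ^ 2 := by nlinarith
  have hC0 : 0 < C := by linarith
  have hCA : 0 ≤ C * A := by positivity
  refine ⟨18 * (C * A) + 4 * C, by linarith, fun {V ρ₀ Θ θ X X'} D A' vz v₁ e hA hv he => ?_⟩
  have hV := D.V_ge
  have hΘ := R8_Θ D
  have hθ := D.θ_pos
  have hθ' := D.θ_le
  have he' := abs_le.1 he
  have hQ : ∀ t ∈ Icc (e - 4 * θ) (e + 4 * θ), |t| ≤ ρ₀ + 20 * Θ := fun t ht =>
    abs_le.2 ⟨by linarith [ht.1], by linarith [ht.2]⟩
  have i1 := R8_Ioo D ((hQ (e - 4 * θ) ⟨le_rfl, by linarith⟩).trans (by linarith))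
  have i2 := R8_Ioo D ((hQ (e + 4 * θ) ⟨by linarith, le_rfl⟩).trans (by linarith))
  have hL : 0 < X.len (e - 4 * θ) (e + 4 * θ) := sub_pos.2 (X.σ_mono i1 i2 (by linarith))
  set L₀ := X.len (e - 4 * θ) (e + 4 * θ) with hL₀
  set T := {p : ℝ × ℝ | p ∈ {p : ℝ × ℝ | 2 * θ ≤ |p.1 - p.2|} ∧ e - 4 * θ ≤ p.1 ∧
    p.1 ≤ e + 4 * θ} with hT
  have mT : MeasurableSet T := (measurableSet_le measurable_const
    (measurable_fst.sub measurable_snd).abs).inter
    ((measurableSet_le measurable_const measurable_fst).inter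
      (measurableSet_le measurable_fst measurable_const))
  have hι := X.ι_cont.measurable
  have mI : Measurable (T.indicator fun _ => (1 : ℝ≥0∞)) := measurable_const.indicator mT
  have kT : ∫⁻ p, T.indicator (fun _ => (1 : ℝ≥0∞)) p ∂X.H ≤ ENNReal.ofReal ((8 + 1) * (A * V)) := by
    rw [lintegral_indicator mT]
    refine R8_cover (L := Prod.fst) hθ (by norm_num) (by linarith) (by positivity) fun v v1 v2 => ?_
    rw [setLIntegral_one]
    refine le_trans (measure_mono ?_)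
      (D.Kb θ (Or.inl rfl) v (abs_le.2 ⟨by linarith, by linarith⟩))
    exact fun p hp => ⟨hp.2, hp.1⟩
  refine (lintegral_mono_set fun p hp => ?_).trans
    ((R8_fub D A' vz v₁ measurableSet_Icc hQ).trans ?_)
  · have := abs_le.1 hp.2.1
    exact ⟨hp.1, ⟨by linarith [this.1], by linarith [this.2]⟩, hp.2.2⟩
  refine (setLIntegral_mono' (hι measurableSet_Icc) (g := fun x => ENNReal.ofReal (2 * C) *
    (∫⁻ y, T.indicator (fun _ => (1 : ℝ≥0∞)) (X.ι x, X.ι y) * ENNReal.ofReal (1 / (x - y) ^ 2)) +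
      ENNReal.ofReal (C * (4 / √(L₀ * L₀)))) fun x hx => ?_).trans ?_
  · have hx' : In X ρ₀ Θ 20 x := hQ _ hx
    obtain ⟨hu, hϱ⟩ := R8_ϱ D (R8_in D hx' (by norm_num : (20 : ℝ) ≤ 130))
    have hcm : L₀ ≤ Real.exp (A * V) * D.ϱ x := by
      have := D.cmp_u (t := X.ι x) (a := e - 4 * θ) (b := e + 4 * θ)
        ((hQ _ hx).trans (by linarith)) (by linarith [hx.2]) (by linarith [hx.1]) (by linarith)
      rw [X.σ_ι] at this
      exact this.trans (by gcongr)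
    have m : MeasurableSet {y | L₀ ≤ |x - y|} := measurableSet_le (by fun_prop) (by fun_prop)
    have m1 : Measurable fun y => ENNReal.ofReal (2 * C) *
        (T.indicator (fun _ => (1 : ℝ≥0∞)) (X.ι x, X.ι y) * ENNReal.ofReal (1 / (x - y) ^ 2)) :=
      ((mI.comp (measurable_const.prodMk hι)).mul (by fun_prop)).const_mul _
    have m2 : Measurable fun y => ENNReal.ofReal C * (ENNReal.ofReal √(|x - y| / L₀) *
        ENNReal.ofReal (1 / (x - y) ^ 2)) := by fun_prop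
    refine (setLIntegral_mono (m1.fun_add (m2.indicator m)) fun y hy => ?_).trans
      ((setLIntegral_le_lintegral _ _).trans ?_)
    · obtain ⟨y1, y2, y3⟩ := hy
      have hz : 0 ≤ |x - y| / L₀ := by positivity
      set z := |x - y| / L₀ with hz'
      have l0 : 0 ≤ Real.log (1 + z) := Real.log_nonneg (by linarith)
      have l1 : |Real.log (D.k x) - Real.log (D.k y)| ≤ B₃ * (V + Real.log (1 + z)) := by
        refine (H2 D x y (R8_in D hx' (by norm_num)) y2 y3.le y1).trans ?_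
        have t0 : 1 ≤ Real.exp (A * V) := Real.one_le_exp (by positivity)
        have t1 : |x - y| / D.ϱ x ≤ Real.exp (A * V) * z := by
          rw [hz', ← mul_div_assoc, div_le_div_iff₀ (hu.trans_le hϱ) hL]
          nlinarith [abs_nonneg (x - y)]
        have t2 : 0 ≤ |x - y| / D.ϱ x := div_nonneg (abs_nonneg _) (hu.le.trans hϱ)
        have t3 : Real.log (1 + |x - y| / D.ϱ x) ≤ A * V + Real.log (1 + z) := by
          rw [← Real.log_exp (A * V), ← Real.log_mul (Real.exp_pos _).ne' (by linarith)]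
          exact Real.log_le_log (by linarith) (by linarith)
        rw [hB₃, mul_assoc]
        gcongr
        nlinarith
      have hc := cost_le (A := A') (Θ := Θ) (by linarith) (by linarith : 0 < V) hv (h := D.kb)
        (p := (X.ι x, X.ι y))
      change _ ≤ (if vz - V ≤ Real.log (D.k x) then ((X.ι x - X.ι y) / Θ) ^ 2 else 0) +
        (if max 0 (vz - V - Real.log (D.k x)) ≤ |Real.log (D.k x) - Real.log (D.k y)| then
          2 * (|Real.log (D.k x) - Real.log (D.k y)| / V) ^ 2 *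
            Real.exp (|Real.log (D.k x) - Real.log (D.k y)| / (A' * V)) else 0) at hc
      have s0 := Real.sqrt_nonneg z
      have b1 : (if vz - V ≤ Real.log (D.k x) then ((X.ι x - X.ι y) / Θ) ^ 2 else 0) ≤ 8 ^ 2 := by
        split_ifs
        · rw [← sq_abs, abs_div, abs_of_pos hΘ]
          gcongr
          exact (div_le_iff₀ hΘ).2 y3.le
        · positivity
      have b2 : (if max 0 (vz - V - Real.log (D.k x)) ≤ |Real.log (D.k x) - Real.log (D.k y)| then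
          2 * (|Real.log (D.k x) - Real.log (D.k y)| / V) ^ 2 *
            Real.exp (|Real.log (D.k x) - Real.log (D.k y)| / (A' * V)) else 0) ≤
          384 * B₃ ^ 2 * (1 + √z) := by
        split_ifs
        · exact (le_mul_of_one_le_right (by positivity) (Real.one_le_exp (by linarith))).trans
            (R8_mc h3 (by linarith) hV hz (abs_nonneg _) l1)
        · positivity
      have b3 : 0 ≤ B₃ ^ 2 * √z := by positivity
      have b4 : cost A' V Θ vz v₁ D.kb (X.ι x, X.ι y) ≤ C + C * √z := by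
        rw [hC]
        linarith
      rw [indicator_of_mem (show (X.ι x, X.ι y) ∈ T from ⟨le_trans (by linarith) y2, hx.1, hx.2⟩),
        one_mul]
      by_cases k : L₀ ≤ |x - y|
      · rw [indicator_of_mem (show y ∈ {y | L₀ ≤ |x - y|} from k), ← mul_assoc, ← add_mul,
          ← ENNReal.ofReal_mul hC0.le, ← ENNReal.ofReal_add (by linarith) (by positivity)]
        exact mul_le_mul_left (ENNReal.ofReal_le_ofReal (by linarith)) _
      · have : √z ≤ 1 := Real.sqrt_le_one.2 ((div_le_one hL).2 (not_le.1 k).le)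
        exact le_add_right (mul_le_mul_left (ENNReal.ofReal_le_ofReal (by nlinarith)) _)
    · rw [lintegral_add_left m1, lintegral_indicator m,
        lintegral_const_mul' _ _ ENNReal.ofReal_ne_top,
        lintegral_const_mul' _ _ ENNReal.ofReal_ne_top, ENNReal.ofReal_mul hC0.le]
      exact add_le_add le_rfl (mul_le_mul_right (far_int hL hL x) _)
  · rw [lintegral_add_right _ measurable_const, lintegral_const_mul' _ _ ENNReal.ofReal_ne_top,
      setLIntegral_const, X.D1b_icc i1 i2, Real.volume_Icc, ← ENNReal.ofReal_mul (by positivity),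
      Real.sqrt_mul_self hL.le]
    refine (add_le_add (mul_le_mul_right ((setLIntegral_le_lintegral _ _).trans
      ((X.H_int mI).symm.le.trans kT)) _) le_rfl).trans ?_
    have : C * (4 / L₀) * (X.σ (e + 4 * θ) - X.σ (e - 4 * θ)) = 4 * C := by
      change C * (4 / L₀) * L₀ = _
      field_simp
    rw [this, ← ENNReal.ofReal_mul (by linarith), ← ENNReal.ofReal_add (by positivity)
      (by positivity)]
    exact ENNReal.ofReal_le_ofReal (by nlinarith)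

theorem R8_dy {A : ℕ} {V ρ₀ Θ θ : ℝ} {X X' : Ch} (D : RD A V ρ₀ Θ θ X X') (t v : ℝ) :
    {x | x ∈ {x | x ∈ D.G ∧ X.ι x ∈ Icc t (t + 2 * Θ)} ∧ v ≤ Real.log (D.k x) ∧
      Real.log (D.k x) ≤ v + 1 / 2} ⊆ {x | x ∈ D.G ∧ X.ι x ∈ Icc t (t + 2 * Θ) ∧
        Real.exp v ≤ D.k x ∧ D.k x ≤ 2 * Real.exp v} := by
  rintro x ⟨⟨h1, h2⟩, h3, h4⟩
  have k0 : 0 < D.k x := by linarith [R8_k D x]
  refine ⟨h1, h2, (Real.le_log_iff_exp_le k0).1 h3, ((Real.log_le_iff_le_exp k0).1 h4).trans ?_⟩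
  rw [Real.exp_add, mul_comm]
  gcongr
  exact (Real.le_log_iff_exp_le two_pos).1 (by linarith [Real.log_two_gt_d9])

theorem R8_out (A : ℕ) {B C₁ : ℝ} (hB : 1 ≤ B) (hC : 0 ≤ C₁) : ∃ K : ℝ, 0 ≤ K ∧
    ∀ {V ρ₀ Θ θ : ℝ} {X X' : Ch} (D : RD A V ρ₀ Θ θ X X') (vz lo t : ℝ) (g : ℝ → ℝ≥0∞) (S : Set ℝ),
      |t| ≤ ρ₀ → (∀ x ∈ S, (x ∈ D.G ∧ X.ι x ∈ Icc t (t + 2 * Θ)) ∧
        (lo ≤ Real.log (D.k x) ∧ Real.log (D.k x) ≤ lo + C₁ * V ∨
          Real.log (D.k x) ≤ vz - V - B * V)) →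
      (∀ x ∈ D.G, X.ι x ∈ Icc t (t + 2 * Θ) → g x ≤
        ENNReal.ofReal (B * (Real.exp (-max 0 (vz - V - Real.log (D.k x)) / B) / V ^ 2 / D.ϱ' x +
        (if vz - V ≤ Real.log (D.k x) then (D.w x / Θ) ^ 2 / D.ϱ' x else 0) +
        Real.exp (-max 0 (vz - V - Real.log (D.k x) - B * V) / B) / √(D.ϱ' x * D.r x)))) →
      ∫⁻ x in S, g x ≤ ENNReal.ofReal (K * V) := by
  obtain ⟨BN, hN, HN⟩ := win_N A
  obtain ⟨BR, hR, HR⟩ := win_R A
  obtain ⟨BW, hW, HW⟩ := win_W A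
  have q1 : 0 ≤ (1 - Real.exp (-(1 / 2) / B))⁻¹ := inv_nonneg.2 (sub_nonneg.2
    (Real.exp_le_one_iff.2 (div_nonpos_of_nonpos_of_nonneg (by norm_num) (by linarith))))
  refine ⟨B * ((2 * C₁ + 1) * BN + (2 * C₁ + 1) * BW + (C₁ + 1) * BR) +
    (1 - Real.exp (-(1 / 2) / B))⁻¹ * (B * (BN + BR)), by positivity,
    fun {V ρ₀ Θ θ X X'} D vz lo t g S ht hS hg => ?_⟩
  have hV := D.V_ge
  have hΘ := R8_Θ D
  have ht' : |t| ≤ ρ₀ + 40 * Θ := by linarith
  set T := {x | x ∈ D.G ∧ X.ι x ∈ Icc t (t + 2 * Θ)} with hT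
  have hI : ∀ x ∈ T, In X ρ₀ Θ 130 x := fun x hx => by
    have := abs_le.1 ht
    exact abs_le.2 ⟨by linarith [hx.2.1], by linarith [hx.2.2]⟩
  have hp : ∀ x ∈ T, 0 < D.ϱ' x ∧ 0 < D.r x := fun x hx => by
    have h1 := R8_r D (hI x hx) hx.1
    have h2 := R8_ϱ D (hI x hx)
    exact ⟨lt_min (h2.1.trans_le h2.2) h1, h1⟩
  have cr : Continuous D.r := (LipschitzWith.of_dist_le_mul (K := 1) fun x y => by
    simpa only [Real.dist_eq, NNReal.coe_one, one_mul] using D.r_lip x y).continuous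
  have cw : Continuous D.w := (X.ι_cont.comp (continuous_id.add (cr.div_const 2))).sub
    (X.ι_cont.comp (continuous_id.sub (cr.div_const 2)))
  have mϱ : AEMeasurable D.ϱ' (volume.restrict T) := by
    have m : MeasurableSet {x | In X ρ₀ Θ 130 x} :=
      measurableSet_le X.ι_cont.measurable.abs measurable_const
    have c : ContinuousOn D.ϱ {x | In X ρ₀ Θ 130 x} :=
      D.k_cont.mul (D.u_cont.mono fun x hx => R8_in D hx (by norm_num))
    exact ((c.aemeasurable m).mono_set hI).min cr.aemeasurable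
  have m1 : AEMeasurable (fun x => ENNReal.ofReal (1 / D.ϱ' x)) (volume.restrict T) :=
    (aemeasurable_const.div mϱ).ennreal_ofReal
  have m2 : AEMeasurable (fun x => ENNReal.ofReal ((D.w x / Θ) ^ 2 / D.ϱ' x))
      (volume.restrict T) := (((cw.div_const Θ).pow 2).aemeasurable.div mϱ).ennreal_ofReal
  have m3 : AEMeasurable (fun x => ENNReal.ofReal (1 / √(D.ϱ' x * D.r x))) (volume.restrict T) :=
    (aemeasurable_const.div (mϱ.mul cr.aemeasurable).sqrt).ennreal_ofReal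
  have wN := fun v => (lintegral_mono_set (R8_dy D t v)).trans (HN D t _ ht')
  have wW := fun v => (lintegral_mono_set (R8_dy D t v)).trans (HW D t _ ht')
  have wR : ∀ v, ∫⁻ x in {x | x ∈ T ∧ v ≤ Real.log (D.k x) ∧ Real.log (D.k x) ≤ v + V},
      ENNReal.ofReal (1 / √(D.ϱ' x * D.r x)) ≤ ENNReal.ofReal (BR * V) := fun v => by
    refine le_trans (lintegral_mono_set ?_) (HR D t v ht')
    exact fun x hx => ⟨hx.1.1, hx.1.2, hx.2⟩
  have sub : S ⊆ {x | x ∈ T ∧ lo ≤ Real.log (D.k x) ∧ Real.log (D.k x) ≤ lo + C₁ * V} ∪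
      {x | x ∈ T ∧ Real.log (D.k x) ≤ vz - V - B * V} := fun x hx =>
    (hS x hx).2.imp (fun h => ⟨(hS x hx).1, h⟩) fun h => ⟨(hS x hx).1, h⟩
  refine (lintegral_mono_set sub).trans ((lintegral_union_le _ _ _).trans ?_)
  rw [add_mul, ENNReal.ofReal_add (by positivity) (by positivity)]
  refine add_le_add ?_ ?_
  · have sa : {x | x ∈ T ∧ lo ≤ Real.log (D.k x) ∧ Real.log (D.k x) ≤ lo + C₁ * V} ⊆ T :=
      fun x hx => hx.1
    have a1 := R8_cover (L := fun x => Real.log (D.k x)) (a := lo) (b := lo + C₁ * V)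
      (n := 2 * C₁ * V) one_half_pos (by positivity) (by linarith) (by positivity)
      fun v _ _ => wN v
    have a2 := R8_cover (L := fun x => Real.log (D.k x)) (a := lo) (b := lo + C₁ * V)
      (n := 2 * C₁ * V) one_half_pos (by positivity) (by linarith) (by positivity)
      fun v _ _ => wW v
    have a3 := R8_cover (L := fun x => Real.log (D.k x)) (a := lo) (b := lo + C₁ * V)
      (n := C₁) (by linarith) hC le_rfl (by positivity) fun v _ _ => wR v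
    have n1 := (m1.mono_set sa).const_mul (ENNReal.ofReal (1 / V ^ 2))
    refine (setLIntegral_mono_ae (((n1.fun_add (m2.mono_set sa)).fun_add
      (m3.mono_set sa)).const_mul (ENNReal.ofReal B)) (ae_of_all _ fun x hx => ?_)).trans ?_
    · obtain ⟨p1, p2⟩ := hp x hx.1
      refine (hg x hx.1.1 hx.1.2).trans ?_
      rw [← ENNReal.ofReal_mul (by positivity), ← ENNReal.ofReal_add (by positivity) (by positivity),
        ← ENNReal.ofReal_add (by positivity) (by positivity), ← ENNReal.ofReal_mul (by linarith)]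
      have e : ∀ s, Real.exp (-max 0 s / B) ≤ 1 := fun s => Real.exp_le_one_iff.2
        (div_nonpos_of_nonpos_of_nonneg (neg_nonpos.2 (le_max_left _ _)) (by linarith))
      refine ENNReal.ofReal_le_ofReal (mul_le_mul_of_nonneg_left
        (add_le_add (add_le_add ?_ ?_) ?_) (by linarith))
      · rw [mul_one_div]
        gcongr
        exact e _
      · split_ifs
        · exact le_rfl
        · positivity
      · gcongr
        exact e _
    · rw [lintegral_const_mul' _ _ ENNReal.ofReal_ne_top, lintegral_add_right' _ (m3.mono_set sa),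
        lintegral_add_left' n1, lintegral_const_mul' _ _ ENNReal.ofReal_ne_top]
      refine (mul_le_mul_right (add_le_add (add_le_add (mul_le_mul_right a1 _) a2) a3) _).trans ?_
      rw [← ENNReal.ofReal_mul (by positivity), ← ENNReal.ofReal_add (by positivity) (by positivity),
        ← ENNReal.ofReal_add (by positivity) (by positivity), ← ENNReal.ofReal_mul (by linarith),
        mul_assoc B]
      refine ENNReal.ofReal_le_ofReal (mul_le_mul_of_nonneg_left ?_ (by linarith))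
      have b0 : 2 * C₁ * V + 1 ≤ (2 * C₁ + 1) * V := by linarith
      have b1 : 1 / V ^ 2 * ((2 * C₁ * V + 1) * (BN * V)) ≤ (2 * C₁ + 1) * BN * V := by
        calc _ ≤ 1 / V ^ 2 * ((2 * C₁ + 1) * V * (BN * V)) := by gcongr
          _ = (2 * C₁ + 1) * BN := by field_simp
          _ ≤ _ := le_mul_of_one_le_right (by positivity) hV
      have b2 : (2 * C₁ * V + 1) * BW ≤ (2 * C₁ + 1) * V * BW := by gcongr
      linarith
  · refine (R8_geo (L := fun x => Real.log (D.k x)) (ω := 1 / 2) (B := B) (c := B)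
      (M := BN * V + BR * V) one_half_pos (by linarith) (by linarith) (by positivity)
      (m1.fun_add m3) (fun x hx hL => ?_) fun v => ?_).trans (le_of_eq (congrArg _ (by ring)))
    · obtain ⟨p1, p2⟩ := hp x hx
      have hBV : 0 < B * V := by positivity
      refine (hg x hx.1 hx.2).trans ?_
      rw [← ENNReal.ofReal_add (by positivity) (by positivity),
        ← ENNReal.ofReal_mul (by positivity), if_neg (by linarith), add_zero, mul_assoc,
        max_eq_right (by linarith), max_eq_right (by linarith), mul_add (Real.exp _), mul_one_div,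
        mul_one_div]
      refine ENNReal.ofReal_le_ofReal (mul_le_mul_of_nonneg_left (add_le_add ?_ ?_) (by linarith))
      · have : 1 ≤ V ^ 2 := one_le_pow₀ hV
        refine div_le_div_of_nonneg_right ((div_le_self (Real.exp_pos _).le this).trans ?_) p1.le
        exact Real.exp_le_exp.2 (div_le_div_of_nonneg_right (by linarith) (by linarith))
      · exact le_of_eq (by rw [sub_right_comm (vz - V)])
    · rw [lintegral_add_left' (m1.mono_set fun x hx => hx.1),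
        ENNReal.ofReal_add (by positivity) (by positivity)]
      refine add_le_add (wN v) (le_trans (lintegral_mono_set ?_) (wR v))
      exact fun x hx => ⟨hx.1, hx.2.1, by linarith [hx.2.2]⟩

theorem out_kb (A : ℕ) (C₀ : ℝ) : ∃ B : ℝ, 1 ≤ B ∧ ∀ {V ρ₀ Θ θ : ℝ} {X X' : Ch}
    (D : RD A V ρ₀ Θ θ X X') (A' vz v₁ t : ℝ) (n : ℕ), B ≤ A' → vz ≤ v₁ → v₁ ≤ vz + C₀ * V →
      |t| ≤ ρ₀ → ∫⁻ p in {p : ℝ × ℝ | D.ϱ (X.σ p.1) ≤ D.ϱ (X.σ p.2) ∧ p.1 ∈ Icc t (t + 2 * Θ) ∧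
        8 * θ ≤ |p.1 - p.2| ∧ |p.1 - p.2| < 8 * Θ ∧ n * V ≤ dep v₁ (D.kb p.1) ∧
        dep v₁ (D.kb p.1) < (n + 1) * V}, ENNReal.ofReal (cost A' V Θ vz v₁ D.kb p) ∂X.H ≤
        ENNReal.ofReal (B * V) := by
  obtain ⟨B₀, h0, H0⟩ := near A
  obtain ⟨B, hB, HB⟩ := dens A
  obtain ⟨K, hK, HK⟩ := R8_out A hB (C₁ := |C₀| + 2 + B) (by positivity)
  have hA0 : 0 ≤ A * B₀ := by positivity
  refine ⟨B₀ + B + (A * B₀ + K), by linarith,
    fun {V ρ₀ Θ θ X X'} D A' vz v₁ t n hA hv hv' ht => ?_⟩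
  have hV := D.V_ge
  have hΘ := R8_Θ D
  have hθ := D.θ_pos
  have hθ' := D.θ_le
  have ht' := abs_le.1 ht
  obtain ⟨s, c1, -, hs⟩ := R8_s D
  set Q := Icc t (t + 2 * Θ) ∩ ((⋂ e ∈ D.E, {a | 4 * θ < |a - e|}) ∩
    (fun a => dep v₁ (D.k (s a))) ⁻¹' Ico (n * V) ((n + 1) * V)) with hQ
  have mQ : MeasurableSet Q := by
    have m : Measurable fun a => dep v₁ (D.k (s a)) := by
      have := c1.measurable
      unfold dep
      fun_prop
    exact measurableSet_Icc.inter ((D.E.measurableSet_biInter fun e _ =>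
      measurableSet_lt measurable_const (by fun_prop)).inter (m measurableSet_Ico))
  have rg : ∀ a ∈ Icc t (t + 2 * Θ), |a| ≤ ρ₀ + 20 * Θ := fun a ha =>
    abs_le.2 ⟨by linarith [ha.1], by linarith [ha.2]⟩
  have ks : ∀ a ∈ Icc t (t + 2 * Θ), D.k (s a) = D.kb a := fun a ha =>
    (hs a ((rg a ha).trans (by linarith))).2
  set P := D.E.filter fun e => |e - t| ≤ 10 * Θ with hP
  have cP : (P.card : ℝ) ≤ A := Nat.cast_le.2 ((Finset.card_le_card
    (Finset.monotone_filter_right _ fun e _ h => le_trans h (by linarith))).trans (D.E_card t))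
  have sub : {p : ℝ × ℝ | D.ϱ (X.σ p.1) ≤ D.ϱ (X.σ p.2) ∧ p.1 ∈ Icc t (t + 2 * Θ) ∧
      8 * θ ≤ |p.1 - p.2| ∧ |p.1 - p.2| < 8 * Θ ∧ n * V ≤ dep v₁ (D.kb p.1) ∧
      dep v₁ (D.kb p.1) < (n + 1) * V} ⊆
      (⋃ e ∈ P, {p : ℝ × ℝ | D.ϱ (X.σ p.1) ≤ D.ϱ (X.σ p.2) ∧ |p.1 - e| ≤ 4 * θ ∧
        8 * θ ≤ |p.1 - p.2| ∧ |p.1 - p.2| < 8 * Θ}) ∪
      {p : ℝ × ℝ | D.ϱ (X.σ p.1) ≤ D.ϱ (X.σ p.2) ∧ p.1 ∈ Q ∧
        8 * θ ≤ |p.1 - p.2| ∧ |p.1 - p.2| < 8 * Θ} := by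
    rintro p ⟨h1, h2, h3, h4, h5, h6⟩
    by_cases k : ∀ e ∈ D.E, 4 * θ < |p.1 - e|
    · refine Or.inr ⟨h1, ⟨h2, mem_iInter₂.2 k, ?_⟩, h3, h4⟩
      rw [mem_preimage, ks _ h2]
      exact ⟨h5, h6⟩
    · push Not at k
      obtain ⟨e, he, k⟩ := k
      have := abs_le.1 k
      exact Or.inl (mem_biUnion (Finset.mem_coe.2 (Finset.mem_filter.2 ⟨he, abs_le.2
        ⟨by linarith [h2.1, this.2], by linarith [h2.2, this.1]⟩⟩)) ⟨h1, k, h3, h4⟩)
  refine (lintegral_mono_set sub).trans ((lintegral_union_le _ _ _).trans ?_)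
  have a1 := R8_fin P _ fun e he => H0 D A' vz v₁ e (by linarith) hv (by
    have := abs_le.1 (Finset.mem_filter.1 he).2
    exact abs_le.2 ⟨by linarith [this.1], by linarith [this.2]⟩)
  have a2 := (R8_fub D A' vz v₁ mQ fun a ha => rg a ha.1).trans
    (HK D vz (if n = 0 then vz - V - B * V else v₁ + n * V) t _ (X.ι ⁻¹' Q) ht (fun x hx => ?_)
      fun x hx hx' => HB D A' vz v₁ x (by linarith) hv (rg _ hx') hx)
  · refine (add_le_add a1 a2).trans ?_
    rw [← ENNReal.ofReal_add (by positivity) (by positivity)]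
    refine ENNReal.ofReal_le_ofReal ?_
    have b1 : (P.card : ℝ) * (B₀ * V) ≤ A * (B₀ * V) := by gcongr
    nlinarith
  · obtain ⟨h1, h2, h3⟩ := hx
    rw [mem_preimage, ks _ h1] at h3
    refine ⟨⟨mem_iInter₂.1 h2, h1⟩, ?_⟩
    have h4 : Real.log (D.k x) - v₁ < (n + 1) * V := (le_max_right _ _).trans_lt h3.2
    have h5 : C₀ * V ≤ |C₀| * V := by
      gcongr
      exact le_abs_self _
    have h6 : 0 ≤ |C₀| * V := by positivity
    have h7 : 0 ≤ B * V := by positivity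
    split_ifs with k
    · rw [k, Nat.cast_zero] at h4
      exact (le_total _ _).imp (fun h => ⟨h, by linarith⟩) id
    · have h8 : (0 : ℝ) < n * V := mul_pos (Nat.cast_pos.2 (Nat.pos_of_ne_zero k)) (by linarith)
      have h9 : n * V ≤ Real.log (D.k x) - v₁ := (le_max_iff.1 h3.1).resolve_left (not_le.2 h8)
      exact Or.inl ⟨by linarith, by linarith⟩

end Pool.Agent.Work.MP_042f46_an.Fu
end
end

-- merged part: Pool.Agent.Work.MP_042f46_an.F.R11
section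
/-!
# From the real description to the data of a level

Plan.  `lam` from `GG` (constant `B₀`); `C'` larger than `B₀`, the constant of `tail_kb`, and `B ^ 2 + A B` for the constant `B` of `len_frac`.  `v₁ = max lam 0 + C' V`; `vz = lam - C' V` if this is at least `2 V`, else `0`; `v₁ ≤ vz + (2 C' + 2) V`.  `h t = min (4 Θ / θ) (max (kb (c t)) ((|t| - ρ₀ - 20 Θ) / θ))`, `c t` the projection to `[-(ρ₀ + 30 Θ), ρ₀ + 30 Θ]`; `h = kb` for `|t| ≤ ρ₀ + 20 Θ` (`hh_le`), `h = 4 Θ / θ` for `|t| ≥ ρ₀ + 24 Θ`, `h ≥ kb` for `|t| ≤ ρ₀ + 30 Θ`.  `cnt`: trivial for `k ≥ 4 Θ / θ` and for `|t| > ρ₀ + 26 Θ`.  `S = {p | ϱ (σ (c p.1)) ≤ ϱ (σ (c p.2))}` (a continuous function of `t`: `u_cont`, `k_cont`, `σ_cont`).  `frac`: if `exp vz θ ≤ δ` (always when `vz = 0`) use `T (t + δ) - T t ≤ 204 Θ`; otherwise `δ ≤ 4 Θ`, `len_frac` with `2 δ`: `B log η ≤ B ^ 2 V + log 2 + log (δ / (exp vz θ)) - C' V`; `x ^ (1 / B) ≤ x ^ (1 / A')`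 and `x ≤ x ^ (1 / A')` for `x ≤ 1 ≤ B ≤ A'`.
-/

open Set Metric Topology Filter MeasureTheory
open scoped ENNReal NNReal

noncomputable section
namespace Pool.Agent.Work.MP_042f46_an.Fu

open Pool.Agent.Work.MP_042f46_an.Ty

theorem R11_lt (X : Ch) {s t : ℝ} (hs : -(1 / 2) < s) (h : s < t) (ht : t < 1 / 2) :
    X.σ s < X.σ t := by
  by_contra hn
  have h1 := X.ι_mono.monotone (not_lt.1 hn)
  rw [X.ι_σ t ⟨hs.trans h, ht⟩, X.ι_σ s ⟨hs, h.trans ht⟩] at h1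
  exact h.not_ge h1

/-- projection to a symmetric interval -/
def R11_c (ρ t : ℝ) : ℝ := max (-ρ) (min t ρ)

theorem R11_c_abs {ρ : ℝ} (h : 0 ≤ ρ) (t : ℝ) : |R11_c ρ t| ≤ ρ :=
  abs_le.2 ⟨le_max_left _ _, max_le (by linarith) (min_le_right _ _)⟩

theorem R11_c_eq {ρ t : ℝ} (h : |t| ≤ ρ) : R11_c ρ t = t := by
  rw [R11_c, min_eq_left (abs_le.1 h).2, max_eq_right (abs_le.1 h).1]

theorem R11_c_lip (ρ s t : ℝ) : |R11_c ρ s - R11_c ρ t| ≤ |s - t| := by
  refine (abs_max_sub_max_le_max _ _ _ _).trans (max_le (by simp) ?_)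
  exact (abs_min_sub_min_le_max _ _ _ _).trans (max_le le_rfl (by simp))

theorem R11_c_cont (ρ : ℝ) : Continuous (R11_c ρ) := by
  unfold R11_c
  fun_prop

theorem R11_frac {a B A' V x η lam C q : ℝ} (hB : 1 ≤ B) (hA : B ≤ A') (hV : 1 ≤ V) (x0 : 0 < x)
    (x1 : x ≤ 1) (η0 : 0 < η) (hC : B ^ 2 + a * B + 1 ≤ C)
    (hq : q = 2 * x * Real.exp (lam - C * V))
    (h : B * Real.log η ≤ B ^ 2 * V + Real.log q - lam) :
    Real.exp (a * V) * η ≤ x ^ (1 / A') := by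
  rw [hq, Real.log_mul (by positivity) (Real.exp_pos _).ne', Real.log_mul two_ne_zero x0.ne',
    Real.log_exp] at h
  have h1 : Real.log 2 ≤ 1 := by linarith [Real.log_two_lt_d9]
  have h2 := Real.log_nonpos x0.le x1
  have h3 := mul_le_mul_of_nonneg_right hC (by linarith : 0 ≤ V)
  have h4 : B * (a * V + Real.log η) ≤ Real.log x := by nlinarith
  rw [Real.rpow_def_of_pos x0, ← Real.exp_log η0, ← Real.exp_add, Real.exp_le_exp, mul_one_div,
    le_div_iff₀ (by linarith)]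
  have h5 : a * V + Real.log η ≤ 0 := by
    by_contra h6
    nlinarith [mul_pos (by linarith : 0 < B) (not_le.1 h6)]
  nlinarith [mul_le_mul_of_nonpos_left hA h5]

theorem rd_ld (A : ℕ) : ∃ A' : ℝ, 8 ≤ A' ∧ ∀ (V ρ₀ Θ θ : ℝ) (X X' : Ch), RD A V ρ₀ Θ θ X X' →
    Nonempty (LD A' V ρ₀ Θ θ X.H X'.H) := by
  obtain ⟨B₀, b0, hG⟩ := GG A
  obtain ⟨Bt, bt, hT⟩ := tail_kb A B₀
  obtain ⟨Bl, bl, hL⟩ := len_frac A B₀
  obtain ⟨Bc, bc, hC⟩ := cnt_kb A
  obtain ⟨Bs, bs, hS⟩ := exists_T A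
  obtain ⟨C, hC0⟩ : ∃ C : ℝ, C = B₀ + Bt + (Bl ^ 2 + A * Bl + 1) := ⟨_, rfl⟩
  have c0 : 0 ≤ Bl ^ 2 + A * Bl + 1 := by positivity
  obtain ⟨Bo, bo, hO⟩ := out_kb A (2 * C + 2)
  obtain ⟨A', hA'⟩ : ∃ A' : ℝ, A' = 204 + Bl + Bc + Bs + Bo := ⟨_, rfl⟩
  refine ⟨A', by linarith, fun V ρ₀ Θ θ X X' D => ?_⟩
  have hV := D.V_ge
  have hθ := D.θ_pos
  have hΘ := D.θ_le
  have hρ := D.ρ_nonneg
  have hρ' := D.ρ_le
  have Θ0 : 0 < Θ := by linarith
  have hR : 100 ≤ Θ / θ := (le_div_iff₀ hθ).2 hΘ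
  have hR4 : 4 * Θ / θ = 4 * (Θ / θ) := mul_div_assoc _ _ _
  have ρ30 : 0 ≤ ρ₀ + 30 * Θ := by linarith
  obtain ⟨lam, l1, l2⟩ := hG D
  obtain ⟨T, t1, t2, t3, t4⟩ := hS D
  obtain ⟨vz, hvz⟩ : ∃ vz : ℝ, (vz = lam - C * V ∧ 2 * V ≤ vz) ∨ (vz = 0 ∧ lam - C * V < 2 * V) := by
    rcases le_or_gt (2 * V) (lam - C * V) with e | e
    · exact ⟨_, Or.inl ⟨rfl, e⟩⟩
    · exact ⟨_, Or.inr ⟨rfl, e⟩⟩
  have m0 := le_max_left lam 0
  have m1 := le_max_right lam 0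
  have cV : B₀ * V ≤ C * V := mul_le_mul_of_nonneg_right (by linarith) (by linarith)
  have cV' : Bt * V ≤ C * V := mul_le_mul_of_nonneg_right (by linarith) (by linarith)
  have cV1 : V ≤ C * V := le_mul_of_one_le_left (by linarith) (by linarith)
  have v1 : vz ≤ max lam 0 + C * V := by rcases hvz with e | e <;> linarith [e.1]
  have v2 : max lam 0 + C * V ≤ vz + (2 * C + 2) * V := by
    rcases hvz with e | e
    · rw [max_eq_left (by linarith [e.1, e.2])]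
      linarith [e.1]
    · have : max lam 0 ≤ C * V + 2 * V := max_le (by linarith [e.2]) (by linarith)
      linarith [e.1]
  have v3 : Real.exp vz ≤ 4 * Θ / θ := by
    rcases hvz with e | e
    · have h1 : Real.exp vz ≤ Real.exp (Real.log (Θ / θ)) := Real.exp_le_exp.2 (by linarith [e.1])
      rw [Real.exp_log (by linarith)] at h1
      linarith
    · rw [e.1, Real.exp_zero]
      linarith
  let h : ℝ → ℝ := fun t =>
    min (4 * Θ / θ) (max (D.kb (R11_c (ρ₀ + 30 * Θ) t)) ((|t| - ρ₀ - 20 * Θ) / θ))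
  have k1 : ∀ t, 1 ≤ D.kb t := fun t => le_max_right _ _
  have hk : ∀ t, |t| ≤ ρ₀ + 20 * Θ → h t = D.kb t := fun t ht => by
    have h1 : D.kb t ≤ Θ / θ := max_le (D.hh_le (by linarith)) (by linarith)
    have h2 : (|t| - ρ₀ - 20 * Θ) / θ ≤ 0 := div_nonpos_of_nonpos_of_nonneg (by linarith) hθ.le
    simp only [h]
    rw [R11_c_eq (by linarith), max_eq_left (by linarith [k1 t]), min_eq_right (by linarith)]
  let f : ℝ → ℝ := fun t => D.ϱ (X.σ (R11_c (ρ₀ + 30 * Θ) t))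
  have hf : Continuous f := by
    have h1 : ∀ t, R11_c (ρ₀ + 30 * Θ) t ∈ Ioo (-(1 / 2) : ℝ) (1 / 2) := fun t => by
      have := abs_le.1 (R11_c_abs ρ30 t)
      constructor <;> linarith
    have h2 : Continuous fun t => X.σ (R11_c (ρ₀ + 30 * Θ) t) :=
      X.σ_cont.comp_continuous (R11_c_cont _) h1
    have h3 : ∀ t, |X.ι (X.σ (R11_c (ρ₀ + 30 * Θ) t))| ≤ ρ₀ + 30 * Θ := fun t => by
      rw [X.ι_σ _ (h1 t)]
      exact R11_c_abs ρ30 t
    exact (D.k_cont.comp_continuous h2 fun t => (h3 t).trans (by linarith)).mul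
      (D.u_cont.comp_continuous h2 fun t => (h3 t).trans (by linarith))
  have htail : ∀ Y : Ch, Y = X ∨ Y = X' →
      Tail ρ₀ Θ (fun t => dep (max lam 0 + C * V) (h t) / V) Y.H := fun Y hY t ht Z hZ hs => by
    refine le_trans (le_of_eq ?_) (hT D lam (max lam 0 + C * V) l2 (by linarith) Y hY t ht Z hZ hs)
    refine setLIntegral_congr_fun (measurableSet_Icc.prod hZ) fun p hp => ?_
    have h1 := abs_le.1 ht
    have h2 : h p.1 = D.kb p.1 := hk _ (abs_le.2 ⟨by linarith [hp.1.1], by linarith [hp.1.2]⟩)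
    simp only [h2]
  have AV : ∀ B, B ≤ A' → B * V ≤ A' * V := fun B hB => mul_le_mul_of_nonneg_right hB (by linarith)
  refine ⟨{
    h := h
    T := T
    vz := vz
    v₁ := max lam 0 + C * V
    S := {p | f p.1 ≤ f p.2}
    one_le := fun t => le_min (by linarith) ((k1 _).trans (le_max_left _ _))
    h_le := fun t => min_le_left _ _
    h_lip := fun s t => ?_
    T_mono := t1
    T_near := t2
    vz_le := v1
    vz_exp := v3
    vz_or := hvz.elim (fun e => Or.inr e.2) fun e => Or.inl e.1.le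
    v₁_ge := by linarith
    cnt := fun t k hk1 => ?_
    frac := fun t δ d1 d2 => ?_
    S_meas := (isClosed_le (hf.comp continuous_fst) (hf.comp continuous_snd)).measurableSet
    S_cov := fun p => le_total (f p.1) (f p.2)
    outT := fun t ht => (t3 t ht).trans (ENNReal.ofReal_le_ofReal
      (mul_le_mul_of_nonneg_right (AV _ (by linarith)) (sq_nonneg _)))
    outM := fun t ht n => ?_
    tail := htail X (Or.inl rfl)
    tail' := htail X' (Or.inr rfl) }⟩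
  · refine (abs_min_sub_min_le_max _ _ _ _).trans (max_le (by simp; positivity) ?_)
    refine (abs_max_sub_max_le_max _ _ _ _).trans (max_le ?_ ?_)
    · refine (D.kb_lip ((R11_c_abs ρ30 t).trans (by linarith))
        ((R11_c_abs ρ30 s).trans (by linarith))).trans ?_
      exact div_le_div_of_nonneg_right (R11_c_lip _ _ _) hθ.le
    · rw [← sub_div, abs_div, abs_of_pos hθ]
      refine div_le_div_of_nonneg_right (le_trans (le_of_eq ?_) (abs_abs_sub_abs_le_abs_sub s t)) hθ.le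
      exact congrArg abs (by ring)
  · rcases le_or_gt (4 * Θ / θ) k with e | e
    · refine (measure_mono fun s hs => hs.1).trans ?_
      rw [Real.volume_Icc]
      refine ENNReal.ofReal_le_ofReal ?_
      have h1 := (div_le_iff₀ hθ).1 e
      have h2 : 1 ≤ A' * V := by nlinarith
      have h3 := mul_le_mul_of_nonneg_right h2 (by positivity : 0 ≤ k * θ)
      nlinarith
    have h1 : ∀ s, h s ≤ k → |s| ≤ ρ₀ + 24 * Θ ∧ D.kb s ≤ k := fun s hs => by
      have h2 := max_le_iff.1 ((min_le_iff.1 hs).resolve_left e.not_ge)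
      have h3 := (div_lt_div_iff_of_pos_right hθ).1 (h2.2.trans_lt e)
      rw [R11_c_eq (by linarith)] at h2
      exact ⟨by linarith, h2.1⟩
    rcases eq_empty_or_nonempty {s | s ∈ Icc t (t + 2 * Θ) ∧ h s ≤ k} with e' | ⟨s, s1, s2⟩
    · rw [e', measure_empty]
      exact zero_le
    have h2 := abs_le.1 (h1 s s2).1
    refine (measure_mono fun s hs => ?_).trans ((hC D t k (abs_le.2 ⟨by linarith [s1.2],
      by linarith [s1.1]⟩) hk1).trans (ENNReal.ofReal_le_ofReal ?_))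
    · exact ⟨hs.1, (h1 s hs.2).2⟩
    · exact mul_le_mul_of_nonneg_right (mul_le_mul_of_nonneg_right (AV _ (by linarith))
        (by linarith)) hθ.le
  · have e0 : 0 < Real.exp vz * θ := by positivity
    have δ0 : 0 < δ := by linarith
    have a0 : 0 ≤ 1 / A' := one_div_nonneg.2 (by linarith)
    rcases le_or_gt (Real.exp vz * θ) δ with e | e
    · have h1 := Real.one_le_rpow ((one_le_div e0).2 e) a0
      have h2 := abs_le.1 (t2 t)
      have h3 := abs_le.1 (t2 (t + δ))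
      have h4 : 204 * Θ ≤ A' * Θ := mul_le_mul_of_nonneg_right (by linarith) Θ0.le
      have h5 := mul_le_mul_of_nonneg_left h1 (by linarith : 0 ≤ A' * Θ)
      linarith
    have e1 : vz = lam - C * V := by
      rcases hvz with e' | e'
      · exact e'.1
      · rw [e'.1, Real.exp_zero] at e
        linarith
    have e2 : Real.exp vz * θ ≤ 4 * Θ := (le_div_iff₀ hθ).1 v3
    obtain ⟨t₁, h1, h2⟩ := t4 t δ δ0.le (by linarith)
    have h3 := abs_le.1 h1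
    have x0 : 0 < δ / (Real.exp vz * θ) := by positivity
    have x1 : δ / (Real.exp vz * θ) ≤ 1 := (div_le_one e0).2 e.le
    have p1 : 0 < X.ℓ Θ t₁ := sub_pos.2 (R11_lt X (by linarith) (by linarith) (by linarith))
    have p2 : 0 < X.len t₁ (t₁ + 2 * δ) :=
      sub_pos.2 (R11_lt X (by linarith) (by linarith) (by linarith))
    have p3 : X.len t₁ (t₁ + δ) ≤ X.len t₁ (t₁ + 2 * δ) :=
      sub_le_sub_right (R11_lt X (by linarith) (by linarith) (by linarith)).le _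
    have h4 := R11_frac (a := A) (A' := A') (C := C) bl (by linarith) hV x0 x1 (div_pos p2 p1)
      (by linarith) (by rw [← e1]; field_simp)
      (hL D lam l2 t₁ (2 * δ) h1 (by linarith) (by linarith))
    have h5 := mul_le_mul_of_nonneg_left (div_le_div_of_nonneg_right p3 p1.le)
      (Real.exp_pos (A * V)).le
    have h6 : δ / (Real.exp vz * θ) ≤ (δ / (Real.exp vz * θ)) ^ (1 / A') := by
      have := Real.rpow_le_rpow_of_exponent_ge x0 x1 ((div_le_one (by linarith)).2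
        (by linarith : 1 ≤ A'))
      rwa [Real.rpow_one] at this
    have h7 : δ ≤ 4 * Θ * (δ / (Real.exp vz * θ)) := by
      rw [← mul_div_assoc, le_div_iff₀ e0]
      nlinarith
    have h8 := mul_le_mul_of_nonneg_left (h5.trans h4) (by linarith : 0 ≤ 6 * Θ)
    have h9 := mul_le_mul_of_nonneg_left h6 (by linarith : 0 ≤ 4 * Θ)
    have h10 := mul_le_mul_of_nonneg_right (mul_le_mul_of_nonneg_right
      (by linarith : 10 ≤ A') Θ0.le) (x0.le.trans h6)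
    linarith
  · refine le_trans ?_ ((hO D A' vz _ t n (by linarith) v1 v2 ht).trans
      (ENNReal.ofReal_le_ofReal (AV _ (by linarith))))
    have h1 := abs_le.1 ht
    have h2 : ∀ p : ℝ × ℝ, p.1 ∈ Icc t (t + 2 * Θ) → |p.1 - p.2| < 8 * Θ →
        |p.1| ≤ ρ₀ + 20 * Θ ∧ |p.2| ≤ ρ₀ + 20 * Θ := fun p h3 h4 => by
      have h5 := abs_lt.1 h4
      exact ⟨abs_le.2 ⟨by linarith [h3.1], by linarith [h3.2]⟩,
        abs_le.2 ⟨by linarith [h3.1], by linarith [h3.2]⟩⟩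
    have h3 : MeasurableSet {p : ℝ × ℝ | |p.1| ≤ ρ₀ + 20 * Θ ∧ |p.2| ≤ ρ₀ + 20 * Θ} :=
      ((isClosed_le continuous_fst.abs continuous_const).inter
        (isClosed_le continuous_snd.abs continuous_const)).measurableSet
    refine le_trans (le_of_eq (lintegral_congr_ae (ae_restrict_of_ae_restrict_of_subset
      (fun p hp => h2 p hp.2.1 hp.2.2.2.1) (ae_restrict_of_forall_mem h3 fun p hp => ?_))))
      (lintegral_mono_set fun p hp => ?_)
    · simp only [cost, hk _ hp.1, hk _ hp.2]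
    · obtain ⟨a1, a2, a3, a4, a5, a6⟩ := hp
      obtain ⟨h4, h5⟩ := h2 p a2 a4
      rw [hk _ h4] at a5 a6
      refine ⟨?_, a2, a3, a4, a5, a6⟩
      have a7 : f p.1 ≤ f p.2 := a1
      simp only [f] at a7
      rwa [R11_c_eq (by linarith), R11_c_eq (by linarith)] at a7

end Pool.Agent.Work.MP_042f46_an.Fu
end
end

-- merged part: Pool.Agent.Work.MP_042f46_an.F.D5
section
/-!
# One step and all steps

Plans.  `step`: `lift_chn`; the second wall by `wall` (for `p = p'` on the interval `(r, r')`, otherwise `bad`).  `G z ∈ U` by `C8_U_of_F`.  `maxp` on the channel for the holomorphic function with real part `wl' (G z) - wl z / κ` (`om_hol`), `E` = the four corners.  `0 ≤ wl ≤ 1`.  At a frontier point in `U` one of the two measures is at least `κ`.  At `γ t` (`exists_γ`; reduce `t` to `[r, r + 1)`): on a wall `G = mb`, `mb z → γ (t - α)` inside `U` (`mb_cont`, `mb_γ`, `mem_U`), so `wl' (G z) → 0` (`om_one`,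 `om_zero`); elsewhere `wl z → 1`.
`iter`: `x i = ∑ v ∈ V ∩ U, (om v (r i) (p i) + om v (p' i) (r' i))`, `κ i = 1 - 2 max`, the maximum over `v ∈ V ∩ U` of the same numbers (at most `1 / 8`; zero if there is no such `v`); `om_min` shows that `Chn (κ i)` misses `V`; `1 / κ i ≤ exp (3 x i)`, `∑ x i ≤ μ card V`.  Induction with `wl i (G i z) < 2 κ₀ exp (3 ∑ l < i, x l) ≤ 1 / 2 ≤ κ i`.
-/

open Set Metric Topology Filter MeasureTheory
open scoped ENNReal NNReal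

noncomputable section
namespace Pool.Agent.Work.MP_042f46_an.Fu

open Pool.Agent.Work.MP_042f46_an.Ty

section
variable (C : Cf) {r p p' r' t : ℝ} {z : ℂ}

theorem D5_ne (t : ℝ) : (𝓝[C.U] (C.γ (t : T))).NeBot := by
  rw [← mem_closure_iff_nhdsWithin_neBot, γ_eq]
  have h1 : e (C.bi t) ∈ ball (0 : ℂ) C.R := by
    rw [mem_ball_zero_iff, norm_e]
    exact C.R_gt
  refine ContinuousWithinAt.mem_closure (s := ball 0 1)
    (C.ψ_diff.continuousOn.continuousAt (isOpen_ball.mem_nhds h1)).continuousWithinAt ?_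
    fun w hw => C.ψ_U (mem_ball_zero_iff.1 hw)
  rw [closure_ball _ one_ne_zero, mem_closedBall_zero_iff, norm_e]

theorem D5_mb (t : ℝ) :
    Tendsto C.mb (𝓝[C.U] (C.γ (t : T))) (𝓝[C.U] (C.γ ((t - C.α : ℝ) : T))) := by
  have h0 := C.isOpen_Ω.mem_nhds (C.γ_Ω (t : T))
  refine tendsto_nhdsWithin_iff.2 ⟨?_, ?_⟩
  · have h := C.mb_γ ((t - C.α : ℝ) : T)
    rw [← AddCircle.coe_add, sub_add_cancel] at h
    rw [← h]
    exact (C.mb_cont.continuousAt h0).tendsto.mono_left nhdsWithin_le_nhds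
  · filter_upwards [mem_nhdsWithin_of_mem_nhds h0, self_mem_nhdsWithin] with z a b
    exact C.C8_U_of_F ((C.F_mb a).symm ▸ b)

theorem D5_e (a s : ℝ) (i : ℕ) : s - i * a - a = s - (i + 1 : ℕ) * a := by
  push_cast
  ring

theorem D5_it (t : ℝ) (i : ℕ) :
    Tendsto C.mb^[i] (𝓝[C.U] (C.γ (t : T))) (𝓝[C.U] (C.γ ((t - i * C.α : ℝ) : T))) := by
  induction i with
  | zero => simpa using tendsto_id
  | succ i ih =>
    rw [Function.iterate_succ', ← D5_e]
    exact (D5_mb C _).comp ih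

theorem D5_om (hz : z ∈ C.U) (h : r ≤ p) : 0 ≤ C.om z r p :=
  sub_nonneg.2 ((Th_mono C hz).monotone h)

theorem D5_om' (hz : z ∈ C.U) (h : r' ≤ r + 1) : 0 ≤ 1 - C.om z r r' := by
  have h1 := (Th_mono C hz).monotone h
  rw [Th_per] at h1
  unfold Cf.om
  linarith only [h1]

theorem D5_wl (z : ℂ) (r p p' r' : ℝ) : C.wl r p p' r' z = 1 - (C.om z r p + C.om z p' r') := by
  unfold Cf.wl Cf.om
  ring

theorem D5_lim0 (h₁ : r < p) (h₂ : p ≤ p') (h₃ : p' < r') (h₄ : r' < r + 1)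
    (ht : t ∈ Ioo r p ∨ t ∈ Ioo p' r') :
    Tendsto (C.wl r p p' r') (𝓝[C.U] (C.γ (t : T))) (𝓝 0) := by
  have a : Tendsto (fun z => C.om z p p') (𝓝[C.U] (C.γ (t : T))) (𝓝 0) := by
    rcases ht with h | h
    · rw [← coe_add_one]
      exact om_zero C h₂ (by linarith only [h.1, h₃, h₄]) (by linarith only [h.2])
    · exact om_zero C h₂ h.1 (by linarith only [h.2, h₁, h₄])
  have b : Tendsto (fun z => C.om z r r') (𝓝[C.U] (C.γ (t : T))) (𝓝 1) := by
    rcases ht with h | h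
    · exact om_one C h.1 (by linarith only [h.2, h₂, h₃]) h₄.le
    · exact om_one C (by linarith only [h.1, h₂, h₁]) h.2 h₄.le
  have c := a.add (b.const_sub 1)
  rw [sub_self, add_zero] at c
  exact c

theorem D5_lim1 (h₁ : r < p) (h₂ : p ≤ p') (h₃ : p' < r') (h₄ : r' < r + 1)
    (ht : t ∈ Ioo p p' ∨ t ∈ Ioo r' (r + 1)) :
    Tendsto (C.wl r p p' r') (𝓝[C.U] (C.γ (t : T))) (𝓝 1) := by
  rcases ht with h | h
  · have c := (om_one C h.1 h.2 (by linarith only [h₁, h₃, h₄])).add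
      ((om_one C (h₁.trans h.1) (h.2.trans h₃) h₄.le).const_sub 1)
    rw [sub_self, add_zero] at c
    exact c
  · have c := (om_zero C h₂ (h₃.trans h.1) (by linarith only [h.2, h₁])).add
      ((om_zero C (by linarith only [h₁, h₂, h₃]) h.1 h.2).const_sub 1)
    rw [sub_zero, zero_add] at c
    exact c

theorem D5_hol (r p p' r' : ℝ) :
    ∃ h : ℂ → ℂ, DifferentiableOn ℂ h C.U ∧ ∀ z ∈ C.U, (h z).re = C.wl r p p' r' z := by
  obtain ⟨f, f1, f2⟩ := om_hol C p p'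
  obtain ⟨g, g1, g2⟩ := om_hol C r r'
  refine ⟨fun z => f z + (1 - g z), f1.add (g1.const_sub 1), fun z hz => ?_⟩
  rw [Complex.add_re, Complex.sub_re, f2 z hz, g2 z hz, Complex.one_re, Cf.wl]

theorem D5_max {κ : ℝ} (hκ : 0 < κ) (hκ' : κ ≤ 1) (h₁ : r < p) (h₂ : p ≤ p') (h₃ : p' < r')
    (h₄ : r' < r + 1) {G : ℂ → ℂ} (hd : DifferentiableOn ℂ G (C.Chn κ r p p' r'))
    (hU : ∀ z ∈ C.Chn κ r p p' r', G z ∈ C.U) (m : C.Main G 1 r p) (m' : C.Main G 1 p' r') :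
    ∀ z ∈ C.Chn κ r p p' r',
      C.wl (r - C.α) (p - C.α) (p' - C.α) (r' - C.α) (G z) - C.wl r p p' r' z / κ ≤ 0 := by
  obtain ⟨f, f1, f2⟩ := D5_hol C (r - C.α) (p - C.α) (p' - C.α) (r' - C.α)
  obtain ⟨g, g1, g2⟩ := D5_hol C r p p' r'
  have hs : C.Chn κ r p p' r' ⊆ C.U := fun z hz => hz.1
  have hO := isOpen_Chn C κ r p p' r'
  have e : ∀ z ∈ C.Chn κ r p p' r', (f (G z) - g z / (κ : ℂ)).re =
      C.wl (r - C.α) (p - C.α) (p' - C.α) (r' - C.α) (G z) - C.wl r p p' r' z / κ := fun z hz => by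
    rw [Complex.sub_re, Complex.div_ofReal_re, f2 _ (hU z hz), g2 z hz.1]
  have w0 : ∀ z ∈ C.Chn κ r p p' r', 0 ≤ C.wl r p p' r' z / κ := fun z hz =>
    div_nonneg (add_nonneg (D5_om C hz.1 h₂) (D5_om' C hz.1 h₄.le)) hκ.le
  have w1 : ∀ z ∈ C.Chn κ r p p' r',
      C.wl (r - C.α) (p - C.α) (p' - C.α) (r' - C.α) (G z) ≤ 1 := fun z hz => by
    rw [D5_wl]
    exact sub_le_self _ (add_nonneg (D5_om C (hU z hz) (sub_le_sub_right h₁.le _))
      (D5_om C (hU z hz) (sub_le_sub_right h₃.le _)))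
  intro z hz
  rw [← e z hz]
  refine maxp hO (C.isCompact_Ub.isBounded.subset (hs.trans C.U_sub))
    (h := fun z => f (G z) - g z / (κ : ℂ)) ((f1.comp hd hU).sub ((g1.mono hs).div_const _))
    (M := 1) (fun z hz => ?_) {C.γ r, C.γ p, C.γ p', C.γ r'} (fun z hz k => ?_)
    (fun ζ hζ hE ε hε => ?_) z hz
  · rw [e z hz]
    linarith only [w0 z hz, w1 z hz]
  · simp only [Finset.mem_insert, Finset.mem_singleton] at hz
    rcases hz with rfl | rfl | rfl | rfl <;> exact C.γ_not_U _ k.1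
  have big : ∀ L, κ ≤ L → Tendsto (C.wl r p p' r') (𝓝[C.Chn κ r p p' r'] ζ) (𝓝 L) →
      ∀ᶠ z in 𝓝[C.Chn κ r p p' r'] ζ, (f (G z) - g z / (κ : ℂ)).re ≤ ε := fun L a b => by
    have c : 1 - ε < L / κ := (sub_lt_self 1 hε).trans_le ((one_le_div hκ).2 a)
    filter_upwards [(b.div_const κ).eventually_const_lt c, self_mem_nhdsWithin] with z x y
    rw [e z y]
    linarith only [x, w1 z y]
  rw [hO.frontier_eq] at hζ
  by_cases hζU : ζ ∈ C.U
  · refine big (C.wl r p p' r' ζ) ?_ ?_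
    · have a := D5_om C hζU h₂
      have b := D5_om' C hζU h₄.le
      by_contra k
      rw [Cf.wl, not_le] at k
      exact hζ.2 ⟨hζU, by linarith only [k, b], by linarith only [k, a]⟩
    · rw [← g2 ζ hζU]
      refine Tendsto.congr' (eventually_nhdsWithin_of_forall fun z hz => g2 z hz.1) ?_
      exact ((Complex.continuous_re.tendsto _).comp (g1.continuousOn.continuousAt
        (C.isOpen_U.mem_nhds hζU))).mono_left nhdsWithin_le_nhds
  obtain ⟨x, rfl⟩ := C.exists_γ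
    (closure_minimal (hs.trans C.U_sub) C.isCompact_Ub.isClosed hζ.1) hζU
  obtain ⟨s, s1, s2⟩ := exists_coe (x - (r : T))
  obtain ⟨t, t1, t2, rfl⟩ : ∃ t : ℝ, r ≤ t ∧ t < r + 1 ∧ x = (t : T) :=
    ⟨r + s, by linarith only [s1.1], by linarith only [s1.2], by
      rw [AddCircle.coe_add, ← s2, add_sub_cancel]⟩
  simp only [Finset.mem_insert, Finset.mem_singleton, not_or] at hE
  have n1 : t ≠ r := fun k => hE.1 (by rw [k])
  have n2 : t ≠ p := fun k => hE.2.1 (by rw [k])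
  have n3 : t ≠ p' := fun k => hE.2.2.1 (by rw [k])
  have n4 : t ≠ r' := fun k => hE.2.2.2 (by rw [k])
  have hm := nhdsWithin_mono (C.γ (t : T)) hs
  by_cases hw : t ∈ Ioo r p ∨ t ∈ Ioo p' r'
  · have a : G =ᶠ[𝓝[C.U] (C.γ (t : T))] C.mb := hw.elim (m t) (m' t)
    have b := (D5_lim0 C (t := t - C.α) (sub_lt_sub_right h₁ C.α) (sub_le_sub_right h₂ C.α)
      (sub_lt_sub_right h₃ C.α) (by linarith only [h₄])
      (hw.imp (fun k => ⟨sub_lt_sub_right k.1 _, sub_lt_sub_right k.2 _⟩)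
        fun k => ⟨sub_lt_sub_right k.1 _, sub_lt_sub_right k.2 _⟩)).comp
      ((D5_mb C t).congr' a.symm)
    filter_upwards [(b.mono_left hm).eventually_lt_const hε, self_mem_nhdsWithin] with z x y
    rw [e z y]
    linarith only [(show C.wl _ _ _ _ (G z) < ε from x), w0 z y]
  · refine big 1 hκ' ((D5_lim1 C h₁ h₂ h₃ h₄ ?_).mono_left hm)
    rw [not_or] at hw
    have a : p < t := (not_lt.1 fun k => hw.1 ⟨t1.lt_of_ne' n1, k⟩).lt_of_ne' n2
    rcases lt_or_gt_of_ne n3 with k | k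
    · exact Or.inl ⟨a, k⟩
    · exact Or.inr ⟨(not_lt.1 fun k' => hw.2 ⟨k, k'⟩).lt_of_ne' n4, t2⟩

theorem D5_main {g G : ℂ → ℂ} {i : ℕ} (h : C.Main G i r p)
    (hg : C.Main g 1 (r - i * C.α) (p - i * C.α)) : C.Main (g ∘ G) (i + 1) r p := fun t ht => by
  have a := (D5_it C t i).eventually
    (hg (t - i * C.α) ⟨sub_lt_sub_right ht.1 _, sub_lt_sub_right ht.2 _⟩)
  filter_upwards [a, h t ht] with z x y
  rw [Function.iterate_succ_apply', Function.comp_apply, y]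
  exact x

end

theorem step (Z : Ctx) {κ r p p' r' : ℝ} (hκ : 1 / 2 ≤ κ) (hκ' : κ ≤ 1) (h₁ : r < p) (h₂ : p ≤ p')
    (h₃ : p' < r') (h₄ : r' - r < 1 / 2) (hV : ∀ z ∈ Z.C.Chn κ r p p' r', z ∉ Z.C.V)
    (hg : p = p' ∨ Z.K.b.real (sh Z.C.α (arc r p ×ˢ arc p' r')) + 50 <
      Z.C.H.real (arc r p ×ˢ arc p' r')) :
    ∃ G : ℂ → ℂ, DifferentiableOn ℂ G (Z.C.Chn κ r p p' r') ∧ Z.C.Main G 1 r p ∧
      Z.C.Main G 1 p' r' ∧ ∀ z ∈ Z.C.Chn κ r p p' r', Z.C.F (G z) = z ∧ G z ∈ Z.C.U ∧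
        Z.C.wl (r - Z.C.α) (p - Z.C.α) (p' - Z.C.α) (r' - Z.C.α) (G z) ≤
          Z.C.wl r p p' r' z / κ := by
  have κ0 : 0 < κ := one_half_pos.trans_le hκ
  have h5 : r' < r + 1 := by linarith only [h₄]
  obtain ⟨G, hd, hF, hm⟩ := lift_chn Z.C hκ hκ' h₁ h₂ h₃ h5 hV
  have hU : ∀ z ∈ Z.C.Chn κ r p p' r', G z ∈ Z.C.U := fun z hz =>
    Z.C.C8_U_of_F ((hF z hz).symm ▸ hz.1)
  have hm' : Z.C.Main G 1 p' r' := by
    rcases h₂.eq_or_lt with e | e
    · rcases wall Z.C hd.continuousOn hF hV (a := r) (b := r') fun t ht =>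
        Chn_wall Z.C κ0 h₁ h₂ h₃ h5 (Or.inr (Or.inr ⟨e, ht⟩)) with k | k
      · exact fun t ht => k t ⟨(h₁.trans_le h₂).trans ht.1, ht.2⟩
      · obtain ⟨t, t1, t2⟩ := exists_between h₁
        have := D5_ne Z.C t
        obtain ⟨z, a, b⟩ := ((hm t ⟨t1, t2⟩).and (k t ⟨t1, (t2.trans_le h₂).trans h₃⟩)).exists
        exact absurd a b
    · exact (wall Z.C hd.continuousOn hF hV fun t ht =>
        Chn_wall Z.C κ0 h₁ h₂ h₃ h5 (Or.inr (Or.inl ht))).resolve_right fun k =>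
          (hg.resolve_left e.ne).not_ge (bad Z hκ h₁ e h₃ h₄ hV hd.continuousOn hF hm k)
  exact ⟨G, hd, hm, hm', fun z hz => ⟨hF z hz, hU z hz,
    sub_nonpos.1 (D5_max Z.C κ0 hκ' h₁ h₂ h₃ h5 hd hU hm hm' z hz)⟩⟩

/-- the branches of the first `k` inverse iterates on `D` that follow the walls -/
structure Tow (C : Cf) (k : ℕ) (D : Set ℂ) (r p p' r' : ℝ) (G : ℕ → ℂ → ℂ) : Prop where
  zero : ∀ z ∈ D, G 0 z = z
  diff : ∀ i ≤ k, DifferentiableOn ℂ (G i) D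
  mem : ∀ i ≤ k, ∀ z ∈ D, G i z ∈ C.U
  step : ∀ i < k, ∀ z ∈ D, C.F (G (i + 1) z) = G i z ∧ G i z ∉ C.V
  see : ∀ i ≤ k, ∀ z ∈ D, 1 / 2 ≤ C.om (G i z) (r - i * C.α) (r' - i * C.α)
  main : C.Main (G k) k r p
  main' : C.Main (G k) k p' r'

theorem iter (Z : Ctx) (k : ℕ) {μ r p p' r' : ℝ} (hμ : 0 ≤ μ) (h₁ : r < p) (h₂ : p ≤ p')
    (h₃ : p' < r') (h₄ : r' - r < 1 / 2)
    (hv : ∀ i < k, ∀ v ∈ Z.C.V, v ∈ Z.C.U → Z.C.om v (r - i * Z.C.α) (p - i * Z.C.α) ≤ 1 / 16 ∧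
      Z.C.om v (p' - i * Z.C.α) (r' - i * Z.C.α) ≤ 1 / 16)
    (hs : ∀ z ∈ Z.C.U, ∑ i ∈ Finset.range k, Z.C.om z (r - i * Z.C.α) (r' - i * Z.C.α) ≤ μ)
    (hg : p = p' ∨ ∀ i < k, Z.K.b.real (sh Z.C.α (arc (r - i * Z.C.α) (p - i * Z.C.α) ×ˢ
        arc (p' - i * Z.C.α) (r' - i * Z.C.α))) + 50 <
      Z.C.H.real (arc (r - i * Z.C.α) (p - i * Z.C.α) ×ˢ arc (p' - i * Z.C.α) (r' - i * Z.C.α))) :
    ∃ G, Tow Z.C k (Z.C.Chn (Real.exp (-(3 * μ * Z.C.V.card)) / 4) r p p' r') r p p' r' G := by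
  classical
  let y : ℕ → ℂ → ℝ := fun i v => Z.C.om v (r - i * Z.C.α) (p - i * Z.C.α) +
    Z.C.om v (p' - i * Z.C.α) (r' - i * Z.C.α)
  let W := Z.C.V.filter fun v => v ∈ Z.C.U
  let x : ℕ → ℝ := fun i => ∑ v ∈ W, y i v
  let κ : ℕ → ℝ := fun i => 1 - 2 * min (x i) (1 / 8)
  let D : ℕ → Set ℂ := fun i =>
    Z.C.Chn (κ i) (r - i * Z.C.α) (p - i * Z.C.α) (p' - i * Z.C.α) (r' - i * Z.C.α)
  let wl : ℕ → ℂ → ℝ := fun i =>
    Z.C.wl (r - i * Z.C.α) (p - i * Z.C.α) (p' - i * Z.C.α) (r' - i * Z.C.α)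
  have a₁ : ∀ i : ℕ, r - i * Z.C.α < p - i * Z.C.α := fun i => sub_lt_sub_right h₁ _
  have a₂ : ∀ i : ℕ, p - i * Z.C.α ≤ p' - i * Z.C.α := fun i => sub_le_sub_right h₂ _
  have a₃ : ∀ i : ℕ, p' - i * Z.C.α < r' - i * Z.C.α := fun i => sub_lt_sub_right h₃ _
  have a₄ : ∀ i : ℕ, r' - i * Z.C.α < r - i * Z.C.α + 1 := fun i => by linarith only [h₄]
  have y0 : ∀ i, ∀ v ∈ W, 0 ≤ y i v := fun i v hv =>
    add_nonneg (D5_om _ (Finset.mem_filter.1 hv).2 (a₁ i).le)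
      (D5_om _ (Finset.mem_filter.1 hv).2 (a₃ i).le)
  have x0 : ∀ i, 0 ≤ x i := fun i => Finset.sum_nonneg (y0 i)
  have m0 : ∀ i, 0 ≤ min (x i) (1 / 8) := fun i => le_min (x0 i) (by norm_num)
  have κ1 : ∀ i, 1 / 2 < κ i := fun i => by
    simp only [κ]
    linarith only [min_le_right (x i) (1 / 8)]
  have κ2 : ∀ i, 1 / κ i ≤ Real.exp (3 * x i) := fun i => by
    have b := Real.add_one_le_exp (3 * x i)
    have b1 := min_le_left (x i) (1 / 8)
    have b2 := mul_le_mul_of_nonneg_left (min_le_right (x i) (1 / 8)) (m0 i)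
    refine le_trans ?_ (show 3 * min (x i) (1 / 8) + 1 ≤ _ by linarith only [b, b1])
    rw [div_le_iff₀ (one_half_pos.trans (κ1 i))]
    simp only [κ]
    linarith only [b2, m0 i]
  have xs : ∑ i ∈ Finset.range k, x i ≤ μ * Z.C.V.card := by
    rw [Finset.sum_comm]
    refine (Finset.sum_le_card_nsmul _ _ μ fun v hv => ?_).trans ?_
    · have b := (Finset.mem_filter.1 hv).2
      refine (Finset.sum_le_sum fun i _ => ?_).trans (hs v b)
      have c := D5_om _ b (a₂ i)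
      simp only [y, Cf.om] at c ⊢
      linarith only [c]
    · rw [nsmul_eq_mul, mul_comm]
      exact mul_le_mul_of_nonneg_left (Nat.cast_le.2 (Finset.card_filter_le _ _)) hμ
  have hV : ∀ i < k, ∀ z ∈ D i, z ∉ Z.C.V := fun i hi z hz hv' => by
    have b := om_min Z.C hz.1 (a₁ i) (a₂ i) (a₃ i) (a₄ i) (hg.imp (fun e => by rw [e]) fun e => by
      linarith only [e i hi, measureReal_nonneg (μ := Z.K.b) (s := sh Z.C.α
        (arc (r - i * Z.C.α) (p - i * Z.C.α) ×ˢ arc (p' - i * Z.C.α) (r' - i * Z.C.α)))])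
    have c : y i z ≤ min (x i) (1 / 8) :=
      le_min (Finset.single_le_sum (y0 i) (Finset.mem_filter.2 ⟨hv', hz.1⟩))
        (by linarith only [(hv i hi z hv' hz.1).1, (hv i hi z hv' hz.1).2])
    have d := D5_wl Z.C z (r - i * Z.C.α) (p - i * Z.C.α) (p' - i * Z.C.α) (r' - i * Z.C.α)
    have e1 := hz.2.1
    have e2 := hz.2.2
    simp only [κ, y, Cf.wl] at c d e1 e2
    rcases min_le_iff.1 b with b | b <;> linarith only [b, c, d, e1, e2]
  have st := fun i (hi : i < k) => step Z (κ1 i).le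
    (sub_le_self _ (mul_nonneg zero_le_two (m0 i))) (a₁ i) (a₂ i) (a₃ i)
    (by linarith only [h₄]) (hV i hi) (hg.imp (fun e => by rw [e]) fun e => e i hi)
  choose! g g1 g2 g3 g4 using st
  let G : ℕ → ℂ → ℂ := fun i => Nat.rec id (fun i f => g i ∘ f) i
  set κ₀ := Real.exp (-(3 * μ * Z.C.V.card)) / 4 with hκ₀
  have half : ∀ i ≤ k, 2 * κ₀ * Real.exp (3 * ∑ l ∈ Finset.range i, x l) ≤ 1 / 2 := fun i hi => by
    have b : ∑ l ∈ Finset.range i, x l ≤ ∑ l ∈ Finset.range k, x l :=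
      Finset.sum_le_sum_of_subset_of_nonneg (Finset.range_subset_range.2 hi) fun l _ _ => x0 l
    have c : Real.exp (-(3 * μ * Z.C.V.card)) * Real.exp (3 * ∑ l ∈ Finset.range i, x l) ≤ 1 := by
      rw [← Real.exp_add]
      exact Real.exp_le_one_iff.2 (by linarith only [b, xs])
    rw [hκ₀]
    linarith only [c]
  have inD : ∀ i, ∀ w ∈ Z.C.U, wl i w ≤ 1 / 2 → w ∈ D i := fun i w hw h => by
    have b := D5_om _ hw (a₂ i)
    have c := D5_om' _ hw (a₄ i).le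
    simp only [wl, Cf.wl] at h
    exact ⟨hw, by linarith only [h, c, κ1 i], by linarith only [h, b, κ1 i]⟩
  have key : ∀ i ≤ k, DifferentiableOn ℂ (G i) (Z.C.Chn κ₀ r p p' r') ∧
      (∀ z ∈ Z.C.Chn κ₀ r p p' r', G i z ∈ Z.C.U ∧
        wl i (G i z) ≤ 2 * κ₀ * Real.exp (3 * ∑ l ∈ Finset.range i, x l)) ∧
      Z.C.Main (G i) i r p ∧ Z.C.Main (G i) i p' r' := fun i => by
    induction i with
    | zero =>
      refine fun _ => ⟨differentiableOn_id, fun z hz => ⟨hz.1, ?_⟩, fun _ _ => .rfl, fun _ _ => .rfl⟩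
      simp only [wl, Cf.wl, Nat.cast_zero, zero_mul, sub_zero, Finset.range_zero, Finset.sum_empty,
        mul_zero, Real.exp_zero, mul_one]
      exact (add_le_add hz.2.1.le hz.2.2.le).trans (two_mul _).ge
    | succ i ih =>
      intro hi
      obtain ⟨b1, b2, b3, b4⟩ := ih (Nat.le_of_succ_le hi)
      have c : ∀ z ∈ Z.C.Chn κ₀ r p p' r', G i z ∈ D i := fun z hz =>
        inD i _ (b2 z hz).1 ((b2 z hz).2.trans (half i (Nat.le_of_succ_le hi)))
      refine ⟨(g1 i hi).comp b1 c, fun z hz => ?_, D5_main _ b3 (g2 i hi), D5_main _ b4 (g3 i hi)⟩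
      obtain ⟨-, d1, d2⟩ := g4 i hi _ (c z hz)
      simp only [D5_e] at d2
      refine ⟨d1, d2.trans ?_⟩
      rw [Finset.sum_range_succ, mul_add, Real.exp_add, ← mul_assoc, div_eq_mul_one_div]
      exact mul_le_mul (b2 z hz).2 (κ2 i) (one_div_pos.2 (one_half_pos.trans (κ1 i))).le
        (by positivity)
  have fin : ∀ i ≤ k, ∀ z ∈ Z.C.Chn κ₀ r p p' r', wl i (G i z) ≤ 1 / 2 := fun i hi z hz =>
    ((key i hi).2.1 z hz).2.trans (half i hi)
  refine ⟨G, fun _ _ => rfl, fun i hi => (key i hi).1, fun i hi z hz => ((key i hi).2.1 z hz).1,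
    fun i hi z hz => ?_, fun i hi z hz => ?_, (key k le_rfl).2.2.1, (key k le_rfl).2.2.2⟩
  · have c := inD i _ ((key i hi.le).2.1 z hz).1 (fin i hi.le z hz)
    exact ⟨(g4 i hi _ c).1, hV i hi _ c⟩
  · have b := D5_om _ ((key i hi).2.1 z hz).1 (a₂ i)
    have c := fin i hi z hz
    simp only [wl, Cf.wl] at c
    linarith only [b, c]

end Pool.Agent.Work.MP_042f46_an.Fu
end
end

-- merged part: Pool.Agent.Work.MP_042f46_an.F.D6
section
/-!
# The visiting property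

Plan.  `Ĝ x = ξ (G k (ξi x))`, `y l = ξi (s l)`.  If `k = 0` or `m = 0` take `Γ = id`.  Call ball `i` dirty if `ξi w = F^[j] v` for some `w` in it, `v ∈ V`, `j < k m`.
Clean ball: lift `g 0 = ξi` successively (`lift_cvx`): `g (j + 1)` with `F ∘ g (j + 1) = g j` on the ball and `g j (b i) = G (j % k) (ξi (Ĝ^[j / k] (b i)))`; `g j w ∉ V` because `F^[j] (g j w) = ξi w`; `g j w ∈ U` (`C8_U_of_F`); `Γ = ξ ∘ g (k m)`.  On a small ball about `b i` where `Ĝ^[l] w ∈ Dom` for `l < m` the same formula holds for all `w` (`lift_uniq`, induction on `j`).  It may be simpler to prove first: a holomorphic `g : ball → U` that equals `ξi ∘ Ĝ^[l]` near `b i` (`l < m`), with `F^[k l] ∘ g = ξi`, has such a successor for `l + 1`.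
All balls dirty, with data `v i`, `j i`, `w i` and chain `s`: `F^[k] (G k z) = z` on `D`, `ξi (Ĝ x) = G k (ξi x)`, so `y (l + 1) = F^[k] (y l)` and `y l = F^[j + k l] v`.  Take `l ∈ [1, m]`, `d < k` with `j + k l = k m + d`.  Then `Y = F^[k m] v = F^[k - d] (y (l - 1)) = F^[k - d] (G k (y l)) = G d (y l)` and `y l = F^[d] Y`.  So `1 / 2 ≤ om Y (r - d α) (r' - d α)` (`see`); the map `i ↦ (v i, d i)` is injective (the traps are disjoint, `ξ_ξi`), and for each `v` there are at most `2 μ` values of `d` (`hs`).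
-/

open Set Metric Topology Filter MeasureTheory
open scoped ENNReal NNReal

noncomputable section
namespace Pool.Agent.Work.MP_042f46_an.Fu

open Pool.Agent.Work.MP_042f46_an.Ty

theorem D6_U (C : Cf) (j : ℕ) {z : ℂ} (h : C.F^[j] z ∈ C.U) : z ∈ C.U := by
  induction j generalizing z with
  | zero => exact h
  | succ j ih => exact C.C8_U_of_F (ih h)

section
variable {C : Cf} {k : ℕ} {D : Set ℂ} {r p p' r' : ℝ} {G : ℕ → ℂ → ℂ}

theorem D6_down (h : Tow C k D r p p' r' G) {z : ℂ} (hz : z ∈ D) (d i : ℕ) (hi : d + i ≤ k) :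
    C.F^[i] (G (d + i) z) = G d z := by
  induction i with
  | zero => rfl
  | succ i ih =>
    rw [Function.iterate_succ_apply, ← add_assoc, (h.step (d + i) (by omega) z hz).1,
      ih (by omega)]

theorem D6_inner (hD : IsOpen D) (h : Tow C k D r p p' r' G) {b : ℂ} {R : ℝ} (hR : 0 < R)
    {g : ℂ → ℂ} (hg : DifferentiableOn ℂ g (ball b R)) (hb : g b ∈ D)
    (hc : ∀ w ∈ ball b R, ∀ i < k, ∀ v ∈ C.V, C.F^[i] v ≠ g w) (i : ℕ) (hi : i ≤ k) :
    ∃ s : ℂ → ℂ, DifferentiableOn ℂ s (ball b R) ∧ (∀ w ∈ ball b R, C.F^[i] (s w) = g w) ∧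
      ∀ᶠ w in 𝓝 b, s w = G i (g w) := by
  have h0 : ∀ᶠ w in 𝓝 b, g w ∈ D :=
    (hg.continuousOn.continuousAt (ball_mem_nhds b hR)).eventually (hD.mem_nhds hb)
  induction i with
  | zero => exact ⟨g, hg, fun _ _ => rfl, h0.mono fun w hw => (h.zero _ hw).symm⟩
  | succ i ih =>
    obtain ⟨s, s1, s2, s3⟩ := ih (by omega)
    have hV : ∀ w ∈ ball b R, s w ∉ C.V := fun w hw e => hc w hw i (by omega) _ e (s2 w hw)
    obtain ⟨t, t1, t2, t3⟩ := lift_cvx C isOpen_ball (convex_ball b R) s1 hV (mem_ball_self hR)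
      (z₀ := G (i + 1) (g b)) ((h.step i (by omega) _ hb).1.trans s3.self_of_nhds.symm)
    refine ⟨t, t1, fun w hw => by rw [Function.iterate_succ_apply, t3 w hw, s2 w hw], ?_⟩
    obtain ⟨δ, δ0, hδ⟩ := Metric.eventually_nhds_iff_ball.1
      (h0.and (s3.and (isOpen_ball.eventually_mem (mem_ball_self hR))))
    have hs : ball b δ ⊆ ball b R := fun w hw => (hδ w hw).2.2
    refine eventually_of_mem (ball_mem_nhds b δ0) (lift_uniq C.cov (convex_ball b δ).isPreconnected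
      (g' := fun w => G (i + 1) (g w)) (t1.continuousOn.mono hs)
      ((h.diff (i + 1) hi).continuousOn.comp (hg.continuousOn.mono hs) fun w hw => (hδ w hw).1)
      (fun w hw => ?_) (fun w hw => ?_) (mem_ball_self δ0) t2)
    · rw [t3 w (hs hw)]
      exact hV w (hs hw)
    · rw [t3 w (hs hw), (hδ w hw).2.1, (h.step i (by omega) _ (hδ w hw).1).1]

theorem D6_outer (c : ℝ) (hD : IsOpen D) (h : Tow C k D r p p' r' G) {b : ℂ} {R : ℝ} (hR : 0 < R)
    (hB : ∀ w ∈ ball b R, 0 < w.im) {m : ℕ}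
    (hb : ∀ l < m, C.ξi c ((fun x => C.ξ c (G k (C.ξi c x)))^[l] b) ∈ D)
    (hc : ∀ w ∈ ball b R, ∀ j < k * m, ∀ v ∈ C.V, C.F^[j] v ≠ C.ξi c w) (l : ℕ) (hl : l ≤ m) :
    ∃ g : ℂ → ℂ, DifferentiableOn ℂ g (ball b R) ∧
      (∀ w ∈ ball b R, C.F^[k * l] (g w) = C.ξi c w) ∧
      ∀ᶠ w in 𝓝 b, C.ξ c (g w) = (fun x => C.ξ c (G k (C.ξi c x)))^[l] w := by
  have h0 : ∀ᶠ w in 𝓝 b, w ∈ ball b R := ball_mem_nhds b hR
  induction l with
  | zero =>
    exact ⟨C.ξi c, (ξi_diff C c).mono fun w hw => mem_Nξ C (hB w hw).le, fun _ _ => rfl,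
      h0.mono fun w hw => ξ_ξi C c (mem_Nξ C (hB w hw).le)⟩
  | succ l ih =>
    obtain ⟨g, g1, g2, g3⟩ := ih (by omega)
    have g4 : ∀ᶠ w in 𝓝 b, g w = C.ξi c ((fun x => C.ξ c (G k (C.ξi c x)))^[l] w) := by
      filter_upwards [h0, g3] with w hw e
      rw [← e, ξi_ξ C c (U_sub_Oξ C c (D6_U C (k * l) ?_))]
      rw [g2 w hw]
      exact (ξi_U C c (mem_Nξ C (hB w hw).le)).2 (hB w hw)
    obtain ⟨s, s1, s2, s3⟩ := D6_inner hD h hR g1 (g4.self_of_nhds ▸ hb l hl)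
      (fun w hw i hi v hv e => hc w hw (k * l + i)
        (lt_of_lt_of_le (Nat.add_lt_add_left hi _) (Nat.mul_le_mul_left k hl)) v hv
        (by rw [Function.iterate_add_apply, e, g2 w hw])) k le_rfl
    refine ⟨s, s1, fun w hw => ?_, ?_⟩
    · rw [Nat.mul_succ, Function.iterate_add_apply, s2 w hw, g2 w hw]
    · filter_upwards [s3, g4] with w e1 e2
      rw [Function.iterate_succ_apply', e1, e2]

theorem D6_dirty (c : ℝ) (h : Tow C k D r p p' r' G) {m j : ℕ} (hj : j < k * m) {v : ℂ}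
    {s : ℕ → ℂ} (h0 : C.F^[j] v = C.ξi c (s 0)) (h1 : ∀ l ≤ m + 1, C.ξi c (s l) ∈ D)
    (h2 : ∀ l ≤ m, C.ξ c (G k (C.ξi c (s (l + 1)))) = s l) :
    ∃ d < k, ∃ l ≤ m + 1, C.ξi c (s l) = C.F^[d] (C.F^[k * m] v) ∧ C.F^[k * m] v ∈ C.U ∧
      1 / 2 ≤ C.om (C.F^[k * m] v) (r - d * C.α) (r' - d * C.α) := by
  have k0 : 0 < k := Nat.pos_of_ne_zero fun e => by simp [e] at hj
  have e1 : ∀ l ≤ m, C.ξi c (s l) = G k (C.ξi c (s (l + 1))) := fun l hl => by
    rw [← h2 l hl, ξi_ξ C c (U_sub_Oξ C c (h.mem k le_rfl _ (h1 (l + 1) (by omega))))]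
  have e2 : ∀ l ≤ m + 1, C.ξi c (s l) = C.F^[k * l + j] v := by
    intro l hl
    induction l with
    | zero => simpa using h0.symm
    | succ l ih =>
      have e := D6_down h (h1 (l + 1) hl) 0 k (by omega)
      rw [zero_add, h.zero _ (h1 (l + 1) hl), ← e1 l (by omega), ih (by omega),
        ← Function.iterate_add_apply] at e
      rw [← e]
      congr 1
      ring
  obtain ⟨l, hl⟩ := Nat.exists_eq_add_of_lt (Nat.div_lt_of_lt_mul hj)
  have hd := Nat.mod_lt j k0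
  have e3 := Nat.div_add_mod j k
  generalize j / k = a at hl e3
  generalize j % k = d at hd e3
  obtain ⟨i, hi⟩ := Nat.exists_eq_add_of_le hd.le
  have hz := h1 (l + 1) (by omega)
  have e4 : C.F^[k * m] v = G d (C.ξi c (s (l + 1))) := by
    rw [← D6_down h hz d i hi.ge, ← hi, ← e1 l (by omega), e2 l (by omega),
      ← Function.iterate_add_apply]
    congr 1
    rw [hl, ← e3]
    linear_combination hi
  refine ⟨d, hd, l + 1, by omega, ?_, e4 ▸ h.mem d hd.le _ hz, e4 ▸ h.see d hd.le _ hz⟩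
  rw [e2 (l + 1) (by omega), ← Function.iterate_add_apply]
  congr 1
  rw [hl, ← e3]
  ring

end

theorem visit (C : Cf) (c : ℝ) {k n : ℕ} {D : Set ℂ} (hD : IsOpen D) (hU : D ⊆ C.U)
    {r p p' r' μ : ℝ} {G : ℕ → ℂ → ℂ} (h : Tow C k D r p p' r' G) (hr : r ≤ r')
    (hs : ∀ z ∈ C.U, ∑ i ∈ Finset.range k, C.om z (r - i * C.α) (r' - i * C.α) ≤ μ)
    (hn : 2 * μ * C.V.card ≤ n) :
    Loc n {x | 0 < x.im ∧ C.ξi c x ∈ D} fun x => C.ξ c (G k (C.ξi c x)) := by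
  classical
  have hN : ∀ x ∈ {x : ℂ | 0 < x.im ∧ C.ξi c x ∈ D}, x ∈ C.Nξ := fun x hx => mem_Nξ C hx.1.le
  refine ⟨?_, fun z hz => hz.1, ?_, fun m b R Tr t1 t2 t3 t4 t5 => ?_⟩
  · exact ((ξi_diff C c).continuousOn.mono fun x (hx : 0 < x.im) =>
      mem_Nξ C hx.le).isOpen_inter_preimage (isOpen_lt continuous_const Complex.continuous_im) hD
  · exact (ξ_diff C c).comp ((h.diff k le_rfl).comp ((ξi_diff C c).mono hN) fun x hx => hx.2)
      fun x hx => U_sub_Oξ C c (h.mem k le_rfl _ hx.2)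
  by_cases hc : ∃ i, ∀ w ∈ ball (b i) (R i), ∀ j < k * m, ∀ v ∈ C.V, C.F^[j] v ≠ C.ξi c w
  · obtain ⟨i, hi⟩ := hc
    have hB : ∀ w ∈ ball (b i) (R i), 0 < w.im := fun w hw => by
      obtain ⟨s, s0, s1, -⟩ := t4 i w hw
      exact s0 ▸ (t2 i (s1 0 (Nat.zero_le _))).1
    obtain ⟨g, g1, g2, g3⟩ := D6_outer c hD h (t3 i) hB (fun l hl => (t5 i l hl).2) hi m le_rfl
    have g4 : ∀ w ∈ ball (b i) (R i), g w ∈ C.U := fun w hw =>
      D6_U C (k * m) (g2 w hw ▸ (ξi_U C c (mem_Nξ C (hB w hw).le)).2 (hB w hw))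
    exact ⟨i, fun w => C.ξ c (g w), (ξ_diff C c).comp g1 fun w hw => U_sub_Oξ C c (g4 w hw),
      fun w hw => ξ_im C c (g4 w hw), g3⟩
  exfalso
  have key : ∀ i, ∃ q ∈ C.V ×ˢ Finset.range k, ∃ x ∈ Tr i,
      C.ξi c x = C.F^[q.2] (C.F^[k * m] q.1) ∧ C.F^[k * m] q.1 ∈ C.U ∧
        1 / 2 ≤ C.om (C.F^[k * m] q.1) (r - q.2 * C.α) (r' - q.2 * C.α) := by
    intro i
    by_contra hi
    refine hc ⟨i, fun w hw j hj v hv e => hi ?_⟩
    obtain ⟨s, s0, s1, s2⟩ := t4 i w hw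
    obtain ⟨d, hd, l, hl, e⟩ := D6_dirty c h hj (s := s) (s0 ▸ e) (fun l hl => (t2 i (s1 l hl)).2) s2
    exact ⟨(v, d), Finset.mem_product.2 ⟨hv, Finset.mem_range.2 hd⟩, s l, s1 l hl, e⟩
  choose q q1 x x1 x2 x3 x4 using key
  have hq : Function.Injective q := fun i j e => by
    by_contra hij
    have e2 : x i = x j := by
      rw [← ξ_ξi C c (hN _ (t2 i (x1 i))), x2 i, e, ← x2 j, ξ_ξi C c (hN _ (t2 j (x1 j)))]
    exact Set.disjoint_left.1 (t1 hij) (x1 i) (e2 ▸ x1 j)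
  have o0 : ∀ z ∈ C.U, ∀ d : ℕ, 0 ≤ C.om z (r - d * C.α) (r' - d * C.α) := fun z hz d =>
    sub_nonneg.2 ((Th_mono C hz).monotone (sub_le_sub_right hr _))
  have μ0 : 0 ≤ μ := (Finset.sum_nonneg fun d _ => o0 _ (x3 0) d).trans (hs _ (x3 0))
  obtain ⟨f, hf⟩ : ∃ f : ℂ × ℕ → ℝ, f = fun q => if C.F^[k * m] q.1 ∈ C.U then
    C.om (C.F^[k * m] q.1) (r - q.2 * C.α) (r' - q.2 * C.α) else 0 := ⟨_, rfl⟩
  have a1 : ∑ _i : Fin (n + 1), (1 / 2 : ℝ) ≤ ∑ i, f (q i) :=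
    Finset.sum_le_sum fun i _ => by simpa only [hf, if_pos (x3 i)] using x4 i
  have a2 : ∑ i, f (q i) ≤ ∑ y ∈ C.V ×ˢ Finset.range k, f y := by
    rw [← Finset.sum_image hq.injOn]
    refine Finset.sum_le_sum_of_subset_of_nonneg (Finset.image_subset_iff.2 fun i _ => q1 i)
      fun y _ _ => ?_
    rw [hf]
    exact dite_nonneg (fun e => o0 _ e _) fun _ => le_rfl
  have a3 : ∑ y ∈ C.V ×ˢ Finset.range k, f y ≤ C.V.card • μ := by
    rw [Finset.sum_product]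
    refine Finset.sum_le_card_nsmul _ _ _ fun v _ => ?_
    by_cases e : C.F^[k * m] v ∈ C.U
    · simpa only [hf, if_pos e] using hs _ e
    · simpa only [hf, if_neg e, Finset.sum_const_zero] using μ0
  rw [Finset.sum_const, Finset.card_univ, Fintype.card_fin, nsmul_eq_mul, Nat.cast_succ] at a1
  rw [nsmul_eq_mul] at a3
  linarith

end Pool.Agent.Work.MP_042f46_an.Fu
end
end

-- merged part: Pool.Agent.Work.MP_042f46_an.F.D7
section
/-!
# Symmetric branches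

Plan.  `visit`, `Loc.mono` to `O ∩ {0 < im}`, `refl`.  At a real point `x ∈ O` put `G₀ = ξ ∘ mb^[k] ∘ ξi`: `ξi x = γ (c + ι x) ∈ Ω`, `mb` is holomorphic on the open set `Ω` and maps it to itself, `mb^[k] (γ t) = γ (t - k α)` (`mb_γ`), `γ (c + ι x + d) ∈ Oξ`; `ξi` sends `𝓝[0 < im] x` to `𝓝[U] (γ (c + ι x))`; `G₀ y = σ (ι y + d)` for real `y` near `x` (`ξi_real`, `ξ_γ`, continuity of `ι`).
-/

open Set Metric Topology Filter MeasureTheory
open scoped ENNReal NNReal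

noncomputable section
namespace Pool.Agent.Work.MP_042f46_an.Fu

open Pool.Agent.Work.MP_042f46_an.Ty

theorem D7_mb_diff (C : Cf) : DifferentiableOn ℂ C.mb C.Ω :=
  C.φ_diff.comp ((differentiableOn_const _).mul C.φi_diff) fun _ h => Cf.C1_rot (C.φi_gt h) _

theorem D7_iter_diff (C : Cf) (k : ℕ) : DifferentiableOn ℂ C.mb^[k] C.Ω :=
  (D7_mb_diff C).iterate (fun _ h => C.mb_Ω h) k

theorem D7_γ (C : Cf) (k : ℕ) (t : ℝ) :
    C.mb^[k] (C.γ (t : T)) = C.γ ((t - k * C.α : ℝ) : T) := by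
  induction k with
  | zero => simp
  | succ k ih =>
    have e : t - k * C.α = t - (k + 1 : ℕ) * C.α + C.α := by
      push_cast
      ring
    rw [Function.iterate_succ_apply', ih, e, AddCircle.coe_add, C.mb_γ]

theorem tow_br (C : Cf) (c : ℝ) {X : Ch} (hX : C.IsCh c X) {k n : ℕ} {D : Set ℂ} (hD : IsOpen D)
    (hU : D ⊆ C.U) {r p p' r' μ d : ℝ} {G : ℕ → ℂ → ℂ} (h : Tow C k D r p p' r' G) (hr : r ≤ r')
    (hs : ∀ z ∈ C.U, ∑ i ∈ Finset.range k, C.om z (r - i * C.α) (r' - i * C.α) ≤ μ)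
    (hn : 2 * μ * C.V.card ≤ n) (hd : (d : T) = ((-(k * C.α) : ℝ) : T)) {O : Set ℂ} (hO : IsOpen O)
    (hsym : ∀ z ∈ O, starRingEnd ℂ z ∈ O) (hup : ∀ x ∈ O, 0 < x.im → C.ξi c x ∈ D)
    (hre : ∀ x : ℝ, (x : ℂ) ∈ O → (c + X.ι x ∈ Ioo r p ∨ c + X.ι x ∈ Ioo p' r') ∧
      X.ι x + d ∈ Ioo (-(1 / 2) : ℝ) (1 / 2)) :
    ∃ G', Br n O G' (X.g d) := by
  have hL := (visit C c hD hU h hr hs hn).mono le_rfl
    (hO.inter (isOpen_lt continuous_const Complex.continuous_im))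
    fun z hz => ⟨hz.2, hup z hz.1 hz.2⟩
  have e1 : ∀ y : ℝ, C.ξi c y = C.γ ((c + X.ι y : ℝ) : T) := fun y => by
    rw [hX.1]
    exact ξi_real C c y
  have e2 : ∀ y : ℝ, C.mb^[k] (C.ξi c y) = C.γ ((c + (X.ι y + d) : ℝ) : T) := fun y => by
    rw [e1, D7_γ, sub_eq_add_neg, AddCircle.coe_add, ← hd, ← AddCircle.coe_add, add_assoc]
  refine refl hO hsym hL (fun z h1 h2 => ξ_im C c (h.mem k le_rfl _ (hup z h1 h2))) fun x hx => ?_
  have a1 : AnalyticAt ℂ (C.ξi c) x :=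
    (ξi_diff C c).analyticAt ((isOpen_Nξ C).mem_nhds (mem_Nξ C (by simp)))
  have a2 : AnalyticAt ℂ C.mb^[k] (C.ξi c x) :=
    (D7_iter_diff C k).analyticAt (C.isOpen_Ω.mem_nhds (by rw [e1]; exact C.γ_Ω _))
  have a3 : AnalyticAt ℂ (C.ξ c) (C.mb^[k] (C.ξi c x)) :=
    (ξ_diff C c).analyticAt ((isOpen_Oξ C c).mem_nhds (by
      rw [e2]; exact γ_mem_Oξ C c (hre x hx).2))
  refine ⟨fun z => C.ξ c (C.mb^[k] (C.ξi c z)),
    AnalyticAt.comp (f := fun z => C.mb^[k] (C.ξi c z)) a3 (a2.comp a1), ?_, ?_⟩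
  · have h1 : G k =ᶠ[𝓝[C.U] (C.ξi c x)] C.mb^[k] := by
      rw [e1]
      exact (hre x hx).1.elim (h.main _) (h.main' _)
    have h2 : Tendsto (C.ξi c) (𝓝[{z | 0 < z.im}] (x : ℂ)) (𝓝[C.U] (C.ξi c x)) :=
      tendsto_nhdsWithin_of_tendsto_nhds_of_eventually_within _
        (a1.continuousAt.tendsto.mono_left nhdsWithin_le_nhds)
        (eventually_nhdsWithin_of_forall fun z hz => (ξi_U C c (mem_Nξ C (le_of_lt hz))).2 hz)
    filter_upwards [h2.eventually h1] with z hz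
    rw [hz]
  · filter_upwards [(Complex.continuous_ofReal.tendsto x).eventually (hO.mem_nhds hx)] with y hy
    rw [e2, ξ_γ C c (hre y hy).2, Ch.g, hX.2]

end Pool.Agent.Work.MP_042f46_an.Fu
end
end

-- merged part: Pool.Agent.Work.MP_042f46_an.F.D9
section
/-!
# The complex description of a level

Plan.  `Θ = θ j`, `θ = θ (j + 1)`, `q = q (j + 1)`, `k = 2 q`, `μ = 170` (`rot_mult`), `card V ≤ N`, `κ₀ = exp (-510 card V) / 4 ≥ exp (-510 N) / 4`; `A ≥ 3 / κ₀`, `340 N`, `1000 (16 N + 1)`, `2400`.  `ε = -sign` of `A3_sign`, so `↑(2 ε θ) = ↑(-(k α))`.  `j ≥ 1` because `θ 0 = 1`.  `M` from `exists_marks`; `E` = the reals `e` with `|e| ≤ ρ₀ + 150 Θ` and `↑(c + e) = m + ↑(i α)`, `m ∈ M`, `i ≤ k` (finite: `e ↦ ↑(c + e)` is injective on that interval).  `E_dense`: `dense`.  `E_card`: `count` for each mark and each of three blocks of indices.  `cmp`, `Kb`, `sh` (`i = 1`), `tr` (`dense` at `↑(t₀ - t₁) = ↑(i α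 + τ)`, `ς = t₁ - t₀ + τ`) from `D8` and `rep`.  An open interval `(a, b)` within `ρ₀ + 150 Θ` without point of `E` gives `om v (c + a - i α) (c + b - i α) ≤ 1 / 16` for `i < k`.
`lens`: `ρ = r E x > 0`; `a = ι (x - ρ)`, `b = ι (x + ρ)` have no point of `E` between them and are within `2 Θ` of `ι x` (`E_dense`); `iter` with `r = c + a`, `p = p' = c + ι (x + ρ / 2)`, `r' = c + b`; `om_ang`, `ang_big`; `tow_br`.
`chan`: `r, p, p', r' = c + ι (σ e - s₂), c + ι (σ e - s₁), c + ι (σ e + s₁), c + ι (σ e + s₂)`; `p' - p ≥ 8 θ`, `r' - r ≤ 80 Θ`.  `H (walls) = log ((s₁ + s₂) ^ 2 / (4 s₁ s₂)) ≥ A V - 2` (`Rep.rect`, `H_rect`).  The walls moved by at most `θ` form a rectangle inside `SS univ (2 θ) (2 θ (j - 12))`; `QI` with `R = 80` once (`i ≤ q`) or twice (`sh_sh`, `sh (q α)` of the rectangle is the rectangle moved by `θ`) changes the mass by at most `2200 V`; `b ≤ J (j - 12) (j + 1) ≤ 13 V`.  `iter`, `ang_small`,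 `ang_big`, `tow_br`.
-/

open Set Metric Topology Filter MeasureTheory
open scoped ENNReal NNReal

noncomputable section
namespace Pool.Agent.Work.MP_042f46_an.Fu

open Pool.Agent.Work.MP_042f46_an.Ty

theorem D9_inj (c : ℝ) {e e' : ℝ} (h : |e| ≤ 1 / 4) (h' : |e'| ≤ 1 / 4)
    (k : ((c + e : ℝ) : T) = ((c + e' : ℝ) : T)) : e = e' := by
  have h1 : |c + e - (c + e')| ≤ 1 / 2 := by
    rw [abs_le] at h h' ⊢
    constructor <;> linarith only [h.1, h.2, h'.1, h'.2]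
  have h2 := le_dist_coe (s := c + e) (t := c + e') le_rfl (by linarith only [h1])
  rw [k, dist_self, abs_nonpos_iff] at h2
  linarith only [h2]

theorem D9_E {α : ℝ} (Λ : Lev α) (n : ℕ) (c : ℝ) {ρ : ℝ} (hρ : ρ ≤ 1 / 4) {M : Finset T}
    (hM : M.Nonempty) : ∃ E : Finset ℝ, (∀ e ∈ E, |e| ≤ ρ) ∧
      (∀ t, |t| + 2 * Λ.θ (n + 1) ≤ ρ → ∃ e ∈ E, t - 2 * Λ.θ (n + 1) ≤ e ∧ e ≤ t) ∧
      (∀ t, ((E.filter fun e => |e - t| ≤ 100 * Λ.θ (n + 1)).card : ℝ) ≤ 406 * M.card) ∧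
      ∀ e, |e| ≤ ρ → ∀ i < 2 * Λ.q (n + 2), ((c + e - i * α : ℝ) : T) ∈ M → e ∈ E := by
  classical
  have hθ := Λ.θ_pos (n + 1)
  obtain ⟨F, hF⟩ : ∃ F : Finset T, F = (M ×ˢ Finset.range 2).biUnion fun p =>
      (Finset.range (Λ.q (n + 2))).image fun i : ℕ =>
        p.1 + (((p.2 : ℝ) * Λ.q (n + 2) * α : ℝ) : T) + (((i : ℝ) * α : ℝ) : T) := ⟨_, rfl⟩
  have fin : {e : ℝ | |e| ≤ ρ ∧ ((c + e : ℝ) : T) ∈ F}.Finite :=
    Set.Finite.of_injOn (f := fun e : ℝ => ((c + e : ℝ) : T)) (fun e he => he.2)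
      (fun e he e' he' k => D9_inj c (he.1.trans hρ) (he'.1.trans hρ) k) F.finite_toSet
  have key : ∀ e, |e| ≤ ρ → ∀ i < 2 * Λ.q (n + 2), ((c + e - i * α : ℝ) : T) ∈ M →
      e ∈ fin.toFinset := by
    intro e he i hi hm
    refine fin.mem_toFinset.2 ⟨he, ?_⟩
    rw [hF]
    rcases lt_or_ge i (Λ.q (n + 2)) with k | k
    · refine Finset.mem_biUnion.2 ⟨(((c + e - i * α : ℝ) : T), 0),
        Finset.mem_product.2 ⟨hm, by simp⟩,
        Finset.mem_image.2 ⟨i, Finset.mem_range.2 k, ?_⟩⟩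
      simp only [← AddCircle.coe_add]
      congr 1
      push_cast
      ring
    · obtain ⟨i', rfl⟩ := Nat.exists_eq_add_of_le k
      refine Finset.mem_biUnion.2 ⟨(((c + e - (Λ.q (n + 2) + i' : ℕ) * α : ℝ) : T), 1),
        Finset.mem_product.2 ⟨hm, by simp⟩,
        Finset.mem_image.2 ⟨i', Finset.mem_range.2 (by omega), ?_⟩⟩
      simp only [← AddCircle.coe_add]
      congr 1
      push_cast
      ring
  refine ⟨fin.toFinset, fun e he => (fin.mem_toFinset.1 he).1, fun t ht => ?_, fun t => ?_, key⟩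
  · obtain ⟨m, hm⟩ := hM
    obtain ⟨i, hi, τ, hτ, e⟩ := Λ.dense n (((c + t : ℝ) : T) - m)
    refine ⟨t - τ, key _ ?_ i (by omega) ?_, by linarith only [hτ.2], by linarith only [hτ.1]⟩
    · refine (abs_sub _ _).trans ?_
      rw [abs_of_nonneg hτ.1]
      linarith only [ht, hτ.2]
    · rw [show c + (t - τ) - i * α = c + t - (i * α + τ) by ring, AddCircle.coe_sub, ← e,
        sub_sub_cancel]
      exact hm
  · have h1 : (fin.toFinset.filter fun e => |e - t| ≤ 100 * Λ.θ (n + 1)).card ≤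
        (F.filter fun x => x ∈ ball ((c + t : ℝ) : T) (101 * Λ.θ (n + 1))).card := by
      refine Finset.card_le_card_of_injOn (fun e : ℝ => ((c + e : ℝ) : T)) (fun e he => ?_)
        fun e he e' he' k => ?_
      · obtain ⟨k1, k2⟩ := Finset.mem_filter.1 he
        refine Finset.mem_filter.2 ⟨(fin.mem_toFinset.1 k1).2, (dist_coe_le _ _).trans_lt ?_⟩
        rw [add_sub_add_left_eq_sub]
        linarith only [k2, hθ]
      · exact D9_inj c ((fin.mem_toFinset.1 (Finset.mem_filter.1 he).1).1.trans hρ)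
          ((fin.mem_toFinset.1 (Finset.mem_filter.1 he').1).1.trans hρ) k
    refine (Nat.cast_le.2 h1).trans ?_
    rw [hF, Finset.filter_biUnion]
    refine (Nat.cast_le.2 Finset.card_biUnion_le).trans ?_
    rw [Nat.cast_sum]
    refine (Finset.sum_le_card_nsmul _ _ (203 : ℝ) fun p _ => ?_).trans (le_of_eq ?_)
    · rw [Finset.filter_image]
      refine (Nat.cast_le.2 Finset.card_image_le).trans ((Λ.count (n + 1) _
        (p.1 + (((p.2 : ℝ) * Λ.q (n + 2) * α : ℝ) : T)) ((c + t : ℝ) : T)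
        (R := 101 * Λ.θ (n + 1)) (by positivity) fun i hi => ?_).trans (le_of_eq ?_))
      · exact ⟨Finset.mem_range.1 (Finset.mem_filter.1 hi).1, (Finset.mem_filter.1 hi).2⟩
      · field_simp
        norm_num
    · rw [Finset.card_product, Finset.card_range, nsmul_eq_mul]
      push_cast
      ring

theorem D9_sub {α : ℝ} (Λ : Lev α) (j : ℕ) (hj : 300 * Λ.θ j ≤ 1 / 4) {r p p' r' : ℝ}
    (h₁ : 2 * Λ.θ (j + 1) ≤ p' - p) (h₂ : r' - r ≤ 80 * Λ.θ j) :
    arc r p ×ˢ arc p' r' ⊆ SS univ (2 * Λ.θ (j + 1)) (2 * Λ.θ (j - 12)) := by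
  rintro ⟨_, _⟩ ⟨⟨s, hs, rfl⟩, ⟨t, ht, rfl⟩⟩
  have h3 := Λ.θ_pos (j + 1)
  have h4 : Λ.θ (j + 1) ≤ Λ.θ j := Λ.θ_anti j.le_succ
  have h5 : |s - t| = t - s := by
    rw [abs_sub_comm, abs_of_nonneg (by linarith only [h₁, h3, hs.2, ht.1])]
  refine ⟨mem_univ _, le_dist_coe (by linarith only [h5, h₁, hs.2, ht.1])
    (by linarith only [h5, h₂, h4, hj, hs.1, ht.2]), (dist_coe_le s t).trans_lt ?_⟩
  rcases le_total 12 j with k | k
  · have h6 := Λ.θ_pow (j - 12) 6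
    rw [show j - 12 + 2 * 6 = j by omega] at h6
    linarith only [h5, h₂, h3, h4, h6, hs.1, ht.2]
  · rw [Nat.sub_eq_zero_of_le k, Λ.θ_zero]
    linarith only [h5, h₂, hj, hs.1, ht.2]

theorem D9_lev (j : ℕ) : (j : ℝ) + 1 - ((j - 12 : ℕ) : ℝ) ≤ 13 := by
  have h : j + 1 ≤ 13 + (j - 12) := by omega
  have h' : ((j + 1 : ℕ) : ℝ) ≤ ((13 + (j - 12) : ℕ) : ℝ) := Nat.cast_le.2 h
  rw [Nat.cast_add, Nat.cast_add] at h'
  push_cast at h'
  linarith only [h']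

theorem D9_qi {α : ℝ} {N : ℕ} (σ : Sys α N) {V : ℝ} (hV : Bd σ V) (j : ℕ)
    (hj : 300 * σ.θ j ≤ 1 / 4) {r p p' r' : ℝ} (h₀ : p' ≤ r') (h₁ : 2 * σ.θ (j + 1) ≤ p' - p)
    (h₂ : r' - r ≤ 80 * σ.θ j) {i : ℕ} (hi : i ≤ σ.q (j + 1)) :
    σ.H.real (arc r p ×ˢ arc p' r') - 1087 * V ≤
      σ.H.real (arc (r - i * α) (p - i * α) ×ˢ arc (p' - i * α) (r' - i * α)) := by
  have h3 := σ.θ_pos (j + 1)
  have h4 := QI σ hV (Nat.sub_le j 12) hi (a := r) (a' := p) (R := 80) p' r' (by norm_num)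
    (by linarith only [h₀, h₁, h₂, h3])
  rw [inter_eq_left.2 (D9_sub σ.toLev j hj h₁ h₂), E1_sh_rect] at h4
  have h5 := mul_le_mul_of_nonneg_right (D9_lev j) (zero_le_one.trans hV.one_le)
  linarith only [h5, (abs_le.1 h4).1]

theorem D9_gap {α : ℝ} {N : ℕ} (σ : Sys α N) {V : ℝ} (hV : Bd σ V) (j : ℕ)
    (hj : 300 * σ.θ j ≤ 1 / 4) {r p p' r' : ℝ} (h₀ : p' ≤ r') (h₁ : 2 * σ.θ (j + 1) ≤ p' - p)
    (h₂ : r' - r ≤ 80 * σ.θ j) (h : 2300 * V ≤ σ.H.real (arc r p ×ˢ arc p' r')) {i : ℕ}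
    (hi : i < 2 * σ.q (j + 1)) :
    σ.b.real (sh α (arc (r - i * α) (p - i * α) ×ˢ arc (p' - i * α) (r' - i * α))) + 50 <
      σ.H.real (arc (r - i * α) (p - i * α) ×ˢ arc (p' - i * α) (r' - i * α)) := by
  have h3 := hV.one_le
  have h4 : σ.b.real (sh α (arc (r - i * α) (p - i * α) ×ˢ arc (p' - i * α) (r' - i * α))) ≤
      σ.J (j - 12) (j + 1) := by
    rw [E1_sh_rect]
    exact measureReal_mono
      (D9_sub σ.toLev j hj (by linarith only [h₁]) (by linarith only [h₂]))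
  have h5 := E1_J σ hV (show j - 12 ≤ j + 1 by omega)
  rw [Nat.cast_add, Nat.cast_one] at h5
  have h6 := mul_le_mul_of_nonneg_right (D9_lev j) (zero_le_one.trans h3)
  rcases le_total i (σ.q (j + 1)) with k | k
  · linarith only [h, h3, h4, h5, h6, D9_qi σ hV j hj h₀ h₁ h₂ k]
  · obtain ⟨i', rfl⟩ := Nat.exists_eq_add_of_le k
    have h7 := D9_qi σ hV j hj h₀ h₁ h₂ le_rfl
    have h8 := D9_qi σ hV j hj (r := r - σ.q (j + 1) * α) (p := p - σ.q (j + 1) * α)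
      (p' := p' - σ.q (j + 1) * α) (r' := r' - σ.q (j + 1) * α) (i := i') (by linarith only [h₀])
      (by linarith only [h₁]) (by linarith only [h₂]) (by omega)
    simp only [sub_sub, ← add_mul, ← Nat.cast_add] at h8
    linarith only [h, h3, h4, h5, h6, h7, h8]

theorem D9_br (Z : Ctx) (c : ℝ) {X : Ch} (hX : Z.C.IsCh c X) (j : ℕ) (hj : 300 * Z.Λ.θ j ≤ 1 / 4)
    {A : ℕ} (hA : 340 * (Z.C.V.card : ℝ) ≤ A)
    (hA' : 2 / (A : ℝ) < Real.exp (-(3 * 170 * Z.C.V.card)) / 4) {d y₁ y₂ y₃ y₄ : ℝ}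
    (hd : (d : T) = ((-((2 * Z.Λ.q (j + 1) : ℕ) * Z.C.α) : ℝ) : T)) (h₁ : y₁ < y₂) (h₂ : y₂ ≤ y₃)
    (h₃ : y₃ < y₄) (hl : X.ι y₄ - X.ι y₁ ≤ 80 * Z.Λ.θ j) (hd₁ : -(1 / 2) ≤ X.ι y₁ + d)
    (hd₂ : X.ι y₄ + d ≤ 1 / 2)
    (hv : ∀ i < 2 * Z.Λ.q (j + 1), ∀ v ∈ Z.C.V, v ∈ Z.C.U →
      Z.C.om v (c + X.ι y₁ - i * Z.C.α) (c + X.ι y₂ - i * Z.C.α) ≤ 1 / 16 ∧
      Z.C.om v (c + X.ι y₃ - i * Z.C.α) (c + X.ι y₄ - i * Z.C.α) ≤ 1 / 16)
    (hg : c + X.ι y₂ = c + X.ι y₃ ∨ ∀ i < 2 * Z.Λ.q (j + 1),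
      Z.K.b.real (sh Z.C.α (arc (c + X.ι y₁ - i * Z.C.α) (c + X.ι y₂ - i * Z.C.α) ×ˢ
        arc (c + X.ι y₃ - i * Z.C.α) (c + X.ι y₄ - i * Z.C.α))) + 50 <
      Z.C.H.real (arc (c + X.ι y₁ - i * Z.C.α) (c + X.ι y₂ - i * Z.C.α) ×ˢ
        arc (c + X.ι y₃ - i * Z.C.α) (c + X.ι y₄ - i * Z.C.α)))
    {O : Set ℂ} (hO : IsOpen O) (hsym : ∀ z ∈ O, starRingEnd ℂ z ∈ O)
    (hup : ∀ w ∈ O, 0 < w.im → ang w y₂ y₃ ≤ 2 / A ∧ 1 - ang w y₁ y₄ ≤ 2 / A)
    (hre : ∀ y : ℝ, (y : ℂ) ∈ O → y ∈ Ioo y₁ y₂ ∨ y ∈ Ioo y₃ y₄) : ∃ G, Br A O G (X.g d) := by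
  have k₁ := X.ι_mono h₁
  have k₂ := X.ι_mono.monotone h₂
  have k₃ := X.ι_mono h₃
  have hr : c + X.ι y₁ ≤ c + X.ι y₄ := by linarith only [k₁, k₂, k₃]
  have hs : ∀ z ∈ Z.C.U, ∑ i ∈ Finset.range (2 * Z.Λ.q (j + 1)),
      Z.C.om z (c + X.ι y₁ - i * Z.C.α) (c + X.ι y₄ - i * Z.C.α) ≤ 170 := fun z hz =>
    rot_mult Z.C Z.Λ j hz hr (by linarith only [hl]) (by linarith only [hl, hj])
  obtain ⟨G, hG⟩ := iter Z (2 * Z.Λ.q (j + 1)) (μ := 170) (by norm_num) (by linarith only [k₁])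
    (by linarith only [k₂]) (by linarith only [k₃]) (by linarith only [hl, hj]) hv hs hg
  refine tow_br Z.C c hX (isOpen_Chn _ _ _ _ _ _) (fun z hz => hz.1) hG hr hs
    (by linarith only [hA]) hd hO hsym (fun w hw h0 => ?_) fun y hy => ?_
  · have hN := mem_Nξ Z.C h0.le
    have hU := (ξi_U Z.C c hN).2 h0
    have e : ∀ y y', y ≤ y' → Z.C.om (Z.C.ξi c w) (c + X.ι y) (c + X.ι y') = ang w y y' :=
      fun y y' h => by
        rw [om_ang Z.C c hU (X.ι_mem y).1 (X.ι_mono.monotone h) (X.ι_mem y').2, ξ_ξi Z.C c hN,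
          ← hX.2, X.σ_ι, X.σ_ι]
    refine ⟨hU, ?_, ?_⟩
    · rw [e _ _ h₂]
      exact (hup w hw h0).1.trans_lt hA'
    · rw [e _ _ (h₁.le.trans (h₂.trans h₃.le))]
      exact (hup w hw h0).2.trans_lt hA'
  · rcases hre y hy with h | h
    · have a1 := X.ι_mono h.1
      have a2 := X.ι_mono h.2
      exact ⟨Or.inl ⟨by linarith only [a1], by linarith only [a2]⟩, by linarith only [a1, hd₁],
        by linarith only [a2, k₂, k₃, hd₂]⟩
    · have a1 := X.ι_mono h.1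
      have a2 := X.ι_mono h.2
      exact ⟨Or.inr ⟨by linarith only [a1], by linarith only [a2]⟩,
        by linarith only [a1, k₁, k₂, hd₁], by linarith only [a2, hd₂]⟩

theorem D9_mem {t : ℝ} (h : |t| ≤ 1 / 4) : t ∈ Ioo (-(1 / 2) : ℝ) (1 / 2) :=
  ⟨by linarith only [(abs_le.1 h).1], by linarith only [(abs_le.1 h).2]⟩

theorem D9_ann (p : ℂ) (a b : ℝ) : IsOpen (ann p a b) := by
  have h : Continuous fun z : ℂ => ‖z - p‖ := by fun_prop
  exact (isOpen_lt continuous_const h).inter (isOpen_lt h continuous_const)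

theorem D9_wall {H : Measure (T × T)} {c : ℝ} {X : Ch} (h : Rep H (c : T) X) (y : ℝ) {s₁ s₂ B : ℝ}
    (h₁ : 0 < s₁) (h₂ : s₁ ≤ s₂) (h₃ : Real.exp B * s₁ ≤ s₂) :
    B - 3 ≤ H.real (arc (c + X.ι (y - s₂)) (c + X.ι (y - s₁)) ×ˢ
      arc (c + X.ι (y + s₁)) (c + X.ι (y + s₂))) := by
  have h4 : 0 < s₂ := h₁.trans_le h₂
  rw [Measure.real, h.rect (X.ι_mem _).1 (X.ι_mem _).2 (X.ι_mem _).1 (X.ι_mem _).2,
    X.H_rect (X.ι_mem _).1 (X.ι_mono.monotone (by linarith only [h₂]))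
      (X.ι_mono (by linarith only [h₁])) (X.ι_mono.monotone (by linarith only [h₂]))
      (X.ι_mem _).2, ENNReal.toReal_ofReal']
  refine le_trans ?_ (le_max_left _ _)
  simp only [Ch.len, X.σ_ι]
  have h5 : (4 : ℝ) ≤ Real.exp 3 := by linarith only [Real.add_one_le_exp 3]
  have h6 : (y + s₁ - (y - s₁)) * (y + s₂ - (y - s₂)) = 4 * s₁ * s₂ := by ring
  have h7 : Real.exp (B - 3) * (4 * s₁) ≤ s₂ := by
    refine le_trans ?_ h₃
    rw [show B = B - 3 + 3 by ring, Real.exp_add, add_sub_cancel_right, mul_assoc]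
    exact mul_le_mul_of_nonneg_left (mul_le_mul_of_nonneg_right h5 h₁.le) (Real.exp_pos _).le
  refine (Real.le_log_iff_exp_le ?_).2 ?_
  · rw [h6]
    exact div_pos (mul_pos (by linarith only [h₁, h4]) (by linarith only [h₁, h4])) (by positivity)
  · rw [h6, le_div_iff₀ (by positivity)]
    nlinarith [mul_le_mul_of_nonneg_right h7 h4.le, mul_pos h₁ h4, mul_pos h₁ h₁]

theorem exists_cd (N : ℕ) : ∃ A : ℕ, ∀ Z : Ctx, Z.C.N = N → ∀ V : ℝ, Bd Z.σ V →
    ∀ (c ρ₀ : ℝ) (j : ℕ) (X X' : Ch), Z.C.IsCh c X → Z.C.IsCh (c - Z.C.α) X' → 0 ≤ ρ₀ →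
      ρ₀ + 300 * Z.Λ.θ j ≤ 1 / 4 → 100 * Z.Λ.θ (j + 1) ≤ Z.Λ.θ j →
      Nonempty (CD A V ρ₀ (Z.Λ.θ j) (Z.Λ.θ (j + 1)) X X') := by
  obtain ⟨A, hA⟩ := exists_nat_ge
    (12 * Real.exp (510 * N) + 340 * N + 406 * (16 * N + 1) + 2400)
  refine ⟨A, fun Z hN V hV c ρ₀ j X X' hX hX' hρ hρΘ hθ => ?_⟩
  have N0 : (0 : ℝ) ≤ N := Nat.cast_nonneg N
  have x0 := Real.exp_pos (510 * N)
  have A1 : (2400 : ℝ) ≤ A := by linarith only [hA, N0, x0]
  have hcV : (Z.C.V.card : ℝ) ≤ N := by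
    rw [← hN]
    exact Nat.cast_le.2 (by unfold Sy.N; omega)
  have A2 : 340 * (Z.C.V.card : ℝ) ≤ A := by linarith only [hA, N0, x0, hcV]
  have A3 : 2 / (A : ℝ) < Real.exp (-(3 * 170 * Z.C.V.card)) / 4 := by
    have h1 : Real.exp (3 * 170 * Z.C.V.card) ≤ Real.exp (510 * N) :=
      Real.exp_le_exp.2 (by linarith only [hcV])
    rw [Real.exp_neg, div_lt_div_iff₀ (by linarith only [A1]) (by norm_num),
      lt_inv_mul_iff₀ (Real.exp_pos _)]
    linarith only [hA, N0, x0, h1]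
  have V1 := hV.one_le
  have AV : ∀ b : ℝ, b ≤ 2400 → b * V ≤ A * V := fun b hb =>
    mul_le_mul_of_nonneg_right (hb.trans A1) (zero_le_one.trans V1)
  have Θ0 := Z.Λ.θ_pos j
  have θ0 := Z.Λ.θ_pos (j + 1)
  have hj : 300 * Z.Λ.θ j ≤ 1 / 4 := by linarith only [hρ, hρΘ]
  obtain ⟨n, rfl⟩ : ∃ n, j = n + 1 := by
    cases j with
    | zero => rw [Z.Λ.θ_zero] at hj; norm_num at hj
    | succ n => exact ⟨n, rfl⟩
  have rX : Rep Z.σ.H (c : T) X := (show Z.σ.H = Z.C.H from Z.hH) ▸ rep Z.C c hX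
  have rX' : Rep Z.σ.H ((c - Z.C.α : ℝ) : T) X' := (show Z.σ.H = Z.C.H from Z.hH) ▸ rep Z.C _ hX'
  obtain ⟨ε, hε, hq⟩ := Z.σ.A3_sign (n + 1)
  have hd : ((2 * -ε * Z.Λ.θ (n + 1 + 1) : ℝ) : T) =
      ((-((2 * Z.Λ.q (n + 1 + 1) : ℕ) * Z.C.α) : ℝ) : T) := by
    have h1 : (((Z.Λ.q (n + 1 + 1) : ℝ) * Z.C.α : ℝ) : T) = ((ε * Z.Λ.θ (n + 1 + 1) : ℝ) : T) := hq
    rw [show (-((2 * Z.Λ.q (n + 1 + 1) : ℕ) * Z.C.α) : ℝ) =
        -((Z.Λ.q (n + 1 + 1) : ℝ) * Z.C.α + (Z.Λ.q (n + 1 + 1) : ℝ) * Z.C.α) by push_cast; ring,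
      AddCircle.coe_neg, AddCircle.coe_add, h1, ← AddCircle.coe_add, ← AddCircle.coe_neg]
    congr 1
    ring
  have hd' : |2 * -ε * Z.Λ.θ (n + 1 + 1)| ≤ Z.Λ.θ (n + 1) := by
    rw [abs_le]
    rcases hε with rfl | rfl <;> constructor <;> linarith only [θ0, hθ]
  obtain ⟨M, M0, Mc, hM⟩ := exists_marks Z.C
  obtain ⟨E, E1, E2, E3, E4⟩ := D9_E Z.Λ n c (ρ := ρ₀ + 150 * Z.Λ.θ (n + 1))
    (by linarith only [hρΘ, Θ0]) M0
  have E1' : ∀ e ∈ E, X.ι (X.σ e) = e := fun e he =>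
    X.ι_σ e (D9_mem ((E1 e he).trans (by linarith only [hρΘ, Θ0])))
  have E5 : ∀ t, |t| ≤ ρ₀ + 140 * Z.Λ.θ (n + 1) →
      ∃ e ∈ E, t - 2 * Z.Λ.θ (n + 1) ≤ e ∧ e ≤ t := fun t ht => E2 t (by linarith only [ht, Θ0])
  have free : ∀ y y', y ≤ y' → -(ρ₀ + 150 * Z.Λ.θ (n + 1)) ≤ X.ι y →
      X.ι y' ≤ ρ₀ + 150 * Z.Λ.θ (n + 1) → (∀ e ∈ E, X.σ e ∉ Ioo y y') →
      ∀ i < 2 * Z.Λ.q (n + 1 + 1), ∀ v ∈ Z.C.V, v ∈ Z.C.U →
        Z.C.om v (c + X.ι y - i * Z.C.α) (c + X.ι y' - i * Z.C.α) ≤ 1 / 16 := by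
    intro y y' h1 h2 h3 h4 i hi v hv hU
    refine hM v hv hU _ _ (by linarith only [X.ι_mono.monotone h1]) fun s hs hm => ?_
    have h5 : s + i * Z.C.α - c ∈ E := E4 _
      (abs_le.2 ⟨by linarith only [h2, hs.1], by linarith only [h3, hs.2]⟩) i hi
      (by rwa [show c + (s + i * Z.C.α - c) - i * Z.C.α = s by ring])
    refine h4 _ h5 ⟨X.ι_mono.lt_iff_lt.1 ?_, X.ι_mono.lt_iff_lt.1 ?_⟩
    · rw [E1' _ h5]
      linarith only [hs.1]
    · rw [E1' _ h5]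
      linarith only [hs.2]
  have lev : ∀ η, η = Z.Λ.θ (n + 1 + 1) ∨ η = Z.Λ.θ (n + 1) →
      ∃ m, η = Z.σ.θ m ∧ 0 < η ∧ η ≤ Z.Λ.θ (n + 1) := by
    rintro η (rfl | rfl)
    · exact ⟨_, rfl, θ0, by linarith only [hθ, θ0]⟩
    · exact ⟨_, rfl, Θ0, le_rfl⟩
  refine ⟨⟨⟨-ε, E, ?_, Nat.cast_le.1 (le_trans (by norm_num) A1), V1, θ0, hθ, hρ, hρΘ, E1, E5,
    fun t => ?_, fun Y hY η hη t ht => ?_, fun η hη t ht => ?_, fun t₀ t₁ h₀ h₁ => ?_,
    fun t δ ht h₁ h₂ => ?_⟩, fun x hx h0 => ?_, fun e s₁ s₂ he s0 hs hE l1 l2 l3 l4 => ?_⟩⟩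
  · rcases hε with rfl | rfl
    · exact Or.inr rfl
    · exact Or.inl (neg_neg 1)
  · have h1 : (M.card : ℝ) ≤ 16 * Z.C.V.card + 1 := by exact_mod_cast Mc
    exact Nat.cast_le.1 ((E3 t).trans (by linarith only [hA, N0, x0, hcV, h1]))
  · obtain ⟨m, e, η0, η1⟩ := lev η hη
    obtain ⟨c', hc'⟩ : ∃ c' : T, Rep Z.σ.H c' Y := by
      rcases hY with rfl | rfl
      · exact ⟨_, rX⟩
      · exact ⟨_, rX'⟩
    have h1 := cmp Z.σ hV hc' m (t := t) (by linarith only [e, η1, ht, hρΘ, Θ0])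
    rw [← e] at h1
    refine h1.trans (mul_le_mul_of_nonneg_right (Real.exp_le_exp.2 (AV 400 (by norm_num))) ?_)
    obtain ⟨a1, a2⟩ := abs_le.1 ht
    refine sub_nonneg.2 (Y.σ_mono.monotoneOn ⟨?_, ?_⟩ ⟨?_, ?_⟩ ?_) <;>
      linarith only [a1, a2, η0, η1, hρΘ, Θ0]
  · obtain ⟨m, e, η0, η1⟩ := lev η hη
    have h1 := kb Z.σ hV rX m (by linarith only [e, η1, hj]) t (by linarith only [ht, hρΘ, Θ0])
    rw [← e] at h1
    exact h1.trans (ENNReal.ofReal_le_ofReal (AV 8 (by norm_num)))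
  · obtain ⟨i, hi, τ, hτ, e⟩ := Z.Λ.dense n ((t₀ - t₁ : ℝ) : T)
    refine ⟨t₁ - t₀ + τ, by linarith only [hτ.1], by linarith only [hτ.2],
      fun t δ ht h₂ h₃ => ?_⟩
    obtain ⟨a1, a2⟩ := abs_le.1 ht
    obtain ⟨a3, a4⟩ := abs_le.1 h₀
    obtain ⟨a5, a6⟩ := abs_le.1 h₁
    have b1 : |t| ≤ ρ₀ + 70 * Z.Λ.θ (n + 1) :=
      abs_le.2 ⟨by linarith only [a1, a3, Θ0], by linarith only [a2, a4, Θ0]⟩
    have b2 : |t + (t₁ - t₀ + τ)| ≤ ρ₀ + 70 * Z.Λ.θ (n + 1) :=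
      abs_le.2 ⟨by linarith only [a1, a5, Θ0, hτ.1], by linarith only [a2, a6, Θ0, hτ.2]⟩
    refine (lam_shift Z.σ hV rX rX (n + 1) hi.le ?_
      (show |t| + 110 * Z.Λ.θ (n + 1) ≤ 1 / 4 by linarith only [b1, hρΘ, Θ0])
      (show _ + 110 * Z.Λ.θ (n + 1) ≤ 1 / 4 by linarith only [b2, hρΘ, Θ0]) h₂ h₃).trans
      (AV 1700 (by norm_num))
    rw [← AddCircle.coe_add, show c + (t + (t₁ - t₀ + τ)) + i * Z.C.α =
      c + t - (t₀ - t₁) + (i * Z.C.α + τ) by ring, AddCircle.coe_add, ← e, AddCircle.coe_sub,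
      sub_add_cancel]
  · have b1 : |t| + 110 * Z.Λ.θ (n + 1) ≤ 1 / 4 := by linarith only [ht, hρΘ, Θ0]
    refine (lam_shift Z.σ hV rX rX' (n + 1) (Z.Λ.q_pos (n + 1)) ?_ b1 b1 h₁ h₂).trans
      (AV 1700 (by norm_num))
    rw [← AddCircle.coe_add]
    congr 1
    push_cast
    ring
  · change |X.ι x| ≤ _ at hx
    change 0 < X.r E x at h0
    change ∃ G, Br A (ball (x : ℂ) (X.r E x / A)) G (X.g (2 * -ε * Z.Λ.θ (n + 1 + 1)))
    have far : ∀ e ∈ E, X.σ e ∉ Ioo (x - X.r E x) (x + X.r E x) := fun e he h => by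
      have h1 : X.r E x ≤ dist x (X.σ e) := infDist_le_dist_of_mem ⟨e, he, rfl⟩
      rw [Real.dist_eq] at h1
      exact absurd h1 (not_le.2 (abs_lt.2 ⟨by linarith only [h.2], by linarith only [h.1]⟩))
    generalize X.r E x = ρ at h0 far ⊢
    obtain ⟨a1, a2⟩ := abs_le.1 hx
    obtain ⟨a3, a4⟩ := abs_le.1 hd'
    have b1 : X.ι x - 2 * Z.Λ.θ (n + 1) ≤ X.ι (x - ρ) := by
      obtain ⟨e, he, e1, e2⟩ := E5 (X.ι x) (by linarith only [hx, Θ0])
      rw [← E1' e he] at e1 e2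
      have e3 := X.ι_mono.le_iff_le.1 e2
      refine e1.trans (X.ι_mono.monotone (not_lt.1 fun h => far e he ⟨h, ?_⟩))
      linarith only [e3, h0]
    have b2 : X.ι (x + ρ) ≤ X.ι x + 2 * Z.Λ.θ (n + 1) := by
      obtain ⟨e, he, e1, e2⟩ := E5 (X.ι x + 2 * Z.Λ.θ (n + 1))
        (abs_le.2 ⟨by linarith only [a1, Θ0], by linarith only [a2, Θ0]⟩)
      rw [add_sub_cancel_right] at e1
      rw [← E1' e he] at e1 e2
      have e3 := X.ι_mono.le_iff_le.1 e1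
      refine le_trans (X.ι_mono.monotone (not_lt.1 fun h => far e he ⟨?_, h⟩)) e2
      linarith only [e3, h0]
    have c1 : x - ρ < x + ρ / 2 := by linarith only [h0]
    have c2 : x + ρ / 2 < x + ρ := by linarith only [h0]
    have c3 := X.ι_mono c1
    have c4 := X.ι_mono c2
    refine D9_br Z c hX (n + 1) hj A2 A3 hd c1 le_rfl c2 (by linarith only [b1, b2, Θ0])
      (by linarith only [b1, a1, a3, hρΘ, Θ0]) (by linarith only [b2, a2, a4, hρΘ, Θ0])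
      (fun i hi v hv hU => ⟨free _ _ c1.le (by linarith only [b1, a1, Θ0])
        (by linarith only [b2, a2, c4, Θ0]) (fun e he h => far e he ⟨h.1, h.2.trans c2⟩) i hi v hv hU,
        free _ _ c2.le (by linarith only [b1, a1, c3, Θ0]) (by linarith only [b2, a2, Θ0])
        (fun e he h => far e he ⟨c1.trans h.1, h.2⟩) i hi v hv hU⟩) (Or.inl rfl) isOpen_ball
      (fun z hz => ?_) (fun w hw h => ⟨?_, ?_⟩) fun y hy => Or.inl ?_
    · rw [mem_ball, ← Complex.conj_ofReal, Complex.dist_conj_conj]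
      exact hz
    · rw [ang, sub_self, zero_div]
      positivity
    · exact ang_big h (by linarith only [A1]) h0 le_rfl le_rfl (mem_ball_iff_norm.1 hw).le
    · rw [mem_ball_iff_norm, ← Complex.ofReal_sub, Complex.norm_real, Real.norm_eq_abs] at hy
      have d1 : ρ / A ≤ ρ / 2 :=
        div_le_div_of_nonneg_left h0.le (by norm_num) (by linarith only [A1])
      obtain ⟨d2, d3⟩ := abs_lt.1 hy
      exact ⟨by linarith only [d1, d2, h0], by linarith only [d1, d3]⟩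
  · change ∀ e' ∈ E, _ at hE
    change ∃ G, Br A _ G (X.g (2 * -ε * Z.Λ.θ (n + 1 + 1)))
    obtain ⟨a1, a2⟩ := abs_le.1 he
    obtain ⟨a3, a4⟩ := abs_le.1 hd'
    have s1 : s₁ < s₂ := by
      have h1 : 1 < Real.exp (A * V) :=
        Real.one_lt_exp_iff.2 (by linarith only [AV 1 (by norm_num), V1])
      exact ((lt_mul_iff_one_lt_left s0).2 h1).trans_le hs
    have mem : ∀ u, |u| ≤ 40 * Z.Λ.θ (n + 1) → X.ι (X.σ (e + u)) = e + u := fun u hu =>
      X.ι_σ _ (D9_mem ((abs_add_le _ _).trans (by linarith only [he, hu, hρΘ, Θ0])))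
    unfold Ch.len at l1 l2 l3 l4
    have b1 : e + -(40 * Z.Λ.θ (n + 1)) ≤ X.ι (X.σ e - s₂) := by
      rw [← mem _ (by rw [abs_neg, abs_of_pos (by positivity)]), ← sub_eq_add_neg]
      exact X.ι_mono.monotone (by linarith only [l3])
    have b2 : X.ι (X.σ e - s₁) ≤ e + -(4 * Z.Λ.θ (n + 1 + 1)) := by
      rw [← mem _ (by rw [abs_neg, abs_of_pos (by positivity)]; linarith only [hθ, θ0]),
        ← sub_eq_add_neg]
      exact X.ι_mono.monotone (by linarith only [l1])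
    have b3 : e + 4 * Z.Λ.θ (n + 1 + 1) ≤ X.ι (X.σ e + s₁) := by
      rw [← mem _ (by rw [abs_of_pos (by positivity)]; linarith only [hθ, θ0])]
      exact X.ι_mono.monotone (by linarith only [l2])
    have b4 : X.ι (X.σ e + s₂) ≤ e + 40 * Z.Λ.θ (n + 1) := by
      rw [← mem _ (by rw [abs_of_pos (by positivity)])]
      exact X.ι_mono.monotone (by linarith only [l4])
    generalize X.σ e = y₀ at *
    have c1 : y₀ - s₂ < y₀ - s₁ := by linarith only [s1]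
    have c2 : y₀ - s₁ ≤ y₀ + s₁ := by linarith only [s0]
    have c3 : y₀ + s₁ < y₀ + s₂ := by linarith only [s1]
    have c4 := X.ι_mono c3
    have hw := D9_wall rX y₀ s0 s1.le hs
    refine D9_br Z c hX (n + 1) hj A2 A3 hd c1 c2 c3 (by linarith only [b1, b4])
      (by linarith only [b1, a1, a3, hρΘ, Θ0]) (by linarith only [b4, a2, a4, hρΘ, Θ0])
      (fun i hi v hv hU => ⟨free _ _ c1.le (by linarith only [b1, a1, Θ0])
        (by linarith only [b2, a2, Θ0, θ0]) (fun e' he' h => ?_) i hi v hv hU,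
        free _ _ c3.le (by linarith only [b3, a1, Θ0, θ0]) (by linarith only [b4, a2, Θ0])
        (fun e' he' h => ?_) i hi v hv hU⟩) (Or.inr fun i hi => ?_)
      (D9_ann _ _ _)
      (fun z hz => ?_) (fun w hw h => ⟨?_, ?_⟩) fun y hy => ?_
    · have d := hE e' he'
      rw [abs_of_nonpos (by linarith only [h.2, s0])] at d
      rcases d with d | d <;> linarith only [d, h.1, h.2]
    · have d := hE e' he'
      rw [abs_of_nonneg (by linarith only [h.1, s0])] at d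
      rcases d with d | d <;> linarith only [d, h.1, h.2]
    · rw [← Z.hH]
      exact D9_gap Z.σ hV (n + 1) hj (by linarith only [c4])
        (show 2 * Z.Λ.θ (n + 1 + 1) ≤ _ by linarith only [b2, b3, θ0])
        (show _ ≤ 80 * Z.Λ.θ (n + 1) by linarith only [b1, b4])
        (by linarith only [hw, AV 2400 le_rfl, V1]) hi
    · have d : ‖starRingEnd ℂ z - y₀‖ = ‖z - y₀‖ := by
        rw [← Complex.norm_conj (z - y₀), map_sub, Complex.conj_ofReal]
      exact ⟨d ▸ hz.1, d ▸ hz.2⟩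
    · refine ang_small h (by linarith only [A1]) s0 ?_ ?_ hw.1.le
      · rw [sub_sub_cancel_left, abs_neg, abs_of_pos s0]
      · rw [add_sub_cancel_left, abs_of_pos s0]
    · exact ang_big h (by linarith only [A1]) (s0.trans s1) le_rfl le_rfl hw.2.le
    · obtain ⟨d1, d2⟩ := hy
      rw [← Complex.ofReal_sub, Complex.norm_real, Real.norm_eq_abs] at d1 d2
      have d3 : s₂ / A ≤ s₂ := div_le_self (s0.trans s1).le (by linarith only [A1])
      have d4 : s₁ ≤ A * s₁ := le_mul_of_one_le_left s0.le (by linarith only [A1])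
      rcases le_total y y₀ with k | k
      · rw [abs_of_nonpos (sub_nonpos.2 k)] at d1 d2
        exact Or.inl ⟨by linarith only [d2, d3], by linarith only [d1, d4]⟩
      · rw [abs_of_nonneg (sub_nonneg.2 k)] at d1 d2
        exact Or.inr ⟨by linarith only [d1, d4], by linarith only [d2, d3]⟩

end Pool.Agent.Work.MP_042f46_an.Fu
end
end
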