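import Pool.Agent.Work.MP_042f46_an.F.Defs
import Pool.Agent.Work.MP_042f46_an.F.D9
import Pool.Agent.Work.MP_042f46_an.F.C8
import Pool.Agent.Work.MP_042f46_an.F.E3
import Pool.Agent.Work.MP_042f46_an.F.D11
import Pool.Agent.Work.MP_042f46_an.F.B5
import Pool.Agent.Work.MP_042f46_an.F.E5

-- merged part: Pool.Agent.Work.MP_042f46_an.F.E6
section
/-!
# From the inverted system to the rational map

Plan.  Copy the first half of `Ty.main` (file `T/D4.lean`), which builds `σ : Sy` with `F = rf P Q`, `φ ζ = (φ₀ ζ⁻¹)⁻¹`, `α = -α`.  For `z ∈ frontier S`: `z ≠ 0` (`S` is open and contains `0`), `z⁻¹ ∈ closure (S \ {0})⁻¹` (`XH_cl'`) and `(S \ {0})⁻¹ = φ '' {1 < ‖ζ‖}`; `Q.eval z⁻¹ ≠ 0` because `p.eval z ≠ 0` (`hzero`); `rf P Q z⁻¹ = (rf p q z)⁻¹`.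
-/

open Set Metric Topology Filter MeasureTheory
open scoped ENNReal NNReal

noncomputable section
namespace Pool.Agent.Work.MP_042f46_an.Fu

open Pool.Agent.Work.MP_042f46_an.Ty

open Polynomial in
theorem main_of (H : ∀ σ : Sy, Irrational σ.α → ∀ z ∈ closure (σ.φ '' {ζ | 1 < ‖ζ‖}),
      ∀ z' ∈ closure (σ.φ '' {ζ | 1 < ‖ζ‖}), z ∉ σ.P → z' ∉ σ.P → σ.F z = σ.F z' → z = z')
    (p q : ℂ[X]) (α : ℝ) (S : Set ℂ) (hc : IsCoprime p q)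
    (hd : 1 ≤ max p.natDegree q.natDegree) (hα : Irrational α) (hS : IsOpen S)
    (hSc : IsPreconnected S) (h0 : (0 : ℂ) ∈ S) (hb : Bornology.IsBounded S)
    (hq : ∀ z ∈ closure S, q.eval z ≠ 0) (hm : MapsTo (rf p q) S S) {h : ℂ → ℂ}
    (hh : DifferentiableOn ℂ h S) (hi : InjOn h S) (hz : h 0 = 0)
    (hf : ∀ z ∈ S, h (rf p q z) = e α * h z) : InjOn (rf p q) (frontier S) := by
  obtain ⟨φ, hφd, hφi, hφf, hφS, hφ0⟩ := exists_φ_hol hα hS hSc h0 hb hm hh hi hz hf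
  have hb0 : (0 : ℂ) ∈ ball (0 : ℂ) 1 := mem_ball_self one_pos
  have hf0 : rf p q 0 = 0 := by
    have := hφf 0 hb0
    rwa [mul_zero, hφ0] at this
  have hp : p.eval 0 = 0 := (div_eq_zero_iff.1 hf0).resolve_right (hq 0 (subset_closure h0))
  obtain ⟨P, Q, hPQ, hdeg, hinv⟩ := inv_data hc hd hp
  have hd' : 1 ≤ max P.natDegree Q.natDegree := le_max_of_le_left (by omega)
  obtain ⟨V, hVf, hVc, hV⟩ := exists_cov hPQ hd'
  have hzero : ∀ u ∈ closure S, rf p q u = 0 → u = 0 := fun u hu k =>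
    zero_only hφd hφi hφf hφ0 (hφS.symm ▸ hu) (rf_analytic (hq u hu)).continuousAt k
  have hne : ∀ ζ : ℂ, 1 < ‖ζ‖ → φ ζ⁻¹ ≠ 0 := fun ζ k k' =>
    inv_ne_zero (XH_ball k).1 (hφi (XH_ball k).2 hb0 (k'.trans hφ0.symm))
  obtain ⟨ψ, hψ⟩ : ∃ ψ : ℂ → ℂ, ψ = fun ζ => (φ ζ⁻¹)⁻¹ := ⟨_, rfl⟩
  have hψd : DifferentiableOn ℂ ψ {ζ | 1 < ‖ζ‖} := by
    rw [hψ]
    exact (hφd.comp (differentiableOn_inv.mono fun ζ k => (XH_ball k).1)
      fun ζ k => (XH_ball k).2).inv hne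
  have hψi : InjOn ψ {ζ | 1 < ‖ζ‖} := fun a ha b hb k => by
    rw [hψ] at k
    exact inv_injective (hφi (XH_ball ha).2 (XH_ball hb).2 (inv_injective k))
  have hψt : Tendsto ψ (Bornology.cobounded ℂ) (Bornology.cobounded ℂ) := by
    have hb1 : ball (0 : ℂ) 1 ∈ 𝓝 (0 : ℂ) := isOpen_ball.mem_nhds hb0
    have ht : Tendsto φ (𝓝[≠] 0) (𝓝[≠] (φ 0)) := by
      refine tendsto_nhdsWithin_iff.2 ⟨?_, ?_⟩
      · exact (hφd.continuousOn.continuousAt hb1).tendsto.mono_left nhdsWithin_le_nhds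
      · filter_upwards [mem_nhdsWithin_of_mem_nhds hb1, self_mem_nhdsWithin] with w hw hw' hw''
        exact hw' (hφi hw hb0 hw'')
    rw [hφ0] at ht
    rw [hψ]
    exact tendsto_inv₀_nhdsNE_zero.comp (ht.comp tendsto_inv₀_cobounded')
  have hψf : ∀ ζ, 1 < ‖ζ‖ → rf P Q (ψ ζ) = ψ (e (-α) * ζ) := fun ζ k => by
    simp only [hψ]
    rw [(hinv _ (hne ζ k)).1, hφf _ (XH_ball k).2, mul_inv, D4_e]
  have hQ : ∀ w ∈ ψ '' {ζ | 1 < ‖ζ‖}, Q.eval w ≠ 0 := by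
    rintro _ ⟨ζ, k, rfl⟩
    rw [hψ]
    exact (hinv _ (hne ζ k)).2 fun k' => hne ζ k (hzero _
      (subset_closure (hφS ▸ mem_image_of_mem φ (XH_ball k).2)) (by rw [rf, k', zero_div]))
  have h2 : (2 : ℂ) ∈ {ζ : ℂ | 1 < ‖ζ‖} := by
    rw [mem_ofPred_eq, Complex.norm_two]
    exact one_lt_two
  have hQ0 : Q ≠ 0 := by
    rintro rfl
    exact hQ _ (mem_image_of_mem ψ h2) eval_zero
  let σ : Sy :=
    { F := rf P Q
      φ := ψ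
      α := -α
      V := hVf.toFinset
      P := {z | Q.eval z = 0}
      d := P.natDegree
      v₀ := 0
      φ_diff := hψd
      φ_inj := hψi
      φ_top := hψt
      conj := hψf
      P_fin := Q.finite_setOfPred_isRoot hQ0
      cov := by rwa [hVf.coe_toFinset]
      F_diff := fun z hz => (rf_analytic hz).differentiableAt.differentiableWithinAt
      P_V := fun z hz => hVf.mem_toFinset.2 (by_contra fun k => (hV z k).1 hz)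
      P_Ω := fun z hz k => hQ z k hz
      P_top := fun z hz => D4_pole hPQ hQ0 hz
      fib := XH_fib hdeg
      v₀_Ω := fun ⟨ζ, k, k'⟩ => inv_ne_zero (hne ζ k) (by rw [hψ] at k'; exact k') }
  have hΩ : ψ '' {ζ | 1 < ‖ζ‖} = (S \ {0})⁻¹ := by
    ext w
    constructor
    · rintro ⟨ζ, k, rfl⟩
      simp only [hψ]
      rw [Set.mem_inv, inv_inv]
      exact ⟨hφS ▸ mem_image_of_mem φ (XH_ball k).2, hne ζ k⟩
    · rintro ⟨k1, k2⟩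
      rw [← hφS] at k1
      obtain ⟨u, hu, k3⟩ := k1
      have u0 : u ≠ 0 := fun k => k2 (by rw [← k3, k, hφ0]; rfl)
      refine ⟨u⁻¹, ?_, by simp only [hψ, inv_inv, k3]⟩
      rw [mem_ofPred_eq, norm_inv]
      exact (one_lt_inv₀ (norm_pos_iff.2 u0)).2 (mem_ball_zero_iff.1 hu)
  have hfr : ∀ z ∈ frontier S, z ≠ 0 ∧ z⁻¹ ∈ closure (ψ '' {ζ | 1 < ‖ζ‖}) ∧ Q.eval z⁻¹ ≠ 0 := by
    intro z hz'
    have z0 : z ≠ 0 := fun k => by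
      rw [hS.frontier_eq] at hz'
      exact hz'.2 (k ▸ h0)
    have zc := frontier_subset_closure hz'
    refine ⟨z0, hΩ ▸ XH_cl' zc z0, (hinv z z0).2 fun k => z0 (hzero z zc ?_)⟩
    rw [rf, k, zero_div]
  intro z hz' w hw k
  obtain ⟨z0, z1, z2⟩ := hfr z hz'
  obtain ⟨w0, w1, w2⟩ := hfr w hw
  refine inv_injective (H σ hα.neg _ z1 _ w1 z2 w2 ?_)
  show rf P Q z⁻¹ = rf P Q w⁻¹
  rw [(hinv z z0).1, (hinv w w0).1, k]

end Pool.Agent.Work.MP_042f46_an.Fu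
end
end

-- merged part: Pool.Agent.Work.MP_042f46_an.F.Top
section
/-!
# Assembly
-/

open Set Metric Topology Filter MeasureTheory
open scoped ENNReal NNReal

noncomputable section
namespace Pool.Agent.Work.MP_042f46_an.Fu

open Pool.Agent.Work.MP_042f46_an.Ty

theorem rich (N : ℕ) : ∃ (V₀ : ℝ) (Mf : ℝ → ℝ), ∀ Z : Ctx, Z.C.N = N → Rich V₀ Mf Z.σ := by
  obtain ⟨A₁, h₁⟩ := exists_cd N
  obtain ⟨A₂, h₂⟩ := cd_rd A₁
  obtain ⟨A₃, hA, h₃⟩ := rd_ld A₂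
  obtain ⟨a₀, V₀, Mf, h₄⟩ := tf_of_ld hA
  refine ⟨V₀, Mf, fun Z hZ ε hε V hV hB => h₄ Z V hV hB (fun c ρ₀ j X X' hX hX' k₁ k₂ _ k₃ => ?_) ε hε⟩
  obtain ⟨D₁⟩ := h₁ Z hZ V hB c ρ₀ j X X' hX hX' k₁ k₂ k₃
  obtain ⟨D₂⟩ := h₂ _ _ _ _ _ _ D₁
  exact h₃ _ _ _ _ _ _ D₂

theorem inj_all (σ : Sy) (hα : Irrational σ.α) : ∀ z ∈ closure (σ.φ '' {ζ | 1 < ‖ζ‖}),
    ∀ z' ∈ closure (σ.φ '' {ζ | 1 < ‖ζ‖}), z ∉ σ.P → z' ∉ σ.P → σ.F z = σ.F z' → z = z' := by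
  obtain ⟨V₀, Mf, h₁⟩ := rich σ.N
  obtain ⟨V, h₂⟩ := bound_all σ.N V₀ Mf
  obtain ⟨B, hB, h₃⟩ := qs V
  obtain ⟨B', h₄⟩ := DD_shift hB
  obtain ⟨Λ⟩ := exists_lev hα
  refine fun z hz z' hz' hP hP' h => inj_closure σ (B := B') (fun C hC hG => h₄ C ?_) hz hz' hP hP' h
  subst hC
  obtain ⟨K, hK, hcut⟩ := exists_kit' C
  have k := h₃ _ _ _ (h₂ _ _ (h₁ ⟨C, hG, Λ, K, hK, hcut⟩ rfl))
  exact hK ▸ k

end Pool.Agent.Work.MP_042f46_an.Fu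
end
end
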