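import Pool.Agent.Work.MP_042f46_an.T.D4

/-!
# All rotation numbers: definitions

Write-up: /team-store/h95_042f46_full.md.  `Bd` = the bootstrap bound, `TF`, `Rich` = the test functions, `Ch` = a chart of the circle minus a point in which the excursion measure has density `1 / (x - y) ^ 2`, `Loc`, `Br` = an inverse branch with the visiting property, `BD`, `CD`, `RD`, `LD` = the data of one level, `Inv`, `Stp` = the recursion that builds the test function.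
-/

open Set Metric Topology Filter MeasureTheory
open scoped ENNReal NNReal

noncomputable section
namespace Pool.Agent.Work.MP_042f46_an.Fu

open Pool.Agent.Work.MP_042f46_an.Ty

/-- the bootstrap bound -/
structure Bd {α : ℝ} {N : ℕ} (σ : Sys α N) (V : ℝ) : Prop where
  one_le : 1 ≤ V
  K_le : ∀ n, σ.K n ≤ V
  J_le : ∀ n, σ.J n (n + 1) ≤ V

/-- test functions at every point and every deep level -/
def TF {α : ℝ} {N : ℕ} (σ : Sys α N) (ε M V : ℝ) : Prop :=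
  ∀ (c : T) (g : ℕ), M * σ.θ g ≤ 1 / 1000 → ∃ u : T → ℝ, Continuous u ∧
    (∀ x, u x ∈ Icc (0 : ℝ) 1) ∧ (∀ x, u x ≠ 0 → dist x c < M * σ.θ g) ∧
    DD σ.H (fun x => u (x + (α : T))) ≤ (N : ℝ≥0∞) * (DD σ.H u + N) ∧
    ∫⁻ p in SS univ 0 (8 * σ.θ g), ENNReal.ofReal ((u p.1 - u p.2) ^ 2) ∂σ.H ≤
      ENNReal.ofReal (ε * V) ∧
    σ.H {p | dist (p.1 + (α : T)) c < σ.θ g ∧ 8 * σ.θ g ≤ dist p.1 p.2 ∧
      u (p.1 + (α : T)) ≠ 1} ≤ ENNReal.ofReal (ε * V)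

/-- systems that have test functions -/
def Rich (V₀ : ℝ) (Mf : ℝ → ℝ) {α : ℝ} {N : ℕ} (σ : Sys α N) : Prop :=
  ∀ ε, 0 < ε → ∀ V, V₀ ≤ V → Bd σ V → TF σ ε (Mf ε) V

/-- half-open arc -/
def iv (p : ℝ × ℝ) : Set T := ((↑) : ℝ → T) '' Ico p.1 p.2

/-- finite families of disjoint intervals in the unit interval -/
structure Fam (P : Finset (ℝ × ℝ)) : Prop where
  mem : ∀ p ∈ P, 0 ≤ p.1 ∧ p.1 < p.2 ∧ p.2 ≤ 1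
  disj : ∀ p ∈ P, ∀ p' ∈ P, p ≠ p' → p.2 ≤ p'.1 ∨ p'.2 ≤ p.1

/-- the excursion measure of the half plane -/
def K0 : Measure (ℝ × ℝ) := ((volume : Measure ℝ).prod volume).withDensity
  fun p => ENNReal.ofReal (1 / (p.1 - p.2) ^ 2)

/-- a chart: `ι` sends the outer coordinate to the inner one, `σ` is its inverse -/
structure Ch where
  ι : ℝ → ℝ
  σ : ℝ → ℝ
  ι_cont : Continuous ι
  ι_mono : StrictMono ι
  ι_mem : ∀ x, ι x ∈ Ioo (-(1 / 2) : ℝ) (1 / 2)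
  σ_ι : ∀ x, σ (ι x) = x
  ι_σ : ∀ t ∈ Ioo (-(1 / 2) : ℝ) (1 / 2), ι (σ t) = t

namespace Ch

variable (X : Ch)

/-- the excursion measure in the inner coordinate -/
def H : Measure (ℝ × ℝ) := K0.map (Prod.map X.ι X.ι)

/-- outer length of an inner interval -/
def len (s t : ℝ) : ℝ := X.σ t - X.σ s

/-- logarithm of the relative size of an interval in its tile -/
def lam (Θ t δ : ℝ) : ℝ := Real.log (X.len (t - Θ) (t + Θ) / X.len t (t + δ))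

/-- translation by `d` in the outer coordinate -/
def g (d x : ℝ) : ℝ := X.σ (X.ι x + d)

/-- its displacement -/
def u (d x : ℝ) : ℝ := |X.g d x - x|

/-- outer distance to the marks -/
def r (E : Finset ℝ) (x : ℝ) : ℝ := infDist x (X.σ '' (E : Set ℝ))

end Ch

/-- the chart represents the measure around `c` -/
def Rep (H : Measure (T × T)) (c : T) (X : Ch) : Prop :=
  H = X.H.map fun p => (c + (p.1 : T), c + (p.2 : T))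

/-- among `n + 1` discs with disjoint traps one carries an extension of the iterate -/
structure Loc (n : ℕ) (Dom : Set ℂ) (G : ℂ → ℂ) : Prop where
  isOpen : IsOpen Dom
  sub : ∀ z ∈ Dom, 0 < z.im
  diff : DifferentiableOn ℂ G Dom
  ext : ∀ (m : ℕ) (b : Fin (n + 1) → ℂ) (R : Fin (n + 1) → ℝ) (Tr : Fin (n + 1) → Set ℂ),
    Pairwise (fun i j => Disjoint (Tr i) (Tr j)) → (∀ i, Tr i ⊆ Dom) → (∀ i, 0 < R i) →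
    (∀ i, ∀ w ∈ ball (b i) (R i), ∃ s : ℕ → ℂ, s 0 = w ∧ (∀ l ≤ m + 1, s l ∈ Tr i) ∧
      ∀ l ≤ m, G (s (l + 1)) = s l) →
    (∀ i, ∀ l < m, G^[l] (b i) ∈ Dom) →
    ∃ i, ∃ Γ : ℂ → ℂ, DifferentiableOn ℂ Γ (ball (b i) (R i)) ∧
      (∀ w ∈ ball (b i) (R i), 0 < (Γ w).im) ∧ Γ =ᶠ[𝓝 (b i)] G^[m]

/-- a symmetric branch with real values `g` -/
structure Br (n : ℕ) (O : Set ℂ) (G : ℂ → ℂ) (g : ℝ → ℝ) : Prop where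
  diff : DifferentiableOn ℂ G O
  symm : ∀ z ∈ O, G (starRingEnd ℂ z) = starRingEnd ℂ (G z)
  real : ∀ x : ℝ, (x : ℂ) ∈ O → G x = (g x : ℂ)
  up : ∀ z ∈ O, 0 < z.im → 0 < (G z).im
  loc : Loc n (O ∩ {z | 0 < z.im}) G

/-- open annulus -/
def ann (p : ℂ) (a b : ℝ) : Set ℂ := {z | a < ‖z - p‖ ∧ ‖z - p‖ < b}

/-- data common to the complex and the real description of a level -/
structure BD (A : ℕ) (V ρ₀ Θ θ : ℝ) (X X' : Ch) where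
  ε : ℝ
  E : Finset ℝ
  hε : ε = 1 ∨ ε = -1
  A_ge : 300 ≤ A
  V_ge : 1 ≤ V
  θ_pos : 0 < θ
  θ_le : 100 * θ ≤ Θ
  ρ_nonneg : 0 ≤ ρ₀
  ρ_le : ρ₀ + 300 * Θ ≤ 1 / 4
  E_mem : ∀ e ∈ E, |e| ≤ ρ₀ + 150 * Θ
  E_dense : ∀ t, |t| ≤ ρ₀ + 140 * Θ → ∃ e ∈ E, t - 2 * Θ ≤ e ∧ e ≤ t
  E_card : ∀ t, (E.filter fun e => |e - t| ≤ 100 * Θ).card ≤ A
  cmp : ∀ Y, Y = X ∨ Y = X' → ∀ η, η = θ ∨ η = Θ → ∀ t, |t| ≤ ρ₀ + 150 * Θ →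
    Y.len (t - 100 * η) (t + 100 * η) ≤ Real.exp (A * V) * Y.len t (t + 2 * η)
  Kb : ∀ η, η = θ ∨ η = Θ → ∀ t, |t| ≤ ρ₀ + 150 * Θ →
    X.H {p | p.1 ∈ Icc t (t + η) ∧ 2 * η ≤ |p.1 - p.2|} ≤ ENNReal.ofReal (A * V)
  tr : ∀ t₀ t₁, |t₀| ≤ ρ₀ + 60 * Θ → |t₁| ≤ ρ₀ + 60 * Θ → ∃ ς, t₁ ≤ t₀ + ς ∧
    t₀ + ς ≤ t₁ + 2 * Θ ∧ ∀ t δ, |t - t₀| ≤ 4 * Θ → 4 * θ ≤ δ → δ ≤ 4 * Θ →
      |X.lam Θ (t + ς) δ - X.lam Θ t δ| ≤ A * V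
  sh : ∀ t δ, |t| ≤ ρ₀ + 60 * Θ → 4 * θ ≤ δ → δ ≤ 4 * Θ →
    |X'.lam Θ t δ - X.lam Θ t δ| ≤ A * V

/-- the complex description: branches over mark-free intervals and over long channels -/
structure CD (A : ℕ) (V ρ₀ Θ θ : ℝ) (X X' : Ch) extends BD A V ρ₀ Θ θ X X' where
  lens : ∀ x, |X.ι x| ≤ ρ₀ + 100 * Θ → 0 < X.r E x →
    ∃ G, Br A (ball (x : ℂ) (X.r E x / A)) G (X.g (2 * ε * θ))
  chan : ∀ e s₁ s₂ : ℝ, |e| ≤ ρ₀ + 90 * Θ → 0 < s₁ → Real.exp (A * V) * s₁ ≤ s₂ →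
    (∀ e' ∈ E, |X.σ e' - X.σ e| < s₁ ∨ s₂ < |X.σ e' - X.σ e|) →
    X.len (e - 4 * θ) e ≤ s₁ → X.len e (e + 4 * θ) ≤ s₁ →
    s₂ ≤ X.len (e - 40 * Θ) e → s₂ ≤ X.len e (e + 40 * Θ) →
    ∃ G, Br A (ann (X.σ e : ℂ) (A * s₁) (s₂ / A)) G (X.g (2 * ε * θ))

/-- the displacement is comparable to a product of squared distances -/
def Fac (A : ℕ) (u : ℝ → ℝ) (x s : ℝ) : Prop :=
  ∃ (m : ℕ) (z : Fin m → ℂ) (a : ℝ), m ≤ A ∧ 0 < a ∧ ∀ y ∈ Icc (x - 2 * s) (x + 2 * s),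
    a * ∏ i, ‖(y : ℂ) - z i‖ ^ 2 ≤ A * u y ∧ u y ≤ A * (a * ∏ i, ‖(y : ℂ) - z i‖ ^ 2) ∧
      u y ≤ A * s

/-- the displacement is almost constant on both sides of `p` at the scale `s` -/
def Flat (A : ℕ) (u : ℝ → ℝ) (p s : ℝ) : Prop :=
  ∀ y y', s / 2 ≤ |y - p| → |y - p| ≤ 4 * s → s / 2 ≤ |y' - p| → |y' - p| ≤ 4 * s →
    u y ≤ A * u y'

/-- the real description -/
structure RD (A : ℕ) (V ρ₀ Θ θ : ℝ) (X X' : Ch) extends BD A V ρ₀ Θ θ X X' where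
  fac : ∀ x, |X.ι x| ≤ ρ₀ + 100 * Θ → X.u (2 * ε * θ) x ≤ X.r E x / A →
    Fac A (X.u (2 * ε * θ)) x (X.r E x / A)
  reg : ∀ e ∈ E, |e| ≤ ρ₀ + 90 * Θ → ∃ Exc Reg : Finset ℤ, (Exc.card : ℝ) ≤ A * V ∧
    (∀ i : ℤ, i ∉ Exc → (2 : ℝ) ^ i ≤ X.len (e - 2 * Θ) (e + 2 * Θ) →
      (∀ e' ∈ E, |X.σ e' - X.σ e| ≤ (2 : ℝ) ^ i / 8 ∨ 16 * (2 : ℝ) ^ i ≤ |X.σ e' - X.σ e|) ∧
      ((∀ y, |y - X.σ e| ≤ 4 * (2 : ℝ) ^ i → |X.ι y - e| ≤ 4 * θ) ∨ i ∈ Reg)) ∧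
    (∀ i ∈ Reg, Flat A (X.u (2 * ε * θ)) (X.σ e) ((2 : ℝ) ^ i) ∧
      ∀ y, |y - X.σ e| ≤ 4 * (2 : ℝ) ^ i → |X.ι y - e| ≤ 40 * Θ) ∧
    ∀ v : ℝ, ((Reg.filter fun i => v ≤ Real.log ((2 : ℝ) ^ i /
        X.u (2 * ε * θ) (X.σ e + (2 : ℝ) ^ i)) ∧ Real.log ((2 : ℝ) ^ i /
        X.u (2 * ε * θ) (X.σ e + (2 : ℝ) ^ i)) ≤ v + V).card : ℝ) ≤ A * V

/-- weight of the outer parametrisation at the value `k` -/
def zeta (V vz k : ℝ) : ℝ := clamp ((vz - Real.log k) / V)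

/-- logarithmic depth at the value `k` -/
def dep (v₁ k : ℝ) : ℝ := max 0 (Real.log k - v₁)

/-- cost of a chord -/
def cost (A V Θ vz v₁ : ℝ) (h : ℝ → ℝ) (p : ℝ × ℝ) : ℝ :=
  (if zeta V vz (h p.1) < 1 then ((p.1 - p.2) / Θ) ^ 2 else 0) +
    (zeta V vz (h p.1) - zeta V vz (h p.2)) ^ 2 +
    ((dep v₁ (h p.1) - dep v₁ (h p.2)) / V) ^ 2 *
      Real.exp (|dep v₁ (h p.1) - dep v₁ (h p.2)| / (A * V))

/-- long chords rarely start where `f` is large -/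
def Tail (ρ₀ Θ : ℝ) (f : ℝ → ℝ) (ν : Measure (ℝ × ℝ)) : Prop :=
  ∀ t, |t| ≤ ρ₀ → ∀ Y : Set ℝ, MeasurableSet Y → (∀ y ∈ Y, y ≤ t - 2 * Θ ∨ t + 4 * Θ ≤ y) →
    ∫⁻ p in Icc t (t + 2 * Θ) ×ˢ Y, ENNReal.ofReal (f p.1 ^ 2) ∂ν ≤ ν (Icc t (t + 2 * Θ) ×ˢ Y)

/-- depth function and outer parametrisation of one level -/
structure LD (A V ρ₀ Θ θ : ℝ) (μ μ' : Measure (ℝ × ℝ)) where
  h : ℝ → ℝ
  T : ℝ → ℝ
  vz : ℝ
  v₁ : ℝ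
  S : Set (ℝ × ℝ)
  one_le : ∀ t, 1 ≤ h t
  h_le : ∀ t, h t ≤ 4 * Θ / θ
  h_lip : ∀ s t, |h s - h t| ≤ |s - t| / θ
  T_mono : Monotone T
  T_near : ∀ t, |T t - t| ≤ 2 * Θ
  vz_le : vz ≤ v₁
  vz_exp : Real.exp vz ≤ 4 * Θ / θ
  vz_or : vz ≤ 0 ∨ 2 * V ≤ vz
  v₁_ge : V ≤ v₁
  cnt : ∀ t k, 1 ≤ k →
    volume {s | s ∈ Icc t (t + 2 * Θ) ∧ h s ≤ k} ≤ ENNReal.ofReal (A * V * k * θ)
  frac : ∀ t δ, θ ≤ δ → δ ≤ 200 * Θ →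
    T (t + δ) - T t ≤ A * Θ * (δ / (Real.exp vz * θ)) ^ (1 / A)
  S_meas : MeasurableSet S
  S_cov : ∀ p : ℝ × ℝ, p ∈ S ∨ p.swap ∈ S
  outT : ∀ t, |t| ≤ ρ₀ → ∫⁻ p in {p : ℝ × ℝ | p.1 ∈ Icc t (t + 2 * Θ) ∧ |p.1 - p.2| < 8 * Θ},
    ENNReal.ofReal ((T p.1 - T p.2) ^ 2) ∂μ ≤ ENNReal.ofReal (A * V * Θ ^ 2)
  outM : ∀ t, |t| ≤ ρ₀ → ∀ n : ℕ, ∫⁻ p in {p : ℝ × ℝ | p ∈ S ∧ p.1 ∈ Icc t (t + 2 * Θ) ∧
      8 * θ ≤ |p.1 - p.2| ∧ |p.1 - p.2| < 8 * Θ ∧ n * V ≤ dep v₁ (h p.1) ∧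
      dep v₁ (h p.1) < (n + 1) * V}, ENNReal.ofReal (cost A V Θ vz v₁ h p) ∂μ ≤
    ENNReal.ofReal (A * V)
  tail : Tail ρ₀ Θ (fun t => dep v₁ (h t) / V) μ
  tail' : Tail ρ₀ Θ (fun t => dep v₁ (h t) / V) μ'

/-- chords longer than `2 η` from intervals of length `η` have mass at most `B` -/
def KB (ρ η B : ℝ) (ν : Measure (ℝ × ℝ)) : Prop :=
  ∀ t, |t| ≤ ρ → ν {p | p.1 ∈ Icc t (t + η) ∧ 2 * η ≤ |p.1 - p.2|} ≤ ENNReal.ofReal B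

/-- the point at depth `y` over `t` -/
def pt (y t : ℝ) : ℂ := ⟨y, t⟩

/-- closed right half plane -/
def HP : Set ℂ := {z | 0 ≤ z.re}

/-- slowly varying at the scale `s` -/
def Slow (s : ℝ) (L : ℂ → ℝ) : Prop :=
  ∀ z ∈ HP, ∀ z' ∈ HP, L z' ≤ L z * Real.exp (‖z - z'‖ / s)

/-- a function with slowly varying majorants of its gradient -/
structure Inv (Θ : ℝ) (F L : ℂ → ℝ) (S : ℝ → ℝ) : Prop where
  L_nonneg : ∀ z, 0 ≤ L z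
  L_meas : Measurable L
  S_meas : Measurable S
  slow : Slow Θ L
  lip : ∀ z ∈ HP, ∀ z' ∈ HP, |F z - F z'| ≤ L z * Real.exp (‖z - z'‖ / Θ) * ‖z - z'‖
  L_le : ∀ z ∈ HP, L z ≤ S z.im
  S_slow : ∀ t t', S t' ≤ S t * Real.exp (|t - t'| / Θ)
  S_bdd : ∃ B, ∀ t, S t ≤ B

/-- energy of the majorant -/
def Eg (L : ℂ → ℝ) : ℝ≥0∞ := ∫⁻ z in {z : ℂ | 0 < z.re}, ENNReal.ofReal (L z ^ 2)

/-- energy of the majorant in the layer of depth `Y` -/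
def Lay (L : ℂ → ℝ) (Y : ℝ) : ℝ≥0∞ :=
  ∫⁻ z in {z : ℂ | 0 < z.re ∧ z.re < Y}, ENNReal.ofReal (L z ^ 2)

/-- energy of a layer of depth `Θ` with the largest values -/
def Fl (Θ : ℝ) (S : ℝ → ℝ) : ℝ≥0∞ := ENNReal.ofReal Θ * ∫⁻ t, ENNReal.ofReal (S t ^ 2)

/-- chords of one class inside the range -/
def Cls (ρ r s : ℝ) : Set (ℝ × ℝ) :=
  {p | |p.1| ≤ ρ ∧ |p.2| ≤ ρ ∧ r ≤ |p.1 - p.2| ∧ |p.1 - p.2| < s}

/-- one step of the recursion -/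
structure Stp (B V ρ₀ Θ θ : ℝ) (μ μ' : Measure (ℝ × ℝ)) (F L : ℂ → ℝ) (S : ℝ → ℝ)
    (Ψ : ℂ → ℂ) (L' : ℂ → ℝ) (S' : ℝ → ℝ) (Y r : ℝ) (f : ℝ → ℝ) : Prop where
  inv : Inv θ (fun z => F (Ψ z)) L' S'
  maps : MapsTo Ψ HP HP
  r_nonneg : 0 ≤ r
  r_or : r ≤ 1 / 4 ∨ r = θ / Θ
  en : 2 * Eg L' + Lay L Y ≤ 2 * Eg L + ENNReal.ofReal B * Fl Θ S
  fl : Fl θ S' ≤ ENNReal.ofReal r * Fl Θ S
  im_near : ∀ z ∈ HP, |(Ψ z).im - z.im| ≤ 2 * Θ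
  re_ge : ∀ z ∈ HP, z.re ≤ (Ψ z).re
  re_le : ∀ z ∈ HP, ∀ t, |z.im - t| ≤ 8 * θ → (Ψ z).re / Θ ≤ r * (z.re / θ) + f t + 1
  f_meas : Measurable f
  f_nonneg : ∀ t, 0 ≤ f t
  tail : Tail ρ₀ Θ f μ
  tail' : Tail ρ₀ Θ f μ'
  out : ∫⁻ p in Cls (ρ₀ - 2 * Θ) (8 * θ) (8 * Θ),
    ENNReal.ofReal ((F (Ψ (pt 0 p.1)) - F (Ψ (pt 0 p.2))) ^ 2) ∂μ ≤
      ENNReal.ofReal (B * V) * (Lay L Y + Fl Θ S)

end Pool.Agent.Work.MP_042f46_an.Fu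

namespace Pool.Agent.Work.MP_042f46_an.Ty.Cf

open Pool.Agent.Work.MP_042f46_an.Fu

variable (C : Cf)

/-- no branch value on the curve -/
def Gen : Prop := ∀ x, C.γ x ∉ C.V

/-- excursions that avoid the other preimages are bounded by energies in `W` -/
def Cut (h : Measure (T × T)) : Prop :=
  ∀ (A B : Set T) (φ : ℂ → ℝ) (δ : ℝ), IsClosed A → IsClosed B → 0 < δ → IsV C.U C.Ub φ →
    (∀ z, φ z ∈ Icc (0 : ℝ) 1) → (∀ x, ∀ y ∈ A, dist x y < δ → φ (C.γ x) = 1) →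
    (∀ x, ∀ y ∈ B, dist x y < δ → φ (C.γ x) = 0) →
    C.H (A ×ˢ B) ≤ h (A ×ˢ B) + ENNReal.ofReal (2 * Real.pi) * En C.W φ

/-- outer angle of an inner angle -/
def bi (t : ℝ) : ℝ := Function.invFun C.β t

/-- harmonic measure from `z` of the curve up to `t` -/
def Th (z : ℂ) (t : ℝ) : ℝ :=
  C.bi t + Complex.arg (1 - C.ψi z * e (-C.bi t)) / Real.pi

/-- harmonic measure from `z` of the arc from `a` to `b` -/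
def om (z : ℂ) (a b : ℝ) : ℝ := C.Th z b - C.Th z a

/-- the half plane chart that sends the point opposite to `c` to infinity -/
def ξ (c : ℝ) (z : ℂ) : ℂ :=
  Complex.I * (e (C.bi (c + 1 / 2)) + C.ψi z) / (e (C.bi (c + 1 / 2)) - C.ψi z)

/-- its inverse -/
def ξi (c : ℝ) (x : ℂ) : ℂ := C.ψ (e (C.bi (c + 1 / 2)) * ((x - Complex.I) / (x + Complex.I)))

/-- domain of the chart -/
def Oξ (c : ℝ) : Set ℂ := C.ψ '' ball 0 C.R \ {C.γ ((c + 1 / 2 : ℝ) : T)}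

/-- domain of the inverse chart -/
def Nξ : Set ℂ := {x | x + Complex.I ≠ 0 ∧ ‖(x - Complex.I) / (x + Complex.I)‖ < C.R}

/-- inner coordinate of a boundary point of the half plane -/
def ιc (c x : ℝ) : ℝ := C.β (C.bi (c + 1 / 2) - 1 / 2 + Real.arctan x / Real.pi) - c

/-- outer coordinate -/
def σc (c t : ℝ) : ℝ := Real.tan (Real.pi * (C.bi (c + t) - C.bi (c + 1 / 2) + 1 / 2))

/-- harmonic measure of the two arcs left out by the walls `[r, p]` and `[p', r']` -/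
def wl (r p p' r' : ℝ) (z : ℂ) : ℝ := C.om z p p' + (1 - C.om z r r')

/-- the channel between the walls -/
def Chn (κ r p p' r' : ℝ) : Set ℂ := {z | z ∈ C.U ∧ C.om z p p' < κ ∧ 1 - C.om z r r' < κ}

/-- `G` is the `k`-th iterate of the main branch near the open arc from `a` to `b` -/
def Main (G : ℂ → ℂ) (k : ℕ) (a b : ℝ) : Prop :=
  ∀ t ∈ Ioo a b, G =ᶠ[𝓝[C.U] (C.γ (t : T))] C.mb^[k]

/-- `X` is the half plane chart around `c` -/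
def IsCh (c : ℝ) (X : Ch) : Prop := X.ι = C.ιc c ∧ X.σ = C.σc c

end Pool.Agent.Work.MP_042f46_an.Ty.Cf

namespace Pool.Agent.Work.MP_042f46_an.Fu

open Pool.Agent.Work.MP_042f46_an.Ty

/-- a generic invariant curve with levels and a kit -/
structure Ctx where
  C : Cf
  gen : C.Gen
  Λ : Lev C.α
  K : Kit C.α C.N
  hH : K.H = C.H
  cut : C.Cut K.h

/-- its system -/
def Ctx.σ (Z : Ctx) : Sys Z.C.α Z.C.N := Sys.mk Z.Λ Z.K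

end Pool.Agent.Work.MP_042f46_an.Fu
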