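import Pool.Agent.Work.MP_042f46_an.F.R3

-- merged part: Pool.Agent.Work.MP_042f46_an.F.R4a
section
/-! Zones: definition and the bounds on one zone (plan in `R4`). -/

open Set Metric Topology Filter MeasureTheory
open scoped ENNReal NNReal

noncomputable section
namespace Pool.Agent.Work.MP_042f46_an.Fu

open Pool.Agent.Work.MP_042f46_an.Ty

/-- a zone -/
def RD.Zn {A : ℕ} {V ρ₀ Θ θ : ℝ} {X X' : Ch} (D : RD A V ρ₀ Θ θ X X') (e : ℝ) (i : ℤ) : Set ℝ :=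
  {x | In X ρ₀ Θ 50 x ∧ D.r x = |x - X.σ e| ∧ (2 : ℝ) ^ i ≤ D.r x ∧ D.r x < 2 * (2 : ℝ) ^ i}

theorem R4_cover (f : ℝ → ℝ≥0∞) (W : Set ℝ) (a h c : ℝ) (n : ℕ) (hh : 0 < h) (hn : 0 < n)
    (_hc : 0 ≤ c) (hW : W ⊆ Icc a (a + n * h))
    (hb : ∀ b, ∫⁻ x in W ∩ Icc b (b + h), f x ≤ ENNReal.ofReal c) :
    ∫⁻ x in W, f x ≤ ENNReal.ofReal (n * c) := by
  have hsub : W ⊆ ⋃ j : Fin n, W ∩ Icc (a + (j : ℕ) * h) (a + (j : ℕ) * h + h) := by
    intro x hx
    obtain ⟨h1, h2⟩ := hW hx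
    have h0 : 0 ≤ (x - a) / h := div_nonneg (by linarith) hh.le
    have hle : (x - a) / h ≤ n := by rw [div_le_iff₀ hh]; linarith
    by_cases hlt : ⌊(x - a) / h⌋₊ < n
    · refine mem_iUnion.2 ⟨⟨_, hlt⟩, hx, ?_, ?_⟩
      · have := Nat.floor_le h0
        rw [le_div_iff₀ hh] at this
        show a + (⌊(x - a) / h⌋₊ : ℝ) * h ≤ x
        linarith
      · have := (Nat.lt_floor_add_one ((x - a) / h)).le
        rw [div_le_iff₀ hh] at this
        show x ≤ a + (⌊(x - a) / h⌋₊ : ℝ) * h + h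
        linarith
    · have h3 : (n : ℝ) ≤ (x - a) / h := by
        have : n ≤ ⌊(x - a) / h⌋₊ := not_lt.1 hlt
        exact le_trans (by exact_mod_cast this) (Nat.floor_le h0)
      rw [le_div_iff₀ hh] at h3
      have h4 : ((n - 1 : ℕ) : ℝ) = n - 1 := by rw [Nat.cast_sub hn]; simp
      refine mem_iUnion.2 ⟨⟨n - 1, by omega⟩, hx, ?_, ?_⟩
      · show a + ((n - 1 : ℕ) : ℝ) * h ≤ x
        rw [h4]; nlinarith
      · show x ≤ a + ((n - 1 : ℕ) : ℝ) * h + h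
        rw [h4]; nlinarith
  calc ∫⁻ x in W, f x ≤ ∫⁻ x in ⋃ j : Fin n, W ∩ Icc (a + (j : ℕ) * h) (a + (j : ℕ) * h + h), f x :=
        lintegral_mono_set hsub
    _ ≤ ∑' j : Fin n, ∫⁻ x in W ∩ Icc (a + (j : ℕ) * h) (a + (j : ℕ) * h + h), f x :=
        lintegral_iUnion_le _ _
    _ ≤ ∑' _j : Fin n, ENNReal.ofReal c := ENNReal.tsum_le_tsum fun j => hb _
    _ = ENNReal.ofReal (n * c) := by
        rw [tsum_fintype, Finset.sum_const, Finset.card_univ, Fintype.card_fin, nsmul_eq_mul,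
          ENNReal.ofReal_mul (Nat.cast_nonneg n), ENNReal.ofReal_natCast]

theorem R4_const {f : ℝ → ℝ} {W : Set ℝ} {b h M c : ℝ} (hM : 0 ≤ M) (hW : W ⊆ Icc b (b + h))
    (hf : ∀ x ∈ W, f x ≤ M) (hc : M * h ≤ c) :
    ∫⁻ x in W, ENNReal.ofReal (f x) ≤ ENNReal.ofReal c := by
  calc ∫⁻ x in W, ENNReal.ofReal (f x) ≤ ∫⁻ _x in W, ENNReal.ofReal M :=
        setLIntegral_mono measurable_const fun x hx => ENNReal.ofReal_le_ofReal (hf x hx)
    _ ≤ ∫⁻ _x in Icc b (b + h), ENNReal.ofReal M := lintegral_mono_set hW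
    _ = ENNReal.ofReal (M * h) := by
        rw [setLIntegral_const, Real.volume_Icc, ENNReal.ofReal_mul hM]; congr 2; ring
    _ ≤ ENNReal.ofReal c := ENNReal.ofReal_le_ofReal hc

theorem R4_dom {f g : ℝ → ℝ} {W W' : Set ℝ} {M c c' : ℝ} (hM : 0 ≤ M) (hg : Measurable g)
    (hW : W ⊆ W') (hf : ∀ x ∈ W, f x ≤ M * g x)
    (hb : ∫⁻ x in W', ENNReal.ofReal (g x) ≤ ENNReal.ofReal c) (hc : M * c ≤ c') :
    ∫⁻ x in W, ENNReal.ofReal (f x) ≤ ENNReal.ofReal c' := by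
  have hm : Measurable fun x => ENNReal.ofReal (g x) := hg.ennreal_ofReal
  calc ∫⁻ x in W, ENNReal.ofReal (f x) ≤ ∫⁻ x in W, ENNReal.ofReal M * ENNReal.ofReal (g x) :=
        setLIntegral_mono (hm.const_mul _) fun x hx => by
          rw [← ENNReal.ofReal_mul hM]; exact ENNReal.ofReal_le_ofReal (hf x hx)
    _ ≤ ∫⁻ x in W', ENNReal.ofReal M * ENNReal.ofReal (g x) := lintegral_mono_set hW
    _ = ENNReal.ofReal M * ∫⁻ x in W', ENNReal.ofReal (g x) := lintegral_const_mul _ hm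
    _ ≤ ENNReal.ofReal M * ENNReal.ofReal c := by gcongr
    _ = ENNReal.ofReal (M * c) := (ENNReal.ofReal_mul hM).symm
    _ ≤ ENNReal.ofReal c' := ENNReal.ofReal_le_ofReal hc

theorem R4_in {A : ℕ} {V ρ₀ Θ θ : ℝ} {X X' : Ch} (D : RD A V ρ₀ Θ θ X X') {x n m : ℝ}
    (h : In X ρ₀ Θ n x) (hnm : n ≤ m) : In X ρ₀ Θ m x := by
  have h1 := D.θ_pos
  have h2 := D.θ_le
  have h3 : 0 ≤ Θ := by linarith
  unfold In at h ⊢
  nlinarith [mul_le_mul_of_nonneg_right hnm h3]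

theorem R4_inv_le {a b M : ℝ} (ha : 0 < a) (hb : 0 < b) (h : b ≤ M * a) : 1 / a ≤ M * (1 / b) := by
  rw [mul_one_div, div_le_div_iff₀ ha hb]; linarith

theorem R4_sqrt_le {a b M : ℝ} (ha : 0 < a) (hb : 0 < b) (hM : 1 ≤ M) (h : b ≤ M * a) :
    1 / √a ≤ M * (1 / √b) := by
  refine R4_inv_le (Real.sqrt_pos.2 ha) (Real.sqrt_pos.2 hb) ?_
  have h1 : √b ≤ √(M ^ 2 * a) := Real.sqrt_le_sqrt (by nlinarith [mul_le_mul_of_nonneg_right hM ha.le])
  rwa [Real.sqrt_mul (sq_nonneg M), Real.sqrt_sq (by linarith)] at h1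

theorem R4_zone (A : ℕ) : ∃ B : ℝ, 1 ≤ B ∧ ∀ {V ρ₀ Θ θ : ℝ} {X X' : Ch} (D : RD A V ρ₀ Θ θ X X')
    (e : ℝ) (i : ℤ),
      (∀ κ : ℝ, ∫⁻ x in {x | x ∈ D.Zn e i ∧ κ ≤ D.k x ∧ D.k x ≤ 2 * κ},
        ENNReal.ofReal (1 / D.ϱ' x) ≤ ENNReal.ofReal B) ∧
      ∫⁻ x in D.Zn e i, ENNReal.ofReal (1 / √(D.ϱ' x * D.r x)) ≤ ENNReal.ofReal B := by
  obtain ⟨B1, hB1, h1⟩ := loc_scale A
  obtain ⟨B2, hB2, h2⟩ := low A
  have hC0 : 0 ≤ C1 A := by unfold C1; positivity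
  set C' : ℝ := 16 * C1 A * A * B1 with hC'
  have hC'0 : 0 ≤ C' := by positivity
  set B0 : ℝ := 1 + 256 * B2 + B1 * B1 + B1 * (B1 * (2 * B1 * C')) with hB0
  have hp1 : 0 ≤ B1 * B1 := by positivity
  have hp2 : 0 ≤ B1 * (B1 * (2 * B1 * C')) := by positivity
  have hB00 : 0 ≤ B0 := by positivity
  refine ⟨1 + ((4 * A : ℕ) : ℝ) * B0, by linarith [mul_nonneg (Nat.cast_nonneg (α := ℝ) (4 * A)) hB00], ?_⟩
  intro V ρ₀ Θ θ X X' D e i
  have hA : (300 : ℝ) ≤ A := by exact_mod_cast D.A_ge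
  have hA0 : (0 : ℝ) < A := by linarith
  have hC1 : 1 ≤ C1 A := (one_le_C1 (by have := D.A_ge; omega)).2
  set S : ℝ := (2 : ℝ) ^ i with hS
  have hS0 : 0 < S := by positivity
  have hh : 0 < S / A := by positivity
  have hZ : D.Zn e i ⊆ Icc (X.σ e - 2 * S) (X.σ e - 2 * S + ((4 * A : ℕ) : ℝ) * (S / A)) := by
    intro x hx
    obtain ⟨-, ha, -, hb⟩ := hx
    have e1 : ((4 * A : ℕ) : ℝ) * (S / A) = 4 * S := by push_cast; field_simp
    rw [ha] at hb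
    have := abs_lt.1 hb
    rw [e1]; constructor <;> linarith [this.1, this.2]
  have hu : ∀ x ∈ D.Zn e i, 0 < D.u x := fun x hx => D.u_pos (R4_in D hx.1 (by norm_num))
  have hk : ∀ x, 1 ≤ D.k x := fun x => le_max_right _ _
  have huϱ : ∀ x ∈ D.Zn e i, D.u x ≤ D.ϱ x := fun x hx => by
    have := mul_le_mul_of_nonneg_right (hk x) (hu x hx).le
    unfold RD.ϱ; linarith
  have hϱ' : ∀ x ∈ D.Zn e i, 0 < D.ϱ' x := fun x hx =>
    lt_min (lt_of_lt_of_le (hu x hx) (huϱ x hx)) (lt_of_lt_of_le hS0 hx.2.2.1)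
  have hSA : S / A ≤ S := div_le_self hS0.le (by linarith)
  have big : ∀ x ∈ D.Zn e i, D.r x / A < D.u x → S / A ≤ D.ϱ' x := fun x hx h =>
    le_min (le_trans (div_le_div_of_nonneg_right hx.2.2.1 hA0.le) (h.le.trans (huϱ x hx)))
      (hSA.trans hx.2.2.1)
  have fin : ∀ (f : ℝ → ℝ≥0∞) (W : Set ℝ), W ⊆ D.Zn e i →
      (∀ b, ∫⁻ x in W ∩ Icc b (b + S / A), f x ≤ ENNReal.ofReal B0) →
      ∫⁻ x in W, f x ≤ ENNReal.ofReal (1 + ((4 * A : ℕ) : ℝ) * B0) := fun f W hW hb =>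
    (R4_cover f W _ _ B0 (4 * A) hh (by have := D.A_ge; omega) hB00 (hW.trans hZ) hb).trans
      (ENNReal.ofReal_le_ofReal (by linarith))
  have inI : ∀ b x₀, x₀ ∈ D.Zn e i → x₀ ∈ Icc b (b + S / A) →
      Icc b (b + S / A) ⊆ Icc (x₀ - D.r x₀ / A) (x₀ + D.r x₀ / A) := fun b x₀ hx hb y hy => by
    have := div_le_div_of_nonneg_right hx.2.2.1 hA0.le
    constructor <;> linarith [hb.1, hb.2, hy.1, hy.2]
  have dm : ∀ {x₀ s : ℝ} {d : ℝ → ℝ}, Scale A B1 D.u x₀ s d → Measurable d := fun {x₀ s d} hd => by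
    have : LipschitzWith 1 d := LipschitzWith.of_dist_le_mul fun y y' => by
      simpa [Real.dist_eq] using hd.lip y y'
    exact this.continuous.measurable
  constructor
  · intro κ
    refine fin _ _ (fun x hx => hx.1) fun b => ?_
    by_cases hκ : κ < 8
    · refine R4_const (M := 256 * B2 * (1 / S)) (by positivity) inter_subset_right ?_ ?_
      · rintro x ⟨⟨hx, -, hb⟩, -⟩
        refine R4_inv_le (hϱ' x hx) hS0 ?_
        have h3 := h2 D x 16 (R4_in D hx.1 (by norm_num)) (by linarith)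
        have h4 := huϱ x hx
        have h5 := hx.2.2.1
        unfold RD.ϱ'
        rw [mul_min_of_nonneg _ _ (by positivity)]
        refine le_min (by nlinarith) (by nlinarith)
      · have : 256 * B2 * (1 / S) * (S / A) = 256 * B2 / A := by field_simp
        rw [this]
        have := div_le_self (show 0 ≤ 256 * B2 by positivity) (show (1 : ℝ) ≤ A by linarith)
        linarith
    by_cases hx₀ : ∃ x₀ ∈ D.Zn e i, x₀ ∈ Icc b (b + S / A) ∧ D.u x₀ ≤ D.r x₀ / A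
    · obtain ⟨x₀, hx, hb, hle⟩ := hx₀
      obtain ⟨d, hd, hd'⟩ := h1 D x₀ (R4_in D hx.1 (by norm_num)) hle
      have hs0 : 0 < D.r x₀ / A := lt_of_lt_of_le (hu x₀ hx) hle
      have hC'1 : 1 ≤ C' := by
        have a1 : 1 ≤ C1 A * A := by nlinarith
        have a2 : 1 ≤ C1 A * A * B1 := by nlinarith
        rw [hC']; nlinarith
      have hC'p : 0 < C' := by linarith
      have hκ0 : 0 < κ := by linarith [not_lt.1 hκ]
      refine R4_dom (M := B1) (g := fun y => 1 / d y) (by linarith)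
        (measurable_const.div (dm hd)) ?_ ?_
        (hd.win (κ / C') (2 * B1 * C') (by positivity) (by nlinarith)) (by linarith)
      · rintro y ⟨⟨hy, ha, hb'⟩, hyb⟩
        have hyI := inI b x₀ hx hb hyb
        obtain ⟨a1, a2⟩ := hd' y hyI
        have h8 : 8 ≤ D.k y := le_trans (not_lt.1 hκ) ha
        have a3 := a2 h8
        have a4 := D.U_r (R4_in D hy.1 (by norm_num)) h8
        have a5 := hy.2.2.2
        have a6 : S ≤ A * (D.r x₀ / A) := by rw [mul_div_cancel₀ _ hA0.ne']; exact hx.2.2.1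
        have huy := hu y hy
        have hϱy : 0 < D.ϱ y := lt_of_lt_of_le huy (huϱ y hy)
        have a7 : D.ϱ y ≤ 16 * C1 A * A * min (D.ϱ y) (D.r x₀ / A) := by
          rw [mul_min_of_nonneg _ _ (by positivity)]
          refine le_min ?_ ?_
          · have : 1 ≤ C1 A * A := by nlinarith
            nlinarith
          · have b1 : D.r y ≤ 2 * (A * (D.r x₀ / A)) := by linarith
            have b2 := mul_le_mul_of_nonneg_left b1 (show 0 ≤ 8 * C1 A by positivity)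
            linarith
        have a8 : D.ϱ y ≤ C' * d y := by
          have := mul_le_mul_of_nonneg_left a3 (show 0 ≤ 16 * C1 A * A by positivity)
          rw [hC']; linarith
        refine ⟨hyI, ?_, ?_⟩
        · rw [div_mul_eq_mul_div, div_le_iff₀ hC'p]
          have := mul_le_mul_of_nonneg_right ha huy.le
          unfold RD.ϱ at a8
          linarith
        · have e1 : 2 * B1 * C' * (κ / C') * D.u y = B1 * (2 * κ * D.u y) := by field_simp
          rw [e1]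
          have b1 : D.ϱ' y ≤ 2 * κ * D.u y :=
            (min_le_left _ _).trans (mul_le_mul_of_nonneg_right hb' huy.le)
          exact a1.trans (mul_le_mul_of_nonneg_left b1 (by linarith))
      · rintro y ⟨⟨hy, -, -⟩, hyb⟩
        have hyI := inI b x₀ hx hb hyb
        exact R4_inv_le (hϱ' y hy) (hd.pos y ⟨by linarith [hyI.1], by linarith [hyI.2]⟩)
          (hd' y hyI).1
    · refine R4_const (M := 1 / (S / A)) (by positivity) inter_subset_right ?_ ?_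
      · rintro x ⟨⟨hx, -, -⟩, hb⟩
        exact one_div_le_one_div_of_le hh
          (big x hx (lt_of_not_ge fun h => hx₀ ⟨x, hx, hb, h⟩))
      · rw [one_div_mul_cancel hh.ne']
        linarith
  · refine fin _ _ Subset.rfl fun b => ?_
    by_cases hx₀ : ∃ x₀ ∈ D.Zn e i, x₀ ∈ Icc b (b + S / A) ∧ D.u x₀ ≤ D.r x₀ / A
    · obtain ⟨x₀, hx, hb, hle⟩ := hx₀
      obtain ⟨d, hd, hd'⟩ := h1 D x₀ (R4_in D hx.1 (by norm_num)) hle
      have hs0 : 0 < D.r x₀ / A := lt_of_lt_of_le (hu x₀ hx) hle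
      refine R4_dom (M := B1) (g := fun y => 1 / √(d y * (D.r x₀ / A))) (by linarith)
        (measurable_const.div ((dm hd).mul_const _).sqrt) ?_ ?_ hd.half (by linarith)
      · rintro y ⟨-, hyb⟩
        exact inI b x₀ hx hb hyb
      · rintro y ⟨hy, hyb⟩
        have hyI := inI b x₀ hx hb hyb
        have hdy := hd.pos y ⟨by linarith [hyI.1], by linarith [hyI.2]⟩
        have hry : 0 < D.r y := lt_of_lt_of_le hS0 hy.2.2.1
        refine R4_sqrt_le (mul_pos (hϱ' y hy) hry) (mul_pos hdy hs0) hB1 ?_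
        have a1 : D.r x₀ / A ≤ D.r y := by
          rw [div_le_iff₀ hA0]
          have := hx.2.2.2
          have := hy.2.2.1
          nlinarith
        calc d y * (D.r x₀ / A) ≤ B1 * D.ϱ' y * D.r y :=
              mul_le_mul (hd' y hyI).1 a1 hs0.le (mul_nonneg (by linarith) (hϱ' y hy).le)
          _ = B1 * (D.ϱ' y * D.r y) := by ring
    · refine R4_const (M := 1 / (S / A)) (by positivity) inter_subset_right ?_ ?_
      · rintro x ⟨hx, hb⟩
        have a1 := big x hx (lt_of_not_ge fun h => hx₀ ⟨x, hx, hb, h⟩)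
        refine one_div_le_one_div_of_le hh (Real.le_sqrt_of_sq_le ?_)
        rw [sq]
        exact mul_le_mul a1 (hSA.trans hx.2.2.1) hh.le (hϱ' x hx).le
      · rw [one_div_mul_cancel hh.ne']
        linarith

end Pool.Agent.Work.MP_042f46_an.Fu
end
end

-- merged part: Pool.Agent.Work.MP_042f46_an.F.R4b
section
/-! Counting zones (plan in `R4`). -/

open Set Metric Topology Filter MeasureTheory
open scoped ENNReal NNReal

noncomputable section
namespace Pool.Agent.Work.MP_042f46_an.Fu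

open Pool.Agent.Work.MP_042f46_an.Ty

theorem R4b_cover {S : Finset ℤ} {f : ℤ → ℝ} {V M : ℝ} (hV : 1 ≤ V)
    (h : ∀ w : ℝ, ((S.filter fun i => w ≤ f i ∧ f i ≤ w + V).card : ℝ) ≤ M) (w : ℝ) (n : ℕ) :
    ((S.filter fun i => w ≤ f i ∧ f i ≤ w + V + n).card : ℝ) ≤ (n + 1) * M := by
  induction n with
  | zero => simpa using h w
  | succ n ih =>
    have a1 : (S.filter fun i => w ≤ f i ∧ f i ≤ w + V + ((n + 1 : ℕ) : ℝ)) ⊆
        (S.filter fun i => w ≤ f i ∧ f i ≤ w + V + n) ∪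
          (S.filter fun i => w + n + 1 ≤ f i ∧ f i ≤ w + n + 1 + V) := by
      intro i hi
      obtain ⟨b1, b2, b3⟩ := Finset.mem_filter.1 hi
      push_cast at b3
      rcases le_total (f i) (w + V + n) with c | c
      · exact Finset.mem_union_left _ (Finset.mem_filter.2 ⟨b1, b2, c⟩)
      · exact Finset.mem_union_right _ (Finset.mem_filter.2 ⟨b1, by linarith, by linarith⟩)
    have a2 := (Finset.card_le_card a1).trans (Finset.card_union_le _ _)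
    have a3 := (Nat.cast_le (α := ℝ)).2 a2
    have a4 := h (w + n + 1)
    rw [Nat.cast_add] at a3
    push_cast at a3 ⊢
    linarith

namespace RD

variable {A : ℕ} {V ρ₀ Θ θ : ℝ} {X X' : Ch} (D : RD A V ρ₀ Θ θ X X') {x e s : ℝ}

theorem R4b_small (he : |e| ≤ ρ₀ + 90 * Θ) (hx : In X ρ₀ Θ 50 x) (hG : 4 * θ < |X.ι x - e|)
    (s0 : 0 < s) (h1 : s ≤ |x - X.σ e|) (h2 : |x - X.σ e| ≤ 2 * s)
    (h3 : ∀ y, |y - X.σ e| ≤ 4 * s → |X.ι y - e| ≤ 40 * Θ) :
    ∃ y, s ≤ |y - X.σ e| ∧ |y - X.σ e| ≤ 2 * s ∧ D.u y ≤ 3 * s := by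
  obtain ⟨n1, n2, n3, n4⟩ := D.R2_num
  obtain ⟨e1, e2⟩ := abs_le.1 he
  obtain ⟨x1, x2⟩ := abs_le.1 (show |X.ι x| ≤ ρ₀ + 50 * Θ from hx)
  have hι : X.ι (X.σ e) = e := X.ι_σ e ⟨by linarith, by linarith⟩
  have p1 : |X.σ e - s - X.σ e| = s := by
    rw [sub_sub_cancel_left, abs_neg, abs_of_pos s0]
  have p2 : |X.σ e + s - X.σ e| = s := by
    rw [add_sub_cancel_left, abs_of_pos s0]
  obtain ⟨q1, -⟩ := abs_le.1 (h3 (X.σ e - s) (by rw [p1]; linarith))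
  obtain ⟨-, q2⟩ := abs_le.1 (h3 (X.σ e + s) (by rw [p2]; linarith))
  have q3 : X.ι (X.σ e - s) ≤ e := by
    have := X.ι_mono.monotone (show X.σ e - s ≤ X.σ e by linarith)
    rwa [hι] at this
  have q4 : e ≤ X.ι (X.σ e + s) := by
    have := X.ι_mono.monotone (show X.σ e ≤ X.σ e + s by linarith)
    rwa [hι] at this
  obtain ⟨y1, y2⟩ := abs_le.1 h2
  have ux := D.u_eq (t := X.ι x) (abs_le.2 ⟨by linarith, by linarith⟩)
  have ua := D.u_eq (t := X.ι (X.σ e - s)) (abs_le.2 ⟨by linarith, by linarith⟩)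
  have ub := D.u_eq (t := X.ι (X.σ e + s)) (abs_le.2 ⟨by linarith, by linarith⟩)
  unfold Ch.len at ux ua ub
  rw [X.σ_ι] at ux ua ub
  rcases lt_abs.1 hG with c | c
  · rcases ux with ⟨ε1, -⟩ | ⟨-, ux⟩
    · rcases ua with ⟨-, ua⟩ | ⟨ε2, -⟩
      · have := X.R2_le (s := X.ι (X.σ e - s) + 2 * θ) (t := X.ι x) (by linarith) (by linarith)
          (by linarith)
        rw [X.σ_ι] at this
        exact ⟨X.σ e - s, by rw [p1], by rw [p1]; linarith, by linarith⟩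
      · rw [ε1] at ε2; norm_num at ε2
    · have := X.R2_le (s := e) (t := X.ι x - 2 * θ) (by linarith) (by linarith) (by linarith)
      exact ⟨x, h1, h2, by linarith⟩
  · rcases ux with ⟨-, ux⟩ | ⟨ε1, -⟩
    · have := X.R2_le (s := X.ι x + 2 * θ) (t := e) (by linarith) (by linarith) (by linarith)
      exact ⟨x, h1, h2, by linarith⟩
    · rcases ub with ⟨ε2, -⟩ | ⟨-, ub⟩
      · rw [ε1] at ε2; norm_num at ε2
      · have := X.R2_le (s := X.ι x) (t := X.ι (X.σ e + s) - 2 * θ) (by linarith) (by linarith)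
          (by linarith)
        rw [X.σ_ι] at this
        exact ⟨X.σ e + s, by rw [p2], by rw [p2]; linarith, by linarith⟩

theorem R4b_lam (he : |e| ≤ ρ₀ + 90 * Θ) (hx : In X ρ₀ Θ 50 x) (hG : 4 * θ < |X.ι x - e|)
    (hr : D.r x = |x - X.σ e|) (s0 : 0 < s) (h1 : s ≤ D.r x) (h2 : D.r x ≤ 2 * s)
    (hF : Flat A D.u (X.σ e) s) (h3 : ∀ y, |y - X.σ e| ≤ 4 * s → |X.ι y - e| ≤ 40 * Θ) :
    |Real.log (s / D.u (X.σ e + s)) - Real.log (D.k x)| ≤ Real.log (24 * A * C1 A) := by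
  obtain ⟨n1, n2, n3, n4⟩ := D.R2_num
  obtain ⟨e1, e2⟩ := abs_le.1 he
  obtain ⟨A1, A2⟩ := D.R3_A
  have p2 : |X.σ e + s - X.σ e| = s := by
    rw [add_sub_cancel_left, abs_of_pos s0]
  obtain ⟨q1, q2⟩ := abs_le.1 (h3 (X.σ e + s) (by rw [p2]; linarith))
  have u0 : 0 < D.u (X.σ e + s) := D.u_pos (abs_le.2 ⟨by linarith, by linarith⟩)
  have ux : 0 < D.u x := D.u_pos (D.R3_In hx (by norm_num))
  have k1 := D.R3_k x
  have x120 : In X ρ₀ Θ 120 x := D.R3_In hx (by norm_num)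
  have f1 : D.u x ≤ A * D.u (X.σ e + s) :=
    hF _ _ (by linarith) (by linarith) (by rw [p2]; linarith) (by rw [p2]; linarith)
  have f2 : D.u (X.σ e + s) ≤ A * D.u x :=
    hF _ _ (by rw [p2]; linarith) (by rw [p2]; linarith) (by linarith) (by linarith)
  have l1 := D.L_h x120 (d := s / 2) (by linarith) fun y y' hy hy' => by
    have b1 := abs_sub_le x y (X.σ e)
    have b2 := abs_sub_le y x (X.σ e)
    have b3 := abs_sub_le x y' (X.σ e)
    have b4 := abs_sub_le y' x (X.σ e)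
    rw [abs_sub_comm x y] at b1
    rw [abs_sub_comm x y'] at b3
    exact (hF y y' (by linarith) (by linarith) (by linarith) (by linarith)).trans
      (mul_le_mul_of_nonneg_right A2 (abs_nonneg _))
  have C0 : 0 < C1 A := by linarith
  have A0 : (0 : ℝ) < A := by linarith
  have g1 : s ≤ 24 * A * C1 A * D.k x * D.u (X.σ e + s) := by
    have b1 : C1 A * D.ϱ x ≤ C1 A * (D.k x * (A * D.u (X.σ e + s))) :=
      mul_le_mul_of_nonneg_left (mul_le_mul_of_nonneg_left f1 (by linarith)) C0.le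
    have b2 : 0 ≤ C1 A * (D.k x * (A * D.u (X.σ e + s))) := by positivity
    linarith
  have g2 : D.k x * D.u (X.σ e + s) ≤ 24 * A * C1 A * s := by
    have b0 : 0 ≤ A * (C1 A * s) := by positivity
    rcases le_total 8 (D.k x) with c | c
    · have b1 := D.U_r x120 c
      have b2 : D.k x * D.u (X.σ e + s) ≤ D.k x * (A * D.u x) :=
        mul_le_mul_of_nonneg_left f2 (by linarith)
      have b3 : 8 * C1 A * D.r x ≤ 8 * C1 A * (2 * s) :=
        mul_le_mul_of_nonneg_left h2 (by linarith)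
      have b4 := mul_le_mul_of_nonneg_left (b1.trans b3) A0.le
      unfold RD.ϱ at b4
      linarith
    · obtain ⟨y, y1, y2, y3⟩ := D.R4b_small he hx hG s0 (hr ▸ h1) (hr ▸ h2) h3
      have b1 : D.u (X.σ e + s) ≤ A * D.u y :=
        hF _ _ (by rw [p2]; linarith) (by rw [p2]; linarith) (by linarith) (by linarith)
      have b2 := mul_le_mul_of_nonneg_left y3 A0.le
      have b3 := mul_le_mul_of_nonneg_right c u0.le
      have b4 : A * s ≤ A * (C1 A * s) :=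
        mul_le_mul_of_nonneg_left (le_mul_of_one_le_left s0.le (by linarith)) A0.le
      linarith
  have K0 : 0 < 24 * A * C1 A := by positivity
  have k0 : 0 < D.k x := by linarith
  have z0 : 0 < s / D.u (X.σ e + s) := by positivity
  have r1 : Real.log (s / D.u (X.σ e + s)) ≤ Real.log (24 * A * C1 A * D.k x) :=
    Real.log_le_log z0 (by rwa [div_le_iff₀ u0])
  have r2 : Real.log (D.k x) ≤ Real.log (24 * A * C1 A * (s / D.u (X.σ e + s))) :=
    Real.log_le_log k0 (by rwa [← mul_div_assoc, le_div_iff₀ u0])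
  rw [Real.log_mul K0.ne' k0.ne'] at r1
  rw [Real.log_mul K0.ne' z0.ne'] at r2
  exact abs_le.2 ⟨by linarith, by linarith⟩

theorem R4b_mark {n : ℕ} (hn : 2 * Real.log (24 * A * C1 A) ≤ n) (v : ℝ) (e : ℝ) (he : e ∈ D.E)
    (he' : |e| ≤ ρ₀ + 90 * Θ) : ∃ I : Finset ℤ, (I.card : ℝ) ≤ (n + 2) * (A * V) ∧
      ∀ x, In X ρ₀ Θ 50 x → 4 * θ < |X.ι x - e| → D.r x = |x - X.σ e| → |X.ι x - e| ≤ 2 * Θ →
        v ≤ Real.log (D.k x) → Real.log (D.k x) ≤ v + V → ∃ i ∈ I, x ∈ D.Zn e i := by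
  obtain ⟨n1, n2, n3, n4⟩ := D.R2_num
  obtain ⟨e1, e2⟩ := abs_le.1 he'
  obtain ⟨Exc, Reg, c1, c2, c3, c4⟩ := D.reg e he he'
  have c5 := R4b_cover D.V_ge c4 (v - Real.log (24 * A * C1 A)) n
  have c6 := ((Nat.cast_le (α := ℝ)).2 (Finset.card_union_le _ _)).trans
    ((Nat.cast_add _ _).trans_le (add_le_add c1 c5))
  refine ⟨_, c6.trans_eq (by ring), fun x hx hG hr hΘ v1 v2 => ?_⟩
  obtain ⟨x1, x2⟩ := abs_le.1 hΘ
  have r0 : 0 < D.r x := by
    rw [hr, abs_pos, sub_ne_zero]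
    rintro rfl
    rw [X.ι_σ e (D.R2_E he), sub_self, abs_zero] at hG
    linarith
  have i1 := Int.zpow_log_le_self (b := 2) (by norm_num) r0
  have i2 := Int.lt_zpow_succ_log_self (b := 2) (by norm_num) (D.r x)
  generalize Int.log 2 (D.r x) = i at i1 i2
  rw [Nat.cast_ofNat] at i1 i2
  rw [zpow_add_one₀ (by norm_num), mul_comm] at i2
  have s0 : (0 : ℝ) < 2 ^ i := by positivity
  refine ⟨i, ?_, hx, hr, i1, i2⟩
  by_cases hi : i ∈ Exc
  · exact Finset.mem_union_left _ hi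
  have l1 : (2 : ℝ) ^ i ≤ X.len (e - 2 * Θ) (e + 2 * Θ) := by
    have a1 := X.R2_le (s := e - 2 * Θ) (t := X.ι x) (by linarith) (by linarith) (X.ι_mem x).2
    have a2 := X.R2_le (s := X.ι x) (t := e + 2 * Θ) (X.ι_mem x).1 (by linarith) (by linarith)
    have a3 := X.R2_le (s := e - 2 * Θ) (t := e) (by linarith) (by linarith) (by linarith)
    have a4 := X.R2_le (s := e) (t := e + 2 * Θ) (by linarith) (by linarith) (by linarith)
    rw [X.σ_ι] at a1 a2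
    refine i1.trans ?_
    rw [hr]
    unfold Ch.len
    exact abs_le.2 ⟨by linarith, by linarith⟩
  have hR : i ∈ Reg := by
    rcases (c2 i hi l1).2 with h | h
    · exact absurd (h x (by linarith)) (not_le.2 hG)
    · exact h
  obtain ⟨m1, m2⟩ := abs_le.1 (D.R4b_lam he' hx hG hr s0 i1 i2.le (c3 i hR).1 (c3 i hR).2)
  unfold RD.u at m1 m2
  exact Finset.mem_union_right _ (Finset.mem_filter.2 ⟨hR, by linarith, by linarith⟩)

end RD

theorem R4_zone_count (A : ℕ) : ∃ B : ℝ, 1 ≤ B ∧ ∀ {V ρ₀ Θ θ : ℝ} {X X' : Ch}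
    (D : RD A V ρ₀ Θ θ X X') (t v : ℝ), |t| ≤ ρ₀ + 40 * Θ → ∃ P : Finset (ℝ × ℤ),
      (P.card : ℝ) ≤ B * V ∧ ∀ x ∈ D.G, X.ι x ∈ Icc t (t + 2 * Θ) → v ≤ Real.log (D.k x) →
        Real.log (D.k x) ≤ v + V → ∃ q ∈ P, x ∈ D.Zn q.1 q.2 := by
  classical
  obtain ⟨n, hn⟩ := exists_nat_ge (2 * Real.log (24 * A * C1 A))
  have B0 : (0 : ℝ) ≤ A * ((n + 2) * A) := by positivity
  refine ⟨1 + A * ((n + 2) * A), by linarith, fun {V ρ₀ Θ θ X X'} D t v ht => ?_⟩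
  obtain ⟨n1, n2, n3, n4⟩ := D.R2_num
  obtain ⟨t1, t2⟩ := abs_le.1 ht
  have V1 := D.V_ge
  choose! I hI hZ using D.R4b_mark hn v
  have hm : ∀ e, |e - t| ≤ 4 * Θ → |e| ≤ ρ₀ + 90 * Θ := fun e h => by
    obtain ⟨a1, a2⟩ := abs_le.1 h
    exact abs_le.2 ⟨by linarith, by linarith⟩
  refine ⟨(D.E.filter fun e => |e - t| ≤ 4 * Θ).biUnion fun e => (I e).image fun i => (e, i),
    ?_, fun x hG hx v1 v2 => ?_⟩
  · have a1 : ((D.E.filter fun e => |e - t| ≤ 4 * Θ).card : ℝ) ≤ A := by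
      refine Nat.cast_le.2 (le_trans (Finset.card_le_card fun e he => ?_) (D.E_card t))
      obtain ⟨b1, b2⟩ := Finset.mem_filter.1 he
      exact Finset.mem_filter.2 ⟨b1, by linarith⟩
    have a2 : ∑ e ∈ D.E.filter fun e => |e - t| ≤ 4 * Θ,
        ((((I e).image fun i => (e, i)).card : ℕ) : ℝ) ≤ _ :=
      Finset.sum_le_card_nsmul _ _ ((n + 2) * (A * V)) fun e he => by
        obtain ⟨b1, b2⟩ := Finset.mem_filter.1 he
        exact le_trans (Nat.cast_le.2 Finset.card_image_le) (hI e b1 (hm e b2))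
    rw [nsmul_eq_mul, ← Nat.cast_sum] at a2
    have a3 := mul_le_mul_of_nonneg_right a1 (show (0 : ℝ) ≤ (n + 2) * (A * V) by positivity)
    refine le_trans (Nat.cast_le.2 Finset.card_biUnion_le) (a2.trans (a3.trans ?_))
    linarith
  · obtain ⟨x1, x2⟩ := hx
    have h50 : In X ρ₀ Θ 50 x := abs_le.2 ⟨by linarith, by linarith⟩
    obtain ⟨e, he, hr, hΘ⟩ := D.near_mark (D.R3_In h50 (by norm_num))
    obtain ⟨a1, a2⟩ := abs_le.1 hΘ
    have a3 : |e - t| ≤ 4 * Θ := abs_le.2 ⟨by linarith, by linarith⟩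
    obtain ⟨i, hi, hz⟩ := hZ e he (hm e a3) x h50 (hG e he) hr hΘ v1 v2
    exact ⟨(e, i), Finset.mem_biUnion.2 ⟨e, Finset.mem_filter.2 ⟨he, a3⟩,
      Finset.mem_image.2 ⟨i, hi, rfl⟩⟩, hz⟩

end Pool.Agent.Work.MP_042f46_an.Fu
end
end

-- merged part: Pool.Agent.Work.MP_042f46_an.F.R4c
section
/-! The weighted window bound (plan in `R4`). -/

open Set Metric Topology Filter MeasureTheory
open scoped ENNReal NNReal

noncomputable section
namespace Pool.Agent.Work.MP_042f46_an.Fu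

open Pool.Agent.Work.MP_042f46_an.Ty

theorem R4c_tel {a : ℤ → ℝ} (ha : Monotone a) {M : ℝ} (h : ∀ i, a i ∈ Icc 0 M) (c : ℤ) :
    ∑' i, ENNReal.ofReal (a (i + c + 1) - a (i + c)) ≤ ENNReal.ofReal M := by
  have h1 : Monotone fun i => a (i + c) := fun i j hij => ha (by omega)
  have h2 := measure_iUnion (μ := (volume : Measure ℝ)) h1.pairwise_disjoint_on_Ico_succ
    fun _ => measurableSet_Ico
  simp only [Real.volume_Ico, Order.succ_eq_add_one, add_right_comm _ (1 : ℤ) c] at h2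
  rw [← h2, ← sub_zero M, ← Real.volume_Icc]
  exact measure_mono (iUnion_subset fun i x hx => ⟨(h _).1.trans hx.1, hx.2.le.trans (h _).2⟩)

theorem R4c_tel3 {a : ℤ → ℝ} (ha : Monotone a) {M : ℝ} (h : ∀ i, a i ∈ Icc 0 M) :
    ∑' i, ENNReal.ofReal (a (i + 2) - a (i + -1)) ≤ 3 * ENNReal.ofReal M := by
  have h1 : ∀ i, ENNReal.ofReal (a (i + 2) - a (i + -1)) ≤
      ENNReal.ofReal (a (i + -1 + 1) - a (i + -1)) + ENNReal.ofReal (a (i + 0 + 1) - a (i + 0)) +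
        ENNReal.ofReal (a (i + 1 + 1) - a (i + 1)) := fun i => by
    refine le_trans (ENNReal.ofReal_le_ofReal (le_of_eq ?_))
      (ENNReal.ofReal_add_le.trans (add_le_add ENNReal.ofReal_add_le le_rfl))
    rw [show i + -1 + 1 = i by ring, add_zero, show i + 1 + 1 = i + 2 by ring]
    ring
  refine (ENNReal.tsum_le_tsum h1).trans ?_
  rw [ENNReal.tsum_add, ENNReal.tsum_add]
  refine (add_le_add (add_le_add (R4c_tel ha h _) (R4c_tel ha h _)) (R4c_tel ha h _)).trans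
    (le_of_eq (by ring))

/-- inner length of the part of a symmetric interval inside a window -/
def R4c_a (X : Ch) (l m p : ℝ) (i : ℤ) : ℝ :=
  max l (min m (X.ι (p + 2 ^ i))) - max l (min m (X.ι (p - 2 ^ i)))

theorem R4c_c (X : Ch) (l m : ℝ) {x y : ℝ} (h : x ≤ y) :
    max l (min m (X.ι x)) ≤ max l (min m (X.ι y)) :=
  max_le_max le_rfl (min_le_min le_rfl (X.ι_mono.monotone h))

theorem R4c_mono (X : Ch) (l m p : ℝ) : Monotone (R4c_a X l m p) := fun i j hij => by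
  have h : (2 : ℝ) ^ i ≤ 2 ^ j := zpow_le_zpow_right₀ one_le_two hij
  exact sub_le_sub (R4c_c X l m (by linarith only [h])) (R4c_c X l m (by linarith only [h]))

theorem R4c_mem (X : Ch) {l m : ℝ} (h : l ≤ m) (p : ℝ) (i : ℤ) :
    R4c_a X l m p i ∈ Icc 0 (m - l) := by
  have h0 : (0 : ℝ) < 2 ^ i := by positivity
  exact ⟨sub_nonneg.2 (R4c_c X l m (by linarith only [h0])),
    sub_le_sub (max_le h (min_le_left _ _)) (le_max_left _ _)⟩

theorem R4c_w (X : Ch) {l m p x r : ℝ} {i : ℤ} (hr : r = |x - p|) (h1 : (2 : ℝ) ^ i ≤ r)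
    (h2 : r < 2 * (2 : ℝ) ^ i) (h3 : l ≤ X.ι (x - r / 2)) (h4 : X.ι (x + r / 2) ≤ m) :
    X.ι (x + r / 2) - X.ι (x - r / 2) ≤ R4c_a X l m p (i + 2) - R4c_a X l m p (i + -1) := by
  have h0 : (0 : ℝ) < 2 ^ i := by positivity
  have h5 : X.ι (x - r / 2) ≤ X.ι (x + r / 2) := X.ι_mono.monotone (by linarith only [h0, h1])
  have e1 : max l (min m (X.ι (x - r / 2))) = X.ι (x - r / 2) := by
    rw [min_eq_right (h5.trans h4), max_eq_right h3]
  have e2 : max l (min m (X.ι (x + r / 2))) = X.ι (x + r / 2) := by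
    rw [min_eq_right h4, max_eq_right (h3.trans h5)]
  have p1 : (2 : ℝ) ^ (i + 2) = 4 * 2 ^ i := by
    rw [zpow_add₀ two_ne_zero]
    norm_num
    ring
  have p2 : (2 : ℝ) ^ (i + -1) = 2 ^ i / 2 := by
    rw [zpow_add₀ two_ne_zero, zpow_neg_one, div_eq_mul_inv]
  unfold R4c_a
  rw [p1, p2]
  rcases abs_cases (x - p) with ⟨k, -⟩ | ⟨k, -⟩
  · have a1 := R4c_c X l m (show x + r / 2 ≤ p + 4 * 2 ^ i by linarith only [hr, k, h2, h0])
    have a2 := R4c_c X l m (show p + 2 ^ i / 2 ≤ x - r / 2 by linarith only [hr, k, h1])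
    have a3 := R4c_c X l m (show p - 4 * 2 ^ i ≤ p - 2 ^ i / 2 by linarith only [h0])
    linarith only [a1, a2, a3, e1, e2]
  · have a1 := R4c_c X l m (show x + r / 2 ≤ p - 2 ^ i / 2 by linarith only [hr, k, h1])
    have a2 := R4c_c X l m (show p - 4 * 2 ^ i ≤ x - r / 2 by linarith only [hr, k, h2, h0])
    have a3 := R4c_c X l m (show p + 2 ^ i / 2 ≤ p + 4 * 2 ^ i by linarith only [h0])
    linarith only [a1, a2, a3, e1, e2]

theorem R4_win_W (A : ℕ) : ∃ B : ℝ, 1 ≤ B ∧ ∀ {V ρ₀ Θ θ : ℝ} {X X' : Ch} (D : RD A V ρ₀ Θ θ X X')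
    (t κ : ℝ), |t| ≤ ρ₀ + 40 * Θ →
      ∫⁻ x in {x | x ∈ D.G ∧ X.ι x ∈ Icc t (t + 2 * Θ) ∧ κ ≤ D.k x ∧ D.k x ≤ 2 * κ},
        ENNReal.ofReal ((D.w x / Θ) ^ 2 / D.ϱ' x) ≤ ENNReal.ofReal B := by
  obtain ⟨B, hB, hz⟩ := R4_zone A
  have A0 : (0 : ℝ) ≤ A := Nat.cast_nonneg A
  refine ⟨A * (72 * B) + 1, le_add_of_nonneg_left (by positivity), ?_⟩
  intro V ρ₀ Θ θ X X' D t κ ht
  obtain ⟨n1, n2, n3, n4⟩ := D.R2_num
  have Θ0 : 0 < Θ := by linarith only [n1, n2]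
  obtain ⟨t1, t2⟩ := abs_le.1 ht
  obtain ⟨P, hP, hc⟩ : ∃ P : Finset ℝ, (∀ e ∈ D.E, |e - t| ≤ 100 * Θ → e ∈ P) ∧ P.card ≤ A :=
    ⟨_, fun e h1 h2 => Finset.mem_filter.2 ⟨h1, h2⟩, D.E_card t⟩
  have hIn : ∀ x, X.ι x ∈ Icc t (t + 2 * Θ) → In X ρ₀ Θ 50 x := fun x hx =>
    abs_le.2 ⟨by linarith only [hx.1, t1, Θ0], by linarith only [hx.2, t2, Θ0]⟩
  have rc : Continuous D.r := continuous_infDist_pt _
  obtain ⟨M, hM⟩ : ∃ M : ℝ → ℤ → Set ℝ, M = fun e i => {x | X.ι x ∈ Icc t (t + 2 * Θ) ∧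
      D.r x = |x - X.σ e| ∧ (2 : ℝ) ^ i ≤ D.r x ∧ D.r x < 2 * (2 : ℝ) ^ i} := ⟨_, rfl⟩
  have mM : ∀ e i, MeasurableSet (M e i) := fun e i => by
    rw [hM]
    exact (X.ι_cont.measurable measurableSet_Icc).inter
      ((isClosed_eq rc (by fun_prop)).measurableSet.inter
        ((measurableSet_le measurable_const rc.measurable).inter
          (measurableSet_lt rc.measurable measurable_const)))
  have cov : {x | x ∈ D.G ∧ X.ι x ∈ Icc t (t + 2 * Θ) ∧ κ ≤ D.k x ∧ D.k x ≤ 2 * κ} ⊆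
      ⋃ e : P, ⋃ i : ℤ, {x | x ∈ M e i ∧ κ ≤ D.k x ∧ D.k x ≤ 2 * κ} := by
    rintro x ⟨h1, h2, h3⟩
    obtain ⟨e, he, k1, k2⟩ := D.near_mark (D.R3_In (hIn x h2) (by norm_num))
    obtain ⟨k3, k4⟩ := abs_le.1 k2
    have r0 : 0 < D.r x := by
      refine (D.R3_r x).lt_of_ne' fun h => ?_
      have h4 := h1 e he
      rw [sub_eq_zero.1 (abs_eq_zero.1 (k1.symm.trans h)), X.ι_σ e (D.R2_E he), sub_self,
        abs_zero] at h4
      linarith only [h4, n1]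
    refine mem_iUnion₂.2 ⟨⟨e, hP e he (abs_le.2 ⟨by linarith only [h2.1, k4, Θ0],
      by linarith only [h2.2, k3, Θ0]⟩)⟩, Int.log 2 (D.r x), ?_, h3⟩
    rw [hM]
    have b1 := Int.zpow_log_le_self (b := 2) (by norm_num) r0
    have b2 := Int.lt_zpow_succ_log_self (b := 2) (by norm_num) (D.r x)
    rw [Nat.cast_ofNat] at b1 b2
    rw [zpow_add_one₀ two_ne_zero, mul_comm] at b2
    exact ⟨h2, k1, b1, b2⟩
  have one : ∀ e i, ∫⁻ x in {x | x ∈ M e i ∧ κ ≤ D.k x ∧ D.k x ≤ 2 * κ},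
      ENNReal.ofReal ((D.w x / Θ) ^ 2 / D.ϱ' x) ≤ ENNReal.ofReal (4 / Θ) * ENNReal.ofReal B *
        ENNReal.ofReal (R4c_a X (t - 2 * Θ) (t + 4 * Θ) (X.σ e) (i + 2) -
          R4c_a X (t - 2 * Θ) (t + 4 * Θ) (X.σ e) (i + -1)) := fun e i => by
    rw [mul_right_comm, ← ENNReal.ofReal_mul (by positivity)]
    refine le_trans ?_ (mul_le_mul_right ((lintegral_mono_set (s := {x | x ∈ M e i ∧ κ ≤ D.k x ∧
      D.k x ≤ 2 * κ}) fun x hx => ?_).trans ((hz D e i).1 κ)) _)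
    · rw [← lintegral_const_mul' _ _ ENNReal.ofReal_ne_top]
      refine lintegral_mono_ae (ae_restrict_of_ae_restrict_of_subset (fun x hx => hx.1)
        ((ae_restrict_mem (mM e i)).mono fun x hx => ?_))
      rw [hM] at hx
      obtain ⟨h1, h2, h3, h4⟩ := hx
      have r0 := D.R3_r x
      have i1 := D.R3_In (hIn x h1) (show (50 : ℝ) ≤ 130 by norm_num)
      have w1 := abs_le.1 (D.within (y := x - D.r x / 2) i1
        (abs_le.2 ⟨by linarith only [r0], by linarith only [r0]⟩))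
      have w2 := abs_le.1 (D.within (y := x + D.r x / 2) i1
        (abs_le.2 ⟨by linarith only [r0], by linarith only [r0]⟩))
      have w3 : D.w x ≤ _ := R4c_w X (l := t - 2 * Θ) (m := t + 4 * Θ) h2 h3 h4
        (by linarith only [w1.1, h1.1]) (by linarith only [w2.2, h1.2])
      have w4 : D.w x ≤ 4 * Θ := by
        unfold RD.w
        linarith only [w1.1, w2.2]
      have w0 : 0 ≤ D.w x := sub_nonneg.2 (X.ι_mono.monotone (by linarith only [r0]))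
      rw [div_eq_mul_one_div _ (D.ϱ' x), ENNReal.ofReal_mul (sq_nonneg _)]
      refine mul_le_mul_left (ENNReal.ofReal_le_ofReal ?_) _
      calc (D.w x / Θ) ^ 2 = D.w x / Θ / Θ * D.w x := by ring
        _ ≤ _ := mul_le_mul (div_le_div_of_nonneg_right ((div_le_iff₀ Θ0).2 w4) Θ0.le) w3 w0
          (by positivity)
    · have h := hx.1
      rw [hM] at h
      exact ⟨⟨hIn x h.1, h.2⟩, hx.2⟩
  have two : ∀ e, ∫⁻ x in ⋃ i : ℤ, {x | x ∈ M e i ∧ κ ≤ D.k x ∧ D.k x ≤ 2 * κ},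
      ENNReal.ofReal ((D.w x / Θ) ^ 2 / D.ϱ' x) ≤ ENNReal.ofReal (72 * B) := fun e => by
    refine (lintegral_iUnion_le _ _).trans ((ENNReal.tsum_le_tsum (one e)).trans ?_)
    rw [ENNReal.tsum_mul_left]
    refine (mul_le_mul_right (R4c_tel3 (R4c_mono X _ _ _)
      (R4c_mem X (by linarith only [Θ0]) _)) _).trans (le_of_eq ?_)
    rw [← ENNReal.ofReal_ofNat 3, ← ENNReal.ofReal_mul (by positivity),
      ← ENNReal.ofReal_mul (by positivity), ← ENNReal.ofReal_mul (by positivity)]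
    congr 1
    field_simp
    ring
  refine (lintegral_mono_set cov).trans ((lintegral_iUnion_le _ _).trans
    ((ENNReal.tsum_le_tsum fun e : P => two e).trans ?_))
  rw [tsum_fintype, Finset.sum_const, Finset.card_univ, Fintype.card_coe, nsmul_eq_mul,
    ← ENNReal.ofReal_natCast, ← ENNReal.ofReal_mul (Nat.cast_nonneg _)]
  have c1 : (P.card : ℝ) ≤ A := by exact_mod_cast hc
  exact ENNReal.ofReal_le_ofReal
    ((mul_le_mul_of_nonneg_right c1 (by positivity)).trans (le_add_of_nonneg_right zero_le_one))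

end Pool.Agent.Work.MP_042f46_an.Fu
end
end

-- merged part: Pool.Agent.Work.MP_042f46_an.F.R4
section
/-!
# Zones

`Zn e i` = points whose nearest mark is `e`, at the scale `2 ^ i`.
`zone`: the zone lies in two intervals of length `2 ^ i`; cover them by `2 A` intervals `Q` of length `2 ^ i / A`.  Points with `u > r / A` have `ϱ' ≥ r / A`.  If `Q` meets the zone in a point `x₀` with `u x₀ ≤ r x₀ / A`, then `Q ⊆ [x₀ - s, x₀ + s]`, `s = r x₀ / A`, `loc_scale`: `1 / ϱ' ≤ B / d`; `half` gives the second bound (`r y ≥ s`).  First bound: for `κ < 8`, `low` gives `ϱ' ≥ min u r ≥ r / (256 B)`; for `κ ≥ 8`, `ϱ y ≤ 8 C1 r y ≤ 16 C1 A s`, so `d y / u y` is between `κ / C'` and `2 B κ`: `win`.  (The sets need not be shown measurable: `lintegral_mono_set`, `lintegral_union_le`; monotonicity in the integrand on a measurable superset, `setLIntegral_mono'` with the measurable window of `win`: `u` is continuous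 on the interval.)
`zone_count`: a point `x` of the tile has its nearest mark `e` within `2 Θ` (`near_mark`; at most `A` such marks), `0 < r x`, `i = Int.log 2 (r x)`, `2 ^ i ≤ len (e - 2 Θ) (e + 2 Θ)`.  If `i ∉ Exc e` then `i ∈ Reg e` (the first alternative fails at `x ∈ G`).  Let `s = 2 ^ i`, `p = σ e`, `λ = log (s / u (p + s))`.  (1) `u (p + s) ≤ 5 A s`: for `ε = 1`, if `x < p` then `g x < p`, `u x ≤ 2 s`; if `x > p` then `g (p - s) < g p = σ (e + 2 θ) < x`, `u (p - s) ≤ 3 s`; mirror image for `ε = -1`; `Flat`.  (2) `L_h` with `d = s / 2` (`Flat` twice is not needed: `Flat` compares any two points; `A ≤ C1`): `s ≤ 2 C1 k x u x ≤ 2 C1 A k x u (p + s)`, so `λ ≤ log (k x) + c`.  (3) If `8 ≤ k x`, `U_r` gives `log (k x) ≤ λ + c`; otherwise `v ≤ log 8` and `λ ≥ -log (5 A)`.  So `λ ∈ [v - c, v + V + c]`, which is covered by `2 c + 1` windows of length `V`.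
`win_N`, `win_R`: `zone_count` and `zone`.  `win_W`: sum over all zones `(e, i)`; on the zone `w x ≤ W e i`, the volume of the set of `t' ∈ [t - 2 Θ, t + 4 Θ]` with `2 ^ (i - 1) ≤ |σ t' - σ e| ≤ 2 ^ (i + 2)`; `W ≤ 6 Θ` and `∑ i, W e i ≤ 24 Θ`.
-/

open Set Metric Topology Filter MeasureTheory
open scoped ENNReal NNReal

noncomputable section
namespace Pool.Agent.Work.MP_042f46_an.Fu

open Pool.Agent.Work.MP_042f46_an.Ty

theorem zone (A : ℕ) : ∃ B : ℝ, 1 ≤ B ∧ ∀ {V ρ₀ Θ θ : ℝ} {X X' : Ch} (D : RD A V ρ₀ Θ θ X X')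
    (e : ℝ) (i : ℤ),
      (∀ κ : ℝ, ∫⁻ x in {x | x ∈ D.Zn e i ∧ κ ≤ D.k x ∧ D.k x ≤ 2 * κ},
        ENNReal.ofReal (1 / D.ϱ' x) ≤ ENNReal.ofReal B) ∧
      ∫⁻ x in D.Zn e i, ENNReal.ofReal (1 / √(D.ϱ' x * D.r x)) ≤ ENNReal.ofReal B :=
  R4_zone A

theorem zone_count (A : ℕ) : ∃ B : ℝ, 1 ≤ B ∧ ∀ {V ρ₀ Θ θ : ℝ} {X X' : Ch}
    (D : RD A V ρ₀ Θ θ X X') (t v : ℝ), |t| ≤ ρ₀ + 40 * Θ → ∃ P : Finset (ℝ × ℤ),
      (P.card : ℝ) ≤ B * V ∧ ∀ x ∈ D.G, X.ι x ∈ Icc t (t + 2 * Θ) → v ≤ Real.log (D.k x) →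
        Real.log (D.k x) ≤ v + V → ∃ q ∈ P, x ∈ D.Zn q.1 q.2 :=
  R4_zone_count A

theorem R4_sum {ι : Type} (f : ℝ → ℝ≥0∞) (W : Set ℝ) (P : Finset ι) (Z : ι → Set ℝ) {c n : ℝ}
    (hc : 0 ≤ c) (hn : (P.card : ℝ) ≤ n) (hW : ∀ x ∈ W, ∃ q ∈ P, x ∈ Z q)
    (hb : ∀ q, ∫⁻ x in Z q, f x ≤ ENNReal.ofReal c) :
    ∫⁻ x in W, f x ≤ ENNReal.ofReal (n * c) := by
  have hsub : W ⊆ ⋃ q : P, Z q := fun x hx => by
    obtain ⟨q, hq, h⟩ := hW x hx
    exact mem_iUnion.2 ⟨⟨q, hq⟩, h⟩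
  calc ∫⁻ x in W, f x ≤ ∫⁻ x in ⋃ q : P, Z q, f x := lintegral_mono_set hsub
    _ ≤ ∑' q : P, ∫⁻ x in Z q, f x := lintegral_iUnion_le _ _
    _ ≤ ∑' _q : P, ENNReal.ofReal c := ENNReal.tsum_le_tsum fun q => hb _
    _ = ENNReal.ofReal (P.card * c) := by
        rw [tsum_fintype, Finset.sum_const, Finset.card_univ, Fintype.card_coe, nsmul_eq_mul,
          ENNReal.ofReal_mul (Nat.cast_nonneg _), ENNReal.ofReal_natCast]
    _ ≤ ENNReal.ofReal (n * c) := ENNReal.ofReal_le_ofReal (mul_le_mul_of_nonneg_right hn hc)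

theorem win_N (A : ℕ) : ∃ B : ℝ, 1 ≤ B ∧ ∀ {V ρ₀ Θ θ : ℝ} {X X' : Ch} (D : RD A V ρ₀ Θ θ X X')
    (t κ : ℝ), |t| ≤ ρ₀ + 40 * Θ →
      ∫⁻ x in {x | x ∈ D.G ∧ X.ι x ∈ Icc t (t + 2 * Θ) ∧ κ ≤ D.k x ∧ D.k x ≤ 2 * κ},
        ENNReal.ofReal (1 / D.ϱ' x) ≤ ENNReal.ofReal (B * V) := by
  obtain ⟨B1, hB1, h1⟩ := zone A
  obtain ⟨B2, hB2, h2⟩ := zone_count A
  refine ⟨B2 * B1, by nlinarith, ?_⟩
  intro V ρ₀ Θ θ X X' D t κ ht
  obtain ⟨P, hP, hc⟩ := h2 D t (Real.log κ) ht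
  rw [show B2 * B1 * V = B2 * V * B1 by ring]
  refine R4_sum _ _ P (fun q => {x | x ∈ D.Zn q.1 q.2 ∧ κ ≤ D.k x ∧ D.k x ≤ 2 * κ})
    (by linarith) hP ?_ fun q => (h1 D q.1 q.2).1 κ
  rintro x ⟨hG, hx, ha, hb⟩
  have hk : 1 ≤ D.k x := le_max_right _ _
  have hκ : 0 < κ := by linarith
  have h3 : Real.log (D.k x) ≤ Real.log κ + V := by
    have a1 := Real.log_le_log (by linarith) hb
    rw [Real.log_mul (by norm_num) hκ.ne'] at a1
    have a2 := Real.log_le_sub_one_of_pos (show (0 : ℝ) < 2 by norm_num)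
    linarith [D.V_ge]
  obtain ⟨q, hq, hz⟩ := hc x hG hx (Real.log_le_log hκ ha) h3
  exact ⟨q, hq, hz, ha, hb⟩

theorem win_R (A : ℕ) : ∃ B : ℝ, 1 ≤ B ∧ ∀ {V ρ₀ Θ θ : ℝ} {X X' : Ch} (D : RD A V ρ₀ Θ θ X X')
    (t v : ℝ), |t| ≤ ρ₀ + 40 * Θ →
      ∫⁻ x in {x | x ∈ D.G ∧ X.ι x ∈ Icc t (t + 2 * Θ) ∧ v ≤ Real.log (D.k x) ∧
        Real.log (D.k x) ≤ v + V}, ENNReal.ofReal (1 / √(D.ϱ' x * D.r x)) ≤
        ENNReal.ofReal (B * V) := by
  obtain ⟨B1, hB1, h1⟩ := zone A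
  obtain ⟨B2, hB2, h2⟩ := zone_count A
  refine ⟨B2 * B1, by nlinarith, ?_⟩
  intro V ρ₀ Θ θ X X' D t v ht
  obtain ⟨P, hP, hc⟩ := h2 D t v ht
  rw [show B2 * B1 * V = B2 * V * B1 by ring]
  refine R4_sum _ _ P (fun q => D.Zn q.1 q.2) (by linarith) hP ?_ fun q => (h1 D q.1 q.2).2
  rintro x ⟨hG, hx, ha, hb⟩
  exact hc x hG hx ha hb

theorem win_W (A : ℕ) : ∃ B : ℝ, 1 ≤ B ∧ ∀ {V ρ₀ Θ θ : ℝ} {X X' : Ch} (D : RD A V ρ₀ Θ θ X X')
    (t κ : ℝ), |t| ≤ ρ₀ + 40 * Θ →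
      ∫⁻ x in {x | x ∈ D.G ∧ X.ι x ∈ Icc t (t + 2 * Θ) ∧ κ ≤ D.k x ∧ D.k x ≤ 2 * κ},
        ENNReal.ofReal ((D.w x / Θ) ^ 2 / D.ϱ' x) ≤ ENNReal.ofReal B :=
  R4_win_W A

end Pool.Agent.Work.MP_042f46_an.Fu
end
end

-- merged part: Pool.Agent.Work.MP_042f46_an.F.R7
section
/-!
# Counting units

Plan.  `cnt_band` (`κ ≥ 16`): cut the tile into intervals `I` of inner length `κ θ / 4` (there is nothing to prove if `κ > Θ / θ`, `hh_le`).  If `I` contains `s₀` with `κ ≤ kb s₀ ≤ 2 κ`, then on `I`: `kb ∈ [3 κ / 4, 9 κ / 4]`, the points are in `G` (`good_of_lt`), `u` is within the factor `C1` of `u (σ s₀)`, `len I ≥ κ u / (16 C1)` (`unit_ge`), `ϱ' ≤ 9 κ C1 u / 4`; so the integral of `1 / ϱ'` over `σ '' I` is at least `1 / (36 C1 ^ 2)`; `win_N` for two windows and two tiles bounds the number of such `I`.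
`cnt_low`: intervals `I` of inner length `2 θ`.  At most `6 A` of them come within `4 θ` of a mark.  For the others that contain a point with `kb ≤ 16`: `k ≤ 18` on `I`, `len I = u x₁` for an end point `x₁`, `r x₁ ≤ B 18 ^ 2 u x₁` (`low`), `ϱ' ≤ r ≤ r x₁ + len I`; `win_N` for five windows.  `cnt_kb`: sum over `κ = 16 · 2 ^ j ≤ k`.
-/

open Set Metric Topology Filter MeasureTheory
open scoped ENNReal NNReal

noncomputable section
namespace Pool.Agent.Work.MP_042f46_an.Fu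

open Pool.Agent.Work.MP_042f46_an.Ty

/-- Packing: every grid interval that meets `S` carries mass `c` in the outer coordinate. -/
theorem R7_pack {S W : Set ℝ} {σ : ℝ → ℝ} {f : ℝ → ℝ≥0∞} {t L η c M : ℝ} (hη : 0 < η)
    (hc : 0 < c) (hM0 : 0 ≤ M) (hS : S ⊆ Icc t (t + L)) (hσ : MonotoneOn σ (Icc t (t + L + η)))
    (h : ∀ a ∈ Icc t (t + L), ∀ s ∈ S, s ∈ Ico a (a + η) → Ico (σ a) (σ (a + η)) ⊆ W ∧
      ENNReal.ofReal c ≤ ∫⁻ x in Ico (σ a) (σ (a + η)), f x)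
    (hM : ∫⁻ x in W, f x ≤ ENNReal.ofReal M) : volume S ≤ ENNReal.ofReal (η * (M / c)) := by
  classical
  obtain ⟨J, hJ⟩ : ∃ J : Finset ℕ, J = (Finset.range (⌊L / η⌋₊ + 1)).filter
    fun j : ℕ => ∃ s ∈ S, s ∈ Ico (t + j * η) (t + j * η + η) := ⟨_, rfl⟩
  have mJ : ∀ j ∈ J, ∃ s ∈ S, s ∈ Ico (t + j * η) (t + j * η + η) := fun j hj => by
    rw [hJ] at hj
    exact (Finset.mem_filter.1 hj).2
  have aJ : ∀ j ∈ J, t + j * η ∈ Icc t (t + L) := fun j hj => by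
    obtain ⟨s, h1, h2⟩ := mJ j hj
    exact ⟨le_add_of_nonneg_right (by positivity), h2.1.trans (hS h1).2⟩
  have cov : S ⊆ ⋃ j ∈ J, Ico (t + j * η) (t + j * η + η) := by
    intro s hs
    have h0 : 0 ≤ (s - t) / η := div_nonneg (sub_nonneg.2 (hS hs).1) hη.le
    have h1 := (le_div_iff₀ hη).1 (Nat.floor_le h0)
    have h2 := (div_lt_iff₀ hη).1 (Nat.lt_floor_add_one ((s - t) / η))
    have h3 : s ∈ Ico (t + ⌊(s - t) / η⌋₊ * η) (t + ⌊(s - t) / η⌋₊ * η + η) :=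
      ⟨by linarith only [h1], by linarith only [h2]⟩
    refine mem_iUnion₂.2 ⟨⌊(s - t) / η⌋₊, ?_, h3⟩
    rw [hJ]
    refine Finset.mem_filter.2 ⟨Finset.mem_range.2 (Nat.lt_succ_of_le (Nat.floor_mono
      (div_le_div_of_nonneg_right ?_ hη.le))), s, hs, h3⟩
    linarith only [(hS hs).2]
  have v1 : volume S ≤ ENNReal.ofReal (J.card * η) := by
    refine (measure_mono cov).trans ((measure_biUnion_finset_le _ _).trans (le_of_eq ?_))
    simp only [Real.volume_Ico, add_sub_cancel_left, Finset.sum_const, nsmul_eq_mul]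
    rw [ENNReal.ofReal_mul (Nat.cast_nonneg _), ENNReal.ofReal_natCast]
  have dj : ∀ j ∈ J, ∀ j' ∈ J, j < j' → Disjoint (Ico (σ (t + j * η)) (σ (t + j * η + η)))
      (Ico (σ (t + j' * η)) (σ (t + j' * η + η))) := by
    intro j hj j' hj' hlt
    have h1 : (j : ℝ) + 1 ≤ j' := by exact_mod_cast hlt
    have h2 := mul_le_mul_of_nonneg_right h1 hη.le
    have h3 := aJ j hj
    have h4 := aJ j' hj'
    have h5 : σ (t + j * η + η) ≤ σ (t + j' * η) :=
      hσ ⟨by linarith only [h3.1, hη], by linarith only [h3.2]⟩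
        ⟨h4.1, by linarith only [h4.2, hη]⟩ (by linarith only [h2])
    exact disjoint_left.2 fun x k k' => (k.2.trans_le h5).not_ge k'.1
  have v2 : ENNReal.ofReal (J.card * c) ≤ ENNReal.ofReal M := by
    refine le_trans ?_ ((lintegral_mono_set (s := ⋃ j ∈ J,
      Ico (σ (t + j * η)) (σ (t + j * η + η))) (iUnion₂_subset fun j hj => ?_)).trans hM)
    · rw [lintegral_biUnion_finset (fun j hj j' hj' hne => (lt_or_gt_of_ne hne).elim
        (dj j hj j' hj') fun k => (dj j' hj' j hj k).symm) (fun _ _ => measurableSet_Ico),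
        ENNReal.ofReal_mul (Nat.cast_nonneg _), ENNReal.ofReal_natCast, ← nsmul_eq_mul]
      refine Finset.card_nsmul_le_sum _ _ _ fun j hj => ?_
      obtain ⟨s, h1, h2⟩ := mJ j hj
      exact (h _ (aJ j hj) s h1 h2).2
    · obtain ⟨s, h1, h2⟩ := mJ j hj
      exact (h _ (aJ j hj) s h1 h2).1
  have v3 := (le_div_iff₀ hc).2 ((ENNReal.ofReal_le_ofReal_iff hM0).1 v2)
  refine v1.trans (ENNReal.ofReal_le_ofReal ?_)
  rw [mul_comm]
  exact mul_le_mul_of_nonneg_left v3 hη.le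

theorem R7_int {g : ℝ → ℝ} {p q m c : ℝ} (hm : 0 < m) (hc : c * m ≤ q - p)
    (h : ∀ x ∈ Ico p q, 0 < g x ∧ g x ≤ m) :
    ENNReal.ofReal c ≤ ∫⁻ x in Ico p q, ENNReal.ofReal (1 / g x) := by
  refine le_trans ?_ (setLIntegral_mono' (f := fun _ => ENNReal.ofReal (1 / m)) measurableSet_Ico
    fun x hx => ENNReal.ofReal_le_ofReal (one_div_le_one_div_of_le (h x hx).1 (h x hx).2))
  rw [setLIntegral_const, Real.volume_Ico, ← ENNReal.ofReal_mul (by positivity)]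
  refine ENNReal.ofReal_le_ofReal ?_
  rw [one_div, ← div_eq_inv_mul]
  exact (le_div_iff₀ hm).2 hc

theorem R7_mono (X : Ch) : MonotoneOn X.σ (Ioo (-(1 / 2) : ℝ) (1 / 2)) := fun s hs s' hs' h =>
  X.ι_mono.le_iff_le.1 (by rwa [X.ι_σ s hs, X.ι_σ s' hs'])

theorem R7_ι (X : Ch) {a b x : ℝ} (ha : a ∈ Ioo (-(1 / 2) : ℝ) (1 / 2))
    (hb : b ∈ Ioo (-(1 / 2) : ℝ) (1 / 2)) (hx : x ∈ Ico (X.σ a) (X.σ b)) : X.ι x ∈ Icc a b :=
  ⟨(X.ι_σ a ha).ge.trans (X.ι_mono.monotone hx.1),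
    (X.ι_mono.monotone hx.2.le).trans (X.ι_σ b hb).le⟩

theorem R7_pos {A : ℕ} {V ρ₀ Θ θ : ℝ} {X X' : Ch} (D : RD A V ρ₀ Θ θ X X') {x : ℝ}
    (h : In X ρ₀ Θ 130 x) (hG : x ∈ D.G) : 0 < D.ϱ' x := by
  have h1 := D.θ_pos
  have h2 := D.θ_le
  have h3 := D.ρ_le
  have h4 := D.ρ_nonneg
  refine lt_min (mul_pos (one_pos.trans_le (le_max_right _ _)) (D.u_pos ?_)) ?_
  · unfold In at h ⊢
    linarith
  · obtain ⟨e, he, h5, -⟩ := D.near_mark h
    rw [h5, abs_pos, sub_ne_zero]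
    intro k
    have h6 := hG e he
    have h7 := abs_le.1 (D.E_mem e he)
    rw [k, X.ι_σ e ⟨by linarith, by linarith⟩, sub_self, abs_zero] at h6
    linarith

/-- Several windows over two tiles. -/
theorem R7_win (A : ℕ) : ∃ B : ℝ, 1 ≤ B ∧ ∀ {V ρ₀ Θ θ : ℝ} {X X' : Ch}
    (D : RD A V ρ₀ Θ θ X X') (t κ : ℝ) (n : ℕ), |t| ≤ ρ₀ + 36 * Θ →
      ∫⁻ x in {x | x ∈ D.G ∧ X.ι x ∈ Icc t (t + 4 * Θ) ∧ κ ≤ D.k x ∧ D.k x ≤ 2 ^ (n + 1) * κ},
        ENNReal.ofReal (1 / D.ϱ' x) ≤ ENNReal.ofReal ((n + 1) * (B * V)) := by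
  obtain ⟨B, hB, hw⟩ := win_N A
  refine ⟨2 * B, by linarith, fun {V ρ₀ Θ θ X X'} D t κ n ht => ?_⟩
  have h1 := D.θ_pos
  have h2 := D.θ_le
  have hV := D.V_ge
  have hBV : 0 ≤ B * V := by positivity
  have one : ∀ κ : ℝ,
      ∫⁻ x in {x | x ∈ D.G ∧ X.ι x ∈ Icc t (t + 4 * Θ) ∧ κ ≤ D.k x ∧ D.k x ≤ 2 * κ},
        ENNReal.ofReal (1 / D.ϱ' x) ≤ ENNReal.ofReal (2 * B * V) := by
    intro κ
    have h3 := abs_le.1 ht
    have k1 := hw D t κ (by linarith)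
    have k2 := hw D (t + 2 * Θ) κ (abs_le.2 ⟨by linarith, by linarith⟩)
    refine le_trans (lintegral_mono_set fun x hx => ?_)
      ((lintegral_union_le _ _ _).trans ((add_le_add k1 k2).trans (le_of_eq ?_)))
    · rcases le_total (X.ι x) (t + 2 * Θ) with k | k
      · exact Or.inl ⟨hx.1, ⟨hx.2.1.1, k⟩, hx.2.2⟩
      · exact Or.inr ⟨hx.1, ⟨k, by linarith only [hx.2.1.2]⟩, hx.2.2⟩
    · rw [← ENNReal.ofReal_add hBV hBV]
      ring_nf
  induction n with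
  | zero => simpa using one κ
  | succ n ih =>
    refine le_trans (lintegral_mono_set fun x hx => ?_) ((lintegral_union_le _ _ _).trans
      ((add_le_add ih (one (2 ^ (n + 1) * κ))).trans (le_of_eq ?_)))
    · rcases le_total (D.k x) (2 ^ (n + 1) * κ) with k | k
      · exact Or.inl ⟨hx.1, hx.2.1, hx.2.2.1, k⟩
      · exact Or.inr ⟨hx.1, hx.2.1, k, hx.2.2.2.trans (le_of_eq (by ring))⟩
    · rw [← ENNReal.ofReal_add (by positivity) (by positivity)]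
      push_cast
      ring_nf

theorem R7_band (A : ℕ) : ∃ B : ℝ, 1 ≤ B ∧ ∀ {V ρ₀ Θ θ : ℝ} {X X' : Ch}
    (D : RD A V ρ₀ Θ θ X X') (t κ : ℝ), |t| ≤ ρ₀ + 36 * Θ → 16 ≤ κ →
      volume {s | s ∈ Icc t (t + 2 * Θ) ∧ κ ≤ D.kb s ∧ D.kb s ≤ 2 * κ} ≤
        ENNReal.ofReal (B * V * κ * θ) := by
  obtain ⟨B, hB, hw⟩ := R7_win A
  refine ⟨18 * (C1 A ^ 2 + 1) * B, by nlinarith only [hB, sq_nonneg (C1 A)],
    fun {V ρ₀ Θ θ X X'} D t κ ht hκ => ?_⟩
  have h1 := D.θ_pos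
  have h2 := D.θ_le
  have h3 := D.ρ_le
  have h4 := D.ρ_nonneg
  have hV := D.V_ge
  have hC := (one_le_C1 (A := A) (le_trans (by norm_num) D.A_ge)).2
  have ht' := abs_le.1 ht
  have hκθ : 16 * θ ≤ κ * θ := mul_le_mul_of_nonneg_right hκ h1.le
  rcases lt_or_ge Θ (κ * θ) with hΘ | hΘ
  · refine le_trans (le_of_eq (measure_mono_null (t := ∅) (fun s hs => ?_) measure_empty))
      zero_le
    have k1 := (le_div_iff₀ h1).1 (D.hh_le (t := s)
      (abs_le.2 ⟨by linarith [hs.1.1], by linarith [hs.1.2]⟩))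
    have k2 : κ ≤ D.hh s := (le_max_iff.1 hs.2.1).resolve_right (by linarith)
    have k3 := mul_le_mul_of_nonneg_right k2 h1.le
    linarith
  refine (R7_pack (σ := X.σ) (t := t) (L := 2 * Θ) (η := κ * θ / 4) (c := 1 / (36 * C1 A ^ 2))
    (by linarith) (by positivity) (by positivity) (fun s hs => hs.1)
    ((R7_mono X).mono fun s hs => ⟨by linarith [hs.1], by linarith [hs.2]⟩)
    (fun a ha s₀ hs hs' => ?_) (hw D t (3 * κ / 4) 1 ht)).trans
    (ENNReal.ofReal_le_ofReal ?_)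
  · have ma : a ∈ Ioo (-(1 / 2) : ℝ) (1 / 2) := ⟨by linarith [ha.1], by linarith [ha.2]⟩
    have mb : a + κ * θ / 4 ∈ Ioo (-(1 / 2) : ℝ) (1 / 2) :=
      ⟨by linarith [ha.1], by linarith [ha.2]⟩
    have s0 : |s₀| ≤ ρ₀ + 130 * Θ := abs_le.2 ⟨by linarith [hs.1.1], by linarith [hs.1.2]⟩
    have k2 : κ ≤ D.hh s₀ := (le_max_iff.1 hs.2.1).resolve_right (by linarith)
    obtain ⟨g1, g2⟩ := D.good_of_lt s0 (κ := κ / 2) (by linarith) (by linarith)
    have sub : ∀ s ∈ Icc a (a + κ * θ / 4), s ∈ Icc (s₀ - κ / 2 * θ) (s₀ + κ / 2 * θ) :=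
      fun s k => ⟨by linarith [k.1, hs'.2], by linarith [k.2, hs'.1]⟩
    have m0 := sub s₀ (Ico_subset_Icc_self hs')
    have u0 : 0 < D.u (X.σ s₀) := D.u_pos (by
      unfold In
      rw [X.ι_σ s₀ ⟨by linarith [hs.1.1], by linarith [hs.1.2]⟩]
      linarith)
    have pt : ∀ x ∈ Ico (X.σ a) (X.σ (a + κ * θ / 4)), In X ρ₀ Θ 130 x ∧ x ∈ D.G ∧
        X.ι x ∈ Icc t (t + 4 * Θ) ∧ 3 * κ / 4 ≤ D.k x ∧ D.k x ≤ 9 * κ / 4 := by
      intro x hx
      have k := R7_ι X ma mb hx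
      have i1 : In X ρ₀ Θ 130 x := abs_le.2 ⟨by linarith [k.1, ha.1], by linarith [k.2, ha.2]⟩
      have d1 : |X.ι x - s₀| ≤ κ * θ / 4 :=
        abs_le.2 ⟨by linarith [k.1, hs'.2], by linarith [k.2, hs'.1]⟩
      have d2 : |X.ι x - s₀| / θ ≤ κ / 4 := (div_le_iff₀ h1).2 (by linarith)
      have d3 := abs_le.1 ((D.kb_lip s0 i1).trans d2)
      refine ⟨i1, fun e he => ?_, ⟨by linarith [k.1, ha.1], by linarith [k.2, ha.2]⟩, ?_, ?_⟩
      · have d4 := g1 e he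
        have d5 := abs_sub_le e (X.ι x) s₀
        rw [abs_sub_comm e (X.ι x)] at d5
        linarith
      · unfold RD.k
        linarith [hs.2.1]
      · unfold RD.k
        linarith [hs.2.2]
    refine ⟨fun x hx => ?_, R7_int (m := 9 * κ / 4 * (C1 A * D.u (X.σ s₀))) (by positivity) ?_
      fun x hx => ?_⟩
    · obtain ⟨-, p2, p3, p4, p5⟩ := pt x hx
      exact ⟨p2, p3, p4, by linarith⟩
    · have k := D.unit_ge (a := a) (b := a + κ * θ / 4)
        (abs_le.2 ⟨by linarith [ha.1], by linarith [ha.2]⟩)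
        (abs_le.2 ⟨by linarith [ha.1], by linarith [ha.2]⟩) (by linarith)
        (m := D.u (X.σ s₀) / C1 A) fun s k =>
          (div_le_iff₀' (by linarith)).2 (g2 s₀ m0 s (sub s k))
      refine le_trans (le_of_eq ?_) k
      field_simp
      ring
    · obtain ⟨p1, p2, -, -, p5⟩ := pt x hx
      refine ⟨R7_pos D p1 p2, (min_le_left _ _).trans ?_⟩
      have k := g2 _ (sub _ (R7_ι X ma mb hx)) s₀ m0
      rw [X.σ_ι] at k
      exact mul_le_mul p5 k (D.u_pos (by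
        unfold In at p1 ⊢
        linarith)).le (by linarith)
  · have k : 0 ≤ B * V * κ * θ := by positivity
    have k' : κ * θ / 4 * ((((1 : ℕ) : ℝ) + 1) * (B * V) / (1 / (36 * C1 A ^ 2))) =
        18 * C1 A ^ 2 * (B * V * κ * θ) := by
      field_simp
      ring
    rw [k']
    linarith

theorem R7_low (A : ℕ) : ∃ B : ℝ, 1 ≤ B ∧ ∀ {V ρ₀ Θ θ : ℝ} {X X' : Ch}
    (D : RD A V ρ₀ Θ θ X X') (t : ℝ), |t| ≤ ρ₀ + 36 * Θ →
      volume {s | s ∈ Icc t (t + 2 * Θ) ∧ D.kb s ≤ 16} ≤ ENNReal.ofReal (B * V * θ) := by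
  classical
  obtain ⟨B, hB, hw⟩ := R7_win A
  obtain ⟨B', hB', hl⟩ := low A
  have hA : (0 : ℝ) ≤ A := Nat.cast_nonneg A
  refine ⟨12 * A + 10 * (B * (B' * 18 ^ 2 + 1)), by nlinarith only [hB, hB', hA],
    fun {V ρ₀ Θ θ X X'} D t ht => ?_⟩
  have h1 := D.θ_pos
  have h2 := D.θ_le
  have h3 := D.ρ_le
  have h4 := D.ρ_nonneg
  have hV := D.V_ge
  have ht' := abs_le.1 ht
  have v1 : volume (⋃ e ∈ D.E.filter fun e => |e - t| ≤ 100 * Θ, Icc (e - 6 * θ) (e + 6 * θ)) ≤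
      ENNReal.ofReal (12 * A * V * θ) := by
    refine (measure_biUnion_finset_le _ _).trans ?_
    have k : ∀ e : ℝ, e + 6 * θ - (e - 6 * θ) = 12 * θ := fun e => by ring
    simp only [Real.volume_Icc, k, Finset.sum_const, nsmul_eq_mul]
    rw [← ENNReal.ofReal_natCast, ← ENNReal.ofReal_mul (Nat.cast_nonneg _)]
    refine ENNReal.ofReal_le_ofReal ?_
    have k1 : ((D.E.filter fun e => |e - t| ≤ 100 * Θ).card : ℝ) ≤ A := by
      exact_mod_cast D.E_card t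
    have k2 := mul_le_mul_of_nonneg_right k1 (by positivity : 0 ≤ 12 * θ)
    have k3 := mul_le_mul_of_nonneg_left hV (by positivity : 0 ≤ 12 * A * θ)
    linarith
  have v2 : volume {s | s ∈ Icc t (t + 2 * Θ) ∧ D.kb s ≤ 16 ∧ ∀ e ∈ D.E, 6 * θ < |s - e|} ≤
      ENNReal.ofReal (10 * (B * (B' * 18 ^ 2 + 1)) * V * θ) := by
    refine (R7_pack (σ := X.σ) (t := t) (L := 2 * Θ) (η := 2 * θ) (c := 1 / (B' * 18 ^ 2 + 1))
      (by linarith) (by positivity) (by positivity) (fun s hs => hs.1)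
      ((R7_mono X).mono fun s hs => ⟨by linarith [hs.1], by linarith [hs.2]⟩)
      (fun a ha s₀ hs hs' => ?_) (hw D t 1 4 ht)).trans
      (ENNReal.ofReal_le_ofReal (le_of_eq ?_))
    · have ma : a ∈ Ioo (-(1 / 2) : ℝ) (1 / 2) := ⟨by linarith [ha.1], by linarith [ha.2]⟩
      have mb : a + 2 * θ ∈ Ioo (-(1 / 2) : ℝ) (1 / 2) :=
        ⟨by linarith [ha.1], by linarith [ha.2]⟩
      have s0 : |s₀| ≤ ρ₀ + 130 * Θ := abs_le.2 ⟨by linarith [hs.1.1], by linarith [hs.1.2]⟩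
      have pk : ∀ s ∈ Icc a (a + 2 * θ), |s| ≤ ρ₀ + 100 * Θ ∧ |s - s₀| ≤ 2 * θ ∧ D.kb s ≤ 18 := by
        intro s k
        have i1 : |s| ≤ ρ₀ + 100 * Θ :=
          abs_le.2 ⟨by linarith [k.1, ha.1], by linarith [k.2, ha.2]⟩
        have d1 : |s - s₀| ≤ 2 * θ :=
          abs_le.2 ⟨by linarith [k.1, hs'.2], by linarith [k.2, hs'.1]⟩
        have d3 := abs_le.1 ((D.kb_lip s0 (s := s) (by linarith)).trans ((div_le_iff₀ h1).2 d1))
        exact ⟨i1, d1, by linarith [hs.2.1]⟩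
      have pG : ∀ x ∈ Ico (X.σ a) (X.σ (a + 2 * θ)), x ∈ D.G := by
        intro x hx e he
        have d1 := (pk _ (R7_ι X ma mb hx)).2.1
        have d4 := hs.2.2 e he
        have d5 := abs_sub_le s₀ (X.ι x) e
        rw [abs_sub_comm s₀ (X.ι x)] at d5
        linarith
      obtain ⟨s₁, m1, e1⟩ : ∃ s₁, (s₁ = a ∨ s₁ = a + 2 * θ) ∧
          D.u (X.σ s₁) = X.σ (a + 2 * θ) - X.σ a := by
        rcases D.u_eq (t := a) (abs_le.2 ⟨by linarith [ha.1], by linarith [ha.2]⟩) with k | k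
        · exact ⟨a, Or.inl rfl, k.2⟩
        · rcases D.u_eq (t := a + 2 * θ) (abs_le.2 ⟨by linarith [ha.1], by linarith [ha.2]⟩)
            with k' | k'
          · exact absurd (k.1.symm.trans k'.1) (by norm_num)
          · refine ⟨a + 2 * θ, Or.inr rfl, k'.2.trans ?_⟩
            rw [add_sub_cancel_right]
            rfl
      have m2 : s₁ ∈ Icc a (a + 2 * θ) := by
        rcases m1 with k | k <;> rw [k] <;> exact ⟨by linarith, by linarith⟩
      have m3 : X.ι (X.σ s₁) = s₁ :=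
        X.ι_σ s₁ ⟨by linarith [m2.1, ma.1], by linarith [m2.2, mb.2]⟩
      obtain ⟨q1, -, q3⟩ := pk s₁ m2
      have l1 := hl D (X.σ s₁) 18 (by
        unfold In
        rwa [m3]) (by
        unfold RD.k
        rwa [m3])
      have u0 : 0 < D.u (X.σ s₁) := D.u_pos (by
        unfold In
        rw [m3]
        linarith)
      refine ⟨fun x hx => ?_, R7_int (m := (B' * 18 ^ 2 + 1) * D.u (X.σ s₁)) (by positivity) ?_
        fun x hx => ?_⟩
      · have k := R7_ι X ma mb hx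
        refine ⟨pG x hx, ⟨by linarith [k.1, ha.1], by linarith [k.2, ha.2]⟩, le_max_right _ _, ?_⟩
        have k1 := (pk _ k).2.2
        unfold RD.k
        norm_num
        linarith
      · rw [← e1]
        refine le_of_eq ?_
        field_simp
      · have k := (pk _ (R7_ι X ma mb hx)).1
        refine ⟨R7_pos D (by
          unfold In
          linarith) (pG x hx), (min_le_right _ _).trans ?_⟩
        have k1 := (abs_le.1 (D.r_lip x (X.σ s₁))).2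
        have k2 : |x - X.σ s₁| ≤ D.u (X.σ s₁) := by
          rw [e1]
          rcases m1 with k | k <;> rw [k] <;>
            exact abs_le.2 ⟨by linarith [hx.1, hx.2], by linarith [hx.1, hx.2]⟩
        linarith
    · push_cast
      field_simp
      ring
  refine le_trans (measure_mono fun s hs => ?_) ((measure_union_le _ _).trans
    ((add_le_add v1 v2).trans (le_of_eq ?_)))
  · by_cases k : ∀ e ∈ D.E, 6 * θ < |s - e|
    · exact Or.inr ⟨hs.1, hs.2, k⟩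
    · obtain ⟨e, he⟩ := not_forall.1 k
      obtain ⟨he, k1⟩ := Classical.not_imp.1 he
      have k2 := abs_le.1 (not_lt.1 k1)
      exact Or.inl (mem_iUnion₂.2 ⟨e, Finset.mem_filter.2 ⟨he, abs_le.2
        ⟨by linarith [hs.1.1], by linarith [hs.1.2]⟩⟩, by linarith, by linarith⟩)
  · rw [← ENNReal.ofReal_add (by positivity) (by positivity)]
    ring_nf

theorem cnt_kb (A : ℕ) : ∃ B : ℝ, 1 ≤ B ∧ ∀ {V ρ₀ Θ θ : ℝ} {X X' : Ch} (D : RD A V ρ₀ Θ θ X X')
    (t κ : ℝ), |t| ≤ ρ₀ + 36 * Θ → 1 ≤ κ →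
      volume {s | s ∈ Icc t (t + 2 * Θ) ∧ D.kb s ≤ κ} ≤ ENNReal.ofReal (B * V * κ * θ) := by
  obtain ⟨B₁, b1, h₁⟩ := R7_band A
  obtain ⟨B₂, b2, h₂⟩ := R7_low A
  refine ⟨16 * (B₁ + B₂), by linarith, fun {V ρ₀ Θ θ X X'} D t κ ht hκ => ?_⟩
  have h1 := D.θ_pos
  have hV := D.V_ge
  have key : ∀ n : ℕ, volume {s | s ∈ Icc t (t + 2 * Θ) ∧ D.kb s ≤ 16 * 2 ^ n} ≤
      ENNReal.ofReal ((B₁ + B₂) * V * (16 * 2 ^ n) * θ) := by
    intro n
    induction n with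
    | zero =>
      simp only [pow_zero, mul_one]
      refine (h₂ D t ht).trans (ENNReal.ofReal_le_ofReal ?_)
      have k1 : 0 ≤ B₁ * V * θ := by positivity
      have k2 : 0 ≤ B₂ * V * θ := by positivity
      linarith
    | succ n ih =>
      have k0 : (1 : ℝ) ≤ 2 ^ n := one_le_pow₀ one_le_two
      refine le_trans (measure_mono fun s hs => ?_) ((measure_union_le _ _).trans
        ((add_le_add ih (h₁ D t (16 * 2 ^ n) ht (by linarith))).trans ?_))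
      · rcases le_total (D.kb s) (16 * 2 ^ n) with k | k
        · exact Or.inl ⟨hs.1, k⟩
        · exact Or.inr ⟨hs.1, k, hs.2.trans (le_of_eq (by ring))⟩
      · rw [← ENNReal.ofReal_add (by positivity) (by positivity)]
        refine ENNReal.ofReal_le_ofReal ?_
        have k2 : 0 ≤ B₂ * V * (16 * 2 ^ n) * θ := by positivity
        rw [pow_succ]
        linarith
  obtain ⟨n, k1, k2⟩ := exists_nat_pow_near hκ one_lt_two
  have k0 : (0 : ℝ) < 2 ^ n := by positivity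
  rw [pow_succ] at k2
  refine le_trans (measure_mono fun s hs => ?_) ((key n).trans (ENNReal.ofReal_le_ofReal ?_))
  · exact ⟨hs.1, hs.2.trans (by linarith)⟩
  · have k3 := mul_le_mul_of_nonneg_left k1 (by positivity : 0 ≤ 16 * (B₁ + B₂) * V * θ)
    linarith

end Pool.Agent.Work.MP_042f46_an.Fu
end
end

-- merged part: Pool.Agent.Work.MP_042f46_an.F.R10
section
/-!
# Long chords

Plans.  `kernel`: for `x, x'` in `[σ t, σ (t + 2 Θ)]` and `y` at distance at least `d` from this interval `1 / (x - y) ^ 2 ≤ (1 + L / d) ^ 2 / (x' - y) ^ 2`, `L = len t (t + 2 Θ)`; so `φ x = ∫ y, 1 {ι y ∈ Y} / (x - y) ^ 2` satisfies `L φ x ≤ (1 + L / d) ^ 2 H (Icc t (t + 2 Θ) ×ˢ Y)` (`H_int`).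
`tail_kb`: `κ j = exp v₁ 2 ^ j ≥ 16`; on `Q j = {s | κ j ≤ kb s ≤ 2 κ j}` the integrand is at most `(j + 1) ^ 2`.  If `κ j > Θ / θ` the set is empty.  Cut the tile into intervals `I = [a, a + κ θ / 4]`; those that meet `Q j` in `s₀` lie in `{kb ≤ 9 κ / 4}` and in two tiles, so there are at most `18 B V` of them (`cnt_kb`); `len I ≤ C1 ϱ (σ s₀)` (`unit_le`, `good_of_lt`).  With `z = ℓ / ϱ` at `σ s₀`: `log κ ≤ log k = log (ℓ / u) - log z ≤ lam + B₀ (V + log (1 + z)) - log z`, and `z ≥ exp (-C V)` (`ϱ_le`), so `log z ≥ (log κ - lam) / B₀' - C' V`.  `sh` (with `δ = κ θ / 4 ∈ [4 θ, 4 Θ]`) carries the bound for `len I / ℓ a` over to `X'`; `cmp_ℓ` for both charts; `kernel`; `∑ (j + 1) ^ 2 2 ^ (-j / B₀')` converges and `V ≤ exp V`.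
-/

open Set Metric Topology Filter MeasureTheory
open scoped ENNReal NNReal

noncomputable section
namespace Pool.Agent.Work.MP_042f46_an.Fu

open Pool.Agent.Work.MP_042f46_an.Ty

/-- the mass of the chords from `x` into `Y` -/
def R10_φ (X : Ch) (Y : Set ℝ) (x : ℝ) : ℝ≥0∞ :=
  ∫⁻ y, Y.indicator 1 (X.ι y) * ENNReal.ofReal (1 / (x - y) ^ 2)

theorem R10_H (X : Ch) {P Y : Set ℝ} (hP : MeasurableSet P) (hY : MeasurableSet Y) :
    X.H (P ×ˢ Y) = ∫⁻ x in X.ι ⁻¹' P, R10_φ X Y x := by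
  rw [← lintegral_indicator_one (hP.prod hY), X.H_int (measurable_one.indicator (hP.prod hY)),
    ← lintegral_indicator (X.ι_cont.measurable hP)]
  refine lintegral_congr fun x => ?_
  by_cases hx : X.ι x ∈ P
  · rw [indicator_of_mem (show x ∈ X.ι ⁻¹' P from hx)]
    refine lintegral_congr fun y => ?_
    by_cases hy : X.ι y ∈ Y
    · rw [indicator_of_mem (mk_mem_prod hx hy), indicator_of_mem hy]
      rfl
    · rw [indicator_of_notMem (fun h => hy h.2), indicator_of_notMem hy]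
  · rw [indicator_of_notMem (show x ∉ X.ι ⁻¹' P from hx)]
    refine (lintegral_congr fun y => ?_).trans lintegral_zero
    rw [indicator_of_notMem (fun h => hx h.1), zero_mul]

theorem R10_ker {p q d x x' y : ℝ} (hd : 0 < d) (hx : x ∈ Icc p q) (hx' : x' ∈ Icc p q)
    (hy : y ≤ p - d ∨ q + d ≤ y) :
    1 / (x - y) ^ 2 ≤ (1 + (q - p) / d) ^ 2 * (1 / (x' - y) ^ 2) := by
  have h1 : d ≤ |x - y| := by
    rcases hy with h | h
    · exact le_abs.2 (Or.inl (by linarith [hx.1]))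
    · exact le_abs.2 (Or.inr (by linarith [hx.2]))
  have h2 : d ≤ |x' - y| := by
    rcases hy with h | h
    · exact le_abs.2 (Or.inl (by linarith [hx'.1]))
    · exact le_abs.2 (Or.inr (by linarith [hx'.2]))
  have hL : 0 ≤ q - p := by linarith [hx.1, hx.2]
  have h3 : |x' - y| ≤ |x - y| + (q - p) := by
    have a := abs_sub_le x' x y
    have b : |x' - x| ≤ q - p := abs_le.2 ⟨by linarith [hx.2, hx'.1], by linarith [hx.1, hx'.2]⟩
    linarith
  have h4 : q - p ≤ (q - p) / d * |x - y| := by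
    rw [div_mul_eq_mul_div, le_div_iff₀ hd]
    exact mul_le_mul_of_nonneg_left h1 hL
  have h5 : |x' - y| ≤ (1 + (q - p) / d) * |x - y| := by linarith
  have h6 : |x' - y| ^ 2 ≤ ((1 + (q - p) / d) * |x - y|) ^ 2 :=
    pow_le_pow_left₀ (abs_nonneg _) h5 2
  have p1 : 0 < (x - y) ^ 2 := by rw [← sq_abs]; exact pow_pos (hd.trans_le h1) 2
  have p2 : 0 < (x' - y) ^ 2 := by rw [← sq_abs]; exact pow_pos (hd.trans_le h2) 2
  rw [mul_pow, sq_abs, sq_abs] at h6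
  rw [mul_one_div, div_le_div_iff₀ p1 p2, one_mul]
  exact h6

theorem kernel (X : Ch) {t Θ d : ℝ} (hΘ : 0 < Θ) (h₀ : -(1 / 2) < t - 2 * Θ) (h₁ : t + 4 * Θ < 1 / 2)
    (hd : 0 < d) (h₂ : d ≤ X.len (t - 2 * Θ) t) (h₃ : d ≤ X.len (t + 2 * Θ) (t + 4 * Θ))
    {Y : Set ℝ} (hY : MeasurableSet Y) (hs : ∀ y ∈ Y, y ≤ t - 2 * Θ ∨ t + 4 * Θ ≤ y) {a b : ℝ}
    (ha : -(1 / 2) < a) (hab : a ≤ b) (hb : b < 1 / 2) :
    X.H ((Icc a b ∩ Icc t (t + 2 * Θ)) ×ˢ Y) ≤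
      ENNReal.ofReal ((1 + X.len t (t + 2 * Θ) / d) ^ 2 * (X.len a b / X.len t (t + 2 * Θ))) *
        X.H (Icc t (t + 2 * Θ) ×ˢ Y) := by
  have m0 : t - 2 * Θ ∈ Ioo (-(1 / 2) : ℝ) (1 / 2) := ⟨h₀, by linarith⟩
  have m1 : t ∈ Ioo (-(1 / 2) : ℝ) (1 / 2) := ⟨by linarith, by linarith⟩
  have m2 : t + 2 * Θ ∈ Ioo (-(1 / 2) : ℝ) (1 / 2) := ⟨by linarith, by linarith⟩
  have m3 : t + 4 * Θ ∈ Ioo (-(1 / 2) : ℝ) (1 / 2) := ⟨by linarith, h₁⟩
  have ma : a ∈ Ioo (-(1 / 2) : ℝ) (1 / 2) := ⟨ha, by linarith⟩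
  have mb : b ∈ Ioo (-(1 / 2) : ℝ) (1 / 2) := ⟨by linarith, hb⟩
  have hL : 0 < X.len t (t + 2 * Θ) := sub_pos.2 (X.σ_mono m1 m2 (by linarith))
  have hab' : 0 ≤ X.len a b := sub_nonneg.2 (X.σ_mono.monotoneOn ma mb hab)
  set L := X.len t (t + 2 * Θ) with hLd
  set c := ENNReal.ofReal ((1 + L / d) ^ 2) with hc
  have cmp : ∀ x ∈ Icc (X.σ t) (X.σ (t + 2 * Θ)), ∀ x' ∈ Icc (X.σ t) (X.σ (t + 2 * Θ)),
      R10_φ X Y x ≤ c * R10_φ X Y x' := by
    intro x hx x' hx'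
    unfold R10_φ
    rw [← lintegral_const_mul' _ _ ENNReal.ofReal_ne_top]
    refine lintegral_mono fun y => ?_
    by_cases hy : X.ι y ∈ Y
    · simp only [indicator_of_mem hy, Pi.one_apply, one_mul]
      rw [← ENNReal.ofReal_mul (sq_nonneg _)]
      refine ENNReal.ofReal_le_ofReal (R10_ker hd hx hx' ?_)
      unfold Ch.len at h₂ h₃
      rcases hs _ hy with h | h
      · have : y ∈ X.ι ⁻¹' Iic (t - 2 * Θ) := h
        rw [X.D1b_iic m0, mem_Iic] at this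
        exact Or.inl (by linarith)
      · have : y ∈ X.ι ⁻¹' Ici (t + 4 * Θ) := h
        rw [X.D1b_ici m3, mem_Ici] at this
        exact Or.inr (by linarith)
    · simp only [indicator_of_notMem hy, zero_mul, zero_le]
  have av : ∀ x ∈ Icc (X.σ t) (X.σ (t + 2 * Θ)),
      R10_φ X Y x ≤ ENNReal.ofReal ((1 + L / d) ^ 2 / L) * X.H (Icc t (t + 2 * Θ) ×ˢ Y) := by
    intro x hx
    have k : R10_φ X Y x * ENNReal.ofReal L ≤ c * X.H (Icc t (t + 2 * Θ) ×ˢ Y) := by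
      rw [R10_H X measurableSet_Icc hY, X.D1b_icc m1 m2,
        ← lintegral_const_mul' _ _ ENNReal.ofReal_ne_top]
      refine le_trans (le_of_eq ?_) (setLIntegral_mono' measurableSet_Icc (cmp x hx))
      rw [setLIntegral_const, Real.volume_Icc]
      rfl
    have l0 : ENNReal.ofReal L ≠ 0 := (ENNReal.ofReal_pos.2 hL).ne'
    rw [ENNReal.ofReal_div_of_pos hL, ENNReal.div_eq_inv_mul, mul_assoc,
      ← ENNReal.div_eq_inv_mul, ENNReal.le_div_iff_mul_le (Or.inl l0) (Or.inl ENNReal.ofReal_ne_top)]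
    exact k
  rw [R10_H X (measurableSet_Icc.inter measurableSet_Icc) hY, preimage_inter, X.D1b_icc ma mb,
    X.D1b_icc m1 m2]
  refine (setLIntegral_mono' (measurableSet_Icc.inter measurableSet_Icc)
    fun x hx => av x hx.2).trans ?_
  rw [setLIntegral_const]
  have v : volume (Icc (X.σ a) (X.σ b) ∩ Icc (X.σ t) (X.σ (t + 2 * Θ))) ≤
      ENNReal.ofReal (X.len a b) := (measure_mono inter_subset_left).trans Real.volume_Icc.le
  refine (mul_le_mul_right v _).trans (le_of_eq ?_)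
  rw [mul_right_comm, ← ENNReal.ofReal_mul (by positivity)]
  congr 2
  ring

theorem R10_cover {t T δ m : ℝ} (hδ : 0 < δ) (hm : 0 ≤ m) {Q W : Set ℝ} (hQ : Q ⊆ Icc t (t + T))
    (hW : ∀ s ∈ Q, ∀ s', t ≤ s' → |s' - s| ≤ δ → s' ∈ W) (hv : volume W ≤ ENNReal.ofReal m) :
    ∃ S : Finset ℕ, (S.card : ℝ) * δ ≤ m ∧
      (∀ i ∈ S, ∃ s ∈ Q, s ∈ Icc (t + i * δ) (t + i * δ + δ)) ∧
      Q ⊆ ⋃ i ∈ S, Icc (t + i * δ) (t + i * δ + δ) := by
  classical
  refine ⟨(Finset.range (⌊T / δ⌋₊ + 1)).filter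
    fun i => ∃ s ∈ Q, s ∈ Icc (t + i * δ) (t + i * δ + δ), ?_, fun i hi => (Finset.mem_filter.1 hi).2,
    fun s hs => ?_⟩
  · set S := (Finset.range (⌊T / δ⌋₊ + 1)).filter
      fun i : ℕ => ∃ s ∈ Q, s ∈ Icc (t + i * δ) (t + i * δ + δ) with hS
    have key : ∀ i j : ℕ, i < j →
        Disjoint (Ico (t + i * δ) (t + i * δ + δ)) (Ico (t + j * δ) (t + j * δ + δ)) := by
      intro i j h
      have h' : (i : ℝ) + 1 ≤ j := by exact_mod_cast h
      refine Set.disjoint_left.2 fun x h1 h2 => ?_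
      nlinarith [h1.2, h2.1]
    have dj : (S : Set ℕ).PairwiseDisjoint fun i : ℕ => Ico (t + i * δ) (t + i * δ + δ) := by
      intro i _ j _ h
      rcases lt_or_gt_of_ne h with h | h
      · exact key i j h
      · exact (key j i h).symm
    have sub : (⋃ i ∈ S, Ico (t + i * δ) (t + i * δ + δ)) ⊆ W := by
      refine iUnion₂_subset fun i hi x hx => ?_
      obtain ⟨s, hs, h1, h2⟩ := (Finset.mem_filter.1 hi).2
      have : 0 ≤ (i : ℝ) * δ := by positivity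
      exact hW s hs x (by linarith [hx.1]) (abs_le.2 ⟨by linarith [hx.1], by linarith [hx.2]⟩)
    have k := (measure_mono sub).trans hv
    rw [measure_biUnion_finset dj fun _ _ => measurableSet_Ico] at k
    simp only [Real.volume_Ico, add_sub_cancel_left, Finset.sum_const, nsmul_eq_mul] at k
    rwa [← ENNReal.ofReal_natCast, ← ENNReal.ofReal_mul (Nat.cast_nonneg _),
      ENNReal.ofReal_le_ofReal_iff hm] at k
  · have h0 : 0 ≤ (s - t) / δ := div_nonneg (sub_nonneg.2 (hQ hs).1) hδ.le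
    have h1 := Nat.floor_le h0
    have h2 := Nat.lt_floor_add_one ((s - t) / δ)
    rw [le_div_iff₀ hδ] at h1
    rw [div_lt_iff₀ hδ] at h2
    have h3 : s ∈ Icc (t + ⌊(s - t) / δ⌋₊ * δ) (t + ⌊(s - t) / δ⌋₊ * δ + δ) :=
      ⟨by linarith, by linarith⟩
    refine mem_iUnion₂.2 ⟨⌊(s - t) / δ⌋₊, Finset.mem_filter.2 ⟨Finset.mem_range.2
      (Nat.lt_succ_of_le (Nat.floor_mono ?_)), s, hs, h3⟩, h3⟩
    exact div_le_div_of_nonneg_right (by linarith [(hQ hs).2]) hδ.le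

theorem R10_pos (Y : Ch) {a b : ℝ} (ha : -(1 / 2) < a) (hab : a < b) (hb : b < 1 / 2) :
    0 < Y.len a b :=
  sub_pos.2 (Y.σ_mono ⟨ha, by linarith⟩ ⟨by linarith, hb⟩ hab)

theorem R10_z {κ k z F B V lam : ℝ} (hκ : 0 < κ) (hk : κ ≤ k) (hz : 0 < z) (hF : 1 ≤ F)
    (h1 : 1 ≤ F * z) (hB : 1 ≤ B) (h : Real.log (k * z) - lam ≤ B * (V + Real.log (1 + z))) :
    (Real.log κ - lam) / B - V - 2 * Real.log (2 * F) ≤ Real.log z := by
  have a1 : Real.log (1 + z) ≤ Real.log (2 * F) + Real.log z := by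
    rw [← Real.log_mul (by positivity) hz.ne']
    exact Real.log_le_log (by positivity) (by nlinarith)
  have a2 : 0 ≤ Real.log (2 * F) + Real.log z := by
    rw [← Real.log_mul (by positivity) hz.ne']
    exact Real.log_nonneg (by nlinarith)
  have a3 : 0 ≤ Real.log (2 * F) := Real.log_nonneg (by linarith)
  have a4 : Real.log κ ≤ Real.log k := Real.log_le_log hκ hk
  rw [Real.log_mul (hκ.trans_le hk).ne' hz.ne'] at h
  have a5 := mul_le_mul_of_nonneg_left a1 (zero_le_one.trans hB)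
  have a6 : Real.log (2 * F) ≤ B * Real.log (2 * F) := le_mul_of_one_le_left a3 hB
  have : (Real.log κ - lam) / B ≤ V + 2 * Real.log (2 * F) + Real.log z := by
    rw [div_le_iff₀ (zero_lt_one.trans_le hB)]
    nlinarith
  linarith

section

variable {A : ℕ} {V ρ₀ Θ θ : ℝ} {X X' : Ch} (D : RD A V ρ₀ Θ θ X X')

theorem R10_hh {s κ : ℝ} (hκ : 16 ≤ κ) (h : κ ≤ D.kb s) : κ ≤ D.hh s := by
  rcases le_max_iff.1 h with h | h
  · exact h
  · linarith

theorem R10_κ {s κ : ℝ} (hs : |s| ≤ ρ₀ + 130 * Θ) (hκ : 16 ≤ κ) (h : κ ≤ D.kb s) : κ * θ ≤ Θ :=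
  (le_div_iff₀ D.θ_pos).1 ((R10_hh D hκ h).trans (D.hh_le hs))

theorem R10_one {Y : Ch} (hY : Y = X ∨ Y = X') {t a s κ B lam : ℝ} (ht : |t| ≤ ρ₀) (hκ : 16 ≤ κ)
    (hk : κ ≤ D.kb s) (hs : s ∈ Icc t (t + 2 * Θ)) (ha : s ∈ Icc a (a + κ * θ / 4)) (hB : 1 ≤ B)
    (hG : ∀ x, In X ρ₀ Θ 50 x → Real.log (X.ℓ Θ (X.ι x) / D.u x) - lam ≤
      B * (V + Real.log (1 + X.ℓ Θ (X.ι x) / D.ϱ x))) :
    Y.len a (a + κ * θ / 4) / Y.len t (t + 2 * Θ) ≤
      Real.exp ((5 * A + 1 + 3 * Real.log (16 * C1 A)) * V - (Real.log κ - lam) / B) := by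
  have hθ := D.θ_pos
  have hΘ := D.θ_le
  have hρ := D.ρ_le
  have hV := D.V_ge
  have hC : 1 ≤ C1 A := (one_le_C1 (le_trans (by norm_num) D.A_ge)).2
  obtain ⟨t1, t2⟩ := abs_le.1 ht
  obtain ⟨s1, s2⟩ := hs
  obtain ⟨a1, a2⟩ := ha
  have r : ∀ n : ℝ, 2 ≤ n → |s| ≤ ρ₀ + n * Θ := fun n hn =>
    abs_le.2 ⟨by nlinarith, by nlinarith⟩
  have hκθ := R10_κ D (r 130 (by norm_num)) hκ hk
  have hδ : 4 * θ ≤ κ * θ / 4 := by nlinarith
  set δ := κ * θ / 4 with hδd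
  have hδ' : δ ≤ Θ / 4 := by linarith
  have ra : ∀ n : ℝ, 3 ≤ n → |a| ≤ ρ₀ + n * Θ := fun n hn =>
    abs_le.2 ⟨by nlinarith, by nlinarith⟩
  have ms : s ∈ Ioo (-(1 / 2) : ℝ) (1 / 2) := ⟨by linarith, by linarith⟩
  have e : X.ι (X.σ s) = s := X.ι_σ s ms
  have hin : ∀ n : ℝ, 2 ≤ n → In X ρ₀ Θ n (X.σ s) := fun n hn => by
    unfold In
    rw [e]
    exact r n hn
  have hu := D.u_pos (hin 200 (by norm_num))
  have hE : 1 ≤ Real.exp (A * V) := Real.one_le_exp (by positivity)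
  have hϱ : D.ϱ (X.σ s) = D.kb s * D.u (X.σ s) := by
    unfold RD.ϱ RD.k
    rw [e]
  have hϱ0 : 0 < D.ϱ (X.σ s) := by
    rw [hϱ]
    exact mul_pos (by linarith) hu
  have hℓ : 0 < X.ℓ Θ s := R10_pos X (by linarith) (by linarith) (by linarith)
  have g := (D.good_of_lt (r 130 (by norm_num)) (κ := κ / 4) (by linarith)
    (by linarith [R10_hh D hκ hk])).2
  have f1 : X.len a (a + δ) ≤ C1 A * D.ϱ (X.σ s) := by
    have := D.unit_le (a := a) (b := a + δ) (ra 190 (by norm_num))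
      (abs_le.2 ⟨by linarith, by linarith⟩) (by linarith) (m := C1 A * D.u (X.σ s))
      fun s' hs' => g s' ⟨by linarith [hs'.1], by linarith [hs'.2]⟩ s ⟨by linarith, by linarith⟩
    refine this.trans ?_
    have e2 : (a + δ - a) / θ = κ / 4 := by
      rw [hδd]
      field_simp
      ring
    rw [e2, hϱ]
    have : 0 < C1 A * D.u (X.σ s) := by positivity
    nlinarith
  have f2 : X.ℓ Θ s ≤ Real.exp (A * V) * X.ℓ Θ a :=
    D.cmp_ℓ (Or.inl rfl) (ra 140 (by norm_num)) (by linarith) (by linarith) (by linarith)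
  have f0 := D.ϱ_le (hin 120 (by norm_num))
  have hG' := hG _ (hin 50 (by norm_num))
  rw [e] at f0 hG'
  have hz : 0 < X.ℓ Θ s / D.ϱ (X.σ s) := div_pos hℓ hϱ0
  have e3 : X.ℓ Θ s / D.u (X.σ s) = D.kb s * (X.ℓ Θ s / D.ϱ (X.σ s)) := by
    have : D.kb s ≠ 0 := by linarith
    rw [hϱ]
    field_simp
  rw [e3] at hG'
  have f3 := R10_z (F := 8 * C1 A * Real.exp (A * V)) (by linarith : 0 < κ) hk hz (by nlinarith)
    (by rw [← mul_div_assoc, le_div_iff₀ hϱ0, one_mul]; exact f0) hB hG'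
  have e4 : Real.log (2 * (8 * C1 A * Real.exp (A * V))) = Real.log (16 * C1 A) + A * V := by
    rw [← mul_assoc, ← mul_assoc, Real.log_mul (by positivity) (by positivity), Real.log_exp]
    norm_num
  have c1 : Real.log (C1 A) ≤ Real.log (16 * C1 A) := Real.log_le_log (by linarith) (by linarith)
  have c0 : 0 ≤ Real.log (16 * C1 A) := Real.log_nonneg (by linarith)
  have pX : 0 < X.len a (a + δ) := R10_pos X (by linarith) (by linarith) (by linarith)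
  have f4 : Real.log (X.ℓ Θ s / D.ϱ (X.σ s)) - A * V - Real.log (C1 A) ≤ X.lam Θ a δ := by
    have k : X.ℓ Θ s / D.ϱ (X.σ s) ≤
        X.len (a - Θ) (a + Θ) / X.len a (a + δ) * (Real.exp (A * V) * C1 A) := by
      rw [div_mul_eq_mul_div, div_le_div_iff₀ hϱ0 pX]
      refine (mul_le_mul f2 f1 pX.le (hℓ.le.trans f2)).trans (le_of_eq ?_)
      unfold Ch.ℓ
      ring
    have pa : 0 < X.len (a - Θ) (a + Θ) := R10_pos X (by linarith) (by linarith) (by linarith)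
    have := Real.log_le_log hz k
    rw [Real.log_mul (by positivity) (by positivity), Real.log_mul (by positivity) (by positivity),
      Real.log_exp] at this
    unfold Ch.lam
    linarith
  have f5 : X.lam Θ a δ - A * V ≤ Y.lam Θ a δ := by
    rcases hY with rfl | rfl
    · have : 0 ≤ (A : ℝ) * V := by positivity
      linarith
    · linarith [(abs_le.1 (D.sh a δ (ra 60 (by norm_num)) hδ (by linarith))).1]
  have pY : 0 < Y.len a (a + δ) := R10_pos Y (by linarith) (by linarith) (by linarith)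
  have pa : 0 < Y.len (a - Θ) (a + Θ) := R10_pos Y (by linarith) (by linarith) (by linarith)
  have pL : 0 < Y.len t (t + 2 * Θ) := R10_pos Y (by linarith) (by linarith) (by linarith)
  have f7 : Y.len (a - Θ) (a + Θ) ≤ Real.exp (A * V) * Y.len t (t + 2 * Θ) := by
    have := D.cmp_ℓ hY (t := t + Θ) (a := a - Θ) (b := a + Θ)
      (abs_le.2 ⟨by linarith, by linarith⟩) (by linarith) (by linarith) (by linarith)
    unfold Ch.ℓ at this
    rwa [add_sub_cancel_right, show t + Θ + Θ = t + 2 * Θ by ring] at this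
  have f6 : Y.len a (a + δ) / Y.len t (t + 2 * Θ) ≤ Real.exp (A * V - Y.lam Θ a δ) := by
    unfold Ch.lam
    rw [Real.exp_sub, Real.exp_log (div_pos pa pY), div_div_eq_mul_div, div_le_div_iff₀ pL pa]
    nlinarith
  refine f6.trans (Real.exp_le_exp.2 ?_)
  have : Real.log (16 * C1 A) ≤ Real.log (16 * C1 A) * V := le_mul_of_one_le_right c0 hV
  nlinarith

theorem R10_band {Y : Ch} (hY : Y = X ∨ Y = X') {t κ Bc w : ℝ} (ht : |t| ≤ ρ₀) (hκ : 16 ≤ κ)
    (hBc : 1 ≤ Bc) (hw : 0 ≤ w)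
    (cnt : ∀ t κ : ℝ, |t| ≤ ρ₀ + 36 * Θ → 1 ≤ κ →
      volume {s | s ∈ Icc t (t + 2 * Θ) ∧ D.kb s ≤ κ} ≤ ENNReal.ofReal (Bc * V * κ * θ))
    (one : ∀ a s, κ ≤ D.kb s → s ∈ Icc t (t + 2 * Θ) → s ∈ Icc a (a + κ * θ / 4) →
      Y.len a (a + κ * θ / 4) / Y.len t (t + 2 * Θ) ≤ w)
    {Z : Set ℝ} (hZ : MeasurableSet Z) (hs : ∀ y ∈ Z, y ≤ t - 2 * Θ ∨ t + 4 * Θ ≤ y) :
    Y.H ({s | s ∈ Icc t (t + 2 * Θ) ∧ κ ≤ D.kb s ∧ D.kb s ≤ 2 * κ} ×ˢ Z) ≤
      ENNReal.ofReal (18 * Bc * V * ((1 + Real.exp (A * V)) ^ 2 * w)) *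
        Y.H (Icc t (t + 2 * Θ) ×ˢ Z) := by
  have hθ := D.θ_pos
  have hΘ := D.θ_le
  have hρ := D.ρ_le
  have hV := D.V_ge
  obtain ⟨t1, t2⟩ := abs_le.1 ht
  have r : ∀ s, t ≤ s → s ≤ t + 4 * Θ → |s| ≤ ρ₀ + 130 * Θ := fun s h1 h2 =>
    abs_le.2 ⟨by linarith, by linarith⟩
  have hδ : 0 < κ * θ / 4 := by positivity
  obtain ⟨S, h1, h2, h3⟩ := R10_cover (t := t) (T := 2 * Θ) (m := 18 * Bc * V * (κ * θ / 4))
    (Q := {s | s ∈ Icc t (t + 2 * Θ) ∧ κ ≤ D.kb s ∧ D.kb s ≤ 2 * κ})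
    (W := {s | s ∈ Icc t (t + 2 * Θ) ∧ D.kb s ≤ 9 * κ / 4} ∪
      {s | s ∈ Icc (t + 2 * Θ) (t + 2 * Θ + 2 * Θ) ∧ D.kb s ≤ 9 * κ / 4}) hδ (by positivity)
    (fun s hs => hs.1) (fun s hs s' h1 h2 => by
      obtain ⟨⟨s1, s2⟩, s3, s4⟩ := hs
      have rs := r s s1 (by linarith)
      have k := R10_κ D rs hκ s3
      obtain ⟨h3, h4⟩ := abs_le.1 h2
      have l := (abs_le.1 (D.kb_lip rs (r s' h1 (by linarith)))).2
      have l' : |s' - s| / θ ≤ κ / 4 := by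
        rw [div_le_iff₀ hθ]
        linarith
      rcases le_total s' (t + 2 * Θ) with h | h
      · exact Or.inl ⟨⟨h1, h⟩, by linarith⟩
      · exact Or.inr ⟨⟨h, by linarith⟩, by linarith⟩) (by
      refine (measure_union_le _ _).trans ((add_le_add
        (cnt t _ (abs_le.2 ⟨by linarith, by linarith⟩) (by linarith))
        (cnt _ _ (abs_le.2 ⟨by linarith, by linarith⟩) (by linarith))).trans (le_of_eq ?_))
      rw [← ENNReal.ofReal_add (by positivity) (by positivity)]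
      congr 1
      ring)
  have h1' : (S.card : ℝ) ≤ 18 * Bc * V := le_of_mul_le_mul_right h1 hδ
  have pL : 0 < Y.len t (t + 2 * Θ) := R10_pos Y (by linarith) (by linarith) (by linarith)
  have hE : 0 < Real.exp (A * V) := Real.exp_pos _
  have d1 : Y.len t (t + 2 * Θ) / Real.exp (A * V) ≤ Y.len (t - 2 * Θ) t := by
    have := D.cmp_ℓ hY (t := t - Θ) (a := t) (b := t + 2 * Θ)
      (abs_le.2 ⟨by linarith, by linarith⟩) (by linarith) (by linarith) (by linarith)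
    unfold Ch.ℓ at this
    rw [sub_add_cancel, show t - Θ - Θ = t - 2 * Θ by ring] at this
    rwa [div_le_iff₀' hE]
  have d2 : Y.len t (t + 2 * Θ) / Real.exp (A * V) ≤ Y.len (t + 2 * Θ) (t + 4 * Θ) := by
    have := D.cmp_ℓ hY (t := t + 3 * Θ) (a := t) (b := t + 2 * Θ)
      (abs_le.2 ⟨by linarith, by linarith⟩) (by linarith) (by linarith) (by linarith)
    unfold Ch.ℓ at this
    rw [show t + 3 * Θ - Θ = t + 2 * Θ by ring, show t + 3 * Θ + Θ = t + 4 * Θ by ring] at this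
    rwa [div_le_iff₀' hE]
  have sub : {s | s ∈ Icc t (t + 2 * Θ) ∧ κ ≤ D.kb s ∧ D.kb s ≤ 2 * κ} ×ˢ Z ⊆ ⋃ i ∈ S,
      (Icc (t + i * (κ * θ / 4)) (t + i * (κ * θ / 4) + κ * θ / 4) ∩ Icc t (t + 2 * Θ)) ×ˢ Z := by
    intro p hp
    obtain ⟨i, hi, k⟩ := mem_iUnion₂.1 (h3 hp.1)
    exact mem_iUnion₂.2 ⟨i, hi, ⟨k, hp.1.1⟩, hp.2⟩
  refine ((measure_mono sub).trans (measure_biUnion_finset_le _ _)).trans ?_
  refine (Finset.sum_le_card_nsmul _ _ (ENNReal.ofReal ((1 + Real.exp (A * V)) ^ 2 * w) *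
    Y.H (Icc t (t + 2 * Θ) ×ˢ Z)) fun i hi => ?_).trans ?_
  · obtain ⟨s, ⟨⟨s1, s2⟩, s3, -⟩, s4⟩ := h2 i hi
    have k := R10_κ D (r s s1 (by linarith)) hκ s3
    refine (kernel Y (by linarith) (by linarith) (by linarith) (div_pos pL hE) d1 d2 hZ hs
      (by linarith [s4.2]) (by linarith) (by linarith [s4.1])).trans (mul_le_mul_left
        (ENNReal.ofReal_le_ofReal ?_) _)
    rw [div_div_cancel₀ pL.ne']
    exact mul_le_mul_of_nonneg_left (one _ s s3 ⟨s1, s2⟩ s4) (sq_nonneg _)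
  · rw [nsmul_eq_mul, ← mul_assoc, ← ENNReal.ofReal_natCast,
      ← ENNReal.ofReal_mul (Nat.cast_nonneg _)]
    exact mul_le_mul_left (ENNReal.ofReal_le_ofReal
      (mul_le_mul_of_nonneg_right h1' (by positivity))) _

end

theorem R10_sum {r : ℝ} (h0 : 0 < r) (h1 : r < 1) :
    Summable fun j : ℕ => ((j : ℝ) + 1) ^ 2 * r ^ j := by
  have h := (summable_nat_add_iff 1).2 (summable_pow_mul_geometric_of_norm_lt_one 2
    (r := r) (by rwa [Real.norm_of_nonneg h0.le]))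
  refine (h.div_const r).congr fun j => ?_
  push_cast
  rw [pow_succ r, ← mul_assoc, mul_div_cancel_right₀ _ h0.ne']

theorem R10_num {A Bc V c S B₁ lam v₁ : ℝ} (j : ℕ) (hA : 0 ≤ A) (hBc : 1 ≤ Bc) (hV : 1 ≤ V)
    (hS : 0 ≤ S) (hB : 1 ≤ B₁)
    (hv : lam + B₁ * (Real.log (72 * Bc) + 1 + 2 * A + (5 * A + 1 + 3 * c) + S) * V ≤ v₁) :
    18 * Bc * V * ((1 + Real.exp (A * V)) ^ 2 * Real.exp ((5 * A + 1 + 3 * c) * V -
      (Real.log (Real.exp v₁ * 2 ^ j) - lam) / B₁)) ≤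
      Real.exp (-S) * Real.exp (-Real.log 2 / B₁) ^ j := by
  have hE : 1 ≤ Real.exp (A * V) := Real.one_le_exp (by positivity)
  have l0 : 0 ≤ Real.log (72 * Bc) := Real.log_nonneg (by linarith)
  have a1 : 72 * Bc ≤ Real.exp (Real.log (72 * Bc) * V) := by
    refine le_trans (Real.exp_log (by linarith)).ge (Real.exp_le_exp.2 ?_)
    exact le_mul_of_one_le_right l0 hV
  have a2 : V ≤ Real.exp V := by linarith [Real.add_one_le_exp V]
  have a3 : (1 + Real.exp (A * V)) ^ 2 ≤ 4 * Real.exp (2 * A * V) := by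
    rw [show 2 * A * V = A * V + A * V by ring, Real.exp_add]
    nlinarith
  have a4 : 18 * Bc * V * (1 + Real.exp (A * V)) ^ 2 ≤
      Real.exp (Real.log (72 * Bc) * V + V + 2 * A * V) := by
    rw [Real.exp_add, Real.exp_add]
    calc 18 * Bc * V * (1 + Real.exp (A * V)) ^ 2 ≤ 18 * Bc * V * (4 * Real.exp (2 * A * V)) :=
          mul_le_mul_of_nonneg_left a3 (by positivity)
      _ = 72 * Bc * V * Real.exp (2 * A * V) := by ring
      _ ≤ _ := mul_le_mul_of_nonneg_right (mul_le_mul a1 a2 (by linarith) (by positivity))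
          (by positivity)
  rw [← mul_assoc]
  refine (mul_le_mul_of_nonneg_right a4 (by positivity)).trans ?_
  rw [← Real.exp_add, ← Real.exp_nat_mul, ← Real.exp_add, Real.exp_le_exp,
    Real.log_mul (x := Real.exp v₁) (by positivity) (by positivity), Real.log_exp, Real.log_pow]
  have b1 : (Real.log (72 * Bc) + 1 + 2 * A + (5 * A + 1 + 3 * c) + S) * V ≤ (v₁ - lam) / B₁ := by
    rw [le_div_iff₀ (by linarith)]
    linarith
  have b2 : (v₁ + j * Real.log 2 - lam) / B₁ = (v₁ - lam) / B₁ - j * (-Real.log 2 / B₁) := by ring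
  have b3 : S ≤ S * V := le_mul_of_one_le_right hS hV
  rw [b2]
  linarith

theorem tail_kb (A : ℕ) (B₀ : ℝ) : ∃ B : ℝ, 3 ≤ B ∧ ∀ {V ρ₀ Θ θ : ℝ} {X X' : Ch}
    (D : RD A V ρ₀ Θ θ X X') (lam v₁ : ℝ), (∀ x, In X ρ₀ Θ 50 x →
      |Real.log (X.ℓ Θ (X.ι x) / D.u x) - lam| ≤
        B₀ * (V + Real.log (1 + X.ℓ Θ (X.ι x) / D.ϱ x))) → max lam 0 + B * V ≤ v₁ →
      ∀ Y : Ch, Y = X ∨ Y = X' → Tail ρ₀ Θ (fun t => dep v₁ (D.kb t) / V) Y.H := by
  obtain ⟨Bc, hBc, cnt⟩ := cnt_kb A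
  have hB : 1 ≤ max B₀ 1 := le_max_right _ _
  have hB' : B₀ ≤ max B₀ 1 := le_max_left _ _
  generalize max B₀ 1 = B₁ at hB hB'
  have r0 : 0 < Real.exp (-Real.log 2 / B₁) := Real.exp_pos _
  have r1 : Real.exp (-Real.log 2 / B₁) < 1 := Real.exp_lt_one_iff.2
    (div_neg_of_neg_of_pos (neg_neg_of_pos (Real.log_pos one_lt_two)) (by linarith))
  have sm := R10_sum r0 r1
  have hS : 0 ≤ ∑' j : ℕ, ((j : ℝ) + 1) ^ 2 * Real.exp (-Real.log 2 / B₁) ^ j :=
    tsum_nonneg fun j => by positivity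
  set S := ∑' j : ℕ, ((j : ℝ) + 1) ^ 2 * Real.exp (-Real.log 2 / B₁) ^ j with hSd
  refine ⟨max 3 (B₁ * (Real.log (72 * Bc) + 1 + 2 * A + (5 * A + 1 + 3 * Real.log (16 * C1 A)) + S)),
    le_max_left _ _, fun {V ρ₀ Θ θ X X'} D lam v₁ hG hv Y hY t ht Z hZ hs => ?_⟩
  have hθ := D.θ_pos
  have hΘ := D.θ_le
  have hρ := D.ρ_le
  have hV := D.V_ge
  obtain ⟨t1, t2⟩ := abs_le.1 ht
  have v1 : 3 ≤ v₁ := by
    have := mul_le_mul (le_max_left 3 (B₁ * (Real.log (72 * Bc) + 1 + 2 * A +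
      (5 * A + 1 + 3 * Real.log (16 * C1 A)) + S))) hV zero_le_one (le_max_of_le_left (by norm_num))
    linarith [le_max_right lam 0]
  have v2 : lam + B₁ * (Real.log (72 * Bc) + 1 + 2 * A + (5 * A + 1 + 3 * Real.log (16 * C1 A)) + S) *
      V ≤ v₁ := by
    have := mul_le_mul_of_nonneg_right (le_max_right 3 (B₁ * (Real.log (72 * Bc) + 1 + 2 * A +
      (5 * A + 1 + 3 * Real.log (16 * C1 A)) + S))) (zero_le_one.trans hV)
    linarith [le_max_left lam 0]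
  have e16 : 16 ≤ Real.exp v₁ := by
    have h := Real.exp_one_gt_d9
    have e : Real.exp 3 = Real.exp 1 * Real.exp 1 * Real.exp 1 := by
      rw [← Real.exp_add, ← Real.exp_add]
      norm_num
    have h2 : 7 ≤ Real.exp 1 * Real.exp 1 := by nlinarith
    have := Real.exp_le_exp.2 v1
    nlinarith
  have k16 : ∀ j : ℕ, 16 ≤ Real.exp v₁ * 2 ^ j := fun j =>
    e16.trans (le_mul_of_one_le_right (by linarith) (one_le_pow₀ one_le_two))
  have hG' : ∀ x, In X ρ₀ Θ 50 x → Real.log (X.ℓ Θ (X.ι x) / D.u x) - lam ≤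
      B₁ * (V + Real.log (1 + X.ℓ Θ (X.ι x) / D.ϱ x)) := by
    intro x hx
    refine (le_abs_self _).trans ((hG x hx).trans (mul_le_mul_of_nonneg_right hB' ?_))
    obtain ⟨x1, x2⟩ := abs_le.1 hx
    have p1 : 0 < X.ℓ Θ (X.ι x) := R10_pos X (by linarith) (by linarith) (by linarith)
    have p2 : 0 < D.ϱ x := mul_pos (zero_lt_one.trans_le (le_max_right _ _))
      (D.u_pos (abs_le.2 ⟨by linarith, by linarith⟩))
    have := Real.log_nonneg (le_add_of_nonneg_right (div_pos p1 p2).le : (1 : ℝ) ≤ 1 + _)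
    linarith
  have co : ContinuousOn D.kb (Icc t (t + 2 * Θ)) := by
    refine (LipschitzOnWith.of_dist_le' (K := 1 / θ) fun x hx y hy => ?_).continuousOn
    rw [Real.dist_eq, Real.dist_eq, one_div_mul_eq_div]
    exact D.kb_lip (abs_le.2 ⟨by linarith [hy.1], by linarith [hy.2]⟩)
      (abs_le.2 ⟨by linarith [hx.1], by linarith [hx.2]⟩)
  have sub : Icc t (t + 2 * Θ) ×ˢ Z ⊆
      {s | s ∈ Icc t (t + 2 * Θ) ∧ D.kb s ≤ Real.exp v₁} ×ˢ Z ∪ ⋃ j : ℕ,
        {s | s ∈ Icc t (t + 2 * Θ) ∧ Real.exp v₁ * 2 ^ j ≤ D.kb s ∧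
          D.kb s ≤ 2 * (Real.exp v₁ * 2 ^ j)} ×ˢ Z := by
    intro p hp
    rcases le_total (D.kb p.1) (Real.exp v₁) with h | h
    · exact Or.inl ⟨⟨hp.1, h⟩, hp.2⟩
    · obtain ⟨j, j1, j2⟩ := exists_nat_pow_near
        ((one_le_div (Real.exp_pos v₁)).2 h) (one_lt_two (α := ℝ))
      rw [le_div_iff₀' (Real.exp_pos v₁)] at j1
      rw [div_lt_iff₀' (Real.exp_pos v₁), pow_succ] at j2
      exact Or.inr (mem_iUnion.2 ⟨j, ⟨hp.1, j1, by linarith⟩, hp.2⟩)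
  have kp : ∀ s, 0 < D.kb s := fun s => zero_lt_one.trans_le (le_max_right _ _)
  have z0 : ∫⁻ p in {s | s ∈ Icc t (t + 2 * Θ) ∧ D.kb s ≤ Real.exp v₁} ×ˢ Z,
      ENNReal.ofReal ((dep v₁ (D.kb p.1) / V) ^ 2) ∂Y.H ≤ 0 := by
    refine (setLIntegral_mono' (g := fun _ => 0) ((co.preimage_isClosed_of_isClosed isClosed_Icc
      isClosed_Iic).measurableSet.prod hZ) fun p hp => ?_).trans lintegral_zero.le
    have : dep v₁ (D.kb p.1) = 0 :=
      max_eq_left (sub_nonpos.2 ((Real.log_le_iff_le_exp (kp _)).2 hp.1.2))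
    rw [this, zero_div]
    simp
  have zj : ∀ j : ℕ, ∫⁻ p in {s | s ∈ Icc t (t + 2 * Θ) ∧ Real.exp v₁ * 2 ^ j ≤ D.kb s ∧
      D.kb s ≤ 2 * (Real.exp v₁ * 2 ^ j)} ×ˢ Z,
      ENNReal.ofReal ((dep v₁ (D.kb p.1) / V) ^ 2) ∂Y.H ≤
      ENNReal.ofReal (Real.exp (-S) * (((j : ℝ) + 1) ^ 2 * Real.exp (-Real.log 2 / B₁) ^ j)) *
        Y.H (Icc t (t + 2 * Θ) ×ˢ Z) := by
    intro j
    refine (setLIntegral_mono' (g := fun _ => ENNReal.ofReal (((j : ℝ) + 1) ^ 2))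
      ((co.preimage_isClosed_of_isClosed isClosed_Icc isClosed_Icc).measurableSet.prod hZ)
      fun p hp => ENNReal.ofReal_le_ofReal ?_).trans ?_
    · have h1 := Real.log_le_log (kp _) hp.1.2.2
      rw [Real.log_mul (by positivity) (by positivity), Real.log_mul (by positivity) (by positivity),
        Real.log_exp, Real.log_pow] at h1
      have h2 : Real.log 2 ≤ 1 := by linarith [Real.log_le_sub_one_of_pos (two_pos (α := ℝ))]
      have h3 : (j : ℝ) * Real.log 2 ≤ j := mul_le_of_le_one_right (Nat.cast_nonneg _) h2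
      have h4 : dep v₁ (D.kb p.1) ≤ j + 1 := max_le (by positivity) (by linarith)
      have h5 : 0 ≤ dep v₁ (D.kb p.1) := le_max_left _ _
      exact pow_le_pow_left₀ (by positivity) ((div_le_self h5 hV).trans h4) 2
    · rw [setLIntegral_const]
      refine (mul_le_mul_right (R10_band D hY ht (k16 j) hBc (Real.exp_pos _).le (cnt D)
        (fun a s h1 h2 h3 => R10_one D hY ht (k16 j) h1 h2 h3 hB hG') hZ hs) _).trans ?_
      rw [← mul_assoc, ← ENNReal.ofReal_mul (sq_nonneg _)]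
      refine mul_le_mul_left (ENNReal.ofReal_le_ofReal ?_) _
      rw [mul_left_comm (Real.exp (-S))]
      exact mul_le_mul_of_nonneg_left (R10_num j (Nat.cast_nonneg A) hBc hV hS hB v2) (sq_nonneg _)
  refine (lintegral_mono_set sub).trans ((lintegral_union_le _ _ _).trans ?_)
  refine (add_le_add z0 ((lintegral_iUnion_le _ _).trans (ENNReal.tsum_le_tsum zj))).trans ?_
  rw [zero_add, ENNReal.tsum_mul_right, ← ENNReal.ofReal_tsum_of_nonneg (fun j => by positivity)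
    (sm.mul_left _), tsum_mul_left, ← hSd]
  refine mul_le_of_le_one_left' (ENNReal.ofReal_le_one.2 ?_)
  rw [Real.exp_neg, inv_mul_le_iff₀ (Real.exp_pos S)]
  linarith [Real.add_one_le_exp S]

end Pool.Agent.Work.MP_042f46_an.Fu
end
end
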