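import Pool.Agent.Work.MP_042f46_an.F.R2

/-!
# Local theory

`C` is the constant of `Fac.scale`, `s = r x₀ / A`.
`loc_scale`: `fac`, `within`, `u_pos`; lower bound by `L_h` with `d y / 2` (`flat`; `r y ≥ r x₀ - s ≥ s ≥ d y`); upper bound by `rev` with `D = min s (ϱ y / (8 C1))`, `U_h` and `good_of_lt`.
`low`: if `u x > r x / A` there is nothing to prove; otherwise `d ≤ B κ u` and `u s ≤ C d ^ 2` give `s ≤ C B κ d ≤ C B ^ 2 κ ^ 2 u`.
`GR`: `far_point`; if `u x₀ > r x₀ / A` take `x₀`; otherwise `gen` in `[x₀, x₀ + min s (len / 3)]`.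
`short`: `δ = |x - y|`.  One of the two units with end point `x` lies between `x` and `y`.  If it is the unit at `x`, `u x ≤ δ`.  Otherwise it is the unit at a point `x'` with `|ι x' - ι x| = 2 θ`, `u x' ≤ δ`, `r x' ≥ r x / 2`; `low` with `κ = 4` shows `4 < k x'` when `B` is large, so `u x ≤ C1 u x'` (`good_of_lt`).
`LOC`: `h₀ = 64 C1 ^ 2`.  By `short` and `low` with `κ = h₀`, `k x ≥ h₀` when `B` is large; so `u x ≤ r x / A` (`U_r`), `loc_scale` at `x`, and `ϱ x`, `ϱ' x`, `d x` are comparable.  If `δ ≤ ϱ x / (8 C1)`: `U_h`, `unit_ge` give `|Δ t| ≤ 4 C1 k θ δ / ϱ`, `kb_lip` gives `|Δ log k| ≤ 2 |Δ t| / (k θ)`, and `k θ ≤ 16 C1 ^ 2 w x` (`unit_le` on `[t, t + max η (2 θ)]`, `η` the inner length of `[x, x + ϱ / (16 C1)]`; if `max η (2 θ) > k θ / 2` it is clear).  Otherwise `log (1 + δ / ϱ')` is bounded below.  `|Δ t| ≤ w x`.  If `k y < 8`: `u y ≥ r y / B ≥ r x / (2 B)` (`low`) and `grow` bound `k x = ϱ x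 / u x`.  If `k y ≥ 8`: `d y ≥ min (ϱ y) s / B ≥ c ϱ x`, `grow` in both directions, and `ϱ x ≤ ϱ y ≤ C' (d x + δ)` (`ϱ y ≤ 8 C1 r y ≤ 16 C1 A s`, so `ϱ y ≤ C' min (ϱ y) s`).
-/

open Set Metric Topology Filter MeasureTheory
open scoped ENNReal NNReal

noncomputable section
namespace Pool.Agent.Work.MP_042f46_an.Fu

open Pool.Agent.Work.MP_042f46_an.Ty

theorem R3_mono {A : ℕ} {C C' : ℝ} {u d : ℝ → ℝ} {x s : ℝ} (h : Scale A C u x s d) (hs : 0 < s)
    (hC0 : 0 ≤ C) (hC : C ≤ C') : Scale A C' u x s d := by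
  have m : ∀ y ∈ Icc (x - s) (x + s), y ∈ Icc (x - 2 * s) (x + 2 * s) := fun y hy =>
    ⟨by linarith [hy.1], by linarith [hy.2]⟩
  refine ⟨h.lip, h.le, h.pos, h.top, h.flat, h.grow, fun a D hD => ?_, fun y hy D h1 h2 h3 => ?_,
    fun y hy => ?_, h.half.trans (ENNReal.ofReal_le_ofReal hC), fun κ Λ h1 h2 => ?_⟩
  · obtain ⟨y, h1, h2⟩ := h.gen a D hD
    have h3 : 0 < C * d y := (lt_min hD hs).trans_le h2
    have h4 : 0 < d y := by
      by_contra h4
      exact absurd h3 (not_lt.2 (mul_nonpos_of_nonneg_of_nonpos hC0 (not_lt.1 h4)))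
    exact ⟨y, h1, h2.trans (mul_le_mul_of_nonneg_right hC h4.le)⟩
  · exact (h.rev y hy D h1 h2 h3).trans (mul_le_mul_of_nonneg_right hC (h.pos y (m y hy)).le)
  · exact (h.low y hy).trans (mul_le_mul_of_nonneg_right hC (sq_nonneg _))
  · exact (h.win κ Λ h1 h2).trans
      (ENNReal.ofReal_le_ofReal (mul_le_mul_of_nonneg_right hC (by linarith)))

theorem R3_C1 (A : ℕ) : 0 ≤ C1 A := by
  unfold C1
  positivity

theorem R3_σ (X : Ch) {s t : ℝ} (hs : |s| ≤ 1 / 4) (ht : |t| ≤ 1 / 4) (h : s ≤ t) :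
    X.σ s ≤ X.σ t := by
  have a := abs_le.1 hs
  have b := abs_le.1 ht
  rw [← X.ι_mono.le_iff_le, X.ι_σ s ⟨by linarith, by linarith⟩, X.ι_σ t ⟨by linarith, by linarith⟩]
  exact h

theorem R3_ισ (X : Ch) {s : ℝ} (hs : |s| ≤ 1 / 4) : X.ι (X.σ s) = s := by
  have a := abs_le.1 hs
  exact X.ι_σ s ⟨by linarith, by linarith⟩

theorem R3_log {a b K W : ℝ} {N : ℕ} (ha : 0 < a) (hb : 0 < b) (hK : 0 < K) (hW : 0 < W)
    (h1 : a ≤ K * W ^ N * b) (h2 : b ≤ K * W ^ N * a) :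
    |Real.log a - Real.log b| ≤ K + N * Real.log W := by
  have e : ∀ c, 0 < c → Real.log (K * W ^ N * c) = Real.log K + N * Real.log W + Real.log c :=
    fun c hc => by
      rw [Real.log_mul (by positivity) hc.ne', Real.log_mul hK.ne' (by positivity), Real.log_pow]
  have a1 := Real.log_le_log ha h1
  have a2 := Real.log_le_log hb h2
  rw [e b hb] at a1
  rw [e a ha] at a2
  have a3 := Real.log_le_sub_one_of_pos hK
  exact abs_le.2 ⟨by linarith, by linarith⟩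

theorem R3_log1 {v : ℝ} (h0 : 0 ≤ v) (h1 : v ≤ 1) : v / 2 ≤ Real.log (1 + v) := by
  have a := Real.one_sub_inv_le_log_of_pos (by linarith : 0 < 1 + v)
  have b : (1 + v)⁻¹ ≤ 1 - v / 2 := by
    rw [inv_le_iff_one_le_mul₀ (by linarith)]
    nlinarith
  linarith

theorem R3_log2 {a b e : ℝ} (ha : 0 < a) (h1 : |b - a| ≤ e * a) (h2 : e ≤ 1 / 2) :
    |Real.log a - Real.log b| ≤ 2 * e := by
  obtain ⟨h3, h4⟩ := abs_le.1 h1
  have e0 : 0 ≤ e := by
    by_contra h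
    nlinarith [abs_nonneg (b - a), not_le.1 h]
  have hb : a / 2 ≤ b := by nlinarith
  have b0 : 0 < b := by linarith
  have a1 := Real.log_le_sub_one_of_pos (div_pos ha b0)
  have a2 := Real.log_le_sub_one_of_pos (div_pos b0 ha)
  rw [Real.log_div ha.ne' b0.ne'] at a1
  rw [Real.log_div b0.ne' ha.ne'] at a2
  have a3 : a / b ≤ 1 + 2 * e := by
    rw [div_le_iff₀ b0]
    nlinarith
  have a4 : b / a ≤ 1 + 2 * e := by
    rw [div_le_iff₀ ha]
    nlinarith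
  exact abs_le.2 ⟨by linarith, by linarith⟩

namespace RD

variable {A : ℕ} {V ρ₀ Θ θ : ℝ} {X X' : Ch} (D : RD A V ρ₀ Θ θ X X') {x y : ℝ}

include D in
theorem R3_A : (300 : ℝ) ≤ A ∧ (A : ℝ) ≤ C1 A := by
  have h := D.A_ge
  exact ⟨by exact_mod_cast h, (one_le_C1 (by omega)).1⟩

include D in
theorem R3_In {n n' : ℝ} (h : In X ρ₀ Θ n x) (hn : n ≤ n') : In X ρ₀ Θ n' x := by
  have h1 := D.θ_pos
  have h2 := D.θ_le
  exact le_trans h (by nlinarith)

theorem R3_In' {n n' : ℝ} (h : In X ρ₀ Θ n x) (hy : |y - x| ≤ D.r x) (h1 : n ≤ 130)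
    (hn : n + 2 ≤ n') : In X ρ₀ Θ n' y := by
  have a := abs_le.1 (D.within (D.R3_In h h1) hy)
  have b := abs_le.1 h
  exact D.R3_In (n := n + 2) (abs_le.2 ⟨by linarith, by linarith⟩) hn

theorem R3_k (x : ℝ) : 1 ≤ D.k x := le_max_right _ _

theorem R3_r (x : ℝ) : 0 ≤ D.r x := infDist_nonneg

theorem R3_ϱ (h : In X ρ₀ Θ 200 x) : 0 < D.ϱ x :=
  mul_pos (by linarith [D.R3_k x]) (D.u_pos h)

theorem R3_good (h : In X ρ₀ Θ 130 x) {κ : ℝ} (h1 : 1 ≤ κ) (h2 : κ < D.k x) {s s' : ℝ}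
    (hs : |s - X.ι x| ≤ κ * θ) (hs' : |s' - X.ι x| ≤ κ * θ) :
    D.u (X.σ s) ≤ C1 A * D.u (X.σ s') := by
  have a : κ < D.hh (X.ι x) := (lt_max_iff.1 h2).resolve_right (by linarith)
  have b := abs_le.1 hs
  have c := abs_le.1 hs'
  exact (D.good_of_lt h (by linarith) a).2 s ⟨by linarith, by linarith⟩ s'
    ⟨by linarith, by linarith⟩

theorem R3_half (h : In X ρ₀ Θ 120 x) (hk : 8 ≤ D.k x) {s s' : ℝ}
    (hs : |s - X.ι x| ≤ D.k x * θ / 2) (hs' : |s' - X.ι x| ≤ D.k x * θ / 2) :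
    D.u (X.σ s) ≤ C1 A * D.u (X.σ s') :=
  D.R3_good (D.R3_In h (by norm_num)) (κ := D.k x / 2) (by linarith) (by linarith)
    (hs.trans_eq (by ring)) (hs'.trans_eq (by ring))

theorem R3_kθ (h : In X ρ₀ Θ 120 x) : D.k x * θ ≤ Θ := by
  have h1 := D.θ_pos
  have h2 := D.θ_le
  rw [← le_div_iff₀ h1]
  refine max_le (D.hh_le (D.R3_In h (by norm_num))) ?_
  rw [le_div_iff₀ h1]
  linarith

theorem R3_w (hy : |y - x| ≤ D.r x / 2) : |X.ι x - X.ι y| ≤ D.w x := by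
  have a := abs_le.1 hy
  have r0 := D.R3_r x
  have m := X.ι_mono.monotone
  have b1 := m (show y ≤ x + D.r x / 2 by linarith)
  have b2 := m (show x - D.r x / 2 ≤ y by linarith)
  have b3 := m (show x ≤ x + D.r x / 2 by linarith)
  have b4 := m (show x - D.r x / 2 ≤ x by linarith)
  unfold w
  exact abs_le.2 ⟨by linarith, by linarith⟩

theorem R3_near (h : In X ρ₀ Θ 120 x) (hk : 8 ≤ D.k x) (hy : |y - x| ≤ D.ϱ x / (8 * C1 A))
    (hΔ : 2 * θ ≤ |X.ι x - X.ι y|) :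
    |X.ι x - X.ι y| * D.u x ≤ 4 * C1 A * θ * |x - y| := by
  have h1 := D.θ_pos
  have h2 := D.θ_le
  obtain ⟨A1, A2⟩ := D.R3_A
  have c0 : 0 < C1 A := by linarith
  have a := D.U_h h hk hy
  have a' := abs_le.1 a
  have b := D.R3_kθ h
  have c := abs_le.1 h
  have k0 : 0 ≤ D.k x * θ / 2 := (abs_nonneg _).trans a
  have key : ∀ p q : ℝ, |X.ι p - X.ι x| ≤ D.k x * θ / 2 → |X.ι q - X.ι x| ≤ D.k x * θ / 2 →
      X.ι p + 2 * θ ≤ X.ι q → (X.ι q - X.ι p) * D.u x ≤ 4 * C1 A * θ * (q - p) := by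
    intro p q hp hq hpq
    have p' := abs_le.1 hp
    have q' := abs_le.1 hq
    have := D.unit_ge (a := X.ι p) (b := X.ι q) (abs_le.2 ⟨by linarith, by linarith⟩)
      (abs_le.2 ⟨by linarith, by linarith⟩) hpq (m := D.u x / C1 A) fun s hs => by
        have := D.R3_half h hk (s := X.ι x) (s' := s) (by simpa using k0)
          (abs_le.2 ⟨by linarith [hs.1], by linarith [hs.2]⟩)
        rw [X.σ_ι] at this
        rwa [div_le_iff₀' c0]
    rw [Ch.len, X.σ_ι, X.σ_ι, div_mul_div_comm, div_le_iff₀ (by positivity)] at this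
    linarith
  have z : |X.ι x - X.ι x| ≤ D.k x * θ / 2 := by simpa using k0
  rcases le_total x y with e | e
  · have e' := X.ι_mono.monotone e
    rw [abs_sub_comm, abs_of_nonneg (by linarith)] at hΔ
    rw [abs_sub_comm, abs_of_nonneg (by linarith), abs_sub_comm, abs_of_nonneg (by linarith)]
    exact key x y z a (by linarith)
  · have e' := X.ι_mono.monotone e
    rw [abs_of_nonneg (by linarith)] at hΔ
    rw [abs_of_nonneg (by linarith), abs_of_nonneg (by linarith)]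
    exact key y x a z (by linarith)

theorem R3_kw (h : In X ρ₀ Θ 120 x) (hk : 8 ≤ D.k x) (hw : 2 * θ ≤ D.w x) :
    D.k x * θ ≤ 16 * C1 A ^ 2 * D.w x := by
  have h1 := D.θ_pos
  have h2 := D.θ_le
  have h3 := D.ρ_le
  obtain ⟨A1, A2⟩ := D.R3_A
  have c0 : 0 < C1 A := by linarith
  have u0 := D.u_pos (D.R3_In h (by norm_num))
  have ϱ0 := D.R3_ϱ (D.R3_In h (by norm_num))
  have r0 := D.R3_r x
  have b := D.R3_kθ h
  have c := abs_le.1 h
  obtain ⟨g, hg⟩ : ∃ g, g = D.ϱ x / (16 * C1 A) := ⟨_, rfl⟩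
  have g0 : 0 < g := by rw [hg]; positivity
  have g1 : g ≤ D.r x / 2 := by
    rw [hg, div_le_iff₀ (by positivity)]
    linarith [D.U_r h hk]
  have g2 : |x + g - x| ≤ D.ϱ x / (8 * C1 A) := by
    rw [add_sub_cancel_left, abs_of_pos g0, hg]
    exact div_le_div_of_nonneg_left ϱ0.le (by positivity) (by linarith)
  have a := abs_le.1 (D.U_h h hk g2)
  have a2 := abs_le.1 (D.R3_w (y := x + g) (by rwa [add_sub_cancel_left, abs_of_pos g0]))
  obtain ⟨η, hη⟩ : ∃ η, η = max (X.ι (x + g) - X.ι x) (2 * θ) := ⟨_, rfl⟩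
  have e1 : X.ι (x + g) - X.ι x ≤ η := hη ▸ le_max_left _ _
  have e2 : 2 * θ ≤ η := hη ▸ le_max_right _ _
  have e3 : η ≤ D.w x := hη ▸ max_le (by linarith) hw
  have e4 : η ≤ D.k x * θ / 2 := hη ▸ max_le (by linarith) (by nlinarith)
  have f := D.unit_le (a := X.ι x) (b := X.ι x + η) (abs_le.2 ⟨by linarith, by linarith⟩)
    (abs_le.2 ⟨by linarith, by linarith⟩) (by linarith) (m := C1 A * D.u x) fun s hs => by
      have := D.R3_half h hk (s := s) (s' := X.ι x)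
        (abs_le.2 ⟨by linarith [hs.1], by linarith [hs.2]⟩) (by simpa using by linarith)
      rwa [X.σ_ι] at this
  have f2 := R3_σ X (s := X.ι (x + g)) (t := X.ι x + η) (abs_le.2 ⟨by linarith, by linarith⟩)
    (abs_le.2 ⟨by linarith, by linarith⟩) (by linarith)
  rw [Ch.len, X.σ_ι, add_sub_cancel_left] at f
  rw [X.σ_ι] at f2
  have f3 : D.k x * D.u x / (16 * C1 A) ≤ η / θ * (C1 A * D.u x) := by
    have : g ≤ η / θ * (C1 A * D.u x) := by linarith
    rwa [hg] at this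
  rw [div_mul_eq_mul_div, div_le_div_iff₀ (by positivity) h1] at f3
  have f4 : D.k x * θ * D.u x ≤ 16 * C1 A ^ 2 * η * D.u x := by linarith
  exact (le_of_mul_le_mul_right f4 u0).trans (mul_le_mul_of_nonneg_left e3 (by positivity))

end RD

theorem loc_scale (A : ℕ) : ∃ B : ℝ, 1 ≤ B ∧ ∀ {V ρ₀ Θ θ : ℝ} {X X' : Ch} (D : RD A V ρ₀ Θ θ X X')
    (x : ℝ), In X ρ₀ Θ 100 x → D.u x ≤ D.r x / A → ∃ d, Scale A B D.u x (D.r x / A) d ∧
      ∀ y ∈ Icc (x - D.r x / A) (x + D.r x / A), d y ≤ B * D.ϱ' y ∧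
        (8 ≤ D.k y → min (D.ϱ y) (D.r x / A) ≤ B * d y) := by
  obtain ⟨C, hC, h⟩ := Fac.scale A
  have c0 := R3_C1 A
  have b1 : C ≤ C * (8 * C1 A + 1) := by nlinarith
  refine ⟨C * (8 * C1 A + 1), hC.trans b1, fun {V ρ₀ Θ θ X X'} D x hx hu => ?_⟩
  obtain ⟨A1, A2⟩ := D.R3_A
  obtain ⟨s, hs⟩ : ∃ s, s = D.r x / A := ⟨_, rfl⟩
  have e : D.r x = s * A := by rw [hs, div_mul_cancel₀ _ (by linarith)]
  have s0 : 0 < s := hs ▸ (D.u_pos (D.R3_In hx (by norm_num))).trans_le hu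
  have s1 : 300 * s ≤ D.r x := by nlinarith
  have i : ∀ y ∈ Icc (x - 2 * s) (x + 2 * s), In X ρ₀ Θ 120 y := fun y hy =>
    D.R3_In' hx (abs_le.2 ⟨by linarith [hy.1], by linarith [hy.2]⟩) (by norm_num) (by norm_num)
  obtain ⟨d, hd⟩ := h D.u x s (by have := D.A_ge; omega) s0 (hs ▸ D.fac x hx hu)
    fun y hy => D.u_pos (D.R3_In (i y hy) (by norm_num))
  rw [← hs]
  refine ⟨d, R3_mono hd s0 (by linarith) b1, fun y hy => ?_⟩
  have m : y ∈ Icc (x - 2 * s) (x + 2 * s) := ⟨by linarith [hy.1], by linarith [hy.2]⟩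
  have d0 := hd.pos y m
  have ϱ0 := D.R3_ϱ (D.R3_In (i y m) (by norm_num))
  have r1 : d y ≤ D.r y := by
    have a := (abs_le.1 (D.r_lip x y)).2
    have b : |x - y| ≤ s := abs_le.2 ⟨by linarith [hy.2], by linarith [hy.1]⟩
    linarith [hd.le y]
  constructor
  · have a := D.L_h (i y m) (d := d y / 2) (by linarith) (hd.flat y hy)
    rw [RD.ϱ', mul_min_of_nonneg _ _ (by positivity)]
    refine le_min ?_ (r1.trans (le_mul_of_one_le_left (D.R3_r y) (hC.trans b1)))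
    have : 2 * C1 A ≤ C * (8 * C1 A + 1) := by nlinarith
    nlinarith
  · intro hk
    have c1 : 0 < 8 * C1 A := by linarith
    have a := hd.rev y hy (min s (D.ϱ y / (8 * C1 A))) (lt_min s0 (div_pos ϱ0 c1))
      (min_le_left _ _) fun y' hy' => by
        have b := D.U_h (i y m) hk (y := y') (abs_le.2
          ⟨by linarith [hy'.1, div_pos ϱ0 c1], by linarith [hy'.2, min_le_right s (D.ϱ y / (8 * C1 A))]⟩)
        have := D.R3_half (i y m) hk (s' := X.ι y) b (by simpa using (abs_nonneg _).trans b)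
        rwa [X.σ_ι, X.σ_ι] at this
    have b : min (D.ϱ y) s ≤ 8 * C1 A * min s (D.ϱ y / (8 * C1 A)) := by
      rw [mul_min_of_nonneg _ _ c1.le, mul_div_cancel₀ _ c1.ne']
      exact le_min ((min_le_right _ _).trans (le_mul_of_one_le_left s0.le (by linarith)))
        (min_le_left _ _)
    have c := mul_le_mul_of_nonneg_left a c1.le
    nlinarith [mul_pos (by linarith : 0 < C) d0]

theorem low (A : ℕ) : ∃ B : ℝ, 1 ≤ B ∧ ∀ {V ρ₀ Θ θ : ℝ} {X X' : Ch} (D : RD A V ρ₀ Θ θ X X')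
    (x κ : ℝ), In X ρ₀ Θ 100 x → D.k x ≤ κ → D.r x ≤ B * κ ^ 2 * D.u x := by
  obtain ⟨B, hB, h⟩ := loc_scale A
  have b3 : 1 ≤ B ^ 3 := one_le_pow₀ hB
  have A0 : (0 : ℝ) ≤ A := Nat.cast_nonneg A
  refine ⟨(A + 1) * B ^ 3, by nlinarith, fun {V ρ₀ Θ θ X X'} D x κ hx hk => ?_⟩
  obtain ⟨A1, -⟩ := D.R3_A
  have u0 := D.u_pos (D.R3_In hx (by norm_num))
  have k1 : 1 ≤ κ := (D.R3_k x).trans hk
  have k2 : 1 ≤ κ ^ 2 := one_le_pow₀ k1
  have e : D.r x / A ≤ B ^ 3 * κ ^ 2 * D.u x := by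
    by_cases hu : D.u x ≤ D.r x / A
    · obtain ⟨d, hd, h2⟩ := h D x hx hu
      have s0 := u0.trans_le hu
      have m : x ∈ Icc (x - D.r x / A) (x + D.r x / A) := ⟨by linarith, by linarith⟩
      have a := hd.low x m
      have b : d x ≤ B * (κ * D.u x) := (h2 x m).1.trans (mul_le_mul_of_nonneg_left
        ((min_le_left _ _).trans (mul_le_mul_of_nonneg_right hk u0.le)) (by linarith))
      have c := pow_le_pow_left₀ (hd.pos x ⟨by linarith, by linarith⟩).le b 2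
      have f := a.trans (mul_le_mul_of_nonneg_left c (by linarith))
      refine le_of_mul_le_mul_left (f.trans_eq (by ring)) u0
    · exact (not_le.1 hu).le.trans (le_mul_of_one_le_left u0.le (by nlinarith))
  rw [div_le_iff₀ (by linarith)] at e
  have : 0 ≤ B ^ 3 * κ ^ 2 * D.u x := by positivity
  linarith

theorem GR (A : ℕ) : ∃ B : ℝ, 1 ≤ B ∧ ∀ {V ρ₀ Θ θ : ℝ} {X X' : Ch} (D : RD A V ρ₀ Θ θ X X')
    (a b : ℝ), |a| ≤ ρ₀ + 90 * Θ → a < b → b ≤ a + 8 * Θ →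
      ∃ t ∈ Icc a b, X.len a b ≤ B * D.ϱ' (X.σ t) := by
  obtain ⟨B, hB, h⟩ := loc_scale A
  have b2 : 1 ≤ B ^ 2 := one_le_pow₀ hB
  have A0 : (0 : ℝ) ≤ A := Nat.cast_nonneg A
  have A2 : (3 : ℝ) ≤ 6 * (A + 1) ^ 2 := by nlinarith
  refine ⟨6 * (A + 1) ^ 2 * B ^ 2, by nlinarith, fun {V ρ₀ Θ θ X X'} D a b ha hab hb => ?_⟩
  obtain ⟨A1, -⟩ := D.R3_A
  have h1 := D.θ_pos
  have h2 := D.θ_le
  have h3 := D.ρ_le
  have a' := abs_le.1 ha
  have qa : |a| ≤ 1 / 4 := by linarith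
  have qb : |b| ≤ 1 / 4 := abs_le.2 ⟨by linarith, by linarith⟩
  obtain ⟨x, x1, x2, x3⟩ := D.far_point (a := a) (b := b) (by linarith) hab (by linarith)
  have l0 : 0 < X.len a b := by
    have : X.σ a < X.σ b := by
      rw [← X.ι_mono.lt_iff_lt, R3_ισ X qa, R3_ισ X qb]
      exact hab
    exact sub_pos.2 this
  have m : ∀ y, x ≤ y → y ≤ x + X.len a b / 3 → X.ι y ∈ Icc a b := fun y y1 y2 =>
    ⟨(R3_ισ X qa).ge.trans (X.ι_mono.monotone (by linarith)),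
      (X.ι_mono.monotone (by linarith)).trans (R3_ισ X qb).le⟩
  have mx := m x le_rfl (by linarith)
  have hx : In X ρ₀ Θ 100 x := abs_le.2 ⟨by linarith [mx.1], by linarith [mx.2]⟩
  obtain ⟨s, hs⟩ : ∃ s, s = D.r x / A := ⟨_, rfl⟩
  have e : D.r x = s * A := by rw [hs, div_mul_cancel₀ _ (by linarith)]
  have s0 : 0 < s := by
    by_contra c
    nlinarith [not_lt.1 c, mul_nonneg A0 A0]
  have l1 : X.len a b ≤ 6 * (A + 1) ^ 2 * min s (X.len a b / 3) := by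
    rw [mul_min_of_nonneg _ _ (by linarith)]
    exact le_min (by nlinarith) (by nlinarith)
  suffices ∃ y, x ≤ y ∧ y ≤ x + X.len a b / 3 ∧ min s (X.len a b / 3) ≤ B ^ 2 * D.ϱ' y by
    obtain ⟨y, y1, y2, y3⟩ := this
    refine ⟨_, m y y1 y2, ?_⟩
    rw [X.σ_ι, mul_assoc]
    exact l1.trans (mul_le_mul_of_nonneg_left y3 (by linarith))
  by_cases hu : D.u x ≤ D.r x / A
  · obtain ⟨d, hd, h4⟩ := h D x hx hu
    rw [← hs] at hd h4
    obtain ⟨y, y1, y2⟩ := hd.gen x (min s (X.len a b / 3)) (lt_min s0 (by linarith))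
    have y3 := (h4 y ⟨by linarith [y1.1], by linarith [y1.2, min_le_left s (X.len a b / 3)]⟩).1
    rw [min_eq_left (min_le_left _ _)] at y2
    refine ⟨y, y1.1, by linarith [y1.2, min_le_right s (X.len a b / 3)], ?_⟩
    rw [sq, mul_assoc]
    exact y2.trans (mul_le_mul_of_nonneg_left y3 (by linarith))
  · have u1 : s ≤ D.ϱ' x := le_min
      ((hs ▸ (not_le.1 hu).le).trans (le_mul_of_one_le_left (D.u_pos (D.R3_In hx (by norm_num))).le
        (D.R3_k x))) (by nlinarith)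
    exact ⟨x, le_rfl, by linarith, ((min_le_left _ _).trans u1).trans
      (le_mul_of_one_le_left (by linarith) b2)⟩

theorem short (A : ℕ) : ∃ B : ℝ, 1 ≤ B ∧ ∀ {V ρ₀ Θ θ : ℝ} {X X' : Ch} (D : RD A V ρ₀ Θ θ X X')
    (x y : ℝ), In X ρ₀ Θ 90 x → B * |x - y| ≤ D.r x → 2 * θ ≤ |X.ι x - X.ι y| →
      D.u x ≤ C1 A * |x - y| := by
  obtain ⟨B, hB, h⟩ := low A
  refine ⟨64 * B, by linarith, fun {V ρ₀ Θ θ X X'} D x y hx hr hΔ => ?_⟩
  have h1 := D.θ_pos
  have h2 := D.θ_le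
  have h3 := D.ρ_le
  have x' := abs_le.1 hx
  have δ0 : 0 < |x - y| := abs_pos.2 fun e => by
    rw [sub_eq_zero.1 e, sub_self, abs_zero] at hΔ
    linarith
  have δ1 : 64 * |x - y| ≤ 64 * B * |x - y| := by nlinarith
  have y' := abs_le.1 (D.R3_In' (y := y) (n' := 92) hx (by rw [abs_sub_comm]; linarith)
    (by norm_num) (by norm_num))
  have key : ∀ l p q : ℝ, X.ι p ≤ l → l + 2 * θ ≤ X.ι q → |X.ι p| ≤ ρ₀ + 92 * Θ →
      |X.ι q| ≤ ρ₀ + 92 * Θ → ∃ t, l ≤ t ∧ t ≤ l + 2 * θ ∧ p ≤ X.σ t ∧ X.σ t ≤ q ∧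
        D.u (X.σ t) ≤ q - p := by
    intro l p q a b hp hq
    have p' := abs_le.1 hp
    have q' := abs_le.1 hq
    have l1 : |l| ≤ ρ₀ + 92 * Θ := abs_le.2 ⟨by linarith, by linarith⟩
    have l2 : |l + 2 * θ| ≤ ρ₀ + 92 * Θ := abs_le.2 ⟨by linarith, by linarith⟩
    have m1 := R3_σ X (by linarith) (by linarith) a
    have m2 := R3_σ X (s := l) (t := l + 2 * θ) (by linarith) (by linarith) (by linarith)
    have m3 := R3_σ X (by linarith) (by linarith) b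
    rw [X.σ_ι] at m1 m3
    rcases D.u_eq (t := l) (by linarith) with ⟨-, e⟩ | ⟨e1, -⟩
    · exact ⟨l, le_rfl, by linarith, m1, by linarith, by rw [e, Ch.len]; linarith⟩
    · rcases D.u_eq (t := l + 2 * θ) (by linarith) with ⟨e2, -⟩ | ⟨-, e⟩
      · linarith
      · exact ⟨l + 2 * θ, by linarith, le_rfl, by linarith, m3, by
          rw [e, Ch.len, add_sub_cancel_right]; linarith⟩
  obtain ⟨t, t1, t2, t3⟩ : ∃ t, |X.ι x - t| ≤ 2 * θ ∧ |x - X.σ t| ≤ |x - y| ∧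
      D.u (X.σ t) ≤ |x - y| := by
    rcases le_total x y with e | e
    · have e' := X.ι_mono.monotone e
      rw [abs_sub_comm, abs_of_nonneg (by linarith)] at hΔ
      obtain ⟨t, a1, a2, a3, a4, a5⟩ := key (X.ι x) x y le_rfl (by linarith)
        (abs_le.2 ⟨by linarith, by linarith⟩) (abs_le.2 y')
      rw [abs_sub_comm x y, abs_of_nonneg (by linarith : 0 ≤ y - x)]
      exact ⟨t, abs_le.2 ⟨by linarith, by linarith⟩, abs_le.2 ⟨by linarith, by linarith⟩, a5⟩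
    · have e' := X.ι_mono.monotone e
      rw [abs_of_nonneg (by linarith)] at hΔ
      obtain ⟨t, a1, a2, a3, a4, a5⟩ := key (X.ι x - 2 * θ) y x (by linarith) (by linarith)
        (abs_le.2 y') (abs_le.2 ⟨by linarith, by linarith⟩)
      rw [abs_of_nonneg (by linarith : 0 ≤ x - y)]
      exact ⟨t, abs_le.2 ⟨by linarith, by linarith⟩, abs_le.2 ⟨by linarith, by linarith⟩, a5⟩
  have t' := abs_le.1 t1
  have e : X.ι (X.σ t) = t := R3_ισ X (abs_le.2 ⟨by linarith, by linarith⟩)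
  have ht : In X ρ₀ Θ 100 (X.σ t) := by
    rw [In, e]
    exact abs_le.2 ⟨by linarith, by linarith⟩
  have hk : 4 < D.k (X.σ t) := by
    by_contra c
    have a := h D _ 4 ht (not_lt.1 c)
    have b := (abs_le.1 (D.r_lip x (X.σ t))).2
    have c := mul_le_mul_of_nonneg_left t3 (by positivity : 0 ≤ B * 4 ^ 2)
    nlinarith
  have a := D.R3_good (D.R3_In ht (by norm_num)) (κ := 2) (by norm_num) (by linarith)
    (s := X.ι x) (s' := t) (by rwa [e]) (by rw [e, sub_self, abs_zero]; linarith)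
  rw [X.σ_ι] at a
  exact a.trans (mul_le_mul_of_nonneg_left t3 (R3_C1 A))

/-- the values of `k` are comparable up to a power -/
theorem R3_far (A : ℕ) : ∃ K : ℝ, 0 < K ∧ ∀ {V ρ₀ Θ θ : ℝ} {X X' : Ch} (D : RD A V ρ₀ Θ θ X X')
    (x y : ℝ), In X ρ₀ Θ 90 x → |x - y| ≤ D.r x / A → D.u x ≤ D.r x / A → 8 ≤ D.k x →
      D.ϱ x ≤ D.ϱ y → |Real.log (D.k x) - Real.log (D.k y)| ≤
        K + (2 * A + 1 : ℕ) * Real.log (1 + |x - y| / D.ϱ' x) := by
  obtain ⟨B, hB, h⟩ := loc_scale A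
  have c0 := R3_C1 A
  obtain ⟨E, hE⟩ : ∃ E : ℝ, E = 16 * C1 A * A * B := ⟨_, rfl⟩
  have E0 : 0 ≤ E := by rw [hE]; positivity
  refine ⟨E * B * (A ^ 2 * E ^ (2 * A)) + 1, by positivity,
    fun {V ρ₀ Θ θ X X'} D x y hx hδ hu hk hϱ => ?_⟩
  obtain ⟨A1, A2⟩ := D.R3_A
  obtain ⟨d, hd, h4⟩ := h D x (D.R3_In hx (by norm_num)) hu
  obtain ⟨s, hs⟩ : ∃ s, s = D.r x / A := ⟨_, rfl⟩
  have e : D.r x = s * A := by rw [hs, div_mul_cancel₀ _ (by linarith)]
  rw [← hs] at hd h4 hδ hu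
  have ux := D.u_pos (D.R3_In hx (by norm_num))
  have s0 : 0 < s := ux.trans_le hu
  have s1 : 300 * s ≤ D.r x := by nlinarith
  have δ' := abs_le.1 hδ
  have δ0 := abs_nonneg (x - y)
  have hy : In X ρ₀ Θ 92 y :=
    D.R3_In' hx (by rw [abs_sub_comm]; linarith) (by norm_num) (by norm_num)
  have uy := D.u_pos (D.R3_In hy (by norm_num))
  have ϱx := D.R3_ϱ (D.R3_In hx (by norm_num))
  have ϱy := D.R3_ϱ (D.R3_In hy (by norm_num))
  have kx : 0 < D.k x := by linarith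
  have ky : 0 < D.k y := by linarith [D.R3_k y]
  have mx : x ∈ Icc (x - s) (x + s) := ⟨by linarith, by linarith⟩
  have my : y ∈ Icc (x - s) (x + s) := ⟨by linarith, by linarith⟩
  have mx2 : x ∈ Icc (x - 2 * s) (x + 2 * s) := ⟨by linarith, by linarith⟩
  have my2 : y ∈ Icc (x - 2 * s) (x + 2 * s) := ⟨by linarith, by linarith⟩
  have cA : 1 ≤ 16 * C1 A * A := by nlinarith
  have E1 : 1 ≤ E := by rw [hE]; nlinarith
  -- the flat scale is bounded by the distance to the zeros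
  have g : ∀ z ∈ Icc (x - s) (x + s), In X ρ₀ Θ 120 z → 8 ≤ D.k z → D.ϱ z ≤ E * d z := by
    intro z hz iz kz
    have a := D.U_r iz kz
    have b := (abs_le.1 (D.r_lip z x)).2
    have c : |z - x| ≤ s := abs_le.2 ⟨by linarith [hz.1], by linarith [hz.2]⟩
    have f : D.r z ≤ 2 * (s * A) := by linarith
    have f2 := mul_le_mul_of_nonneg_left f (by positivity : 0 ≤ 8 * C1 A)
    have ϱz := D.R3_ϱ (D.R3_In iz (by norm_num))
    have i : D.ϱ z ≤ 16 * C1 A * A * min (D.ϱ z) s := by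
      rw [mul_min_of_nonneg _ _ (by linarith)]
      exact le_min (le_mul_of_one_le_left ϱz.le cA) (by linarith)
    rw [hE, mul_assoc _ B]
    exact i.trans (mul_le_mul_of_nonneg_left ((h4 z hz).2 kz) (by linarith))
  have ϱ0 : 0 < D.ϱ' x := lt_min ϱx (by linarith)
  have ϱ1 : D.ϱ' x ≤ D.ϱ x := min_le_left _ _
  obtain ⟨W, hW⟩ : ∃ W, W = 1 + |x - y| / D.ϱ' x := ⟨_, rfl⟩
  have W1 : 1 ≤ W := by rw [hW]; exact le_add_of_nonneg_right (by positivity)
  have W2 : D.ϱ' x + |x - y| = W * D.ϱ' x := by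
    rw [hW, add_mul, one_mul, div_mul_cancel₀ _ ϱ0.ne']
  have gr : ∀ z ∈ Icc (x - 2 * s) (x + 2 * s), ∀ z' ∈ Icc (x - 2 * s) (x + 2 * s),
      |z - z'| = |x - y| → D.ϱ' x ≤ E * d z' → 0 < D.u z' →
      D.u z ≤ A ^ 2 * E ^ (2 * A) * W ^ (2 * A) * D.u z' := by
    intro z hz z' hz' e1 e2 e3
    have d0 := hd.pos z' hz'
    refine (hd.grow z hz z' hz').trans (mul_le_mul_of_nonneg_right ?_ e3.le)
    rw [mul_assoc, ← mul_pow, e1]
    refine mul_le_mul_of_nonneg_left (pow_le_pow_left₀ (by positivity) ?_ _) (by positivity)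
    have : |x - y| / d z' ≤ E * (|x - y| / D.ϱ' x) := by
      rw [← mul_div_assoc, div_le_div_iff₀ d0 ϱ0]
      nlinarith [mul_le_mul_of_nonneg_left e2 δ0]
    rw [hW]
    linarith
  obtain ⟨M, hM⟩ : ∃ M : ℝ, M = A ^ 2 * E ^ (2 * A) := ⟨_, rfl⟩
  have M0 : 0 ≤ M := by rw [hM]; positivity
  rw [← hM] at gr
  rw [← hM, ← hW]
  have EB : 1 ≤ E * B := by nlinarith
  have WN : 1 ≤ W ^ (2 * A) := one_le_pow₀ W1
  have WN1 : W ^ (2 * A) ≤ W ^ (2 * A + 1) := pow_le_pow_right₀ W1 (by omega)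
  have K1 : M ≤ E * B * M + 1 := by nlinarith
  refine R3_log kx ky (by positivity) (by linarith) ?_ ?_
  · have a := gr y my2 x mx2 (abs_sub_comm _ _) (ϱ1.trans (g x mx (D.R3_In hx (by norm_num)) hk)) ux
    have b : D.k x * D.u x ≤ M * W ^ (2 * A) * D.k y * D.u x :=
      hϱ.trans ((mul_le_mul_of_nonneg_left a ky.le).trans_eq (by ring))
    refine (le_of_mul_le_mul_right b ux).trans (mul_le_mul_of_nonneg_right ?_ ky.le)
    exact mul_le_mul K1 WN1 (by linarith) (by linarith)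
  · by_cases c : 8 ≤ D.k y
    · have a1 := g y my (D.R3_In hy (by norm_num)) c
      have a := gr x mx2 y my2 rfl ((ϱ1.trans hϱ).trans a1) uy
      have a2 : d y ≤ B * (W * D.ϱ' x) := by
        have b1 := (abs_le.1 (hd.lip x y)).1
        have b2 := (h4 x mx).1
        have b3 := le_mul_of_one_le_left δ0 hB
        rw [← W2]
        linarith
      have a3 : D.ϱ y ≤ E * (B * (W * (D.k x * D.u x))) := a1.trans
        (mul_le_mul_of_nonneg_left (a2.trans (mul_le_mul_of_nonneg_left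
          (mul_le_mul_of_nonneg_left ϱ1 (by linarith)) (by linarith))) E0)
      have a4 := mul_le_mul_of_nonneg_left a (by positivity : 0 ≤ E * B * W * D.k x)
      have b : D.k y * D.u y ≤ E * B * M * W ^ (2 * A + 1) * D.k x * D.u y := by
        refine a3.trans (le_trans (le_of_eq (by ring)) (a4.trans_eq (by ring)))
      refine (le_of_mul_le_mul_right b uy).trans (mul_le_mul_of_nonneg_right ?_ kx.le)
      exact mul_le_mul_of_nonneg_right (by linarith) (by linarith)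
    · refine ((not_le.1 c).le.trans hk).trans (le_mul_of_one_le_left kx.le ?_)
      exact one_le_mul_of_one_le_of_one_le (by nlinarith) (WN.trans WN1)

theorem LOC (A : ℕ) : ∃ B : ℝ, 1 ≤ B ∧ ∀ {V ρ₀ Θ θ : ℝ} {X X' : Ch} (D : RD A V ρ₀ Θ θ X X')
    (x y : ℝ), In X ρ₀ Θ 90 x → B * |x - y| ≤ D.r x → 8 * θ ≤ |X.ι x - X.ι y| → D.ϱ x ≤ D.ϱ y →
      |Real.log (D.k x) - Real.log (D.k y)| ≤ B * Real.log (1 + |x - y| / D.ϱ' x) ∧
        |X.ι x - X.ι y| ≤ B * D.w x * min 1 (|x - y| / D.ϱ' x) := by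
  obtain ⟨Bs, s1, hs⟩ := short A
  obtain ⟨Bl, l1, hl⟩ := low A
  obtain ⟨K, K0, hK⟩ := R3_far A
  have c0 := R3_C1 A
  have A0 : (0 : ℝ) ≤ A := Nat.cast_nonneg A
  have N0 : (0 : ℝ) ≤ (2 * A + 1 : ℕ) := Nat.cast_nonneg _
  have p1 : 0 ≤ 64 * Bl * C1 A := by positivity
  have p2 : 0 ≤ C1 A * A := by positivity
  have p3 : 0 ≤ 64 * C1 A ^ 3 := by positivity
  have p4 : 0 ≤ 16 * C1 A * K := by positivity
  obtain ⟨B, hB⟩ : ∃ B : ℝ, B = 2 + Bs + 64 * Bl * C1 A + C1 A * A + A + 64 * C1 A ^ 3 +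
    16 * C1 A + 16 * C1 A * K + (2 * A + 1 : ℕ) := ⟨_, rfl⟩
  have B0 : 0 < B := by linarith
  refine ⟨B, by linarith, fun {V ρ₀ Θ θ X X'} D x y hx hr hΔ hϱ => ?_⟩
  obtain ⟨A1, A2⟩ := D.R3_A
  have h1 := D.θ_pos
  have c1 : 0 < C1 A := by linarith
  have δ0 : 0 < |x - y| := abs_pos.2 fun e => by
    rw [sub_eq_zero.1 e, sub_self, abs_zero] at hΔ
    linarith
  have f : ∀ b, b ≤ B → b * |x - y| ≤ D.r x := fun b hb =>
    (mul_le_mul_of_nonneg_right hb δ0.le).trans hr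
  have i120 : In X ρ₀ Θ 120 x := D.R3_In hx (by norm_num)
  have ux := D.u_pos (D.R3_In hx (by norm_num))
  have ϱx := D.R3_ϱ (D.R3_In hx (by norm_num))
  have u1 := hs D x y hx (f _ (by linarith)) (by linarith)
  have hk : 8 ≤ D.k x := by
    by_contra c
    have a := hl D x 8 (D.R3_In hx (by norm_num)) (not_le.1 c).le
    have b := mul_le_mul_of_nonneg_left u1 (by positivity : 0 ≤ Bl * 8 ^ 2)
    have c := f (1 + 64 * Bl * C1 A) (by linarith)
    linarith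
  have u2 : D.u x ≤ D.r x / A := by
    rw [le_div_iff₀ (by linarith)]
    have a := f (C1 A * A) (by linarith)
    have b := mul_le_mul_of_nonneg_right u1 A0
    linarith
  have δ1 : |x - y| ≤ D.r x / A := by
    rw [le_div_iff₀ (by linarith)]
    linarith [f A (by linarith)]
  have δ2 := f 2 (by linarith)
  have w1 := D.R3_w (x := x) (y := y) (by rw [abs_sub_comm]; linarith)
  have w0 : 0 < D.w x := by linarith
  have w2 := D.R3_kw i120 hk (by linarith)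
  have ϱ0 : 0 < D.ϱ' x := lt_min ϱx (by linarith)
  have ϱ1 : D.ϱ' x ≤ D.ϱ x := min_le_left _ _
  obtain ⟨v, hv⟩ : ∃ v, v = |x - y| / D.ϱ x := ⟨_, rfl⟩
  have v0 : 0 < v := by rw [hv]; positivity
  have v1 : v ≤ |x - y| / D.ϱ' x := hv ▸ div_le_div_of_nonneg_left δ0.le ϱ0 ϱ1
  have v2 : v * D.ϱ x = |x - y| := by rw [hv, div_mul_cancel₀ _ ϱx.ne']
  have lg : ∀ z, 0 ≤ z → z ≤ 1 → z ≤ v → z / 2 ≤ Real.log (1 + |x - y| / D.ϱ' x) :=
    fun z a b c => (R3_log1 a b).trans (Real.log_le_log (by linarith) (by linarith))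
  have L0 : 0 ≤ Real.log (1 + |x - y| / D.ϱ' x) := Real.log_nonneg (by linarith)
  rw [mul_min_of_nonneg _ _ (by positivity : 0 ≤ B * D.w x), mul_one, le_min_iff]
  have g1 : |X.ι x - X.ι y| ≤ B * D.w x := w1.trans (le_mul_of_one_le_left w0.le (by linarith))
  have g2 : ∀ b, b ≤ B → |X.ι x - X.ι y| ≤ b * D.w x * v →
      |X.ι x - X.ι y| ≤ B * D.w x * (|x - y| / D.ϱ' x) := fun b hb h =>
    h.trans (mul_le_mul (mul_le_mul_of_nonneg_right hb w0.le) v1 v0.le (by positivity))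
  by_cases c : 8 * C1 A * v ≤ 1
  · have a : |y - x| ≤ D.ϱ x / (8 * C1 A) := by
      rw [abs_sub_comm, ← v2, le_div_iff₀ (by positivity)]
      linarith only [mul_le_mul_of_nonneg_right c ϱx.le]
    have b := D.R3_near i120 hk a (by linarith)
    have b1 : |X.ι x - X.ι y| ≤ 4 * C1 A * v * (D.k x * θ) := by
      rw [← v2, RD.ϱ] at b
      exact le_of_mul_le_mul_right (b.trans_eq (by ring)) ux
    refine ⟨?_, g1, g2 (64 * C1 A ^ 3) (by linarith) (b1.trans ?_)⟩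
    · have hy : In X ρ₀ Θ 130 y :=
        D.R3_In' hx (by rw [abs_sub_comm]; linarith) (by norm_num) (by norm_num)
      have b2 := D.kb_lip (t := X.ι x) (s := X.ι y) (D.R3_In hx (by norm_num)) hy
      have b3 : |D.k y - D.k x| ≤ 4 * C1 A * v * D.k x := by
        refine b2.trans ?_
        rw [div_le_iff₀ h1, abs_sub_comm]
        linarith
      have b4 := R3_log2 (by linarith) b3 (by linarith)
      have b5 := mul_le_mul_of_nonneg_left (lg v v0.le (le_trans (le_mul_of_one_le_left v0.le (by linarith)) c) le_rfl)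
        (by positivity : 0 ≤ 16 * C1 A)
      have b6 := mul_le_mul_of_nonneg_right (by linarith : 16 * C1 A ≤ B) L0
      linarith
    · exact (mul_le_mul_of_nonneg_left w2 (by positivity)).trans_eq (by ring)
  · have c := (not_le.1 c).le
    refine ⟨?_, g1, g2 (8 * C1 A) (by linarith) (w1.trans ?_)⟩
    · have a := hK D x y hx δ1 u2 hk hϱ
      have b := lg (1 / (8 * C1 A)) (by positivity) (by rw [div_le_one (by positivity)]; linarith)
        (by rw [div_le_iff₀ (by positivity)]; linarith)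
      have b1 : 1 ≤ 16 * C1 A * Real.log (1 + |x - y| / D.ϱ' x) := by
        rw [div_div, div_le_iff₀ (by positivity)] at b
        linarith
      have b2 := mul_le_mul_of_nonneg_left b1 K0.le
      have b3 := mul_le_mul_of_nonneg_right
        (by linarith : 16 * C1 A * K + (2 * A + 1 : ℕ) ≤ B) L0
      linarith
    · linarith only [mul_le_mul_of_nonneg_right c w0.le]

end Pool.Agent.Work.MP_042f46_an.Fu
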